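import Pool.Agent.S3.E.VAB

/-!
# Stage 3, block E: the second derivative in the edge variable, `a ≥ 3`

`Vx.phi3'`: by `Vx.sum_le` and `a ≥ 3`, `3R + arctan (tan α tanh 3I) ≤ π`, `tan α = sinh 2I/sin 2R`
(compare `S3/E/Phi3.lean`, `Vx.phi3`, which proves `φ ≤ 7/10` from this), and `|κ|² ≤ 1`, that is
`sinh I ≤ sin R`.  Numerically, on this region: `max φ = 0.4476` (at `R = 0.7185`, `I = 0.617`);
`φ ≥ 0.33` implies `k2 ≥ 0.4318` (near `R = 0.925`, `I = 0.25`), where
`tan φ = tan R tanh I`, `k2 = cos² R + sinh² I`.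
One possible proof of the second part: bootstrapping.  `φ > 1/3`: `tanh I ≥ tan (1/3)/tan R`; with
`R ≤ π/3` this gives `I ≥ 0.2026`, then `arctan (sinh 2I tanh 3I) ≥ 0.22`, `3R ≤ π - 0.22`, and so
on; after a few steps `R ≤ 0.935`, `I ≥ 0.26`, `k2 ≥ cos² (0.935) + sinh² (0.26) > 0.42`.
First part: if `tan φ > tan 0.45 = 0.483`, then (with `T = tan R`) `tan² φ ≤ T⁴/(1 + 2T²)` gives
`T ≥ 0.855`, and `tanh I ≥ 0.483/T`, `tan α tanh 3I ≥ ...` contradicts `3R + arctan ... ≤ π` on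
`T ∈ [0.855, √3]` (a few subintervals).

`k4_three`: `R = k'/k ≥ 1`.  The claim divided by `k k'` and multiplied by `cos φ` is
`2 cos φ + R cos (3φ + 2φ') + cos (φ + 2φ')/R > 0`.  We have `R ≤ 1/k`, `R ≤ 2 cos 2φ'/k`.
If `φ + 2φ' ≤ π/2` drop the last term: if `3φ + 2φ' ≤ π/2` nothing to prove; otherwise
`R cos (3φ + 2φ') ≥ cos (3φ + 2φ')/k` if `2φ' ≤ π/3` and
`≥ 2 cos 2φ' cos (3φ + 2φ')/k = (cos (3φ + 4φ') + cos 3φ)/k` if `2φ' ≥ π/3`; in both cases
`≥ -m/k` with `m = 2 sin² (3φ/2)` for `φ ≤ π/9` and `m = - cos (3φ + π/3)` for `φ ≥ π/9`; and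
`2 cos φ > m/k`: for `φ ≤ 1/3`, `m ≤ 0.4597`, `k ≥ 1/4`, `1.8898 > 1.8388`; for `φ ≤ 0.45`,
`k ≥ 0.42`, `m ≤ 0.7354`, `1.8009 > 1.7510`.
If `φ + 2φ' > π/2`: `cos (φ + 2φ')/R ≥ R cos (φ + 2φ')`, and the sum is
`≥ 2 cos φ (1 + R cos (2φ + 2φ')) ≥ 2 cos φ (1 + (cos (2φ + 4φ') + cos 2φ)/k)
≥ 2 cos φ (1 - 2 sin² φ/k) > 0` (where `cos (2φ + 2φ') < 0`).
-/

namespace Pool.Agent.S3.E

open Real

private theorem K4B_tan : 0.4817 ≤ tan (9 / 20) := by
  have hs := abs_le.1 (sin_bound (x := 9 / 40) (by rw [abs_of_pos (by norm_num)]; norm_num))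
  have hc := abs_le.1 (cos_bound (x := 9 / 40) (by rw [abs_of_pos (by norm_num)]; norm_num))
  rw [abs_of_pos (by norm_num : (0 : ℝ) < 9 / 40)] at hs hc
  have hs1 : 0.22296 ≤ sin (9 / 40) := by
    have := hs.1
    norm_num at this ⊢
    linarith
  have hc1 : cos (9 / 40) ≤ 0.97483 := by
    have := hc.2
    norm_num at this ⊢
    linarith
  have hc0 : 0 < cos (9 / 40) := by
    have := hc.1
    norm_num at this
    linarith
  have ht : 0.2287 ≤ tan (9 / 40) := by
    rw [tan_eq_sin_div_cos, le_div_iff₀ hc0]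
    linarith only [hs1, hc1]
  have ht1 : tan (9 / 40) < 1 := by
    rw [← tan_pi_div_four]
    have hp := pi_gt_three
    exact tan_lt_tan_of_lt_of_lt_pi_div_two (by linarith) (by linarith) (by linarith)
  have h2 : (9 / 20 : ℝ) = 2 * (9 / 40) := by norm_num
  rw [h2, tan_two_mul, le_div_iff₀ (by nlinarith only [ht, ht1])]
  nlinarith only [ht]

private theorem K4B_tan' : 0.3436 ≤ tan (1 / 3) := by
  have hs := abs_le.1 (sin_bound (x := 1 / 6) (by rw [abs_of_pos (by norm_num)]; norm_num))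
  have hc := abs_le.1 (cos_bound (x := 1 / 6) (by rw [abs_of_pos (by norm_num)]; norm_num))
  rw [abs_of_pos (by norm_num : (0 : ℝ) < 1 / 6)] at hs hc
  have hs1 : 0.1658 ≤ sin (1 / 6) := by
    have := hs.1
    norm_num at this ⊢
    linarith
  have hc1 : cos (1 / 6) ≤ 0.9862 := by
    have := hc.2
    norm_num at this ⊢
    linarith
  have hc0 : 0 < cos (1 / 6) := by
    have := hc.1
    norm_num at this
    linarith
  have ht : 0.168 ≤ tan (1 / 6) := by
    rw [tan_eq_sin_div_cos, le_div_iff₀ hc0]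
    linarith only [hs1, hc1]
  have ht1 : tan (1 / 6) < 1 := by
    have hp := pi_gt_three
    have h1 : tan (1 / 6) < tan (π / 4) :=
      tan_lt_tan_of_lt_of_lt_pi_div_two (by linarith) (by linarith) (by linarith)
    rwa [tan_pi_div_four] at h1
  have h2 : (1 / 3 : ℝ) = 2 * (1 / 6) := by norm_num
  rw [h2, tan_two_mul, le_div_iff₀ (by nlinarith only [ht, ht1])]
  nlinarith only [ht]

private theorem K4B_tanh {x y : ℝ} (h : x ≤ y) : tanh x ≤ tanh y := by
  rw [tanh_eq_sinh_div_cosh, tanh_eq_sinh_div_cosh, div_le_div_iff₀ (cosh_pos _) (cosh_pos _)]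
  have h1 : 0 ≤ sinh (y - x) := sinh_nonneg_iff.2 (by linarith)
  rw [sinh_sub] at h1
  linarith

private theorem K4B_id (I : ℝ) : sinh (2 * I) * tanh (3 * I) * ((1 - tanh I ^ 2) * (1 + 3 * tanh I ^ 2)) =
    2 * tanh I ^ 2 * (3 + tanh I ^ 2) := by
  have hc := cosh_pos I
  have hs := cosh_sq I
  have e1 : 4 * cosh I ^ 3 - 3 * cosh I = cosh I * (cosh I ^ 2 + 3 * sinh I ^ 2) := by
    linear_combination 3 * cosh I * hs
  have e2 : 4 * sinh I ^ 3 + 3 * sinh I = sinh I * (3 * cosh I ^ 2 + sinh I ^ 2) := by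
    linear_combination -3 * sinh I * hs
  have e3 : 1 - (sinh I / cosh I) ^ 2 = 1 / cosh I ^ 2 := by
    rw [div_pow, eq_div_iff (by positivity), sub_mul, div_mul_cancel₀ _ (by positivity)]
    linear_combination hs
  have e4 : 0 < cosh I ^ 2 + 3 * sinh I ^ 2 := by positivity
  rw [tanh_eq_sinh_div_cosh, tanh_eq_sinh_div_cosh, sinh_two_mul, sinh_three_mul, cosh_three_mul, e1, e2, e3]
  field_simp

/-- The constraint of the vertex equation in `w = tan² R`, `v = tanh² I`. -/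
private theorem K4B_C1 {a R I ρ₁ β₁ p₁ r₁ ρ₂ β₂ p₂ r₂ : ℝ} (h : Vx a R I ρ₁ β₁ p₁ r₁ ρ₂ β₂ p₂ r₂)
    (ha : 3 ≤ a) (hw : 1 < 3 * tan R ^ 2) :
    tanh I ^ 2 * (1 + tan R ^ 2) * (3 + tanh I ^ 2) * (3 * tan R ^ 2 - 1) ≤
      tan R ^ 2 * (3 - tan R ^ 2) * (1 - tanh I ^ 2) * (1 + 3 * tanh I ^ 2) := by
  have hR0 := h.R0
  have hR1 := h.R1
  have hI0 := h.I0
  have hcR : 0 < cos R := cos_pos_of_mem_Ioo ⟨by linarith, hR1⟩
  have hT0 : 0 < tan R := tan_pos_of_pos_of_lt_pi_div_two hR0 hR1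
  have hsin : 0 < sin (2 * R) := sin_pos_of_pos_of_lt_pi (by linarith) (by linarith)
  have hsh : 0 < sinh (2 * I) := sinh_pos_iff.2 (by linarith)
  have hm0 : 0 < tanh I := by
    rw [tanh_eq_sinh_div_cosh]
    exact div_pos (sinh_pos_iff.2 hI0) (cosh_pos _)
  have hm1 : tanh I < 1 := tanh_lt_one I
  have h3 : 0 < tanh (3 * I) := by
    rw [tanh_eq_sinh_div_cosh]
    exact div_pos (sinh_pos_iff.2 (by linarith)) (cosh_pos _)
  set s : ℝ := sinh (2 * I) / sin (2 * R) * tanh (3 * I) with hsdef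
  have hs0 : 0 < s := mul_pos (div_pos hsh hsin) h3
  have hal : tan (al R I) = sinh (2 * I) / sin (2 * R) := by
    unfold al
    rw [tan_arctan]
  have hsum : 3 * R + arctan s ≤ π := by
    refine le_trans ?_ h.sum_le
    have ht : tanh (3 * I) ≤ tanh (a * I) := K4B_tanh (by nlinarith only [ha, hI0])
    have h4 : s ≤ tan (al R I) * tanh (a * I) := by
      rw [hal]
      exact mul_le_mul_of_nonneg_left ht (div_pos hsh hsin).le
    have h5 := arctan_mono h4
    have h6 : 3 * R ≤ a * R := mul_le_mul_of_nonneg_right ha hR0.le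
    linarith
  have harc : 0 < arctan s := arctan_pos.2 hs0
  -- `sin 3R`, `cos 3R`
  have hTc : sin R = tan R * cos R := by
    rw [tan_eq_sin_div_cos]
    field_simp
  have hsc := sin_sq_add_cos_sq R
  have hw1 : (1 + tan R ^ 2) * cos R ^ 2 = 1 := by
    rw [hTc] at hsc
    linear_combination hsc
  have hs3 : sin (3 * R) = cos R ^ 3 * (tan R * (3 - tan R ^ 2)) := by
    rw [sin_three_mul, hTc]
    linear_combination (-3 * tan R * cos R) * hw1
  have hc3 : cos (3 * R) = cos R ^ 3 * (1 - 3 * tan R ^ 2) := by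
    rw [cos_three_mul]
    linear_combination (3 * cos R) * hw1
  have hcos3 : cos (3 * R) < 0 := by
    rw [hc3]
    exact mul_neg_of_pos_of_neg (by positivity) (by linarith)
  have h3R : π / 2 < 3 * R := by
    by_contra hcon
    push Not at hcon
    have : 0 ≤ cos (3 * R) := cos_nonneg_of_mem_Icc ⟨by linarith, hcon⟩
    linarith
  have hst : s ≤ tan (π - 3 * R) := by
    have e1 : arctan s ≤ arctan (tan (π - 3 * R)) := by
      rw [arctan_tan (by linarith) (by linarith)]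
      linarith
    exact arctan_strictMono.le_iff_le.1 e1
  rw [tan_eq_sin_div_cos, sin_pi_sub, cos_pi_sub, le_div_iff₀ (by linarith), hs3, hc3] at hst
  have hst2 : s * (3 * tan R ^ 2 - 1) ≤ tan R * (3 - tan R ^ 2) := by
    have hc3p : 0 < cos R ^ 3 := by positivity
    refine le_of_mul_le_mul_left ?_ hc3p
    calc cos R ^ 3 * (s * (3 * tan R ^ 2 - 1)) = s * -(cos R ^ 3 * (1 - 3 * tan R ^ 2)) := by ring
      _ ≤ _ := hst
  have hid := K4B_id I
  have hs2 : sin (2 * R) * (1 + tan R ^ 2) = 2 * tan R := by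
    rw [sin_two_mul, hTc]
    linear_combination (2 * tan R) * hw1
  have hse : s * sin (2 * R) = sinh (2 * I) * tanh (3 * I) := by
    rw [hsdef]
    field_simp
  have hq : 0 ≤ (1 - tanh I ^ 2) * (1 + 3 * tanh I ^ 2) := by
    apply mul_nonneg
    · nlinarith only [hm0, hm1]
    · positivity
  have hf : s * (sin (2 * R) * (1 + tan R ^ 2)) * ((1 - tanh I ^ 2) * (1 + 3 * tanh I ^ 2)) =
      2 * tanh I ^ 2 * (3 + tanh I ^ 2) * (1 + tan R ^ 2) := by
    linear_combination ((1 + tan R ^ 2) * ((1 - tanh I ^ 2) * (1 + 3 * tanh I ^ 2))) * hse + (1 + tan R ^ 2) * hid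
  rw [hs2] at hf
  have hg := mul_le_mul_of_nonneg_right hst2 (mul_nonneg hT0.le hq)
  have hf2 : tanh I ^ 2 * (1 + tan R ^ 2) * (3 + tanh I ^ 2) * (3 * tan R ^ 2 - 1) =
      s * (3 * tan R ^ 2 - 1) * (tan R * ((1 - tanh I ^ 2) * (1 + 3 * tanh I ^ 2))) := by
    linear_combination (-(3 * tan R ^ 2 - 1) / 2) * hf
  rw [hf2]
  refine le_trans hg (le_of_eq ?_)
  ring

/-- The polynomial form. -/
private theorem K4B_poly {w v c : ℝ} (hw : 0.766 ≤ w) (hc : 0 ≤ c) (hX : c ≤ v * w)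
    (h : v * (1 + w) * (3 + v) * (3 * w - 1) ≤ w * (3 - w) * (1 - v) * (1 + 3 * v)) :
    w ^ 4 ≤ (3 - 11 * c) * (w ^ 3 + c * w) + c ^ 2 := by
  have hw2 : 0 ≤ w ^ 2 := sq_nonneg w
  have h1 := mul_le_mul_of_nonneg_right h hw2
  have h2 : 0 ≤ -w ^ 4 + (3 - 11 * (v * w)) * (w ^ 3 + (v * w) * w) + (v * w) ^ 2 := by
    have e1 : v * (1 + w) * (3 + v) * (3 * w - 1) * w ^ 2 =
        (v * w) * (1 + w) * (3 * w + v * w) * (3 * w - 1) := by ring
    have e2 : w * (3 - w) * (1 - v) * (1 + 3 * v) * w ^ 2 =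
        w * (3 - w) * (w - v * w) * (w + 3 * (v * w)) := by ring
    rw [e1, e2] at h1
    have e3 : -w ^ 4 + (3 - 11 * (v * w)) * (w ^ 3 + (v * w) * w) + (v * w) ^ 2 =
        w * (3 - w) * (w - v * w) * (w + 3 * (v * w)) - (v * w) * (1 + w) * (3 * w + v * w) * (3 * w - 1) := by
      ring
    rw [e3]
    linarith
  set X := v * w with hXd
  have h3 : (X - c) * (w * (3 - 11 * w ^ 2) + (X + c) * (1 - 11 * w)) ≤ 0 := by
    apply mul_nonpos_of_nonneg_of_nonpos (by linarith)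
    have h4 : w * (3 - 11 * w ^ 2) ≤ 0 := mul_nonpos_of_nonneg_of_nonpos (by linarith) (by nlinarith only [hw])
    have h5 : (X + c) * (1 - 11 * w) ≤ 0 := mul_nonpos_of_nonneg_of_nonpos (by linarith) (by linarith)
    linarith
  linarith only [h2, h3]

theorem Vx.phi3' {a R I ρ₁ β₁ p₁ r₁ ρ₂ β₂ p₂ r₂ : ℝ} (h : Vx a R I ρ₁ β₁ p₁ r₁ ρ₂ β₂ p₂ r₂)
    (ha : 3 ≤ a) (hk : k2 R I ≤ 1) :
    ph R I ≤ 9 / 20 ∧ (ph R I ≤ 1 / 3 ∨ 21 / 50 ≤ k2 R I) := by
  have hR0 := h.R0
  have hR1 := h.R1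
  have hI0 := h.I0
  have hcR : 0 < cos R := cos_pos_of_mem_Ioo ⟨by linarith, hR1⟩
  have hT0 : 0 < tan R := tan_pos_of_pos_of_lt_pi_div_two hR0 hR1
  have hm0 : 0 < tanh I := by
    rw [tanh_eq_sinh_div_cosh]
    exact div_pos (sinh_pos_iff.2 hI0) (cosh_pos _)
  have hm1 : tanh I < 1 := tanh_lt_one I
  have hC := fun hw => K4B_C1 h ha hw
  have hTc : sin R = tan R * cos R := by
    rw [tan_eq_sin_div_cos]
    field_simp
  have hsc := sin_sq_add_cos_sq R
  have hw1 : (1 + tan R ^ 2) * cos R ^ 2 = 1 := by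
    rw [hTc] at hsc
    linear_combination hsc
  have hch := cosh_pos I
  have hcs := cosh_sq I
  have hmc : sinh I = tanh I * cosh I := by
    rw [tanh_eq_sinh_div_cosh]
    field_simp
  have hv1 : (1 - tanh I ^ 2) * cosh I ^ 2 = 1 := by
    rw [hmc] at hcs
    linear_combination hcs
  have hk2 : k2 R I = cos R ^ 2 + sinh I ^ 2 := by
    unfold k2 cc gg
    rw [cosh_two_mul, cos_two_mul]
    linear_combination hcs / 2
  set w := tan R ^ 2 with hwd
  set v := tanh I ^ 2 with hvd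
  have hw0 : 0 < w := by positivity
  have hv0 : 0 < v := by positivity
  have hv2 : v < 1 := by nlinarith only [hv1]
  have hcosw : cos R ^ 2 = 1 / (1 + w) := by
    rw [eq_div_iff (by positivity)]
    linarith
  have hsinhv : sinh I ^ 2 = v / (1 - v) := by
    rw [eq_div_iff (by linarith), hmc, mul_pow, ← hvd]
    linear_combination v * hv1
  have h1v : 0 < 1 - v := by linarith
  have hC2 : v * (1 + 2 * w) ≤ w := by
    rw [hk2, hcosw, hsinhv, div_add_div _ _ (by positivity) h1v.ne', div_le_one (by positivity)] at hk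
    linarith only [hk]
  have hx0 : 0 < tan R * tanh I := mul_pos hT0 hm0
  have hX : (tan R * tanh I) ^ 2 = v * w := by
    rw [hwd, hvd]
    ring
  have hpi := pi_gt_three
  constructor
  · by_contra hc
    push Not at hc
    unfold ph at hc
    have h1 : tan (9 / 20) < tan (arctan (tan R * tanh I)) :=
      tan_lt_tan_of_lt_of_lt_pi_div_two (by linarith) (arctan_lt_pi_div_two _) hc
    rw [tan_arctan] at h1
    have h2 := K4B_tan
    have h3 : 0.232 ≤ v * w := by
      rw [← hX]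
      nlinarith only [h1, h2]
    have h4 : 0.766 ≤ w := by
      have h5 : v * w * (1 + 2 * w) ≤ w * w := by nlinarith only [hw0, hC2]
      have h6 : 0.232 * (1 + 2 * w) ≤ w * w := le_trans (mul_le_mul_of_nonneg_right h3 (by positivity)) h5
      by_contra hcon
      push Not at hcon
      nlinarith only [hw0, h6, hcon]
    have h5 := K4B_poly (c := 0.232) h4 (by norm_num) h3 (hC (by linarith))
    have h6 : 0 ≤ w - 0.766 := by linarith
    have h7 := mul_nonneg h6 h6
    have h8 := mul_nonneg h7 h6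
    have h9 := mul_nonneg h8 h6
    linarith only [h5, h6, h7, h8, h9]
  · rw [or_iff_not_imp_left]
    intro hc
    push Not at hc
    unfold ph at hc
    have h1 : tan (1 / 3) < tan (arctan (tan R * tanh I)) :=
      tan_lt_tan_of_lt_of_lt_pi_div_two (by linarith) (arctan_lt_pi_div_two _) hc
    rw [tan_arctan] at h1
    have h2 := K4B_tan'
    have h3 : 0.118 ≤ v * w := by
      rw [← hX]
      nlinarith only [h1, h2]
    rw [hk2, hcosw, hsinhv]
    by_contra hcon
    push Not at hcon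
    have hy0 : 0 < v / (1 - v) := div_pos hv0 h1v
    have hu : (1 / (1 + w)) * (1 + w) = 1 := by
      field_simp
    have hu0 : 0 < 1 / (1 + w) := by positivity
    have h4 : 1.38 ≤ w := by
      by_contra hcon2
      push Not at hcon2
      have : 0.42 ≤ 1 / (1 + w) := by
        rw [le_div_iff₀ (by positivity)]
        linarith
      norm_num at hcon this
      linarith
    have h5 := K4B_poly (c := 0.118) (by linarith) (by norm_num) h3 (hC (by linarith))
    have h6 : w ≤ 1.77 := by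
      by_contra hcon2
      push Not at hcon2
      have h6 : 0 ≤ w - 1.77 := by linarith
      have h7 := mul_nonneg h6 h6
      have h8 := mul_nonneg h7 h6
      have h9 := mul_nonneg h8 h6
      linarith only [h5, h6, h7, h8, h9]
    have h7 : 0.361 ≤ 1 / (1 + w) := by
      rw [le_div_iff₀ (by positivity)]
      linarith
    have h8 : 0.0666 ≤ v := by nlinarith only [h3, h4, h6]
    have h9 : 0.071 ≤ v / (1 - v) := by
      rw [le_div_iff₀ h1v]
      linarith
    norm_num at hcon h7 h9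
    linarith

private theorem K4B_cos_one : 0.5397 ≤ cos 1 := by
  have h1 := one_sub_sq_div_two_le_cos (x := 1 / 8)
  have h2 : cos (1 / 4) = 2 * cos (1 / 8) ^ 2 - 1 := by
    rw [← cos_two_mul]
    norm_num
  have h3 : cos (1 / 2) = 2 * cos (1 / 4) ^ 2 - 1 := by
    rw [← cos_two_mul]
    norm_num
  have h4 : cos 1 = 2 * cos (1 / 2) ^ 2 - 1 := by
    rw [← cos_two_mul]
    norm_num
  have h5 : 0.9921875 ≤ cos (1 / 8) := by
    norm_num at h1 ⊢
    linarith
  have h6 : 0.96887 ≤ cos (1 / 4) := by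
    rw [h2]
    nlinarith only [h5]
  have h7 : 0.87741 ≤ cos (1 / 2) := by
    rw [h3]
    nlinarith only [h6]
  rw [h4]
  nlinarith only [h3, h6, h7]

private theorem K4B_cos_b : 0.2174 ≤ cos (27 / 20) := by
  have h1 := one_sub_sq_div_two_le_cos (x := 27 / 160)
  have h2 : cos (27 / 80) = 2 * cos (27 / 160) ^ 2 - 1 := by
    rw [← cos_two_mul]
    norm_num
  have h3 : cos (27 / 40) = 2 * cos (27 / 80) ^ 2 - 1 := by
    rw [← cos_two_mul]
    norm_num
  have h4 : cos (27 / 20) = 2 * cos (27 / 40) ^ 2 - 1 := by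
    rw [← cos_two_mul]
    norm_num
  have h5 : 0.98576 ≤ cos (27 / 160) := by
    norm_num at h1 ⊢
    linarith
  have h6 : 0.94344 ≤ cos (27 / 80) := by
    rw [h2]
    nlinarith only [h5]
  have h7 : 0.78015 ≤ cos (27 / 40) := by
    rw [h3]
    nlinarith only [h6]
  rw [h4]
  nlinarith only [h1, h2, h3, h6, h7]

private theorem K4B_m {φ : ℝ} (h0 : π / 9 ≤ φ) (h1 : φ ≤ 9 / 20) : -cos (3 * φ + π / 3) ≤ 0.7375 := by
  have hp := pi_gt_three
  have hp2 := pi_lt_d2
  have e1 : cos (27 / 20 + π / 3) ≤ cos (3 * φ + π / 3) := by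
    apply cos_le_cos_of_nonneg_of_le_pi
    · linarith
    · linarith
    · linarith
  have e2 : cos (27 / 20 + π / 3) = cos (27 / 20) * (1 / 2) - sin (27 / 20) * (√3 / 2) := by
    rw [cos_add, cos_pi_div_three, sin_pi_div_three]
  have e3 := K4B_cos_b
  have e4 := sin_sq_add_cos_sq (27 / 20)
  have e5 : sin (27 / 20) ≤ 0.9761 := by
    by_contra hc
    push Not at hc
    nlinarith only [e3, e4, hc]
  have e6 : √3 ≤ 1.7321 := by
    rw [sqrt_le_left (by norm_num)]
    norm_num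
  have e7 : 0 ≤ √3 := sqrt_nonneg 3
  have e8 : 0 ≤ sin (27 / 20) := sin_nonneg_of_nonneg_of_le_pi (by norm_num) (by linarith)
  have e9 : sin (27 / 20) * √3 ≤ 0.9761 * 1.7321 := mul_le_mul e5 e6 e7 (by norm_num)
  rw [e2] at e1
  linarith only [e1, e3, e9]

private theorem K4B_prod (x y : ℝ) : 2 * cos y * cos (x + y) = cos (x + 2 * y) + cos x := by
  have f1 : cos (x + 2 * y) = cos ((x + y) + y) := by
    congr 1
    ring
  have f2 : cos x = cos ((x + y) - y) := by
    congr 1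
    ring
  rw [f1, f2, cos_add (x + y) y, cos_sub (x + y) y]
  ring

private theorem K4B_core {φ θ k k' : ℝ} (hφ : 0 ≤ φ) (h1 : φ ≤ 9 / 20) (hk : 1 / 4 ≤ k)
    (h2 : φ ≤ 1 / 3 ∨ 21 / 50 ≤ k) (hkk : k ≤ k') (hk' : k' ≤ 1) (hθ : 0 ≤ θ)
    (hθ' : θ ≤ π / 2) (h3 : k' ≤ 2 * cos θ) :
    0 < 2 * k * k' * cos φ + k' ^ 2 * cos (3 * φ + θ) + k ^ 2 * cos (φ + θ) := by
  have hp := pi_gt_three
  have hp2 := pi_lt_d2
  have hk0 : 0 < k := by linarith
  have hk0' : 0 < k' := by linarith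
  have hcφ : 1 - φ ^ 2 / 2 ≤ cos φ := one_sub_sq_div_two_le_cos
  have hcφ0 : 0 < cos φ := by nlinarith only [hφ, h1, hcφ]
  have hcos := K4B_prod (3 * φ) θ
  by_cases hB : 0 ≤ cos (φ + θ)
  · have hsuff : 0 < 2 * k * cos φ + k' * cos (3 * φ + θ) := by
      by_cases hA : 0 ≤ cos (3 * φ + θ)
      · have := mul_nonneg hk0'.le hA
        have := mul_pos hk0 hcφ0
        linarith
      · push Not at hA
        have hS : -(1 - cos (3 * φ)) ≤ k' * cos (3 * φ + θ) := by
          have e1 : 2 * cos θ * cos (3 * φ + θ) ≤ k' * cos (3 * φ + θ) :=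
            mul_le_mul_of_nonpos_right h3 hA.le
          have e2 := neg_one_le_cos (3 * φ + 2 * θ)
          linarith
        by_cases h13 : φ ≤ 1 / 3
        · have e1 : cos 1 ≤ cos (3 * φ) :=
            cos_le_cos_of_nonneg_of_le_pi (by linarith) (by linarith) (by linarith)
          have e2 := K4B_cos_one
          have e3 : 0.944 ≤ cos φ := by nlinarith only [hφ, hcφ, h13]
          have e4 : 1 / 4 * 0.944 ≤ k * cos φ := mul_le_mul hk e3 (by norm_num) hk0.le
          norm_num at e2 e4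
          linarith
        · have hk42 : 21 / 50 ≤ k := h2.resolve_left h13
          have e3 : 0.8987 ≤ cos φ := by nlinarith only [hφ, h1, hcφ]
          have e4 : 21 / 50 * 0.8987 ≤ k * cos φ := mul_le_mul hk42 e3 (by norm_num) hk0.le
          by_cases h9 : φ ≤ π / 9
          · have e1 : cos (π / 3) ≤ cos (3 * φ) :=
              cos_le_cos_of_nonneg_of_le_pi (by linarith) (by linarith) (by linarith)
            rw [cos_pi_div_three] at e1
            norm_num at e4
            linarith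
          · push Not at h9
            have e5 := K4B_m h9.le h1
            have hR : cos (3 * φ + π / 3) ≤ k' * cos (3 * φ + θ) := by
              by_cases hθ3 : θ ≤ π / 3
              · have e6 : cos (3 * φ + π / 3) ≤ cos (3 * φ + θ) :=
                  cos_le_cos_of_nonneg_of_le_pi (by linarith) (by linarith) (by linarith)
                have e7 : 1 * cos (3 * φ + θ) ≤ k' * cos (3 * φ + θ) :=
                  mul_le_mul_of_nonpos_right hk' hA.le
                linarith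
              · push Not at hθ3
                have e6 : 2 * cos θ * cos (3 * φ + θ) ≤ k' * cos (3 * φ + θ) :=
                  mul_le_mul_of_nonpos_right h3 hA.le
                have e7 : cos (3 * φ + 2 * θ - π) ≤ cos (3 * φ - π / 3) :=
                  cos_le_cos_of_nonneg_of_le_pi (by linarith) (by linarith) (by linarith)
                rw [cos_sub_pi] at e7
                have e8 : cos (3 * φ - π / 3) + cos (3 * φ + π / 3) = cos (3 * φ) := by
                  rw [cos_sub, cos_add, cos_pi_div_three]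
                  ring
                linarith
            norm_num at e4 e5
            linarith
    have h4 : 0 ≤ k ^ 2 * cos (φ + θ) := mul_nonneg (sq_nonneg k) hB
    have h5 : 2 * k * k' * cos φ + k' ^ 2 * cos (3 * φ + θ) = k' * (2 * k * cos φ + k' * cos (3 * φ + θ)) := by
      ring
    have h6 := mul_pos hk0' hsuff
    linarith
  · push Not at hB
    have hθφ : π / 2 < φ + θ := by
      by_contra hcon
      push Not at hcon
      have : 0 ≤ cos (φ + θ) := cos_nonneg_of_mem_Icc ⟨by linarith, hcon⟩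
      linarith
    have hneg : cos (2 * φ + θ) ≤ 0 :=
      cos_nonpos_of_pi_div_two_le_of_le (by linarith) (by linarith)
    have e1 : k' ^ 2 * cos (φ + θ) ≤ k ^ 2 * cos (φ + θ) := by
      apply mul_le_mul_of_nonpos_right _ hB.le
      nlinarith only [hk, hkk]
    have e2 : cos (3 * φ + θ) + cos (φ + θ) = 2 * cos (2 * φ + θ) * cos φ := by
      rw [show 3 * φ + θ = (2 * φ + θ) + φ by ring, show φ + θ = (2 * φ + θ) - φ by ring, cos_add, cos_sub]
      ring
    have e3 := K4B_prod (2 * φ) θ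
    have e4 : 2 * cos θ * cos (2 * φ + θ) ≤ k' * cos (2 * φ + θ) := mul_le_mul_of_nonpos_right h3 hneg
    have e5 := neg_one_le_cos (2 * φ + 2 * θ)
    have e6 : 1 - (2 * φ) ^ 2 / 2 ≤ cos (2 * φ) := one_sub_sq_div_two_le_cos
    have e7 : 0 < k + k' * cos (2 * φ + θ) := by
      rcases h2 with h2 | h2
      · nlinarith only [hφ, hk, e3, e4, e5, e6, h2]
      · nlinarith only [hφ, h1, e3, e4, e5, e6, h2]
    have e8 : 0 < 2 * k' * cos φ * (k + k' * cos (2 * φ + θ)) := by positivity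
    have e9 : 2 * k' * cos φ * (k + k' * cos (2 * φ + θ)) =
        2 * k * k' * cos φ + k' ^ 2 * (2 * cos (2 * φ + θ) * cos φ) := by ring
    rw [e9, ← e2] at e8
    linarith

theorem k4_three {φ φ' k k' : ℝ} (hφ : 0 ≤ φ) (h1 : φ ≤ 9 / 20) (hk : 1 / 4 ≤ k)
    (h2 : φ ≤ 1 / 3 ∨ 21 / 50 ≤ k) (hkk : k ≤ k') (hk' : k' ≤ 1) (hφ' : 0 ≤ φ')
    (hφ'' : φ' ≤ π / 4) (h3 : k' ≤ 2 * cos (2 * φ')) :
    0 < 2 * k * k' + (k' ^ 2 + k ^ 2) * cos (2 * φ + 2 * φ') -
      tan φ * (k' ^ 2 - k ^ 2) * sin (2 * φ + 2 * φ') := by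
  have hp := pi_gt_three
  have hcφ : 1 - φ ^ 2 / 2 ≤ cos φ := one_sub_sq_div_two_le_cos
  have hcφ0 : 0 < cos φ := by nlinarith only [hφ, h1, hcφ]
  have h4 := K4B_core hφ h1 hk h2 hkk hk' (θ := 2 * φ') (by linarith) (by linarith) h3
  have e1 : cos (3 * φ + 2 * φ') = cos φ * cos (2 * φ + 2 * φ') - sin φ * sin (2 * φ + 2 * φ') := by
    rw [← cos_add]
    congr 1
    ring
  have e2 : cos (φ + 2 * φ') = cos (2 * φ + 2 * φ') * cos φ + sin (2 * φ + 2 * φ') * sin φ := by
    rw [← cos_sub]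
    congr 1
    ring
  have e3 : tan φ * cos φ = sin φ := tan_mul_cos hcφ0.ne'
  have e4 : (2 * k * k' + (k' ^ 2 + k ^ 2) * cos (2 * φ + 2 * φ') -
      tan φ * (k' ^ 2 - k ^ 2) * sin (2 * φ + 2 * φ')) * cos φ =
      2 * k * k' * cos φ + k' ^ 2 * cos (3 * φ + 2 * φ') + k ^ 2 * cos (φ + 2 * φ') := by
    rw [e1, e2]
    linear_combination (-((k' ^ 2 - k ^ 2) * sin (2 * φ + 2 * φ'))) * e3
  rw [← e4] at h4
  exact (mul_pos_iff_of_pos_right hcφ0).1 h4

end Pool.Agent.S3.E
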