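import Mathlib

/-!
# Stage 3, block E: the second derivative in the edge variable, geometry

`k4_geo`: `T² = 1/X + (1/Y - 1)`, `arg (1/X) = 2φ`, `arg (1/Y - 1) = -2α`, `0 < 2φ + 2α < π`, so the
argument `2μ` of `T²` is in `(-2α, 2φ)` and `μ = arg T < φ` (`Re T > 0`); precisely:
`Im (T² e^{-2iφ}) = - m sin (2α + 2φ) < 0` and `T² ≠ 0` give `sin (2μ - 2φ) < 0`,
`-π - 2φ < 2μ - 2φ < π`, hence `μ < φ` (for `2μ - 2φ < -π` there is nothing to prove).
`(1/X + 1/Y)(X + Y) = 2 + Y/X + X/Y`, `Y/X = R e^{iΨ}`, `R = k'/k ≥ 1`, `Ψ = 2φ + 2φ'`, so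
`Re (T (2 + Y/X + X/Y)) = |T| (cos μ (2 + (R + 1/R) cos Ψ) - sin μ (R - 1/R) sin Ψ)`.
`sin Ψ ≥ 0`, `cos μ > 0`, and `hG` says `2 + (R + 1/R) cos Ψ > tan φ (R - 1/R) sin Ψ ≥ 0`; if
`μ ≤ 0` the claim is clear, if `0 < μ < φ` use `tan μ ≤ tan φ`.
-/

namespace Pool.Agent.S3.E

open Complex

private lemma exp_pos_form (t : ℝ) : exp ((t : ℝ) * I) = (Real.cos t : ℂ) + (Real.sin t : ℂ) * I := by
  rw [exp_mul_I, ← ofReal_cos, ← ofReal_sin]

private lemma inv_form {k t : ℝ} (hk : 0 < k) :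
    1 / ((k : ℂ) * exp ((t : ℝ) * I)) =
      ((Real.cos t / k : ℝ) : ℂ) - ((Real.sin t / k : ℝ) : ℂ) * I := by
  have hk' : (k : ℂ) ≠ 0 := by exact_mod_cast hk.ne'
  have h1 : exp ((t : ℝ) * I) * ((Real.cos t : ℂ) - (Real.sin t : ℂ) * I) = 1 := by
    rw [exp_pos_form]
    have h2 : (Real.sin t : ℂ) ^ 2 + (Real.cos t : ℂ) ^ 2 = 1 := by
      exact_mod_cast Real.sin_sq_add_cos_sq t
    linear_combination h2 - (Real.sin t : ℂ) ^ 2 * I_sq
  have h3 : exp ((t : ℝ) * I) ≠ 0 := exp_ne_zero _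
  rw [div_eq_iff (mul_ne_zero hk' h3)]
  generalize exp ((t : ℝ) * I) = E at *
  push_cast
  push_cast at h1
  field_simp
  linear_combination -h1

theorem k4_geo {X Y T : ℂ} {k k' φ φ' α m : ℝ} (hX : X = (k : ℂ) * exp (-(2 * φ : ℝ) * I))
    (hY : Y = (k' : ℂ) * exp ((2 * φ' : ℝ) * I)) (hk : 0 < k) (hkk : k ≤ k') (hφ : 0 < φ)
    (hφ2 : φ ≤ Real.pi / 4) (hφ' : 0 < φ') (hφ'2 : φ' ≤ Real.pi / 4) (hm : 0 < m)
    (hY1 : 1 / Y - 1 = (m : ℂ) * exp (-(2 * α : ℝ) * I)) (hα : 0 < α)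
    (hαφ : α + φ < Real.pi / 2) (hT : T ^ 2 = 1 / X + 1 / Y - 1) (hT0 : 0 < T.re)
    (hG : 0 < 2 * k * k' + (k' ^ 2 + k ^ 2) * Real.cos (2 * φ + 2 * φ') -
      Real.tan φ * (k' ^ 2 - k ^ 2) * Real.sin (2 * φ + 2 * φ')) :
    0 < (T * (1 / X + 1 / Y) * (X + Y)).re := by
  have hk' : 0 < k' := lt_of_lt_of_le hk hkk
  have hπ := Real.pi_pos
  have eX : exp (-(2 * φ : ℝ) * I) = exp (((-(2 * φ) : ℝ) : ℂ) * I) := by
    congr 1
    push_cast
    ring
  have eA : exp (-(2 * α : ℝ) * I) = exp (((-(2 * α) : ℝ) : ℂ) * I) := by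
    congr 1
    push_cast
    ring
  rw [eX] at hX
  rw [eA, exp_pos_form, Real.cos_neg, Real.sin_neg] at hY1
  have iX : 1 / X = ((Real.cos (2 * φ) / k : ℝ) : ℂ) + ((Real.sin (2 * φ) / k : ℝ) : ℂ) * I := by
    rw [hX, inv_form hk, Real.cos_neg, Real.sin_neg]
    push_cast
    ring
  have iY : 1 / Y = ((Real.cos (2 * φ') / k' : ℝ) : ℂ) -
      ((Real.sin (2 * φ') / k' : ℝ) : ℂ) * I := by
    rw [hY, inv_form hk']
  have fX : X = ((k * Real.cos (2 * φ) : ℝ) : ℂ) - ((k * Real.sin (2 * φ) : ℝ) : ℂ) * I := by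
    rw [hX, exp_pos_form, Real.cos_neg, Real.sin_neg]
    push_cast
    ring
  have fY : Y = ((k' * Real.cos (2 * φ') : ℝ) : ℂ) + ((k' * Real.sin (2 * φ') : ℝ) : ℂ) * I := by
    rw [hY, exp_pos_form]
    push_cast
    ring
  -- the equation for `T ^ 2`
  have hT2 : T ^ 2 = ((Real.cos (2 * φ) / k + m * Real.cos (2 * α) : ℝ) : ℂ) +
      ((Real.sin (2 * φ) / k - m * Real.sin (2 * α) : ℝ) : ℂ) * I := by
    have : T ^ 2 = 1 / X + (1 / Y - 1) := by rw [hT]; ring
    rw [this, iX, hY1]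
    push_cast
    ring
  have hre : T.re ^ 2 - T.im ^ 2 = Real.cos (2 * φ) / k + m * Real.cos (2 * α) := by
    have := congrArg Complex.re hT2
    rw [pow_two] at this
    simp only [mul_re, add_re, ofReal_re, I_re, ofReal_im, I_im, mul_zero, zero_mul, sub_zero,
      add_zero, mul_one, sub_self] at this
    nlinarith [this]
  have him : 2 * T.re * T.im = Real.sin (2 * φ) / k - m * Real.sin (2 * α) := by
    have := congrArg Complex.im hT2
    rw [pow_two] at this
    simp only [mul_im, add_im, ofReal_re, I_re, ofReal_im, I_im, mul_zero, zero_mul, sub_zero,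
      add_zero, zero_add, mul_one, sub_self] at this
    nlinarith [this]
  set x := T.re with hx
  set y := T.im with hy
  have hc : 0 < Real.cos φ := Real.cos_pos_of_mem_Ioo ⟨by linarith, by linarith⟩
  have hs : 0 < Real.sin φ := Real.sin_pos_of_pos_of_lt_pi hφ (by linarith)
  have hcs : Real.cos φ ^ 2 + Real.sin φ ^ 2 = 1 := by
    have := Real.sin_sq_add_cos_sq φ
    linarith
  set c := Real.cos φ with hcd
  set s := Real.sin φ with hsd
  have hc2 : Real.cos (2 * φ) = c ^ 2 - s ^ 2 := by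
    rw [Real.cos_two_mul']
  have hs2 : Real.sin (2 * φ) = 2 * s * c := by
    rw [Real.sin_two_mul]
  have hsin : 0 < Real.sin (2 * α + 2 * φ) :=
    Real.sin_pos_of_pos_of_lt_pi (by linarith) (by linarith)
  have hab : 2 * ((x * c + y * s) * (y * c - x * s)) = -(m * Real.sin (2 * α + 2 * φ)) := by
    have e1 : 2 * ((x * c + y * s) * (y * c - x * s)) =
        (2 * x * y) * (c ^ 2 - s ^ 2) - (x ^ 2 - y ^ 2) * (2 * s * c) := by ring
    rw [e1, him, hre, ← hc2, ← hs2, Real.sin_add]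
    ring
  have hab' : (x * c + y * s) * (y * c - x * s) < 0 := by
    have := mul_pos hm hsin
    linarith
  have hxab : x = (x * c + y * s) * c - (y * c - x * s) * s := by
    have : (x * c + y * s) * c - (y * c - x * s) * s = x * (c ^ 2 + s ^ 2) := by ring
    rw [this, hcs, mul_one]
  have hyab : y = (x * c + y * s) * s + (y * c - x * s) * c := by
    have : (x * c + y * s) * s + (y * c - x * s) * c = y * (c ^ 2 + s ^ 2) := by ring
    rw [this, hcs, mul_one]
  set a := x * c + y * s with had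
  set b := y * c - x * s with hbd
  have ha : 0 < a := by
    by_contra hcon
    have ha0 : a ≤ 0 := not_lt.mp hcon
    have hb : 0 < b := by
      by_contra hb0
      have : 0 ≤ a * b := mul_nonneg_of_nonpos_of_nonpos ha0 (not_lt.mp hb0)
      linarith
    have h1 : a * c ≤ 0 := mul_nonpos_of_nonpos_of_nonneg ha0 hc.le
    have h2 : 0 < b * s := mul_pos hb hs
    linarith
  have hb : b < 0 := by
    by_contra hb0
    have : 0 ≤ a * b := mul_nonneg ha.le (not_lt.mp hb0)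
    linarith
  -- the factor
  set Ψ := 2 * φ + 2 * φ' with hΨ
  have hkk' : 0 < k * k' := mul_pos hk hk'
  have hP : (1 / X + 1 / Y) * (X + Y) =
      (((2 * k * k' + (k' ^ 2 + k ^ 2) * Real.cos Ψ) / (k * k') : ℝ) : ℂ) +
      ((((k' ^ 2 - k ^ 2) * Real.sin Ψ) / (k * k') : ℝ) : ℂ) * I := by
    rw [iX, iY]
    nth_rw 1 [fX]
    nth_rw 1 [fY]
    have g1 : Real.cos Ψ = Real.cos (2 * φ) * Real.cos (2 * φ') -
        Real.sin (2 * φ) * Real.sin (2 * φ') := by rw [hΨ, Real.cos_add]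
    have g2 : Real.sin Ψ = Real.sin (2 * φ) * Real.cos (2 * φ') +
        Real.cos (2 * φ) * Real.sin (2 * φ') := by rw [hΨ, Real.sin_add]
    have g3 := Real.sin_sq_add_cos_sq (2 * φ)
    have g4 := Real.sin_sq_add_cos_sq (2 * φ')
    have q1 : (2 * k * k' + (k' ^ 2 + k ^ 2) * Real.cos Ψ) / (k * k') =
        (Real.cos (2 * φ) / k + Real.cos (2 * φ') / k') *
          (k * Real.cos (2 * φ) + k' * Real.cos (2 * φ')) -
        (Real.sin (2 * φ) / k - Real.sin (2 * φ') / k') *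
          (-(k * Real.sin (2 * φ)) + k' * Real.sin (2 * φ')) := by
      rw [g1]
      field_simp
      linear_combination (-(k * k')) * g3 - (k * k') * g4
    have q2 : ((k' ^ 2 - k ^ 2) * Real.sin Ψ) / (k * k') =
        (Real.cos (2 * φ) / k + Real.cos (2 * φ') / k') *
          (-(k * Real.sin (2 * φ)) + k' * Real.sin (2 * φ')) +
        (Real.sin (2 * φ) / k - Real.sin (2 * φ') / k') *
          (k * Real.cos (2 * φ) + k' * Real.cos (2 * φ')) := by
      rw [g2]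
      field_simp
      ring
    rw [q1, q2]
    apply Complex.ext
    · simp only [mul_re, add_re, sub_re, add_im, sub_im, mul_im, ofReal_re, ofReal_im, I_re, I_im,
        mul_zero, mul_one, zero_mul, add_zero, sub_zero, zero_add, zero_sub]
      ring
    · simp only [mul_re, add_re, sub_re, add_im, sub_im, mul_im, ofReal_re, ofReal_im, I_re, I_im,
        mul_zero, mul_one, zero_mul, add_zero, sub_zero, zero_add, zero_sub]
      ring
  have hΨs : 0 ≤ Real.sin Ψ :=
    Real.sin_nonneg_of_nonneg_of_le_pi (by rw [hΨ]; linarith) (by rw [hΨ]; linarith)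
  set P := (2 * k * k' + (k' ^ 2 + k ^ 2) * Real.cos Ψ) / (k * k') with hPd
  set Q := ((k' ^ 2 - k ^ 2) * Real.sin Ψ) / (k * k') with hQd
  have hQ : 0 ≤ Q := by
    apply div_nonneg _ hkk'.le
    apply mul_nonneg _ hΨs
    nlinarith
  have hPQ : 0 < P * c - Q * s := by
    have e1 : P * c - Q * s = (2 * k * k' + (k' ^ 2 + k ^ 2) * Real.cos Ψ -
        Real.tan φ * (k' ^ 2 - k ^ 2) * Real.sin Ψ) * c / (k * k') := by
      rw [Real.tan_eq_sin_div_cos, ← hcd, ← hsd, hPd, hQd]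
      field_simp
    rw [e1]
    exact div_pos (mul_pos hG hc) hkk'
  have hP0 : 0 < P := by
    have h1 : 0 ≤ Q * s := mul_nonneg hQ hs.le
    have h2 : 0 < P * c := by linarith
    exact (mul_pos_iff_of_pos_right hc).1 h2
  have hfin : (T * (1 / X + 1 / Y) * (X + Y)).re = a * (P * c - Q * s) - b * (P * s + Q * c) := by
    rw [mul_assoc, hP]
    simp only [mul_re, add_re, add_im, mul_im, ofReal_re, ofReal_im, I_re, I_im,
        mul_zero, mul_one, zero_mul, add_zero, sub_zero, zero_add]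
    rw [← hx, ← hy]
    conv_lhs => rw [hxab, hyab]
    ring
  rw [hfin]
  have h1 : 0 < a * (P * c - Q * s) := mul_pos ha hPQ
  have h2 : 0 < P * s + Q * c := by
    have := mul_pos hP0 hs
    have := mul_nonneg hQ hc.le
    linarith
  have h3 : b * (P * s + Q * c) < 0 := mul_neg_of_neg_of_pos hb h2
  linarith

end Pool.Agent.S3.E
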