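import Pool.Agent.S3.E.OMain
import Pool.Agent.S3.Opp

/-!
# Stage 3, block E: the hypotheses of the edge inequality hold at the critical point
-/

namespace Pool.Agent.S3.E

variable {ι : Type*} {a : ι → ℝ} {nl nr : ι → Option ι} {z : ι → ℂ}

/-- A vertex which is not an end `2`. -/
def Good (a : ι → ℝ) (nl nr : ι → Option ι) (i : ι) : Prop :=
  3 ≤ a i ∨ ∃ j k, nl i = some j ∧ nr i = some k

theorem oppHyp_small {θ θ' x x' : ℝ} (h1 : 0 < θ) (h2 : 0 < θ') (h3 : θ ≤ Real.pi / 4)
    (h4 : θ' ≤ Real.pi / 4) (h5 : θ + θ' < Real.pi / 2) : OppHyp θ θ' x x' where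
  θ0 := h1
  θ0' := h2
  S := h5
  S2 := fun h => by rcases h with h | h <;> linarith
  θ1 := by linarith [Real.pi_lt_d2]
  θ1' := by linarith [Real.pi_lt_d2]
  own := fun h => by linarith
  oth := fun h => by linarith

namespace Zr

theorem thpos (h : Zr a nl nr 1 z) (i : ι) : 0 < th (z i).re (z i).im :=
  th_pos (h.pos i).1 (h.pos i).2.1 (h.pos i).2.2

theorem xxpos (h : Zr a nl nr 1 z) (i : ι) : 0 < xx (z i).re (z i).im :=
  xx_pos (h.pos i).1 (h.pos i).2.1 (h.pos i).2.2

theorem good_or (h : Zr a nl nr 1 z) {i j : ι} (hij : nl i = some j ∨ nr i = some j) :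
    Good a nl nr i ∨ IsEnd2 a nl nr i j := by
  rcases h.types i with h1 | ⟨h1, h2⟩ | ⟨h1, k, h2⟩
  · exact Or.inl (Or.inl h1)
  · exact Or.inl (Or.inr h2)
  · right
    refine ⟨h1, ?_⟩
    rcases h2 with ⟨h3, h4⟩ | ⟨h3, h4⟩
    · rcases hij with h5 | h5
      · exact Or.inl ⟨h5, h4⟩
      · rw [h4] at h5; simp at h5
    · rcases hij with h5 | h5
      · rw [h3] at h5; simp at h5
      · exact Or.inr ⟨h3, h5⟩

/-- The two vertices are good. -/
theorem oppHyp_good [Finite ι] (h : Zr a nl nr 1 z) {i j : ι}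
    (hij : nl i = some j ∨ nr i = some j) (hi : Good a nl nr i) (hj : Good a nl nr j) :
    OppHyp (th (z i).re (z i).im) (th (z j).re (z j).im) (xx (z i).re (z i).im)
      (xx (z j).re (z j).im) :=
  oppHyp_small (h.thpos i) (h.thpos j) (h.th_le i hi) (h.th_le j hj) (h.S_lt hij)

/-- One vertex is an end `2`. -/
theorem oppHyp_end [Finite ι] (h : Zr a nl nr 1 z) {i j : ι}
    (hi : IsEnd2 a nl nr i j) (hj : Good a nl nr j) :
    OppHyp (th (z i).re (z i).im) (th (z j).re (z j).im) (xx (z i).re (z i).im)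
      (xx (z j).re (z j).im) := by
  have hij : nl i = some j ∨ nr i = some j := by
    rcases hi.2 with ⟨h1, h2⟩ | ⟨h1, h2⟩
    · exact Or.inl h1
    · exact Or.inr h2
  rcases le_or_gt (th (z i).re (z i).im) (Real.pi / 4) with ht | ht
  · exact oppHyp_small (h.thpos i) (h.thpos j) ht (h.th_le j hj) (h.S_lt hij)
  · obtain ⟨h1, h2⟩ := h.end_small hi hj ht
    have h3 : th (z i).re (z i).im ≤ 0.905 := h.end_th_le hi
    have hp := Real.pi_lt_d2
    refine ⟨h.thpos i, h.thpos j, h.S_lt hij, fun _ => ?_, ?_, ?_, fun _ => ?_, fun h4 => ?_⟩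
    · norm_num at h2 ⊢; linarith
    · norm_num at h3 ⊢; linarith
    · norm_num; linarith
    · have h5 := h.end_plus hi hj ht (d := max (xx (z j).re (z j).im - xx (z i).re (z i).im) 0)
        (le_max_right _ _) (by
          rcases le_total (xx (z j).re (z j).im - xx (z i).re (z i).im) 0 with h6 | h6
          · exact Or.inl (max_eq_right h6)
          · exact Or.inr (by rw [max_eq_left h6]))
      have h6 : max (th (z i).re (z i).im - th (z j).re (z j).im) 0 =
          th (z i).re (z i).im - th (z j).re (z j).im := by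
        apply max_eq_left; linarith [Real.pi_pos]
      rw [h6]
      exact h5
    · linarith [Real.pi_pos]

/-- Both vertices are ends `2`. -/
theorem oppHyp_two [Finite ι] (h : Zr a nl nr 1 z) {i j : ι}
    (hi : IsEnd2 a nl nr i j) (hj : IsEnd2 a nl nr j i) :
    OppHyp (th (z i).re (z i).im) (th (z j).re (z j).im) (xx (z i).re (z i).im)
      (xx (z j).re (z j).im) := by
  have key : ∀ {i j : ι}, IsEnd2 a nl nr i j → IsEnd2 a nl nr j i →
      th (z i).re (z i).im ≤ Real.pi / 4 := by
    intro i j hi hj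
    rw [th_le_iff (h.pos i).1 (h.pos i).2.1 (h.pos i).2.2]
    have h1 := h.end_s2 hi
    obtain ⟨h2, h3⟩ := h.end_end hj hi
    rw [h2, h3, Real.sin_pi_div_six] at h1
    have h4 : √(1 / 4 : ℝ) = 1 / 2 := by
      rw [show (1 / 4 : ℝ) = (1 / 2) ^ 2 by norm_num]
      exact Real.sqrt_sq (by norm_num)
    rw [h4] at h1
    nlinarith [sq_nonneg (s2 (z i).re (z i).im - 1)]
  have hij : nl i = some j ∨ nr i = some j := by
    rcases hi.2 with ⟨h1, h2⟩ | ⟨h1, h2⟩
    · exact Or.inl h1
    · exact Or.inr h2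
  exact oppHyp_small (h.thpos i) (h.thpos j) (key hi hj) (key hj hi) (h.S_lt hij)

/-- The hypotheses of the edge inequality hold on every edge. -/
theorem oppHyp [Finite ι] (h : Zr a nl nr 1 z) {i j : ι}
    (hij : nl i = some j ∨ nr i = some j) :
    OppHyp (th (z i).re (z i).im) (th (z j).re (z j).im) (xx (z i).re (z i).im)
      (xx (z j).re (z j).im) := by
  rcases h.good_or hij with hi | hi
  · rcases h.good_or (h.N.symm i j hij) with hj | hj
    · exact h.oppHyp_good hij hi hj
    · exact (h.oppHyp_end hj hi).symm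
  · rcases h.good_or (h.N.symm i j hij) with hj | hj
    · exact h.oppHyp_end hi hj
    · exact h.oppHyp_two hi hj

end Zr

end Pool.Agent.S3.E
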