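import Pool.Agent.S3.E.GeoR

/-!
# Stage 3, block E: the coordinates `u = x + i θ`, `sinh u = tan z`

With `ω = σ² = tanh² u`, `1 - ω = κ² = 1/cosh² u`: `|σ|² = (cosh 2x - cos 2θ)/(cosh 2x + cos 2θ)`,
`|κ|² = 2/(cosh 2x + cos 2θ)`, hence `cosh 2x = (1 + |σ|²)/|κ|²`, `cos 2θ = (1 - |σ|²)/|κ|²`.
(The quotients are `≥ 1` resp. in `(-1, 1)`, because `|κ|² + |σ|² = cosh 2I > 1` and
`|κ|² - |σ|² = cos 2R < 1`: `(1 - |σ|²) < |κ|²`, and `|σ|² - 1 < |κ|²` is `- cos 2R < 1`.)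
`tan R = sinh x/cos θ`, `tanh I = sin θ/cosh x` (squares: `sinh² x = (cosh 2x - 1)/2` etc.), so
`tan φ = tanh x tan θ`, `tan α = tan θ/tanh x`, `tan z = sinh (x + iθ)`.
`S_lt`: `tan α tan φ' < 1` and `tan α' tan φ < 1`; the product is `(tan θ tan θ')² < 1`.
-/

namespace Pool.Agent.S3.E

open Real

/-- `x`. -/
noncomputable def xx (R I : ℝ) : ℝ := arcosh ((1 + s2 R I) / k2 R I) / 2

/-- `θ`. -/
noncomputable def th (R I : ℝ) : ℝ := arccos ((1 - s2 R I) / k2 R I) / 2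

private theorem OGeo_K (R I : ℝ) : k2 R I = cos R ^ 2 + sinh I ^ 2 := by
  unfold k2 cc gg
  rw [Real.cosh_two_mul, Real.cos_two_mul, Real.cosh_sq]
  ring

private theorem OGeo_S (R I : ℝ) : s2 R I = sin R ^ 2 + sinh I ^ 2 := by
  unfold s2 cc gg
  rw [Real.cosh_two_mul, Real.cos_two_mul, Real.cosh_sq, Real.sin_sq]
  ring

private theorem OGeo_one_lt {R I : ℝ} (h : 0 < R) (h' : R < π / 2) :
    1 < (1 + s2 R I) / k2 R I := by
  have hK := k2_pos (I := I) h h'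
  rw [lt_div_iff₀ hK, one_mul]
  have := gg_lt_one h h'
  unfold k2 s2
  linarith

private theorem OGeo_lt_one {R I : ℝ} (h : 0 < R) (h' : R < π / 2) (hI : 0 < I) :
    (1 - s2 R I) / k2 R I < 1 := by
  have hK := k2_pos (I := I) h h'
  rw [div_lt_iff₀ hK, one_mul]
  have := one_lt_cc hI
  unfold k2 s2
  linarith

private theorem OGeo_neg_one_lt {R I : ℝ} (h : 0 < R) (h' : R < π / 2) :
    -1 < (1 - s2 R I) / k2 R I := by
  have hK := k2_pos (I := I) h h'
  rw [lt_div_iff₀ hK]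
  have := neg_one_lt_gg h h'
  unfold k2 s2
  linarith

theorem xx_pos {R I : ℝ} (h : 0 < R) (h' : R < π / 2) (hI : 0 < I) : 0 < xx R I := by
  unfold xx
  have := Real.arcosh_pos (OGeo_one_lt (I := I) h h')
  linarith

theorem th_pos {R I : ℝ} (h : 0 < R) (h' : R < π / 2) (hI : 0 < I) : 0 < th R I := by
  unfold th
  have := Real.arccos_pos.mpr (OGeo_lt_one h h' hI)
  linarith

theorem th_lt {R I : ℝ} (h : 0 < R) (h' : R < π / 2) (hI : 0 < I) : th R I < π / 2 := by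
  unfold th
  have := Real.arccos_lt_pi.mpr (OGeo_neg_one_lt (I := I) h h')
  linarith

theorem cosh_two_xx {R I : ℝ} (h : 0 < R) (h' : R < π / 2) (hI : 0 < I) :
    cosh (2 * xx R I) = (1 + s2 R I) / k2 R I := by
  unfold xx
  rw [mul_div_cancel₀ _ (two_ne_zero), Real.cosh_arcosh (OGeo_one_lt h h').le]

theorem cos_two_th {R I : ℝ} (h : 0 < R) (h' : R < π / 2) (hI : 0 < I) :
    cos (2 * th R I) = (1 - s2 R I) / k2 R I := by
  unfold th
  rw [mul_div_cancel₀ _ (two_ne_zero),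
    Real.cos_arccos (OGeo_neg_one_lt h h').le (OGeo_lt_one h h' hI).le]

theorem th_le_iff {R I : ℝ} (h : 0 < R) (h' : R < π / 2) (hI : 0 < I) :
    th R I ≤ π / 4 ↔ s2 R I ≤ 1 := by
  have hK := k2_pos (I := I) h h'
  have e : th R I ≤ π / 4 ↔ arccos ((1 - s2 R I) / k2 R I) ≤ π / 2 := by
    unfold th
    constructor <;> intro hh <;> linarith
  rw [e, Real.arccos_le_pi_div_two, div_nonneg_iff]
  constructor
  · rintro (⟨h1, _⟩ | ⟨_, h2⟩)
    · linarith
    · linarith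
  · intro h1
    exact Or.inl ⟨by linarith, hK.le⟩

private theorem OGeo_sinh_xx {R I : ℝ} (h : 0 < R) (h' : R < π / 2) (hI : 0 < I) :
    sinh (xx R I) = sin R / √(k2 R I) := by
  have hK := k2_pos (I := I) h h'
  have hsq := Real.sqrt_pos.mpr hK
  have hs : 0 < sin R := Real.sin_pos_of_pos_of_lt_pi h (by linarith [Real.pi_pos])
  have h1 : sinh (xx R I) ^ 2 = (sin R / √(k2 R I)) ^ 2 := by
    rw [div_pow, Real.sq_sqrt hK.le]
    have h2 := cosh_two_xx h h' hI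
    rw [Real.cosh_two_mul, Real.cosh_sq] at h2
    have h3 : sinh (xx R I) ^ 2 = ((1 + s2 R I) / k2 R I - 1) / 2 := by linarith
    rw [h3, div_sub_one hK.ne', div_div, mul_comm (k2 R I) 2, ← div_div]
    congr 1
    rw [OGeo_K, OGeo_S]
    have := Real.sin_sq_add_cos_sq R
    linarith
  have h4 : 0 ≤ sinh (xx R I) := Real.sinh_nonneg_iff.mpr (xx_pos h h' hI).le
  exact (pow_left_inj₀ h4 (div_pos hs hsq).le two_ne_zero).mp h1

private theorem OGeo_cosh_xx {R I : ℝ} (h : 0 < R) (h' : R < π / 2) (hI : 0 < I) :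
    cosh (xx R I) = cosh I / √(k2 R I) := by
  have hK := k2_pos (I := I) h h'
  have hsq := Real.sqrt_pos.mpr hK
  have h1 : cosh (xx R I) ^ 2 = (cosh I / √(k2 R I)) ^ 2 := by
    rw [div_pow, Real.sq_sqrt hK.le]
    have h2 := cosh_two_xx h h' hI
    rw [Real.cosh_two_mul, Real.sinh_sq] at h2
    have h3 : cosh (xx R I) ^ 2 = ((1 + s2 R I) / k2 R I + 1) / 2 := by linarith
    rw [h3, div_add_one hK.ne', div_div, mul_comm (k2 R I) 2, ← div_div]
    congr 1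
    rw [OGeo_K, OGeo_S, Real.cosh_sq]
    have := Real.sin_sq_add_cos_sq R
    linarith
  exact (pow_left_inj₀ (Real.cosh_pos _).le (div_pos (Real.cosh_pos _) hsq).le two_ne_zero).mp h1

private theorem OGeo_cos_th {R I : ℝ} (h : 0 < R) (h' : R < π / 2) (hI : 0 < I) :
    cos (th R I) = cos R / √(k2 R I) := by
  have hK := k2_pos (I := I) h h'
  have hsq := Real.sqrt_pos.mpr hK
  have hc : 0 < cos R := Real.cos_pos_of_mem_Ioo ⟨by linarith, h'⟩
  have h1 : cos (th R I) ^ 2 = (cos R / √(k2 R I)) ^ 2 := by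
    rw [div_pow, Real.sq_sqrt hK.le]
    have h2 := cos_two_th h h' hI
    rw [Real.cos_two_mul] at h2
    have h3 : cos (th R I) ^ 2 = ((1 - s2 R I) / k2 R I + 1) / 2 := by linarith
    rw [h3, div_add_one hK.ne', div_div, mul_comm (k2 R I) 2, ← div_div]
    congr 1
    rw [OGeo_K, OGeo_S]
    have := Real.sin_sq_add_cos_sq R
    linarith
  have h4 : 0 < cos (th R I) :=
    Real.cos_pos_of_mem_Ioo ⟨by linarith [th_pos h h' hI], th_lt h h' hI⟩
  exact (pow_left_inj₀ h4.le (div_pos hc hsq).le two_ne_zero).mp h1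

private theorem OGeo_sin_th {R I : ℝ} (h : 0 < R) (h' : R < π / 2) (hI : 0 < I) :
    sin (th R I) = sinh I / √(k2 R I) := by
  have hK := k2_pos (I := I) h h'
  have hsq := Real.sqrt_pos.mpr hK
  have hs : 0 < sinh I := Real.sinh_pos_iff.mpr hI
  have h1 : sin (th R I) ^ 2 = (sinh I / √(k2 R I)) ^ 2 := by
    rw [div_pow, Real.sq_sqrt hK.le]
    have h2 := cos_two_th h h' hI
    rw [Real.cos_two_mul] at h2
    have h3 : sin (th R I) ^ 2 = (1 - (1 - s2 R I) / k2 R I) / 2 := by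
      rw [Real.sin_sq]; linarith
    rw [h3, one_sub_div hK.ne', div_div, mul_comm (k2 R I) 2, ← div_div]
    congr 1
    rw [OGeo_K, OGeo_S]
    have := Real.sin_sq_add_cos_sq R
    linarith
  have h4 : 0 < sin (th R I) :=
    Real.sin_pos_of_pos_of_lt_pi (th_pos h h' hI) (by linarith [th_lt h h' hI, Real.pi_pos])
  exact (pow_left_inj₀ h4.le (div_pos hs hsq).le two_ne_zero).mp h1

theorem tan_R_eq {R I : ℝ} (h : 0 < R) (h' : R < π / 2) (hI : 0 < I) :
    tan R = sinh (xx R I) / cos (th R I) := by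
  have hsq := Real.sqrt_pos.mpr (k2_pos (I := I) h h')
  rw [OGeo_sinh_xx h h' hI, OGeo_cos_th h h' hI, Real.tan_eq_sin_div_cos,
    div_div_div_cancel_right₀ hsq.ne']

theorem tanh_I_eq {R I : ℝ} (h : 0 < R) (h' : R < π / 2) (hI : 0 < I) :
    tanh I = sin (th R I) / cosh (xx R I) := by
  have hsq := Real.sqrt_pos.mpr (k2_pos (I := I) h h')
  rw [OGeo_cosh_xx h h' hI, OGeo_sin_th h h' hI, Real.tanh_eq_sinh_div_cosh,
    div_div_div_cancel_right₀ hsq.ne']

theorem tan_ph_eq {R I : ℝ} (h : 0 < R) (h' : R < π / 2) (hI : 0 < I) :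
    tan (ph R I) = tanh (xx R I) * tan (th R I) := by
  rw [tan_ph, tan_R_eq h h' hI, tanh_I_eq h h' hI, Real.tanh_eq_sinh_div_cosh,
    Real.tan_eq_sin_div_cos (th R I)]
  ring

theorem tan_al_eq {R I : ℝ} (h : 0 < R) (h' : R < π / 2) (hI : 0 < I) :
    tan (al R I) * tanh (xx R I) = tan (th R I) := by
  have hsq := Real.sqrt_pos.mpr (k2_pos (I := I) h h')
  have hs : 0 < sin R := Real.sin_pos_of_pos_of_lt_pi h (by linarith [Real.pi_pos])
  have hc : 0 < cos R := Real.cos_pos_of_mem_Ioo ⟨by linarith, h'⟩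
  have hch := Real.cosh_pos I
  rw [tan_al, Real.tanh_eq_sinh_div_cosh, Real.tan_eq_sin_div_cos, OGeo_sinh_xx h h' hI,
    OGeo_cosh_xx h h' hI, OGeo_sin_th h h' hI, OGeo_cos_th h h' hI,
    div_div_div_cancel_right₀ hsq.ne', div_div_div_cancel_right₀ hsq.ne', Real.sinh_two_mul,
    Real.sin_two_mul]
  field_simp

private theorem OGeo_alg {s c S C q : ℂ} (hq : q ≠ 0) (hqq : q ^ 2 = c ^ 2 + S ^ 2)
    (hC : C ^ 2 = S ^ 2 + 1) (hs : s ^ 2 + c ^ 2 = 1) :
    (s / q * (c / q) + C / q * (S / q * Complex.I)) * (c * C - s * S * Complex.I) =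
      s * C + c * S * Complex.I := by
  have hI := Complex.I_sq
  have e : (s / q * (c / q) + C / q * (S / q * Complex.I)) =
      (s * c + C * S * Complex.I) / q ^ 2 := by
    field_simp
  rw [e, div_mul_eq_mul_div, div_eq_iff (pow_ne_zero 2 hq), hqq]
  linear_combination (-(C * s * S ^ 2)) * hI + (c * S * Complex.I) * hC -
    (c * S * Complex.I) * hs

private theorem OGeo_alg2 {s c S C q : ℂ} (hq : q ≠ 0) (hqq : q ^ 2 = c ^ 2 + S ^ 2)
    (hC : C ^ 2 = S ^ 2 + 1) (hs : s ^ 2 + c ^ 2 = 1) :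
    (C / q * (c / q) + s / q * (S / q * Complex.I)) * (c * C - s * S * Complex.I) = 1 := by
  have hI := Complex.I_sq
  have e : (C / q * (c / q) + s / q * (S / q * Complex.I)) =
      (C * c + s * S * Complex.I) / q ^ 2 := by
    field_simp
  rw [e, div_mul_eq_mul_div, div_eq_iff (pow_ne_zero 2 hq), hqq]
  linear_combination (-(s ^ 2 * S ^ 2)) * hI + c ^ 2 * hC + S ^ 2 * hs

private theorem OGeo_hyp {z : ℂ} (h : 0 < z.re) (h' : z.re < π / 2) :
    ((√(k2 z.re z.im) : ℝ) : ℂ) ≠ 0 ∧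
    ((√(k2 z.re z.im) : ℝ) : ℂ) ^ 2 = ((cos z.re : ℝ) : ℂ) ^ 2 + ((sinh z.im : ℝ) : ℂ) ^ 2 ∧
    ((cosh z.im : ℝ) : ℂ) ^ 2 = ((sinh z.im : ℝ) : ℂ) ^ 2 + 1 ∧
    ((sin z.re : ℝ) : ℂ) ^ 2 + ((cos z.re : ℝ) : ℂ) ^ 2 = 1 := by
  have hK := k2_pos (I := z.im) h h'
  have hsq := Real.sqrt_pos.mpr hK
  refine ⟨by exact_mod_cast hsq.ne', ?_, ?_, ?_⟩
  · have h1 : √(k2 z.re z.im) ^ 2 = cos z.re ^ 2 + sinh z.im ^ 2 := by
      rw [Real.sq_sqrt hK.le, OGeo_K]
    exact_mod_cast h1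
  · exact_mod_cast Real.cosh_sq z.im
  · exact_mod_cast Real.sin_sq_add_cos_sq z.re

private theorem OGeo_cos (z : ℂ) : Complex.cos z =
    ((cos z.re : ℝ) : ℂ) * ((cosh z.im : ℝ) : ℂ) -
      ((sin z.re : ℝ) : ℂ) * ((sinh z.im : ℝ) : ℂ) * Complex.I := by
  conv_lhs => rw [← Complex.re_add_im z]
  rw [Complex.cos_add, Complex.cos_mul_I, Complex.sin_mul_I, Complex.ofReal_cos,
    Complex.ofReal_cosh, Complex.ofReal_sin, Complex.ofReal_sinh]
  ring

private theorem OGeo_sin (z : ℂ) : Complex.sin z =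
    ((sin z.re : ℝ) : ℂ) * ((cosh z.im : ℝ) : ℂ) +
      ((cos z.re : ℝ) : ℂ) * ((sinh z.im : ℝ) : ℂ) * Complex.I := by
  conv_lhs => rw [← Complex.re_add_im z]
  rw [Complex.sin_add, Complex.cos_mul_I, Complex.sin_mul_I, Complex.ofReal_cos,
    Complex.ofReal_cosh, Complex.ofReal_sin, Complex.ofReal_sinh]
  ring

theorem cosh_u {z : ℂ} (h : 0 < z.re) (h' : z.re < π / 2) (hI : 0 < z.im) :
    Complex.cosh ((xx z.re z.im : ℂ) + (th z.re z.im : ℂ) * Complex.I) * Complex.cos z = 1 := by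
  obtain ⟨hq, hqq, hC, hs⟩ := OGeo_hyp h h'
  rw [OGeo_cos z, Complex.cosh_add, Complex.sinh_mul_I,
    Complex.cosh_mul_I, ← Complex.ofReal_sinh, ← Complex.ofReal_cosh, ← Complex.ofReal_sin,
    ← Complex.ofReal_cos, OGeo_sinh_xx h h' hI, OGeo_cosh_xx h h' hI, OGeo_sin_th h h' hI,
    OGeo_cos_th h h' hI, Complex.ofReal_div, Complex.ofReal_div, Complex.ofReal_div,
    Complex.ofReal_div]
  exact OGeo_alg2 hq hqq hC hs

theorem sinh_u {z : ℂ} (h : 0 < z.re) (h' : z.re < π / 2) (hI : 0 < z.im) :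
    Complex.sinh ((xx z.re z.im : ℂ) + (th z.re z.im : ℂ) * Complex.I) = Complex.tan z := by
  obtain ⟨hq, hqq, hC, hs⟩ := OGeo_hyp h h'
  have hcos : Complex.cos z ≠ 0 := by
    intro h0
    have := cosh_u h h' hI
    rw [h0, mul_zero] at this
    exact zero_ne_one this
  rw [Complex.tan_eq_sin_div_cos, eq_div_iff hcos, OGeo_cos z, OGeo_sin z, Complex.sinh_add,
    Complex.sinh_mul_I,
    Complex.cosh_mul_I, ← Complex.ofReal_sinh, ← Complex.ofReal_cosh, ← Complex.ofReal_sin,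
    ← Complex.ofReal_cos, OGeo_sinh_xx h h' hI, OGeo_cosh_xx h h' hI, OGeo_sin_th h h' hI,
    OGeo_cos_th h h' hI, Complex.ofReal_div, Complex.ofReal_div, Complex.ofReal_div,
    Complex.ofReal_div]
  exact OGeo_alg hq hqq hC hs

/-- `tan a tan b < 1` if `a + b < π/2`. -/
private theorem OGeo_tan_mul {a b : ℝ} (ha : 0 < a) (hb : 0 < b) (hab : a + b < π / 2) :
    tan a * tan b < 1 := by
  have hca : 0 < cos a := Real.cos_pos_of_mem_Ioo ⟨by linarith, by linarith⟩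
  have hcb : 0 < cos b := Real.cos_pos_of_mem_Ioo ⟨by linarith, by linarith⟩
  have hc : 0 < cos (a + b) := Real.cos_pos_of_mem_Ioo ⟨by linarith, hab⟩
  rw [Real.cos_add] at hc
  rw [Real.tan_eq_sin_div_cos, Real.tan_eq_sin_div_cos, div_mul_div_comm,
    div_lt_one (mul_pos hca hcb)]
  linarith

theorem S_lt {R I R' I' : ℝ} (h : 0 < R) (h' : R < π / 2) (hI : 0 < I) (g : 0 < R')
    (g' : R' < π / 2) (gI : 0 < I') (h1 : al R I + ph R' I' < π / 2)
    (h2 : al R' I' + ph R I < π / 2) : th R I + th R' I' < π / 2 := by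
  have e1 := OGeo_tan_mul (al_pos h h' hI) (ph_pos g g' gI) h1
  have e2 := OGeo_tan_mul (al_pos g g' gI) (ph_pos h h' hI) h2
  have t1 := th_pos h h' hI
  have t2 := th_pos g g' gI
  have t1' := th_lt h h' hI
  have t2' := th_lt g g' gI
  have T1 : 0 < tan (th R I) := Real.tan_pos_of_pos_of_lt_pi_div_two t1 t1'
  have T2 : 0 < tan (th R' I') := Real.tan_pos_of_pos_of_lt_pi_div_two t2 t2'
  have A1 : 0 < tan (al R I) := Real.tan_pos_of_pos_of_lt_pi_div_two (al_pos h h' hI) (al_lt _ _)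
  have A2 : 0 < tan (al R' I') :=
    Real.tan_pos_of_pos_of_lt_pi_div_two (al_pos g g' gI) (al_lt _ _)
  have P1 : 0 < tan (ph R I) := Real.tan_pos_of_pos_of_lt_pi_div_two (ph_pos h h' hI) (ph_lt _ _)
  have P2 : 0 < tan (ph R' I') :=
    Real.tan_pos_of_pos_of_lt_pi_div_two (ph_pos g g' gI) (ph_lt _ _)
  have q1 : tan (al R I) * tan (ph R I) = tan (th R I) ^ 2 := by
    rw [tan_ph_eq h h' hI, ← mul_assoc, tan_al_eq h h' hI, sq]
  have q2 : tan (al R' I') * tan (ph R' I') = tan (th R' I') ^ 2 := by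
    rw [tan_ph_eq g g' gI, ← mul_assoc, tan_al_eq g g' gI, sq]
  have e3 : (tan (th R I) * tan (th R' I')) ^ 2 < 1 := by
    calc (tan (th R I) * tan (th R' I')) ^ 2 =
        (tan (al R I) * tan (ph R' I')) * (tan (al R' I') * tan (ph R I)) := by
          rw [mul_pow, ← q1, ← q2]; ring
      _ < 1 * 1 := mul_lt_mul'' e1 e2 (mul_pos A1 P2).le (mul_pos A2 P1).le
      _ = 1 := one_mul 1
  have e4 : tan (th R I) * tan (th R' I') < 1 := by
    by_contra hn
    push Not at hn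
    nlinarith
  by_contra hn
  push Not at hn
  have hc1 : 0 < cos (th R I) := Real.cos_pos_of_mem_Ioo ⟨by linarith, t1'⟩
  have hc2 : 0 < cos (th R' I') := Real.cos_pos_of_mem_Ioo ⟨by linarith, t2'⟩
  rw [Real.tan_eq_sin_div_cos, Real.tan_eq_sin_div_cos, div_mul_div_comm,
    div_lt_one (mul_pos hc1 hc2)] at e4
  have : cos (th R I + th R' I') ≤ 0 :=
    Real.cos_nonpos_of_pi_div_two_le_of_le hn (by linarith)
  rw [Real.cos_add] at this
  linarith

end Pool.Agent.S3.E
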