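import Pool.Agent.S3.E.GeoX
import Pool.Agent.S3.E.OGeo

/-!
# Stage 3, block E: location at an end `2`

At an end `2` with neighbour `κ' = ρ e^{-iφ}`: `κ² = -(i/2) conj κ'`, so `|κ|² = ρ/2`,
`|σ|⁴ = |1 - κ²|² = 1 + ρ²/4 - ρ sin φ`.  `L := |σ|²`.

`end_cos_ge`: `cos 2θ = (1 - L)/(ρ/2) ≥ (1 - √(1 + ρ²/4))/(ρ/2) = -(ρ/2)/(1 + √(1 + ρ²/4)) ≥ 2 - √5`.
`end_th_le`: `2 - √5 > cos (1.81)`, i.e. `θ ≤ 0.905`.
`end_small`: let the neighbour have `|κ'|² = k2 R' I' = ρ²`, `q = cos 2θ' = (1 - |σ'|²)/ρ²`, so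
`|σ'|² = 1 - q ρ²`, `|σ'|⁴ = |1 - κ'²|² = 1 - 2 ρ² cos 2φ + ρ⁴`; hence
`sin² φ = (1 - q)(1 - ρ² (1 + q)/2)/2`, and for `ρ ≤ 1`: `sin φ ≥ (1 - q)/2`.  If `q ≤ 1/2` then
`sin φ ≥ 1/4 ≥ ρ/4`, `L ≤ 1`, `cos 2θ ≥ 0`, `θ ≤ π/4`.  So `θ > π/4` implies `q > 1/2`, `θ' < π/6`.
`end_S`: `cos 2θ = 2 (sin φ - ρ/4)/(1 + L)`.  For `θ > π/4` one has `sin φ < ρ/4`, `L > 1`, so
`cos 2θ ≥ sin φ - ρ/4 ≥ (1 - q)/2 - 1/4 = 1/4 - q/2`.  Claim `θ + θ' ≤ 1.35`: with `ψ = 2θ' < π/3`,
`cos 2θ ≥ 1/4 - cos ψ/2 ≥ cos (2.7 - ψ)`: `1/4 ≥ cos ψ (1/2 + cos 2.7) + sin 2.7 sin ψ`, right side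
`≤ -0.404 cos ψ + 0.428 sin ψ`, increasing in `ψ`, at `ψ = π/3`: `0.169 < 1/4`.
`end_x`: `cosh 2x = (1 + L)/(ρ/2) ≥ 3/ρ` because `L = |1 - κ²| ≥ 1 - ρ/2 ≥ 1/2`;
`cosh 2x' = (1 + |σ'|²)/ρ² ≤ 2/ρ² ≤ (4/3) (3/ρ)` if `ρ ≥ 1/2`; and `cosh (2x + 0.3) ≥ cosh 2x cosh 0.3
+ sinh 2x sinh 0.3`, with `cosh 2x ≥ 3`: `sinh 2x ≥ 0.94 cosh 2x`, `1.045 + 0.94 * 0.304 = 1.331`: the
case `ρ = 1/2` needs `cosh 2x ≥ 6` or `ρ ≥ 2/3` (then `2/ρ² ≤ 3/ρ`): for `ρ ≤ 2/3`, `cosh 2x ≥ 4.5`,
`sinh 2x ≥ 0.974 cosh 2x`, `1.045 + 0.974 * 0.3045 = 1.3416 ≥ 4/3`.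
-/

namespace Pool.Agent.S3.E

open Real

private theorem OEnd_L_nonneg {R I : ℝ} (h : 0 < R) (h' : R < π / 2) : 0 ≤ s2 R I :=
  (s2_pos h h').le

theorem end_cos_ge {ρ φ L : ℝ} (h0 : 0 < ρ) (h1 : ρ ≤ 1) (hφ : 0 ≤ sin φ) (hL : 0 ≤ L)
    (h : L ^ 2 = 1 + ρ ^ 2 / 4 - ρ * sin φ) : 2 - √5 ≤ (1 - L) / (ρ / 2) := by
  have h5 : √5 ^ 2 = 5 := Real.sq_sqrt (by norm_num)
  have h5' : 2 < √5 := by
    rw [Real.lt_sqrt (by norm_num)]; norm_num
  rw [le_div_iff₀ (by linarith only [h0])]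
  set s := √5 with hs
  have hle : L ≤ 1 + (s - 2) * ρ / 2 := by
    by_contra hcon
    push Not at hcon
    have hc0 : 0 ≤ 1 + (s - 2) * ρ / 2 := by
      have := mul_nonneg (by linarith only [h5'] : 0 ≤ s - 2) h0.le
      linarith only [this]
    have h2 : (1 + (s - 2) * ρ / 2) ^ 2 < L ^ 2 := pow_lt_pow_left₀ hcon hc0 two_ne_zero
    have h3 : L ^ 2 ≤ 1 + ρ ^ 2 / 4 := by
      rw [h]
      have := mul_nonneg h0.le hφ
      linarith only [this]
    have h4 : 1 + ρ ^ 2 / 4 ≤ (1 + (s - 2) * ρ / 2) ^ 2 := by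
      have e : (1 + (s - 2) * ρ / 2) ^ 2 - (1 + ρ ^ 2 / 4) = (s - 2) * (ρ * (1 - ρ)) := by
        have : s ^ 2 = 5 := h5
        ring_nf
        rw [this]
        ring
      have := mul_nonneg (by linarith only [h5'] : 0 ≤ s - 2) (mul_nonneg h0.le (by linarith only [h1] : 0 ≤ 1 - ρ))
      linarith only [this, e]
    linarith only [h4, h3, h2]
  linarith only [hle]

private theorem OEnd_cos_181 : cos 1.81 < 2 - √5 := by
  have hpi1 : π < 3.1416 := by linarith only [Real.pi_lt_d6]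
  have hpi2 : 3.1415 < π := by linarith only [Real.pi_gt_d6, hpi1]
  have h1 : cos 1.81 = - sin (1.81 - π / 2) := by
    rw [← Real.sin_pi_div_two_sub, ← Real.sin_neg]
    congr 1
    ring
  have h2 : sin 0.2392 ≤ sin (1.81 - π / 2) :=
    Real.sin_le_sin_of_le_of_le_pi_div_two (by linarith only [hpi2]) (by linarith only [hpi2]) (by linarith only [hpi1])
  have h3 : (0.2392 : ℝ) - 0.2392 ^ 3 / 6 < sin 0.2392 := Real.sin_gt_sub_cube (by norm_num)
  have h4 : √5 < 2.2361 := by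
    rw [Real.sqrt_lt' (by norm_num)]; norm_num
  rw [h1]
  norm_num at h3
  linarith only [h3, h4, h2, hpi2, hpi1]

theorem end_th_le {R I ρ φ : ℝ} (hR : 0 < R) (hR' : R < π / 2) (hI : 0 < I) (h0 : 0 < ρ)
    (h1 : ρ ≤ 1) (hφ : 0 ≤ sin φ) (hk : k2 R I = ρ / 2)
    (hs : s2 R I ^ 2 = 1 + ρ ^ 2 / 4 - ρ * sin φ) : th R I ≤ 0.905 := by
  have h2 := end_cos_ge h0 h1 hφ (OEnd_L_nonneg hR hR') hs
  rw [← hk, ← cos_two_th hR hR' hI] at h2
  by_contra hcon
  push Not at hcon
  have h3 : cos (2 * th R I) < cos 1.81 := by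
    apply Real.cos_lt_cos_of_nonneg_of_le_pi (by norm_num)
    · have := th_lt hR hR' hI
      linarith only [this]
    · linarith only [hcon]
  linarith only [OEnd_cos_181, h3, h2]

/-- The neighbour of an end `2`. -/
theorem nb_sin {R' I' : ℝ} (g : 0 < R') (g' : R' < π / 2) (gI : 0 < I') (gk : k2 R' I' ≤ 1)
    (gs : s2 R' I' ≤ 1) : (1 - cos (2 * th R' I')) / 2 ≤ sin (ph R' I') := by
  have hK := k2_pos (I := I') g g'
  have hs := GeoX_sin_pos g g'
  have hc := GeoX_cos_pos g g'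
  have hC := Real.cosh_pos I'
  have hCs := Real.cosh_sq I'
  have hsc := Real.sin_sq_add_cos_sq R'
  have hpp := ph_pos g g' gI
  have hpl := ph_lt R' I'
  have hsp : 0 < sin (ph R' I') :=
    Real.sin_pos_of_pos_of_lt_pi hpp (by linarith only [hpl, g', g])
  have hcp : 0 < cos (ph R' I') := Real.cos_pos_of_mem_Ioo ⟨by linarith only [hpp, g', g], hpl⟩
  have hsh : 0 < sinh I' := Real.sinh_pos_iff.mpr gI
  have ht := tan_ph R' I'
  rw [Real.tan_eq_sin_div_cos, Real.tan_eq_sin_div_cos, Real.tanh_eq_sinh_div_cosh,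
    div_mul_div_comm, div_eq_div_iff hcp.ne' (mul_pos hc hC).ne'] at ht
  set s := sin (ph R' I') with hsdef
  set t := cos (ph R' I') with htdef
  have hst : s ^ 2 + t ^ 2 = 1 := Real.sin_sq_add_cos_sq _
  have hK2 := GeoX_k2 R' I'
  have hS2 := GeoX_s2 R' I'
  have e1 : s ^ 2 * k2 R' I' = sin R' ^ 2 * sinh I' ^ 2 := by
    have e2 : (s * (cos R' * cosh I')) ^ 2 = (sin R' * sinh I' * t) ^ 2 := by rw [ht]
    have e3 : s ^ 2 * (cos R' ^ 2 * cosh I' ^ 2) = sin R' ^ 2 * sinh I' ^ 2 * (1 - s ^ 2) := by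
      have : t ^ 2 = 1 - s ^ 2 := by linarith only [hst]
      rw [← this]
      linarith only [e2]
    rw [hK2]
    have e4 : cosh I' ^ 2 = sinh I' ^ 2 + 1 := hCs
    have e5 : sin R' ^ 2 = 1 - cos R' ^ 2 := by linarith only [hsc]
    rw [e4] at e3 ⊢
    rw [e5] at e3 ⊢
    linarith only [e3]
  have e6 : (1 - cos (2 * th R' I')) / 2 = sinh I' ^ 2 / k2 R' I' := by
    rw [cos_two_th g g' gI, one_sub_div hK.ne', div_div, mul_comm (k2 R' I') 2, ← div_div]
    congr 1
    rw [hK2, hS2, hCs]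
    ring
  rw [e6]
  have e7 : sinh I' ^ 2 / k2 R' I' ≤ sin R' ^ 2 := by
    rw [div_le_iff₀ hK]
    have e8 : sin R' ^ 2 * k2 R' I' - sinh I' ^ 2 = cos R' ^ 2 * (1 - k2 R' I') := by
      have e5 : sin R' ^ 2 = 1 - cos R' ^ 2 := by linarith only [hsc]
      rw [hK2, hCs, e5]
      ring
    have := mul_nonneg (sq_nonneg (cos R')) (by linarith only [gk] : 0 ≤ 1 - k2 R' I')
    linarith only [this, e8]
  have e9 : (sinh I' ^ 2 / k2 R' I') ^ 2 ≤ s ^ 2 := by
    have e10 : s ^ 2 = sin R' ^ 2 * (sinh I' ^ 2 / k2 R' I') := by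
      rw [← mul_div_assoc, ← e1, mul_div_cancel_right₀ _ hK.ne']
    rw [e10, sq (sinh I' ^ 2 / k2 R' I')]
    exact mul_le_mul_of_nonneg_right e7 (div_nonneg (sq_nonneg _) hK.le)
  exact le_of_pow_le_pow_left₀ two_ne_zero hsp.le e9

theorem end_small {R I R' I' : ℝ} (hR : 0 < R) (hR' : R < π / 2) (hI : 0 < I)
    (g : 0 < R') (g' : R' < π / 2) (gI : 0 < I') (gk : k2 R' I' ≤ 1) (gs : s2 R' I' ≤ 1)
    (hk : k2 R I = √(k2 R' I') / 2)
    (hs : s2 R I ^ 2 = 1 + k2 R' I' / 4 - √(k2 R' I') * sin (ph R' I'))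
    (ht : π / 4 < th R I) : th R' I' < π / 6 ∧ th R I + th R' I' ≤ 1.35 := by
  have hpi1 : π < 3.1416 := by linarith only [Real.pi_lt_d6]
  have hpi2 : 3.1415 < π := by linarith only [Real.pi_gt_d6, hpi1]
  have hK := k2_pos (I := I') g g'
  set ρ := √(k2 R' I') with hρ
  have hρ0 : 0 < ρ := Real.sqrt_pos.mpr hK
  have hρ2 : ρ ^ 2 = k2 R' I' := Real.sq_sqrt hK.le
  have hρ1 : ρ ≤ 1 := by
    rw [hρ, Real.sqrt_le_left zero_le_one, one_pow]; exact gk
  rw [← hρ2] at hs
  set L := s2 R I with hL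
  have hL1 : 1 < L := by
    by_contra hcon
    push Not at hcon
    have := (th_le_iff hR hR' hI).mpr hcon
    linarith only [this, ht]
  set u := sin (ph R' I') with hu
  have h1 : ρ * (ρ / 4 - u) = L ^ 2 - 1 := by rw [hs]; ring
  have h2 : u < ρ / 4 := by
    by_contra hcon
    push Not at hcon
    have h3 : ρ * (ρ / 4 - u) ≤ 0 := mul_nonpos_of_nonneg_of_nonpos hρ0.le (by linarith only [hcon])
    have h4 : 0 < L ^ 2 - 1 := by linarith only [mul_pos (sub_pos.2 hL1) (sub_pos.2 hL1),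
                                    mul_pos (sub_pos.2 hpi2) (sub_pos.2 hL1),
                                    mul_pos (sub_pos.2 hpi1) (sub_pos.2 hL1)]
    linarith only [h4, h3, hs]
  have hq := nb_sin g g' gI gk gs
  rw [← hu] at hq
  set q := cos (2 * th R' I') with hqd
  have hq1 : 1 / 2 < q := by linarith only [hq, h2, hρ1]
  have hthp := th_pos g g' gI
  have hthl := th_lt g g' gI
  have hψ : 2 * th R' I' < π / 3 := by
    by_contra hcon
    push Not at hcon
    have h5 : q ≤ cos (π / 3) := Real.cos_le_cos_of_nonneg_of_le_pi (by linarith only [hR', hR]) (by linarith only [hthl]) hcon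
    rw [Real.cos_pi_div_three] at h5
    linarith only [h5, hq, h2, hρ1]
  refine ⟨by linarith only [hψ], ?_⟩
  by_contra hcon
  push Not at hcon
  have htl := th_lt hR hR' hI
  have h6 : cos (2 * th R I) = (1 - L) / (ρ / 2) := by rw [cos_two_th hR hR' hI, hk]
  have h7 : u - ρ / 4 ≤ cos (2 * th R I) := by
    rw [h6, le_div_iff₀ (by linarith only [hρ0])]
    have h8 : (1 - L) * (1 + L) = ρ * (u - ρ / 4) := by linarith only [hs]
    have h9 : (1 - L) * 2 ≥ (1 - L) * (1 + L) := by (refine le_of_not_gt fun hng => ?_; linarith only [mul_pos (sub_pos.2 hL1) (sub_pos.2 hL1),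
                                                      mul_pos (sub_pos.2 hng) (sub_pos.2 hpi2),
                                                      mul_pos (sub_pos.2 hng) (sub_pos.2 hpi1)])
    linarith only [h9, hs]
  have h8 : cos (2 * th R I) < cos (2.7 - 2 * th R' I') := by
    apply Real.cos_lt_cos_of_nonneg_of_le_pi
    · linarith only [hψ, hpi2, hpi1]
    · linarith only [htl]
    · norm_num at hcon ⊢
      linarith only [hcon]
  rw [Real.cos_sub] at h8
  have h9 : cos 2.7 ≤ -0.9 := by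
    have e : cos 2.7 = - cos (π - 2.7) := by rw [Real.cos_pi_sub]; ring
    rw [e]
    have := Real.one_sub_sq_div_two_le_cos (x := π - 2.7)
    have h10 : (π - 2.7) ^ 2 ≤ 0.4416 ^ 2 := pow_le_pow_left₀ (by linarith only [hpi2, hR', hR]) (by linarith only [hpi1]) 2
    norm_num at h10 ⊢
    norm_num at this
    linarith only [this, h10, hpi2, hpi1]
  have h10 : sin 2.7 ≤ 0.45 := by
    rw [← Real.sin_pi_sub]
    have := Real.sin_le (x := π - 2.7) (by linarith only [hpi2, hR', hR])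
    linarith only [this, hpi2, hpi1]
  have h11 : 0 ≤ sin (2 * th R' I') := Real.sin_nonneg_of_nonneg_of_le_pi (by linarith only [hthp]) (by linarith only [hthl])
  have h12 : sin (2 * th R' I') ≤ 1 := Real.sin_le_one _
  have h13 : cos 2.7 * q ≤ -0.9 * q := mul_le_mul_of_nonneg_right h9 (by linarith only [hq, h2, hρ1,
                                                                           hpi2, hpi1])
  have h14 : sin (2 * th R' I') ≤ 0.87 := by
    have h15 : sin (2 * th R' I') ^ 2 = 1 - q ^ 2 := by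
      have := Real.sin_sq_add_cos_sq (2 * th R' I')
      rw [hqd]; linarith only [this]
    have h16 : sin (2 * th R' I') ^ 2 ≤ 0.87 ^ 2 := by
      rw [h15]; (refine le_of_not_gt fun hng => ?_; linarith only [hq, hs, hρ2, gk,
                  mul_nonneg (sub_nonneg.2 hq) (sub_nonneg.2 hq),
                  mul_nonneg (sub_nonneg.2 h2.le) (sub_nonneg.2 hq),
                  mul_pos (sub_pos.2 h2) (sub_pos.2 h2), mul_pos (sub_pos.2 hL1) (sub_pos.2 hL1),
                  mul_nonneg (sub_nonneg.2 hρ1) (sub_nonneg.2 hq),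
                  mul_nonneg (sub_nonneg.2 hρ1) (sub_nonneg.2 h2.le),
                  mul_nonneg (sub_nonneg.2 hρ1) (sub_nonneg.2 hρ1),
                  mul_pos (sub_pos.2 hpi2) (sub_pos.2 hL1),
                  mul_pos (sub_pos.2 hpi2) (sub_pos.2 hpi2),
                  mul_pos (sub_pos.2 hpi1) (sub_pos.2 hL1),
                  mul_pos (sub_pos.2 hpi1) (sub_pos.2 hpi2),
                  mul_pos (sub_pos.2 hpi1) (sub_pos.2 hpi1),
                  mul_pos (sub_pos.2 hng) (sub_pos.2 hpi2),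
                  mul_pos (sub_pos.2 hng) (sub_pos.2 hpi1)])
    exact le_of_pow_le_pow_left₀ two_ne_zero (by norm_num) h16
  have h17 : sin 2.7 * sin (2 * th R' I') ≤ 0.45 * 0.87 := by
    have h18 : sin 2.7 * sin (2 * th R' I') ≤ 0.45 * sin (2 * th R' I') :=
      mul_le_mul_of_nonneg_right h10 h11
    have h19 : (0.45 : ℝ) * sin (2 * th R' I') ≤ 0.45 * 0.87 :=
      mul_le_mul_of_nonneg_left h14 (by norm_num)
    linarith only [h18, h13, h12, h8, h7, hq, h2, hρ1]
  norm_num at h17 h13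
  rw [← hqd] at h8
  linarith only [h13, h17, h8, h7, hq, h2, hρ1, hpi2, hpi1]

theorem end_x {R I R' I' : ℝ} (hR : 0 < R) (hR' : R < π / 2) (hI : 0 < I)
    (g : 0 < R') (g' : R' < π / 2) (gI : 0 < I') (gk : k2 R' I' ≤ 1) (gk' : 1 / 4 ≤ k2 R' I')
    (gs : s2 R' I' ≤ 1) (hk : k2 R I = √(k2 R' I') / 2)
    (hs : s2 R I ^ 2 = 1 + k2 R' I' / 4 - √(k2 R' I') * sin (ph R' I')) :
    xx R' I' - xx R I ≤ 0.15 := by
  have hK := k2_pos (I := I') g g'
  set ρ := √(k2 R' I') with hρ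
  have hρ0 : 0 < ρ := Real.sqrt_pos.mpr hK
  have hρ2 : ρ ^ 2 = k2 R' I' := Real.sq_sqrt hK.le
  have hρ1 : ρ ≤ 1 := by
    rw [hρ, Real.sqrt_le_left zero_le_one, one_pow]; exact gk
  have hρh : 1 / 2 ≤ ρ := by
    rw [hρ]
    apply Real.le_sqrt_of_sq_le
    norm_num
    linarith only [gk']
  rw [← hρ2] at hs
  set L := s2 R I with hL
  have hL0 : 0 ≤ L := OEnd_L_nonneg hR hR'
  have hLge : 1 - ρ / 2 ≤ L := by
    have h1 : (1 - ρ / 2) ^ 2 ≤ L ^ 2 := by
      rw [hs]
      have := mul_le_mul_of_nonneg_left (Real.sin_le_one (ph R' I')) hρ0.le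
      linarith only [this]
    exact le_of_pow_le_pow_left₀ two_ne_zero hL0 h1
  have hx := xx_pos hR hR' hI
  have hx' := xx_pos g g' gI
  have c1 : cosh (2 * xx R I) = (1 + L) / (ρ / 2) := by rw [cosh_two_xx hR hR' hI, hk]
  have c2 : cosh (2 * xx R' I') ≤ 2 / ρ ^ 2 := by
    rw [cosh_two_xx g g' gI, ← hρ2]
    exact div_le_div_of_nonneg_right (by linarith only [gs]) (by positivity)
  set c := cosh (2 * xx R I) with hc
  have c3 : 4 - ρ ≤ c * ρ := by
    rw [c1]
    have : (1 + L) / (ρ / 2) * ρ = 2 * (1 + L) := by field_simp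
    rw [this]; linarith only [hLge]
  have hcpos : 0 < c := Real.cosh_pos _
  have key : cosh (2 * xx R' I') ≤ cosh (2 * xx R I + 0.3) := by
    refine c2.trans ?_
    rw [div_le_iff₀ (by positivity)]
    rw [Real.cosh_add]
    rw [← hc]
    have k1 : 1 ≤ cosh (0.3 : ℝ) := Real.one_le_cosh _
    have k2' : (0.3 : ℝ) ≤ sinh 0.3 := Real.self_le_sinh_iff.mpr (by norm_num)
    have k3 : 0 < sinh (2 * xx R I) := Real.sinh_pos_iff.mpr (by linarith only [hx])
    have k4 : c ≤ c * cosh 0.3 := le_mul_of_one_le_right hcpos.le k1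
    rcases le_total (2 / 3) ρ with hρ3 | hρ3
    · have k5 : 0 ≤ sinh (2 * xx R I) * sinh 0.3 := mul_nonneg k3.le (by linarith only [k2'])
      have k6 : c * ρ ^ 2 ≤ (c * cosh 0.3 + sinh (2 * xx R I) * sinh 0.3) * ρ ^ 2 :=
        mul_le_mul_of_nonneg_right (by linarith only [k5, k4]) (by positivity)
      have k7 : 2 ≤ c * ρ ^ 2 := by
        have : c * ρ ^ 2 = (c * ρ) * ρ := by ring
        rw [this]
        have k8 : (4 - ρ) * ρ ≤ (c * ρ) * ρ := mul_le_mul_of_nonneg_right c3 hρ0.le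
        (refine le_of_not_gt fun hng => ?_; linarith only [hng, k8, hρ3, hρ2, gk,
          mul_pos (sub_pos.2 hng) (sub_pos.2 hρ0), mul_nonneg (sq_nonneg (ρ)) (sub_nonneg.2 k8),
          mul_nonneg (sq_nonneg (ρ)) (sub_nonneg.2 c3),
          mul_nonneg (sq_nonneg (ρ)) (sub_nonneg.2 hρ2.le),
          mul_nonneg (sq_nonneg (ρ)) (sub_nonneg.2 hρ2.ge),
          mul_nonneg (sq_nonneg (ρ)) (sub_nonneg.2 gk),
          mul_nonneg (sq_nonneg (ρ)) (sub_nonneg.2 hng.le)])
      linarith only [k7, k6]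
    · have k5 : 5 ≤ c := by
        by_contra hcon
        push Not at hcon
        have : c * ρ < 5 * ρ := mul_lt_mul_of_pos_right hcon hρ0
        linarith only [this, hρ3, c3]
      have k6 : 0.9 * c ≤ sinh (2 * xx R I) := by
        have k7 : (0.9 * c) ^ 2 ≤ sinh (2 * xx R I) ^ 2 := by
          rw [Real.sinh_sq, ← hc]
          (refine le_of_not_gt fun hng => ?_; linarith only [hρ3, c3,
            mul_nonneg (sub_nonneg.2 c3) (sub_nonneg.2 c3),
            mul_nonneg (sub_nonneg.2 hρ1) (sub_nonneg.2 c3),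
            mul_nonneg (sq_nonneg (ρ)) (sub_nonneg.2 k5),
            mul_nonneg (sq_nonneg (ρ)) (sub_nonneg.2 hng.le)])
        exact le_of_pow_le_pow_left₀ two_ne_zero k3.le k7
      have k7 : (0.9 * c) * 0.3 ≤ sinh (2 * xx R I) * sinh 0.3 :=
        mul_le_mul k6 k2' (by norm_num) k3.le
      have k8 : 1.27 * c ≤ c * cosh 0.3 + sinh (2 * xx R I) * sinh 0.3 := by
        norm_num at k7 ⊢
        linarith only [k7, k4]
      have k9 : 1.27 * c * ρ ^ 2 ≤ (c * cosh 0.3 + sinh (2 * xx R I) * sinh 0.3) * ρ ^ 2 :=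
        mul_le_mul_of_nonneg_right k8 (by positivity)
      have k10 : (4 - ρ) * ρ ≤ (c * ρ) * ρ := mul_le_mul_of_nonneg_right c3 hρ0.le
      have k11 : 1.27 * c * ρ ^ 2 = 1.27 * ((c * ρ) * ρ) := by ring
      rw [k11] at k9
      have k12 : 1.6 ≤ (4 - ρ) * ρ := by (refine le_of_not_gt fun hng => ?_; linarith only [hng,
                                           hρh, hρ2, hK, mul_pos (sub_pos.2 hng) (sub_pos.2 hρ0),
                                           mul_nonneg (sq_nonneg (ρ)) (sub_nonneg.2 hρ2.le),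
                                           mul_nonneg (sq_nonneg (ρ)) (sub_nonneg.2 hρ2.ge),
                                           mul_nonneg (sq_nonneg (ρ)) (sub_nonneg.2 gk),
                                           mul_nonneg (sq_nonneg (ρ)) (sub_nonneg.2 hng.le)])
      norm_num at k9 k12 ⊢
      linarith only [k12, k9, k10, hρ2, hρ0, gk]
  have h3 := Real.cosh_le_cosh.mp key
  rw [abs_of_pos (by linarith only [hx']), abs_of_pos (by linarith only [hx])] at h3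
  norm_num at h3 ⊢
  linarith only [h3]

private theorem OEnd_tanh_le {d : ℝ} (hd : 0 ≤ d) : tanh d ≤ d := by
  have h1 : MonotoneOn (fun y : ℝ => y * cosh y - sinh y) (Set.Ici 0) := by
    apply monotoneOn_of_deriv_nonneg (convex_Ici 0)
    · fun_prop
    · fun_prop
    · intro y hy
      rw [interior_Ici] at hy
      have hy' : (0 : ℝ) < y := hy
      have hd : HasDerivAt (fun y : ℝ => y * cosh y - sinh y)
          (1 * cosh y + y * sinh y - cosh y) y :=
        ((hasDerivAt_id y).mul (Real.hasDerivAt_cosh y)).sub (Real.hasDerivAt_sinh y)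
      rw [hd.deriv]
      have := mul_nonneg hy'.le (Real.sinh_nonneg_iff.mpr hy'.le)
      linarith only [this]
  have h2 := h1 (Set.mem_Ici.mpr le_rfl) (Set.mem_Ici.mpr hd) hd
  simp only [Real.sinh_zero, zero_mul, sub_zero] at h2
  rw [Real.tanh_eq_sinh_div_cosh, div_le_iff₀ (Real.cosh_pos d)]
  linarith only [h2]

/-- The inequality (O+) at an end `2`.  `S = t + t' ≤ 1.2`: `3t/2 ≤ 1.3575`, and
`arctan (0.149 tan 1.2) ≤ 0.37`.  `S ≥ 1.2`: `t' ≥ 0.295`, `t + (t - t')/2 ≤ 1.21`,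
`arctan (0.149 tan 1.35) ≤ 0.6`. -/
theorem end_plus {t t' d : ℝ} (h0 : 0 ≤ t') (h1 : t ≤ 0.905) (h2 : π / 4 < t) (h3 : t' ≤ t)
    (h4 : t + t' ≤ 1.35) (hd : d ≤ 0.15) (hd0 : 0 ≤ d) :
    t + (t - t') / 2 + arctan (tanh d * tan (t + t')) / 2 ≤ π / 2 := by
  have hpi1 : π < 3.1416 := by linarith only [Real.pi_lt_d6, h2, h1]
  have hpi2 : 3.1415 < π := by linarith only [Real.pi_gt_d6, hpi1]
  have hS0 : 0 < t + t' := by linarith only [hpi2, h2, h0]
  have htd : tanh d ≤ 0.15 := (OEnd_tanh_le hd0).trans hd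
  have htd0 : 0 ≤ tanh d := by
    rw [Real.tanh_eq_sinh_div_cosh]
    exact div_nonneg (Real.sinh_nonneg_iff.mpr hd0) (Real.cosh_pos d).le
  -- a bound for the tangent from a bound of the cosine
  have key : ∀ m : ℝ, 0 < m → m ≤ cos (t + t') →
      arctan (tanh d * tan (t + t')) ≤ 0.15 / m := by
    intro m hm hmc
    have hc : 0 < cos (t + t') := hm.trans_le hmc
    have k1 : tan (t + t') ≤ 1 / m := by
      rw [Real.tan_eq_sin_div_cos]
      exact div_le_div₀ zero_le_one (Real.sin_le_one _) hm hmc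
    have k2 : 0 ≤ tan (t + t') :=
      Real.tan_nonneg_of_nonneg_of_le_pi_div_two hS0.le (by linarith only [hpi2, h4, h2, h1])
    have k3 : tanh d * tan (t + t') ≤ 0.15 * (1 / m) :=
      mul_le_mul htd k1 k2 (by norm_num)
    have k4 : 0 ≤ tanh d * tan (t + t') := mul_nonneg htd0 k2
    have k5 : arctan (tanh d * tan (t + t')) ≤ tanh d * tan (t + t') := by
      have k6 : 0 ≤ arctan (tanh d * tan (t + t')) := Real.arctan_nonneg.mpr k4
      have k7 := Real.le_tan k6 (Real.arctan_lt_pi_div_two _)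
      rwa [Real.tan_arctan] at k7
    rw [mul_one_div] at k3
    linarith only [k5, k3]
  rcases le_total (t + t') 1.2 with hS | hS
  · have c1 : (0.357 : ℝ) ≤ cos (t + t') := by
      have e1 : cos 1.2 ≤ cos (t + t') :=
        Real.cos_le_cos_of_nonneg_of_le_pi hS0.le (by norm_num; linarith only [hpi2]) hS
      have e2 : cos 1.2 = sin (π / 2 - 1.2) := by rw [Real.sin_pi_div_two_sub]
      have e3 : sin 0.3707 ≤ sin (π / 2 - 1.2) :=
        Real.sin_le_sin_of_le_of_le_pi_div_two (by linarith only [hpi2]) (by linarith only []) (by linarith only [hpi2,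
                                                                                                     hpi1])
      have e4 : (0.3707 : ℝ) - 0.3707 ^ 3 / 6 < sin 0.3707 := Real.sin_gt_sub_cube (by norm_num)
      norm_num at e4
      rw [e2] at e1
      linarith only [e4, e3, e1, hpi2, hpi1]
    have c2 := key 0.357 (by norm_num) c1
    have c3 : (0.15 : ℝ) / 0.357 < 0.421 := by norm_num
    linarith only [c2, hpi2, hpi1, h1, h0]
  · have c1 : (0.218 : ℝ) ≤ cos (t + t') := by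
      have e1 : cos 1.35 ≤ cos (t + t') :=
        Real.cos_le_cos_of_nonneg_of_le_pi hS0.le (by norm_num; linarith only [hpi2]) h4
      have e2 : cos 1.35 = sin (π / 2 - 1.35) := by rw [Real.sin_pi_div_two_sub]
      have e3 : sin 0.2207 ≤ sin (π / 2 - 1.35) :=
        Real.sin_le_sin_of_le_of_le_pi_div_two (by linarith only [hpi2]) (by linarith only []) (by linarith only [hpi2,
                                                                                                     hpi1])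
      have e4 : (0.2207 : ℝ) - 0.2207 ^ 3 / 6 < sin 0.2207 := Real.sin_gt_sub_cube (by norm_num)
      norm_num at e4
      rw [e2] at e1
      linarith only [e4, e3, e1, hpi2, hpi1]
    have c2 := key 0.218 (by norm_num) c1
    have c3 : (0.15 : ℝ) / 0.218 < 0.689 := by norm_num
    linarith only [c2, hS, hpi2, hpi1, h1]

end Pool.Agent.S3.E
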