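import Pool.Agent.S3.E.GeoR

/-!
# Stage 3, block E: lower bound of `φ` for `a ≥ 3`, the range `R ≥ π/4`

`π/4 ≤ R ≤ π/3`, `c = cos R`, `s = sin R`; the claim is `(1 - c)² ≤ 3 c φ`, `φ = arctan (tan R tanh I)`, and
`arctan z ≥ 0.98 z` for `0 ≤ z ≤ 1/5`.

Case `α ≥ 1/4`: `sinh 2I = tan α sin 2R ≥ 0.2165`, so `tanh I ≥ 0.106`, `3 c φ ≥ 0.3116 s`, and `(1 - c)³ ≤ 0.0971 (1 + c)`.

Case `α < 1/4`: `t = |tan z|`; slot 1 gives `sinh (4 I) ≥ sinh p₁ ≥ 0.2549 t` (`a ≤ 4`), so `tanh I ≥ 0.0611 t`; `t² ≤ 3` and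
`cosh 2I ≤ 1.0322`, so `t² ≥ (1.0161 - c²)/(0.0161 + c²)`; `3 c φ ≥ 0.1796 t s`, and
`(1 - c)³ (0.0161 + c²) ≤ 0.03225 (1.0161 - c²) (1 + c)`.
-/

namespace Pool.Agent.S3.E

open Real

theorem OPhiHigh_arctan {z : ℝ} (h0 : 0 ≤ z) (h1 : z ≤ 1 / 5) : 49 / 50 * z ≤ arctan z := by
  rcases h0.eq_or_lt with h | h
  · rw [← h]
    simp
  have hpi : (3 : ℝ) < π := pi_gt_three
  have e1 : arctan (tan (49 / 50 * z)) = 49 / 50 * z := arctan_tan (by linarith only [hpi, h, h1]) (by linarith only [hpi,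
                                                                                                         h,
                                                                                                         h1])
  rw [← e1]
  apply arctan_strictMono.monotone
  have hc : 1 - (49 / 50 * z) ^ 2 / 2 ≤ cos (49 / 50 * z) := one_sub_sq_div_two_le_cos
  have hs : sin (49 / 50 * z) < 49 / 50 * z := sin_lt (by linarith only [h])
  have hc0 : 0 < cos (49 / 50 * z) := lt_of_lt_of_le (by linarith only [h, h1,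
                                                           mul_nonneg (sub_nonneg.2 h0) (sub_nonneg.2 h1)]) hc
  rw [tan_eq_sin_div_cos, div_le_iff₀ hc0]
  have h3 : z * (1 - (49 / 50 * z) ^ 2 / 2) ≤ z * cos (49 / 50 * z) := mul_le_mul_of_nonneg_left hc h.le
  (refine le_of_not_gt fun hng => ?_; linarith only [h3, hs, h,
    mul_nonneg (sub_nonneg.2 h0) (sub_nonneg.2 h1), mul_pos (sub_pos.2 hng) (sub_pos.2 h),
    mul_nonneg (sub_nonneg.2 hng.le) (sub_nonneg.2 h1),
    mul_nonneg (sq_nonneg (1 * 49 * (1 * z))) (sub_nonneg.2 h1)])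

/-- From a lower bound of `tanh I` to the claim. -/
theorem OPhiHigh_final {R I m : ℝ} (hR0 : π / 4 ≤ R) (hR1 : R ≤ π / 3) (hm : 0 ≤ m) (hI : m ≤ tanh I) (hm1 : m * tan R ≤ 1 / 5)
    (hp : (1 - cos R) ^ 2 ≤ 147 / 50 * (m * sin R)) : (1 - cos R) ^ 2 ≤ 3 * cos R * ph R I := by
  have hpi := pi_pos
  have hc : 0 < cos R := cos_pos_of_mem_Ioo ⟨by linarith only [hpi, hR0], by linarith only [hpi,
                                                                               hR1]⟩
  have ht : 0 ≤ tan R := tan_nonneg_of_nonneg_of_le_pi_div_two (by linarith only [hR1, hR0]) (by linarith only [hR1,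
                                                                                                   hR0])
  have e1 : 49 / 50 * (m * tan R) ≤ ph R I := by
    refine (OPhiHigh_arctan (mul_nonneg hm ht) hm1).trans ?_
    unfold ph
    apply arctan_strictMono.monotone
    rw [mul_comm]
    exact mul_le_mul_of_nonneg_left hI ht
  have e2 : 3 * cos R * (49 / 50 * (m * tan R)) = 147 / 50 * (m * sin R) := by
    rw [tan_eq_sin_div_cos]
    field_simp
    ring
  calc (1 - cos R) ^ 2 ≤ 147 / 50 * (m * sin R) := hp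
    _ = 3 * cos R * (49 / 50 * (m * tan R)) := e2.symm
    _ ≤ 3 * cos R * ph R I := mul_le_mul_of_nonneg_left e1 (by linarith only [hc])

theorem OPhiHigh_poly1 {c : ℝ} (h0 : 1 / 2 ≤ c) (h1 : c ≤ 1) : (1 - c) ^ 3 ≤ 971 / 10000 * (1 + c) := by
  have h2 : (1 - c) ^ 2 ≤ 1 / 4 := by linarith only [h0,
                                        mul_nonneg (sub_nonneg.2 h0) (sub_nonneg.2 h1)]
  linarith only [mul_nonneg (sub_nonneg.2 h1) (sub_nonneg.2 h2), h0]

theorem OPhiHigh_poly2 {c : ℝ} (h0 : 1 / 2 ≤ c) (h1 : c ^ 2 ≤ 1 / 2) :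
    (1 - c) ^ 3 * (161 / 10000 + c ^ 2) ≤ 3225 / 100000 * ((10161 / 10000 - c ^ 2) * (1 + c)) := by
  have hc : c ≤ 71 / 100 := by (refine le_of_not_gt fun hng => ?_; linarith only [hng, h1,
                                 mul_pos (sub_pos.2 hng) (sub_pos.2 hng)])
  rcases le_total c (3 / 5) with h | h
  · linarith only [h, mul_self_nonneg ((2 * c - 1 * 1) * (1 * 3 - 5 * c)),
      mul_nonneg (sq_nonneg (1 * c)) (sub_nonneg.2 (mul_nonneg (sub_nonneg.2 h0) (sub_nonneg.2 h))),
      mul_nonneg (sq_nonneg (1 * c)) (sub_nonneg.2 h0),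
      mul_nonneg (mul_self_nonneg ((2 * c - 1 * 1) * (1 * 3 - 5 * c))) (sub_nonneg.2 h0)]
  · linarith only [mul_nonneg (mul_nonneg (sub_nonneg.2 h) (sub_nonneg.2 hc)) (sub_nonneg.2 h),
      mul_nonneg (sub_nonneg.2 h) (sub_nonneg.2 hc), h,
      mul_self_nonneg ((5 * c - 1 * 3) * (1 * 71 - 100 * c)),
      mul_nonneg (mul_self_nonneg ((5 * c - 1 * 3) * (1 * 71 - 100 * c))) (sub_nonneg.2 h0)]

/-- `tanh I ≥ m` from a lower bound of `sinh (2 I)`. -/
theorem OPhiHigh_tanh2 {I : ℝ} (hI : 0 < I) (h : 433 / 2000 ≤ sinh (2 * I)) : 106 / 1000 ≤ tanh I := by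
  have hC := cosh_pos I
  have hS : 0 < sinh I := sinh_pos_iff.2 hI
  have h1 := cosh_sq I
  rw [tanh_eq_sinh_div_cosh, le_div_iff₀ hC]
  by_contra hc
  rw [not_le] at hc
  rw [sinh_two_mul] at h
  have h2 : sinh I ^ 2 ≤ (106 / 1000 * cosh I) ^ 2 := pow_le_pow_left₀ hS.le hc.le 2
  have h3 : sinh I * cosh I ≤ 106 / 1000 * cosh I * cosh I := mul_le_mul_of_nonneg_right hc.le hC.le
  linarith only [h3, h2, h1, h]

/-- `tanh I ≥ 0.0611 t` from `sinh (4 I) ≥ 0.2549 t`. -/
theorem OPhiHigh_tanh4 {I t : ℝ} (hI : 0 < I) (ht : 0 < t) (ht3 : t ^ 2 ≤ 3) (h : 2549 / 10000 * t ≤ sinh (4 * I)) :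
    611 / 10000 * t ≤ tanh I := by
  have hC := cosh_pos I
  have hS : 0 < sinh I := sinh_pos_iff.2 hI
  have h1 := cosh_sq I
  rw [tanh_eq_sinh_div_cosh, le_div_iff₀ hC]
  by_contra hc
  rw [not_le] at hc
  have h4 : sinh (4 * I) = 4 * (sinh I * cosh I) * (1 + 2 * sinh I ^ 2) := by
    have e1 : 4 * I = 2 * (2 * I) := by ring
    rw [e1, sinh_two_mul, sinh_two_mul, cosh_two_mul, h1]
    ring
  rw [h4] at h
  set S := sinh I with hSd
  set C := cosh I with hCd
  have h2 : S ^ 2 ≤ (611 / 10000 * t * C) ^ 2 := pow_le_pow_left₀ hS.le hc.le 2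
  -- `S² ≤ 0.0114`
  have h5 : S ^ 2 ≤ 114 / 10000 := by
    have e1 : (611 / 10000 * t * C) ^ 2 = (611 / 10000) ^ 2 * (t ^ 2 * C ^ 2) := by ring
    have e2 : t ^ 2 * C ^ 2 ≤ 3 * C ^ 2 := mul_le_mul_of_nonneg_right ht3 (sq_nonneg C)
    rw [e1] at h2
    linarith only [e2, h2, h1]
  have h6 : S * C ≤ 611 / 10000 * t * (1 + 114 / 10000) := by
    have e1 : S * C ≤ 611 / 10000 * t * C * C := mul_le_mul_of_nonneg_right hc.le hC.le
    have e2 : 611 / 10000 * t * C * C = 611 / 10000 * t * C ^ 2 := by ring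
    have e3 : 611 / 10000 * t * C ^ 2 ≤ 611 / 10000 * t * (1 + 114 / 10000) :=
      mul_le_mul_of_nonneg_left (by linarith only [h5, h1]) (by linarith only [ht])
    linarith only [e3, e1]
  have h7 : 4 * (S * C) * (1 + 2 * S ^ 2) ≤ 4 * (611 / 10000 * t * (1 + 114 / 10000)) * (1 + 2 * (114 / 10000)) :=
    mul_le_mul (by linarith only [h6]) (by linarith only [h5]) (by positivity) (by positivity)
  linarith only [h7, h, ht]

theorem OPhiHigh_quarter : tan (1 / 4) ≤ 2555 / 10000 ∧ 2549 / 10000 ≤ 1 / 2 * cos (1 / 4 + π / 4) := by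
  have hs : sin (1 / 4 : ℝ) ≤ 24741 / 100000 := by
    have h := sin_bound (x := (1 / 4 : ℝ)) (by rw [abs_of_pos] <;> norm_num)
    have h' := (abs_le.1 h).2
    rw [abs_of_pos (by norm_num : (0 : ℝ) < 1 / 4)] at h'
    norm_num at h'
    norm_num
    linarith only [h']
  have hc : 96854 / 100000 ≤ cos (1 / 4 : ℝ) := by
    have h := cos_bound (x := (1 / 4 : ℝ)) (by rw [abs_of_pos] <;> norm_num)
    have h' := (abs_le.1 h).1
    rw [abs_of_pos (by norm_num : (0 : ℝ) < 1 / 4)] at h'
    norm_num at h'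
    norm_num
    linarith only [h']
  constructor
  · rw [tan_eq_sin_div_cos, div_le_iff₀ (by linarith only [hc])]
    linarith only [hc, hs]
  · rw [cos_add, cos_pi_div_four, sin_pi_div_four]
    have h2 : (14142 / 10000 : ℝ) ≤ √2 := by
      rw [show (14142 / 10000 : ℝ) = √((14142 / 10000) ^ 2) by rw [sqrt_sq (by norm_num)]]
      exact sqrt_le_sqrt (by norm_num)
    linarith only [h2, hc, hs, mul_nonneg (sub_nonneg.2 hc) (sub_nonneg.2 h2),
      mul_nonneg (sub_nonneg.2 hs) (sub_nonneg.2 h2)]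

theorem OPhiHigh_c {R : ℝ} (hR0 : π / 4 ≤ R) (hR1 : R ≤ π / 3) : 1 / 2 ≤ cos R ∧ cos R ^ 2 ≤ 1 / 2 := by
  have hpi := pi_pos
  have h1 : cos (π / 3) ≤ cos R := cos_le_cos_of_nonneg_of_le_pi (by linarith only [hR1, hR0]) (by linarith only [hR1,
                                                                                                     hR0]) hR1
  have h2 : cos R ≤ cos (π / 4) := cos_le_cos_of_nonneg_of_le_pi (by linarith only [hR1, hR0]) (by linarith only [hR1,
                                                                                                     hR0]) hR0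
  rw [cos_pi_div_three] at h1
  refine ⟨h1, ?_⟩
  have h3 : cos R ^ 2 ≤ cos (π / 4) ^ 2 := pow_le_pow_left₀ (by linarith only [h1]) h2 2
  rw [cos_pi_div_four, div_pow, sq_sqrt (by norm_num)] at h3
  linarith only [h3]

/-- `s² = 1 - c²`, and a square root comparison. -/
theorem OPhiHigh_sqrt {u s m : ℝ} (hm : 0 ≤ m) (hs : 0 ≤ s) (h : (u ^ 2) ^ 2 ≤ (147 / 50 * m) ^ 2 * s ^ 2) :
    u ^ 2 ≤ 147 / 50 * (m * s) := by
  have h1 : (u ^ 2) ^ 2 ≤ (147 / 50 * (m * s)) ^ 2 := by
    calc (u ^ 2) ^ 2 ≤ (147 / 50 * m) ^ 2 * s ^ 2 := h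
      _ = (147 / 50 * (m * s)) ^ 2 := by ring
  exact abs_le_of_sq_le_sq' h1 (by positivity) |>.2

theorem OPhiHigh_tan {R : ℝ} (hR0 : π / 4 ≤ R) (hR1 : R ≤ π / 3) : tan R ≤ 7 / 4 := by
  obtain ⟨h1, h2⟩ := OPhiHigh_c hR0 hR1
  have hs : sin R ≤ 7 / 8 := by
    have := sin_sq_add_cos_sq R
    (refine le_of_not_gt fun hng => ?_; linarith only [hng, this, h1,
      mul_nonneg (sub_nonneg.2 h1) (sub_nonneg.2 h1), mul_pos (sub_pos.2 hng) (sub_pos.2 hng)])
  rw [tan_eq_sin_div_cos, div_le_iff₀ (by linarith only [h1])]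
  linarith only [hs, h1]

theorem Vx.phi_high {a R I ρ₁ β₁ p₁ r₁ ρ₂ β₂ p₂ r₂ : ℝ} (h : Vx a R I ρ₁ β₁ p₁ r₁ ρ₂ β₂ p₂ r₂)
    (ha : 3 ≤ a) (hρ₁ : 1 / 2 ≤ ρ₁) (hβ₁ : β₁ ≤ π / 4) (hR : π / 4 ≤ R) : (1 - cos R) ^ 2 ≤ 3 * cos R * ph R I := by
  have hpi := pi_pos
  have h0 := h.R0
  have hlt := h.R1
  have hI := h.I0
  have haR : a * R ≤ π := by
    have := h.hR
    have := h.sl₁.r0
    have := h.sl₂.r0
    linarith [this]
  have hR1 : R ≤ π / 3 := by
    have : 3 * R ≤ a * R := mul_le_mul_of_nonneg_right ha h0.le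
    linarith only [this, haR]
  obtain ⟨hc0, hc1⟩ := OPhiHigh_c hR hR1
  have hc2 : cos R ≤ 1 := cos_le_one R
  have htan := OPhiHigh_tan hR hR1
  have htan0 : 0 ≤ tan R := tan_nonneg_of_nonneg_of_le_pi_div_two h0.le hlt.le
  have hs0 : 0 ≤ sin R := sin_nonneg_of_nonneg_of_le_pi h0.le (by linarith only [hlt, hpi])
  have hss := sin_sq_add_cos_sq R
  have hT := tan_al R I
  have hsin2 := sin_two_pos h0 hlt
  have hsin2le : sin (2 * R) ≤ 1 := sin_le_one _
  have hal := al_pos h0 hlt hI
  rcases le_total (1 / 4) (al R I) with hal4 | hal4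
  · -- the case `α ≥ 1/4`
    have e1 : 1 / 4 ≤ tan (al R I) := hal4.trans (le_tan hal.le (al_lt R I))
    have e2 : 866 / 1000 ≤ sin (2 * R) := by
      have e3 : sin (2 * R) ^ 2 = 1 - (2 * cos R ^ 2 - 1) ^ 2 := by
        rw [← cos_two_mul]
        linarith only [sin_sq_add_cos_sq (2 * R)]
      have e4 : 1 / 4 ≤ cos R ^ 2 := by linarith only [hc0,
                                          mul_nonneg (sub_nonneg.2 hc0) (sub_nonneg.2 hc0)]
      (refine le_of_not_gt fun hng => ?_; linarith only [e3, hsin2, hss,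
        mul_nonneg (sub_nonneg.2 hc1) (sub_nonneg.2 e4), mul_pos (sub_pos.2 hng) (sub_pos.2 hsin2),
        mul_pos (sub_pos.2 hng) (sub_pos.2 hng), mul_nonneg (sq_nonneg (sin R)) (sub_nonneg.2 e4),
        mul_nonneg (sq_nonneg (cos R)) (sub_nonneg.2 hss.le),
        mul_nonneg (sq_nonneg (cos R)) (sub_nonneg.2 hss.ge)])
    have e3 : 433 / 2000 ≤ sinh (2 * I) := by
      have e4 : tan (al R I) * sin (2 * R) = sinh (2 * I) := by
        rw [hT]
        field_simp
      rw [← e4]
      linarith only [e2, mul_nonneg (sub_nonneg.2 hsin2.le) (sub_nonneg.2 e1)]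
    refine OPhiHigh_final hR hR1 (by norm_num : (0 : ℝ) ≤ 106 / 1000) (OPhiHigh_tanh2 hI e3) (by linarith only [htan]) ?_
    apply OPhiHigh_sqrt (by norm_num) hs0
    have e5 := OPhiHigh_poly1 hc0 hc2
    have e6 : sin R ^ 2 = (1 - cos R) * (1 + cos R) := by linarith only [hss]
    rw [e6]
    have e7 : (1 - cos R) * (1 - cos R) ^ 3 ≤ (1 - cos R) * (971 / 10000 * (1 + cos R)) :=
      mul_le_mul_of_nonneg_left e5 (by linarith only [hc2])
    have e8 : 0 ≤ (1 - cos R) * (1 + cos R) := mul_nonneg (by linarith only [hc2]) (by linarith only [hc0])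
    calc ((1 - cos R) ^ 2) ^ 2 = (1 - cos R) * (1 - cos R) ^ 3 := by ring
      _ ≤ (1 - cos R) * (971 / 10000 * (1 + cos R)) := e7
      _ = 971 / 10000 * ((1 - cos R) * (1 + cos R)) := by ring
      _ ≤ (147 / 50 * (106 / 1000)) ^ 2 * ((1 - cos R) * (1 + cos R)) :=
        mul_le_mul_of_nonneg_right (by norm_num) e8
  · -- the case `α ≤ 1/4`
    have ht := tt_pos (I := I) h0 hlt
    have ht2 := tt_sq (I := I) h0 hlt
    set t := tt R I with htd
    have hg : gg R = 2 * cos R ^ 2 - 1 := cos_two_mul R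
    have hcc1 := one_lt_cc hI
    have hcc2 : cc I ≤ 10322 / 10000 := by
      have e1 : tan (al R I) ≤ 2555 / 10000 := by
        have e2 : tan (al R I) ≤ tan (1 / 4) :=
          strictMonoOn_tan.monotoneOn ⟨by linarith only [hal, hlt, h0], al_lt R I⟩ ⟨by linarith only [hpi], by linarith only [pi_gt_three,
                                                                                                                 hlt,
                                                                                                                 h0]⟩ hal4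
        exact e2.trans OPhiHigh_quarter.1
      have e4 : tan (al R I) * sin (2 * R) = sinh (2 * I) := by
        rw [hT]
        field_simp
      have e5 : sinh (2 * I) ≤ 2555 / 10000 := by
        rw [← e4]
        have := mul_le_mul e1 hsin2le hsin2.le (by norm_num)
        linarith only [this]
      have e6 := sinh_two_sq I
      have e7 := sinh_two_pos hI
      (refine le_of_not_gt fun hng => ?_; linarith only [hng, e6, e4, hsin2le,
        mul_nonneg (sub_nonneg.2 e5) (sub_nonneg.2 e7.le),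
        mul_pos (sub_pos.2 hcc1) (sub_pos.2 hcc1),
        mul_nonneg (sub_nonneg.2 hsin2.le) (sub_nonneg.2 e1),
        mul_pos (sub_pos.2 hng) (sub_pos.2 hng)])
    have hgneg : gg R ≤ 0 := by linarith only [hg, hc1]
    have hgge : -(1 / 2) ≤ gg R := by (refine le_of_not_gt fun hng => ?_; linarith only [hg, hc0,
                                        mul_nonneg (sub_nonneg.2 hc0) (sub_nonneg.2 hc0),
                                        mul_nonneg (sub_nonneg.2 hng.le) (sub_nonneg.2 hcc2),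
                                        mul_pos (sub_pos.2 hng) (sub_pos.2 hcc1)])
    have hkk : 0 < cc I + gg R := by linarith only [hgge, hcc2, hcc1]
    have ht2' : t ^ 2 * (cc I + gg R) = cc I - gg R := by
      rw [ht2]
      unfold s2 k2
      field_simp
    have ht3 : t ^ 2 ≤ 3 := by
      by_contra hcon
      rw [not_le] at hcon
      linarith only [ht2', hg, hc0, mul_pos (sub_pos.2 hcc1) (sub_pos.2 hcon),
        mul_nonneg (sub_nonneg.2 hcc1.le) (sub_nonneg.2 hcc2),
        mul_pos (sub_pos.2 hcc1) (sub_pos.2 hcc1), mul_nonneg (sub_nonneg.2 hc0) (sub_nonneg.2 hc0),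
        mul_nonneg (sq_nonneg (cos R)) (sub_nonneg.2 hcon.le),
        mul_nonneg (sq_nonneg (t)) (sub_nonneg.2 hg.le),
        mul_nonneg (sq_nonneg (t)) (sub_nonneg.2 hg.ge)]
    have hlow : (10161 / 10000 - cos R ^ 2) ≤ t ^ 2 * (161 / 10000 + cos R ^ 2) := by
      -- `t² (1.0322 + g) ≥ 1.0322 - g`
      have e1 : 10322 / 10000 - gg R ≤ t ^ 2 * (10322 / 10000 + gg R) := by
        have e2 : (10322 / 10000 - gg R) * (cc I + gg R) ≤ (cc I - gg R) * (10322 / 10000 + gg R) := by
          linarith only [mul_nonneg (neg_nonneg.2 hgneg) (sub_nonneg.2 hcc2)]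
        rw [← ht2'] at e2
        have e3 : t ^ 2 * (cc I + gg R) * (10322 / 10000 + gg R) = t ^ 2 * (10322 / 10000 + gg R) * (cc I + gg R) := by ring
        rw [e3] at e2
        exact le_of_mul_le_mul_right e2 hkk
      rw [hg] at e1
      linarith only [e1]
    -- the slot
    have hsl : 2549 / 10000 * t ≤ sinh (4 * I) := by
      have e1 := h.sl₁.e1
      have e2 : cos (1 / 4 + π / 4) ≤ cos (al R I + β₁) :=
        cos_le_cos_of_nonneg_of_le_pi (by linarith only [h.sl₁.β0, hal]) (by linarith only [pi_gt_three,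
                                                                               hcc2, hcc1]) (by linarith only [hal4,
                                                                                                  hβ₁])
      have e3 : 0 ≤ cos (1 / 4 + π / 4) := by
        have := OPhiHigh_quarter.2
        linarith only [this, hcc2, hcc1]
      have e4 : 2549 / 10000 * t ≤ ρ₁ * t * cos (al R I + β₁) := by
        calc 2549 / 10000 * t ≤ (1 / 2 * cos (1 / 4 + π / 4)) * t := mul_le_mul_of_nonneg_right OPhiHigh_quarter.2 ht.le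
          _ = 1 / 2 * t * cos (1 / 4 + π / 4) := by ring
          _ ≤ ρ₁ * t * cos (al R I + β₁) :=
            mul_le_mul (mul_le_mul_of_nonneg_right hρ₁ ht.le) e2 e3 (mul_nonneg (by linarith only [hρ₁]) ht.le)
      have e5 : sinh p₁ * cos r₁ ≤ sinh p₁ :=
        mul_le_of_le_one_right (sinh_nonneg_iff.2 h.sl₁.p0) (cos_le_one r₁)
      have e6 : p₁ ≤ 4 * I := by
        have e7 : a ≤ 4 := by
          by_contra hcon
          rw [not_le] at hcon
          linarith only [haR, hR, mul_pos (sub_pos.2 hpi) (sub_pos.2 hcon),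
            mul_nonneg (sub_nonneg.2 ha) (sub_nonneg.2 hR)]
        have e8 : a * I ≤ 4 * I := mul_le_mul_of_nonneg_right e7 hI.le
        have := h.hI
        have := h.sl₂.p0
        linarith [this, e8]
      have e7 : sinh p₁ ≤ sinh (4 * I) := sinh_le_sinh.2 e6
      linarith only [e7, e5, e4, e1]
    have htanh := OPhiHigh_tanh4 hI ht ht3 hsl
    have ht1 : t ≤ 7 / 4 := by (refine le_of_not_gt fun hng => ?_; linarith only [hng, ht3, hcc2,
                                 hcc1, mul_pos (sub_pos.2 hng) (sub_pos.2 hng)])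
    refine OPhiHigh_final hR hR1 (by linarith only [ht] : (0 : ℝ) ≤ 611 / 10000 * t) htanh ?_ ?_
    · have := mul_le_mul ht1 htan htan0 (by norm_num)
      linarith only [this, hcc2, hcc1]
    · apply OPhiHigh_sqrt (by linarith only [ht]) hs0
      have e5 := OPhiHigh_poly2 hc0 hc1
      have e6 : sin R ^ 2 = (1 - cos R) * (1 + cos R) := by linarith only [hss]
      rw [e6]
      have hB : 0 < 161 / 10000 + cos R ^ 2 := by positivity
      have e8 : 0 ≤ (1 - cos R) * (1 + cos R) := mul_nonneg (by linarith only [hc2]) (by linarith only [hc0])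
      refine le_of_mul_le_mul_right ?_ hB
      calc ((1 - cos R) ^ 2) ^ 2 * (161 / 10000 + cos R ^ 2)
          = (1 - cos R) * ((1 - cos R) ^ 3 * (161 / 10000 + cos R ^ 2)) := by ring
        _ ≤ (1 - cos R) * (3225 / 100000 * ((10161 / 10000 - cos R ^ 2) * (1 + cos R))) :=
          mul_le_mul_of_nonneg_left e5 (by linarith only [hc2])
        _ = 3225 / 100000 * ((1 - cos R) * (1 + cos R)) * (10161 / 10000 - cos R ^ 2) := by ring
        _ ≤ 3225 / 100000 * ((1 - cos R) * (1 + cos R)) * (t ^ 2 * (161 / 10000 + cos R ^ 2)) :=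
          mul_le_mul_of_nonneg_left hlow (by positivity)
        _ = (3225 / 100000 * t ^ 2) * (((1 - cos R) * (1 + cos R)) * (161 / 10000 + cos R ^ 2)) := by ring
        _ ≤ (147 / 50 * (611 / 10000 * t)) ^ 2 * (((1 - cos R) * (1 + cos R)) * (161 / 10000 + cos R ^ 2)) := by
          apply mul_le_mul_of_nonneg_right _ (mul_nonneg e8 hB.le)
          linarith only [sq_nonneg t]
        _ = (147 / 50 * (611 / 10000 * t)) ^ 2 * ((1 - cos R) * (1 + cos R)) * (161 / 10000 + cos R ^ 2) := by ring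

end Pool.Agent.S3.E
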