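import Pool.Agent.S3.E.GeoX
import Pool.Agent.S3.E.OPhiHigh

/-!
# Stage 3, block E: lower bound of `φ` for `a ≥ 3`

Claim `φ ≥ (1 - |κ|)²/(3|κ|)`.  `|κ|² = cosh² I - sin² R ≥ cos² R` and `x ↦ (1 - x)²/x` decreases on
`(0, 1]`, so it is enough that `(1 - c)² ≤ 3 c φ`, `c = cos R`.  For `R ≥ π/4` this is `Vx.phi_high`.
For `R ≤ π/4`, `s = sin R`:

Case `α ≥ 1/4`: `sinh 2I = tan α sin 2R ≥ (1/4) sin 2R = s c / 2`, so `tanh I ≥ 0.24 s c`, `φ ≥ 0.23 s²`.

Case `α < 1/4`: slot 1 gives `sinh p₁ ≥ 0.2549 tan R`, so `p₁ ≥ 0.226 tan R`; `a I ≥ p₁`, `a R ≤ π`, so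
`I ≥ 0.0719 R tan R`, `φ ≥ 0.0696 R tan² R ≥ 0.0696 s³/c²`; and `s c ≤ 1/2`, `(1 + c)² ≥ 2.9`.
-/

namespace Pool.Agent.S3.E

open Real

theorem OPhi_sinh_le {x : ℝ} (h0 : 0 ≤ x) (h1 : x ≤ 1) : sinh x ≤ x + x ^ 2 / 2 := by
  have e1 := abs_exp_sub_one_sub_id_le (x := x) (by rw [abs_of_nonneg h0]; exact h1)
  have e2 := (abs_le.1 e1).2
  have e3 := add_one_le_exp (-x)
  rw [sinh_eq]
  linarith

theorem OPhi_tanh_mono {x y : ℝ} (h : x ≤ y) : tanh x ≤ tanh y := by
  rw [tanh_eq_sinh_div_cosh, tanh_eq_sinh_div_cosh, div_le_div_iff₀ (cosh_pos x) (cosh_pos y)]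
  have h1 : 0 ≤ sinh (y - x) := sinh_nonneg_iff.2 (by linarith)
  rw [sinh_sub] at h1
  linarith

/-- `tanh w ≥ 0.99 w` for `0 ≤ w ≤ 1/10`. -/
theorem OPhi_tanh_ge {w : ℝ} (h0 : 0 ≤ w) (h1 : w ≤ 1 / 10) : 99 / 100 * w ≤ tanh w := by
  have hS : w ≤ sinh w := self_le_sinh_iff.2 h0
  have hS2 := OPhi_sinh_le h0 (by linarith)
  have hC := cosh_pos w
  have hC1 := cosh_sq w
  have hC2 : cosh w ≤ 101 / 100 := by
    have e1 : sinh w ≤ 105 / 1000 := by nlinarith only [h0, h1, hS2]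
    nlinarith only [h0, hS, hC1, e1]
  rw [tanh_eq_sinh_div_cosh, le_div_iff₀ hC]
  have e2 : 99 / 100 * w * cosh w ≤ 99 / 100 * w * (101 / 100) := mul_le_mul_of_nonneg_left hC2 (by linarith)
  linarith only [h0, hS, e2]

/-- `tanh I ≥ 0.48 y` from `sinh 2I ≥ y`, `0 ≤ y ≤ 1/4`. -/
theorem OPhi_tanh_two {I y : ℝ} (hI : 0 < I) (hy : 0 ≤ y) (hy1 : y ≤ 1 / 4) (h : y ≤ sinh (2 * I)) :
    48 / 100 * y ≤ tanh I := by
  have hC := cosh_pos I
  have hS : 0 < sinh I := sinh_pos_iff.2 hI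
  have h1 := cosh_sq I
  rw [tanh_eq_sinh_div_cosh, le_div_iff₀ hC]
  by_contra hc
  rw [not_le] at hc
  rw [sinh_two_mul] at h
  have h2 : sinh I ^ 2 ≤ (48 / 100 * y * cosh I) ^ 2 := pow_le_pow_left₀ hS.le hc.le 2
  have h3 : sinh I * cosh I ≤ 48 / 100 * y * cosh I * cosh I := mul_le_mul_of_nonneg_right hc.le hC.le
  have hy2 : y ^ 2 ≤ 1 / 16 := by nlinarith only [hy, hy1]
  have h4 : sinh I ^ 2 ≤ 2 / 100 := by
    have e1 : (48 / 100 * y * cosh I) ^ 2 = (48 / 100) ^ 2 * (y ^ 2 * cosh I ^ 2) := by ring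
    have e2 : y ^ 2 * cosh I ^ 2 ≤ 1 / 16 * cosh I ^ 2 := mul_le_mul_of_nonneg_right hy2 (sq_nonneg _)
    rw [e1] at h2
    linarith only [h1, h2, e2]
  have h5 : 48 / 100 * y * cosh I * cosh I ≤ 48 / 100 * y * (102 / 100) := by
    have e1 : 48 / 100 * y * cosh I * cosh I = 48 / 100 * y * cosh I ^ 2 := by ring
    rw [e1]
    exact mul_le_mul_of_nonneg_left (by linarith) (by linarith)
  rcases hy.eq_or_lt with hy0 | hy0
  · rw [← hy0] at hc
    simp only [mul_zero, zero_mul] at hc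
    linarith
  · linarith only [h, h3, h5, hy0]

theorem Vx.phi_low {a R I ρ₁ β₁ p₁ r₁ ρ₂ β₂ p₂ r₂ : ℝ} (h : Vx a R I ρ₁ β₁ p₁ r₁ ρ₂ β₂ p₂ r₂)
    (hρ₁ : 1 / 2 ≤ ρ₁) (hβ₁ : β₁ ≤ π / 4) (hR : R ≤ π / 4) : (1 - cos R) ^ 2 ≤ 3 * cos R * ph R I := by
  have hpi := pi_pos
  have h0 := h.R0
  have hlt := h.R1
  have hI := h.I0
  have haR : a * R ≤ π := by
    have := h.hR
    have := h.sl₁.r0
    have := h.sl₂.r0
    linarith
  have hc0 : 7 / 10 ≤ cos R := by
    have e1 : cos (π / 4) ≤ cos R := cos_le_cos_of_nonneg_of_le_pi h0.le (by linarith) hR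
    rw [cos_pi_div_four] at e1
    have h2 : (14 / 10 : ℝ) ≤ √2 := by
      rw [show (14 / 10 : ℝ) = √((14 / 10) ^ 2) by rw [sqrt_sq (by norm_num)]]
      exact sqrt_le_sqrt (by norm_num)
    linarith
  have hc1 : cos R ≤ 1 := cos_le_one R
  have hs0 : 0 < sin R := sin_pos_of_pos_of_lt_pi h0 (by linarith)
  have hss := sin_sq_add_cos_sq R
  have htan0 : 0 < tan R := tan_pos_of_pos_of_lt_pi_div_two h0 hlt
  have htan1 : tan R ≤ 1 := by
    rw [← tan_pi_div_four]
    exact strictMonoOn_tan.monotoneOn ⟨by linarith, hlt⟩ ⟨by linarith, by linarith⟩ hR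
  have htc : tan R * cos R = sin R := by
    rw [tan_eq_sin_div_cos]
    field_simp
  have hsR : sin R ≤ R := sin_le h0.le
  have hsc : sin R * cos R ≤ 1 / 2 := by
    have e1 : sin (2 * R) ≤ 1 := sin_le_one _
    rw [sin_two_mul] at e1
    linarith
  have hT := tan_al R I
  have hsin2 := sin_two_pos h0 hlt
  have hal := al_pos h0 hlt hI
  have hcp : 0 < cos R := by linarith
  have hmul : (1 - cos R) ^ 2 * (1 + cos R) ^ 2 = sin R ^ 4 := by
    have e1 : sin R ^ 2 = (1 - cos R) * (1 + cos R) := by linarith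
    calc (1 - cos R) ^ 2 * (1 + cos R) ^ 2 = ((1 - cos R) * (1 + cos R)) ^ 2 := by ring
      _ = (sin R ^ 2) ^ 2 := by rw [e1]
      _ = sin R ^ 4 := by ring
  rcases le_total (1 / 4) (al R I) with hal4 | hal4
  · -- the case `α ≥ 1/4`
    have e1 : 1 / 4 ≤ tan (al R I) := hal4.trans (le_tan hal.le (al_lt R I))
    have e3 : 1 / 2 * (sin R * cos R) ≤ sinh (2 * I) := by
      have e4 : tan (al R I) * sin (2 * R) = sinh (2 * I) := by
        rw [hT]
        field_simp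
      rw [← e4, sin_two_mul]
      have e5 : 0 < sin R * cos R := mul_pos hs0 hcp
      nlinarith only [e1, e5]
    have e4 := OPhi_tanh_two hI (by positivity) (by linarith) e3
    have e5 : 49 / 50 * (24 / 100 * sin R ^ 2) ≤ ph R I := by
      refine (OPhiHigh_arctan (by positivity) (by nlinarith only [hc0, hss])).trans ?_
      unfold ph
      apply arctan_strictMono.monotone
      calc 24 / 100 * sin R ^ 2 = tan R * (48 / 100 * (1 / 2 * (sin R * cos R))) := by
            rw [← htc]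
            ring
        _ ≤ tan R * tanh I := mul_le_mul_of_nonneg_left e4 htan0.le
    have e6 : 3 * cos R * (49 / 50 * (24 / 100 * sin R ^ 2)) ≤ 3 * cos R * ph R I :=
      mul_le_mul_of_nonneg_left e5 (by linarith)
    refine le_trans ?_ e6
    have e7 : sin R ^ 2 = (1 - cos R) * (1 + cos R) := by linarith
    rw [e7]
    have e8 : 1 - cos R ≤ 3 * cos R * (49 / 50 * (24 / 100 * (1 + cos R))) := by nlinarith only [hc0]
    calc (1 - cos R) ^ 2 = (1 - cos R) * (1 - cos R) := by ring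
      _ ≤ (1 - cos R) * (3 * cos R * (49 / 50 * (24 / 100 * (1 + cos R)))) :=
        mul_le_mul_of_nonneg_left e8 (by linarith)
      _ = 3 * cos R * (49 / 50 * (24 / 100 * ((1 - cos R) * (1 + cos R)))) := by ring
  · -- the case `α ≤ 1/4`
    have ht := tt_pos (I := I) h0 hlt
    have ht2 := tt_sq (I := I) h0 hlt
    have htt : tan R ≤ tt R I := by
      have hk := k2_pos (I := I) h0 hlt
      have e1 : tan R ^ 2 ≤ tt R I ^ 2 := by
        rw [ht2, le_div_iff₀ hk, GeoX_k2, GeoX_s2]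
        have e2 : tan R ^ 2 * cos R ^ 2 = sin R ^ 2 := by
          rw [← htc]
          ring
        have e3 : 0 ≤ cosh I ^ 2 - 1 := by
          have := one_le_cosh I
          nlinarith only [this]
        have e4 : tan R ^ 2 ≤ 1 := by nlinarith only [htan0, htan1]
        have e5 : tan R ^ 2 * (cosh I ^ 2 - 1) ≤ 1 * (cosh I ^ 2 - 1) := mul_le_mul_of_nonneg_right e4 e3
        have e6 : tan R ^ 2 * (cos R ^ 2 + cosh I ^ 2 - 1) = tan R ^ 2 * cos R ^ 2 + tan R ^ 2 * (cosh I ^ 2 - 1) := by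
          ring
        rw [e6, e2]
        linarith
      exact abs_le_of_sq_le_sq' e1 ht.le |>.2
    have hsl : 2549 / 10000 * tan R ≤ sinh p₁ := by
      have e1 := h.sl₁.e1
      have e2 : cos (1 / 4 + π / 4) ≤ cos (al R I + β₁) :=
        cos_le_cos_of_nonneg_of_le_pi (by linarith [h.sl₁.β0]) (by linarith [pi_gt_three]) (by linarith)
      have e3 : 0 ≤ cos (1 / 4 + π / 4) := by
        have := OPhiHigh_quarter.2
        linarith
      have e4 : 2549 / 10000 * tt R I ≤ ρ₁ * tt R I * cos (al R I + β₁) := by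
        calc 2549 / 10000 * tt R I ≤ (1 / 2 * cos (1 / 4 + π / 4)) * tt R I :=
              mul_le_mul_of_nonneg_right OPhiHigh_quarter.2 ht.le
          _ = 1 / 2 * tt R I * cos (1 / 4 + π / 4) := by ring
          _ ≤ ρ₁ * tt R I * cos (al R I + β₁) :=
            mul_le_mul (mul_le_mul_of_nonneg_right hρ₁ ht.le) e2 e3 (mul_nonneg (by linarith) ht.le)
      have e5 : sinh p₁ * cos r₁ ≤ sinh p₁ :=
        mul_le_of_le_one_right (sinh_nonneg_iff.2 h.sl₁.p0) (cos_le_one r₁)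
      linarith
    have hp : 226 / 1000 * tan R ≤ p₁ := by
      by_contra hcon
      rw [not_le] at hcon
      have e1 : sinh p₁ < sinh (226 / 1000 * tan R) := sinh_lt_sinh.2 hcon
      have e2 := OPhi_sinh_le (x := 226 / 1000 * tan R) (by positivity) (by linarith)
      nlinarith only [htan0, htan1, hsl, e1, e2]
    have hIge : 719 / 10000 * (R * tan R) ≤ I := by
      have e1 : p₁ ≤ a * I := by
        have := h.hI
        have := h.sl₂.p0
        linarith
      have e2 : 226 / 1000 * tan R * (a * R) ≤ a * I * π := by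
        have e3 : 226 / 1000 * tan R ≤ a * I := hp.trans e1
        have e4 : 0 ≤ a * R := mul_nonneg (by linarith [h.a2]) h0.le
        exact mul_le_mul e3 haR e4 (mul_nonneg (by linarith [h.a2]) hI.le)
      have ha0 : 0 < a := by linarith [h.a2]
      have e3 : 226 / 1000 * tan R * R ≤ I * π := by
        have e4 : a * (226 / 1000 * tan R * R) ≤ a * (I * π) := by
          calc a * (226 / 1000 * tan R * R) = 226 / 1000 * tan R * (a * R) := by ring
            _ ≤ a * I * π := e2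
            _ = a * (I * π) := by ring
        exact le_of_mul_le_mul_left e4 ha0
      have e5 : I * π ≤ I * (31416 / 10000) := mul_le_mul_of_nonneg_left (by linarith [pi_lt_d4]) hI.le
      have e6 : 0 < R * tan R := mul_pos h0 htan0
      linarith only [e3, e5, e6]
    have hR1 : R ≤ 79 / 100 := by linarith [pi_lt_d2]
    have hw0 : 0 ≤ 719 / 10000 * (R * tan R) := by positivity
    have hw1 : 719 / 10000 * (R * tan R) ≤ 1 / 10 := by
      have := mul_le_mul hR1 htan1 htan0.le (by norm_num)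
      linarith
    have htanh : 99 / 100 * (719 / 10000 * (R * tan R)) ≤ tanh I :=
      (OPhi_tanh_ge hw0 hw1).trans (OPhi_tanh_mono hIge)
    have e5 : 49 / 50 * (tan R * (99 / 100 * (719 / 10000 * (R * tan R)))) ≤ ph R I := by
      have e6 : tan R * (99 / 100 * (719 / 10000 * (R * tan R))) ≤ 1 / 5 := by
        have := mul_le_mul htan1 (by linarith : 99 / 100 * (719 / 10000 * (R * tan R)) ≤ 1 / 10)
          (by linarith) (by norm_num)
        linarith
      refine (OPhiHigh_arctan (by positivity) e6).trans ?_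
      unfold ph
      apply arctan_strictMono.monotone
      exact mul_le_mul_of_nonneg_left htanh htan0.le
    have e6 : 3 * cos R * (49 / 50 * (tan R * (99 / 100 * (719 / 10000 * (R * tan R))))) ≤ 3 * cos R * ph R I :=
      mul_le_mul_of_nonneg_left e5 (by linarith)
    refine le_trans ?_ e6
    -- multiply by `c (1 + c)²`
    have e7 : 1 / 5 * (sin R ^ 3 * (1 + cos R) ^ 2) ≤
        3 * cos R * (49 / 50 * (tan R * (99 / 100 * (719 / 10000 * (R * tan R))))) * (cos R * (1 + cos R) ^ 2) := by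
      have e8 : 3 * cos R * (49 / 50 * (tan R * (99 / 100 * (719 / 10000 * (R * tan R))))) * (cos R * (1 + cos R) ^ 2)
          = 3 * (49 / 50) * (99 / 100) * (719 / 10000) * (R * (tan R * cos R) ^ 2 * (1 + cos R) ^ 2) := by ring
      rw [e8, htc]
      have e9 : sin R ^ 3 * (1 + cos R) ^ 2 ≤ R * sin R ^ 2 * (1 + cos R) ^ 2 := by
        apply mul_le_mul_of_nonneg_right _ (sq_nonneg _)
        have := mul_le_mul_of_nonneg_right hsR (sq_nonneg (sin R))
        calc sin R ^ 3 = sin R * sin R ^ 2 := by ring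
          _ ≤ R * sin R ^ 2 := this
      have e10 : 0 ≤ sin R ^ 3 * (1 + cos R) ^ 2 := by positivity
      linarith only [e9, e10]
    have hB : 0 < cos R * (1 + cos R) ^ 2 := by positivity
    refine le_of_mul_le_mul_right (le_trans ?_ e7) hB
    have e11 : (1 - cos R) ^ 2 * (cos R * (1 + cos R) ^ 2) = sin R ^ 3 * (sin R * cos R) := by
      calc (1 - cos R) ^ 2 * (cos R * (1 + cos R) ^ 2) = ((1 - cos R) ^ 2 * (1 + cos R) ^ 2) * cos R := by ring
        _ = sin R ^ 3 * (sin R * cos R) := by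
          rw [hmul]
          ring
    rw [e11]
    have e12 : sin R ^ 3 * (sin R * cos R) ≤ sin R ^ 3 * (1 / 2) := mul_le_mul_of_nonneg_left hsc (by positivity)
    have e13 : 5 / 2 ≤ (1 + cos R) ^ 2 := by nlinarith only [hs0, hss, htan0, htan1, htc, hsc]
    have e14 : sin R ^ 3 * (5 / 2) ≤ sin R ^ 3 * (1 + cos R) ^ 2 := mul_le_mul_of_nonneg_left e13 (by positivity)
    linarith

theorem Vx.phi_ge {a R I ρ₁ β₁ p₁ r₁ ρ₂ β₂ p₂ r₂ : ℝ} (h : Vx a R I ρ₁ β₁ p₁ r₁ ρ₂ β₂ p₂ r₂)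
    (ha : 3 ≤ a) (hk : k2 R I ≤ 1) (hρ₁ : 1 / 2 ≤ ρ₁) (hβ₁ : β₁ ≤ π / 4) :
    (1 - √(k2 R I)) ^ 2 ≤ 3 * √(k2 R I) * ph R I := by
  have hpi := pi_pos
  have h0 := h.R0
  have hlt := h.R1
  have hI := h.I0
  have hmain : (1 - cos R) ^ 2 ≤ 3 * cos R * ph R I := by
    rcases le_total R (π / 4) with hR | hR
    · exact h.phi_low hρ₁ hβ₁ hR
    · exact h.phi_high ha hρ₁ hβ₁ hR
  have hph := ph_pos h0 hlt hI
  have hc : 0 < cos R := cos_pos_of_mem_Ioo ⟨by linarith, hlt⟩
  set x := √(k2 R I) with hx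
  have hx1 : x ≤ 1 := by
    rw [hx]
    exact Real.sqrt_le_one.2 hk
  have hcx : cos R ≤ x := by
    rw [hx]
    apply le_sqrt_of_sq_le
    rw [GeoX_k2]
    have := one_le_cosh I
    nlinarith only [this]
  have hx0 : 0 < x := lt_of_lt_of_le hc hcx
  -- `(1 - x)² c ≤ (1 - c)² x`
  have e1 : (1 - x) ^ 2 * cos R ≤ (1 - cos R) ^ 2 * x := by
    have e2 : 0 ≤ (x - cos R) * (1 - x * cos R) := mul_nonneg (by linarith) (by nlinarith only [hx1, hcx, hx0])
    linarith only [e2]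
  have e2 : (1 - cos R) ^ 2 * x ≤ 3 * cos R * ph R I * x := mul_le_mul_of_nonneg_right hmain hx0.le
  have e3 : (1 - x) ^ 2 * cos R ≤ 3 * x * ph R I * cos R := by
    calc (1 - x) ^ 2 * cos R ≤ 3 * cos R * ph R I * x := e1.trans e2
      _ = 3 * x * ph R I * cos R := by ring
  exact le_of_mul_le_mul_right e3 hc

end Pool.Agent.S3.E
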