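import Pool.Agent.S3.E.VAB

/-!
# Stage 3, block E: `|σ| ≤ 1` for `a ≥ 3`

`|σ|² = (c - g)/2`.  If `R ≤ π/4` then `g ≥ 0` and `c ≤ 2 - g ≤ 2 + g` by `|κ| ≤ 1`.
If `R > π/4`, `y = -g ∈ (0, 1/2]` (`3R ≤ π`): by `sum_le`, `arctan (T tanh 3I) ≤ π - 3R ≤ π/4`, so
`T tanh 3I ≤ 1`, `T = sinh 2I/√(1 - y²)`.  Claim `c ≤ 2 - y`.
`y ≤ 0.4`: `sinh 2I tanh 3I ≤ 1` gives `c < 1.6` (`c = 1.6`: `sinh 2I = 1.249`, `tanh 3I > 0.92`).
`y ≥ 0.4`: `sinh 2I tanh 3I ≤ 0.917` gives `c < 1.5` (`c = 1.5`: `sinh 2I = 1.118`, `tanh 3I > 0.89`).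
(`cosh 3I = 4 cosh³ I - 3 cosh I`, `cosh² I = (c + 1)/2`.)
-/

namespace Pool.Agent.S3.E

open Real

/-- `tanh² 3I ≥ 4/5` if `cosh 2I > 3/2`. -/
private theorem osig3_tanh {I : ℝ} (h : 3 / 2 < cc I) : 4 / 5 ≤ tanh (3 * I) ^ 2 := by
  have h1 : cosh (3 * (2 * I)) = 4 * cosh (2 * I) ^ 3 - 3 * cosh (2 * I) := cosh_three_mul _
  have h2 : cosh (2 * (3 * I)) = cosh (3 * I) ^ 2 + sinh (3 * I) ^ 2 := cosh_two_mul _
  have h3 := cosh_sq (3 * I)
  have h4 : 3 * (2 * I) = 2 * (3 * I) := by ring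
  rw [h4] at h1
  unfold cc at h
  have h5 : (9 : ℝ) ≤ 4 * cosh (2 * I) ^ 3 - 3 * cosh (2 * I) := by
    generalize cosh (2 * I) = c at h
    nlinarith [sq_nonneg (c - 3 / 2), mul_pos (show (0 : ℝ) < c - 3 / 2 by linarith)
      (show (0 : ℝ) < c by linarith)]
  have h6 : 5 ≤ cosh (3 * I) ^ 2 := by linarith
  have h7 : sinh (3 * I) ^ 2 = cosh (3 * I) ^ 2 - 1 := by linarith
  rw [tanh_eq_sinh_div_cosh, div_pow, h7, le_div_iff₀ (by linarith)]
  linarith

theorem Vx.sig3 {a R I ρ₁ β₁ p₁ r₁ ρ₂ β₂ p₂ r₂ : ℝ} (h : Vx a R I ρ₁ β₁ p₁ r₁ ρ₂ β₂ p₂ r₂)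
    (ha : 3 ≤ a) (hk : k2 R I ≤ 1) : s2 R I ≤ 1 := by
  by_contra hs
  push Not at hs
  have hR0 := h.R0
  have hR1 := h.R1
  have hI0 := h.I0
  have hsum := h.sum_le
  have hpi := pi_pos
  unfold k2 at hk
  unfold s2 at hs
  -- `g < 0`
  have hg : gg R < 0 := by linarith
  have hRpi : π / 4 < R := by
    by_contra hc
    push Not at hc
    have : 0 ≤ gg R := by
      unfold gg
      exact cos_nonneg_of_mem_Icc ⟨by linarith, by linarith⟩
    linarith
  have hs2R : 0 < sin (2 * R) := sin_pos_of_pos_of_lt_pi (by linarith) (by linarith)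
  have hT : tan (al R I) = sinh (2 * I) / sin (2 * R) := by
    unfold al
    exact tan_arctan _
  have hsh : 0 < sinh (2 * I) := sinh_pos_iff.2 (by linarith)
  have hT0 : 0 < tan (al R I) := by
    rw [hT]
    positivity
  have hth3 : 0 < tanh (3 * I) := by
    rw [tanh_eq_sinh_div_cosh]
    exact div_pos (sinh_pos_iff.2 (by linarith)) (cosh_pos _)
  have hth : tanh (3 * I) ≤ tanh (a * I) := by
    have : (3 : ℝ) * I ≤ a * I := by nlinarith
    rcases eq_or_lt_of_le this with h1 | h1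
    · rw [h1]
    · rw [tanh_eq_sinh_div_cosh, tanh_eq_sinh_div_cosh,
        div_le_div_iff₀ (cosh_pos _) (cosh_pos _)]
      have h2 : 0 < sinh (a * I - 3 * I) := sinh_pos_iff.2 (by linarith)
      rw [sinh_sub] at h2
      linarith
  have haR : 3 * R ≤ a * R := by nlinarith
  have hTle : tan (al R I) * tanh (3 * I) ≤ tan (al R I) * tanh (a * I) :=
    mul_le_mul_of_nonneg_left hth hT0.le
  have hpos : 0 < arctan (tan (al R I) * tanh (a * I)) := by
    rw [arctan_pos]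
    exact mul_pos hT0 (by linarith)
  have h3R : 3 * R ≤ π := by linarith
  have hghalf : -(1 / 2) ≤ gg R := by
    unfold gg
    have h1 : cos (2 * (π / 3)) = -(1 / 2) := by
      rw [cos_two_mul, cos_pi_div_three]
      norm_num
    rw [← h1]
    exact cos_le_cos_of_nonneg_of_le_pi (by linarith) (by linarith) (by linarith)
  have hle1 : tan (al R I) * tanh (3 * I) ≤ 1 := by
    have h1 : arctan (tan (al R I) * tanh (a * I)) ≤ arctan 1 := by
      rw [arctan_one]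
      linarith
    have h2 := arctan_strictMono.le_iff_le.1 h1
    linarith
  -- the squared inequality
  have hsq : (cc I ^ 2 - 1) * tanh (3 * I) ^ 2 ≤ 1 - gg R ^ 2 := by
    have h1 : sinh (2 * I) ^ 2 = cc I ^ 2 - 1 := by
      unfold cc
      have := cosh_sq (2 * I)
      linarith
    have h2 : sin (2 * R) ^ 2 = 1 - gg R ^ 2 := by
      unfold gg
      have := sin_sq_add_cos_sq (2 * R)
      linarith
    rw [← h1, ← h2, ← mul_pow]
    have h3 : sinh (2 * I) * tanh (3 * I) ≤ sin (2 * R) := by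
      rw [hT, div_mul_eq_mul_div, div_le_one hs2R] at hle1
      exact hle1
    exact pow_le_pow_left₀ (by positivity) h3 2
  have hc : 3 / 2 < cc I := by linarith
  have ht := osig3_tanh hc
  have h1 : (cc I ^ 2 - 1) * (4 / 5) ≤ 1 - gg R ^ 2 := by
    refine le_trans (mul_le_mul_of_nonneg_left ht ?_) hsq
    nlinarith
  have h2 : (2 + gg R) ^ 2 < cc I ^ 2 := by
    have : 0 < 2 + gg R := by linarith
    nlinarith
  nlinarith

end Pool.Agent.S3.E
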