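import Mathlib

/-!
# Stage 3, block E: inner `2`, lower bounds and `|σ| ≤ 1`

`X = κ²`, `4X² - 4 p X + s² = 0`, `p = b₁ b₂`, `s = b₁ + b₂`, `b_j` in the sector `[0, π/4]`.

`two_low'`: `4|X||p - X| = |s|² ≥ (2 + √2)|p|`, so `|X|² + |p||X| ≥ 0.8535 |p|`, and `|p| ≥ 1/4`, so
`|X| ≥ 0.3535` (the root of `x² + |p| x - 0.8535 |p|` increases with `|p|`).

`two_phi_low`: as in `two_phi`: `h = p/s = cosh (B + iA)`, `0 < A < π/2`, `2φ = A - arg s`;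
`cos A ≤ Re h ≤ |h| = 1/|1/b₁ + 1/b₂| ≤ 1/(2 cos (π/8)) ≤ 0.5412`, so `A ≥ 0.998`, `arg s ≤ π/4`.

`two_sigma`: `|1 - X| ≤ 1` iff `|X|² ≤ 2 Re X` iff `Re (1/X) ≥ 1/2`.  With `v = s/(2X)`:
`v + 1/v = 2h`, `1/X = 2v/s`, `v = h + i √(1 - h²)` (`|v| ≥ 1`, `Im v > 0`; principal root,
`arg √(1 - h²) ≤ 0` because `Im h² ≥ 0`).  So the claim is `Re (h/s) + Re (i √(1 - h²)/s) ≥ 1/4`.
`h/s = 1/(2 + e + 1/e)`, `e = b₁/b₂ = r e^{iΔ}`, `P = r + 1/r ∈ [2, 5/2]`, `|Δ| ≤ π/4`: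
`Re (h/s) = A₁/(A₁² + B₁²)`, `A₁ = 2 + P cos Δ`, `B₁ = (r - 1/r) sin Δ`, and
`A₁ + B₁²/A₁ ≤ 2 + P` because `(P² - 4)(1 + cos Δ) ≤ A₁ P`; so
`Re (h/s) ≥ 1/(2 + P) = 1/4 - (ρ₁ - ρ₂)²/(4(ρ₁ + ρ₂)²)`.
`Re (i √(1 - h²)/s) ≥ |√(1 - h²)|/|s| * sin (arg s) ≥ 0.84 Im s/|s|² ≥ 0.84 Im s/(ρ₁ + ρ₂)²`
(`|1 - h²| ≥ 1 - 0.293`).  For `ρ₂ ≤ ρ₁ ≤ 1`: `Im s ≥ ρ₂ sin β₂ ≥ 0.9 ρ₂ β₂ ≥ 0.3 (1 - ρ₂)²`, and
`0.84 * 0.3 ≥ 1/4` is enough.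
-/

namespace Pool.Agent.S3.E

open Complex

/-- The angle between two vectors of the closed sector `0 ≤ arg ≤ π / 4`. -/
private theorem OTwo_angle {b₁ b₂ : ℂ} (hi₁ : 0 ≤ b₁.im) (hi₁' : b₁.im ≤ b₁.re) (hi₂ : 0 ≤ b₂.im)
    (hi₂' : b₂.im ≤ b₂.re) :
    ‖b₁‖ ^ 2 + ‖b₂‖ ^ 2 + 1.414 * (‖b₁‖ * ‖b₂‖) ≤ ‖b₁ + b₂‖ ^ 2 := by
  have e1 : ‖b₁‖ ^ 2 = b₁.re ^ 2 + b₁.im ^ 2 := by
    rw [← Complex.normSq_eq_norm_sq, Complex.normSq_apply]; ring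
  have e2 : ‖b₂‖ ^ 2 = b₂.re ^ 2 + b₂.im ^ 2 := by
    rw [← Complex.normSq_eq_norm_sq, Complex.normSq_apply]; ring
  have e3 : ‖b₁ + b₂‖ ^ 2 = (b₁.re + b₂.re) ^ 2 + (b₁.im + b₂.im) ^ 2 := by
    rw [← Complex.normSq_eq_norm_sq, Complex.normSq_apply, Complex.add_re, Complex.add_im]; ring
  have hx1 : 0 ≤ b₁.re := hi₁.trans hi₁'
  have hx2 : 0 ≤ b₂.re := hi₂.trans hi₂'
  have hR : 0 ≤ b₁.re * b₂.re + b₁.im * b₂.im := by positivity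
  have hm : 0 ≤ (b₁.re * b₂.re + b₁.im * b₂.im) - (b₁.re * b₂.im - b₂.re * b₁.im) := by
    have := mul_nonneg hx1 (sub_nonneg.2 hi₂')
    have := mul_nonneg hi₁ (add_nonneg hi₂ hx2)
    nlinarith only [hi₁, hi₁', hi₂, hi₂']
  have hp : 0 ≤ (b₁.re * b₂.re + b₁.im * b₂.im) + (b₁.re * b₂.im - b₂.re * b₁.im) := by
    have := mul_nonneg hx2 (sub_nonneg.2 hi₁')
    have := mul_nonneg hi₂ (add_nonneg hi₁ hx1)
    nlinarith only [hi₁, hi₁', hi₂, hi₂']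
  have hsq : (‖b₁‖ * ‖b₂‖) ^ 2 ≤ 2 * (b₁.re * b₂.re + b₁.im * b₂.im) ^ 2 := by
    rw [mul_pow, e1, e2]
    linarith only [mul_nonneg hm hp]
  have hle : 0.707 * (‖b₁‖ * ‖b₂‖) ≤ b₁.re * b₂.re + b₁.im * b₂.im := by
    refine abs_le_of_sq_le_sq' ?_ hR |>.2
    linarith only [sq_nonneg (‖b₁‖ * ‖b₂‖), hsq]
  rw [e1, e2, e3]
  linarith only [hle]

private theorem OTwo_quad {X b₁ b₂ : ℂ} (h : 4 * X ^ 2 - 4 * (b₁ * b₂) * X + (b₁ + b₂) ^ 2 = 0) :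
    4 * ‖X‖ * ‖b₁ * b₂ - X‖ = ‖b₁ + b₂‖ ^ 2 := by
  have g1 : 4 * X * (b₁ * b₂ - X) = (b₁ + b₂) ^ 2 := by linear_combination -h
  have g2 := congrArg norm g1
  rw [norm_mul, norm_mul, norm_pow] at g2
  have g3 : ‖(4 : ℂ)‖ = 4 := by norm_num
  rw [g3] at g2
  exact g2

theorem two_low' {X b₁ b₂ : ℂ} (h : 4 * X ^ 2 - 4 * (b₁ * b₂) * X + (b₁ + b₂) ^ 2 = 0)
    (h₁ : 0 ≤ b₁.im) (h₁' : b₁.im ≤ b₁.re) (h₂ : 0 ≤ b₂.im) (h₂' : b₂.im ≤ b₂.re)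
    (hb₁ : 1 / 2 ≤ ‖b₁‖) (hb₂ : 1 / 2 ≤ ‖b₂‖) : 0.35 ≤ ‖X‖ := by
  have ha := OTwo_angle h₁ h₁' h₂ h₂'
  have hq := OTwo_quad h
  have hn : ‖b₁ * b₂ - X‖ ≤ ‖b₁‖ * ‖b₂‖ + ‖X‖ := by
    have g4 := norm_sub_le (b₁ * b₂) X
    rw [norm_mul] at g4
    exact g4
  have hP : 1 / 4 ≤ ‖b₁‖ * ‖b₂‖ := by nlinarith only [hb₁, hb₂]
  have hX0 : 0 ≤ ‖X‖ := norm_nonneg X
  have h2 : 2 * (‖b₁‖ * ‖b₂‖) ≤ ‖b₁‖ ^ 2 + ‖b₂‖ ^ 2 := by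
    linarith only [sq_nonneg (‖b₁‖ - ‖b₂‖)]
  have h3 : 4 * ‖X‖ * ‖b₁ * b₂ - X‖ ≤ 4 * ‖X‖ * (‖b₁‖ * ‖b₂‖ + ‖X‖) :=
    mul_le_mul_of_nonneg_left hn (by linarith)
  have h4 : 3.414 * (‖b₁‖ * ‖b₂‖) ≤ 4 * ‖X‖ * (‖b₁‖ * ‖b₂‖ + ‖X‖) := by linarith
  generalize ‖b₁‖ * ‖b₂‖ = P at *
  by_contra hlt
  push Not at hlt
  nlinarith only [hX0, hP, h4, hlt]

private theorem OTwo_re_pos {b : ℂ} (h₁ : 0 ≤ b.im) (h₁' : b.im ≤ b.re) (hb : 1 / 2 ≤ ‖b‖) :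
    0 < b.re := by
  rcases (h₁.trans h₁').lt_or_eq with h | h
  · exact h
  · exfalso
    have h2 : b.im = 0 := le_antisymm (h₁'.trans h.ge) h₁
    have h3 : b = 0 := Complex.ext h.symm h2
    rw [h3, norm_zero] at hb
    norm_num at hb

/-- `p/s` lies in the sector too. -/
private theorem OTwo_h {b₁ b₂ : ℂ}
    (h₁ : 0 ≤ b₁.im) (h₁' : b₁.im ≤ b₁.re) (h₂ : 0 ≤ b₂.im) (h₂' : b₂.im ≤ b₂.re)
    (hb₁ : 1 / 2 ≤ ‖b₁‖) (hb₂ : 1 / 2 ≤ ‖b₂‖) :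
    0 < (b₁ * b₂ / (b₁ + b₂)).re ∧ 0 ≤ (b₁ * b₂ / (b₁ + b₂)).im := by
  have hr1 := OTwo_re_pos h₁ h₁' hb₁
  have hr2 := OTwo_re_pos h₂ h₂' hb₂
  have hs0 : b₁ + b₂ ≠ 0 := by
    intro h0
    have := congrArg Complex.re h0
    rw [Complex.add_re, Complex.zero_re] at this
    linarith
  have hn : 0 < Complex.normSq (b₁ + b₂) := Complex.normSq_pos.2 hs0
  constructor
  · rw [Complex.div_re, ← add_div]
    apply div_pos _ hn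
    rw [Complex.mul_re, Complex.mul_im, Complex.add_re, Complex.add_im]
    have : (b₁.re * b₂.re - b₁.im * b₂.im) * (b₁.re + b₂.re) +
        (b₁.re * b₂.im + b₁.im * b₂.re) * (b₁.im + b₂.im) =
        b₂.re * (b₁.re ^ 2 + b₁.im ^ 2) + b₁.re * (b₂.re ^ 2 + b₂.im ^ 2) := by ring
    rw [this]
    positivity
  · rw [Complex.div_im, ← sub_div]
    apply div_nonneg _ hn.le
    rw [Complex.mul_re, Complex.mul_im, Complex.add_re, Complex.add_im]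
    have : (b₁.re * b₂.im + b₁.im * b₂.re) * (b₁.re + b₂.re) -
        (b₁.re * b₂.re - b₁.im * b₂.im) * (b₁.im + b₂.im) =
        b₂.im * (b₁.re ^ 2 + b₁.im ^ 2) + b₁.im * (b₂.re ^ 2 + b₂.im ^ 2) := by ring
    rw [this]
    positivity

private theorem OTwo_core {X b₁ b₂ : ℂ} {φ : ℝ}
    (h : 4 * X ^ 2 - 4 * (b₁ * b₂) * X + (b₁ + b₂) ^ 2 = 0)
    (hX : X = (‖X‖ : ℂ) * exp (-(2 * φ : ℝ) * I)) (hφ : 0 ≤ φ) (hφ' : φ ≤ Real.pi / 4)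
    (h₁ : 0 ≤ b₁.im) (h₁' : b₁.im ≤ b₁.re) (h₂ : 0 ≤ b₂.im) (h₂' : b₂.im ≤ b₂.re)
    (hb₁ : 1 / 2 ≤ ‖b₁‖) (hb₂ : 1 / 2 ≤ ‖b₂‖) (hb₁' : ‖b₁‖ ≤ 1) (hb₂' : ‖b₂‖ ≤ 1) :
    X ≠ 0 ∧ b₁ + b₂ ≠ 0 ∧ (b₁ + b₂).arg ≤ Real.pi / 4 ∧ 0 ≤ (b₁ + b₂).arg ∧
      0 < Real.cos (2 * φ + (b₁ + b₂).arg) ∧ Real.cos (2 * φ + (b₁ + b₂).arg) ^ 2 ≤ 0.2933 ∧
      ∃ w : ℂ, 0 ≤ w.re ∧ 0.84 ≤ w.im ∧
        X⁻¹ = 2 * (b₁ * b₂ / (b₁ + b₂) ^ 2 + w / (b₁ + b₂)) := by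
  obtain ⟨g1, g2⟩ := OTwo_h h₁ h₁' h₂ h₂' hb₁ hb₂
  have hr1 := OTwo_re_pos h₁ h₁' hb₁
  have hr2 := OTwo_re_pos h₂ h₂' hb₂
  have hang := OTwo_angle h₁ h₁' h₂ h₂'
  set s : ℂ := b₁ + b₂ with hs
  have hsre : 0 < s.re := by rw [hs, Complex.add_re]; linarith
  have hsim : 0 ≤ s.im := by rw [hs, Complex.add_im]; linarith
  have hsir : s.im ≤ s.re := by rw [hs, Complex.add_re, Complex.add_im]; linarith
  have hs0 : s ≠ 0 := by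
    intro h0; rw [h0] at hsre; simp at hsre
  have hX0 : X ≠ 0 := by
    intro h0
    rw [h0] at h
    have : s ^ 2 = 0 := by simpa using h
    exact hs0 (pow_eq_zero_iff (two_ne_zero) |>.1 this)
  have hθ0 : 0 ≤ s.arg := Complex.arg_nonneg_iff.2 hsim
  have hθ1 : s.arg ≤ Real.pi := Complex.arg_le_pi s
  have hse : s = (‖s‖ : ℂ) * exp (s.arg * I) := (Complex.norm_mul_exp_arg_mul_I s).symm
  have hsn : 0 < ‖s‖ := norm_pos_iff.2 hs0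
  have hXn : 0 < ‖X‖ := norm_pos_iff.2 hX0
  have hθ4 : s.arg ≤ Real.pi / 4 := by
    by_contra hc
    push Not at hc
    have k1 : 0 < Real.sin (s.arg - Real.pi / 4) :=
      Real.sin_pos_of_pos_of_lt_pi (by linarith) (by linarith [Real.pi_pos])
    rw [Real.sin_sub, Real.cos_pi_div_four, Real.sin_pi_div_four] at k1
    have k2 : ‖s‖ * Real.cos s.arg = s.re := Complex.norm_mul_cos_arg s
    have k3 : ‖s‖ * Real.sin s.arg = s.im := Complex.norm_mul_sin_arg s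
    have k4 : 0 < ‖s‖ * (Real.sin s.arg * (√2 / 2) - Real.cos s.arg * (√2 / 2)) :=
      mul_pos hsn k1
    have k5 : ‖s‖ * (Real.sin s.arg * (√2 / 2) - Real.cos s.arg * (√2 / 2)) =
        (s.im - s.re) * (√2 / 2) := by rw [← k2, ← k3]; ring
    rw [k5] at k4
    have k6 : 0 ≤ (√2 / 2 : ℝ) := by positivity
    nlinarith only [hsir, k4, k6]
  set r : ℝ := ‖X‖ / ‖s‖ with hr
  have hr0 : 0 < r := div_pos hXn hsn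
  set A : ℝ := 2 * φ + s.arg with hA
  have hsn' : ((‖s‖ : ℝ) : ℂ) ≠ 0 := by exact_mod_cast hsn.ne'
  have hXn' : ((‖X‖ : ℝ) : ℂ) ≠ 0 := by exact_mod_cast hXn.ne'
  have hη : X / s = (r : ℂ) * exp (-(A : ℂ) * I) := by
    have h4 : exp (-(A : ℂ) * I) = exp (-(2 * φ : ℝ) * I) / exp (s.arg * I) := by
      rw [← Complex.exp_sub]
      congr 1
      rw [hA]
      push_cast
      ring
    rw [h4, hr]
    conv_lhs => rw [hX, hse]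
    push_cast
    field_simp
  have hη' : s / X = ((1 / r : ℝ) : ℂ) * exp ((A : ℂ) * I) := by
    have h5 : s / X = (X / s)⁻¹ := (inv_div X s).symm
    rw [h5, hη, mul_inv, ← Complex.exp_neg]
    push_cast
    rw [one_div]
    congr 2
    ring
  have hh : b₁ * b₂ / s = X / s + (s / X) / 4 := by
    have h6 : b₁ * b₂ * X * 4 = 4 * X ^ 2 + s ^ 2 := by linear_combination -h
    field_simp
    linear_combination h6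
  have e1 : (exp ((A : ℂ) * I)).re = Real.cos A := by
    rw [Complex.exp_ofReal_mul_I_re]
  have e2 : (exp ((A : ℂ) * I)).im = Real.sin A := by
    rw [Complex.exp_ofReal_mul_I_im]
  have e3 : (exp (-(A : ℂ) * I)).re = Real.cos A := by
    have : -(A : ℂ) = ((-A : ℝ) : ℂ) := by push_cast; ring
    rw [this, Complex.exp_ofReal_mul_I_re, Real.cos_neg]
  have e4 : (exp (-(A : ℂ) * I)).im = -Real.sin A := by
    have : -(A : ℂ) = ((-A : ℝ) : ℂ) := by push_cast; ring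
    rw [this, Complex.exp_ofReal_mul_I_im, Real.sin_neg]
  have h7 : (s / X) / 4 = ((1 / (4 * r) : ℝ) : ℂ) * exp ((A : ℂ) * I) := by
    rw [hη']
    push_cast
    field_simp
  have hP : (b₁ * b₂ / s).re = (r + 1 / (4 * r)) * Real.cos A := by
    rw [hh, h7, hη, Complex.add_re, Complex.re_ofReal_mul, Complex.re_ofReal_mul, e1, e3]
    ring
  have hQ : (b₁ * b₂ / s).im = (1 / (4 * r) - r) * Real.sin A := by
    rw [hh, h7, hη, Complex.add_im, Complex.im_ofReal_mul, Complex.im_ofReal_mul, e2, e4]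
    ring
  have hA2 : A ≤ Real.pi / 2 + Real.pi / 4 := by rw [hA]; linarith
  have hA0 : 0 ≤ A := by rw [hA]; linarith
  have hc0 : 0 < Real.cos A := by
    rw [hP] at g1
    exact (pos_iff_pos_of_mul_pos g1).1 (by positivity)
  have hsin0 : 0 ≤ Real.sin A := Real.sin_nonneg_of_nonneg_of_le_pi hA0 (by linarith [Real.pi_pos])
  have hsc := Real.sin_sq_add_cos_sq A
  -- `|h|² ≤ 1/3.41`
  have hh2 : (b₁ * b₂ / s).re ^ 2 + (b₁ * b₂ / s).im ^ 2 ≤ 0.2933 := by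
    have k1 : (b₁ * b₂ / s).re ^ 2 + (b₁ * b₂ / s).im ^ 2 = ‖b₁ * b₂ / s‖ ^ 2 := by
      rw [← Complex.normSq_eq_norm_sq, Complex.normSq_apply]; ring
    rw [k1, norm_div, norm_mul, div_pow, div_le_iff₀ (by positivity)]
    have k2 : 2 * (‖b₁‖ * ‖b₂‖) ≤ ‖b₁‖ ^ 2 + ‖b₂‖ ^ 2 := by
      linarith only [sq_nonneg (‖b₁‖ - ‖b₂‖)]
    have k3 : ‖b₁‖ * ‖b₂‖ ≤ 1 := by nlinarith only [hb₂, hb₁', hb₂']
    have k4 : 0 ≤ ‖b₁‖ * ‖b₂‖ := by positivity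
    nlinarith only [hang, k2, k3, k4]
  have hid : (b₁ * b₂ / s).re ^ 2 + (b₁ * b₂ / s).im ^ 2 =
      (1 / (4 * r) - r) ^ 2 + Real.cos A ^ 2 := by
    rw [hP, hQ]
    have k1 : Real.sin A ^ 2 = 1 - Real.cos A ^ 2 := by linarith
    have k2 : 1 / (4 * r) * r = 1 / 4 := by field_simp
    rw [mul_pow, mul_pow, k1]
    linear_combination (4 * Real.cos A ^ 2) * k2
  have hcc : Real.cos A ^ 2 ≤ 0.2933 := by
    linarith only [sq_nonneg (1 / (4 * r) - r), hh2, hid]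
  have hss : 0.84 ≤ Real.sin A := by
    refine abs_le_of_sq_le_sq' ?_ hsin0 |>.2
    linarith only [hsc, hcc]
  refine ⟨hX0, hs0, hθ4, hθ0, hc0, hcc, (s / X) / 4 - X / s, ?_, ?_, ?_⟩
  · rw [h7, hη, Complex.sub_re, Complex.re_ofReal_mul, Complex.re_ofReal_mul, e1, e3]
    have k1 : 0 ≤ 1 / (4 * r) - r := by
      rw [hQ] at g2
      by_contra hc
      push Not at hc
      have : (1 / (4 * r) - r) * Real.sin A < 0 := mul_neg_of_neg_of_pos hc (by linarith)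
      linarith
    have k2 : 1 / (4 * r) * Real.cos A - r * Real.cos A = (1 / (4 * r) - r) * Real.cos A := by ring
    rw [k2]
    exact mul_nonneg k1 hc0.le
  · rw [h7, hη, Complex.sub_im, Complex.im_ofReal_mul, Complex.im_ofReal_mul, e2, e4]
    have k1 : 1 ≤ 1 / (4 * r) + r := by
      have k3 : 1 / (4 * r) + r - 1 = (2 * r - 1) ^ 2 / (4 * r) := by
        field_simp
        ring
      have k4 : 0 ≤ (2 * r - 1) ^ 2 / (4 * r) := by positivity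
      linarith
    have k2 : 1 / (4 * r) * Real.sin A - r * -Real.sin A = (1 / (4 * r) + r) * Real.sin A := by ring
    rw [k2]
    nlinarith only [hss, k1]
  · have k1 : b₁ * b₂ / s ^ 2 = (b₁ * b₂ / s) / s := by
      rw [pow_two, div_div]
    rw [k1, hh]
    field_simp
    ring

theorem two_phi_low {X b₁ b₂ : ℂ} {φ : ℝ}
    (h : 4 * X ^ 2 - 4 * (b₁ * b₂) * X + (b₁ + b₂) ^ 2 = 0)
    (hX : X = (‖X‖ : ℂ) * exp (-(2 * φ : ℝ) * I)) (hφ : 0 ≤ φ) (hφ' : φ ≤ Real.pi / 4)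
    (h₁ : 0 ≤ b₁.im) (h₁' : b₁.im ≤ b₁.re) (h₂ : 0 ≤ b₂.im) (h₂' : b₂.im ≤ b₂.re)
    (hb₁ : 1 / 2 ≤ ‖b₁‖) (hb₂ : 1 / 2 ≤ ‖b₂‖) (hb₁' : ‖b₁‖ ≤ 1) (hb₂' : ‖b₂‖ ≤ 1) :
    1 / 10 ≤ φ := by
  by_contra hcon
  push Not at hcon
  obtain ⟨-, -, hθ4, hθ0, hc0, hcc, -⟩ := OTwo_core h hX hφ hφ' h₁ h₁' h₂ h₂' hb₁ hb₂ hb₁' hb₂'
  generalize (b₁ + b₂).arg = θ at *
  have k1 : Real.cos (1 / 5 + Real.pi / 4) ≤ Real.cos (2 * φ + θ) := by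
    apply Real.cos_le_cos_of_nonneg_of_le_pi (by linarith)
    · have := Real.pi_gt_three
      linarith
    · linarith
  rw [Real.cos_add, Real.cos_pi_div_four, Real.sin_pi_div_four] at k1
  have k2 : Real.sin (1 / 5) ≤ 1 / 5 := Real.sin_le (by norm_num)
  have k3 : 1 - (1 / 5 : ℝ) ^ 2 / 2 ≤ Real.cos (1 / 5) := Real.one_sub_sq_div_two_le_cos
  have k4 : √2 * √2 = 2 := Real.mul_self_sqrt (by norm_num)
  have k5 : 0 ≤ √2 := Real.sqrt_nonneg 2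
  have k6 : 0.78 * (√2 / 2) ≤ Real.cos (2 * φ + θ) := by
    have k7 : 0.78 * (√2 / 2) ≤ (Real.cos (1 / 5) - Real.sin (1 / 5)) * (√2 / 2) :=
      mul_le_mul_of_nonneg_right (by norm_num at k3 ⊢; linarith) (by positivity)
    linarith
  have k8 : (0.78 * (√2 / 2)) ^ 2 ≤ Real.cos (2 * φ + θ) ^ 2 :=
    pow_le_pow_left₀ (by positivity) k6 2
  linarith only [hcc, k4, k8]

/-- `sin x ≥ 0.9 x` on `[0, π/4]`, by concavity. -/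
private theorem OTwo_sin {x : ℝ} (h₀ : 0 ≤ x) (h₁ : x ≤ Real.pi / 4) : 0.9 * x ≤ Real.sin x := by
  have hπ := Real.pi_pos
  have k3 : 4 * x / Real.pi ≤ 1 := by rw [div_le_one hπ]; linarith
  have m0 : (0 : ℝ) ∈ Set.Icc 0 Real.pi := ⟨le_refl _, hπ.le⟩
  have m1 : Real.pi / 4 ∈ Set.Icc 0 Real.pi := ⟨by positivity, by linarith⟩
  have k := strictConcaveOn_sin_Icc.concaveOn.2 m0 m1
    (show 0 ≤ 1 - 4 * x / Real.pi by linarith) (show 0 ≤ 4 * x / Real.pi by positivity) (by ring)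
  simp only [smul_eq_mul, Real.sin_zero, mul_zero, zero_add, Real.sin_pi_div_four] at k
  have k2 : 4 * x / Real.pi * (Real.pi / 4) = x := by field_simp
  rw [k2] at k
  have k6 : 0.9 * x ≤ 4 * x / Real.pi * (√2 / 2) := by
    rw [div_mul_eq_mul_div, le_div_iff₀ hπ]
    have k4 : Real.pi ≤ 3.1416 := Real.pi_lt_d4.le
    have k5 : 1.4142 ≤ √2 := by
      apply Real.le_sqrt_of_sq_le
      norm_num
    nlinarith only [h₀, k4, k5]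
  linarith

private theorem OTwo_polar {ρ β : ℝ} (hρ : 1 / 2 ≤ ρ) (hβ : 0 ≤ β) (hβ' : β ≤ Real.pi / 4) :
    ((ρ : ℂ) * exp ((β : ℂ) * I)).re = ρ * Real.cos β ∧
    ((ρ : ℂ) * exp ((β : ℂ) * I)).im = ρ * Real.sin β ∧
    ‖(ρ : ℂ) * exp ((β : ℂ) * I)‖ = ρ ∧ 0 ≤ ((ρ : ℂ) * exp ((β : ℂ) * I)).im ∧
    ((ρ : ℂ) * exp ((β : ℂ) * I)).im ≤ ((ρ : ℂ) * exp ((β : ℂ) * I)).re := by
  have hπ := Real.pi_pos
  have e1 : ((ρ : ℂ) * exp ((β : ℂ) * I)).re = ρ * Real.cos β := by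
    rw [Complex.re_ofReal_mul, Complex.exp_ofReal_mul_I_re]
  have e2 : ((ρ : ℂ) * exp ((β : ℂ) * I)).im = ρ * Real.sin β := by
    rw [Complex.im_ofReal_mul, Complex.exp_ofReal_mul_I_im]
  have e3 : ‖(ρ : ℂ) * exp ((β : ℂ) * I)‖ = ρ := by
    rw [norm_mul, Complex.norm_exp_ofReal_mul_I, mul_one, Complex.norm_real, Real.norm_eq_abs,
      abs_of_nonneg (by linarith)]
  have e4 : 0 ≤ Real.sin β := Real.sin_nonneg_of_nonneg_of_le_pi hβ (by linarith)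
  have e5 : Real.sin β ≤ Real.cos β := by
    rw [← Real.sin_pi_div_two_sub β]
    apply Real.sin_le_sin_of_le_of_le_pi_div_two <;> linarith
  refine ⟨e1, e2, e3, ?_, ?_⟩
  · rw [e2]
    exact mul_nonneg (by linarith) e4
  · rw [e1, e2]
    exact mul_le_mul_of_nonneg_left e5 (by linarith)

private theorem OTwo_im {ρ₁ β₁ ρ₂ β₂ : ℝ}
    (hρ₁ : 1 / 2 ≤ ρ₁) (hρ₂ : 1 / 2 ≤ ρ₂) (hρ₁' : ρ₁ ≤ 1)
    (hβ₁ : 0 ≤ β₁) (hβ₁' : β₁ ≤ Real.pi / 4) (hβ₂ : 0 ≤ β₂) (hβ₂' : β₂ ≤ Real.pi / 4)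
    (h₂ : (1 - ρ₂) ^ 2 ≤ 3 * ρ₂ * β₂) (hle : ρ₂ ≤ ρ₁) :
    (ρ₁ - ρ₂) ^ 2 ≤ 3.36 * (ρ₁ * Real.sin β₁ + ρ₂ * Real.sin β₂) := by
  have k1 := OTwo_sin hβ₁ hβ₁'
  have k2 := OTwo_sin hβ₂ hβ₂'
  have k3 : (ρ₁ - ρ₂) ^ 2 ≤ (1 - ρ₂) ^ 2 := pow_le_pow_left₀ (by linarith) (by linarith) 2
  have k4 : 0 ≤ ρ₁ * Real.sin β₁ := mul_nonneg (by linarith) (by linarith)
  have k5 : ρ₂ * (0.9 * β₂) ≤ ρ₂ * Real.sin β₂ := mul_le_mul_of_nonneg_left k2 (by linarith)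
  have k6 : 0 ≤ ρ₂ * β₂ := mul_nonneg (by linarith) hβ₂
  linarith only [h₂, k3, k4, k5, k6]

private theorem OTwo_real {S D q N y : ℝ} (hq0 : 0 < q) (hD0 : 0 ≤ D) (hDq : D ≤ q)
    (hSq : S ≤ 5 / 2 * q) (hSq' : 2 * q ≤ S) (hNS : N = S + 2 * D) (hNpos : 0 < N)
    (hsy : S - 2 * q ≤ 3.36 * y) : N ^ 2 ≤ 4 * (S * D + 2 * q ^ 2) + 3.36 * y * N := by
  have hS0 : 0 < S := by linarith
  have k1 : 0 ≤ (q - D) * (-S ^ 2 + 2 * q * S + 4 * q * (q + D)) := by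
    apply mul_nonneg (by linarith)
    have j1 : 0 ≤ S * (5 / 2 * q - S) := mul_nonneg hS0.le (by linarith)
    have j2 : 0 ≤ q * (5 / 2 * q - S) := mul_nonneg hq0.le (by linarith)
    have j3 : 0 ≤ q * D := mul_nonneg hq0.le hD0
    have j4 : 0 ≤ q * q := mul_nonneg hq0.le hq0.le
    have j5 : -S ^ 2 + 2 * q * S + 4 * q * (q + D) =
        S * (5 / 2 * q - S) + 1 / 2 * (q * (5 / 2 * q - S)) + 11 / 4 * (q * q) + 4 * (q * D) := by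
      ring
    rw [j5]
    linarith
  have ha : q * N ^ 2 + (q - D) * (-S ^ 2 + 2 * q * S + 4 * q * (q + D)) =
      (S * D + 2 * q ^ 2) * (S + 2 * q) := by
    rw [hNS]
    ring
  have k0 : 0 < S + 2 * q := by linarith
  have k3 : (S - 2 * q) * (N * (S + 2 * q)) ≤ 3.36 * y * (N * (S + 2 * q)) :=
    mul_le_mul_of_nonneg_right hsy (by positivity)
  have k2 : (S - 2 * q) * N * N ≤ (S - 2 * q) * N * (S + 2 * q) :=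
    mul_le_mul_of_nonneg_left (by linarith) (mul_nonneg (by linarith) hNpos.le)
  apply le_of_mul_le_mul_right _ k0
  have k4 : N ^ 2 * (S + 2 * q) = (S - 2 * q) * N * N + 4 * (q * N ^ 2) := by ring
  have k5 : (4 * (S * D + 2 * q ^ 2) + 3.36 * y * N) * (S + 2 * q) =
      4 * ((S * D + 2 * q ^ 2) * (S + 2 * q)) + 3.36 * y * (N * (S + 2 * q)) := by ring
  have k6 : (S - 2 * q) * N * (S + 2 * q) = (S - 2 * q) * (N * (S + 2 * q)) := by ring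
  rw [k4, k5, ← ha]
  linarith

theorem two_sigma {X : ℂ} {φ ρ₁ β₁ ρ₂ β₂ : ℝ}
    (h : 4 * X ^ 2 - 4 * (((ρ₁ : ℂ) * exp ((β₁ : ℂ) * I)) * ((ρ₂ : ℂ) * exp ((β₂ : ℂ) * I))) * X +
      (((ρ₁ : ℂ) * exp ((β₁ : ℂ) * I)) + ((ρ₂ : ℂ) * exp ((β₂ : ℂ) * I))) ^ 2 = 0)
    (hX : X = (‖X‖ : ℂ) * exp (-(2 * φ : ℝ) * I)) (hφ : 0 ≤ φ) (hφ' : φ ≤ Real.pi / 4)
    (hρ₁ : 1 / 2 ≤ ρ₁) (hρ₁' : ρ₁ ≤ 1) (hρ₂ : 1 / 2 ≤ ρ₂) (hρ₂' : ρ₂ ≤ 1)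
    (hβ₁ : 0 ≤ β₁) (hβ₁' : β₁ ≤ Real.pi / 4) (hβ₂ : 0 ≤ β₂) (hβ₂' : β₂ ≤ Real.pi / 4)
    (h₁ : (1 - ρ₁) ^ 2 ≤ 3 * ρ₁ * β₁) (h₂ : (1 - ρ₂) ^ 2 ≤ 3 * ρ₂ * β₂) : ‖1 - X‖ ≤ 1 := by
  obtain ⟨r1, i1, n1, s1, s1'⟩ := OTwo_polar hρ₁ hβ₁ hβ₁'
  obtain ⟨r2, i2, n2, s2, s2'⟩ := OTwo_polar hρ₂ hβ₂ hβ₂'
  have hsy : (ρ₁ - ρ₂) ^ 2 ≤ 3.36 * (ρ₁ * Real.sin β₁ + ρ₂ * Real.sin β₂) := by
    rcases le_total ρ₂ ρ₁ with hle | hle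
    · exact OTwo_im hρ₁ hρ₂ hρ₁' hβ₁ hβ₁' hβ₂ hβ₂' h₂ hle
    · have := OTwo_im hρ₂ hρ₁ hρ₂' hβ₂ hβ₂' hβ₁ hβ₁' h₁ hle
      have e : (ρ₁ - ρ₂) ^ 2 = (ρ₂ - ρ₁) ^ 2 := by ring
      rw [e]
      linarith
  rw [← i1, ← i2] at hsy
  generalize (ρ₁ : ℂ) * exp ((β₁ : ℂ) * I) = b₁ at *
  generalize (ρ₂ : ℂ) * exp ((β₂ : ℂ) * I) = b₂ at *
  obtain ⟨hX0, hs0, -, -, -, -, w, hw1, hw2, hw⟩ :=
    OTwo_core h hX hφ hφ' s1 s1' s2 s2' (n1 ▸ hρ₁) (n2 ▸ hρ₂) (n1 ▸ hρ₁') (n2 ▸ hρ₂')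
  have hm1 : ρ₁ ^ 2 = b₁.re ^ 2 + b₁.im ^ 2 := by
    rw [← n1, ← Complex.normSq_eq_norm_sq, Complex.normSq_apply]; ring
  have hm2 : ρ₂ ^ 2 = b₂.re ^ 2 + b₂.im ^ 2 := by
    rw [← n2, ← Complex.normSq_eq_norm_sq, Complex.normSq_apply]; ring
  -- `N = |s|²`
  have hN : Complex.normSq (b₁ + b₂) = (b₁.re + b₂.re) ^ 2 + (b₁.im + b₂.im) ^ 2 := by
    rw [Complex.normSq_apply, Complex.add_re, Complex.add_im]; ring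
  have hNpos : 0 < Complex.normSq (b₁ + b₂) := Complex.normSq_pos.2 hs0
  obtain ⟨N, hNdef⟩ : ∃ N, N = Complex.normSq (b₁ + b₂) := ⟨_, rfl⟩
  rw [← hNdef] at hN hNpos
  have hx1 : 0 ≤ b₁.re := s1.trans s1'
  have hx2 : 0 ≤ b₂.re := s2.trans s2'
  -- real part of `p/s²`
  have hre1 : (b₁ * b₂ / (b₁ + b₂) ^ 2).re * N ^ 2 =
      (ρ₁ ^ 2 + ρ₂ ^ 2) * (b₁.re * b₂.re + b₁.im * b₂.im) + 2 * ρ₁ ^ 2 * ρ₂ ^ 2 := by
    rw [Complex.div_re, map_pow, ← hNdef, ← add_div, div_mul_cancel₀ _ (by positivity), pow_two,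
      Complex.mul_re, Complex.mul_im, Complex.mul_re, Complex.mul_im, Complex.add_re,
      Complex.add_im, hm1, hm2]
    ring
  have hre2 : (w / (b₁ + b₂)).re * N = w.re * (b₁.re + b₂.re) + w.im * (b₁.im + b₂.im) := by
    rw [Complex.div_re, ← hNdef, ← add_div, div_mul_cancel₀ _ hNpos.ne', Complex.add_re,
      Complex.add_im]
  have hinv : (X⁻¹).re = 2 * ((b₁ * b₂ / (b₁ + b₂) ^ 2).re + (w / (b₁ + b₂)).re) := by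
    rw [hw, ← Complex.add_re]
    have : (2 : ℂ) = ((2 : ℝ) : ℂ) := by norm_num
    rw [this, Complex.re_ofReal_mul]
  have hwlow : 0.84 * (b₁.im + b₂.im) ≤ w.re * (b₁.re + b₂.re) + w.im * (b₁.im + b₂.im) := by
    have k1 : 0 ≤ w.re * (b₁.re + b₂.re) := mul_nonneg hw1 (by linarith)
    have k2 : 0.84 * (b₁.im + b₂.im) ≤ w.im * (b₁.im + b₂.im) :=
      mul_le_mul_of_nonneg_right hw2 (by linarith)
    linarith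
  -- the real inequality
  obtain ⟨D, hD⟩ : ∃ D, D = b₁.re * b₂.re + b₁.im * b₂.im := ⟨_, rfl⟩
  obtain ⟨q, hq⟩ : ∃ q, q = ρ₁ * ρ₂ := ⟨_, rfl⟩
  obtain ⟨S, hS⟩ : ∃ S, S = ρ₁ ^ 2 + ρ₂ ^ 2 := ⟨_, rfl⟩
  have hq0 : 0 < q := by rw [hq]; exact mul_pos (by linarith) (by linarith)
  have hD0 : 0 ≤ D := by
    rw [hD]
    exact add_nonneg (mul_nonneg hx1 hx2) (mul_nonneg s1 s2)
  have hDq : D ≤ q := by
    refine abs_le_of_sq_le_sq' ?_ hq0.le |>.2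
    have : q ^ 2 = (b₁.re ^ 2 + b₁.im ^ 2) * (b₂.re ^ 2 + b₂.im ^ 2) := by
      rw [hq, mul_pow, hm1, hm2]
    rw [this, hD]
    linarith only [sq_nonneg (b₁.re * b₂.im - b₁.im * b₂.re)]
  have hSq : S ≤ 5 / 2 * q := by
    rw [hS, hq]
    linarith only [mul_nonneg (show 0 ≤ 2 * ρ₁ - ρ₂ by linarith) (show 0 ≤ 2 * ρ₂ - ρ₁ by linarith)]
  have hSq' : 2 * q ≤ S := by
    rw [hS, hq]
    linarith only [sq_nonneg (ρ₁ - ρ₂)]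
  have hNS : N = S + 2 * D := by
    rw [hN, hS, hm1, hm2, hD]; ring
  have hsy' : S - 2 * q ≤ 3.36 * (b₁.im + b₂.im) := by
    have : S - 2 * q = (ρ₁ - ρ₂) ^ 2 := by rw [hS, hq]; ring
    rw [this]
    exact hsy
  have hfin := OTwo_real hq0 hD0 hDq hSq hSq' hNS hNpos hsy'
  have hhalf : 1 / 2 ≤ (X⁻¹).re := by
    have k0 : 0 < N ^ 2 := by positivity
    apply le_of_mul_le_mul_right _ k0
    have k1 : (X⁻¹).re * N ^ 2 = 2 * ((S * D + 2 * q ^ 2) +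
        (w.re * (b₁.re + b₂.re) + w.im * (b₁.im + b₂.im)) * N) := by
      rw [hinv, hS, hq, hD]
      linear_combination 2 * hre1 + 2 * N * hre2
    have k2 := mul_le_mul_of_nonneg_right hwlow hNpos.le
    rw [k1]
    linarith
  -- conclusion
  have hXpos : 0 < Complex.normSq X := Complex.normSq_pos.2 hX0
  rw [Complex.inv_re, le_div_iff₀ hXpos] at hhalf
  have hle : ‖1 - X‖ ^ 2 ≤ 1 ^ 2 := by
    rw [← Complex.normSq_eq_norm_sq, Complex.normSq_apply, Complex.sub_re, Complex.sub_im,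
      Complex.one_re, Complex.one_im]
    rw [Complex.normSq_apply] at hhalf
    linarith only [hhalf]
  exact abs_le_of_sq_le_sq' hle (by norm_num) |>.2

end Pool.Agent.S3.E
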