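import Pool.Agent.S3.E.Exist
import Pool.Agent.S3.E.OEnd
import Pool.Agent.S3.E.OPhi
import Pool.Agent.S3.E.OSig3
import Pool.Agent.S3.E.OTwo

/-!
# Stage 3, block E: location of the critical point
-/

namespace Pool.Agent.S3.E

open Complex

variable {ι : Type*}

theorem bb_one {κ : ℂ} (h : κ ≠ 0) : bb 1 κ = (starRingEnd ℂ) κ := by
  unfold bb
  rw [ofReal_one, one_mul, exp_log]
  exact (map_ne_zero _).2 h

namespace Zr

variable {a : ι → ℝ} {nl nr : ι → Option ι} {τ : ℝ} {z : ι → ℂ}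

theorem phi_ge [Finite ι] (h : Zr a nl nr τ z) (i : ι) :
    (1 - √(k2 (z i).re (z i).im)) ^ 2 ≤
      3 * √(k2 (z i).re (z i).im) * ph (z i).re (z i).im := by
  have hk0 := h.k2pos i
  have hk1 := h.k2_le i
  have hs0 : 0 ≤ √(k2 (z i).re (z i).im) := Real.sqrt_nonneg _
  have hsq : √(k2 (z i).re (z i).im) ^ 2 = k2 (z i).re (z i).im := Real.sq_sqrt hk0.le
  have hs1 : √(k2 (z i).re (z i).im) ≤ 1 := by nlinarith
  have hpi := Real.pi_gt_three
  rcases h.types i with h1 | ⟨h1, j, k, h2, h3⟩ | ⟨h1, j, h2⟩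
  · have hv := h.vx i
    rcases hl : nl i with _ | j
    · rcases hr : nr i with _ | k
      · have := h.N.ne i
        simp [hl, hr] at this
      · rw [hr] at hv
        exact hv.swap.phi_ge h1 hk1 (h.ro_ge k) (h.be_le _)
    · rw [hl] at hv
      exact hv.phi_ge h1 hk1 (h.ro_ge j) (h.be_le _)
  · have h4 := h.quartic i h1
    rw [h2, h3] at h4
    have h5 := two_low' h4 (h.bo_im_nonneg _) (h.bo_im_le _) (h.bo_im_nonneg _) (h.bo_im_le _)
      (by rw [h.norm_bo]; exact h.ro_ge j) (by rw [h.norm_bo]; exact h.ro_ge k)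
    have h6 := two_phi_low h4 (h.cos_sq_polar i) (h.phpos i).le (h.ph_le i) (h.bo_im_nonneg _)
      (h.bo_im_le _) (h.bo_im_nonneg _) (h.bo_im_le _) (by rw [h.norm_bo]; exact h.ro_ge j)
      (by rw [h.norm_bo]; exact h.ro_ge k) (by rw [h.norm_bo]; exact h.ro_le_one _)
      (by rw [h.norm_bo]; exact h.ro_le_one _)
    rw [norm_sq] at h5
    have h7 : 0.591 ≤ √(k2 (z i).re (z i).im) := by
      apply Real.le_sqrt_of_sq_le
      norm_num at h5 ⊢
      linarith
    norm_num at h7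
    nlinarith
  · have h3 := h.ph_end h1 h2
    have h4 := h.be_le (some j)
    have h5 := h.k2_ge i
    have h6 : 1 / 2 ≤ √(k2 (z i).re (z i).im) := by
      apply Real.le_sqrt_of_sq_le
      norm_num
      linarith
    have h7 : 3 / 8 ≤ ph (z i).re (z i).im := by linarith
    nlinarith

theorem ro_one (z : ι → ℂ) (j : ι) : ro 1 z (some j) = ‖cos (z j)‖ := Real.rpow_one _

theorem be_one (z : ι → ℂ) (j : ι) : be 1 z (some j) = ph (z j).re (z j).im := one_mul _

theorem bo_one (h : Zr a nl nr 1 z) (j : ι) : bo 1 z (some j) = (starRingEnd ℂ) (cos (z j)) :=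
  bb_one (h.cos_ne j)

theorem norm_eq_sqrt (z : ι → ℂ) (j : ι) : ‖cos (z j)‖ = √(k2 (z j).re (z j).im) :=
  norm_cos_eq _

theorem norm_one_sub (z : ι → ℂ) (i : ι) : ‖1 - cos (z i) ^ 2‖ = s2 (z i).re (z i).im := by
  rw [← norm_sin_sq, ← norm_pow]
  congr 1
  linear_combination (sin_sq_add_cos_sq (z i)).symm

/-- `|σ| ≤ 1` except at an end `2`. -/
theorem s2_le [Finite ι] (h : Zr a nl nr 1 z) (i : ι)
    (hi : 3 ≤ a i ∨ ∃ j k, nl i = some j ∧ nr i = some k) : s2 (z i).re (z i).im ≤ 1 := by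
  rcases h.types i with h1 | ⟨h1, j, k, h2, h3⟩ | ⟨h1, j, h2⟩
  · exact (h.vx i).sig3 h1 (h.k2_le i)
  · have h4 := h.quartic i h1
    rw [h2, h3, h.bo_eq, h.bo_eq] at h4
    rw [← norm_one_sub]
    have hj := h.phi_ge j
    have hk := h.phi_ge k
    rw [← norm_eq_sqrt, ← ro_one, ← be_one] at hj hk
    exact two_sigma h4 (h.cos_sq_polar i) (h.phpos i).le (h.ph_le i) (h.ro_ge j) (h.ro_le_one _)
      (h.ro_ge k) (h.ro_le_one _) (h.be_nonneg _) (h.be_le _) (h.be_nonneg _) (h.be_le _) hj hk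
  · exfalso
    rcases hi with hi | ⟨j', k', h3, h4⟩
    · linarith
    · rcases h2 with ⟨h5, h6⟩ | ⟨h5, h6⟩
      · rw [h6] at h4; simp at h4
      · rw [h5] at h3; simp at h3

/-- `θ ≤ π/4` except at an end `2`. -/
theorem th_le [Finite ι] (h : Zr a nl nr 1 z) (i : ι)
    (hi : 3 ≤ a i ∨ ∃ j k, nl i = some j ∧ nr i = some k) :
    th (z i).re (z i).im ≤ Real.pi / 4 :=
  (th_le_iff (h.pos i).1 (h.pos i).2.1 (h.pos i).2.2).2 (h.s2_le i hi)

theorem al_ph_lt [Finite ι] (h : Zr a nl nr 1 z) {i j : ι} (hij : nl i = some j ∨ nr i = some j) :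
    al (z i).re (z i).im + ph (z j).re (z j).im < Real.pi / 2 := by
  have := h.al_be_lt hij
  rwa [be_one] at this

/-- `θ + θ' < π/2` on every edge. -/
theorem S_lt [Finite ι] (h : Zr a nl nr 1 z) {i j : ι} (hij : nl i = some j ∨ nr i = some j) :
    th (z i).re (z i).im + th (z j).re (z j).im < Real.pi / 2 :=
  E.S_lt (h.pos i).1 (h.pos i).2.1 (h.pos i).2.2 (h.pos j).1 (h.pos j).2.1 (h.pos j).2.2
    (h.al_ph_lt hij) (h.al_ph_lt (h.N.symm i j hij))

/-- An end `2` with its neighbour `j`. -/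
def IsEnd2 (a : ι → ℝ) (nl nr : ι → Option ι) (i j : ι) : Prop :=
  a i = 2 ∧ ((nl i = some j ∧ nr i = none) ∨ (nl i = none ∧ nr i = some j))

theorem end_k2 (h : Zr a nl nr 1 z) {i j : ι} (hi : IsEnd2 a nl nr i j) :
    k2 (z i).re (z i).im = √(k2 (z j).re (z j).im) / 2 := by
  have h1 := congrArg norm (h.end2 hi.1 hi.2)
  rw [h.bo_one, norm_mul, norm_sq, norm_mul, norm_neg, norm_I, Complex.norm_conj, one_mul,
    norm_eq_sqrt] at h1
  norm_num at h1
  linarith

theorem end_s2 (h : Zr a nl nr 1 z) {i j : ι} (hi : IsEnd2 a nl nr i j) :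
    s2 (z i).re (z i).im ^ 2 = 1 + k2 (z j).re (z j).im / 4 -
      √(k2 (z j).re (z j).im) * Real.sin (ph (z j).re (z j).im) := by
  have h1 := h.end2 hi.1 hi.2
  rw [h.bo_one] at h1
  have hre : (cos (z i) ^ 2).re = -((cos (z j)).im) / 2 := by
    have h2 := congrArg re h1
    simp at h2
    linarith
  have him : (cos (z i) ^ 2).im = -(cos (z j)).re / 2 := by
    have h2 := congrArg im h1
    simp at h2
    linarith
  rw [← norm_one_sub, ← Complex.normSq_eq_norm_sq, Complex.normSq_apply, sub_re, sub_im, one_re,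
    one_im, hre, him]
  have h3 : k2 (z j).re (z j).im = (cos (z j)).re ^ 2 + (cos (z j)).im ^ 2 := by
    rw [← norm_cos_sq, ← Complex.normSq_eq_norm_sq, Complex.normSq_apply]; ring
  have h4 : (cos (z j)).im = -(√(k2 (z j).re (z j).im) * Real.sin (ph (z j).re (z j).im)) := by
    conv_lhs => rw [cos_polar (h.pos j).1 (h.pos j).2.1]
    rw [← ofReal_neg, im_ofReal_mul, exp_ofReal_mul_I_im, Real.sin_neg, norm_eq_sqrt]
    ring
  rw [h3] at *
  nlinarith

theorem end_th_le [Finite ι] (h : Zr a nl nr 1 z) {i j : ι} (hi : IsEnd2 a nl nr i j) :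
    th (z i).re (z i).im ≤ 0.905 := by
  have h0 := h.k2pos j
  have h1 := h.k2_le j
  have h2 : √(k2 (z j).re (z j).im) ^ 2 = k2 (z j).re (z j).im := Real.sq_sqrt h0.le
  refine E.end_th_le (ρ := √(k2 (z j).re (z j).im)) (φ := ph (z j).re (z j).im) (h.pos i).1
    (h.pos i).2.1 (h.pos i).2.2 (Real.sqrt_pos.2 h0) ?_ ?_ (h.end_k2 hi) ?_
  · rw [Real.sqrt_le_one]; exact h1
  · exact Real.sin_nonneg_of_nonneg_of_le_pi (h.phpos j).le (by linarith [h.ph_le j, Real.pi_pos])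
  · rw [h.end_s2 hi, h2]

theorem end_small [Finite ι] (h : Zr a nl nr 1 z) {i j : ι} (hi : IsEnd2 a nl nr i j)
    (hj : 3 ≤ a j ∨ ∃ k l, nl j = some k ∧ nr j = some l) (ht : Real.pi / 4 < th (z i).re (z i).im) :
    th (z j).re (z j).im < Real.pi / 6 ∧ th (z i).re (z i).im + th (z j).re (z j).im ≤ 1.35 :=
  E.end_small (h.pos i).1 (h.pos i).2.1 (h.pos i).2.2 (h.pos j).1 (h.pos j).2.1 (h.pos j).2.2
    (h.k2_le j) (h.s2_le j hj) (h.end_k2 hi) (h.end_s2 hi) ht

theorem end_x [Finite ι] (h : Zr a nl nr 1 z) {i j : ι} (hi : IsEnd2 a nl nr i j)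
    (hj : 3 ≤ a j ∨ ∃ k l, nl j = some k ∧ nr j = some l) :
    xx (z j).re (z j).im - xx (z i).re (z i).im ≤ 0.15 :=
  E.end_x (h.pos i).1 (h.pos i).2.1 (h.pos i).2.2 (h.pos j).1 (h.pos j).2.1 (h.pos j).2.2
    (h.k2_le j) (h.k2_ge j) (h.s2_le j hj) (h.end_k2 hi) (h.end_s2 hi)

/-- Both ends `2` (the chain `2, -2`): `|κ| = 1/2`, `φ = π/6`. -/
theorem end_end [Finite ι] (h : Zr a nl nr 1 z) {i j : ι} (hi : IsEnd2 a nl nr i j)
    (hj : IsEnd2 a nl nr j i) :
    k2 (z i).re (z i).im = 1 / 4 ∧ ph (z i).re (z i).im = Real.pi / 6 := by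
  have h1 := h.end_k2 hi
  have h2 := h.end_k2 hj
  have h3 := h.k2pos i
  have h4 := h.k2pos j
  have h5 := h.ph_end hi.1 hi.2
  have h6 := h.ph_end hj.1 hj.2
  rw [be_one] at h5 h6
  constructor
  · have h7 := Real.sq_sqrt h3.le
    have h8 := Real.sq_sqrt h4.le
    have h9 := Real.sqrt_pos.2 h3
    have h10 := Real.sqrt_pos.2 h4
    set p := √(k2 (z i).re (z i).im)
    set q := √(k2 (z j).re (z j).im)
    have h11 : 2 * p ^ 2 = q := by linarith
    have h12 : 2 * q ^ 2 = p := by linarith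
    have h13 : p * (8 * p ^ 3 - 1) = 0 := by rw [← h11] at h12; linear_combination h12
    have h14 : 8 * p ^ 3 - 1 = 0 := by
      rcases mul_eq_zero.1 h13 with h | h
      · linarith
      · exact h
    have h15 : p = 1 / 2 := by
      have h16 : (2 * p - 1) * (4 * p ^ 2 + 2 * p + 1) = 0 := by linear_combination h14
      rcases mul_eq_zero.1 h16 with h | h
      · linarith
      · nlinarith
    rw [← h7, h15]; norm_num
  · linarith

/-- The inequality (O+) at an end `2` with `θ > π/4`. -/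
theorem end_plus [Finite ι] (h : Zr a nl nr 1 z) {i j : ι} (hi : IsEnd2 a nl nr i j)
    (hj : 3 ≤ a j ∨ ∃ k l, nl j = some k ∧ nr j = some l)
    (ht : Real.pi / 4 < th (z i).re (z i).im) {d : ℝ} (hd : 0 ≤ d)
    (hd' : d = 0 ∨ d ≤ xx (z j).re (z j).im - xx (z i).re (z i).im) :
    th (z i).re (z i).im + (th (z i).re (z i).im - th (z j).re (z j).im) / 2 +
      Real.arctan (Real.tanh d * Real.tan (th (z i).re (z i).im + th (z j).re (z j).im)) / 2 ≤
      Real.pi / 2 := by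
  obtain ⟨h1, h2⟩ := h.end_small hi hj ht
  have h3 := h.end_x hi hj
  have h4 : 0 < th (z j).re (z j).im := th_pos (h.pos j).1 (h.pos j).2.1 (h.pos j).2.2
  refine E.end_plus h4.le (h.end_th_le hi) ht ?_ h2 ?_ hd
  · linarith [Real.pi_pos]
  · rcases hd' with h5 | h5
    · rw [h5]; norm_num
    · linarith

end Zr

end Pool.Agent.S3.E
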