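import Pool.Agent.S3.Dmain
import Pool.Agent.S3.E.OMain

/-!
# Stage 3, block E: the critical point in the coordinates of the edge inequality

`z = gd u`, `u = x + iθ`; the vertex equation is `a_i z_i = π + i ∑ q(u_i, conj u_j)`; the canonical
split `b = re q/im z` has sum `a_i` at every vertex.
-/

namespace Pool.Agent.S3.E

open Complex

theorem abs_th_lt {z : ℂ} (h : 0 < z.re) (h' : z.re < Real.pi / 2) (hI : 0 < z.im) :
    |th z.re z.im| < Real.pi / 2 := by
  rw [abs_of_pos (th_pos h h' hI)]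
  exact th_lt h h' hI

theorem gd_uu {z : ℂ} (h : 0 < z.re) (h' : z.re < Real.pi / 2) (hI : 0 < z.im) :
    gd (UU (xx z.re z.im) (th z.re z.im)) = z := by
  have ht := abs_th_lt h h' hI
  have hu : |(UU (xx z.re z.im) (th z.re z.im)).im| < Real.pi / 2 := by rwa [UU_im]
  have h1 := exp_gd hu
  have h2 : sinh (UU (xx z.re z.im) (th z.re z.im)) = tan z := sinh_u h h' hI
  have h3 : cosh (UU (xx z.re z.im) (th z.re z.im)) * cos z = 1 := cosh_u h h' hI
  have hc : cos z ≠ 0 := by
    intro h0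
    rw [h0, mul_zero] at h3
    exact zero_ne_one h3
  have h4 : cosh (UU (xx z.re z.im) (th z.re z.im)) = (cos z)⁻¹ := eq_inv_of_mul_eq_one_left h3
  rw [h2, h4, tan_eq_sin_div_cos] at h1
  have h5 : (1 + I * (sin z / cos z)) / (cos z)⁻¹ = exp (z * I) := by
    rw [exp_mul_I]
    field_simp
  rw [h5, mul_comm I] at h1
  have h6 := abs_lt.1 (gd_re_lt hu)
  have h7 := Complex.exp_inj_of_neg_pi_lt_of_le_pi (x := gd (UU (xx z.re z.im) (th z.re z.im)) * I)
    (y := z * I) (by rw [mul_I_im]; linarith [Real.pi_pos]) (by rw [mul_I_im]; linarith)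
    (by rw [mul_I_im]; linarith [Real.pi_pos]) (by rw [mul_I_im]; linarith) h1
  exact mul_right_cancel₀ I_ne_zero h7

/-- `q(u, conj u')` of an edge. -/
noncomputable def qe (z w : ℂ) : ℂ :=
  qq (UU (xx z.re z.im) (th z.re z.im)) (UU (xx w.re w.im) (-(th w.re w.im)))

theorem qe_eq {z w : ℂ} (h : 0 < z.re) (h' : z.re < Real.pi / 2) (hI : 0 < z.im) (g : 0 < w.re)
    (g' : w.re < Real.pi / 2) (gI : 0 < w.im) :
    qe z w = arsh ((starRingEnd ℂ) (cos w) * tan z) := by
  have h2 : sinh (UU (xx z.re z.im) (th z.re z.im)) = tan z := sinh_u h h' hI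
  have h3 : cosh (UU (xx w.re w.im) (th w.re w.im)) * cos w = 1 := cosh_u g g' gI
  have hc : cos w ≠ 0 := by
    intro h0
    rw [h0, mul_zero] at h3
    exact zero_ne_one h3
  have h4 : cosh (UU (xx w.re w.im) (-(th w.re w.im))) * (starRingEnd ℂ) (cos w) = 1 := by
    rw [← UU_conj, ← conj_cosh', ← map_mul, h3, map_one]
  have h5 : cosh (UU (xx w.re w.im) (-(th w.re w.im))) = ((starRingEnd ℂ) (cos w))⁻¹ :=
    eq_inv_of_mul_eq_one_left h4
  rw [qe, qq, h2, h5, div_inv_eq_mul, mul_comm]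

/-- The share of the edge in the number of twists. -/
noncomputable def bw (z w : ℂ) : ℝ := (qe z w).re / z.im

/-- The same for a missing neighbour. -/
noncomputable def qo {ι : Type*} (z : ι → ℂ) (i : ι) (o : Option ι) : ℂ :=
  match o with
  | none => 0
  | some j => qe (z i) (z j)

/-- The same for a missing neighbour. -/
noncomputable def bwo {ι : Type*} (z : ι → ℂ) (i : ι) (o : Option ι) : ℝ :=
  match o with
  | none => 0
  | some j => bw (z i) (z j)

namespace Zr

variable {ι : Type*} [Finite ι] {a : ι → ℝ} {nl nr : ι → Option ι} {z : ι → ℂ}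

theorem gd_uu (h : Zr a nl nr 1 z) (i : ι) :
    gd (UU (xx (z i).re (z i).im) (th (z i).re (z i).im)) = z i :=
  E.gd_uu (h.pos i).1 (h.pos i).2.1 (h.pos i).2.2

theorem w_pos (h : Zr a nl nr 1 z) {i j : ι} (hij : nl i = some j ∨ nr i = some j) :
    0 < ((starRingEnd ℂ) (cos (z j)) * tan (z i)).re ∧
      0 < ((starRingEnd ℂ) (cos (z j)) * tan (z i)).im := by
  have h1 := h.w_re_pos hij
  have h2 := h.w_im_pos i j
  rw [h.bo_one] at h1 h2
  exact ⟨h1, h2⟩

theorem qe_eq_ash (h : Zr a nl nr 1 z) {i j : ι} (hij : nl i = some j ∨ nr i = some j) :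
    qe (z i) (z j) = ash (bo 1 z (some j) * tan (z i)) := by
  have h1 := h.w_pos hij
  rw [qe_eq (h.pos i).1 (h.pos i).2.1 (h.pos i).2.2 (h.pos j).1 (h.pos j).2.1 (h.pos j).2.2,
    h.bo_one, ash_eq_log h1.1 h1.2.le, arsh]

/-- `q` is in the open first quadrant, `im q < π/2`. -/
theorem qe_pos (h : Zr a nl nr 1 z) {i j : ι} (hij : nl i = some j ∨ nr i = some j) :
    0 < (qe (z i) (z j)).re ∧ 0 < (qe (z i) (z j)).im ∧ (qe (z i) (z j)).im < Real.pi / 2 := by
  have h1 := h.w_re_pos hij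
  have h2 := h.w_im_pos i j
  rw [h.qe_eq_ash hij, ash_re, ash_im]
  exact ⟨PP_pos h1, RR_pos h2, RR_lt h1⟩

theorem qo_eq (h : Zr a nl nr 1 z) {i : ι} {o : Option ι} (ho : nl i = o ∨ nr i = o) :
    qo z i o = ash (bo 1 z o * tan (z i)) := by
  cases o with
  | none => simp [qo, bo, ash_zero]
  | some j => exact h.qe_eq_ash ho

/-- The vertex equation. -/
theorem vertex (h : Zr a nl nr 1 z) (i : ι) :
    (a i : ℂ) * z i = (Real.pi : ℂ) + I * (qo z i (nl i) + qo z i (nr i)) := by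
  rw [h.qo_eq (Or.inl rfl), h.qo_eq (Or.inr rfl)]
  exact h.eqn i

theorem vertex_re (h : Zr a nl nr 1 z) (i : ι) :
    a i * (z i).re = Real.pi - (qo z i (nl i)).im - (qo z i (nr i)).im := by
  have h1 := congrArg re (h.vertex i)
  rw [re_ofReal_mul, add_re, ofReal_re, I_mul_re, add_im] at h1
  linarith

theorem vertex_im (h : Zr a nl nr 1 z) (i : ι) :
    a i * (z i).im = (qo z i (nl i)).re + (qo z i (nr i)).re := by
  have h1 := congrArg im (h.vertex i)
  rw [im_ofReal_mul, add_im, ofReal_im, I_mul_im, add_re] at h1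
  linarith

theorem bw_pos (h : Zr a nl nr 1 z) {i j : ι} (hij : nl i = some j ∨ nr i = some j) :
    0 < bw (z i) (z j) := div_pos (h.qe_pos hij).1 (h.pos i).2.2

theorem bwo_eq (z : ι → ℂ) (i : ι) (o : Option ι) : bwo z i o = (qo z i o).re / (z i).im := by
  cases o with
  | none => simp [bwo, qo]
  | some j => rfl

/-- The weights of the two slots have sum `a`. -/
theorem sum_bwo (h : Zr a nl nr 1 z) (i : ι) : bwo z i (nl i) + bwo z i (nr i) = a i := by
  have h1 := h.vertex_im i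
  rw [bwo_eq, bwo_eq, ← add_div, ← h1]
  exact mul_div_cancel_right₀ _ (h.pos i).2.2.ne'

/-- The canonical split. -/
theorem split (h : Zr a nl nr 1 z) {i j : ι} (hij : nl i = some j ∨ nr i = some j) :
    Split (th (z i).re (z i).im) (th (z j).re (z j).im) (xx (z i).re (z i).im)
      (xx (z j).re (z j).im) (bw (z i) (z j)) (bw (z j) (z i)) where
  b0 := h.bw_pos hij
  b0' := h.bw_pos (h.N.symm i j hij)
  hQ := by
    rw [h.gd_uu i, bw, div_mul_cancel₀ _ (h.pos i).2.2.ne']
    rfl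
  hQ' := by
    rw [h.gd_uu j, bw, div_mul_cancel₀ _ (h.pos j).2.2.ne']
    rfl

end Zr

end Pool.Agent.S3.E
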