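import Pool.Agent.S3.E.K4A
import Pool.Agent.S3.E.K4B
import Pool.Agent.S3.E.K4C
import Pool.Agent.S3.E.OppE
import Pool.Agent.S3.E.Split

/-!
# Stage 3, block E: (H-alpha) and (K4)
-/

namespace Pool.Agent.S3.E

open Complex

namespace Zr

variable {ι : Type*} [Finite ι] {a : ι → ℝ} {nl nr : ι → Option ι} {z : ι → ℂ}

theorem qe_im_eq (h : Zr a nl nr 1 z) {i j : ι} (hij : nl i = some j ∨ nr i = some j) :
    (qe (z i) (z j)).im = RR (bo 1 z (some j) * tan (z i)) := by
  rw [h.qe_eq_ash hij, ash_im]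

/-- If `|κ_i| < |κ_j|` then `j` is not an end `2`. -/
theorem good_of_lt (h : Zr a nl nr 1 z) {i j : ι} (hij : nl i = some j ∨ nr i = some j)
    (hlt : ‖cos (z i)‖ < ‖cos (z j)‖) : Good a nl nr j := by
  rcases h.good_or (h.N.symm i j hij) with hj | hj
  · exact hj
  · exfalso
    have h1 := h.end_k2 hj
    have h2 := h.norm_ge i
    have h3 := norm_cos_sq (z j)
    rw [← norm_eq_sqrt] at h1
    have h4 := norm_nonneg (cos (z j))
    nlinarith

/-- The quartic with the slot of `j` first. -/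
theorem quartic_first (h : Zr a nl nr 1 z) {i j : ι} (hi : a i = 2)
    (hin : ∃ j k, nl i = some j ∧ nr i = some k) (hij : nl i = some j ∨ nr i = some j) :
    ∃ k : ι, 4 * (cos (z i) ^ 2) ^ 2 -
      4 * (((ro 1 z (some j) : ℂ) * exp ((be 1 z (some j) : ℂ) * I)) *
        ((ro 1 z (some k) : ℂ) * exp ((be 1 z (some k) : ℂ) * I))) * (cos (z i) ^ 2) +
      (((ro 1 z (some j) : ℂ) * exp ((be 1 z (some j) : ℂ) * I)) +
        ((ro 1 z (some k) : ℂ) * exp ((be 1 z (some k) : ℂ) * I))) ^ 2 = 0 := by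
  have h4 := h.quartic i hi
  obtain ⟨j', k', h2, h3⟩ := hin
  rw [h2, h3, h.bo_eq, h.bo_eq] at h4
  rcases hij with h5 | h5
  · rw [h2] at h5
    obtain rfl := Option.some.inj h5
    exact ⟨k', h4⟩
  · rw [h3] at h5
    obtain rfl := Option.some.inj h5
    exact ⟨j', by linear_combination h4⟩

theorem two_ph_add_lt (h : Zr a nl nr 1 z) {i j : ι} (hi : a i = 2)
    (hin : ∃ j k, nl i = some j ∧ nr i = some k) (hij : nl i = some j ∨ nr i = some j)
    (hj : Good a nl nr j) (hle : ‖cos (z i)‖ ≤ ‖cos (z j)‖) :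
    2 * ph (z i).re (z i).im + ph (z j).re (z j).im < Real.pi / 2 := by
  obtain ⟨k, hk⟩ := h.quartic_first hi hin hij
  have h1 := star_two hk (h.cos_sq_polar i) (pow_ne_zero 2 (h.cos_ne i)) (h.phpos i).le (h.ph_le i)
    (h.ro_pos j) (h.ro_le_one _) (h.ro_ge k) (h.be_nonneg _)
    (by rw [be_one]; exact h.ph_le' j hj) (h.be_nonneg _) (h.be_le _)
    (by
      rw [norm_pow, ro_one]
      exact pow_le_pow_left₀ (norm_nonneg _) hle 2)
  rwa [be_one] at h1

/-- (H-alpha). -/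
theorem alt (h : Zr a nl nr 1 z) {i j : ι} (hij : nl i = some j ∨ nr i = some j) :
    ‖cos (z j)‖ ≤ ‖cos (z i)‖ ∨
      2 * ph (z i).re (z i).im + ph (z j).re (z j).im + (qe (z i) (z j)).im < Real.pi := by
  have hq := h.qe_pos hij
  rcases h.types i with h1 | ⟨h1, h2⟩ | ⟨h1, k, h2⟩
  · right
    rw [h.qe_im_eq hij]
    have hv := h.vx i
    rcases hij with h3 | h3
    · rw [h3] at hv
      exact hv.star3 h1 (h.k2_le i) (h.ph_le j)
    · rw [h3] at hv
      exact hv.swap.star3 h1 (h.k2_le i) (h.ph_le j)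
  · rcases le_or_gt ‖cos (z j)‖ ‖cos (z i)‖ with h3 | h3
    · exact Or.inl h3
    · right
      have := h.two_ph_add_lt h1 h2 hij (h.good_of_lt hij h3) h3.le
      linarith [hq.2.2]
  · right
    have h3 : k = j := by
      rcases h2 with ⟨h4, h5⟩ | ⟨h4, h5⟩
      · rcases hij with h6 | h6
        · rw [h4] at h6; exact Option.some.inj h6
        · rw [h5] at h6; simp at h6
      · rcases hij with h6 | h6
        · rw [h4] at h6; simp at h6
        · rw [h5] at h6; exact Option.some.inj h6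
    subst h3
    have h4 := h.ph_end h1 h2
    rw [be_one] at h4
    linarith [hq.2.2]

/-- (K4), `|κ_i| ≤ |κ_j|`. -/
theorem k4_aux (h : Zr a nl nr 1 z) {i j : ι} (hij : nl i = some j ∨ nr i = some j)
    (hi : Good a nl nr i) (hj : Good a nl nr j) (hle : ‖cos (z i)‖ ≤ ‖cos (z j)‖) {T : ℂ}
    (hT : T ^ 2 = 1 / cos (z i) ^ 2 + 1 / (starRingEnd ℂ) (cos (z j)) ^ 2 - 1) (hT0 : 0 < T.re) :
    0 < (T * (1 / cos (z i) ^ 2 + 1 / (starRingEnd ℂ) (cos (z j)) ^ 2) *
      (cos (z i) ^ 2 + (starRingEnd ℂ) (cos (z j)) ^ 2)).re := by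
  have hki := norm_cos_sq (z i)
  have hkj := norm_cos_sq (z j)
  have hkk : k2 (z i).re (z i).im ≤ k2 (z j).re (z j).im := by
    rw [← hki, ← hkj]
    exact pow_le_pow_left₀ (norm_nonneg _) hle 2
  have hY : (starRingEnd ℂ) (cos (z j)) ^ 2 =
      ((k2 (z j).re (z j).im : ℝ) : ℂ) * exp ((2 * ph (z j).re (z j).im : ℝ) * I) := by
    conv_lhs => rw [cos_polar (h.pos j).1 (h.pos j).2.1]
    rw [map_mul, conj_ofReal, ← exp_conj, map_mul, map_neg, conj_ofReal, conj_I, mul_pow,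
      ← Complex.exp_nat_mul, ← hkj]
    push_cast
    congr 2
    ring
  have htan : 1 / (starRingEnd ℂ) (cos (z j)) ^ 2 - 1 =
      ((tt (z j).re (z j).im ^ 2 : ℝ) : ℂ) * exp (-(2 * al (z j).re (z j).im : ℝ) * I) := by
    have e1 : 1 / cos (z j) ^ 2 - 1 = tan (z j) ^ 2 := by
      have := h.cos_ne j
      rw [tan_eq_sin_div_cos]
      field_simp
      linear_combination -(sin_sq_add_cos_sq (z j))
    have e2 := congrArg (starRingEnd ℂ) e1
    rw [map_sub, map_div₀, map_one, map_pow, map_pow] at e2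
    rw [e2]
    conv_lhs => rw [tan_polar (h.pos j).1 (h.pos j).2.1]
    rw [map_mul, conj_ofReal, ← exp_conj, map_mul, conj_ofReal, conj_I, mul_pow,
      ← Complex.exp_nat_mul]
    push_cast
    congr 2
    ring
  have hX : cos (z i) ^ 2 = ((k2 (z i).re (z i).im : ℝ) : ℂ) *
      exp (-(2 * ph (z i).re (z i).im : ℝ) * I) := by
    conv_lhs => rw [h.cos_sq_polar i, norm_pow, hki]
  have hG : 0 < 2 * k2 (z i).re (z i).im * k2 (z j).re (z j).im +
      (k2 (z j).re (z j).im ^ 2 + k2 (z i).re (z i).im ^ 2) *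
        Real.cos (2 * ph (z i).re (z i).im + 2 * ph (z j).re (z j).im) -
      Real.tan (ph (z i).re (z i).im) * (k2 (z j).re (z j).im ^ 2 - k2 (z i).re (z i).im ^ 2) *
        Real.sin (2 * ph (z i).re (z i).im + 2 * ph (z j).re (z j).im) := by
    rcases h.types i with h1 | ⟨h1, h2⟩ | ⟨h1, k, h2⟩
    · have h3 : ph (z i).re (z i).im ≤ 9 / 20 ∧
          (ph (z i).re (z i).im ≤ 1 / 3 ∨ 21 / 50 ≤ k2 (z i).re (z i).im) :=
        (h.vx i).phi3' h1 (h.k2_le i)
      have h4 : k2 (z j).re (z j).im ≤ 2 * Real.cos (2 * ph (z j).re (z j).im) := by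
        have h5 := h.s2_le j hj
        rw [← norm_one_sub, ← abs_of_nonneg (norm_nonneg (1 - cos (z j) ^ 2)), ← sq_le_one_iff_abs_le_one,
          ← Complex.normSq_eq_norm_sq, Complex.normSq_apply, sub_re, sub_im, one_re, one_im,
          h.cos_sq_polar j, norm_pow, hkj, ← ofReal_neg, re_ofReal_mul, im_ofReal_mul,
          exp_ofReal_mul_I_re, exp_ofReal_mul_I_im, Real.cos_neg, Real.sin_neg] at h5
        have h6 := Real.sin_sq_add_cos_sq (2 * ph (z j).re (z j).im)
        have h7 := h.k2pos j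
        have h8 : k2 (z j).re (z j).im * (k2 (z j).re (z j).im -
            2 * Real.cos (2 * ph (z j).re (z j).im)) ≤ 0 := by
          linear_combination h5 + (k2 (z j).re (z j).im) ^ 2 * (-h6)
        by_contra hc
        push Not at hc
        have := mul_pos h7 (sub_pos.2 hc)
        linarith
      exact k4_three (h.phpos i).le h3.1 (h.k2_ge i) h3.2 hkk (h.k2_le j) (h.phpos j).le
        (h.ph_le j) h4
    · obtain ⟨k, hk⟩ := h.quartic_first h1 h2 hij
      have h3 := k4_two hk (h.cos_sq_polar i) (pow_ne_zero 2 (h.cos_ne i)) (h.phpos i).le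
        (h.ph_le i) (h.ro_pos j) (h.ro_le_one _) (h.ro_ge k) (h.be_nonneg _)
        (by rw [be_one]; exact h.ph_le' j hj) (h.be_nonneg _) (h.be_le _)
        (by
          rw [norm_pow, ro_one]
          exact pow_le_pow_left₀ (norm_nonneg _) hle 2)
      rw [norm_pow, ro_one, be_one, hki, hkj] at h3
      exact h3
    · exfalso
      rcases hi with hi | ⟨j', k', h3, h4⟩
      · linarith
      · rcases h2 with ⟨h5, h6⟩ | ⟨h5, h6⟩
        · rw [h6] at h4; simp at h4
        · rw [h5] at h3; simp at h3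
  exact k4_geo hX hY (h.k2pos i) hkk (h.phpos i) (h.ph_le i) (h.phpos j) (h.ph_le j)
    (pow_pos (h.ttpos j) 2) htan (h.alpos j) (h.al_ph_lt (h.N.symm i j hij)) hT hT0 hG

/-- (K4). -/
theorem k4 (h : Zr a nl nr 1 z) {i j : ι} (hij : nl i = some j ∨ nr i = some j)
    (hi : Good a nl nr i) (hj : Good a nl nr j) {T : ℂ}
    (hT : T ^ 2 = 1 / cos (z i) ^ 2 + 1 / (starRingEnd ℂ) (cos (z j)) ^ 2 - 1) (hT0 : 0 < T.re) :
    0 < (T * (1 / cos (z i) ^ 2 + 1 / (starRingEnd ℂ) (cos (z j)) ^ 2) *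
      (cos (z i) ^ 2 + (starRingEnd ℂ) (cos (z j)) ^ 2)).re := by
  rcases le_total ‖cos (z i)‖ ‖cos (z j)‖ with hle | hle
  · exact h.k4_aux hij hi hj hle hT hT0
  · have h1 := h.k4_aux (h.N.symm i j hij) hj hi hle (T := (starRingEnd ℂ) T) (by
      rw [← map_pow, hT, map_sub, map_add, map_div₀, map_div₀, map_one, map_pow, map_pow,
        Complex.conj_conj]
      ring) (by rwa [conj_re])
    have h2 : (starRingEnd ℂ) T * (1 / cos (z j) ^ 2 + 1 / (starRingEnd ℂ) (cos (z i)) ^ 2) *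
        (cos (z j) ^ 2 + (starRingEnd ℂ) (cos (z i)) ^ 2) =
        (starRingEnd ℂ) (T * (1 / cos (z i) ^ 2 + 1 / (starRingEnd ℂ) (cos (z j)) ^ 2) *
      (cos (z i) ^ 2 + (starRingEnd ℂ) (cos (z j)) ^ 2)) := by
      rw [map_mul, map_mul, map_add, map_add, map_div₀, map_div₀, map_one, map_pow, map_pow,
        Complex.conj_conj]
      ring
    rw [h2, conj_re] at h1
    exact h1

end Zr

end Pool.Agent.S3.E
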