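import Pool.Agent.S3.E.Ash

/-!
# Stage 3, block E: the derivative of the system

For `w = b tan z`: `d (ash w) = dw/cosh q`, `dw = w (db/b + dz/(sin z cos z))`, and `sinh q = w`, so
`d (ash w) = tanh q (db/b + dz/(sin z cos z))`; `b_j = exp (τ log (conj κ_j))`,
`db_j/b_j = τ conj (d κ_j/κ_j) = τ conj (- tan z_j dz_j)` for fixed `τ`.
-/

namespace Pool.Agent.S3.E

open Complex

variable {ι : Type*}

/-- `d b/b` in the direction `v`. -/
noncomputable def lam (τ : ℝ) (z v : ι → ℂ) (o : Option ι) : ℂ :=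
  match o with
  | none => 0
  | some j => (τ : ℂ) * (starRingEnd ℂ) (-(tan (z j) * v j))

private theorem der_comp {E : Type*} [NormedAddCommGroup E] [NormedSpace ℝ E] {g : E → ℂ}
    {g' : E →L[ℝ] ℂ} {x : E} (hg : HasStrictFDerivAt g g' x) {f : ℂ → ℂ} {f' : ℂ}
    (hf : HasStrictDerivAt f f' (g x)) : HasStrictFDerivAt (fun y => f (g y)) (f' • g') x := by
  have h := (hf.complexToReal_fderiv).comp x hg
  refine h.congr_fderiv ?_
  ext v
  simp

private theorem der_slot [Fintype ι] {τ : ℝ} {z : ι → ℂ} (i : ι) (o : Option ι)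
    (hc : ∀ i, 0 < (cos (z i)).re) (hs : ∀ i, sin (z i) ≠ 0)
    (hl : o ≠ none → 0 < (bo τ z o * tan (z i)).re ∧ 0 < (bo τ z o * tan (z i)).im) :
    ∃ L : (ℝ × (ι → ℂ)) →L[ℝ] ℂ,
      HasStrictFDerivAt (fun x : ℝ × (ι → ℂ) => ash (bo x.1 x.2 o * tan (x.2 i))) L (τ, z) ∧
      ∀ v, L (0, v) = tanh (ash (bo τ z o * tan (z i))) *
        (v i / (sin (z i) * cos (z i)) + lam τ z v o) := by
  cases o with
  | none =>
    refine ⟨0, ?_, ?_⟩
    · have : (fun x : ℝ × (ι → ℂ) => ash (bo x.1 x.2 none * tan (x.2 i))) = fun _ => ash 0 := by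
        funext x
        simp [bo]
      rw [this]
      exact hasStrictFDerivAt_const _ _
    · intro v
      simp [bo, ash_zero]
  | some j =>
    obtain ⟨h1, h2⟩ := hl (by simp)
    have hci : cos (z i) ≠ 0 := by
      intro h0
      have := hc i
      rw [h0] at this
      simp at this
    have hcj : cos (z j) ≠ 0 := by
      intro h0
      have := hc j
      rw [h0] at this
      simp at this
    have hτ : HasStrictFDerivAt (fun x : ℝ × (ι → ℂ) => (x.1 : ℂ))
        (ofRealCLM.comp (ContinuousLinearMap.fst ℝ ℝ (ι → ℂ))) (τ, z) :=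
      ofRealCLM.hasStrictFDerivAt.comp (τ, z) hasStrictFDerivAt_fst
    have hz : ∀ k : ι, HasStrictFDerivAt (fun x : ℝ × (ι → ℂ) => x.2 k)
        ((ContinuousLinearMap.proj k).comp (ContinuousLinearMap.snd ℝ ℝ (ι → ℂ))) (τ, z) :=
      fun k => (ContinuousLinearMap.hasStrictFDerivAt
        ((ContinuousLinearMap.proj (R := ℝ) (φ := fun _ : ι => ℂ) k).comp
          (ContinuousLinearMap.snd ℝ ℝ (ι → ℂ))))
    have hcos := der_comp (hz j) (hasStrictDerivAt_cos (z j))
    have hconj := (conjCLE.toContinuousLinearMap.hasStrictFDerivAt).comp (τ, z) hcos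
    have hsl : (starRingEnd ℂ) (cos (z j)) ∈ slitPlane := by
      left
      simpa using hc j
    have hlog := der_comp hconj (hasStrictDerivAt_log (x := (starRingEnd ℂ) (cos (z j))) hsl)
    have hprod := hτ.mul hlog
    have hexp := der_comp hprod (hasStrictDerivAt_exp _)
    have htan := der_comp (hz i) (hasStrictDerivAt_tan hci)
    have hw := hexp.mul htan
    have hash := der_comp hw (hasStrictDerivAt_ash (w := bo τ z (some j) * tan (z i)) h1 h2)
    refine ⟨_, hash, ?_⟩
    intro v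
    have hB : bo τ z (some j) = exp ((τ : ℂ) * log ((starRingEnd ℂ) (cos (z j)))) := rfl
    have hcj' : (starRingEnd ℂ) (cos (z j)) ≠ 0 := by
      intro h0
      exact hcj ((map_eq_zero (starRingEnd ℂ)).1 h0)
    have hth : tanh (ash (bo τ z (some j) * tan (z i))) =
        bo τ z (some j) * tan (z i) / cosh (ash (bo τ z (some j) * tan (z i))) := by
      rw [tanh_eq_sinh_div_cosh, sinh_ash h1.le h2.le]
    rw [hth]
    simp only [lam, map_neg, map_mul]
    simp only [_root_.smul_apply, _root_.add_apply,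
      ContinuousLinearMap.comp_apply, ContinuousLinearMap.coe_fst', ContinuousLinearMap.coe_snd',
      ContinuousLinearMap.proj_apply, smul_eq_mul, ofRealCLM_apply, ofReal_zero, mul_zero,
      add_zero]
    have hE : cexp (((fun x : ℝ × (ι → ℂ) => (x.1 : ℂ)) *
        fun y : ℝ × (ι → ℂ) => log ((conjCLE : ℂ →L[ℝ] ℂ) (cos (y.2 j)))) (τ, z)) =
        bo τ z (some j) := rfl
    have hV : (conjCLE : ℂ →L[ℝ] ℂ) (-sin (z j) * v j) =
        -((starRingEnd ℂ) (sin (z j)) * (starRingEnd ℂ) (v j)) := by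
      simp
    rw [hE, hV, tan_eq_sin_div_cos (z j), map_div₀]
    generalize hq : cosh (ash (bo τ z (some j) * tan (z i))) = q
    rw [tan_eq_sin_div_cos (z i)]
    generalize (starRingEnd ℂ) (cos (z j)) = cj at hcj' ⊢
    have hsi := hs i
    field_simp

theorem GG_deriv [Fintype ι] (a : ι → ℝ) (nl nr : ι → Option ι) {τ : ℝ} {z : ι → ℂ}
    (hc : ∀ i, 0 < (cos (z i)).re) (hs : ∀ i, sin (z i) ≠ 0)
    (hl : ∀ i, nl i ≠ none → 0 < (bo τ z (nl i) * tan (z i)).re ∧
      0 < (bo τ z (nl i) * tan (z i)).im)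
    (hr : ∀ i, nr i ≠ none → 0 < (bo τ z (nr i) * tan (z i)).re ∧
      0 < (bo τ z (nr i) * tan (z i)).im) :
    ∃ F' : (ℝ × (ι → ℂ)) →L[ℝ] (ι → ℂ),
      HasStrictFDerivAt (fun x : ℝ × (ι → ℂ) => GG a nl nr x.1 x.2) F' (τ, z) ∧
      ∀ v i, F' (0, v) i = (a i : ℂ) * v i - I *
        (tanh (ash (bo τ z (nl i) * tan (z i))) * (v i / (sin (z i) * cos (z i)) + lam τ z v (nl i)) +
          tanh (ash (bo τ z (nr i) * tan (z i))) *
            (v i / (sin (z i) * cos (z i)) + lam τ z v (nr i))) := by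
  choose L hL hLv using fun i => der_slot i (nl i) hc hs (hl i)
  choose R hR hRv using fun i => der_slot i (nr i) hc hs (hr i)
  have hz : ∀ k : ι, HasStrictFDerivAt (fun x : ℝ × (ι → ℂ) => x.2 k)
      ((ContinuousLinearMap.proj k).comp (ContinuousLinearMap.snd ℝ ℝ (ι → ℂ))) (τ, z) :=
    fun k => (ContinuousLinearMap.hasStrictFDerivAt
      ((ContinuousLinearMap.proj (R := ℝ) (φ := fun _ : ι => ℂ) k).comp
        (ContinuousLinearMap.snd ℝ ℝ (ι → ℂ))))
  have hG : ∀ i : ι, HasStrictFDerivAt (fun x : ℝ × (ι → ℂ) => GG a nl nr x.1 x.2 i)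
      ((a i : ℂ) • ((ContinuousLinearMap.proj i).comp (ContinuousLinearMap.snd ℝ ℝ (ι → ℂ))) -
        I • (L i + R i)) (τ, z) := by
    intro i
    have h1 := (hz i).const_smul (a i : ℂ)
    have h2 := ((hL i).add (hR i)).const_smul I
    have h3 := (h1.sub_const (Real.pi : ℂ)).sub h2
    exact h3
  refine ⟨ContinuousLinearMap.pi fun i => _, hasStrictFDerivAt_pi.2 hG, ?_⟩
  intro v i
  simp only [ContinuousLinearMap.pi_apply, _root_.sub_apply, _root_.smul_apply, _root_.add_apply,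
    ContinuousLinearMap.comp_apply, ContinuousLinearMap.coe_snd', ContinuousLinearMap.proj_apply,
    smul_eq_mul, hLv i v, hRv i v]

end Pool.Agent.S3.E
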