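import Pool.Agent.S3.E.Top

/-!
# Stage 3, block E: from a zero of the system to the vertex equations

Let `(τ, z) ∈ KK`, `GG = 0`.
`R < π/2`: otherwise `κ = - i sinh I`, `Re κ = 0`, against `re_cos_pos`.
`I > 0`: if `I = 0` then `tan z = tan R ≥ 0`, `0 = a I = p₁ + p₂` gives `p_j = 0`, `Re w_j = 0`; for a
slot with a neighbour `Re b > 0`, so `tan R = 0`, `R = 0`, `w = 0`, `r_j = 0`, `a R = π`: contradiction.
`R > 0`: if `R = 0`, `I > 0`: `tan z = i tanh I`, `Re (b i tanh I) = - Im b tanh I ≥ 0` and `Im b ≥ 0`,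
so `Im b = 0`; `0 = a R = π - r₁ - r₂` gives `r₁ = r₂ = π/2`, `cosh p_j = |b_j| tanh I`,
`|b_j| ≤ 1.1`, so `cosh p_j ≤ 1.1`, `p_j ≤ 0.45`, `2I ≤ a I ≤ 0.9`, `1.1 tanh 0.45 < 1`: contradiction.
Then `w_j = ρ |t| e^{i(α + β)}` with `0 ≤ α + β < π` and `Re w_j ≥ 0`, so `α + β ≤ π/2`.
-/

namespace Pool.Agent.S3.E

open Complex

variable {ι : Type*}

/-- Real and imaginary part and norm of `(conj κ)^τ`. -/
private theorem Sys_bb {τ : ℝ} {κ : ℂ} (h0 : 0 ≤ τ) (h1 : τ ≤ 1) (hr : 0 < κ.re) (hi : κ.im ≤ 0)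
    (hn : ‖κ‖ ≤ 1.1) : 0 < (bb τ κ).re ∧ 0 ≤ (bb τ κ).im ∧ (bb τ κ).im ≤ 1.1 ∧ ‖bb τ κ‖ ≤ 1.1 := by
  set c : ℂ := (starRingEnd ℂ) κ with hc
  have hcr : 0 < c.re := by rw [hc, Complex.conj_re]; exact hr
  have hci : 0 ≤ c.im := by rw [hc, Complex.conj_im]; linarith
  have hcn : ‖c‖ ≤ 1.1 := by rw [hc, RCLike.norm_conj]; exact hn
  have hc0 : c ≠ 0 := by
    intro h
    rw [h] at hcr
    simp at hcr
  have hcp : 0 < ‖c‖ := norm_pos_iff.mpr hc0
  have ha0 : 0 ≤ arg c := Complex.arg_nonneg_iff.mpr hci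
  have ha1 : |arg c| < Real.pi / 2 := Complex.abs_arg_lt_pi_div_two_iff.mpr (Or.inl hcr)
  have ha2 : arg c < Real.pi / 2 := lt_of_le_of_lt (le_abs_self _) ha1
  have hb : bb τ κ = exp ((τ : ℂ) * log c) := rfl
  have hxr : ((τ : ℂ) * log c).re = τ * Real.log ‖c‖ := by
    rw [Complex.re_ofReal_mul, Complex.log_re]
  have hxi : ((τ : ℂ) * log c).im = τ * arg c := by
    rw [Complex.im_ofReal_mul, Complex.log_im]
  have ht0 : 0 ≤ τ * arg c := mul_nonneg h0 ha0
  have ht1 : τ * arg c < Real.pi / 2 := by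
    calc τ * arg c ≤ 1 * arg c := mul_le_mul_of_nonneg_right h1 ha0
      _ = arg c := one_mul _
      _ < Real.pi / 2 := ha2
  have hnorm : ‖bb τ κ‖ ≤ 1.1 := by
    rw [hb, Complex.norm_exp, hxr]
    have h2 : Real.exp (τ * Real.log ‖c‖) ≤ Real.exp (Real.log 1.1) := by
      apply Real.exp_le_exp.mpr
      have h3 : Real.log ‖c‖ ≤ Real.log 1.1 := Real.log_le_log hcp hcn
      have h4 : 0 ≤ Real.log 1.1 := Real.log_nonneg (by norm_num)
      calc τ * Real.log ‖c‖ ≤ τ * Real.log 1.1 := mul_le_mul_of_nonneg_left h3 h0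
        _ ≤ 1 * Real.log 1.1 := mul_le_mul_of_nonneg_right h1 h4
        _ = Real.log 1.1 := one_mul _
    rwa [Real.exp_log (by norm_num)] at h2
  refine ⟨?_, ?_, ?_, hnorm⟩
  · rw [hb, Complex.exp_re, hxi]
    apply mul_pos (Real.exp_pos _)
    apply Real.cos_pos_of_mem_Ioo
    constructor
    · linarith [Real.pi_pos]
    · exact ht1
  · rw [hb, Complex.exp_im, hxi]
    apply mul_nonneg (Real.exp_pos _).le
    apply Real.sin_nonneg_of_nonneg_of_le_pi ht0
    linarith [Real.pi_pos]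
  · exact le_trans (Complex.im_le_norm _) hnorm

/-- The two real equations of a zero. -/
private theorem Sys_eqs {a : ι → ℝ} {nl nr : ι → Option ι} {τ : ℝ} {z : ι → ℂ}
    (h0 : GG a nl nr τ z = 0) (i : ι) :
    a i * (z i).re + RR (bo τ z (nl i) * tan (z i)) + RR (bo τ z (nr i) * tan (z i)) = Real.pi ∧
      a i * (z i).im = PP (bo τ z (nl i) * tan (z i)) + PP (bo τ z (nr i) * tan (z i)) := by
  have h := congrFun h0 i
  have h1 : (a i : ℂ) * z i - (Real.pi : ℂ) -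
    Complex.I * (ash (bo τ z (nl i) * Complex.tan (z i)) +
      ash (bo τ z (nr i) * Complex.tan (z i))) = 0 := h
  have hre := congrArg Complex.re h1
  have him := congrArg Complex.im h1
  simp only [Complex.sub_re, Complex.sub_im,
    Complex.ofReal_re, Complex.ofReal_im, Complex.mul_re, Complex.mul_im, Complex.I_re,
    Complex.I_im, Complex.add_re, Complex.add_im, ash_re, ash_im, Complex.zero_re,
    Complex.zero_im] at hre him
  constructor
  · linarith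
  · linarith

private theorem Sys_cos {z : ℂ} : (cos z).re = Real.cos z.re * Real.cosh z.im ∧
    (cos z).im = -(Real.sin z.re * Real.sinh z.im) := by
  have h : cos z = cos ((z.re : ℂ) + (z.im : ℂ) * I) := by rw [Complex.re_add_im]
  rw [h, Complex.cos_add_mul_I]
  constructor
  · simp [← Complex.ofReal_cos, ← Complex.ofReal_cosh, ← Complex.ofReal_sin, ← Complex.ofReal_sinh]
  · simp [← Complex.ofReal_cos, ← Complex.ofReal_cosh, ← Complex.ofReal_sin, ← Complex.ofReal_sinh]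

/-- Membership in the region, unfolded. -/
private theorem Sys_mem {nl nr : ι → Option ι} {τ : ℝ} {z : ι → ℂ}
    (hx : ((τ, z) : ℝ × (ι → ℂ)) ∈ KK nl nr) : (0 ≤ τ ∧ τ ≤ 1) ∧ ∀ i,
    (0 ≤ (z i).re ∧ (z i).re ≤ Real.pi / 2 ∧ 0 ≤ (z i).im ∧ (z i).im ≤ 2) ∧
    (0.49 ≤ ‖Complex.cos (z i)‖ ∧ ‖Complex.cos (z i)‖ ≤ 1.1 ∧
      -(Complex.cos (z i)).im ≤ 1.04 * (Complex.cos (z i)).re) ∧
    (0 ≤ (bo τ z (nl i) * Complex.tan (z i)).re ∧
      0 ≤ (bo τ z (nr i) * Complex.tan (z i)).re) := hx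

private theorem Sys_bo {nl nr : ι → Option ι} {τ : ℝ} {z : ι → ℂ}
    (hx : ((τ, z) : ℝ × (ι → ℂ)) ∈ KK nl nr) (j : ι) :
    0 < (bo τ z (some j)).re ∧ 0 ≤ (bo τ z (some j)).im ∧ ‖bo τ z (some j)‖ ≤ 1.1 := by
  obtain ⟨⟨hτ0, hτ1⟩, H⟩ := Sys_mem hx
  obtain ⟨⟨h1, h2, h3, -⟩, ⟨h4, h5, h6⟩, -⟩ := H j
  have hre := re_cos_pos h1 h2 h3 h4 h6
  have him : (cos (z j)).im ≤ 0 := by
    rw [Sys_cos.2]
    have hs : 0 ≤ Real.sin (z j).re :=
      Real.sin_nonneg_of_nonneg_of_le_pi h1 (by linarith [Real.pi_pos])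
    have hs2 : 0 ≤ Real.sinh (z j).im := Real.sinh_nonneg_iff.mpr h3
    have := mul_nonneg hs hs2
    linarith
  have h := Sys_bb hτ0 hτ1 hre him h5
  exact ⟨h.1, h.2.1, h.2.2.2⟩

/-- `R < π/2`. -/
private theorem Sys_R {nl nr : ι → Option ι} {τ : ℝ} {z : ι → ℂ}
    (hx : ((τ, z) : ℝ × (ι → ℂ)) ∈ KK nl nr) (i : ι) : (z i).re < Real.pi / 2 := by
  obtain ⟨-, H⟩ := Sys_mem hx
  obtain ⟨⟨h1, h2, h3, -⟩, ⟨h4, h5, h6⟩, -⟩ := H i
  have hre := re_cos_pos h1 h2 h3 h4 h6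
  rcases lt_or_eq_of_le h2 with h | h
  · exact h
  · rw [Sys_cos.1, h, Real.cos_pi_div_two, zero_mul] at hre
    exact absurd hre (lt_irrefl _)

/-- `I > 0`. -/
private theorem Sys_I {a : ι → ℝ} {nl nr : ι → Option ι} {τ : ℝ} {z : ι → ℂ} (hN : Nbr nl nr)
    (ha : ∀ i, 2 ≤ a i) (hx : ((τ, z) : ℝ × (ι → ℂ)) ∈ KK nl nr) (h0 : GG a nl nr τ z = 0) (i : ι) :
    0 < (z i).im := by
  obtain ⟨-, H⟩ := Sys_mem hx
  obtain ⟨⟨h1, h2, h3, -⟩, -, ⟨h7, h8⟩⟩ := H i
  have hR := Sys_R hx i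
  obtain ⟨e1, e2⟩ := Sys_eqs h0 i
  by_contra hI
  have hI0 : (z i).im = 0 := le_antisymm (not_lt.mp hI) h3
  have hP1 := PP_nonneg (bo τ z (nl i) * tan (z i))
  have hP2 := PP_nonneg (bo τ z (nr i) * tan (z i))
  rw [hI0, mul_zero] at e2
  have hz : z i = ((z i).re : ℂ) := by
    apply Complex.ext
    · simp
    · simp [hI0]
  have htan : tan (z i) = ((Real.tan (z i).re : ℝ) : ℂ) := by
    rw [hz]
    simp
  have ht0 : 0 ≤ Real.tan (z i).re := Real.tan_nonneg_of_nonneg_of_le_pi_div_two h1 h2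
  -- a slot with a neighbour gives `tan R = 0`
  have key : ∀ o : Option ι, o ≠ none → 0 ≤ (bo τ z o * tan (z i)).re →
      PP (bo τ z o * tan (z i)) = 0 → Real.tan (z i).re = 0 := by
    intro o ho hre hP
    obtain ⟨j, rfl⟩ := Option.ne_none_iff_exists'.mp ho
    obtain ⟨hb, -, -⟩ := Sys_bo hx j
    by_contra hne
    have htp : 0 < Real.tan (z i).re := lt_of_le_of_ne ht0 (Ne.symm hne)
    have : 0 < (bo τ z (some j) * tan (z i)).re := by
      rw [htan, Complex.re_mul_ofReal]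
      exact mul_pos hb htp
    have := PP_pos this
    linarith
  have ht : Real.tan (z i).re = 0 := by
    rcases hN.ne i with h | h
    · exact key _ h h7 (by linarith)
    · exact key _ h h8 (by linarith)
  have hRR : ∀ o : Option ι, RR (bo τ z o * tan (z i)) = 0 := by
    intro o
    rw [htan, ht, Complex.ofReal_zero, mul_zero, ← ash_im, ash_zero, Complex.zero_im]
  have hR0 : (z i).re = 0 := by
    by_contra hne
    have hp : 0 < (z i).re := lt_of_le_of_ne h1 (Ne.symm hne)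
    have := Real.tan_pos_of_pos_of_lt_pi_div_two hp hR
    linarith
  rw [hRR, hRR, hR0] at e1
  linarith [Real.pi_pos]

/-- `R > 0`. -/
private theorem Sys_R0 {a : ι → ℝ} {nl nr : ι → Option ι} {τ : ℝ} {z : ι → ℂ} (hN : Nbr nl nr)
    (ha : ∀ i, 2 ≤ a i) (hx : ((τ, z) : ℝ × (ι → ℂ)) ∈ KK nl nr) (h0 : GG a nl nr τ z = 0) (i : ι) :
    0 < (z i).re := by
  have hI := Sys_I hN ha hx h0 i
  obtain ⟨-, H⟩ := Sys_mem hx
  obtain ⟨⟨h1, h2, h3, -⟩, -, ⟨h7, h8⟩⟩ := H i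
  obtain ⟨e1, e2⟩ := Sys_eqs h0 i
  by_contra hR
  have hR0 : (z i).re = 0 := le_antisymm (not_lt.mp hR) h1
  rw [hR0, mul_zero] at e1
  have hz : z i = ((z i).im : ℂ) * I := by
    apply Complex.ext
    · simp [hR0]
    · simp
  have htan : tan (z i) = ((Real.tanh (z i).im : ℝ) : ℂ) * I := by
    rw [hz, Complex.tan_mul_I]
    simp
  have hRl1 := RR_le (bo τ z (nl i) * tan (z i))
  have hRl2 := RR_le (bo τ z (nr i) * tan (z i))
  have hr1 : RR (bo τ z (nl i) * tan (z i)) = Real.pi / 2 := by linarith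
  have hr2 : RR (bo τ z (nr i) * tan (z i)) = Real.pi / 2 := by linarith
  have hsh : 0 < Real.sinh (z i).im := Real.sinh_pos_iff.mpr hI
  have hch : 1 ≤ Real.cosh (z i).im := Real.one_le_cosh _
  have hth : Real.tanh (z i).im = Real.sinh (z i).im / Real.cosh (z i).im :=
    Real.tanh_eq_sinh_div_cosh _
  have hth0 : 0 < Real.tanh (z i).im := by
    rw [hth]
    positivity
  have hth1 : Real.tanh (z i).im < 1 := Real.tanh_lt_one _
  have hths : Real.tanh (z i).im ≤ Real.sinh (z i).im := by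
    rw [hth]
    exact div_le_self hsh.le hch
  -- `cosh p ≤ 1.1 tanh I`
  have key : ∀ o : Option ι, RR (bo τ z o * tan (z i)) = Real.pi / 2 →
      Real.cosh (PP (bo τ z o * tan (z i))) ≤ 1.1 * Real.tanh (z i).im := by
    intro o ho
    have him : (bo τ z o * tan (z i)).im = (bo τ z o).re * Real.tanh (z i).im := by
      rw [htan, ← mul_assoc, Complex.mul_I_im, Complex.re_mul_ofReal]
    cases o with
    | none =>
      exfalso
      have hb0 : bo τ z none = 0 := rfl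
      rw [hb0, zero_mul, ← ash_im, ash_zero, Complex.zero_im] at ho
      linarith [Real.pi_pos]
    | some j =>
      obtain ⟨hb, hb', hbn⟩ := Sys_bo hx j
      have him0 : 0 ≤ (bo τ z (some j) * tan (z i)).im := by
        rw [him]
        positivity
      have h := cosh_sin_eq him0
      rw [ho, Real.sin_pi_div_two, mul_one, him] at h
      rw [h]
      apply mul_le_mul_of_nonneg_right _ hth0.le
      exact le_trans (Complex.re_le_norm _) hbn
  have k1 := key _ hr1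
  have k2 := key _ hr2
  have hP1 := PP_nonneg (bo τ z (nl i) * tan (z i))
  have hP2 := PP_nonneg (bo τ z (nr i) * tan (z i))
  have fin : ∀ p : ℝ, (z i).im ≤ p → Real.cosh p ≤ 1.1 * Real.tanh (z i).im → False := by
    intro p hp hc
    have hsp : Real.sinh (z i).im ≤ Real.sinh p := Real.sinh_le_sinh.mpr hp
    have hc1 : 1 ≤ Real.cosh p := Real.one_le_cosh p
    have hid := Real.cosh_sq p
    nlinarith
  have h2I : 2 * (z i).im ≤ a i * (z i).im := mul_le_mul_of_nonneg_right (ha i) h3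
  rcases le_total (PP (bo τ z (nl i) * tan (z i))) (PP (bo τ z (nr i) * tan (z i))) with h | h
  · exact fin _ (by linarith) k2
  · exact fin _ (by linarith) k1

theorem zero_pos {a : ι → ℝ} {nl nr : ι → Option ι} {τ : ℝ} {z : ι → ℂ} (hN : Nbr nl nr)
    (ha : ∀ i, 2 ≤ a i) (hx : ((τ, z) : ℝ × (ι → ℂ)) ∈ KK nl nr) (h0 : GG a nl nr τ z = 0) :
    ∀ i, 0 < (z i).re ∧ (z i).re < Real.pi / 2 ∧ 0 < (z i).im :=
  fun i => ⟨Sys_R0 hN ha hx h0 i, Sys_R hx i, Sys_I hN ha hx h0 i⟩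

/-- One slot of a zero. -/
private theorem Sys_slot {τ : ℝ} {z : ι → ℂ} (hτ0 : 0 ≤ τ) (hτ1 : τ ≤ 1)
    (hp : ∀ i, 0 < (z i).re ∧ (z i).re < Real.pi / 2 ∧ 0 < (z i).im)
    (hcos : ∀ i, 0 < ‖cos (z i)‖) (i : ι) (o : Option ι)
    (hre : 0 ≤ (bo τ z o * tan (z i)).re) :
    Slot (z i).re (z i).im (ro τ z o) (be τ z o) (PP (bo τ z o * tan (z i)))
      (RR (bo τ z o * tan (z i))) := by
  obtain ⟨hR0, hR1, hI⟩ := hp i
  have hal0 := al_pos hR0 hR1 hI
  have hal1 := al_lt (z i).re (z i).im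
  have htt := tt_pos (R := (z i).re) (I := (z i).im) hR0 hR1
  have hro : 0 ≤ ro τ z o := by
    cases o with
    | none => exact le_rfl
    | some j => exact Real.rpow_nonneg (norm_nonneg _) _
  have hbe : 0 ≤ be τ z o ∧ be τ z o < Real.pi / 2 := by
    cases o with
    | none => exact ⟨le_rfl, by change (0 : ℝ) < _; linarith [Real.pi_pos]⟩
    | some j =>
      obtain ⟨hR0, hR1, hI⟩ := hp j
      have h1 := ph_pos hR0 hR1 hI
      have h2 := ph_lt (z j).re (z j).im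
      refine ⟨mul_nonneg hτ0 h1.le, ?_⟩
      calc τ * ph (z j).re (z j).im ≤ 1 * ph (z j).re (z j).im :=
            mul_le_mul_of_nonneg_right hτ1 h1.le
        _ = ph (z j).re (z j).im := one_mul _
        _ < Real.pi / 2 := h2
  have hpol : bo τ z o * tan (z i) =
      ((ro τ z o * tt (z i).re (z i).im : ℝ) : ℂ) *
        exp (((al (z i).re (z i).im + be τ z o : ℝ) : ℂ) * I) := by
    rw [bo_polar (fun j _ => ⟨(hp j).1, (hp j).2.1⟩), tan_polar hR0 hR1]
    push_cast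
    rw [add_mul, Complex.exp_add]
    ring
  have hwre : (bo τ z o * tan (z i)).re =
      ro τ z o * tt (z i).re (z i).im * Real.cos (al (z i).re (z i).im + be τ z o) := by
    rw [hpol, Complex.re_ofReal_mul, Complex.exp_ofReal_mul_I_re]
  have hwim : (bo τ z o * tan (z i)).im =
      ro τ z o * tt (z i).re (z i).im * Real.sin (al (z i).re (z i).im + be τ z o) := by
    rw [hpol, Complex.im_ofReal_mul, Complex.exp_ofReal_mul_I_im]
  have him : 0 ≤ (bo τ z o * tan (z i)).im := by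
    rw [hwim]
    apply mul_nonneg (mul_nonneg hro htt.le)
    apply Real.sin_nonneg_of_nonneg_of_le_pi
    · linarith [hbe.1]
    · linarith [hbe.2]
  refine ⟨PP_nonneg _, RR_nonneg _, RR_le _, hro, hbe.1, ?_, ?_, ?_⟩
  · cases o with
    | none =>
      change al (z i).re (z i).im + 0 ≤ _
      linarith
    | some j =>
      by_contra hlt
      have hlt' := not_le.mp hlt
      have hc : Real.cos (al (z i).re (z i).im + be τ z (some j)) < 0 := by
        apply Real.cos_neg_of_pi_div_two_lt_of_lt hlt'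
        linarith [hbe.2, Real.pi_pos]
      have hrop : 0 < ro τ z (some j) := Real.rpow_pos_of_pos (hcos j) _
      have := mul_neg_of_pos_of_neg (mul_pos hrop htt) hc
      rw [← hwre] at this
      linarith
  · rw [sinh_cos_eq hre, hwre]
  · rw [cosh_sin_eq him, hwim]

theorem zero_vx {a : ι → ℝ} {nl nr : ι → Option ι} {τ : ℝ} {z : ι → ℂ} (hN : Nbr nl nr)
    (ha : ∀ i, 2 ≤ a i) (hx : ((τ, z) : ℝ × (ι → ℂ)) ∈ KK nl nr) (h0 : GG a nl nr τ z = 0) (i : ι) :
    Vx (a i) (z i).re (z i).im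
      (ro τ z (nl i)) (be τ z (nl i)) (PP (bo τ z (nl i) * tan (z i))) (RR (bo τ z (nl i) * tan (z i)))
      (ro τ z (nr i)) (be τ z (nr i)) (PP (bo τ z (nr i) * tan (z i)))
      (RR (bo τ z (nr i) * tan (z i))) := by
  have hp := zero_pos hN ha hx h0
  obtain ⟨⟨hτ0, hτ1⟩, H⟩ := Sys_mem hx
  have hcos : ∀ i, 0 < ‖cos (z i)‖ := by
    intro i
    have := (H i).2.1.1
    have h49 : (0 : ℝ) < 0.49 := by norm_num
    linarith
  obtain ⟨e1, e2⟩ := Sys_eqs h0 i
  exact ⟨ha i, (hp i).1, (hp i).2.1, (hp i).2.2, Sys_slot hτ0 hτ1 hp hcos i _ (H i).2.2.1,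
    Sys_slot hτ0 hτ1 hp hcos i _ (H i).2.2.2, e1, e2⟩

end Pool.Agent.S3.E
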