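import Mathlib

/-!
# Stage 3, block E: the vertex with `a = 2` in closed form

`2 z = π + i (q₁ + q₂)`, `sinh q_j cos z = b_j sin z`.  Put `m = (q₁ + q₂)/2`, `d = (q₁ - q₂)/2`:
`κ = cos z = - i sinh m`, `σ = sin z = cosh m`;
sum and difference of the two equations: `2 sinh m cosh d κ = s σ`, `2 cosh m sinh d κ = (b₁ - b₂) σ`
(`s = b₁ + b₂`), i.e. `cosh d = s σ/(2 i κ²)`, `sinh d = (b₁ - b₂)/(2 κ)`; `cosh² - sinh² = 1` gives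
the quartic `4κ⁴ - 4 b₁ b₂ κ² + s² = 0`.  Moreover
`cosh q₁ = cosh (m + d) = i (b₁ - s/(2κ²))`, `cosh q₂ = cosh (m - d) = i (b₂ - s/(2κ²))`.
With `v = s/(2κ²)`: `b₁ b₂ = s (v² + 1)/(2 v)`, `σ² = 1 - s/(2v)`,
`(2κσ - i (T₁ + T₂)) κ C₁ C₂ = s (1/v - v) σ³`, `T₁ κ C₁ C₂ = i b₁ (b₂ - v) σ`, `C_j = cosh q_j`.
-/

namespace Pool.Agent.S3.E

open Complex

theorem two_half {z q₁ q₂ : ℂ} (h : 2 * z = (Real.pi : ℂ) + I * (q₁ + q₂)) :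
    cos z = -I * sinh ((q₁ + q₂) / 2) ∧ sin z = cosh ((q₁ + q₂) / 2) := by
  have hz : z = (q₁ + q₂) / 2 * I + (Real.pi : ℂ) / 2 := by linear_combination h / 2
  constructor
  · rw [hz, Complex.cos_add_pi_div_two, Complex.sin_mul_I]
    ring
  · rw [hz, Complex.sin_add_pi_div_two, Complex.cos_mul_I]

/-- The data in terms of the half difference. -/
private theorem two_aux {z q₁ q₂ b₁ b₂ : ℂ} (h : 2 * z = (Real.pi : ℂ) + I * (q₁ + q₂))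
    (h₁ : sinh q₁ * cos z = b₁ * sin z) (h₂ : sinh q₂ * cos z = b₂ * sin z) (hs : sin z ≠ 0) :
    ∃ C S : ℂ, C ^ 2 - S ^ 2 = 1 ∧ sin z ^ 2 + cos z ^ 2 = 1 ∧
      2 * I * cos z ^ 2 * C = (b₁ + b₂) * sin z ∧ 2 * cos z * S = b₁ - b₂ ∧
      cosh q₁ = sin z * C + I * cos z * S ∧ cosh q₂ = sin z * C - I * cos z * S := by
  obtain ⟨hc', hs'⟩ := two_half h
  have hI : I * I = -1 := I_mul_I
  have hsh : sinh ((q₁ + q₂) / 2) = I * cos z := by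
    rw [hc']
    linear_combination sinh ((q₁ + q₂) / 2) * hI
  have hch : cosh ((q₁ + q₂) / 2) = sin z := hs'.symm
  have e1 : q₁ = (q₁ + q₂) / 2 + (q₁ - q₂) / 2 := by ring
  have e2 : q₂ = (q₁ + q₂) / 2 - (q₁ - q₂) / 2 := by ring
  have s1 : sinh q₁ = I * cos z * cosh ((q₁ - q₂) / 2) + sin z * sinh ((q₁ - q₂) / 2) := by
    conv_lhs => rw [e1]
    rw [Complex.sinh_add, hsh, hch]
  have s2 : sinh q₂ = I * cos z * cosh ((q₁ - q₂) / 2) - sin z * sinh ((q₁ - q₂) / 2) := by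
    conv_lhs => rw [e2]
    rw [Complex.sinh_sub, hsh, hch]
  have c1 : cosh q₁ = sin z * cosh ((q₁ - q₂) / 2) + I * cos z * sinh ((q₁ - q₂) / 2) := by
    conv_lhs => rw [e1]
    rw [Complex.cosh_add, hsh, hch]
  have c2 : cosh q₂ = sin z * cosh ((q₁ - q₂) / 2) - I * cos z * sinh ((q₁ - q₂) / 2) := by
    conv_lhs => rw [e2]
    rw [Complex.cosh_sub, hsh, hch]
  refine ⟨cosh ((q₁ - q₂) / 2), sinh ((q₁ - q₂) / 2), Complex.cosh_sq_sub_sinh_sq _,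
    Complex.sin_sq_add_cos_sq z, ?_, ?_, c1, c2⟩
  · rw [s1] at h₁
    rw [s2] at h₂
    linear_combination h₁ + h₂
  · rw [s1] at h₁
    rw [s2] at h₂
    apply mul_right_cancel₀ hs
    linear_combination h₁ - h₂

theorem two_quartic {z q₁ q₂ b₁ b₂ : ℂ} (h : 2 * z = (Real.pi : ℂ) + I * (q₁ + q₂))
    (h₁ : sinh q₁ * cos z = b₁ * sin z) (h₂ : sinh q₂ * cos z = b₂ * sin z)
    (hc : cos z ≠ 0) (hs : sin z ≠ 0) :
    4 * cos z ^ 4 - 4 * (b₁ * b₂) * cos z ^ 2 + (b₁ + b₂) ^ 2 = 0 := by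
  obtain ⟨C, S, hCS, hsc, hC, hS, -, -⟩ := two_aux h h₁ h₂ hs
  have hI : I ^ 2 = -1 := I_sq
  have e1 : -(4 * cos z ^ 4 * C ^ 2) = (b₁ + b₂) ^ 2 * sin z ^ 2 := by
    linear_combination (2 * I * cos z ^ 2 * C + (b₁ + b₂) * sin z) * hC -
      4 * cos z ^ 4 * C ^ 2 * hI
  have e2 : 4 * cos z ^ 2 * S ^ 2 = (b₁ - b₂) ^ 2 := by
    linear_combination (2 * cos z * S + (b₁ - b₂)) * hS
  linear_combination (-4 * cos z ^ 4) * hCS - e1 - cos z ^ 2 * e2 - (b₁ + b₂) ^ 2 * hsc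

/-- One neighbour: `κ² = - (i/2) b`. -/
theorem two_end {z q b : ℂ} (h : 2 * z = (Real.pi : ℂ) + I * q) (h₁ : sinh q * cos z = b * sin z)
    (hc : cos z ≠ 0) (hs : sin z ≠ 0) : 2 * cos z ^ 2 = -I * b := by
  have h' : 2 * z = (Real.pi : ℂ) + I * (q + 0) := by rw [add_zero]; exact h
  have h₂ : sinh (0 : ℂ) * cos z = 0 * sin z := by rw [Complex.sinh_zero, zero_mul, zero_mul]
  obtain ⟨hc', hs'⟩ := two_half h'
  rw [add_zero] at hc' hs'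
  have hI : I ^ 2 = -1 := I_sq
  have hsh : sinh (q / 2) = I * cos z := by
    rw [hc']
    linear_combination sinh (q / 2) * hI
  have e1 : sinh q = 2 * (I * cos z) * sin z := by
    have e2 : q = 2 * (q / 2) := by ring
    conv_lhs => rw [e2]
    rw [Complex.sinh_two_mul, hsh, ← hs']
  rw [e1] at h₁
  have e3 : 2 * I * cos z ^ 2 = b := by
    apply mul_right_cancel₀ hs
    linear_combination h₁
  linear_combination (-I) * e3 + 2 * cos z ^ 2 * hI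

theorem two_cosh {z q₁ q₂ b₁ b₂ : ℂ} (h : 2 * z = (Real.pi : ℂ) + I * (q₁ + q₂))
    (h₁ : sinh q₁ * cos z = b₁ * sin z) (h₂ : sinh q₂ * cos z = b₂ * sin z)
    (hc : cos z ≠ 0) (hs : sin z ≠ 0) :
    2 * cos z ^ 2 * cosh q₁ = I * (2 * cos z ^ 2 * b₁ - (b₁ + b₂)) ∧
      2 * cos z ^ 2 * cosh q₂ = I * (2 * cos z ^ 2 * b₂ - (b₁ + b₂)) := by
  obtain ⟨C, S, hCS, hsc, hC, hS, c1, c2⟩ := two_aux h h₁ h₂ hs
  have hI : I ^ 2 = -1 := I_sq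
  have e1 : 2 * cos z ^ 2 * C = -I * ((b₁ + b₂) * sin z) := by
    linear_combination (-I) * hC + 2 * cos z ^ 2 * C * hI
  constructor
  · rw [c1]
    linear_combination sin z * e1 + I * cos z ^ 2 * hS - I * (b₁ + b₂) * hsc
  · rw [c2]
    linear_combination sin z * e1 - I * cos z ^ 2 * hS - I * (b₁ + b₂) * hsc

/-- Lower bound of `|κ|²` for an inner `2`: from `4 X (p - X) = s²`, `X = κ²`, `p = b₁ b₂` and
`|s|² ≥ 2 |p| (1 + cos (arg b₁ - arg b₂)) ≥ (2 + √2)|p|`: if `|X| ≤ |p|` then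
`4 |X| (2 |p|) ≥ 4 |X| |p - X| = |s|² ≥ 3.41 |p|`, so `|X| ≥ 0.426`. -/
theorem two_low {X b₁ b₂ : ℂ} (h : 4 * X ^ 2 - 4 * (b₁ * b₂) * X + (b₁ + b₂) ^ 2 = 0)
    (h₁ : 0 ≤ b₁.im) (h₁' : b₁.im ≤ b₁.re) (h₂ : 0 ≤ b₂.im) (h₂' : b₂.im ≤ b₂.re)
    (hb₁ : b₁ ≠ 0) (hb₂ : b₂ ≠ 0) (hX : ‖X‖ ≤ ‖b₁‖ * ‖b₂‖) : 0.42 ≤ ‖X‖ := by
  have n1 : ‖b₁‖ ^ 2 = b₁.re ^ 2 + b₁.im ^ 2 := by
    rw [← Complex.normSq_eq_norm_sq, Complex.normSq_apply]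
    ring
  have n2 : ‖b₂‖ ^ 2 = b₂.re ^ 2 + b₂.im ^ 2 := by
    rw [← Complex.normSq_eq_norm_sq, Complex.normSq_apply]
    ring
  have n3 : ‖b₁ + b₂‖ ^ 2 = (b₁.re + b₂.re) ^ 2 + (b₁.im + b₂.im) ^ 2 := by
    rw [← Complex.normSq_eq_norm_sq, Complex.normSq_apply, Complex.add_re, Complex.add_im]
    ring
  have p1 : 0 < ‖b₁‖ := norm_pos_iff.mpr hb₁
  have p2 : 0 < ‖b₂‖ := norm_pos_iff.mpr hb₂
  obtain ⟨P, hP⟩ : ∃ P, P = ‖b₁‖ * ‖b₂‖ := ⟨_, rfl⟩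
  obtain ⟨D, hD⟩ : ∃ D, D = b₁.re * b₂.re + b₁.im * b₂.im := ⟨_, rfl⟩
  have hP0 : 0 < P := by rw [hP]; exact mul_pos p1 p2
  have r1 : 0 ≤ b₁.re := h₁.trans h₁'
  have r2 : 0 ≤ b₂.re := h₂.trans h₂'
  have hD0 : 0 ≤ D := by
    rw [hD]
    exact add_nonneg (mul_nonneg r1 r2) (mul_nonneg h₁ h₂)
  have hDP : P ^ 2 ≤ 2 * D ^ 2 := by
    have f1 : 0 ≤ b₁.re * (b₂.re - b₂.im) + b₁.im * (b₂.re + b₂.im) :=
      add_nonneg (mul_nonneg r1 (by linarith)) (mul_nonneg h₁ (by linarith))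
    have f2 : 0 ≤ b₂.re * (b₁.re - b₁.im) + b₂.im * (b₁.re + b₁.im) :=
      add_nonneg (mul_nonneg r2 (by linarith)) (mul_nonneg h₂ (by linarith))
    have f3 := mul_nonneg f1 f2
    have f4 : P ^ 2 = (b₁.re ^ 2 + b₁.im ^ 2) * (b₂.re ^ 2 + b₂.im ^ 2) := by
      rw [hP, mul_pow, n1, n2]
    rw [f4, hD]
    nlinarith [f3]
  have hD7 : 0.7 * P ≤ D := by
    by_contra hlt
    push Not at hlt
    nlinarith [mul_pos hP0 hP0]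
  have hs2 : 3.4 * P ≤ ‖b₁ + b₂‖ ^ 2 := by
    have f5 : ‖b₁ + b₂‖ ^ 2 = ‖b₁‖ ^ 2 + ‖b₂‖ ^ 2 + 2 * D := by
      rw [n3, n1, n2, hD]
      ring
    have f6 : 2 * P ≤ ‖b₁‖ ^ 2 + ‖b₂‖ ^ 2 := by
      rw [hP]
      nlinarith [sq_nonneg (‖b₁‖ - ‖b₂‖)]
    rw [f5]
    linarith
  have hmul : 4 * ‖X‖ * ‖b₁ * b₂ - X‖ = ‖b₁ + b₂‖ ^ 2 := by
    have g1 : 4 * X * (b₁ * b₂ - X) = (b₁ + b₂) ^ 2 := by linear_combination -h
    have g2 := congrArg norm g1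
    rw [norm_mul, norm_mul, norm_pow] at g2
    have g3 : ‖(4 : ℂ)‖ = 4 := by norm_num
    rw [g3] at g2
    exact g2
  have hsub : ‖b₁ * b₂ - X‖ ≤ 2 * P := by
    have g4 := norm_sub_le (b₁ * b₂) X
    rw [norm_mul, ← hP] at g4
    rw [← hP] at hX
    linarith
  have hX0 : 0 ≤ ‖X‖ := norm_nonneg X
  have g5 : 3.4 * P ≤ 8 * ‖X‖ * P := by
    calc 3.4 * P ≤ 4 * ‖X‖ * ‖b₁ * b₂ - X‖ := by rw [hmul]; exact hs2
      _ ≤ 4 * ‖X‖ * (2 * P) := mul_le_mul_of_nonneg_left hsub (by linarith)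
      _ = 8 * ‖X‖ * P := by ring
  have g6 : 3.4 ≤ 8 * ‖X‖ := le_of_mul_le_mul_right g5 hP0
  linarith

end Pool.Agent.S3.E
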