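import Mathlib

/-!
# Stage 3, block E: the vertex with `a = 2` in closed form

`2 z = π + i (q₁ + q₂)`, `sinh q_j cos z = b_j sin z`.  Put `m = (q₁ + q₂)/2`, `d = (q₁ - q₂)/2`:
`κ = cos z = - i sinh m`, `σ = sin z = cosh m`;
sum and difference of the two equations: `2 sinh m cosh d κ = s σ`, `2 cosh m sinh d κ = (b₁ - b₂) σ`
(`s = b₁ + b₂`), i.e. `cosh d = s σ/(2 i κ²)`, `sinh d = (b₁ - b₂)/(2 κ)`; `cosh² - sinh² = 1` gives
the quartic `4κ⁴ - 4 b₁ b₂ κ² + s² = 0`.  Moreover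
`cosh q₁ = cosh (m + d) = i (b₁ - s/(2κ²))`, `cosh q₂ = cosh (m - d) = i (b₂ - s/(2κ²))`.
With `v = s/(2κ²)`: `b₁ b₂ = s (v² + 1)/(2 v)`, `σ² = 1 - s/(2v)`,
`(2κσ - i (T₁ + T₂)) κ C₁ C₂ = s (1/v - v) σ³`, `T₁ κ C₁ C₂ = i b₁ (b₂ - v) σ`, `C_j = cosh q_j`.
-/

namespace Pool.Agent.S3.E

open Complex

private theorem TwoP_re_pos {b : ℂ} (h₁ : 0 ≤ b.im) (h₁' : b.im ≤ b.re) (hb : 1 / 2 ≤ ‖b‖) :
    0 < b.re := by
  rcases (h₁.trans h₁').lt_or_eq with h | h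
  · exact h
  · exfalso
    have h2 : b.im = 0 := le_antisymm (h₁'.trans h.ge) h₁
    have h3 : b = 0 := Complex.ext h.symm h2
    rw [h3, norm_zero] at hb
    norm_num at hb

private theorem TwoP_inv {b : ℂ} (h₁ : 0 ≤ b.im) (h₁' : b.im ≤ b.re) (hb : 1 / 2 ≤ ‖b‖) :
    0 ≤ -(b⁻¹).im ∧ -(b⁻¹).im ≤ (b⁻¹).re ∧ ‖b⁻¹‖ ≤ 2 := by
  have hn : 0 < Complex.normSq b := by
    rw [Complex.normSq_pos]
    intro h0
    rw [h0, norm_zero] at hb
    norm_num at hb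
  refine ⟨?_, ?_, ?_⟩
  · rw [Complex.inv_im]
    have : 0 ≤ b.im / Complex.normSq b := div_nonneg h₁ hn.le
    have h2 : -(-b.im / Complex.normSq b) = b.im / Complex.normSq b := by ring
    rw [h2]
    exact this
  · rw [Complex.inv_im, Complex.inv_re]
    have h2 : -(-b.im / Complex.normSq b) = b.im / Complex.normSq b := by ring
    rw [h2]
    exact div_le_div_of_nonneg_right h₁' hn.le
  · rw [norm_inv]
    have : (1 / 2 : ℝ)⁻¹ = 2 := by norm_num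
    rw [← this]
    exact inv_anti₀ (by norm_num) hb

private theorem TwoP_h {b₁ b₂ : ℂ}
    (h₁ : 0 ≤ b₁.im) (h₁' : b₁.im ≤ b₁.re) (h₂ : 0 ≤ b₂.im) (h₂' : b₂.im ≤ b₂.re)
    (hb₁ : 1 / 2 ≤ ‖b₁‖) (hb₂ : 1 / 2 ≤ ‖b₂‖) :
    0 < (b₁ * b₂ / (b₁ + b₂)).re ∧ 0 ≤ (b₁ * b₂ / (b₁ + b₂)).im ∧
      (b₁ * b₂ / (b₁ + b₂)).im ≤ (b₁ * b₂ / (b₁ + b₂)).re ∧
      1 / 32 ≤ (b₁ * b₂ / (b₁ + b₂)).re ^ 2 := by
  have hr1 := TwoP_re_pos h₁ h₁' hb₁
  have hr2 := TwoP_re_pos h₂ h₂' hb₂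
  obtain ⟨ha1, ha2, ha3⟩ := TwoP_inv h₁ h₁' hb₁
  obtain ⟨hc1, hc2, hc3⟩ := TwoP_inv h₂ h₂' hb₂
  have hb10 : b₁ ≠ 0 := by
    intro h0; rw [h0] at hr1; simp at hr1
  have hb20 : b₂ ≠ 0 := by
    intro h0; rw [h0] at hr2; simp at hr2
  have hs0 : b₁ + b₂ ≠ 0 := by
    intro h0
    have := congrArg Complex.re h0
    rw [Complex.add_re, Complex.zero_re] at this
    linarith
  set w : ℂ := b₁⁻¹ + b₂⁻¹ with hw
  have hwi : b₁ * b₂ / (b₁ + b₂) = w⁻¹ := by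
    have h8 : w = (b₁ + b₂) / (b₁ * b₂) := by
      rw [hw, inv_add_inv hb10 hb20]
    rw [h8, inv_div]
  have hw0 : w ≠ 0 := by
    intro h0
    have h3 : b₁ * b₂ / (b₁ + b₂) = 0 := by rw [hwi, h0, inv_zero]
    rcases div_eq_zero_iff.1 h3 with h4 | h4
    · rcases mul_eq_zero.1 h4 with h5 | h5
      · exact hb10 h5
      · exact hb20 h5
    · exact hs0 h4
  have hn : 0 < Complex.normSq w := Complex.normSq_pos.2 hw0
  have e1 : 0 ≤ -w.im := by rw [hw, Complex.add_im]; linarith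
  have e2 : -w.im ≤ w.re := by rw [hw, Complex.add_im, Complex.add_re]; linarith
  have e3 : ‖w‖ ≤ 4 := by
    rw [hw]
    refine (norm_add_le _ _).trans ?_
    linarith
  have hre : (w⁻¹).re = w.re / Complex.normSq w := Complex.inv_re w
  have him : (w⁻¹).im = -w.im / Complex.normSq w := Complex.inv_im w
  have e4 : Complex.normSq w ≤ 16 := by
    rw [Complex.normSq_eq_norm_sq]
    nlinarith [norm_nonneg w]
  have e5 : Complex.normSq w = w.re * w.re + w.im * w.im := Complex.normSq_apply w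
  have e6 : 0 < w.re := by
    rcases (e1.trans e2).lt_or_eq with h | h
    · exact h
    · exfalso
      have h7 : w.im = 0 := by linarith
      rw [e5, h7, ← h] at hn
      norm_num at hn
  rw [hwi, hre, him]
  refine ⟨div_pos e6 hn, div_nonneg e1 hn.le, div_le_div_of_nonneg_right e2 hn.le, ?_⟩
  rw [div_pow, div_le_div_iff₀ (by norm_num) (by positivity)]
  have e7 : w.im * w.im ≤ w.re * w.re := by nlinarith
  have e8 : Complex.normSq w ≤ 2 * w.re ^ 2 := by rw [e5]; nlinarith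
  nlinarith [hn.le]

/-- Bound of `φ` for an inner `2`.  `X = κ² = |X| e^{-2iφ}`, `0 ≤ φ ≤ π/4`; `η = X/s`, `h = p/s`:
`4 η (h - η) = 1`, `h = η + 1/(4η)`.  Since `arg X ∈ [-π/2, 0]`, `arg s ∈ [0, π/4]`, one has
`Im η ≤ 0`; write `η = (1/2) e^{-B - iA}`, `0 ≤ A ≤ π`: `h = cosh (B + iA)`, `Re h = cos A cosh B`,
`Im h = sin A sinh B`.  `1/h = 1/b₁ + 1/b₂`, so `|h| ≥ 1/4`, `0 ≤ Im h ≤ Re h`, `Re h ≥ 1/(4√2)`, so
`0 < cos A`.  If `A > 7/5`: `1 = cosh² B - sinh² B ≥ (Re h)² (1/cos² A - 1/sin² A) ≥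
(1/32)(1/0.0289 - 1/0.971) > 1`, a contradiction.  Finally `2φ = A - arg s ≤ A ≤ 7/5`. -/
theorem two_phi {X b₁ b₂ : ℂ} {φ : ℝ} (h : 4 * X ^ 2 - 4 * (b₁ * b₂) * X + (b₁ + b₂) ^ 2 = 0)
    (hX : X = (‖X‖ : ℂ) * exp (-(2 * φ : ℝ) * I)) (hφ : 0 ≤ φ) (hφ' : φ ≤ Real.pi / 4)
    (h₁ : 0 ≤ b₁.im) (h₁' : b₁.im ≤ b₁.re) (h₂ : 0 ≤ b₂.im) (h₂' : b₂.im ≤ b₂.re)
    (hb₁ : 1 / 2 ≤ ‖b₁‖) (hb₂ : 1 / 2 ≤ ‖b₂‖) : φ ≤ 7 / 10 := by
  by_contra hcon
  push Not at hcon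
  obtain ⟨g1, g2, g3, g4⟩ := TwoP_h h₁ h₁' h₂ h₂' hb₁ hb₂
  have hr1 := TwoP_re_pos h₁ h₁' hb₁
  have hr2 := TwoP_re_pos h₂ h₂' hb₂
  set s : ℂ := b₁ + b₂ with hs
  have hsre : 0 < s.re := by rw [hs, Complex.add_re]; linarith
  have hsim : 0 ≤ s.im := by rw [hs, Complex.add_im]; linarith
  have hs0 : s ≠ 0 := by
    intro h0; rw [h0] at hsre; simp at hsre
  have hX0 : X ≠ 0 := by
    intro h0
    rw [h0] at h
    have : s ^ 2 = 0 := by simpa using h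
    exact hs0 (pow_eq_zero_iff (two_ne_zero) |>.1 this)
  have hθ0 : 0 ≤ s.arg := Complex.arg_nonneg_iff.2 hsim
  have hθ1 : s.arg ≤ Real.pi := Complex.arg_le_pi s
  have hse : s = (‖s‖ : ℂ) * exp (s.arg * I) := (Complex.norm_mul_exp_arg_mul_I s).symm
  have hsn : 0 < ‖s‖ := norm_pos_iff.2 hs0
  have hXn : 0 < ‖X‖ := norm_pos_iff.2 hX0
  set r : ℝ := ‖X‖ / ‖s‖ with hr
  have hr0 : 0 < r := div_pos hXn hsn
  set A : ℝ := 2 * φ + s.arg with hA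
  have hsn' : ((‖s‖ : ℝ) : ℂ) ≠ 0 := by exact_mod_cast hsn.ne'
  have hXn' : ((‖X‖ : ℝ) : ℂ) ≠ 0 := by exact_mod_cast hXn.ne'
  have hη : X / s = (r : ℂ) * exp (-(A : ℂ) * I) := by
    have h4 : exp (-(A : ℂ) * I) = exp (-(2 * φ : ℝ) * I) / exp (s.arg * I) := by
      rw [← Complex.exp_sub]
      congr 1
      rw [hA]
      push_cast
      ring
    rw [h4, hr]
    conv_lhs => rw [hX, hse]
    push_cast
    field_simp
  have hη' : s / X = ((1 / r : ℝ) : ℂ) * exp ((A : ℂ) * I) := by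
    have h5 : s / X = (X / s)⁻¹ := (inv_div X s).symm
    rw [h5, hη, mul_inv, ← Complex.exp_neg]
    push_cast
    rw [one_div]
    congr 2
    ring
  have hh : b₁ * b₂ / s = X / s + (s / X) / 4 := by
    have h6 : b₁ * b₂ * X * 4 = 4 * X ^ 2 + s ^ 2 := by linear_combination -h
    field_simp
    linear_combination h6
  have e1 : (exp ((A : ℂ) * I)).re = Real.cos A := by
    rw [Complex.exp_ofReal_mul_I_re]
  have e2 : (exp ((A : ℂ) * I)).im = Real.sin A := by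
    rw [Complex.exp_ofReal_mul_I_im]
  have e3 : (exp (-(A : ℂ) * I)).re = Real.cos A := by
    have : -(A : ℂ) = ((-A : ℝ) : ℂ) := by push_cast; ring
    rw [this, Complex.exp_ofReal_mul_I_re, Real.cos_neg]
  have e4 : (exp (-(A : ℂ) * I)).im = -Real.sin A := by
    have : -(A : ℂ) = ((-A : ℝ) : ℂ) := by push_cast; ring
    rw [this, Complex.exp_ofReal_mul_I_im, Real.sin_neg]
  have hP : (b₁ * b₂ / s).re = (r + 1 / (4 * r)) * Real.cos A := by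
    have h7 : (s / X) / 4 = ((1 / (4 * r) : ℝ) : ℂ) * exp ((A : ℂ) * I) := by
      rw [hη']
      push_cast
      field_simp
    rw [hh, h7, hη, Complex.add_re, Complex.re_ofReal_mul, Complex.re_ofReal_mul, e1, e3]
    ring
  have hQ : (b₁ * b₂ / s).im = (1 / (4 * r) - r) * Real.sin A := by
    have h7 : (s / X) / 4 = ((1 / (4 * r) : ℝ) : ℂ) * exp ((A : ℂ) * I) := by
      rw [hη']
      push_cast
      field_simp
    rw [hh, h7, hη, Complex.add_im, Complex.im_ofReal_mul, Complex.im_ofReal_mul, e2, e4]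
    ring
  have hA1 : 7 / 5 < A := by rw [hA]; linarith
  have hA2 : A ≤ Real.pi / 2 + Real.pi := by rw [hA]; linarith
  have hc0 : 0 < Real.cos A := by
    rw [hP] at g1
    exact (pos_iff_pos_of_mul_pos g1).1 (by positivity)
  have hA3 : A < Real.pi / 2 := by
    by_contra hA4
    push Not at hA4
    have := Real.cos_nonpos_of_pi_div_two_le_of_le hA4 (by linarith)
    linarith
  have hc1 : Real.cos A ≤ 0.1708 := by
    have h8 : Real.cos A = Real.sin (Real.pi / 2 - A) := (Real.sin_pi_div_two_sub A).symm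
    have h9 : Real.sin (Real.pi / 2 - A) ≤ Real.pi / 2 - A := Real.sin_le (by linarith)
    have h10 := Real.pi_lt_d4
    rw [h8]
    linarith
  have hsc := Real.sin_sq_add_cos_sq A
  set P := (b₁ * b₂ / s).re
  set Q := (b₁ * b₂ / s).im
  have hid : P ^ 2 * Real.sin A ^ 2 - Q ^ 2 * Real.cos A ^ 2 = Real.cos A ^ 2 * Real.sin A ^ 2 := by
    rw [hP, hQ]
    field_simp
    ring
  have hQP : Q ^ 2 ≤ P ^ 2 := by nlinarith
  have hcc : Real.cos A ^ 2 ≤ 0.02918 := by nlinarith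
  have hcc0 : 0 ≤ Real.cos A ^ 2 := sq_nonneg _
  have hss : Real.sin A ^ 2 = 1 - Real.cos A ^ 2 := by linarith
  rw [hss] at hid
  generalize Real.cos A ^ 2 = c at *
  have h11 : P ^ 2 * (1 - 2 * c) ≤ c * (1 - c) := by nlinarith
  have h12 : 1 / 32 * (1 - 2 * c) ≤ P ^ 2 * (1 - 2 * c) :=
    mul_le_mul_of_nonneg_right g4 (by linarith)
  nlinarith

end Pool.Agent.S3.E
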