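import Pool.Agent.S3.E.Phi3
import Pool.Agent.S3.E.Sys
import Pool.Agent.S3.E.TwoA
import Pool.Agent.S3.E.TwoP

/-!
# Stage 3, block E: existence of the critical point
-/

namespace Pool.Agent.S3.E

open Complex

variable {ι : Type*}

theorem Vx.swap {a R I ρ₁ β₁ p₁ r₁ ρ₂ β₂ p₂ r₂ : ℝ} (h : Vx a R I ρ₁ β₁ p₁ r₁ ρ₂ β₂ p₂ r₂) :
    Vx a R I ρ₂ β₂ p₂ r₂ ρ₁ β₁ p₁ r₁ :=
  ⟨h.a2, h.R0, h.R1, h.I0, h.sl₂, h.sl₁, by linarith [h.hR], by linarith [h.hI]⟩

/-- Everything about a zero of the system. -/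
structure Zr (a : ι → ℝ) (nl nr : ι → Option ι) (τ : ℝ) (z : ι → ℂ) : Prop where
  N : Nbr nl nr
  a23 : ∀ i, a i = 2 ∨ 3 ≤ a i
  K : ((τ, z) : ℝ × (ι → ℂ)) ∈ KK nl nr
  Z : GG a nl nr τ z = 0

namespace Zr

variable {a : ι → ℝ} {nl nr : ι → Option ι} {τ : ℝ} {z : ι → ℂ}

theorem a2 (h : Zr a nl nr τ z) (i : ι) : 2 ≤ a i := by
  rcases h.a23 i with h | h <;> linarith

theorem τ0 (h : Zr a nl nr τ z) : 0 ≤ τ := h.K.1.1

theorem τ1 (h : Zr a nl nr τ z) : τ ≤ 1 := h.K.1.2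

theorem pos (h : Zr a nl nr τ z) (i : ι) :
    0 < (z i).re ∧ (z i).re < Real.pi / 2 ∧ 0 < (z i).im := zero_pos h.N h.a2 h.K h.Z i

theorem vx (h : Zr a nl nr τ z) (i : ι) :
    Vx (a i) (z i).re (z i).im
      (ro τ z (nl i)) (be τ z (nl i)) (PP (bo τ z (nl i) * tan (z i))) (RR (bo τ z (nl i) * tan (z i)))
      (ro τ z (nr i)) (be τ z (nr i)) (PP (bo τ z (nr i) * tan (z i)))
      (RR (bo τ z (nr i) * tan (z i))) := zero_vx h.N h.a2 h.K h.Z i

theorem k2pos (h : Zr a nl nr τ z) (i : ι) : 0 < k2 (z i).re (z i).im :=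
  k2_pos (h.pos i).1 (h.pos i).2.1

theorem norm_pos (h : Zr a nl nr τ z) (i : ι) : 0 < ‖cos (z i)‖ := by
  rw [norm_cos_eq]; exact Real.sqrt_pos.2 (h.k2pos i)

theorem phpos (h : Zr a nl nr τ z) (i : ι) : 0 < ph (z i).re (z i).im :=
  ph_pos (h.pos i).1 (h.pos i).2.1 (h.pos i).2.2

theorem cos_ne (h : Zr a nl nr τ z) (i : ι) : cos (z i) ≠ 0 := norm_pos_iff.1 (h.norm_pos i)

theorem sin_ne (h : Zr a nl nr τ z) (i : ι) : sin (z i) ≠ 0 := by
  intro h0
  have h1 := norm_sin_sq (z i)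
  rw [h0, norm_zero] at h1
  have h2 := s2_pos (I := (z i).im) (h.pos i).1 (h.pos i).2.1
  norm_num at h1
  linarith

theorem ro_sq_le (h : Zr a nl nr τ z) {K : ℝ} (hK : 1 ≤ K) (hj : ∀ j, k2 (z j).re (z j).im ≤ K)
    (o : Option ι) : ro τ z o ^ 2 ≤ K := by
  cases o with
  | none => simp only [ro]; linarith
  | some j =>
    simp only [ro]
    rw [← Real.rpow_natCast, ← Real.rpow_mul (norm_nonneg _), mul_comm, Real.rpow_mul (norm_nonneg _),
      Real.rpow_natCast, norm_cos_sq]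
    calc k2 (z j).re (z j).im ^ τ ≤ K ^ τ := Real.rpow_le_rpow (h.k2pos j).le (hj j) h.τ0
      _ ≤ K ^ (1 : ℝ) := Real.rpow_le_rpow_of_exponent_le hK h.τ1
      _ = K := Real.rpow_one K

theorem be_or (h : Zr a nl nr τ z) (hτ : 0 < τ) (o : Option ι) : 0 < be τ z o ∨ ro τ z o = 0 := by
  cases o with
  | none => right; rfl
  | some j => left; exact mul_pos hτ (h.phpos j)

theorem k2_le [Finite ι] (h : Zr a nl nr τ z) (i : ι) : k2 (z i).re (z i).im ≤ 1 := by
  have : Nonempty ι := ⟨i⟩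
  obtain ⟨m, hm⟩ := Finite.exists_max (fun j => k2 (z j).re (z j).im)
  by_contra hi
  push Not at hi
  have h1 : 1 < k2 (z m).re (z m).im := lt_of_lt_of_le hi (hm i)
  have := (h.vx m).lemA (h.ro_sq_le h1.le hm _) (h.ro_sq_le h1.le hm _)
  linarith

theorem k2_lt [Finite ι] (h : Zr a nl nr τ z) (hτ : 0 < τ) (i : ι) :
    k2 (z i).re (z i).im < 1 := by
  have : Nonempty ι := ⟨i⟩
  obtain ⟨m, hm⟩ := Finite.exists_max (fun j => k2 (z j).re (z j).im)
  by_contra hi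
  push Not at hi
  have h1 : 1 ≤ k2 (z m).re (z m).im := le_trans hi (hm i)
  have := (h.vx m).lemA' (h.ro_sq_le h1 hm _) (h.ro_sq_le h1 hm _) (h.be_or hτ _) (h.be_or hτ _)
  linarith

theorem ph_le (h : Zr a nl nr τ z) (i : ι) : ph (z i).re (z i).im ≤ Real.pi / 4 := (h.vx i).lemB

theorem norm_le [Finite ι] (h : Zr a nl nr τ z) (i : ι) : ‖cos (z i)‖ ≤ 1 := by
  have h1 := norm_cos_sq (z i)
  have h2 := h.k2_le i
  nlinarith [h.norm_pos i]

theorem ro_pos (h : Zr a nl nr τ z) (j : ι) : 0 < ro τ z (some j) :=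
  Real.rpow_pos_of_pos (h.norm_pos j) _

theorem le_ro [Finite ι] (h : Zr a nl nr τ z) (j : ι) : ‖cos (z j)‖ ≤ ro τ z (some j) := by
  simp only [ro]
  calc ‖cos (z j)‖ = ‖cos (z j)‖ ^ (1 : ℝ) := (Real.rpow_one _).symm
    _ ≤ _ := Real.rpow_le_rpow_of_exponent_ge (h.norm_pos j) (h.norm_le j) h.τ1

theorem ro_le_one [Finite ι] (h : Zr a nl nr τ z) (o : Option ι) : ro τ z o ≤ 1 := by
  cases o with
  | none => simp [ro]
  | some j => exact Real.rpow_le_one (norm_nonneg _) (h.norm_le j) h.τ0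

theorem be_nonneg (h : Zr a nl nr τ z) (o : Option ι) : 0 ≤ be τ z o := by
  cases o with
  | none => simp [be]
  | some j => exact mul_nonneg h.τ0 (h.phpos j).le

theorem be_le_ph (h : Zr a nl nr τ z) (j : ι) : be τ z (some j) ≤ ph (z j).re (z j).im := by
  simp only [be]
  have := h.phpos j
  nlinarith [h.τ1]

theorem be_le (h : Zr a nl nr τ z) (o : Option ι) : be τ z o ≤ Real.pi / 4 := by
  cases o with
  | none => simp only [be]; positivity
  | some j => exact (h.be_le_ph j).trans (h.ph_le j)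

theorem bo_eq (h : Zr a nl nr τ z) (o : Option ι) :
    bo τ z o = (ro τ z o : ℂ) * exp ((be τ z o : ℂ) * I) :=
  bo_polar (fun j _ => ⟨(h.pos j).1, (h.pos j).2.1⟩)

theorem ro_nonneg (h : Zr a nl nr τ z) (o : Option ι) : 0 ≤ ro τ z o := by
  cases o with
  | none => simp [ro]
  | some j => exact (h.ro_pos j).le

theorem norm_bo (h : Zr a nl nr τ z) (o : Option ι) : ‖bo τ z o‖ = ro τ z o := by
  rw [h.bo_eq, norm_mul, norm_exp_ofReal_mul_I, mul_one, norm_real, Real.norm_eq_abs,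
    abs_of_nonneg (h.ro_nonneg o)]

theorem bo_re (h : Zr a nl nr τ z) (o : Option ι) :
    (bo τ z o).re = ro τ z o * Real.cos (be τ z o) := by
  rw [h.bo_eq, re_ofReal_mul, exp_ofReal_mul_I_re]

theorem bo_im (h : Zr a nl nr τ z) (o : Option ι) :
    (bo τ z o).im = ro τ z o * Real.sin (be τ z o) := by
  rw [h.bo_eq, im_ofReal_mul, exp_ofReal_mul_I_im]

theorem sin_le_cos {x : ℝ} (h0 : 0 ≤ x) (h : x ≤ Real.pi / 4) : Real.sin x ≤ Real.cos x := by
  rw [← Real.sin_pi_div_two_sub]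
  apply Real.sin_le_sin_of_le_of_le_pi_div_two <;> linarith [Real.pi_pos]

theorem bo_im_nonneg (h : Zr a nl nr τ z) (o : Option ι) : 0 ≤ (bo τ z o).im := by
  rw [h.bo_im]
  exact mul_nonneg (h.ro_nonneg o)
    (Real.sin_nonneg_of_nonneg_of_le_pi (h.be_nonneg o) (by linarith [h.be_le o, Real.pi_pos]))

theorem bo_im_le (h : Zr a nl nr τ z) (o : Option ι) : (bo τ z o).im ≤ (bo τ z o).re := by
  rw [h.bo_im, h.bo_re]
  exact mul_le_mul_of_nonneg_left (sin_le_cos (h.be_nonneg o) (h.be_le o)) (h.ro_nonneg o)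

theorem w_eq (h : Zr a nl nr τ z) (i : ι) (o : Option ι) :
    bo τ z o * tan (z i) = ((ro τ z o * tt (z i).re (z i).im : ℝ) : ℂ) *
      exp (((al (z i).re (z i).im + be τ z o : ℝ) : ℂ) * I) := by
  rw [h.bo_eq, tan_polar (h.pos i).1 (h.pos i).2.1]
  push_cast
  rw [add_mul, Complex.exp_add]
  ring

theorem w_re (h : Zr a nl nr τ z) (i : ι) (o : Option ι) :
    (bo τ z o * tan (z i)).re = ro τ z o * tt (z i).re (z i).im *
      Real.cos (al (z i).re (z i).im + be τ z o) := by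
  rw [h.w_eq, re_ofReal_mul, exp_ofReal_mul_I_re]

theorem w_im (h : Zr a nl nr τ z) (i : ι) (o : Option ι) :
    (bo τ z o * tan (z i)).im = ro τ z o * tt (z i).re (z i).im *
      Real.sin (al (z i).re (z i).im + be τ z o) := by
  rw [h.w_eq, im_ofReal_mul, exp_ofReal_mul_I_im]

theorem ttpos (h : Zr a nl nr τ z) (i : ι) : 0 < tt (z i).re (z i).im :=
  tt_pos (h.pos i).1 (h.pos i).2.1

theorem alpos (h : Zr a nl nr τ z) (i : ι) : 0 < al (z i).re (z i).im :=
  al_pos (h.pos i).1 (h.pos i).2.1 (h.pos i).2.2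

theorem w_im_pos (h : Zr a nl nr τ z) (i j : ι) : 0 < (bo τ z (some j) * tan (z i)).im := by
  rw [h.w_im]
  apply mul_pos (mul_pos (h.ro_pos j) (h.ttpos i))
  apply Real.sin_pos_of_pos_of_lt_pi
  · linarith [h.alpos i, h.be_nonneg (some j)]
  · linarith [al_lt (z i).re (z i).im, h.be_le (some j), Real.pi_pos]

theorem w_im_nonneg (h : Zr a nl nr τ z) (i : ι) (o : Option ι) :
    0 ≤ (bo τ z o * tan (z i)).im := by
  cases o with
  | none => simp [bo]
  | some j => exact (h.w_im_pos i j).le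

/-- Slot equation, left. -/
theorem sinh_l (h : Zr a nl nr τ z) (i : ι) :
    sinh (ash (bo τ z (nl i) * tan (z i))) * cos (z i) = bo τ z (nl i) * sin (z i) := by
  rw [sinh_ash (h.K.2 i).2.2.1 (h.w_im_nonneg i _), tan_eq_sin_div_cos, mul_assoc,
    div_mul_cancel₀ _ (h.cos_ne i)]

theorem sinh_r (h : Zr a nl nr τ z) (i : ι) :
    sinh (ash (bo τ z (nr i) * tan (z i))) * cos (z i) = bo τ z (nr i) * sin (z i) := by
  rw [sinh_ash (h.K.2 i).2.2.2 (h.w_im_nonneg i _), tan_eq_sin_div_cos, mul_assoc,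
    div_mul_cancel₀ _ (h.cos_ne i)]

theorem eqn (h : Zr a nl nr τ z) (i : ι) :
    (a i : ℂ) * z i = (Real.pi : ℂ) + I * (ash (bo τ z (nl i) * tan (z i)) +
      ash (bo τ z (nr i) * tan (z i))) := by
  have h1 : GG a nl nr τ z i = 0 := congrFun h.Z i
  unfold GG at h1
  linear_combination h1

theorem eqn2 (h : Zr a nl nr τ z) (i : ι) (hi : a i = 2) :
    2 * z i = (Real.pi : ℂ) + I * (ash (bo τ z (nl i) * tan (z i)) +
      ash (bo τ z (nr i) * tan (z i))) := by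
  have h1 := h.eqn i
  rw [hi] at h1
  simpa using h1

/-- The quartic at an inner or end `2`. -/
theorem quartic (h : Zr a nl nr τ z) (i : ι) (hi : a i = 2) :
    4 * (cos (z i) ^ 2) ^ 2 - 4 * (bo τ z (nl i) * bo τ z (nr i)) * cos (z i) ^ 2 +
      (bo τ z (nl i) + bo τ z (nr i)) ^ 2 = 0 := by
  have h1 := two_quartic (h.eqn2 i hi) (h.sinh_l i) (h.sinh_r i) (h.cos_ne i) (h.sin_ne i)
  linear_combination h1

/-- One neighbour, `a = 2`. -/
theorem end2 (h : Zr a nl nr τ z) {i j : ι} (hi : a i = 2)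
    (hj : (nl i = some j ∧ nr i = none) ∨ (nl i = none ∧ nr i = some j)) :
    2 * cos (z i) ^ 2 = -I * bo τ z (some j) := by
  have h1 := h.eqn2 i hi
  rcases hj with ⟨h2, h3⟩ | ⟨h2, h3⟩
  · have h4 := h.sinh_l i
    rw [h2] at h1 h4
    rw [h3] at h1
    simp only [bo, zero_mul, ash_zero, add_zero] at h1
    exact two_end h1 h4 (h.cos_ne i) (h.sin_ne i)
  · have h4 := h.sinh_r i
    rw [h3] at h1 h4
    rw [h2] at h1
    simp only [bo, zero_mul, ash_zero, zero_add] at h1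
    exact two_end h1 h4 (h.cos_ne i) (h.sin_ne i)

/-- Types of vertices. -/
theorem types (h : Zr a nl nr τ z) (i : ι) :
    3 ≤ a i ∨ (a i = 2 ∧ ∃ j k, nl i = some j ∧ nr i = some k) ∨
      (a i = 2 ∧ ∃ j, (nl i = some j ∧ nr i = none) ∨ (nl i = none ∧ nr i = some j)) := by
  rcases h.a23 i with h1 | h1
  · right
    have h2 := h.N.ne i
    rcases hl : nl i with _ | j
    · rcases hr : nr i with _ | k
      · simp [hl, hr] at h2
      · right; exact ⟨h1, k, Or.inr ⟨rfl, rfl⟩⟩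
    · rcases hr : nr i with _ | k
      · right; exact ⟨h1, j, Or.inl ⟨rfl, rfl⟩⟩
      · left; exact ⟨h1, j, k, rfl, rfl⟩
  · left; exact h1

theorem norm_sq (z : ι → ℂ) (i : ι) : ‖cos (z i) ^ 2‖ = k2 (z i).re (z i).im := by
  rw [norm_pow, norm_cos_sq]

/-- Lower bound of `|κ|²`. -/
theorem k2_ge [Finite ι] (h : Zr a nl nr τ z) (i : ι) : 1 / 4 ≤ k2 (z i).re (z i).im := by
  have : Nonempty ι := ⟨i⟩
  obtain ⟨m, hm⟩ := Finite.exists_min (fun j => k2 (z j).re (z j).im)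
  refine le_trans ?_ (hm i)
  have hro : ∀ j, k2 (z m).re (z m).im ≤ ro τ z (some j) ^ 2 := by
    intro j
    have h1 := h.le_ro j
    have h2 := norm_cos_sq (z j)
    have h3 := hm j
    have h4 := h.norm_pos j
    nlinarith
  rcases h.types m with h1 | ⟨h1, j, k, h2, h3⟩ | ⟨h1, j, h2⟩
  · exact (h.vx m).lemL3 h1
  · have h4 := h.quartic m h1
    rw [h2, h3] at h4
    have h5 : ‖cos (z m) ^ 2‖ ≤ ‖bo τ z (some j)‖ * ‖bo τ z (some k)‖ := by
      rw [norm_sq, h.norm_bo, h.norm_bo]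
      have h6 := hro j
      have h7 := hro k
      have h8 := h.ro_pos j
      have h9 := h.ro_pos k
      have h10 := h.k2pos m
      by_contra hc
      push Not at hc
      have : (ro τ z (some j) * ro τ z (some k)) ^ 2 < k2 (z m).re (z m).im ^ 2 := by
        have h11 := mul_pos h8 h9
        nlinarith
      nlinarith
    have h6 := two_low h4 (h.bo_im_nonneg _) (h.bo_im_le _) (h.bo_im_nonneg _) (h.bo_im_le _)
      (norm_pos_iff.1 (by rw [h.norm_bo]; exact h.ro_pos j))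
      (norm_pos_iff.1 (by rw [h.norm_bo]; exact h.ro_pos k)) h5
    rw [norm_sq] at h6
    norm_num at h6 ⊢
    linarith
  · have h3 := congrArg norm (h.end2 h1 h2)
    rw [norm_mul, norm_sq, norm_mul, norm_neg, norm_I, h.norm_bo, one_mul] at h3
    have h4 := hro j
    rw [← h3] at h4
    have h5 := h.k2pos m
    norm_num at h4
    by_contra hc
    push Not at hc
    nlinarith

theorem norm_ge [Finite ι] (h : Zr a nl nr τ z) (i : ι) : 1 / 2 ≤ ‖cos (z i)‖ := by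
  have h1 := norm_cos_sq (z i)
  have h2 := h.k2_ge i
  have h3 := h.norm_pos i
  nlinarith

theorem ro_ge [Finite ι] (h : Zr a nl nr τ z) (j : ι) : 1 / 2 ≤ ro τ z (some j) :=
  (h.norm_ge j).trans (h.le_ro j)

theorem cos_sq_polar (h : Zr a nl nr τ z) (i : ι) :
    cos (z i) ^ 2 = (‖cos (z i) ^ 2‖ : ℂ) * exp (-(2 * ph (z i).re (z i).im : ℝ) * I) := by
  conv_lhs => rw [cos_polar (h.pos i).1 (h.pos i).2.1]
  rw [mul_pow, norm_pow, ← Complex.exp_nat_mul]
  push_cast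
  congr 2
  ring

/-- `φ ≤ 7/10` except at an end `2`. -/
theorem ph_le' [Finite ι] (h : Zr a nl nr τ z) (i : ι)
    (hi : 3 ≤ a i ∨ ∃ j k, nl i = some j ∧ nr i = some k) :
    ph (z i).re (z i).im ≤ 7 / 10 := by
  rcases h.types i with h1 | ⟨h1, j, k, h2, h3⟩ | ⟨h1, j, h2⟩
  · exact (h.vx i).phi3 h1
  · have h4 := h.quartic i h1
    rw [h2, h3] at h4
    exact two_phi h4 (h.cos_sq_polar i) (h.phpos i).le (h.ph_le i) (h.bo_im_nonneg _)
      (h.bo_im_le _) (h.bo_im_nonneg _) (h.bo_im_le _) (by rw [h.norm_bo]; exact h.ro_ge j)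
      (by rw [h.norm_bo]; exact h.ro_ge k)
  · exfalso
    rcases hi with hi | ⟨j', k', h3, h4⟩
    · linarith
    · rcases h2 with ⟨h5, h6⟩ | ⟨h5, h6⟩
      · rw [h6] at h4; simp at h4
      · rw [h5] at h3; simp at h3

/-- `φ = π/4 - τ φ'/2` at an end `2`. -/
theorem ph_end (h : Zr a nl nr τ z) {i j : ι} (hi : a i = 2)
    (hj : (nl i = some j ∧ nr i = none) ∨ (nl i = none ∧ nr i = some j)) :
    ph (z i).re (z i).im = Real.pi / 4 - be τ z (some j) / 2 := by
  have h1 := h.end2 hi hj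
  rw [h.cos_sq_polar i, norm_sq, h.bo_eq] at h1
  have h0 := congrArg norm h1
  have hI : -I = exp (((-(Real.pi / 2) : ℝ) : ℂ) * I) := by
    rw [exp_mul_I, ← ofReal_cos, ← ofReal_sin, Real.cos_neg, Real.sin_neg, Real.cos_pi_div_two,
      Real.sin_pi_div_two]
    simp
  rw [hI] at h1
  have h2 : ((2 * k2 (z i).re (z i).im : ℝ) : ℂ) *
      exp (((-(2 * ph (z i).re (z i).im) : ℝ) : ℂ) * I) =
      ((ro τ z (some j) : ℝ) : ℂ) * exp (((be τ z (some j) - Real.pi / 2 : ℝ) : ℂ) * I) := by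
    have e1 : exp (((be τ z (some j) - Real.pi / 2 : ℝ) : ℂ) * I) =
        exp (((-(Real.pi / 2) : ℝ) : ℂ) * I) * exp (((be τ z (some j) : ℝ) : ℂ) * I) := by
      rw [← Complex.exp_add]
      push_cast
      congr 1
      ring
    rw [e1]
    push_cast at h1 ⊢
    linear_combination h1
  have h3 : 2 * k2 (z i).re (z i).im = ro τ z (some j) := by
    have h4 := congrArg norm h2
    rw [norm_mul, norm_mul, norm_exp_ofReal_mul_I, norm_exp_ofReal_mul_I, norm_real, norm_real,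
      Real.norm_eq_abs, Real.norm_eq_abs, abs_of_pos (by linarith [h.k2pos i]),
      abs_of_pos (h.ro_pos j)] at h4
    linarith
  rw [h3] at h2
  have h5 := mul_left_cancel₀ (by exact_mod_cast (h.ro_pos j).ne') h2
  have h6 := congrArg im h5
  have h7 := congrArg re h5
  rw [exp_ofReal_mul_I_im, exp_ofReal_mul_I_im] at h6
  have h8 : -(2 * ph (z i).re (z i).im) = be τ z (some j) - Real.pi / 2 := by
    apply Real.injOn_sin _ _ h6
    · constructor <;> linarith [h.ph_le i, h.phpos i, Real.pi_pos]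
    · constructor <;> linarith [h.be_le (some j), h.be_nonneg (some j), Real.pi_pos]
  linarith

end Zr

end Pool.Agent.S3.E
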