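import Pool.Agent.S3.E.TwoA

/-!
# Stage 3, block E: the vertex with `a = 2` in closed form

`2 z = π + i (q₁ + q₂)`, `sinh q_j cos z = b_j sin z`.  Put `m = (q₁ + q₂)/2`, `d = (q₁ - q₂)/2`:
`κ = cos z = - i sinh m`, `σ = sin z = cosh m`;
sum and difference of the two equations: `2 sinh m cosh d κ = s σ`, `2 cosh m sinh d κ = (b₁ - b₂) σ`
(`s = b₁ + b₂`), i.e. `cosh d = s σ/(2 i κ²)`, `sinh d = (b₁ - b₂)/(2 κ)`; `cosh² - sinh² = 1` gives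
the quartic `4κ⁴ - 4 b₁ b₂ κ² + s² = 0`.  Moreover
`cosh q₁ = cosh (m + d) = i (b₁ - s/(2κ²))`, `cosh q₂ = cosh (m - d) = i (b₂ - s/(2κ²))`.
With `v = s/(2κ²)`: `b₁ b₂ = s (v² + 1)/(2 v)`, `σ² = 1 - s/(2v)`,
`(2κσ - i (T₁ + T₂)) κ C₁ C₂ = s (1/v - v) σ³`, `T₁ κ C₁ C₂ = i b₁ (b₂ - v) σ`, `C_j = cosh q_j`.
-/

namespace Pool.Agent.S3.E

open Complex

/-- The angle between two vectors of the closed sector `0 ≤ arg ≤ π / 4`. -/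
theorem TwoD_angle {b₁ b₂ : ℂ} (hi₁ : 0 ≤ b₁.im) (hi₁' : b₁.im ≤ b₁.re) (hi₂ : 0 ≤ b₂.im)
    (hi₂' : b₂.im ≤ b₂.re) :
    ‖b₁‖ ^ 2 + ‖b₂‖ ^ 2 + 1.414 * (‖b₁‖ * ‖b₂‖) ≤ ‖b₁ + b₂‖ ^ 2 := by
  have e1 : ‖b₁‖ ^ 2 = b₁.re ^ 2 + b₁.im ^ 2 := by
    rw [← Complex.normSq_eq_norm_sq, Complex.normSq_apply]; ring
  have e2 : ‖b₂‖ ^ 2 = b₂.re ^ 2 + b₂.im ^ 2 := by
    rw [← Complex.normSq_eq_norm_sq, Complex.normSq_apply]; ring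
  have e3 : ‖b₁ + b₂‖ ^ 2 = (b₁.re + b₂.re) ^ 2 + (b₁.im + b₂.im) ^ 2 := by
    rw [← Complex.normSq_eq_norm_sq, Complex.normSq_apply, Complex.add_re, Complex.add_im]; ring
  have hx1 : 0 ≤ b₁.re := hi₁.trans hi₁'
  have hx2 : 0 ≤ b₂.re := hi₂.trans hi₂'
  have hR : 0 ≤ b₁.re * b₂.re + b₁.im * b₂.im := by positivity
  have hm : 0 ≤ (b₁.re * b₂.re + b₁.im * b₂.im) - (b₁.re * b₂.im - b₂.re * b₁.im) := by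
    have := mul_nonneg hx1 (sub_nonneg.2 hi₂')
    have := mul_nonneg hi₁ (add_nonneg hi₂ hx2)
    nlinarith
  have hp : 0 ≤ (b₁.re * b₂.re + b₁.im * b₂.im) + (b₁.re * b₂.im - b₂.re * b₁.im) := by
    have := mul_nonneg hx2 (sub_nonneg.2 hi₁')
    have := mul_nonneg hi₂ (add_nonneg hi₁ hx1)
    nlinarith
  have hsq : (‖b₁‖ * ‖b₂‖) ^ 2 ≤ 2 * (b₁.re * b₂.re + b₁.im * b₂.im) ^ 2 := by
    rw [mul_pow, e1, e2]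
    nlinarith [mul_nonneg hm hp]
  have hle : 0.707 * (‖b₁‖ * ‖b₂‖) ≤ b₁.re * b₂.re + b₁.im * b₂.im := by
    refine abs_le_of_sq_le_sq' ?_ hR |>.2
    nlinarith [sq_nonneg (‖b₁‖ * ‖b₂‖)]
  rw [e1, e2, e3]
  nlinarith

/-- Dominance for an inner `2`: with `Y = -i (p - 2X)` one has `Y² = s² - p²` and
`(v - b_k) = (i Y - b_k²)/s` up to sign, `v - 1/v = 2 i Y/s`; the ratio
`|σ² T_j|/|2κσ - i(T₁+T₂)| = |b_j| |v - b_k|/(|s| |v - 1/v|) = |b_j| |Y + i b_k²|/(2 |s| |Y|)`.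
With `|b₁| + |b₂| ≤ 1.0825 |s|` (angle between `b₁`, `b₂` at most `π/4`) and
`|Y|² ≥ |s|² - |p|² ≥ B² (1 + 1/√2)`, `B = max |b_j|`, `|b_k|²/|Y| ≤ 0.766`: the sum of the two ratios
is at most `1.0825 * 1.766 / 2 < 1`. -/
theorem dom_inner {z q₁ q₂ b₁ b₂ : ℂ} (h : 2 * z = (Real.pi : ℂ) + I * (q₁ + q₂))
    (h₁ : sinh q₁ * cos z = b₁ * sin z) (h₂ : sinh q₂ * cos z = b₂ * sin z)
    (hc : cos z ≠ 0) (hs : sin z ≠ 0) (hq₁ : cosh q₁ ≠ 0) (hq₂ : cosh q₂ ≠ 0)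
    (hi₁ : 0 ≤ b₁.im) (hi₁' : b₁.im ≤ b₁.re) (hi₂ : 0 ≤ b₂.im) (hi₂' : b₂.im ≤ b₂.re)
    (hb₁ : 1 / 2 ≤ ‖b₁‖) (hb₂ : 1 / 2 ≤ ‖b₂‖) (hb₁' : ‖b₁‖ ≤ 1) (hb₂' : ‖b₂‖ ≤ 1) :
    ‖sin z‖ ^ 2 * (‖tanh q₁‖ + ‖tanh q₂‖) <
      ‖2 * (cos z * sin z) - I * (tanh q₁ + tanh q₂)‖ := by
  obtain ⟨k₁, k₂⟩ := two_cosh h h₁ h₂ hc hs
  have hq := two_quartic h h₁ h₂ hc hs
  have hcs : cos z ^ 2 + sin z ^ 2 = 1 := by rw [add_comm]; exact sin_sq_add_cos_sq z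
  have hX : (2 * cos z ^ 2 : ℂ) ≠ 0 := mul_ne_zero two_ne_zero (pow_ne_zero 2 hc)
  -- the denominator
  have hD : (2 * (cos z * sin z) - I * (tanh q₁ + tanh q₂)) * (cos z * (cosh q₁ * cosh q₂)) =
      2 * sin z ^ 3 * (2 * cos z ^ 2 - b₁ * b₂) := by
    have e : (2 * (cos z * sin z) - I * (tanh q₁ + tanh q₂)) * (cos z * (cosh q₁ * cosh q₂)) =
        sin z * (2 * cos z ^ 2 * (cosh q₁ * cosh q₂) - I * (b₁ * cosh q₂ + b₂ * cosh q₁)) := by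
      rw [tanh_eq_sinh_div_cosh, tanh_eq_sinh_div_cosh]
      field_simp
      linear_combination (-I * cosh q₂) * h₁ + (-I * cosh q₁) * h₂
    rw [e]
    apply mul_left_cancel₀ hX
    have hs2 : sin z ^ 2 = 1 - cos z ^ 2 := by linear_combination hcs
    have e2 : (2 * cos z ^ 2) * (2 * cos z ^ 2 * (cosh q₁ * cosh q₂) -
        I * (b₁ * cosh q₂ + b₂ * cosh q₁)) =
        4 * cos z ^ 2 * (1 - cos z ^ 2) * (2 * cos z ^ 2 - b₁ * b₂) := by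
      have hI : I ^ 2 = -1 := I_sq
      have e3 : (2 * cos z ^ 2 * cosh q₁) * (2 * cos z ^ 2 * cosh q₂) =
          -((2 * cos z ^ 2 * b₁ - (b₁ + b₂)) * (2 * cos z ^ 2 * b₂ - (b₁ + b₂))) := by
        rw [k₁, k₂]
        linear_combination ((2 * cos z ^ 2 * b₁ - (b₁ + b₂)) * (2 * cos z ^ 2 * b₂ - (b₁ + b₂))) * hI
      have e4 : I * (b₁ * (2 * cos z ^ 2 * cosh q₂) + b₂ * (2 * cos z ^ 2 * cosh q₁)) =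
          -(b₁ * (2 * cos z ^ 2 * b₂ - (b₁ + b₂)) + b₂ * (2 * cos z ^ 2 * b₁ - (b₁ + b₂))) := by
        rw [k₁, k₂]
        linear_combination (b₁ * (2 * cos z ^ 2 * b₂ - (b₁ + b₂)) +
          b₂ * (2 * cos z ^ 2 * b₁ - (b₁ + b₂))) * hI
      linear_combination e3 - e4 + (2 * cos z ^ 2 - 2) * hq
    have e5 : 2 * sin z ^ 3 * (2 * cos z ^ 2 - b₁ * b₂) =
        sin z * (2 * (1 - cos z ^ 2) * (2 * cos z ^ 2 - b₁ * b₂)) := by rw [← hs2]; ring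
    rw [e5]
    linear_combination sin z * e2
  -- the hyperbolic cosines
  have hC₂ : (b₁ + b₂) * cosh q₂ = I * (b₂ ^ 2 + (2 * cos z ^ 2 - b₁ * b₂)) := by
    apply mul_left_cancel₀ hX
    linear_combination (b₁ + b₂) * k₂ - I * hq
  have hC₁ : (b₁ + b₂) * cosh q₁ = I * (b₁ ^ 2 + (2 * cos z ^ 2 - b₁ * b₂)) := by
    apply mul_left_cancel₀ hX
    linear_combination (b₁ + b₂) * k₁ - I * hq
  have hW : (2 * cos z ^ 2 - b₁ * b₂) ^ 2 = (b₁ * b₂) ^ 2 - (b₁ + b₂) ^ 2 := by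
    linear_combination hq
  generalize (2 * cos z ^ 2 - b₁ * b₂ : ℂ) = W at hD hC₁ hC₂ hW
  -- real quantities
  have hang := TwoD_angle hi₁ hi₁' hi₂ hi₂'
  have hWn : ‖b₁ + b₂‖ ^ 2 - (‖b₁‖ * ‖b₂‖) ^ 2 ≤ ‖W‖ ^ 2 := by
    have e : ‖W‖ ^ 2 = ‖(b₁ * b₂) ^ 2 - (b₁ + b₂) ^ 2‖ := by rw [← norm_pow, hW]
    rw [e, ← norm_mul, ← norm_pow, ← norm_pow, norm_sub_rev]
    exact norm_sub_norm_le _ _
  have hc₂ : ‖b₁ + b₂‖ * ‖cosh q₂‖ ≤ ‖b₂‖ ^ 2 + ‖W‖ := by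
    rw [← norm_mul, hC₂, norm_mul, norm_I, one_mul, ← norm_pow]
    exact norm_add_le _ _
  have hc₁ : ‖b₁ + b₂‖ * ‖cosh q₁‖ ≤ ‖b₁‖ ^ 2 + ‖W‖ := by
    rw [← norm_mul, hC₁, norm_mul, norm_I, one_mul, ← norm_pow]
    exact norm_add_le _ _
  have hu : (0 : ℝ) < ‖b₁‖ := by linarith
  have hv : (0 : ℝ) < ‖b₂‖ := by linarith
  have hS0 : 0 ≤ ‖b₁ + b₂‖ := norm_nonneg _
  have hW0 : 0 ≤ ‖W‖ := norm_nonneg _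
  have huv : 0 < ‖b₁‖ * ‖b₂‖ := mul_pos hu hv
  have huv1 : ‖b₁‖ * ‖b₂‖ ≤ 1 := by nlinarith
  have hS : 0 < ‖b₁ + b₂‖ := by
    rcases hS0.lt_or_eq with h | h
    · exact h
    · rw [← h] at hang
      nlinarith [sq_nonneg ‖b₁‖, sq_nonneg ‖b₂‖]
  have hb : ‖b₁‖ + ‖b₂‖ ≤ 1.083 * ‖b₁ + b₂‖ := by
    refine abs_le_of_sq_le_sq' ?_ (by positivity) |>.2
    nlinarith [sq_nonneg (‖b₁‖ - ‖b₂‖)]
  have hW1 : 1.2 * (‖b₁‖ * ‖b₂‖) ≤ ‖W‖ := by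
    refine abs_le_of_sq_le_sq' ?_ hW0 |>.2
    nlinarith [sq_nonneg (‖b₁‖ - ‖b₂‖)]
  have key : (‖b₁‖ + ‖b₂‖) * (‖b₁‖ * ‖b₂‖ + ‖W‖) < 2 * ‖b₁ + b₂‖ * ‖W‖ := by
    have h1 : (‖b₁‖ + ‖b₂‖) * (‖b₁‖ * ‖b₂‖ + ‖W‖) ≤
        1.083 * ‖b₁ + b₂‖ * (‖b₁‖ * ‖b₂‖ + ‖W‖) :=
      mul_le_mul_of_nonneg_right hb (by positivity)
    nlinarith [mul_pos hS huv]
  have hfin : ‖b₁‖ * ‖cosh q₂‖ + ‖b₂‖ * ‖cosh q₁‖ < 2 * ‖W‖ := by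
    apply lt_of_mul_lt_mul_left _ hS.le
    calc ‖b₁ + b₂‖ * (‖b₁‖ * ‖cosh q₂‖ + ‖b₂‖ * ‖cosh q₁‖)
        = ‖b₁‖ * (‖b₁ + b₂‖ * ‖cosh q₂‖) + ‖b₂‖ * (‖b₁ + b₂‖ * ‖cosh q₁‖) := by ring
      _ ≤ ‖b₁‖ * (‖b₂‖ ^ 2 + ‖W‖) + ‖b₂‖ * (‖b₁‖ ^ 2 + ‖W‖) := by gcongr
      _ = (‖b₁‖ + ‖b₂‖) * (‖b₁‖ * ‖b₂‖ + ‖W‖) := by ring
      _ < 2 * ‖b₁ + b₂‖ * ‖W‖ := key
      _ = ‖b₁ + b₂‖ * (2 * ‖W‖) := by ring
  have hκ : 0 < ‖cos z‖ := norm_pos_iff.2 hc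
  have hσ : 0 < ‖sin z‖ := norm_pos_iff.2 hs
  have hn₁ : 0 < ‖cosh q₁‖ := norm_pos_iff.2 hq₁
  have hn₂ : 0 < ‖cosh q₂‖ := norm_pos_iff.2 hq₂
  have hT₁ : ‖tanh q₁‖ * (‖cos z‖ * ‖cosh q₁‖) = ‖b₁‖ * ‖sin z‖ := by
    rw [← norm_mul, ← norm_mul, ← norm_mul, ← h₁, tanh_eq_sinh_div_cosh]
    congr 1
    field_simp
  have hT₂ : ‖tanh q₂‖ * (‖cos z‖ * ‖cosh q₂‖) = ‖b₂‖ * ‖sin z‖ := by
    rw [← norm_mul, ← norm_mul, ← norm_mul, ← h₂, tanh_eq_sinh_div_cosh]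
    congr 1
    field_simp
  have hDn : ‖2 * (cos z * sin z) - I * (tanh q₁ + tanh q₂)‖ *
      (‖cos z‖ * (‖cosh q₁‖ * ‖cosh q₂‖)) = 2 * ‖sin z‖ ^ 3 * ‖W‖ := by
    rw [← norm_mul, ← norm_mul, ← norm_mul, hD, norm_mul, norm_mul, norm_pow, Complex.norm_ofNat]
  have hP : 0 < ‖cos z‖ * (‖cosh q₁‖ * ‖cosh q₂‖) := by positivity
  apply lt_of_mul_lt_mul_right _ hP.le
  rw [hDn]
  calc ‖sin z‖ ^ 2 * (‖tanh q₁‖ + ‖tanh q₂‖) * (‖cos z‖ * (‖cosh q₁‖ * ‖cosh q₂‖))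
      = ‖sin z‖ ^ 2 * ((‖tanh q₁‖ * (‖cos z‖ * ‖cosh q₁‖)) * ‖cosh q₂‖ +
          (‖tanh q₂‖ * (‖cos z‖ * ‖cosh q₂‖)) * ‖cosh q₁‖) := by ring
    _ = ‖sin z‖ ^ 3 * (‖b₁‖ * ‖cosh q₂‖ + ‖b₂‖ * ‖cosh q₁‖) := by rw [hT₁, hT₂]; ring
    _ < ‖sin z‖ ^ 3 * (2 * ‖W‖) := mul_lt_mul_of_pos_left hfin (by positivity)
    _ = 2 * ‖sin z‖ ^ 3 * ‖W‖ := by ring

/-- Dominance for an end `2`: the ratio is `1/2`
(`cosh q = 1 - 2κ²`, `tanh q = 2iκσ/(1 - 2κ²)`, `2κσ - i tanh q = 4 κ σ³/(1 - 2κ²)`). -/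
theorem dom_end {z q b : ℂ} (h : 2 * z = (Real.pi : ℂ) + I * q) (h₁ : sinh q * cos z = b * sin z)
    (hc : cos z ≠ 0) (hs : sin z ≠ 0) (hq : cosh q ≠ 0) :
    ‖sin z‖ ^ 2 * ‖tanh q‖ < ‖2 * (cos z * sin z) - I * tanh q‖ := by
  obtain ⟨e1, e2⟩ := two_half (z := z) (q₁ := q) (q₂ := 0) (by rw [add_zero]; exact h)
  rw [add_zero] at e1 e2
  have hcs : cos z ^ 2 + sin z ^ 2 = 1 := by rw [add_comm]; exact sin_sq_add_cos_sq z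
  have hI : I ^ 2 = -1 := I_sq
  have hsq : sinh q = 2 * I * (cos z * sin z) := by
    have : sinh q = 2 * sinh (q / 2) * cosh (q / 2) := by
      rw [← sinh_two_mul]; congr 1; ring
    rw [this, e1, e2]
    linear_combination (2 * sinh (q / 2) * cosh (q / 2)) * hI
  have hcq : cosh q = 1 - 2 * cos z ^ 2 := by
    have : cosh q = cosh (q / 2) ^ 2 + sinh (q / 2) ^ 2 := by
      rw [← cosh_two_mul]; congr 1; ring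
    rw [this, e1]
    have h3 := cosh_sq_sub_sinh_sq (q / 2)
    linear_combination h3 + (2 * sinh (q / 2) ^ 2) * hI
  have hκ : 0 < ‖cos z‖ := norm_pos_iff.2 hc
  have hσ : 0 < ‖sin z‖ := norm_pos_iff.2 hs
  have hn : 0 < ‖cosh q‖ := norm_pos_iff.2 hq
  have hD : (2 * (cos z * sin z) - I * tanh q) * cosh q = 4 * cos z * sin z ^ 3 := by
    have e : (2 * (cos z * sin z) - I * tanh q) * cosh q =
        2 * (cos z * sin z) * cosh q - I * sinh q := by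
      rw [tanh_eq_sinh_div_cosh]
      field_simp
    rw [e, hsq, hcq]
    linear_combination (-2 * cos z * sin z) * hI + (-4 * cos z * sin z) * hcs
  have hT : tanh q * cosh q = 2 * I * (cos z * sin z) := by
    rw [tanh_eq_sinh_div_cosh, div_mul_cancel₀ _ hq, hsq]
  have hDn : ‖2 * (cos z * sin z) - I * tanh q‖ * ‖cosh q‖ = 4 * ‖cos z‖ * ‖sin z‖ ^ 3 := by
    rw [← norm_mul, hD, norm_mul, norm_mul, norm_pow, Complex.norm_ofNat]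
  have hTn : ‖tanh q‖ * ‖cosh q‖ = 2 * (‖cos z‖ * ‖sin z‖) := by
    rw [← norm_mul, hT, norm_mul, norm_mul, norm_mul, norm_I, Complex.norm_ofNat, mul_one]
  apply lt_of_mul_lt_mul_right _ hn.le
  rw [hDn, mul_assoc, hTn]
  have : 0 < ‖cos z‖ * ‖sin z‖ ^ 3 := by positivity
  nlinarith

end Pool.Agent.S3.E
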