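import Pool.Agent.S3.E.Defs

/-!
# Stage 3, block E: slot lemmas

Proofs.  Put `m = ρ |t|`, `γ = α + β`.  Then `m² = sinh² p + sin² r = (cosh 2p - cos 2r)/2` and
`D := |1 + w²| = |cosh q|² = (cosh 2p + cos 2r)/2`, `D² = 1 + 2 m² cos 2γ + m⁴`; hence
`cosh 2p = m² + D`, `cos 2r = D - m²`.  The function `s ↦ s + √(1 + 2 s G + s²)` (`-1 ≤ G ≤ 1`,
`s ≥ 0`) is increasing in `s` and in `G`.  With `s ≤ |t|²`, `G ≤ cos 2α`:
`cosh 2p ≤ |t|² + |1 + t²| = (|σ|² + 1)/|κ|²`.  With `s ≤ |σ|²`, `G ≤ cos 2α`, `|κ| ≥ 1`: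
`cosh 2p ≤ |σ|² + √(1 + 2|σ|² cos 2α + |σ|⁴) ≤ |σ|² + |κ|² = cosh 2I`, the last inequality is
`1 + (2 - c² - g²)/(c + g) ≤ c g`, i.e. `(c + g - 2)(c + 1)(g + 1) ≥ 0` (`geo: cos_two_al`).
-/

namespace Pool.Agent.S3.E

open Real

/-- `tan r = tan γ tanh p ≥ tan α tanh p`. -/
theorem Slot.arctan_le {R I ρ β p r : ℝ} (hs : Slot R I ρ β p r) (h : 0 < R) (h' : R < π / 2)
    (hI : 0 < I) : arctan (tan (al R I) * tanh p) ≤ r := by
  rcases eq_or_lt_of_le hs.r1 with h1 | h1
  · rw [h1]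
    exact (arctan_lt_pi_div_two _).le
  · have hc : 0 < cos r := cos_pos_of_mem_Ioo ⟨by linarith [hs.r0, pi_pos], h1⟩
    have hch : 0 < cosh p := cosh_pos p
    have hca : 0 < cos (al R I) := by
      unfold al
      exact cos_arctan_pos _
    have hm : 0 ≤ ρ * tt R I := mul_nonneg hs.ρ0 (sqrt_nonneg _)
    have hb : 0 ≤ sin β := by
      have h2 : -(π / 2) < al R I := by
        unfold al
        exact neg_pi_div_two_lt_arctan _
      exact sin_nonneg_of_nonneg_of_le_pi hs.β0 (by linarith [hs.g1])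
    have hsb : sin β = sin (al R I + β) * cos (al R I) - cos (al R I + β) * sin (al R I) := by
      rw [← sin_sub]
      congr 1
      ring
    have hk : tan (al R I) * tanh p ≤ tan r := by
      rw [tan_eq_sin_div_cos, tan_eq_sin_div_cos, tanh_eq_sinh_div_cosh, div_mul_div_comm,
        div_le_div_iff₀ (mul_pos hca hch) hc]
      have e1 := hs.e1
      have e2 := hs.e2
      have h3 : sin (al R I) * sinh p * cos r =
          ρ * tt R I * (cos (al R I + β) * sin (al R I)) := by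
        rw [mul_assoc, e1]
        ring
      have h4 : sin r * (cos (al R I) * cosh p) =
          ρ * tt R I * (sin (al R I + β) * cos (al R I)) := by
        have : sin r * (cos (al R I) * cosh p) = cos (al R I) * (cosh p * sin r) := by ring
        rw [this, e2]
        ring
      rw [h3, h4]
      apply mul_le_mul_of_nonneg_left _ hm
      linarith
    calc arctan (tan (al R I) * tanh p) ≤ arctan (tan r) := arctan_mono hk
      _ = r := arctan_tan (by linarith [hs.r0, pi_pos]) h1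

/-- Subadditivity: with `x = tanh p`, `x' = tanh p'`, either `T² x x' ≥ 1` and the right side is
`≥ π/2`, or `tan (right side) = T (x + x')/(1 - T² x x') ≥ T (x + x')/(1 + x x')`. -/
theorem arctan_subadd {T p p' : ℝ} (hT : 0 ≤ T) (hp : 0 ≤ p) (hp' : 0 ≤ p') :
    arctan (T * tanh (p + p')) ≤ arctan (T * tanh p) + arctan (T * tanh p') := by
  have hx : 0 ≤ tanh p := by
    rw [tanh_eq_sinh_div_cosh]
    exact div_nonneg (sinh_nonneg_iff.2 hp) (cosh_pos p).le
  have hx' : 0 ≤ tanh p' := by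
    rw [tanh_eq_sinh_div_cosh]
    exact div_nonneg (sinh_nonneg_iff.2 hp') (cosh_pos p').le
  have hadd : tanh (p + p') = (tanh p + tanh p') / (1 + tanh p * tanh p') := by
    have h1 := (cosh_pos p).ne'
    have h2 := (cosh_pos p').ne'
    have h3 := (cosh_pos (p + p')).ne'
    have h4 : 1 + tanh p * tanh p' ≠ 0 := by positivity
    rw [eq_div_iff h4]
    rw [tanh_eq_sinh_div_cosh, tanh_eq_sinh_div_cosh, tanh_eq_sinh_div_cosh]
    rw [sinh_add]
    rw [cosh_add] at h3 ⊢
    field_simp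
  by_cases hlt : T * tanh p * (T * tanh p') < 1
  · rw [arctan_add hlt]
    apply arctan_mono
    rw [hadd]
    have h5 : 0 < 1 - T * tanh p * (T * tanh p') := by linarith
    have h6 : 0 < 1 + tanh p * tanh p' := by positivity
    rw [mul_div_assoc', div_le_div_iff₀ h6 h5]
    have h7 : 0 ≤ T * (tanh p + tanh p') := by positivity
    have h8 : T * tanh p + T * tanh p' = T * (tanh p + tanh p') := by ring
    rw [h8]
    apply mul_le_mul_of_nonneg_left _ h7
    have h9 : 0 ≤ T * tanh p * (T * tanh p') := by positivity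
    have h10 : 0 ≤ tanh p * tanh p' := by positivity
    linarith
  · push Not at hlt
    have h11 : 0 < T * tanh p := by
      have h12 : 0 ≤ T * tanh p := by positivity
      rcases eq_or_lt_of_le h12 with h13 | h13
      · rw [← h13, zero_mul] at hlt
        linarith
      · exact h13
    have h14 : (T * tanh p)⁻¹ ≤ T * tanh p' := by
      rw [inv_le_iff_one_le_mul₀ h11]
      linarith
    have h15 := arctan_mono h14
    rw [arctan_inv_of_pos h11] at h15
    have h16 := arctan_lt_pi_div_two (T * tanh (p + p'))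
    linarith

private theorem slC_sinh (p r : ℝ) :
    Complex.sinh ((p : ℂ) + (r : ℂ) * Complex.I) =
      ((sinh p * cos r : ℝ) : ℂ) + ((cosh p * sin r : ℝ) : ℂ) * Complex.I := by
  rw [Complex.sinh_add, Complex.sinh_mul_I, Complex.cosh_mul_I]
  push_cast
  ring

private theorem slC_cosh (p r : ℝ) :
    Complex.cosh ((p : ℂ) + (r : ℂ) * Complex.I) =
      ((cosh p * cos r : ℝ) : ℂ) + ((sinh p * sin r : ℝ) : ℂ) * Complex.I := by
  rw [Complex.cosh_add, Complex.sinh_mul_I, Complex.cosh_mul_I]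
  push_cast
  ring

/-- `tanh q` for `q = p + i r` with `0 ≤ p`, `0 ≤ r ≤ π/2` is in the closed first quadrant. -/
theorem tanh_quadrant {p r : ℝ} (hp : 0 ≤ p) (hr : 0 ≤ r) (hr' : r ≤ π / 2) :
    0 ≤ (Complex.tanh ((p : ℂ) + (r : ℂ) * Complex.I)).re ∧
      0 ≤ (Complex.tanh ((p : ℂ) + (r : ℂ) * Complex.I)).im := by
  have hsp : 0 ≤ sinh p := sinh_nonneg_iff.2 hp
  have hcp : 0 < cosh p := cosh_pos p
  have hsr : 0 ≤ sin r := sin_nonneg_of_nonneg_of_le_pi hr (by linarith [pi_pos])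
  have hcr : 0 ≤ cos r := cos_nonneg_of_mem_Icc ⟨by linarith [pi_pos], hr'⟩
  rw [Complex.tanh_eq_sinh_div_cosh, slC_sinh, slC_cosh]
  rw [Complex.div_re, Complex.div_im]
  simp only [Complex.add_re, Complex.add_im, Complex.mul_re, Complex.mul_im, Complex.ofReal_re,
    Complex.ofReal_im, Complex.I_re, Complex.I_im, mul_zero, mul_one, zero_mul, sub_zero, add_zero,
    zero_add, sub_self]
  constructor
  · have hN := Complex.normSq_nonneg
      (((cosh p * cos r : ℝ) : ℂ) + ((sinh p * sin r : ℝ) : ℂ) * Complex.I)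
    positivity
  · rw [← sub_div]
    apply div_nonneg _ (Complex.normSq_nonneg _)
    have h1 : cosh p * sin r * (cosh p * cos r) - sinh p * cos r * (sinh p * sin r) =
        (cosh p ^ 2 - sinh p ^ 2) * (sin r * cos r) := by ring
    rw [h1, cosh_sq_sub_sinh_sq, one_mul]
    positivity

/-- `‖tanh q‖² (cosh 2p + cos 2r) = cosh 2p - cos 2r` (if `cosh q ≠ 0`). -/
theorem norm_tanh_sq (p r : ℝ) (h : 0 < cosh (2 * p) + cos (2 * r)) :
    ‖Complex.tanh ((p : ℂ) + (r : ℂ) * Complex.I)‖ ^ 2 =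
      (cosh (2 * p) - cos (2 * r)) / (cosh (2 * p) + cos (2 * r)) := by
  have h1 : ‖Complex.sinh ((p : ℂ) + (r : ℂ) * Complex.I)‖ ^ 2 =
      (cosh (2 * p) - cos (2 * r)) / 2 := by
    rw [slC_sinh, ← Complex.normSq_eq_norm_sq, Complex.normSq_add_mul_I, cosh_two_mul, cos_two_mul]
    have h2 := cosh_sq p
    have h3 := sin_sq r
    rw [mul_pow, mul_pow, h2, h3]
    ring
  have h4 : ‖Complex.cosh ((p : ℂ) + (r : ℂ) * Complex.I)‖ ^ 2 =
      (cosh (2 * p) + cos (2 * r)) / 2 := by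
    rw [slC_cosh, ← Complex.normSq_eq_norm_sq, Complex.normSq_add_mul_I, cosh_two_mul, cos_two_mul]
    have h2 := cosh_sq p
    have h3 := sin_sq r
    rw [mul_pow, mul_pow, h2, h3]
    ring
  rw [Complex.tanh_eq_sinh_div_cosh, norm_div, div_pow, h1, h4]
  field_simp

end Pool.Agent.S3.E
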