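import Pool.Agent.S3.E.SlA
import Pool.Agent.S3.E.SlC

/-!
# Stage 3, block E: Lemma C, `arg (b_j tan z) < π/2` when `arg b_j ≤ 7/10`

Suppose `α + β₁ = π/2`, `β₁ ≤ 7/10`, `1/2 ≤ ρ₁ ≤ 1`, `ρ₂ ≤ 1`.  Slot 1, `e1`: `sinh p₁ cos r₁ = 0`.

Case `r₁ = π/2`: `cosh p₁ = ρ₁ |t|`, so `|t| ≥ 1`, `R ≥ π/4`; `a R = π/2 - r₂ ≤ π/2` gives `R = π/4`,
`a = 2`, `r₂ = 0`, `p₁ = 0` (as `|t| = 1`), so `p₂ = 2 I > 0`; but `r₂ = 0` and `e2` force
`ρ₂ sin (α + β₂) = 0`, `ρ₂ = 0`, `p₂ = 0`, a contradiction.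

Case `p₁ = 0`: `sin r₁ = ρ₁ |t| ≥ |t|/2`, `p₂ = a I ≥ 2 I`.  By Lemma P
`2c² - 1 = cosh 4I ≤ cosh 2p₂ ≤ (2 + c - g)/(c + g)`, which is `g ≤ 1/c + 1/c² - c`  (P);
`2R + r₁ + r₂ ≤ π` with `r₂ ≥ arctan (T tanh 2I) = arctan ((c² - 1)/(c sin 2R))`  (B);
`T = tan α = cot β₁ ≥ cot (7/10)`, so `c² - 1 ≥ K (1 - g²)`, `K = 1.409`  (T).

`g ≥ 0`: (P) gives `c³ ≤ c + 1`, `c ≤ 1.325`, and `1 - g ≥ (c + 1)² (c - 1)/c²`; (T) gives
`(c - 1)(c + 1) ≥ K (1 - g) ≥ K (c + 1)² (c - 1)/c²`, so `c² ≥ K (c + 1) ≥ 2K`, false.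

`g < 0`: `y = -g`, `2R = π - ψ`, `cos ψ = y`, `0 < ψ < π/2`, `|t|² = (c + y)/(c - y) > 1`.
 (B): `arctan ((c² - 1)/(c sin ψ)) + r₁ ≤ ψ`, `sin r₁ ≥ |t|/2`.
 If `c ≥ 3/2`: `y ≥ c - 1/c - 1/c² ≥ 0.388`, `ψ ≤ 1.172`, `r₁ ≥ π/6`, and
 `arctan ((c² - 1)/(c sin ψ)) ≥ arctan (5/6) > 0.69 > ψ - π/6`.
 If `c < 3/2`: (T) gives `y² ≥ 1 - 1.25/1.409`, `y ≥ 0.335`, `ψ ≤ 1.229`, `|t|² ≥ 1.57`,
 `sin r₁ ≥ 0.626`, `r₁ ≥ 0.676`; `(c² - 1)/(c sin ψ) ≥ K sin ψ/c ≥ 0.939 sin ψ`; if `ψ ≤ 0.676`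
 contradiction; if `0.676 ≤ ψ ≤ 1.1` then `arctan (0.939 sin 0.676) > 0.53 > 1.1 - 0.676`; if
 `ψ ≥ 1.1` then `arctan (0.939 sin 1.1) > 0.69 > 1.229 - 0.676`.
-/

namespace Pool.Agent.S3.E

open Real

private theorem VC_cos_seven_fifths : 1 / 6 ≤ cos (7 / 5 : ℝ) := by
  have h1 := Real.pi_gt_d4
  have h2 := Real.pi_lt_d4
  have e : cos (7 / 5 : ℝ) = sin (π / 2 - 7 / 5) := by rw [Real.sin_pi_div_two_sub]
  rw [e]
  have hx0 : (0 : ℝ) < π / 2 - 7 / 5 := by linarith only [h1]
  have hs3 := Real.sin_gt_sub_cube hx0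
  set x := π / 2 - 7 / 5 with hx
  have hxl : (0.17 : ℝ) ≤ x := by rw [hx]; linarith only [h1]
  have hxu : x ≤ (0.171 : ℝ) := by rw [hx]; linarith only [h2]
  have h3 : x ^ 3 ≤ (0.171 : ℝ) ^ 3 := pow_le_pow_left₀ hx0.le hxu 3
  have : (0.17 : ℝ) - (0.171 : ℝ) ^ 3 / 6 ≤ sin x := by linarith only [h3, hx, hs3, h2, h1]
  refine le_trans ?_ this
  norm_num

/-- The algebraic core, `g ≥ 0`. -/
private theorem VC_alg_nonneg {c g : ℝ} (hc : 1 < c) (hg : 0 ≤ g)
    (hP : c ^ 3 + c ^ 2 * g ≤ c + 1) (hT : 7 * (1 - g ^ 2) ≤ 5 * (c ^ 2 - 1)) (hg1 : g < 1) :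
    False := by
  have h0 : c ^ 3 ≤ c + 1 := by linarith only [hP, mul_nonneg (sq_nonneg c) hg]
  have hc2 : c < 7 / 5 := by
    by_contra h
    push Not at h
    linarith only [h0, h, mul_nonneg (sub_nonneg.mpr h) (sq_nonneg c),
      mul_nonneg (sub_nonneg.mpr h) (by linarith only [hc] : (0:ℝ) ≤ c)]
  -- `c² (1 - g) ≥ (c + 1)² (c - 1)`
  have h1 : (c + 1) ^ 2 * (c - 1) ≤ c ^ 2 * (1 - g) := by linarith only [hP]
  have h2 : 7 * (1 - g) ≤ 5 * (c ^ 2 - 1) := by (refine le_of_not_gt fun hng => ?_; linarith only [hT,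
                                                  hc,
                                                  mul_nonneg (sub_nonneg.2 hc.le) (sub_nonneg.2 h0),
                                                  mul_nonneg (sub_nonneg.2 hc.le) (sub_nonneg.2 hg),
                                                  mul_pos (sub_pos.2 hc) (sub_pos.2 hc),
                                                  mul_nonneg (sub_nonneg.2 hng.le) (sub_nonneg.2 hg),
                                                  mul_pos (sub_pos.2 hng) (sub_pos.2 hc),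
                                                  mul_pos (sub_pos.2 hng) (sub_pos.2 hng)])
  have h3 : 7 * ((c + 1) ^ 2 * (c - 1)) ≤ 5 * c ^ 2 * ((c + 1) * (c - 1)) := by
    linarith only [mul_le_mul_of_nonneg_left h2 (sq_nonneg c), hP]
  have h4 : 0 < (c + 1) * (c - 1) := mul_pos (by linarith only [hc]) (by linarith only [hc])
  have h5 : 7 * (c + 1) ≤ 5 * c ^ 2 := by
    by_contra h
    push Not at h
    linarith only [mul_pos h4 (sub_pos.mpr h), h3]
  linarith only [h5, hc2, hc, mul_nonneg (sq_nonneg (c)) (sub_nonneg.2 hc.le),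
    mul_nonneg (sq_nonneg (c + 1)) (sub_nonneg.2 hc2.le)]

/-- The algebraic core, `g = - y < 0`. -/
private theorem VC_alg_neg {c y u X : ℝ} (hc : 1 < c) (hy0 : 0 < y) (hy1 : y < 1)
    (hP : c ^ 3 ≤ c ^ 2 * y + c + 1) (hT : 7 * (1 - y ^ 2) ≤ 5 * (c ^ 2 - 1))
    (hu : u * (4 * (c - y)) = c + y) (hX : X * (c ^ 2 * (1 - y ^ 2)) = (c ^ 2 - 1) ^ 2) :
    1 < y ^ 2 + u + X * (y ^ 2 + u + y) := by
  have hcy : 0 < c - y := by linarith only [hy1, hc]
  have hq : 0 < 1 - y ^ 2 := by linarith only [hy1, mul_pos (sub_pos.2 hy0) (sub_pos.2 hy1)]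
  have hc0 : 0 < c := by linarith only [hc]
  have hD : 0 < c ^ 2 * (1 - y ^ 2) := by positivity
  have hw : 0 < c ^ 2 - 1 := by linarith only [hq, hT]
  have hu0 : 0 < u := by
    by_contra h
    push Not at h
    linarith only [hu, hy0, mul_nonneg (sub_nonneg.2 hy1.le) (sub_nonneg.2 h),
      mul_nonneg (sub_nonneg.2 hc.le) (sub_nonneg.2 h), mul_pos (sub_pos.2 hc) (sub_pos.2 hy1),
      mul_pos (sub_pos.2 hc) (sub_pos.2 hy0)]
  have hX0 : 0 < X := by
    by_contra h
    push Not at h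
    linarith only [pow_pos hw 2, hX, mul_nonneg (sub_nonneg.2 hD.le) (sub_nonneg.2 h)]
  -- lower bounds for `u`, `X`
  have ulow : ∀ U : ℝ, U * (4 * (c - y)) ≤ c + y → U ≤ u := by
    intro U hU
    by_contra h
    push Not at h
    linarith only [hU, hu, mul_pos (sub_pos.2 hy1) (sub_pos.2 h),
      mul_pos (sub_pos.2 hc) (sub_pos.2 h)]
  have Xlow : ∀ Z : ℝ, Z * (c ^ 2 * (1 - y ^ 2)) ≤ (c ^ 2 - 1) ^ 2 → Z ≤ X := by
    intro Z hZ
    by_contra h
    push Not at h
    linarith only [hZ, hX, mul_pos (sub_pos.2 hD) (sub_pos.2 h)]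
  rcases le_total (3 / 2) c with h | h
  · -- `c ≥ 3/2`
    have hy : 7 / 18 ≤ y := by
      by_contra hn
      push Not at hn
      have : 0 ≤ (c - 3 / 2) * (c ^ 2 + 10 / 9 * c + 2 / 3) := by
        apply mul_nonneg
        · linarith only [h]
        · linarith only [h, sq_nonneg c]
      linarith only [mul_pos (pow_pos hc0 2) (sub_pos.mpr hn), this, hP]
    have hU : 17 / 40 ≤ u := by
      apply ulow
      have h1 : 7 * c ≤ 27 * y := by
        by_contra hn
        push Not at hn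
        have h2 : 27 * (c + 1) ≤ 20 * c ^ 3 := by
          linarith only [mul_nonneg (sub_nonneg.mpr h) (sq_nonneg (c + 1)), h,
            mul_nonneg (sq_nonneg (c)) (sub_nonneg.2 h)]
        linarith only [mul_pos (pow_pos hc0 2) (sub_pos.mpr hn), h2, hP]
      linarith only [h1]
    have hZ : 25 / 36 ≤ X := by
      apply Xlow
      have h1 : 5 / 6 * c ≤ c ^ 2 - 1 := by (refine le_of_not_gt fun hng => ?_; linarith only [hng,
                                              mul_nonneg (sub_nonneg.2 hc.le) (sub_nonneg.2 h),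
                                              mul_pos (sub_pos.2 hng) (sub_pos.2 hc),
                                              mul_nonneg (sq_nonneg (c)) (sub_nonneg.2 h)])
      have h2 : (5 / 6 * c) ^ 2 ≤ (c ^ 2 - 1) ^ 2 := pow_le_pow_left₀ (by positivity) h1 2
      linarith only [mul_nonneg (sq_nonneg c) (sq_nonneg y), h2]
    have h1 : (7 / 18 : ℝ) ^ 2 ≤ y ^ 2 := pow_le_pow_left₀ (by norm_num) hy 2
    have h2 : (25 / 36 : ℝ) * ((7 / 18) ^ 2 + 17 / 40 + 7 / 18) ≤ X * (y ^ 2 + u + y) :=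
      mul_le_mul hZ (by linarith only [h1, hU, hy]) (by norm_num) hX0.le
    norm_num at h1 h2
    linarith only [h2, h1, hU, hu0]
  · rcases le_total (c ^ 2 - 1) (22 / 25) with h' | h'
    · -- `c² - 1 ≤ 22/25`: `y² + u ≥ 1`
      have hU : 1 - y ^ 2 ≤ u := by
        apply ulow
        -- `4 q (c - y) ≤ c + y`
        have hqw : 1 - y ^ 2 ≤ 5 / 7 * (c ^ 2 - 1) := by linarith only [hT]
        have hcy2 : (4 / 5 : ℝ) ≤ c * y := by
          have h1 : (16 / 25 : ℝ) ≤ c ^ 2 * y ^ 2 := by (refine le_of_not_gt fun hng => ?_; linarith only [hT,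
                                                          mul_nonneg (sub_nonneg.2 hq.le) (sub_nonneg.2 h'),
                                                          mul_pos (sub_pos.2 hc) (sub_pos.2 hy1),
                                                          mul_pos (sub_pos.2 hc) (sub_pos.2 hy0),
                                                          mul_pos (sub_pos.2 hc) (sub_pos.2 hc),
                                                          mul_pos (sub_pos.2 hng) (sub_pos.2 hy1),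
                                                          mul_pos (sub_pos.2 hng) (sub_pos.2 hy0),
                                                          mul_nonneg (sq_nonneg (c)) (sub_nonneg.2 h'),
                                                          mul_nonneg (sq_nonneg (c)) (sub_nonneg.2 hT)])
          by_contra hn
          push Not at hn
          have h3 : (c * y) ^ 2 < (4 / 5) ^ 2 := pow_lt_pow_left₀ hn (by positivity) (by norm_num)
          linarith only [h3, h1]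
        have h4 : 4 * (1 - y ^ 2) * ((c ^ 2 - 1) + (1 - y ^ 2)) ≤ (c + y) ^ 2 := by
          have h5 : (1 - y ^ 2) * ((c ^ 2 - 1) + (1 - y ^ 2)) ≤
              (5 / 7 * (c ^ 2 - 1)) * ((c ^ 2 - 1) + 5 / 7 * (c ^ 2 - 1)) :=
            mul_le_mul hqw (by linarith only [hT]) (by linarith only [hq, hT]) (by linarith only [hq,
                                                                                     hT])
          (refine le_of_not_gt fun hng => ?_; linarith only [h5, hcy2, hT,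
            mul_nonneg (sub_nonneg.2 hq.le) (sub_nonneg.2 h'),
            mul_nonneg (sub_nonneg.2 hT) (sub_nonneg.2 hD.le),
            mul_nonneg (sub_nonneg.2 hng.le) (sub_nonneg.2 hT),
            mul_pos (sub_pos.2 hng) (sub_pos.2 hy1), mul_pos (sub_pos.2 hng) (sub_pos.2 hy0),
            mul_nonneg (sq_nonneg (c + y)) (sub_nonneg.2 hcy2),
            mul_nonneg (sq_nonneg (c)) (sub_nonneg.2 h'),
            mul_nonneg (sq_nonneg (y)) (sub_nonneg.2 h5),
            mul_nonneg (sq_nonneg (y)) (sub_nonneg.2 hcy2),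
            mul_nonneg (sq_nonneg (y)) (sub_nonneg.2 hq.le)])
        have h6 : (c - y) * (c + y) = (c ^ 2 - 1) + (1 - y ^ 2) := by ring
        have h7 : 0 < c + y := by linarith only [hy0, hc]
        by_contra hn
        push Not at hn
        linarith only [mul_pos h7 (sub_pos.mpr hn), h4]
      linarith only [mul_pos hX0 (by positivity : 0 < y ^ 2 + u + y), hU]
    · have hy2 : (3 / 28 : ℝ) ≤ y ^ 2 := by linarith only [h, hT,
                                              mul_nonneg (sub_nonneg.2 hc.le) (sub_nonneg.2 h)]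
      have hy : (8 / 25 : ℝ) ≤ y := by
        by_contra hn
        push Not at hn
        linarith only [hn, hT, hP, mul_pos (sub_pos.2 hy0) (sub_pos.2 hn),
          mul_pos (sub_pos.2 hy0) (sub_pos.2 hy1), mul_nonneg (sub_nonneg.2 hc.le) (sub_nonneg.2 h),
          mul_nonneg (sub_nonneg.2 hc.le) (sub_nonneg.2 hT),
          mul_nonneg (sq_nonneg (c)) (sub_nonneg.2 hn.le),
          mul_nonneg (sq_nonneg (y)) (sub_nonneg.2 h)]
      have hU : (19 / 50 : ℝ) ≤ u := by
        apply ulow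
        linarith only [hy, h, hy0]
      have hZ : (13 / 20 : ℝ) ≤ X := by
        apply Xlow
        have h1 : 13 / 20 * c ^ 2 ≤ 7 / 5 * (c ^ 2 - 1) := by linarith only [h', hy1, hy0]
        linarith only [mul_le_mul_of_nonneg_left hT hw.le, mul_le_mul_of_nonneg_right h1 hq.le]
      have h2 : (13 / 20 : ℝ) * (3 / 28 + 19 / 50 + 8 / 25) ≤ X * (y ^ 2 + u + y) :=
        mul_le_mul hZ (by linarith only [hU, hy, hy2]) (by norm_num) hX0.le
      norm_num at h2
      linarith only [h2, hU, hy2, hu0]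

/-- Case `r₁ = π/2`. -/
private theorem VC_case_r {a R I ρ₁ β₁ p₁ r₁ ρ₂ β₂ p₂ r₂ : ℝ}
    (h : Vx a R I ρ₁ β₁ p₁ r₁ ρ₂ β₂ p₂ r₂) (hρ₁' : ρ₁ ≤ 1) (hγ : al R I + β₁ = π / 2)
    (hc : cos r₁ = 0) : False := by
  have hR0 := h.R0
  have hR1 := h.R1
  have hI0 := h.I0
  have ha := h.a2
  have htt := tt_pos (I := I) hR0 hR1
  have hr₁ : r₁ = π / 2 := by
    by_contra hne
    have hlt : r₁ < π / 2 := lt_of_le_of_ne h.sl₁.r1 hne
    have : 0 < cos r₁ := Real.cos_pos_of_mem_Ioo ⟨by linarith only [h.sl₁.r0, hR1, hR0], hlt⟩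
    linarith only [this, hc]
  have e2 := h.sl₁.e2
  rw [hγ, Real.sin_pi_div_two, hr₁, Real.sin_pi_div_two, mul_one, mul_one] at e2
  have hch : 1 ≤ cosh p₁ := Real.one_le_cosh p₁
  have ht1 : 1 ≤ tt R I := by
    have : ρ₁ * tt R I ≤ 1 * tt R I := mul_le_mul_of_nonneg_right hρ₁' htt.le
    linarith only [this, hch, e2]
  have hR4 := pi_div_four_le_of_one_le_tt hR0 hR1 ht1
  have hRe := h.hR
  rw [hr₁] at hRe
  have haR : 2 * R ≤ a * R := mul_le_mul_of_nonneg_right ha hR0.le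
  have hr₂ : r₂ = 0 := by linarith only [h.sl₂.r0, haR, hRe, hR4]
  have hR4' : R ≤ π / 4 := by linarith only [hr₂, haR, hRe]
  have ht1' := tt_le_one_of (I := I) hR0 hR4'
  have hch1 : cosh p₁ ≤ 1 := by
    have : ρ₁ * tt R I ≤ 1 * 1 := mul_le_mul hρ₁' ht1' htt.le zero_le_one
    linarith only [this, e2]
  have hp₁ : p₁ = 0 := by
    by_contra hne
    have := Real.one_lt_cosh.mpr hne
    linarith only [this, hch1]
  have hIe := h.hI
  have haI : 2 * I ≤ a * I := mul_le_mul_of_nonneg_right ha hI0.le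
  have hp₂ : 0 < p₂ := by linarith only [haI, hIe, hp₁, hI0]
  have e2' := h.sl₂.e2
  rw [hr₂, Real.sin_zero, mul_zero] at e2'
  have hal := al_pos hR0 hR1 hI0
  have hsin : 0 < sin (al R I + β₂) :=
    Real.sin_pos_of_pos_of_lt_pi (by linarith only [h.sl₂.β0, hal]) (by linarith only [h.sl₂.g1,
                                                                          hR1, hR0])
  have hρ₂0 : ρ₂ = 0 := by
    by_contra hne
    exact (mul_ne_zero (mul_ne_zero hne htt.ne') hsin.ne') e2'.symm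
  have hs := h.sl₂
  rw [hρ₂0] at hs
  have := hs.zero.1
  linarith only [this, haI, hIe, hp₁, hI0]

/-- (T). -/
private theorem VC_T {R I β₁ : ℝ} (hR0 : 0 < R) (hR1 : R < π / 2) (hI0 : 0 < I)
    (hβ0 : 0 ≤ β₁) (hβ₁ : β₁ ≤ 7 / 10) (hγ : al R I + β₁ = π / 2) :
    7 * (1 - gg R ^ 2) ≤ 5 * (cc I ^ 2 - 1) := by
  have h1 : cos (2 * al R I) = - cos (2 * β₁) := by
    have : 2 * al R I = π - 2 * β₁ := by linarith only [hγ]
    rw [this, Real.cos_pi_sub]
  have h2 : cos (7 / 5 : ℝ) ≤ cos (2 * β₁) := by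
    apply Real.cos_le_cos_of_nonneg_of_le_pi (by linarith only [hβ0]) (by linarith only [Real.pi_gt_three,
                                                                            hR1, hR0])
    linarith only [hβ₁]
  have h3 := VC_cos_seven_fifths
  have h4 := cos_two_al hR0 hR1 hI0
  have hc := one_lt_cc hI0
  have hg := gg_lt_one hR0 hR1
  have hg' := neg_one_lt_gg hR0 hR1
  have hd : 0 < cc I ^ 2 - gg R ^ 2 := by linarith only [hc, mul_pos (sub_pos.2 hg) (sub_pos.2 hg'),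
                                            mul_pos (sub_pos.2 hc) (sub_pos.2 hc)]
  have h5 : (2 - cc I ^ 2 - gg R ^ 2) / (cc I ^ 2 - gg R ^ 2) ≤ -(1 / 6) := by
    rw [← h4, h1]; linarith only [h3, h2]
  rw [div_le_iff₀ hd] at h5
  linarith only [h5]

/-- (P). -/
private theorem VC_P {R I ρ β p r : ℝ} (hs : Slot R I ρ β p r) (hR0 : 0 < R) (hR1 : R < π / 2)
    (hI0 : 0 < I) (hρ : ρ ≤ 1) (hp : 2 * I ≤ p) :
    cc I ^ 3 + cc I ^ 2 * gg R ≤ cc I + 1 := by
  have h1 := hs.le_x hR0 hR1 hI0 hρ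
  have h2 : cosh (2 * (2 * I)) ≤ cosh (2 * p) := by
    rw [Real.cosh_le_cosh, abs_of_nonneg (by linarith only [hI0]), abs_of_nonneg (by linarith only [hp,
                                                                                       hI0])]
    linarith only [hp]
  have h3 : cosh (2 * (2 * I)) = 2 * cc I ^ 2 - 1 := by
    rw [Real.cosh_two_mul, sinh_two_sq]
    unfold cc
    ring
  have hk := k2_pos (I := I) hR0 hR1
  have h4 : 2 * cc I ^ 2 - 1 ≤ (1 + s2 R I) / k2 R I := by linarith only [h3, h2, h1]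
  rw [le_div_iff₀ hk] at h4
  unfold k2 s2 at h4
  linarith only [h4]

/-- (B). -/
private theorem VC_B {R I ρ β p r r₁ : ℝ} (hs : Slot R I ρ β p r) (hR0 : 0 < R) (hR1 : R < π / 2)
    (hI0 : 0 < I) (hp : 2 * I ≤ p) (hr₁ : 0 ≤ r₁) (hsum : 2 * R + r₁ + r ≤ π) :
    -gg R * √(1 + ((cc I ^ 2 - 1) / (cc I * sin (2 * R))) ^ 2) +
      (cc I ^ 2 - 1) / (cc I * sin (2 * R)) * sin r₁ ≤ cos r₁ := by
  have h1 := hs.arctan_le hR0 hR1 hI0
  have hc := one_lt_cc hI0
  have hsin := sin_two_pos hR0 hR1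
  have hsh := sinh_two_pos hI0
  set X := (cc I ^ 2 - 1) / (cc I * sin (2 * R)) with hX
  have hX0 : 0 < X := by
    rw [hX]
    apply div_pos
    · linarith only [hc, mul_pos (sub_pos.2 hc) (sub_pos.2 hc)]
    · exact mul_pos (by linarith only [hc]) hsin
  have h2 : X ≤ tan (al R I) * tanh p := by
    rw [tan_al]
    have h3 : tanh (2 * I) ≤ tanh p := by
      rw [Real.tanh_eq_sinh_div_cosh, Real.tanh_eq_sinh_div_cosh,
        div_le_div_iff₀ (Real.cosh_pos _) (Real.cosh_pos _)]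
      have h5 : 0 ≤ sinh (p - 2 * I) := Real.sinh_nonneg_iff.mpr (by linarith only [hp])
      rw [Real.sinh_sub] at h5
      linarith only [h5]
    have h4 : X = sinh (2 * I) / sin (2 * R) * tanh (2 * I) := by
      rw [Real.tanh_eq_sinh_div_cosh, hX, ← sinh_two_sq]
      unfold cc
      have : cosh (2 * I) ≠ 0 := (Real.cosh_pos _).ne'
      field_simp
    rw [h4]
    exact mul_le_mul_of_nonneg_left h3 (div_pos hsh hsin).le
  have h3 : arctan X ≤ r := le_trans (Real.arctan_strictMono.monotone h2) h1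
  have h4 : 0 < arctan X := Real.arctan_pos.mpr hX0
  have h5 : cos (π - 2 * R) ≤ cos (arctan X + r₁) := by
    apply Real.cos_le_cos_of_nonneg_of_le_pi (by linarith only [h4, hr₁]) (by linarith only [hR0])
    linarith only [h3, hsum]
  rw [Real.cos_pi_sub, Real.cos_add, Real.cos_arctan, Real.sin_arctan] at h5
  have hsq : 0 < √(1 + X ^ 2) := Real.sqrt_pos.mpr (by positivity)
  have h6 : -cos (2 * R) ≤ (cos r₁ - X * sin r₁) / √(1 + X ^ 2) := by
    calc -cos (2 * R) ≤ 1 / √(1 + X ^ 2) * cos r₁ - X / √(1 + X ^ 2) * sin r₁ := h5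
      _ = (cos r₁ - X * sin r₁) / √(1 + X ^ 2) := by ring
  rw [le_div_iff₀ hsq] at h6
  unfold gg
  linarith only [h6]

/-- Squaring (B). -/
private theorem VC_sq {y X S C u : ℝ} (hy : 0 < y) (hX : 0 < X) (hS : 1 / 2 ≤ S) (hu : u ≤ S ^ 2)
    (hSC : S ^ 2 + C ^ 2 = 1) (h : y * √(1 + X ^ 2) + X * S ≤ C) :
    y ^ 2 + u + X ^ 2 * (y ^ 2 + u + y) ≤ 1 := by
  have h1 : √(1 + X ^ 2) ^ 2 = 1 + X ^ 2 := Real.sq_sqrt (by positivity)
  have h2 : X ≤ √(1 + X ^ 2) := Real.le_sqrt_of_sq_le (by linarith only [])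
  set Q := √(1 + X ^ 2) with hQ
  have hQ0 : 0 < Q := lt_of_lt_of_le hX h2
  have hl : 0 ≤ y * Q + X * S := by positivity
  have h3 : (y * Q + X * S) ^ 2 ≤ C ^ 2 := pow_le_pow_left₀ hl h 2
  have h4 : y * X ^ 2 ≤ 2 * (y * Q * (X * S)) := by
    have h5 : X * (1 / 2) ≤ Q * S := mul_le_mul h2 hS (by norm_num) hQ0.le
    have h6 := mul_le_mul_of_nonneg_left h5 (by positivity : 0 ≤ 2 * (y * X))
    linarith only [h6]
  have h7 : X ^ 2 * u ≤ X ^ 2 * S ^ 2 := mul_le_mul_of_nonneg_left hu (sq_nonneg X)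
  linarith only [h7, h4, h3, hSC, hu, mul_nonneg (sq_nonneg (y)) (sub_nonneg.2 h1.le),
    mul_nonneg (sq_nonneg (y)) (sub_nonneg.2 h1.ge)]

theorem Vx.lemC {a R I ρ₁ β₁ p₁ r₁ ρ₂ β₂ p₂ r₂ : ℝ} (h : Vx a R I ρ₁ β₁ p₁ r₁ ρ₂ β₂ p₂ r₂)
    (hρ₁ : 1 / 2 ≤ ρ₁) (hρ₁' : ρ₁ ≤ 1) (hρ₂ : ρ₂ ≤ 1) (hβ₁ : β₁ ≤ 7 / 10) :
    al R I + β₁ < π / 2 := by
  by_contra hcon
  push Not at hcon
  have hγ : al R I + β₁ = π / 2 := le_antisymm h.sl₁.g1 hcon
  have hR0 := h.R0
  have hR1 := h.R1
  have hI0 := h.I0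
  have ha := h.a2
  have htt := tt_pos (I := I) hR0 hR1
  have e1 := h.sl₁.e1
  rw [hγ, Real.cos_pi_div_two, mul_zero] at e1
  rcases mul_eq_zero.mp e1 with hp | hr
  · have hp₁ : p₁ = 0 := Real.sinh_eq_zero.mp hp
    have e2 := h.sl₁.e2
    rw [hγ, Real.sin_pi_div_two, hp₁, Real.cosh_zero, one_mul, mul_one] at e2
    have hp₂ : 2 * I ≤ p₂ := by
      have := h.hI
      have haI : 2 * I ≤ a * I := mul_le_mul_of_nonneg_right ha hI0.le
      linarith
    have hsum : 2 * R + r₁ + r₂ ≤ π := by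
      have := h.hR
      have haR : 2 * R ≤ a * R := mul_le_mul_of_nonneg_right ha hR0.le
      linarith
    have hT := VC_T hR0 hR1 hI0 h.sl₁.β0 hβ₁ hγ
    have hP := VC_P h.sl₂ hR0 hR1 hI0 hρ₂ hp₂
    have hB := VC_B h.sl₂ hR0 hR1 hI0 hp₂ h.sl₁.r0 hsum
    have hc := one_lt_cc hI0
    have hg := gg_lt_one hR0 hR1
    have hg' := neg_one_lt_gg hR0 hR1
    rcases le_or_gt 0 (gg R) with hg0 | hg0
    · exact VC_alg_nonneg hc hg0 hP hT hg
    · have hsin := sin_two_pos hR0 hR1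
      have hc0 : 0 < cc I := by linarith
      set X := (cc I ^ 2 - 1) / (cc I * sin (2 * R)) with hX
      have hX0 : 0 < X := by
        rw [hX]
        apply div_pos
        · linarith only [hc, mul_pos (sub_pos.2 hc) (sub_pos.2 hc)]
        · exact mul_pos hc0 hsin
      have hk := k2_pos (I := I) hR0 hR1
      have htsq := tt_sq (I := I) hR0 hR1
      have htk : tt R I ^ 2 * (cc I + gg R) = cc I - gg R := by
        have : tt R I ^ 2 * k2 R I = s2 R I := by
          rw [htsq]; field_simp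
        unfold k2 s2 at this
        linarith
      have hu : tt R I ^ 2 / 4 * (4 * (cc I - -gg R)) = cc I + -gg R := by
        linear_combination htk
      have ht1 : 1 ≤ tt R I ^ 2 := by
        by_contra hn
        push Not at hn
        linarith only [mul_pos (sub_pos.mpr hn) (by linarith : 0 < cc I + gg R), htk, hg0]
      have ht1' : 1 ≤ tt R I := by
        by_contra hn
        push Not at hn
        linarith only [hn, ht1, mul_pos (sub_pos.2 htt) (sub_pos.2 hn)]
      have hS : tt R I / 2 ≤ sin r₁ := by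
        rw [e2]
        have := mul_le_mul_of_nonneg_right hρ₁ htt.le
        linarith only [this]
      have hS2 : tt R I ^ 2 / 4 ≤ sin r₁ ^ 2 := by
        have := pow_le_pow_left₀ (by positivity : 0 ≤ tt R I / 2) hS 2
        linarith only [this]
      have hX2 : X ^ 2 * (cc I ^ 2 * (1 - (-gg R) ^ 2)) = (cc I ^ 2 - 1) ^ 2 := by
        have h1 : (1 - (-gg R) ^ 2) = sin (2 * R) ^ 2 := by
          rw [sin_two_sq]; ring
        rw [h1, hX, div_pow, ← mul_pow]
        exact div_mul_cancel₀ _ (pow_ne_zero 2 (mul_pos hc0 hsin).ne')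
      have hfin := VC_sq (y := -gg R) (u := tt R I ^ 2 / 4) (by linarith only [hg0]) hX0
        (by linarith only [hS, ht1']) hS2 (Real.sin_sq_add_cos_sq r₁) hB
      have halg := VC_alg_neg (c := cc I) (y := -gg R) (u := tt R I ^ 2 / 4) (X := X ^ 2) hc
        (by linarith only [hg0]) (by linarith only [hg']) (by linarith only [hP]) (by linarith only [hT]) hu hX2
      linarith only [halg, hfin]
  · exact VC_case_r h hρ₁' hγ hr

end Pool.Agent.S3.E
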