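import Pool.Agent.S3.E.D3
import Pool.Agent.S3.E.Der
import Pool.Agent.S3.E.Main
import Pool.Agent.S3.E.TwoD
import Pool.Agent.S3.E.VC

/-!
# Stage 3, block E: existence of the critical point, second part
-/

namespace Pool.Agent.S3.E

open Complex Topology

variable {ι : Type*}

namespace Zr

variable {a : ι → ℝ} {nl nr : ι → Option ι} {τ : ℝ} {z : ι → ℂ}

theorem al_be_lt [Finite ι] (h : Zr a nl nr τ z) {i j : ι} (hij : nl i = some j ∨ nr i = some j) :
    al (z i).re (z i).im + be τ z (some j) < Real.pi / 2 := by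
  have key : ph (z j).re (z j).im ≤ 7 / 10 →
      al (z i).re (z i).im + be τ z (some j) < Real.pi / 2 := by
    intro hj
    have hb : be τ z (some j) ≤ 7 / 10 := (h.be_le_ph j).trans hj
    have hv := h.vx i
    rcases hij with h1 | h1
    · rw [h1] at hv
      exact hv.lemC (h.ro_ge j) (h.ro_le_one _) (h.ro_le_one _) hb
    · rw [h1] at hv
      exact hv.swap.lemC (h.ro_ge j) (h.ro_le_one _) (h.ro_le_one _) hb
  rcases h.types j with h1 | ⟨h1, k, l, h2, h3⟩ | ⟨h1, k, h2⟩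
  · exact key (h.ph_le' j (Or.inl h1))
  · exact key (h.ph_le' j (Or.inr ⟨k, l, h2, h3⟩))
  · have h3 := h.N.symm i j hij
    have hk : k = i := by
      rcases h2 with ⟨h4, h5⟩ | ⟨h4, h5⟩ <;> rcases h3 with h6 | h6 <;> simp_all
    subst hk
    have h4 := h.ph_end h1 h2
    have h5 : be τ z (some j) = τ * ph (z j).re (z j).im := rfl
    have h6 : be τ z (some k) = τ * ph (z k).re (z k).im := rfl
    rw [h5, h4, h6, al_eq (h.pos k).1 (h.pos k).2.1 (h.pos k).2.2]
    have h7 := chi_phi_le (h.pos k).1 (h.pos k).2.1 (h.pos k).2.2 (h.k2_le k)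
    have h8 := h.ph_le k
    have h9 := h.phpos k
    have h10 := h.τ0
    rcases lt_or_eq_of_le h.τ1 with h11 | h11
    · have h12 : 0 < Real.pi := Real.pi_pos
      have h13 : 0 ≤ 1 - τ ^ 2 := by nlinarith
      have h14 : ph (z k).re (z k).im * (1 - τ ^ 2) ≤ Real.pi / 4 * (1 - τ ^ 2) :=
        mul_le_mul_of_nonneg_right h8 h13
      have h15 : 0 < Real.pi * (1 - τ) ^ 2 := mul_pos h12 (pow_pos (by linarith) 2)
      nlinarith
    · subst h11
      have h12 := chi_phi_lt (h.pos k).1 (h.pos k).2.1 (h.pos k).2.2 (h.k2_lt one_pos k)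
      linarith

theorem w_re_pos [Finite ι] (h : Zr a nl nr τ z) {i j : ι} (hij : nl i = some j ∨ nr i = some j) :
    0 < (bo τ z (some j) * tan (z i)).re := by
  rw [h.w_re]
  apply mul_pos (mul_pos (h.ro_pos j) (h.ttpos i))
  apply Real.cos_pos_of_mem_Ioo
  constructor
  · linarith [h.alpos i, h.be_nonneg (some j), Real.pi_pos]
  · exact h.al_be_lt hij

theorem re_pos (h : Zr a nl nr τ z) (i : ι) : 0 < (cos (z i)).re := by
  rw [cos_polar (h.pos i).1 (h.pos i).2.1, ← ofReal_neg, re_ofReal_mul, exp_ofReal_mul_I_re,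
    Real.cos_neg]
  apply mul_pos (h.norm_pos i)
  apply Real.cos_pos_of_mem_Ioo
  constructor <;> linarith [h.phpos i, h.ph_le i, Real.pi_pos]

theorem neg_im_le (h : Zr a nl nr τ z) (i : ι) : -(cos (z i)).im ≤ (cos (z i)).re := by
  rw [cos_polar (h.pos i).1 (h.pos i).2.1, ← ofReal_neg, re_ofReal_mul, im_ofReal_mul,
    exp_ofReal_mul_I_re, exp_ofReal_mul_I_im, Real.cos_neg, Real.sin_neg]
  have := mul_le_mul_of_nonneg_left (sin_le_cos (h.phpos i).le (h.ph_le i)) (h.norm_pos i).le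
  linarith

theorem im_lt [Finite ι] (h : Zr a nl nr τ z) (i : ι) : (z i).im < 2 := by
  have h1 := h.k2_le i
  have h2 := neg_one_lt_gg (h.pos i).1 (h.pos i).2.1
  have h3 : cc (z i).im < 3 := by unfold k2 at h1; linarith
  by_contra hc
  push Not at hc
  have h4 : 1 + (2 * (z i).im) ^ 2 / 2 ≤ Real.cosh (2 * (z i).im) := by
    have h5 : Real.cosh (2 * (z i).im) = 1 + 2 * Real.sinh (z i).im ^ 2 := by
      rw [Real.cosh_two_mul, Real.cosh_sq]; ring
    have h6 : (z i).im ≤ Real.sinh (z i).im := Real.self_le_sinh_iff.2 (h.pos i).2.2.le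
    have h7 := (h.pos i).2.2
    nlinarith
  unfold cc at h3
  nlinarith

theorem interior [Fintype ι] (h : Zr a nl nr τ z) :
    ∀ᶠ y in 𝓝 ((τ, z) : ℝ × (ι → ℂ)), y.1 ∈ Set.Icc (0 : ℝ) 1 → y ∈ KK nl nr := by
  apply KK_interior
  · intro i
    exact ⟨(h.pos i).1, (h.pos i).2.1, (h.pos i).2.2, h.im_lt i⟩
  · intro i
    refine ⟨?_, ?_, ?_⟩
    · have := h.norm_ge i
      norm_num
      linarith
    · have := h.norm_le i
      norm_num
      linarith
    · have h1 := h.neg_im_le i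
      have h2 := h.re_pos i
      norm_num
      linarith
  · intro i
    constructor
    · intro h1
      obtain ⟨j, hj⟩ := Option.ne_none_iff_exists'.1 h1
      have := h.w_re_pos (Or.inl hj)
      rwa [hj]
    · intro h1
      obtain ⟨j, hj⟩ := Option.ne_none_iff_exists'.1 h1
      have := h.w_re_pos (Or.inr hj)
      rwa [hj]

theorem cc_pos' [Finite ι] (h : Zr a nl nr τ z) {i : ι} {o : Option ι} (ho : o = nl i ∨ o = nr i) :
    0 < Real.cosh (2 * PP (bo τ z o * tan (z i))) + Real.cos (2 * RR (bo τ z o * tan (z i))) := by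
  cases o with
  | none =>
    have h1 : PP 0 = 0 := by rw [← ash_re, ash_zero]; rfl
    have h2 : RR 0 = 0 := by rw [← ash_im, ash_zero]; rfl
    simp only [bo, zero_mul, h1, h2]
    norm_num
  | some j =>
    apply cosh_add_cos_pos
    apply h.w_re_pos
    rcases ho with h1 | h1
    · left; exact h1.symm
    · right; exact h1.symm

theorem dom [Finite ι] (h : Zr a nl nr τ z) (i : ι) :
    s2 (z i).re (z i).im * (‖tanh (ash (bo τ z (nl i) * tan (z i)))‖ +
        ‖tanh (ash (bo τ z (nr i) * tan (z i)))‖) <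
      ‖(a i : ℂ) * (cos (z i) * sin (z i)) - I * (tanh (ash (bo τ z (nl i) * tan (z i))) +
          tanh (ash (bo τ z (nr i) * tan (z i))))‖ := by
  have hcosh : ∀ j, (nl i = some j ∨ nr i = some j) → cosh (ash (bo τ z (some j) * tan (z i))) ≠ 0 :=
    fun j hj => cosh_ash_ne (h.w_re_pos hj)
  rcases h.types i with h1 | ⟨h1, k, l, h2, h3⟩ | ⟨h1, k, h2⟩
  · exact (h.vx i).dom3 h1 (h.k2_le i) rfl rfl (h.cc_pos' (Or.inl rfl)) (h.cc_pos' (Or.inr rfl))
  · have h4 := dom_inner (h.eqn2 i h1) (h.sinh_l i) (h.sinh_r i) (h.cos_ne i) (h.sin_ne i)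
      (by rw [h2]; exact hcosh k (Or.inl h2)) (by rw [h3]; exact hcosh l (Or.inr h3))
      (h.bo_im_nonneg _) (h.bo_im_le _) (h.bo_im_nonneg _) (h.bo_im_le _)
      (by rw [h2, h.norm_bo]; exact h.ro_ge k) (by rw [h3, h.norm_bo]; exact h.ro_ge l)
      (by rw [h.norm_bo]; exact h.ro_le_one _) (by rw [h.norm_bo]; exact h.ro_le_one _)
    rw [norm_sin_sq] at h4
    rw [h1]
    push_cast
    exact h4
  · rcases h2 with ⟨h2, h3⟩ | ⟨h2, h3⟩
    · have h5 := h.eqn2 i h1
      have h6 := h.sinh_l i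
      rw [h2] at h5 h6
      rw [h3] at h5
      simp only [bo, zero_mul, ash_zero, add_zero] at h5
      have h4 := dom_end h5 h6 (h.cos_ne i) (h.sin_ne i) (hcosh k (Or.inl h2))
      rw [norm_sin_sq] at h4
      rw [h1, h2, h3]
      simp only [bo, zero_mul, ash_zero, tanh_zero, add_zero, norm_zero]
      push_cast
      exact h4
    · have h5 := h.eqn2 i h1
      have h6 := h.sinh_r i
      rw [h3] at h5 h6
      rw [h2] at h5
      simp only [bo, zero_mul, ash_zero, zero_add] at h5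
      have h4 := dom_end h5 h6 (h.cos_ne i) (h.sin_ne i) (hcosh k (Or.inr h3))
      rw [norm_sin_sq] at h4
      rw [h1, h2, h3]
      simp only [bo, zero_mul, ash_zero, tanh_zero, zero_add, norm_zero]
      push_cast
      exact h4

theorem lam_le (h : Zr a nl nr τ z) (v : ι → ℂ) {M : ℝ} (hM0 : 0 ≤ M)
    (hM : ∀ j, ‖tan (z j) * v j‖ ≤ M) (o : Option ι) : ‖lam τ z v o‖ ≤ M := by
  cases o with
  | none => simpa [lam] using hM0
  | some j =>
    simp only [lam]
    rw [norm_mul, Complex.norm_conj, norm_neg, norm_real, Real.norm_eq_abs, abs_of_nonneg h.τ0]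
    have h1 := hM j
    have h2 := norm_nonneg (tan (z j) * v j)
    have h3 := h.τ1
    have h4 := h.τ0
    nlinarith

/-- Injectivity of the Jacobian. -/
theorem inj [Finite ι] (h : Zr a nl nr τ z) (v : ι → ℂ)
    (hv : ∀ i, (a i : ℂ) * v i - I *
        (tanh (ash (bo τ z (nl i) * tan (z i))) * (v i / (sin (z i) * cos (z i)) + lam τ z v (nl i)) +
          tanh (ash (bo τ z (nr i) * tan (z i))) *
            (v i / (sin (z i) * cos (z i)) + lam τ z v (nr i))) = 0) : v = 0 := by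
  by_contra hne
  obtain ⟨i0, hi0⟩ := Function.ne_iff.1 hne
  have : Nonempty ι := ⟨i0⟩
  obtain ⟨m, hm⟩ := Finite.exists_max (fun j => ‖tan (z j) * v j‖)
  have htan : ∀ j, tan (z j) ≠ 0 := by
    intro j
    rw [tan_eq_sin_div_cos]
    exact div_ne_zero (h.sin_ne j) (h.cos_ne j)
  have hpos : 0 < ‖tan (z m) * v m‖ := by
    refine lt_of_lt_of_le ?_ (hm i0)
    exact norm_pos_iff.2 (mul_ne_zero (htan i0) hi0)
  set M := ‖tan (z m) * v m‖ with hM
  set T₁ := tanh (ash (bo τ z (nl m) * tan (z m))) with hT1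
  set T₂ := tanh (ash (bo τ z (nr m) * tan (z m))) with hT2
  set L₁ := lam τ z v (nl m)
  set L₂ := lam τ z v (nr m)
  have hL1 : ‖L₁‖ ≤ M := h.lam_le v hpos.le hm _
  have hL2 : ‖L₂‖ ≤ M := h.lam_le v hpos.le hm _
  have hs := h.sin_ne m
  have hc := h.cos_ne m
  obtain ⟨u, hu⟩ : ∃ u, v m = u * (sin (z m) * cos (z m)) :=
    ⟨v m / (sin (z m) * cos (z m)), (div_mul_cancel₀ _ (mul_ne_zero hs hc)).symm⟩
  have hu' : v m / (sin (z m) * cos (z m)) = u := by
    rw [hu, mul_div_assoc, div_self (mul_ne_zero hs hc), mul_one]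
  have h1 : (a m : ℂ) * v m - I * (T₁ * (v m / (sin (z m) * cos (z m)) + L₁) +
      T₂ * (v m / (sin (z m) * cos (z m)) + L₂)) = 0 := hv m
  rw [hu', hu] at h1
  have ht : tan (z m) * v m = u * sin (z m) ^ 2 := by
    rw [tan_eq_sin_div_cos, hu]
    field_simp
  have h2 : ((a m : ℂ) * (cos (z m) * sin (z m)) - I * (T₁ + T₂)) * (tan (z m) * v m) =
      sin (z m) ^ 2 * (I * (T₁ * L₁ + T₂ * L₂)) := by
    rw [ht]
    linear_combination (sin (z m)) ^ 2 * h1
  have h3 := congrArg norm h2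
  rw [norm_mul _ (tan (z m) * v m), norm_mul (sin (z m) ^ 2), norm_pow, norm_sin_sq, norm_mul I,
    norm_I, one_mul] at h3
  have h4 : ‖T₁ * L₁ + T₂ * L₂‖ ≤ (‖T₁‖ + ‖T₂‖) * M := by
    calc ‖T₁ * L₁ + T₂ * L₂‖ ≤ ‖T₁‖ * ‖L₁‖ + ‖T₂‖ * ‖L₂‖ := by
          rw [← norm_mul, ← norm_mul]; exact norm_add_le _ _
      _ ≤ ‖T₁‖ * M + ‖T₂‖ * M := by
          gcongr
      _ = _ := by ring
  have h5 := h.dom m
  have h6 := s2_pos (I := (z m).im) (h.pos m).1 (h.pos m).2.1
  have h7 : ‖(a m : ℂ) * (cos (z m) * sin (z m)) - I * (T₁ + T₂)‖ * M ≤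
      s2 (z m).re (z m).im * ((‖T₁‖ + ‖T₂‖) * M) := by
    rw [h3]
    exact mul_le_mul_of_nonneg_left h4 h6.le
  have h8 := mul_lt_mul_of_pos_right h5 hpos
  linarith

end Zr

theorem slot_one {w : ℂ} (h1 : 0 < w.re) (h2 : w.re < Real.pi / 2)
    (h4 : 0 < (tan w).re) (h5 : 0 < (tan w).im) :
    Slot w.re w.im 1 0 (PP (tan w)) (RR (tan w)) := by
  have ht := tan_polar h1 h2
  refine ⟨PP_nonneg _, RR_nonneg _, RR_le _, zero_le_one, le_rfl, ?_, ?_, ?_⟩
  · rw [add_zero]; exact (al_lt _ _).le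
  · rw [sinh_cos_eq h4.le, one_mul, add_zero]
    conv_lhs => rw [ht]
    rw [re_ofReal_mul, exp_ofReal_mul_I_re]
  · rw [cosh_sin_eq h5.le, one_mul, add_zero]
    conv_lhs => rw [ht]
    rw [im_ofReal_mul, exp_ofReal_mul_I_im]

theorem slot_none (R I' : ℝ) : Slot R I' 0 0 0 0 := by
  refine ⟨le_rfl, le_rfl, ?_, le_rfl, le_rfl, ?_, ?_, ?_⟩
  · positivity
  · rw [add_zero]; exact (al_lt _ _).le
  · simp
  · simp

end Pool.Agent.S3.E
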