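import Pool.Agent.S3.E.Cont
import Pool.Agent.S3.E.Exist
import Pool.Agent.S3.E.Start

/-!
# Stage 3, block E: existence of the critical point, end
-/

namespace Pool.Agent.S3.E

open Complex Topology

variable {ι : Type*}

theorem bb_zero (κ : ℂ) : bb 0 κ = 1 := by simp [bb]

theorem bo_zero (z : ι → ℂ) (o : Option ι) : bo 0 z o = if o = none then 0 else 1 := by
  cases o with
  | none => simp [bo]
  | some j => simp [bo, bb_zero]

theorem PP_zero : PP 0 = 0 := by rw [← ash_re, ash_zero]; rfl

theorem RR_zero : RR 0 = 0 := by rw [← ash_im, ash_zero]; rfl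

/-- The slot of a vertex at `τ = 0`. -/
theorem slot_start {w : ℂ} (h1 : 0 < w.re) (h2 : w.re < Real.pi / 2)
    (h4 : 0 < (tan w).re) (h5 : 0 < (tan w).im) (b : Prop) [Decidable b] :
    Slot w.re w.im (if b then 0 else 1) 0 (PP ((if b then 0 else 1) * tan w))
      (RR ((if b then 0 else 1) * tan w)) := by
  by_cases hb : b
  · simp only [hb, if_true, zero_mul, PP_zero, RR_zero]
    exact slot_none _ _
  · simp only [hb, if_false, one_mul]
    exact slot_one h1 h2 h4 h5

/-- A decoupled vertex satisfies the inequalities of `KK`. -/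
theorem start_facts {α : ℝ} {w : ℂ} (hα : α = 2 ∨ 3 ≤ α) (h1 : 0 < w.re)
    (h2 : w.re < Real.pi / 2) (h3 : 0 < w.im) (h4 : 0 < (tan w).re) (h5 : 0 < (tan w).im)
    (b c : Prop) [Decidable b] [Decidable c] (hbc : ¬ (b ∧ c))
    (he : (α : ℂ) * w = (Real.pi : ℂ) + I * (ash ((if b then 0 else 1) * tan w) +
      ash ((if c then 0 else 1) * tan w))) :
    1 / 4 ≤ k2 w.re w.im ∧ k2 w.re w.im ≤ 1 ∧ ph w.re w.im ≤ Real.pi / 4 := by
  have hα2 : 2 ≤ α := by rcases hα with h | h <;> linarith
  have hre := congrArg re he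
  have him := congrArg im he
  simp only [re_ofReal_mul, im_ofReal_mul, add_re, add_im, ofReal_re, ofReal_im, mul_re, mul_im,
    I_re, I_im, ash_re, ash_im, zero_mul, one_mul, zero_sub, zero_add] at hre him
  have hv : Vx α w.re w.im (if b then 0 else 1) 0 (PP ((if b then 0 else 1) * tan w))
      (RR ((if b then 0 else 1) * tan w)) (if c then 0 else 1) 0 (PP ((if c then 0 else 1) * tan w))
      (RR ((if c then 0 else 1) * tan w)) :=
    ⟨hα2, h1, h2, h3, slot_start h1 h2 h4 h5 b, slot_start h1 h2 h4 h5 c, by linarith,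
      by linarith⟩
  have hk : k2 w.re w.im ≤ 1 := by
    by_contra hc
    push Not at hc
    have h6 : ∀ (d : Prop) [Decidable d], (if d then (0 : ℝ) else 1) ^ 2 ≤ k2 w.re w.im := by
      intro d _
      split_ifs <;> norm_num <;> linarith
    have := hv.lemA (h6 b) (h6 c)
    linarith
  refine ⟨?_, hk, hv.lemB⟩
  rcases hα with h6 | h6
  · subst h6
    have hcos : cos w ≠ 0 := by
      have h7 := k2_pos (I := w.im) h1 h2
      rw [← norm_cos_sq] at h7
      intro h8
      rw [h8] at h7
      simp at h7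
    have hsin : sin w ≠ 0 := by
      have h7 := s2_pos (I := w.im) h1 h2
      rw [← norm_sin_sq] at h7
      intro h8
      rw [h8] at h7
      simp at h7
    have hs : sinh (ash (tan w)) * cos w = 1 * sin w := by
      rw [sinh_ash h4.le h5.le, tan_eq_sin_div_cos, div_mul_cancel₀ _ hcos, one_mul]
    have hend : ∀ q : ℂ, q = ash (tan w) → 2 * w = (Real.pi : ℂ) + I * q →
        1 / 4 ≤ k2 w.re w.im := by
      intro q hq h7
      rw [← hq] at hs
      have h8 := congrArg norm (two_end h7 hs hcos hsin)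
      rw [norm_mul, norm_pow, norm_cos_sq, norm_mul, norm_neg, norm_I, norm_one] at h8
      norm_num at h8
      linarith
    push_cast at he
    by_cases hb : b
    · by_cases hc : c
      · exact absurd ⟨hb, hc⟩ hbc
      · simp only [hb, hc, if_true, if_false, zero_mul, one_mul, ash_zero, zero_add] at he
        exact hend _ rfl he
    · by_cases hc : c
      · simp only [hb, hc, if_true, if_false, zero_mul, one_mul, ash_zero, add_zero] at he
        exact hend _ rfl he
      · simp only [hb, hc, if_false, one_mul] at he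
        have h7 := two_quartic he hs hs hcos hsin
        have h8 : 4 * (cos w ^ 2) ^ 2 - 4 * ((1 : ℂ) * 1) * cos w ^ 2 + (1 + 1) ^ 2 = 0 := by
          linear_combination h7
        have h9 := two_low h8 (by simp) (by simp) (by simp) (by simp) one_ne_zero one_ne_zero
          (by rw [norm_pow, norm_cos_sq]; simpa using hk)
        rw [norm_pow, norm_cos_sq] at h9
        norm_num at h9 ⊢
        linarith
  · exact hv.lemL3 h6

theorem start [Fintype ι] {a : ι → ℝ} {nl nr : ι → Option ι} (hN : Nbr nl nr)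
    (ha : ∀ i, a i = 2 ∨ 3 ≤ a i) :
    ∃ z : ι → ℂ, ((0 : ℝ), z) ∈ KK nl nr ∧ GG a nl nr 0 z = 0 := by
  classical
  have key : ∀ i, ∃ w : ℂ, (0 < w.re ∧ w.re < Real.pi / 2 ∧ 0 < w.im) ∧ 0 < (tan w).re ∧
      0 < (tan w).im ∧ (a i : ℂ) * w = (Real.pi : ℂ) +
        I * (ash ((if nl i = none then 0 else 1) * tan w) +
          ash ((if nr i = none then 0 else 1) * tan w)) := by
    intro i
    have hi : 2 ≤ a i := by rcases ha i with h | h <;> linarith
    have hne := hN.ne i
    by_cases hb : nl i = none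
    · by_cases hc : nr i = none
      · exact absurd hne (by simp [hb, hc])
      · obtain ⟨w, h1, h2, h3, h4, h5, h6⟩ := start_vertex hi (Or.inl rfl)
        refine ⟨w, ⟨h1, h2, h3⟩, h4, h5, ?_⟩
        simp only [hb, hc, if_true, if_false, zero_mul, one_mul, ash_zero, zero_add]
        simpa using h6
    · by_cases hc : nr i = none
      · obtain ⟨w, h1, h2, h3, h4, h5, h6⟩ := start_vertex hi (Or.inl rfl)
        refine ⟨w, ⟨h1, h2, h3⟩, h4, h5, ?_⟩
        simp only [hb, hc, if_true, if_false, zero_mul, one_mul, ash_zero, add_zero]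
        simpa using h6
      · obtain ⟨w, h1, h2, h3, h4, h5, h6⟩ := start_vertex hi (Or.inr rfl)
        refine ⟨w, ⟨h1, h2, h3⟩, h4, h5, ?_⟩
        simp only [hb, hc, if_false, one_mul]
        rw [h6]
        push_cast
        ring
  choose z hz1 hz2 hz3 hz4 using key
  refine ⟨z, ⟨⟨le_rfl, zero_le_one⟩, fun i => ?_⟩, ?_⟩
  · obtain ⟨h1, h2, h3⟩ := hz1 i
    have hne : ¬ (nl i = none ∧ nr i = none) := by
      have := hN.ne i
      tauto
    obtain ⟨h4, h5, h6⟩ := start_facts (ha i) h1 h2 h3 (hz2 i) (hz3 i) _ _ hne (hz4 i)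
    have h7 := norm_cos_sq (z i)
    have h8 : 0 ≤ ‖cos (z i)‖ := norm_nonneg _
    have h9 : 0 < ph (z i).re (z i).im := ph_pos h1 h2 h3
    have h10 : (cos (z i)).re = ‖cos (z i)‖ * Real.cos (ph (z i).re (z i).im) := by
      conv_lhs => rw [cos_polar h1 h2]
      rw [← ofReal_neg, re_ofReal_mul, exp_ofReal_mul_I_re, Real.cos_neg]
    have h11 : (cos (z i)).im = -(‖cos (z i)‖ * Real.sin (ph (z i).re (z i).im)) := by
      conv_lhs => rw [cos_polar h1 h2]
      rw [← ofReal_neg, im_ofReal_mul, exp_ofReal_mul_I_im, Real.sin_neg]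
      ring
    have h12 := Zr.sin_le_cos h9.le h6
    have h13 : 0 ≤ Real.sin (ph (z i).re (z i).im) :=
      Real.sin_nonneg_of_nonneg_of_le_pi h9.le (by linarith [Real.pi_pos])
    refine ⟨⟨h1.le, h2.le, h3.le, ?_⟩, ⟨?_, ?_, ?_⟩, ?_, ?_⟩
    · have h14 := neg_one_lt_gg h1 h2
      have h15 : cc (z i).im < 3 := by unfold k2 at h5; linarith
      by_contra hc
      push Not at hc
      have h16 : 1 + (2 * (z i).im) ^ 2 / 2 ≤ Real.cosh (2 * (z i).im) := by
        have h17 : Real.cosh (2 * (z i).im) = 1 + 2 * Real.sinh (z i).im ^ 2 := by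
          rw [Real.cosh_two_mul, Real.cosh_sq]; ring
        have h18 : (z i).im ≤ Real.sinh (z i).im := Real.self_le_sinh_iff.2 h3.le
        nlinarith
      unfold cc at h15
      nlinarith
    · norm_num; nlinarith
    · norm_num; nlinarith
    · rw [h10, h11]
      norm_num
      nlinarith [mul_le_mul_of_nonneg_left h12 h8, mul_nonneg h8 (h13.trans h12)]
    · rw [bo_zero]
      split_ifs
      · simp
      · rw [one_mul]; exact (hz2 i).le
    · rw [bo_zero]
      split_ifs
      · simp
      · rw [one_mul]; exact (hz2 i).le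
  · funext i
    simp only [GG, bo_zero]
    rw [hz4 i]
    simp

/-- Existence of the critical point. -/
theorem exists_zero [Fintype ι] {a : ι → ℝ} {nl nr : ι → Option ι} (hN : Nbr nl nr)
    (ha : ∀ i, a i = 2 ∨ 3 ≤ a i) : ∃ z : ι → ℂ, Zr a nl nr 1 z := by
  obtain ⟨z, hz, hz'⟩ := cont_method (fun x : ℝ × (ι → ℂ) => GG a nl nr x.1 x.2) (KK nl nr)
    (KK_compact nl nr) (fun x hx => hx.1) (GG_continuousOn a nl nr) (by
      rintro ⟨τ, z⟩ hx h0
      have h : Zr a nl nr τ z := ⟨hN, ha, hx, h0⟩
      refine ⟨h.interior, ?_⟩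
      obtain ⟨F', hF, hF'⟩ := GG_deriv a nl nr (τ := τ) (z := z) h.re_pos h.sin_ne
        (by
          intro i hi
          obtain ⟨j, hj⟩ := Option.ne_none_iff_exists'.1 hi
          rw [hj]
          exact ⟨h.w_re_pos (Or.inl hj), h.w_im_pos i j⟩)
        (by
          intro i hi
          obtain ⟨j, hj⟩ := Option.ne_none_iff_exists'.1 hi
          rw [hj]
          exact ⟨h.w_re_pos (Or.inr hj), h.w_im_pos i j⟩)
      refine ⟨F', hF, fun v hv => h.inj v fun i => ?_⟩
      rw [← hF' v i, hv]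
      rfl) (start hN ha)
  exact ⟨z, hN, ha, hz, hz'⟩

end Pool.Agent.S3.E
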