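import Pool.Agent.S3.E.Defs

/-!
# Stage 3, block E: the function `ash`

With `p = PP w`, `r = RR w`, `s = ‖w‖²`, `D = ‖1 + w²‖` (`|1 - s| ≤ D ≤ 1 + s`):
`sinh² p = (s + D - 1)/2`, `cosh² p = (s + D + 1)/2`, `sin² r = (1 + s - D)/2`,
`cos² r = (1 + D - s)/2`, and `D² = 1 + 2 Re w² + s²`, `Re w² + s = 2 (Re w)²`; so
`(sinh p cos r)² = (Re w)²`, `(cosh p sin r)² = (Im w)²`.
-/

namespace Pool.Agent.S3.E

open Complex

private theorem Ash_norm_sq (w : ℂ) : ‖w‖ ^ 2 = w.re ^ 2 + w.im ^ 2 := by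
  rw [← normSq_eq_norm_sq, normSq_apply]
  ring

private theorem Ash_D_sq (w : ℂ) :
    ‖1 + w ^ 2‖ ^ 2 = (1 + w.re ^ 2 - w.im ^ 2) ^ 2 + (2 * w.re * w.im) ^ 2 := by
  rw [Ash_norm_sq]
  have e1 : (1 + w ^ 2).re = 1 + w.re ^ 2 - w.im ^ 2 := by
    rw [sq w]
    simp
    ring
  have e2 : (1 + w ^ 2).im = 2 * w.re * w.im := by
    rw [sq w]
    simp
    ring
  rw [e1, e2]

private theorem Ash_D1 (w : ℂ) : 1 ≤ ‖w‖ ^ 2 + ‖1 + w ^ 2‖ := by
  have h := norm_sub_le (1 + w ^ 2) (w ^ 2)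
  rw [add_sub_cancel_right, norm_one, norm_pow] at h
  linarith

private theorem Ash_D2 (w : ℂ) : ‖w‖ ^ 2 ≤ 1 + ‖1 + w ^ 2‖ := by
  have h := norm_sub_le (1 + w ^ 2) 1
  rw [add_sub_cancel_left, norm_one, norm_pow] at h
  linarith

private theorem Ash_D3 (w : ℂ) : ‖1 + w ^ 2‖ ≤ 1 + ‖w‖ ^ 2 := by
  have h := norm_add_le 1 (w ^ 2)
  rw [norm_one, norm_pow] at h
  exact h

private theorem Ash_sinh_sq (w : ℂ) :
    Real.sinh (PP w) ^ 2 = (‖w‖ ^ 2 + ‖1 + w ^ 2‖ - 1) / 2 := by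
  unfold PP
  rw [Real.sinh_arsinh, Real.sq_sqrt]
  linarith [Ash_D1 w]

private theorem Ash_cosh_sq (w : ℂ) :
    Real.cosh (PP w) ^ 2 = (‖w‖ ^ 2 + ‖1 + w ^ 2‖ + 1) / 2 := by
  rw [Real.cosh_sq, Ash_sinh_sq]
  ring

private theorem Ash_arg (w : ℂ) : 0 ≤ (1 + ‖w‖ ^ 2 - ‖1 + w ^ 2‖) / 2 ∧
    √((1 + ‖w‖ ^ 2 - ‖1 + w ^ 2‖) / 2) ≤ 1 := by
  constructor
  · linarith [Ash_D3 w]
  · rw [Real.sqrt_le_one]
    linarith [Ash_D2 w]

private theorem Ash_sin_sq (w : ℂ) :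
    Real.sin (RR w) ^ 2 = (1 + ‖w‖ ^ 2 - ‖1 + w ^ 2‖) / 2 := by
  unfold RR
  obtain ⟨h1, h2⟩ := Ash_arg w
  rw [Real.sin_arcsin (by linarith [Real.sqrt_nonneg ((1 + ‖w‖ ^ 2 - ‖1 + w ^ 2‖) / 2)]) h2,
    Real.sq_sqrt h1]

private theorem Ash_cos_sq (w : ℂ) :
    Real.cos (RR w) ^ 2 = (1 + ‖1 + w ^ 2‖ - ‖w‖ ^ 2) / 2 := by
  rw [Real.cos_sq', Ash_sin_sq]
  ring

theorem PP_nonneg (w : ℂ) : 0 ≤ PP w := by
  unfold PP
  exact Real.arsinh_nonneg_iff.mpr (Real.sqrt_nonneg _)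

theorem RR_nonneg (w : ℂ) : 0 ≤ RR w := by
  unfold RR
  exact Real.arcsin_nonneg.mpr (Real.sqrt_nonneg _)

theorem RR_le (w : ℂ) : RR w ≤ Real.pi / 2 := by
  unfold RR
  exact Real.arcsin_le_pi_div_two _

theorem ash_re (w : ℂ) : (ash w).re = PP w := by
  unfold ash
  simp

theorem ash_im (w : ℂ) : (ash w).im = RR w := by
  unfold ash
  simp

theorem continuous_ash : Continuous ash := by
  unfold ash PP RR
  have h1 : Continuous fun w : ℂ => Real.arsinh (√((‖w‖ ^ 2 + ‖1 + w ^ 2‖ - 1) / 2)) :=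
    Real.continuous_arsinh.comp (Real.continuous_sqrt.comp (by fun_prop))
  have h2 : Continuous fun w : ℂ => Real.arcsin (√((1 + ‖w‖ ^ 2 - ‖1 + w ^ 2‖) / 2)) :=
    Real.continuous_arcsin.comp (Real.continuous_sqrt.comp (by fun_prop))
  exact (continuous_ofReal.comp h1).add ((continuous_ofReal.comp h2).mul continuous_const)

theorem ash_zero : ash 0 = 0 := by
  unfold ash PP RR
  simp

private theorem Ash_cos_nonneg (w : ℂ) : 0 ≤ Real.cos (RR w) :=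
  Real.cos_nonneg_of_mem_Icc ⟨by linarith [RR_nonneg w, Real.pi_pos], RR_le w⟩

private theorem Ash_sin_nonneg (w : ℂ) : 0 ≤ Real.sin (RR w) :=
  Real.sin_nonneg_of_nonneg_of_le_pi (RR_nonneg w) (by linarith [RR_le w, Real.pi_pos])

theorem sinh_cos_eq {w : ℂ} (h : 0 ≤ w.re) : Real.sinh (PP w) * Real.cos (RR w) = w.re := by
  have h1 : 0 ≤ Real.sinh (PP w) * Real.cos (RR w) :=
    mul_nonneg (Real.sinh_nonneg_iff.mpr (PP_nonneg w)) (Ash_cos_nonneg w)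
  have h2 := Ash_D_sq w
  have h3 := Ash_norm_sq w
  rw [← sq_eq_sq₀ h1 h, mul_pow, Ash_sinh_sq, Ash_cos_sq]
  rw [h3]
  linear_combination (1 / 4) * h2

theorem cosh_sin_eq {w : ℂ} (h : 0 ≤ w.im) : Real.cosh (PP w) * Real.sin (RR w) = w.im := by
  have h1 : 0 ≤ Real.cosh (PP w) * Real.sin (RR w) :=
    mul_nonneg (Real.cosh_pos _).le (Ash_sin_nonneg w)
  have h2 := Ash_D_sq w
  have h3 := Ash_norm_sq w
  rw [← sq_eq_sq₀ h1 h, mul_pow, Ash_cosh_sq, Ash_sin_sq]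
  rw [h3]
  linear_combination (-(1 / 4)) * h2

private theorem Ash_sinh_form (p r : ℝ) : sinh ((p : ℂ) + (r : ℂ) * I) =
    ((Real.sinh p * Real.cos r : ℝ) : ℂ) + ((Real.cosh p * Real.sin r : ℝ) : ℂ) * I := by
  rw [sinh_add, cosh_mul_I, sinh_mul_I]
  push_cast
  ring

private theorem Ash_cosh_form (p r : ℝ) : cosh ((p : ℂ) + (r : ℂ) * I) =
    ((Real.cosh p * Real.cos r : ℝ) : ℂ) + ((Real.sinh p * Real.sin r : ℝ) : ℂ) * I := by
  rw [cosh_add, cosh_mul_I, sinh_mul_I]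
  push_cast
  ring

theorem sinh_ash {w : ℂ} (h : 0 ≤ w.re) (h' : 0 ≤ w.im) : sinh (ash w) = w := by
  unfold ash
  rw [Ash_sinh_form, sinh_cos_eq h, cosh_sin_eq h', re_add_im]

/-- Uniqueness. -/
theorem ash_sinh {p r : ℝ} (hp : 0 ≤ p) (hr : 0 ≤ r) (hr' : r ≤ Real.pi / 2) :
    ash (sinh ((p : ℂ) + (r : ℂ) * I)) = (p : ℂ) + (r : ℂ) * I := by
  have e1 : ‖sinh ((p : ℂ) + (r : ℂ) * I)‖ ^ 2 = Real.sinh p ^ 2 + Real.sin r ^ 2 := by
    rw [Ash_norm_sq, Ash_sinh_form]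
    simp only [add_re, ofReal_re, mul_re, I_re, mul_zero, ofReal_im, I_im, mul_one, sub_self,
      add_zero, add_im, mul_im, zero_add]
    have h1 := Real.cosh_sq p
    have h2 := Real.sin_sq_add_cos_sq r
    rw [mul_pow, mul_pow, h1]
    linear_combination (Real.sinh p ^ 2) * h2
  have e2 : ‖1 + sinh ((p : ℂ) + (r : ℂ) * I) ^ 2‖ = Real.sinh p ^ 2 + Real.cos r ^ 2 := by
    have h0 : 1 + sinh ((p : ℂ) + (r : ℂ) * I) ^ 2 = cosh ((p : ℂ) + (r : ℂ) * I) ^ 2 := by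
      rw [cosh_sq]
      ring
    rw [h0, norm_pow, Ash_norm_sq, Ash_cosh_form]
    simp only [add_re, ofReal_re, mul_re, I_re, mul_zero, ofReal_im, I_im, mul_one, sub_self,
      add_zero, add_im, mul_im, zero_add]
    have h1 := Real.cosh_sq p
    have h2 := Real.sin_sq_add_cos_sq r
    rw [mul_pow, mul_pow, h1]
    linear_combination (Real.sinh p ^ 2) * h2
  have h2 := Real.sin_sq_add_cos_sq r
  have e3 : PP (sinh ((p : ℂ) + (r : ℂ) * I)) = p := by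
    unfold PP
    rw [e1, e2]
    have : (Real.sinh p ^ 2 + Real.sin r ^ 2 + (Real.sinh p ^ 2 + Real.cos r ^ 2) - 1) / 2 =
        Real.sinh p ^ 2 := by linarith
    rw [this, Real.sqrt_sq (Real.sinh_nonneg_iff.mpr hp), Real.arsinh_sinh]
  have e4 : RR (sinh ((p : ℂ) + (r : ℂ) * I)) = r := by
    unfold RR
    rw [e1, e2]
    have : (1 + (Real.sinh p ^ 2 + Real.sin r ^ 2) - (Real.sinh p ^ 2 + Real.cos r ^ 2)) / 2 =
        Real.sin r ^ 2 := by linarith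
    rw [this, Real.sqrt_sq (Real.sin_nonneg_of_nonneg_of_le_pi hr
      (by linarith [Real.pi_pos])), Real.arcsin_sin (by linarith [Real.pi_pos]) hr']
  unfold ash
  rw [e3, e4]

private theorem Ash_cos_pos {w : ℂ} (h : 0 < w.re) : 0 < Real.cos (RR w) := by
  rcases (Ash_cos_nonneg w).eq_or_lt with h1 | h1
  · have h2 := sinh_cos_eq h.le
    rw [← h1, mul_zero] at h2
    exact absurd h2 h.ne
  · exact h1

theorem PP_pos {w : ℂ} (h : 0 < w.re) : 0 < PP w := by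
  rcases (PP_nonneg w).eq_or_lt with h1 | h1
  · have h2 := sinh_cos_eq h.le
    rw [← h1, Real.sinh_zero, zero_mul] at h2
    exact absurd h2 h.ne
  · exact h1

theorem RR_lt {w : ℂ} (h : 0 < w.re) : RR w < Real.pi / 2 := by
  rcases (RR_le w).eq_or_lt with h1 | h1
  · have h2 := Ash_cos_pos h
    rw [h1, Real.cos_pi_div_two] at h2
    exact absurd h2 (lt_irrefl _)
  · exact h1

theorem RR_pos {w : ℂ} (h : 0 < w.im) : 0 < RR w := by
  rcases (RR_nonneg w).eq_or_lt with h1 | h1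
  · have h2 := cosh_sin_eq h.le
    rw [← h1, Real.sin_zero, mul_zero] at h2
    exact absurd h2 h.ne
  · exact h1

private theorem Ash_cosh_re (w : ℂ) :
    (cosh (ash w)).re = Real.cosh (PP w) * Real.cos (RR w) := by
  unfold ash
  rw [Ash_cosh_form]
  simp only [add_re, ofReal_re, mul_re, I_re, mul_zero, ofReal_im, I_im, mul_one, sub_self,
    add_zero]

theorem cosh_ash_ne {w : ℂ} (h : 0 < w.re) : cosh (ash w) ≠ 0 := by
  intro h0
  have h1 := Ash_cosh_re w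
  rw [h0, zero_re] at h1
  exact absurd h1 (mul_pos (Real.cosh_pos _) (Ash_cos_pos h)).ne

/-- `cosh 2p + cos 2r > 0`. -/
theorem cosh_add_cos_pos {w : ℂ} (h : 0 < w.re) :
    0 < Real.cosh (2 * PP w) + Real.cos (2 * RR w) := by
  rw [Real.cosh_two_mul, Real.cos_two_mul, Real.cosh_sq]
  have h1 := Ash_cos_pos h
  have h2 : 0 < Real.cos (RR w) ^ 2 := by positivity
  nlinarith [sq_nonneg (Real.sinh (PP w))]

/-- By the inverse function theorem (`HasStrictDerivAt.of_local_left_inverse`). -/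
theorem hasStrictDerivAt_ash {w : ℂ} (h : 0 < w.re) (h' : 0 < w.im) :
    HasStrictDerivAt ash (1 / cosh (ash w)) w := by
  have h1 : ∀ᶠ y in nhds w, sinh (ash y) = y := by
    have o1 : IsOpen {z : ℂ | 0 < z.re} := isOpen_lt continuous_const continuous_re
    have o2 : IsOpen {z : ℂ | 0 < z.im} := isOpen_lt continuous_const continuous_im
    filter_upwards [o1.mem_nhds h, o2.mem_nhds h'] with y hy hy'
    exact sinh_ash (le_of_lt hy) (le_of_lt hy')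
  have h2 := HasStrictDerivAt.of_local_left_inverse continuous_ash.continuousAt
    (Complex.hasStrictDerivAt_sinh (ash w)) (cosh_ash_ne h) h1
  rw [one_div]
  exact h2

/-- `ash` is the principal inverse hyperbolic sine: `exp q = w + cosh q`, `cosh q = √(1 + w²)` because
`Re cosh q = cosh p cos r > 0`, and `Im q ∈ [0, π/2)`. -/
theorem ash_eq_log {w : ℂ} (h : 0 < w.re) (h' : 0 ≤ w.im) :
    ash w = log (w + (1 + w ^ 2) ^ (1 / 2 : ℂ)) := by
  have h1 : 1 + w ^ 2 = cosh (ash w) ^ 2 := by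
    rw [cosh_sq, sinh_ash h.le h']
    ring
  have hre : 0 < (cosh (ash w)).re := by
    rw [Ash_cosh_re]
    exact mul_pos (Real.cosh_pos _) (Ash_cos_pos h)
  have h2 : (cosh (ash w) ^ 2) ^ (1 / 2 : ℂ) = cosh (ash w) := by
    have harg := abs_arg_lt_pi_div_two_iff.mpr (Or.inl hre)
    rw [abs_lt] at harg
    have h3 := Complex.pow_cpow_nat_inv (x := cosh (ash w)) (n := 2) (by norm_num)
      (by push_cast; exact harg.1) (by push_cast; exact harg.2.le)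
    push_cast at h3
    rw [one_div]
    exact h3
  have h3 : w + (1 + w ^ 2) ^ (1 / 2 : ℂ) = exp (ash w) := by
    rw [h1, h2, ← cosh_add_sinh, sinh_ash h.le h']
    ring
  rw [h3, log_exp]
  · rw [ash_im]
    linarith [RR_nonneg w, Real.pi_pos]
  · rw [ash_im]
    linarith [RR_le w, Real.pi_pos]

end Pool.Agent.S3.E
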