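import Pool.Agent.S3.E.GeoX

/-!
# Stage 3, block E: polar forms

`cos z = cos R cosh I - i sin R sinh I`, `sin z = sin R cosh I + i cos R sinh I`.
-/

namespace Pool.Agent.S3.E

open Real

theorem GeoC_cos (z : ℂ) :
    Complex.cos z = ((cos z.re * cosh z.im : ℝ) : ℂ) - ((sin z.re * sinh z.im : ℝ) : ℂ) * Complex.I := by
  rw [Complex.cos_eq z]
  push_cast
  ring

theorem GeoC_sin (z : ℂ) :
    Complex.sin z = ((sin z.re * cosh z.im : ℝ) : ℂ) + ((cos z.re * sinh z.im : ℝ) : ℂ) * Complex.I := by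
  rw [Complex.sin_eq z]
  push_cast
  ring

theorem GeoC_cos_re (z : ℂ) : (Complex.cos z).re = cos z.re * cosh z.im := by
  rw [GeoC_cos]
  simp only [Complex.sub_re, Complex.mul_re, Complex.ofReal_re, Complex.ofReal_im, Complex.I_re,
    Complex.I_im]
  ring

theorem GeoC_cos_im (z : ℂ) : (Complex.cos z).im = -(sin z.re * sinh z.im) := by
  rw [GeoC_cos]
  simp only [Complex.sub_im, Complex.mul_im, Complex.ofReal_re, Complex.ofReal_im, Complex.I_re,
    Complex.I_im]
  ring

theorem GeoC_sin_re (z : ℂ) : (Complex.sin z).re = sin z.re * cosh z.im := by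
  rw [GeoC_sin]
  simp only [Complex.add_re, Complex.mul_re, Complex.ofReal_re, Complex.ofReal_im, Complex.I_re,
    Complex.I_im]
  ring

theorem GeoC_sin_im (z : ℂ) : (Complex.sin z).im = cos z.re * sinh z.im := by
  rw [GeoC_sin]
  simp only [Complex.add_im, Complex.mul_im, Complex.ofReal_re, Complex.ofReal_im, Complex.I_re,
    Complex.I_im]
  ring

theorem norm_cos_sq (z : ℂ) : ‖Complex.cos z‖ ^ 2 = k2 z.re z.im := by
  rw [Complex.sq_norm, Complex.normSq_apply, GeoC_cos_re, GeoC_cos_im, GeoX_k2]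
  have h1 := Real.cosh_sq z.im
  have h2 := Real.sin_sq_add_cos_sq z.re
  have a1 : sin z.re ^ 2 = 1 - cos z.re ^ 2 := by linarith
  have a2 : sinh z.im ^ 2 = cosh z.im ^ 2 - 1 := by linarith
  have e : cos z.re * cosh z.im * (cos z.re * cosh z.im) +
      -(sin z.re * sinh z.im) * -(sin z.re * sinh z.im) =
      cos z.re ^ 2 * cosh z.im ^ 2 + sin z.re ^ 2 * sinh z.im ^ 2 := by ring
  rw [e, a1, a2]
  ring

theorem norm_sin_sq (z : ℂ) : ‖Complex.sin z‖ ^ 2 = s2 z.re z.im := by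
  rw [Complex.sq_norm, Complex.normSq_apply, GeoC_sin_re, GeoC_sin_im, GeoX_s2]
  have h1 := Real.cosh_sq z.im
  have h2 := Real.sin_sq_add_cos_sq z.re
  have a1 : sin z.re ^ 2 = 1 - cos z.re ^ 2 := by linarith
  have a2 : sinh z.im ^ 2 = cosh z.im ^ 2 - 1 := by linarith
  have e : sin z.re * cosh z.im * (sin z.re * cosh z.im) +
      cos z.re * sinh z.im * (cos z.re * sinh z.im) =
      sin z.re ^ 2 * cosh z.im ^ 2 + cos z.re ^ 2 * sinh z.im ^ 2 := by ring
  rw [e, a1, a2]
  ring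

theorem norm_cos_eq (z : ℂ) : ‖Complex.cos z‖ = √(k2 z.re z.im) := by
  rw [← norm_cos_sq, Real.sqrt_sq (norm_nonneg _)]

theorem GeoC_norm_sin_eq (z : ℂ) : ‖Complex.sin z‖ = √(s2 z.re z.im) := by
  rw [← norm_sin_sq, Real.sqrt_sq (norm_nonneg _)]

/-- A complex number is its norm times `e^{i θ}` once its real part is `A > 0` and its imaginary
part is `A tan θ`. -/
theorem GeoC_polar {w : ℂ} {θ : ℝ} (hc : 0 < cos θ) (hre : 0 < w.re)
    (him : w.im = w.re * tan θ) : w = (‖w‖ : ℂ) * Complex.exp ((θ : ℂ) * Complex.I) := by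
  have h1 : ‖w‖ ^ 2 = (w.re / cos θ) ^ 2 := by
    rw [Complex.sq_norm, Complex.normSq_apply, him, Real.tan_eq_sin_div_cos]
    have := Real.sin_sq_add_cos_sq θ
    field_simp
    linear_combination this
  have h2 : ‖w‖ = w.re / cos θ := by
    have := (sq_eq_sq₀ (norm_nonneg w) (by positivity)).mp h1
    exact this
  rw [h2]
  apply Complex.ext
  · rw [Complex.re_ofReal_mul, Complex.exp_ofReal_mul_I_re]
    field_simp
  · rw [Complex.im_ofReal_mul, Complex.exp_ofReal_mul_I_im, him, Real.tan_eq_sin_div_cos]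
    field_simp

theorem cos_polar {z : ℂ} (h : 0 < z.re) (h' : z.re < π / 2) :
    Complex.cos z = (‖Complex.cos z‖ : ℂ) * Complex.exp (-((ph z.re z.im : ℝ) : ℂ) * Complex.I) := by
  have hs := GeoX_sin_pos h h'
  have hc := GeoX_cos_pos h h'
  have hC := Real.cosh_pos z.im
  have hcp : 0 < cos (ph z.re z.im) := Real.cos_arctan_pos _
  have key : Complex.cos z =
      (‖Complex.cos z‖ : ℂ) * Complex.exp (((-(ph z.re z.im) : ℝ) : ℂ) * Complex.I) := by
    apply GeoC_polar
    · rw [Real.cos_neg]; exact hcp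
    · rw [GeoC_cos_re]; positivity
    · rw [GeoC_cos_re, GeoC_cos_im, Real.tan_neg, tan_ph, Real.tan_eq_sin_div_cos,
        Real.tanh_eq_sinh_div_cosh]
      field_simp
  rw [Complex.ofReal_neg] at key
  exact key

theorem sin_polar {z : ℂ} (h : 0 < z.re) (h' : z.re < π / 2) :
    Complex.sin z = (‖Complex.sin z‖ : ℂ) * Complex.exp (((ch z.re z.im : ℝ) : ℂ) * Complex.I) := by
  have hs := GeoX_sin_pos h h'
  have hc := GeoX_cos_pos h h'
  have hC := Real.cosh_pos z.im
  have hcp : 0 < cos (ch z.re z.im) := Real.cos_arctan_pos _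
  have ht : tan (ch z.re z.im) = tanh z.im / tan z.re := Real.tan_arctan _
  apply GeoC_polar hcp
  · rw [GeoC_sin_re]; positivity
  · rw [GeoC_sin_re, GeoC_sin_im, ht, Real.tan_eq_sin_div_cos, Real.tanh_eq_sinh_div_cosh]
    field_simp

theorem tan_polar {z : ℂ} (h : 0 < z.re) (h' : z.re < π / 2) :
    Complex.tan z = (tt z.re z.im : ℂ) * Complex.exp (((al z.re z.im : ℝ) : ℂ) * Complex.I) := by
  have hk := k2_pos (I := z.im) h h'
  have htt : tt z.re z.im = ‖Complex.sin z‖ / ‖Complex.cos z‖ := by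
    rw [norm_cos_eq, GeoC_norm_sin_eq, tt, Real.sqrt_div (s2_pos h h').le]
  have hcn : (‖Complex.cos z‖ : ℂ) ≠ 0 := by
    rw [norm_cos_eq]
    have : √(k2 z.re z.im) ≠ 0 := (Real.sqrt_pos.mpr hk).ne'
    exact_mod_cast this
  rw [Complex.tan_eq_sin_div_cos, htt, GeoX_al_eq h h']
  conv_lhs => rw [cos_polar h h', sin_polar h h']
  have hE : Complex.exp (((ph z.re z.im + ch z.re z.im : ℝ) : ℂ) * Complex.I) =
      Complex.exp (((ch z.re z.im : ℝ) : ℂ) * Complex.I) /
        Complex.exp (-((ph z.re z.im : ℝ) : ℂ) * Complex.I) := by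
    rw [← Complex.exp_sub]
    congr 1
    push_cast
    ring
  rw [hE, Complex.ofReal_div]
  have hen := Complex.exp_ne_zero (-((ph z.re z.im : ℝ) : ℂ) * Complex.I)
  field_simp

/-- `Re (e^{iπ/4} cos z sin z) = (cosh 2I sin 2R - cos 2R sinh 2I)/(2√2)`, in the form used for the
projection argument: a linear functional of norm one. -/
theorem proj_cs (z w : ℂ) (a : ℝ) :
    (a * (cc z.im * sin (2 * z.re) - gg z.re * sinh (2 * z.im)) / 2 + (w.re + w.im)) / √2 ≤
      ‖(a : ℂ) * (Complex.cos z * Complex.sin z) - Complex.I * w‖ := by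
  set v := (a : ℂ) * (Complex.cos z * Complex.sin z) - Complex.I * w with hv
  have hre : v.re = a * (sin z.re * cos z.re * (cosh z.im ^ 2 + sinh z.im ^ 2)) + w.im := by
    rw [hv, Complex.sub_re, Complex.re_ofReal_mul, Complex.mul_re, Complex.mul_re, GeoC_cos_re,
      GeoC_cos_im, GeoC_sin_re, GeoC_sin_im, Complex.I_re, Complex.I_im]
    ring
  have him : v.im = a * (sinh z.im * cosh z.im * (cos z.re ^ 2 - sin z.re ^ 2)) - w.re := by
    rw [hv, Complex.sub_im, Complex.im_ofReal_mul, Complex.mul_im, Complex.mul_im, GeoC_cos_re,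
      GeoC_cos_im, GeoC_sin_re, GeoC_sin_im, Complex.I_re, Complex.I_im]
    ring
  have hsum : a * (cc z.im * sin (2 * z.re) - gg z.re * sinh (2 * z.im)) / 2 + (w.re + w.im) =
      v.re - v.im := by
    rw [hre, him]
    unfold cc gg
    rw [Real.cosh_two_mul, Real.sin_two_mul, Real.sinh_two_mul, Real.cos_two_mul']
    ring
  rw [hsum, div_le_iff₀ (by positivity)]
  have h2 : (v.re - v.im) ^ 2 ≤ (‖v‖ * √2) ^ 2 := by
    rw [mul_pow, Real.sq_sqrt (by norm_num), Complex.sq_norm, Complex.normSq_apply]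
    nlinarith [sq_nonneg (v.re + v.im)]
  exact le_of_abs_le (abs_le_of_sq_le_sq h2 (by positivity))

end Pool.Agent.S3.E
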