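import Mathlib

/-!
# Stage 3, block E: a continuity method

`S = {τ ∈ [0,1] | ∃ z, (τ, z) ∈ K, F (τ, z) = 0}` is the projection of a compact set, hence closed.
It is open in `[0,1]`: at a zero `x = (τ, z)` the map `Φ y = (y.1, F y)` has an injective (so
invertible) strict derivative, hence `map Φ (𝓝 x) = 𝓝 (τ, 0)`
(`HasStrictFDerivAt.map_nhds_eq_of_equiv` or `map_nhds_eq_of_surj`), so every `τ'` near `τ` is `y.1`
with `F y = 0`, `y` near `x`, and `y ∈ K` if `τ' ∈ [0,1]`.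
-/

namespace Pool.Agent.S3.E

open Topology Set

theorem cont_method {E : Type*} [NormedAddCommGroup E] [NormedSpace ℝ E] [FiniteDimensional ℝ E]
    (F : ℝ × E → E) (K : Set (ℝ × E)) (hK : IsCompact K) (hI : ∀ x ∈ K, x.1 ∈ Icc (0 : ℝ) 1)
    (hc : ContinuousOn F K)
    (hz : ∀ x ∈ K, F x = 0 → (∀ᶠ y in 𝓝 x, y.1 ∈ Icc (0 : ℝ) 1 → y ∈ K) ∧
      ∃ F' : (ℝ × E) →L[ℝ] E, HasStrictFDerivAt F F' x ∧ ∀ v : E, F' (0, v) = 0 → v = 0)
    (h0 : ∃ z : E, ((0 : ℝ), z) ∈ K ∧ F ((0 : ℝ), z) = 0) :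
    ∃ z : E, ((1 : ℝ), z) ∈ K ∧ F ((1 : ℝ), z) = 0 := by
  have hZc : IsCompact (K ∩ F ⁻¹' {0}) := by
    have h1 : IsClosed (K ∩ F ⁻¹' {0}) :=
      hc.preimage_isClosed_of_isClosed hK.isClosed isClosed_singleton
    exact hK.of_isClosed_subset h1 inter_subset_left
  have hSc : IsCompact (Prod.fst '' (K ∩ F ⁻¹' {0})) := hZc.image continuous_fst
  have hS : Icc (0 : ℝ) 1 ⊆ Prod.fst '' (K ∩ F ⁻¹' {0}) := by
    apply IsClosed.Icc_subset_of_forall_mem_nhdsWithin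
    · exact hSc.isClosed.inter isClosed_Icc
    · obtain ⟨z, hz1, hz2⟩ := h0
      exact ⟨(0, z), ⟨hz1, hz2⟩, rfl⟩
    · rintro τ ⟨⟨x, ⟨hxK, hxF⟩, rfl⟩, hτ⟩
      have hxF' : F x = 0 := hxF
      obtain ⟨hU, F', hF', hinj⟩ := hz x hxK hxF'
      have hΦ : HasStrictFDerivAt (fun y : ℝ × E => (y.1, F y))
          ((ContinuousLinearMap.fst ℝ ℝ E).prod F') x :=
        (ContinuousLinearMap.fst ℝ ℝ E).hasStrictFDerivAt.prodMk hF'
      have hinj' : Function.Injective ((ContinuousLinearMap.fst ℝ ℝ E).prod F' :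
          ℝ × E → ℝ × E) := by
        rw [injective_iff_map_eq_zero]
        rintro ⟨t, v⟩ h
        have h1 : t = 0 ∧ F' (t, v) = 0 := by
          simpa [Prod.ext_iff] using h
        obtain ⟨rfl, h2⟩ := h1
        rw [hinj v h2]
        rfl
      have hsurj : ((ContinuousLinearMap.fst ℝ ℝ E).prod F' : ℝ × E →L[ℝ] ℝ × E).range = ⊤ := by
        rw [LinearMap.range_eq_top]
        exact LinearMap.surjective_of_injective
          (f := (((ContinuousLinearMap.fst ℝ ℝ E).prod F' : ℝ × E →L[ℝ] ℝ × E) :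
            ℝ × E →ₗ[ℝ] ℝ × E)) hinj'
      have : CompleteSpace (ℝ × E) := FiniteDimensional.complete ℝ (ℝ × E)
      have hmap := hΦ.map_nhds_eq_of_surj hsurj
      rw [hxF'] at hmap
      have hmem : (fun y : ℝ × E => (y.1, F y)) '' {y | y.1 ∈ Icc (0 : ℝ) 1 → y ∈ K} ∈
          𝓝 (x.1, (0 : E)) := by
        rw [← hmap]
        exact Filter.image_mem_map hU
      have hcont : Continuous (fun t : ℝ => (t, (0 : E))) := by fun_prop
      have hev : ∀ᶠ t in 𝓝 x.1, (t, (0 : E)) ∈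
          (fun y : ℝ × E => (y.1, F y)) '' {y | y.1 ∈ Icc (0 : ℝ) 1 → y ∈ K} :=
        hcont.continuousAt.eventually hmem
      have hev2 : ∀ᶠ t in 𝓝[>] x.1, (t, (0 : E)) ∈
          (fun y : ℝ × E => (y.1, F y)) '' {y | y.1 ∈ Icc (0 : ℝ) 1 → y ∈ K} :=
        hev.filter_mono nhdsWithin_le_nhds
      have hev3 : ∀ᶠ t in 𝓝[>] x.1, t < 1 :=
        (eventually_lt_nhds hτ.2).filter_mono nhdsWithin_le_nhds
      filter_upwards [hev2, hev3, self_mem_nhdsWithin] with t ht1 ht2 ht3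
      obtain ⟨y, hyU, hy⟩ := ht1
      have hy1 : y.1 = t := congrArg Prod.fst hy
      have hy2 : F y = 0 := congrArg Prod.snd hy
      have hyI : y.1 ∈ Icc (0 : ℝ) 1 := by
        rw [hy1]
        exact ⟨hτ.1.trans (le_of_lt ht3), ht2.le⟩
      exact ⟨y, ⟨hyU hyI, hy2⟩, hy1⟩
  obtain ⟨x, ⟨hxK, hxF⟩, hx1⟩ := hS (right_mem_Icc.mpr zero_le_one)
  refine ⟨x.2, ?_, ?_⟩
  · rw [← hx1]; exact hxK
  · rw [← hx1]; exact hxF

end Pool.Agent.S3.E
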