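import Pool.Agent.S3.E.SlA

/-!
# Stage 3, block E: slot lemmas

Proofs.  Put `m = ρ |t|`, `γ = α + β`.  Then `m² = sinh² p + sin² r = (cosh 2p - cos 2r)/2` and
`D := |1 + w²| = |cosh q|² = (cosh 2p + cos 2r)/2`, `D² = 1 + 2 m² cos 2γ + m⁴`; hence
`cosh 2p = m² + D`, `cos 2r = D - m²`.  The function `s ↦ s + √(1 + 2 s G + s²)` (`-1 ≤ G ≤ 1`,
`s ≥ 0`) is increasing in `s` and in `G`.  With `s ≤ |t|²`, `G ≤ cos 2α`:
`cosh 2p ≤ |t|² + |1 + t²| = (|σ|² + 1)/|κ|²`.  With `s ≤ |σ|²`, `G ≤ cos 2α`, `|κ| ≥ 1`: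
`cosh 2p ≤ |σ|² + √(1 + 2|σ|² cos 2α + |σ|⁴) ≤ |σ|² + |κ|² = cosh 2I`, the last inequality is
`1 + (2 - c² - g²)/(c + g) ≤ c g`, i.e. `(c + g - 2)(c + 1)(g + 1) ≥ 0` (`geo: cos_two_al`).
-/

namespace Pool.Agent.S3.E

open Real

private theorem slb_basic {R I : ℝ} (h : 0 < R) (h' : R < π / 2) (hI : 0 < I) :
    1 < cc I ∧ -1 < gg R ∧ gg R < 1 := by
  refine ⟨?_, ?_, ?_⟩
  · unfold cc
    exact Real.one_lt_cosh.2 (by positivity)
  · unfold gg
    have h1 := Real.strictAntiOn_cos (a := 2 * R) (b := π) ⟨by linarith, by linarith⟩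
      ⟨by linarith, le_rfl⟩ (by linarith)
    rw [Real.cos_pi] at h1
    exact h1
  · unfold gg
    have h1 := Real.strictAntiOn_cos (a := 0) (b := 2 * R) ⟨le_rfl, by linarith⟩
      ⟨by linarith, by linarith⟩ (by linarith)
    rw [Real.cos_zero] at h1
    exact h1

private theorem slb_al_nonneg {R I : ℝ} (h : 0 < R) (h' : R < π / 2) (hI : 0 < I) :
    0 ≤ al R I := by
  unfold al
  rw [Real.arctan_nonneg]
  refine div_nonneg ?_ ?_
  · exact (Real.sinh_pos_iff.2 (by linarith)).le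
  · exact Real.sin_nonneg_of_nonneg_of_le_pi (by linarith) (by linarith)

/-- the value of the radicand at `s = |σ|²` -/
private theorem slb_rad {R I : ℝ} (h : 0 < R) (h' : R < π / 2) (hI : 0 < I) :
    1 + 2 * s2 R I * cos (2 * al R I) + s2 R I ^ 2 =
      k2 R I ^ 2 - (cc I + gg R - 2) * (cc I + 1) * (gg R + 1) / (cc I + gg R) := by
  obtain ⟨h1, h2, h3⟩ := slb_basic h h' hI
  have hs : cc I + gg R ≠ 0 := by linarith
  have hd : cc I ^ 2 - gg R ^ 2 ≠ 0 := by
    have : cc I ^ 2 - gg R ^ 2 = (cc I - gg R) * (cc I + gg R) := by ring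
    rw [this]
    exact mul_ne_zero (by linarith) hs
  have hm : cc I - gg R ≠ 0 := by linarith
  rw [cos_two_al h h' hI]
  have h4 : (2 - cc I ^ 2 - gg R ^ 2) / (cc I ^ 2 - gg R ^ 2) =
      (2 - cc I ^ 2 - gg R ^ 2) / ((cc I - gg R) * (cc I + gg R)) := by
    congr 1
    ring
  rw [h4]
  unfold s2 k2
  field_simp
  ring

private theorem slb_s2_nonneg {R I : ℝ} (h : 0 < R) (h' : R < π / 2) (hI : 0 < I) :
    0 < s2 R I := by
  obtain ⟨h1, h2, h3⟩ := slb_basic h h' hI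
  unfold s2
  linarith

private theorem slb_m2 {R I ρ : ℝ} (h : 0 < R) (h' : R < π / 2)
    (hI : 0 < I) (hρ : ρ ^ 2 ≤ k2 R I) (hk : 1 ≤ k2 R I) : (ρ * tt R I) ^ 2 ≤ s2 R I := by
  have hs := slb_s2_nonneg h h' hI
  have hk0 : 0 < k2 R I := by linarith
  unfold tt
  rw [mul_pow, Real.sq_sqrt (by positivity)]
  calc ρ ^ 2 * (s2 R I / k2 R I) ≤ k2 R I * (s2 R I / k2 R I) := by gcongr
    _ = s2 R I := by field_simp

private theorem slb_cos {R I ρ β p r : ℝ} (hs : Slot R I ρ β p r) (h : 0 < R) (h' : R < π / 2)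
    (hI : 0 < I) : cos (2 * (al R I + β)) ≤ cos (2 * al R I) := by
  have h1 := slb_al_nonneg h h' hI
  have h2 := hs.β0
  have h3 := hs.g1
  exact Real.cos_le_cos_of_nonneg_of_le_pi (by linarith) (by linarith) (by linarith)

private theorem slb_sqrt_le {R I : ℝ} (h : 0 < R) (h' : R < π / 2) (hI : 0 < I)
    (hk : 1 ≤ k2 R I) : √(1 + 2 * s2 R I * cos (2 * al R I) + s2 R I ^ 2) ≤ k2 R I := by
  obtain ⟨h1, h2, h3⟩ := slb_basic h h' hI
  rw [Real.sqrt_le_left (by linarith), slb_rad h h' hI]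
  have h4 : 0 ≤ (cc I + gg R - 2) * (cc I + 1) * (gg R + 1) / (cc I + gg R) := by
    have h5 : 0 ≤ cc I + gg R - 2 := by
      unfold k2 at hk
      linarith
    have h6 : 0 ≤ cc I + 1 := by linarith
    have h7 : 0 ≤ gg R + 1 := by linarith
    have h8 : 0 ≤ cc I + gg R := by linarith
    positivity
  linarith

private theorem slb_sum {R I : ℝ} : s2 R I + k2 R I = cosh (2 * I) := by
  unfold s2 k2 cc
  ring

/-- Core of Lemma A. -/
theorem Slot.le_I {R I ρ β p r : ℝ} (hs : Slot R I ρ β p r) (h : 0 < R) (h' : R < π / 2)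
    (hI : 0 < I) (hρ : ρ ^ 2 ≤ k2 R I) (hk : 1 ≤ k2 R I) : p ≤ I := by
  have h1 := hmono (sq_nonneg (ρ * tt R I)) (slb_m2 h h' hI hρ hk)
    (Real.neg_one_le_cos (2 * (al R I + β))) (slb_cos hs h h' hI) (Real.cos_le_one _)
  rw [← hs.cosh_two] at h1
  have h2 := slb_sqrt_le h h' hI hk
  have h3 : cosh (2 * p) ≤ cosh (2 * I) := by
    rw [← slb_sum (R := R) (I := I)]
    linarith
  rw [Real.cosh_le_cosh, abs_of_nonneg (by linarith [hs.p0]), abs_of_pos (by linarith)] at h3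
  linarith

/-- Core of Lemma A, strict form. -/
theorem Slot.lt_I {R I ρ β p r : ℝ} (hs : Slot R I ρ β p r) (h : 0 < R) (h' : R < π / 2)
    (hI : 0 < I) (hρ : ρ ^ 2 ≤ k2 R I) (hk : 1 ≤ k2 R I) (hst : 1 < k2 R I ∨ 0 < β ∨ ρ = 0) :
    p < I := by
  have h2 := slb_sqrt_le h h' hI hk
  have key : cosh (2 * p) < cosh (2 * I) → p < I := by
    intro h3
    rw [Real.cosh_lt_cosh, abs_of_nonneg (by linarith [hs.p0]), abs_of_pos (by linarith)] at h3
    linarith
  obtain ⟨b1, b2, b3⟩ := slb_basic h h' hI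
  rcases hst with hk1 | hβ | hρ0
  · apply key
    have h1 := hmono (sq_nonneg (ρ * tt R I)) (slb_m2 h h' hI hρ hk)
      (Real.neg_one_le_cos (2 * (al R I + β))) (slb_cos hs h h' hI) (Real.cos_le_one _)
    rw [← hs.cosh_two] at h1
    have h4 : √(1 + 2 * s2 R I * cos (2 * al R I) + s2 R I ^ 2) < k2 R I := by
      rw [Real.sqrt_lt' (by linarith), slb_rad h h' hI]
      have h5 : 0 < (cc I + gg R - 2) * (cc I + 1) * (gg R + 1) / (cc I + gg R) := by
        have h5 : 0 < cc I + gg R - 2 := by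
          unfold k2 at hk1
          linarith
        have h6 : 0 < cc I + 1 := by linarith
        have h7 : 0 < gg R + 1 := by linarith
        have h8 : 0 < cc I + gg R := by linarith
        positivity
      linarith
    rw [← slb_sum (R := R) (I := I)]
    linarith
  · apply key
    have h1 := hmono (G := cos (2 * (al R I + β))) (G' := cos (2 * (al R I + β)))
      (sq_nonneg (ρ * tt R I)) (slb_m2 h h' hI hρ hk)
      (Real.neg_one_le_cos (2 * (al R I + β))) le_rfl (Real.cos_le_one _)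
    rw [← hs.cosh_two] at h1
    have hc : cos (2 * (al R I + β)) < cos (2 * al R I) := by
      have h3 := hs.g1
      have h4 := slb_al_nonneg h h' hI
      exact Real.cos_lt_cos_of_nonneg_of_le_pi (by linarith) (by linarith) (by linarith)
    have hs0 := slb_s2_nonneg h h' hI
    have h4 : √(1 + 2 * s2 R I * cos (2 * (al R I + β)) + s2 R I ^ 2) <
        √(1 + 2 * s2 R I * cos (2 * al R I) + s2 R I ^ 2) := by
      apply Real.sqrt_lt_sqrt
      · have h5 := Real.neg_one_le_cos (2 * (al R I + β))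
        nlinarith [sq_nonneg (1 - s2 R I)]
      · nlinarith
    rw [← slb_sum (R := R) (I := I)]
    linarith
  · subst hρ0
    obtain ⟨hp, -⟩ := hs.zero
    rw [hp]
    exact hI

end Pool.Agent.S3.E
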