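import Pool.Agent.S3.E.VAB

/-!
# Stage 3, block E: Lemmas A, B, L and the bound of `φ` for `a ≥ 3`

Lemma A: if `|b_j| ≤ |κ|` and `|κ| > 1` then `p_j < I` for both slots (`Slot.lt_I`), so
`a I = p₁ + p₂ < 2 I`, a contradiction.

Lemma B: `r_j ≥ arctan (T tanh p_j)`, `T = tan α`, hence by subadditivity
`π = a R + r₁ + r₂ ≥ a R + arctan (T tanh (a I)) ≥ 2 R + arctan (T tanh 2I)`.  If `y = - cos 2R > 0`
put `2R = π - ψ`, `cos ψ = y`, `0 < ψ < π/2`: `T tanh 2I ≤ tan ψ`, i.e.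
`(c² - 1)/(c √(1 - y²)) ≤ √(1 - y²)/y`, i.e. `(c y - 1)(c + y) ≤ 0`.

Lemma L for `a ≥ 3`: `3R ≤ π`, so `g ≥ -1/2` and `|κ|² = (c + g)/2 ≥ 1/4`.

Bound of `φ` for `a ≥ 3` (suppose `φ > 7/10`; `tan R tanh I > 0.842`).  `R ≤ π/3`, so
`tanh I > 0.486`, `I > 0.53`, `T ≥ sinh 2I ≥ 1.26`, `tanh 3I ≥ 0.92`, `arctan (T tanh 3I) ≥ 0.85`,
so `3R ≤ π - 0.85`, `R ≤ 0.764`, `tan R ≤ 0.958`, `tanh I > 0.878`, `I > 1.36`, `T ≥ sinh 2.72 > 7.5`,
`arctan (T tanh 3I) ≥ 1.43`, `R ≤ 0.571`, `tan R < 0.643 < 0.842`, a contradiction.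
-/

namespace Pool.Agent.S3.E

open Real

private theorem Phi3_tan : 0.84 ≤ tan (7 / 10) := by
  have hs := abs_le.1 (sin_bound (x := 7 / 20) (by rw [abs_of_pos (by norm_num)]; norm_num))
  have hc := abs_le.1 (cos_bound (x := 7 / 20) (by rw [abs_of_pos (by norm_num)]; norm_num))
  rw [abs_of_pos (by norm_num : (0 : ℝ) < 7 / 20)] at hs hc
  have hs1 : 0.3428 ≤ sin (7 / 20) := by
    have := hs.1
    norm_num at this ⊢
    linarith
  have hc1 : cos (7 / 20) ≤ 0.93954 := by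
    have := hc.2
    norm_num at this ⊢
    linarith
  have hc0 : 0 < cos (7 / 20) := by
    have := hc.1
    norm_num at this
    linarith
  have ht : 0.3648 ≤ tan (7 / 20) := by
    rw [tan_eq_sin_div_cos, le_div_iff₀ hc0]
    nlinarith
  have ht1 : tan (7 / 20) < 1 := by
    rw [← tan_pi_div_four]
    have hp := pi_gt_three
    exact tan_lt_tan_of_lt_of_lt_pi_div_two (by linarith) (by linarith) (by linarith)
  have h2 : (7 / 10 : ℝ) = 2 * (7 / 20) := by norm_num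
  rw [h2, tan_two_mul, le_div_iff₀ (by nlinarith)]
  nlinarith

private theorem Phi3_step {R x s x₁ : ℝ} (hx0 : 0 < x₁) (hx1 : x₁ < 1) (hs : 1 < x₁ * s)
    (hn : (x₁ + s) / (x₁ * s - 1) < 2 * x₁ / (1 - x₁ ^ 2)) (hR0 : 0 < R) (hR1 : R < π / 2) (hx : x = tan R)
    (h : 3 * R + arctan s ≤ π) : x < x₁ := by
  by_contra hc
  push Not at hc
  have h1 : arctan x₁ ≤ R := by
    rw [← arctan_tan (by linarith) hR1]
    exact arctan_mono (by rw [← hx]; exact hc)
  have h2 : 2 * arctan x₁ = arctan (2 * x₁ / (1 - x₁ ^ 2)) := two_mul_arctan (by linarith) hx1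
  have h3 : arctan x₁ + arctan s = arctan ((x₁ + s) / (1 - x₁ * s)) + π := arctan_add_eq_add_pi hs hx0
  have h4 : (x₁ + s) / (1 - x₁ * s) = -((x₁ + s) / (x₁ * s - 1)) := by
    rw [← div_neg]
    congr 1
    ring
  rw [h4, arctan_neg] at h3
  have h5 := arctan_strictMono hn
  linarith

private theorem Phi3_tanh {x y : ℝ} (h : x ≤ y) : tanh x ≤ tanh y := by
  rw [tanh_eq_sinh_div_cosh, tanh_eq_sinh_div_cosh, div_le_div_iff₀ (cosh_pos _) (cosh_pos _)]
  have h1 : 0 ≤ sinh (y - x) := sinh_nonneg_iff.2 (by linarith)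
  rw [sinh_sub] at h1
  linarith

private theorem Phi3_id (I : ℝ) : sinh (2 * I) * tanh (3 * I) * ((1 - tanh I ^ 2) * (1 + 3 * tanh I ^ 2)) =
    2 * tanh I ^ 2 * (3 + tanh I ^ 2) := by
  have hc := cosh_pos I
  have hs := cosh_sq I
  have e1 : 4 * cosh I ^ 3 - 3 * cosh I = cosh I * (cosh I ^ 2 + 3 * sinh I ^ 2) := by
    linear_combination 3 * cosh I * hs
  have e2 : 4 * sinh I ^ 3 + 3 * sinh I = sinh I * (3 * cosh I ^ 2 + sinh I ^ 2) := by
    linear_combination -3 * sinh I * hs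
  have e3 : 1 - (sinh I / cosh I) ^ 2 = 1 / cosh I ^ 2 := by
    rw [div_pow, eq_div_iff (by positivity), sub_mul, div_mul_cancel₀ _ (by positivity)]
    linear_combination hs
  have e4 : 0 < cosh I ^ 2 + 3 * sinh I ^ 2 := by positivity
  rw [tanh_eq_sinh_div_cosh, tanh_eq_sinh_div_cosh, sinh_two_mul, sinh_three_mul, cosh_three_mul, e1, e2, e3]
  field_simp

private theorem Phi3_low {I u₀ s₀ : ℝ} (hu : u₀ ≤ tanh I ^ 2) (hu0 : 0 ≤ u₀) (hs0 : 0 ≤ s₀)
    (h : 0 ≤ (2 + 3 * s₀) * u₀ ^ 2 + (6 - 2 * s₀) * u₀ - s₀) (h' : 0 ≤ (2 + 3 * s₀) * (2 * u₀) + (6 - 2 * s₀)) :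
    s₀ ≤ sinh (2 * I) * tanh (3 * I) := by
  have hid := Phi3_id I
  have hm : tanh I ^ 2 < 1 := by
    have := tanh_lt_one I
    have := neg_one_lt_tanh I
    nlinarith
  set u := tanh I ^ 2 with hu'
  have hp : 0 < (1 - u) * (1 + 3 * u) := by
    have : 0 ≤ u := le_trans hu0 hu
    apply mul_pos <;> linarith
  have h1 : s₀ * ((1 - u) * (1 + 3 * u)) ≤ 2 * u * (3 + u) := by
    have h2 : 0 ≤ (u - u₀) * ((2 + 3 * s₀) * (u + u₀) + (6 - 2 * s₀)) := by
      apply mul_nonneg (by linarith)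
      nlinarith
    nlinarith
  rw [← hid] at h1
  exact le_of_mul_le_mul_right h1 hp

/-- `φ ≤ 7/10` for `a ≥ 3`. -/
theorem Vx.phi3 {a R I ρ₁ β₁ p₁ r₁ ρ₂ β₂ p₂ r₂ : ℝ} (h : Vx a R I ρ₁ β₁ p₁ r₁ ρ₂ β₂ p₂ r₂)
    (ha : 3 ≤ a) : ph R I ≤ 7 / 10 := by
  by_contra hc
  push Not at hc
  have hR0 := h.R0
  have hR1 := h.R1
  have hI0 := h.I0
  have hxm : 0.84 < tan R * tanh I := by
    unfold ph at hc
    have h1 : tan (7 / 10) < tan (arctan (tan R * tanh I)) := by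
      have hp := pi_gt_three
      exact tan_lt_tan_of_lt_of_lt_pi_div_two (by linarith) (arctan_lt_pi_div_two _) hc
    rw [tan_arctan] at h1
    exact lt_of_le_of_lt Phi3_tan h1
  have hm0 : 0 < tanh I := by
    rw [tanh_eq_sinh_div_cosh]
    exact div_pos (sinh_pos_iff.2 hI0) (cosh_pos _)
  have hm1 : tanh I < 1 := tanh_lt_one I
  have hx0 : 0 < tan R := tan_pos_of_pos_of_lt_pi_div_two hR0 hR1
  -- the sum
  have hsum : 3 * R + arctan (sinh (2 * I) * tanh (3 * I)) ≤ π := by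
    refine le_trans ?_ h.sum_le
    have hsh : 0 < sinh (2 * I) := sinh_pos_iff.2 (by linarith)
    have hsin : 0 < sin (2 * R) := sin_pos_of_pos_of_lt_pi (by linarith) (by linarith)
    have hT : sinh (2 * I) ≤ tan (al R I) := by
      unfold al
      rw [tan_arctan, le_div_iff₀ hsin]
      have := sin_le_one (2 * R)
      nlinarith
    have h3 : 0 ≤ tanh (3 * I) := by
      rw [tanh_eq_sinh_div_cosh]
      exact div_nonneg (sinh_nonneg_iff.2 (by linarith)) (cosh_pos _).le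
    have ht : tanh (3 * I) ≤ tanh (a * I) := Phi3_tanh (by nlinarith)
    have := arctan_mono (mul_le_mul hT ht h3 (by linarith))
    nlinarith
  -- step 0
  have hS0 : 0 < arctan (sinh (2 * I) * tanh (3 * I)) := by
    rw [arctan_pos]
    apply mul_pos (sinh_pos_iff.2 (by linarith))
    rw [tanh_eq_sinh_div_cosh]
    exact div_pos (sinh_pos_iff.2 (by linarith)) (cosh_pos _)
  have hx3 : tan R ^ 2 < 3 := by
    have h1 : tan R < tan (π / 3) :=
      tan_lt_tan_of_lt_of_lt_pi_div_two (by linarith) (by linarith [pi_pos]) (by linarith)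
    rw [tan_pi_div_three] at h1
    have h2 := sq_sqrt (show (0 : ℝ) ≤ 3 by norm_num)
    nlinarith [sqrt_nonneg (3 : ℝ)]
  have hm2 : 0.2342 ≤ tanh I ^ 2 := by
    have h1 : 0.84 ^ 2 < (tan R * tanh I) ^ 2 := by
      apply pow_lt_pow_left₀ hxm (by norm_num) (by norm_num)
    rw [mul_pow] at h1
    have h2 : 0 < tanh I ^ 2 := by positivity
    nlinarith
  -- step 1
  have hx1 : tan R < 0.96 := by
    have h1 := Phi3_low (u₀ := 0.2342) (s₀ := 1.16) hm2 (by norm_num) (by norm_num) (by norm_num) (by norm_num)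
    refine Phi3_step (s := 1.16) (by norm_num) (by norm_num) (by norm_num) (by norm_num) hR0 hR1 rfl ?_
    have := arctan_mono h1
    linarith
  have hm3 : 0.765625 ≤ tanh I ^ 2 := by
    have h1 : 0.875 ≤ tanh I := by nlinarith
    nlinarith
  -- step 2
  have hx2 : tan R < 0.84 := by
    have h1 := Phi3_low (u₀ := 0.765625) (s₀ := 7) hm3 (by norm_num) (by norm_num) (by norm_num) (by norm_num)
    refine Phi3_step (s := 7) (by norm_num) (by norm_num) (by norm_num) (by norm_num) hR0 hR1 rfl ?_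
    have := arctan_mono h1
    linarith
  nlinarith

end Pool.Agent.S3.E
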