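import Pool.Agent.S3.E.GeoX

/-!
# Stage 3, block E: slot lemmas

Proofs.  Put `m = ρ |t|`, `γ = α + β`.  Then `m² = sinh² p + sin² r = (cosh 2p - cos 2r)/2` and
`D := |1 + w²| = |cosh q|² = (cosh 2p + cos 2r)/2`, `D² = 1 + 2 m² cos 2γ + m⁴`; hence
`cosh 2p = m² + D`, `cos 2r = D - m²`.  The function `s ↦ s + √(1 + 2 s G + s²)` (`-1 ≤ G ≤ 1`,
`s ≥ 0`) is increasing in `s` and in `G`.  With `s ≤ |t|²`, `G ≤ cos 2α`:
`cosh 2p ≤ |t|² + |1 + t²| = (|σ|² + 1)/|κ|²`.  With `s ≤ |σ|²`, `G ≤ cos 2α`, `|κ| ≥ 1`: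
`cosh 2p ≤ |σ|² + √(1 + 2|σ|² cos 2α + |σ|⁴) ≤ |σ|² + |κ|² = cosh 2I`, the last inequality is
`1 + (2 - c² - g²)/(c + g) ≤ c g`, i.e. `(c + g - 2)(c + 1)(g + 1) ≥ 0` (`geo: cos_two_al`).
-/

namespace Pool.Agent.S3.E

open Real

theorem hmono {G G' s s' : ℝ} (h : 0 ≤ s) (h' : s ≤ s') (hG : -1 ≤ G) (hG' : G ≤ G') (h1 : G' ≤ 1) :
    s + √(1 + 2 * s * G + s ^ 2) ≤ s' + √(1 + 2 * s' * G' + s' ^ 2) := by
  have hA : √(1 + 2 * s * G + s ^ 2) ≤ √(1 + 2 * s * G' + s ^ 2) := by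
    apply Real.sqrt_le_sqrt
    nlinarith [mul_le_mul_of_nonneg_left hG' h]
  have hB : -(s' + G') ≤ √(1 + 2 * s' * G' + s' ^ 2) := by
    apply Real.le_sqrt_of_sq_le
    nlinarith
  have hC : √(1 + 2 * s * G' + s ^ 2) ≤ (s' - s) + √(1 + 2 * s' * G' + s' ^ 2) := by
    have h0 : 0 ≤ √(1 + 2 * s' * G' + s' ^ 2) := Real.sqrt_nonneg _
    have hsq : √(1 + 2 * s' * G' + s' ^ 2) ^ 2 = 1 + 2 * s' * G' + s' ^ 2 :=
      Real.sq_sqrt (by
        have a1 : 0 ≤ (1 - G') * (1 + G') := mul_nonneg (by linarith) (by linarith)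
        nlinarith [sq_nonneg (s' + G')])
    rw [Real.sqrt_le_left (by linarith)]
    have hd : 0 ≤ s' - s := by linarith
    nlinarith [mul_nonneg hd (by linarith : 0 ≤ √(1 + 2 * s' * G' + s' ^ 2) + (s' + G'))]
  linarith

private theorem slA_aux {R I ρ β p r : ℝ} (hs : Slot R I ρ β p r) :
    (ρ * tt R I) ^ 2 = sinh p ^ 2 + sin r ^ 2 ∧
    √(1 + 2 * (ρ * tt R I) ^ 2 * cos (2 * (al R I + β)) + ((ρ * tt R I) ^ 2) ^ 2) =
      1 + sinh p ^ 2 - sin r ^ 2 := by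
  have hc := Real.cos_sq_add_sin_sq r
  have hch := Real.cosh_sq p
  have hg := Real.cos_sq_add_sin_sq (al R I + β)
  have e1 : (ρ * tt R I) ^ 2 * cos (al R I + β) ^ 2 = sinh p ^ 2 * (1 - sin r ^ 2) := by
    have := congrArg (fun x => x ^ 2) hs.e1
    simp only [mul_pow] at this
    have a : cos r ^ 2 = 1 - sin r ^ 2 := by linarith
    rw [← a, this, mul_pow]
  have e2 : (ρ * tt R I) ^ 2 * sin (al R I + β) ^ 2 = (1 + sinh p ^ 2) * sin r ^ 2 := by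
    have := congrArg (fun x => x ^ 2) hs.e2
    simp only [mul_pow] at this
    have a : cosh p ^ 2 = 1 + sinh p ^ 2 := by linarith
    rw [← a, this, mul_pow]
  have hm : (ρ * tt R I) ^ 2 = sinh p ^ 2 + sin r ^ 2 := by
    calc (ρ * tt R I) ^ 2 = (ρ * tt R I) ^ 2 * (cos (al R I + β) ^ 2 + sin (al R I + β) ^ 2) := by
          rw [hg, mul_one]
      _ = (ρ * tt R I) ^ 2 * cos (al R I + β) ^ 2 + (ρ * tt R I) ^ 2 * sin (al R I + β) ^ 2 := by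
          ring
      _ = _ := by rw [e1, e2]; ring
  refine ⟨hm, ?_⟩
  have h2 : (ρ * tt R I) ^ 2 * cos (2 * (al R I + β)) =
      sinh p ^ 2 - sin r ^ 2 - 2 * sinh p ^ 2 * sin r ^ 2 := by
    have : cos (2 * (al R I + β)) = cos (al R I + β) ^ 2 - sin (al R I + β) ^ 2 := by
      rw [Real.cos_two_mul]; linarith
    rw [this, mul_sub, e1, e2]; ring
  have h3 : 1 + 2 * (ρ * tt R I) ^ 2 * cos (2 * (al R I + β)) + ((ρ * tt R I) ^ 2) ^ 2 =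
      (1 + sinh p ^ 2 - sin r ^ 2) ^ 2 := by
    have : 2 * (ρ * tt R I) ^ 2 * cos (2 * (al R I + β)) =
        2 * ((ρ * tt R I) ^ 2 * cos (2 * (al R I + β))) := by ring
    rw [this, h2, hm]; ring
  rw [h3, Real.sqrt_sq]
  have : sin r ^ 2 ≤ 1 := Real.sin_sq_le_one r
  nlinarith [sq_nonneg (sinh p)]

theorem Slot.cosh_two {R I ρ β p r : ℝ} (hs : Slot R I ρ β p r) :
    cosh (2 * p) = (ρ * tt R I) ^ 2 +
      √(1 + 2 * (ρ * tt R I) ^ 2 * cos (2 * (al R I + β)) + ((ρ * tt R I) ^ 2) ^ 2) := by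
  obtain ⟨h1, h2⟩ := slA_aux hs
  rw [h2, h1, Real.cosh_two_mul, Real.cosh_sq]
  ring

theorem Slot.cos_two {R I ρ β p r : ℝ} (hs : Slot R I ρ β p r) :
    cos (2 * r) =
      √(1 + 2 * (ρ * tt R I) ^ 2 * cos (2 * (al R I + β)) + ((ρ * tt R I) ^ 2) ^ 2) -
        (ρ * tt R I) ^ 2 := by
  obtain ⟨h1, h2⟩ := slA_aux hs
  rw [h2, h1, Real.cos_two_mul]
  have hc := Real.cos_sq_add_sin_sq r
  have a : cos r ^ 2 = 1 - sin r ^ 2 := by linarith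
  rw [a]
  ring

/-- `ρ = 0` means `p = r = 0`. -/
theorem Slot.zero {R I β p r : ℝ} (hs : Slot R I 0 β p r) : p = 0 ∧ r = 0 := by
  have e2 := hs.e2
  have e1 := hs.e1
  simp only [zero_mul] at e1 e2
  have hsr : sin r = 0 := by
    rcases mul_eq_zero.mp e2 with h | h
    · exact absurd h (Real.cosh_pos p).ne'
    · exact h
  have hr : r = 0 := by
    by_contra hne
    have hpos : 0 < r := lt_of_le_of_ne hs.r0 (Ne.symm hne)
    have := Real.sin_pos_of_pos_of_lt_pi hpos (by linarith [hs.r1, Real.pi_pos])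
    linarith
  refine ⟨?_, hr⟩
  rw [hr, Real.cos_zero, mul_one] at e1
  exact Real.sinh_eq_zero.mp e1

/-- Lemma P: `p ≤ x` for `ρ ≤ 1`, where `cosh 2x = (1 + |σ|²)/|κ|²`. -/
theorem Slot.le_x {R I ρ β p r : ℝ} (hs : Slot R I ρ β p r) (h : 0 < R) (h' : R < π / 2)
    (hI : 0 < I) (hρ : ρ ≤ 1) : cosh (2 * p) ≤ (1 + s2 R I) / k2 R I := by
  have hk := k2_pos (I := I) h h'
  have hss := s2_pos (I := I) h h'
  have hal := al_pos h h' hI
  have ht := tt_pos (I := I) h h'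
  have h1 : (ρ * tt R I) ^ 2 ≤ tt R I ^ 2 := by
    apply pow_le_pow_left₀ (mul_nonneg hs.ρ0 ht.le)
    nlinarith
  have h2 : cos (2 * (al R I + β)) ≤ cos (2 * al R I) := by
    apply Real.cos_le_cos_of_nonneg_of_le_pi (by linarith)
    · linarith [hs.g1]
    · linarith [hs.β0]
  have h3 := hmono (sq_nonneg (ρ * tt R I)) h1 (Real.neg_one_le_cos _) h2 (Real.cos_le_one _)
  rw [hs.cosh_two]
  refine h3.trans (le_of_eq ?_)
  rw [tt_sq h h', cos_two_al h h' hI]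
  have hcg : cc I ^ 2 - gg R ^ 2 = 4 * (s2 R I * k2 R I) := by unfold s2 k2; ring
  have hcg2 : 2 - cc I ^ 2 - gg R ^ 2 = 2 - 2 * (s2 R I ^ 2 + k2 R I ^ 2) := by
    unfold s2 k2; ring
  have h4 : 1 + 2 * (s2 R I / k2 R I) * ((2 - cc I ^ 2 - gg R ^ 2) / (cc I ^ 2 - gg R ^ 2)) +
      (s2 R I / k2 R I) ^ 2 = (1 / k2 R I) ^ 2 := by
    rw [hcg, hcg2]
    field_simp
    ring
  rw [h4, Real.sqrt_sq (by positivity)]
  field_simp
  ring

end Pool.Agent.S3.E
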