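import Pool.Agent.S3.E.OGeo
import Pool.Agent.S3.E.SlA
import Pool.Agent.S3.E.SlC

/-!
# Stage 3, block E: the chord inequality of a vertex

`x = xx R I`, `θ = th R I` (so `tan (R + i I) = sinh (x + i θ)`), `T = tan (al R I)`,
`T tanh x = tan θ` (`tan_al_eq`).

Proofs.
* `arctan_tanh_chord`: `p ↦ arctan (T tanh p)` is `0` at `0` and concave on `[0, ∞)`: its derivative
  is `T / (cosh² p + T² sinh² p)`, which decreases.
* `Slot.le_xx`: `Slot.le_x` says `cosh 2p ≤ (1 + s2) / k2 = cosh 2x` (`cosh_two_xx`), `0 ≤ p`,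
  `0 < x`.
* `Slot.chord`: `r ≥ arctan (T tanh p)` (`Slot.arctan_le`), `arctan (T tanh x) = θ`
  (`tan_al_eq`, `0 < θ < π / 2`), and `arctan_tanh_chord`.
* `Vx.chord`: add the two slots and use `a R + r₁ + r₂ = π`, `a I = p₁ + p₂`.
-/

set_option autoImplicit false

namespace Pool.Agent.S3.E

open Real

private theorem rng1_hasDerivAt (T p : ℝ) :
    HasDerivAt (fun q => arctan (T * tanh q)) (T / (cosh p ^ 2 + T ^ 2 * sinh p ^ 2)) p := by
  have hc : cosh p ≠ 0 := (cosh_pos p).ne'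
  have h1 : HasDerivAt (fun q => tanh q) (1 / cosh p ^ 2) p := by
    have h := (Real.hasDerivAt_sinh p).div (Real.hasDerivAt_cosh p) hc
    have e : (fun q => tanh q) = (sinh / cosh : ℝ → ℝ) := by
      funext y
      rw [Pi.div_apply, tanh_eq_sinh_div_cosh]
    rw [e]
    have e2 : cosh p * cosh p - sinh p * sinh p = 1 := by
      have := Real.cosh_sq p
      linarith [sq (cosh p), sq (sinh p)]
    rw [e2] at h
    exact h
  have h2 := (h1.const_mul T).arctan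
  convert h2 using 1
  have hpos : cosh p ^ 2 + T ^ 2 * sinh p ^ 2 ≠ 0 := by positivity
  rw [tanh_eq_sinh_div_cosh]
  have e : 1 + (T * (sinh p / cosh p)) ^ 2 = (cosh p ^ 2 + T ^ 2 * sinh p ^ 2) / cosh p ^ 2 := by
    field_simp
  rw [e]
  field_simp

theorem arctan_tanh_chord {T p x : ℝ} (hT : 0 ≤ T) (hp : 0 ≤ p) (hpx : p ≤ x) (hx : 0 < x) :
    p * arctan (T * tanh x) ≤ x * arctan (T * tanh p) := by
  have hdiff : Differentiable ℝ (fun q => arctan (T * tanh q)) :=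
    fun q => (rng1_hasDerivAt T q).differentiableAt
  have hconc : ConcaveOn ℝ (Set.Ici (0 : ℝ)) (fun q => arctan (T * tanh q)) := by
    apply AntitoneOn.concaveOn_of_deriv (convex_Ici 0) hdiff.continuous.continuousOn
      hdiff.differentiableOn
    intro u hu v hv huv
    rw [interior_Ici, Set.mem_Ioi] at hu hv
    rw [(rng1_hasDerivAt T u).deriv, (rng1_hasDerivAt T v).deriv]
    have hcu := cosh_pos u
    have hsu : 0 ≤ sinh u := sinh_nonneg_iff.mpr hu.le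
    have hs : sinh u ≤ sinh v := sinh_le_sinh.mpr huv
    have hc : cosh u ≤ cosh v := cosh_le_cosh.mpr (by rw [abs_of_pos hu, abs_of_pos hv]; exact huv)
    have h1 : cosh u ^ 2 ≤ cosh v ^ 2 := pow_le_pow_left₀ hcu.le hc 2
    have h2 : sinh u ^ 2 ≤ sinh v ^ 2 := pow_le_pow_left₀ hsu hs 2
    apply div_le_div_of_nonneg_left hT (by positivity)
    have := mul_le_mul_of_nonneg_left h2 (sq_nonneg T)
    linarith
  have h0 : (0 : ℝ) ∈ Set.Ici (0 : ℝ) := Set.mem_Ici.mpr le_rfl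
  have hxm : x ∈ Set.Ici (0 : ℝ) := hx.le
  have hw : 0 ≤ p / x := div_nonneg hp hx.le
  have hw1 : p / x ≤ 1 := (div_le_one hx).mpr hpx
  have key := hconc.2 hxm h0 hw (sub_nonneg.mpr hw1) (by ring)
  simp only [smul_eq_mul, mul_zero, add_zero, tanh_zero, arctan_zero] at key
  rw [div_mul_cancel₀ _ hx.ne', div_mul_eq_mul_div, div_le_iff₀ hx] at key
  linarith [mul_comm (arctan (T * tanh p)) x]

theorem Slot.le_xx {R I ρ β p r : ℝ} (hs : Slot R I ρ β p r) (h : 0 < R) (h' : R < π / 2)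
    (hI : 0 < I) (hρ : ρ ≤ 1) : p ≤ xx R I := by
  have h1 := hs.le_x h h' hI hρ
  rw [← cosh_two_xx h h' hI, cosh_le_cosh, abs_of_nonneg (by linarith [hs.p0]),
    abs_of_nonneg (by linarith [xx_pos h h' hI])] at h1
  linarith

theorem Slot.chord {R I ρ β p r : ℝ} (hs : Slot R I ρ β p r) (h : 0 < R) (h' : R < π / 2)
    (hI : 0 < I) (hρ : ρ ≤ 1) : th R I * p ≤ xx R I * r := by
  have hx := xx_pos h h' hI
  have hal := al_pos h h' hI
  have hT : 0 ≤ tan (al R I) := tan_nonneg_of_nonneg_of_le_pi_div_two hal.le (al_lt R I).le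
  have h1 := arctan_tanh_chord hT hs.p0 (hs.le_xx h h' hI hρ) hx
  have hth := th_pos h h' hI
  rw [tan_al_eq h h' hI, arctan_tan (by linarith) (th_lt h h' hI)] at h1
  have h2 := mul_le_mul_of_nonneg_left (hs.arctan_le h h' hI) hx.le
  linarith [mul_comm p (th R I)]

theorem Vx.chord {a R I ρ₁ β₁ p₁ r₁ ρ₂ β₂ p₂ r₂ : ℝ} (h : Vx a R I ρ₁ β₁ p₁ r₁ ρ₂ β₂ p₂ r₂)
    (h₁ : ρ₁ ≤ 1) (h₂ : ρ₂ ≤ 1) : a * (xx R I * R + th R I * I) ≤ π * xx R I := by
  have c1 := h.sl₁.chord h.R0 h.R1 h.I0 h₁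
  have c2 := h.sl₂.chord h.R0 h.R1 h.I0 h₂
  have e1 := h.hR
  have e2 := h.hI
  calc a * (xx R I * R + th R I * I) = xx R I * (a * R) + th R I * (a * I) := by ring
    _ = xx R I * (π - r₁ - r₂) + th R I * (p₁ + p₂) := by
        rw [e2, show a * R = π - r₁ - r₂ by linarith]
    _ ≤ π * xx R I := by nlinarith

theorem Vx.le_two_xx {a R I ρ₁ β₁ p₁ r₁ ρ₂ β₂ p₂ r₂ : ℝ} (h : Vx a R I ρ₁ β₁ p₁ r₁ ρ₂ β₂ p₂ r₂)
    (h₁ : ρ₁ ≤ 1) (h₂ : ρ₂ ≤ 1) : a * I ≤ 2 * xx R I := by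
  have c1 := h.sl₁.le_xx h.R0 h.R1 h.I0 h₁
  have c2 := h.sl₂.le_xx h.R0 h.R1 h.I0 h₂
  have e2 := h.hI
  linarith

theorem Vx.end_le_xx {a R I ρ₁ β₁ p₁ r₁ β₂ p₂ r₂ : ℝ} (h : Vx a R I ρ₁ β₁ p₁ r₁ 0 β₂ p₂ r₂)
    (h₁ : ρ₁ ≤ 1) : a * I ≤ xx R I := by
  have c1 := h.sl₁.le_xx h.R0 h.R1 h.I0 h₁
  have c2 := h.sl₂.zero.1
  have e2 := h.hI
  linarith

end Pool.Agent.S3.E
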