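import Pool.Agent.S3.E.Rng

/-!
# Stage 3, block E: `|cos z|` at an inner vertex with three twists next to an inner vertex with two

`Vx.inner3_k2`: `59/100 ≤ ρ₁`, `β₁ ≤ 3/5`, `1/2 ≤ ρ₂` imply `(63/100)² ≤ k2 R I`.

With `K = k2 R I`, `t = sinh² I`, `A = cos² R = K - t`:
(N) `Σ |sinh q_j|² = Σ (sinh² p_j + sin² r_j) = (ρ₁² + ρ₂²) (1 + t - A) / K` and
`Σ ≤ sinh² 3I + sin² 3R = t (3 + 4t)² + (1 - A) (4A - 1)²`: impossible if `K < .3969`, `t ≤ .09`;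
(I) `ρ₁ cos β₁ sinh I cosh I / K ≤ cosh p₁ sin r₁ ≤ cosh 3I sin 3R`: impossible if `K < .3969`,
`.09 ≤ t` (with `A ≥ .2809`, `Vx.R_lt`).
-/

set_option autoImplicit false

namespace Pool.Agent.S3.E

open Real

/-- `Im tan z`. -/
theorem tt_sin_al {R I : ℝ} (h : 0 < R) (h' : R < π / 2) :
    tt R I * sin (al R I) * k2 R I = sinh I * cosh I := by
  have e := tan_polar (z := ⟨R, I⟩) h h'
  have hk := k2_pos (I := I) h h'
  have hcos : Complex.cos ⟨R, I⟩ ≠ 0 := by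
    intro h2
    have h3 := norm_cos_sq ⟨R, I⟩
    rw [h2, norm_zero] at h3
    have h4 : k2 (Complex.mk R I).re (Complex.mk R I).im = k2 R I := rfl
    rw [h4] at h3
    norm_num at h3
    linarith
  have e2 := congrArg Complex.im e
  rw [Complex.im_ofReal_mul, Complex.exp_ofReal_mul_I_im] at e2
  have e3 : (Complex.tan ⟨R, I⟩).im * k2 R I = sinh I * cosh I := by
    have n1 : Complex.normSq (Complex.cos ⟨R, I⟩) = k2 R I := by
      rw [Complex.normSq_eq_norm_sq, norm_cos_sq]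
    have e4 : Complex.tan ⟨R, I⟩ * ((k2 R I : ℝ) : ℂ) =
        Complex.sin ⟨R, I⟩ * (starRingEnd ℂ) (Complex.cos ⟨R, I⟩) := by
      rw [← n1, Complex.tan_eq_sin_div_cos, ← Complex.mul_conj]
      field_simp
    have e5 := congrArg Complex.im e4
    rw [mul_comm, Complex.im_ofReal_mul] at e5
    rw [mul_comm, e5, Complex.mul_im, Complex.conj_re, Complex.conj_im, GeoC_cos_re, GeoC_cos_im,
      GeoC_sin_re, GeoC_sin_im]
    show sin R * cosh I * -(-(sin R * sinh I)) + cos R * sinh I * (cos R * cosh I) = _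
    have := sin_sq_add_cos_sq R
    linear_combination (sinh I * cosh I) * this
  rw [← e3, e2]

/-- `|sinh q|²` at a slot. -/
theorem Slot.norm {R I ρ β p r : ℝ} (hs : Slot R I ρ β p r) (h : 0 < R) (h' : R < π / 2) :
    (sinh p ^ 2 + sin r ^ 2) * k2 R I = ρ ^ 2 * s2 R I := by
  have e1 := hs.e1
  have e2 := hs.e2
  have a1 := sin_sq_add_cos_sq (al R I + β)
  have a2 := sin_sq_add_cos_sq r
  have a3 := cosh_sq p
  have a4 := tt_sq (I := I) h h'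
  have hk := k2_pos (I := I) h h'
  have e3 : sinh p ^ 2 + sin r ^ 2 = ρ ^ 2 * tt R I ^ 2 := by
    have e4 : (sinh p * cos r) ^ 2 + (cosh p * sin r) ^ 2 = ρ ^ 2 * tt R I ^ 2 := by
      rw [e1, e2]
      linear_combination (ρ ^ 2 * tt R I ^ 2) * a1
    have e5 : (sinh p * cos r) ^ 2 + (cosh p * sin r) ^ 2 = sinh p ^ 2 + sin r ^ 2 := by
      rw [mul_pow, mul_pow, a3]
      linear_combination (sinh p ^ 2) * a2
    rw [← e5, e4]
  rw [e3, a4]
  field_simp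

private theorem Rng12_N {K t A u : ℝ} (hK : K < 3969 / 10000) (ht : 0 ≤ t) (ht1 : t ≤ 9 / 100)
    (hA : A = K - t) (hA0 : 2809 / 10000 ≤ A) (hu : 5981 / 10000 ≤ u)
    (h : u * (1 + t - A) ≤ K * (t * (3 + 4 * t) ^ 2 + (1 - A) * (4 * A - 1) ^ 2)) : False := by
  have h1 : 5981 / 10000 * (6031 / 10000 + 2 * t) ≤ u * (1 + t - A) :=
    mul_le_mul hu (by linarith) (by linarith) (by linarith)
  have h2 : (4 * A - 1) ^ 2 ≤ (5876 / 10000 - 4 * t) ^ 2 :=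
    pow_le_pow_left₀ (by linarith) (by linarith) 2
  have h3 : (1 - A) * (4 * A - 1) ^ 2 ≤ 7191 / 10000 * (5876 / 10000 - 4 * t) ^ 2 :=
    mul_le_mul (by linarith) h2 (sq_nonneg _) (by norm_num)
  have h4 : 0 ≤ t * (3 + 4 * t) ^ 2 + (1 - A) * (4 * A - 1) ^ 2 := by
    have : 0 ≤ 1 - A := by linarith
    positivity
  have h5 : K * (t * (3 + 4 * t) ^ 2 + (1 - A) * (4 * A - 1) ^ 2) ≤
      3969 / 10000 * (t * (3 + 4 * t) ^ 2 + 7191 / 10000 * (5876 / 10000 - 4 * t) ^ 2) :=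
    mul_le_mul hK.le (by linarith) h4 (by norm_num)
  have h6 : (3 + 4 * t) ^ 2 ≤ 9 + 24 * t + 16 * t * (9 / 100) := by nlinarith
  have h7 : t * (3 + 4 * t) ^ 2 ≤ t * (9 + 24 * t + 16 * t * (9 / 100)) :=
    mul_le_mul_of_nonneg_left h6 ht
  nlinarith

private theorem Rng12_I {K t A w S : ℝ} (hK : K < 3969 / 10000) (ht1 : 9 / 100 ≤ t)
    (hA : A = K - t) (hA0 : 2809 / 10000 ≤ A) (hw : 4779 / 10000 ≤ w) (hS0 : 0 ≤ S) (hS : S ≤ 1)
    (h : w * √t ≤ K * (1 + 4 * t) * (S * (4 * A - 1))) : False := by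
  have h1 : 3 / 10 ≤ √t := Real.le_sqrt_of_sq_le (by norm_num; linarith)
  have h2 : 4779 / 10000 * (3 / 10) ≤ w * √t := mul_le_mul hw h1 (by norm_num) (by linarith)
  have h3 : S * (4 * A - 1) ≤ 2276 / 10000 := by nlinarith
  have h3' : 0 ≤ S * (4 * A - 1) := mul_nonneg hS0 (by linarith)
  have h4 : K * (1 + 4 * t) ≤ 3969 / 10000 * (1464 / 1000) :=
    mul_le_mul hK.le (by linarith) (by linarith) (by norm_num)
  have h5 : K * (1 + 4 * t) * (S * (4 * A - 1)) ≤ 3969 / 10000 * (1464 / 1000) * (2276 / 10000) :=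
    mul_le_mul h4 h3 h3' (by norm_num)
  norm_num at h5 h2
  linarith

private theorem Rng12_cos {β : ℝ} (h0 : 0 ≤ β) (h : β ≤ 3 / 5) : 81 / 100 ≤ cos β := by
  have hpi := Real.pi_gt_three
  have a : |(3 / 5 : ℝ)| ≤ 1 := by rw [abs_of_pos (by norm_num)]; norm_num
  have hc := (abs_le.1 (Real.cos_bound a)).1
  rw [abs_of_pos (by norm_num : (0 : ℝ) < 3 / 5)] at hc
  have h2 : cos (3 / 5) ≤ cos β := cos_le_cos_of_nonneg_of_le_pi h0 (by linarith) h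
  norm_num at hc
  linarith

theorem Vx.inner3_k2 {R I ρ₁ β₁ p₁ r₁ ρ₂ β₂ p₂ r₂ : ℝ} (h : Vx 3 R I ρ₁ β₁ p₁ r₁ ρ₂ β₂ p₂ r₂)
    (h1 : 59 / 100 ≤ ρ₁) (h2 : β₁ ≤ 3 / 5) (h3 : 1 / 2 ≤ ρ₂) : (63 / 100) ^ 2 ≤ k2 R I := by
  by_contra hc
  rw [not_le] at hc
  norm_num at hc
  have h0 := h.R0
  have h0' := h.R1
  have hI := h.I0
  have hpi := Real.pi_gt_three
  have hR := h.hR
  have hIe := h.hI
  have hp₁ := h.sl₁.p0
  have hp₂ := h.sl₂.p0
  have hr₁ := h.sl₁.r0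
  have hr₂ := h.sl₂.r0
  have hc0 := GeoX_cos_pos h0 h0'
  have hs0 := GeoX_sin_pos h0 h0'
  have hk0 := k2_pos (I := I) h0 h0'
  have hsh : 0 < sinh I := sinh_pos_iff.2 hI
  have hA0 := Zr.cos_ge h0.le (h.R_lt le_rfl (by linarith)).le
  obtain ⟨K, hK⟩ : ∃ K, K = k2 R I := ⟨_, rfl⟩
  obtain ⟨t, ht⟩ : ∃ t, t = sinh I ^ 2 := ⟨_, rfl⟩
  obtain ⟨A, hA⟩ : ∃ A, A = cos R ^ 2 := ⟨_, rfl⟩
  have a2 := cosh_sq I
  have a1 := sin_sq_add_cos_sq R
  have hKA : A = K - t := by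
    rw [hK, GeoX_k2, a2, hA, ht]; ring
  have hS2 : s2 R I = 1 + t - A := by
    rw [GeoX_s2, a2, hA, ht]; ring
  have ht0 : 0 ≤ t := by rw [ht]; positivity
  have hA1 : 2809 / 10000 ≤ A := by
    rw [hA]
    have := pow_le_pow_left₀ (by norm_num : (0 : ℝ) ≤ 53 / 100) hA0 2
    norm_num at this
    linarith
  rw [← hK] at hc
  -- the sum of the `r`'s is at most `π / 2`
  have hR6 : π / 6 ≤ R := by
    by_contra h6
    rw [not_le] at h6
    have h7 : cos (π / 6) < cos R := cos_lt_cos_of_nonneg_of_le_pi h0.le (by linarith) h6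
    rw [cos_pi_div_six] at h7
    have h8 : (√3 / 2) ^ 2 < cos R ^ 2 := pow_lt_pow_left₀ h7 (by positivity) two_ne_zero
    have h9 : √3 ^ 2 = 3 := sq_sqrt (by norm_num)
    rw [div_pow, h9, ← hA] at h8
    linarith
  have hrr : r₁ + r₂ = π - 3 * R := by linarith
  have hrr2 : r₁ + r₂ ≤ π / 2 := by linarith
  have hsin3 : sin (r₁ + r₂) = sin R * (4 * A - 1) := by
    rw [hrr, sin_pi_sub, sin_three_mul, hA]
    linear_combination (-4 * sin R) * a1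
  have hsinh3 : sinh (p₁ + p₂) = sinh I * (3 + 4 * t) := by
    rw [← hIe, sinh_three_mul, ht]
    ring
  rcases le_total t (9 / 100) with ht9 | ht9
  · -- (N)
    have n1 := h.sl₁.norm h0 h0'
    have n2 := h.sl₂.norm h0 h0'
    rw [← hK, hS2] at n1 n2
    have g1 : sinh p₁ ^ 2 + sinh p₂ ^ 2 ≤ sinh (p₁ + p₂) ^ 2 := by
      rw [sinh_add]
      have b1 := cosh_sq p₁
      have b2 := cosh_sq p₂
      have b3 : 0 ≤ sinh p₁ := sinh_nonneg_iff.2 hp₁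
      have b4 : 0 ≤ sinh p₂ := sinh_nonneg_iff.2 hp₂
      have b5 := (cosh_pos p₁).le
      have b6 := (cosh_pos p₂).le
      have b7 : 0 ≤ sinh p₁ * cosh p₂ * (cosh p₁ * sinh p₂) := by positivity
      have b8 : 0 ≤ sinh p₁ ^ 2 * sinh p₂ ^ 2 := by positivity
      have e : (sinh p₁ * cosh p₂ + cosh p₁ * sinh p₂) ^ 2 = sinh p₁ ^ 2 + sinh p₂ ^ 2 +
          2 * (sinh p₁ ^ 2 * sinh p₂ ^ 2) + 2 * (sinh p₁ * cosh p₂ * (cosh p₁ * sinh p₂)) := by
        linear_combination (sinh p₁ ^ 2) * b2 + (sinh p₂ ^ 2) * b1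
      rw [e]
      linarith
    have g2 : sin r₁ ^ 2 + sin r₂ ^ 2 ≤ sin (r₁ + r₂) ^ 2 := by
      have b1 : 0 ≤ sin r₁ := sin_nonneg_of_nonneg_of_le_pi hr₁ (by linarith)
      have b2 : 0 ≤ sin r₂ := sin_nonneg_of_nonneg_of_le_pi hr₂ (by linarith)
      have b3 : 0 ≤ cos (r₁ + r₂) := cos_nonneg_of_mem_Icc ⟨by linarith, hrr2⟩
      have b4 : 0 ≤ sin r₁ * sin r₂ * cos (r₁ + r₂) := by positivity
      have c1 := sin_sq_add_cos_sq r₁
      have c2 := sin_sq_add_cos_sq r₂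
      have e : sin (r₁ + r₂) ^ 2 = sin r₁ ^ 2 + sin r₂ ^ 2 +
          2 * (sin r₁ * sin r₂ * cos (r₁ + r₂)) := by
        rw [sin_add, cos_add]
        linear_combination (-(sin r₁ ^ 2)) * (1 - c2) + (sin r₂ ^ 2) * c1 +
          (sin r₁ ^ 2) * (1 : ℝ) - (sin r₁ ^ 2)
      rw [e]
      linarith
    have g3 : sinh (p₁ + p₂) ^ 2 = t * (3 + 4 * t) ^ 2 := by rw [hsinh3, mul_pow, ← ht]
    have g4 : sin (r₁ + r₂) ^ 2 = (1 - A) * (4 * A - 1) ^ 2 := by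
      rw [hsin3, mul_pow, show sin R ^ 2 = 1 - A by rw [hA]; linarith]
    have hu : 5981 / 10000 ≤ ρ₁ ^ 2 + ρ₂ ^ 2 := by nlinarith
    refine Rng12_N (K := K) (t := t) (A := A) (u := ρ₁ ^ 2 + ρ₂ ^ 2) hc ht0 ht9 hKA hA1 hu ?_
    have g5 : (sinh p₁ ^ 2 + sin r₁ ^ 2) + (sinh p₂ ^ 2 + sin r₂ ^ 2) ≤
        t * (3 + 4 * t) ^ 2 + (1 - A) * (4 * A - 1) ^ 2 := by
      rw [← g3, ← g4]
      linarith
    have g6 := mul_le_mul_of_nonneg_left g5 hk0.le
    rw [← hK] at g6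
    linarith
  · -- (I)
    have hβ := Rng12_cos h.sl₁.β0 h2
    have hβ0 := h.sl₁.β0
    have al0 := al_pos h0 h0' hI
    have al1 := al_lt R I
    have e2 := h.sl₁.e2
    have tsa := tt_sin_al (I := I) h0 h0'
    have ttp := tt_pos (I := I) h0 h0'
    rw [← hK] at tsa hk0
    have hw : 4779 / 10000 ≤ ρ₁ * cos β₁ := by nlinarith
    have c0 : 0 < cosh I := cosh_pos I
    have i1 : ρ₁ * cos β₁ * (tt R I * sin (al R I)) ≤ cosh p₁ * sin r₁ := by
      rw [e2, sin_add]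
      have b1 : 0 ≤ cos (al R I) := cos_nonneg_of_mem_Icc ⟨by linarith, by linarith⟩
      have b2 : 0 ≤ sin β₁ := sin_nonneg_of_nonneg_of_le_pi hβ0 (by linarith)
      have b3 : 0 ≤ ρ₁ * tt R I * (cos (al R I) * sin β₁) := by positivity
      linarith
    have i2 : cosh p₁ * sin r₁ ≤ cosh (3 * I) * (sin R * (4 * A - 1)) := by
      have b1 : 0 ≤ sin r₁ := sin_nonneg_of_nonneg_of_le_pi hr₁ (by linarith)
      have b2 : cosh p₁ ≤ cosh (3 * I) := by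
        apply cosh_le_cosh.2
        rw [abs_of_nonneg hp₁, abs_of_pos (by linarith)]
        linarith
      have b3 : sin r₁ ≤ sin R * (4 * A - 1) := by
        rw [← hsin3]
        exact sin_le_sin_of_le_of_le_pi_div_two (by linarith) hrr2 (by linarith)
      exact mul_le_mul b2 b3 b1 (cosh_pos _).le
    have i3 : cosh (3 * I) = cosh I * (1 + 4 * t) := by
      rw [cosh_three_mul, ht]
      linear_combination (4 * cosh I) * a2
    have i4 : ρ₁ * cos β₁ * √t ≤ K * (1 + 4 * t) * (sin R * (4 * A - 1)) := by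
      have b1 : √t = sinh I := by rw [ht, Real.sqrt_sq hsh.le]
      rw [b1]
      have b2 := mul_le_mul_of_nonneg_right (i1.trans i2) hk0.le
      have b3 : cosh I * (ρ₁ * cos β₁ * sinh I) ≤
          cosh I * (K * (1 + 4 * t) * (sin R * (4 * A - 1))) := by
        calc cosh I * (ρ₁ * cos β₁ * sinh I) = ρ₁ * cos β₁ * (sinh I * cosh I) := by ring
          _ = ρ₁ * cos β₁ * (tt R I * sin (al R I)) * K := by rw [← tsa]; ring
          _ ≤ cosh (3 * I) * (sin R * (4 * A - 1)) * K := b2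
          _ = _ := by rw [i3]; ring
      exact le_of_mul_le_mul_left b3 c0
    exact Rng12_I hc ht9 hKA hA1 hw hs0.le (sin_le_one R) i4

end Pool.Agent.S3.E
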