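import Pool.Agent.S3.E.GeoC
import Pool.Agent.S3.E.OGeo
import Pool.Agent.S3.E.SlA

/-!
# Stage 3, block E: the angle of an end vertex with three twists is at least `7 / 25`

Write `z = R + i I`, `κ = cos z = k e^{-i φ}` (`cos_polar`; `k² = k2 R I`, `φ = ph R I`), and
`b = ρ e^{i β}`.

1. `Slot` with `p = 3 I`, `r = π - 3 R` (the second slot is `0`: `Slot.zero`) says
`sinh (p + i r) = b tan z` (`tan_polar`: `tan z = tt e^{i al}`), and
`sinh (3 I + i (π - 3 R)) = i sin 3z`, `sin 3z = sin z (4 cos² z - 1)`.  So `i κ (4 κ² - 1) = b`,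
that is `4 κ² - 1 = - i b / κ`:
  `4 k² cos 2φ - 1 = (ρ / k) sin (β + φ)`,  `4 k² sin 2φ = (ρ / k) cos (β + φ)`.
Hence (E1) `16 k⁶ - 8 k⁴ cos 2φ + k² = ρ²` and
(E2) `cos 2φ - sin 2φ tan (β + φ) = 1 / (4 k²)` (`cos (β + φ) > 0`).

2. Suppose `θ = th R I < 7 / 25`.  `cos 2θ = (1 - s2) / k2` (`cos_two_th`), `s2² = |1 - κ²|² =
1 - 2 k² cos 2φ + k⁴`, so with `c = cos (14/25) ≥ .8472`:
(T) `cos 2φ > c + (1 - c²) k² / 2 ≥ .8472 + .141 k²`.

3. (E1), (T): `ρ² < 16 k⁶ - 8 k⁴ (c + (1 - c²) k² / 2) + k²`, increasing in `k²`.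
* `β ≤ 1/3`, `ρ ≥ .53`: `k² ≥ .4045`; (T): `cos 2φ ≥ .9042`, `sin 2φ ≤ .4271`, `φ ≤ .2207`;
  (E2): left `≥ .9042 - .4271 tan (.5541) ≥ .64`, right `≤ 1 / 1.618 ≤ .6181`.
* `ρ² ≥ .42`, `β ≤ .47`: `k² ≥ .446`; `cos 2φ ≥ .9100`, `sin 2φ ≤ .4147`, `φ ≤ .2138`;
  (E2): left `≥ .9100 - .4147 tan (.6838) ≥ .571`, right `≤ 1 / 1.784 ≤ .5606`.
-/

set_option autoImplicit false

namespace Pool.Agent.S3.E

open Real

/-- `sinh (p + i r)` in real terms. -/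
private theorem Rng6_sinh (p r : ℝ) :
    Complex.sinh ((p : ℂ) + (r : ℂ) * Complex.I) =
      ((sinh p * cos r : ℝ) : ℂ) + ((cosh p * sin r : ℝ) : ℂ) * Complex.I := by
  rw [Complex.sinh_add, Complex.cosh_mul_I, Complex.sinh_mul_I]
  push_cast
  ring

/-- `i κ (4 κ² - 1) = b`. -/
private theorem Rng6_eq {R I ρ β p r β₂ p₂ r₂ : ℝ} (h : Vx 3 R I ρ β p r 0 β₂ p₂ r₂) :
    Complex.I * (Complex.cos ⟨R, I⟩ * (4 * Complex.cos ⟨R, I⟩ ^ 2 - 1)) =
      (ρ : ℂ) * Complex.exp ((β : ℂ) * Complex.I) := by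
  obtain ⟨hp₂, hr₂⟩ := h.sl₂.zero
  have hR := h.hR
  have hI := h.hI
  rw [hr₂] at hR
  rw [hp₂] at hI
  set z : ℂ := ⟨R, I⟩ with hz
  have hzr : z.re = R := rfl
  have hzi : z.im = I := rfl
  have h0 : 0 < z.re := h.R0
  have h1 : z.re < π / 2 := h.R1
  have hsin : Complex.sin z ≠ 0 := by
    intro h2
    have h3 := norm_sin_sq z
    have h4 := s2_pos (I := z.im) h0 h1
    rw [h2, norm_zero] at h3
    linarith
  have hcos : Complex.cos z ≠ 0 := by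
    intro h2
    have h3 := norm_cos_sq z
    have h4 := k2_pos (I := z.im) h0 h1
    rw [h2, norm_zero] at h3
    linarith
  have ht := tan_polar h0 h1
  rw [hzr, hzi] at ht
  -- the slot equation
  have e : Complex.sinh ((p : ℂ) + (r : ℂ) * Complex.I) =
      (ρ : ℂ) * Complex.exp ((β : ℂ) * Complex.I) * Complex.tan z := by
    rw [Rng6_sinh, h.sl₁.e1, h.sl₁.e2, ht]
    have e1 : (ρ : ℂ) * Complex.exp ((β : ℂ) * Complex.I) *
        ((tt R I : ℂ) * Complex.exp (((al R I : ℝ) : ℂ) * Complex.I)) =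
        (ρ : ℂ) * (tt R I : ℂ) * Complex.exp (((al R I + β : ℝ) : ℂ) * Complex.I) := by
      push_cast
      rw [add_mul, Complex.exp_add]
      ring
    rw [e1, Complex.exp_mul_I, ← Complex.ofReal_cos, ← Complex.ofReal_sin]
    push_cast
    ring
  have e2 : (p : ℂ) + (r : ℂ) * Complex.I = ((π : ℂ) - 3 * z) * Complex.I := by
    have hz' : z = (R : ℂ) + (I : ℂ) * Complex.I := by
      rw [← hzr, ← hzi, Complex.re_add_im]
    have hp : p = 3 * I := by linarith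
    have hr : r = π - 3 * R := by linarith
    rw [hz', hp, hr]
    push_cast
    linear_combination (3 * (I : ℂ)) * Complex.I_sq
  rw [e2, Complex.sinh_mul_I, Complex.sin_pi_sub, Complex.sin_three_mul,
    Complex.tan_eq_sin_div_cos, mul_div_assoc', eq_div_iff hcos] at e
  have e3 := Complex.sin_sq_add_cos_sq z
  apply mul_right_cancel₀ hsin
  linear_combination e + (4 * Complex.I * Complex.cos z * Complex.sin z) * e3

/-- the real form: `X = cos R cosh I`, `Y = sin R sinh I`. -/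
private theorem Rng6_real {R I ρ β p r β₂ p₂ r₂ : ℝ} (h : Vx 3 R I ρ β p r 0 β₂ p₂ r₂) {X Y : ℝ}
    (hX : X = cos R * cosh I) (hY : Y = sin R * sinh I) :
    ρ * cos β = Y * (12 * X ^ 2 - 4 * Y ^ 2 - 1) ∧ ρ * sin β = X * (4 * X ^ 2 - 12 * Y ^ 2 - 1) := by
  have e := Rng6_eq h
  have hc := GeoC_cos ⟨R, I⟩
  have hc' : Complex.cos ⟨R, I⟩ = (X : ℂ) - (Y : ℂ) * Complex.I := by
    rw [hc, hX, hY]
  have e1 : Complex.I * (Complex.cos ⟨R, I⟩ * (4 * Complex.cos ⟨R, I⟩ ^ 2 - 1)) =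
      ((Y * (12 * X ^ 2 - 4 * Y ^ 2 - 1) : ℝ) : ℂ) +
        ((X * (4 * X ^ 2 - 12 * Y ^ 2 - 1) : ℝ) : ℂ) * Complex.I := by
    rw [hc']
    push_cast
    linear_combination (-12 * (X : ℂ) ^ 2 * Y + 12 * X * (Y : ℂ) ^ 2 * Complex.I -
      4 * (Y : ℂ) ^ 3 * (Complex.I ^ 2 - 1) + Y) * Complex.I_sq
  have e2 : (ρ : ℂ) * Complex.exp ((β : ℂ) * Complex.I) =
      ((ρ * cos β : ℝ) : ℂ) + ((ρ * sin β : ℝ) : ℂ) * Complex.I := by
    rw [Complex.exp_mul_I, ← Complex.ofReal_cos, ← Complex.ofReal_sin]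
    push_cast
    ring
  rw [e1, e2] at e
  have r1 := congrArg Complex.re e
  have r2 := congrArg Complex.im e
  simp only [Complex.add_re, Complex.add_im, Complex.ofReal_re, Complex.ofReal_im,
    Complex.re_ofReal_mul, Complex.im_ofReal_mul, Complex.I_re, Complex.I_im, mul_zero, mul_one,
    add_zero, zero_add] at r1 r2
  exact ⟨r1.symm, r2.symm⟩

private theorem Rng6_cos : (169 : ℝ) / 200 ≤ cos (14 / 25) := by
  have h1 : (96047 : ℝ) / 100000 ≤ cos (7 / 25) := by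
    have h2 := abs_le.1 (Real.cos_bound (x := 7 / 25) (by rw [abs_of_pos (by norm_num)]; norm_num))
    have h3 := h2.1
    rw [abs_of_pos (by norm_num : (0 : ℝ) < 7 / 25)] at h3
    norm_num at h3 ⊢
    linarith
  have h4 : cos (14 / 25 : ℝ) = 2 * cos (7 / 25) ^ 2 - 1 := by
    rw [← cos_two_mul]
    norm_num
  rw [h4]
  nlinarith

private theorem Rng6_tan1 {β : ℝ} (h0 : 0 ≤ β) (h : β ≤ 1 / 3) :
    0 < cos β ∧ sin β ≤ 3474 / 10000 * cos β := by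
  have hpi := Real.pi_gt_three
  have a : |(1 / 3 : ℝ)| ≤ 1 := by rw [abs_of_pos (by norm_num)]; norm_num
  have hs := (abs_le.1 (Real.sin_bound a)).2
  have hc := (abs_le.1 (Real.cos_bound a)).1
  rw [abs_of_pos (by norm_num : (0 : ℝ) < 1 / 3)] at hs hc
  have h1 : sin β ≤ sin (1 / 3) := sin_le_sin_of_le_of_le_pi_div_two (by linarith) (by linarith) h
  have h2 : cos (1 / 3) ≤ cos β := cos_le_cos_of_nonneg_of_le_pi h0 (by linarith) h
  norm_num at hs hc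
  constructor <;> linarith

private theorem Rng6_tan2 {β : ℝ} (h0 : 0 ≤ β) (h : β ≤ 47 / 100) :
    0 < cos β ∧ sin β ≤ 5133 / 10000 * cos β := by
  have hpi := Real.pi_gt_three
  have a : |(47 / 100 : ℝ)| ≤ 1 := by rw [abs_of_pos (by norm_num)]; norm_num
  have hs := (abs_le.1 (Real.sin_bound a)).2
  have hc := (abs_le.1 (Real.cos_bound a)).1
  rw [abs_of_pos (by norm_num : (0 : ℝ) < 47 / 100)] at hs hc
  have h1 : sin β ≤ sin (47 / 100) := sin_le_sin_of_le_of_le_pi_div_two (by linarith) (by linarith) h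
  have h2 : cos (47 / 100) ≤ cos β := cos_le_cos_of_nonneg_of_le_pi h0 (by linarith) h
  norm_num at hs hc
  constructor <;> linarith

/-- the last step: the two real equations contradict a bound `Y ≤ t X`, `Y² ≤ w X²`,
`X² + Y² ≥ K₀`. -/
private theorem Rng6_last {X Y ρ S C m t w K₀ : ℝ} (hX : 0 < X) (hY : 0 < Y) (hρ : 0 < ρ)
    (hC : 0 < C) (hS : S ≤ m * C) (h1 : ρ * C = Y * (12 * X ^ 2 - 4 * Y ^ 2 - 1))
    (h2 : ρ * S = X * (4 * X ^ 2 - 12 * Y ^ 2 - 1)) (hm : 0 ≤ m) (ht : 0 ≤ t) (htw : w ≤ t ^ 2)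
    (hw : Y ^ 2 ≤ w * X ^ 2) (hK : K₀ ≤ X ^ 2 + Y ^ 2)
    (hlin : ∀ A B : ℝ, 0 ≤ A → 0 ≤ B → B ≤ w * A → K₀ ≤ A + B →
      m * t * (12 * A - 4 * B - 1) < 4 * A - 12 * B - 1) : False := by
  have hYX : Y ≤ t * X := by
    by_contra hc
    rw [not_le] at hc
    have : (t * X) ^ 2 < Y ^ 2 := pow_lt_pow_left₀ hc (by positivity) two_ne_zero
    nlinarith [sq_nonneg X]
  have hg : 0 < 12 * X ^ 2 - 4 * Y ^ 2 - 1 := by
    have : 0 < Y * (12 * X ^ 2 - 4 * Y ^ 2 - 1) := by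
      rw [← h1]
      positivity
    exact (pos_iff_pos_of_mul_pos this).1 hY
  have h3 : X * (4 * X ^ 2 - 12 * Y ^ 2 - 1) ≤ m * (Y * (12 * X ^ 2 - 4 * Y ^ 2 - 1)) := by
    rw [← h1, ← h2]
    calc ρ * S ≤ ρ * (m * C) := mul_le_mul_of_nonneg_left hS hρ.le
      _ = m * (ρ * C) := by ring
  have h4 : m * (Y * (12 * X ^ 2 - 4 * Y ^ 2 - 1)) ≤ m * (t * X * (12 * X ^ 2 - 4 * Y ^ 2 - 1)) :=
    mul_le_mul_of_nonneg_left (mul_le_mul_of_nonneg_right hYX hg.le) hm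
  have h5 := hlin (X ^ 2) (Y ^ 2) (sq_nonneg _) (sq_nonneg _) hw hK
  have h6 := mul_lt_mul_of_pos_left h5 hX
  have h7 : m * (t * X * (12 * X ^ 2 - 4 * Y ^ 2 - 1)) =
      X * (m * t * (12 * X ^ 2 - 4 * Y ^ 2 - 1)) := by ring
  linarith

/-- `F K < F K₀` for the cubic of step 3. -/
private theorem Rng6_cubic {K K₀ : ℝ} (h0 : 0 < K) (h : K < K₀) (h1 : 2 / 5 ≤ K₀) :
    K * (16 * K ^ 2 - 4 * (2 * (169 / 200) * K + (1 - (169 / 200) ^ 2) * K ^ 2) + 1) ≤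
      K₀ * (16 * K₀ ^ 2 - 4 * (2 * (169 / 200) * K₀ + (1 - (169 / 200) ^ 2) * K₀ ^ 2) + 1) := by
  have hQ : 0 ≤ (148561 / 10000) * (K₀ ^ 2 + K₀ * K + K ^ 2) - 676 / 100 * (K₀ + K) + 1 := by
    have h3 : 0 ≤ (K₀ - 2 / 5) * K := mul_nonneg (by linarith) h0.le
    have h4 : 0 ≤ (K₀ - 2 / 5) ^ 2 := sq_nonneg _
    nlinarith [sq_nonneg K]
  have := mul_nonneg (sub_pos.2 h).le hQ
  have e : K₀ * (16 * K₀ ^ 2 - 4 * (2 * (169 / 200) * K₀ + (1 - (169 / 200) ^ 2) * K₀ ^ 2) + 1) -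
      K * (16 * K ^ 2 - 4 * (2 * (169 / 200) * K + (1 - (169 / 200) ^ 2) * K ^ 2) + 1) =
      (K₀ - K) * ((148561 / 10000) * (K₀ ^ 2 + K₀ * K + K ^ 2) - 676 / 100 * (K₀ + K) + 1) := by
    ring
  linarith

/-- the bound of `cos 2φ` from the bound of `k²`. -/
private theorem Rng6_w {A B K₀ : ℝ} (h0 : 0 < A + B) (h : K₀ ≤ A + B)
    (hT : 2 * (169 / 200) * (A + B) + (1 - (169 / 200) ^ 2) * (A + B) ^ 2 < 2 * (A - B)) :
    (2 * (169 / 200) + (1 - (169 / 200) ^ 2) * K₀) * (A + B) < 2 * (A - B) := by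
  have h1 : 0 ≤ (A + B) * (A + B - K₀) := mul_nonneg h0.le (sub_nonneg.2 h)
  have e : 2 * (169 / 200) * (A + B) + (1 - (169 / 200) ^ 2) * (A + B) ^ 2 -
      (2 * (169 / 200) + (1 - (169 / 200) ^ 2) * K₀) * (A + B) =
      (1 - (169 / 200) ^ 2) * ((A + B) * (A + B - K₀)) := by ring
  have h2 : 0 ≤ (1 - (169 / 200) ^ 2) * ((A + B) * (A + B - K₀)) :=
    mul_nonneg (by norm_num) h1
  linarith

theorem Vx.end3_low {R I ρ β p r β₂ p₂ r₂ : ℝ} (h : Vx 3 R I ρ β p r 0 β₂ p₂ r₂)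
    (h1 : 53 / 100 ≤ ρ) (h2 : β ≤ 47 / 100) (h3 : β ≤ 1 / 3 ∨ 0.42 ≤ ρ ^ 2) :
    7 / 25 ≤ th R I := by
  by_contra hc
  rw [not_le] at hc
  have h0 := h.R0
  have h0' := h.R1
  have hI := h.I0
  have hpi := Real.pi_gt_three
  obtain ⟨X, hX⟩ : ∃ X, X = cos R * cosh I := ⟨_, rfl⟩
  obtain ⟨Y, hY⟩ : ∃ Y, Y = sin R * sinh I := ⟨_, rfl⟩
  have hX0 : 0 < X := by
    rw [hX]
    exact mul_pos (GeoX_cos_pos h0 h0') (cosh_pos _)
  have hY0 : 0 < Y := by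
    rw [hY]
    exact mul_pos (GeoX_sin_pos h0 h0') (sinh_pos_iff.2 hI)
  obtain ⟨r1, r2⟩ := Rng6_real h hX hY
  have hk : k2 R I = X ^ 2 + Y ^ 2 := by
    rw [GeoX_k2, hX, hY]
    have a1 := sin_sq R
    have a2 := cosh_sq I
    have a3 : sinh I ^ 2 = cosh I ^ 2 - 1 := by linarith
    rw [mul_pow, mul_pow, a1, a3]
    ring
  have hs : s2 R I ^ 2 = 1 - 2 * (X ^ 2 - Y ^ 2) + (X ^ 2 + Y ^ 2) ^ 2 := by
    rw [GeoX_s2, hX, hY]
    have a1 := sin_sq R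
    have a2 := cosh_sq I
    have a3 : sinh I ^ 2 = cosh I ^ 2 - 1 := by linarith
    rw [mul_pow, mul_pow, a1, a3]
    ring
  have hs0 := s2_pos (I := I) h0 h0'
  have hk0 := k2_pos (I := I) h0 h0'
  -- `cos 2θ > .845`
  have hcos : 169 / 200 < (1 - s2 R I) / k2 R I := by
    rw [← cos_two_th h0 h0' hI]
    have ht0 := th_pos h0 h0' hI
    have h4 : cos (14 / 25) < cos (2 * th R I) :=
      cos_lt_cos_of_nonneg_of_le_pi (by linarith) (by linarith) (by linarith)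
    linarith [Rng6_cos]
  rw [lt_div_iff₀ hk0] at hcos
  rw [hk] at hcos hk0
  set A := X ^ 2 with hA
  set B := Y ^ 2 with hB
  have hA0 : 0 < A := by positivity
  have hB0 : 0 < B := by positivity
  have hT : 2 * (169 / 200) * (A + B) + (1 - (169 / 200) ^ 2) * (A + B) ^ 2 < 2 * (A - B) := by
    have h5 : s2 R I ^ 2 < (1 - 169 / 200 * (A + B)) ^ 2 :=
      pow_lt_pow_left₀ (by linarith) hs0.le two_ne_zero
    rw [hs] at h5
    nlinarith
  have hρ : ρ ^ 2 = (A + B) * (16 * (A + B) ^ 2 - 8 * (A - B) + 1) := by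
    have h6 : ρ ^ 2 = (ρ * cos β) ^ 2 + (ρ * sin β) ^ 2 := by
      have := sin_sq_add_cos_sq β
      linear_combination -(ρ ^ 2) * this
    rw [h6, r1, r2, mul_pow, mul_pow, ← hA, ← hB]
    ring
  obtain ⟨K, hK⟩ : ∃ K, K = A + B := ⟨_, rfl⟩
  rw [← hK] at hT hρ hcos hk0
  have hF : ρ ^ 2 < K * (16 * K ^ 2 - 4 * (2 * (169 / 200) * K + (1 - (169 / 200) ^ 2) * K ^ 2) + 1) := by
    rw [hρ]
    apply mul_lt_mul_of_pos_left _ hk0
    linarith
  have hρ0 : 0 < ρ := by linarith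
  have hβ0 := h.sl₁.β0
  have hAB : A - B = K - 2 * B := by rw [hK]; ring
  by_cases hcase : 0.42 ≤ ρ ^ 2
  · have hK1 : 446 / 1000 ≤ K := by
      by_contra hn
      rw [not_le] at hn
      have h9 := Rng6_cubic hk0 hn (by norm_num)
      have h10 := hcase.trans (hF.le.trans h9)
      norm_num at h10
    obtain ⟨c1, c2⟩ := Rng6_tan2 hβ0 h2
    refine Rng6_last (t := 2188 / 10000) (w := 47835 / 1000000) (K₀ := 446 / 1000) hX0 hY0 hρ0 c1 c2
      r1 r2 (by norm_num) (by norm_num) (by norm_num) ?_ (by linarith) ?_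
    · rw [← hA, ← hB]
      rw [hK] at hT hK1 hk0
      have h8 := Rng6_w hk0 hK1 hT
      norm_num at h8
      linarith
    · intro a b ha hb hab hK'
      norm_num
      linarith
  · have hβ1 : β ≤ 1 / 3 := h3.resolve_right hcase
    have hρ1 : (53 / 100) ^ 2 ≤ ρ ^ 2 := pow_le_pow_left₀ (by norm_num) h1 2
    have hK1 : 404 / 1000 ≤ K := by
      by_contra hn
      rw [not_le] at hn
      have h9 := Rng6_cubic hk0 hn (by norm_num)
      have h10 := hρ1.trans (hF.le.trans h9)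
      norm_num at h10
    obtain ⟨c1, c2⟩ := Rng6_tan1 hβ0 hβ1
    refine Rng6_last (t := 2262 / 10000) (w := 5114 / 100000) (K₀ := 404 / 1000) hX0 hY0 hρ0 c1 c2
      r1 r2 (by norm_num) (by norm_num) (by norm_num) ?_ (by linarith) ?_
    · rw [← hA, ← hB]
      rw [hK] at hT hK1 hk0
      have h8 := Rng6_w hk0 hK1 hT
      norm_num at h8
      linarith
    · intro a b ha hb hab hK'
      norm_num
      linarith

end Pool.Agent.S3.E
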