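import Mathlib

/-!
# Stage 3, block E: the angle of an inner vertex with at least 3 half twists (numerical part)

`R = arctan (sinh x / cos θ)` and `I = artanh (sin θ / cosh x)` both increase with `θ ∈ [0, π/4]`
(for fixed `x`), so it is enough to treat `θ₀ = 27/50`, with `cos θ₀ ≤ c = .8587`, `sin θ₀ ≥ s = .5093`.
`hA` gives `x ≥ 13/20`.  For `x ≥ 6/5` the first term alone is `≥ π/3`.  On `[13/20, 6/5]` the function
`h(x) = x arctan (sinh x / c) + θ₀ artanh (s / cosh x) - π x / 3` is increasing (`h' ≥ .681 + .37 - π/3`)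
and `h(13/20) > 0`.
-/

set_option autoImplicit false

namespace Pool.Agent.S3.E

open Real

/-! ### numerical values -/

private theorem exp065_lo : (1.9155 : ℝ) ≤ exp (13 / 20) := by
  have h := Real.sum_le_exp_of_nonneg (show (0 : ℝ) ≤ 13 / 20 by norm_num) 8
  refine le_trans ?_ h
  simp only [Finset.sum_range_succ, Finset.sum_range_zero, Nat.factorial]
  norm_num

private theorem exp065_hi : exp (13 / 20) ≤ (1.9156 : ℝ) := by
  have h := Real.exp_bound' (show (0 : ℝ) ≤ 13 / 20 by norm_num) (by norm_num) (show 0 < 8 by norm_num)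
  refine h.trans ?_
  simp only [Finset.sum_range_succ, Finset.sum_range_zero, Nat.factorial]
  norm_num

private theorem exp13_15 : exp (13 / 15) ≤ (2.3795 : ℝ) := by
  have h := Real.exp_bound' (show (0 : ℝ) ≤ 13 / 15 by norm_num) (by norm_num) (show 0 < 9 by norm_num)
  refine h.trans ?_
  simp only [Finset.sum_range_succ, Finset.sum_range_zero, Nat.factorial]
  norm_num

private theorem exp889 : exp (889 / 1000) ≤ (2.4328 : ℝ) := by
  have h := Real.exp_bound' (show (0 : ℝ) ≤ 889 / 1000 by norm_num) (by norm_num) (show 0 < 9 by norm_num)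
  refine h.trans ?_
  simp only [Finset.sum_range_succ, Finset.sum_range_zero, Nat.factorial]
  norm_num

private theorem exp12_lo : (3.3 : ℝ) ≤ exp (6 / 5) := by
  have h := Real.sum_le_exp_of_nonneg (show (0 : ℝ) ≤ 6 / 5 by norm_num) 8
  refine le_trans ?_ h
  simp only [Finset.sum_range_succ, Finset.sum_range_zero, Nat.factorial]
  norm_num

private theorem exp12_hi : exp (6 / 5) ≤ (3.33 : ℝ) := by
  have h := Real.exp_bound' (show (0 : ℝ) ≤ 3 / 5 by norm_num) (by norm_num) (show 0 < 8 by norm_num)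
  have h2 : exp (3 / 5) ≤ (1.8222 : ℝ) := by
    refine h.trans ?_
    simp only [Finset.sum_range_succ, Finset.sum_range_zero, Nat.factorial]
    norm_num
  have h3 : exp (6 / 5) = exp (3 / 5) * exp (3 / 5) := by
    rw [← exp_add]
    norm_num
  have h4 := exp_pos (3 / 5)
  rw [h3]
  nlinarith

private theorem cosh_hi : cosh (13 / 20) ≤ (1.2189 : ℝ) := by
  rw [cosh_eq, exp_neg]
  have h1 := exp065_lo
  have h2 := exp065_hi
  have h3 : (exp (13 / 20))⁻¹ ≤ (1.9155 : ℝ)⁻¹ := inv_anti₀ (by norm_num) h1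
  norm_num at h3 ⊢
  linarith

private theorem sinh_lo : (0.6967 : ℝ) ≤ sinh (13 / 20) := by
  rw [sinh_eq, exp_neg]
  have h1 := exp065_lo
  have h3 : (exp (13 / 20))⁻¹ ≤ (1.9155 : ℝ)⁻¹ := inv_anti₀ (by norm_num) h1
  norm_num at h3 ⊢
  linarith

private theorem sinh12 : (1.49 : ℝ) ≤ sinh (6 / 5) := by
  rw [sinh_eq, exp_neg]
  have h1 := exp12_lo
  have h3 : (exp (6 / 5))⁻¹ ≤ (3.3 : ℝ)⁻¹ := inv_anti₀ (by norm_num) h1
  norm_num at h3 ⊢
  linarith

private theorem cos054 : cos (27 / 50) ≤ (0.8587 : ℝ) := by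
  have h := Real.cos_bound (show |(27 / 50 : ℝ)| ≤ 1 by rw [abs_of_pos (by norm_num)]; norm_num)
  rw [abs_le] at h
  have h2 := h.2
  rw [abs_of_pos (by norm_num : (0 : ℝ) < 27 / 50)] at h2
  norm_num at h2 ⊢
  linarith

private theorem sin054 : (0.5093 : ℝ) ≤ sin (27 / 50) := by
  have h := Real.sin_bound (show |(27 / 50 : ℝ)| ≤ 1 by rw [abs_of_pos (by norm_num)]; norm_num)
  rw [abs_le] at h
  have h2 := h.1
  rw [abs_of_pos (by norm_num : (0 : ℝ) < 27 / 50)] at h2
  norm_num at h2 ⊢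
  linarith

/-- `arctan y ≥ π/4 - (1-y)/(1+y)` at `y = .811` -/
private theorem arctan_lo : (0.681 : ℝ) ≤ arctan 0.811 := by
  have h1 : arctan 0.811 + arctan (0.189 / 1.811) = π / 4 := by
    rw [arctan_add (by norm_num)]
    have : ((0.811 : ℝ) + 0.189 / 1.811) / (1 - 0.811 * (0.189 / 1.811)) = 1 := by norm_num
    rw [this, arctan_one]
  have h2 : arctan (0.189 / 1.811) < 0.189 / 1.811 := by
    have h3 : 0 < arctan (0.189 / 1.811) := by
      rw [← arctan_zero]
      exact arctan_strictMono (by norm_num)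
    have h4 := Real.lt_tan h3 (arctan_lt_pi_div_two _)
    rwa [tan_arctan] at h4
  have h3 := Real.pi_gt_d4
  norm_num at h2 ⊢
  linarith

/-! ### the key inequality -/

private theorem pade {d : ℝ} (hd : 0 ≤ d) : 2 * (exp d - 1) ≤ d * (exp d + 1) := by
  have hder : ∀ t : ℝ, HasDerivAt (fun t : ℝ => t * (exp t + 1) - 2 * (exp t - 1))
      (1 * (exp t + 1) + t * exp t - 2 * exp t) t := by
    intro t
    have e1 : HasDerivAt (fun t : ℝ => exp t + 1) (exp t) t := (Real.hasDerivAt_exp t).add_const 1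
    have e2 : HasDerivAt (fun t : ℝ => 2 * (exp t - 1)) (2 * exp t) t :=
      ((Real.hasDerivAt_exp t).sub_const 1).const_mul 2
    exact ((hasDerivAt_id t).mul e1).sub e2
  have hmono : MonotoneOn (fun t : ℝ => t * (exp t + 1) - 2 * (exp t - 1)) (Set.Ici 0) := by
    refine monotoneOn_of_deriv_nonneg (convex_Ici 0)
      (fun t _ => (hder t).continuousAt.continuousWithinAt)
      (fun t _ => (hder t).differentiableAt.differentiableWithinAt) fun t _ => ?_
    rw [(hder t).deriv]
    have h1 := Real.add_one_le_exp (-t)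
    have h2 : exp (-t) * exp t = 1 := by rw [← exp_add]; simp
    have h3 := exp_pos t
    nlinarith [mul_le_mul_of_nonneg_right h1 h3.le]
  have h := hmono (Set.mem_Ici.2 le_rfl) (Set.mem_Ici.2 hd) hd
  simp only [zero_mul, exp_zero, sub_self, mul_zero] at h
  linarith

private theorem key {x : ℝ} (h1 : 13 / 20 ≤ x) (h2 : x ≤ 6 / 5) :
    37 / 100 * (sinh x ^ 2 + 0.8587 ^ 2) ≤ x * 0.8587 * cosh x - 0.54 * 0.5093 * sinh x := by
  set E := exp x with hE
  have hE0 : 0 < E := exp_pos x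
  have hlo : (1.9155 : ℝ) ≤ E := exp065_lo.trans (exp_le_exp.2 h1)
  have hhi : E ≤ 3.33 := (exp_le_exp.2 h2).trans exp12_hi
  have hC : 2 * E * cosh x = E ^ 2 + 1 := by
    rw [cosh_eq, exp_neg, ← hE]
    field_simp
  have hS : 2 * E * sinh x = E ^ 2 - 1 := by
    rw [sinh_eq, exp_neg, ← hE]
    field_simp
  -- lower bound for `x`
  have hx : 0.65 * (E + 1.9156) + 2 * (E - 1.9156) ≤ x * (E + 1.9156) := by
    have h3 := pade (show 0 ≤ x - 13 / 20 by linarith)
    set E₀ := exp (13 / 20) with hE₀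
    have h4 : E = exp (x - 13 / 20) * E₀ := by
      rw [hE, hE₀, ← exp_add]
      congr 1
      ring
    have h5 : 0 < E₀ := exp_pos _
    have h6 : E₀ ≤ 1.9156 := exp065_hi
    have h7 : 2 * (E - E₀) ≤ (x - 13 / 20) * (E + E₀) := by
      rw [h4]
      nlinarith [mul_le_mul_of_nonneg_right h3 h5.le]
    have h8 : 0 ≤ (x - 13 / 20) * (E + E₀) - 2 * (E - E₀) := by linarith
    -- `(x - .65) ≥ 2 (E - E₀)/(E + E₀) ≥ 2 (E - a)/(E + a)`
    have h9 : 0 ≤ ((x - 13 / 20) * (E + 1.9156) - 2 * (E - 1.9156)) * (E + E₀) := by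
      have e1 : ((x - 13 / 20) * (E + 1.9156) - 2 * (E - 1.9156)) * (E + E₀) =
          ((x - 13 / 20) * (E + E₀) - 2 * (E - E₀)) * (E + 1.9156) + 4 * E * (1.9156 - E₀) := by
        ring
      rw [e1]
      have : 0 ≤ 4 * E * (1.9156 - E₀) := mul_nonneg (by positivity) (by linarith)
      have : 0 ≤ ((x - 13 / 20) * (E + E₀) - 2 * (E - E₀)) * (E + 1.9156) :=
        mul_nonneg h8 (by linarith)
      linarith
    have h10 : 0 ≤ (x - 13 / 20) * (E + 1.9156) - 2 * (E - 1.9156) :=
      nonneg_of_mul_nonneg_left h9 (by linarith)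
    linarith
  have hG : 0 ≤ 2 * 0.8587 * (0.65 * (E + 1.9156) + 2 * (E - 1.9156)) * E * (E ^ 2 + 1) -
      (E + 1.9156) * (2 * (0.54 * 0.5093) * E * (E ^ 2 - 1) +
        0.37 * ((E ^ 2 - 1) ^ 2 + 4 * 0.8587 ^ 2 * E ^ 2)) := by
    obtain ⟨t, ht⟩ : ∃ t, t = E - 1.9155 := ⟨_, rfl⟩
    have ht0 : 0 ≤ t := by rw [ht]; linarith
    have ht1 : t ≤ 1.42 := by rw [ht]; linarith
    have hEt : E = t + 1.9155 := by rw [ht]; ring
    have e1 : 0 ≤ t ^ 3 * (1.42 - t) := mul_nonneg (by positivity) (by linarith)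
    have e2 : 0 ≤ t ^ 4 * (1.42 - t) := mul_nonneg (by positivity) (by linarith)
    have e3 : 0 ≤ t ^ 2 := by positivity
    have e4 : 0 ≤ t ^ 3 := by positivity
    rw [hEt]
    ring_nf at e1 e2 ⊢
    linarith
  have hfin : 0 ≤ (x * 0.8587 * cosh x - 0.54 * 0.5093 * sinh x -
      37 / 100 * (sinh x ^ 2 + 0.8587 ^ 2)) * (4 * E ^ 2 * (E + 1.9156)) := by
    have e1 : (x * 0.8587 * cosh x - 0.54 * 0.5093 * sinh x -
        37 / 100 * (sinh x ^ 2 + 0.8587 ^ 2)) * (4 * E ^ 2 * (E + 1.9156)) =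
        2 * 0.8587 * (x * (E + 1.9156)) * E * (E ^ 2 + 1) -
        (E + 1.9156) * (2 * (0.54 * 0.5093) * E * (E ^ 2 - 1) +
        0.37 * ((E ^ 2 - 1) ^ 2 + 4 * 0.8587 ^ 2 * E ^ 2)) := by
      have e2 : 4 * E ^ 2 * sinh x ^ 2 = (E ^ 2 - 1) ^ 2 := by rw [← hS]; ring
      linear_combination (2 * 0.8587 * x * E * (E + 1.9156)) * hC -
        (2 * 0.54 * 0.5093 * E * (E + 1.9156)) * hS - (37 / 100) * (E + 1.9156) * e2
    rw [e1]
    have e3 : 0 ≤ (x * (E + 1.9156) - (0.65 * (E + 1.9156) + 2 * (E - 1.9156))) *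
        (2 * 0.8587 * E * (E ^ 2 + 1)) := mul_nonneg (by linarith) (by positivity)
    linarith
  have hpos : 0 < 4 * E ^ 2 * (E + 1.9156) := by positivity
  have := nonneg_of_mul_nonneg_left hfin hpos
  linarith

/-! ### monotonicity -/

private noncomputable def hh (x : ℝ) : ℝ :=
  x * arctan (sinh x / 0.8587) + 0.27 * (log (cosh x + 0.5093) - log (cosh x - 0.5093)) - x * (π / 3)

private theorem hh_deriv (x : ℝ) : HasDerivAt hh
    (1 * arctan (sinh x / 0.8587) + x * (1 / (1 + (sinh x / 0.8587) ^ 2) * (cosh x / 0.8587)) +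
      0.27 * (sinh x / (cosh x + 0.5093) - sinh x / (cosh x - 0.5093)) - 1 * (π / 3)) x := by
  have hc := one_le_cosh x
  have e1 : HasDerivAt (fun x : ℝ => arctan (sinh x / 0.8587))
      (1 / (1 + (sinh x / 0.8587) ^ 2) * (cosh x / 0.8587)) x :=
    ((Real.hasDerivAt_sinh x).div_const 0.8587).arctan
  have e2 : HasDerivAt (fun x : ℝ => log (cosh x + 0.5093)) (sinh x / (cosh x + 0.5093)) x :=
    ((Real.hasDerivAt_cosh x).add_const 0.5093).log (by linarith)
  have e3 : HasDerivAt (fun x : ℝ => log (cosh x - 0.5093)) (sinh x / (cosh x - 0.5093)) x :=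
    ((Real.hasDerivAt_cosh x).sub_const 0.5093).log (by linarith)
  exact (((hasDerivAt_id x).mul e1).add ((e2.sub e3).const_mul 0.27)).sub
    ((hasDerivAt_id x).mul_const (π / 3))

private theorem hh_mono : MonotoneOn hh (Set.Icc (13 / 20) (6 / 5)) := by
  refine monotoneOn_of_deriv_nonneg (convex_Icc _ _)
    (fun t _ => (hh_deriv t).continuousAt.continuousWithinAt)
    (fun t _ => (hh_deriv t).differentiableAt.differentiableWithinAt) fun x hx => ?_
  rw [interior_Icc] at hx
  rw [(hh_deriv x).deriv]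
  have hk := key hx.1.le hx.2.le
  have hc := one_le_cosh x
  have hsx : sinh (13 / 20) ≤ sinh x := sinh_le_sinh.2 hx.1.le
  have hs0 := sinh_lo
  have hcs := cosh_sq x
  have hat : (0.681 : ℝ) ≤ arctan (sinh x / 0.8587) := by
    refine arctan_lo.trans (arctan_strictMono.monotone ?_)
    rw [le_div_iff₀ (by norm_num)]
    norm_num at hs0 ⊢
    linarith
  have hpi := Real.pi_lt_d4
  have hS0 : 0 ≤ sinh x := by linarith
  have hD : 0 < sinh x ^ 2 + 0.8587 ^ 2 := by positivity
  have e1 : x * (1 / (1 + (sinh x / 0.8587) ^ 2) * (cosh x / 0.8587)) =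
      x * 0.8587 * cosh x / (sinh x ^ 2 + 0.8587 ^ 2) := by
    field_simp
    ring
  have e2 : 0.27 * (sinh x / (cosh x + 0.5093) - sinh x / (cosh x - 0.5093)) =
      -(0.54 * 0.5093 * sinh x / (cosh x ^ 2 - 0.5093 ^ 2)) := by
    have h1 : cosh x + 0.5093 ≠ 0 := by linarith
    have h2 : cosh x - 0.5093 ≠ 0 := by linarith
    have h3 : cosh x ^ 2 - 0.5093 ^ 2 = (cosh x + 0.5093) * (cosh x - 0.5093) := by ring
    rw [h3, div_sub_div _ _ h1 h2]
    field_simp
    ring
  have e3 : 0.54 * 0.5093 * sinh x / (cosh x ^ 2 - 0.5093 ^ 2) ≤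
      0.54 * 0.5093 * sinh x / (sinh x ^ 2 + 0.8587 ^ 2) := by
    refine div_le_div_of_nonneg_left (by positivity) hD ?_
    rw [hcs]
    norm_num
    linarith
  have e4 : 37 / 100 ≤ x * 0.8587 * cosh x / (sinh x ^ 2 + 0.8587 ^ 2) -
      0.54 * 0.5093 * sinh x / (sinh x ^ 2 + 0.8587 ^ 2) := by
    rw [← sub_div, le_div_iff₀ hD]
    exact hk
  rw [e1, e2]
  norm_num at hat hpi e3 e4 ⊢
  linarith

private theorem hh_start : 0 < hh (13 / 20) := by
  unfold hh
  have hc1 := cosh_hi
  have hc2 := one_le_cosh (13 / 20)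
  have hs0 := sinh_lo
  have hpi := Real.pi_lt_d4
  have hat : (0.681 : ℝ) ≤ arctan (sinh (13 / 20) / 0.8587) := by
    refine arctan_lo.trans (arctan_strictMono.monotone ?_)
    rw [le_div_iff₀ (by norm_num)]
    norm_num at hs0 ⊢
    linarith
  have hlog : (0.889 : ℝ) ≤ log (cosh (13 / 20) + 0.5093) - log (cosh (13 / 20) - 0.5093) := by
    rw [← log_div (by linarith) (by linarith), le_log_iff_exp_le (div_pos (by linarith) (by linarith))]
    have h1 := exp889
    have h2 : (0.889 : ℝ) = 889 / 1000 := by norm_num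
    rw [h2]
    refine h1.trans ?_
    rw [le_div_iff₀ (by linarith)]
    norm_num at hc1 ⊢
    linarith
  norm_num at hat hlog hpi ⊢
  linarith

theorem rng3 {x θ R I : ℝ} (hx : 0 < x) (h1 : 27 / 50 ≤ θ) (h2 : θ ≤ π / 4) (hR : 0 < R)
    (hR' : R < π / 2) (hI : 0 < I) (e1 : tan R = sinh x / cos θ) (e2 : tanh I = sin θ / cosh x)
    (hA : 3 * I ≤ 2 * x) : π * x < 3 * (x * R + θ * I) := by
  have hpi := Real.pi_pos
  have hpi4 := Real.pi_lt_d4
  have hcos : cos θ ≤ 0.8587 :=
    (cos_le_cos_of_nonneg_of_le_pi (by norm_num) (by linarith) h1).trans cos054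
  have hcos0 : 0 < cos θ := cos_pos_of_mem_Ioo ⟨by linarith, by linarith⟩
  have hsin : 0.5093 ≤ sin θ := by
    refine sin054.trans ?_
    exact sin_le_sin_of_le_of_le_pi_div_two (by linarith) (by linarith) h1
  have hsin1 : sin θ ≤ 1 := sin_le_one θ
  have hc := one_le_cosh x
  have hsx : 0 < sinh x := sinh_pos_iff.2 hx
  -- `R`
  have hRge : arctan (sinh x / 0.8587) ≤ R := by
    rw [← arctan_tan (by linarith) hR', e1]
    exact arctan_strictMono.monotone (div_le_div_of_nonneg_left hsx.le hcos0 hcos)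
  -- `exp (2 I)`
  have hI2 : exp (2 * I) * (cosh x - sin θ) = cosh x + sin θ := by
    have h3 : tanh I * (exp (2 * I) + 1) = exp (2 * I) - 1 := by
      rw [tanh_eq_sinh_div_cosh, sinh_eq, cosh_eq]
      have h4 : exp (2 * I) = exp I * exp I := by rw [← exp_add]; congr 1; ring
      have h5 : exp I * exp (-I) = 1 := by rw [← exp_add]; simp
      have h6 := exp_pos I
      have h7 := exp_pos (-I)
      rw [h4]
      field_simp
      linear_combination (-(2 * exp I)) * h5
    rw [e2] at h3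
    field_simp at h3
    linear_combination -h3
  have hIge : log (cosh x + 0.5093) - log (cosh x - 0.5093) ≤ 2 * I := by
    rcases eq_or_lt_of_le (show sin θ ≤ cosh x by linarith) with h3 | h3
    · rw [h3, sub_self, mul_zero] at hI2
      linarith
    rw [← log_div (by linarith) (by linarith), ← log_exp (2 * I)]
    refine log_le_log (div_pos (by linarith) (by linarith)) ?_
    rw [div_le_iff₀ (by linarith)]
    have h4 : exp (2 * I) = (cosh x + sin θ) / (cosh x - sin θ) := by
      rw [eq_div_iff (by linarith)]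
      exact hI2
    rw [h4, div_mul_eq_mul_div, le_div_iff₀ (by linarith)]
    nlinarith
  -- `x ≥ 13/20`
  have hx65 : 13 / 20 ≤ x := by
    by_contra hcon
    push Not at hcon
    have h3 : cosh x ≤ 1.2189 := by
      refine le_trans ?_ cosh_hi
      rw [cosh_le_cosh, abs_of_pos hx, abs_of_pos (by norm_num)]
      exact hcon.le
    have h4 : exp (2 * I) ≤ 2.3795 := (exp_le_exp.2 (by linarith)).trans exp13_15
    have h5 : 0 < cosh x - 0.5093 := by linarith
    have h6 : exp (2 * I) * (cosh x - sin θ) ≤ 2.3795 * (cosh x - 0.5093) := by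
      have h7 : exp (2 * I) * (cosh x - sin θ) ≤ exp (2 * I) * (cosh x - 0.5093) :=
        mul_le_mul_of_nonneg_left (by linarith) (exp_pos _).le
      exact h7.trans (mul_le_mul_of_nonneg_right h4 h5.le)
    rw [hI2] at h6
    norm_num at h3 h6 hsin
    linarith
  rcases le_or_gt x (6 / 5) with hx12 | hx12
  · have h3 : hh (13 / 20) ≤ hh x := hh_mono ⟨le_rfl, by norm_num⟩ ⟨hx65, hx12⟩ hx65
    have h4 := hh_start
    unfold hh at h3
    have h5 : x * arctan (sinh x / 0.8587) ≤ x * R := mul_le_mul_of_nonneg_left hRge hx.le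
    have h6 : 27 / 50 * I ≤ θ * I := mul_le_mul_of_nonneg_right h1 hI.le
    have h7 : 0 < x * arctan (sinh x / 0.8587) +
        0.27 * (log (cosh x + 0.5093) - log (cosh x - 0.5093)) - x * (π / 3) := by
      refine lt_of_lt_of_le h4 ?_
      unfold hh
      exact h3
    norm_num at h7 hIge h5 h6
    nlinarith
  · have h3 : π / 3 ≤ R := by
      refine le_trans ?_ hRge
      rw [← arctan_sqrt_three]
      refine arctan_strictMono.monotone ?_
      rw [le_div_iff₀ (by norm_num)]
      have h4 : sinh (6 / 5) ≤ sinh x := sinh_le_sinh.2 hx12.le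
      have h5 := sinh12
      have h6 : √3 ≤ 1.7321 := by
        rw [Real.sqrt_le_left (by norm_num)]
        norm_num
      norm_num at h5 h6 ⊢
      linarith
    have h4 : 0 < θ * I := mul_pos (by linarith) hI
    nlinarith [mul_le_mul_of_nonneg_left h3 hx.le]

end Pool.Agent.S3.E
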