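import Mathlib

/-!
# Stage 3, block E: the angle of an end with at least 3 half twists (numerical part)

`R = arctan (sinh x / cos θ)` and `I = artanh (sin θ / cosh x)` both increase with `θ ∈ [0, π/4]`
(for fixed `x`), so it is enough to treat `θ₀ = 19/40`.  At `θ₀`: `hA` (`3 I ≤ x`) gives
`tanh (x/3) cosh x ≥ sin θ₀ = 0.45734`, left side increasing, so `x ≥ 0.952` (true value .9523; at
`.95` the left side is `.4555`).  With `g(x) = R + θ₀ I / x`: `g(.9523) - π/3 = 0.0034`, slope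
there `+ .37` (`R' = .66`, `θ₀ (I/x)' = -.29`).  On a piece `[x₁, x₂]` use `R(x) ≥ R(x₁)` and
`I(x)/x ≥ I(x₂)/x₂`: pieces `[.952, .960], [.960, .975], [.975, 1.0], [1.0, 1.06], [1.06, 1.22]`
(the last one until `sinh x ≥ √3 cos θ₀ = 1.5403`, where `R ≥ π/3`) or finer; please check the
numbers.
-/

set_option autoImplicit false

namespace Pool.Agent.S3.E

open Real

private theorem Rng3_sin_ge {x : ℝ} (hx : 0 ≤ x) : x - x ^ 3 / 6 ≤ sin x := by
  have h : MonotoneOn (fun u : ℝ => sin u - (u - u ^ 3 / 6)) (Set.Ici 0) := by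
    apply monotoneOn_of_deriv_nonneg (convex_Ici 0)
    · fun_prop
    · intro u _
      exact DifferentiableAt.differentiableWithinAt (by fun_prop)
    · intro u _
      have hd : HasDerivAt (fun u : ℝ => sin u - (u - u ^ 3 / 6)) (cos u - (1 - 3 * u ^ 2 / 6)) u := by
        have h1 := hasDerivAt_sin u
        have h2 := (hasDerivAt_id u).sub (((hasDerivAt_pow 3 u)).div_const 6)
        have h3 := h1.sub h2
        exact h3.congr_deriv (by norm_num)
      rw [hd.deriv]
      have := one_sub_sq_div_two_le_cos (x := u)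
      linarith
  have h0 := h (Set.mem_Ici.2 le_rfl) (Set.mem_Ici.2 hx) hx
  simp only [sin_zero] at h0
  norm_num at h0
  linarith

private theorem Rng3_cos_le {x : ℝ} (hx : 0 ≤ x) : cos x ≤ 1 - x ^ 2 / 2 + x ^ 4 / 24 := by
  have h : MonotoneOn (fun u : ℝ => (1 - u ^ 2 / 2 + u ^ 4 / 24) - cos u) (Set.Ici 0) := by
    apply monotoneOn_of_deriv_nonneg (convex_Ici 0)
    · fun_prop
    · intro u _
      exact DifferentiableAt.differentiableWithinAt (by fun_prop)
    · intro u hu
      rw [interior_Ici] at hu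
      have hd : HasDerivAt (fun u : ℝ => (1 - u ^ 2 / 2 + u ^ 4 / 24) - cos u)
          ((0 - 2 * u / 2 + 4 * u ^ 3 / 24) - (-sin u)) u := by
        have h1 := hasDerivAt_cos u
        have h2 := (((hasDerivAt_const u (1 : ℝ)).sub (((hasDerivAt_pow 2 u)).div_const 2))).add
          (((hasDerivAt_pow 4 u)).div_const 24)
        have h3 := h2.sub h1
        exact h3.congr_deriv (by norm_num)
      rw [hd.deriv]
      have := Rng3_sin_ge (x := u) (le_of_lt hu)
      linarith
  have h0 := h (Set.mem_Ici.2 le_rfl) (Set.mem_Ici.2 hx) hx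
  simp only [cos_zero] at h0
  norm_num at h0
  linarith

private theorem Rng3_tanh {u : ℝ} (hu : 0 ≤ u) :
    sinh u / cosh u + (sinh u / cosh u) ^ 3 / 3 ≤ u := by
  have h : MonotoneOn (fun v : ℝ => v - (sinh v / cosh v + (sinh v / cosh v) ^ 3 / 3))
      (Set.Ici 0) := by
    have hd : ∀ v : ℝ, HasDerivAt
        (fun v : ℝ => v - (sinh v / cosh v + (sinh v / cosh v) ^ 3 / 3))
        (1 - ((cosh v * cosh v - sinh v * sinh v) / cosh v ^ 2 +
          (3 * (sinh v / cosh v) ^ 2 * ((cosh v * cosh v - sinh v * sinh v) / cosh v ^ 2)) / 3))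
        v := by
      intro v
      have hc : cosh v ≠ 0 := (cosh_pos v).ne'
      have h1 := (hasDerivAt_sinh v).div (hasDerivAt_cosh v) hc
      have h2 := h1.add ((h1.pow 3).div_const 3)
      have h3 := (hasDerivAt_id v).sub h2
      exact h3.congr_deriv (by norm_num)
    apply monotoneOn_of_deriv_nonneg (convex_Ici 0)
    · intro v _
      exact (hd v).continuousAt.continuousWithinAt
    · intro v _
      exact (hd v).differentiableAt.differentiableWithinAt
    · intro v _
      rw [(hd v).deriv]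
      have hc : 0 < cosh v := cosh_pos v
      have hcs := cosh_sq v
      have e : cosh v * cosh v - sinh v * sinh v = 1 := by nlinarith
      rw [e]
      have e2 : 1 - (1 / cosh v ^ 2 + 3 * (sinh v / cosh v) ^ 2 * (1 / cosh v ^ 2) / 3) =
          (sinh v ^ 2) ^ 2 / (cosh v ^ 2) ^ 2 := by
        rw [hcs]
        have : sinh v ^ 2 + 1 ≠ 0 := by positivity
        have hc2 : (sinh v / cosh v) ^ 2 = sinh v ^ 2 / (sinh v ^ 2 + 1) := by
          rw [div_pow, hcs]
        rw [hc2]
        field_simp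
        ring
      rw [e2]
      positivity
  have h0 := h (Set.mem_Ici.2 le_rfl) (Set.mem_Ici.2 hu) hu
  simp only [sinh_zero] at h0
  norm_num at h0
  linarith

private theorem Rng3_exp {p : ℝ} (h0 : 0 ≤ p) (h1 : p ≤ 1) :
    1 + p + p ^ 2 / 2 + p ^ 3 / 6 + p ^ 4 / 24 + p ^ 5 / 120 + p ^ 6 / 720 + p ^ 7 / 5040 ≤ exp p ∧
    exp p ≤ 1 + p + p ^ 2 / 2 + p ^ 3 / 6 + p ^ 4 / 24 + p ^ 5 / 120 + p ^ 6 / 720 + p ^ 7 / 5040 +
      p ^ 8 * 9 / 322560 := by
  have e := sum_le_exp_of_nonneg h0 8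
  have e2 := exp_bound' h0 h1 (n := 8) (by norm_num)
  simp only [Finset.sum_range_succ, Finset.sum_range_zero, Nat.factorial] at e e2
  norm_num at e e2
  constructor
  · linarith
  · linarith

private theorem Rng3_hyp {p l u a b : ℝ} (hl : l ≤ exp p) (hu : exp p ≤ u) (hl0 : 0 < l)
    (ha : a ≤ (l - 1 / l) / 2) (hb : (u + 1 / l) / 2 ≤ b) : a ≤ sinh p ∧ cosh p ≤ b := by
  have h1 : exp (-p) ≤ 1 / l := by
    rw [exp_neg, ← one_div]
    exact one_div_le_one_div_of_le hl0 hl
  rw [sinh_eq, cosh_eq]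
  constructor <;> linarith

private theorem Rng3_piece {x θ R I a b x2 δ : ℝ} (hx : 0 < x) (h1 : 19 / 40 ≤ θ)
    (h2 : θ ≤ π / 4) (hR : 0 < R) (hR' : R < π / 2) (hI : 0 < I)
    (e1 : tan R = sinh x / cos θ) (e2 : tanh I = sin θ / cosh x)
    (ha : a ≤ sinh x) (ha0 : 0 < a) (ha1 : a ≤ 154 / 100) (hb : cosh x ≤ b) (hb1 : 1 < b)
    (hx2 : x ≤ x2) (hδ0 : 0 < δ) (hδ1 : δ < 1 / 2)
    (hn1 : δ * x2 ≤ 19 / 40 * (0.457138 / b + (0.457138 / b) ^ 3 / 3))
    (hn2 : 0 < (a - 1.732051 * 0.88931) * (1 - δ ^ 2 / 2 + δ ^ 4 / 24) +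
      (1.73205 * a + 0.88931) * (δ - δ ^ 3 / 6)) : π * x < 3 * (x * R + θ * I) := by
  have hpi := pi_gt_three
  have hcx := cosh_pos x
  -- sine and cosine of theta
  have hc0 : 0 < cos θ := cos_pos_of_mem_Ioo ⟨by linarith, by linarith⟩
  have hc1 : cos θ ≤ 0.88931 := by
    have h3 : cos θ ≤ cos (19 / 40) :=
      cos_le_cos_of_nonneg_of_le_pi (by norm_num) (by linarith) h1
    have h4 := Rng3_cos_le (x := 19 / 40) (by norm_num)
    norm_num at h4 ⊢
    linarith
  have hs1 : 0.457138 ≤ sin θ := by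
    have h3 : sin (19 / 40) ≤ sin θ :=
      sin_le_sin_of_le_of_le_pi_div_two (by linarith) (by linarith) h1
    have h4 := Rng3_sin_ge (x := 19 / 40) (by norm_num)
    norm_num at h4 ⊢
    linarith
  -- the lower bound for I
  have hI1 : 0.457138 / b + (0.457138 / b) ^ 3 / 3 ≤ I := by
    have h3 := Rng3_tanh hI.le
    rw [← tanh_eq_sinh_div_cosh, e2] at h3
    have h4 : 0.457138 / b ≤ sin θ / cosh x := by
      rw [div_le_div_iff₀ (by linarith) hcx]
      calc (0.457138 : ℝ) * cosh x ≤ 0.457138 * b := by nlinarith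
        _ ≤ sin θ * b := by nlinarith
    have h5 : (0.457138 / b) ^ 3 ≤ (sin θ / cosh x) ^ 3 :=
      pow_le_pow_left₀ (by positivity) h4 3
    linarith
  have hI2 : δ * x ≤ θ * I := by
    have h3 : 19 / 40 * I ≤ θ * I := by nlinarith
    have h4 : δ * x ≤ δ * x2 := by nlinarith
    linarith
  -- the angle R
  have hR2 : π / 3 - δ < R := by
    by_contra hcon
    rw [not_lt] at hcon
    have h3 : tan R ≤ tan (π / 3 - δ) := by
      rcases hcon.lt_or_eq with h | h
      · exact (tan_lt_tan_of_lt_of_lt_pi_div_two (by linarith) (by linarith) h).le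
      · rw [h]
    rw [e1, tan_eq_sin_div_cos, sin_sub, cos_sub, sin_pi_div_three, cos_pi_div_three] at h3
    have hsl : δ - δ ^ 3 / 6 ≤ sin δ := Rng3_sin_ge hδ0.le
    have hcu : cos δ ≤ 1 - δ ^ 2 / 2 + δ ^ 4 / 24 := Rng3_cos_le hδ0.le
    have hcd : 0 < cos δ := cos_pos_of_mem_Ioo ⟨by linarith, by linarith⟩
    have hsd : 0 < sin δ := sin_pos_of_pos_of_lt_pi hδ0 (by linarith)
    have hq1 : √3 < 1.732051 := by
      rw [sqrt_lt' (by norm_num)]
      norm_num
    have hq2 : 1.73205 < √3 := by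
      rw [lt_sqrt (by norm_num)]
      norm_num
    have hden : 0 < 1 / 2 * cos δ + √3 / 2 * sin δ := by positivity
    rw [div_le_div_iff₀ hc0 hden] at h3
    have h4 : a * (1 / 2 * cos δ + √3 / 2 * sin δ) ≤
        sinh x * (1 / 2 * cos δ + √3 / 2 * sin δ) := by nlinarith
    have hnum : 0 < √3 / 2 * cos δ - 1 / 2 * sin δ := by
      have h6 : 0 < a * (1 / 2 * cos δ + √3 / 2 * sin δ) := by positivity
      have h7 : 0 < (√3 / 2 * cos δ - 1 / 2 * sin δ) * cos θ := by linarith
      by_contra hcon2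
      rw [not_lt] at hcon2
      have := mul_nonpos_of_nonpos_of_nonneg hcon2 hc0.le
      linarith
    have h5 : (√3 / 2 * cos δ - 1 / 2 * sin δ) * cos θ ≤
        (√3 / 2 * cos δ - 1 / 2 * sin δ) * 0.88931 := by nlinarith
    -- a (cos + √3 sin) ≤ c (√3 cos - sin)
    have h6 : (a - √3 * 0.88931) * cos δ + (√3 * a + 0.88931) * sin δ ≤ 0 := by nlinarith
    have h7 : (a - 1.732051 * 0.88931) * cos δ ≤ (a - √3 * 0.88931) * cos δ := by nlinarith
    have h8 : (1.73205 * a + 0.88931) * sin δ ≤ (√3 * a + 0.88931) * sin δ := by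
      have : (1.73205 * a + 0.88931) ≤ (√3 * a + 0.88931) := by nlinarith
      exact mul_le_mul_of_nonneg_right this hsd.le
    have h9 : (a - 1.732051 * 0.88931) * (1 - δ ^ 2 / 2 + δ ^ 4 / 24) ≤
        (a - 1.732051 * 0.88931) * cos δ := by
      have : a - 1.732051 * 0.88931 ≤ 0 := by norm_num; linarith
      exact mul_le_mul_of_nonpos_left hcu this
    have h10 : (1.73205 * a + 0.88931) * (δ - δ ^ 3 / 6) ≤ (1.73205 * a + 0.88931) * sin δ :=
      mul_le_mul_of_nonneg_left hsl (by positivity)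
    linarith
  nlinarith

theorem rng3e {x θ R I : ℝ} (hx : 0 < x) (h1 : 19 / 40 ≤ θ) (h2 : θ ≤ π / 4) (hR : 0 < R)
    (hR' : R < π / 2) (hI : 0 < I) (e1 : tan R = sinh x / cos θ) (e2 : tanh I = sin θ / cosh x)
    (hA : 3 * I ≤ x) : π * x < 3 * (x * R + θ * I) := by
  have hpi := pi_gt_three
  have hcx := cosh_pos x
  have hc0 : 0 < cos θ := cos_pos_of_mem_Ioo ⟨by linarith, by linarith⟩
  have hs1 : 0.457138 ≤ sin θ := by
    have h3 : sin (19 / 40) ≤ sin θ :=
      sin_le_sin_of_le_of_le_pi_div_two (by linarith) (by linarith) h1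
    have h4 := Rng3_sin_ge (x := 19 / 40) (by norm_num)
    norm_num at h4 ⊢
    linarith
  have hc1 : cos θ ≤ 0.88931 := by
    have h3 : cos θ ≤ cos (19 / 40) :=
      cos_le_cos_of_nonneg_of_le_pi (by norm_num) (by linarith) h1
    have h4 := Rng3_cos_le (x := 19 / 40) (by norm_num)
    norm_num at h4 ⊢
    linarith
  -- the lower bound for sinh x
  have hsx : 1.1025 ≤ sinh x := by
    have hC : 0 < cosh (x / 3) := cosh_pos _
    have hS0 : 0 < sinh (x / 3) := sinh_pos_iff.2 (by linarith)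
    have hcs := cosh_sq (x / 3)
    have t1 : tanh I ≤ sinh (x / 3) / cosh (x / 3) := by
      rw [tanh_eq_sinh_div_cosh, div_le_div_iff₀ (cosh_pos I) hC]
      have h5 : 0 ≤ sinh (x / 3 - I) := sinh_nonneg_iff.2 (by linarith)
      rw [sinh_sub] at h5
      linarith
    rw [e2, div_le_div_iff₀ hcx hC] at t1
    have ex : x = 3 * (x / 3) := by ring
    have hc3 : cosh x = 4 * cosh (x / 3) ^ 3 - 3 * cosh (x / 3) := by
      conv_lhs => rw [ex]
      exact cosh_three_mul _
    have hs3 : sinh x = 4 * sinh (x / 3) ^ 3 + 3 * sinh (x / 3) := by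
      conv_lhs => rw [ex]
      exact sinh_three_mul _
    rw [hc3] at t1
    have t2 : sin θ ≤ sinh (x / 3) + 4 * sinh (x / 3) ^ 3 := by
      have t3 : sin θ * cosh (x / 3) ≤
          (sinh (x / 3) + 4 * sinh (x / 3) ^ 3) * cosh (x / 3) := by
        have : sinh (x / 3) * (4 * cosh (x / 3) ^ 3 - 3 * cosh (x / 3)) =
            (sinh (x / 3) + 4 * sinh (x / 3) ^ 3) * cosh (x / 3) := by
          have : cosh (x / 3) ^ 3 = cosh (x / 3) ^ 2 * cosh (x / 3) := by ring
          rw [this, hcs]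
          ring
        linarith
      exact le_of_mul_le_mul_right t3 hC
    have t4 : 0.3227 ≤ sinh (x / 3) := by
      by_contra hcon
      rw [not_le] at hcon
      have : sinh (x / 3) ^ 3 ≤ 0.3227 ^ 3 := pow_le_pow_left₀ hS0.le hcon.le 3
      norm_num at this hcon hs1
      linarith
    have t5 : (0.3227 : ℝ) ^ 3 ≤ sinh (x / 3) ^ 3 := pow_le_pow_left₀ (by norm_num) t4 3
    rw [hs3]
    norm_num at t5 t4 ⊢
    linarith
  -- the numbers
  have q1 := Rng3_exp (p := 0.96) (by norm_num) (by norm_num)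
  have q2 := Rng3_exp (p := 0.975) (by norm_num) (by norm_num)
  have q3 := Rng3_exp (p := 1) (by norm_num) (by norm_num)
  have q4 := Rng3_exp (p := 0.53) (by norm_num) (by norm_num)
  have q5 := Rng3_exp (p := 0.61) (by norm_num) (by norm_num)
  have p1 : 1.1143 ≤ sinh 0.96 ∧ cosh 0.96 ≤ 1.4973 := by
    refine Rng3_hyp (l := 2.61167) (u := 2.6117) ?_ ?_ (by norm_num) (by norm_num) (by norm_num)
    · refine le_trans ?_ q1.1
      norm_num
    · refine le_trans q1.2 ?_
      norm_num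
  have p2 : 1.1369 ≤ sinh 0.975 ∧ cosh 0.975 ≤ 1.5142 := by
    refine Rng3_hyp (l := 2.65114) (u := 2.65117) ?_ ?_ (by norm_num) (by norm_num) (by norm_num)
    · refine le_trans ?_ q2.1
      norm_num
    · refine le_trans q2.2 ?_
      norm_num
  have p3 : 1.1751 ≤ sinh 1 ∧ cosh 1 ≤ 1.5431 := by
    refine Rng3_hyp (l := 2.71825) (u := 2.71829) ?_ ?_ (by norm_num) (by norm_num) (by norm_num)
    · refine le_trans ?_ q3.1
      norm_num
    · refine le_trans q3.2 ?_
      norm_num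
  have p4 : 1.2699 ≤ sinh 1.06 ∧ cosh 1.06 ≤ 1.6165 := by
    have e : exp (1.06 : ℝ) = exp 0.53 ^ 2 := by
      rw [← exp_nat_mul]
      norm_num
    have b1 : 1.69893 ≤ exp (0.53 : ℝ) := by
      refine le_trans ?_ q4.1
      norm_num
    have b2 : exp (0.53 : ℝ) ≤ 1.69894 := by
      refine le_trans q4.2 ?_
      norm_num
    refine Rng3_hyp (l := 1.69893 ^ 2) (u := 1.69894 ^ 2) ?_ ?_ (by norm_num) (by norm_num)
      (by norm_num)
    · rw [e]
      exact pow_le_pow_left₀ (by norm_num) b1 2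
    · rw [e]
      exact pow_le_pow_left₀ (exp_pos _).le b2 2
  have p5 : 1.5458 ≤ sinh 1.22 ∧ cosh 1.22 ≤ 1.8413 := by
    have e : exp (1.22 : ℝ) = exp 0.61 ^ 2 := by
      rw [← exp_nat_mul]
      norm_num
    have b1 : 1.84043 ≤ exp (0.61 : ℝ) := by
      refine le_trans ?_ q5.1
      norm_num
    have b2 : exp (0.61 : ℝ) ≤ 1.84044 := by
      refine le_trans q5.2 ?_
      norm_num
    refine Rng3_hyp (l := 1.84043 ^ 2) (u := 1.84044 ^ 2) ?_ ?_ (by norm_num) (by norm_num)
      (by norm_num)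
    · rw [e]
      exact pow_le_pow_left₀ (by norm_num) b1 2
    · rw [e]
      exact pow_le_pow_left₀ (exp_pos _).le b2 2
  have hcm : ∀ {u v : ℝ}, 0 < u → u ≤ v → cosh u ≤ cosh v := fun {u v} hu huv =>
    cosh_le_cosh.2 (by rw [abs_of_pos hu, abs_of_pos (by linarith)]; exact huv)
  have hsm : ∀ {u v : ℝ}, u ≤ v → sinh u ≤ sinh v := fun {u v} huv => sinh_le_sinh.2 huv
  rcases le_or_gt x 0.96 with g1 | g1
  · exact Rng3_piece (a := 1.1025) (b := 1.4973) (x2 := 0.96) (δ := 0.1557) hx h1 h2 hR hR' hI e1 e2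
      hsx (by norm_num) (by norm_num) ((hcm hx g1).trans p1.2) (by norm_num) g1 (by norm_num)
      (by norm_num) (by norm_num) (by norm_num)
  rcases le_or_gt x 0.975 with g2 | g2
  · exact Rng3_piece (a := 1.1143) (b := 1.5142) (x2 := 0.975) (δ := 0.1515) hx h1 h2 hR hR' hI e1
      e2 (p1.1.trans (hsm g1.le)) (by norm_num) (by norm_num) ((hcm hx g2).trans p2.2)
      (by norm_num) g2 (by norm_num) (by norm_num) (by norm_num) (by norm_num)
  rcases le_or_gt x 1 with g3 | g3
  · exact Rng3_piece (a := 1.1369) (b := 1.5431) (x2 := 1) (δ := 0.1448) hx h1 h2 hR hR' hI e1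
      e2 (p2.1.trans (hsm g2.le)) (by norm_num) (by norm_num) ((hcm hx g3).trans p3.2)
      (by norm_num) g3 (by norm_num) (by norm_num) (by norm_num) (by norm_num)
  rcases le_or_gt x 1.06 with g4 | g4
  · exact Rng3_piece (a := 1.1751) (b := 1.6165) (x2 := 1.06) (δ := 0.13) hx h1 h2 hR hR' hI e1
      e2 (p3.1.trans (hsm g3.le)) (by norm_num) (by norm_num) ((hcm hx g4).trans p4.2)
      (by norm_num) g4 (by norm_num) (by norm_num) (by norm_num) (by norm_num)
  rcases le_or_gt x 1.22 with g5 | g5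
  · exact Rng3_piece (a := 1.2699) (b := 1.8413) (x2 := 1.22) (δ := 0.098) hx h1 h2 hR hR' hI e1
      e2 (p4.1.trans (hsm g4.le)) (by norm_num) (by norm_num) ((hcm hx g5).trans p5.2)
      (by norm_num) g5 (by norm_num) (by norm_num) (by norm_num) (by norm_num)
  -- large x
  have hR3 : π / 3 < R := by
    by_contra hcon
    rw [not_lt] at hcon
    have h3 : tan R ≤ tan (π / 3) := by
      rcases hcon.lt_or_eq with h | h
      · exact (tan_lt_tan_of_lt_of_lt_pi_div_two (by linarith) (by linarith) h).le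
      · rw [h]
    rw [tan_pi_div_three, e1, div_le_iff₀ hc0] at h3
    have hq1 : √3 < 1.732051 := by
      rw [sqrt_lt' (by norm_num)]
      norm_num
    have h4 : √3 * cos θ ≤ 1.732051 * 0.88931 := by
      have hq0 : 0 < √3 := by positivity
      nlinarith
    have h5 := p5.1.trans (hsm g5.le)
    norm_num at h4 h5
    linarith
  have hθI : 0 < θ * I := by
    have : 0 < θ := by linarith
    positivity
  nlinarith

end Pool.Agent.S3.E
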