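import Mathlib

/-!
# Stage 3, block E: the angle of a vertex with at least 4 half twists (numerical part)

`R = arctan (sinh x / cos θ)` and `I = artanh (sin θ / cosh x)` both increase with `θ ∈ [0, π/4]`
(for fixed `x`), so it is enough to treat `θ₀ = 37/100`.  `hA` (`4 I ≤ 2 x`) gives
`sin θ₀ ≤ tanh (x/2) cosh x`, so `x ≥ 0.62`.  For `t = sinh x / cos θ ≥ t₁`, `u = (1-t₁)/(1+t₁)`:
`arctan t ≥ π/4 - arctan u ≥ π/4 - u`, and `artanh y ≥ y + y³/3`; so it is enough that
`x₂ u < θ₀ (y₁ + y₁³/3)` on the pieces `[x₁, x₂]` = `[.62, .65]`, `[.65, .7]`, `[.7, .834]`;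
for `x ≥ .834`: `sinh x ≥ cos θ₀`, `R ≥ π/4`.
-/

set_option autoImplicit false

namespace Pool.Agent.S3.E

open Real

private theorem rng4_exp_lo (x y : ℝ) (hx : 0 ≤ x)
    (h : y ≤ ∑ i ∈ Finset.range 7, x ^ i / i.factorial) : y ≤ exp x :=
  h.trans (Real.sum_le_exp_of_nonneg hx 7)

private theorem rng4_exp_hi (x y : ℝ) (hx : 0 ≤ x) (hx1 : x ≤ 1)
    (h : (∑ m ∈ Finset.range 7, x ^ m / m.factorial) + x ^ 7 * (7 + 1) / ((Nat.factorial 7 : ℕ) * 7) ≤ y) :
    exp x ≤ y := by
  refine (Real.exp_bound' hx hx1 (n := 7) (by norm_num)).trans ?_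
  simpa using h

private theorem rng4_sinh_lo {x E : ℝ} (hE : 0 < E) (h : E ≤ exp x) : (E - E⁻¹) / 2 ≤ sinh x := by
  rw [sinh_eq, exp_neg]
  have : (exp x)⁻¹ ≤ E⁻¹ := inv_anti₀ hE h
  linarith

private theorem rng4_cosh_hi {x E : ℝ} (hx : 0 ≤ x) (h : exp x ≤ E) : cosh x ≤ (E + E⁻¹) / 2 := by
  rw [cosh_eq, exp_neg]
  have h1 : 1 ≤ exp x := one_le_exp hx
  have h0 : 0 < exp x := exp_pos x
  have hE : 0 < E := h0.trans_le h
  have h2 : exp x + (exp x)⁻¹ ≤ E + E⁻¹ := by
    have e : E + E⁻¹ - (exp x + (exp x)⁻¹) = (E - exp x) * (E * exp x - 1) / (E * exp x) := by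
      field_simp
      ring
    have h3 : 0 ≤ (E - exp x) * (E * exp x - 1) / (E * exp x) := by
      apply div_nonneg
      · apply mul_nonneg (by linarith)
        nlinarith
      · positivity
    linarith
  linarith

private theorem rng4_tanh_mono {x y : ℝ} (h : x ≤ y) : tanh x ≤ tanh y := by
  rw [tanh_eq_sinh_div_cosh, tanh_eq_sinh_div_cosh, div_le_div_iff₀ (cosh_pos x) (cosh_pos y)]
  have h1 : 0 ≤ sinh (y - x) := sinh_nonneg_iff.mpr (by linarith)
  rw [sinh_sub] at h1
  linarith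

/-- `artanh y ≥ y + y³/3` -/
private theorem rng4_artanh {I y : ℝ} (hy : 0 < y) (h : tanh I = y) :
    y + y ^ 3 / 3 ≤ I := by
  have hy1 : y < 1 := by rw [← h]; exact tanh_lt_one I
  have habs : |y| < 1 := by rw [abs_of_pos hy]; exact hy1
  have hs := Real.hasSum_log_sub_log_of_abs_lt_one habs
  have h1 : ∑ k ∈ Finset.range 2, (2 : ℝ) * (1 / (2 * (k : ℝ) + 1)) * y ^ (2 * k + 1) ≤
      log (1 + y) - log (1 - y) :=
    sum_le_hasSum _ (fun k _ => by positivity) hs
  have h2 : log (1 + y) - log (1 - y) = 2 * I := by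
    rw [← log_div (by linarith) (by linarith)]
    have h3 : (1 + y) / (1 - y) = exp (2 * I) := by
      rw [← h, tanh_eq_sinh_div_cosh, sinh_eq, cosh_eq, exp_neg]
      have h4 : 0 < exp I := exp_pos I
      rw [show 2 * I = I + I by ring, exp_add]
      have h5 : exp I + (exp I)⁻¹ ≠ 0 := by positivity
      have h6 : 1 - (exp I - (exp I)⁻¹) / 2 / ((exp I + (exp I)⁻¹) / 2) ≠ 0 := by
        have : 1 - (exp I - (exp I)⁻¹) / 2 / ((exp I + (exp I)⁻¹) / 2) =
            2 * (exp I)⁻¹ / (exp I + (exp I)⁻¹) := by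
          field_simp
          ring
        rw [this]
        positivity
      rw [div_eq_iff h6]
      field_simp
      ring
    rw [h3, log_exp]
  rw [h2] at h1
  simp only [Finset.sum_range_succ, Finset.sum_range_zero] at h1
  norm_num at h1
  linarith

/-- one piece -/
private theorem rng4_piece {x θ R I x₂ t₁ y₁ : ℝ} (hx : 0 < x) (hx₂ : x ≤ x₂) (h1 : 37 / 100 ≤ θ)
    (hR : 0 < R) (hR' : R < π / 2) (hI : 0 < I) (ht₁ : 0 < t₁) (ht₁' : t₁ ≤ 1)
    (ht : t₁ ≤ tan R) (hy₁ : 0 < y₁) (hy : y₁ ≤ tanh I)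
    (hnum : x₂ * ((1 - t₁) / (1 + t₁)) < 37 / 100 * (y₁ + y₁ ^ 3 / 3)) :
    π * x < 4 * (x * R + θ * I) := by
  set u : ℝ := (1 - t₁) / (1 + t₁) with hu
  have hu0 : 0 ≤ u := div_nonneg (by linarith) (by linarith)
  have hRge : arctan t₁ ≤ R := by
    have : arctan (tan R) = R := arctan_tan (by linarith [pi_pos]) hR'
    rw [← this]
    exact arctan_mono ht
  have hat : arctan t₁ + arctan u = π / 4 := by
    have h3 : t₁ * u < 1 := by
      rw [hu, ← mul_div_assoc, div_lt_one (by linarith)]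
      nlinarith
    rw [arctan_add h3, ← arctan_one]
    congr 1
    rw [hu]
    have : (1 + t₁) ≠ 0 := by linarith
    have h4 : 1 - t₁ * ((1 - t₁) / (1 + t₁)) ≠ 0 := by
      rw [← hu]; linarith
    rw [div_eq_one_iff_eq h4]
    field_simp
    ring
  have hau : arctan u ≤ u := by
    have h5 : 0 ≤ arctan u := arctan_nonneg.mpr hu0
    rcases hu0.lt_or_eq with h6 | h6
    · have h7 := (arctan_lt_pi_div_two u)
      have h8 : 0 < arctan u := arctan_pos.mpr h6
      have := lt_tan h8 h7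
      rw [tan_arctan] at this
      exact this.le
    · rw [← h6, arctan_zero]
  have hIge : y₁ + y₁ ^ 3 / 3 ≤ I := by
    have h9 := rng4_artanh (hy₁.trans_le hy) rfl
    have h10 : y₁ ^ 3 ≤ tanh I ^ 3 := pow_le_pow_left₀ hy₁.le hy 3
    linarith
  have h11 : x * u < θ * I := by
    calc x * u ≤ x₂ * u := mul_le_mul_of_nonneg_right hx₂ hu0
      _ < 37 / 100 * (y₁ + y₁ ^ 3 / 3) := hnum
      _ ≤ θ * I := mul_le_mul h1 hIge (by positivity) (by linarith)
  have h12 : π / 4 - u ≤ R := by linarith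
  have h13 : x * (π / 4 - u) ≤ x * R := mul_le_mul_of_nonneg_left h12 hx.le
  nlinarith

theorem rng4 {x θ R I : ℝ} (hx : 0 < x) (h1 : 37 / 100 ≤ θ) (h2 : θ ≤ π / 4) (hR : 0 < R)
    (hR' : R < π / 2) (hI : 0 < I) (e1 : tan R = sinh x / cos θ) (e2 : tanh I = sin θ / cosh x)
    (hA : 4 * I ≤ 2 * x) : π * x < 4 * (x * R + θ * I) := by
  have hpi := pi_gt_three
  have hpi4 := pi_lt_four
  have hcos0 : 0 < cos θ := cos_pos_of_mem_Ioo ⟨by linarith, by linarith⟩
  -- sine and cosine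
  have hsin : (0.36058 : ℝ) ≤ sin θ := by
    have h3 : sin (37 / 100) ≤ sin θ :=
      sin_le_sin_of_le_of_le_pi_div_two (by linarith) (by linarith) h1
    have h4 := sin_bound (x := 37 / 100) (by rw [abs_of_pos (by norm_num)]; norm_num)
    rw [abs_le, abs_of_pos (show (0 : ℝ) < 37 / 100 by norm_num)] at h4
    have h5 := h4.1
    norm_num at h5 ⊢
    linarith
  have hcos : cos θ ≤ (0.932527 : ℝ) := by
    have h3 : cos θ ≤ cos (37 / 100) :=
      cos_le_cos_of_nonneg_of_le_pi (by norm_num) (by linarith) h1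
    have h4 := cos_bound (x := 37 / 100) (by rw [abs_of_pos (by norm_num)]; norm_num)
    rw [abs_le, abs_of_pos (show (0 : ℝ) < 37 / 100 by norm_num)] at h4
    have h5 := h4.2
    norm_num at h5 ⊢
    linarith
  -- bounds for the exponential
  have l62 : (1.8589 : ℝ) ≤ exp (0.62) := rng4_exp_lo _ _ (by norm_num)
    (by norm_num [Finset.sum_range_succ, Nat.factorial])
  have u62 : exp (0.62) ≤ (1.85895 : ℝ) := rng4_exp_hi _ _ (by norm_num) (by norm_num)
    (by norm_num [Finset.sum_range_succ, Nat.factorial])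
  have l65 : (1.9155 : ℝ) ≤ exp (0.65) := rng4_exp_lo _ _ (by norm_num)
    (by norm_num [Finset.sum_range_succ, Nat.factorial])
  have u65 : exp (0.65) ≤ (1.9156 : ℝ) := rng4_exp_hi _ _ (by norm_num) (by norm_num)
    (by norm_num [Finset.sum_range_succ, Nat.factorial])
  have l70 : (2.0137 : ℝ) ≤ exp (0.7) := rng4_exp_lo _ _ (by norm_num)
    (by norm_num [Finset.sum_range_succ, Nat.factorial])
  have u70 : exp (0.7) ≤ (2.0138 : ℝ) := rng4_exp_hi _ _ (by norm_num) (by norm_num)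
    (by norm_num [Finset.sum_range_succ, Nat.factorial])
  have l83 : (2.3024 : ℝ) ≤ exp (0.834) := rng4_exp_lo _ _ (by norm_num)
    (by norm_num [Finset.sum_range_succ, Nat.factorial])
  have u83 : exp (0.834) ≤ (2.3027 : ℝ) := rng4_exp_hi _ _ (by norm_num) (by norm_num)
    (by norm_num [Finset.sum_range_succ, Nat.factorial])
  have hcosh0 : 0 < cosh x := cosh_pos x
  -- the lower bound of `x`
  have hx62 : (0.62 : ℝ) ≤ x := by
    by_contra hlt
    push Not at hlt
    have h3 : tanh I ≤ tanh (x / 2) := rng4_tanh_mono (by linarith)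
    rw [e2, div_le_iff₀ hcosh0] at h3
    set E := exp x with hE
    have hE1 : 1 < E := by rw [hE]; exact one_lt_exp_iff.mpr hx
    have hE2 : E ≤ 1.85895 := by
      rw [hE]
      exact (exp_le_exp.mpr hlt.le).trans u62
    have h4 : tanh (x / 2) = (E - 1) / (E + 1) := by
      rw [tanh_eq_sinh_div_cosh, sinh_eq, cosh_eq, exp_neg]
      have h5 : E = exp (x / 2) * exp (x / 2) := by
        rw [hE, ← exp_add]; congr 1; ring
      have h6 : 0 < exp (x / 2) := exp_pos _
      rw [h5]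
      field_simp
    have h5 : cosh x = (E + E⁻¹) / 2 := by rw [cosh_eq, exp_neg]
    rw [h4, h5] at h3
    have h6 : (E - 1) / (E + 1) * ((E + E⁻¹) / 2) < 0.36058 := by
      have e : (E - 1) / (E + 1) * ((E + E⁻¹) / 2) = (E - 1) * (E ^ 2 + 1) / (2 * E * (E + 1)) := by
        have : E ≠ 0 := by linarith
        have : E + 1 ≠ 0 := by linarith
        field_simp
      rw [e, div_lt_iff₀ (by positivity)]
      nlinarith [mul_nonneg (show 0 ≤ E - 1 by linarith) (show 0 ≤ 1.85895 - E by linarith),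
        mul_nonneg (mul_nonneg (show 0 ≤ E - 1 by linarith) (show 0 ≤ 1.85895 - E by linarith))
          (show 0 ≤ E by linarith)]
    linarith
  have hsx : ∀ {a E : ℝ}, a ≤ x → 0 < E → E ≤ exp a → (E - E⁻¹) / 2 / 0.932527 ≤ tan R ∨ E < 1 := by
    intro a E ha hE hEa
    by_cases hE1 : E < 1
    · exact Or.inr hE1
    · left
      push Not at hE1
      rw [e1]
      have h3 := rng4_sinh_lo hE hEa
      have h4 : sinh a ≤ sinh x := sinh_le_sinh.mpr ha
      have h5 : 0 ≤ (E - E⁻¹) / 2 := by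
        have : E⁻¹ ≤ 1 := inv_le_one_of_one_le₀ hE1
        linarith
      exact div_le_div₀ (by linarith) (by linarith) hcos0 hcos
  have hcx : ∀ {a E : ℝ}, x ≤ a → exp a ≤ E → 0.36058 / ((E + E⁻¹) / 2) ≤ tanh I := by
    intro a E ha hEa
    have ha0 : 0 ≤ a := by linarith
    rw [e2]
    have h3 := rng4_cosh_hi ha0 hEa
    have h4 : cosh x ≤ cosh a := by
      rw [cosh_le_cosh, abs_of_pos hx, abs_of_nonneg ha0]
      exact ha
    exact div_le_div₀ (by linarith) hsin hcosh0 (by linarith)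
  rcases le_or_gt x 0.65 with c1 | c1
  · have a1 := (hsx hx62 (by norm_num) l62).resolve_right (by norm_num)
    have a2 := hcx c1 u65
    refine rng4_piece (x₂ := 0.65) (t₁ := 0.7082) (y₁ := 0.2958) hx c1 h1 hR hR' hI (by norm_num)
      (by norm_num) (le_trans ?_ a1) (by norm_num) (le_trans ?_ a2) ?_ <;> norm_num
  rcases le_or_gt x 0.7 with c2 | c2
  · have a1 := (hsx c1.le (by norm_num) l65).resolve_right (by norm_num)
    have a2 := hcx c2 u70
    refine rng4_piece (x₂ := 0.7) (t₁ := 0.747) (y₁ := 0.287) hx c2 h1 hR hR' hI (by norm_num)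
      (by norm_num) (le_trans ?_ a1) (by norm_num) (le_trans ?_ a2) ?_ <;> norm_num
  rcases le_or_gt x 0.834 with c3 | c3
  · have a1 := (hsx c2.le (by norm_num) l70).resolve_right (by norm_num)
    have a2 := hcx c3 u83
    refine rng4_piece (x₂ := 0.834) (t₁ := 0.81) (y₁ := 0.26) hx c3 h1 hR hR' hI (by norm_num)
      (by norm_num) (le_trans ?_ a1) (by norm_num) (le_trans ?_ a2) ?_ <;> norm_num
  · have a1 := (hsx c3.le (by norm_num) l83).resolve_right (by norm_num)
    have a3 : 1 ≤ tan R := le_trans (by norm_num) a1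
    have a4 : π / 4 ≤ R := by
      have : arctan (tan R) = R := arctan_tan (by linarith) hR'
      rw [← this, ← arctan_one]
      exact arctan_mono a3
    have a5 : 0 < θ * I := mul_pos (by linarith) hI
    nlinarith

end Pool.Agent.S3.E
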