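import Pool.Agent.S3.E.OGeo
import Pool.Agent.S3.E.SlC

/-!
# Stage 3, block E: bounds for the real part of a critical value

Proofs.
* `Vx.aR_lt`: `a R + r₁ + r₂ = π` and `r₁ > 0` (`cosh p₁ sin r₁ = ρ₁ tt sin (al + β₁) > 0`).
* `Vx.R_lt` (`a ≥ 3`).  Suppose `R ≥ 8π/25`.  Then `gg R = cos 2R < 0`, so
  `tt² = (cc - gg)/(cc + gg) ≥ 1` and `sinh² p₁ + sin² r₁ = (ρ₁ tt)² ≥ 1/4` (squares of `e1`, `e2`).
  `r₁ ≤ π - a R ≤ π - 24π/25 = π/25`, `sin r₁ ≤ .1257`, so `sinh p₁ ≥ .483`, `p₁ ≥ .466`.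
  `a R ≤ π` gives `a ≤ 25/8`, so `I ≥ p₁ / a ≥ .149`, `T = sinh 2I / sin 2R ≥ .302 / sin (16π/25)
  ≥ .302/.905` (`2R ∈ [16π/25, π]`), and `r₁ ≥ arctan (T tanh p₁) ≥ arctan (.3337 * .4347) ≥ .143`
  (`Slot.arctan_le`), a contradiction to `r₁ ≤ π/25 ≤ .1257`.
* `Vx.xx_ge` (`a = 3`).  Suppose `x < 9/20`.  `tan R = sinh x / cos θ < .46535/.8577` (`tan_R_eq`,
  `θ ≤ 27/50`), so `R < .4972` and `r₁ + r₂ = π - 3R > 1.65`.  But
  `sin r_j ≤ cosh p_j sin r_j ≤ ρ_j tt ≤ tt`, `tt² = |sinh (x + i θ)|² = sinh² x + sin² θ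
  < .2166 + .2644`, so `sin r_j < .6936`, `r_j < .767`, `r₁ + r₂ < 1.534`.
-/

set_option autoImplicit false

namespace Pool.Agent.S3.E

open Real

private theorem Rng5_sq {R I ρ β p r : ℝ} (hs : Slot R I ρ β p r) :
    sinh p ^ 2 + sin r ^ 2 = (ρ * tt R I) ^ 2 := by
  have e1 := hs.e1
  have e2 := hs.e2
  have h1 : (sinh p * cos r) ^ 2 + (cosh p * sin r) ^ 2 = (ρ * tt R I) ^ 2 := by
    rw [e1, e2]
    have := sin_sq_add_cos_sq (al R I + β)
    linear_combination (ρ * tt R I) ^ 2 * this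
  have h2 := cosh_sq p
  have h3 := sin_sq_add_cos_sq r
  have h4 : (sinh p * cos r) ^ 2 + (cosh p * sin r) ^ 2 = sinh p ^ 2 + sin r ^ 2 := by
    linear_combination sin r ^ 2 * h2 + sinh p ^ 2 * h3
  rw [← h4, h1]

/-- `sinh 0.465 < 0.483`. -/
private theorem Rng5_sinh : sinh (93 / 200) ≤ 483 / 1000 := by
  have h1 : exp (93 / 200 : ℝ) ≤ 1593 / 1000 := by
    refine (Real.exp_bound' (x := 93 / 200) (by norm_num) (by norm_num) (n := 4)
      (by norm_num)).trans ?_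
    simp only [Finset.sum_range_succ, Finset.sum_range_zero, Nat.factorial]
    norm_num
  have h2 : exp (93 / 200 : ℝ) * exp (-(93 / 200 : ℝ)) = 1 := by
    rw [← Real.exp_add]
    simp
  have h3 := Real.exp_pos (93 / 200 : ℝ)
  have h4 : 1000 / 1593 ≤ exp (-(93 / 200 : ℝ)) := by
    rw [div_le_iff₀ (by norm_num)]
    nlinarith [Real.exp_pos (-(93 / 200 : ℝ))]
  rw [Real.sinh_eq]
  linarith

private theorem Rng5_mono_sinh {x y : ℝ} (h : x ≤ y) : sinh x ≤ sinh y := Real.sinh_le_sinh.2 h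

theorem Vx.aR_lt {a R I ρ₁ β₁ p₁ r₁ ρ₂ β₂ p₂ r₂ : ℝ} (h : Vx a R I ρ₁ β₁ p₁ r₁ ρ₂ β₂ p₂ r₂)
    (hρ : 1 / 2 ≤ ρ₁) : a * R < π := by
  have hs := h.sl₁
  have ht := tt_pos (I := I) h.R0 h.R1
  have ha := al_pos h.R0 h.R1 h.I0
  have hsin : 0 < sin (al R I + β₁) :=
    sin_pos_of_pos_of_lt_pi (by linarith [hs.β0]) (by linarith [hs.g1, pi_pos])
  have e2 := hs.e2
  have hr : 0 < r₁ := by
    rcases hs.r0.eq_or_lt with h0 | h0
    · rw [← h0, sin_zero, mul_zero] at e2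
      have : 0 < ρ₁ * tt R I * sin (al R I + β₁) := by
        have : 0 < ρ₁ := by linarith
        positivity
      linarith
    · exact h0
  have h1 := h.hR
  have h2 := h.sl₂.r0
  linarith

theorem Vx.R_lt {a R I ρ₁ β₁ p₁ r₁ ρ₂ β₂ p₂ r₂ : ℝ} (h : Vx a R I ρ₁ β₁ p₁ r₁ ρ₂ β₂ p₂ r₂)
    (ha : 3 ≤ a) (hρ : 1 / 2 ≤ ρ₁) : R < 8 / 25 * π := by
  by_contra hc
  rw [not_lt] at hc
  have h0 := h.R0
  have h1 := h.R1
  have hI := h.I0
  have hs := h.sl₁
  have hpi := Real.pi_pos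
  have hpi2 := Real.pi_lt_d4
  have haR := h.aR_lt hρ
  have e1 : 3 * R ≤ a * R := mul_le_mul_of_nonneg_right ha h0.le
  -- `tt² ≥ 1`
  have hg : gg R ≤ 0 := by
    unfold gg
    exact cos_nonpos_of_pi_div_two_le_of_le (by linarith) (by linarith)
  have hk := k2_pos (I := I) h0 h1
  have ht : 1 ≤ tt R I ^ 2 := by
    rw [tt_sq h0 h1, le_div_iff₀ hk, one_mul]
    unfold k2 s2
    linarith
  have hm : 1 / 4 ≤ (ρ₁ * tt R I) ^ 2 := by
    have h2 : 1 / 4 ≤ ρ₁ ^ 2 := by nlinarith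
    rw [mul_pow]
    nlinarith [sq_nonneg ρ₁]
  have hsq := Rng5_sq hs
  -- `r₁ ≤ π / 25`
  have hr : r₁ ≤ π / 25 := by
    have h2 := h.hR
    have h3 := h.sl₂.r0
    linarith
  have hr0 := hs.r0
  have hr2 : r₁ ≤ 12567 / 100000 := by linarith
  have hsr : sin r₁ ≤ r₁ := sin_le hr0
  have hsr0 : 0 ≤ sin r₁ := sin_nonneg_of_nonneg_of_le_pi hr0 (by linarith)
  have hsr2 : sin r₁ ^ 2 ≤ 158 / 10000 := by nlinarith
  have hsp : 2342 / 10000 ≤ sinh p₁ ^ 2 := by linarith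
  have hp0 := hs.p0
  have hsp0 : 0 ≤ sinh p₁ := sinh_nonneg_iff.2 hp0
  have hsp1 : 4839 / 10000 ≤ sinh p₁ := by
    by_contra h2
    push Not at h2
    nlinarith
  have hp : 93 / 200 ≤ p₁ := by
    by_contra h2
    push Not at h2
    have h3 := Rng5_mono_sinh h2.le
    have h4 := Rng5_sinh
    linarith
  -- `I ≥ p₁ / a`
  have ha2 : a ≤ 25 / 8 := by
    by_contra h2
    push Not at h2
    have h3 : 25 / 8 * (8 / 25 * π) ≤ a * R :=
      mul_le_mul h2.le hc (by positivity) (by linarith)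
    linarith
  have hI2 : 1488 / 10000 ≤ I := by
    have h2 := h.hI
    have h3 := h.sl₂.p0
    have h4 : a * I ≤ 25 / 8 * I := mul_le_mul_of_nonneg_right ha2 hI.le
    linarith
  -- `tan α ≥ sinh 2I`
  have hT : 2976 / 10000 ≤ tan (al R I) := by
    rw [tan_al]
    have h2 := sin_two_pos h0 h1
    rw [le_div_iff₀ h2]
    have h3 := sin_le_one (2 * R)
    have h4 : 2 * I ≤ sinh (2 * I) := self_le_sinh_iff.2 (by linarith)
    nlinarith
  have htp : 435 / 1000 ≤ tanh p₁ := by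
    rw [tanh_eq_sinh_div_cosh, le_div_iff₀ (cosh_pos _)]
    have h2 := cosh_sq p₁
    by_contra h3
    push Not at h3
    have h4 := cosh_pos p₁
    nlinarith
  have hy : 1294 / 10000 ≤ tan (al R I) * tanh p₁ := by nlinarith
  have har := hs.arctan_le h0 h1 hI
  have hcos : 0 < cos r₁ := cos_pos_of_mem_Ioo ⟨by linarith, by linarith [Real.pi_gt_three]⟩
  have h5 : tan (al R I) * tanh p₁ ≤ tan r₁ := by
    have h6 : arctan (tan (al R I) * tanh p₁) ≤ arctan (tan r₁) := by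
      rw [arctan_tan (by linarith) (by linarith [Real.pi_gt_three])]
      exact har
    exact arctan_strictMono.le_iff_le.1 h6
  have h7 : tan r₁ ≤ 1267 / 10000 := by
    rw [tan_eq_sin_div_cos, div_le_iff₀ hcos]
    have h8 := one_sub_sq_div_two_le_cos (x := r₁)
    nlinarith
  linarith

theorem Vx.xx_ge {R I ρ₁ β₁ p₁ r₁ ρ₂ β₂ p₂ r₂ : ℝ} (h : Vx 3 R I ρ₁ β₁ p₁ r₁ ρ₂ β₂ p₂ r₂)
    (h₁ : ρ₁ ≤ 1) (h₂ : ρ₂ ≤ 1) (hθ : th R I ≤ 27 / 50) : 9 / 20 ≤ xx R I := by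
  by_contra hc
  rw [not_le] at hc
  have h0 := h.R0
  have h1 := h.R1
  have hI := h.I0
  have hx := xx_pos h0 h1 hI
  have hθ0 := th_pos h0 h1 hI
  have hθ1 := th_lt h0 h1 hI
  have hpi := Real.pi_gt_three
  -- `sinh² x ≤ 0.2245`
  have hsx : sinh (xx R I) ^ 2 ≤ 2245 / 10000 := by
    have h2 := cosh_sq (xx R I)
    have h3 : cosh (xx R I) ^ 2 ≤ exp (xx R I ^ 2) := by
      have h4 := Real.cosh_le_exp_half_sq (xx R I)
      have h5 : exp (xx R I ^ 2) = exp (xx R I ^ 2 / 2) ^ 2 := by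
        rw [← Real.exp_nat_mul]
        congr 1
        push_cast
        ring
      rw [h5]
      exact pow_le_pow_left₀ (cosh_pos _).le h4 2
    have h6 : exp (xx R I ^ 2) ≤ exp (81 / 400) := by
      apply Real.exp_le_exp.2
      nlinarith
    have h7 : exp (81 / 400 : ℝ) ≤ 12245 / 10000 := by
      refine (Real.exp_bound' (x := 81 / 400) (by norm_num) (by norm_num) (n := 5)
        (by norm_num)).trans ?_
      simp only [Finset.sum_range_succ, Finset.sum_range_zero, Nat.factorial]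
      norm_num
    linarith
  -- `sin² θ ≤ 0.2686`
  have hsθ : sin (th R I) ^ 2 ≤ 2686 / 10000 := by
    have h2 : sin (th R I) ≤ sin (27 / 50) :=
      sin_le_sin_of_le_of_le_pi_div_two (by linarith) (by linarith) hθ
    have h3 : sin (27 / 50) ≤ 51819 / 100000 := by
      have h4 := Real.sin_bound (x := 27 / 50) (by rw [abs_of_pos] <;> norm_num)
      have h5 := (abs_le.1 h4).2
      rw [abs_of_pos (by norm_num : (0 : ℝ) < 27 / 50)] at h5
      linarith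
    have h6 : 0 ≤ sin (th R I) := sin_nonneg_of_nonneg_of_le_pi hθ0.le (by linarith)
    nlinarith
  have hcθ : 7314 / 10000 ≤ cos (th R I) ^ 2 := by
    have := sin_sq_add_cos_sq (th R I)
    linarith
  have hcθ0 : 0 < cos (th R I) := cos_pos_of_mem_Ioo ⟨by linarith, hθ1⟩
  -- `R < π / 6`
  have hR : R < π / 6 := by
    by_contra h2
    push Not at h2
    have h3 : tan (π / 6) ≤ tan R := by
      rcases h2.eq_or_lt with h4 | h4
      · rw [h4]
      · exact (tan_lt_tan_of_lt_of_lt_pi_div_two (by linarith) h1 h4).le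
    rw [tan_R_eq h0 h1 hI, tan_pi_div_six, div_le_div_iff₀ (by positivity) hcθ0] at h3
    have h5 : √3 ^ 2 = 3 := Real.sq_sqrt (by norm_num)
    have h6 : 0 ≤ sinh (xx R I) := sinh_nonneg_iff.2 hx.le
    have h7 : (1 * cos (th R I)) ^ 2 ≤ (sinh (xx R I) * √3) ^ 2 :=
      pow_le_pow_left₀ (by linarith) h3 2
    rw [mul_pow, mul_pow, h5] at h7
    linarith
  -- `tt² < 1 / 2`
  have htt : tt R I ^ 2 < 1 / 2 := by
    have e1 := cosh_two_xx h0 h1 hI
    have e2 := cos_two_th h0 h1 hI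
    have hk := k2_pos (I := I) h0 h1
    rw [tt_sq h0 h1]
    have e3 : s2 R I / k2 R I = (cosh (2 * xx R I) - cos (2 * th R I)) / 2 := by
      rw [e1, e2]
      field_simp
      ring
    rw [e3, Real.cosh_two_mul, Real.cosh_sq, Real.cos_two_mul, Real.cos_sq']
    linarith
  have hbig : ∀ {ρ β p r : ℝ}, Slot R I ρ β p r → ρ ≤ 1 → r < π / 4 := by
    intro ρ β p r hs hρ
    by_contra h2
    push Not at h2
    have h3 := Rng5_sq hs
    have h4 : √2 / 2 ≤ sin r := by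
      rw [← sin_pi_div_four]
      exact sin_le_sin_of_le_of_le_pi_div_two (by linarith) hs.r1 h2
    have h5 : √2 ^ 2 = 2 := Real.sq_sqrt (by norm_num)
    have h6 : 1 / 2 ≤ sin r ^ 2 := by
      have h7 : (√2 / 2) ^ 2 ≤ sin r ^ 2 := pow_le_pow_left₀ (by positivity) h4 2
      rw [div_pow, h5] at h7
      linarith
    have h8 : (ρ * tt R I) ^ 2 ≤ tt R I ^ 2 := by
      rw [mul_pow]
      have h9 : ρ ^ 2 ≤ 1 := pow_le_one₀ hs.ρ0 hρ
      nlinarith [sq_nonneg (tt R I)]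
    have h10 := sq_nonneg (sinh p)
    linarith
  have b1 := hbig h.sl₁ h₁
  have b2 := hbig h.sl₂ h₂
  have b3 := h.hR
  linarith

end Pool.Agent.S3.E
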