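import Pool.Agent.S3.E.GeoC
import Pool.Agent.S3.E.OGeo

/-!
# Stage 3, block E: the angle of an inner vertex with three twists is at least `49 / 200`

Suppose `θ = th R I < 49/200`; put `S = sinh x`, `C = cosh x`, `h = S / C`, `τ = tan θ`.
`tan R = S / cos θ`, `tanh I = sin θ / C`, `tan al = τ / h`, `tan φ = h τ`, `tt cos al = S cos θ`,
`tt sin al = C sin θ`.  `r_j ≤ t_j p_j` if `al + β_j ≤ arctan t_j`; `al + β₂ ≤ π/4 + al - φ/2`, and
`al - φ/2 = arctan (τ/h) - arctan (h τ) / 2` increases with `τ` and decreases with `h`.  On a piece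
`S₁ ≤ S ≤ S₂`: `π = 3 R + r₁ + r₂ ≤ 3 R + t₁ p₁ + t₂ (3 I - p₁)` with `p₁ ≥ P₁`; pieces
`[.61, .68]`, `[.68, .77]`, `[.77, .86]`, `[.86, .93]`.  `S < .61`: `r_j ≤ arctan (.8776)`.
`S ≥ .93`: `p₁ + p₂ > 3 I`.
-/

set_option autoImplicit false

namespace Pool.Agent.S3.E

open Real

private theorem Rng7_sin {θ : ℝ} (h0 : 0 < θ) (h1 : θ < 49 / 200) :
    sin θ ≤ 24274 / 100000 ∧ 96998 / 100000 ≤ cos θ := by
  have hpi := Real.pi_gt_three
  have a : |(49 / 200 : ℝ)| ≤ 1 := by rw [abs_of_pos (by norm_num)]; norm_num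
  have hs := (abs_le.1 (Real.sin_bound a)).2
  have hc := Real.one_sub_sq_div_two_le_cos (x := θ)
  rw [abs_of_pos (by norm_num : (0 : ℝ) < 49 / 200)] at hs
  have h2 : sin θ ≤ sin (49 / 200) :=
    sin_le_sin_of_le_of_le_pi_div_two (by linarith) (by linarith) h1.le
  norm_num at hs
  constructor
  · linarith
  · nlinarith only [h0, h1, hc]

private theorem Rng7_beta {β : ℝ} (h0 : 0 ≤ β) (h : β ≤ 47 / 100) :
    891 / 1000 ≤ cos β ∧ sin β ≤ 4533 / 10000 := by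
  have hpi := Real.pi_gt_three
  have a : |(235 / 1000 : ℝ)| ≤ 1 := by rw [abs_of_pos (by norm_num)]; norm_num
  have hs := (abs_le.1 (Real.sin_bound a)).2
  have hc := Real.one_sub_sq_div_two_le_cos (x := 235 / 1000)
  have hc' := (abs_le.1 (Real.cos_bound a)).2
  rw [abs_of_pos (by norm_num : (0 : ℝ) < 235 / 1000)] at hs hc'
  have h1 : sin β ≤ sin (47 / 100) := sin_le_sin_of_le_of_le_pi_div_two (by linarith) (by linarith) h
  have h2 : cos (47 / 100) ≤ cos β := cos_le_cos_of_nonneg_of_le_pi h0 (by linarith) h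
  have h3 : cos (47 / 100 : ℝ) = 2 * cos (235 / 1000) ^ 2 - 1 := by
    rw [← cos_two_mul]
    norm_num
  have h4 : sin (47 / 100 : ℝ) = 2 * sin (235 / 1000) * cos (235 / 1000) := by
    rw [← sin_two_mul]
    norm_num
  norm_num at hs hc hc'
  have h5 : 0 ≤ sin (235 / 1000 : ℝ) := sin_nonneg_of_nonneg_of_le_pi (by norm_num) (by linarith)
  have h6 : 0 ≤ cos (235 / 1000 : ℝ) := by linarith
  constructor
  · rw [h3] at h2
    nlinarith only [h2, hc]
  · rw [h4] at h1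
    refine h1.trans ?_
    have h7 : sin (235 / 1000 : ℝ) * cos (235 / 1000) ≤ (232998 / 1000000) * (972548 / 1000000) :=
      mul_le_mul (by linarith) (by linarith) h6 (by norm_num)
    norm_num at h7 ⊢
    linarith

/-- `w - w³/3 ≤ arctan w` -/
private theorem Rng7_arctan {w : ℝ} (h : 0 ≤ w) : w - w ^ 3 / 3 ≤ arctan w := by
  have hm : MonotoneOn (fun y : ℝ => arctan y - (y - y ^ 3 / 3)) (Set.Ici 0) := by
    refine monotoneOn_of_deriv_nonneg (convex_Ici 0) (by fun_prop)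
      (Real.differentiable_arctan.sub (by fun_prop)).differentiableOn fun y hy => ?_
    have hd : HasDerivAt (fun y : ℝ => arctan y - (y - y ^ 3 / 3))
        (1 / (1 + y ^ 2) - (1 - 3 * y ^ 2 / 3)) y := by
      refine (Real.hasDerivAt_arctan y).sub ((hasDerivAt_id y).sub ?_)
      have := (hasDerivAt_pow 3 y).div_const 3
      simpa using this
    rw [hd.deriv]
    have h1 : 1 / (1 + y ^ 2) - (1 - 3 * y ^ 2 / 3) = y ^ 4 / (1 + y ^ 2) := by
      field_simp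
      ring
    rw [h1]
    positivity
  have h2 := hm (Set.mem_Ici.2 le_rfl) (Set.mem_Ici.2 h) h
  simp only [Real.arctan_zero] at h2
  linarith

/-- `sinh y ≤ y cosh y` -/
private theorem Rng7_sc {y : ℝ} (h : 0 ≤ y) : sinh y ≤ y * cosh y := by
  have hm : MonotoneOn (fun y : ℝ => y * cosh y - sinh y) (Set.Ici 0) := by
    refine monotoneOn_of_deriv_nonneg (convex_Ici 0) (by fun_prop) (by fun_prop) fun y hy => ?_
    have hd : HasDerivAt (fun y : ℝ => y * cosh y - sinh y)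
        ((1 * cosh y + y * sinh y) - cosh y) y :=
      ((hasDerivAt_id y).mul (Real.hasDerivAt_cosh y)).sub (Real.hasDerivAt_sinh y)
    rw [hd.deriv]
    rw [interior_Ici, Set.mem_Ioi] at hy
    have := mul_nonneg hy.le (sinh_nonneg_iff.2 hy.le)
    linarith
  have h2 := hm (Set.mem_Ici.2 le_rfl) (Set.mem_Ici.2 h) h
  simp only [Real.sinh_zero, zero_mul] at h2
  linarith

/-- `tanh y ≥ y - y³/3` -/
private theorem Rng7_tanh {y : ℝ} (h : 0 ≤ y) : y - y ^ 3 / 3 ≤ tanh y := by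
  have hm : MonotoneOn (fun y : ℝ => sinh y - (y - y ^ 3 / 3) * cosh y) (Set.Ici 0) := by
    refine monotoneOn_of_deriv_nonneg (convex_Ici 0) (by fun_prop) (by fun_prop) fun y hy => ?_
    have h0 : HasDerivAt (fun y : ℝ => y - y ^ 3 / 3) (1 - 3 * y ^ 2 / 3) y := by
      refine (hasDerivAt_id y).sub ?_
      have := (hasDerivAt_pow 3 y).div_const 3
      simpa using this
    have hd : HasDerivAt (fun y : ℝ => sinh y - (y - y ^ 3 / 3) * cosh y)
        (cosh y - ((1 - 3 * y ^ 2 / 3) * cosh y + (y - y ^ 3 / 3) * sinh y)) y :=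
      (Real.hasDerivAt_sinh y).sub (h0.mul (Real.hasDerivAt_cosh y))
    rw [hd.deriv]
    rw [interior_Ici, Set.mem_Ioi] at hy
    have h1 := Rng7_sc hy.le
    have h2 := sinh_nonneg_iff.2 hy.le
    have h3 := mul_nonneg (mul_nonneg hy.le (sub_nonneg.2 h1)) zero_le_one
    have h4 := mul_nonneg (pow_nonneg hy.le 3) h2
    linarith only [h3, h4]
  have h2 := hm (Set.mem_Ici.2 le_rfl) (Set.mem_Ici.2 h) h
  simp only [Real.sinh_zero] at h2
  rw [tanh_eq_sinh_div_cosh, le_div_iff₀ (cosh_pos y)]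
  linarith

/-- `sinh y ≤ y + .1812 y³` for small `y` -/
private theorem Rng7_sinh {y : ℝ} (h : 0 ≤ y) (h1 : y ≤ 2 / 5) :
    sinh y ≤ y + 1812 / 10000 * y ^ 3 := by
  have hm : MonotoneOn (fun y : ℝ => y + 1812 / 10000 * y ^ 3 - sinh y) (Set.Icc 0 (2 / 5)) := by
    refine monotoneOn_of_deriv_nonneg (convex_Icc 0 (2 / 5)) (by fun_prop) (by fun_prop) fun y hy => ?_
    have hd : HasDerivAt (fun y : ℝ => y + 1812 / 10000 * y ^ 3 - sinh y)
        (1 + 1812 / 10000 * (3 * y ^ 2) - cosh y) y := by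
      refine ((hasDerivAt_id y).add ?_).sub (Real.hasDerivAt_sinh y)
      have := (hasDerivAt_pow 3 y).const_mul (1812 / 10000 : ℝ)
      simpa using this
    rw [hd.deriv]
    rw [interior_Icc, Set.mem_Ioo] at hy
    obtain ⟨hy0, hy1⟩ := hy
    have h2 := Real.cosh_le_exp_half_sq y
    have h3 : 1 - y ^ 2 / 2 ≤ exp (-(y ^ 2 / 2)) := Real.one_sub_le_exp_neg _
    have h4 : exp (y ^ 2 / 2) * exp (-(y ^ 2 / 2)) = 1 := by rw [← Real.exp_add]; simp
    have h5 : y ^ 2 < 16 / 100 := by nlinarith only [hy0, hy1]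
    have h6 : exp (y ^ 2 / 2) * (1 - y ^ 2 / 2) ≤ 1 := by
      exact (mul_le_mul_of_nonneg_left h3 (Real.exp_pos _).le).trans h4.le
    have h7 : 1 ≤ (1 + 1812 / 10000 * (3 * y ^ 2)) * (1 - y ^ 2 / 2) := by nlinarith only [h5]
    have h8 : (0 : ℝ) < 1 - y ^ 2 / 2 := by linarith
    have h9 : exp (y ^ 2 / 2) ≤ 1 + 1812 / 10000 * (3 * y ^ 2) :=
      le_of_mul_le_mul_right (h6.trans h7) h8
    linarith
  have h2 := hm (Set.mem_Icc.2 ⟨le_rfl, by norm_num⟩) (Set.mem_Icc.2 ⟨h, h1⟩) h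
  simp only [Real.sinh_zero] at h2
  linarith

private theorem Rng7_arctan_le {y w : ℝ} (hy : y * (1 + w) ≤ 1 - w) (hw : 0 ≤ w) (hw1 : w ≤ 1) :
    arctan y ≤ π / 4 - (w - w ^ 3 / 3) := by
  have h1 : w * ((1 - w) / (1 + w)) < 1 := by
    rw [mul_div_assoc', div_lt_one (by linarith)]
    nlinarith only [hw]
  have h2 := Real.arctan_add h1
  have h3 : (w + (1 - w) / (1 + w)) / (1 - w * ((1 - w) / (1 + w))) = 1 := by
    have : (0 : ℝ) < 1 + w := by linarith
    rw [div_eq_one_iff_eq (by linarith)]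
    field_simp
    ring
  rw [h3, Real.arctan_one] at h2
  have h4 : arctan y ≤ arctan ((1 - w) / (1 + w)) := by
    refine Real.arctan_strictMono.monotone ?_
    rw [le_div_iff₀ (by linarith)]
    exact hy
  have h5 := Rng7_arctan hw
  linarith

private theorem Rng7_tanh_le {y : ℝ} (h : 0 ≤ y) : tanh y ≤ y := by
  rw [tanh_eq_sinh_div_cosh, div_le_iff₀ (cosh_pos y)]
  exact Rng7_sc h

private theorem Rng7_tanh_mono {x y : ℝ} (h : x ≤ y) : tanh x ≤ tanh y := by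
  rw [tanh_eq_sinh_div_cosh, tanh_eq_sinh_div_cosh, div_le_div_iff₀ (cosh_pos x) (cosh_pos y)]
  have h1 : 0 ≤ sinh (y - x) := sinh_nonneg_iff.2 (by linarith)
  rw [sinh_sub] at h1
  linarith

/-- `r ≤ t p` if `al + β ≤ arctan t` -/
private theorem Rng7_slot_r {R I ρ β p r t : ℝ} (hs : Slot R I ρ β p r) (h0 : 0 < R)
    (h1 : R < π / 2) (hI : 0 < I) (hρ : 0 < ρ) (ht : al R I + β ≤ arctan t) : r ≤ t * p := by
  have hal := al_pos h0 h1 hI
  have hβ := hs.β0
  have hlt : al R I + β < π / 2 := lt_of_le_of_lt ht (Real.arctan_lt_pi_div_two t)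
  have hcg : 0 < cos (al R I + β) := Real.cos_pos_of_mem_Ioo ⟨by linarith, hlt⟩
  have htt := tt_pos (I := I) h0 h1
  have he1 := hs.e1
  have he2 := hs.e2
  have hpos : 0 < ρ * tt R I * cos (al R I + β) := by positivity
  have hcr0 : 0 ≤ cos r := Real.cos_nonneg_of_mem_Icc ⟨by linarith [hs.r0], hs.r1⟩
  have hcr : 0 < cos r := by
    rcases eq_or_lt_of_le hcr0 with h | h
    · rw [← h, mul_zero] at he1
      linarith
    · exact h
  have hr : r < π / 2 := by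
    rcases eq_or_lt_of_le hs.r1 with h | h
    · rw [h, Real.cos_pi_div_two] at hcr
      exact absurd hcr (lt_irrefl _)
    · exact h
  have htan : tan r = tan (al R I + β) * tanh p := by
    rw [Real.tan_eq_sin_div_cos, Real.tan_eq_sin_div_cos, Real.tanh_eq_sinh_div_cosh,
      div_mul_div_comm, div_eq_div_iff hcr.ne' (mul_pos hcg (cosh_pos p)).ne']
    have hq : ρ * tt R I ≠ 0 := (mul_pos hρ htt).ne'
    refine mul_left_cancel₀ hq ?_
    linear_combination (ρ * tt R I * cos (al R I + β)) * he2 -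
      (ρ * tt R I * sin (al R I + β)) * he1
  have htg : tan (al R I + β) ≤ t := by
    have h2 : al R I + β = arctan (tan (al R I + β)) :=
      (Real.arctan_tan (by linarith) hlt).symm
    rw [h2] at ht
    exact Real.arctan_strictMono.le_iff_le.1 ht
  have htg0 : 0 ≤ tan (al R I + β) := Real.tan_nonneg_of_nonneg_of_le_pi_div_two (by linarith) hlt.le
  have hth0 : 0 ≤ tanh p := by
    rw [Real.tanh_eq_sinh_div_cosh]
    exact div_nonneg (sinh_nonneg_iff.2 hs.p0) (cosh_pos p).le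
  calc r ≤ tan r := Real.le_tan hs.r0 hr
    _ = tan (al R I + β) * tanh p := htan
    _ ≤ t * p := mul_le_mul htg (Rng7_tanh_le hs.p0) hth0 (htg0.trans htg)

/-- `sinh p ≥ ρ tt cos (al + β)` -/
private theorem Rng7_slot_p {R I ρ β p r : ℝ} (hs : Slot R I ρ β p r) :
    ρ * tt R I * cos (al R I + β) ≤ sinh p := by
  rw [← hs.e1]
  exact mul_le_of_le_one_right (sinh_nonneg_iff.2 hs.p0) (Real.cos_le_one r)

/-- `P ≤ p` from `P + .1812 P³ ≤ sinh p` -/
private theorem Rng7_P {p P : ℝ} (hP : 0 ≤ P) (hP1 : P ≤ 2 / 5)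
    (h : P + 1812 / 10000 * P ^ 3 ≤ sinh p) : P ≤ p :=
  Real.sinh_le_sinh.1 ((Rng7_sinh hP hP1).trans h)

private structure F7 (R I S C s c : ℝ) : Prop where
  hR0 : 0 < R
  hR1 : R < π / 2
  hI0 : 0 < I
  hS : 0 < S
  hC : 0 < C
  hCS : C ^ 2 = 1 + S ^ 2
  hs : 0 < s
  hs' : s ≤ 24274 / 100000
  hc : 96998 / 100000 ≤ c
  hsc : s ^ 2 + c ^ 2 = 1
  hR : R = arctan (S / c)
  hI : tanh I = s / C
  hal : al R I = arctan (s * C / (c * S))
  hph : ph R I = arctan (S * s / (C * c))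
  e1 : tt R I * cos (al R I) = S * c
  e2 : tt R I * sin (al R I) = C * s

private theorem Rng7_facts {R I : ℝ} (h0 : 0 < R) (h1 : R < π / 2) (hI : 0 < I)
    (hθ : th R I < 49 / 200) :
    F7 R I (sinh (xx R I)) (cosh (xx R I)) (sin (th R I)) (cos (th R I)) := by
  have hx := xx_pos h0 h1 hI
  have ht := th_pos h0 h1 hI
  have ht' := th_lt h0 h1 hI
  obtain ⟨a1, a2⟩ := Rng7_sin ht hθ
  have hS := sinh_pos_iff.2 hx
  have hC := cosh_pos (xx R I)
  have hc : 0 < cos (th R I) := by linarith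
  have hz := sinh_u (z := ⟨R, I⟩) h0 h1 hI
  have hz2 := tan_polar (z := ⟨R, I⟩) h0 h1
  rw [hz2] at hz
  have e1 : Complex.sinh ((xx R I : ℂ) + (th R I : ℂ) * Complex.I) =
      ((sinh (xx R I) * cos (th R I) : ℝ) : ℂ) + ((cosh (xx R I) * sin (th R I) : ℝ) : ℂ) * Complex.I := by
    rw [Complex.sinh_add, Complex.cosh_mul_I, Complex.sinh_mul_I]
    push_cast
    ring
  have e2 : (tt R I : ℂ) * Complex.exp (((al R I : ℝ) : ℂ) * Complex.I) =
      ((tt R I * cos (al R I) : ℝ) : ℂ) + ((tt R I * sin (al R I) : ℝ) : ℂ) * Complex.I := by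
    rw [Complex.exp_mul_I, ← Complex.ofReal_cos, ← Complex.ofReal_sin]
    push_cast
    ring
  have hz' : ((sinh (xx R I) * cos (th R I) : ℝ) : ℂ) +
      ((cosh (xx R I) * sin (th R I) : ℝ) : ℂ) * Complex.I =
      ((tt R I * cos (al R I) : ℝ) : ℂ) + ((tt R I * sin (al R I) : ℝ) : ℂ) * Complex.I := by
    rw [← e1, ← e2]
    exact hz
  have r1 := congrArg Complex.re hz'
  have r2 := congrArg Complex.im hz'
  simp only [Complex.add_re, Complex.add_im, Complex.ofReal_re, Complex.ofReal_im,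
    Complex.re_ofReal_mul, Complex.im_ofReal_mul, Complex.I_re, Complex.I_im, mul_zero, mul_one,
    add_zero, zero_add] at r1 r2
  have htR := tan_R_eq h0 h1 hI
  refine ⟨h0, h1, hI, hS, hC, ?_, sin_pos_of_pos_of_lt_pi ht (by linarith [Real.pi_pos]), a1, a2,
    Real.sin_sq_add_cos_sq _, ?_, tanh_I_eq h0 h1 hI, ?_, ?_, r1.symm, r2.symm⟩
  · rw [Real.cosh_sq]
    ring
  · rw [← htR, Real.arctan_tan (by linarith) h1]
  · have h2 := tan_al_eq h0 h1 hI
    rw [Real.tanh_eq_sinh_div_cosh, Real.tan_eq_sin_div_cos (th R I)] at h2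
    have h3 : tan (al R I) = sin (th R I) * cosh (xx R I) / (cos (th R I) * sinh (xx R I)) := by
      rw [eq_div_iff (mul_pos hc hS).ne']
      field_simp at h2
      linarith
    rw [← h3, Real.arctan_tan (by linarith [al_pos h0 h1 hI]) (al_lt R I)]
  · have h2 := tan_ph_eq h0 h1 hI
    rw [Real.tanh_eq_sinh_div_cosh, Real.tan_eq_sin_div_cos (th R I), div_mul_div_comm] at h2
    rw [← h2, Real.arctan_tan (by linarith [ph_pos h0 h1 hI]) (ph_lt R I)]

/-- `arctan x + arctan y ≤ arctan z` -/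
private theorem Rng7_add {x y z : ℝ} (hxy : x * y < 1) (h : x + y ≤ z * (1 - x * y)) :
    arctan x + arctan y ≤ arctan z := by
  rw [Real.arctan_add hxy]
  refine Real.arctan_strictMono.monotone ?_
  rw [div_le_iff₀ (by linarith)]
  exact h

/-- `al - φ / 2` increases with `τ` -/
private theorem Rng7_mono {h τ T : ℝ} (h0 : 0 < h) (h1 : h ≤ 1) (hτ : 0 ≤ τ) (hT : τ ≤ T) (hT1 : T ≤ 1) :
    arctan (τ / h) - arctan (h * τ) / 2 ≤ arctan (T / h) - arctan (h * T) / 2 := by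
  have hT0 : 0 ≤ T := hτ.trans hT
  have hd : 0 ≤ T - τ := sub_nonneg.2 hT
  have e1 : arctan (τ / h) + arctan (h * (T - τ) / (h ^ 2 + T * τ)) = arctan (T / h) := by
    have hp : 0 < h ^ 2 + T * τ := by positivity
    have h2 : τ / h * (h * (T - τ) / (h ^ 2 + T * τ)) < 1 := by
      rw [div_mul_div_comm, div_lt_one (by positivity)]
      linarith only [mul_nonneg h0.le (sq_nonneg τ), pow_pos h0 3]
    rw [Real.arctan_add h2]
    congr 1
    have h3 : 0 < 1 - τ / h * (h * (T - τ) / (h ^ 2 + T * τ)) := by linarith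
    rw [div_eq_div_iff h3.ne' h0.ne']
    field_simp
    ring
  have e2 : arctan (h * τ) + arctan (h * (T - τ) / (1 + h ^ 2 * (T * τ))) = arctan (h * T) := by
    have hp : 0 < 1 + h ^ 2 * (T * τ) := by positivity
    have h2 : h * τ * (h * (T - τ) / (1 + h ^ 2 * (T * τ))) < 1 := by
      rw [mul_div_assoc', div_lt_one hp]
      linarith only [mul_nonneg (sq_nonneg h) (sq_nonneg τ)]
    rw [Real.arctan_add h2]
    congr 1
    have h3 : 0 < 1 - h * τ * (h * (T - τ) / (1 + h ^ 2 * (T * τ))) := by linarith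
    rw [div_eq_iff h3.ne']
    field_simp
    ring
  have hTτ : T * τ ≤ 1 := by nlinarith only [hτ, hT, hT1]
  have h4 : arctan (h * (T - τ) / (1 + h ^ 2 * (T * τ))) ≤ arctan (h * (T - τ) / (h ^ 2 + T * τ)) := by
    refine Real.arctan_strictMono.monotone ?_
    refine div_le_div_of_nonneg_left (mul_nonneg h0.le hd) (by positivity) ?_
    have h5 : 0 ≤ (1 - h ^ 2) * (1 - T * τ) := mul_nonneg (by nlinarith only [h0, h1]) (by linarith)
    linarith only [h5]
  have h6 : 0 ≤ arctan (h * (T - τ) / (1 + h ^ 2 * (T * τ))) := by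
    rw [Real.arctan_nonneg]
    positivity
  linarith

/-- the bounds for `S₁ ≤ S` -/
private theorem Rng7_low {R I ρ₁ β₁ p₁ r₁ ρ₂ β₂ p₂ r₂ S C s c : ℝ} (hf : F7 R I S C s c)
    (h : Vx 3 R I ρ₁ β₁ p₁ r₁ ρ₂ β₂ p₂ r₂)
    (h1 : 53 / 100 ≤ ρ₁) (h2 : β₁ ≤ 47 / 100) (h4 : β₂ ≤ π / 4 - ph R I / 2)
    {S₁ K L A B D t₁ t₂ P₁ J : ℝ} (hS₁ : 0 < S₁) (hS : S₁ ≤ S) (hK : 0 < K) (hK2 : 1 + S₁ ^ 2 ≤ K ^ 2)
    (hL : 0 < L) (hL2 : L ^ 2 ≤ 1 + S₁ ^ 2)
    (hA : 24274 * K ≤ 96998 * (A * S₁)) (hB0 : 0 ≤ B) (hB1 : B < 1)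
    (hB : 96998 * (2 * B) * K ≤ 24274 * S₁ * (1 - B ^ 2)) (hBD : B * D < 1)
    (hD : A ≤ B + D + A * (B * D)) (hD0 : 0 ≤ D) (hD1 : D < 1) (ht₂ : 1 + D ≤ t₂ * (1 - D))
    (hAm : A * (5088 / 10000) < 1) (ht₁ : A + 5088 / 10000 ≤ t₁ * (1 - A * (5088 / 10000)))
    (hP0 : 0 ≤ P₁) (hP2 : P₁ ≤ 2 / 5)
    (hP : P₁ + 1812 / 10000 * P₁ ^ 3 ≤ 53 / 100 * (S₁ * (96998 / 100000 * (891 / 1000)) -
      K * (24274 / 100000 * (4533 / 10000))))
    (hJ0 : 0 ≤ J) (hJ : 24274 / 100000 ≤ (J - J ^ 3 / 3) * L) :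
    al R I + β₁ ≤ arctan t₁ ∧ al R I + β₂ ≤ arctan t₂ ∧ P₁ ≤ p₁ ∧ I ≤ J := by
  obtain ⟨hR0, hR1, hI0, hS0, hC0, hCS, hs0, hs1, hc1, hsc, hR, hI, hal, hph, e1, e2⟩ := hf
  have hc0 : 0 < c := by linarith
  have hc2 : c ≤ 1 := by nlinarith only [hsc]
  have hSC : S ≤ C := by nlinarith only [hC0, hCS]
  have hh0 : 0 < S / C := div_pos hS0 hC0
  have hh1 : S / C ≤ 1 := (div_le_one hC0).2 hSC
  have hτ0 : 0 ≤ s / c := (div_pos hs0 hc0).le
  have hτT : s / c ≤ 24274 / 96998 := by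
    rw [div_le_div_iff₀ hc0 (by norm_num)]
    linarith
  -- `S₁ / K ≤ S / C`
  have hKS : S₁ * C ≤ S * K := by
    have h5 : (S₁ * C) ^ 2 ≤ (S * K) ^ 2 := by
      rw [mul_pow, mul_pow, hCS]
      have h6 : S₁ ^ 2 ≤ S ^ 2 := pow_le_pow_left₀ hS₁.le hS 2
      have h7 : S ^ 2 * (1 + S₁ ^ 2) ≤ S ^ 2 * K ^ 2 := mul_le_mul_of_nonneg_left hK2 (sq_nonneg S)
      linarith
    exact le_of_sq_le_sq h5 (by positivity)
  -- `C ≤ K + (S - S₁)`, `L ≤ C`
  have hCK : C ≤ K + (S - S₁) := by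
    have h5 : C ^ 2 ≤ (K + (S - S₁)) ^ 2 := by
      rw [hCS]
      have h6 : S₁ ≤ K := by nlinarith only [hK, hK2]
      linarith only [mul_nonneg (sub_nonneg.2 hS) (sub_nonneg.2 h6), hK2]
    exact le_of_sq_le_sq h5 (by linarith)
  have hLC : L ≤ C := by
    have h5 : L ^ 2 ≤ C ^ 2 := by
      rw [hCS]
      have h6 : S₁ ^ 2 ≤ S ^ 2 := pow_le_pow_left₀ hS₁.le hS 2
      linarith
    exact le_of_sq_le_sq h5 hC0.le
  have hal' : al R I = arctan (s / c / (S / C)) := by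
    rw [hal]
    congr 1
    field_simp
  have hph' : ph R I = arctan (S / C * (s / c)) := by
    rw [hph]
    congr 1
    field_simp
  have hTA : (24274 : ℝ) / 96998 / (S / C) ≤ A := by
    rw [div_le_iff₀ hh0, mul_div_assoc', div_le_div_iff₀ (by norm_num) hC0]
    have h5 : 0 ≤ A := by
      by_contra hA0
      rw [not_le] at hA0
      linarith only [mul_pos hS₁ (neg_pos.2 hA0), hK, hA]
    have h6 := mul_le_mul_of_nonneg_left hKS h5
    nlinarith only [hK, hL, hA, hLC, h6]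
  have halA : al R I ≤ arctan A := by
    rw [hal']
    refine Real.arctan_strictMono.monotone (le_trans ?_ hTA)
    exact div_le_div_of_nonneg_right hτT hh0.le
  have hdel : al R I - ph R I / 2 ≤ arctan D := by
    have h5 := Rng7_mono hh0 hh1 hτ0 hτT (by norm_num)
    rw [← hal', ← hph'] at h5
    have h6 : arctan (24274 / 96998 / (S / C)) ≤ arctan A := Real.arctan_strictMono.monotone hTA
    have h7 : arctan B + arctan B ≤ arctan (S / C * (24274 / 96998)) := by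
      refine Rng7_add (by nlinarith only [hB0, hB1]) ?_
      have h8 : 2 * B ≤ S₁ / K * (24274 / 96998) * (1 - B ^ 2) := by
        rw [div_mul_div_comm, div_mul_eq_mul_div, le_div_iff₀ (by positivity)]
        linarith only [hB]
      have h9 : S₁ / K ≤ S / C := by
        rw [div_le_div_iff₀ hK hC0]
        exact hKS
      have h10 : 0 ≤ 1 - B ^ 2 := by nlinarith only [hB0, hB1]
      have h11 : S₁ / K * (24274 / 96998) * (1 - B ^ 2) ≤ S / C * (24274 / 96998) * (1 - B ^ 2) :=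
        mul_le_mul_of_nonneg_right (mul_le_mul_of_nonneg_right h9 (by norm_num)) h10
      linarith
    have h8 : arctan A ≤ arctan B + arctan D := by
      rw [Real.arctan_add hBD]
      refine Real.arctan_strictMono.monotone ?_
      rw [le_div_iff₀ (by linarith)]
      linarith
    linarith
  refine ⟨?_, ?_, ?_, ?_⟩
  · obtain ⟨b1, b2⟩ := Rng7_beta h.sl₁.β0 h2
    have hb : β₁ ≤ arctan (5088 / 10000) := by
      have h5 : β₁ = arctan (tan β₁) :=
        (Real.arctan_tan (by linarith [h.sl₁.β0, Real.pi_pos]) (by linarith [Real.pi_gt_three])).symm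
      rw [h5]
      refine Real.arctan_strictMono.monotone ?_
      rw [Real.tan_eq_sin_div_cos, div_le_iff₀ (by linarith)]
      linarith
    have h5 := Rng7_add hAm ht₁
    linarith
  · have h5 : arctan 1 + arctan D ≤ arctan t₂ := Rng7_add (by linarith) (by linarith)
    rw [Real.arctan_one] at h5
    linarith
  · obtain ⟨b1, b2⟩ := Rng7_beta h.sl₁.β0 h2
    refine Rng7_P hP0 hP2 (le_trans ?_ (Rng7_slot_p h.sl₁))
    have hsb : 0 ≤ sin β₁ :=
      sin_nonneg_of_nonneg_of_le_pi h.sl₁.β0 (by linarith [Real.pi_gt_three])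
    have h5 : tt R I * cos (al R I + β₁) = S * (c * cos β₁) - C * (s * sin β₁) := by
      rw [Real.cos_add]
      linear_combination cos β₁ * e1 - sin β₁ * e2
    have h6 : 96998 / 100000 * (891 / 1000) ≤ c * cos β₁ :=
      mul_le_mul hc1 b1 (by norm_num) hc0.le
    have h7 : s * sin β₁ ≤ 24274 / 100000 * (4533 / 10000) :=
      mul_le_mul hs1 b2 hsb (by norm_num)
    have h8 : S₁ * (96998 / 100000 * (891 / 1000)) - K * (24274 / 100000 * (4533 / 10000)) ≤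
        tt R I * cos (al R I + β₁) := by
      rw [h5]
      have h9 := mul_le_mul_of_nonneg_left h6 hS0.le
      have h10 := mul_le_mul_of_nonneg_left h7 hC0.le
      linarith only [hS, hCK, h9, h10]
    have h9 : 0 ≤ S₁ * (96998 / 100000 * (891 / 1000)) - K * (24274 / 100000 * (4533 / 10000)) := by
      have h10 : 0 ≤ P₁ + 1812 / 10000 * P₁ ^ 3 := by positivity
      linarith
    calc P₁ + 1812 / 10000 * P₁ ^ 3 ≤ _ := hP
      _ ≤ ρ₁ * (tt R I * cos (al R I + β₁)) := mul_le_mul h1 h8 h9 (by linarith)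
      _ = ρ₁ * tt R I * cos (al R I + β₁) := by ring
  · by_contra hcon
    rw [not_le] at hcon
    have h5 := Rng7_tanh hJ0
    have h6 : tanh J < tanh I := by
      rw [tanh_eq_sinh_div_cosh, tanh_eq_sinh_div_cosh, div_lt_div_iff₀ (cosh_pos _) (cosh_pos _)]
      have h1 : 0 < sinh (I - J) := sinh_pos_iff.2 (by linarith)
      rw [sinh_sub] at h1
      linarith
    rw [hI] at h6
    have h7 : s / C ≤ J - J ^ 3 / 3 := by
      rw [div_le_iff₀ hC0]
      have h8 : 0 ≤ J - J ^ 3 / 3 := by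
        by_contra hn
        rw [not_le] at hn
        linarith only [mul_pos hL (neg_pos.2 hn), hJ]
      have h9 := mul_le_mul_of_nonneg_left hLC h8
      linarith
    linarith

/-- the contradiction on a piece -/
private theorem Rng7_piece {R I ρ₁ β₁ p₁ r₁ ρ₂ β₂ p₂ r₂ S C s c : ℝ} (hf : F7 R I S C s c)
    (h : Vx 3 R I ρ₁ β₁ p₁ r₁ ρ₂ β₂ p₂ r₂) (h1 : 53 / 100 ≤ ρ₁) (h3 : 1 / 2 ≤ ρ₂)
    {S₂ t₁ t₂ P₁ J w : ℝ}
    (hlow : al R I + β₁ ≤ arctan t₁ ∧ al R I + β₂ ≤ arctan t₂ ∧ P₁ ≤ p₁ ∧ I ≤ J)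
    (hS : S ≤ S₂) (hw0 : 0 ≤ w) (hw1 : w ≤ 1) (hw : S₂ * (1 + w) ≤ 96998 / 100000 * (1 - w))
    (ht : t₁ ≤ t₂) (ht0 : 0 ≤ t₂)
    (hnum : t₂ * (3 * J) - (t₂ - t₁) * P₁ < 31415 / 40000 + 3 * (w - w ^ 3 / 3)) : False := by
  obtain ⟨g1, g2, g3, g4⟩ := hlow
  have hc0 : 0 < c := by linarith [hf.hc]
  have hR : R ≤ π / 4 - (w - w ^ 3 / 3) := by
    rw [hf.hR]
    refine Rng7_arctan_le ?_ hw0 hw1
    rw [div_mul_eq_mul_div, div_le_iff₀ hc0]
    have e1 : S * (1 + w) ≤ S₂ * (1 + w) := mul_le_mul_of_nonneg_right hS (by linarith)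
    have e2 : 96998 / 100000 * (1 - w) ≤ c * (1 - w) := mul_le_mul_of_nonneg_right hf.hc (by linarith)
    linarith
  have hr1 := Rng7_slot_r h.sl₁ h.R0 h.R1 h.I0 (by linarith) g1
  have hr2 := Rng7_slot_r h.sl₂ h.R0 h.R1 h.I0 (by linarith) g2
  have e1 := h.hR
  have e2 := h.hI
  have hpi := Real.pi_gt_d4
  have e3 : t₁ * p₁ + t₂ * p₂ ≤ t₂ * (3 * J) - (t₂ - t₁) * P₁ := by
    have e4 : t₁ * p₁ + t₂ * p₂ = t₂ * (3 * I) - (t₂ - t₁) * p₁ := by
      rw [e2]
      ring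
    rw [e4]
    have e5 : t₂ * (3 * I) ≤ t₂ * (3 * J) := mul_le_mul_of_nonneg_left (by linarith) ht0
    have e6 : (t₂ - t₁) * P₁ ≤ (t₂ - t₁) * p₁ := mul_le_mul_of_nonneg_left g3 (by linarith)
    linarith
  linarith

/-- small `S` -/
private theorem Rng7_r {R I ρ β p r : ℝ} (hs : Slot R I ρ β p r) (h0 : 0 < R) (h1 : R < π / 2)
    (hρ : ρ ≤ 1) (htt : tt R I ^ 2 ≤ 4311 / 10000) : r ≤ π / 4 - 690 / 10000 := by
  have htp := tt_pos (I := I) h0 h1
  have hsr : 0 ≤ sin r := sin_nonneg_of_nonneg_of_le_pi hs.r0 (by linarith [hs.r1, Real.pi_pos])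
  have hs2 : sin r ≤ tt R I := by
    calc sin r ≤ cosh p * sin r := le_mul_of_one_le_left hsr (Real.one_le_cosh p)
      _ = ρ * tt R I * sin (al R I + β) := hs.e2
      _ ≤ ρ * tt R I := mul_le_of_le_one_right (mul_nonneg hs.ρ0 htp.le) (Real.sin_le_one _)
      _ ≤ tt R I := mul_le_of_le_one_left htp.le hρ
  have hs3 : sin r ^ 2 ≤ 4311 / 10000 := (pow_le_pow_left₀ hsr hs2 2).trans htt
  have hcr0 : 0 ≤ cos r := Real.cos_nonneg_of_mem_Icc ⟨by linarith [hs.r0, Real.pi_pos], hs.r1⟩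
  have hcs := Real.sin_sq_add_cos_sq r
  have hcr : 0 < cos r := by
    rcases eq_or_lt_of_le hcr0 with h | h
    · rw [← h] at hcs
      have h7 : sin r ^ 2 = 1 := by linear_combination hcs
      linarith
    · exact h
  have hr : r < π / 2 := by
    rcases eq_or_lt_of_le hs.r1 with h | h
    · rw [h, Real.cos_pi_div_two] at hcr
      exact absurd hcr (lt_irrefl _)
    · exact h
  have htan : tan r ≤ 8706 / 10000 := by
    rw [Real.tan_eq_sin_div_cos, div_le_iff₀ hcr]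
    refine le_of_sq_le_sq ?_ (by positivity)
    rw [mul_pow]
    linarith
  have h5 : r = arctan (tan r) := (Real.arctan_tan (by linarith [hs.r0]) hr).symm
  rw [h5]
  refine (Real.arctan_strictMono.monotone htan).trans ?_
  have h6 := Rng7_arctan_le (y := 8706 / 10000) (w := 6915 / 100000) (by norm_num) (by norm_num)
    (by norm_num)
  norm_num at h6
  linarith

theorem Vx.inner3_low {R I ρ₁ β₁ p₁ r₁ ρ₂ β₂ p₂ r₂ : ℝ} (h : Vx 3 R I ρ₁ β₁ p₁ r₁ ρ₂ β₂ p₂ r₂)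
    (h1 : 53 / 100 ≤ ρ₁) (h1' : ρ₁ ≤ 1) (h2 : β₁ ≤ 47 / 100) (h3 : 1 / 2 ≤ ρ₂) (h3' : ρ₂ ≤ 1)
    (h4 : β₂ ≤ π / 4 - ph R I / 2) : 49 / 200 ≤ th R I := by
  by_contra hcon
  rw [not_le] at hcon
  have hf := Rng7_facts h.R0 h.R1 h.I0 hcon
  set S := sinh (xx R I) with hS
  set C := cosh (xx R I) with hC
  set s := sin (th R I) with hs
  set c := cos (th R I) with hc
  have hpi := Real.pi_gt_d4
  have hpi' := Real.pi_lt_d4
  have htt : tt R I ^ 2 = S ^ 2 + s ^ 2 := by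
    have e1 := hf.e1
    have e2 := hf.e2
    have e3 := Real.sin_sq_add_cos_sq (al R I)
    have e4 : tt R I ^ 2 = (tt R I * cos (al R I)) ^ 2 + (tt R I * sin (al R I)) ^ 2 := by
      linear_combination -(tt R I ^ 2) * e3
    rw [e4, e1, e2, mul_pow, mul_pow, hf.hCS]
    linear_combination S ^ 2 * hf.hsc
  have hs2 : s ^ 2 ≤ (24274 / 100000) ^ 2 := pow_le_pow_left₀ hf.hs.le hf.hs' 2
  rcases lt_or_ge S (61 / 100) with a0 | a0
  · -- small `S`
    have hS2 : S ^ 2 ≤ (61 / 100) ^ 2 := pow_le_pow_left₀ hf.hS.le a0.le 2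
    have ht : tt R I ^ 2 ≤ 4311 / 10000 := by
      rw [htt]
      norm_num at hS2 hs2 ⊢
      linarith
    have r1 := Rng7_r h.sl₁ h.R0 h.R1 h1' ht
    have r2 := Rng7_r h.sl₂ h.R0 h.R1 h3' ht
    have hc0 : 0 < c := by linarith [hf.hc]
    have hR : R ≤ π / 4 - (2278 / 10000 - (2278 / 10000) ^ 3 / 3) := by
      rw [hf.hR]
      refine Rng7_arctan_le ?_ (by norm_num) (by norm_num)
      rw [div_mul_eq_mul_div, div_le_iff₀ hc0]
      have := hf.hc
      norm_num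
      linarith
    have e1 := h.hR
    norm_num at hR
    linarith
  rcases lt_or_ge S (68 / 100) with a1 | a1
  · refine Rng7_piece hf h h1 h3 (S₂ := 68 / 100) (t₁ := 131 / 100) (t₂ := 294 / 125)
      (P₁ := 1047 / 5000) (J := 263 / 1250) (w := 1757 / 10000)
      (Rng7_low hf h h1 h2 h4 (S₁ := 61 / 100) (K := 5857 / 5000) (L := 11713 / 10000)
        (A := 2403 / 5000) (B := 811 / 12500) (D := 252 / 625) ?_ ?_ ?_ ?_ ?_ ?_ ?_ ?_ ?_ ?_ ?_ ?_
        ?_ ?_ ?_ ?_ ?_ ?_ ?_ ?_ ?_ ?_) ?_ ?_ ?_ ?_ ?_ ?_ ?_ <;> first | exact a0 | exact a1.le | norm_num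
  rcases lt_or_ge S (77 / 100) with a2 | a2
  · refine Rng7_piece hf h h1 h3 (S₂ := 77 / 100) (t₁ := 617 / 500) (t₂ := 268 / 125)
      (P₁ := 149 / 625) (J := 509 / 2500) (w := 1149 / 10000)
      (Rng7_low hf h h1 h2 h4 (S₁ := 68 / 100) (K := 12093 / 10000) (L := 3023 / 2500)
        (A := 4451 / 10000) (B := 7001 / 100000) (D := 1819 / 5000) ?_ ?_ ?_ ?_ ?_ ?_ ?_ ?_ ?_ ?_ ?_ ?_
        ?_ ?_ ?_ ?_ ?_ ?_ ?_ ?_ ?_ ?_) ?_ ?_ ?_ ?_ ?_ ?_ ?_ <;> first | exact a1 | exact a2.le | norm_num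
  rcases lt_or_ge S (86 / 100) with a3 | a3
  · refine Rng7_piece hf h h1 h3 (S₂ := 86 / 100) (t₁ := 581 / 500) (t₂ := 1961 / 1000)
      (P₁ := 2753 / 10000) (J := 487 / 2500) (w := 3 / 50)
      (Rng7_low hf h h1 h2 h4 (S₁ := 77 / 100) (K := 6311 / 5000) (L := 12621 / 10000)
        (A := 4103 / 10000) (B := 7589 / 100000) (D := 811 / 2500) ?_ ?_ ?_ ?_ ?_ ?_ ?_ ?_ ?_ ?_ ?_ ?_
        ?_ ?_ ?_ ?_ ?_ ?_ ?_ ?_ ?_ ?_) ?_ ?_ ?_ ?_ ?_ ?_ ?_ <;> first | exact a2 | exact a3.le | norm_num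
  rcases lt_or_ge S (93 / 100) with a4 | a4
  · refine Rng7_piece hf h h1 h3 (S₂ := 93 / 100) (t₁ := 111 / 100) (t₂ := 1833 / 1000)
      (P₁ := 623 / 2000) (J := 931 / 5000) (w := 21 / 1000)
      (Rng7_low hf h h1 h2 h4 (S₁ := 86 / 100) (K := 1319 / 1000) (L := 13189 / 10000)
        (A := 3839 / 10000) (B := 1013 / 12500) (D := 1469 / 5000) ?_ ?_ ?_ ?_ ?_ ?_ ?_ ?_ ?_ ?_ ?_ ?_
        ?_ ?_ ?_ ?_ ?_ ?_ ?_ ?_ ?_ ?_) ?_ ?_ ?_ ?_ ?_ ?_ ?_ <;> first | exact a3 | exact a4.le | norm_num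
  · -- large `S`
    have a5 : 92 / 100 ≤ S := by linarith
    obtain ⟨g1, g2, g3, g4⟩ := Rng7_low hf h h1 h2 h4 (S₁ := 92 / 100) (K := 13589 / 10000)
      (L := 3397 / 2500) (A := 3697 / 10000) (B := 8411 / 100000) (D := 277 / 1000)
      (t₁ := 1083 / 1000) (t₂ := 1767 / 1000) (P₁ := 3353 / 10000) (J := 1807 / 10000)
      (by norm_num) a5 (by norm_num) (by norm_num) (by norm_num) (by norm_num) (by norm_num)
      (by norm_num) (by norm_num) (by norm_num) (by norm_num) (by norm_num) (by norm_num)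
      (by norm_num) (by norm_num) (by norm_num) (by norm_num) (by norm_num) (by norm_num)
      (by norm_num) (by norm_num) (by norm_num)
    have hal := al_pos h.R0 h.R1 h.I0
    have hb := h.sl₂.β0
    have hcg : 197 / 400 ≤ cos (al R I + β₂) := by
      have e1 : cos (arctan (1767 / 1000)) ≤ cos (al R I + β₂) :=
        cos_le_cos_of_nonneg_of_le_pi (by linarith) (by
          linarith [Real.arctan_lt_pi_div_two (1767 / 1000 : ℝ)]) g2
      refine le_trans ?_ e1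
      rw [Real.cos_arctan, le_div_iff₀ (by positivity)]
      have e2 : √(1 + (1767 / 1000 : ℝ) ^ 2) ≤ 400 / 197 := by
        rw [Real.sqrt_le_left (by norm_num)]
        norm_num
      linarith
    have htS : S ≤ tt R I := by
      refine le_of_sq_le_sq ?_ (tt_pos h.R0 h.R1).le
      rw [htt]
      linarith only [sq_nonneg s]
    have hP2 : 561 / 2500 ≤ p₂ := by
      refine Rng7_P (by norm_num) (by norm_num) (le_trans ?_ (Rng7_slot_p h.sl₂))
      have e1 : (1 / 2 : ℝ) * (92 / 100) * (197 / 400) ≤ ρ₂ * tt R I * cos (al R I + β₂) := by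
        refine mul_le_mul (mul_le_mul h3 (by linarith) (by norm_num) (by linarith)) hcg (by norm_num) ?_
        exact mul_nonneg (by linarith) (tt_pos h.R0 h.R1).le
      refine le_trans ?_ e1
      norm_num
    have e2 := h.hI
    linarith

end Pool.Agent.S3.E
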