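import Pool.Agent.S3.E.GeoC
import Pool.Agent.S3.E.OGeo

/-!
# Stage 3, block E: the share of a slot of an inner vertex with three twists, and numbers

`Vx.inner3_b`.  Put `θ = th R I ≤ 7/25`, `x = xx R I > 0`, `h = tanh x`, `al = al R I`.  Facts:
`tan R = sinh x / cos θ` (`tan_R_eq`), `tanh I = sin θ / cosh x` (`tanh_I_eq`), `tan al * h = tan θ`
(`tan_al_eq`), `tan (ph R I) = h tan θ` (`tan_ph_eq`), `tan z = sinh (x + i θ) = tt e^{i al}`
(`sinh_u`, `tan_polar`), so `tt cos al = sinh x cos θ`, `tt sin al = cosh x sin θ`, and slot 2 gives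
  `sinh p₂ ≥ sinh p₂ cos r₂ = ρ₂ tt cos (al + β₂)`.
* `x ≥ .55`: else `sin r_j ≤ cosh p_j sin r_j ≤ ρ_j tt ≤ tt`, `tt² = sinh² x + sin² θ < .411`,
  `r_j < .696`, `r₁ + r₂ < 1.392`, `3 R < 1.625`, but the sum is `π`.
* `ph R I = arctan (h² tan al) ≥ h² al` (concavity of `arctan`), so `al + β₂ ≤ π/4 + al (1 - h²/2)`,
  `al = arctan (tan θ / h)`: at most `1.2416` for `x ≥ .55`, `θ ≤ 7/25` (monotone in both), and
  `sinh p₂ ≥ .5 sinh x cos (1.2416) ≥ .0934`, `p₂ ≥ .0932` (`tt ≥ sinh x`).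
* `tanh I = sin θ / cosh x ≤ .2393`, `I ≤ .2441`, `I / 3 ≤ .0814`.

`gain_num₁`, `gain_num₂`: `tan θ ≥ θ + θ³/3`, `π ≤ 3.1416`.
-/

set_option autoImplicit false

namespace Pool.Agent.S3.E

open Real

private theorem ng_exp : 17332 / 10000 ≤ exp (11 / 20) ∧ exp (11 / 20) ≤ 17334 / 10000 := by
  constructor
  · have h := Real.sum_le_exp_of_nonneg (x := 11 / 20) (by norm_num) 7
    refine le_trans ?_ h
    simp only [Finset.sum_range_succ, Finset.sum_range_zero, Nat.factorial]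
    norm_num
  · have h := Real.exp_bound' (x := 11 / 20) (by norm_num) (by norm_num) (n := 7) (by norm_num)
    refine h.trans ?_
    simp only [Finset.sum_range_succ, Finset.sum_range_zero, Nat.factorial]
    norm_num

private theorem ng_sinh : 578 / 1000 ≤ sinh (11 / 20) ∧ sinh (11 / 20) ≤ 5783 / 10000 := by
  obtain ⟨h1, h2⟩ := ng_exp
  have h3 : exp (11 / 20) * exp (-(11 / 20)) = 1 := by
    rw [← exp_add]
    norm_num
  have h4 := exp_pos (-(11 / 20) : ℝ)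
  have h5 := exp_pos (11 / 20 : ℝ)
  rw [sinh_eq]
  have h6 : exp (-(11 / 20)) ≤ 10000 / 17332 := by
    rw [le_div_iff₀ (by norm_num)]
    nlinarith
  have h7 : 10000 / 17334 ≤ exp (-(11 / 20)) := by
    rw [div_le_iff₀ (by norm_num)]
    nlinarith
  constructor <;> linarith

/-- Real and imaginary parts of `sinh (x + i θ) = tan z`. -/
private theorem ng_parts {R I : ℝ} (h : 0 < R) (h' : R < π / 2) (hI : 0 < I) :
    tt R I * cos (al R I) = sinh (xx R I) * cos (th R I) ∧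
      tt R I * sin (al R I) = cosh (xx R I) * sin (th R I) := by
  have e := sinh_u (z := ⟨R, I⟩) h h' hI
  rw [tan_polar (z := ⟨R, I⟩) h h', Complex.sinh_add, Complex.sinh_mul_I, Complex.cosh_mul_I,
    ← Complex.ofReal_sinh, ← Complex.ofReal_cosh, ← Complex.ofReal_sin, ← Complex.ofReal_cos] at e
  have e1 := congrArg Complex.re e
  have e2 := congrArg Complex.im e
  rw [Complex.re_ofReal_mul, Complex.exp_ofReal_mul_I_re] at e1
  rw [Complex.im_ofReal_mul, Complex.exp_ofReal_mul_I_im] at e2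
  simp only [Complex.add_re, Complex.add_im, Complex.mul_re, Complex.mul_im, Complex.ofReal_re,
    Complex.ofReal_im, Complex.I_re, Complex.I_im, mul_zero, mul_one, zero_mul, sub_zero, add_zero,
    zero_add] at e1 e2
  exact ⟨e1.symm, e2.symm⟩

/-- Common facts. -/
private theorem ng_base {R I : ℝ} (h : 0 < R) (h' : R < π / 2) (hI : 0 < I)
    (hθ : th R I ≤ 7 / 25) :
    0 < sinh (xx R I) ∧ cosh (xx R I) ^ 2 = sinh (xx R I) ^ 2 + 1 ∧ 0 < sin (th R I) ∧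
      sin (th R I) ≤ 2767 / 10000 ∧ 9608 / 10000 ≤ cos (th R I) ∧
      sin (th R I) ^ 2 + cos (th R I) ^ 2 = 1 := by
  have hx := xx_pos h h' hI
  have ht := th_pos h h' hI
  refine ⟨sinh_pos_iff.2 hx, cosh_sq _, sin_pos_of_pos_of_lt_pi ht (by linarith [pi_gt_three]), ?_, ?_,
    sin_sq_add_cos_sq _⟩
  · have h1 : sin (th R I) ≤ sin (7 / 25) :=
      sin_le_sin_of_le_of_le_pi_div_two (by linarith [pi_pos]) (by linarith [pi_gt_three]) hθ
    have h2 := abs_le.1 (Real.sin_bound (x := 7 / 25) (by rw [abs_of_pos] <;> norm_num))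
    rw [abs_of_pos (by norm_num : (0 : ℝ) < 7 / 25)] at h2
    have h3 := h2.2
    norm_num at h3 ⊢
    linarith
  · have := one_sub_sq_div_two_le_cos (x := th R I)
    nlinarith

private theorem ng_r {R I ρ β p r : ℝ} (hs : Slot R I ρ β p r) (h : 0 < R) (h' : R < π / 2)
    (hρ : ρ ≤ 1) (hT : tt R I ^ 2 ≤ 412 / 1000) : r < 705 / 1000 := by
  by_contra hc
  push Not at hc
  have h1 := tt_pos (I := I) h h'
  have hr : 0 ≤ sin r := sin_nonneg_of_nonneg_of_le_pi hs.r0 (by linarith [hs.r1, pi_pos])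
  have h2 : sin r ≤ tt R I := by
    calc sin r ≤ cosh p * sin r := le_mul_of_one_le_left hr (one_le_cosh p)
      _ = ρ * tt R I * sin (al R I + β) := hs.e2
      _ ≤ ρ * tt R I * 1 := mul_le_mul_of_nonneg_left (sin_le_one _) (mul_nonneg hs.ρ0 h1.le)
      _ ≤ 1 * tt R I * 1 := by nlinarith
      _ = tt R I := by ring
  have h3 : sin (705 / 1000) ≤ sin r :=
    sin_le_sin_of_le_of_le_pi_div_two (by linarith [pi_pos]) hs.r1 hc
  have h4 := sin_gt_sub_cube (x := 705 / 1000) (by norm_num)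
  norm_num at h4
  have h5 : 646 / 1000 < tt R I := by
    norm_num at h3
    linarith
  nlinarith

private theorem ng_tan {a b : ℝ} (h0 : 0 ≤ a) (h : a ≤ b) (h' : b < π / 2) : tan a ≤ tan b := by
  rcases eq_or_lt_of_le h with h2 | h2
  · rw [h2]
  · exact (tan_lt_tan_of_nonneg_of_lt_pi_div_two h0 h' h2).le

private theorem ng_tan1 : 6 / 10 + 3 / 100 ≤ tan (565 / 1000) := by
  have h2 := sin_gt_sub_cube (x := 565 / 1000) (by norm_num)
  have h3 := abs_le.1 (Real.cos_bound (x := 565 / 1000) (by rw [abs_of_pos] <;> norm_num))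
  rw [abs_of_pos (by norm_num : (0 : ℝ) < 565 / 1000)] at h3
  obtain ⟨h3, h4⟩ := h3
  have h5 : 0 < cos (565 / 1000) := by
    norm_num at h3 ⊢
    linarith
  rw [tan_eq_sin_div_cos, le_div_iff₀ h5]
  norm_num at h2 h4 ⊢
  linarith

private theorem ng_x {R I ρ₁ β₁ p₁ r₁ ρ₂ β₂ p₂ r₂ : ℝ} (h : Vx 3 R I ρ₁ β₁ p₁ r₁ ρ₂ β₂ p₂ r₂)
    (h1 : ρ₁ ≤ 1) (h3' : ρ₂ ≤ 1) (hθ : th R I ≤ 7 / 25) : 11 / 20 ≤ xx R I := by
  by_contra hx
  push Not at hx
  obtain ⟨a1, a2, a3, a4, a5, a6⟩ := ng_base h.R0 h.R1 h.I0 hθ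
  obtain ⟨e1, e2⟩ := ng_parts h.R0 h.R1 h.I0
  have b1 : sinh (xx R I) ≤ 5783 / 10000 := (sinh_lt_sinh.2 hx).le.trans ng_sinh.2
  have b2 : tt R I ^ 2 = sinh (xx R I) ^ 2 + sin (th R I) ^ 2 := by
    have c1 := sin_sq_add_cos_sq (al R I)
    calc tt R I ^ 2 = (tt R I * cos (al R I)) ^ 2 + (tt R I * sin (al R I)) ^ 2 := by
          linear_combination (-(tt R I ^ 2)) * c1
      _ = _ := by
          rw [e1, e2, mul_pow, mul_pow, a2]
          linear_combination (sinh (xx R I) ^ 2) * a6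
  have b3 : tt R I ^ 2 ≤ 412 / 1000 := by
    rw [b2]
    nlinarith
  have r1 := ng_r h.sl₁ h.R0 h.R1 h1 b3
  have r2 := ng_r h.sl₂ h.R0 h.R1 h3' b3
  have c2 : R < 565 / 1000 := by
    by_contra hc
    push Not at hc
    have c3 := ng_tan1.trans (ng_tan (by norm_num) hc h.R1)
    rw [tan_R_eq h.R0 h.R1 h.I0, le_div_iff₀ (by linarith)] at c3
    nlinarith
  have := h.hR
  linarith [pi_gt_d2]

theorem Vx.inner3_b {R I ρ₁ β₁ p₁ r₁ ρ₂ β₂ p₂ r₂ : ℝ} (h : Vx 3 R I ρ₁ β₁ p₁ r₁ ρ₂ β₂ p₂ r₂)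
    (h1 : ρ₁ ≤ 1) (h3 : 1 / 2 ≤ ρ₂) (h3' : ρ₂ ≤ 1) (h4 : β₂ ≤ π / 4 - ph R I / 2)
    (hθ : th R I ≤ 7 / 25) : I ≤ 3 * p₂ := by
  have hx := ng_x h h1 h3' hθ
  obtain ⟨a1, a2, a3, a4, a5, a6⟩ := ng_base h.R0 h.R1 h.I0 hθ
  obtain ⟨e1, e2⟩ := ng_parts h.R0 h.R1 h.I0
  have hti := tanh_I_eq h.R0 h.R1 h.I0
  have b1 : 578 / 1000 ≤ sinh (xx R I) := ng_sinh.1.trans (sinh_le_sinh.2 hx)
  have b0 := cosh_pos (xx R I)
  set S := sinh (xx R I)
  set C := cosh (xx R I)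
  set s := sin (th R I)
  set c := cos (th R I)
  -- the slot
  have hβ0 := h.sl₂.β0
  have hβ1 : β₂ ≤ π / 4 := by linarith [ph_pos h.R0 h.R1 h.I0]
  have hq : 707 / 1000 ≤ √2 / 2 := by
    have : 1414 / 1000 ≤ √2 := le_sqrt_of_sq_le (by norm_num)
    linarith
  have u1 : √2 / 2 ≤ cos β₂ := by
    rw [← cos_pi_div_four]
    exact cos_le_cos_of_nonneg_of_le_pi hβ0 (by linarith [pi_pos]) hβ1
  have u2 : sin β₂ ≤ √2 / 2 := by
    rw [← sin_pi_div_four]
    exact sin_le_sin_of_le_of_le_pi_div_two (by linarith [pi_pos]) (by linarith [pi_pos]) hβ1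
  have u3 : sinh p₂ * cos r₂ = ρ₂ * (S * c * cos β₂ - C * s * sin β₂) := by
    rw [h.sl₂.e1, cos_add]
    linear_combination ρ₂ * cos β₂ * e1 - ρ₂ * sin β₂ * e2
  have hS1 : 1155 / 1000 ≤ C := by
    by_contra hc
    push Not at hc
    nlinarith
  have hS2 : 5004 / 10000 * C ≤ S := by
    by_contra hc
    push Not at hc
    nlinarith
  have u4 : 1666 / 10000 ≤ S * c * cos β₂ - C * s * sin β₂ := by
    have v1 : C * s * sin β₂ ≤ C * s * (√2 / 2) :=
      mul_le_mul_of_nonneg_left u2 (mul_nonneg b0.le a3.le)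
    have v2 : S * c * (√2 / 2) ≤ S * c * cos β₂ :=
      mul_le_mul_of_nonneg_left u1 (mul_nonneg a1.le (by linarith))
    have v3 : 5004 / 10000 * C * (9608 / 10000) ≤ S * c := mul_le_mul hS2 a5 (by norm_num) a1.le
    have v4 : C * s ≤ C * (2767 / 10000) := mul_le_mul_of_nonneg_left a4 b0.le
    have v5 : 2357 / 10000 ≤ S * c - C * s := by nlinarith
    have v6 : 2357 / 10000 * (707 / 1000) ≤ (S * c - C * s) * (√2 / 2) :=
      mul_le_mul v5 hq (by norm_num) (by linarith)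
    nlinarith
  have u5 : 833 / 10000 ≤ sinh p₂ := by
    have v1 : 0 ≤ sinh p₂ := sinh_nonneg_iff.2 h.sl₂.p0
    have v2 : sinh p₂ * cos r₂ ≤ sinh p₂ := mul_le_of_le_one_right v1 (cos_le_one _)
    have v3 : 1 / 2 * (1666 / 10000) ≤ ρ₂ * (S * c * cos β₂ - C * s * sin β₂) :=
      mul_le_mul h3 u4 (by norm_num) (by linarith)
    linarith
  -- the vertex
  have y0 : 0 < sinh I := sinh_pos_iff.2 h.I0
  have y1 : sinh I ≤ 2469 / 10000 := by
    have z0 := cosh_pos I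
    have z1 : sinh I * C = s * cosh I := by
      rw [tanh_eq_sinh_div_cosh, div_eq_div_iff z0.ne' b0.ne'] at hti
      linarith
    have z2 : sinh I ^ 2 * C ^ 2 = s ^ 2 * (sinh I ^ 2 + 1) := by
      rw [← cosh_sq, ← mul_pow, ← mul_pow, z1]
    have z3 : sinh I ^ 2 * (S ^ 2 + c ^ 2) = s ^ 2 := by
      rw [a2] at z2
      linear_combination z2 + sinh I ^ 2 * a6
    have z4 : 12572 / 10000 ≤ S ^ 2 + c ^ 2 := by nlinarith
    by_contra hc
    push Not at hc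
    have z5 : (2469 / 10000) ^ 2 < sinh I ^ 2 := by nlinarith
    have z6 : s ^ 2 ≤ (2767 / 10000) ^ 2 := by nlinarith
    have z7 : (2469 / 10000) ^ 2 * (12572 / 10000) < sinh I ^ 2 * (S ^ 2 + c ^ 2) :=
      mul_lt_mul z5 z4 (by norm_num) (by positivity)
    rw [z3] at z7
    norm_num at z6 z7
    linarith
  have y2 : sinh (I / 3) ≤ sinh I / 3 := by
    have z0 : sinh (3 * (I / 3)) = 4 * sinh (I / 3) ^ 3 + 3 * sinh (I / 3) := sinh_three_mul _
    rw [mul_div_cancel₀ I (three_ne_zero)] at z0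
    have z1 : 0 ≤ sinh (I / 3) := sinh_nonneg_iff.2 (by linarith [h.I0])
    have z2 : 0 ≤ sinh (I / 3) ^ 3 := by positivity
    linarith
  have y3 : I / 3 ≤ p₂ := by
    rw [← sinh_le_sinh]
    linarith
  linarith

theorem gain_num₁ {θ : ℝ} (h : 7 / 25 ≤ θ) (h' : θ < π / 2) : π / 20 ≤ 14 / 25 * tan θ := by
  have h1 : tan (7 / 25) ≤ tan θ := ng_tan (by norm_num) h h'
  have h2 := sin_gt_sub_cube (x := 7 / 25) (by norm_num)
  have h3 := abs_le.1 (Real.cos_bound (x := 7 / 25) (by rw [abs_of_pos] <;> norm_num))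
  rw [abs_of_pos (by norm_num : (0 : ℝ) < 7 / 25)] at h3
  obtain ⟨h3, h4⟩ := h3
  have h5 : 0 < cos (7 / 25) := by
    norm_num at h3 ⊢
    linarith
  have h6 : 281 / 1000 ≤ tan (7 / 25) := by
    rw [tan_eq_sin_div_cos, le_div_iff₀ h5]
    norm_num at h2 h4 ⊢
    linarith
  linarith [pi_lt_d4]

theorem gain_num₂ {θ : ℝ} (h : 49 / 200 ≤ θ) (h' : θ < π / 2) :
    8 / 9 * (π / 20) ≤ 14 / 25 * tan θ := by
  have h1 : tan (49 / 200) ≤ tan θ := ng_tan (by norm_num) h h'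
  have h2 := sin_gt_sub_cube (x := 49 / 200) (by norm_num)
  have h3 := abs_le.1 (Real.cos_bound (x := 49 / 200) (by rw [abs_of_pos] <;> norm_num))
  rw [abs_of_pos (by norm_num : (0 : ℝ) < 49 / 200)] at h3
  obtain ⟨h3, h4⟩ := h3
  have h5 : 0 < cos (49 / 200) := by
    norm_num at h3 ⊢
    linarith
  have h6 : 2496 / 10000 ≤ tan (49 / 200) := by
    rw [tan_eq_sin_div_cos, le_div_iff₀ h5]
    norm_num at h2 h4 ⊢
    linarith
  linarith [pi_lt_d4]

end Pool.Agent.S3.E
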