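import Pool.Agent.S3.E.Split
import Pool.Agent.S3.E.Rng1
import Pool.Agent.S3.E.Rng2
import Pool.Agent.S3.E.Rng3
import Pool.Agent.S3.E.Rng4
import Pool.Agent.S3.E.Rng5
import Pool.Agent.S3.E.Rng6
import Pool.Agent.S3.E.Rng7
import Pool.Agent.S3.E.Rng8
import Pool.Agent.S3.E.K4B

/-!
# Stage 3, block E: the ranges of the critical values at the vertices with at least three twists

For the critical point (`τ = 1`) and a vertex `i` with `3 ≤ a i`:
* `th3_le`: `θ_i ≤ 27/50`; `th3e_le`: `θ_i ≤ 19/40` if `i` is an end; `th4_le`: `θ_i ≤ 37/100` if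
  `4 ≤ a i`;
* `R3_lt`: `re z_i < 8π/25`; `xx3_ge`: `9/20 ≤ x_i` if `a i = 3`;
* `ro3_ge`: `53/100 ≤ |cos z_i|`;
* `gain3`: if `a i = 3` and `j` is an open neighbour then
  `(bw (z i) (z j) / 3) (π/20) ≤ 14/25 tan θ_i`.
-/

set_option autoImplicit false

namespace Pool.Agent.S3.E

open Complex

namespace Zr

variable {ι : Type*} [Finite ι] {a : ι → ℝ} {nl nr : ι → Option ι} {z : ι → ℂ}

/-- The vertex equation with the slot towards `j` first. -/
theorem vx_first (h : Zr a nl nr 1 z) {i j : ι} (hij : nl i = some j ∨ nr i = some j) :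
    ∃ (o : Option ι) (r₁ p₂ r₂ : ℝ), (nl i = o ∨ nr i = o) ∧
      (o = none ↔ (nl i = none ∨ nr i = none)) ∧
      Vx (a i) (z i).re (z i).im (ro 1 z (some j)) (be 1 z (some j)) (qe (z i) (z j)).re r₁
        (ro 1 z o) (be 1 z o) p₂ r₂ := by
  have hv := h.vx i
  have hq : (qe (z i) (z j)).re = PP (bo 1 z (some j) * tan (z i)) := by
    rw [h.qe_eq_ash hij, ash_re]
  rcases hij with e | e
  · have k : Vx (a i) (z i).re (z i).im (ro 1 z (some j)) (be 1 z (some j)) (qe (z i) (z j)).re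
        (RR (bo 1 z (some j) * tan (z i))) (ro 1 z (nr i)) (be 1 z (nr i))
        (PP (bo 1 z (nr i) * tan (z i))) (RR (bo 1 z (nr i) * tan (z i))) := by
      rw [hq, ← e]
      exact hv
    exact ⟨nr i, _, _, _, Or.inr rfl, by rw [e]; simp, k⟩
  · have k : Vx (a i) (z i).re (z i).im (ro 1 z (some j)) (be 1 z (some j)) (qe (z i) (z j)).re
        (RR (bo 1 z (some j) * tan (z i))) (ro 1 z (nl i)) (be 1 z (nl i))
        (PP (bo 1 z (nl i) * tan (z i))) (RR (bo 1 z (nl i) * tan (z i))) := by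
      rw [hq, ← e]
      exact hv.swap
    exact ⟨nl i, _, _, _, Or.inl rfl, by rw [e]; simp, k⟩

/-- Every vertex has a neighbour. -/
theorem exists_nb (h : Zr a nl nr 1 z) (i : ι) : ∃ j, nl i = some j ∨ nr i = some j := by
  rcases h.N.ne i with e | e
  · obtain ⟨j, hj⟩ := Option.ne_none_iff_exists'.1 e
    exact ⟨j, Or.inl hj⟩
  · obtain ⟨j, hj⟩ := Option.ne_none_iff_exists'.1 e
    exact ⟨j, Or.inr hj⟩

theorem chord_i (h : Zr a nl nr 1 z) (i : ι) :
    a i * (xx (z i).re (z i).im * (z i).re + th (z i).re (z i).im * (z i).im) ≤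
      Real.pi * xx (z i).re (z i).im :=
  (h.vx i).chord (h.ro_le_one _) (h.ro_le_one _)

theorem xx_pos_i (h : Zr a nl nr 1 z) (i : ι) : 0 < xx (z i).re (z i).im :=
  xx_pos (h.pos i).1 (h.pos i).2.1 (h.pos i).2.2

theorem th_pos_i (h : Zr a nl nr 1 z) (i : ι) : 0 < th (z i).re (z i).im :=
  th_pos (h.pos i).1 (h.pos i).2.1 (h.pos i).2.2

/-- **The angle of a vertex with at least three twists.** -/
theorem th3_le (h : Zr a nl nr 1 z) {i : ι} (hi : 3 ≤ a i) : th (z i).re (z i).im ≤ 27 / 50 := by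
  by_contra hc
  push Not at hc
  obtain ⟨h1, h2, h3⟩ := h.pos i
  have hx := h.xx_pos_i i
  have ht := h.th_pos_i i
  have hI := (h.vx i).le_two_xx (h.ro_le_one _) (h.ro_le_one _)
  have h4 : 3 * (z i).im ≤ 2 * xx (z i).re (z i).im :=
    le_trans (mul_le_mul_of_nonneg_right hi h3.le) hI
  have k := rng3 hx hc.le (h.th_le i (Or.inl hi)) h1 h2 h3 (tan_R_eq h1 h2 h3)
    (tanh_I_eq h1 h2 h3) h4
  have k2 := h.chord_i i
  have h5 : 0 < xx (z i).re (z i).im * (z i).re + th (z i).re (z i).im * (z i).im := by positivity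
  have k3 := mul_le_mul_of_nonneg_right hi h5.le
  linarith

/-- The angle of an end vertex with at least three twists. -/
theorem th3e_le (h : Zr a nl nr 1 z) {i : ι} (hi : 3 ≤ a i) (he : nl i = none ∨ nr i = none) :
    th (z i).re (z i).im ≤ 19 / 40 := by
  by_contra hc
  push Not at hc
  obtain ⟨h1, h2, h3⟩ := h.pos i
  have hx := h.xx_pos_i i
  have ht := h.th_pos_i i
  obtain ⟨j, hj⟩ := h.exists_nb i
  obtain ⟨o, r₁, p₂, r₂, _, ho, hv⟩ := h.vx_first hj
  rw [ho.2 he] at hv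
  have hI := Vx.end_le_xx (show Vx (a i) (z i).re (z i).im (ro 1 z (some j)) (be 1 z (some j))
    (qe (z i) (z j)).re r₁ 0 (be 1 z none) p₂ r₂ from hv) (h.ro_le_one _)
  have h4 : 3 * (z i).im ≤ xx (z i).re (z i).im :=
    le_trans (mul_le_mul_of_nonneg_right hi h3.le) hI
  have k := rng3e hx hc.le (h.th_le i (Or.inl hi)) h1 h2 h3 (tan_R_eq h1 h2 h3)
    (tanh_I_eq h1 h2 h3) h4
  have k2 := h.chord_i i
  have h5 : 0 < xx (z i).re (z i).im * (z i).re + th (z i).re (z i).im * (z i).im := by positivity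
  have k3 := mul_le_mul_of_nonneg_right hi h5.le
  linarith

/-- The angle of a vertex with at least four twists. -/
theorem th4_le (h : Zr a nl nr 1 z) {i : ι} (hi : 4 ≤ a i) :
    th (z i).re (z i).im ≤ 37 / 100 := by
  by_contra hc
  push Not at hc
  obtain ⟨h1, h2, h3⟩ := h.pos i
  have hx := h.xx_pos_i i
  have ht := h.th_pos_i i
  have hI := (h.vx i).le_two_xx (h.ro_le_one _) (h.ro_le_one _)
  have h4 : 4 * (z i).im ≤ 2 * xx (z i).re (z i).im :=
    le_trans (mul_le_mul_of_nonneg_right hi h3.le) hI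
  have k := rng4 hx hc.le (h.th_le i (Or.inl (by linarith))) h1 h2 h3 (tan_R_eq h1 h2 h3)
    (tanh_I_eq h1 h2 h3) h4
  have k2 := h.chord_i i
  have h5 : 0 < xx (z i).re (z i).im * (z i).re + th (z i).re (z i).im * (z i).im := by positivity
  have k3 := mul_le_mul_of_nonneg_right hi h5.le
  linarith

/-- The real part of a vertex with at least three twists. -/
theorem R3_lt (h : Zr a nl nr 1 z) {i : ι} (hi : 3 ≤ a i) : (z i).re < 8 / 25 * Real.pi := by
  obtain ⟨j, hj⟩ := h.exists_nb i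
  obtain ⟨o, r₁, p₂, r₂, _, _, hv⟩ := h.vx_first hj
  exact hv.R_lt hi (h.ro_ge j)

theorem R3_lt' (h : Zr a nl nr 1 z) {i : ι} (hi : 3 ≤ a i) : (z i).re / Real.pi < 13 / 40 := by
  have h1 := h.R3_lt hi
  rw [div_lt_iff₀ Real.pi_pos]
  have := Real.pi_pos
  linarith

theorem aR_lt_i (h : Zr a nl nr 1 z) (i : ι) : a i * (z i).re < Real.pi := by
  obtain ⟨j, hj⟩ := h.exists_nb i
  obtain ⟨o, r₁, p₂, r₂, _, _, hv⟩ := h.vx_first hj
  exact hv.aR_lt (h.ro_ge j)

theorem xx3_ge (h : Zr a nl nr 1 z) {i : ι} (hi : a i = 3) : 9 / 20 ≤ xx (z i).re (z i).im := by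
  have hv := h.vx i
  rw [hi] at hv
  exact hv.xx_ge (h.ro_le_one _) (h.ro_le_one _) (h.th3_le hi.ge)

theorem cos_ge {R : ℝ} (h0 : 0 ≤ R) (h1 : R ≤ 8 / 25 * Real.pi) : 53 / 100 ≤ Real.cos R := by
  have h2 := Real.pi_gt_d4
  have h2' := Real.pi_lt_d4
  have h3 : Real.cos (8 / 25 * Real.pi) ≤ Real.cos R :=
    Real.cos_le_cos_of_nonneg_of_le_pi h0 (by linarith) h1
  refine le_trans ?_ h3
  rw [show (8 / 25 : ℝ) * Real.pi = Real.pi / 2 - 9 / 50 * Real.pi by ring, Real.cos_pi_div_two_sub]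
  obtain ⟨x, hx⟩ : ∃ x, x = 9 / 50 * Real.pi := ⟨_, rfl⟩
  rw [← hx]
  have x1 : 5654 / 10000 ≤ x := by rw [hx]; linarith
  have x2 : x ≤ 5656 / 10000 := by rw [hx]; linarith
  have h5 := Real.sin_gt_sub_cube (x := x) (by linarith)
  have y1 : x ^ 3 ≤ (5656 / 10000) ^ 3 := pow_le_pow_left₀ (by linarith) x2 3
  norm_num at y1
  linarith

/-- `|cos z|` at a vertex with at least three twists. -/
theorem ro3_ge (h : Zr a nl nr 1 z) {i : ι} (hi : 3 ≤ a i) : 53 / 100 ≤ ro 1 z (some i) := by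
  have h1 := cos_ge (h.pos i).1.le (h.R3_lt hi).le
  rw [ro_one, norm_eq_sqrt]
  apply Real.le_sqrt_of_sq_le
  rw [GeoX_k2]
  have h3 := Real.one_le_cosh (z i).im
  nlinarith

theorem norm_cos3_ge (h : Zr a nl nr 1 z) {i : ι} (hi : 3 ≤ a i) : 53 / 100 ≤ ‖cos (z i)‖ := by
  have := h.ro3_ge hi
  rwa [ro_one] at this

theorem ph3_le (h : Zr a nl nr 1 z) {i : ι} (hi : 3 ≤ a i) : ph (z i).re (z i).im ≤ 9 / 20 :=
  ((h.vx i).phi3' hi (h.k2_le i)).1

theorem ph3_or (h : Zr a nl nr 1 z) {i : ι} (hi : 3 ≤ a i) :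
    be 1 z (some i) ≤ 1 / 3 ∨ 0.42 ≤ ro 1 z (some i) ^ 2 := by
  rcases ((h.vx i).phi3' hi (h.k2_le i)).2 with e | e
  · left; rw [be_one]; exact e
  · right
    rw [ro_one, norm_eq_sqrt, Real.sq_sqrt (h.k2pos i).le]
    norm_num
    linarith

/-- **The gain on the verticals of a vertex with three twists.** -/
theorem gain3 (h : Zr a nl nr 1 z) {i j : ι} (hi : a i = 3) (hij : nl i = some j ∨ nr i = some j)
    (hj : 3 ≤ a j)
    (hk : ∀ k, (nl i = some k ∨ nr i = some k) → 3 ≤ a k ∨ IsEnd2 a nl nr k i) :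
    bw (z i) (z j) / 3 * (Real.pi / 20) ≤ 14 / 25 * Real.tan (th (z i).re (z i).im) := by
  obtain ⟨h1, h2, h3⟩ := h.pos i
  have hpi := Real.pi_pos
  have ht2 := th_lt h1 h2 h3
  have hsum := h.sum_bwo i
  obtain ⟨o, r₁, p₂, r₂, ho, ho', hv⟩ := h.vx_first hij
  rw [hi] at hv
  have hI := hv.hI
  have hb : bw (z i) (z j) * (z i).im = (qe (z i) (z j)).re := by
    rw [bw, div_mul_cancel₀ _ h3.ne']
  have hp2 := hv.sl₂.p0
  have hb3 : bw (z i) (z j) ≤ 3 := by
    by_contra hc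
    push Not at hc
    have := mul_lt_mul_of_pos_right hc h3
    linarith
  have hbe : be 1 z (some j) ≤ 47 / 100 := by
    rw [be_one]; linarith [h.ph3_le hj]
  by_cases hθ : 7 / 25 ≤ th (z i).re (z i).im
  · have k := gain_num₁ hθ ht2
    have : bw (z i) (z j) / 3 ≤ 1 := by linarith
    nlinarith
  · push Not at hθ
    cases o with
    | none =>
      exfalso
      have k := Vx.end3_low (show Vx 3 (z i).re (z i).im (ro 1 z (some j)) (be 1 z (some j))
        (qe (z i) (z j)).re r₁ 0 (be 1 z none) p₂ r₂ from hv) (h.ro3_ge hj) hbe (h.ph3_or hj)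
      linarith
    | some k =>
      have h4 : be 1 z (some k) ≤ Real.pi / 4 - ph (z i).re (z i).im / 2 := by
        rcases hk k ho with e | e
        · rw [be_one]
          have q1 := h.ph3_le e
          have q2 := h.ph3_le hi.ge
          have := Real.pi_gt_three
          linarith
        · rw [be_one, h.ph_end e.1 e.2, be_one]
      have k1 := hv.inner3_low (h.ro3_ge hj) (h.ro_le_one _) hbe (h.ro_ge k) (h.ro_le_one _) h4
      have k2 := hv.inner3_b (h.ro_le_one _) (h.ro_ge k) (h.ro_le_one _) h4 hθ.le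
      have k3 := gain_num₂ k1 ht2
      have k4 : bw (z i) (z j) ≤ 8 / 3 := by
        by_contra hc
        push Not at hc
        have := mul_lt_mul_of_pos_right hc h3
        linarith
      have : bw (z i) (z j) / 3 ≤ 8 / 9 := by linarith
      nlinarith

end Zr

end Pool.Agent.S3.E
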