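import Pool.Agent.S3.E.GeoR

/-!
# Stage 3, block E: angles

`tan α = sinh 2I / sin 2R`, `tan φ = tan R tanh I`, `tan χ = cot R tanh I`:
`tan (φ + χ) = tanh I (tan R + cot R)/(1 - tanh² I) = tan α`.
`ph_le_iff`: `tan² φ = (1-g)(c-1)/((1+g)(c+1)) ≤ 1` iff `- g c ≤ 1`.
`cos_two_al`: `cos 2α = (1 - T²)/(1 + T²)`, `T² = (c² - 1)/(1 - g²)`.
`chi_phi_id`: `|σ|² e^{2iχ} = σ² = 1 - κ² = 1 - |κ|² e^{-2iφ}`; multiply by `e^{iφ}` and take real parts:
`|σ|² cos (2χ + φ) = (1 - |κ|²) cos φ` (or verify by real formulas).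
`pos_cs`: for `g ≤ 0` clear; for `g > 0` it is `c² (1 - g²) > g² (c² - 1)`, i.e.
`c² (1 - 2g²) + g² > 0`; clear if `2 g² ≤ 1`; otherwise decreasing in `c ≤ 2 - g`, and at `c = 2 - g`,
`e = 1 - g`: the value is `6 e² - 2 e⁴ > 0`.
-/

namespace Pool.Agent.S3.E

open Real

theorem GeoX_sin_pos {R : ℝ} (h : 0 < R) (h' : R < π / 2) : 0 < sin R :=
  Real.sin_pos_of_pos_of_lt_pi h (by linarith [Real.pi_pos])

theorem GeoX_cos_pos {R : ℝ} (h : 0 < R) (h' : R < π / 2) : 0 < cos R :=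
  Real.cos_pos_of_mem_Ioo ⟨by linarith [Real.pi_pos], h'⟩

theorem GeoX_gg (R : ℝ) : gg R = 2 * cos R ^ 2 - 1 := by
  unfold gg; exact Real.cos_two_mul R

theorem GeoX_cc (I : ℝ) : cc I = 2 * cosh I ^ 2 - 1 := by
  unfold cc
  have h := Real.cosh_two_mul I
  have h2 := Real.cosh_sq I
  rw [h]
  linarith

theorem GeoX_k2 (R I : ℝ) : k2 R I = cos R ^ 2 + cosh I ^ 2 - 1 := by
  unfold k2; rw [GeoX_gg, GeoX_cc]; ring

theorem GeoX_s2 (R I : ℝ) : s2 R I = cosh I ^ 2 - cos R ^ 2 := by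
  unfold s2; rw [GeoX_gg, GeoX_cc]; ring

/-- `arg tan = arg sin - arg cos`, without a condition on `I`. -/
theorem GeoX_al_eq {R I : ℝ} (h : 0 < R) (h' : R < π / 2) :
    al R I = ph R I + ch R I := by
  have hs := GeoX_sin_pos h h'
  have hc := GeoX_cos_pos h h'
  have hC := Real.cosh_pos I
  have hsq := Real.cosh_sq I
  have ht : tan R ≠ 0 := by
    rw [Real.tan_eq_sin_div_cos]; positivity
  unfold al ph ch
  have hprod : tan R * tanh I * (tanh I / tan R) = (sinh I / cosh I) ^ 2 := by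
    rw [Real.tanh_eq_sinh_div_cosh]
    field_simp
  have hlt : (sinh I / cosh I) ^ 2 < 1 := by
    rw [div_pow, div_lt_one (by positivity)]
    linarith
  rw [Real.arctan_add (by rw [hprod]; exact hlt)]
  congr 1
  rw [hprod, Real.sinh_two_mul, Real.sin_two_mul, Real.tan_eq_sin_div_cos,
    Real.tanh_eq_sinh_div_cosh]
  have h1 : 1 - (sinh I / cosh I) ^ 2 = 1 / cosh I ^ 2 := by
    field_simp
    linarith
  rw [h1]
  field_simp
  have := Real.sin_sq_add_cos_sq R
  linear_combination (-(sinh I)) * this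

/-- `arg tan = arg sin - arg cos`. -/
theorem al_eq {R I : ℝ} (h : 0 < R) (h' : R < π / 2) (hI : 0 < I) :
    al R I = ph R I + ch R I := GeoX_al_eq h h'

/-- `φ ≤ π/4` iff `- cos 2R cosh 2I ≤ 1`. -/
theorem ph_le_iff {R I : ℝ} (h : 0 < R) (h' : R < π / 2) (hI : 0 < I) :
    ph R I ≤ π / 4 ↔ -(gg R * cc I) ≤ 1 := by
  have hs := GeoX_sin_pos h h'
  have hc := GeoX_cos_pos h h'
  have hC := Real.cosh_pos I
  have hS := Real.sinh_pos_iff.mpr hI
  have hsq := Real.cosh_sq I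
  have hsc := Real.sin_sq_add_cos_sq R
  unfold ph
  rw [← Real.arctan_one, Real.arctan_strictMono.le_iff_le, Real.tan_eq_sin_div_cos,
    Real.tanh_eq_sinh_div_cosh, div_mul_div_comm, div_le_one (by positivity),
    GeoX_gg, GeoX_cc]
  have e1 : (sin R * sinh I) ^ 2 = (1 - cos R ^ 2) * (cosh I ^ 2 - 1) := by
    rw [mul_pow]
    have a1 : sin R ^ 2 = 1 - cos R ^ 2 := by linarith
    have a2 : sinh I ^ 2 = cosh I ^ 2 - 1 := by linarith
    rw [a1, a2]
  constructor
  · intro hle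
    have := pow_le_pow_left₀ (by positivity) hle 2
    rw [e1, mul_pow] at this
    nlinarith
  · intro hle
    refine le_of_sq_le_sq ?_ (by positivity)
    rw [e1, mul_pow]
    nlinarith

/-- `cos 2α = (2 - c² - g²)/(c² - g²)`. -/
theorem cos_two_al {R I : ℝ} (h : 0 < R) (h' : R < π / 2) (hI : 0 < I) :
    cos (2 * al R I) = (2 - cc I ^ 2 - gg R ^ 2) / (cc I ^ 2 - gg R ^ 2) := by
  have h1 := sinh_two_sq I
  have h2 := sin_two_sq R
  have h3 := sin_two_pos h h'
  have h4 := one_lt_cc hI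
  have h5 : 0 < 1 - gg R ^ 2 := by rw [← h2]; positivity
  have h6 : 0 < cc I ^ 2 - gg R ^ 2 := by nlinarith
  rw [Real.cos_two_mul]
  unfold al
  rw [Real.cos_sq_arctan, div_pow, h1, h2]
  have h7 : 1 + (cc I ^ 2 - 1) / (1 - gg R ^ 2) = (cc I ^ 2 - gg R ^ 2) / (1 - gg R ^ 2) := by
    field_simp
    ring
  rw [h7]
  field_simp
  ring

/-- `|sin z|² cos (2χ + φ) = (1 - |cos z|²) cos φ`. -/
theorem chi_phi_id {R I : ℝ} (h : 0 < R) (h' : R < π / 2) :
    s2 R I * cos (2 * ch R I + ph R I) = (1 - k2 R I) * cos (ph R I) := by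
  have hs := GeoX_sin_pos h h'
  have hc := GeoX_cos_pos h h'
  have hC := Real.cosh_pos I
  have hsq := Real.cosh_sq I
  have hsc := Real.sin_sq_add_cos_sq R
  have hcp : 0 < cos (ph R I) := Real.cos_arctan_pos _
  have e1 : sin (ph R I) = tan R * tanh I * cos (ph R I) := by
    have := tan_ph R I
    rw [← this, Real.tan_mul_cos hcp.ne']
  have hcc : 0 < cos (ch R I) := Real.cos_arctan_pos _
  have e2 : sin (ch R I) = tanh I / tan R * cos (ch R I) := by
    have : tan (ch R I) = tanh I / tan R := Real.tan_arctan _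
    rw [← this, Real.tan_mul_cos hcc.ne']
  have e3 : cos (ch R I) ^ 2 = 1 / (1 + (tanh I / tan R) ^ 2) := Real.cos_sq_arctan _
  have e4 : tanh I / tan R = sinh I * cos R / (cosh I * sin R) := by
    rw [Real.tan_eq_sin_div_cos, Real.tanh_eq_sinh_div_cosh]
    field_simp
  have e5 : tan R * tanh I = sin R * sinh I / (cos R * cosh I) := by
    rw [Real.tan_eq_sin_div_cos, Real.tanh_eq_sinh_div_cosh]
    field_simp
  have hs2 : 0 < s2 R I := s2_pos h h'
  have e6 : cos (ch R I) ^ 2 = (cosh I * sin R) ^ 2 / s2 R I := by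
    rw [e3, e4, GeoX_s2]
    have : 0 < cosh I ^ 2 - cos R ^ 2 := by rw [← GeoX_s2]; exact hs2
    have h8 : (1 + (sinh I * cos R / (cosh I * sin R)) ^ 2) =
        (cosh I ^ 2 - cos R ^ 2) / (cosh I * sin R) ^ 2 := by
      field_simp
      have a1 : sin R ^ 2 = 1 - cos R ^ 2 := by linarith
      have a2 : sinh I ^ 2 = cosh I ^ 2 - 1 := by linarith
      rw [a1, a2]
      ring
    rw [h8]
    field_simp
  rw [Real.cos_add, Real.cos_two_mul, Real.sin_two_mul, e1, e2, e4, e5]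
  have e7 : s2 R I * cos (ch R I) ^ 2 = (cosh I * sin R) ^ 2 := by
    rw [e6]; field_simp
  have a1 : sin R ^ 2 = 1 - cos R ^ 2 := by linarith
  have a2 : sinh I ^ 2 = cosh I ^ 2 - 1 := by linarith
  have e8 : s2 R I * ((2 * cos (ch R I) ^ 2 - 1) * cos (ph R I) -
      2 * (sinh I * cos R / (cosh I * sin R) * cos (ch R I)) * cos (ch R I) *
        (sin R * sinh I / (cos R * cosh I) * cos (ph R I))) =
      (2 * (s2 R I * cos (ch R I) ^ 2) - s2 R I -
        2 * (s2 R I * cos (ch R I) ^ 2) * (sinh I ^ 2 / cosh I ^ 2)) * cos (ph R I) := by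
    field_simp
  rw [e8, e7, GeoX_s2, GeoX_k2]
  congr 1
  have e9 : 2 * (cosh I * sin R) ^ 2 * (sinh I ^ 2 / cosh I ^ 2) = 2 * (sin R ^ 2 * sinh I ^ 2) := by
    field_simp
  rw [e9, mul_pow, a1, a2]
  ring

theorem GeoX_sum_lt {R I : ℝ} : 2 * ch R I + ph R I < π + π / 2 := by
  have := ph_lt R I
  have := ch_lt R I
  linarith

theorem chi_phi_le {R I : ℝ} (h : 0 < R) (h' : R < π / 2) (hI : 0 < I) (hk : k2 R I ≤ 1) :
    2 * ch R I + ph R I ≤ π / 2 := by
  by_contra hcon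
  push Not at hcon
  have h1 := Real.cos_neg_of_pi_div_two_lt_of_lt hcon GeoX_sum_lt
  have h2 := chi_phi_id (I := I) h h'
  have h3 : 0 < cos (ph R I) := Real.cos_arctan_pos _
  have h4 := s2_pos (I := I) h h'
  have h5 : 0 ≤ (1 - k2 R I) * cos (ph R I) := mul_nonneg (by linarith) h3.le
  have h6 : s2 R I * cos (2 * ch R I + ph R I) < 0 := mul_neg_of_pos_of_neg h4 h1
  linarith

theorem chi_phi_lt {R I : ℝ} (h : 0 < R) (h' : R < π / 2) (hI : 0 < I) (hk : k2 R I < 1) :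
    2 * ch R I + ph R I < π / 2 := by
  by_contra hcon
  push Not at hcon
  have h1 := Real.cos_nonpos_of_pi_div_two_le_of_le hcon GeoX_sum_lt.le
  have h2 := chi_phi_id (I := I) h h'
  have h3 : 0 < cos (ph R I) := Real.cos_arctan_pos _
  have h4 := s2_pos (I := I) h h'
  have h5 : 0 < (1 - k2 R I) * cos (ph R I) := mul_pos (by linarith) h3
  have h6 : s2 R I * cos (2 * ch R I + ph R I) ≤ 0 := mul_nonpos_of_nonneg_of_nonpos h4.le h1
  linarith

/-- `c sin 2R - g sinh 2I > 0` when `|κ| ≤ 1`. -/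
theorem pos_cs {R I : ℝ} (h : 0 < R) (h' : R < π / 2) (hI : 0 < I) (hk : k2 R I ≤ 1) :
    0 < cc I * sin (2 * R) - gg R * sinh (2 * I) := by
  have h1 := sinh_two_sq I
  have h2 := sin_two_sq R
  have h3 := sin_two_pos h h'
  have h4 := one_lt_cc hI
  have h5 := sinh_two_pos hI
  have hg1 := gg_lt_one h h'
  have hk' : cc I + gg R ≤ 2 := by unfold k2 at hk; linarith
  rcases le_or_gt (gg R) 0 with hg | hg
  · have : 0 < cc I * sin (2 * R) := by positivity
    have : gg R * sinh (2 * I) ≤ 0 := mul_nonpos_of_nonpos_of_nonneg hg h5.le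
    linarith
  · have key : (gg R * sinh (2 * I)) ^ 2 < (cc I * sin (2 * R)) ^ 2 := by
      rw [mul_pow, mul_pow, h1, h2]
      have : 0 < cc I ^ 2 * (1 - 2 * gg R ^ 2) + gg R ^ 2 := by
        rcases le_or_gt (2 * gg R ^ 2) 1 with h6 | h6
        · have : 0 ≤ cc I ^ 2 * (1 - 2 * gg R ^ 2) := mul_nonneg (by positivity) (by linarith)
          have : 0 < gg R ^ 2 := by positivity
          linarith
        · have h7 : cc I ^ 2 ≤ (2 - gg R) ^ 2 :=
            pow_le_pow_left₀ (by linarith) (by linarith) 2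
          have h8 : (2 - gg R) ^ 2 * (1 - 2 * gg R ^ 2) ≤ cc I ^ 2 * (1 - 2 * gg R ^ 2) :=
            mul_le_mul_of_nonpos_right h7 (by linarith)
          have h9 : (2 - gg R) ^ 2 * (1 - 2 * gg R ^ 2) + gg R ^ 2 =
              (1 - gg R) ^ 2 * (6 - 2 * (1 - gg R) ^ 2) := by ring
          have h10 : 0 < (1 - gg R) ^ 2 * (6 - 2 * (1 - gg R) ^ 2) := by
            apply mul_pos (by have : 0 < 1 - gg R := by linarith
                              positivity)
            nlinarith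
          linarith
      nlinarith
    have := lt_of_pow_lt_pow_left₀ 2 (by positivity) key
    linarith

end Pool.Agent.S3.E
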