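import Pool.Agent.S3.NI

/-!
# Stage 3, block E: a branch and bound test for an inner vertex with two twists

Variables: `X = tan R`, `h = tanh I` at the vertex, and for its two slots `p ± i r`:
`p = (1 ± e) I`, `r = π/2 - R ± ν`, `E = |tanh (e I)|`, `v = |tan ν|`.
-/

set_option autoImplicit false

namespace Pool.Agent.S3.E.J6

open NI

/-! ### The test -/

def tau3 (t : N) : ℕ :=
  bif (cst 450 1000).lt t then 690 else bif (cst 400 1000).lt t then 715 else
  bif (cst 350 1000).lt t then 745 else bif (cst 300 1000).lt t then 775 else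
  bif (cst 250 1000).lt t then 810 else bif (cst 200 1000).lt t then 850 else
  bif (cst 100 1000).lt t then 940 else 1000

def tau2 (t : N) : ℕ :=
  bif (cst 715 1000).lt t then 400 else bif (cst 690 1000).lt t then 450 else
  bif (cst 670 1000).lt t then 500 else bif (cst 650 1000).lt t then 550 else
  bif (cst 635 1000).lt t then 600 else bif (cst 600 1000).lt t then 635 else
  bif (cst 550 1000).lt t then 650 else bif (cst 500 1000).lt t then 670 else tau3 t

/-- upper bound of `tan² θ_j`, in thousandths. -/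
def tau (t : N) : ℕ :=
  bif (cst 940 1000).lt t then 100 else bif (cst 850 1000).lt t then 200 else
  bif (cst 810 1000).lt t then 250 else bif (cst 775 1000).lt t then 300 else
  bif (cst 745 1000).lt t then 350 else tau2 t

/-- The same for a neighbour with three or more twists. -/
def tau' (t : N) : ℕ :=
  bif (cst 940 1000).lt t then 100 else bif (cst 850 1000).lt t then 200 else
  bif (cst 810 1000).lt t then 250 else bif (cst 775 1000).lt t then 300 else
  bif (cst 745 1000).lt t then 350 else 361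

def tT (m : ℕ) (K s : N) : Bool :=
  (N.mul (cst m 1000) (N.sub (cst (Nat.add 1000 m) 1000) K)).lt
    (N.mul s (cst (Nat.mul (Nat.add 1000 m) (Nat.add 1000 m)) 1000000))

/-- The tests with `s = sin² φ`. -/
def sT (th st : Bool) (t K s : N) : Bool :=
  (N.mul K (N.sub (cst 6546 10000) s)).lt (cst 22609 100000) ||
  bif th then tT (tau' t) K s || (K.lt (cst 49 100) && (N.mul K s).lt (cst 121 10000))
  else tT (tau t) K s ||
    bif st then (N.mul s (cst 25 16)).lt (N.mul (cst 1 4) (N.sub (cst 5 4) K)) ||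
      (cst 2419 10000).lt (N.mul K (N.sub (cst 41 100) s))
    else (N.mul s (cst 1247689 1000000)).lt (N.mul (cst 117 1000) (N.sub (cst 1117 1000) K))

def fT (th st : Bool) (t K f : N) : Bool :=
  one.lt K || K.lt (bif th then cst 3969 10000 else cst 4225 10000) ||
    (bif th then cst 4831 10000 else cst 6842 10000).lt f ||
    sT th st t K (N.sub one (N.add one f.sq).inv)

/-- The slot with the larger angle. -/
def mT (th st : Bool) (t iD a P c m : N) : Bool :=
  one.lt (N.mul a m) || ((N.add m a).ps &&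
  fT th st t (N.mul (N.add (N.sub (N.sub one P.sq).inv one) (N.add one c.sq).inv) iD)
    (N.mul (N.sub one (N.mul a m)) (N.add m a).inv))

/-- The slot with the smaller angle. -/
def gT (th st : Bool) (t iD a P T g : N) : Bool :=
  g.lt a ||
  fT th st t (N.mul (N.add (N.sub (N.sub one P.sq).inv one) (N.sub one (N.add one T.sq).inv)) iD)
   (N.mul (N.sub g a) (N.add one (N.mul a g)).inv)

def nT (th st pl : Bool) (t iD a P X v : N) : Bool :=
  (N.sub one P.sq).ps && P.ps &&
  bif pl then mT th st t iD a P (N.mul (N.sub X v) (N.add one (N.mul X v)).inv)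
    (N.mul (N.mul (N.sub X v) (N.add one (N.mul X v)).inv) P)
  else gT th st t iD a P (N.mul (N.sub one (N.mul X v)) (N.add X v).inv)
    (N.mul (N.mul (N.sub one (N.mul X v)) (N.add X v).inv) P.inv)

def pP (h E : N) : N := (N.mul (N.add h E) (N.add one (N.mul h E)).inv)
def pM' (h A : N) : N := ⟨mx A.lo (Nat.div (Nat.mul 2 h.lo) 5), A.hi⟩
def pM (h E : N) : N := pM' h (N.mul (N.sub h E) (N.sub one (N.mul h E)).inv)

def nn (tj tk st sE sv : Bool) (t iD a X h E v : N) : Bool :=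
  bif sE then nT tj st sv t iD a (pP h E) X v || nT tk st (!sv) t iD a (pM h E) X v
  else nT tj st sv t iD a (pM h E) X v || nT tk st (!sv) t iD a (pP h E) X v

def t2 (tj tk st sE sv : Bool) (X h E v X2 h2 t Ki : N) : Bool :=
  t.lt (cst 117 1000) || one.lt t || one.lt Ki || Ki.lt (cst 4225 10000) || h.lt E || X.lt v ||
  one.lt (N.mul X v) || ((N.add X2 h2).ps && (N.sub one (N.mul h E)).ps &&
  nn tj tk st sE sv t (N.mul (N.add one (N.mul X2 h2)) (N.add X2 h2).inv)
    (N.mul (N.mul h (N.sub one h2).inv) (N.add X X.inv)) X h E v)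

def t1 (obj : N → N → N → N → N → N → N → N → Bool) (tj tk st sE sv : Bool)
    (X h E v X2 h2 t Ki : N) : Bool :=
  obj X h E v X2 h2 t Ki || t2 tj tk st sE sv X h E v X2 h2 t Ki

def t0 (obj : N → N → N → N → N → N → N → N → Bool) (tj tk st sE sv : Bool)
    (X h E v X2 h2 : N) : Bool :=
  X.ps && h.ps && (N.sub one h2).ps && (N.mul (N.add one X2) (N.sub one h2)).ps &&
  t1 obj tj tk st sE sv X h E v X2 h2 (N.mul (N.mul h2 (N.sub one h2).inv) (N.add one X2))
    (N.mul (N.add one (N.mul X2 h2)) (N.mul (N.add one X2) (N.sub one h2)).inv)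

def tst (obj : N → N → N → N → N → N → N → N → Bool) (tj tk st sE sv : Bool)
    (X h E v : N) : Bool :=
  t0 obj tj tk st sE sv X h E v X.sq h.sq

def cyc : ℕ → List ℕ → List ℕ
  | 0, _ => []
  | n + 1, l => l ++ cyc n l

/-! ### The real functions -/

noncomputable def tR (X h : ℝ) : ℝ := h ^ 2 * (1 - h ^ 2)⁻¹ * (1 + X ^ 2)
noncomputable def kR (X h : ℝ) : ℝ := (1 + X ^ 2 * h ^ 2) * ((1 + X ^ 2) * (1 - h ^ 2))⁻¹
noncomputable def iD (X h : ℝ) : ℝ := (1 + X ^ 2 * h ^ 2) * (X ^ 2 + h ^ 2)⁻¹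
noncomputable def aR (X h : ℝ) : ℝ := (h * (1 - h ^ 2)⁻¹) * (X + X⁻¹)
noncomputable def pR (s : Bool) (h E : ℝ) : ℝ :=
  bif s then (h + E) * (1 + h * E)⁻¹ else (h - E) * (1 - h * E)⁻¹
noncomputable def cR (X v : ℝ) : ℝ := (X - v) * (1 + X * v)⁻¹
noncomputable def rR (X v : ℝ) : ℝ := (1 - X * v) * (X + v)⁻¹
noncomputable def sR (f : ℝ) : ℝ := 1 - (1 + f ^ 2)⁻¹
noncomputable def fRp (a m : ℝ) : ℝ := (1 - a * m) * (m + a)⁻¹
noncomputable def fRm (a g : ℝ) : ℝ := (g - a) * (1 + a * g)⁻¹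
noncomputable def KRp (d P c : ℝ) : ℝ := (((1 - P ^ 2)⁻¹ - 1) + (1 + c ^ 2)⁻¹) * d
noncomputable def KRm (d P T : ℝ) : ℝ := (((1 - P ^ 2)⁻¹ - 1) + sR T) * d
noncomputable def fR (s : Bool) (a P X v : ℝ) : ℝ :=
  bif s then fRp a (cR X v * P) else fRm a (rR X v * P⁻¹)
noncomputable def KR (s : Bool) (d P X v : ℝ) : ℝ :=
  bif s then KRp d P (cR X v) else KRm d P (rR X v)
noncomputable def mR (s : Bool) (a P X v : ℝ) : Prop :=
  bif s then a * (cR X v * P) ≤ 1 else a ≤ rR X v * P⁻¹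

/-- The pairs of `joint3`, in thousandths. -/
def Pr (p q : ℕ) : Prop :=
  (p = 940 ∧ q = 100) ∨ (p = 850 ∧ q = 200) ∨ (p = 810 ∧ q = 250) ∨ (p = 775 ∧ q = 300) ∨
  (p = 745 ∧ q = 350) ∨ (p = 715 ∧ q = 400) ∨ (p = 690 ∧ q = 450) ∨ (p = 670 ∧ q = 500) ∨
  (p = 650 ∧ q = 550) ∨ (p = 635 ∧ q = 600)

/-- What is known about a neighbour: `t = tan² θ` at the vertex, `κ = tan² θ_j`, `K = |cos z_j|²`,
`f = tan φ_j`. -/
structure Nb (th st : Bool) (t K f κ : ℝ) : Prop where
  K1 : K ≤ 1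
  Kl : (bif th then 3969 / 10000 else 4225 / 10000 : ℝ) ≤ K
  f0 : 0 ≤ f
  f1 : f ≤ (bif th then 4831 / 10000 else 6842 / 10000 : ℝ)
  c0 : 22609 / 100000 ≤ K * (6546 / 10000 - sR f)
  κ1 : κ ≤ 1
  tm : ∀ m : ℕ, κ * 1000 ≤ m →
    sR f * (((1000 + m : ℝ) * (1000 + m)) / 1000000) ≤ m / 1000 * ((1000 + m) / 1000 - K)
  j1 : ∀ p q : ℕ, Pr p q → t * 1000 ≤ p ∨ κ * 1000 ≤ q
  j2 : th = false → ∀ p q : ℕ, Pr p q → t * 1000 ≤ q ∨ κ * 1000 ≤ p
  t3 : th = true → κ * 1000 ≤ 361
  s4 : th = true → 49 / 100 ≤ K ∨ 121 / 10000 ≤ K * sR f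
  l0 : th = false → 117 / 1000 * (1117 / 1000 - K) ≤ sR f * (1247689 / 1000000)
  l1 : th = false → st = true → 1 / 4 * (5 / 4 - K) ≤ sR f * (25 / 16)
  l2 : th = false → st = true → K * (41 / 100 - sR f) ≤ 2419 / 10000

/-- What is known about the vertex. -/
structure Fa (tj tk st sE sv : Bool) (X h E v κj κk : ℝ) : Prop where
  X0 : 0 < X
  h0 : 0 < h
  h1 : h < 1
  E0 : 0 ≤ E
  Eh : E < h
  v0 : 0 ≤ v
  vX : v ≤ X
  Xv : X * v ≤ 1
  t0 : 117 / 1000 ≤ tR X h
  t1 : tR X h ≤ 1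
  k0 : 4225 / 10000 ≤ kR X h
  k1 : kR X h ≤ 1
  pl : 2 / 5 * h ≤ pR false h E
  aj : mR sv (aR X h) (pR sE h E) X v
  ak : mR (!sv) (aR X h) (pR (!sE) h E) X v
  nj : Nb tj st (tR X h) (KR sv (iD X h) (pR sE h E) X v) (fR sv (aR X h) (pR sE h E) X v) κj
  nk : Nb tk st (tR X h) (KR (!sv) (iD X h) (pR (!sE) h E) X v)
    (fR (!sv) (aR X h) (pR (!sE) h E) X v) κk

/-! ### Soundness -/

theorem ps_one_add (A : N) : (N.add one A).ps = true := by
  show Nat.ble 1 (1073741824 + A.lo) = true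
  rw [Nat.ble_eq]
  omega

theorem ps_add_left {A B : N} (h : A.ps = true) : (N.add A B).ps = true := by
  have h : Nat.ble 1 A.lo = true := h
  rw [Nat.ble_eq] at h
  show Nat.ble 1 (A.lo + B.lo) = true
  rw [Nat.ble_eq]
  omega

theorem mem_nat {n d : ℕ} {x : ℝ} (hd : 0 < d) (h : x = (n : ℝ) / d) : Mem x (cst n d) := by
  rw [h]; exact mem_cst hd

theorem sR_nonneg (f : ℝ) : 0 ≤ sR f := by
  have h : (1 + f ^ 2)⁻¹ ≤ 1 := inv_le_one_of_one_le₀ (by nlinarith [sq_nonneg f])
  unfold sR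
  linarith

theorem cond_step {b : Bool} {m r : ℕ} {x : ℝ} (h1 : b = true → x ≤ m) (h2 : x ≤ r) :
    x ≤ ((bif b then m else r : ℕ) : ℝ) := by
  rcases hb : b with _ | _
  · exact h2
  · exact h1 hb

theorem Nb.tau_step1 {th st : Bool} {t K f κ : ℝ} (H : Nb th st t K f κ) {A : N} (hA : Mem t A)
    {p q : ℕ} (hp : Pr p q) (h : (cst p 1000).lt A = true) : κ * 1000 ≤ (q : ℝ) := by
  have h1 := (mem_cst (n := p) (d := 1000) (by norm_num)).lt hA h
  rcases H.j1 p q hp with e | e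
  · exfalso
    push_cast at h1
    rw [div_lt_iff₀ (by norm_num)] at h1
    linarith
  · exact e

theorem Nb.tau_step2 {st : Bool} {t K f κ : ℝ} (H : Nb false st t K f κ) {A : N} (hA : Mem t A)
    {p q : ℕ} (hp : Pr p q) (h : (cst q 1000).lt A = true) : κ * 1000 ≤ (p : ℝ) := by
  have h1 := (mem_cst (n := q) (d := 1000) (by norm_num)).lt hA h
  rcases H.j2 rfl p q hp with e | e
  · exfalso
    push_cast at h1
    rw [div_lt_iff₀ (by norm_num)] at h1
    linarith
  · exact e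

theorem Nb.tau_le {st : Bool} {t K f κ : ℝ} (H : Nb false st t K f κ) {A : N} (hA : Mem t A) :
    κ * 1000 ≤ (tau A : ℝ) := by
  have k1 := H.κ1
  unfold tau tau2 tau3
  refine cond_step (H.tau_step1 hA (by unfold Pr; simp)) ?_
  refine cond_step (H.tau_step1 hA (by unfold Pr; simp)) ?_
  refine cond_step (H.tau_step1 hA (by unfold Pr; simp)) ?_
  refine cond_step (H.tau_step1 hA (by unfold Pr; simp)) ?_
  refine cond_step (H.tau_step1 hA (by unfold Pr; simp)) ?_
  refine cond_step (H.tau_step1 hA (by unfold Pr; simp)) ?_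
  refine cond_step (H.tau_step1 hA (by unfold Pr; simp)) ?_
  refine cond_step (H.tau_step1 hA (by unfold Pr; simp)) ?_
  refine cond_step (H.tau_step1 hA (by unfold Pr; simp)) ?_
  refine cond_step (H.tau_step1 hA (by unfold Pr; simp)) ?_
  refine cond_step (H.tau_step2 hA (by unfold Pr; simp)) ?_
  refine cond_step (H.tau_step2 hA (by unfold Pr; simp)) ?_
  refine cond_step (H.tau_step2 hA (by unfold Pr; simp)) ?_
  refine cond_step (H.tau_step2 hA (by unfold Pr; simp)) ?_
  refine cond_step (H.tau_step2 hA (by unfold Pr; simp)) ?_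
  refine cond_step (H.tau_step2 hA (by unfold Pr; simp)) ?_
  refine cond_step (H.tau_step2 hA (by unfold Pr; simp)) ?_
  refine cond_step (H.tau_step2 hA (by unfold Pr; simp)) ?_
  refine cond_step (H.tau_step2 hA (by unfold Pr; simp)) ?_
  refine cond_step (H.tau_step2 hA (by unfold Pr; simp)) ?_
  push_cast
  linarith

theorem Nb.tau'_le {st : Bool} {t K f κ : ℝ} (H : Nb true st t K f κ) {A : N} (hA : Mem t A) :
    κ * 1000 ≤ (tau' A : ℝ) := by
  have k1 := H.t3 rfl
  unfold tau'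
  refine cond_step (H.tau_step1 hA (by unfold Pr; simp)) ?_
  refine cond_step (H.tau_step1 hA (by unfold Pr; simp)) ?_
  refine cond_step (H.tau_step1 hA (by unfold Pr; simp)) ?_
  refine cond_step (H.tau_step1 hA (by unfold Pr; simp)) ?_
  refine cond_step (H.tau_step1 hA (by unfold Pr; simp)) ?_
  push_cast
  linarith

theorem Nb.tT {th st : Bool} {t K f κ : ℝ} (H : Nb th st t K f κ) {m : ℕ} (hm : κ * 1000 ≤ m)
    {B S : N} (hB : Mem K B) (hS : Mem (sR f) S) : tT m B S = false := by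
  rcases h : J6.tT m B S with _ | _
  · rfl
  · exfalso
    unfold J6.tT at h
    have e0 : ((Nat.add 1000 m : ℕ) : ℝ) = 1000 + m := by
      show ((1000 + m : ℕ) : ℝ) = _
      push_cast; ring
    have e1 : ((Nat.mul (Nat.add 1000 m) (Nat.add 1000 m) : ℕ) : ℝ) = (1000 + m) * (1000 + m) := by
      show (((1000 + m) * (1000 + m) : ℕ) : ℝ) = _
      push_cast; ring
    have hm0 : (0 : ℝ) ≤ m := m.cast_nonneg
    have a1 : Mem ((m : ℝ) / 1000) (cst m 1000) := by
      have := mem_cst (n := m) (d := 1000) (by norm_num); push_cast at this; exact this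
    have a2 : Mem ((1000 + m : ℝ) / 1000) (cst (Nat.add 1000 m) 1000) := by
      have := mem_cst (n := Nat.add 1000 m) (d := 1000) (by norm_num)
      rw [e0] at this; push_cast at this; exact this
    have a3 : Mem (((1000 + m : ℝ) * (1000 + m)) / 1000000)
        (cst (Nat.mul (Nat.add 1000 m) (Nat.add 1000 m)) 1000000) := by
      have := mem_cst (n := Nat.mul (Nat.add 1000 m) (Nat.add 1000 m)) (d := 1000000) (by norm_num)
      rw [e1] at this; push_cast at this; exact this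
    have hK := H.K1
    have b1 := (a1.mul (a2.sub hB (by
      rw [le_div_iff₀ (by norm_num)]; linarith))).lt (hS.mul a3) h
    have b2 := H.tm m hm
    linarith

theorem ff_or {a b : Bool} (h1 : a = false) (h2 : b = false) : (a || b) = false := by
  rw [h1, h2]; rfl

theorem ff_lt {x y : ℝ} {A B : N} (h1 : Mem x A) (h2 : Mem y B) (h : y ≤ x) : A.lt B = false := by
  rcases e : A.lt B with _ | _
  · rfl
  · exact absurd (h1.lt h2 e) (not_lt.2 h)

theorem mem_sR {f : ℝ} {F : N} (hF : Mem f F) : Mem (sR f) (N.sub one (N.add one F.sq).inv) := by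
  unfold sR
  refine mem_one.sub ((mem_one.add hF.sq).inv (ps_one_add _)) ?_
  exact inv_le_one_of_one_le₀ (by nlinarith [sq_nonneg f])

theorem Nb.Kpos {th st : Bool} {t K f κ : ℝ} (H : Nb th st t K f κ) : 0 < K := by
  have h := H.Kl
  rcases th with _ | _
  · simp only [cond_false] at h; linarith
  · simp only [cond_true] at h; linarith

theorem Nb.s_le {th st : Bool} {t K f κ : ℝ} (H : Nb th st t K f κ) : sR f ≤ 41 / 100 := by
  have h : f ≤ 6842 / 10000 := by
    have h := H.f1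
    rcases th with _ | _
    · rw [cond_false] at h; exact h
    · rw [cond_true] at h; linarith
  have h0 := H.f0
  have h1 : 1 + f ^ 2 ≤ 100 / 59 := by nlinarith
  have h2 : (100 / 59 : ℝ)⁻¹ ≤ (1 + f ^ 2)⁻¹ := inv_anti₀ (by positivity) h1
  unfold sR
  norm_num at h2
  linarith

theorem Nb.sTa {th st : Bool} {t K f κ : ℝ} (H : Nb th st t K f κ) {B S : N}
    (hB : Mem K B) (hS : Mem (sR f) S) :
    (N.mul B (N.sub (cst 6546 10000) S)).lt (cst 22609 100000) = false := by
  have hs := H.s_le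
  exact ff_lt (hB.mul ((mem_nat (by norm_num) (by norm_num)).sub hS
      (by linarith : sR f ≤ 6546 / 10000))) (mem_nat (by norm_num)
      (by norm_num : (22609 / 100000 : ℝ) = _)) H.c0

theorem Nb.sTb {t K f κ : ℝ} (H : Nb false false t K f κ) {B S : N}
    (hB : Mem K B) (hS : Mem (sR f) S) :
    (N.mul S (cst 1247689 1000000)).lt (N.mul (cst 117 1000) (N.sub (cst 1117 1000) B)) = false := by
  have hK := H.K1
  refine ff_lt (hS.mul (mem_nat (by norm_num) (by norm_num : (1247689 / 1000000 : ℝ) = _)))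
          ((mem_nat (by norm_num) (by norm_num : (117 / 1000 : ℝ) = _)).mul
            ((mem_nat (by norm_num) (by norm_num : (1117 / 1000 : ℝ) = _)).sub hB ?_)) (H.l0 rfl)
  linarith

theorem Nb.sTc {t K f κ : ℝ} (H : Nb false true t K f κ) {B S : N}
    (hB : Mem K B) (hS : Mem (sR f) S) :
    (N.mul S (cst 25 16)).lt (N.mul (cst 1 4) (N.sub (cst 5 4) B)) = false := by
  have hK := H.K1
  refine ff_lt (hS.mul (mem_nat (by norm_num) (by norm_num : (25 / 16 : ℝ) = _)))
            ((mem_nat (by norm_num) (by norm_num : (1 / 4 : ℝ) = _)).mul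
              ((mem_nat (by norm_num) (by norm_num : (5 / 4 : ℝ) = _)).sub hB ?_)) (H.l1 rfl rfl)
  linarith

theorem Nb.sTd {t K f κ : ℝ} (H : Nb false true t K f κ) {B S : N}
    (hB : Mem K B) (hS : Mem (sR f) S) :
    (cst 2419 10000).lt (N.mul B (N.sub (cst 41 100) S)) = false := 
  ff_lt (mem_nat (by norm_num) (by norm_num : (2419 / 10000 : ℝ) = _))
            (hB.mul ((mem_nat (by norm_num) (by norm_num : (41 / 100 : ℝ) = _)).sub hS H.s_le))
            (H.l2 rfl rfl)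

theorem Nb.sTe {st : Bool} {t K f κ : ℝ} (H : Nb true st t K f κ) {B S : N}
    (hB : Mem K B) (hS : Mem (sR f) S) :
    (B.lt (cst 49 100) && (N.mul B S).lt (cst 121 10000)) = false := by
  rcases H.s4 rfl with e | e
  · rw [ff_lt hB (mem_nat (by norm_num) (by norm_num : (49 / 100 : ℝ) = _)) e]
    rfl
  · rw [ff_lt (hB.mul hS) (mem_nat (by norm_num) (by norm_num : (121 / 10000 : ℝ) = _)) e]
    exact Bool.and_false _

theorem sT_eq (th st : Bool) (t K s : N) : sT th st t K s = 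
  ((N.mul K (N.sub (cst 6546 10000) s)).lt (cst 22609 100000) ||
  bif th then tT (tau' t) K s || (K.lt (cst 49 100) && (N.mul K s).lt (cst 121 10000))
  else tT (tau t) K s ||
    bif st then (N.mul s (cst 25 16)).lt (N.mul (cst 1 4) (N.sub (cst 5 4) K)) ||
      (cst 2419 10000).lt (N.mul K (N.sub (cst 41 100) s))
    else (N.mul s (cst 1247689 1000000)).lt (N.mul (cst 117 1000) (N.sub (cst 1117 1000) K))) := rfl

theorem Nb.sT {th st : Bool} {t K f κ : ℝ} (H : Nb th st t K f κ) {A B S : N} (hA : Mem t A)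
    (hB : Mem K B) (hS : Mem (sR f) S) : sT th st A B S = false := by
  rw [sT_eq, H.sTa hB hS, Bool.false_or]
  rcases th with _ | _
  · rw [cond_false, H.tT (H.tau_le hA) hB hS, Bool.false_or]
    rcases st with _ | _
    · rw [cond_false]
      exact H.sTb hB hS
    · rw [cond_true, H.sTc hB hS, H.sTd hB hS]
      rfl
  · rw [cond_true, H.tT (H.tau'_le hA) hB hS, Bool.false_or]
    exact H.sTe hB hS

theorem fT_eq (th st : Bool) (t K f : N) : fT th st t K f =
  (one.lt K || K.lt (bif th then cst 3969 10000 else cst 4225 10000) ||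
    (bif th then cst 4831 10000 else cst 6842 10000).lt f ||
    sT th st t K (N.sub one (N.add one f.sq).inv)) := rfl

theorem fT_a {K : ℝ} {B : N} (hB : Mem K B) (h : 4225 / 10000 ≤ K) :
    B.lt (cst 4225 10000) = false :=
  ff_lt hB (mem_nat (by norm_num) (by norm_num : (4225 / 10000 : ℝ) = _)) h

theorem fT_b {K : ℝ} {B : N} (hB : Mem K B) (h : K ≤ 6842 / 10000) :
    (cst 6842 10000).lt B = false :=
  ff_lt (mem_nat (by norm_num) (by norm_num : (6842 / 10000 : ℝ) = _)) hB h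

theorem fT_c {K : ℝ} {B : N} (hB : Mem K B) (h : 3969 / 10000 ≤ K) :
    B.lt (cst 3969 10000) = false :=
  ff_lt hB (mem_nat (by norm_num) (by norm_num : (3969 / 10000 : ℝ) = _)) h

theorem fT_d {K : ℝ} {B : N} (hB : Mem K B) (h : K ≤ 4831 / 10000) :
    (cst 4831 10000).lt B = false :=
  ff_lt (mem_nat (by norm_num) (by norm_num : (4831 / 10000 : ℝ) = _)) hB h

theorem Nb.Ka {st : Bool} {t K f κ : ℝ} (H : Nb false st t K f κ) :
    4225 / 10000 ≤ K ∧ f ≤ 6842 / 10000 := by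
  have h := H.Kl
  have h' := H.f1
  rw [cond_false] at h h'
  exact ⟨h, h'⟩

theorem Nb.Kb {st : Bool} {t K f κ : ℝ} (H : Nb true st t K f κ) :
    3969 / 10000 ≤ K ∧ f ≤ 4831 / 10000 := by
  have h := H.Kl
  have h' := H.f1
  rw [cond_true] at h h'
  exact ⟨h, h'⟩

theorem Nb.lt_one {th st : Bool} {t K f κ : ℝ} (H : Nb th st t K f κ) {B : N}
    (hB : Mem K B) : one.lt B = false := ff_lt mem_one hB H.K1
theorem Nb.y_s {th st : Bool} {t K f κ : ℝ} (H : Nb th st t K f κ) {A B F : N} (hA : Mem t A)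
    (hB : Mem K B) (hF : Mem f F) : J6.sT th st A B (N.sub one (N.add one F.sq).inv) = false := H.sT hA hB (mem_sR hF)
theorem Nb.y_K {th st : Bool} {t K f κ : ℝ} (H : Nb th st t K f κ) {A B F : N} (hA : Mem t A)
    (hB : Mem K B) (hF : Mem f F) : B.lt (bif th then cst 3969 10000 else cst 4225 10000) = false := by
   rcases th with _ | _
   · rw [cond_false]
     exact fT_a hB H.Ka.1
   · rw [cond_true]
     exact fT_c hB H.Kb.1
theorem Nb.y_f {th st : Bool} {t K f κ : ℝ} (H : Nb th st t K f κ) {A B F : N} (hA : Mem t A)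
    (hB : Mem K B) (hF : Mem f F) : (bif th then cst 4831 10000 else cst 6842 10000).lt F = false := by
   rcases th with _ | _
   · rw [cond_false]
     exact fT_b hF H.Ka.2
   · rw [cond_true]
     exact fT_d hF H.Kb.2

theorem Nb.y_all {th st : Bool} {t K f κ : ℝ} (H : Nb th st t K f κ) {A B F : N} (hA : Mem t A)
    (hB : Mem K B) (hF : Mem f F) : (one.lt B || B.lt (bif th then cst 3969 10000 else cst 4225 10000) ||
    (bif th then cst 4831 10000 else cst 6842 10000).lt F ||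
    J6.sT th st A B (N.sub one (N.add one F.sq).inv)) = false := by
  refine ff_or (ff_or (ff_or (H.lt_one hB) (H.y_K hA hB hF)) (H.y_f hA hB hF)) (H.y_s hA hB hF)
theorem Nb.fT_ff {th st : Bool} {t K f κ : ℝ} (H : Nb th st t K f κ) {A B F : N} (hA : Mem t A)
    (hB : Mem K B) (hF : Mem f F) : J6.fT th st A B F = false := by
  rw [fT_eq]
  exact H.y_all hA hB hF

theorem mT_ff {th st : Bool} {t d a P c m κ : ℝ} {tN dN aN PN cN mN : N} (ht : Mem t tN)
    (hd : Mem d dN) (ha : Mem a aN) (hP : Mem P PN) (hc : Mem c cN) (hg : Mem m mN)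
    (h1 : (N.sub one PN.sq).ps = true) (hP0 : 0 < P) (hP1 : P < 1) (hm : a * m ≤ 1)
    (H : Nb th st t (KRp d P c) (fRp a m) κ) : mT th st tN dN aN PN cN mN = false := by
  have hP2 : P ^ 2 ≤ 1 := by nlinarith
  have hp1 : Mem ((1 - P ^ 2)⁻¹ - 1) (N.sub (N.sub one PN.sq).inv one) := by
    refine ((mem_one.sub hP.sq hP2).inv h1).sub mem_one ?_
    exact (one_le_inv₀ (by nlinarith)).2 (by nlinarith)
  unfold mT
  refine ff_or (ff_lt mem_one (ha.mul hg) hm) ?_
  rcases h3 : (N.add mN aN).ps with _ | _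
  · rfl
  · rw [Bool.true_and]
    refine H.fT_ff ht ?_ ?_
    · unfold KRp
      exact (hp1.add ((mem_one.add hc.sq).inv (ps_one_add _))).mul hd
    · unfold fRp
      exact (mem_one.sub (ha.mul hg) hm).mul ((hg.add ha).inv h3)

theorem gT_ff {th st : Bool} {t d a P c m κ : ℝ} {tN dN aN PN cN mN : N} (ht : Mem t tN)
    (hd : Mem d dN) (ha : Mem a aN) (hP : Mem P PN) (hc : Mem c cN) (hg : Mem m mN)
    (h1 : (N.sub one PN.sq).ps = true) (hP0 : 0 < P) (hP1 : P < 1) (hm : a ≤ m)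
    (H : Nb th st t (KRm d P c) (fRm a m) κ) : gT th st tN dN aN PN cN mN = false := by
  have hP2 : P ^ 2 ≤ 1 := by nlinarith
  have hp1 : Mem ((1 - P ^ 2)⁻¹ - 1) (N.sub (N.sub one PN.sq).inv one) := by
    refine ((mem_one.sub hP.sq hP2).inv h1).sub mem_one ?_
    exact (one_le_inv₀ (by nlinarith)).2 (by nlinarith)
  unfold gT
  refine ff_or (ff_lt hg ha hm) ?_
  refine H.fT_ff ht ?_ ?_
  · unfold KRm
    exact (hp1.add (mem_sR hc)).mul hd
  · unfold fRm
    exact (hg.sub ha hm).mul ((mem_one.add (ha.mul hg)).inv (ps_one_add _))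

theorem nT_eq (th st pl : Bool) (t iD a P X v : N) : nT th st pl t iD a P X v =
  ((N.sub one P.sq).ps && P.ps &&
  bif pl then mT th st t iD a P (N.mul (N.sub X v) (N.add one (N.mul X v)).inv)
    (N.mul (N.mul (N.sub X v) (N.add one (N.mul X v)).inv) P)
  else gT th st t iD a P (N.mul (N.sub one (N.mul X v)) (N.add X v).inv)
    (N.mul (N.mul (N.sub one (N.mul X v)) (N.add X v).inv) P.inv)) := rfl

theorem nT_ff {th st pl : Bool} {t d a P X v κ : ℝ} {tN dN aN PN XN vN : N} (ht : Mem t tN)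
    (hd : Mem d dN) (ha : Mem a aN) (hP : Mem P PN) (hX : Mem X XN) (hv : Mem v vN)
    (hX0 : XN.ps = true) (hvX : v ≤ X) (hXv : X * v ≤ 1) (hP1 : P < 1)
    (hm : mR pl a P X v) (H : Nb th st t (KR pl d P X v) (fR pl a P X v) κ) :
    nT th st pl tN dN aN PN XN vN = false := by
  rw [nT_eq]
  rcases h1 : (N.sub one PN.sq).ps with _ | _
  · rw [Bool.false_and, Bool.false_and]
  rcases h2 : PN.ps with _ | _
  · rw [Bool.and_false, Bool.false_and]
  rw [Bool.true_and, Bool.true_and]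
  have hP0 : 0 < P := hP.pos h2
  unfold mR at hm
  unfold KR fR at H
  rcases pl with _ | _
  · rw [cond_false] at hm ⊢
    rw [cond_false, cond_false] at H
    have hr : Mem (rR X v) (N.mul (N.sub one (N.mul XN vN)) (N.add XN vN).inv) := by
      unfold rR
      exact (mem_one.sub (hX.mul hv) hXv).mul ((hX.add hv).inv (ps_add_left hX0))
    exact gT_ff ht hd ha hP hr (hr.mul (hP.inv h2)) h1 hP0 hP1 hm H
  · rw [cond_true] at hm ⊢
    rw [cond_true, cond_true] at H
    have hc : Mem (cR X v) (N.mul (N.sub XN vN) (N.add one (N.mul XN vN)).inv) := by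
      unfold cR
      exact (hX.sub hv hvX).mul ((mem_one.add (hX.mul hv)).inv (ps_one_add _))
    exact mT_ff ht hd ha hP hc (hc.mul hP) h1 hP0 hP1 hm H

theorem mem_pP {h E : ℝ} {hN EN : N} (h1 : Mem h hN) (h2 : Mem E EN) :
    Mem (pR true h E) (pP hN EN) := by
  unfold pR
  rw [cond_true]
  exact (h1.add h2).mul ((mem_one.add (h1.mul h2)).inv (ps_one_add _))

theorem mem_pM {h E : ℝ} {hN EN : N} (h1 : Mem h hN) (h2 : Mem E EN)
    (h3 : (N.sub one (N.mul hN EN)).ps = true) (h4 : h * E ≤ 1) (h5 : E ≤ h)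
    (h6 : 2 / 5 * h ≤ pR false h E) : Mem (pR false h E) (pM hN EN) := by
  have h7 : Mem (pR false h E) (N.mul (N.sub hN EN) (N.sub one (N.mul hN EN)).inv) := by
    unfold pR
    rw [cond_false]
    exact (h1.sub h2 h5).mul ((mem_one.sub (h1.mul h2) h4).inv h3)
  constructor
  · show ((mx (N.mul (N.sub hN EN) (N.sub one (N.mul hN EN)).inv).lo (Nat.div (Nat.mul 2 hN.lo) 5) : ℕ) : ℝ) ≤ _
    rcases mx_cases (N.mul (N.sub hN EN) (N.sub one (N.mul hN EN)).inv).lo (Nat.div (Nat.mul 2 hN.lo) 5) with e | e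
    · rw [e]; exact h7.1
    · rw [e]
      refine (nat_div_le _ _).trans ?_
      have e1 : ((Nat.mul 2 hN.lo : ℕ) : ℝ) = 2 * hN.lo := by
        show ((2 * hN.lo : ℕ) : ℝ) = _
        push_cast; ring
      rw [e1]
      push_cast
      rw [div_le_iff₀ (by norm_num)]
      have := h1.1
      linarith
  · exact h7.2

theorem pR_lt {s : Bool} {h E : ℝ} (h0 : 0 < h) (h1 : h < 1) (E0 : 0 ≤ E) (Eh : E < h) :
    pR s h E < 1 := by
  unfold pR
  rcases s with _ | _
  · rw [cond_false, ← div_eq_mul_inv, div_lt_one (by nlinarith)]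
    nlinarith
  · rw [cond_true, ← div_eq_mul_inv, div_lt_one (by nlinarith)]
    nlinarith

theorem nn_eq (tj tk st sE sv : Bool) (t iD a X h E v : N) : nn tj tk st sE sv t iD a X h E v =
  (bif sE then nT tj st sv t iD a (pP h E) X v || nT tk st (!sv) t iD a (pM h E) X v
  else nT tj st sv t iD a (pM h E) X v || nT tk st (!sv) t iD a (pP h E) X v) := rfl

theorem Fa.nn {tj tk st sE sv : Bool} {X h E v κj κk : ℝ} (H : Fa tj tk st sE sv X h E v κj κk)
    {tN dN aN XN hN EN vN : N} (ht : Mem (tR X h) tN) (hd : Mem (iD X h) dN) (ha : Mem (aR X h) aN)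
    (hX : Mem X XN) (hh : Mem h hN) (hE : Mem E EN) (hv : Mem v vN)
    (hX0 : XN.ps = true) (h3 : (N.sub one (N.mul hN EN)).ps = true) :
    J6.nn tj tk st sE sv tN dN aN XN hN EN vN = false := by
  have h4 : h * E ≤ 1 := by
    have := H.h0; have := H.h1; have := H.E0; have := H.Eh
    nlinarith
  have hp := mem_pP hh hE
  have hm := mem_pM hh hE h3 h4 H.Eh.le H.pl
  have l1 := pR_lt (s := sE) H.h0 H.h1 H.E0 H.Eh
  have l2 := pR_lt (s := !sE) H.h0 H.h1 H.E0 H.Eh
  have nj := H.nj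
  have nk := H.nk
  have aj := H.aj
  have ak := H.ak
  rw [nn_eq]
  rcases sE with _ | _
  · rw [cond_false]
    rw [Bool.not_false] at l2 nk ak
    rw [nT_ff ht hd ha hm hX hv hX0 H.vX H.Xv l1 aj nj,
      nT_ff ht hd ha hp hX hv hX0 H.vX H.Xv l2 ak nk, Bool.false_or]
  · rw [cond_true]
    rw [Bool.not_true] at l2 nk ak
    rw [nT_ff ht hd ha hp hX hv hX0 H.vX H.Xv l1 aj nj,
      nT_ff ht hd ha hm hX hv hX0 H.vX H.Xv l2 ak nk, Bool.false_or]

theorem t2_eq (tj tk st sE sv : Bool) (X h E v X2 h2 t Ki : N) :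
  t2 tj tk st sE sv X h E v X2 h2 t Ki =
  (t.lt (cst 117 1000) || one.lt t || one.lt Ki || Ki.lt (cst 4225 10000) || h.lt E || X.lt v ||
  one.lt (N.mul X v) || ((N.add X2 h2).ps && (N.sub one (N.mul h E)).ps &&
  nn tj tk st sE sv t (N.mul (N.add one (N.mul X2 h2)) (N.add X2 h2).inv)
    (N.mul (N.mul h (N.sub one h2).inv) (N.add X X.inv)) X h E v)) := rfl

theorem ff_117 {t : ℝ} {T : N} (h : Mem t T) (h1 : 117 / 1000 ≤ t) :
    T.lt (cst 117 1000) = false :=
  ff_lt h (mem_nat (by norm_num) (by norm_num : (117 / 1000 : ℝ) = _)) h1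

theorem Fa.t2 {tj tk st sE sv : Bool} {X h E v κj κk : ℝ} (H : Fa tj tk st sE sv X h E v κj κk)
    {XN hN EN vN tN kN : N} (ht : Mem (tR X h) tN) (hk : Mem (kR X h) kN)
    (hX : Mem X XN) (hh : Mem h hN) (hE : Mem E EN) (hv : Mem v vN)
    (hX0 : XN.ps = true) (h1 : (N.sub one hN.sq).ps = true) :
    J6.t2 tj tk st sE sv XN hN EN vN XN.sq hN.sq tN kN = false := by
  have hh2 : h ^ 2 ≤ 1 := by
    have := H.h0; have := H.h1
    nlinarith
  rw [t2_eq, ff_117 ht H.t0, ff_lt mem_one ht H.t1, ff_lt mem_one hk H.k1, fT_a hk H.k0,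
    ff_lt hh hE H.Eh.le, ff_lt hX hv H.vX, ff_lt mem_one (hX.mul hv) H.Xv]
  rw [Bool.false_or, Bool.false_or, Bool.false_or, Bool.false_or, Bool.false_or, Bool.false_or,
    Bool.false_or]
  rcases h2 : (N.add XN.sq hN.sq).ps with _ | _
  · rw [Bool.false_and, Bool.false_and]
  rcases h3 : (N.sub one (N.mul hN EN)).ps with _ | _
  · rw [Bool.and_false, Bool.false_and]
  rw [Bool.true_and, Bool.true_and]
  refine H.nn ht ?_ ?_ hX hh hE hv hX0 h3
  · unfold iD
    exact (mem_one.add (hX.sq.mul hh.sq)).mul ((hX.sq.add hh.sq).inv h2)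
  · unfold aR
    exact (hh.mul ((mem_one.sub hh.sq hh2).inv h1)).mul (hX.add (hX.inv hX0))

/-- Soundness of the test. -/
theorem tst_sound {obj : N → N → N → N → N → N → N → N → Bool} {tj tk st sE sv : Bool}
    {P : ℝ → ℝ → ℝ → ℝ → Prop} {Q : ℝ → ℝ → ℝ → ℝ → Prop}
    (hF : ∀ X h E v, Q X h E v → ∃ κj κk, Fa tj tk st sE sv X h E v κj κk)
    (ho : ∀ X h E v XN hN EN vN tN kN, Q X h E v → Mem X XN → Mem h hN → Mem E EN → Mem v vN →
      Mem (tR X h) tN → Mem (kR X h) kN → XN.ps = true → hN.ps = true →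
      obj XN hN EN vN XN.sq hN.sq tN kN = true → P X h E v)
    (A B C D : N) (h : tst obj tj tk st sE sv A B C D = true) (a b c d : ℝ) (ha : Mem a A)
    (hb : Mem b B) (hc : Mem c C) (hd : Mem d D) : Q a b c d → P a b c d := by
  intro hQ
  obtain ⟨κj, κk, H⟩ := hF a b c d hQ
  have h : (A.ps && B.ps && (N.sub one B.sq).ps && (N.mul (N.add one A.sq) (N.sub one B.sq)).ps &&
    (obj A B C D A.sq B.sq (N.mul (N.mul B.sq (N.sub one B.sq).inv) (N.add one A.sq))
      (N.mul (N.add one (N.mul A.sq B.sq)) (N.mul (N.add one A.sq) (N.sub one B.sq)).inv) ||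
    J6.t2 tj tk st sE sv A B C D A.sq B.sq (N.mul (N.mul B.sq (N.sub one B.sq).inv) (N.add one A.sq))
      (N.mul (N.add one (N.mul A.sq B.sq)) (N.mul (N.add one A.sq) (N.sub one B.sq)).inv))) = true := h
  rw [Bool.and_eq_true, Bool.and_eq_true, Bool.and_eq_true, Bool.and_eq_true] at h
  obtain ⟨⟨⟨⟨h1, h5⟩, h2⟩, h3⟩, h4⟩ := h
  have hb2 : b ^ 2 ≤ 1 := by
    have := H.h0; have := H.h1
    nlinarith
  have m1 := (mem_one.sub hb.sq hb2)
  have ht : Mem (tR a b) (N.mul (N.mul B.sq (N.sub one B.sq).inv) (N.add one A.sq)) := by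
    unfold tR
    exact (hb.sq.mul (m1.inv h2)).mul (mem_one.add ha.sq)
  have hk : Mem (kR a b) (N.mul (N.add one (N.mul A.sq B.sq)) (N.mul (N.add one A.sq) (N.sub one B.sq)).inv) := by
    unfold kR
    exact (mem_one.add (ha.sq.mul hb.sq)).mul (((mem_one.add ha.sq).mul m1).inv h3)
  rw [H.t2 ht hk ha hb hc hd h1 h2, Bool.or_false] at h4
  exact ho a b c d A B C D _ _ hQ ha hb hc hd ht hk h1 h5 h4

end Pool.Agent.S3.E.J6
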