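import Pool.Agent.S3.E.GeoC
import Pool.Agent.S3.E.J6T
import Pool.Agent.S3.Q

/-!
# Stage 3, block E: the facts used by the branch and bound test
-/

set_option autoImplicit false

namespace Pool.Agent.S3.E.J6

open Complex

theorem th_pos {x : ℝ} (h : 0 < x) : 0 < Real.tanh x := by
  rw [Real.tanh_eq_sinh_div_cosh]
  exact div_pos (Real.sinh_pos_iff.2 h) (Real.cosh_pos x)

theorem th_add (x y : ℝ) : Real.tanh (x + y) =
    (Real.tanh x + Real.tanh y) * (1 + Real.tanh x * Real.tanh y)⁻¹ := by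
  have hx := Real.cosh_pos x
  have hy := Real.cosh_pos y
  have hxy := Real.cosh_pos (x + y)
  rw [Real.cosh_add] at hxy
  rw [Real.tanh_eq_sinh_div_cosh, Real.tanh_eq_sinh_div_cosh x, Real.tanh_eq_sinh_div_cosh y,
    Real.sinh_add, Real.cosh_add, ← div_eq_mul_inv]
  have h1 : 1 + Real.sinh x / Real.cosh x * (Real.sinh y / Real.cosh y) =
      (Real.cosh x * Real.cosh y + Real.sinh x * Real.sinh y) / (Real.cosh x * Real.cosh y) := by
    field_simp
  rw [h1, div_eq_div_iff hxy.ne' (div_pos hxy (mul_pos hx hy)).ne']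
  field_simp

theorem th_sub (x y : ℝ) : Real.tanh (x - y) =
    (Real.tanh x - Real.tanh y) * (1 - Real.tanh x * Real.tanh y)⁻¹ := by
  have := th_add x (-y)
  rw [Real.tanh_neg] at this
  rw [sub_eq_add_neg, this]
  ring

theorem th_sq_inv (x : ℝ) : (1 - Real.tanh x ^ 2)⁻¹ = 1 + Real.sinh x ^ 2 := by
  have h := Real.cosh_sq x
  have hx := Real.cosh_pos x
  have h1 : 1 - Real.tanh x ^ 2 = (Real.cosh x ^ 2)⁻¹ := by
    rw [Real.tanh_eq_sinh_div_cosh]
    field_simp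
    linarith
  rw [h1, inv_inv]
  linarith

theorem tan_sq_inv {x : ℝ} (h : Real.cos x ≠ 0) : (1 + Real.tan x ^ 2)⁻¹ = Real.cos x ^ 2 := by
  rw [Real.inv_one_add_tan_sq h]

theorem th_deriv (p : ℝ) : HasDerivAt (fun q => Real.tanh q) (1 / Real.cosh p ^ 2) p := by
  have hc := Real.cosh_pos p
  have h1 : HasDerivAt (fun q => Real.sinh q / Real.cosh q)
      ((Real.cosh p * Real.cosh p - Real.sinh p * Real.sinh p) / Real.cosh p ^ 2) p :=
    (Real.hasDerivAt_sinh p).div (Real.hasDerivAt_cosh p) hc.ne'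
  have h2 : (fun q => Real.sinh q / Real.cosh q) = (fun q => Real.tanh q) := by
    funext q; rw [Real.tanh_eq_sinh_div_cosh]
  rw [h2] at h1
  refine h1.congr_deriv ?_
  have := Real.cosh_sq p
  congr 1
  nlinarith

/-- `c tanh y ≤ tanh (c y)` for `0 ≤ c ≤ 1`, `0 ≤ y`. -/
theorem th_mul {c y : ℝ} (c0 : 0 ≤ c) (c1 : c ≤ 1) (hy : 0 ≤ y) :
    c * Real.tanh y ≤ Real.tanh (c * y) := by
  have hd : ∀ x : ℝ, HasDerivAt (fun x => Real.tanh (c * x) - c * Real.tanh x)
      (1 / Real.cosh (c * x) ^ 2 * c - c * (1 / Real.cosh x ^ 2)) x := by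
    intro x
    have e1 : HasDerivAt (fun x : ℝ => c * x) c x := by
      simpa using (hasDerivAt_id x).const_mul c
    exact ((th_deriv (c * x)).comp x e1).sub ((th_deriv x).const_mul c)
  have hm : MonotoneOn (fun x => Real.tanh (c * x) - c * Real.tanh x) (Set.Ici 0) := by
    refine monotoneOn_of_deriv_nonneg (convex_Ici 0)
      (fun x _ => (hd x).continuousAt.continuousWithinAt)
      (fun x _ => (hd x).differentiableAt.differentiableWithinAt) ?_
    intro x hx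
    rw [interior_Ici] at hx
    have hx0 : 0 < x := hx
    rw [(hd x).deriv]
    have h1 : Real.cosh (c * x) ≤ Real.cosh x := by
      rw [Real.cosh_le_cosh, abs_of_nonneg (by positivity), abs_of_nonneg hx0.le]
      nlinarith
    have h2 : 1 / Real.cosh x ^ 2 ≤ 1 / Real.cosh (c * x) ^ 2 :=
      one_div_le_one_div_of_le (by have := Real.cosh_pos (c * x); positivity)
        (pow_le_pow_left₀ (Real.cosh_pos _).le h1 2)
    nlinarith
  have h0 := hm (Set.mem_Ici.2 le_rfl) (Set.mem_Ici.2 hy) hy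
  simp only [mul_zero, Real.tanh_zero, sub_zero] at h0
  linarith

/-- `tanh x / x` decreases. -/
theorem th_ratio {x y : ℝ} (h0 : 0 ≤ x) (hxy : x ≤ y) (hy : 0 < y) :
    x * Real.tanh y ≤ y * Real.tanh x := by
  have h := th_mul (c := x / y) (y := y) (by positivity) ((div_le_one hy).2 hxy) hy.le
  rw [div_mul_cancel₀ _ hy.ne', div_mul_eq_mul_div, div_le_iff₀ hy] at h
  linarith

theorem th_lt {x y : ℝ} (h : x < y) : Real.tanh x < Real.tanh y := by
  rw [Real.tanh_eq_sinh_div_cosh, Real.tanh_eq_sinh_div_cosh,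
    div_lt_div_iff₀ (Real.cosh_pos _) (Real.cosh_pos _)]
  have h1 : 0 < Real.sinh (y - x) := Real.sinh_pos_iff.2 (by linarith)
  rw [Real.sinh_sub] at h1
  linarith

/-- The two parts of `sinh q cos z = conj (cos w) sin z`. -/
theorem slot_parts {z q κ : ℂ} (hc : cos z ≠ 0) (hs : sinh q = κ * tan z) :
    Real.sinh q.re * Real.cos q.im * (Real.cos z.re * Real.cosh z.im) +
      Real.cosh q.re * Real.sin q.im * (Real.sin z.re * Real.sinh z.im) =
      κ.re * (Real.sin z.re * Real.cosh z.im) - κ.im * (Real.cos z.re * Real.sinh z.im) ∧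
    Real.cosh q.re * Real.sin q.im * (Real.cos z.re * Real.cosh z.im) -
      Real.sinh q.re * Real.cos q.im * (Real.sin z.re * Real.sinh z.im) =
      κ.re * (Real.cos z.re * Real.sinh z.im) + κ.im * (Real.sin z.re * Real.cosh z.im) := by
  have h1 : sinh q * cos z = κ * sin z := by
    rw [hs, tan_eq_sin_div_cos]
    field_simp
  have hre := congrArg re h1
  have him := congrArg im h1
  rw [mul_re, mul_re, sinh_re', sinh_im', GeoC_cos_re, GeoC_cos_im, GeoC_sin_re, GeoC_sin_im] at hre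
  rw [mul_im, mul_im, sinh_re', sinh_im', GeoC_cos_re, GeoC_cos_im, GeoC_sin_re, GeoC_sin_im] at him
  constructor
  · linear_combination hre
  · linear_combination him

/-- The slot in terms of `X = tan R`, `h = tanh I`, `P = tanh p`, `T = tan r`. -/
theorem slot_xy {z q κ : ℂ} (h0 : 0 < z.re) (h1 : z.re < Real.pi / 2)
    (hr0 : 0 < q.im) (hr1 : q.im < Real.pi / 2) (hs : sinh q = κ * tan z) :
    κ.im * (Real.tan z.re ^ 2 + Real.tanh z.im ^ 2) =
      (Real.cosh q.re * Real.cos q.im) * (Real.tan q.im * Real.tan z.re * (1 - Real.tanh z.im ^ 2) -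
        Real.tanh q.re * Real.tanh z.im * (1 + Real.tan z.re ^ 2)) ∧
    κ.re * (Real.tan z.re ^ 2 + Real.tanh z.im ^ 2) =
      (Real.cosh q.re * Real.cos q.im) * (Real.tanh q.re * Real.tan z.re * (1 - Real.tanh z.im ^ 2) +
        Real.tan q.im * Real.tanh z.im * (1 + Real.tan z.re ^ 2)) := by
  have cz : 0 < Real.cos z.re := GeoX_cos_pos h0 h1
  have cq : 0 < Real.cos q.im := GeoX_cos_pos hr0 hr1
  have chz := Real.cosh_pos z.im
  have chq := Real.cosh_pos q.re
  have hc : cos z ≠ 0 := by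
    intro h
    have := congrArg re h
    rw [GeoC_cos_re, zero_re] at this
    nlinarith [mul_pos cz chz]
  obtain ⟨e1, e2⟩ := slot_parts hc hs
  have a1 : Real.sin z.re = Real.tan z.re * Real.cos z.re := (Real.tan_mul_cos cz.ne').symm
  have a2 : Real.sinh z.im = Real.tanh z.im * Real.cosh z.im := by
    rw [Real.tanh_eq_sinh_div_cosh]; field_simp
  have a3 : Real.sin q.im = Real.tan q.im * Real.cos q.im := (Real.tan_mul_cos cq.ne').symm
  have a4 : Real.sinh q.re = Real.tanh q.re * Real.cosh q.re := by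
    rw [Real.tanh_eq_sinh_div_cosh]; field_simp
  rw [a1, a2, a3, a4] at e1 e2
  have hne : Real.cos z.re * Real.cosh z.im ≠ 0 := (mul_pos cz chz).ne'
  have f1 : (Real.cosh q.re * Real.cos q.im) * (Real.tanh q.re +
      Real.tan q.im * Real.tan z.re * Real.tanh z.im) =
      κ.re * Real.tan z.re - κ.im * Real.tanh z.im := by
    apply mul_right_cancel₀ hne
    linear_combination e1
  have f2 : (Real.cosh q.re * Real.cos q.im) * (Real.tan q.im -
      Real.tanh q.re * Real.tan z.re * Real.tanh z.im) =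
      κ.re * Real.tanh z.im + κ.im * Real.tan z.re := by
    apply mul_right_cancel₀ hne
    linear_combination e2
  constructor
  · linear_combination (Real.tanh z.im) * f1 - (Real.tan z.re) * f2
  · linear_combination (-Real.tan z.re) * f1 - (Real.tanh z.im) * f2

/-- The norm of the slot. -/
theorem slot_K {z q κ : ℂ} (h0 : 0 < z.re) (h1 : z.re < Real.pi / 2)
    (hr0 : 0 < q.im) (hr1 : q.im < Real.pi / 2) (hs : sinh q = κ * tan z) :
    normSq κ = (Real.sinh q.re ^ 2 + Real.sin q.im ^ 2) * iD (Real.tan z.re) (Real.tanh z.im) := by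
  obtain ⟨e1, e2⟩ := slot_xy h0 h1 hr0 hr1 hs
  have cz : 0 < Real.cos z.re := GeoX_cos_pos h0 h1
  have cq : 0 < Real.cos q.im := GeoX_cos_pos hr0 hr1
  have X0 : 0 < Real.tan z.re := Real.tan_pos_of_pos_of_lt_pi_div_two h0 h1
  have chq := Real.cosh_pos q.re
  have chz := Real.cosh_pos z.im
  have a3 : Real.sin q.im = Real.tan q.im * Real.cos q.im := (Real.tan_mul_cos cq.ne').symm
  have a4 : Real.sinh q.re = Real.tanh q.re * Real.cosh q.re := by
    rw [Real.tanh_eq_sinh_div_cosh]; field_simp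
  have a5 := Real.cosh_sq q.re
  have a6 := Real.sin_sq_add_cos_sq q.im
  obtain ⟨X, hX⟩ : ∃ X, X = Real.tan z.re := ⟨_, rfl⟩
  obtain ⟨h, hh⟩ : ∃ h, h = Real.tanh z.im := ⟨_, rfl⟩
  obtain ⟨T, hT⟩ : ∃ T, T = Real.tan q.im := ⟨_, rfl⟩
  obtain ⟨P, hP⟩ : ∃ P, P = Real.tanh q.re := ⟨_, rfl⟩
  obtain ⟨C, hC⟩ : ∃ C, C = Real.cosh q.re := ⟨_, rfl⟩
  obtain ⟨c, hc⟩ : ∃ c, c = Real.cos q.im := ⟨_, rfl⟩
  rw [← hX, ← hh, ← hT, ← hP, ← hC, ← hc] at e1 e2
  rw [← hT, ← hc] at a3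
  rw [← hP, ← hC] at a4
  rw [a4, ← hC] at a5
  rw [a3, ← hc] at a6
  have D0 : 0 < X ^ 2 + h ^ 2 := by rw [hX]; positivity
  rw [a3, a4, iD, ← hX, ← hh, normSq_apply, ← mul_assoc]
  rw [eq_mul_inv_iff_mul_eq₀ D0.ne']
  apply mul_right_cancel₀ D0.ne'
  have key : (κ.re * κ.re + κ.im * κ.im) * (X ^ 2 + h ^ 2) * (X ^ 2 + h ^ 2) =
      (κ.re * (X ^ 2 + h ^ 2)) ^ 2 + (κ.im * (X ^ 2 + h ^ 2)) ^ 2 := by ring
  rw [key, e1, e2]
  linear_combination ((X ^ 2 + h ^ 2) * (1 + X ^ 2 * h ^ 2)) * (P ^ 2 * C ^ 2) * a6 +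
    ((X ^ 2 + h ^ 2) * (1 + X ^ 2 * h ^ 2)) * (T ^ 2 * c ^ 2) * a5

/-- The angle of the slot. -/
theorem slot_f {z q κ : ℂ} (h0 : 0 < z.re) (h1 : z.re < Real.pi / 2) (hI : 0 < z.im)
    (hp : 0 < q.re) (hr0 : 0 < q.im) (hr1 : q.im < Real.pi / 2) (hs : sinh q = κ * tan z)
    (hx : 0 < κ.re) :
    κ.im / κ.re * (Real.tanh q.re + aR (Real.tan z.re) (Real.tanh z.im) * Real.tan q.im) =
      Real.tan q.im - aR (Real.tan z.re) (Real.tanh z.im) * Real.tanh q.re := by
  obtain ⟨e1, e2⟩ := slot_xy h0 h1 hr0 hr1 hs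
  have cq : 0 < Real.cos q.im := GeoX_cos_pos hr0 hr1
  have X0 : 0 < Real.tan z.re := Real.tan_pos_of_pos_of_lt_pi_div_two h0 h1
  have chq := Real.cosh_pos q.re
  have g0 : 0 < Real.tanh z.im := th_pos hI
  have g1 : Real.tanh z.im < 1 := Real.tanh_lt_one _
  have Q0 : 0 < Real.tanh q.re := th_pos hp
  have T0 : 0 < Real.tan q.im := Real.tan_pos_of_pos_of_lt_pi_div_two hr0 hr1
  obtain ⟨X, hX⟩ : ∃ X, X = Real.tan z.re := ⟨_, rfl⟩
  obtain ⟨h, hh⟩ : ∃ h, h = Real.tanh z.im := ⟨_, rfl⟩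
  obtain ⟨T, hT⟩ : ∃ T, T = Real.tan q.im := ⟨_, rfl⟩
  obtain ⟨P, hP⟩ : ∃ P, P = Real.tanh q.re := ⟨_, rfl⟩
  obtain ⟨C, hC⟩ : ∃ C, C = Real.cosh q.re * Real.cos q.im := ⟨_, rfl⟩
  have C0 : 0 < C := by rw [hC]; positivity
  rw [← hC, ← hX, ← hh, ← hT, ← hP] at e1 e2
  rw [← hX] at X0
  rw [← hh] at g0 g1
  rw [← hX, ← hh, ← hT, ← hP, aR]
  have D0 : 0 < X ^ 2 + h ^ 2 := by positivity
  have h2 : 0 < 1 - h ^ 2 := by nlinarith
  have e3 : κ.im * (P * X * (1 - h ^ 2) + T * h * (1 + X ^ 2)) =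
      κ.re * (T * X * (1 - h ^ 2) - P * h * (1 + X ^ 2)) := by
    apply mul_left_cancel₀ (mul_pos C0 D0).ne'
    linear_combination (C * (P * X * (1 - h ^ 2) + T * h * (1 + X ^ 2))) * e1 -
      (C * (T * X * (1 - h ^ 2) - P * h * (1 + X ^ 2))) * e2
  rw [div_mul_eq_mul_div, div_eq_iff hx.ne']
  field_simp
  linear_combination e3

theorem cR_eq {R n : ℝ} (hR : 0 < R) (hR1 : R < Real.pi / 2) (hn : 0 ≤ n) (hn1 : n < R) :
    cR (Real.tan R) (Real.tan n) = (Real.tan (Real.pi / 2 - (R - n)))⁻¹ := by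
  have c1 : 0 < Real.cos R := GeoX_cos_pos hR hR1
  have c2 : 0 < Real.cos n := Real.cos_pos_of_mem_Ioo ⟨by linarith, by linarith⟩
  have c3 : 0 < Real.cos (R - n) := Real.cos_pos_of_mem_Ioo ⟨by linarith, by linarith⟩
  rw [Real.tan_pi_div_two_sub, inv_inv, cR, ← div_eq_mul_inv]
  rw [Real.cos_sub] at c3
  have t1 : 0 ≤ Real.tan R := Real.tan_nonneg_of_nonneg_of_le_pi_div_two hR.le hR1.le
  have t2 : 0 ≤ Real.tan n := Real.tan_nonneg_of_nonneg_of_le_pi_div_two hn (by linarith)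
  have h1 : 0 < 1 + Real.tan R * Real.tan n := by positivity
  rw [Real.tan_eq_sin_div_cos (R - n), Real.sin_sub, Real.cos_sub, div_eq_div_iff h1.ne' c3.ne',
    Real.tan_eq_sin_div_cos, Real.tan_eq_sin_div_cos]
  field_simp

theorem rR_eq {R n : ℝ} (hR : 0 < R) (hn : 0 ≤ n) (hn1 : R + n < Real.pi / 2) :
    rR (Real.tan R) (Real.tan n) = Real.tan (Real.pi / 2 - (R + n)) := by
  have c1 : 0 < Real.cos R := GeoX_cos_pos hR (by linarith)
  have c2 : 0 < Real.cos n := Real.cos_pos_of_mem_Ioo ⟨by linarith, by linarith⟩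
  have c3 : 0 < Real.cos (R + n) := Real.cos_pos_of_mem_Ioo ⟨by linarith, by linarith⟩
  have c4 : 0 < Real.sin (R + n) := Real.sin_pos_of_pos_of_lt_pi (by linarith)
    (by linarith)
  rw [Real.tan_pi_div_two_sub, rR, ← div_eq_mul_inv]
  have t1 : 0 < Real.tan R := Real.tan_pos_of_pos_of_lt_pi_div_two hR (by linarith)
  have t2 : 0 ≤ Real.tan n := Real.tan_nonneg_of_nonneg_of_le_pi_div_two hn (by linarith)
  have h1 : 0 < Real.tan R + Real.tan n := by positivity
  rw [Real.tan_eq_sin_div_cos (R + n), inv_div, div_eq_div_iff h1.ne' c4.ne',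
    Real.sin_add, Real.cos_add, Real.tan_eq_sin_div_cos, Real.tan_eq_sin_div_cos]
  field_simp

theorem tm_le {s K κ M : ℝ} (hs : s * (1 + κ) ^ 2 = κ * (1 + κ - K)) (h0 : 0 ≤ κ) (hM : κ ≤ M)
    (hK0 : 0 ≤ K) (hK : K ≤ 1) : s * (1 + M) ^ 2 ≤ M * (1 + M - K) := by
  have h1 : 0 < (1 + κ) ^ 2 := by positivity
  refine le_of_mul_le_mul_right ?_ h1
  have h2 : 0 ≤ (M - κ) * ((1 + M) * (1 + κ) - K * (1 - M * κ)) := by
    refine mul_nonneg (by linarith) ?_
    have : 0 ≤ M * κ := mul_nonneg (by linarith) h0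
    nlinarith
  calc s * (1 + M) ^ 2 * (1 + κ) ^ 2 = κ * (1 + κ - K) * (1 + M) ^ 2 := by rw [← hs]; ring
    _ ≤ M * (1 + M - K) * (1 + κ) ^ 2 := by linarith

theorem tm_ge {s K κ M : ℝ} (hs : s * (1 + κ) ^ 2 = κ * (1 + κ - K)) (h0 : 0 ≤ M) (hM : M ≤ κ)
    (hK0 : 0 ≤ K) (hK : K ≤ 1) : M * (1 + M - K) ≤ s * (1 + M) ^ 2 := by
  have k0 : 0 ≤ κ := h0.trans hM
  have h1 : 0 < (1 + κ) ^ 2 := by positivity
  refine le_of_mul_le_mul_right ?_ h1
  have h2 : 0 ≤ (κ - M) * ((1 + M) * (1 + κ) - K * (1 - M * κ)) := by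
    refine mul_nonneg (by linarith) ?_
    have : 0 ≤ M * κ := mul_nonneg h0 (by linarith)
    nlinarith
  calc M * (1 + M - K) * (1 + κ) ^ 2 ≤ κ * (1 + κ - K) * (1 + M) ^ 2 := by linarith
    _ = s * (1 + M) ^ 2 * (1 + κ) ^ 2 := by rw [← hs]; ring

/-- The facts about a neighbour, from its own variables. -/
theorem mkNb {th st : Bool} {t κ b x y K f : ℝ} (hx : 0 < x) (hy : 0 ≤ y)
    (hx2 : x ^ 2 = b * (1 + κ * b)) (hy2 : y ^ 2 = κ * b * (1 - b)) (hK : K = b * (1 + κ))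
    (hf : f = y / x) (κ0 : 0 ≤ κ) (κ1 : κ ≤ 1) (b1 : b ≤ 1) (K1 : K ≤ 1) (b3 : 3454 / 10000 ≤ b)
    (hKl : (bif th then 3969 / 10000 else 4225 / 10000 : ℝ) ≤ K)
    (hfl : y ≤ (bif th then 4831 / 10000 else 6842 / 10000 : ℝ) * x)
    (j1 : ∀ p q : ℕ, Pr p q → t * 1000 ≤ p ∨ κ * 1000 ≤ q)
    (j2 : th = false → ∀ p q : ℕ, Pr p q → t * 1000 ≤ q ∨ κ * 1000 ≤ p)
    (t3 : th = true → κ * 1000 ≤ 361) (s4 : th = true → 49 / 100 ≤ K ∨ 11 / 100 ≤ y)
    (l0 : th = false → 117 / 1000 ≤ κ) (l1 : th = false → st = true → 1 / 4 ≤ κ)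
    (l2 : th = false → st = true → b ≤ 59 / 100) : Nb th st t K f κ := by
  have b0 : 0 < b := by linarith
  have K0 : 0 < K := by rw [hK]; exact mul_pos b0 (by linarith)
  have hxy : x ^ 2 + y ^ 2 = K := by rw [hx2, hy2, hK]; ring
  have hx20 : 0 < x ^ 2 := pow_pos hx 2
  have hsR : sR f * K = y ^ 2 := by
    have h1 : 1 + f ^ 2 = K / x ^ 2 := by
      rw [hf, ← hxy]
      field_simp
    rw [sR, h1, inv_div]
    field_simp
    linarith
  have hKs : K * sR f = (K - b) * (1 - b) := by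
    rw [mul_comm, hsR, hy2, hK]; ring
  have hs2 : sR f * (1 + κ) ^ 2 = κ * (1 + κ - K) := by
    apply mul_right_cancel₀ K0.ne'
    have : sR f * (1 + κ) ^ 2 * K = (sR f * K) * (1 + κ) ^ 2 := by ring
    rw [this, hsR, hy2, hK]
    ring
  refine ⟨K1, hKl, ?_, ?_, ?_, κ1, ?_, j1, j2, t3, ?_, ?_, ?_, ?_⟩
  · rw [hf]; positivity
  · rw [hf, div_le_iff₀ hx]; exact hfl
  · have h1 : (K - b) * (1 - b) ≤ (K - 3454 / 10000) * (1 - 3454 / 10000) := by
      refine mul_le_mul (by linarith) (by linarith) (by linarith) ?_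
      rw [hK]; nlinarith
    linarith
  · intro m hm
    have e := tm_le (M := m / 1000) hs2 κ0 (by rw [le_div_iff₀ (by norm_num)]; exact hm) K0.le K1
    have e1 : sR f * (((1000 + m : ℝ) * (1000 + m)) / 1000000) = sR f * (1 + m / 1000) ^ 2 := by ring
    have e2 : (m : ℝ) / 1000 * ((1000 + m) / 1000 - K) = m / 1000 * (1 + m / 1000 - K) := by ring
    rw [e1, e2]
    exact e
  · intro ht
    rcases s4 ht with e | e
    · exact Or.inl e
    · right
      rw [mul_comm, hsR]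
      nlinarith
  · intro ht
    have e := tm_ge (M := 117 / 1000) hs2 (by norm_num) (l0 ht) K0.le K1
    linarith
  · intro ht hst
    have e := tm_ge (M := 1 / 4) hs2 (by norm_num) (l1 ht hst) K0.le K1
    linarith
  · intro ht hst
    have hb := l2 ht hst
    rcases le_total K (59 / 100) with e | e
    · have h1 : 0 ≤ K * sR f := mul_nonneg K0.le (sR_nonneg f)
      linarith
    · have h1 : (K - 59 / 100) * (1 - 59 / 100) ≤ (K - b) * (1 - b) := by
        refine mul_le_mul (by linarith) (by linarith) (by norm_num) ?_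
        rw [hK]; nlinarith
      linarith

/-- The three functions of a slot. -/
theorem slot_fun {s : Bool} {X v a d f p r : ℝ} (hp : 0 < p) (hr0 : 0 < r) (hr1 : r < Real.pi / 2)
    (ha : 0 < a) (hs1 : s = true → cR X v = (Real.tan r)⁻¹) (hs2 : s = false → rR X v = Real.tan r)
    (hf0 : 0 ≤ f) (hf : f * (Real.tanh p + a * Real.tan r) = Real.tan r - a * Real.tanh p) :
    KR s d (Real.tanh p) X v = (Real.sinh p ^ 2 + Real.sin r ^ 2) * d ∧
      fR s a (Real.tanh p) X v = f ∧ mR s a (Real.tanh p) X v := by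
  have cr : 0 < Real.cos r := GeoX_cos_pos hr0 hr1
  have T0 : 0 < Real.tan r := Real.tan_pos_of_pos_of_lt_pi_div_two hr0 hr1
  have P0 : 0 < Real.tanh p := th_pos hp
  have scr := Real.sin_sq_add_cos_sq r
  have hsq := th_sq_inv p
  have htq := tan_sq_inv cr.ne'
  have hle : a * Real.tanh p ≤ Real.tan r := by
    have h1 : 0 ≤ f * (Real.tanh p + a * Real.tan r) := by positivity
    linarith
  have hden : 0 < Real.tanh p + a * Real.tan r := by positivity
  rcases s with _ | _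
  · have e := hs2 rfl
    refine ⟨?_, ?_, ?_⟩
    · unfold KR
      rw [cond_false, KRm, sR, e, hsq, htq]
      congr 1
      linarith
    · unfold fR
      rw [cond_false, fRm, e]
      rw [← div_eq_mul_inv, div_eq_iff (by positivity)]
      field_simp
      linarith
    · unfold mR
      rw [cond_false, e, ← div_eq_mul_inv, le_div_iff₀ P0]
      exact hle
  · have e := hs1 rfl
    refine ⟨?_, ?_, ?_⟩
    · unfold KR
      rw [cond_true, KRp, e, hsq]
      have h1 : (1 + ((Real.tan r)⁻¹) ^ 2)⁻¹ = Real.tan r ^ 2 * (1 + Real.tan r ^ 2)⁻¹ := by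
        have h2 : 1 + ((Real.tan r)⁻¹) ^ 2 = (1 + Real.tan r ^ 2) / Real.tan r ^ 2 := by
          field_simp
          ring
        rw [h2, inv_div, div_eq_mul_inv]
      rw [h1, htq, ← mul_pow, Real.tan_mul_cos cr.ne']
      congr 1
      ring
    · unfold fR
      rw [cond_true, fRp, e]
      rw [← div_eq_mul_inv, div_eq_iff (by positivity)]
      field_simp
      linarith
    · unfold mR
      rw [cond_true, e]
      rw [inv_mul_eq_div, mul_div_assoc', div_le_one T0]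
      exact hle

theorem pR_th (s : Bool) (I d : ℝ) : pR s (Real.tanh I) (Real.tanh d) =
    Real.tanh (bif s then I + d else I - d) := by
  unfold pR
  rcases s with _ | _
  · rw [cond_false, cond_false, th_sub]
  · rw [cond_true, cond_true, th_add]

/-- The facts at a vertex, from its own variables and the slots. -/
theorem fa_aux {tj tk st sE sv : Bool} {R I d n pj rj pk rk Kj Kk fj fk κj κk : ℝ}
    (R0 : 0 < R) (R1 : R < Real.pi / 2) (I0 : 0 < I) (d0 : 0 ≤ d) (n0 : 0 ≤ n)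
    (hpj : pj = bif sE then I + d else I - d) (hpk : pk = bif !sE then I + d else I - d)
    (hrj : rj = Real.pi / 2 - (bif sv then R - n else R + n))
    (hrk : rk = Real.pi / 2 - (bif !sv then R - n else R + n))
    (pj0 : 0 < pj) (pk0 : 0 < pk) (rj0 : 0 < rj) (rj1 : rj < Real.pi / 2)
    (rk0 : 0 < rk) (rk1 : rk < Real.pi / 2) (lo : 2 / 5 * I ≤ I - d)
    (t0 : 117 / 1000 ≤ tR (Real.tan R) (Real.tanh I)) (t1 : tR (Real.tan R) (Real.tanh I) ≤ 1)
    (k0 : 4225 / 10000 ≤ kR (Real.tan R) (Real.tanh I)) (k1 : kR (Real.tan R) (Real.tanh I) ≤ 1)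
    (hKj : Kj = (Real.sinh pj ^ 2 + Real.sin rj ^ 2) * iD (Real.tan R) (Real.tanh I))
    (hKk : Kk = (Real.sinh pk ^ 2 + Real.sin rk ^ 2) * iD (Real.tan R) (Real.tanh I))
    (fj0 : 0 ≤ fj) (fk0 : 0 ≤ fk)
    (hfj : fj * (Real.tanh pj + aR (Real.tan R) (Real.tanh I) * Real.tan rj) =
      Real.tan rj - aR (Real.tan R) (Real.tanh I) * Real.tanh pj)
    (hfk : fk * (Real.tanh pk + aR (Real.tan R) (Real.tanh I) * Real.tan rk) =
      Real.tan rk - aR (Real.tan R) (Real.tanh I) * Real.tanh pk)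
    (nj : Nb tj st (tR (Real.tan R) (Real.tanh I)) Kj fj κj)
    (nk : Nb tk st (tR (Real.tan R) (Real.tanh I)) Kk fk κk) :
    Fa tj tk st sE sv (Real.tan R) (Real.tanh I) (Real.tanh d) (Real.tan n) κj κk := by
  have dI : d < I := by
    rcases sE with _ | _
    · rw [hpj, cond_false] at pj0; linarith
    · rw [hpk, Bool.not_true, cond_false] at pk0; linarith
  have hnR : n < R ∧ R + n < Real.pi / 2 := by
    rcases sv with _ | _
    · rw [Bool.not_false, cond_true] at hrk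
      rw [cond_false] at hrj
      rw [hrj] at rj0
      rw [hrk] at rk1
      exact ⟨by linarith, by linarith⟩
    · rw [Bool.not_true, cond_false] at hrk
      rw [cond_true] at hrj
      rw [hrj] at rj1
      rw [hrk] at rk0
      exact ⟨by linarith, by linarith⟩
  obtain ⟨nR, Rn⟩ := hnR
  have X0 : 0 < Real.tan R := Real.tan_pos_of_pos_of_lt_pi_div_two R0 R1
  have h0 : 0 < Real.tanh I := th_pos I0
  have h1 : Real.tanh I < 1 := Real.tanh_lt_one I
  have E0 : 0 ≤ Real.tanh d := by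
    rcases d0.eq_or_lt with e | e
    · rw [← e, Real.tanh_zero]
    · exact (th_pos e).le
  have v0 : 0 ≤ Real.tan n := Real.tan_nonneg_of_nonneg_of_le_pi_div_two n0 (by linarith)
  have vX : Real.tan n ≤ Real.tan R := by
    rcases lt_or_eq_of_le nR.le with e | e
    · exact (Real.tan_lt_tan_of_nonneg_of_lt_pi_div_two n0 R1 e).le
    · rw [e]
  have Xv : Real.tan R * Real.tan n ≤ 1 := by
    have e1 : Real.tan n < Real.tan (Real.pi / 2 - R) :=
      Real.tan_lt_tan_of_nonneg_of_lt_pi_div_two n0 (by linarith) (by linarith)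
    rw [Real.tan_pi_div_two_sub] at e1
    have e2 := mul_le_mul_of_nonneg_left e1.le X0.le
    rwa [mul_inv_cancel₀ X0.ne'] at e2
  have ha : 0 < aR (Real.tan R) (Real.tanh I) := by
    unfold aR
    have : 0 < 1 - Real.tanh I ^ 2 := by nlinarith
    positivity
  have cc : ∀ s : Bool, ∀ r : ℝ, r = Real.pi / 2 - (bif s then R - n else R + n) →
      (s = true → cR (Real.tan R) (Real.tan n) = (Real.tan r)⁻¹) ∧
      (s = false → rR (Real.tan R) (Real.tan n) = Real.tan r) := by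
    intro s r hr
    constructor
    · intro hs
      rw [hr, hs, cond_true]
      exact cR_eq R0 R1 n0 nR
    · intro hs
      rw [hr, hs, cond_false]
      exact rR_eq R0 n0 Rn
  obtain ⟨cj1, cj2⟩ := cc sv rj hrj
  obtain ⟨ck1, ck2⟩ := cc (!sv) rk hrk
  obtain ⟨a1, a2, a3⟩ := slot_fun (d := iD (Real.tan R) (Real.tanh I)) pj0 rj0 rj1 ha cj1 cj2 fj0 hfj
  obtain ⟨b1, b2, b3⟩ := slot_fun (d := iD (Real.tan R) (Real.tanh I)) pk0 rk0 rk1 ha ck1 ck2 fk0 hfk
  have ej : pR sE (Real.tanh I) (Real.tanh d) = Real.tanh pj := by rw [pR_th, hpj]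
  have ek : pR (!sE) (Real.tanh I) (Real.tanh d) = Real.tanh pk := by rw [pR_th, hpk]
  refine ⟨X0, h0, h1, E0, th_lt dI, v0, vX, Xv, t0, t1, k0, k1, ?_, ?_, ?_, ?_, ?_⟩
  · rw [pR_th, cond_false]
    have e1 := th_mul (c := 2 / 5) (y := I) (by norm_num) (by norm_num) I0.le
    rcases lt_or_eq_of_le lo with e | e
    · exact e1.trans (th_lt e).le
    · rw [← e]; exact e1
  · rw [ej]; exact a3
  · rw [ek]; exact b3
  · rw [ej, a1, a2, ← hKj]; exact nj
  · rw [ek, b1, b2, ← hKk]; exact nk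

end Pool.Agent.S3.E.J6
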