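import Pool.Agent.S3.E.J5
import Pool.Agent.S3.E.J6F

/-!
# Stage 3, block E: the facts of the branch and bound test at a vertex
-/

set_option autoImplicit false

namespace Pool.Agent.S3.E

open Complex

/-- `cos² R ≥ .3454` for `R ≤ 3π/10`. -/
theorem cos_sq_ge_3454 {R : ℝ} (h0 : 0 < R) (h1 : R ≤ 3 / 10 * Real.pi) :
    3454 / 10000 ≤ Real.cos R ^ 2 := by
  have hpi := Real.pi_pos
  have h5 : Real.cos (2 * (3 / 10 * Real.pi)) ≤ Real.cos (2 * R) :=
    Real.cos_le_cos_of_nonneg_of_le_pi (by linarith) (by linarith) (by linarith)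
  have h6 : Real.cos (2 * (3 / 10 * Real.pi)) = -Real.cos (2 * (Real.pi / 5)) := by
    rw [← Real.cos_pi_sub]; congr 1; ring
  have h7 := Real.cos_pi_div_five
  have h9 := Real.sq_sqrt (show (0 : ℝ) ≤ 5 by norm_num)
  have h10 : √5 ≤ 2237 / 1000 := Real.sqrt_le_iff.2 ⟨by norm_num, by norm_num⟩
  rw [h6, Real.cos_two_mul (Real.pi / 5), h7, Real.cos_two_mul R] at h5
  nlinarith

namespace Zr

variable {ι : Type*} [Finite ι] {a : ι → ℝ} {nl nr : ι → Option ι} {z : ι → ℂ}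

theorem two_t_ge (h : Zr a nl nr 1 z) {i : ι} (hi : a i = 2) (hin : In2 nl nr i) :
    117 / 1000 ≤ Real.tan (th (z i).re (z i).im) ^ 2 := by
  obtain ⟨p1, p2, p3⟩ := h.pos i
  have thi0 := h.th_pos_i i
  have thi1 := th_lt p1 p2 p3
  have cθ : 0 < Real.cos (th (z i).re (z i).im) := Real.cos_pos_of_mem_Ioo ⟨by linarith, thi1⟩
  have hcosθ := Real.cos_sq' (th (z i).re (z i).im)
  have tθ : Real.tan (th (z i).re (z i).im) ^ 2 * Real.cos (th (z i).re (z i).im) ^ 2 =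
      1 - Real.cos (th (z i).re (z i).im) ^ 2 := by
    rw [← mul_pow, Real.tan_mul_cos cθ.ne']
    linarith
  have e := h.two_cos_le hi hin
  rw [Real.cos_two_mul] at e
  have e2 : Real.cos (th (z i).re (z i).im) ^ 2 ≤ 895 / 1000 := by linarith
  nlinarith [pow_pos cθ 2]

theorem two_t_le (h : Zr a nl nr 1 z) {i : ι} (hin : In2 nl nr i) :
    Real.tan (th (z i).re (z i).im) ^ 2 ≤ 1 := by
  obtain ⟨p1, p2, p3⟩ := h.pos i
  have thi0 := h.th_pos_i i
  have thi1 := th_lt p1 p2 p3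
  have cθ : 0 < Real.cos (th (z i).re (z i).im) := Real.cos_pos_of_mem_Ioo ⟨by linarith, thi1⟩
  have hcosθ := Real.cos_sq' (th (z i).re (z i).im)
  have tθ : Real.tan (th (z i).re (z i).im) ^ 2 * Real.cos (th (z i).re (z i).im) ^ 2 =
      1 - Real.cos (th (z i).re (z i).im) ^ 2 := by
    rw [← mul_pow, Real.tan_mul_cos cθ.ne']
    linarith
  have e : th (z i).re (z i).im ≤ Real.pi / 4 := h.th_le i (Or.inr (by
    obtain ⟨j, k, h1, h2⟩ := hin
    exact ⟨j, k, h1, h2⟩))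
  have e2 : 0 ≤ Real.cos (2 * th (z i).re (z i).im) :=
    Real.cos_nonneg_of_mem_Icc ⟨by linarith, by linarith⟩
  rw [Real.cos_two_mul] at e2
  nlinarith [pow_pos cθ 2]

/-- The algebraic data at a vertex. -/
theorem alg (h : Zr a nl nr 1 z) (j : ι) :
    0 < ((starRingEnd ℂ) (cos (z j))).re ∧ 0 ≤ ((starRingEnd ℂ) (cos (z j))).im ∧
    ((starRingEnd ℂ) (cos (z j))).re ^ 2 = Real.cos (z j).re ^ 2 *
      (1 + Real.tan (th (z j).re (z j).im) ^ 2 * Real.cos (z j).re ^ 2) ∧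
    ((starRingEnd ℂ) (cos (z j))).im ^ 2 = Real.tan (th (z j).re (z j).im) ^ 2 *
      Real.cos (z j).re ^ 2 * (1 - Real.cos (z j).re ^ 2) ∧
    normSq ((starRingEnd ℂ) (cos (z j))) = Real.cos (z j).re ^ 2 *
      (1 + Real.tan (th (z j).re (z j).im) ^ 2) ∧ 0 < Real.cos (z j).re ^ 2 ∧
    Real.cos (z j).re ^ 2 ≤ 1 ∧ normSq ((starRingEnd ℂ) (cos (z j))) ≤ 1 := by
  obtain ⟨q1, q2, q3⟩ := h.pos j
  have cj0 : 0 < Real.cos (z j).re := GeoX_cos_pos q1 q2
  have sj0 : 0 < Real.sin (z j).re := GeoX_sin_pos q1 q2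
  have shj0 : 0 < Real.sinh (z j).im := Real.sinh_pos_iff.2 q3
  have chj0 := Real.cosh_pos (z j).im
  have chj := Real.cosh_sq (z j).im
  have scj := Real.sin_sq_add_cos_sq (z j).re
  have tj := tan_th_sq q1 q2 q3
  have hK1 := h.k2_le j
  have er : ((starRingEnd ℂ) (cos (z j))).re = Real.cos (z j).re * Real.cosh (z j).im := by
    rw [conj_re, GeoC_cos_re]
  have ei : ((starRingEnd ℂ) (cos (z j))).im = Real.sin (z j).re * Real.sinh (z j).im := by
    rw [conj_im, GeoC_cos_im]; ring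
  have hK : normSq ((starRingEnd ℂ) (cos (z j))) = k2 (z j).re (z j).im := by
    rw [normSq_conj, normSq_eq_norm_sq, norm_cos_sq]
  have hs : Real.sin (z j).re ^ 2 = 1 - Real.cos (z j).re ^ 2 := by linarith
  refine ⟨?_, ?_, ?_, ?_, ?_, ?_, ?_, ?_⟩
  · rw [er]; positivity
  · rw [ei]; positivity
  · rw [er, mul_pow, chj, ← tj]; ring
  · rw [ei, mul_pow, hs, ← tj]; ring
  · rw [hK, GeoX_k2, chj, ← tj]; ring
  · positivity
  · nlinarith [sq_nonneg (Real.sin (z j).re)]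
  · rw [hK]; exact hK1

theorem Pr_real {p q : ℕ} (hp : J6.Pr p q) :
    (((q : ℝ) / 1000 = 1 / 10 ∧ (p : ℝ) / 1000 = 94 / 100) ∨
      ((q : ℝ) / 1000 = 1 / 5 ∧ (p : ℝ) / 1000 = 85 / 100) ∨
      ((q : ℝ) / 1000 = 1 / 4 ∧ (p : ℝ) / 1000 = 81 / 100) ∨
      ((q : ℝ) / 1000 = 3 / 10 ∧ (p : ℝ) / 1000 = 775 / 1000) ∨
      ((q : ℝ) / 1000 = 7 / 20 ∧ (p : ℝ) / 1000 = 745 / 1000) ∨
      ((q : ℝ) / 1000 = 2 / 5 ∧ (p : ℝ) / 1000 = 715 / 1000) ∨
      ((q : ℝ) / 1000 = 9 / 20 ∧ (p : ℝ) / 1000 = 69 / 100) ∨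
      ((q : ℝ) / 1000 = 1 / 2 ∧ (p : ℝ) / 1000 = 67 / 100) ∨
      ((q : ℝ) / 1000 = 11 / 20 ∧ (p : ℝ) / 1000 = 65 / 100) ∨
      ((q : ℝ) / 1000 = 3 / 5 ∧ (p : ℝ) / 1000 = 635 / 1000)) := by
  unfold J6.Pr at hp
  rcases hp with ⟨e, e'⟩ | ⟨e, e'⟩ | ⟨e, e'⟩ | ⟨e, e'⟩ | ⟨e, e'⟩ | ⟨e, e'⟩ | ⟨e, e'⟩ |
    ⟨e, e'⟩ | ⟨e, e'⟩ | ⟨e, e'⟩ <;> subst e <;> subst e' <;> norm_num

/-- The facts about an open neighbour of an inner vertex with two twists. -/
theorem nb_of (h : Zr a nl nr 1 z) (h3 : ∀ i, 3 ≤ a i → a i = 3 ∨ 4 ≤ a i) {i j k : ι}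
    (hi : a i = 2) (hij : (nl i = some j ∧ nr i = some k) ∨ (nl i = some k ∧ nr i = some j))
    {tj st : Bool} (hj : (tj = true ∧ 3 ≤ a j) ∨ (tj = false ∧ a j = 2 ∧ In2 nl nr j))
    (hst : tj = false → st = true → 1 / 4 ≤ Real.tan (th (z j).re (z j).im) ^ 2 ∧
      Real.cos (z j).re ^ 2 ≤ 59 / 100) :
    J6.Nb tj st (Real.tan (th (z i).re (z i).im) ^ 2) (normSq ((starRingEnd ℂ) (cos (z j))))
      (((starRingEnd ℂ) (cos (z j))).im / ((starRingEnd ℂ) (cos (z j))).re)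
      (Real.tan (th (z j).re (z j).im) ^ 2) := by
  have hj' : 3 ≤ a j ∨ (a j = 2 ∧ In2 nl nr j) := by
    rcases hj with ⟨-, e⟩ | ⟨-, e⟩
    · exact Or.inl e
    · exact Or.inr e
  have hin : In2 nl nr i := by
    rcases hij with ⟨h1, h2⟩ | ⟨h1, h2⟩
    · exact ⟨_, _, h1, h2⟩
    · exact ⟨_, _, h1, h2⟩
  have hj1 : nl i = some j ∨ nr i = some j := by
    rcases hij with ⟨h1, h2⟩ | ⟨h1, h2⟩
    · exact Or.inl h1
    · exact Or.inr h2
  have hji := h.N.symm i j hj1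
  obtain ⟨x0, y0, hx2, hy2, hK, b0, b1, K1⟩ := h.alg j
  obtain ⟨q1, q2, q3⟩ := h.pos j
  have hRj := h.open_re_le h3 hi hin hj1 hj'
  have hnn : normSq ((starRingEnd ℂ) (cos (z j))) = ‖cos (z j)‖ ^ 2 := by
    rw [normSq_conj, normSq_eq_norm_sq]
  have h63 := h.nb63 h3 hi hin hj1 hj'
  have hs4 := h.sl4 h3 hi hin hj1 hj'
  have hA := h.conj_re_ph j
  have hB := h.conj_im_ph j
  have hph0 := (h.phpos j).le
  have hJ : ∀ p q : ℕ, J6.Pr p q → Real.tan (th (z i).re (z i).im) ^ 2 * 1000 ≤ p ∨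
      Real.tan (th (z j).re (z j).im) ^ 2 * 1000 ≤ q := by
    intro p q hp
    rcases h.joint3 h3 hi hij hj' (Pr_real hp) with e | e
    · right
      rw [le_div_iff₀ (by norm_num)] at e
      exact e
    · left
      rw [le_div_iff₀ (by norm_num)] at e
      exact e
  rcases hj with ⟨e, hj⟩ | ⟨e, hj, hjn⟩
  · subst e
    have h5 := tan_sq_le_of (h.th_pos_i j).le (h.th3_le hj)
    refine J6.mkNb x0 y0 hx2 hy2 hK rfl (sq_nonneg _) (by linarith) b1 K1
      (cos_sq_ge_3454 q1 hRj) ?_ ?_ hJ (by simp) (fun _ => by linarith) ?_ (by simp) (by simp)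
      (by simp)
    · rw [cond_true, hnn]
      have := pow_le_pow_left₀ (by norm_num) h63 2
      norm_num at this
      linarith
    · rw [cond_true, hA, hB]
      have := Cl.n_tan_le (R := ph (z j).re (z j).im) (R0 := 9 / 20) (t := 4831 / 10000) hph0
        (h.ph3_le hj) (by norm_num) (by norm_num) (by norm_num)
      have := mul_le_mul_of_nonneg_left this (norm_nonneg (cos (z j)))
      linarith
    · intro _
      rcases hs4.or with e | ⟨e, -⟩
      · exact Or.inr e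
      · left
        rw [normSq_apply, show (49 / 100 : ℝ) = (7 / 10) ^ 2 by norm_num]
        refine e.trans (le_of_eq ?_)
        ring
  · subst e
    refine J6.mkNb x0 y0 hx2 hy2 hK rfl (sq_nonneg _) (h.two_t_le hjn) b1 K1
      (cos_sq_ge_3454 q1 hRj) ?_ ?_ hJ ?_ (by simp) (by simp) (fun _ => h.two_t_ge hj hjn)
      (fun _ e => (hst rfl e).1) (fun _ e => (hst rfl e).2)
    · rw [cond_false, hnn]
      have := pow_le_pow_left₀ (by norm_num) (h.norm2_ge h3 hj hjn) 2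
      norm_num at this
      linarith
    · rw [cond_false, hA, hB]
      have := Cl.n_tan_le (R := ph (z j).re (z j).im) (R0 := 3 / 5) (t := 6842 / 10000) hph0
        (h.two_ph_le hj hjn) (by norm_num) (by norm_num) (by norm_num)
      have := mul_le_mul_of_nonneg_left this (norm_nonneg (cos (z j)))
      linarith
    · intro _ p q hp
      obtain ⟨l, r, e1, e2⟩ := hjn
      have key : Real.tan (th (z i).re (z i).im) ^ 2 ≤ (q : ℝ) / 1000 ∨
          Real.tan (th (z j).re (z j).im) ^ 2 ≤ (p : ℝ) / 1000 := by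
        rcases hji with e | e
        · exact h.joint3 h3 hj (Or.inl ⟨e, e2⟩) (Or.inr ⟨hi, hin⟩) (Pr_real hp)
        · exact h.joint3 h3 hj (Or.inr ⟨e1, e⟩) (Or.inr ⟨hi, hin⟩) (Pr_real hp)
      rcases key with e | e
      · left
        rw [le_div_iff₀ (by norm_num)] at e
        exact e
      · right
        rw [le_div_iff₀ (by norm_num)] at e
        exact e

theorem sinh_qe (h : Zr a nl nr 1 z) (i j : ι) :
    sinh (qe (z i) (z j)) = (starRingEnd ℂ) (cos (z j)) * tan (z i) := by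
  obtain ⟨p1, p2, p3⟩ := h.pos i
  obtain ⟨q1, q2, q3⟩ := h.pos j
  rw [qe_eq p1 p2 p3 q1 q2 q3, sinh_arsh]

/-- The sums of the two slots. -/
theorem two_sum (h : Zr a nl nr 1 z) {i j k : ι} (hi : a i = 2)
    (hij : (nl i = some j ∧ nr i = some k) ∨ (nl i = some k ∧ nr i = some j)) :
    (qe (z i) (z j)).re + (qe (z i) (z k)).re = 2 * (z i).im ∧
    (qe (z i) (z j)).im + (qe (z i) (z k)).im = Real.pi - 2 * (z i).re := by
  have h1 := h.vertex_re i
  have h2 := h.vertex_im i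
  rw [hi] at h1 h2
  rcases hij with ⟨e1, e2⟩ | ⟨e1, e2⟩ <;> rw [e1, e2] at h1 h2 <;>
    (simp only [qo] at h1 h2; exact ⟨by linarith, by linarith⟩)

/-- The values of the test functions. -/
theorem tR_eq (h : Zr a nl nr 1 z) (i : ι) :
    J6.tR (Real.tan (z i).re) (Real.tanh (z i).im) = Real.tan (th (z i).re (z i).im) ^ 2 ∧
    J6.kR (Real.tan (z i).re) (Real.tanh (z i).im) = k2 (z i).re (z i).im ∧
    1 + Real.tan (z i).re ^ 2 = (Real.cos (z i).re ^ 2)⁻¹ := by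
  obtain ⟨p1, p2, p3⟩ := h.pos i
  have c0 : 0 < Real.cos (z i).re := GeoX_cos_pos p1 p2
  have ti := tan_th_sq p1 p2 p3
  have ch := Real.cosh_sq (z i).im
  have chp := Real.cosh_pos (z i).im
  have sc := Real.sin_sq_add_cos_sq (z i).re
  have e0 : 1 + Real.tan (z i).re ^ 2 = (Real.cos (z i).re ^ 2)⁻¹ := by
    rw [← J6.tan_sq_inv c0.ne', inv_inv]
  have e1 : Real.tanh (z i).im ^ 2 * (1 - Real.tanh (z i).im ^ 2)⁻¹ = Real.sinh (z i).im ^ 2 := by
    rw [J6.th_sq_inv, Real.tanh_eq_sinh_div_cosh]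
    field_simp
    linarith
  refine ⟨?_, ?_, e0⟩
  · unfold J6.tR
    rw [e0, e1, ← ti]
    field_simp
  · unfold J6.kR
    rw [mul_inv, J6.th_sq_inv, e0, inv_inv, Real.tan_eq_sin_div_cos, Real.tanh_eq_sinh_div_cosh,
      GeoX_k2]
    have e2 : 1 + Real.sinh (z i).im ^ 2 = Real.cosh (z i).im ^ 2 := by linarith
    rw [e2]
    have e3 : (1 + (Real.sin (z i).re / Real.cos (z i).re) ^ 2 *
        (Real.sinh (z i).im / Real.cosh (z i).im) ^ 2) *
        (Real.cos (z i).re ^ 2 * Real.cosh (z i).im ^ 2) =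
        Real.cos (z i).re ^ 2 * Real.cosh (z i).im ^ 2 +
          Real.sin (z i).re ^ 2 * Real.sinh (z i).im ^ 2 := by
      field_simp
    rw [e3]
    linear_combination (Real.cos (z i).re ^ 2 - 1) * ch + (Real.sinh (z i).im ^ 2) * sc

/-- **The facts of the branch and bound test at an inner vertex with two twists and open
neighbours.** -/
theorem fa_of (h : Zr a nl nr 1 z) (h3 : ∀ i, 3 ≤ a i → a i = 3 ∨ 4 ≤ a i) {i j k : ι}
    (hi : a i = 2) (hij : (nl i = some j ∧ nr i = some k) ∨ (nl i = some k ∧ nr i = some j))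
    {tj tk st : Bool} (hj : (tj = true ∧ 3 ≤ a j) ∨ (tj = false ∧ a j = 2 ∧ In2 nl nr j))
    (hk : (tk = true ∧ 3 ≤ a k) ∨ (tk = false ∧ a k = 2 ∧ In2 nl nr k))
    (hsj : tj = false → st = true → 1 / 4 ≤ Real.tan (th (z j).re (z j).im) ^ 2 ∧
      Real.cos (z j).re ^ 2 ≤ 59 / 100)
    (hsk : tk = false → st = true → 1 / 4 ≤ Real.tan (th (z k).re (z k).im) ^ 2 ∧
      Real.cos (z k).re ^ 2 ≤ 59 / 100) {sE sv : Bool} {d n : ℝ} (d0 : 0 ≤ d) (n0 : 0 ≤ n)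
    (hd : (qe (z i) (z j)).re - (z i).im = bif sE then d else -d)
    (hn : (qe (z i) (z j)).im - (Real.pi / 2 - (z i).re) = bif sv then n else -n) :
    J6.Fa tj tk st sE sv (Real.tan (z i).re) (Real.tanh (z i).im) (Real.tanh d) (Real.tan n)
      (Real.tan (th (z j).re (z j).im) ^ 2) (Real.tan (th (z k).re (z k).im) ^ 2) := by
  have hin : In2 nl nr i := by
    rcases hij with ⟨h1, h2⟩ | ⟨h1, h2⟩
    · exact ⟨_, _, h1, h2⟩
    · exact ⟨_, _, h1, h2⟩
  have hj1 : nl i = some j ∨ nr i = some j := by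
    rcases hij with ⟨h1, h2⟩ | ⟨h1, h2⟩
    · exact Or.inl h1
    · exact Or.inr h2
  have hk1 : nl i = some k ∨ nr i = some k := by
    rcases hij with ⟨h1, h2⟩ | ⟨h1, h2⟩
    · exact Or.inr h2
    · exact Or.inl h1
  have hj' : 3 ≤ a j ∨ (a j = 2 ∧ In2 nl nr j) := by
    rcases hj with ⟨-, e⟩ | ⟨-, e⟩
    · exact Or.inl e
    · exact Or.inr e
  have hk' : 3 ≤ a k ∨ (a k = 2 ∧ In2 nl nr k) := by
    rcases hk with ⟨-, e⟩ | ⟨-, e⟩
    · exact Or.inl e
    · exact Or.inr e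
  obtain ⟨p1, p2, p3⟩ := h.pos i
  obtain ⟨s1, s2⟩ := h.two_sum hi hij
  obtain ⟨u1, u2, u3⟩ := h.qe_pos hj1
  obtain ⟨v1, v2, v3⟩ := h.qe_pos hk1
  have bj := h.bw_ge h3 hi hin hj1 hj'
  have bk := h.bw_ge h3 hi hin hk1 hk'
  rw [bw, le_div_iff₀ p3] at bj bk
  obtain ⟨t1, t2, -⟩ := h.tR_eq i
  have hK1 := h.k2_le i
  have hK0 : 4225 / 10000 ≤ k2 (z i).re (z i).im := by
    rw [← norm_cos_sq]
    have := pow_le_pow_left₀ (by norm_num) (h.norm2_ge h3 hi hin) 2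
    norm_num at this
    linarith
  have nj := h.nb_of h3 hi hij hj hsj
  have nk := h.nb_of h3 hi hij.symm hk hsk
  obtain ⟨xj, yj, -⟩ := h.alg j
  obtain ⟨xk, yk, -⟩ := h.alg k
  rw [← t1] at nj nk
  have Kj := J6.slot_K p1 p2 u2 u3 (h.sinh_qe i j)
  have Kk := J6.slot_K p1 p2 v2 v3 (h.sinh_qe i k)
  have fj := J6.slot_f p1 p2 p3 u1 u2 u3 (h.sinh_qe i j) xj
  have fk := J6.slot_f p1 p2 p3 v1 v2 v3 (h.sinh_qe i k) xk
  have hlo : 2 / 5 * (z i).im ≤ (z i).im - d := by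
    rcases sE with _ | _
    · rw [cond_false] at hd; linarith
    · rw [cond_true] at hd; linarith
  refine J6.fa_aux p1 p2 p3 d0 n0 ?_ ?_ ?_ ?_ u1 v1 u2 u3 v2 v3 hlo ?_ ?_ ?_ ?_ Kj Kk
    (div_nonneg yj xj.le) (div_nonneg yk xk.le) fj fk nj nk
  · rcases sE with _ | _
    · rw [cond_false] at hd ⊢; linarith
    · rw [cond_true] at hd ⊢; linarith
  · rcases sE with _ | _
    · rw [cond_false] at hd; rw [Bool.not_false, cond_true]; linarith
    · rw [cond_true] at hd; rw [Bool.not_true, cond_false]; linarith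
  · rcases sv with _ | _
    · rw [cond_false] at hn ⊢; linarith
    · rw [cond_true] at hn ⊢; linarith
  · rcases sv with _ | _
    · rw [cond_false] at hn; rw [Bool.not_false, cond_true]; linarith
    · rw [cond_true] at hn; rw [Bool.not_true, cond_false]; linarith
  · rw [t1]; exact h.two_t_ge hi hin
  · rw [t1]; exact h.two_t_le hin
  · rw [t2]; exact hK0
  · rw [t2]; exact hK1

end Zr

end Pool.Agent.S3.E
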