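import Pool.Agent.S3.E.J6T

/-!
# Stage 3, block E: branch and bound for `tan φ = tan R tanh I` next to a vertex with three or more
twists
-/

set_option autoImplicit false

namespace Pool.Agent.S3.E.J6

open NI

def ob32 (X h _E _v _X2 _h2 _t Ki : N) : Bool :=
  (cst 37 100).le (N.mul X h) && ((Ki.le (cst 85 100) || (cst 40 100).le (N.mul X h)) &&
    Ki.le (cst 92 100))

def ob33 (X h _E _v _X2 _h2 _t Ki : N) : Bool :=
  (cst 40 100).le (N.mul X h) && ((Ki.le (cst 90 100) || (cst 45 100).le (N.mul X h)) &&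
    (Ki.le (cst 95 100) || (cst 50 100).le (N.mul X h)))

theorem le_c {n d : ℕ} {x c : ℝ} {A : N} (h : (cst n d).le A = true) (hx : Mem x A) (hd : 0 < d)
    (hc : c = (n : ℝ) / d) : c ≤ x := by
  rw [hc]
  exact (mem_cst hd).le hx h

theorem c_le {n d : ℕ} {x c : ℝ} {A : N} (h : A.le (cst n d) = true) (hx : Mem x A) (hd : 0 < d)
    (hc : c = (n : ℝ) / d) : x ≤ c := by
  rw [hc]
  exact hx.le (mem_cst hd) h

theorem ob32_sound {X g K : ℝ} {XN gN EN vN X2N h2N tN KN : N} (hX : Mem X XN) (hg : Mem g gN)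
    (hK : Mem K KN) (h : ob32 XN gN EN vN X2N h2N tN KN = true) :
    37 / 100 ≤ X * g ∧ (K ≤ 85 / 100 ∨ 40 / 100 ≤ X * g) ∧ K ≤ 92 / 100 := by
  unfold ob32 at h
  rw [Bool.and_eq_true, Bool.and_eq_true, Bool.or_eq_true] at h
  obtain ⟨h1, h2, h3⟩ := h
  refine ⟨le_c h1 (hX.mul hg) (by norm_num) (by norm_num), ?_,
    c_le h3 hK (by norm_num) (by norm_num)⟩
  rcases h2 with h2 | h2
  · exact Or.inl (c_le h2 hK (by norm_num) (by norm_num))
  · exact Or.inr (le_c h2 (hX.mul hg) (by norm_num) (by norm_num))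

theorem ob33_sound {X g K : ℝ} {XN gN EN vN X2N h2N tN KN : N} (hX : Mem X XN) (hg : Mem g gN)
    (hK : Mem K KN) (h : ob33 XN gN EN vN X2N h2N tN KN = true) :
    40 / 100 ≤ X * g ∧ (K ≤ 90 / 100 ∨ 45 / 100 ≤ X * g) ∧ (K ≤ 95 / 100 ∨ 50 / 100 ≤ X * g) := by
  unfold ob33 at h
  rw [Bool.and_eq_true, Bool.and_eq_true, Bool.or_eq_true, Bool.or_eq_true] at h
  obtain ⟨h1, h2, h3⟩ := h
  refine ⟨le_c h1 (hX.mul hg) (by norm_num) (by norm_num), ?_, ?_⟩
  · rcases h2 with h2 | h2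
    · exact Or.inl (c_le h2 hK (by norm_num) (by norm_num))
    · exact Or.inr (le_c h2 (hX.mul hg) (by norm_num) (by norm_num))
  · rcases h3 with h2 | h2
    · exact Or.inl (c_le h2 hK (by norm_num) (by norm_num))
    · exact Or.inr (le_c h2 (hX.mul hg) (by norm_num) (by norm_num))

theorem g_32 (sE sv : Bool) :
    NI.bb (tst ob32 true false true sE sv) (cyc 8 [3, 0, 2, 1]) (rng 34 138 100) (rng 19 58 100)
      (rng 0 43 100) (rng 0 1 1) = true := by
  rcases sE with _ | _ <;> rcases sv with _ | _ <;> decide +kernel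

theorem g_33 (sE sv : Bool) :
    NI.bb (tst ob33 true true true sE sv) (cyc 8 [3, 0, 2, 1]) (rng 34 138 100) (rng 19 58 100)
      (rng 0 43 100) (rng 0 1 1) = true := by
  rcases sE with _ | _ <;> rcases sv with _ | _ <;> decide +kernel

end Pool.Agent.S3.E.J6
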