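import Pool.Agent.S3.E.J6B
import Pool.Agent.S3.E.J6G

/-!
# Stage 3, block E: `tan φ` at an inner vertex with two twists next to one with three or more
-/

set_option autoImplicit false

namespace Pool.Agent.S3.E

open Complex

namespace Zr

variable {ι : Type*} [Finite ι] {a : ι → ℝ} {nl nr : ι → Option ι} {z : ι → ℂ}

/-- The angle of an inner vertex with two twists and open neighbours, one of them with three or
more twists. -/
theorem f_ge3 (h : Zr a nl nr 1 z) (h3 : ∀ i, 3 ≤ a i → a i = 3 ∨ 4 ≤ a i) {i j k : ι}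
    (hi : a i = 2) (hij : (nl i = some j ∧ nr i = some k) ∨ (nl i = some k ∧ nr i = some j))
    (hj : 3 ≤ a j) :
    ((a k = 2 ∧ In2 nl nr k) → 37 / 100 ≤ Real.tan (z i).re * Real.tanh (z i).im ∧
      (k2 (z i).re (z i).im ≤ 85 / 100 ∨ 40 / 100 ≤ Real.tan (z i).re * Real.tanh (z i).im) ∧
      k2 (z i).re (z i).im ≤ 92 / 100) ∧
    (3 ≤ a k → 40 / 100 ≤ Real.tan (z i).re * Real.tanh (z i).im ∧
      (k2 (z i).re (z i).im ≤ 90 / 100 ∨ 45 / 100 ≤ Real.tan (z i).re * Real.tanh (z i).im) ∧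
      (k2 (z i).re (z i).im ≤ 95 / 100 ∨ 50 / 100 ≤ Real.tan (z i).re * Real.tanh (z i).im)) := by
  have hin : In2 nl nr i := by
    rcases hij with ⟨h1, h2⟩ | ⟨h1, h2⟩
    · exact ⟨_, _, h1, h2⟩
    · exact ⟨_, _, h1, h2⟩
  have hk1 : nl i = some k ∨ nr i = some k := by
    rcases hij with ⟨h1, h2⟩ | ⟨h1, h2⟩
    · exact Or.inr h2
    · exact Or.inl h1
  obtain ⟨-, t2, -⟩ := h.tR_eq i
  constructor
  · rintro ⟨hk, hkin⟩
    obtain ⟨e1, e2, -⟩ := h.adj22 h3 hk hkin hi hin (h.N.symm i k hk1)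
    obtain ⟨sE, sv, d, n, -, -, -, -, -, -, -, hP⟩ := h.bbz h3 hi hij (tj := true) (tk := false)
      (st := true) (Or.inl ⟨rfl, hj⟩) (Or.inr ⟨rfl, hk, hkin⟩) (by simp) (fun _ _ => ⟨e1, e2⟩)
      (P := fun _ _ X g _ _ => 37 / 100 ≤ X * g ∧ (J6.kR X g ≤ 85 / 100 ∨ 40 / 100 ≤ X * g) ∧
        J6.kR X g ≤ 92 / 100)
      (fun sE sv X g E v κj κk F b1 b2 b3 b4 b5 b6 => J6.of_bb
        (P := fun X g _ _ => 37 / 100 ≤ X * g ∧ (J6.kR X g ≤ 85 / 100 ∨ 40 / 100 ≤ X * g) ∧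
        J6.kR X g ≤ 92 / 100)
        (fun X g E v XN gN EN vN tN kN _ hX hg _ _ _ hk _ _ ho => J6.ob32_sound hX hg hk ho)
        (J6.g_32 sE sv) F b1 b2 b3 b4 b5 b6)
    rw [t2] at hP
    exact hP
  · intro hk
    obtain ⟨sE, sv, d, n, -, -, -, -, -, -, -, hP⟩ := h.bbz h3 hi hij (tj := true) (tk := true)
      (st := true) (Or.inl ⟨rfl, hj⟩) (Or.inl ⟨rfl, hk⟩) (by simp) (by simp)
      (P := fun _ _ X g _ _ => 40 / 100 ≤ X * g ∧ (J6.kR X g ≤ 90 / 100 ∨ 45 / 100 ≤ X * g) ∧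
        (J6.kR X g ≤ 95 / 100 ∨ 50 / 100 ≤ X * g))
      (fun sE sv X g E v κj κk F b1 b2 b3 b4 b5 b6 => J6.of_bb
        (P := fun X g _ _ => 40 / 100 ≤ X * g ∧ (J6.kR X g ≤ 90 / 100 ∨ 45 / 100 ≤ X * g) ∧
        (J6.kR X g ≤ 95 / 100 ∨ 50 / 100 ≤ X * g))
        (fun X g E v XN gN EN vN tN kN _ hX hg _ _ _ hk _ _ ho => J6.ob33_sound hX hg hk ho)
        (J6.g_33 sE sv) F b1 b2 b3 b4 b5 b6)
    rw [t2] at hP
    exact hP

end Zr

end Pool.Agent.S3.E
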