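import Pool.Agent.S3.E.J3C

/-!
# Stage 3, block E: the sharp joint range condition, corners (generated)
-/

set_option autoImplicit false

namespace Pool.Agent.S3.E.J3

open Complex

theorem st30_par : Par (9 / 71) (629 / 5000) (9919 / 10000) := by
  constructor <;> norm_num

theorem st30_r0 {m : ℝ} (h0 : 113 / 500 ≤ m) (h1 : m ≤ 71 / 133) :
    Rect (9 / 71) (629 / 5000) (9919 / 10000) (1261 / 5000) (2227 / 5000) (3989 / 5000) (44 / 100) (63 / 100 - 44 / 100) (63 / 100)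
      (63 / 100 - 63 / 100) m := by
  have p0 : 0 ≤ m - 113 / 500 := sub_nonneg.2 h0
  have p1 : 0 ≤ 71 / 133 - m := sub_nonneg.2 h1
  have q0 := mul_nonneg p0 (mul_nonneg p0 p0)
  have q1 := mul_nonneg p0 (mul_nonneg p0 p1)
  have q2 := mul_nonneg p0 (mul_nonneg p1 p1)
  have q3 := mul_nonneg p1 (mul_nonneg p1 p1)
  constructor <;> (unfold G3; linarith)

theorem st30_r1 {m : ℝ} (h0 : 269 / 1000 ≤ m) (h1 : m ≤ 71 / 133) :
    Rect (9 / 71) (629 / 5000) (9919 / 10000) (1261 / 5000) (2227 / 5000) (3989 / 5000) (63 / 100) 0 1 0 m := by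
  have p0 : 0 ≤ m - 269 / 1000 := sub_nonneg.2 h0
  have p1 : 0 ≤ 71 / 133 - m := sub_nonneg.2 h1
  have q0 := mul_nonneg p0 (mul_nonneg p0 p0)
  have q1 := mul_nonneg p0 (mul_nonneg p0 p1)
  have q2 := mul_nonneg p0 (mul_nonneg p1 p1)
  have q3 := mul_nonneg p1 (mul_nonneg p1 p1)
  constructor <;> (unfold G3; linarith)

theorem st30_r2 {m : ℝ} (h0 : 259 / 1000 ≤ m) (h1 : m ≤ 71 / 133) :
    Rect (9 / 71) (629 / 5000) (9919 / 10000) (2307 / 10000) (1479 / 2500) (9731 / 10000) (44 / 100) (63 / 100 - 44 / 100) (63 / 100)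
      (63 / 100 - 63 / 100) m := by
  have p0 : 0 ≤ m - 259 / 1000 := sub_nonneg.2 h0
  have p1 : 0 ≤ 71 / 133 - m := sub_nonneg.2 h1
  have q0 := mul_nonneg p0 (mul_nonneg p0 p0)
  have q1 := mul_nonneg p0 (mul_nonneg p0 p1)
  have q2 := mul_nonneg p0 (mul_nonneg p1 p1)
  have q3 := mul_nonneg p1 (mul_nonneg p1 p1)
  constructor <;> (unfold G3; linarith)

theorem st30_r3 {m : ℝ} (h0 : 307 / 1000 ≤ m) (h1 : m ≤ 71 / 133) :
    Rect (9 / 71) (629 / 5000) (9919 / 10000) (2307 / 10000) (1479 / 2500) (39 / 50) (63 / 100) 0 1 0 m := by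
  have p0 : 0 ≤ m - 307 / 1000 := sub_nonneg.2 h0
  have p1 : 0 ≤ 71 / 133 - m := sub_nonneg.2 h1
  have q0 := mul_nonneg p0 (mul_nonneg p0 p0)
  have q1 := mul_nonneg p0 (mul_nonneg p0 p1)
  have q2 := mul_nonneg p0 (mul_nonneg p1 p1)
  have q3 := mul_nonneg p1 (mul_nonneg p1 p1)
  constructor <;> (unfold G3; linarith)

theorem st30_r4 {m : ℝ} (h0 : 351 / 1000 ≤ m) (h1 : m ≤ 71 / 133) :
    Rect (9 / 71) (629 / 5000) (9919 / 10000) (2307 / 10000) (39 / 50) (9731 / 10000) (63 / 100) 0 1 0 m := by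
  have p0 : 0 ≤ m - 351 / 1000 := sub_nonneg.2 h0
  have p1 : 0 ≤ 71 / 133 - m := sub_nonneg.2 h1
  have q0 := mul_nonneg p0 (mul_nonneg p0 p0)
  have q1 := mul_nonneg p0 (mul_nonneg p0 p1)
  have q2 := mul_nonneg p0 (mul_nonneg p1 p1)
  have q3 := mul_nonneg p1 (mul_nonneg p1 p1)
  constructor <;> (unfold G3; linarith)

theorem st30 {z b₁ b₂ : ℂ} {a g : ℝ} (H : Hyp z b₁ b₂) (N : Nb (3 / 13) b₁.re b₁.im a g)
    (hK : 3969 / 10000 ≤ a + g) : 9 / 71 ≤ Real.cos (2 * th z.re z.im) := by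
  rcases le_total (a + g) (7 / 10) with k0 | k0
  · obtain ⟨i1, i2, i3⟩ := N.reg (b := 1261 / 5000) (l := 2227 / 5000) (u := 3989 / 5000) hK k0 (by norm_num)
      (by norm_num) (by norm_num) (by norm_num) (by norm_num) (by norm_num) (by norm_num)
      (by norm_num)
    rcases le_total b₂.re (63 / 100) with s0 | s0
    · exact H.line st30_par (m₀ := 113 / 500) (b := 1261 / 5000) (l₁ := 2227 / 5000) (u₁ := 3989 / 5000) (by norm_num)
        (by norm_num) (by norm_num) (by norm_num) (by norm_num)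
        (fun m h0 h1 => st30_r0 h0 (by linarith)) i1 i2 i3 s0
    · exact H.flat st30_par (m₀ := 269 / 1000) (b := 1261 / 5000) (l₁ := 2227 / 5000) (u₁ := 3989 / 5000) (l₂ := 63 / 100)
        (u₂ := 1) (by norm_num) (by norm_num) (by norm_num) (by norm_num) (by norm_num) (by norm_num)
        (fun m h0 h1 => st30_r1 h0 (by linarith)) i1 i2 i3 s0 H.A2
  obtain ⟨i1, i2, i3⟩ := N.reg (b := 2307 / 10000) (l := 1479 / 2500) (u := 9731 / 10000) k0 N.h1 (by norm_num)
    (by norm_num) (by norm_num) (by norm_num) (by norm_num) (by norm_num) (by norm_num)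
    (by norm_num)
  rcases le_total b₂.re (63 / 100) with s0 | s0
  · exact H.line st30_par (m₀ := 259 / 1000) (b := 2307 / 10000) (l₁ := 1479 / 2500) (u₁ := 9731 / 10000) (by norm_num)
      (by norm_num) (by norm_num) (by norm_num) (by norm_num)
      (fun m h0 h1 => st30_r2 h0 (by linarith)) i1 i2 i3 s0
  · rcases le_total b₁.re (39 / 50) with s1 | s1
    · exact H.flat st30_par (m₀ := 307 / 1000) (b := 2307 / 10000) (l₁ := 1479 / 2500) (u₁ := 39 / 50) (l₂ := 63 / 100)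
        (u₂ := 1) (by norm_num) (by norm_num) (by norm_num) (by norm_num) (by norm_num) (by norm_num)
        (fun m h0 h1 => st30_r3 h0 (by linarith)) i1 i2 s1 s0 H.A2
    · exact H.flat st30_par (m₀ := 351 / 1000) (b := 2307 / 10000) (l₁ := 39 / 50) (u₁ := 9731 / 10000) (l₂ := 63 / 100)
        (u₂ := 1) (by norm_num) (by norm_num) (by norm_num) (by norm_num) (by norm_num) (by norm_num)
        (fun m h0 h1 => st30_r4 h0 (by linarith)) i1 s1 i3 s0 H.A2

theorem st35_par : Par (51 / 349) (723 / 5000) (2473 / 2500) := by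
  constructor <;> norm_num

theorem st35_r0 {m : ℝ} (h0 : 113 / 500 ≤ m) (h1 : m ≤ 349 / 647) :
    Rect (51 / 349) (723 / 5000) (2473 / 2500) (539 / 2000) (2227 / 5000) (7921 / 10000) (44 / 100) (63 / 100 - 44 / 100) (63 / 100)
      (63 / 100 - 63 / 100) m := by
  have p0 : 0 ≤ m - 113 / 500 := sub_nonneg.2 h0
  have p1 : 0 ≤ 349 / 647 - m := sub_nonneg.2 h1
  have q0 := mul_nonneg p0 (mul_nonneg p0 p0)
  have q1 := mul_nonneg p0 (mul_nonneg p0 p1)
  have q2 := mul_nonneg p0 (mul_nonneg p1 p1)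
  have q3 := mul_nonneg p1 (mul_nonneg p1 p1)
  constructor <;> (unfold G3; linarith)

theorem st35_r1 {m : ℝ} (h0 : 27 / 100 ≤ m) (h1 : m ≤ 349 / 647) :
    Rect (51 / 349) (723 / 5000) (2473 / 2500) (539 / 2000) (2227 / 5000) (7921 / 10000) (63 / 100) 0 1 0 m := by
  have p0 : 0 ≤ m - 27 / 100 := sub_nonneg.2 h0
  have p1 : 0 ≤ 349 / 647 - m := sub_nonneg.2 h1
  have q0 := mul_nonneg p0 (mul_nonneg p0 p0)
  have q1 := mul_nonneg p0 (mul_nonneg p0 p1)
  have q2 := mul_nonneg p0 (mul_nonneg p1 p1)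
  have q3 := mul_nonneg p1 (mul_nonneg p1 p1)
  constructor <;> (unfold G3; linarith)

theorem st35_r2 {m : ℝ} (h0 : 259 / 1000 ≤ m) (h1 : m ≤ 349 / 647) :
    Rect (51 / 349) (723 / 5000) (2473 / 2500) (162 / 625) (1479 / 2500) (9659 / 10000) (44 / 100) (63 / 100 - 44 / 100) (63 / 100)
      (63 / 100 - 63 / 100) m := by
  have p0 : 0 ≤ m - 259 / 1000 := sub_nonneg.2 h0
  have p1 : 0 ≤ 349 / 647 - m := sub_nonneg.2 h1
  have q0 := mul_nonneg p0 (mul_nonneg p0 p0)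
  have q1 := mul_nonneg p0 (mul_nonneg p0 p1)
  have q2 := mul_nonneg p0 (mul_nonneg p1 p1)
  have q3 := mul_nonneg p1 (mul_nonneg p1 p1)
  constructor <;> (unfold G3; linarith)

theorem st35_r3 {m : ℝ} (h0 : 307 / 1000 ≤ m) (h1 : m ≤ 349 / 647) :
    Rect (51 / 349) (723 / 5000) (2473 / 2500) (162 / 625) (1479 / 2500) (77 / 100) (63 / 100) 0 1 0 m := by
  have p0 : 0 ≤ m - 307 / 1000 := sub_nonneg.2 h0
  have p1 : 0 ≤ 349 / 647 - m := sub_nonneg.2 h1
  have q0 := mul_nonneg p0 (mul_nonneg p0 p0)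
  have q1 := mul_nonneg p0 (mul_nonneg p0 p1)
  have q2 := mul_nonneg p0 (mul_nonneg p1 p1)
  have q3 := mul_nonneg p1 (mul_nonneg p1 p1)
  constructor <;> (unfold G3; linarith)

theorem st35_r4 {m : ℝ} (h0 : 349 / 1000 ≤ m) (h1 : m ≤ 349 / 647) :
    Rect (51 / 349) (723 / 5000) (2473 / 2500) (162 / 625) (77 / 100) (43 / 50) (63 / 100) 0 1 0 m := by
  have p0 : 0 ≤ m - 349 / 1000 := sub_nonneg.2 h0
  have p1 : 0 ≤ 349 / 647 - m := sub_nonneg.2 h1
  have q0 := mul_nonneg p0 (mul_nonneg p0 p0)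
  have q1 := mul_nonneg p0 (mul_nonneg p0 p1)
  have q2 := mul_nonneg p0 (mul_nonneg p1 p1)
  have q3 := mul_nonneg p1 (mul_nonneg p1 p1)
  constructor <;> (unfold G3; linarith)

theorem st35_r5 {m : ℝ} (h0 : 369 / 1000 ≤ m) (h1 : m ≤ 349 / 647) :
    Rect (51 / 349) (723 / 5000) (2473 / 2500) (162 / 625) (43 / 50) (9659 / 10000) (63 / 100) 0 1 0 m := by
  have p0 : 0 ≤ m - 369 / 1000 := sub_nonneg.2 h0
  have p1 : 0 ≤ 349 / 647 - m := sub_nonneg.2 h1
  have q0 := mul_nonneg p0 (mul_nonneg p0 p0)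
  have q1 := mul_nonneg p0 (mul_nonneg p0 p1)
  have q2 := mul_nonneg p0 (mul_nonneg p1 p1)
  have q3 := mul_nonneg p1 (mul_nonneg p1 p1)
  constructor <;> (unfold G3; linarith)

theorem st35 {z b₁ b₂ : ℂ} {a g : ℝ} (H : Hyp z b₁ b₂) (N : Nb (7 / 27) b₁.re b₁.im a g)
    (hK : 3969 / 10000 ≤ a + g) : 51 / 349 ≤ Real.cos (2 * th z.re z.im) := by
  rcases le_total (a + g) (7 / 10) with k0 | k0
  · obtain ⟨i1, i2, i3⟩ := N.reg (b := 539 / 2000) (l := 2227 / 5000) (u := 7921 / 10000) hK k0 (by norm_num)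
      (by norm_num) (by norm_num) (by norm_num) (by norm_num) (by norm_num) (by norm_num)
      (by norm_num)
    rcases le_total b₂.re (63 / 100) with s0 | s0
    · exact H.line st35_par (m₀ := 113 / 500) (b := 539 / 2000) (l₁ := 2227 / 5000) (u₁ := 7921 / 10000) (by norm_num)
        (by norm_num) (by norm_num) (by norm_num) (by norm_num)
        (fun m h0 h1 => st35_r0 h0 (by linarith)) i1 i2 i3 s0
    · exact H.flat st35_par (m₀ := 27 / 100) (b := 539 / 2000) (l₁ := 2227 / 5000) (u₁ := 7921 / 10000) (l₂ := 63 / 100)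
        (u₂ := 1) (by norm_num) (by norm_num) (by norm_num) (by norm_num) (by norm_num) (by norm_num)
        (fun m h0 h1 => st35_r1 h0 (by linarith)) i1 i2 i3 s0 H.A2
  obtain ⟨i1, i2, i3⟩ := N.reg (b := 162 / 625) (l := 1479 / 2500) (u := 9659 / 10000) k0 N.h1 (by norm_num)
    (by norm_num) (by norm_num) (by norm_num) (by norm_num) (by norm_num) (by norm_num)
    (by norm_num)
  rcases le_total b₂.re (63 / 100) with s0 | s0
  · exact H.line st35_par (m₀ := 259 / 1000) (b := 162 / 625) (l₁ := 1479 / 2500) (u₁ := 9659 / 10000) (by norm_num)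
      (by norm_num) (by norm_num) (by norm_num) (by norm_num)
      (fun m h0 h1 => st35_r2 h0 (by linarith)) i1 i2 i3 s0
  · rcases le_total b₁.re (77 / 100) with s1 | s1
    · exact H.flat st35_par (m₀ := 307 / 1000) (b := 162 / 625) (l₁ := 1479 / 2500) (u₁ := 77 / 100) (l₂ := 63 / 100)
        (u₂ := 1) (by norm_num) (by norm_num) (by norm_num) (by norm_num) (by norm_num) (by norm_num)
        (fun m h0 h1 => st35_r3 h0 (by linarith)) i1 i2 s1 s0 H.A2
    · rcases le_total b₁.re (43 / 50) with s2 | s2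
      · exact H.flat st35_par (m₀ := 349 / 1000) (b := 162 / 625) (l₁ := 77 / 100) (u₁ := 43 / 50) (l₂ := 63 / 100)
          (u₂ := 1) (by norm_num) (by norm_num) (by norm_num) (by norm_num) (by norm_num) (by norm_num)
          (fun m h0 h1 => st35_r4 h0 (by linarith)) i1 s1 s2 s0 H.A2
      · exact H.flat st35_par (m₀ := 369 / 1000) (b := 162 / 625) (l₁ := 43 / 50) (u₁ := 9659 / 10000) (l₂ := 63 / 100)
          (u₂ := 1) (by norm_num) (by norm_num) (by norm_num) (by norm_num) (by norm_num) (by norm_num)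
          (fun m h0 h1 => st35_r5 h0 (by linarith)) i1 s2 i3 s0 H.A2

end Pool.Agent.S3.E.J3
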