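import Pool.Agent.S3.E.J3C

/-!
# Stage 3, block E: the sharp joint range condition, corners (generated)
-/

set_option autoImplicit false

namespace Pool.Agent.S3.E.J3

open Complex

theorem st40_par : Par (57 / 343) (1639 / 10000) (493 / 500) := by
  constructor <;> norm_num

theorem st40_r0 {m : ℝ} (h0 : 23 / 100 ≤ m) (h1 : m ≤ 343 / 629) :
    Rect (57 / 343) (1639 / 10000) (493 / 500) (2903 / 10000) (1149 / 2500) (7847 / 10000) (44 / 100) (63 / 100 - 44 / 100) (63 / 100)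
      (63 / 100 - 63 / 100) m := by
  have p0 : 0 ≤ m - 23 / 100 := sub_nonneg.2 h0
  have p1 : 0 ≤ 343 / 629 - m := sub_nonneg.2 h1
  have q0 := mul_nonneg p0 (mul_nonneg p0 p0)
  have q1 := mul_nonneg p0 (mul_nonneg p0 p1)
  have q2 := mul_nonneg p0 (mul_nonneg p1 p1)
  have q3 := mul_nonneg p1 (mul_nonneg p1 p1)
  constructor <;> (unfold G3; linarith)

theorem st40_r1 {m : ℝ} (h0 : 137 / 500 ≤ m) (h1 : m ≤ 343 / 629) :
    Rect (57 / 343) (1639 / 10000) (493 / 500) (2903 / 10000) (1149 / 2500) (7847 / 10000) (63 / 100) 0 1 0 m := by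
  have p0 : 0 ≤ m - 137 / 500 := sub_nonneg.2 h0
  have p1 : 0 ≤ 343 / 629 - m := sub_nonneg.2 h1
  have q0 := mul_nonneg p0 (mul_nonneg p0 p0)
  have q1 := mul_nonneg p0 (mul_nonneg p0 p1)
  have q2 := mul_nonneg p0 (mul_nonneg p1 p1)
  have q3 := mul_nonneg p1 (mul_nonneg p1 p1)
  constructor <;> (unfold G3; linarith)

theorem st40_r2 {m : ℝ} (h0 : 13 / 50 ≤ m) (h1 : m ≤ 343 / 629) :
    Rect (57 / 343) (1639 / 10000) (493 / 500) (2857 / 10000) (1479 / 2500) (599 / 625) (44 / 100) (63 / 100 - 44 / 100) (63 / 100)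
      (63 / 100 - 63 / 100) m := by
  have p0 : 0 ≤ m - 13 / 50 := sub_nonneg.2 h0
  have p1 : 0 ≤ 343 / 629 - m := sub_nonneg.2 h1
  have q0 := mul_nonneg p0 (mul_nonneg p0 p0)
  have q1 := mul_nonneg p0 (mul_nonneg p0 p1)
  have q2 := mul_nonneg p0 (mul_nonneg p1 p1)
  have q3 := mul_nonneg p1 (mul_nonneg p1 p1)
  constructor <;> (unfold G3; linarith)

theorem st40_r3 {m : ℝ} (h0 : 307 / 1000 ≤ m) (h1 : m ≤ 343 / 629) :
    Rect (57 / 343) (1639 / 10000) (493 / 500) (2857 / 10000) (1479 / 2500) (77 / 100) (63 / 100) 0 1 0 m := by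
  have p0 : 0 ≤ m - 307 / 1000 := sub_nonneg.2 h0
  have p1 : 0 ≤ 343 / 629 - m := sub_nonneg.2 h1
  have q0 := mul_nonneg p0 (mul_nonneg p0 p0)
  have q1 := mul_nonneg p0 (mul_nonneg p0 p1)
  have q2 := mul_nonneg p0 (mul_nonneg p1 p1)
  have q3 := mul_nonneg p1 (mul_nonneg p1 p1)
  constructor <;> (unfold G3; linarith)

theorem st40_r4 {m : ℝ} (h0 : 349 / 1000 ≤ m) (h1 : m ≤ 343 / 629) :
    Rect (57 / 343) (1639 / 10000) (493 / 500) (2857 / 10000) (77 / 100) (43 / 50) (63 / 100) 0 1 0 m := by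
  have p0 : 0 ≤ m - 349 / 1000 := sub_nonneg.2 h0
  have p1 : 0 ≤ 343 / 629 - m := sub_nonneg.2 h1
  have q0 := mul_nonneg p0 (mul_nonneg p0 p0)
  have q1 := mul_nonneg p0 (mul_nonneg p0 p1)
  have q2 := mul_nonneg p0 (mul_nonneg p1 p1)
  have q3 := mul_nonneg p1 (mul_nonneg p1 p1)
  constructor <;> (unfold G3; linarith)

theorem st40_r5 {m : ℝ} (h0 : 369 / 1000 ≤ m) (h1 : m ≤ 343 / 629) :
    Rect (57 / 343) (1639 / 10000) (493 / 500) (2857 / 10000) (43 / 50) (599 / 625) (63 / 100) 0 (81 / 100) 0 m := by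
  have p0 : 0 ≤ m - 369 / 1000 := sub_nonneg.2 h0
  have p1 : 0 ≤ 343 / 629 - m := sub_nonneg.2 h1
  have q0 := mul_nonneg p0 (mul_nonneg p0 p0)
  have q1 := mul_nonneg p0 (mul_nonneg p0 p1)
  have q2 := mul_nonneg p0 (mul_nonneg p1 p1)
  have q3 := mul_nonneg p1 (mul_nonneg p1 p1)
  constructor <;> (unfold G3; linarith)

theorem st40_r6 {m : ℝ} (h0 : 52 / 125 ≤ m) (h1 : m ≤ 343 / 629) :
    Rect (57 / 343) (1639 / 10000) (493 / 500) (2857 / 10000) (43 / 50) (599 / 625) (81 / 100) 0 1 0 m := by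
  have p0 : 0 ≤ m - 52 / 125 := sub_nonneg.2 h0
  have p1 : 0 ≤ 343 / 629 - m := sub_nonneg.2 h1
  have q0 := mul_nonneg p0 (mul_nonneg p0 p0)
  have q1 := mul_nonneg p0 (mul_nonneg p0 p1)
  have q2 := mul_nonneg p0 (mul_nonneg p1 p1)
  have q3 := mul_nonneg p1 (mul_nonneg p1 p1)
  constructor <;> (unfold G3; linarith)

theorem st40 {z b₁ b₂ : ℂ} {a g : ℝ} (H : Hyp z b₁ b₂) (N : Nb (2 / 7) b₁.re b₁.im a g)
    (hK : 169 / 400 ≤ a + g) : 57 / 343 ≤ Real.cos (2 * th z.re z.im) := by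
  rcases le_total (a + g) (7 / 10) with k0 | k0
  · obtain ⟨i1, i2, i3⟩ := N.reg (b := 2903 / 10000) (l := 1149 / 2500) (u := 7847 / 10000) hK k0 (by norm_num)
      (by norm_num) (by norm_num) (by norm_num) (by norm_num) (by norm_num) (by norm_num)
      (by norm_num)
    rcases le_total b₂.re (63 / 100) with s0 | s0
    · exact H.line st40_par (m₀ := 23 / 100) (b := 2903 / 10000) (l₁ := 1149 / 2500) (u₁ := 7847 / 10000) (by norm_num)
        (by norm_num) (by norm_num) (by norm_num) (by norm_num)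
        (fun m h0 h1 => st40_r0 h0 (by linarith)) i1 i2 i3 s0
    · exact H.flat st40_par (m₀ := 137 / 500) (b := 2903 / 10000) (l₁ := 1149 / 2500) (u₁ := 7847 / 10000) (l₂ := 63 / 100)
        (u₂ := 1) (by norm_num) (by norm_num) (by norm_num) (by norm_num) (by norm_num) (by norm_num)
        (fun m h0 h1 => st40_r1 h0 (by linarith)) i1 i2 i3 s0 H.A2
  obtain ⟨i1, i2, i3⟩ := N.reg (b := 2857 / 10000) (l := 1479 / 2500) (u := 599 / 625) k0 N.h1 (by norm_num)
    (by norm_num) (by norm_num) (by norm_num) (by norm_num) (by norm_num) (by norm_num)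
    (by norm_num)
  rcases le_total b₂.re (63 / 100) with s0 | s0
  · exact H.line st40_par (m₀ := 13 / 50) (b := 2857 / 10000) (l₁ := 1479 / 2500) (u₁ := 599 / 625) (by norm_num)
      (by norm_num) (by norm_num) (by norm_num) (by norm_num)
      (fun m h0 h1 => st40_r2 h0 (by linarith)) i1 i2 i3 s0
  · rcases le_total b₁.re (77 / 100) with s1 | s1
    · exact H.flat st40_par (m₀ := 307 / 1000) (b := 2857 / 10000) (l₁ := 1479 / 2500) (u₁ := 77 / 100) (l₂ := 63 / 100)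
        (u₂ := 1) (by norm_num) (by norm_num) (by norm_num) (by norm_num) (by norm_num) (by norm_num)
        (fun m h0 h1 => st40_r3 h0 (by linarith)) i1 i2 s1 s0 H.A2
    · rcases le_total b₁.re (43 / 50) with s2 | s2
      · exact H.flat st40_par (m₀ := 349 / 1000) (b := 2857 / 10000) (l₁ := 77 / 100) (u₁ := 43 / 50) (l₂ := 63 / 100)
          (u₂ := 1) (by norm_num) (by norm_num) (by norm_num) (by norm_num) (by norm_num) (by norm_num)
          (fun m h0 h1 => st40_r4 h0 (by linarith)) i1 s1 s2 s0 H.A2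
      · rcases le_total b₂.re (81 / 100) with s3 | s3
        · exact H.flat st40_par (m₀ := 369 / 1000) (b := 2857 / 10000) (l₁ := 43 / 50) (u₁ := 599 / 625) (l₂ := 63 / 100)
            (u₂ := 81 / 100) (by norm_num) (by norm_num) (by norm_num) (by norm_num) (by norm_num) (by norm_num)
            (fun m h0 h1 => st40_r5 h0 (by linarith)) i1 s2 i3 s0 s3
        · exact H.flat st40_par (m₀ := 52 / 125) (b := 2857 / 10000) (l₁ := 43 / 50) (u₁ := 599 / 625) (l₂ := 81 / 100)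
            (u₂ := 1) (by norm_num) (by norm_num) (by norm_num) (by norm_num) (by norm_num) (by norm_num)
            (fun m h0 h1 => st40_r6 h0 (by linarith)) i1 s2 i3 s3 H.A2

theorem st45_par : Par (31 / 169) (451 / 2500) (983 / 1000) := by
  constructor <;> norm_num

theorem st45_r0 {m : ℝ} (h0 : 231 / 1000 ≤ m) (h1 : m ≤ 169 / 307) :
    Rect (31 / 169) (451 / 2500) (983 / 1000) (381 / 1250) (1149 / 2500) (487 / 625) (44 / 100) (63 / 100 - 44 / 100) (63 / 100)
      (63 / 100 - 63 / 100) m := by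
  have p0 : 0 ≤ m - 231 / 1000 := sub_nonneg.2 h0
  have p1 : 0 ≤ 169 / 307 - m := sub_nonneg.2 h1
  have q0 := mul_nonneg p0 (mul_nonneg p0 p0)
  have q1 := mul_nonneg p0 (mul_nonneg p0 p1)
  have q2 := mul_nonneg p0 (mul_nonneg p1 p1)
  have q3 := mul_nonneg p1 (mul_nonneg p1 p1)
  constructor <;> (unfold G3; linarith)

theorem st45_r1 {m : ℝ} (h0 : 137 / 500 ≤ m) (h1 : m ≤ 169 / 307) :
    Rect (31 / 169) (451 / 2500) (983 / 1000) (381 / 1250) (1149 / 2500) (61 / 100) (63 / 100) 0 1 0 m := by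
  have p0 : 0 ≤ m - 137 / 500 := sub_nonneg.2 h0
  have p1 : 0 ≤ 169 / 307 - m := sub_nonneg.2 h1
  have q0 := mul_nonneg p0 (mul_nonneg p0 p0)
  have q1 := mul_nonneg p0 (mul_nonneg p0 p1)
  have q2 := mul_nonneg p0 (mul_nonneg p1 p1)
  have q3 := mul_nonneg p1 (mul_nonneg p1 p1)
  constructor <;> (unfold G3; linarith)

theorem st45_r2 {m : ℝ} (h0 : 39 / 125 ≤ m) (h1 : m ≤ 169 / 307) :
    Rect (31 / 169) (451 / 2500) (983 / 1000) (381 / 1250) (61 / 100) (487 / 625) (63 / 100) 0 1 0 m := by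
  have p0 : 0 ≤ m - 39 / 125 := sub_nonneg.2 h0
  have p1 : 0 ≤ 169 / 307 - m := sub_nonneg.2 h1
  have q0 := mul_nonneg p0 (mul_nonneg p0 p0)
  have q1 := mul_nonneg p0 (mul_nonneg p0 p1)
  have q2 := mul_nonneg p0 (mul_nonneg p1 p1)
  have q3 := mul_nonneg p1 (mul_nonneg p1 p1)
  constructor <;> (unfold G3; linarith)

theorem st45_r3 {m : ℝ} (h0 : 261 / 1000 ≤ m) (h1 : m ≤ 169 / 307) :
    Rect (31 / 169) (451 / 2500) (983 / 1000) (3103 / 10000) (1479 / 2500) (9507 / 10000) (44 / 100) (63 / 100 - 44 / 100) (63 / 100)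
      (63 / 100 - 63 / 100) m := by
  have p0 : 0 ≤ m - 261 / 1000 := sub_nonneg.2 h0
  have p1 : 0 ≤ 169 / 307 - m := sub_nonneg.2 h1
  have q0 := mul_nonneg p0 (mul_nonneg p0 p0)
  have q1 := mul_nonneg p0 (mul_nonneg p0 p1)
  have q2 := mul_nonneg p0 (mul_nonneg p1 p1)
  have q3 := mul_nonneg p1 (mul_nonneg p1 p1)
  constructor <;> (unfold G3; linarith)

theorem st45_r4 {m : ℝ} (h0 : 77 / 250 ≤ m) (h1 : m ≤ 169 / 307) :
    Rect (31 / 169) (451 / 2500) (983 / 1000) (3103 / 10000) (1479 / 2500) (77 / 100) (63 / 100) 0 1 0 m := by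
  have p0 : 0 ≤ m - 77 / 250 := sub_nonneg.2 h0
  have p1 : 0 ≤ 169 / 307 - m := sub_nonneg.2 h1
  have q0 := mul_nonneg p0 (mul_nonneg p0 p0)
  have q1 := mul_nonneg p0 (mul_nonneg p0 p1)
  have q2 := mul_nonneg p0 (mul_nonneg p1 p1)
  have q3 := mul_nonneg p1 (mul_nonneg p1 p1)
  constructor <;> (unfold G3; linarith)

theorem st45_r5 {m : ℝ} (h0 : 7 / 20 ≤ m) (h1 : m ≤ 169 / 307) :
    Rect (31 / 169) (451 / 2500) (983 / 1000) (3103 / 10000) (77 / 100) (43 / 50) (63 / 100) 0 1 0 m := by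
  have p0 : 0 ≤ m - 7 / 20 := sub_nonneg.2 h0
  have p1 : 0 ≤ 169 / 307 - m := sub_nonneg.2 h1
  have q0 := mul_nonneg p0 (mul_nonneg p0 p0)
  have q1 := mul_nonneg p0 (mul_nonneg p0 p1)
  have q2 := mul_nonneg p0 (mul_nonneg p1 p1)
  have q3 := mul_nonneg p1 (mul_nonneg p1 p1)
  constructor <;> (unfold G3; linarith)

theorem st45_r6 {m : ℝ} (h0 : 369 / 1000 ≤ m) (h1 : m ≤ 169 / 307) :
    Rect (31 / 169) (451 / 2500) (983 / 1000) (3103 / 10000) (43 / 50) (9507 / 10000) (63 / 100) 0 (81 / 100) 0 m := by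
  have p0 : 0 ≤ m - 369 / 1000 := sub_nonneg.2 h0
  have p1 : 0 ≤ 169 / 307 - m := sub_nonneg.2 h1
  have q0 := mul_nonneg p0 (mul_nonneg p0 p0)
  have q1 := mul_nonneg p0 (mul_nonneg p0 p1)
  have q2 := mul_nonneg p0 (mul_nonneg p1 p1)
  have q3 := mul_nonneg p1 (mul_nonneg p1 p1)
  constructor <;> (unfold G3; linarith)

theorem st45_r7 {m : ℝ} (h0 : 52 / 125 ≤ m) (h1 : m ≤ 169 / 307) :
    Rect (31 / 169) (451 / 2500) (983 / 1000) (3103 / 10000) (43 / 50) (9 / 10) (81 / 100) 0 1 0 m := by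
  have p0 : 0 ≤ m - 52 / 125 := sub_nonneg.2 h0
  have p1 : 0 ≤ 169 / 307 - m := sub_nonneg.2 h1
  have q0 := mul_nonneg p0 (mul_nonneg p0 p0)
  have q1 := mul_nonneg p0 (mul_nonneg p0 p1)
  have q2 := mul_nonneg p0 (mul_nonneg p1 p1)
  have q3 := mul_nonneg p1 (mul_nonneg p1 p1)
  constructor <;> (unfold G3; linarith)

theorem st45_r8 {m : ℝ} (h0 : 213 / 500 ≤ m) (h1 : m ≤ 169 / 307) :
    Rect (31 / 169) (451 / 2500) (983 / 1000) (3103 / 10000) (9 / 10) (9507 / 10000) (81 / 100) 0 1 0 m := by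
  have p0 : 0 ≤ m - 213 / 500 := sub_nonneg.2 h0
  have p1 : 0 ≤ 169 / 307 - m := sub_nonneg.2 h1
  have q0 := mul_nonneg p0 (mul_nonneg p0 p0)
  have q1 := mul_nonneg p0 (mul_nonneg p0 p1)
  have q2 := mul_nonneg p0 (mul_nonneg p1 p1)
  have q3 := mul_nonneg p1 (mul_nonneg p1 p1)
  constructor <;> (unfold G3; linarith)

theorem st45 {z b₁ b₂ : ℂ} {a g : ℝ} (H : Hyp z b₁ b₂) (N : Nb (9 / 29) b₁.re b₁.im a g)
    (hK : 169 / 400 ≤ a + g) : 31 / 169 ≤ Real.cos (2 * th z.re z.im) := by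
  rcases le_total (a + g) (7 / 10) with k0 | k0
  · obtain ⟨i1, i2, i3⟩ := N.reg (b := 381 / 1250) (l := 1149 / 2500) (u := 487 / 625) hK k0 (by norm_num)
      (by norm_num) (by norm_num) (by norm_num) (by norm_num) (by norm_num) (by norm_num)
      (by norm_num)
    rcases le_total b₂.re (63 / 100) with s0 | s0
    · exact H.line st45_par (m₀ := 231 / 1000) (b := 381 / 1250) (l₁ := 1149 / 2500) (u₁ := 487 / 625) (by norm_num)
        (by norm_num) (by norm_num) (by norm_num) (by norm_num)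
        (fun m h0 h1 => st45_r0 h0 (by linarith)) i1 i2 i3 s0
    · rcases le_total b₁.re (61 / 100) with s1 | s1
      · exact H.flat st45_par (m₀ := 137 / 500) (b := 381 / 1250) (l₁ := 1149 / 2500) (u₁ := 61 / 100) (l₂ := 63 / 100)
          (u₂ := 1) (by norm_num) (by norm_num) (by norm_num) (by norm_num) (by norm_num) (by norm_num)
          (fun m h0 h1 => st45_r1 h0 (by linarith)) i1 i2 s1 s0 H.A2
      · exact H.flat st45_par (m₀ := 39 / 125) (b := 381 / 1250) (l₁ := 61 / 100) (u₁ := 487 / 625) (l₂ := 63 / 100)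
          (u₂ := 1) (by norm_num) (by norm_num) (by norm_num) (by norm_num) (by norm_num) (by norm_num)
          (fun m h0 h1 => st45_r2 h0 (by linarith)) i1 s1 i3 s0 H.A2
  obtain ⟨i1, i2, i3⟩ := N.reg (b := 3103 / 10000) (l := 1479 / 2500) (u := 9507 / 10000) k0 N.h1 (by norm_num)
    (by norm_num) (by norm_num) (by norm_num) (by norm_num) (by norm_num) (by norm_num)
    (by norm_num)
  rcases le_total b₂.re (63 / 100) with s0 | s0
  · exact H.line st45_par (m₀ := 261 / 1000) (b := 3103 / 10000) (l₁ := 1479 / 2500) (u₁ := 9507 / 10000) (by norm_num)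
      (by norm_num) (by norm_num) (by norm_num) (by norm_num)
      (fun m h0 h1 => st45_r3 h0 (by linarith)) i1 i2 i3 s0
  · rcases le_total b₁.re (77 / 100) with s2 | s2
    · exact H.flat st45_par (m₀ := 77 / 250) (b := 3103 / 10000) (l₁ := 1479 / 2500) (u₁ := 77 / 100) (l₂ := 63 / 100)
        (u₂ := 1) (by norm_num) (by norm_num) (by norm_num) (by norm_num) (by norm_num) (by norm_num)
        (fun m h0 h1 => st45_r4 h0 (by linarith)) i1 i2 s2 s0 H.A2
    · rcases le_total b₁.re (43 / 50) with s3 | s3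
      · exact H.flat st45_par (m₀ := 7 / 20) (b := 3103 / 10000) (l₁ := 77 / 100) (u₁ := 43 / 50) (l₂ := 63 / 100)
          (u₂ := 1) (by norm_num) (by norm_num) (by norm_num) (by norm_num) (by norm_num) (by norm_num)
          (fun m h0 h1 => st45_r5 h0 (by linarith)) i1 s2 s3 s0 H.A2
      · rcases le_total b₂.re (81 / 100) with s4 | s4
        · exact H.flat st45_par (m₀ := 369 / 1000) (b := 3103 / 10000) (l₁ := 43 / 50) (u₁ := 9507 / 10000) (l₂ := 63 / 100)
            (u₂ := 81 / 100) (by norm_num) (by norm_num) (by norm_num) (by norm_num) (by norm_num) (by norm_num)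
            (fun m h0 h1 => st45_r6 h0 (by linarith)) i1 s3 i3 s0 s4
        · rcases le_total b₁.re (9 / 10) with s5 | s5
          · exact H.flat st45_par (m₀ := 52 / 125) (b := 3103 / 10000) (l₁ := 43 / 50) (u₁ := 9 / 10) (l₂ := 81 / 100)
              (u₂ := 1) (by norm_num) (by norm_num) (by norm_num) (by norm_num) (by norm_num) (by norm_num)
              (fun m h0 h1 => st45_r7 h0 (by linarith)) i1 s3 s5 s4 H.A2
          · exact H.flat st45_par (m₀ := 213 / 500) (b := 3103 / 10000) (l₁ := 9 / 10) (u₁ := 9507 / 10000) (l₂ := 81 / 100)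
              (u₂ := 1) (by norm_num) (by norm_num) (by norm_num) (by norm_num) (by norm_num) (by norm_num)
              (fun m h0 h1 => st45_r8 h0 (by linarith)) i1 s5 i3 s4 H.A2

end Pool.Agent.S3.E.J3
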