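import Pool.Agent.S3.E.J3C

/-!
# Stage 3, block E: the sharp joint range condition, corners (generated)
-/

set_option autoImplicit false

namespace Pool.Agent.S3.E.J3

open Complex

theorem st50_par : Par (33 / 167) (969 / 5000) (4901 / 5000) := by
  constructor <;> norm_num

theorem st50_r0 {m : ℝ} (h0 : 231 / 1000 ≤ m) (h1 : m ≤ 167 / 301) :
    Rect (33 / 167) (969 / 5000) (4901 / 5000) (159 / 500) (1149 / 2500) (7739 / 10000) (44 / 100) (63 / 100 - 44 / 100) (63 / 100)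
      (63 / 100 - 63 / 100) m := by
  have p0 : 0 ≤ m - 231 / 1000 := sub_nonneg.2 h0
  have p1 : 0 ≤ 167 / 301 - m := sub_nonneg.2 h1
  have q0 := mul_nonneg p0 (mul_nonneg p0 p0)
  have q1 := mul_nonneg p0 (mul_nonneg p0 p1)
  have q2 := mul_nonneg p0 (mul_nonneg p1 p1)
  have q3 := mul_nonneg p1 (mul_nonneg p1 p1)
  constructor <;> (unfold G3; linarith)

theorem st50_r1 {m : ℝ} (h0 : 137 / 500 ≤ m) (h1 : m ≤ 167 / 301) :
    Rect (33 / 167) (969 / 5000) (4901 / 5000) (159 / 500) (1149 / 2500) (61 / 100) (63 / 100) 0 1 0 m := by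
  have p0 : 0 ≤ m - 137 / 500 := sub_nonneg.2 h0
  have p1 : 0 ≤ 167 / 301 - m := sub_nonneg.2 h1
  have q0 := mul_nonneg p0 (mul_nonneg p0 p0)
  have q1 := mul_nonneg p0 (mul_nonneg p0 p1)
  have q2 := mul_nonneg p0 (mul_nonneg p1 p1)
  have q3 := mul_nonneg p1 (mul_nonneg p1 p1)
  constructor <;> (unfold G3; linarith)

theorem st50_r2 {m : ℝ} (h0 : 39 / 125 ≤ m) (h1 : m ≤ 167 / 301) :
    Rect (33 / 167) (969 / 5000) (4901 / 5000) (159 / 500) (61 / 100) (7739 / 10000) (63 / 100) 0 (81 / 100) 0 m := by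
  have p0 : 0 ≤ m - 39 / 125 := sub_nonneg.2 h0
  have p1 : 0 ≤ 167 / 301 - m := sub_nonneg.2 h1
  have q0 := mul_nonneg p0 (mul_nonneg p0 p0)
  have q1 := mul_nonneg p0 (mul_nonneg p0 p1)
  have q2 := mul_nonneg p0 (mul_nonneg p1 p1)
  have q3 := mul_nonneg p1 (mul_nonneg p1 p1)
  constructor <;> (unfold G3; linarith)

theorem st50_r3 {m : ℝ} (h0 : 353 / 1000 ≤ m) (h1 : m ≤ 167 / 301) :
    Rect (33 / 167) (969 / 5000) (4901 / 5000) (159 / 500) (61 / 100) (7739 / 10000) (81 / 100) 0 1 0 m := by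
  have p0 : 0 ≤ m - 353 / 1000 := sub_nonneg.2 h0
  have p1 : 0 ≤ 167 / 301 - m := sub_nonneg.2 h1
  have q0 := mul_nonneg p0 (mul_nonneg p0 p0)
  have q1 := mul_nonneg p0 (mul_nonneg p0 p1)
  have q2 := mul_nonneg p0 (mul_nonneg p1 p1)
  have q3 := mul_nonneg p1 (mul_nonneg p1 p1)
  constructor <;> (unfold G3; linarith)

theorem st50_r4 {m : ℝ} (h0 : 261 / 1000 ≤ m) (h1 : m ≤ 167 / 301) :
    Rect (33 / 167) (969 / 5000) (4901 / 5000) (3333 / 10000) (1479 / 2500) (9429 / 10000) (44 / 100) (63 / 100 - 44 / 100) (63 / 100)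
      (63 / 100 - 63 / 100) m := by
  have p0 : 0 ≤ m - 261 / 1000 := sub_nonneg.2 h0
  have p1 : 0 ≤ 167 / 301 - m := sub_nonneg.2 h1
  have q0 := mul_nonneg p0 (mul_nonneg p0 p0)
  have q1 := mul_nonneg p0 (mul_nonneg p0 p1)
  have q2 := mul_nonneg p0 (mul_nonneg p1 p1)
  have q3 := mul_nonneg p1 (mul_nonneg p1 p1)
  constructor <;> (unfold G3; linarith)

theorem st50_r5 {m : ℝ} (h0 : 77 / 250 ≤ m) (h1 : m ≤ 167 / 301) :
    Rect (33 / 167) (969 / 5000) (4901 / 5000) (3333 / 10000) (1479 / 2500) (19 / 25) (63 / 100) 0 1 0 m := by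
  have p0 : 0 ≤ m - 77 / 250 := sub_nonneg.2 h0
  have p1 : 0 ≤ 167 / 301 - m := sub_nonneg.2 h1
  have q0 := mul_nonneg p0 (mul_nonneg p0 p0)
  have q1 := mul_nonneg p0 (mul_nonneg p0 p1)
  have q2 := mul_nonneg p0 (mul_nonneg p1 p1)
  have q3 := mul_nonneg p1 (mul_nonneg p1 p1)
  constructor <;> (unfold G3; linarith)

theorem st50_r6 {m : ℝ} (h0 : 87 / 250 ≤ m) (h1 : m ≤ 167 / 301) :
    Rect (33 / 167) (969 / 5000) (4901 / 5000) (3333 / 10000) (19 / 25) (17 / 20) (63 / 100) 0 1 0 m := by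
  have p0 : 0 ≤ m - 87 / 250 := sub_nonneg.2 h0
  have p1 : 0 ≤ 167 / 301 - m := sub_nonneg.2 h1
  have q0 := mul_nonneg p0 (mul_nonneg p0 p0)
  have q1 := mul_nonneg p0 (mul_nonneg p0 p1)
  have q2 := mul_nonneg p0 (mul_nonneg p1 p1)
  have q3 := mul_nonneg p1 (mul_nonneg p1 p1)
  constructor <;> (unfold G3; linarith)

theorem st50_r7 {m : ℝ} (h0 : 367 / 1000 ≤ m) (h1 : m ≤ 167 / 301) :
    Rect (33 / 167) (969 / 5000) (4901 / 5000) (3333 / 10000) (17 / 20) (89 / 100) (63 / 100) 0 1 0 m := by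
  have p0 : 0 ≤ m - 367 / 1000 := sub_nonneg.2 h0
  have p1 : 0 ≤ 167 / 301 - m := sub_nonneg.2 h1
  have q0 := mul_nonneg p0 (mul_nonneg p0 p0)
  have q1 := mul_nonneg p0 (mul_nonneg p0 p1)
  have q2 := mul_nonneg p0 (mul_nonneg p1 p1)
  have q3 := mul_nonneg p1 (mul_nonneg p1 p1)
  constructor <;> (unfold G3; linarith)

theorem st50_r8 {m : ℝ} (h0 : 47 / 125 ≤ m) (h1 : m ≤ 167 / 301) :
    Rect (33 / 167) (969 / 5000) (4901 / 5000) (3333 / 10000) (89 / 100) (9429 / 10000) (63 / 100) 0 (81 / 100) 0 m := by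
  have p0 : 0 ≤ m - 47 / 125 := sub_nonneg.2 h0
  have p1 : 0 ≤ 167 / 301 - m := sub_nonneg.2 h1
  have q0 := mul_nonneg p0 (mul_nonneg p0 p0)
  have q1 := mul_nonneg p0 (mul_nonneg p0 p1)
  have q2 := mul_nonneg p0 (mul_nonneg p1 p1)
  have q3 := mul_nonneg p1 (mul_nonneg p1 p1)
  constructor <;> (unfold G3; linarith)

theorem st50_r9 {m : ℝ} (h0 : 423 / 1000 ≤ m) (h1 : m ≤ 167 / 301) :
    Rect (33 / 167) (969 / 5000) (4901 / 5000) (3333 / 10000) (89 / 100) (9429 / 10000) (81 / 100) 0 1 0 m := by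
  have p0 : 0 ≤ m - 423 / 1000 := sub_nonneg.2 h0
  have p1 : 0 ≤ 167 / 301 - m := sub_nonneg.2 h1
  have q0 := mul_nonneg p0 (mul_nonneg p0 p0)
  have q1 := mul_nonneg p0 (mul_nonneg p0 p1)
  have q2 := mul_nonneg p0 (mul_nonneg p1 p1)
  have q3 := mul_nonneg p1 (mul_nonneg p1 p1)
  constructor <;> (unfold G3; linarith)

theorem st50 {z b₁ b₂ : ℂ} {a g : ℝ} (H : Hyp z b₁ b₂) (N : Nb (1 / 3) b₁.re b₁.im a g)
    (hK : 169 / 400 ≤ a + g) : 33 / 167 ≤ Real.cos (2 * th z.re z.im) := by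
  rcases le_total (a + g) (7 / 10) with k0 | k0
  · obtain ⟨i1, i2, i3⟩ := N.reg (b := 159 / 500) (l := 1149 / 2500) (u := 7739 / 10000) hK k0 (by norm_num)
      (by norm_num) (by norm_num) (by norm_num) (by norm_num) (by norm_num) (by norm_num)
      (by norm_num)
    rcases le_total b₂.re (63 / 100) with s0 | s0
    · exact H.line st50_par (m₀ := 231 / 1000) (b := 159 / 500) (l₁ := 1149 / 2500) (u₁ := 7739 / 10000) (by norm_num)
        (by norm_num) (by norm_num) (by norm_num) (by norm_num)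
        (fun m h0 h1 => st50_r0 h0 (by linarith)) i1 i2 i3 s0
    · rcases le_total b₁.re (61 / 100) with s1 | s1
      · exact H.flat st50_par (m₀ := 137 / 500) (b := 159 / 500) (l₁ := 1149 / 2500) (u₁ := 61 / 100) (l₂ := 63 / 100)
          (u₂ := 1) (by norm_num) (by norm_num) (by norm_num) (by norm_num) (by norm_num) (by norm_num)
          (fun m h0 h1 => st50_r1 h0 (by linarith)) i1 i2 s1 s0 H.A2
      · rcases le_total b₂.re (81 / 100) with s2 | s2
        · exact H.flat st50_par (m₀ := 39 / 125) (b := 159 / 500) (l₁ := 61 / 100) (u₁ := 7739 / 10000) (l₂ := 63 / 100)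
            (u₂ := 81 / 100) (by norm_num) (by norm_num) (by norm_num) (by norm_num) (by norm_num) (by norm_num)
            (fun m h0 h1 => st50_r2 h0 (by linarith)) i1 s1 i3 s0 s2
        · exact H.flat st50_par (m₀ := 353 / 1000) (b := 159 / 500) (l₁ := 61 / 100) (u₁ := 7739 / 10000) (l₂ := 81 / 100)
            (u₂ := 1) (by norm_num) (by norm_num) (by norm_num) (by norm_num) (by norm_num) (by norm_num)
            (fun m h0 h1 => st50_r3 h0 (by linarith)) i1 s1 i3 s2 H.A2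
  obtain ⟨i1, i2, i3⟩ := N.reg (b := 3333 / 10000) (l := 1479 / 2500) (u := 9429 / 10000) k0 N.h1 (by norm_num)
    (by norm_num) (by norm_num) (by norm_num) (by norm_num) (by norm_num) (by norm_num)
    (by norm_num)
  rcases le_total b₂.re (63 / 100) with s0 | s0
  · exact H.line st50_par (m₀ := 261 / 1000) (b := 3333 / 10000) (l₁ := 1479 / 2500) (u₁ := 9429 / 10000) (by norm_num)
      (by norm_num) (by norm_num) (by norm_num) (by norm_num)
      (fun m h0 h1 => st50_r4 h0 (by linarith)) i1 i2 i3 s0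
  · rcases le_total b₁.re (19 / 25) with s3 | s3
    · exact H.flat st50_par (m₀ := 77 / 250) (b := 3333 / 10000) (l₁ := 1479 / 2500) (u₁ := 19 / 25) (l₂ := 63 / 100)
        (u₂ := 1) (by norm_num) (by norm_num) (by norm_num) (by norm_num) (by norm_num) (by norm_num)
        (fun m h0 h1 => st50_r5 h0 (by linarith)) i1 i2 s3 s0 H.A2
    · rcases le_total b₁.re (17 / 20) with s4 | s4
      · exact H.flat st50_par (m₀ := 87 / 250) (b := 3333 / 10000) (l₁ := 19 / 25) (u₁ := 17 / 20) (l₂ := 63 / 100)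
          (u₂ := 1) (by norm_num) (by norm_num) (by norm_num) (by norm_num) (by norm_num) (by norm_num)
          (fun m h0 h1 => st50_r6 h0 (by linarith)) i1 s3 s4 s0 H.A2
      · rcases le_total b₁.re (89 / 100) with s5 | s5
        · exact H.flat st50_par (m₀ := 367 / 1000) (b := 3333 / 10000) (l₁ := 17 / 20) (u₁ := 89 / 100) (l₂ := 63 / 100)
            (u₂ := 1) (by norm_num) (by norm_num) (by norm_num) (by norm_num) (by norm_num) (by norm_num)
            (fun m h0 h1 => st50_r7 h0 (by linarith)) i1 s4 s5 s0 H.A2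
        · rcases le_total b₂.re (81 / 100) with s6 | s6
          · exact H.flat st50_par (m₀ := 47 / 125) (b := 3333 / 10000) (l₁ := 89 / 100) (u₁ := 9429 / 10000) (l₂ := 63 / 100)
              (u₂ := 81 / 100) (by norm_num) (by norm_num) (by norm_num) (by norm_num) (by norm_num) (by norm_num)
              (fun m h0 h1 => st50_r8 h0 (by linarith)) i1 s5 i3 s0 s6
          · exact H.flat st50_par (m₀ := 423 / 1000) (b := 3333 / 10000) (l₁ := 89 / 100) (u₁ := 9429 / 10000) (l₂ := 81 / 100)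
              (u₂ := 1) (by norm_num) (by norm_num) (by norm_num) (by norm_num) (by norm_num) (by norm_num)
              (fun m h0 h1 => st50_r9 h0 (by linarith)) i1 s5 i3 s6 H.A2

theorem st55_par : Par (7 / 33) (2073 / 10000) (2443 / 2500) := by
  constructor <;> norm_num

theorem st55_r0 {m : ℝ} (h0 : 29 / 125 ≤ m) (h1 : m ≤ 33 / 59) :
    Rect (7 / 33) (2073 / 10000) (2443 / 2500) (1651 / 5000) (1149 / 2500) (7007 / 10000) (44 / 100) (63 / 100 - 44 / 100) (63 / 100)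
      (63 / 100 - 63 / 100) m := by
  have p0 : 0 ≤ m - 29 / 125 := sub_nonneg.2 h0
  have p1 : 0 ≤ 33 / 59 - m := sub_nonneg.2 h1
  have q0 := mul_nonneg p0 (mul_nonneg p0 p0)
  have q1 := mul_nonneg p0 (mul_nonneg p0 p1)
  have q2 := mul_nonneg p0 (mul_nonneg p1 p1)
  have q3 := mul_nonneg p1 (mul_nonneg p1 p1)
  constructor <;> (unfold G3; linarith)

theorem st55_r1 {m : ℝ} (h0 : 11 / 40 ≤ m) (h1 : m ≤ 33 / 59) :
    Rect (7 / 33) (2073 / 10000) (2443 / 2500) (1651 / 5000) (1149 / 2500) (29 / 50) (63 / 100) 0 1 0 m := by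
  have p0 : 0 ≤ m - 11 / 40 := sub_nonneg.2 h0
  have p1 : 0 ≤ 33 / 59 - m := sub_nonneg.2 h1
  have q0 := mul_nonneg p0 (mul_nonneg p0 p0)
  have q1 := mul_nonneg p0 (mul_nonneg p0 p1)
  have q2 := mul_nonneg p0 (mul_nonneg p1 p1)
  have q3 := mul_nonneg p1 (mul_nonneg p1 p1)
  constructor <;> (unfold G3; linarith)

theorem st55_r2 {m : ℝ} (h0 : 61 / 200 ≤ m) (h1 : m ≤ 33 / 59) :
    Rect (7 / 33) (2073 / 10000) (2443 / 2500) (1651 / 5000) (29 / 50) (7007 / 10000) (63 / 100) 0 (81 / 100) 0 m := by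
  have p0 : 0 ≤ m - 61 / 200 := sub_nonneg.2 h0
  have p1 : 0 ≤ 33 / 59 - m := sub_nonneg.2 h1
  have q0 := mul_nonneg p0 (mul_nonneg p0 p0)
  have q1 := mul_nonneg p0 (mul_nonneg p0 p1)
  have q2 := mul_nonneg p0 (mul_nonneg p1 p1)
  have q3 := mul_nonneg p1 (mul_nonneg p1 p1)
  constructor <;> (unfold G3; linarith)

theorem st55_r3 {m : ℝ} (h0 : 69 / 200 ≤ m) (h1 : m ≤ 33 / 59) :
    Rect (7 / 33) (2073 / 10000) (2443 / 2500) (1651 / 5000) (29 / 50) (16 / 25) (81 / 100) 0 1 0 m := by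
  have p0 : 0 ≤ m - 69 / 200 := sub_nonneg.2 h0
  have p1 : 0 ≤ 33 / 59 - m := sub_nonneg.2 h1
  have q0 := mul_nonneg p0 (mul_nonneg p0 p0)
  have q1 := mul_nonneg p0 (mul_nonneg p0 p1)
  have q2 := mul_nonneg p0 (mul_nonneg p1 p1)
  have q3 := mul_nonneg p1 (mul_nonneg p1 p1)
  constructor <;> (unfold G3; linarith)

theorem st55_r4 {m : ℝ} (h0 : 361 / 1000 ≤ m) (h1 : m ≤ 33 / 59) :
    Rect (7 / 33) (2073 / 10000) (2443 / 2500) (1651 / 5000) (16 / 25) (7007 / 10000) (81 / 100) 0 1 0 m := by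
  have p0 : 0 ≤ m - 361 / 1000 := sub_nonneg.2 h0
  have p1 : 0 ≤ 33 / 59 - m := sub_nonneg.2 h1
  have q0 := mul_nonneg p0 (mul_nonneg p0 p0)
  have q1 := mul_nonneg p0 (mul_nonneg p0 p1)
  have q2 := mul_nonneg p0 (mul_nonneg p1 p1)
  have q3 := mul_nonneg p1 (mul_nonneg p1 p1)
  constructor <;> (unfold G3; linarith)

theorem st55_r5 {m : ℝ} (h0 : 253 / 1000 ≤ m) (h1 : m ≤ 33 / 59) :
    Rect (7 / 33) (2073 / 10000) (2443 / 2500) (903 / 2500) (5477 / 10000) (8183 / 10000) (44 / 100) (63 / 100 - 44 / 100) (63 / 100)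
      (63 / 100 - 63 / 100) m := by
  have p0 : 0 ≤ m - 253 / 1000 := sub_nonneg.2 h0
  have p1 : 0 ≤ 33 / 59 - m := sub_nonneg.2 h1
  have q0 := mul_nonneg p0 (mul_nonneg p0 p0)
  have q1 := mul_nonneg p0 (mul_nonneg p0 p1)
  have q2 := mul_nonneg p0 (mul_nonneg p1 p1)
  have q3 := mul_nonneg p1 (mul_nonneg p1 p1)
  constructor <;> (unfold G3; linarith)

theorem st55_r6 {m : ℝ} (h0 : 149 / 500 ≤ m) (h1 : m ≤ 33 / 59) :
    Rect (7 / 33) (2073 / 10000) (2443 / 2500) (903 / 2500) (5477 / 10000) (8183 / 10000) (63 / 100) 0 1 0 m := by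
  have p0 : 0 ≤ m - 149 / 500 := sub_nonneg.2 h0
  have p1 : 0 ≤ 33 / 59 - m := sub_nonneg.2 h1
  have q0 := mul_nonneg p0 (mul_nonneg p0 p0)
  have q1 := mul_nonneg p0 (mul_nonneg p0 p1)
  have q2 := mul_nonneg p0 (mul_nonneg p1 p1)
  have q3 := mul_nonneg p1 (mul_nonneg p1 p1)
  constructor <;> (unfold G3; linarith)

theorem st55_r7 {m : ℝ} (h0 : 271 / 1000 ≤ m) (h1 : m ≤ 33 / 59) :
    Rect (7 / 33) (2073 / 10000) (2443 / 2500) (887 / 2500) (1581 / 2500) (187 / 200) (44 / 100) (63 / 100 - 44 / 100) (63 / 100)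
      (63 / 100 - 63 / 100) m := by
  have p0 : 0 ≤ m - 271 / 1000 := sub_nonneg.2 h0
  have p1 : 0 ≤ 33 / 59 - m := sub_nonneg.2 h1
  have q0 := mul_nonneg p0 (mul_nonneg p0 p0)
  have q1 := mul_nonneg p0 (mul_nonneg p0 p1)
  have q2 := mul_nonneg p0 (mul_nonneg p1 p1)
  have q3 := mul_nonneg p1 (mul_nonneg p1 p1)
  constructor <;> (unfold G3; linarith)

theorem st55_r8 {m : ℝ} (h0 : 159 / 500 ≤ m) (h1 : m ≤ 33 / 59) :
    Rect (7 / 33) (2073 / 10000) (2443 / 2500) (887 / 2500) (1581 / 2500) (39 / 50) (63 / 100) 0 1 0 m := by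
  have p0 : 0 ≤ m - 159 / 500 := sub_nonneg.2 h0
  have p1 : 0 ≤ 33 / 59 - m := sub_nonneg.2 h1
  have q0 := mul_nonneg p0 (mul_nonneg p0 p0)
  have q1 := mul_nonneg p0 (mul_nonneg p0 p1)
  have q2 := mul_nonneg p0 (mul_nonneg p1 p1)
  have q3 := mul_nonneg p1 (mul_nonneg p1 p1)
  constructor <;> (unfold G3; linarith)

theorem st55_r9 {m : ℝ} (h0 : 44 / 125 ≤ m) (h1 : m ≤ 33 / 59) :
    Rect (7 / 33) (2073 / 10000) (2443 / 2500) (887 / 2500) (39 / 50) (17 / 20) (63 / 100) 0 1 0 m := by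
  have p0 : 0 ≤ m - 44 / 125 := sub_nonneg.2 h0
  have p1 : 0 ≤ 33 / 59 - m := sub_nonneg.2 h1
  have q0 := mul_nonneg p0 (mul_nonneg p0 p0)
  have q1 := mul_nonneg p0 (mul_nonneg p0 p1)
  have q2 := mul_nonneg p0 (mul_nonneg p1 p1)
  have q3 := mul_nonneg p1 (mul_nonneg p1 p1)
  constructor <;> (unfold G3; linarith)

theorem st55_r10 {m : ℝ} (h0 : 367 / 1000 ≤ m) (h1 : m ≤ 33 / 59) :
    Rect (7 / 33) (2073 / 10000) (2443 / 2500) (887 / 2500) (17 / 20) (187 / 200) (63 / 100) 0 (81 / 100) 0 m := by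
  have p0 : 0 ≤ m - 367 / 1000 := sub_nonneg.2 h0
  have p1 : 0 ≤ 33 / 59 - m := sub_nonneg.2 h1
  have q0 := mul_nonneg p0 (mul_nonneg p0 p0)
  have q1 := mul_nonneg p0 (mul_nonneg p0 p1)
  have q2 := mul_nonneg p0 (mul_nonneg p1 p1)
  have q3 := mul_nonneg p1 (mul_nonneg p1 p1)
  constructor <;> (unfold G3; linarith)

theorem st55_r11 {m : ℝ} (h0 : 207 / 500 ≤ m) (h1 : m ≤ 33 / 59) :
    Rect (7 / 33) (2073 / 10000) (2443 / 2500) (887 / 2500) (17 / 20) (89 / 100) (81 / 100) 0 1 0 m := by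
  have p0 : 0 ≤ m - 207 / 500 := sub_nonneg.2 h0
  have p1 : 0 ≤ 33 / 59 - m := sub_nonneg.2 h1
  have q0 := mul_nonneg p0 (mul_nonneg p0 p0)
  have q1 := mul_nonneg p0 (mul_nonneg p0 p1)
  have q2 := mul_nonneg p0 (mul_nonneg p1 p1)
  have q3 := mul_nonneg p1 (mul_nonneg p1 p1)
  constructor <;> (unfold G3; linarith)

theorem st55_r12 {m : ℝ} (h0 : 423 / 1000 ≤ m) (h1 : m ≤ 33 / 59) :
    Rect (7 / 33) (2073 / 10000) (2443 / 2500) (887 / 2500) (89 / 100) (187 / 200) (81 / 100) 0 1 0 m := by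
  have p0 : 0 ≤ m - 423 / 1000 := sub_nonneg.2 h0
  have p1 : 0 ≤ 33 / 59 - m := sub_nonneg.2 h1
  have q0 := mul_nonneg p0 (mul_nonneg p0 p0)
  have q1 := mul_nonneg p0 (mul_nonneg p0 p1)
  have q2 := mul_nonneg p0 (mul_nonneg p1 p1)
  have q3 := mul_nonneg p1 (mul_nonneg p1 p1)
  constructor <;> (unfold G3; linarith)

theorem st55 {z b₁ b₂ : ℂ} {a g : ℝ} (H : Hyp z b₁ b₂) (N : Nb (11 / 31) b₁.re b₁.im a g)
    (hK : 169 / 400 ≤ a + g) : 7 / 33 ≤ Real.cos (2 * th z.re z.im) := by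
  rcases le_total (a + g) (3 / 5) with k0 | k0
  · obtain ⟨i1, i2, i3⟩ := N.reg (b := 1651 / 5000) (l := 1149 / 2500) (u := 7007 / 10000) hK k0 (by norm_num)
      (by norm_num) (by norm_num) (by norm_num) (by norm_num) (by norm_num) (by norm_num)
      (by norm_num)
    rcases le_total b₂.re (63 / 100) with s0 | s0
    · exact H.line st55_par (m₀ := 29 / 125) (b := 1651 / 5000) (l₁ := 1149 / 2500) (u₁ := 7007 / 10000) (by norm_num)
        (by norm_num) (by norm_num) (by norm_num) (by norm_num)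
        (fun m h0 h1 => st55_r0 h0 (by linarith)) i1 i2 i3 s0
    · rcases le_total b₁.re (29 / 50) with s1 | s1
      · exact H.flat st55_par (m₀ := 11 / 40) (b := 1651 / 5000) (l₁ := 1149 / 2500) (u₁ := 29 / 50) (l₂ := 63 / 100)
          (u₂ := 1) (by norm_num) (by norm_num) (by norm_num) (by norm_num) (by norm_num) (by norm_num)
          (fun m h0 h1 => st55_r1 h0 (by linarith)) i1 i2 s1 s0 H.A2
      · rcases le_total b₂.re (81 / 100) with s2 | s2
        · exact H.flat st55_par (m₀ := 61 / 200) (b := 1651 / 5000) (l₁ := 29 / 50) (u₁ := 7007 / 10000) (l₂ := 63 / 100)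
            (u₂ := 81 / 100) (by norm_num) (by norm_num) (by norm_num) (by norm_num) (by norm_num) (by norm_num)
            (fun m h0 h1 => st55_r2 h0 (by linarith)) i1 s1 i3 s0 s2
        · rcases le_total b₁.re (16 / 25) with s3 | s3
          · exact H.flat st55_par (m₀ := 69 / 200) (b := 1651 / 5000) (l₁ := 29 / 50) (u₁ := 16 / 25) (l₂ := 81 / 100)
              (u₂ := 1) (by norm_num) (by norm_num) (by norm_num) (by norm_num) (by norm_num) (by norm_num)
              (fun m h0 h1 => st55_r3 h0 (by linarith)) i1 s1 s3 s2 H.A2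
          · exact H.flat st55_par (m₀ := 361 / 1000) (b := 1651 / 5000) (l₁ := 16 / 25) (u₁ := 7007 / 10000) (l₂ := 81 / 100)
              (u₂ := 1) (by norm_num) (by norm_num) (by norm_num) (by norm_num) (by norm_num) (by norm_num)
              (fun m h0 h1 => st55_r4 h0 (by linarith)) i1 s3 i3 s2 H.A2
  rcases le_total (a + g) (4 / 5) with k1 | k1
  · obtain ⟨i1, i2, i3⟩ := N.reg (b := 903 / 2500) (l := 5477 / 10000) (u := 8183 / 10000) k0 k1 (by norm_num)
      (by norm_num) (by norm_num) (by norm_num) (by norm_num) (by norm_num) (by norm_num)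
      (by norm_num)
    rcases le_total b₂.re (63 / 100) with s0 | s0
    · exact H.line st55_par (m₀ := 253 / 1000) (b := 903 / 2500) (l₁ := 5477 / 10000) (u₁ := 8183 / 10000) (by norm_num)
        (by norm_num) (by norm_num) (by norm_num) (by norm_num)
        (fun m h0 h1 => st55_r5 h0 (by linarith)) i1 i2 i3 s0
    · exact H.flat st55_par (m₀ := 149 / 500) (b := 903 / 2500) (l₁ := 5477 / 10000) (u₁ := 8183 / 10000) (l₂ := 63 / 100)
        (u₂ := 1) (by norm_num) (by norm_num) (by norm_num) (by norm_num) (by norm_num) (by norm_num)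
        (fun m h0 h1 => st55_r6 h0 (by linarith)) i1 i2 i3 s0 H.A2
  obtain ⟨i1, i2, i3⟩ := N.reg (b := 887 / 2500) (l := 1581 / 2500) (u := 187 / 200) k1 N.h1 (by norm_num)
    (by norm_num) (by norm_num) (by norm_num) (by norm_num) (by norm_num) (by norm_num)
    (by norm_num)
  rcases le_total b₂.re (63 / 100) with s0 | s0
  · exact H.line st55_par (m₀ := 271 / 1000) (b := 887 / 2500) (l₁ := 1581 / 2500) (u₁ := 187 / 200) (by norm_num)
      (by norm_num) (by norm_num) (by norm_num) (by norm_num)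
      (fun m h0 h1 => st55_r7 h0 (by linarith)) i1 i2 i3 s0
  · rcases le_total b₁.re (39 / 50) with s4 | s4
    · exact H.flat st55_par (m₀ := 159 / 500) (b := 887 / 2500) (l₁ := 1581 / 2500) (u₁ := 39 / 50) (l₂ := 63 / 100)
        (u₂ := 1) (by norm_num) (by norm_num) (by norm_num) (by norm_num) (by norm_num) (by norm_num)
        (fun m h0 h1 => st55_r8 h0 (by linarith)) i1 i2 s4 s0 H.A2
    · rcases le_total b₁.re (17 / 20) with s5 | s5
      · exact H.flat st55_par (m₀ := 44 / 125) (b := 887 / 2500) (l₁ := 39 / 50) (u₁ := 17 / 20) (l₂ := 63 / 100)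
          (u₂ := 1) (by norm_num) (by norm_num) (by norm_num) (by norm_num) (by norm_num) (by norm_num)
          (fun m h0 h1 => st55_r9 h0 (by linarith)) i1 s4 s5 s0 H.A2
      · rcases le_total b₂.re (81 / 100) with s6 | s6
        · exact H.flat st55_par (m₀ := 367 / 1000) (b := 887 / 2500) (l₁ := 17 / 20) (u₁ := 187 / 200) (l₂ := 63 / 100)
            (u₂ := 81 / 100) (by norm_num) (by norm_num) (by norm_num) (by norm_num) (by norm_num) (by norm_num)
            (fun m h0 h1 => st55_r10 h0 (by linarith)) i1 s5 i3 s0 s6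
        · rcases le_total b₁.re (89 / 100) with s7 | s7
          · exact H.flat st55_par (m₀ := 207 / 500) (b := 887 / 2500) (l₁ := 17 / 20) (u₁ := 89 / 100) (l₂ := 81 / 100)
              (u₂ := 1) (by norm_num) (by norm_num) (by norm_num) (by norm_num) (by norm_num) (by norm_num)
              (fun m h0 h1 => st55_r11 h0 (by linarith)) i1 s5 s7 s6 H.A2
          · exact H.flat st55_par (m₀ := 423 / 1000) (b := 887 / 2500) (l₁ := 89 / 100) (u₁ := 187 / 200) (l₂ := 81 / 100)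
              (u₂ := 1) (by norm_num) (by norm_num) (by norm_num) (by norm_num) (by norm_num) (by norm_num)
              (fun m h0 h1 => st55_r12 h0 (by linarith)) i1 s7 i3 s6 H.A2

end Pool.Agent.S3.E.J3
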