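import Pool.Agent.S3.E.J3C

/-!
# Stage 3, block E: the sharp joint range condition, corners (generated)
-/

set_option autoImplicit false

namespace Pool.Agent.S3.E.J3

open Complex

theorem st60_par : Par (73 / 327) (2177 / 10000) (9747 / 10000) := by
  constructor <;> norm_num

theorem st60_r0 {m : ℝ} (h0 : 29 / 125 ≤ m) (h1 : m ≤ 327 / 581) :
    Rect (73 / 327) (2177 / 10000) (9747 / 10000) (1707 / 5000) (1149 / 2500) (3477 / 5000) (44 / 100) (63 / 100 - 44 / 100) (63 / 100)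
      (63 / 100 - 63 / 100) m := by
  have p0 : 0 ≤ m - 29 / 125 := sub_nonneg.2 h0
  have p1 : 0 ≤ 327 / 581 - m := sub_nonneg.2 h1
  have q0 := mul_nonneg p0 (mul_nonneg p0 p0)
  have q1 := mul_nonneg p0 (mul_nonneg p0 p1)
  have q2 := mul_nonneg p0 (mul_nonneg p1 p1)
  have q3 := mul_nonneg p1 (mul_nonneg p1 p1)
  constructor <;> (unfold G3; linarith)

theorem st60_r1 {m : ℝ} (h0 : 11 / 40 ≤ m) (h1 : m ≤ 327 / 581) :
    Rect (73 / 327) (2177 / 10000) (9747 / 10000) (1707 / 5000) (1149 / 2500) (3477 / 5000) (63 / 100) 0 (81 / 100) 0 m := by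
  have p0 : 0 ≤ m - 11 / 40 := sub_nonneg.2 h0
  have p1 : 0 ≤ 327 / 581 - m := sub_nonneg.2 h1
  have q0 := mul_nonneg p0 (mul_nonneg p0 p0)
  have q1 := mul_nonneg p0 (mul_nonneg p0 p1)
  have q2 := mul_nonneg p0 (mul_nonneg p1 p1)
  have q3 := mul_nonneg p1 (mul_nonneg p1 p1)
  constructor <;> (unfold G3; linarith)

theorem st60_r2 {m : ℝ} (h0 : 39 / 125 ≤ m) (h1 : m ≤ 327 / 581) :
    Rect (73 / 327) (2177 / 10000) (9747 / 10000) (1707 / 5000) (1149 / 2500) (57 / 100) (81 / 100) 0 1 0 m := by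
  have p0 : 0 ≤ m - 39 / 125 := sub_nonneg.2 h0
  have p1 : 0 ≤ 327 / 581 - m := sub_nonneg.2 h1
  have q0 := mul_nonneg p0 (mul_nonneg p0 p0)
  have q1 := mul_nonneg p0 (mul_nonneg p0 p1)
  have q2 := mul_nonneg p0 (mul_nonneg p1 p1)
  have q3 := mul_nonneg p1 (mul_nonneg p1 p1)
  constructor <;> (unfold G3; linarith)

theorem st60_r3 {m : ℝ} (h0 : 171 / 500 ≤ m) (h1 : m ≤ 327 / 581) :
    Rect (73 / 327) (2177 / 10000) (9747 / 10000) (1707 / 5000) (57 / 100) (63 / 100) (81 / 100) 0 1 0 m := by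
  have p0 : 0 ≤ m - 171 / 500 := sub_nonneg.2 h0
  have p1 : 0 ≤ 327 / 581 - m := sub_nonneg.2 h1
  have q0 := mul_nonneg p0 (mul_nonneg p0 p0)
  have q1 := mul_nonneg p0 (mul_nonneg p0 p1)
  have q2 := mul_nonneg p0 (mul_nonneg p1 p1)
  have q3 := mul_nonneg p1 (mul_nonneg p1 p1)
  constructor <;> (unfold G3; linarith)

theorem st60_r4 {m : ℝ} (h0 : 179 / 500 ≤ m) (h1 : m ≤ 327 / 581) :
    Rect (73 / 327) (2177 / 10000) (9747 / 10000) (1707 / 5000) (63 / 100) (3477 / 5000) (81 / 100) 0 (9 / 10) 0 m := by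
  have p0 : 0 ≤ m - 179 / 500 := sub_nonneg.2 h0
  have p1 : 0 ≤ 327 / 581 - m := sub_nonneg.2 h1
  have q0 := mul_nonneg p0 (mul_nonneg p0 p0)
  have q1 := mul_nonneg p0 (mul_nonneg p0 p1)
  have q2 := mul_nonneg p0 (mul_nonneg p1 p1)
  have q3 := mul_nonneg p1 (mul_nonneg p1 p1)
  constructor <;> (unfold G3; linarith)

theorem st60_r5 {m : ℝ} (h0 : 377 / 1000 ≤ m) (h1 : m ≤ 327 / 581) :
    Rect (73 / 327) (2177 / 10000) (9747 / 10000) (1707 / 5000) (63 / 100) (3477 / 5000) (9 / 10) 0 1 0 m := by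
  have p0 : 0 ≤ m - 377 / 1000 := sub_nonneg.2 h0
  have p1 : 0 ≤ 327 / 581 - m := sub_nonneg.2 h1
  have q0 := mul_nonneg p0 (mul_nonneg p0 p0)
  have q1 := mul_nonneg p0 (mul_nonneg p0 p1)
  have q2 := mul_nonneg p0 (mul_nonneg p1 p1)
  have q3 := mul_nonneg p1 (mul_nonneg p1 p1)
  constructor <;> (unfold G3; linarith)

theorem st60_r6 {m : ℝ} (h0 : 253 / 1000 ≤ m) (h1 : m ≤ 327 / 581) :
    Rect (73 / 327) (2177 / 10000) (9747 / 10000) (3 / 8) (5477 / 10000) (8121 / 10000) (44 / 100) (63 / 100 - 44 / 100) (63 / 100)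
      (63 / 100 - 63 / 100) m := by
  have p0 : 0 ≤ m - 253 / 1000 := sub_nonneg.2 h0
  have p1 : 0 ≤ 327 / 581 - m := sub_nonneg.2 h1
  have q0 := mul_nonneg p0 (mul_nonneg p0 p0)
  have q1 := mul_nonneg p0 (mul_nonneg p0 p1)
  have q2 := mul_nonneg p0 (mul_nonneg p1 p1)
  have q3 := mul_nonneg p1 (mul_nonneg p1 p1)
  constructor <;> (unfold G3; linarith)

theorem st60_r7 {m : ℝ} (h0 : 149 / 500 ≤ m) (h1 : m ≤ 327 / 581) :
    Rect (73 / 327) (2177 / 10000) (9747 / 10000) (3 / 8) (5477 / 10000) (8121 / 10000) (63 / 100) 0 1 0 m := by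
  have p0 : 0 ≤ m - 149 / 500 := sub_nonneg.2 h0
  have p1 : 0 ≤ 327 / 581 - m := sub_nonneg.2 h1
  have q0 := mul_nonneg p0 (mul_nonneg p0 p0)
  have q1 := mul_nonneg p0 (mul_nonneg p0 p1)
  have q2 := mul_nonneg p0 (mul_nonneg p1 p1)
  have q3 := mul_nonneg p1 (mul_nonneg p1 p1)
  constructor <;> (unfold G3; linarith)

theorem st60_r8 {m : ℝ} (h0 : 271 / 1000 ≤ m) (h1 : m ≤ 327 / 581) :
    Rect (73 / 327) (2177 / 10000) (9747 / 10000) (3 / 8) (1581 / 2500) (9271 / 10000) (44 / 100) (63 / 100 - 44 / 100) (63 / 100)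
      (63 / 100 - 63 / 100) m := by
  have p0 : 0 ≤ m - 271 / 1000 := sub_nonneg.2 h0
  have p1 : 0 ≤ 327 / 581 - m := sub_nonneg.2 h1
  have q0 := mul_nonneg p0 (mul_nonneg p0 p0)
  have q1 := mul_nonneg p0 (mul_nonneg p0 p1)
  have q2 := mul_nonneg p0 (mul_nonneg p1 p1)
  have q3 := mul_nonneg p1 (mul_nonneg p1 p1)
  constructor <;> (unfold G3; linarith)

theorem st60_r9 {m : ℝ} (h0 : 319 / 1000 ≤ m) (h1 : m ≤ 327 / 581) :
    Rect (73 / 327) (2177 / 10000) (9747 / 10000) (3 / 8) (1581 / 2500) (77 / 100) (63 / 100) 0 1 0 m := by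
  have p0 : 0 ≤ m - 319 / 1000 := sub_nonneg.2 h0
  have p1 : 0 ≤ 327 / 581 - m := sub_nonneg.2 h1
  have q0 := mul_nonneg p0 (mul_nonneg p0 p0)
  have q1 := mul_nonneg p0 (mul_nonneg p0 p1)
  have q2 := mul_nonneg p0 (mul_nonneg p1 p1)
  have q3 := mul_nonneg p1 (mul_nonneg p1 p1)
  constructor <;> (unfold G3; linarith)

theorem st60_r10 {m : ℝ} (h0 : 7 / 20 ≤ m) (h1 : m ≤ 327 / 581) :
    Rect (73 / 327) (2177 / 10000) (9747 / 10000) (3 / 8) (77 / 100) (21 / 25) (63 / 100) 0 1 0 m := by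
  have p0 : 0 ≤ m - 7 / 20 := sub_nonneg.2 h0
  have p1 : 0 ≤ 327 / 581 - m := sub_nonneg.2 h1
  have q0 := mul_nonneg p0 (mul_nonneg p0 p0)
  have q1 := mul_nonneg p0 (mul_nonneg p0 p1)
  have q2 := mul_nonneg p0 (mul_nonneg p1 p1)
  have q3 := mul_nonneg p1 (mul_nonneg p1 p1)
  constructor <;> (unfold G3; linarith)

theorem st60_r11 {m : ℝ} (h0 : 73 / 200 ≤ m) (h1 : m ≤ 327 / 581) :
    Rect (73 / 327) (2177 / 10000) (9747 / 10000) (3 / 8) (21 / 25) (9271 / 10000) (63 / 100) 0 (81 / 100) 0 m := by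
  have p0 : 0 ≤ m - 73 / 200 := sub_nonneg.2 h0
  have p1 : 0 ≤ 327 / 581 - m := sub_nonneg.2 h1
  have q0 := mul_nonneg p0 (mul_nonneg p0 p0)
  have q1 := mul_nonneg p0 (mul_nonneg p0 p1)
  have q2 := mul_nonneg p0 (mul_nonneg p1 p1)
  have q3 := mul_nonneg p1 (mul_nonneg p1 p1)
  constructor <;> (unfold G3; linarith)

theorem st60_r12 {m : ℝ} (h0 : 411 / 1000 ≤ m) (h1 : m ≤ 327 / 581) :
    Rect (73 / 327) (2177 / 10000) (9747 / 10000) (3 / 8) (21 / 25) (9271 / 10000) (81 / 100) 0 1 0 m := by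
  have p0 : 0 ≤ m - 411 / 1000 := sub_nonneg.2 h0
  have p1 : 0 ≤ 327 / 581 - m := sub_nonneg.2 h1
  have q0 := mul_nonneg p0 (mul_nonneg p0 p0)
  have q1 := mul_nonneg p0 (mul_nonneg p0 p1)
  have q2 := mul_nonneg p0 (mul_nonneg p1 p1)
  have q3 := mul_nonneg p1 (mul_nonneg p1 p1)
  constructor <;> (unfold G3; linarith)

theorem st60 {z b₁ b₂ : ℂ} {a g : ℝ} (H : Hyp z b₁ b₂) (N : Nb (3 / 8) b₁.re b₁.im a g)
    (hK : 169 / 400 ≤ a + g) : 73 / 327 ≤ Real.cos (2 * th z.re z.im) := by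
  rcases le_total (a + g) (3 / 5) with k0 | k0
  · obtain ⟨i1, i2, i3⟩ := N.reg (b := 1707 / 5000) (l := 1149 / 2500) (u := 3477 / 5000) hK k0 (by norm_num)
      (by norm_num) (by norm_num) (by norm_num) (by norm_num) (by norm_num) (by norm_num)
      (by norm_num)
    rcases le_total b₂.re (63 / 100) with s0 | s0
    · exact H.line st60_par (m₀ := 29 / 125) (b := 1707 / 5000) (l₁ := 1149 / 2500) (u₁ := 3477 / 5000) (by norm_num)
        (by norm_num) (by norm_num) (by norm_num) (by norm_num)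
        (fun m h0 h1 => st60_r0 h0 (by linarith)) i1 i2 i3 s0
    · rcases le_total b₂.re (81 / 100) with s1 | s1
      · exact H.flat st60_par (m₀ := 11 / 40) (b := 1707 / 5000) (l₁ := 1149 / 2500) (u₁ := 3477 / 5000) (l₂ := 63 / 100)
          (u₂ := 81 / 100) (by norm_num) (by norm_num) (by norm_num) (by norm_num) (by norm_num) (by norm_num)
          (fun m h0 h1 => st60_r1 h0 (by linarith)) i1 i2 i3 s0 s1
      · rcases le_total b₁.re (57 / 100) with s2 | s2
        · exact H.flat st60_par (m₀ := 39 / 125) (b := 1707 / 5000) (l₁ := 1149 / 2500) (u₁ := 57 / 100) (l₂ := 81 / 100)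
            (u₂ := 1) (by norm_num) (by norm_num) (by norm_num) (by norm_num) (by norm_num) (by norm_num)
            (fun m h0 h1 => st60_r2 h0 (by linarith)) i1 i2 s2 s1 H.A2
        · rcases le_total b₁.re (63 / 100) with s3 | s3
          · exact H.flat st60_par (m₀ := 171 / 500) (b := 1707 / 5000) (l₁ := 57 / 100) (u₁ := 63 / 100) (l₂ := 81 / 100)
              (u₂ := 1) (by norm_num) (by norm_num) (by norm_num) (by norm_num) (by norm_num) (by norm_num)
              (fun m h0 h1 => st60_r3 h0 (by linarith)) i1 s2 s3 s1 H.A2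
          · rcases le_total b₂.re (9 / 10) with s4 | s4
            · exact H.flat st60_par (m₀ := 179 / 500) (b := 1707 / 5000) (l₁ := 63 / 100) (u₁ := 3477 / 5000) (l₂ := 81 / 100)
                (u₂ := 9 / 10) (by norm_num) (by norm_num) (by norm_num) (by norm_num) (by norm_num) (by norm_num)
                (fun m h0 h1 => st60_r4 h0 (by linarith)) i1 s3 i3 s1 s4
            · exact H.flat st60_par (m₀ := 377 / 1000) (b := 1707 / 5000) (l₁ := 63 / 100) (u₁ := 3477 / 5000) (l₂ := 9 / 10)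
                (u₂ := 1) (by norm_num) (by norm_num) (by norm_num) (by norm_num) (by norm_num) (by norm_num)
                (fun m h0 h1 => st60_r5 h0 (by linarith)) i1 s3 i3 s4 H.A2
  rcases le_total (a + g) (4 / 5) with k1 | k1
  · obtain ⟨i1, i2, i3⟩ := N.reg (b := 3 / 8) (l := 5477 / 10000) (u := 8121 / 10000) k0 k1 (by norm_num)
      (by norm_num) (by norm_num) (by norm_num) (by norm_num) (by norm_num) (by norm_num)
      (by norm_num)
    rcases le_total b₂.re (63 / 100) with s0 | s0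
    · exact H.line st60_par (m₀ := 253 / 1000) (b := 3 / 8) (l₁ := 5477 / 10000) (u₁ := 8121 / 10000) (by norm_num)
        (by norm_num) (by norm_num) (by norm_num) (by norm_num)
        (fun m h0 h1 => st60_r6 h0 (by linarith)) i1 i2 i3 s0
    · exact H.flat st60_par (m₀ := 149 / 500) (b := 3 / 8) (l₁ := 5477 / 10000) (u₁ := 8121 / 10000) (l₂ := 63 / 100)
        (u₂ := 1) (by norm_num) (by norm_num) (by norm_num) (by norm_num) (by norm_num) (by norm_num)
        (fun m h0 h1 => st60_r7 h0 (by linarith)) i1 i2 i3 s0 H.A2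
  obtain ⟨i1, i2, i3⟩ := N.reg (b := 3 / 8) (l := 1581 / 2500) (u := 9271 / 10000) k1 N.h1 (by norm_num)
    (by norm_num) (by norm_num) (by norm_num) (by norm_num) (by norm_num) (by norm_num)
    (by norm_num)
  rcases le_total b₂.re (63 / 100) with s0 | s0
  · exact H.line st60_par (m₀ := 271 / 1000) (b := 3 / 8) (l₁ := 1581 / 2500) (u₁ := 9271 / 10000) (by norm_num)
      (by norm_num) (by norm_num) (by norm_num) (by norm_num)
      (fun m h0 h1 => st60_r8 h0 (by linarith)) i1 i2 i3 s0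
  · rcases le_total b₁.re (77 / 100) with s5 | s5
    · exact H.flat st60_par (m₀ := 319 / 1000) (b := 3 / 8) (l₁ := 1581 / 2500) (u₁ := 77 / 100) (l₂ := 63 / 100)
        (u₂ := 1) (by norm_num) (by norm_num) (by norm_num) (by norm_num) (by norm_num) (by norm_num)
        (fun m h0 h1 => st60_r9 h0 (by linarith)) i1 i2 s5 s0 H.A2
    · rcases le_total b₁.re (21 / 25) with s6 | s6
      · exact H.flat st60_par (m₀ := 7 / 20) (b := 3 / 8) (l₁ := 77 / 100) (u₁ := 21 / 25) (l₂ := 63 / 100)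
          (u₂ := 1) (by norm_num) (by norm_num) (by norm_num) (by norm_num) (by norm_num) (by norm_num)
          (fun m h0 h1 => st60_r10 h0 (by linarith)) i1 s5 s6 s0 H.A2
      · rcases le_total b₂.re (81 / 100) with s7 | s7
        · exact H.flat st60_par (m₀ := 73 / 200) (b := 3 / 8) (l₁ := 21 / 25) (u₁ := 9271 / 10000) (l₂ := 63 / 100)
            (u₂ := 81 / 100) (by norm_num) (by norm_num) (by norm_num) (by norm_num) (by norm_num) (by norm_num)
            (fun m h0 h1 => st60_r11 h0 (by linarith)) i1 s6 i3 s0 s7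
        · exact H.flat st60_par (m₀ := 411 / 1000) (b := 3 / 8) (l₁ := 21 / 25) (u₁ := 9271 / 10000) (l₂ := 81 / 100)
            (u₂ := 1) (by norm_num) (by norm_num) (by norm_num) (by norm_num) (by norm_num) (by norm_num)
            (fun m h0 h1 => st60_r12 h0 (by linarith)) i1 s6 i3 s7 H.A2

end Pool.Agent.S3.E.J3
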