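import Pool.Agent.S3.E.J3D
import Pool.Agent.S3.E.J3E
import Pool.Agent.S3.E.J3F
import Pool.Agent.S3.E.J3G
import Pool.Agent.S3.E.J3H

/-!
# Stage 3, block E: the sharp joint range condition of an inner vertex with two twists

`i` an inner vertex with two twists, `j`, `k` its neighbours, `‖cos (z j)‖, ‖cos (z k)‖ ≥ 63 / 100`
(`≥ 13 / 20` for `j` in the second theorem).
-/

set_option autoImplicit false

namespace Pool.Agent.S3.E.Zr

open Complex

variable {ι : Type*} {a : ι → ℝ} {nl nr : ι → Option ι} {z : ι → ℂ}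

theorem j3_of [Finite ι] (h : Zr a nl nr 1 z) {i j k : ι} (hi : a i = 2)
    (hij : (nl i = some j ∧ nr i = some k) ∨ (nl i = some k ∧ nr i = some j))
    {κ₀ κ c₀ t₀ r : ℝ} (hκ₀ : 0 < κ₀) (hκ : κ * (1 + κ₀) = κ₀) (hc₀ : 0 ≤ c₀)
    (ht : 1 - c₀ ≤ t₀ * (1 + c₀)) (hr : 0 ≤ r) (hj : r ≤ ‖cos (z j)‖)
    (hk : 63 / 100 ≤ ‖cos (z k)‖)
    (hst : ∀ {z b₁ b₂ : ℂ} {a g : ℝ}, J3.Hyp z b₁ b₂ → J3.Nb κ b₁.re b₁.im a g → r ^ 2 ≤ a + g →
      c₀ ≤ Real.cos (2 * th z.re z.im)) :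
    Real.tan (th (z j).re (z j).im) ^ 2 ≤ κ₀ ∨ Real.tan (th (z i).re (z i).im) ^ 2 ≤ t₀ := by
  rcases le_or_gt (Real.tan (th (z j).re (z j).im) ^ 2) κ₀ with hle | hlt
  · exact Or.inl hle
  right
  obtain ⟨p1, p2, p3⟩ := h.pos i
  obtain ⟨q1, q2, q3⟩ := h.pos j
  obtain ⟨r1, r2, r3⟩ := h.pos k
  have hin : 3 ≤ a i ∨ ∃ j k, nl i = some j ∧ nr i = some k := by
    right
    rcases hij with ⟨h1, h2⟩ | ⟨h1, h2⟩
    · exact ⟨_, _, h1, h2⟩
    · exact ⟨_, _, h1, h2⟩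
  -- the neighbour `j`
  have hcR : 0 < Real.cos (z j).re := Real.cos_pos_of_mem_Ioo ⟨by linarith [Real.pi_pos], q2⟩
  have hsR : 0 < Real.sin (z j).re := Real.sin_pos_of_pos_of_lt_pi q1 (by linarith [Real.pi_pos])
  have hsI : 0 < Real.sinh (z j).im := Real.sinh_pos_iff.2 q3
  have hcI := Real.cosh_pos (z j).im
  have hch := Real.cosh_sq (z j).im
  have hsc := Real.sin_sq_add_cos_sq (z j).re
  have ht1 := tan_th_sq q1 q2 q3
  have hkj : Real.cos (z j).re ^ 2 + Real.sinh (z j).im ^ 2 ≤ 1 := by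
    have h2 := h.k2_le j
    rw [GeoX_k2, hch] at h2
    nlinarith
  have hkj' : r ^ 2 ≤ Real.cos (z j).re ^ 2 + Real.sinh (z j).im ^ 2 := by
    have h2 := pow_le_pow_left₀ hr hj 2
    rw [norm_cos_sq, GeoX_k2, hch] at h2
    nlinarith
  have ha0 : 0 < Real.cos (z j).re ^ 2 := pow_pos hcR 2
  have ha1 : Real.cos (z j).re ^ 2 < 1 := by nlinarith [pow_pos hsR 2]
  have hg0 : 0 < Real.sinh (z j).im ^ 2 := pow_pos hsI 2
  have hg : κ₀ * Real.cos (z j).re ^ 2 ≤ Real.sinh (z j).im ^ 2 := by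
    rw [← ht1]; exact mul_le_mul_of_nonneg_right hlt.le ha0.le
  have hs2 : κ * (Real.cos (z j).re ^ 2 + Real.sinh (z j).im ^ 2) ≤ Real.sinh (z j).im ^ 2 := by
    have i1 : (1 + κ₀) * (κ * (Real.cos (z j).re ^ 2 + Real.sinh (z j).im ^ 2)) ≤
        (1 + κ₀) * Real.sinh (z j).im ^ 2 := by
      have e : (1 + κ₀) * (κ * (Real.cos (z j).re ^ 2 + Real.sinh (z j).im ^ 2)) =
          (κ * (1 + κ₀)) * (Real.cos (z j).re ^ 2 + Real.sinh (z j).im ^ 2) := by ring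
      rw [e, hκ]
      linarith
    exact le_of_mul_le_mul_left i1 (by linarith)
  have hA : ((starRingEnd ℂ) (cos (z j))).re ^ 2 =
      Real.cos (z j).re ^ 2 * (1 + Real.sinh (z j).im ^ 2) := by
    rw [conj_cos_re, mul_pow, hch]; ring
  have hB : ((starRingEnd ℂ) (cos (z j))).im ^ 2 =
      (1 - Real.cos (z j).re ^ 2) * Real.sinh (z j).im ^ 2 := by
    rw [conj_cos_im, mul_pow, ← hsc]; ring
  have hA0 : 0 ≤ ((starRingEnd ℂ) (cos (z j))).re := by rw [conj_cos_re]; positivity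
  have hB0 : 0 ≤ ((starRingEnd ℂ) (cos (z j))).im := by rw [conj_cos_im]; positivity
  have hAB := h.kappa_im_le j
  -- the neighbour `k`
  have hB2 : 0 ≤ ((starRingEnd ℂ) (cos (z k))).im := by
    rw [conj_cos_im]
    have i1 : 0 < Real.sin (z k).re := Real.sin_pos_of_pos_of_lt_pi r1 (by linarith [Real.pi_pos])
    have i2 : 0 < Real.sinh (z k).im := Real.sinh_pos_iff.2 r3
    positivity
  have hn : ∀ x : ι, ((starRingEnd ℂ) (cos (z x))).re ^ 2 + ((starRingEnd ℂ) (cos (z x))).im ^ 2 =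
      ‖cos (z x)‖ ^ 2 := by
    intro x
    rw [← Complex.normSq_eq_norm_sq, Complex.normSq_apply, conj_re, conj_im]
    ring
  have hre : ∀ x : ι, ((starRingEnd ℂ) (cos (z x))).re ≤ 1 := by
    intro x
    have i1 := hn x
    have i2 := h.k2_le x
    rw [← norm_cos_sq] at i2
    nlinarith [sq_nonneg ((starRingEnd ℂ) (cos (z x))).im]
  have hY : J3.Hyp (z i) ((starRingEnd ℂ) (cos (z j))) ((starRingEnd ℂ) (cos (z k))) :=
    ⟨p1, p2, p3, h.th_le i hin, h.k2_le i, h.quartic' hi hij, hB0, hAB, hre j, hB2,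
      h.kappa_im_le k, by rw [hn]; exact pow_le_pow_left₀ (by norm_num) hk 2, hre k⟩
  have hN : J3.Nb κ ((starRingEnd ℂ) (cos (z j))).re ((starRingEnd ℂ) (cos (z j))).im
      (Real.cos (z j).re ^ 2) (Real.sinh (z j).im ^ 2) :=
    ⟨ha0, ha1, hg0, hA0, hB0, hAB, hA, hB, hs2, hkj⟩
  exact tan_sq_le_of_cos (th_pos p1 p2 p3) (th_lt p1 p2 p3) (hst hY hN hkj') ht hc₀

/-- The first five steps. -/
theorem joint3a [Finite ι] (h : Zr a nl nr 1 z) {i j k : ι} (hi : a i = 2)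
    (hij : (nl i = some j ∧ nr i = some k) ∨ (nl i = some k ∧ nr i = some j))
    (hj : 63 / 100 ≤ ‖cos (z j)‖) (hk : 63 / 100 ≤ ‖cos (z k)‖) :
    (Real.tan (th (z j).re (z j).im) ^ 2 ≤ 1 / 10 ∨
      Real.tan (th (z i).re (z i).im) ^ 2 ≤ 94 / 100) ∧
    (Real.tan (th (z j).re (z j).im) ^ 2 ≤ 1 / 5 ∨
      Real.tan (th (z i).re (z i).im) ^ 2 ≤ 85 / 100) ∧
    (Real.tan (th (z j).re (z j).im) ^ 2 ≤ 1 / 4 ∨
      Real.tan (th (z i).re (z i).im) ^ 2 ≤ 81 / 100) ∧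
    (Real.tan (th (z j).re (z j).im) ^ 2 ≤ 3 / 10 ∨
      Real.tan (th (z i).re (z i).im) ^ 2 ≤ 775 / 1000) ∧
    (Real.tan (th (z j).re (z j).im) ^ 2 ≤ 7 / 20 ∨
      Real.tan (th (z i).re (z i).im) ^ 2 ≤ 745 / 1000) := by
  refine ⟨?_, ?_, ?_, ?_, ?_⟩
  · exact h.j3_of hi hij (by norm_num) (by norm_num) (by norm_num) (by norm_num) (by norm_num) hj hk
      (fun H N hK => J3.st10 H N (by norm_num at hK ⊢; exact hK))
  · exact h.j3_of hi hij (by norm_num) (by norm_num) (by norm_num) (by norm_num) (by norm_num) hj hk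
      (fun H N hK => J3.st20 H N (by norm_num at hK ⊢; exact hK))
  · exact h.j3_of hi hij (by norm_num) (by norm_num) (by norm_num) (by norm_num) (by norm_num) hj hk
      (fun H N hK => J3.st25 H N (by norm_num at hK ⊢; exact hK))
  · exact h.j3_of hi hij (by norm_num) (by norm_num) (by norm_num) (by norm_num) (by norm_num) hj hk
      (fun H N hK => J3.st30 H N (by norm_num at hK ⊢; exact hK))
  · exact h.j3_of hi hij (by norm_num) (by norm_num) (by norm_num) (by norm_num) (by norm_num) hj hk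
      (fun H N hK => J3.st35 H N (by norm_num at hK ⊢; exact hK))

/-- The last five steps. -/
theorem joint3b [Finite ι] (h : Zr a nl nr 1 z) {i j k : ι} (hi : a i = 2)
    (hij : (nl i = some j ∧ nr i = some k) ∨ (nl i = some k ∧ nr i = some j))
    (hj : 13 / 20 ≤ ‖cos (z j)‖) (hk : 63 / 100 ≤ ‖cos (z k)‖) :
    (Real.tan (th (z j).re (z j).im) ^ 2 ≤ 2 / 5 ∨
      Real.tan (th (z i).re (z i).im) ^ 2 ≤ 715 / 1000) ∧
    (Real.tan (th (z j).re (z j).im) ^ 2 ≤ 9 / 20 ∨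
      Real.tan (th (z i).re (z i).im) ^ 2 ≤ 69 / 100) ∧
    (Real.tan (th (z j).re (z j).im) ^ 2 ≤ 1 / 2 ∨
      Real.tan (th (z i).re (z i).im) ^ 2 ≤ 67 / 100) ∧
    (Real.tan (th (z j).re (z j).im) ^ 2 ≤ 11 / 20 ∨
      Real.tan (th (z i).re (z i).im) ^ 2 ≤ 65 / 100) ∧
    (Real.tan (th (z j).re (z j).im) ^ 2 ≤ 3 / 5 ∨
      Real.tan (th (z i).re (z i).im) ^ 2 ≤ 635 / 1000) := by
  refine ⟨?_, ?_, ?_, ?_, ?_⟩
  · exact h.j3_of hi hij (by norm_num) (by norm_num) (by norm_num) (by norm_num) (by norm_num) hj hk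
      (fun H N hK => J3.st40 H N (by norm_num at hK ⊢; exact hK))
  · exact h.j3_of hi hij (by norm_num) (by norm_num) (by norm_num) (by norm_num) (by norm_num) hj hk
      (fun H N hK => J3.st45 H N (by norm_num at hK ⊢; exact hK))
  · exact h.j3_of hi hij (by norm_num) (by norm_num) (by norm_num) (by norm_num) (by norm_num) hj hk
      (fun H N hK => J3.st50 H N (by norm_num at hK ⊢; exact hK))
  · exact h.j3_of hi hij (by norm_num) (by norm_num) (by norm_num) (by norm_num) (by norm_num) hj hk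
      (fun H N hK => J3.st55 H N (by norm_num at hK ⊢; exact hK))
  · exact h.j3_of hi hij (by norm_num) (by norm_num) (by norm_num) (by norm_num) (by norm_num) hj hk
      (fun H N hK => J3.st60 H N (by norm_num at hK ⊢; exact hK))

end Pool.Agent.S3.E.Zr
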