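import Pool.Agent.S3.E.GeoC
import Pool.Agent.S3.E.OGeo

/-!
# Stage 3, block E: inner vertices with three twists next to an inner vertex with two twists

Same proofs as `Vx.inner3_low` (`Rng7.lean`) and `Vx.inner3_b` (`Rng8.lean`) with other constants;
copy these proofs and change the numbers.

`Vx.inner3_low2`: suppose `θ < 6/25`.  With `S = sinh x`, at `θ = 6/25`, `t₁ = tan (al + .6)`,
`t₂ = tan (al + π/4 - φ/2)`, `P₁ = arsinh (.59 (cos .6 sinh x cos θ - sin .6 cosh x sin θ))`,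
`P₂ = arsinh (.5 (cos (π/4 - φ/2) sinh x cos θ - sin (π/4 - φ/2) cosh x sin θ))`:
  `x ≤ .57` (`S ≤ .6014`) is impossible (`sin r_j ≤ tt`: sum `< 3.0695`);
  pieces `[x₁, x₂]` with `3 R(x₂) + t₂ (3 I - P₁) + t₁ P₁ < π` (everything but `R` at `x₁`):
  `S .6014 .. .6690`: `3I .6198 t₁ 1.7167 t₂ 2.3339 P₁ .1909`;
  `S .6690 .. .7497`: `3I .6006 t₁ 1.6086 t₂ 2.1330 P₁ .2194`;
  `S .7497 .. .8277`: `3I .5776 t₁ 1.5149 t₂ 1.9642 P₁ .2529`;
  `S .8277 .. .8902`: `3I .5556 t₁ 1.4482 t₂ 1.8466 P₁ .2848`;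
  `S .8902 .. .9338`: `3I .5384 t₁ 1.4063 t₂ 1.7737 P₁ .3100`
(these pieces are maximal, with sum `3.138`; take a few more, smaller, pieces for bigger margins);
  `S ≥ .92`: `P₁ + P₂ > 3 I` (at `S = .9338`: `3I .5265, P₁ .3274, P₂ .2387`).
(True minimum of `θ` in this slot box: `.2575`.)

`Vx.inner3_b2`: `θ ≤ 7/25`; `x ≥ .56` (else `sin r_j ≤ tt`: `r₁ + r₂ + 3R < 3.075`); then
`al + β₂ ≤ π/4 + al - φ/2 ≤ 1.234`, `sinh p₂ ≥ .5 sinh x cos (1.234) ≥ .0974` and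
`tanh I ≤ .2764 / 1.161`, `I ≤ .2428`, `.385 * .2428 ≤ .0935`.

`gain_num₃`: `tan .24 ≥ .2447`, `.872 * .15708 ≤ .13698 ≤ .56 * .2447 = .13703`.
-/

set_option autoImplicit false

namespace Pool.Agent.S3.E

open Real

private theorem Rng10_sin {θ : ℝ} (h0 : 0 < θ) (h1 : θ < 6 / 25) :
    sin θ ≤ 23787 / 100000 ∧ 9712 / 10000 ≤ cos θ := by
  have hpi := Real.pi_gt_three
  have a : |(6 / 25 : ℝ)| ≤ 1 := by rw [abs_of_pos (by norm_num)]; norm_num
  have hs := (abs_le.1 (Real.sin_bound a)).2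
  have hc := Real.one_sub_sq_div_two_le_cos (x := θ)
  rw [abs_of_pos (by norm_num : (0 : ℝ) < 6 / 25)] at hs
  have h2 : sin θ ≤ sin (6 / 25) :=
    sin_le_sin_of_le_of_le_pi_div_two (by linarith) (by linarith) h1.le
  norm_num at hs
  constructor
  · linarith
  · nlinarith

private theorem Rng10_sin2 {θ : ℝ} (h0 : 0 < θ) (h1 : θ ≤ 7 / 25) :
    sin θ ≤ 2767 / 10000 ∧ 9608 / 10000 ≤ cos θ := by
  have hpi := Real.pi_gt_three
  have a : |(7 / 25 : ℝ)| ≤ 1 := by rw [abs_of_pos (by norm_num)]; norm_num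
  have hs := (abs_le.1 (Real.sin_bound a)).2
  have hc := Real.one_sub_sq_div_two_le_cos (x := θ)
  rw [abs_of_pos (by norm_num : (0 : ℝ) < 7 / 25)] at hs
  have h2 : sin θ ≤ sin (7 / 25) :=
    sin_le_sin_of_le_of_le_pi_div_two (by linarith) (by linarith) h1
  norm_num at hs
  constructor
  · linarith
  · nlinarith

private theorem Rng10_beta {β : ℝ} (h0 : 0 ≤ β) (h : β ≤ 3 / 5) :
    82405 / 100000 ≤ cos β ∧ sin β ≤ 56547 / 100000 := by
  have hpi := Real.pi_gt_three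
  have a : |(3 / 10 : ℝ)| ≤ 1 := by rw [abs_of_pos (by norm_num)]; norm_num
  have hs := (abs_le.1 (Real.sin_bound a)).2
  have hc := Real.one_sub_sq_div_two_le_cos (x := 3 / 10)
  have hc' := (abs_le.1 (Real.cos_bound a)).2
  rw [abs_of_pos (by norm_num : (0 : ℝ) < 3 / 10)] at hs hc'
  have h1 : sin β ≤ sin (3 / 5) := sin_le_sin_of_le_of_le_pi_div_two (by linarith) (by linarith) h
  have h2 : cos (3 / 5) ≤ cos β := cos_le_cos_of_nonneg_of_le_pi h0 (by linarith) h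
  have h3 : cos (3 / 5 : ℝ) = 2 * cos (3 / 10) ^ 2 - 1 := by
    rw [← cos_two_mul]
    norm_num
  have h4 : sin (3 / 5 : ℝ) = 2 * sin (3 / 10) * cos (3 / 10) := by
    rw [← sin_two_mul]
    norm_num
  norm_num at hs hc hc'
  have h5 : 0 ≤ sin (3 / 10 : ℝ) := sin_nonneg_of_nonneg_of_le_pi (by norm_num) (by linarith)
  have h6 : 0 ≤ cos (3 / 10 : ℝ) := by linarith
  constructor
  · rw [h3] at h2
    nlinarith
  · rw [h4] at h1
    refine h1.trans ?_
    have h7 : sin (3 / 10 : ℝ) * cos (3 / 10) ≤ (295922 / 1000000) * (955422 / 1000000) :=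
      mul_le_mul (by linarith) (by linarith) h6 (by norm_num)
    norm_num at h7 ⊢
    linarith

/-- `w - w³/3 ≤ arctan w` -/
private theorem Rng10_arctan {w : ℝ} (h : 0 ≤ w) : w - w ^ 3 / 3 ≤ arctan w := by
  have hm : MonotoneOn (fun y : ℝ => arctan y - (y - y ^ 3 / 3)) (Set.Ici 0) := by
    refine monotoneOn_of_deriv_nonneg (convex_Ici 0) (by fun_prop)
      (Real.differentiable_arctan.sub (by fun_prop)).differentiableOn fun y hy => ?_
    have hd : HasDerivAt (fun y : ℝ => arctan y - (y - y ^ 3 / 3))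
        (1 / (1 + y ^ 2) - (1 - 3 * y ^ 2 / 3)) y := by
      refine (Real.hasDerivAt_arctan y).sub ((hasDerivAt_id y).sub ?_)
      have := (hasDerivAt_pow 3 y).div_const 3
      simpa using this
    rw [hd.deriv]
    have h1 : 1 / (1 + y ^ 2) - (1 - 3 * y ^ 2 / 3) = y ^ 4 / (1 + y ^ 2) := by
      field_simp
      ring
    rw [h1]
    positivity
  have h2 := hm (Set.mem_Ici.2 le_rfl) (Set.mem_Ici.2 h) h
  simp only [Real.arctan_zero] at h2
  linarith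

/-- `sinh y ≤ y cosh y` -/
private theorem Rng10_sc {y : ℝ} (h : 0 ≤ y) : sinh y ≤ y * cosh y := by
  have hm : MonotoneOn (fun y : ℝ => y * cosh y - sinh y) (Set.Ici 0) := by
    refine monotoneOn_of_deriv_nonneg (convex_Ici 0) (by fun_prop) (by fun_prop) fun y hy => ?_
    have hd : HasDerivAt (fun y : ℝ => y * cosh y - sinh y)
        ((1 * cosh y + y * sinh y) - cosh y) y :=
      ((hasDerivAt_id y).mul (Real.hasDerivAt_cosh y)).sub (Real.hasDerivAt_sinh y)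
    rw [hd.deriv]
    rw [interior_Ici, Set.mem_Ioi] at hy
    have := mul_nonneg hy.le (sinh_nonneg_iff.2 hy.le)
    linarith
  have h2 := hm (Set.mem_Ici.2 le_rfl) (Set.mem_Ici.2 h) h
  simp only [Real.sinh_zero, zero_mul] at h2
  linarith

/-- `tanh y ≥ y - y³/3` -/
private theorem Rng10_tanh {y : ℝ} (h : 0 ≤ y) : y - y ^ 3 / 3 ≤ tanh y := by
  have hm : MonotoneOn (fun y : ℝ => sinh y - (y - y ^ 3 / 3) * cosh y) (Set.Ici 0) := by
    refine monotoneOn_of_deriv_nonneg (convex_Ici 0) (by fun_prop) (by fun_prop) fun y hy => ?_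
    have h0 : HasDerivAt (fun y : ℝ => y - y ^ 3 / 3) (1 - 3 * y ^ 2 / 3) y := by
      refine (hasDerivAt_id y).sub ?_
      have := (hasDerivAt_pow 3 y).div_const 3
      simpa using this
    have hd : HasDerivAt (fun y : ℝ => sinh y - (y - y ^ 3 / 3) * cosh y)
        (cosh y - ((1 - 3 * y ^ 2 / 3) * cosh y + (y - y ^ 3 / 3) * sinh y)) y :=
      (Real.hasDerivAt_sinh y).sub (h0.mul (Real.hasDerivAt_cosh y))
    rw [hd.deriv]
    rw [interior_Ici, Set.mem_Ioi] at hy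
    have h1 := Rng10_sc hy.le
    have h2 := sinh_nonneg_iff.2 hy.le
    have h3 := mul_nonneg (mul_nonneg hy.le (sub_nonneg.2 h1)) zero_le_one
    have h4 := mul_nonneg (pow_nonneg hy.le 3) h2
    nlinarith
  have h2 := hm (Set.mem_Ici.2 le_rfl) (Set.mem_Ici.2 h) h
  simp only [Real.sinh_zero] at h2
  rw [tanh_eq_sinh_div_cosh, le_div_iff₀ (cosh_pos y)]
  linarith

/-- `sinh y ≤ y + .1812 y³` for small `y` -/
private theorem Rng10_sinh {y : ℝ} (h : 0 ≤ y) (h1 : y ≤ 2 / 5) :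
    sinh y ≤ y + 1812 / 10000 * y ^ 3 := by
  have hm : MonotoneOn (fun y : ℝ => y + 1812 / 10000 * y ^ 3 - sinh y) (Set.Icc 0 (2 / 5)) := by
    refine monotoneOn_of_deriv_nonneg (convex_Icc 0 (2 / 5)) (by fun_prop) (by fun_prop) fun y hy => ?_
    have hd : HasDerivAt (fun y : ℝ => y + 1812 / 10000 * y ^ 3 - sinh y)
        (1 + 1812 / 10000 * (3 * y ^ 2) - cosh y) y := by
      refine ((hasDerivAt_id y).add ?_).sub (Real.hasDerivAt_sinh y)
      have := (hasDerivAt_pow 3 y).const_mul (1812 / 10000 : ℝ)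
      simpa using this
    rw [hd.deriv]
    rw [interior_Icc, Set.mem_Ioo] at hy
    obtain ⟨hy0, hy1⟩ := hy
    have h2 := Real.cosh_le_exp_half_sq y
    have h3 : 1 - y ^ 2 / 2 ≤ exp (-(y ^ 2 / 2)) := Real.one_sub_le_exp_neg _
    have h4 : exp (y ^ 2 / 2) * exp (-(y ^ 2 / 2)) = 1 := by rw [← Real.exp_add]; simp
    have h5 : y ^ 2 < 16 / 100 := by nlinarith
    have h6 : exp (y ^ 2 / 2) * (1 - y ^ 2 / 2) ≤ 1 := by
      exact (mul_le_mul_of_nonneg_left h3 (Real.exp_pos _).le).trans h4.le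
    have h7 : 1 ≤ (1 + 1812 / 10000 * (3 * y ^ 2)) * (1 - y ^ 2 / 2) := by nlinarith [sq_nonneg y]
    have h8 : (0 : ℝ) < 1 - y ^ 2 / 2 := by linarith
    have h9 : exp (y ^ 2 / 2) ≤ 1 + 1812 / 10000 * (3 * y ^ 2) :=
      le_of_mul_le_mul_right (h6.trans h7) h8
    linarith
  have h2 := hm (Set.mem_Icc.2 ⟨le_rfl, by norm_num⟩) (Set.mem_Icc.2 ⟨h, h1⟩) h
  simp only [Real.sinh_zero] at h2
  linarith

private theorem Rng10_arctan_le {y w : ℝ} (hy : y * (1 + w) ≤ 1 - w) (hw : 0 ≤ w) (hw1 : w ≤ 1) :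
    arctan y ≤ π / 4 - (w - w ^ 3 / 3) := by
  have h1 : w * ((1 - w) / (1 + w)) < 1 := by
    rw [mul_div_assoc', div_lt_one (by linarith)]
    nlinarith
  have h2 := Real.arctan_add h1
  have h3 : (w + (1 - w) / (1 + w)) / (1 - w * ((1 - w) / (1 + w))) = 1 := by
    have : (0 : ℝ) < 1 + w := by linarith
    rw [div_eq_one_iff_eq (by linarith)]
    field_simp
    ring
  rw [h3, Real.arctan_one] at h2
  have h4 : arctan y ≤ arctan ((1 - w) / (1 + w)) := by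
    refine Real.arctan_strictMono.monotone ?_
    rw [le_div_iff₀ (by linarith)]
    exact hy
  have h5 := Rng10_arctan hw
  linarith

private theorem Rng10_tanh_le {y : ℝ} (h : 0 ≤ y) : tanh y ≤ y := by
  rw [tanh_eq_sinh_div_cosh, div_le_iff₀ (cosh_pos y)]
  exact Rng10_sc h

private theorem Rng10_tanh_mono {x y : ℝ} (h : x ≤ y) : tanh x ≤ tanh y := by
  rw [tanh_eq_sinh_div_cosh, tanh_eq_sinh_div_cosh, div_le_div_iff₀ (cosh_pos x) (cosh_pos y)]
  have h1 : 0 ≤ sinh (y - x) := sinh_nonneg_iff.2 (by linarith)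
  rw [sinh_sub] at h1
  linarith

/-- `r ≤ t p` if `al + β ≤ arctan t` -/
private theorem Rng10_slot_r {R I ρ β p r t : ℝ} (hs : Slot R I ρ β p r) (h0 : 0 < R)
    (h1 : R < π / 2) (hI : 0 < I) (hρ : 0 < ρ) (ht : al R I + β ≤ arctan t) : r ≤ t * p := by
  have hal := al_pos h0 h1 hI
  have hβ := hs.β0
  have hlt : al R I + β < π / 2 := lt_of_le_of_lt ht (Real.arctan_lt_pi_div_two t)
  have hcg : 0 < cos (al R I + β) := Real.cos_pos_of_mem_Ioo ⟨by linarith, hlt⟩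
  have htt := tt_pos (I := I) h0 h1
  have he1 := hs.e1
  have he2 := hs.e2
  have hpos : 0 < ρ * tt R I * cos (al R I + β) := by positivity
  have hcr0 : 0 ≤ cos r := Real.cos_nonneg_of_mem_Icc ⟨by linarith [hs.r0], hs.r1⟩
  have hcr : 0 < cos r := by
    rcases eq_or_lt_of_le hcr0 with h | h
    · rw [← h, mul_zero] at he1
      linarith
    · exact h
  have hr : r < π / 2 := by
    rcases eq_or_lt_of_le hs.r1 with h | h
    · rw [h, Real.cos_pi_div_two] at hcr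
      exact absurd hcr (lt_irrefl _)
    · exact h
  have htan : tan r = tan (al R I + β) * tanh p := by
    rw [Real.tan_eq_sin_div_cos, Real.tan_eq_sin_div_cos, Real.tanh_eq_sinh_div_cosh,
      div_mul_div_comm, div_eq_div_iff hcr.ne' (mul_pos hcg (cosh_pos p)).ne']
    have hq : ρ * tt R I ≠ 0 := (mul_pos hρ htt).ne'
    refine mul_left_cancel₀ hq ?_
    linear_combination (ρ * tt R I * cos (al R I + β)) * he2 -
      (ρ * tt R I * sin (al R I + β)) * he1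
  have htg : tan (al R I + β) ≤ t := by
    have h2 : al R I + β = arctan (tan (al R I + β)) :=
      (Real.arctan_tan (by linarith) hlt).symm
    rw [h2] at ht
    exact Real.arctan_strictMono.le_iff_le.1 ht
  have htg0 : 0 ≤ tan (al R I + β) := Real.tan_nonneg_of_nonneg_of_le_pi_div_two (by linarith) hlt.le
  have hth0 : 0 ≤ tanh p := by
    rw [Real.tanh_eq_sinh_div_cosh]
    exact div_nonneg (sinh_nonneg_iff.2 hs.p0) (cosh_pos p).le
  calc r ≤ tan r := Real.le_tan hs.r0 hr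
    _ = tan (al R I + β) * tanh p := htan
    _ ≤ t * p := mul_le_mul htg (Rng10_tanh_le hs.p0) hth0 (htg0.trans htg)

/-- `sinh p ≥ ρ tt cos (al + β)` -/
private theorem Rng10_slot_p {R I ρ β p r : ℝ} (hs : Slot R I ρ β p r) :
    ρ * tt R I * cos (al R I + β) ≤ sinh p := by
  rw [← hs.e1]
  exact mul_le_of_le_one_right (sinh_nonneg_iff.2 hs.p0) (Real.cos_le_one r)

/-- `P ≤ p` from `P + .1812 P³ ≤ sinh p` -/
private theorem Rng10_P {p P : ℝ} (hP : 0 ≤ P) (hP1 : P ≤ 2 / 5)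
    (h : P + 1812 / 10000 * P ^ 3 ≤ sinh p) : P ≤ p :=
  Real.sinh_le_sinh.1 ((Rng10_sinh hP hP1).trans h)

private structure F10 (s₀ c₀ R I S C s c : ℝ) : Prop where
  hR0 : 0 < R
  hR1 : R < π / 2
  hI0 : 0 < I
  hS : 0 < S
  hC : 0 < C
  hCS : C ^ 2 = 1 + S ^ 2
  hs : 0 < s
  hc₀ : 0 < c₀
  hs' : s ≤ s₀
  hc : c₀ ≤ c
  hsc : s ^ 2 + c ^ 2 = 1
  hR : R = arctan (S / c)
  hI : tanh I = s / C
  hal : al R I = arctan (s * C / (c * S))
  hph : ph R I = arctan (S * s / (C * c))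
  e1 : tt R I * cos (al R I) = S * c
  e2 : tt R I * sin (al R I) = C * s

private theorem Rng10_facts {R I s₀ c₀ : ℝ} (h0 : 0 < R) (h1 : R < π / 2) (hI : 0 < I)
    (hc₀ : 0 < c₀) (hθ : sin (th R I) ≤ s₀ ∧ c₀ ≤ cos (th R I)) :
    F10 s₀ c₀ R I (sinh (xx R I)) (cosh (xx R I)) (sin (th R I)) (cos (th R I)) := by
  have hx := xx_pos h0 h1 hI
  have ht := th_pos h0 h1 hI
  have ht' := th_lt h0 h1 hI
  obtain ⟨a1, a2⟩ := hθ
  have hS := sinh_pos_iff.2 hx
  have hC := cosh_pos (xx R I)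
  have hc : 0 < cos (th R I) := by linarith
  have hz := sinh_u (z := ⟨R, I⟩) h0 h1 hI
  have hz2 := tan_polar (z := ⟨R, I⟩) h0 h1
  rw [hz2] at hz
  have e1 : Complex.sinh ((xx R I : ℂ) + (th R I : ℂ) * Complex.I) =
      ((sinh (xx R I) * cos (th R I) : ℝ) : ℂ) + ((cosh (xx R I) * sin (th R I) : ℝ) : ℂ) * Complex.I := by
    rw [Complex.sinh_add, Complex.cosh_mul_I, Complex.sinh_mul_I]
    push_cast
    ring
  have e2 : (tt R I : ℂ) * Complex.exp (((al R I : ℝ) : ℂ) * Complex.I) =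
      ((tt R I * cos (al R I) : ℝ) : ℂ) + ((tt R I * sin (al R I) : ℝ) : ℂ) * Complex.I := by
    rw [Complex.exp_mul_I, ← Complex.ofReal_cos, ← Complex.ofReal_sin]
    push_cast
    ring
  have hz' : ((sinh (xx R I) * cos (th R I) : ℝ) : ℂ) +
      ((cosh (xx R I) * sin (th R I) : ℝ) : ℂ) * Complex.I =
      ((tt R I * cos (al R I) : ℝ) : ℂ) + ((tt R I * sin (al R I) : ℝ) : ℂ) * Complex.I := by
    rw [← e1, ← e2]
    exact hz
  have r1 := congrArg Complex.re hz'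
  have r2 := congrArg Complex.im hz'
  simp only [Complex.add_re, Complex.add_im, Complex.ofReal_re, Complex.ofReal_im,
    Complex.re_ofReal_mul, Complex.im_ofReal_mul, Complex.I_re, Complex.I_im, mul_zero, mul_one,
    add_zero, zero_add] at r1 r2
  have htR := tan_R_eq h0 h1 hI
  refine ⟨h0, h1, hI, hS, hC, ?_, sin_pos_of_pos_of_lt_pi ht (by linarith [Real.pi_pos]), hc₀, a1, a2,
    Real.sin_sq_add_cos_sq _, ?_, tanh_I_eq h0 h1 hI, ?_, ?_, r1.symm, r2.symm⟩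
  · rw [Real.cosh_sq]
    ring
  · rw [← htR, Real.arctan_tan (by linarith) h1]
  · have h2 := tan_al_eq h0 h1 hI
    rw [Real.tanh_eq_sinh_div_cosh, Real.tan_eq_sin_div_cos (th R I)] at h2
    have h3 : tan (al R I) = sin (th R I) * cosh (xx R I) / (cos (th R I) * sinh (xx R I)) := by
      rw [eq_div_iff (mul_pos hc hS).ne']
      field_simp at h2
      linarith
    rw [← h3, Real.arctan_tan (by linarith [al_pos h0 h1 hI]) (al_lt R I)]
  · have h2 := tan_ph_eq h0 h1 hI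
    rw [Real.tanh_eq_sinh_div_cosh, Real.tan_eq_sin_div_cos (th R I), div_mul_div_comm] at h2
    rw [← h2, Real.arctan_tan (by linarith [ph_pos h0 h1 hI]) (ph_lt R I)]

/-- `arctan x + arctan y ≤ arctan z` -/
private theorem Rng10_add {x y z : ℝ} (hxy : x * y < 1) (h : x + y ≤ z * (1 - x * y)) :
    arctan x + arctan y ≤ arctan z := by
  rw [Real.arctan_add hxy]
  refine Real.arctan_strictMono.monotone ?_
  rw [div_le_iff₀ (by linarith)]
  exact h

/-- `al - φ / 2` increases with `τ` -/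
private theorem Rng10_mono {h τ T : ℝ} (h0 : 0 < h) (h1 : h ≤ 1) (hτ : 0 ≤ τ) (hT : τ ≤ T) (hT1 : T ≤ 1) :
    arctan (τ / h) - arctan (h * τ) / 2 ≤ arctan (T / h) - arctan (h * T) / 2 := by
  have hT0 : 0 ≤ T := hτ.trans hT
  have hd : 0 ≤ T - τ := sub_nonneg.2 hT
  have e1 : arctan (τ / h) + arctan (h * (T - τ) / (h ^ 2 + T * τ)) = arctan (T / h) := by
    have hp : 0 < h ^ 2 + T * τ := by positivity
    have h2 : τ / h * (h * (T - τ) / (h ^ 2 + T * τ)) < 1 := by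
      rw [div_mul_div_comm, div_lt_one (by positivity)]
      nlinarith [mul_nonneg h0.le (sq_nonneg τ), pow_pos h0 3]
    rw [Real.arctan_add h2]
    congr 1
    have h3 : 0 < 1 - τ / h * (h * (T - τ) / (h ^ 2 + T * τ)) := by linarith
    rw [div_eq_div_iff h3.ne' h0.ne']
    field_simp
    ring
  have e2 : arctan (h * τ) + arctan (h * (T - τ) / (1 + h ^ 2 * (T * τ))) = arctan (h * T) := by
    have hp : 0 < 1 + h ^ 2 * (T * τ) := by positivity
    have h2 : h * τ * (h * (T - τ) / (1 + h ^ 2 * (T * τ))) < 1 := by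
      rw [mul_div_assoc', div_lt_one hp]
      nlinarith [mul_nonneg (sq_nonneg h) (sq_nonneg τ)]
    rw [Real.arctan_add h2]
    congr 1
    have h3 : 0 < 1 - h * τ * (h * (T - τ) / (1 + h ^ 2 * (T * τ))) := by linarith
    rw [div_eq_iff h3.ne']
    field_simp
    ring
  have hTτ : T * τ ≤ 1 := by nlinarith
  have h4 : arctan (h * (T - τ) / (1 + h ^ 2 * (T * τ))) ≤ arctan (h * (T - τ) / (h ^ 2 + T * τ)) := by
    refine Real.arctan_strictMono.monotone ?_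
    refine div_le_div_of_nonneg_left (mul_nonneg h0.le hd) (by positivity) ?_
    have h5 : 0 ≤ (1 - h ^ 2) * (1 - T * τ) := mul_nonneg (by nlinarith) (by linarith)
    nlinarith
  have h6 : 0 ≤ arctan (h * (T - τ) / (1 + h ^ 2 * (T * τ))) := by
    rw [Real.arctan_nonneg]
    positivity
  linarith

/-- general bounds for `S₁ ≤ S` -/
private theorem Rng10_del {R I S C s c s₀ c₀ : ℝ} (hf : F10 s₀ c₀ R I S C s c) (hTc : s₀ ≤ c₀)
    {S₁ K L A B D J : ℝ} (hS₁ : 0 < S₁) (hS : S₁ ≤ S) (hK : 0 < K) (hK2 : 1 + S₁ ^ 2 ≤ K ^ 2)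
    (hL : 0 < L) (hL2 : L ^ 2 ≤ 1 + S₁ ^ 2)
    (hA : s₀ * K ≤ c₀ * (A * S₁)) (hB0 : 0 ≤ B) (hB1 : B < 1)
    (hB : c₀ * (2 * B) * K ≤ s₀ * S₁ * (1 - B ^ 2)) (hBD : B * D < 1)
    (hD : A ≤ B + D + A * (B * D))
    (hJ0 : 0 ≤ J) (hJ : s₀ ≤ (J - J ^ 3 / 3) * L) :
    al R I ≤ arctan A ∧ al R I - ph R I / 2 ≤ arctan D ∧ I ≤ J ∧ C ≤ K + (S - S₁) := by
  obtain ⟨hR0, hR1, hI0, hS0, hC0, hCS, hs0, hc₀, hs1, hc1, hsc, hR, hI, hal, hph, e1, e2⟩ := hf
  have hs₀ : 0 < s₀ := by linarith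
  have hc0 : 0 < c := by linarith
  have hSC : S ≤ C := by
    refine le_of_sq_le_sq ?_ hC0.le
    linarith
  have hh0 : 0 < S / C := div_pos hS0 hC0
  have hh1 : S / C ≤ 1 := (div_le_one hC0).2 hSC
  have hτ0 : 0 ≤ s / c := (div_pos hs0 hc0).le
  have hτT : s / c ≤ s₀ / c₀ := by
    rw [div_le_div_iff₀ hc0 hc₀]
    exact mul_le_mul hs1 hc1 hc₀.le hs₀.le
  have hT1 : s₀ / c₀ ≤ 1 := (div_le_one hc₀).2 hTc
  -- `S₁ / K ≤ S / C`
  have hKS : S₁ * C ≤ S * K := by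
    have h5 : (S₁ * C) ^ 2 ≤ (S * K) ^ 2 := by
      rw [mul_pow, mul_pow, hCS]
      have h6 : S₁ ^ 2 ≤ S ^ 2 := pow_le_pow_left₀ hS₁.le hS 2
      have h7 : S ^ 2 * (1 + S₁ ^ 2) ≤ S ^ 2 * K ^ 2 := mul_le_mul_of_nonneg_left hK2 (sq_nonneg S)
      linarith
    exact le_of_sq_le_sq h5 (by positivity)
  -- `C ≤ K + (S - S₁)`, `L ≤ C`
  have hCK : C ≤ K + (S - S₁) := by
    have h5 : C ^ 2 ≤ (K + (S - S₁)) ^ 2 := by
      rw [hCS]
      have h6 : S₁ ≤ K := by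
        refine le_of_sq_le_sq ?_ hK.le
        linarith
      have h7 := mul_nonneg (sub_nonneg.2 hS) (sub_nonneg.2 h6)
      have h8 : (K + (S - S₁)) ^ 2 = K ^ 2 - S₁ ^ 2 + S ^ 2 + 2 * ((S - S₁) * (K - S₁)) := by ring
      rw [h8]
      linarith
    exact le_of_sq_le_sq h5 (by linarith)
  have hLC : L ≤ C := by
    have h5 : L ^ 2 ≤ C ^ 2 := by
      rw [hCS]
      have h6 : S₁ ^ 2 ≤ S ^ 2 := pow_le_pow_left₀ hS₁.le hS 2
      linarith
    exact le_of_sq_le_sq h5 hC0.le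
  have hal' : al R I = arctan (s / c / (S / C)) := by
    rw [hal]
    congr 1
    field_simp
  have hph' : ph R I = arctan (S / C * (s / c)) := by
    rw [hph]
    congr 1
    field_simp
  have hTA : s₀ / c₀ / (S / C) ≤ A := by
    rw [div_le_iff₀ hh0, mul_div_assoc', div_le_div_iff₀ hc₀ hC0]
    have h5 : 0 ≤ A := by
      by_contra hA0
      rw [not_le] at hA0
      have h6 := mul_pos hc₀ (mul_pos hS₁ (neg_pos.2 hA0))
      have h7 := mul_pos hs₀ hK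
      have h8 : c₀ * (A * S₁) = -(c₀ * (S₁ * -A)) := by ring
      rw [h8] at hA
      linarith
    have h6 := mul_le_mul_of_nonneg_left hKS (mul_nonneg h5 hc₀.le)
    have h7 : s₀ * C * K ≤ A * S * c₀ * K := by
      have h8 := mul_le_mul_of_nonneg_right hA hC0.le
      have e1 : s₀ * C * K = s₀ * K * C := by ring
      have e2 : A * S * c₀ * K = A * c₀ * (S * K) := by ring
      have e3 : c₀ * (A * S₁) * C = A * c₀ * (S₁ * C) := by ring
      rw [e1, e2]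
      rw [e3] at h8
      exact h8.trans h6
    exact le_of_mul_le_mul_right h7 hK
  have halA : al R I ≤ arctan A := by
    rw [hal']
    refine Real.arctan_strictMono.monotone (le_trans ?_ hTA)
    exact div_le_div_of_nonneg_right hτT hh0.le
  have hdel : al R I - ph R I / 2 ≤ arctan D := by
    have h5 := Rng10_mono hh0 hh1 hτ0 hτT hT1
    rw [← hal', ← hph'] at h5
    have h6 : arctan (s₀ / c₀ / (S / C)) ≤ arctan A := Real.arctan_strictMono.monotone hTA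
    have h7 : arctan B + arctan B ≤ arctan (S / C * (s₀ / c₀)) := by
      refine Rng10_add (by
        have := mul_le_mul hB1.le hB1.le hB0 zero_le_one
        have := mul_lt_mul'' hB1 hB1 hB0 hB0
        linarith) ?_
      have h8 : 2 * B ≤ S₁ / K * (s₀ / c₀) * (1 - B ^ 2) := by
        rw [div_mul_div_comm, div_mul_eq_mul_div, le_div_iff₀ (mul_pos hK hc₀)]
        have e1 : 2 * B * (K * c₀) = c₀ * (2 * B) * K := by ring
        have e2 : S₁ * s₀ * (1 - B ^ 2) = s₀ * S₁ * (1 - B ^ 2) := by ring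
        rw [e1, e2]
        exact hB
      have h9 : S₁ / K ≤ S / C := by
        rw [div_le_div_iff₀ hK hC0]
        exact hKS
      have h10 : 0 ≤ 1 - B ^ 2 := by
        have := pow_le_one₀ (n := 2) hB0 hB1.le
        linarith
      have h11 : S₁ / K * (s₀ / c₀) * (1 - B ^ 2) ≤ S / C * (s₀ / c₀) * (1 - B ^ 2) :=
        mul_le_mul_of_nonneg_right (mul_le_mul_of_nonneg_right h9 (div_pos hs₀ hc₀).le) h10
      linarith
    have h8 : arctan A ≤ arctan B + arctan D := by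
      rw [Real.arctan_add hBD]
      refine Real.arctan_strictMono.monotone ?_
      rw [le_div_iff₀ (by linarith)]
      linarith
    linarith
  refine ⟨halA, hdel, ?_, hCK⟩
  by_contra hcon
  rw [not_le] at hcon
  have h5 := Rng10_tanh hJ0
  have h6 : tanh J < tanh I := by
    rw [tanh_eq_sinh_div_cosh, tanh_eq_sinh_div_cosh, div_lt_div_iff₀ (cosh_pos _) (cosh_pos _)]
    have h1 : 0 < sinh (I - J) := sinh_pos_iff.2 (by linarith)
    rw [sinh_sub] at h1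
    linarith
  rw [hI] at h6
  have h7 : s / C ≤ J - J ^ 3 / 3 := by
    rw [div_le_iff₀ hC0]
    have h8 : 0 ≤ J - J ^ 3 / 3 := by
      by_contra hn
      rw [not_le] at hn
      have := mul_pos (neg_pos.2 hn) hL
      linarith
    have h9 := mul_le_mul_of_nonneg_left hLC h8
    linarith
  linarith

/-- the bounds for `S₁ ≤ S` -/
private theorem Rng10_low {R I ρ₁ β₁ p₁ r₁ ρ₂ β₂ p₂ r₂ S C s c : ℝ}
    (hf : F10 (23787 / 100000) (9712 / 10000) R I S C s c)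
    (h : Vx 3 R I ρ₁ β₁ p₁ r₁ ρ₂ β₂ p₂ r₂)
    (h1 : 59 / 100 ≤ ρ₁) (h2 : β₁ ≤ 3 / 5) (h4 : β₂ ≤ π / 4 - ph R I / 2)
    {S₁ K L A B D t₁ t₂ P₁ J : ℝ} (hS₁ : 0 < S₁) (hS : S₁ ≤ S) (hK : 0 < K) (hK2 : 1 + S₁ ^ 2 ≤ K ^ 2)
    (hL : 0 < L) (hL2 : L ^ 2 ≤ 1 + S₁ ^ 2)
    (hA : 23787 / 100000 * K ≤ 9712 / 10000 * (A * S₁)) (hB0 : 0 ≤ B) (hB1 : B < 1)
    (hB : 9712 / 10000 * (2 * B) * K ≤ 23787 / 100000 * S₁ * (1 - B ^ 2)) (hBD : B * D < 1)
    (hD : A ≤ B + D + A * (B * D)) (hD0 : 0 ≤ D) (hD1 : D < 1) (ht₂ : 1 + D ≤ t₂ * (1 - D))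
    (hAm : A * (6863 / 10000) < 1) (ht₁ : A + 6863 / 10000 ≤ t₁ * (1 - A * (6863 / 10000)))
    (hP0 : 0 ≤ P₁) (hP2 : P₁ ≤ 2 / 5)
    (hP : P₁ + 1812 / 10000 * P₁ ^ 3 ≤ 59 / 100 * (S₁ * (9712 / 10000 * (82405 / 100000)) -
      K * (23787 / 100000 * (56547 / 100000))))
    (hJ0 : 0 ≤ J) (hJ : 23787 / 100000 ≤ (J - J ^ 3 / 3) * L) :
    al R I + β₁ ≤ arctan t₁ ∧ al R I + β₂ ≤ arctan t₂ ∧ P₁ ≤ p₁ ∧ I ≤ J := by
  obtain ⟨halA, hdel, hIJ, hCK⟩ := Rng10_del hf (by norm_num) hS₁ hS hK hK2 hL hL2 hA hB0 hB1 hB hBD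
    hD hJ0 hJ
  obtain ⟨hR0, hR1, hI0, hS0, hC0, hCS, hs0, hc₀, hs1, hc1, hsc, hR, hI, hal, hph, e1, e2⟩ := hf
  have hc0 : 0 < c := by linarith
  obtain ⟨b1, b2⟩ := Rng10_beta h.sl₁.β0 h2
  refine ⟨?_, ?_, ?_, hIJ⟩
  · have hb : β₁ ≤ arctan (6863 / 10000) := by
      have h5 : β₁ = arctan (tan β₁) :=
        (Real.arctan_tan (by linarith [h.sl₁.β0, Real.pi_pos]) (by linarith [Real.pi_gt_three])).symm
      rw [h5]
      refine Real.arctan_strictMono.monotone ?_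
      rw [Real.tan_eq_sin_div_cos, div_le_iff₀ (by linarith)]
      linarith
    have h5 := Rng10_add hAm ht₁
    linarith
  · have h5 : arctan 1 + arctan D ≤ arctan t₂ := Rng10_add (by linarith) (by linarith)
    rw [Real.arctan_one] at h5
    linarith
  · refine Rng10_P hP0 hP2 (le_trans ?_ (Rng10_slot_p h.sl₁))
    have hsb : 0 ≤ sin β₁ :=
      sin_nonneg_of_nonneg_of_le_pi h.sl₁.β0 (by linarith [Real.pi_gt_three])
    have h5 : tt R I * cos (al R I + β₁) = S * (c * cos β₁) - C * (s * sin β₁) := by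
      rw [Real.cos_add]
      linear_combination cos β₁ * e1 - sin β₁ * e2
    have h6 : 9712 / 10000 * (82405 / 100000) ≤ c * cos β₁ :=
      mul_le_mul hc1 b1 (by norm_num) hc0.le
    have h7 : s * sin β₁ ≤ 23787 / 100000 * (56547 / 100000) :=
      mul_le_mul hs1 b2 hsb (by norm_num)
    have h8 : S₁ * (9712 / 10000 * (82405 / 100000)) - K * (23787 / 100000 * (56547 / 100000)) ≤
        tt R I * cos (al R I + β₁) := by
      rw [h5]
      have h9 := mul_le_mul_of_nonneg_left h6 hS0.le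
      have h10 := mul_le_mul_of_nonneg_left h7 hC0.le
      have h11 := mul_le_mul_of_nonneg_right hCK
        (by norm_num : (0 : ℝ) ≤ 23787 / 100000 * (56547 / 100000))
      linarith
    have h9 : 0 ≤ S₁ * (9712 / 10000 * (82405 / 100000)) -
        K * (23787 / 100000 * (56547 / 100000)) := by
      have h10 : 0 ≤ P₁ + 1812 / 10000 * P₁ ^ 3 := by positivity
      linarith
    calc P₁ + 1812 / 10000 * P₁ ^ 3 ≤ _ := hP
      _ ≤ ρ₁ * (tt R I * cos (al R I + β₁)) := mul_le_mul h1 h8 h9 (by linarith)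
      _ = ρ₁ * tt R I * cos (al R I + β₁) := by ring

/-- the contradiction on a piece -/
private theorem Rng10_piece {R I ρ₁ β₁ p₁ r₁ ρ₂ β₂ p₂ r₂ S C s c : ℝ}
    (hf : F10 (23787 / 100000) (9712 / 10000) R I S C s c)
    (h : Vx 3 R I ρ₁ β₁ p₁ r₁ ρ₂ β₂ p₂ r₂) (h1 : 59 / 100 ≤ ρ₁) (h3 : 1 / 2 ≤ ρ₂)
    {S₂ t₁ t₂ P₁ J w : ℝ}
    (hlow : al R I + β₁ ≤ arctan t₁ ∧ al R I + β₂ ≤ arctan t₂ ∧ P₁ ≤ p₁ ∧ I ≤ J)
    (hS : S ≤ S₂) (hw0 : 0 ≤ w) (hw1 : w ≤ 1) (hw : S₂ * (1 + w) ≤ 9712 / 10000 * (1 - w))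
    (ht : t₁ ≤ t₂) (ht0 : 0 ≤ t₂)
    (hnum : t₂ * (3 * J) - (t₂ - t₁) * P₁ < 31415 / 40000 + 3 * (w - w ^ 3 / 3)) : False := by
  obtain ⟨g1, g2, g3, g4⟩ := hlow
  have hc0 : 0 < c := by linarith [hf.hc]
  have hR : R ≤ π / 4 - (w - w ^ 3 / 3) := by
    rw [hf.hR]
    refine Rng10_arctan_le ?_ hw0 hw1
    rw [div_mul_eq_mul_div, div_le_iff₀ hc0]
    have e1 : S * (1 + w) ≤ S₂ * (1 + w) := mul_le_mul_of_nonneg_right hS (by linarith)
    have e2 : 9712 / 10000 * (1 - w) ≤ c * (1 - w) := mul_le_mul_of_nonneg_right hf.hc (by linarith)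
    linarith
  have hr1 := Rng10_slot_r h.sl₁ h.R0 h.R1 h.I0 (by linarith) g1
  have hr2 := Rng10_slot_r h.sl₂ h.R0 h.R1 h.I0 (by linarith) g2
  have e1 := h.hR
  have e2 := h.hI
  have hpi := Real.pi_gt_d4
  have e3 : t₁ * p₁ + t₂ * p₂ ≤ t₂ * (3 * J) - (t₂ - t₁) * P₁ := by
    have e4 : t₁ * p₁ + t₂ * p₂ = t₂ * (3 * I) - (t₂ - t₁) * p₁ := by
      rw [e2]
      ring
    rw [e4]
    have e5 : t₂ * (3 * I) ≤ t₂ * (3 * J) := mul_le_mul_of_nonneg_left (by linarith) ht0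
    have e6 : (t₂ - t₁) * P₁ ≤ (t₂ - t₁) * p₁ := mul_le_mul_of_nonneg_left g3 (by linarith)
    linarith
  linarith

/-- small `S` -/
private theorem Rng10_r {R I ρ β p r : ℝ} (hs : Slot R I ρ β p r) (h0 : 0 < R) (h1 : R < π / 2)
    (hρ : ρ ≤ 1) (htt : tt R I ^ 2 ≤ 4311 / 10000) : r ≤ π / 4 - 690 / 10000 := by
  have htp := tt_pos (I := I) h0 h1
  have hsr : 0 ≤ sin r := sin_nonneg_of_nonneg_of_le_pi hs.r0 (by linarith [hs.r1, Real.pi_pos])
  have hs2 : sin r ≤ tt R I := by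
    calc sin r ≤ cosh p * sin r := le_mul_of_one_le_left hsr (Real.one_le_cosh p)
      _ = ρ * tt R I * sin (al R I + β) := hs.e2
      _ ≤ ρ * tt R I := mul_le_of_le_one_right (mul_nonneg hs.ρ0 htp.le) (Real.sin_le_one _)
      _ ≤ tt R I := mul_le_of_le_one_left htp.le hρ
  have hs3 : sin r ^ 2 ≤ 4311 / 10000 := (pow_le_pow_left₀ hsr hs2 2).trans htt
  have hcr0 : 0 ≤ cos r := Real.cos_nonneg_of_mem_Icc ⟨by linarith [hs.r0, Real.pi_pos], hs.r1⟩
  have hcs := Real.sin_sq_add_cos_sq r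
  have hcr : 0 < cos r := by
    rcases eq_or_lt_of_le hcr0 with h | h
    · rw [← h] at hcs
      have h7 : sin r ^ 2 = 1 := by linear_combination hcs
      linarith
    · exact h
  have hr : r < π / 2 := by
    rcases eq_or_lt_of_le hs.r1 with h | h
    · rw [h, Real.cos_pi_div_two] at hcr
      exact absurd hcr (lt_irrefl _)
    · exact h
  have htan : tan r ≤ 8706 / 10000 := by
    rw [Real.tan_eq_sin_div_cos, div_le_iff₀ hcr]
    refine le_of_sq_le_sq ?_ (by positivity)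
    rw [mul_pow]
    linarith
  have h5 : r = arctan (tan r) := (Real.arctan_tan (by linarith [hs.r0]) hr).symm
  rw [h5]
  refine (Real.arctan_strictMono.monotone htan).trans ?_
  have h6 := Rng10_arctan_le (y := 8706 / 10000) (w := 6915 / 100000) (by norm_num) (by norm_num)
    (by norm_num)
  norm_num at h6
  linarith

private theorem Rng10_tt {R I S C s c s₀ c₀ : ℝ} (hf : F10 s₀ c₀ R I S C s c) :
    tt R I ^ 2 = S ^ 2 + s ^ 2 := by
  have e1 := hf.e1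
  have e2 := hf.e2
  have e3 := Real.sin_sq_add_cos_sq (al R I)
  have e4 : tt R I ^ 2 = (tt R I * cos (al R I)) ^ 2 + (tt R I * sin (al R I)) ^ 2 := by
    linear_combination -(tt R I ^ 2) * e3
  rw [e4, e1, e2, mul_pow, mul_pow, hf.hCS]
  linear_combination S ^ 2 * hf.hsc

theorem Vx.inner3_low2 {R I ρ₁ β₁ p₁ r₁ ρ₂ β₂ p₂ r₂ : ℝ} (h : Vx 3 R I ρ₁ β₁ p₁ r₁ ρ₂ β₂ p₂ r₂)
    (h1 : 59 / 100 ≤ ρ₁) (h1' : ρ₁ ≤ 1) (h2 : β₁ ≤ 3 / 5) (h3 : 1 / 2 ≤ ρ₂) (h3' : ρ₂ ≤ 1)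
    (h4 : β₂ ≤ π / 4 - ph R I / 2) : 6 / 25 ≤ th R I := by
  by_contra hcon
  rw [not_le] at hcon
  have hf := Rng10_facts h.R0 h.R1 h.I0 (by norm_num) (Rng10_sin (th_pos h.R0 h.R1 h.I0) hcon)
  have htt := Rng10_tt hf
  set S := sinh (xx R I) with hS
  set C := cosh (xx R I) with hC
  set s := sin (th R I) with hs
  set c := cos (th R I) with hc
  have hpi := Real.pi_gt_d4
  have hpi' := Real.pi_lt_d4
  have hs2 : s ^ 2 ≤ (23787 / 100000) ^ 2 := pow_le_pow_left₀ hf.hs.le hf.hs' 2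
  rcases lt_or_ge S (61 / 100) with a0 | a0
  · -- small `S`
    have hS2 : S ^ 2 ≤ (61 / 100) ^ 2 := pow_le_pow_left₀ hf.hS.le a0.le 2
    have ht : tt R I ^ 2 ≤ 4311 / 10000 := by
      rw [htt]
      norm_num at hS2 hs2 ⊢
      linarith
    have r1 := Rng10_r h.sl₁ h.R0 h.R1 h1' ht
    have r2 := Rng10_r h.sl₂ h.R0 h.R1 h3' ht
    have hc0 : 0 < c := by linarith [hf.hc]
    have hR : R ≤ π / 4 - (2278 / 10000 - (2278 / 10000) ^ 3 / 3) := by
      rw [hf.hR]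
      refine Rng10_arctan_le ?_ (by norm_num) (by norm_num)
      rw [div_mul_eq_mul_div, div_le_iff₀ hc0]
      have := hf.hc
      norm_num
      linarith
    have e1 := h.hR
    norm_num at hR
    linarith
  rcases lt_or_ge S (27 / 40) with a1 | a1
  · refine Rng10_piece hf h h1 h3 (S₂ := 27 / 40) (t₁ := 1709 / 1000) (t₂ := 2307 / 1000)
      (P₁ := 1937 / 10000) (J := 103 / 500) (w := 1799 / 10000)
      (Rng10_low hf h h1 h2 h4 (S₁ := 61 / 100) (K := 5857 / 5000) (L := 11713 / 10000)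
        (A := 294 / 625) (B := 6351 / 100000) (D := 3951 / 10000) ?_ ?_ ?_ ?_ ?_ ?_ ?_ ?_ ?_ ?_ ?_ ?_
        ?_ ?_ ?_ ?_ ?_ ?_ ?_ ?_ ?_ ?_) ?_ ?_ ?_ ?_ ?_ ?_ ?_ <;> first | exact a0 | exact a1.le | norm_num
  rcases lt_or_ge S (3 / 4) with a2 | a2
  · refine Rng10_piece hf h h1 h3 (S₂ := 3 / 4) (t₁ := 1607 / 1000) (t₂ := 53 / 25)
      (P₁ := 221 / 1000) (J := 1999 / 10000) (w := 257 / 2000)
      (Rng10_low hf h h1 h2 h4 (S₁ := 27 / 40) (K := 2413 / 2000) (L := 754 / 625)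
        (A := 2189 / 5000) (B := 6819 / 100000) (D := 3589 / 10000) ?_ ?_ ?_ ?_ ?_ ?_ ?_ ?_ ?_ ?_ ?_ ?_
        ?_ ?_ ?_ ?_ ?_ ?_ ?_ ?_ ?_ ?_) ?_ ?_ ?_ ?_ ?_ ?_ ?_ <;> first | exact a1 | exact a2.le | norm_num
  rcases lt_or_ge S (33 / 40) with a3 | a3
  · refine Rng10_piece hf h h1 h3 (S₂ := 33 / 40) (t₁ := 1521 / 1000) (t₂ := 983 / 500)
      (P₁ := 63 / 250) (J := 1927 / 10000) (w := 813 / 10000)
      (Rng10_low hf h h1 h2 h4 (S₁ := 3 / 4) (K := 5 / 4) (L := 5 / 4)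
        (A := 4083 / 10000) (B := 1827 / 25000) (D := 407 / 1250) ?_ ?_ ?_ ?_ ?_ ?_ ?_ ?_ ?_ ?_ ?_ ?_
        ?_ ?_ ?_ ?_ ?_ ?_ ?_ ?_ ?_ ?_) ?_ ?_ ?_ ?_ ?_ ?_ ?_ <;> first | exact a2 | exact a3.le | norm_num
  rcases lt_or_ge S (177 / 200) with a4 | a4
  · refine Rng10_piece hf h h1 h3 (S₂ := 177 / 200) (t₁ := 182 / 125) (t₂ := 463 / 250)
      (P₁ := 113 / 400) (J := 1857 / 10000) (w := 29 / 625)
      (Rng10_low hf h h1 h2 h4 (S₁ := 33 / 40) (K := 3241 / 2500) (L := 12963 / 10000)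
        (A := 3849 / 10000) (B := 3873 / 50000) (D := 1493 / 5000) ?_ ?_ ?_ ?_ ?_ ?_ ?_ ?_ ?_ ?_ ?_ ?_
        ?_ ?_ ?_ ?_ ?_ ?_ ?_ ?_ ?_ ?_) ?_ ?_ ?_ ?_ ?_ ?_ ?_ <;> first | exact a3 | exact a4.le | norm_num
  rcases lt_or_ge S (37 / 40) with a5 | a5
  · refine Rng10_piece hf h h1 h3 (S₂ := 37 / 40) (t₁ := 283 / 200) (t₂ := 1781 / 1000)
      (P₁ := 1533 / 5000) (J := 1801 / 10000) (w := 243 / 10000)
      (Rng10_low hf h h1 h2 h4 (S₁ := 177 / 200) (K := 6677 / 5000) (L := 13353 / 10000)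
        (A := 231 / 625) (B := 8063 / 100000) (D := 2807 / 10000) ?_ ?_ ?_ ?_ ?_ ?_ ?_ ?_ ?_ ?_ ?_ ?_
        ?_ ?_ ?_ ?_ ?_ ?_ ?_ ?_ ?_ ?_) ?_ ?_ ?_ ?_ ?_ ?_ ?_ <;> first | exact a4 | exact a5.le | norm_num
  · -- large `S`
    have a9 : 92 / 100 ≤ S := by linarith
    obtain ⟨g1, g2, g3, g4⟩ := Rng10_low hf h h1 h2 h4 (S₁ := 92 / 100) (K := 13589 / 10000)
      (L := 3397 / 2500) (A := 1809 / 5000) (B := 4117 / 50000) (D := 1357 / 5000)
      (t₁ := 279 / 200) (t₂ := 349 / 200) (P₁ := 641 / 2000) (J := 177 / 1000)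
      (by norm_num) a9 (by norm_num) (by norm_num) (by norm_num) (by norm_num) (by norm_num)
      (by norm_num) (by norm_num) (by norm_num) (by norm_num) (by norm_num) (by norm_num)
      (by norm_num) (by norm_num) (by norm_num) (by norm_num) (by norm_num) (by norm_num)
      (by norm_num) (by norm_num) (by norm_num)
    have hal := al_pos h.R0 h.R1 h.I0
    have hb := h.sl₂.β0
    have hcg : 1243 / 2500 ≤ cos (al R I + β₂) := by
      have e1 : cos (arctan (349 / 200)) ≤ cos (al R I + β₂) :=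
        cos_le_cos_of_nonneg_of_le_pi (by linarith) (by
          linarith [Real.arctan_lt_pi_div_two (349 / 200 : ℝ)]) g2
      refine le_trans ?_ e1
      rw [Real.cos_arctan, le_div_iff₀ (by positivity)]
      have e2 : √(1 + (349 / 200 : ℝ) ^ 2) ≤ 1 / (1243 / 2500) := by
        rw [Real.sqrt_le_left (by norm_num)]
        norm_num
      norm_num at e2 ⊢
      linarith
    have htS : S ≤ tt R I := by
      refine le_of_sq_le_sq ?_ (tt_pos h.R0 h.R1).le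
      rw [htt]
      nlinarith [sq_nonneg s]
    have hP2 : 1133 / 5000 ≤ p₂ := by
      refine Rng10_P (by norm_num) (by norm_num) (le_trans ?_ (Rng10_slot_p h.sl₂))
      have e1 : (1 / 2 : ℝ) * (92 / 100) * (1243 / 2500) ≤ ρ₂ * tt R I * cos (al R I + β₂) := by
        refine mul_le_mul (mul_le_mul h3 (by linarith) (by norm_num) (by linarith)) hcg (by norm_num) ?_
        exact mul_nonneg (by linarith) (tt_pos h.R0 h.R1).le
      refine le_trans ?_ e1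
      norm_num
    have e2 := h.hI
    linarith

theorem Vx.inner3_b2 {R I ρ₁ β₁ p₁ r₁ ρ₂ β₂ p₂ r₂ : ℝ} (h : Vx 3 R I ρ₁ β₁ p₁ r₁ ρ₂ β₂ p₂ r₂)
    (h1 : ρ₁ ≤ 1) (h3 : 1 / 2 ≤ ρ₂) (h3' : ρ₂ ≤ 1) (h4 : β₂ ≤ π / 4 - ph R I / 2)
    (hθ : th R I ≤ 7 / 25) : 385 / 1000 * I ≤ p₂ := by
  have hf := Rng10_facts h.R0 h.R1 h.I0 (by norm_num) (Rng10_sin2 (th_pos h.R0 h.R1 h.I0) hθ)
  have htt := Rng10_tt hf
  set S := sinh (xx R I) with hS
  set C := cosh (xx R I) with hC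
  set s := sin (th R I) with hs
  set c := cos (th R I) with hc
  have hpi := Real.pi_gt_d4
  have hpi' := Real.pi_lt_d4
  have hs2 : s ^ 2 ≤ (2767 / 10000) ^ 2 := pow_le_pow_left₀ hf.hs.le hf.hs' 2
  rcases lt_or_ge S (59 / 100) with a0 | a0
  · -- small `S` is impossible
    exfalso
    have hS2 : S ^ 2 ≤ (59 / 100) ^ 2 := pow_le_pow_left₀ hf.hS.le a0.le 2
    have ht : tt R I ^ 2 ≤ 4311 / 10000 := by
      rw [htt]
      norm_num at hS2 hs2 ⊢
      linarith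
    have r1 := Rng10_r h.sl₁ h.R0 h.R1 h1 ht
    have r2 := Rng10_r h.sl₂ h.R0 h.R1 h3' ht
    have hc0 : 0 < c := by linarith [hf.hc]
    have hR : R ≤ π / 4 - (2278 / 10000 - (2278 / 10000) ^ 3 / 3) := by
      rw [hf.hR]
      refine Rng10_arctan_le ?_ (by norm_num) (by norm_num)
      rw [div_mul_eq_mul_div, div_le_iff₀ hc0]
      have := hf.hc
      norm_num
      linarith
    have e1 := h.hR
    norm_num at hR
    linarith
  obtain ⟨g1, g2, g3, g4⟩ := Rng10_del hf (by norm_num) (S₁ := 59 / 100) (K := 11611 / 10000)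
    (L := 1161 / 1000) (A := 1417 / 2500) (B := 3639 / 50000) (D := 949 / 2000) (J := 152 / 625)
    (by norm_num) a0 (by norm_num) (by norm_num) (by norm_num) (by norm_num) (by norm_num)
    (by norm_num) (by norm_num) (by norm_num) (by norm_num) (by norm_num) (by norm_num)
    (by norm_num)
  have g5 : al R I + β₂ ≤ arctan (1403 / 500) := by
    have h5 : arctan 1 + arctan (949 / 2000) ≤ arctan (1403 / 500) :=
      Rng10_add (by norm_num) (by norm_num)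
    rw [Real.arctan_one] at h5
    linarith
  have hal := al_pos h.R0 h.R1 h.I0
  have hb := h.sl₂.β0
  have hcg : 839 / 2500 ≤ cos (al R I + β₂) := by
    have e1 : cos (arctan (1403 / 500)) ≤ cos (al R I + β₂) :=
      cos_le_cos_of_nonneg_of_le_pi (by linarith) (by
        linarith [Real.arctan_lt_pi_div_two (1403 / 500 : ℝ)]) g5
    refine le_trans ?_ e1
    rw [Real.cos_arctan, le_div_iff₀ (by positivity)]
    have e2 : √(1 + (1403 / 500 : ℝ) ^ 2) ≤ 1 / (839 / 2500) := by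
      rw [Real.sqrt_le_left (by norm_num)]
      norm_num
    norm_num at e2 ⊢
    linarith
  have htS : S ≤ tt R I := by
    refine le_of_sq_le_sq ?_ (tt_pos h.R0 h.R1).le
    rw [htt]
    nlinarith [sq_nonneg s]
  have hP2 : 247 / 2500 ≤ p₂ := by
    refine Rng10_P (by norm_num) (by norm_num) (le_trans ?_ (Rng10_slot_p h.sl₂))
    have e1 : (1 / 2 : ℝ) * (59 / 100) * (839 / 2500) ≤ ρ₂ * tt R I * cos (al R I + β₂) := by
      refine mul_le_mul (mul_le_mul h3 (by linarith) (by norm_num) (by linarith)) hcg (by norm_num) ?_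
      exact mul_nonneg (by linarith) (tt_pos h.R0 h.R1).le
    refine le_trans ?_ e1
    norm_num
  linarith

theorem gain_num₃ {θ : ℝ} (h : 6 / 25 ≤ θ) (h' : θ < π / 2) :
    872 / 1000 * (π / 20) ≤ 14 / 25 * tan θ := by
  have h1 : tan (6 / 25) ≤ tan θ := by
    rcases eq_or_lt_of_le h with h2 | h2
    · rw [h2]
    · exact (tan_lt_tan_of_nonneg_of_lt_pi_div_two (by norm_num) h' h2).le
  have a : |(3 / 25 : ℝ)| ≤ 1 := by rw [abs_of_pos (by norm_num)]; norm_num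
  have h2 := (abs_le.1 (Real.sin_bound a)).1
  have h3 := (abs_le.1 (Real.cos_bound a)).2
  have h3' := (abs_le.1 (Real.cos_bound a)).1
  rw [abs_of_pos (by norm_num : (0 : ℝ) < 3 / 25)] at h2 h3 h3'
  norm_num at h2 h3 h3'
  have h5 : 0 < cos (3 / 25) := by linarith
  have h6 : 12056 / 100000 ≤ tan (3 / 25) := by
    rw [tan_eq_sin_div_cos, le_div_iff₀ h5]
    norm_num
    linarith
  have h7 : tan (3 / 25) < 1 := by
    rw [← tan_pi_div_four]
    exact tan_lt_tan_of_nonneg_of_lt_pi_div_two (by norm_num) (by linarith [pi_pos])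
      (by linarith [pi_gt_three])
  have h8 : tan (6 / 25) = 2 * tan (3 / 25) / (1 - tan (3 / 25) ^ 2) := by
    rw [← tan_two_mul]
    norm_num
  have h9 : 2446 / 10000 ≤ tan (6 / 25) := by
    rw [h8, le_div_iff₀ (by nlinarith)]
    nlinarith
  linarith [pi_lt_d4]

end Pool.Agent.S3.E
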