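import Pool.Agent.S3.E.J2

/-!
# Stage 3, block E: an end vertex with three twists next to an inner vertex with two twists

With `X = cos R cosh I`, `Y = sin R sinh I` (`cos z = X - i Y`) the vertex equation is
`ρ cos β = Y (12 X² - 4 Y² - 1)`, `ρ sin β = X (4 X² - 12 Y² - 1)`.  For `59/100 ≤ ρ`,
`1/10 ≤ β ≤ 3/5` this gives `R ≤ 3π/10`, `|cos z|² ≥ (63/100)²`, `Y ≥ 11/100` and
`tan θ ≥ 2 Y ≥ 22/100`.
-/

set_option autoImplicit false

namespace Pool.Agent.S3.E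

open Real

/-- `sinh (p + i r)` in real terms. -/
private theorem Rng11_sinh (p r : ℝ) :
    Complex.sinh ((p : ℂ) + (r : ℂ) * Complex.I) =
      ((sinh p * cos r : ℝ) : ℂ) + ((cosh p * sin r : ℝ) : ℂ) * Complex.I := by
  rw [Complex.sinh_add, Complex.cosh_mul_I, Complex.sinh_mul_I]
  push_cast
  ring

/-- `i κ (4 κ² - 1) = b`. -/
private theorem Rng11_eq {R I ρ β p r β₂ p₂ r₂ : ℝ} (h : Vx 3 R I ρ β p r 0 β₂ p₂ r₂) :
    Complex.I * (Complex.cos ⟨R, I⟩ * (4 * Complex.cos ⟨R, I⟩ ^ 2 - 1)) =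
      (ρ : ℂ) * Complex.exp ((β : ℂ) * Complex.I) := by
  obtain ⟨hp₂, hr₂⟩ := h.sl₂.zero
  have hR := h.hR
  have hI := h.hI
  rw [hr₂] at hR
  rw [hp₂] at hI
  set z : ℂ := ⟨R, I⟩ with hz
  have hzr : z.re = R := rfl
  have hzi : z.im = I := rfl
  have h0 : 0 < z.re := h.R0
  have h1 : z.re < π / 2 := h.R1
  have hsin : Complex.sin z ≠ 0 := by
    intro h2
    have h3 := norm_sin_sq z
    have h4 := s2_pos (I := z.im) h0 h1
    rw [h2, norm_zero] at h3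
    linarith
  have hcos : Complex.cos z ≠ 0 := by
    intro h2
    have h3 := norm_cos_sq z
    have h4 := k2_pos (I := z.im) h0 h1
    rw [h2, norm_zero] at h3
    linarith
  have ht := tan_polar h0 h1
  rw [hzr, hzi] at ht
  -- the slot equation
  have e : Complex.sinh ((p : ℂ) + (r : ℂ) * Complex.I) =
      (ρ : ℂ) * Complex.exp ((β : ℂ) * Complex.I) * Complex.tan z := by
    rw [Rng11_sinh, h.sl₁.e1, h.sl₁.e2, ht]
    have e1 : (ρ : ℂ) * Complex.exp ((β : ℂ) * Complex.I) *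
        ((tt R I : ℂ) * Complex.exp (((al R I : ℝ) : ℂ) * Complex.I)) =
        (ρ : ℂ) * (tt R I : ℂ) * Complex.exp (((al R I + β : ℝ) : ℂ) * Complex.I) := by
      push_cast
      rw [add_mul, Complex.exp_add]
      ring
    rw [e1, Complex.exp_mul_I, ← Complex.ofReal_cos, ← Complex.ofReal_sin]
    push_cast
    ring
  have e2 : (p : ℂ) + (r : ℂ) * Complex.I = ((π : ℂ) - 3 * z) * Complex.I := by
    have hz' : z = (R : ℂ) + (I : ℂ) * Complex.I := by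
      rw [← hzr, ← hzi, Complex.re_add_im]
    have hp : p = 3 * I := by linarith
    have hr : r = π - 3 * R := by linarith
    rw [hz', hp, hr]
    push_cast
    linear_combination (3 * (I : ℂ)) * Complex.I_sq
  rw [e2, Complex.sinh_mul_I, Complex.sin_pi_sub, Complex.sin_three_mul,
    Complex.tan_eq_sin_div_cos, mul_div_assoc', eq_div_iff hcos] at e
  have e3 := Complex.sin_sq_add_cos_sq z
  apply mul_right_cancel₀ hsin
  linear_combination e + (4 * Complex.I * Complex.cos z * Complex.sin z) * e3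

/-- the real form: `X = cos R cosh I`, `Y = sin R sinh I`. -/
private theorem Rng11_real {R I ρ β p r β₂ p₂ r₂ : ℝ} (h : Vx 3 R I ρ β p r 0 β₂ p₂ r₂) {X Y : ℝ}
    (hX : X = cos R * cosh I) (hY : Y = sin R * sinh I) :
    ρ * cos β = Y * (12 * X ^ 2 - 4 * Y ^ 2 - 1) ∧ ρ * sin β = X * (4 * X ^ 2 - 12 * Y ^ 2 - 1) := by
  have e := Rng11_eq h
  have hc := GeoC_cos ⟨R, I⟩
  have hc' : Complex.cos ⟨R, I⟩ = (X : ℂ) - (Y : ℂ) * Complex.I := by
    rw [hc, hX, hY]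
  have e1 : Complex.I * (Complex.cos ⟨R, I⟩ * (4 * Complex.cos ⟨R, I⟩ ^ 2 - 1)) =
      ((Y * (12 * X ^ 2 - 4 * Y ^ 2 - 1) : ℝ) : ℂ) +
        ((X * (4 * X ^ 2 - 12 * Y ^ 2 - 1) : ℝ) : ℂ) * Complex.I := by
    rw [hc']
    push_cast
    linear_combination (-12 * (X : ℂ) ^ 2 * Y + 12 * X * (Y : ℂ) ^ 2 * Complex.I -
      4 * (Y : ℂ) ^ 3 * (Complex.I ^ 2 - 1) + Y) * Complex.I_sq
  have e2 : (ρ : ℂ) * Complex.exp ((β : ℂ) * Complex.I) =
      ((ρ * cos β : ℝ) : ℂ) + ((ρ * sin β : ℝ) : ℂ) * Complex.I := by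
    rw [Complex.exp_mul_I, ← Complex.ofReal_cos, ← Complex.ofReal_sin]
    push_cast
    ring
  rw [e1, e2] at e
  have r1 := congrArg Complex.re e
  have r2 := congrArg Complex.im e
  simp only [Complex.add_re, Complex.add_im, Complex.ofReal_re, Complex.ofReal_im,
    Complex.re_ofReal_mul, Complex.im_ofReal_mul, Complex.I_re, Complex.I_im, mul_zero, mul_one,
    add_zero, zero_add] at r1 r2
  exact ⟨r1.symm, r2.symm⟩


private theorem Rng11_sin {β : ℝ} (h0 : 1 / 10 ≤ β) (h : β ≤ 3 / 5) : 998 / 10000 ≤ sin β := by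
  have hpi := Real.pi_gt_three
  have a : |(1 / 10 : ℝ)| ≤ 1 := by rw [abs_of_pos (by norm_num)]; norm_num
  have hs := (abs_le.1 (Real.sin_bound a)).1
  rw [abs_of_pos (by norm_num : (0 : ℝ) < 1 / 10)] at hs
  have h1 : sin (1 / 10) ≤ sin β :=
    sin_le_sin_of_le_of_le_pi_div_two (by linarith) (by linarith) h0
  norm_num at hs
  linarith

private theorem Rng11_tan {β : ℝ} (h0 : 0 ≤ β) (h : β ≤ 3 / 5) :
    81 / 100 ≤ cos β ∧ sin β ≤ 7 / 10 * cos β := by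
  have hpi := Real.pi_gt_three
  have a : |(3 / 5 : ℝ)| ≤ 1 := by rw [abs_of_pos (by norm_num)]; norm_num
  have hs := (abs_le.1 (Real.sin_bound a)).2
  have hc := (abs_le.1 (Real.cos_bound a)).1
  rw [abs_of_pos (by norm_num : (0 : ℝ) < 3 / 5)] at hs hc
  have h1 : sin β ≤ sin (3 / 5) := sin_le_sin_of_le_of_le_pi_div_two (by linarith) (by linarith) h
  have h2 : cos (3 / 5) ≤ cos β := cos_le_cos_of_nonneg_of_le_pi h0 (by linarith) h
  norm_num at hs hc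
  constructor <;> linarith

private theorem Rng11_y {X Y A B : ℝ} (hX : 0 < X) (hY : 0 < Y)
    (hA : A = Y * (12 * X ^ 2 - 4 * Y ^ 2 - 1)) (hB : B = X * (4 * X ^ 2 - 12 * Y ^ 2 - 1))
    (h1 : 4779 / 10000 ≤ A) (h2 : B ≤ 7 / 10 * A) : 11 / 100 ≤ Y := by
  by_contra hc
  rw [not_le] at hc
  have hY2 : Y ^ 2 ≤ (11 / 100) ^ 2 := pow_le_pow_left₀ hY.le hc.le 2
  have hp : 0 < 12 * X ^ 2 - 1 := by
    have h3 : 0 < Y * (12 * X ^ 2 - 4 * Y ^ 2 - 1) := by rw [← hA]; linarith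
    have h4 := (pos_iff_pos_of_mul_pos h3).1 hY
    linarith [sq_nonneg Y]
  have h3 : A ≤ 11 / 100 * (12 * X ^ 2 - 1) := by
    rw [hA]
    have h4 : Y * (12 * X ^ 2 - 4 * Y ^ 2 - 1) ≤ Y * (12 * X ^ 2 - 1) :=
      mul_le_mul_of_nonneg_left (by linarith [sq_nonneg Y]) hY.le
    have h5 := mul_le_mul_of_nonneg_right hc.le hp.le
    linarith
  have h4 : 4453 / 10000 ≤ X ^ 2 := by
    have : 4779 / 10000 ≤ 11 / 100 * (12 * X ^ 2 - 1) := h1.trans h3
    linarith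
  have h5 : 667 / 1000 ≤ X := by
    by_contra h6
    rw [not_le] at h6
    have : X ^ 2 < (667 / 1000) ^ 2 := pow_lt_pow_left₀ h6 hX.le two_ne_zero
    norm_num at this
    linarith
  have h6 : 667 / 1000 * (4 * X ^ 2 - 11452 / 10000) ≤ B := by
    rw [hB]
    have h7 : 4 * X ^ 2 - 11452 / 10000 ≤ 4 * X ^ 2 - 12 * Y ^ 2 - 1 := by
      norm_num at hY2
      linarith
    have h8 : 0 ≤ 4 * X ^ 2 - 11452 / 10000 := by linarith
    calc 667 / 1000 * (4 * X ^ 2 - 11452 / 10000) ≤ X * (4 * X ^ 2 - 11452 / 10000) :=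
          mul_le_mul_of_nonneg_right h5 h8
      _ ≤ X * (4 * X ^ 2 - 12 * Y ^ 2 - 1) := mul_le_mul_of_nonneg_left h7 hX.le
  linarith

/-- the case of a large `R`, or of a small `|cos z|`. -/
private theorem Rng11_R {X Y A B u v : ℝ} (hX : 0 < X) (hY : 0 < Y)
    (hA : A = Y * (12 * X ^ 2 - 4 * Y ^ 2 - 1)) (hB : B = X * (4 * X ^ 2 - 12 * Y ^ 2 - 1))
    (h1 : 588 / 10000 ≤ B) (h2 : X ^ 2 ≤ u + v * Y ^ 2) (h3 : 3481 / 10000 ≤ A ^ 2 + B ^ 2)
    (huv : (u = 3456 / 10000 ∧ v = 5282 / 10000) ∨ (u = 3969 / 10000 ∧ v = -1)) : False := by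
  obtain ⟨t, ht⟩ : ∃ t, t = Y ^ 2 := ⟨_, rfl⟩
  have ht0 : 0 < t := by rw [ht]; positivity
  have hp : 0 < 4 * X ^ 2 - 12 * Y ^ 2 - 1 := by
    have h3 : 0 < X * (4 * X ^ 2 - 12 * Y ^ 2 - 1) := by rw [← hB]; linarith
    exact (pos_iff_pos_of_mul_pos h3).1 hX
  have hA2 : A ^ 2 = t * (12 * X ^ 2 - 4 * t - 1) ^ 2 := by rw [hA, ht]; ring
  have hB2 : B ^ 2 = X ^ 2 * (4 * X ^ 2 - 12 * t - 1) ^ 2 := by rw [hB, ht]; ring
  have hB1 : (588 / 10000) ^ 2 ≤ B ^ 2 := pow_le_pow_left₀ (by norm_num) h1 2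
  rw [← ht] at h2 hp
  rcases huv with ⟨rfl, rfl⟩ | ⟨rfl, rfl⟩
  · have h4 : 4 * X ^ 2 - 12 * t - 1 ≤ 3824 / 10000 - 98872 / 10000 * t := by linarith
    have t1 : t ≤ 387 / 10000 := by linarith
    have x1 : X ^ 2 ≤ 3661 / 10000 := by linarith
    have h5 : (4 * X ^ 2 - 12 * t - 1) ^ 2 ≤ (3824 / 10000 - 98872 / 10000 * t) ^ 2 :=
      pow_le_pow_left₀ hp.le h4 2
    have h6 : B ^ 2 ≤ 3661 / 10000 * (3824 / 10000 - 98872 / 10000 * t) ^ 2 := by
      rw [hB2]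
      exact mul_le_mul x1 h5 (sq_nonneg _) (by norm_num)
    have t2 : t ≤ 289 / 10000 := by
      by_contra h7
      rw [not_le] at h7
      have h8 : (3824 / 10000 - 98872 / 10000 * t) ^ 2 <
          (3824 / 10000 - 98872 / 10000 * (289 / 10000)) ^ 2 :=
        pow_lt_pow_left₀ (by linarith) (by linarith) two_ne_zero
      norm_num at h8 hB1 h6
      nlinarith
    have h9 : A ^ 2 ≤ t * (3215 / 1000) ^ 2 := by
      rw [hA2]
      apply mul_le_mul_of_nonneg_left _ ht0.le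
      apply pow_le_pow_left₀ (by linarith)
      linarith
    have h10 : (3824 / 10000 - 98872 / 10000 * t) ^ 2 ≤
        (3824 / 10000) ^ 2 - (3824 / 10000) * 98872 / 10000 * t := by nlinarith
    nlinarith
  · have h4 : 4 * X ^ 2 - 12 * t - 1 ≤ 5876 / 10000 - 16 * t := by linarith
    have t1 : t ≤ 368 / 10000 := by linarith
    have x1 : X ^ 2 ≤ 3969 / 10000 := by linarith
    have h5 : (4 * X ^ 2 - 12 * t - 1) ^ 2 ≤ (5876 / 10000 - 16 * t) ^ 2 :=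
      pow_le_pow_left₀ hp.le h4 2
    have h6 : B ^ 2 ≤ 3969 / 10000 * (5876 / 10000 - 16 * t) ^ 2 := by
      rw [hB2]
      exact mul_le_mul x1 h5 (sq_nonneg _) (by norm_num)
    have t2 : t ≤ 310 / 10000 := by
      by_contra h7
      rw [not_le] at h7
      have h8 : (5876 / 10000 - 16 * t) ^ 2 < (5876 / 10000 - 16 * (310 / 10000)) ^ 2 :=
        pow_lt_pow_left₀ (by linarith) (by linarith) two_ne_zero
      norm_num at h8 hB1 h6
      nlinarith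
    have h9 : A ^ 2 ≤ t * (37628 / 10000 - 16 * t) ^ 2 := by
      rw [hA2]
      apply mul_le_mul_of_nonneg_left _ ht0.le
      apply pow_le_pow_left₀ (by linarith)
      linarith
    have h10 : t * (37628 / 10000 - 16 * t) ^ 2 + 3969 / 10000 * (5876 / 10000 - 16 * t) ^ 2 <
        3481 / 10000 := by
      have e1 : (37628 / 10000 - 16 * t) ^ 2 ≤ (37628 / 10000) ^ 2 - 16 * t * 37628 / 10000 := by
        nlinarith
      nlinarith
    linarith

/-- `cos² (3π/10) ≤ .3456`. -/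
theorem cos_sq_three_tenths {R : ℝ} (h : 3 / 10 * π ≤ R) (h' : R < π / 2) :
    cos R ^ 2 ≤ 3456 / 10000 := by
  have hpi := Real.pi_pos
  have h1 : cos R ≤ cos (3 / 10 * π) := cos_le_cos_of_nonneg_of_le_pi (by positivity) (by linarith) h
  have h0 : 0 ≤ cos R := (cos_pos_of_mem_Ioo ⟨by linarith, h'⟩).le
  have h2 : cos R ^ 2 ≤ cos (3 / 10 * π) ^ 2 := pow_le_pow_left₀ h0 h1 2
  have h3 : cos (3 / 10 * π) = sin (π / 5) := by
    rw [← cos_pi_div_two_sub]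
    congr 1
    ring
  have h4 : (2236 : ℝ) / 1000 ≤ √5 := Real.le_sqrt_of_sq_le (by norm_num)
  rw [h3, sin_sq, cos_pi_div_five] at h2
  nlinarith

/-- The ranges at an end with three twists, from the slot. -/
theorem Vx.end3_two {R I ρ β p r β₂ p₂ r₂ : ℝ} (h : Vx 3 R I ρ β p r 0 β₂ p₂ r₂)
    (h1 : 59 / 100 ≤ ρ) (h2 : 1 / 10 ≤ β) (h3 : β ≤ 3 / 5) :
    R ≤ 3 / 10 * π ∧ (63 / 100) ^ 2 ≤ k2 R I ∧ 11 / 100 ≤ sin R * sinh I ∧
      22 / 100 ≤ tan (th R I) ∧ 1 / 5 ≤ th R I := by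
  have h0 := h.R0
  have h0' := h.R1
  have hI := h.I0
  have hpi := Real.pi_gt_three
  obtain ⟨X, hX⟩ : ∃ X, X = cos R * cosh I := ⟨_, rfl⟩
  obtain ⟨Y, hY⟩ : ∃ Y, Y = sin R * sinh I := ⟨_, rfl⟩
  have hc0 := GeoX_cos_pos h0 h0'
  have hs0 := GeoX_sin_pos h0 h0'
  have hsh : 0 < sinh I := sinh_pos_iff.2 hI
  have hX0 : 0 < X := by
    rw [hX]
    exact mul_pos hc0 (cosh_pos _)
  have hY0 : 0 < Y := by
    rw [hY]
    exact mul_pos hs0 hsh
  obtain ⟨r1, r2⟩ := Rng11_real h hX hY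
  have a1 := sin_sq_add_cos_sq R
  have a2 := cosh_sq I
  have hX2 : X ^ 2 = cos R ^ 2 + cos R ^ 2 * sinh I ^ 2 := by
    rw [hX, mul_pow, a2]; ring
  have hY2 : Y ^ 2 = (1 - cos R ^ 2) * sinh I ^ 2 := by
    rw [hY, mul_pow, show sin R ^ 2 = 1 - cos R ^ 2 by linarith]
  have hk : k2 R I = X ^ 2 + Y ^ 2 := by
    rw [GeoX_k2, hX2, hY2, a2]; ring
  have s1 := Rng11_sin h2 h3
  obtain ⟨s2, s3⟩ := Rng11_tan (by linarith) h3
  have hρ : 0 < ρ := by linarith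
  have hA : 4779 / 10000 ≤ ρ * cos β := by nlinarith
  have hB : ρ * sin β ≤ 7 / 10 * (ρ * cos β) := by nlinarith
  have hB1 : 588 / 10000 ≤ ρ * sin β := by nlinarith
  have hAB : 3481 / 10000 ≤ (ρ * cos β) ^ 2 + (ρ * sin β) ^ 2 := by
    have e : (ρ * cos β) ^ 2 + (ρ * sin β) ^ 2 = ρ ^ 2 := by
      have := sin_sq_add_cos_sq β
      linear_combination ρ ^ 2 * this
    rw [e]
    nlinarith
  have y1 : 11 / 100 ≤ Y := Rng11_y hX0 hY0 r1 r2 hA hB
  have tθ : 22 / 100 ≤ tan (th R I) := by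
    have e := tan_th_sq h0 h0' hI
    have t0 : 0 < tan (th R I) := tan_pos_of_pos_of_lt_pi_div_two (th_pos h0 h0' hI) (th_lt h0 h0' hI)
    have h4 : tan (th R I) * cos R = sinh I := by
      have h5 : (tan (th R I) * cos R) ^ 2 = sinh I ^ 2 := by rw [mul_pow]; exact e
      exact (pow_left_inj₀ (by positivity) hsh.le two_ne_zero).1 h5
    rw [hY, ← h4] at y1
    have h6 : 2 * (sin R * cos R) ≤ 1 := by nlinarith [sq_nonneg (sin R - cos R)]
    nlinarith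
  refine ⟨?_, ?_, hY ▸ y1, tθ, ?_⟩
  · by_contra hc
    rw [not_le] at hc
    have h4 := cos_sq_three_tenths hc.le h0'
    refine Rng11_R (u := 3456 / 10000) (v := 5282 / 10000) hX0 hY0 r1 r2 hB1 ?_ hAB
      (Or.inl ⟨rfl, rfl⟩)
    rw [hX2, hY2]
    have h5 : 0 ≤ (5282 / 10000 * (1 - cos R ^ 2) - cos R ^ 2) * sinh I ^ 2 :=
      mul_nonneg (by linarith) (sq_nonneg _)
    linarith
  · rw [hk]
    by_contra hc
    rw [not_le] at hc
    norm_num at hc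
    exact Rng11_R (u := 3969 / 10000) (v := -1) hX0 hY0 r1 r2 hB1 (by linarith) hAB
      (Or.inr ⟨rfl, rfl⟩)
  · by_contra hc
    rw [not_le] at hc
    have h4 : tan (th R I) < tan (1 / 5) := tan_lt_tan_of_nonneg_of_lt_pi_div_two
      (th_pos h0 h0' hI).le (by linarith) hc
    have h5 : tan (1 / 5 : ℝ) ≤ 22 / 100 := by
      have a : |(1 / 5 : ℝ)| ≤ 1 := by rw [abs_of_pos (by norm_num)]; norm_num
      have hs := (abs_le.1 (Real.sin_bound a)).2
      have hcc := (abs_le.1 (Real.cos_bound a)).1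
      rw [abs_of_pos (by norm_num : (0 : ℝ) < 1 / 5)] at hs hcc
      norm_num at hs hcc
      rw [tan_eq_sin_div_cos, div_le_iff₀ (by linarith)]
      linarith
    linarith

end Pool.Agent.S3.E
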