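import Pool.Agent.S3.E.GeoC
import Pool.Agent.S3.E.OGeo

/-!
# Stage 3, block E: the angle of an inner vertex with two twists is at least `1 / 3`

Suppose `θ = th R I < 1/3`; put `x = xx R I > 0`, `al = al R I`, `B = .7355`.
Facts: `tan R = sinh x / cos θ` (`tan_R_eq`), `tanh I = sin θ / cosh x` (`tanh_I_eq`),
`tt cos al = sinh x cos θ`, `tt sin al = cosh x sin θ`, so `tt² = sinh² x + sin² θ`
(`sinh_u`), `2 R = π - r₁ - r₂`, `2 I = p₁ + p₂`.

0. `sinh x ≥ .53`: else `sin r_j ≤ cosh p_j sin r_j ≤ ρ_j tt ≤ tt < .624`, so (Jordan)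
`r₁ + r₂ < .624 π`, while `2 R ≤ 2 tan R < 1.13`, and the sum is `π`.

1. `al + β_j ≤ al + B < π/2`, so `tan r_j = tan (al + β_j) tanh p_j ≤ T tanh p_j`,
`T = tan (al + B)`, and `p ↦ arctan (T tanh p)` is concave, so
`π - 2 R = r₁ + r₂ ≤ 2 arctan (T tanh I)`, that is `1 / tan R ≤ T tanh I`, which is
`tanh 2x ≤ tan B tan 2θ`.  But `tanh 2x ≥ .767` and `tan B tan (2/3) < .767`.
-/

set_option autoImplicit false

namespace Pool.Agent.S3.E

open Real

/-- Real and imaginary parts of `sinh (x + i θ) = tan z`. -/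
private theorem r9_parts {R I : ℝ} (h : 0 < R) (h' : R < π / 2) (hI : 0 < I) :
    tt R I * cos (al R I) = sinh (xx R I) * cos (th R I) ∧
      tt R I * sin (al R I) = cosh (xx R I) * sin (th R I) := by
  have e := sinh_u (z := ⟨R, I⟩) h h' hI
  rw [tan_polar (z := ⟨R, I⟩) h h', Complex.sinh_add, Complex.sinh_mul_I, Complex.cosh_mul_I,
    ← Complex.ofReal_sinh, ← Complex.ofReal_cosh, ← Complex.ofReal_sin, ← Complex.ofReal_cos] at e
  have e1 := congrArg Complex.re e
  have e2 := congrArg Complex.im e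
  rw [Complex.re_ofReal_mul, Complex.exp_ofReal_mul_I_re] at e1
  rw [Complex.im_ofReal_mul, Complex.exp_ofReal_mul_I_im] at e2
  simp only [Complex.add_re, Complex.add_im, Complex.mul_re, Complex.mul_im, Complex.ofReal_re,
    Complex.ofReal_im, Complex.I_re, Complex.I_im, mul_zero, mul_one, zero_mul, sub_zero, add_zero,
    zero_add] at e1 e2
  exact ⟨e1.symm, e2.symm⟩

private theorem r9_hasDerivAt (T p : ℝ) :
    HasDerivAt (fun q => arctan (T * tanh q)) (T / (cosh p ^ 2 + T ^ 2 * sinh p ^ 2)) p := by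
  have hc : cosh p ≠ 0 := (cosh_pos p).ne'
  have h1 : HasDerivAt (fun q => tanh q) (1 / cosh p ^ 2) p := by
    have h := (Real.hasDerivAt_sinh p).div (Real.hasDerivAt_cosh p) hc
    have e : (fun q => tanh q) = (sinh / cosh : ℝ → ℝ) := by
      funext y
      rw [Pi.div_apply, tanh_eq_sinh_div_cosh]
    rw [e]
    have e2 : cosh p * cosh p - sinh p * sinh p = 1 := by
      have := Real.cosh_sq p
      linarith [sq (cosh p), sq (sinh p)]
    rw [e2] at h
    exact h
  have h2 := (h1.const_mul T).arctan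
  convert h2 using 1
  have hpos : cosh p ^ 2 + T ^ 2 * sinh p ^ 2 ≠ 0 := by positivity
  rw [tanh_eq_sinh_div_cosh]
  have e : 1 + (T * (sinh p / cosh p)) ^ 2 = (cosh p ^ 2 + T ^ 2 * sinh p ^ 2) / cosh p ^ 2 := by
    field_simp
  rw [e]
  field_simp

/-- concavity of `p ↦ arctan (T tanh p)` at the midpoint -/
private theorem r9_mid {T p q : ℝ} (hT : 0 ≤ T) (hp : 0 ≤ p) (hq : 0 ≤ q) :
    arctan (T * tanh p) + arctan (T * tanh q) ≤ 2 * arctan (T * tanh ((p + q) / 2)) := by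
  have hdiff : Differentiable ℝ (fun q => arctan (T * tanh q)) :=
    fun q => (r9_hasDerivAt T q).differentiableAt
  have hconc : ConcaveOn ℝ (Set.Ici (0 : ℝ)) (fun q => arctan (T * tanh q)) := by
    apply AntitoneOn.concaveOn_of_deriv (convex_Ici 0) hdiff.continuous.continuousOn
      hdiff.differentiableOn
    intro u hu v hv huv
    rw [interior_Ici, Set.mem_Ioi] at hu hv
    rw [(r9_hasDerivAt T u).deriv, (r9_hasDerivAt T v).deriv]
    have hcu := cosh_pos u
    have hsu : 0 ≤ sinh u := sinh_nonneg_iff.mpr hu.le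
    have hs : sinh u ≤ sinh v := sinh_le_sinh.mpr huv
    have hc : cosh u ≤ cosh v := cosh_le_cosh.mpr (by rw [abs_of_pos hu, abs_of_pos hv]; exact huv)
    have h1 : cosh u ^ 2 ≤ cosh v ^ 2 := pow_le_pow_left₀ hcu.le hc 2
    have h2 : sinh u ^ 2 ≤ sinh v ^ 2 := pow_le_pow_left₀ hsu hs 2
    apply div_le_div_of_nonneg_left hT (by positivity)
    have := mul_le_mul_of_nonneg_left h2 (sq_nonneg T)
    linarith
  have key := hconc.2 (Set.mem_Ici.mpr hp) (Set.mem_Ici.mpr hq) (by norm_num : (0 : ℝ) ≤ 1 / 2)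
    (by norm_num : (0 : ℝ) ≤ 1 / 2) (by norm_num)
  simp only [smul_eq_mul] at key
  have e : 1 / 2 * p + 1 / 2 * q = (p + q) / 2 := by ring
  rw [e] at key
  linarith

private theorem r9_tanh_nonneg {x : ℝ} (h : 0 ≤ x) : 0 ≤ tanh x := by
  rw [tanh_eq_sinh_div_cosh]
  exact div_nonneg (sinh_nonneg_iff.2 h) (cosh_pos x).le

/-- numerical values -/
private theorem r9_third : sin (1 / 3 : ℝ) ≤ 3278 / 10000 ∧ 9438 / 10000 ≤ cos (1 / 3 : ℝ) := by
  have a : |(1 / 3 : ℝ)| ≤ 1 := by rw [abs_of_pos (by norm_num)]; norm_num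
  have hs := (abs_le.1 (Real.sin_bound a)).2
  have hc := (abs_le.1 (Real.cos_bound a)).1
  rw [abs_of_pos (by norm_num : (0 : ℝ) < 1 / 3)] at hs hc
  norm_num at hs hc
  constructor <;> linarith

private theorem r9_B : 0 < sin (1471 / 2000 : ℝ) ∧ 7 / 10 ≤ cos (1471 / 2000 : ℝ) ∧
    sin (1471 / 2000 : ℝ) ≤ 9153 / 10000 * cos (1471 / 2000 : ℝ) := by
  have a : |(1471 / 4000 : ℝ)| ≤ 1 := by rw [abs_of_pos (by norm_num)]; norm_num
  have hs := (abs_le.1 (Real.sin_bound a)).2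
  have hc := (abs_le.1 (Real.cos_bound a)).1
  have hc' := (abs_le.1 (Real.cos_bound a)).2
  rw [abs_of_pos (by norm_num : (0 : ℝ) < 1471 / 4000)] at hs hc hc'
  norm_num at hs hc hc'
  have e1 : sin (1471 / 2000 : ℝ) = 2 * sin (1471 / 4000) * cos (1471 / 4000) := by
    rw [← sin_two_mul]
    norm_num
  have e2 : cos (1471 / 2000 : ℝ) = 2 * cos (1471 / 4000) ^ 2 - 1 := by
    rw [← cos_two_mul]
    norm_num
  have s0 : 0 < sin (1471 / 4000 : ℝ) :=
    sin_pos_of_pos_of_lt_pi (by norm_num) (by linarith [pi_gt_three])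
  have h1 : sin (1471 / 4000 : ℝ) ≤ 3605 / 10000 := by linarith
  have h2 : 9314 / 10000 ≤ cos (1471 / 4000 : ℝ) := by linarith
  have h3 : cos (1471 / 4000 : ℝ) ≤ 9334 / 10000 := by linarith
  refine ⟨?_, ?_, ?_⟩
  · rw [e1]
    have : 0 < cos (1471 / 4000 : ℝ) := by linarith
    positivity
  · rw [e2]
    nlinarith
  · rw [e1, e2]
    nlinarith

/-- `θ < 1/3`: bounds -/
private theorem r9_th {θ : ℝ} (h0 : 0 < θ) (h : θ < 1 / 3) :
    0 < sin θ ∧ sin θ ≤ 3278 / 10000 ∧ 9438 / 10000 ≤ cos θ := by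
  have hpi := Real.pi_gt_three
  obtain ⟨h1, h2⟩ := r9_third
  refine ⟨sin_pos_of_pos_of_lt_pi h0 (by linarith), ?_, ?_⟩
  · exact (sin_le_sin_of_le_of_le_pi_div_two (by linarith) (by linarith) h.le).trans h1
  · exact h2.trans (cos_le_cos_of_nonneg_of_le_pi h0.le (by linarith) h.le)

/-- the slot: `r ≤ arctan (T tanh p)` -/
private theorem r9_slot {R I ρ β p r B : ℝ} (hs : Slot R I ρ β p r) (ha : 0 < al R I)
    (hβ : β ≤ B) (hB : al R I + B < π / 2) :
    r ≤ arctan (tan (al R I + B) * tanh p) := by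
  have hγ0 : 0 < al R I + β := by linarith [hs.β0]
  have hγ1 : al R I + β < π / 2 := by linarith
  have hcγ : 0 < cos (al R I + β) := cos_pos_of_mem_Ioo ⟨by linarith, hγ1⟩
  have hcp := cosh_pos p
  have e1 := hs.e1
  have e2 := hs.e2
  have hr1 : r < π / 2 := by
    rcases eq_or_lt_of_le hs.r1 with h | h
    · exfalso
      rw [h, cos_pi_div_two, mul_zero] at e1
      have h0 : ρ * tt R I = 0 := by
        rcases mul_eq_zero.1 e1.symm with h1 | h1
        · exact h1
        · exact absurd h1 hcγ.ne'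
      rw [h, sin_pi_div_two, mul_one, h0, zero_mul] at e2
      exact absurd e2 hcp.ne'
    · exact h
  have hcr : 0 < cos r := cos_pos_of_mem_Ioo ⟨by linarith [hs.r0, pi_pos], hr1⟩
  have e3 : sin r * cosh p * cos (al R I + β) = sinh p * cos r * sin (al R I + β) := by
    have : sin r * cosh p = ρ * tt R I * sin (al R I + β) := by linarith [mul_comm (cosh p) (sin r)]
    rw [this, e1]
    ring
  have ht : tan r = tan (al R I + β) * tanh p := by
    rw [tan_eq_sin_div_cos, tan_eq_sin_div_cos, tanh_eq_sinh_div_cosh, div_mul_div_comm,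
      div_eq_div_iff hcr.ne' (mul_pos hcγ hcp).ne']
    linarith
  have hmono : tan (al R I + β) ≤ tan (al R I + B) := by
    rcases eq_or_lt_of_le hβ with h | h
    · rw [h]
    · exact (tan_lt_tan_of_nonneg_of_lt_pi_div_two hγ0.le hB (by linarith)).le
  have hth := r9_tanh_nonneg hs.p0
  calc r = arctan (tan r) := (arctan_tan (by linarith [hs.r0, pi_pos]) hr1).symm
    _ ≤ arctan (tan (al R I + B) * tanh p) := by
        apply arctan_strictMono.monotone
        rw [ht]
        exact mul_le_mul_of_nonneg_right hmono hth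

/-- `sin r ≤ tt` -/
private theorem r9_r {R I ρ β p r : ℝ} (hs : Slot R I ρ β p r) (hρ : ρ ≤ 1) (htt : 0 ≤ tt R I) :
    2 / π * r ≤ tt R I := by
  have hr : 0 ≤ sin r := sin_nonneg_of_nonneg_of_le_pi hs.r0 (by linarith [hs.r1, pi_pos])
  have h1 : 2 / π * r ≤ sin r := Real.mul_le_sin hs.r0 hs.r1
  have h2 : sin r ≤ cosh p * sin r := le_mul_of_one_le_left hr (one_le_cosh p)
  have h3 : ρ * tt R I * sin (al R I + β) ≤ tt R I := by
    have h4 : ρ * tt R I ≤ tt R I := by nlinarith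
    have h5 : 0 ≤ ρ * tt R I := mul_nonneg hs.ρ0 htt
    have h6 := sin_le_one (al R I + β)
    nlinarith
  rw [← hs.e2] at h3
  linarith

theorem Vx.two_low_th {R I ρ₁ β₁ p₁ r₁ ρ₂ β₂ p₂ r₂ : ℝ} (h : Vx 2 R I ρ₁ β₁ p₁ r₁ ρ₂ β₂ p₂ r₂)
    (h1 : ρ₁ ≤ 1) (h2 : ρ₂ ≤ 1) (hβ₁ : β₁ ≤ 1471 / 2000) (hβ₂ : β₂ ≤ 1471 / 2000) :
    1 / 3 ≤ th R I := by
  by_contra hcon
  rw [not_le] at hcon
  have h0 := h.R0
  have h0' := h.R1
  have hI := h.I0
  have hx := xx_pos h0 h0' hI
  have ht0 := th_pos h0 h0' hI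
  obtain ⟨hS0, hS1, hc1⟩ := r9_th ht0 hcon
  obtain ⟨q1, q2⟩ := r9_parts h0 h0' hI
  have htR := tan_R_eq h0 h0' hI
  have htI := tanh_I_eq h0 h0' hI
  have hs0 : 0 < sinh (xx R I) := sinh_pos_iff.2 hx
  have hC0 := cosh_pos (xx R I)
  have hC := cosh_sq (xx R I)
  have hsc := sin_sq_add_cos_sq (th R I)
  have hac := sin_sq_add_cos_sq (al R I)
  have hal := al_pos h0 h0' hI
  have htt : 0 ≤ tt R I := sqrt_nonneg _
  have htt2 : tt R I ^ 2 = sinh (xx R I) ^ 2 + sin (th R I) ^ 2 := by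
    have e1 : tt R I ^ 2 = (tt R I * cos (al R I)) ^ 2 + (tt R I * sin (al R I)) ^ 2 := by
      have : (tt R I * cos (al R I)) ^ 2 + (tt R I * sin (al R I)) ^ 2 =
        tt R I ^ 2 * (sin (al R I) ^ 2 + cos (al R I) ^ 2) := by ring
      rw [this, hac, mul_one]
    rw [e1, q1, q2, mul_pow, mul_pow, hC]
    have : cos (th R I) ^ 2 = 1 - sin (th R I) ^ 2 := by linarith
    rw [this]
    ring
  set s := sinh (xx R I) with hsdef
  set C := cosh (xx R I) with hCdef
  set S := sin (th R I) with hSdef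
  set c := cos (th R I) with hcdef
  have hpi3 := Real.pi_gt_three
  have hpi := Real.pi_gt_d2
  -- step 0
  have hs53 : 53 / 100 ≤ s := by
    by_contra hlt
    rw [not_le] at hlt
    have k1 : tt R I ≤ 6234 / 10000 := by
      have e1 : s ^ 2 ≤ (53 / 100) ^ 2 := pow_le_pow_left₀ hs0.le hlt.le 2
      have e2 : S ^ 2 ≤ (3278 / 10000) ^ 2 := pow_le_pow_left₀ hS0.le hS1 2
      have e3 : tt R I ^ 2 ≤ (6234 / 10000) ^ 2 := by rw [htt2]; linarith
      exact (pow_le_pow_iff_left₀ htt (by norm_num) two_ne_zero).1 e3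
    have k2 := r9_r h.sl₁ h1 htt
    have k3 := r9_r h.sl₂ h2 htt
    have k4 : R ≤ tan R := (lt_tan h0 h0').le
    have k5 : tan R ≤ 5616 / 10000 := by
      rw [htR, div_le_iff₀ (by linarith)]
      linarith
    have k6 : r₁ ≤ 6234 / 10000 * (π / 2) := by
      have : 2 / π * r₁ ≤ 6234 / 10000 := k2.trans k1
      rw [div_mul_eq_mul_div, div_le_iff₀ pi_pos] at this
      linarith
    have k7 : r₂ ≤ 6234 / 10000 * (π / 2) := by
      have : 2 / π * r₂ ≤ 6234 / 10000 := k3.trans k1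
      rw [div_mul_eq_mul_div, div_le_iff₀ pi_pos] at this
      linarith
    have := h.hR
    linarith
  -- the constant
  obtain ⟨hB0, hB1, hB2⟩ := r9_B
  set sB := sin (1471 / 2000 : ℝ) with hsB
  set cB := cos (1471 / 2000 : ℝ) with hcB
  have hcB0 : 0 < cB := by linarith
  have hsC : s ≤ C := by
    have : s ^ 2 ≤ C ^ 2 := by linarith
    exact (pow_le_pow_iff_left₀ hs0.le hC0.le two_ne_zero).1 this
  -- C ≤ 2.14 s
  have hC2 : C ≤ 214 / 100 * s := by
    have : C ^ 2 ≤ (214 / 100 * s) ^ 2 := by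
      have m4 : (53 / 100 : ℝ) ^ 2 ≤ s ^ 2 := pow_le_pow_left₀ (by norm_num) hs53 2
      rw [mul_pow, hC]
      linarith
    exact (pow_le_pow_iff_left₀ hC0.le (by positivity) two_ne_zero).1 this
  have hkey : 0 < s * c * cB - C * S * sB := by
    have a1 : C * S * sB ≤ (214 / 100 * s) * (3278 / 10000) * (9153 / 10000 * cB) := by
      gcongr
    have a2 : s * (9438 / 10000) * cB ≤ s * c * cB := by gcongr
    have a3 : 0 < s * cB := mul_pos hs0 hcB0
    linarith
  -- cos (al + B) > 0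
  have hcos : 0 < tt R I * cos (al R I + 1471 / 2000) := by
    rw [cos_add]
    have : tt R I * (cos (al R I) * cos (1471 / 2000) - sin (al R I) * sin (1471 / 2000)) =
        (tt R I * cos (al R I)) * cB - (tt R I * sin (al R I)) * sB := by ring
    rw [this, q1, q2]
    exact hkey
  have hcos' : 0 < cos (al R I + 1471 / 2000) := by
    by_contra hk
    rw [not_lt] at hk
    have := mul_nonpos_of_nonneg_of_nonpos htt hk
    linarith
  have halt : al R I < π / 2 := by
    unfold al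
    exact arctan_lt_pi_div_two _
  have hB : al R I + 1471 / 2000 < π / 2 := by
    by_contra hk
    rw [not_lt] at hk
    have := cos_nonpos_of_pi_div_two_le_of_le hk (by linarith)
    linarith
  have u1 := r9_slot h.sl₁ hal hβ₁ hB
  have u2 := r9_slot h.sl₂ hal hβ₂ hB
  have hT : 0 ≤ tan (al R I + 1471 / 2000) := tan_nonneg_of_nonneg_of_le_pi_div_two
    (by linarith) hB.le
  have u3 := r9_mid hT h.sl₁.p0 h.sl₂.p0
  have hIp : (p₁ + p₂) / 2 = I := by linarith [h.hI]
  rw [hIp] at u3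
  have u4 : π / 2 - R ≤ arctan (tan (al R I + 1471 / 2000) * tanh I) := by linarith [h.hR]
  have u5 : (tan R)⁻¹ ≤ tan (al R I + 1471 / 2000) * tanh I := by
    rw [← tan_pi_div_two_sub]
    have e1 : arctan (tan (π / 2 - R)) = π / 2 - R := arctan_tan (by linarith) (by linarith)
    rw [← e1] at u4
    exact arctan_strictMono.le_iff_le.1 u4
  rw [htR, htI, inv_div, tan_eq_sin_div_cos] at u5
  -- multiply by tt
  have http : 0 < tt R I := by
    rcases eq_or_lt_of_le htt with hk | hk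
    · rw [← hk, zero_mul] at hcos
      exact absurd hcos (lt_irrefl _)
    · exact hk
  have e5 : sin (al R I + 1471 / 2000) / cos (al R I + 1471 / 2000) =
      (C * S * cB + s * c * sB) / (s * c * cB - C * S * sB) := by
    have e6 : tt R I * sin (al R I + 1471 / 2000) = C * S * cB + s * c * sB := by
      rw [sin_add]
      have : tt R I * (sin (al R I) * cos (1471 / 2000) + cos (al R I) * sin (1471 / 2000)) =
          (tt R I * sin (al R I)) * cB + (tt R I * cos (al R I)) * sB := by ring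
      rw [this, q1, q2]
    have e7 : tt R I * cos (al R I + 1471 / 2000) = s * c * cB - C * S * sB := by
      rw [cos_add]
      have : tt R I * (cos (al R I) * cos (1471 / 2000) - sin (al R I) * sin (1471 / 2000)) =
          (tt R I * cos (al R I)) * cB - (tt R I * sin (al R I)) * sB := by ring
      rw [this, q1, q2]
    rw [← e6, ← e7, mul_div_mul_left _ _ http.ne']
  rw [e5, div_mul_div_comm, div_le_div_iff₀ hs0 (mul_pos hkey hC0)] at u5
  -- c (s c cB - C S sB) C ≤ (C S cB + s c sB) S s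
  have hcc : c ^ 2 = 1 - S ^ 2 := by linarith
  have hfin : cB * (s * C) * (c ^ 2 - S ^ 2) ≤ sB * (S * c) * (C ^ 2 + s ^ 2) := by
    have f1 : cB * (s * C) * (c ^ 2 - S ^ 2) - sB * (S * c) * (C ^ 2 + s ^ 2) =
        c * ((s * c * cB - C * S * sB) * C) - (C * S * cB + s * c * sB) * S * s := by ring
    linarith
  -- numbers
  have n1 : 767 / 1000 * (C ^ 2 + s ^ 2) ≤ 2 * (s * C) := by
    have m1 : (767 / 1000 * (C ^ 2 + s ^ 2)) ^ 2 ≤ (2 * (s * C)) ^ 2 := by
      have m2 : (2 * (s * C)) ^ 2 = (C ^ 2 + s ^ 2) ^ 2 - 1 := by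
        have : (2 * (s * C)) ^ 2 = 4 * s ^ 2 * C ^ 2 := by ring
        rw [this, hC]
        ring
      have m4 : (53 / 100 : ℝ) ^ 2 ≤ s ^ 2 := pow_le_pow_left₀ (by norm_num) hs53 2
      have m3 : 15618 / 10000 ≤ C ^ 2 + s ^ 2 := by rw [hC]; linarith
      have m5 : (15618 / 10000 : ℝ) ^ 2 ≤ (C ^ 2 + s ^ 2) ^ 2 :=
        pow_le_pow_left₀ (by norm_num) m3 2
      rw [m2, mul_pow]
      linarith
    exact (pow_le_pow_iff_left₀ (by positivity) (by positivity) two_ne_zero).1 m1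
  have n2 : S * c * (9153 / 10000) * 2 < 767 / 1000 * (c ^ 2 - S ^ 2) := by
    have m1 : S ≤ 3474 / 10000 * c := by linarith
    have m2 : 0 < c := by linarith
    have m3 : S * c ≤ 3474 / 10000 * c ^ 2 := by
      have := mul_le_mul_of_nonneg_right m1 m2.le
      rw [mul_assoc, ← sq] at this
      exact this
    have m4 : S ^ 2 ≤ (3474 / 10000) ^ 2 * c ^ 2 := by
      have := pow_le_pow_left₀ hS0.le m1 2
      rw [mul_pow] at this
      exact this
    have m5 : 0 < c ^ 2 := by positivity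
    linarith
  have n3 : 0 < S * c := mul_pos hS0 (by linarith)
  have n4 : 0 < C ^ 2 + s ^ 2 := by positivity
  have n5 : 0 < c ^ 2 - S ^ 2 := by linarith
  have v1 : sB * (S * c) * (C ^ 2 + s ^ 2) ≤ (9153 / 10000 * cB) * (S * c) * (C ^ 2 + s ^ 2) := by
    gcongr
  have v2 : cB * (767 / 1000 * (C ^ 2 + s ^ 2)) * (c ^ 2 - S ^ 2) ≤
      cB * (2 * (s * C)) * (c ^ 2 - S ^ 2) := by
    gcongr
  have v3 : 0 < cB * (C ^ 2 + s ^ 2) := mul_pos hcB0 n4
  have v4 := mul_lt_mul_of_pos_left n2 v3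
  linarith

end Pool.Agent.S3.E
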