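import Mathlib

/-!
# Stage 3, block E: inner `2`, `φ ≤ 3/5`

`X = κ²`, `4X² - 4 p X + s² = 0`, `p = b₁ b₂`, `s = b₁ + b₂`, `b_j = ρ_j e^{i β_j}`,
`h = p/s = cosh (B + iA)`, `2φ = A - σ`, `σ = arg s`.

Suppose `2φ > 6/5`, so `A > 6/5 + σ`.  With `P = Re h`, `Q = Im h`:
`P² sin² A - Q² cos² A = cos² A sin² A` gives `P ≤ cos A (1 + 0.577 Q²)`, and
`|s| cos A < cos (6/5) Re s - sin (6/5) Im s`.  Moreover
`|s|² P = ρ₁ρ₂ (ρ₁ cos β₂ + ρ₂ cos β₁)`, `|s| ≤ ρ₁ + ρ₂`, `Q ≤ (sin β₁ + sin β₂)/3`.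
The resulting inequality is separated: it is a sum of a function of `(ρ₁, β₁)` and one of
`(ρ₂, β₂)` and `ρ₁ρ₂`, and `sin β_j ≥ .331 (1 - ρ_j)²/ρ_j`.
-/

set_option autoImplicit false

namespace Pool.Agent.S3.E

open Complex

private theorem TwoF_cos : Real.cos (6 / 5) ≤ 0.3635 ∧ 0.3 ≤ Real.cos (6 / 5) := by
  have h1 := Real.cos_bound (x := 3 / 10) (by rw [abs_of_pos] <;> norm_num)
  have e1 : |(3 / 10 : ℝ)| = 3 / 10 := abs_of_pos (by norm_num)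
  rw [e1, abs_le] at h1
  obtain ⟨h2, h3⟩ := h1
  have e2 : Real.cos (6 / 10) = 2 * Real.cos (3 / 10) ^ 2 - 1 := by
    rw [← Real.cos_two_mul]; norm_num
  have e3 : Real.cos (6 / 5) = 2 * Real.cos (6 / 10) ^ 2 - 1 := by
    rw [← Real.cos_two_mul]; norm_num
  set x := Real.cos (3 / 10) with hx
  have hx1 : x ≤ 0.955422 := by norm_num at h3 ⊢; linarith
  have hx2 : 0.954 ≤ x := by norm_num at h2 ⊢; linarith
  set y := Real.cos (6 / 10) with hy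
  have hy1 : y ≤ 0.825663 := by rw [e2]; nlinarith only [h2, hx1]
  have hy2 : 0.82 ≤ y := by rw [e2]; nlinarith only [hx2]
  rw [e3]
  constructor <;> nlinarith only [hy1, hy2]

private theorem TwoF_sin : 0.9315 ≤ Real.sin (6 / 5) := by
  obtain ⟨h1, h2⟩ := TwoF_cos
  have h3 := Real.sin_sq_add_cos_sq (6 / 5)
  have h4 : 0 ≤ Real.sin (6 / 5) := by
    apply Real.sin_nonneg_of_nonneg_of_le_pi (by norm_num)
    have := Real.pi_gt_three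
    linarith
  by_contra h
  push Not at h
  nlinarith only [h1, h2, h3, h4, h]

/-- one slot -/
private theorem TwoF_slot {ρ t : ℝ} (hρ : 1 / 2 ≤ ρ) (hρ' : ρ ≤ 1) (ht : 0 ≤ t)
    (ht' : t ≤ 0.7072) (h : 0.993 * (1 - ρ) ^ 2 ≤ 3 * ρ * t) :
    0.278 * (1 - ρ) ^ 2 ≤ 0.9315 * ρ * t - (0.0933 + 0.178 * ρ) * t ^ 2 := by
  rcases le_total t (1 / 4) with h4 | h4
  · have h5 : 0.8403 * ρ * t ≤ 0.9315 * ρ * t - (0.0933 + 0.178 * ρ) * t ^ 2 := by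
      have h6 : (0.0933 + 0.178 * ρ) * t ≤ (0.0933 + 0.178 * ρ) * (1 / 4) :=
        mul_le_mul_of_nonneg_left h4 (by linarith)
      have h7 : 0.8403 * ρ ≤ 0.9315 * ρ - (0.0933 + 0.178 * ρ) * t := by linarith only [hρ, h6]
      linarith only [mul_le_mul_of_nonneg_right h7 ht]
    nlinarith only [h, h5]
  · have h5 : 0.67 * ρ * t ≤ 0.9315 * ρ * t - (0.0933 + 0.178 * ρ) * t ^ 2 := by
      have h6 : (0.0933 + 0.178 * ρ) * t ≤ (0.0933 + 0.178 * ρ) * 0.7072 :=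
        mul_le_mul_of_nonneg_left ht' (by linarith)
      have h7 : 0.67 * ρ ≤ 0.9315 * ρ - (0.0933 + 0.178 * ρ) * t := by linarith only [hρ, h6]
      linarith only [mul_le_mul_of_nonneg_right h7 ht]
    nlinarith only [mul_nonneg (sub_nonneg.2 h4) (by linarith : (0 : ℝ) ≤ ρ), hρ, hρ', ht']

/-- the final inequality -/
private theorem TwoF_final {u v c₁ c₂ s₁ s₂ : ℝ} (hu : 1 / 2 ≤ u) (hu' : u ≤ 1)
    (hv : 1 / 2 ≤ v) (hv' : v ≤ 1) (hc₁ : 0.707 ≤ c₁) (hc₂ : 0.707 ≤ c₂)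
    (hs₁ : 0 ≤ s₁) (hs₂ : 0 ≤ s₂) (hs₁' : s₁ ≤ 0.7072) (hs₂' : s₂ ≤ 0.7072)
    (e₁ : s₁ ^ 2 + c₁ ^ 2 = 1) (e₂ : s₂ ^ 2 + c₂ ^ 2 = 1)
    (h₁ : 0.993 * (1 - u) ^ 2 ≤ 3 * u * s₁) (h₂ : 0.993 * (1 - v) ^ 2 ≤ 3 * v * s₂) :
    0.3635 * (u * c₁ + v * c₂) - 0.9315 * (u * s₁ + v * s₂) + 0.0933 * (s₁ ^ 2 + s₂ ^ 2) <
      u * v * (u * c₂ + v * c₁) / (u + v) := by
  have huv : 0 < u + v := by linarith
  have k₁ := TwoF_slot hu hu' hs₁ hs₁' h₁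
  have k₂ := TwoF_slot hv hv' hs₂ hs₂' h₂
  set q : ℝ := 1 / (u + v) with hq
  have hq0 : 0 < q := by positivity
  have hqe : q * (u + v) = 1 := by rw [hq]; field_simp
  have g₁ : u * v ^ 2 * q ≤ 2 / 3 * u := by
    have h3 : v ^ 2 * q ≤ 2 / 3 := by
      rw [hq, mul_one_div, div_le_iff₀ huv]
      nlinarith only [hu, hv, hv']
    nlinarith only [hu, h3]
  have g₂ : v * u ^ 2 * q ≤ 2 / 3 * v := by
    have h3 : u ^ 2 * q ≤ 2 / 3 := by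
      rw [hq, mul_one_div, div_le_iff₀ huv]
      nlinarith only [hu, hu', hv]
    nlinarith only [hs₂, h₂, g₁, h3]
  have d₁ : 0 ≤ 1 - c₁ := by nlinarith only [e₁]
  have d₂ : 0 ≤ 1 - c₂ := by nlinarith only [e₂]
  have d₁' : 1 - c₁ ≤ 0.586 * s₁ ^ 2 := by
    have : (1 - c₁) * (1 + c₁) = s₁ ^ 2 := by linarith [e₁]
    linarith only [mul_nonneg d₁ (by linarith : (0 : ℝ) ≤ c₁ - 0.707), d₁, this]
  have d₂' : 1 - c₂ ≤ 0.586 * s₂ ^ 2 := by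
    have : (1 - c₂) * (1 + c₂) = s₂ ^ 2 := by linarith [e₂]
    linarith only [mul_nonneg d₂ (by linarith : (0 : ℝ) ≤ c₂ - 0.707), d₂, this]
  have m₁ : (1 - c₁) * (u * v ^ 2 * q - 0.3635 * u) ≤ 0.178 * u * s₁ ^ 2 := by
    have a1 : (1 - c₁) * (u * v ^ 2 * q - 0.3635 * u) ≤ (1 - c₁) * (0.30317 * u) :=
      mul_le_mul_of_nonneg_left (by linarith) d₁
    have a2 : (1 - c₁) * (0.30317 * u) ≤ 0.586 * s₁ ^ 2 * (0.30317 * u) :=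
      mul_le_mul_of_nonneg_right d₁' (by linarith)
    linarith only [mul_nonneg (sq_nonneg s₁) (by linarith : (0 : ℝ) ≤ u), a1, a2]
  have m₂ : (1 - c₂) * (v * u ^ 2 * q - 0.3635 * v) ≤ 0.178 * v * s₂ ^ 2 := by
    have a1 : (1 - c₂) * (v * u ^ 2 * q - 0.3635 * v) ≤ (1 - c₂) * (0.30317 * v) :=
      mul_le_mul_of_nonneg_left (by linarith) d₂
    have a2 : (1 - c₂) * (0.30317 * v) ≤ 0.586 * s₂ ^ 2 * (0.30317 * v) :=
      mul_le_mul_of_nonneg_right d₂' (by linarith)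
    linarith only [mul_nonneg (sq_nonneg s₂) (by linarith : (0 : ℝ) ≤ v), a1, a2]
  have hF : u * v * (u * c₂ + v * c₁) / (u + v) =
      u * v - (1 - c₁) * (u * v ^ 2 * q) - (1 - c₂) * (v * u ^ 2 * q) := by
    rw [div_eq_mul_one_div, ← hq]
    linear_combination (u * v) * hqe
  rw [hF]
  have hfin : 0 < u * v - 0.3635 * (u + v) + 0.278 * ((1 - u) ^ 2 + (1 - v) ^ 2) := by
    linarith only [mul_nonneg (sub_nonneg.2 hu) (sub_nonneg.2 hv), sq_nonneg (u + v - 1 - 0.2545), hu, hv]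
  linarith only [k₁, k₂, m₁, m₂, hfin]

private theorem TwoF_singe {ρ β : ℝ} (hρ : 1 / 2 ≤ ρ) (hρ' : ρ ≤ 1)
    (hβ' : β ≤ Real.pi / 4) (h : (1 - ρ) ^ 2 ≤ 3 * ρ * β) :
    0.993 * (1 - ρ) ^ 2 ≤ 3 * ρ * Real.sin β := by
  set m : ℝ := (1 - ρ) ^ 2 / (3 * ρ) with hm
  have hρ0 : 0 < 3 * ρ := by linarith
  have hm0 : 0 ≤ m := by positivity
  have hmβ : m ≤ β := by rw [hm, div_le_iff₀ hρ0]; linarith
  have hm1 : m ≤ 1 / 6 := by rw [hm, div_le_iff₀ hρ0]; nlinarith only [hρ, hρ']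
  have hme : 3 * ρ * m = (1 - ρ) ^ 2 := by rw [hm]; field_simp
  have hpi := Real.pi_gt_three
  have h1 : Real.sin m ≤ Real.sin β :=
    Real.sin_le_sin_of_le_of_le_pi_div_two (by linarith) (by linarith) hmβ
  have h2 : 0.993 * m ≤ Real.sin m := by
    rcases hm0.lt_or_eq with h3 | h3
    · have h4 := Real.sin_gt_sub_cube h3
      have h5 : m ^ 3 ≤ 1 / 36 * m := by
        have : m ^ 2 ≤ 1 / 36 := by nlinarith only [hm1, h3]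
        nlinarith only [h3, this]
      linarith
    · rw [← h3]; simp
  nlinarith only [hρ0, hme, h1, h2]

private theorem TwoF_a {n P Q c W S₁ : ℝ} (hn : 0 < n) (hc0 : 0 < c)
    (hc1 : c ≤ 0.3635) {sn : ℝ} (hsc : sn ^ 2 + c ^ 2 = 1)
    (hid : P ^ 2 * sn ^ 2 - Q ^ 2 * c ^ 2 = c ^ 2 * sn ^ 2) (hW1 : n * c ≤ W)
    (hW3 : W ≤ 0.727) (hQ2 : Q ^ 2 ≤ 2 / 9 * S₁) (hS : 0 ≤ S₁) :
    n * P ≤ W + 0.0933 * S₁ := by
  have hcc : c ^ 2 ≤ 0.3635 ^ 2 := pow_le_pow_left₀ hc0.le hc1 2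
  have hss : 0.8678 ≤ sn ^ 2 := by norm_num at hcc ⊢; linarith
  have hQ0 : 0 ≤ Q ^ 2 := sq_nonneg Q
  have hPle : P ≤ c * (1 + 0.577 * Q ^ 2) := by
    have h0 : 0 ≤ c * (1 + 0.577 * Q ^ 2) := by positivity
    refine (abs_le_of_sq_le_sq' ?_ h0).2
    have h5 : P ^ 2 * sn ^ 2 ≤ (c * (1 + 0.577 * Q ^ 2)) ^ 2 * sn ^ 2 := by
      have h6 : P ^ 2 * sn ^ 2 = c ^ 2 * (sn ^ 2 + Q ^ 2) := by linarith
      rw [h6, mul_pow, mul_assoc]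
      apply mul_le_mul_of_nonneg_left _ (sq_nonneg _)
      have h7 : (1 + 0.577 * Q ^ 2) ^ 2 * sn ^ 2 =
          sn ^ 2 + 1.154 * (Q ^ 2 * sn ^ 2) + (0.577 * Q ^ 2) ^ 2 * sn ^ 2 := by
        ring
      rw [h7]
      have h8 : Q ^ 2 * 0.8678 ≤ Q ^ 2 * sn ^ 2 := mul_le_mul_of_nonneg_left hss hQ0
      have h9 : 0 ≤ (0.577 * Q ^ 2) ^ 2 * sn ^ 2 := by positivity
      linarith
    exact le_of_mul_le_mul_right h5 (by linarith)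
  have h5 : n * P ≤ n * (c * (1 + 0.577 * Q ^ 2)) := mul_le_mul_of_nonneg_left hPle hn.le
  have h6 : n * c * (1 + 0.577 * Q ^ 2) ≤ W * (1 + 0.577 * Q ^ 2) :=
    mul_le_mul_of_nonneg_right hW1 (by positivity)
  have h7 : W * (0.577 * Q ^ 2) ≤ 0.727 * (0.577 * Q ^ 2) :=
    mul_le_mul_of_nonneg_right hW3 (by positivity)
  linarith

private theorem TwoF_b {u v c₁ c₂ s₁ s₂ : ℝ} (hu : 1 / 2 ≤ u) (hu' : u ≤ 1)
    (hv : 1 / 2 ≤ v) (hv' : v ≤ 1) (hc₁ : 0.707 ≤ c₁) (hc₂ : 0.707 ≤ c₂)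
    (hs₁ : 0 ≤ s₁) (hs₂ : 0 ≤ s₂) (e₁ : s₁ ^ 2 + c₁ ^ 2 = 1) (e₂ : s₂ ^ 2 + c₂ ^ 2 = 1) :
    u * c₁ + v * c₂ ≤ 2 ∧ 0 ≤ u * s₁ + v * s₂ ∧ 0 < u * c₁ + v * c₂ := by
  have hc₁1 : c₁ ≤ 1 := by nlinarith only [e₁]
  have hc₂1 : c₂ ≤ 1 := by nlinarith only [e₂]
  have h5 : u * c₁ ≤ 1 * 1 := mul_le_mul hu' hc₁1 (by linarith) (by norm_num)
  have h6 : v * c₂ ≤ 1 * 1 := mul_le_mul hv' hc₂1 (by linarith) (by norm_num)
  have h7 : 0 < u * c₁ := mul_pos (by linarith) (by linarith)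
  have h8 : 0 < v * c₂ := mul_pos (by linarith) (by linarith)
  have h9 : 0 ≤ u * s₁ := mul_nonneg (by linarith) hs₁
  have h10 : 0 ≤ v * s₂ := mul_nonneg (by linarith) hs₂
  refine ⟨by linarith, by linarith, by linarith⟩

private theorem TwoF_c {u v c₁ c₂ s₁ s₂ n : ℝ} (hu : 1 / 2 ≤ u)
    (hv : 1 / 2 ≤ v) (hc₁ : √2 / 2 ≤ c₁) (hc₂ : √2 / 2 ≤ c₂)
    (hs₁ : 0 ≤ s₁) (hs₂ : 0 ≤ s₂) (e₁ : s₁ ^ 2 + c₁ ^ 2 = 1) (e₂ : s₂ ^ 2 + c₂ ^ 2 = 1)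
    (hn2 : n ^ 2 = u ^ 2 + v ^ 2 + 2 * (u * v) * (c₁ * c₂ + s₁ * s₂)) :
    n ≤ u + v ∧ 3 * (u * v) ≤ n ^ 2 := by
  have huv : 0 < u * v := by positivity
  constructor
  · refine (abs_le_of_sq_le_sq' ?_ (by linarith)).2
    rw [hn2]
    have h1 : c₁ * c₂ + s₁ * s₂ ≤ 1 := by
      have := sq_nonneg (c₁ - c₂)
      have := sq_nonneg (s₁ - s₂)
      nlinarith only [e₁, e₂, this]
    have h2 := mul_le_mul_of_nonneg_left h1 huv.le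
    linarith only [h2]
  · rw [hn2]
    have h5 : 1 / 2 ≤ c₁ * c₂ := by
      have h6 : √2 / 2 * (√2 / 2) ≤ c₁ * c₂ :=
        mul_le_mul hc₁ hc₂ (by positivity) (le_trans (by positivity) hc₁)
      have h7 : √2 * √2 = 2 := Real.mul_self_sqrt (by norm_num)
      linarith
    have h6 : 0 ≤ s₁ * s₂ := mul_nonneg hs₁ hs₂
    have h7 := mul_le_mul_of_nonneg_left (by linarith : 1 / 2 ≤ c₁ * c₂ + s₁ * s₂) huv.le
    have h8 := sq_nonneg (u - v)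
    linarith only [h7, h8]

private theorem TwoF_d {u v s₁ s₂ n Q : ℝ} (hu : 1 / 2 ≤ u) (hu' : u ≤ 1)
    (hv : 1 / 2 ≤ v) (hv' : v ≤ 1) (hs₁ : 0 ≤ s₁) (hs₂ : 0 ≤ s₂) (hn : 0 < n ^ 2)
    (hnge : 3 * (u * v) ≤ n ^ 2) (hQn : Q * n ^ 2 = u * v * (u * s₂ + v * s₁)) :
    Q ^ 2 ≤ 2 / 9 * (s₁ ^ 2 + s₂ ^ 2) := by
  have huv : 0 < u * v := by positivity
  have hQ0 : 0 ≤ Q := by
    have h5 : 0 ≤ Q * n ^ 2 := by
      rw [hQn]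
      have : 0 ≤ u * s₂ + v * s₁ :=
        add_nonneg (mul_nonneg (by linarith) hs₂) (mul_nonneg (by linarith) hs₁)
      positivity
    exact nonneg_of_mul_nonneg_left h5 hn
  have h5 : Q * (3 * (u * v)) ≤ u * v * (u * s₂ + v * s₁) := by
    rw [← hQn]; exact mul_le_mul_of_nonneg_left hnge hQ0
  have h6 : Q * 3 ≤ u * s₂ + v * s₁ := by
    have : u * v * (Q * 3) ≤ u * v * (u * s₂ + v * s₁) := by linarith
    exact le_of_mul_le_mul_left this huv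
  have h7 : u * s₂ ≤ 1 * s₂ := mul_le_mul_of_nonneg_right hu' hs₂
  have h8 : v * s₁ ≤ 1 * s₁ := mul_le_mul_of_nonneg_right hv' hs₁
  have hQ1 : Q ≤ (s₁ + s₂) / 3 := by linarith
  have h9 : Q ^ 2 ≤ ((s₁ + s₂) / 3) ^ 2 := pow_le_pow_left₀ hQ0 hQ1 2
  linarith only [sq_nonneg (s₁ - s₂), h9]

theorem two_phi_le {X : ℂ} {φ ρ₁ β₁ ρ₂ β₂ : ℝ}
    (h : 4 * X ^ 2 - 4 * (((ρ₁ : ℂ) * exp ((β₁ : ℂ) * I)) * ((ρ₂ : ℂ) * exp ((β₂ : ℂ) * I))) * X +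
      (((ρ₁ : ℂ) * exp ((β₁ : ℂ) * I)) + ((ρ₂ : ℂ) * exp ((β₂ : ℂ) * I))) ^ 2 = 0)
    (hX : X = (‖X‖ : ℂ) * exp (-(2 * φ : ℝ) * I)) (hφ : 0 ≤ φ) (hφ' : φ ≤ Real.pi / 4)
    (hρ₁ : 1 / 2 ≤ ρ₁) (hρ₁' : ρ₁ ≤ 1) (hρ₂ : 1 / 2 ≤ ρ₂) (hρ₂' : ρ₂ ≤ 1)
    (hβ₁ : 0 ≤ β₁) (hβ₁' : β₁ ≤ Real.pi / 4) (hβ₂ : 0 ≤ β₂) (hβ₂' : β₂ ≤ Real.pi / 4)
    (h₁ : (1 - ρ₁) ^ 2 ≤ 3 * ρ₁ * β₁) (h₂ : (1 - ρ₂) ^ 2 ≤ 3 * ρ₂ * β₂) : φ ≤ 3 / 5 := by
  by_contra hcon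
  push Not at hcon
  have k₁ := TwoF_singe hρ₁ hρ₁' hβ₁' h₁
  have k₂ := TwoF_singe hρ₂ hρ₂' hβ₂' h₂
  have hpi := Real.pi_gt_three
  have hpi4 := Real.pi_lt_d4
  -- trigonometric data
  have hsq2 : (0.707 : ℝ) ≤ √2 / 2 ∧ √2 / 2 ≤ (0.7072 : ℝ) := by
    have h1 : (1.414 : ℝ) ≤ √2 := by
      rw [show (1.414 : ℝ) = √(1.414 ^ 2) by rw [Real.sqrt_sq]; norm_num]
      exact Real.sqrt_le_sqrt (by norm_num)
    have h2 : √2 ≤ (1.4144 : ℝ) := by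
      rw [show (1.4144 : ℝ) = √(1.4144 ^ 2) by rw [Real.sqrt_sq]; norm_num]
      exact Real.sqrt_le_sqrt (by norm_num)
    constructor <;> linarith
  have hc (β : ℝ) (hβ : 0 ≤ β) (hβ' : β ≤ Real.pi / 4) : √2 / 2 ≤ Real.cos β := by
    rw [← Real.cos_pi_div_four]
    exact Real.cos_le_cos_of_nonneg_of_le_pi hβ (by linarith) hβ'
  have hsn (β : ℝ) (hβ : 0 ≤ β) (hβ' : β ≤ Real.pi / 4) :
      0 ≤ Real.sin β ∧ Real.sin β ≤ √2 / 2 := by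
    constructor
    · exact Real.sin_nonneg_of_nonneg_of_le_pi hβ (by linarith)
    · rw [← Real.sin_pi_div_four]
      exact Real.sin_le_sin_of_le_of_le_pi_div_two (by linarith) (by linarith) hβ'
  have hc₁ := hc β₁ hβ₁ hβ₁'
  have hc₂ := hc β₂ hβ₂ hβ₂'
  obtain ⟨hs₁, hs₁'⟩ := hsn β₁ hβ₁ hβ₁'
  obtain ⟨hs₂, hs₂'⟩ := hsn β₂ hβ₂ hβ₂'
  have e₁ := Real.sin_sq_add_cos_sq β₁
  have e₂ := Real.sin_sq_add_cos_sq β₂
  set b₁ : ℂ := (ρ₁ : ℂ) * exp ((β₁ : ℂ) * I) with hb₁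
  set b₂ : ℂ := (ρ₂ : ℂ) * exp ((β₂ : ℂ) * I) with hb₂
  have hb₁r : b₁.re = ρ₁ * Real.cos β₁ := by
    rw [hb₁, Complex.re_ofReal_mul, Complex.exp_ofReal_mul_I_re]
  have hb₁i : b₁.im = ρ₁ * Real.sin β₁ := by
    rw [hb₁, Complex.im_ofReal_mul, Complex.exp_ofReal_mul_I_im]
  have hb₂r : b₂.re = ρ₂ * Real.cos β₂ := by
    rw [hb₂, Complex.re_ofReal_mul, Complex.exp_ofReal_mul_I_re]
  have hb₂i : b₂.im = ρ₂ * Real.sin β₂ := by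
    rw [hb₂, Complex.im_ofReal_mul, Complex.exp_ofReal_mul_I_im]
  clear_value b₁ b₂
  set c₁ := Real.cos β₁ with hc₁d
  set c₂ := Real.cos β₂ with hc₂d
  set s₁ := Real.sin β₁ with hs₁d
  set s₂ := Real.sin β₂ with hs₂d
  clear_value c₁ c₂ s₁ s₂
  set s : ℂ := b₁ + b₂ with hs
  have hsre : s.re = ρ₁ * c₁ + ρ₂ * c₂ := by rw [hs, Complex.add_re, hb₁r, hb₂r]
  have hsim : s.im = ρ₁ * s₁ + ρ₂ * s₂ := by rw [hs, Complex.add_im, hb₁i, hb₂i]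
  have hc10 : 0.707 ≤ c₁ := hsq2.1.trans hc₁
  have hc20 : 0.707 ≤ c₂ := hsq2.1.trans hc₂
  obtain ⟨hb1, hb2, hb3⟩ := TwoF_b hρ₁ hρ₁' hρ₂ hρ₂' hc10 hc20 hs₁ hs₂ e₁ e₂
  have hsre0 : 0 < s.re := by rw [hsre]; exact hb3
  have hsim0 : 0 ≤ s.im := by rw [hsim]; exact hb2
  have hs0 : s ≠ 0 := by
    intro h0; rw [h0] at hsre0; simp at hsre0
  have hX0 : X ≠ 0 := by
    intro h0
    rw [h0] at h
    have : s ^ 2 = 0 := by simpa using h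
    exact hs0 (pow_eq_zero_iff (two_ne_zero) |>.1 this)
  have hθ0 : 0 ≤ s.arg := Complex.arg_nonneg_iff.2 hsim0
  have hθ1 : s.arg < Real.pi / 2 := by
    have := (Complex.abs_arg_lt_pi_div_two_iff (z := s)).2 (Or.inl hsre0)
    exact (abs_lt.1 this).2
  have hse : s = (‖s‖ : ℂ) * exp (s.arg * I) := (Complex.norm_mul_exp_arg_mul_I s).symm
  have hsn0 : 0 < ‖s‖ := norm_pos_iff.2 hs0
  have hXn : 0 < ‖X‖ := norm_pos_iff.2 hX0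
  have hC : s.re = ‖s‖ * Real.cos s.arg := by
    conv_lhs => rw [hse]
    rw [Complex.re_ofReal_mul, Complex.exp_ofReal_mul_I_re]
  have hS : s.im = ‖s‖ * Real.sin s.arg := by
    conv_lhs => rw [hse]
    rw [Complex.im_ofReal_mul, Complex.exp_ofReal_mul_I_im]
  set r : ℝ := ‖X‖ / ‖s‖ with hr
  have hr0 : 0 < r := div_pos hXn hsn0
  set A : ℝ := 2 * φ + s.arg with hA
  have hsn' : ((‖s‖ : ℝ) : ℂ) ≠ 0 := by exact_mod_cast hsn0.ne'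
  have hXn' : ((‖X‖ : ℝ) : ℂ) ≠ 0 := by exact_mod_cast hXn.ne'
  have hη : X / s = (r : ℂ) * exp (-(A : ℂ) * I) := by
    have h4 : exp (-(A : ℂ) * I) = exp (-(2 * φ : ℝ) * I) / exp (s.arg * I) := by
      rw [← Complex.exp_sub]
      congr 1
      rw [hA]
      push_cast
      ring
    rw [h4, hr]
    conv_lhs => rw [hX, hse]
    push_cast
    field_simp
  have hη' : s / X = ((1 / r : ℝ) : ℂ) * exp ((A : ℂ) * I) := by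
    have h5 : s / X = (X / s)⁻¹ := (inv_div X s).symm
    rw [h5, hη, mul_inv, ← Complex.exp_neg]
    push_cast
    rw [one_div]
    congr 2
    ring
  have hh : b₁ * b₂ / s = X / s + (s / X) / 4 := by
    have h6 : b₁ * b₂ * X * 4 = 4 * X ^ 2 + s ^ 2 := by linear_combination -h
    field_simp
    linear_combination h6
  have e1 : (exp ((A : ℂ) * I)).re = Real.cos A := by
    rw [Complex.exp_ofReal_mul_I_re]
  have e2 : (exp ((A : ℂ) * I)).im = Real.sin A := by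
    rw [Complex.exp_ofReal_mul_I_im]
  have e3 : (exp (-(A : ℂ) * I)).re = Real.cos A := by
    have : -(A : ℂ) = ((-A : ℝ) : ℂ) := by push_cast; ring
    rw [this, Complex.exp_ofReal_mul_I_re, Real.cos_neg]
  have e4 : (exp (-(A : ℂ) * I)).im = -Real.sin A := by
    have : -(A : ℂ) = ((-A : ℝ) : ℂ) := by push_cast; ring
    rw [this, Complex.exp_ofReal_mul_I_im, Real.sin_neg]
  have hP : (b₁ * b₂ / s).re = (r + 1 / (4 * r)) * Real.cos A := by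
    have h7 : (s / X) / 4 = ((1 / (4 * r) : ℝ) : ℂ) * exp ((A : ℂ) * I) := by
      rw [hη']
      push_cast
      field_simp
    rw [hh, h7, hη, Complex.add_re, Complex.re_ofReal_mul, Complex.re_ofReal_mul, e1, e3]
    ring
  have hQ : (b₁ * b₂ / s).im = (1 / (4 * r) - r) * Real.sin A := by
    have h7 : (s / X) / 4 = ((1 / (4 * r) : ℝ) : ℂ) * exp ((A : ℂ) * I) := by
      rw [hη']
      push_cast
      field_simp
    rw [hh, h7, hη, Complex.add_im, Complex.im_ofReal_mul, Complex.im_ofReal_mul, e2, e4]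
    ring
  -- the norm of s
  have hn2 : ‖s‖ ^ 2 = ρ₁ ^ 2 + ρ₂ ^ 2 + 2 * (ρ₁ * ρ₂) * (c₁ * c₂ + s₁ * s₂) := by
    rw [← Complex.normSq_eq_norm_sq, Complex.normSq_apply, hsre, hsim]
    linear_combination ρ₁ ^ 2 * e₁ + ρ₂ ^ 2 * e₂
  obtain ⟨hnle, hnge⟩ := TwoF_c hρ₁ hρ₂ hc₁ hc₂ hs₁ hs₂ e₁ e₂ hn2
  have hPn : (b₁ * b₂ / s).re * ‖s‖ ^ 2 = ρ₁ * ρ₂ * (ρ₁ * c₂ + ρ₂ * c₁) := by
    have hns : Complex.normSq s = ‖s‖ ^ 2 := Complex.normSq_eq_norm_sq s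
    rw [Complex.div_re, ← add_div, hns, div_mul_cancel₀ _ (by positivity), Complex.mul_re,
      Complex.mul_im, hsre, hsim, hb₁r, hb₁i, hb₂r, hb₂i]
    linear_combination ρ₁ ^ 2 * ρ₂ * c₂ * e₁ + ρ₂ ^ 2 * ρ₁ * c₁ * e₂
  have hQn : (b₁ * b₂ / s).im * ‖s‖ ^ 2 = ρ₁ * ρ₂ * (ρ₁ * s₂ + ρ₂ * s₁) := by
    have hns : Complex.normSq s = ‖s‖ ^ 2 := Complex.normSq_eq_norm_sq s
    rw [Complex.div_im, ← sub_div, hns, div_mul_cancel₀ _ (by positivity), Complex.mul_re,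
      Complex.mul_im, hsre, hsim, hb₁r, hb₁i, hb₂r, hb₂i]
    linear_combination ρ₁ ^ 2 * ρ₂ * s₂ * e₁ + ρ₂ ^ 2 * ρ₁ * s₁ * e₂
  set P := (b₁ * b₂ / s).re with hPd
  set Q := (b₁ * b₂ / s).im with hQd
  have hnpos : 0 < ‖s‖ ^ 2 := by positivity
  have hQ2 := TwoF_d hρ₁ hρ₁' hρ₂ hρ₂' hs₁ hs₂ hnpos hnge hQn
  have hP0 : 0 < P := by
    have h5 : 0 < P * ‖s‖ ^ 2 := by
      rw [hPn]
      have h6 : 0 < ρ₁ * c₂ + ρ₂ * c₁ :=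
        add_pos (mul_pos (by linarith) (by linarith)) (mul_pos (by linarith) (by linarith))
      have h7 : 0 < ρ₁ * ρ₂ := mul_pos (by linarith) (by linarith)
      exact mul_pos h7 h6
    exact (pos_iff_pos_of_mul_pos h5).2 hnpos
  have hc0 : 0 < Real.cos A := by
    rw [hP] at hP0
    exact (pos_iff_pos_of_mul_pos hP0).1 (by positivity)
  have hA2 : A < Real.pi := by rw [hA]; linarith
  have hA0 : 6 / 5 + s.arg < A := by rw [hA]; linarith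
  have hcA : Real.cos A < Real.cos (6 / 5 + s.arg) :=
    Real.cos_lt_cos_of_nonneg_of_le_pi (by linarith) hA2.le hA0
  have hadd := Real.cos_add (6 / 5) s.arg
  rw [hadd] at hcA
  have hcA' : Real.cos A < Real.cos (6 / 5) :=
    Real.cos_lt_cos_of_nonneg_of_le_pi (by norm_num) hA2.le (by linarith)
  obtain ⟨hK, hK'⟩ := TwoF_cos
  have hK2 := TwoF_sin
  have hsc := Real.sin_sq_add_cos_sq A
  have hid : P ^ 2 * Real.sin A ^ 2 - Q ^ 2 * Real.cos A ^ 2 = Real.cos A ^ 2 * Real.sin A ^ 2 := by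
    rw [hP, hQ]
    field_simp
    ring
  set W : ℝ := Real.cos (6 / 5) * s.re - Real.sin (6 / 5) * s.im with hW
  have hW1 : ‖s‖ * Real.cos A ≤ W := by
    rw [hW, hC, hS]
    have := mul_lt_mul_of_pos_left hcA hsn0
    linarith
  have hW2 : W ≤ 0.3635 * (ρ₁ * c₁ + ρ₂ * c₂) - 0.9315 * (ρ₁ * s₁ + ρ₂ * s₂) := by
    rw [hW, ← hsre, ← hsim]
    have h5 := mul_le_mul_of_nonneg_right hK hsre0.le
    have h6 := mul_le_mul_of_nonneg_right hK2 hsim0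
    linarith
  have hW3 : W ≤ 0.727 := by linarith
  have hmain := TwoF_a hsn0 hc0 (hcA'.le.trans hK) hsc hid hW1 hW3 hQ2
    (by positivity)
  have hlow : ρ₁ * ρ₂ * (ρ₁ * c₂ + ρ₂ * c₁) / (ρ₁ + ρ₂) ≤ ‖s‖ * P := by
    rw [div_le_iff₀ (by linarith), ← hPn]
    have h5 : P * ‖s‖ ^ 2 = ‖s‖ * P * ‖s‖ := by ring
    rw [h5]
    exact mul_le_mul_of_nonneg_left hnle (mul_nonneg hsn0.le hP0.le)
  have hfin := TwoF_final hρ₁ hρ₁' hρ₂ hρ₂' hc10 hc20 hs₁ hs₂ (hs₁'.trans hsq2.2)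
    (hs₂'.trans hsq2.2) e₁ e₂ k₁ k₂
  linarith

end Pool.Agent.S3.E
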