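import Pool.Agent.S3.E.Rng
import Pool.Agent.S3.E.Rng9
import Pool.Agent.S3.E.Rng10
import Pool.Agent.S3.E.Rng11
import Pool.Agent.S3.E.TwoF

/-!
# Stage 3, block E: ranges at the inner vertices with two twists and at their neighbours

For the critical point (`τ = 1`):
* `In2 nl nr i`: `i` has two neighbours; for an inner vertex `i` with `a i = 2`:
  `two_k2_ge` (`0.35 ≤ |κ|²`), `two_ro_ge` (`59/100 ≤ |κ|`), `two_ph_ge` (`1/10 ≤ φ`),
  `two_ph_le` (`φ ≤ 3/5`), `two_th_ge` (`1/3 ≤ θ`);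
* `bw_le`: `bw (z i) (z j) ≤ a i`, `bw_pos`;
* `end3_two`: the ranges of an end with three twists next to an inner vertex with two twists;
* `gain3'`: the gain condition or `R ≤ 3π/10`, `1/5 ≤ θ`, at a vertex with three twists.
-/

set_option autoImplicit false

namespace Pool.Agent.S3.E

open Complex

/-- `i` has two neighbours. -/
def In2 {ι : Type*} (nl nr : ι → Option ι) (i : ι) : Prop := ∃ j k, nl i = some j ∧ nr i = some k

namespace Zr

variable {ι : Type*} [Finite ι] {a : ι → ℝ} {nl nr : ι → Option ι} {z : ι → ℂ}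

theorem two_k2_ge (h : Zr a nl nr 1 z) {i : ι} (hi : a i = 2) (hin : In2 nl nr i) :
    0.35 ≤ k2 (z i).re (z i).im := by
  obtain ⟨j, k, h2, h3⟩ := hin
  have h4 := h.quartic i hi
  rw [h2, h3] at h4
  have h5 := two_low' h4 (h.bo_im_nonneg _) (h.bo_im_le _) (h.bo_im_nonneg _) (h.bo_im_le _)
    (by rw [h.norm_bo]; exact h.ro_ge j) (by rw [h.norm_bo]; exact h.ro_ge k)
  rwa [norm_sq] at h5

theorem two_ro_ge (h : Zr a nl nr 1 z) {i : ι} (hi : a i = 2) (hin : In2 nl nr i) :
    59 / 100 ≤ ro 1 z (some i) := by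
  have h5 := h.two_k2_ge hi hin
  rw [ro_one, norm_eq_sqrt]
  apply Real.le_sqrt_of_sq_le
  norm_num at h5 ⊢
  linarith

theorem two_ph_ge (h : Zr a nl nr 1 z) {i : ι} (hi : a i = 2) (hin : In2 nl nr i) :
    1 / 10 ≤ ph (z i).re (z i).im := by
  obtain ⟨j, k, h2, h3⟩ := hin
  have h4 := h.quartic i hi
  rw [h2, h3] at h4
  exact two_phi_low h4 (h.cos_sq_polar i) (h.phpos i).le (h.ph_le i) (h.bo_im_nonneg _)
    (h.bo_im_le _) (h.bo_im_nonneg _) (h.bo_im_le _) (by rw [h.norm_bo]; exact h.ro_ge j)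
    (by rw [h.norm_bo]; exact h.ro_ge k) (by rw [h.norm_bo]; exact h.ro_le_one _)
    (by rw [h.norm_bo]; exact h.ro_le_one _)

theorem two_ph_le (h : Zr a nl nr 1 z) {i : ι} (hi : a i = 2) (hin : In2 nl nr i) :
    ph (z i).re (z i).im ≤ 3 / 5 := by
  obtain ⟨j, k, h2, h3⟩ := hin
  have h4 := h.quartic i hi
  rw [h2, h3, h.bo_eq, h.bo_eq] at h4
  have hj := h.phi_ge j
  have hk := h.phi_ge k
  rw [← norm_eq_sqrt, ← ro_one, ← be_one] at hj hk
  exact two_phi_le h4 (h.cos_sq_polar i) (h.phpos i).le (h.ph_le i) (h.ro_ge j) (h.ro_le_one _)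
    (h.ro_ge k) (h.ro_le_one _) (h.be_nonneg _) (h.be_le _) (h.be_nonneg _) (h.be_le _) hj hk

/-- The types of a neighbour. -/
theorem nb_types (h : Zr a nl nr 1 z) {i j : ι} (hij : nl i = some j ∨ nr i = some j) :
    3 ≤ a j ∨ (a j = 2 ∧ In2 nl nr j) ∨ IsEnd2 a nl nr j i := by
  have hji := h.N.symm i j hij
  rcases h.types j with e | ⟨e, k, l, e1, e2⟩ | ⟨e, k, e1⟩
  · exact Or.inl e
  · exact Or.inr (Or.inl ⟨e, k, l, e1, e2⟩)
  · refine Or.inr (Or.inr ⟨e, ?_⟩)
    rcases e1 with ⟨e1, e2⟩ | ⟨e1, e2⟩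
    · rcases hji with e3 | e3
      · exact Or.inl ⟨e3, e2⟩
      · rw [e2] at e3; simp at e3
    · rcases hji with e3 | e3
      · rw [e1] at e3; simp at e3
      · exact Or.inr ⟨e1, e3⟩

/-- **The angle of an inner vertex with two twists.** -/
theorem two_th_ge (h : Zr a nl nr 1 z) {i : ι} (hi : a i = 2) (hin : In2 nl nr i) :
    1 / 3 ≤ th (z i).re (z i).im := by
  have hb : ∀ j, (nl i = some j ∨ nr i = some j) → be 1 z (some j) ≤ 1471 / 2000 := by
    intro j hj
    rw [be_one]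
    rcases h.nb_types hj with e | ⟨e, e'⟩ | e
    · have := h.ph3_le e
      linarith
    · have := h.two_ph_le e e'
      linarith
    · rw [h.ph_end e.1 e.2, be_one]
      have := h.two_ph_ge hi hin
      have := Real.pi_lt_d4
      linarith
  obtain ⟨j, k, h2, h3⟩ := hin
  have hv := h.vx i
  rw [hi, h2, h3] at hv
  exact hv.two_low_th (h.ro_le_one _) (h.ro_le_one _) (hb j (Or.inl h2)) (hb k (Or.inr h3))

theorem bw_nonneg (h : Zr a nl nr 1 z) {i j : ι} (hij : nl i = some j ∨ nr i = some j) :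
    0 ≤ bw (z i) (z j) := by
  obtain ⟨o, r₁, p₂, r₂, ho, ho', hv⟩ := h.vx_first hij
  exact div_nonneg hv.sl₁.p0 (h.pos i).2.2.le

theorem bw_le (h : Zr a nl nr 1 z) {i j : ι} (hij : nl i = some j ∨ nr i = some j) :
    bw (z i) (z j) ≤ a i := by
  obtain ⟨o, r₁, p₂, r₂, ho, ho', hv⟩ := h.vx_first hij
  have hI := hv.hI
  have hp2 := hv.sl₂.p0
  have h3 := (h.pos i).2.2
  rw [bw, div_le_iff₀ h3]
  linarith

/-- The ranges at an end with three twists next to an inner vertex with two twists. -/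
theorem end3_two (h : Zr a nl nr 1 z) {i j : ι} (hi : a i = 3)
    (hij : nl i = some j ∨ nr i = some j) (he : nl i = none ∨ nr i = none)
    (hj : a j = 2) (hj' : In2 nl nr j) :
    (z i).re ≤ 3 / 10 * Real.pi ∧ 63 / 100 ≤ ‖cos (z i)‖ ∧ (cos (z i)).im ≤ -(11 / 100) ∧
      22 / 100 ≤ Real.tan (th (z i).re (z i).im) ∧ 1 / 5 ≤ th (z i).re (z i).im := by
  obtain ⟨o, r₁, p₂, r₂, ho, ho', hv⟩ := h.vx_first hij
  rw [hi, ho'.2 he] at hv
  obtain ⟨c1, c2, c3, c4, c5⟩ := Vx.end3_two (show Vx 3 (z i).re (z i).im (ro 1 z (some j))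
    (be 1 z (some j)) (qe (z i) (z j)).re r₁ 0 (be 1 z none) p₂ r₂ from hv) (h.two_ro_ge hj hj')
    (by rw [be_one]; exact h.two_ph_ge hj hj') (by rw [be_one]; exact h.two_ph_le hj hj')
  refine ⟨c1, ?_, ?_, c4, c5⟩
  · rw [norm_eq_sqrt]
    exact Real.le_sqrt_of_sq_le c2
  · rw [GeoC_cos_im]
    linarith

theorem ph_le_th (h : Zr a nl nr 1 z) (i : ι) :
    ph (z i).re (z i).im ≤ th (z i).re (z i).im := by
  obtain ⟨h1, h2, h3⟩ := h.pos i
  have e := tan_ph_eq h1 h2 h3
  have t0 := h.th_pos_i i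
  have t1 := th_lt h1 h2 h3
  have p1 := h.ph_le i
  have p0 := h.phpos i
  have hpi := Real.pi_pos
  by_contra hc
  rw [not_le] at hc
  have k := Real.tan_lt_tan_of_nonneg_of_lt_pi_div_two t0.le (by linarith) hc
  have tt0 : 0 < Real.tan (th (z i).re (z i).im) := Real.tan_pos_of_pos_of_lt_pi_div_two t0 t1
  have : Real.tanh (xx (z i).re (z i).im) < 1 := Real.tanh_lt_one _
  nlinarith

/-- The second slot of a vertex with three twists and a small angle. -/
theorem slot3 (h : Zr a nl nr 1 z) {i k : ι} (hi : a i = 3) (hik : nl i = some k ∨ nr i = some k)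
    (hθ : th (z i).re (z i).im < 7 / 25) :
    be 1 z (some k) ≤ Real.pi / 4 - ph (z i).re (z i).im / 2 := by
  have q2 := h.ph_le_th i
  have hpi := Real.pi_gt_three
  rcases h.nb_types hik with e | ⟨e, e'⟩ | e
  · rw [be_one]
    have q1 := h.ph3_le e
    linarith
  · rw [be_one]
    have q1 := h.two_ph_le e e'
    linarith
  · rw [be_one, h.ph_end e.1 e.2, be_one]

/-- **The gain on the verticals of a vertex with three twists.** -/
theorem gain3' (h : Zr a nl nr 1 z) {i j : ι} (hi : a i = 3) (hij : nl i = some j ∨ nr i = some j)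
    (hj : 3 ≤ a j ∨ In2 nl nr j) :
    bw (z i) (z j) / 3 * (Real.pi / 20) ≤ 14 / 25 * Real.tan (th (z i).re (z i).im) ∨
      ((z i).re ≤ 3 / 10 * Real.pi ∧ 1 / 5 ≤ th (z i).re (z i).im) := by
  obtain ⟨h1, h2, h3⟩ := h.pos i
  have hpi := Real.pi_pos
  have ht2 := th_lt h1 h2 h3
  obtain ⟨o, r₁, p₂, r₂, ho, ho', hv⟩ := h.vx_first hij
  rw [hi] at hv
  have hI := hv.hI
  have hb : bw (z i) (z j) * (z i).im = (qe (z i) (z j)).re := by
    rw [bw, div_mul_cancel₀ _ h3.ne']
  have hb3 : bw (z i) (z j) ≤ 3 := hi ▸ h.bw_le hij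
  by_cases hθ : 7 / 25 ≤ th (z i).re (z i).im
  · left
    have k := gain_num₁ hθ ht2
    have : bw (z i) (z j) / 3 ≤ 1 := by linarith
    nlinarith
  · push Not at hθ
    have hj2 : 3 ≤ a j ∨ (a j = 2 ∧ In2 nl nr j) := by
      rcases h.nb_types hij with e | e | e
      · exact Or.inl e
      · exact Or.inr e
      · rcases hj with e1 | ⟨l, k, e1, e2⟩
        · exact Or.inl e1
        · exfalso
          rcases e.2 with ⟨e3, e4⟩ | ⟨e3, e4⟩
          · rw [e4] at e2; simp at e2
          · rw [e3] at e1; simp at e1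
    rcases hj2 with hj3 | ⟨hj2, hj2'⟩
    · -- the neighbour has at least three twists
      left
      have hbe : be 1 z (some j) ≤ 47 / 100 := by
        rw [be_one]; linarith [h.ph3_le hj3]
      cases o with
      | none =>
        exfalso
        have k := Vx.end3_low (show Vx 3 (z i).re (z i).im (ro 1 z (some j)) (be 1 z (some j))
          (qe (z i) (z j)).re r₁ 0 (be 1 z none) p₂ r₂ from hv) (h.ro3_ge hj3) hbe (h.ph3_or hj3)
        linarith
      | some k =>
        have h4 := h.slot3 hi ho hθ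
        have k1 := hv.inner3_low (h.ro3_ge hj3) (h.ro_le_one _) hbe (h.ro_ge k) (h.ro_le_one _) h4
        have k2 := hv.inner3_b (h.ro_le_one _) (h.ro_ge k) (h.ro_le_one _) h4 hθ.le
        have k3 := gain_num₂ k1 ht2
        have k4 : bw (z i) (z j) ≤ 8 / 3 := by
          by_contra hc
          push Not at hc
          have := mul_lt_mul_of_pos_right hc h3
          linarith
        have : bw (z i) (z j) / 3 ≤ 8 / 9 := by linarith
        nlinarith
    · -- the neighbour has two twists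
      have hbe : be 1 z (some j) ≤ 3 / 5 := by rw [be_one]; exact h.two_ph_le hj2 hj2'
      cases o with
      | none =>
        right
        obtain ⟨c1, _, _, _, c5⟩ := h.end3_two hi hij (ho'.1 rfl) hj2 hj2'
        exact ⟨c1, c5⟩
      | some k =>
        left
        have h4 := h.slot3 hi ho hθ
        have k1 := hv.inner3_low2 (h.two_ro_ge hj2 hj2') (h.ro_le_one _) hbe (h.ro_ge k)
          (h.ro_le_one _) h4
        have k2 := hv.inner3_b2 (h.ro_le_one _) (h.ro_ge k) (h.ro_le_one _) h4 hθ.le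
        have k3 := gain_num₃ k1 ht2
        have k4 : bw (z i) (z j) ≤ 2615 / 1000 := by
          by_contra hc
          push Not at hc
          have := mul_lt_mul_of_pos_right hc h3
          linarith
        have : bw (z i) (z j) / 3 ≤ 872 / 1000 := by linarith
        nlinarith

end Zr

end Pool.Agent.S3.E
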