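import Pool.Agent.S3.Cl.Rng2c
import Pool.Agent.S3.Cl.Rng3i
import Pool.Agent.S3.E.J3
import Pool.Agent.S3.E.RngB
import Pool.Agent.S3.FlatT

/-!
# Stage 3, block E: the joint range condition of an inner vertex with two twists, final form

`h3 : ∀ i, 3 ≤ a i → a i = 3 ∨ 4 ≤ a i`.

* `norm2_ge`: `13/20 ≤ ‖cos (z i)‖` for every inner vertex with two twists;
* `joint3`: `i` an inner vertex with two twists, `j` an open neighbour; `k = tan² θ_j`, `t = tan² θ_i`: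
  `k ≤ κ` or `t ≤ t₀` for the ten pairs `κ | t₀` = `1/10 | .94`, `1/5 | .85`, `1/4 | .81`,
  `3/10 | .775`, `7/20 | .745`, `2/5 | .715`, `9/20 | .69`, `1/2 | .67`, `11/20 | .65`,
  `3/5 | .635`.
-/

set_option autoImplicit false

namespace Pool.Agent.S3.E

open Complex

namespace J3

/-- The lower bound of `K = |cos z|²`. -/
theorem K_ge {A₁ B₁ A₂ B₂ K S c r K₀ : ℝ} (hK : 0 < K) (hS : 1 - c * K ≤ S)
    (hmod : ((A₁ + A₂) ^ 2 + (B₁ + B₂) ^ 2) * S ≤ K * (4 * K + ((A₁ - A₂) ^ 2 + (B₁ - B₂) ^ 2)))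
    (hB₁ : 0 ≤ B₁) (hBA₁ : B₁ ≤ A₁) (hB₂ : 0 ≤ B₂) (hBA₂ : B₂ ≤ A₂) (hr : 0 ≤ r)
    (hr1 : r ^ 2 ≤ A₁ ^ 2 + B₁ ^ 2) (hr2 : r ^ 2 ≤ A₂ ^ 2 + B₂ ^ 2) (hc : 0 ≤ c)
    (hc1 : (c + 1) * K₀ ≤ 1)
    (hn : 4 * K₀ ^ 2 ≤ r ^ 2 * (2 * (1 - c * K₀ - K₀) + 7 / 5 * (1 - c * K₀ + K₀))) :
    K₀ ≤ K := by
  by_contra hlt
  push Not at hlt
  have hA₁ : 0 ≤ A₁ := hB₁.trans hBA₁
  have hA₂ : 0 ≤ A₂ := hB₂.trans hBA₂
  -- `P = Re (b₁ conj b₂) ≥ 7/10 r²`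
  have hP : 7 / 10 * r ^ 2 ≤ A₁ * A₂ + B₁ * B₂ := by
    have h0 : 0 ≤ A₁ * A₂ + B₁ * B₂ := by positivity
    apply le_of_sq_le_sq _ h0
    -- `(A₁² + B₁²)(A₂² + B₂²) ≤ 2 P²`
    have h1 : (A₁ ^ 2 + B₁ ^ 2) * (A₂ ^ 2 + B₂ ^ 2) ≤ 2 * (A₁ * A₂ + B₁ * B₂) ^ 2 := by
      have e : 2 * (A₁ * A₂ + B₁ * B₂) ^ 2 - (A₁ ^ 2 + B₁ ^ 2) * (A₂ ^ 2 + B₂ ^ 2) =
          (A₁ * A₂ + B₁ * B₂ - A₁ * B₂ + A₂ * B₁) * (A₁ * A₂ + B₁ * B₂ + A₁ * B₂ - A₂ * B₁) := by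
        ring
      have h2 : 0 ≤ A₁ * A₂ + B₁ * B₂ - A₁ * B₂ + A₂ * B₁ := by
        have : 0 ≤ A₁ * (A₂ - B₂) := mul_nonneg hA₁ (by linarith only [hBA₂])
        have : 0 ≤ B₁ * B₂ := by positivity
        have : 0 ≤ A₂ * B₁ := by positivity
        nlinarith only [hB₁, hBA₁, hB₂, hBA₂]
      have h3 : 0 ≤ A₁ * A₂ + B₁ * B₂ + A₁ * B₂ - A₂ * B₁ := by
        have : 0 ≤ A₂ * (A₁ - B₁) := mul_nonneg hA₂ (by linarith only [hBA₁])
        have : 0 ≤ B₁ * B₂ := by positivity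
        have : 0 ≤ A₁ * B₂ := by positivity
        nlinarith only [hB₁, hBA₁, hB₂, hBA₂]
      have h4 := mul_nonneg h2 h3
      linarith only [h4]
    have h2 : r ^ 2 * r ^ 2 ≤ (A₁ ^ 2 + B₁ ^ 2) * (A₂ ^ 2 + B₂ ^ 2) :=
      mul_le_mul hr1 hr2 (sq_nonneg _) (by positivity)
    linarith only [sq_nonneg (r ^ 2), h1, h2]
  obtain ⟨P, hPe⟩ : ∃ P, P = A₁ * A₂ + B₁ * B₂ := ⟨_, rfl⟩
  obtain ⟨Q, hQe⟩ : ∃ Q, Q = A₁ ^ 2 + B₁ ^ 2 + A₂ ^ 2 + B₂ ^ 2 := ⟨_, rfl⟩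
  have e1 : (A₁ + A₂) ^ 2 + (B₁ + B₂) ^ 2 = Q + 2 * P := by rw [hPe, hQe]; ring
  have e2 : (A₁ - A₂) ^ 2 + (B₁ - B₂) ^ 2 = Q - 2 * P := by rw [hPe, hQe]; ring
  rw [e1, e2] at hmod
  rw [← hPe] at hP
  have hQ : 2 * r ^ 2 ≤ Q := by rw [hQe]; linarith only [hr1, hr2]
  have hr20 : 0 ≤ r ^ 2 := sq_nonneg r
  have hcK : (c + 1) * K ≤ (c + 1) * K₀ := mul_le_mul_of_nonneg_left hlt.le (by linarith only [hc])
  have hQ0 : 0 ≤ Q + 2 * P := by linarith only [hP, hQ, hr20]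
  have h1 : (Q + 2 * P) * (1 - c * K) ≤ K * (4 * K + (Q - 2 * P)) :=
    (mul_le_mul_of_nonneg_left hS hQ0).trans hmod
  have h2 : Q * (1 - c * K - K) + 2 * P * (1 - c * K + K) ≤ 4 * K ^ 2 := by linarith only [h1]
  have h3 : 2 * r ^ 2 * (1 - c * K - K) ≤ Q * (1 - c * K - K) :=
    mul_le_mul_of_nonneg_right hQ (by linarith only [hc1, hcK])
  have h4 : 2 * (7 / 10 * r ^ 2) * (1 - c * K + K) ≤ 2 * P * (1 - c * K + K) :=
    mul_le_mul_of_nonneg_right (by linarith only [hP]) (by linarith only [hK, hc1, hcK])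
  have h5 : K ^ 2 < K₀ ^ 2 := pow_lt_pow_left₀ hlt hK.le two_ne_zero
  -- monotone in `K`
  have h6 : r ^ 2 * (2 * (1 - c * K₀ - K₀) + 7 / 5 * (1 - c * K₀ + K₀)) ≤
      r ^ 2 * (2 * (1 - c * K - K) + 7 / 5 * (1 - c * K + K)) := by
    apply mul_le_mul_of_nonneg_left _ hr20
    have : c * K ≤ c * K₀ := mul_le_mul_of_nonneg_left hlt.le hc
    linarith only [hcK, this]
  linarith only [hn, h2, h3, h4, h5, h6]

end J3

namespace Zr

variable {ι : Type*} [Finite ι] {a : ι → ℝ} {nl nr : ι → Option ι} {z : ι → ℂ}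

omit [Finite ι] in
theorem norm_conj_sq (z : ι → ℂ) (x : ι) :
    ((starRingEnd ℂ) (cos (z x))).re ^ 2 + ((starRingEnd ℂ) (cos (z x))).im ^ 2 =
      ‖cos (z x)‖ ^ 2 := by
  rw [← Complex.normSq_eq_norm_sq, Complex.normSq_apply, conj_re, conj_im]
  ring

omit [Finite ι] in
theorem conj_im_nonneg (h : Zr a nl nr 1 z) (k : ι) :
    0 ≤ ((starRingEnd ℂ) (cos (z k))).im := by
  obtain ⟨r1, r2, r3⟩ := h.pos k
  rw [conj_cos_im]
  have i1 : 0 < Real.sin (z k).re := Real.sin_pos_of_pos_of_lt_pi r1 (by linarith only [r1, r2])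
  have i2 : 0 < Real.sinh (z k).im := Real.sinh_pos_iff.2 r3
  positivity

/-- `cos 2θ ≤ 4/5` at an inner vertex with two twists. -/
theorem two_cos_le (h : Zr a nl nr 1 z) {i : ι} (hi : a i = 2) (hin : In2 nl nr i) :
    Real.cos (2 * th (z i).re (z i).im) ≤ 79 / 100 := by
  have h1 := h.two_th_ge hi hin
  have h2 : th (z i).re (z i).im ≤ Real.pi / 4 := h.th_le i (Or.inr (by
    obtain ⟨j, k, h1, h2⟩ := hin
    exact ⟨j, k, h1, h2⟩))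
  have h3 : Real.cos (2 * th (z i).re (z i).im) ≤ Real.cos (2 / 3) :=
    Real.cos_le_cos_of_nonneg_of_le_pi (by norm_num) (by linarith only [h1, h2]) (by linarith only [h1])
  have h4 : Real.cos (2 / 3 : ℝ) ≤ 79 / 100 := by
    have h5 := Real.cos_sq (1 / 3 : ℝ)
    have h6 : Real.sin (1 / 3 : ℝ) ≥ 1 / 3 - (1 / 3) ^ 3 / 6 := (Real.sin_gt_sub_cube (by norm_num)
      ).le
    have h7 := Real.sin_sq_add_cos_sq (1 / 3 : ℝ)
    have h8 : (2 : ℝ) * (1 / 3) = 2 / 3 := by norm_num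
    rw [h8] at h5
    have h9 : (1 / 3 - (1 / 3) ^ 3 / 6 : ℝ) ^ 2 ≤ Real.sin (1 / 3) ^ 2 :=
      pow_le_pow_left₀ (by norm_num) h6 2
    norm_num at h9
    linarith only [h5, h7, h9]
  linarith only [h3, h4]

/-- One step for the lower bound. -/
theorem two_k_step (h : Zr a nl nr 1 z) {i j k : ι} (hi : a i = 2)
    (h2 : nl i = some j) (h3 : nr i = some k) {r K₀ : ℝ} (hr : 0 ≤ r) (hj : r ≤ ‖cos (z j)‖)
    (hk : r ≤ ‖cos (z k)‖) (hK₀ : (79 / 100 + 1) * K₀ ≤ 1)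
    (hn : 4 * K₀ ^ 2 ≤ r ^ 2 * (2 * (1 - 79 / 100 * K₀ - K₀) + 7 / 5 * (1 - 79 / 100 * K₀ + K₀))) :
    K₀ ≤ k2 (z i).re (z i).im := by
  obtain ⟨p1, p2, p3⟩ := h.pos i
  have hK := k2_pos (I := (z i).im) p1 p2
  have hmod := J3.mod_le p1 p2 (h.quartic' hi (Or.inl ⟨h2, h3⟩))
  have hc := h.two_cos_le hi ⟨j, k, h2, h3⟩
  have hc1 : Real.cos (2 * th (z i).re (z i).im) * k2 (z i).re (z i).im =
      1 - s2 (z i).re (z i).im := by
    rw [cos_two_th p1 p2 p3]; field_simp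
  refine J3.K_ge (c := 79 / 100) hK ?_ hmod (h.conj_im_nonneg j) (h.kappa_im_le j)
    (h.conj_im_nonneg k) (h.kappa_im_le k) hr ?_ ?_ (by norm_num) hK₀ hn
  · have := mul_le_mul_of_nonneg_right hc hK.le
    linarith only [hc1, this]
  · rw [norm_conj_sq]; exact pow_le_pow_left₀ hr hj 2
  · rw [norm_conj_sq]; exact pow_le_pow_left₀ hr hk 2

/-- First lower bound of `|cos z|` at the neighbours of an inner vertex with two twists. -/
theorem nb59 (h : Zr a nl nr 1 z) (h3 : ∀ i, 3 ≤ a i → a i = 3 ∨ 4 ≤ a i) {i j : ι}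
    (hi : a i = 2) (hin : In2 nl nr i) (hij : nl i = some j ∨ nr i = some j)
    (hj : 3 ≤ a j ∨ (a j = 2 ∧ In2 nl nr j)) : 59 / 100 ≤ ‖cos (z j)‖ := by
  have hji := h.N.symm i j hij
  rcases hj with hj | ⟨hj, hj'⟩
  · rcases h3 j hj with e | e
    · rcases hl : nl j with _ | x
      · exact (by norm_num : (59 : ℝ) / 100 ≤ 63 / 100).trans
          (h.end3_two e hji (Or.inl hl) hi hin).2.1
      · rcases hr : nr j with _ | y
        · exact (by norm_num : (59 : ℝ) / 100 ≤ 63 / 100).trans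
            (h.end3_two e hji (Or.inr hr) hi hin).2.1
        · exact (by norm_num : (59 : ℝ) / 100 ≤ 63 / 100).trans (h.norm3i_ge e ⟨x, y, hl, hr⟩)
    · exact (by norm_num : (59 : ℝ) / 100 ≤ 7 / 10).trans (h.norm4_ge e)
  · have := h.two_ro_ge hj hj'
    rwa [ro_one] at this

/-- The first step: `63 / 100 ≤ |cos z|` at every inner vertex with two twists. -/
theorem norm2_ge63 (h : Zr a nl nr 1 z) (h3 : ∀ i, 3 ≤ a i → a i = 3 ∨ 4 ≤ a i) {i : ι}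
    (hi : a i = 2) (hin : In2 nl nr i) : 63 / 100 ≤ ‖cos (z i)‖ := by
  obtain ⟨j, k, hl, hr⟩ := hin
  have hin : In2 nl nr i := ⟨j, k, hl, hr⟩
  rcases h.nb_types (Or.inl hl) with e | e | e
  · rcases h.nb_types (Or.inr hr) with e' | e' | e'
    · have := h.two_k_step (r := 59 / 100) (K₀ := (63 / 100) ^ 2) hi hl hr (by norm_num)
        (h.nb59 h3 hi hin (Or.inl hl) (Or.inl e)) (h.nb59 h3 hi hin (Or.inr hr) (Or.inl e'))
        (by norm_num) (by norm_num)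
      rw [← norm_cos_sq] at this
      exact le_of_sq_le_sq this (norm_nonneg _)
    · have := h.two_k_step (r := 59 / 100) (K₀ := (63 / 100) ^ 2) hi hl hr (by norm_num)
        (h.nb59 h3 hi hin (Or.inl hl) (Or.inl e)) (h.nb59 h3 hi hin (Or.inr hr) (Or.inr e'))
        (by norm_num) (by norm_num)
      rw [← norm_cos_sq] at this
      exact le_of_sq_le_sq this (norm_nonneg _)
    · have := Cl.norm_ge_end2 h e' hi hin
      linarith only [this]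
  · rcases h.nb_types (Or.inr hr) with e' | e' | e'
    · have := h.two_k_step (r := 59 / 100) (K₀ := (63 / 100) ^ 2) hi hl hr (by norm_num)
        (h.nb59 h3 hi hin (Or.inl hl) (Or.inr e)) (h.nb59 h3 hi hin (Or.inr hr) (Or.inl e'))
        (by norm_num) (by norm_num)
      rw [← norm_cos_sq] at this
      exact le_of_sq_le_sq this (norm_nonneg _)
    · have := h.two_k_step (r := 59 / 100) (K₀ := (63 / 100) ^ 2) hi hl hr (by norm_num)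
        (h.nb59 h3 hi hin (Or.inl hl) (Or.inr e)) (h.nb59 h3 hi hin (Or.inr hr) (Or.inr e'))
        (by norm_num) (by norm_num)
      rw [← norm_cos_sq] at this
      exact le_of_sq_le_sq this (norm_nonneg _)
    · have := Cl.norm_ge_end2 h e' hi hin
      linarith only [this]
  · have := Cl.norm_ge_end2 h e hi hin
    linarith only [this]

/-- `63 / 100 ≤ |cos z|` at the open neighbours of an inner vertex with two twists. -/
theorem nb63 (h : Zr a nl nr 1 z) (h3 : ∀ i, 3 ≤ a i → a i = 3 ∨ 4 ≤ a i) {i j : ι}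
    (hi : a i = 2) (hin : In2 nl nr i) (hij : nl i = some j ∨ nr i = some j)
    (hj : 3 ≤ a j ∨ (a j = 2 ∧ In2 nl nr j)) : 63 / 100 ≤ ‖cos (z j)‖ := by
  have hji := h.N.symm i j hij
  rcases hj with hj | ⟨hj, hj'⟩
  · rcases h3 j hj with e | e
    · rcases hl : nl j with _ | x
      · exact (h.end3_two e hji (Or.inl hl) hi hin).2.1
      · rcases hr : nr j with _ | y
        · exact (h.end3_two e hji (Or.inr hr) hi hin).2.1
        · exact h.norm3i_ge e ⟨x, y, hl, hr⟩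
    · exact (by norm_num : (63 : ℝ) / 100 ≤ 7 / 10).trans (h.norm4_ge e)
  · exact h.norm2_ge63 h3 hj hj'

/-- `13 / 20 ≤ |cos z|` at every inner vertex with two twists. -/
theorem norm2_ge (h : Zr a nl nr 1 z) (h3 : ∀ i, 3 ≤ a i → a i = 3 ∨ 4 ≤ a i) {i : ι}
    (hi : a i = 2) (hin : In2 nl nr i) : 13 / 20 ≤ ‖cos (z i)‖ := by
  obtain ⟨j, k, hl, hr⟩ := hin
  have hin : In2 nl nr i := ⟨j, k, hl, hr⟩
  have key : (3 ≤ a j ∨ (a j = 2 ∧ In2 nl nr j)) → (3 ≤ a k ∨ (a k = 2 ∧ In2 nl nr k)) →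
      13 / 20 ≤ ‖cos (z i)‖ := by
    intro e e'
    have := h.two_k_step (r := 63 / 100) (K₀ := (13 / 20) ^ 2) hi hl hr (by norm_num)
      (h.nb63 h3 hi hin (Or.inl hl) e) (h.nb63 h3 hi hin (Or.inr hr) e')
      (by norm_num) (by norm_num)
    rw [← norm_cos_sq] at this
    exact le_of_sq_le_sq this (norm_nonneg _)
  rcases h.nb_types (Or.inl hl) with e | e | e
  · rcases h.nb_types (Or.inr hr) with e' | e' | e'
    · exact key (Or.inl e) (Or.inl e')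
    · exact key (Or.inl e) (Or.inr e')
    · have := Cl.norm_ge_end2 h e' hi hin
      linarith only [this]
  · rcases h.nb_types (Or.inr hr) with e' | e' | e'
    · exact key (Or.inr e) (Or.inl e')
    · exact key (Or.inr e) (Or.inr e')
    · have := Cl.norm_ge_end2 h e' hi hin
      linarith only [this]
  · have := Cl.norm_ge_end2 h e hi hin
    linarith only [this]

/-- **The joint range condition.** -/
theorem joint3 (h : Zr a nl nr 1 z) (h3 : ∀ i, 3 ≤ a i → a i = 3 ∨ 4 ≤ a i) {i j k : ι}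
    (hi : a i = 2) (hij : (nl i = some j ∧ nr i = some k) ∨ (nl i = some k ∧ nr i = some j))
    (hj : 3 ≤ a j ∨ (a j = 2 ∧ In2 nl nr j)) {κ t₀ : ℝ}
    (hκ : (κ = 1 / 10 ∧ t₀ = 94 / 100) ∨ (κ = 1 / 5 ∧ t₀ = 85 / 100) ∨
      (κ = 1 / 4 ∧ t₀ = 81 / 100) ∨ (κ = 3 / 10 ∧ t₀ = 775 / 1000) ∨
      (κ = 7 / 20 ∧ t₀ = 745 / 1000) ∨ (κ = 2 / 5 ∧ t₀ = 715 / 1000) ∨
      (κ = 9 / 20 ∧ t₀ = 69 / 100) ∨ (κ = 1 / 2 ∧ t₀ = 67 / 100) ∨
      (κ = 11 / 20 ∧ t₀ = 65 / 100) ∨ (κ = 3 / 5 ∧ t₀ = 635 / 1000)) :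
    Real.tan (th (z j).re (z j).im) ^ 2 ≤ κ ∨ Real.tan (th (z i).re (z i).im) ^ 2 ≤ t₀ := by
  have hin : In2 nl nr i := by
    rcases hij with ⟨h1, h2⟩ | ⟨h1, h2⟩
    · exact ⟨_, _, h1, h2⟩
    · exact ⟨_, _, h1, h2⟩
  have hj1 : nl i = some j ∨ nr i = some j := by
    rcases hij with ⟨h1, h2⟩ | ⟨h1, h2⟩
    · exact Or.inl h1
    · exact Or.inr h2
  have hk1 : nl i = some k ∨ nr i = some k := by
    rcases hij with ⟨h1, h2⟩ | ⟨h1, h2⟩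
    · exact Or.inr h2
    · exact Or.inl h1
  have hJ := h.nb63 h3 hi hin hj1 hj
  -- open `k`
  have key : (3 ≤ a k ∨ (a k = 2 ∧ In2 nl nr k)) →
      Real.tan (th (z j).re (z j).im) ^ 2 ≤ κ ∨ Real.tan (th (z i).re (z i).im) ^ 2 ≤ t₀ := by
    intro hk
    have hK := h.nb63 h3 hi hin hk1 hk
    obtain ⟨a1, a2, a3, a4, a5⟩ := h.joint3a hi hij hJ hK
    rcases hj with hj | ⟨hj, hj'⟩
    · have h5 := tan_sq_le_of (h.th_pos_i j).le (h.th3_le hj)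
      rcases hκ with ⟨e, e'⟩ | ⟨e, e'⟩ | ⟨e, e'⟩ | ⟨e, e'⟩ | ⟨e, e'⟩ | ⟨e, e'⟩ | ⟨e, e'⟩ |
        ⟨e, e'⟩ | ⟨e, e'⟩ | ⟨e, e'⟩ <;> rw [e, e']
      · exact a1
      · exact a2
      · exact a3
      · exact a4
      · exact a5
      all_goals exact Or.inl (by linarith only [h5])
    · obtain ⟨b1, b2, b3, b4, b5⟩ := h.joint3b hi hij (h.norm2_ge h3 hj hj') hK
      rcases hκ with ⟨e, e'⟩ | ⟨e, e'⟩ | ⟨e, e'⟩ | ⟨e, e'⟩ | ⟨e, e'⟩ | ⟨e, e'⟩ | ⟨e, e'⟩ |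
        ⟨e, e'⟩ | ⟨e, e'⟩ | ⟨e, e'⟩ <;> rw [e, e']
      · exact a1
      · exact a2
      · exact a3
      · exact a4
      · exact a5
      · exact b1
      · exact b2
      · exact b3
      · exact b4
      · exact b5
  rcases h.nb_types hk1 with e | e | e
  · exact key (Or.inl e)
  · exact key (Or.inr e)
  · have h5 := h.tan_th_end2 e hi hin
    right
    rcases hκ with ⟨e, e'⟩ | ⟨e, e'⟩ | ⟨e, e'⟩ | ⟨e, e'⟩ | ⟨e, e'⟩ | ⟨e, e'⟩ | ⟨e, e'⟩ |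
      ⟨e, e'⟩ | ⟨e, e'⟩ | ⟨e, e'⟩ <;> rw [e'] <;> linarith only [h5]

end Zr

end Pool.Agent.S3.E
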