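import Pool.Agent.S3.E.J4B
import Pool.Agent.S3.E.J3I

/-!
# Stage 3, block E: `Re z ≤ 3π/10` at an inner vertex with two twists and open neighbours

`two_re_le`.
-/

set_option autoImplicit false

namespace Pool.Agent.S3.E

open Complex

namespace Zr

variable {ι : Type*} [Finite ι] {a : ι → ℝ} {nl nr : ι → Option ι} {z : ι → ℂ}

omit [Finite ι] in
theorem conj_re_ph (h : Zr a nl nr 1 z) (j : ι) :
    ((starRingEnd ℂ) (cos (z j))).re = ‖cos (z j)‖ * Real.cos (ph (z j).re (z j).im) := by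
  rw [conj_re]
  conv_lhs => rw [cos_polar (h.pos j).1 (h.pos j).2.1]
  rw [re_ofReal_mul, ← ofReal_neg, exp_ofReal_mul_I_re, Real.cos_neg]

omit [Finite ι] in
theorem conj_im_ph (h : Zr a nl nr 1 z) (j : ι) :
    ((starRingEnd ℂ) (cos (z j))).im = ‖cos (z j)‖ * Real.sin (ph (z j).re (z j).im) := by
  rw [conj_im]
  conv_lhs => rw [cos_polar (h.pos j).1 (h.pos j).2.1]
  rw [im_ofReal_mul, ← ofReal_neg, exp_ofReal_mul_I_im, Real.sin_neg]
  ring

omit [Finite ι] in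
/-- `-Im cos z ≥ 11/100` if `θ ≥ 6/25` and `63/100 ≤ |cos z| ≤ 7/10`. -/
theorem y_ge11 (h : Zr a nl nr 1 z) {j : ι} (hθ : 6 / 25 ≤ th (z j).re (z j).im)
    (h1 : 63 / 100 ≤ ‖cos (z j)‖) (h2 : ‖cos (z j)‖ ≤ 7 / 10) :
    11 / 100 ≤ ((starRingEnd ℂ) (cos (z j))).im := by
  obtain ⟨q1, q2, q3⟩ := h.pos j
  have hB0 := h.conj_im_nonneg j
  have hcR : 0 < Real.cos (z j).re := Real.cos_pos_of_mem_Ioo ⟨by linarith [Real.pi_pos], q2⟩
  have hch := Real.cosh_sq (z j).im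
  have hsc := Real.sin_sq_add_cos_sq (z j).re
  have ht1 := tan_th_sq q1 q2 q3
  have hlt := th_lt q1 q2 q3
  have hc : 0 < Real.cos (th (z j).re (z j).im) :=
    Real.cos_pos_of_mem_Ioo ⟨by linarith [Real.pi_pos], hlt⟩
  have hB : ((starRingEnd ℂ) (cos (z j))).im ^ 2 =
      (1 - Real.cos (z j).re ^ 2) * Real.sinh (z j).im ^ 2 := by
    rw [conj_cos_im, mul_pow, ← hsc]; ring
  have hK : Real.cos (z j).re ^ 2 + Real.sinh (z j).im ^ 2 = ‖cos (z j)‖ ^ 2 := by
    rw [norm_cos_sq, GeoX_k2, hch]; ring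
  have hk1 : (63 / 100) ^ 2 ≤ ‖cos (z j)‖ ^ 2 := pow_le_pow_left₀ (by norm_num) h1 2
  have hk2 : ‖cos (z j)‖ ^ 2 ≤ (7 / 10) ^ 2 := pow_le_pow_left₀ (norm_nonneg _) h2 2
  obtain ⟨g, hg⟩ : ∃ g, g = Real.cos (z j).re ^ 2 := ⟨_, rfl⟩
  obtain ⟨w, hw⟩ : ∃ w, w = Real.sinh (z j).im ^ 2 := ⟨_, rfl⟩
  obtain ⟨K, hKe⟩ : ∃ K, K = ‖cos (z j)‖ ^ 2 := ⟨_, rfl⟩
  rw [← hg, ← hw] at hB
  rw [← hg, ← hw, ← hKe] at hK
  rw [← hg, ← hw] at ht1
  rw [← hKe] at hk1 hk2
  norm_num at hk1 hk2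
  -- `w ≥ sin² (6/25) K ≥ (56/1000) K`
  have hs : 237 / 1000 ≤ Real.sin (th (z j).re (z j).im) := by
    have s1 : Real.sin (6 / 25) ≤ Real.sin (th (z j).re (z j).im) :=
      Real.sin_le_sin_of_le_of_le_pi_div_two (by linarith [Real.pi_gt_three]) hlt.le hθ
    have s2 := (Real.sin_gt_sub_cube (x := 6 / 25) (by norm_num)).le
    norm_num at s2
    linarith
  have hs2 : (237 / 1000) ^ 2 ≤ Real.sin (th (z j).re (z j).im) ^ 2 :=
    pow_le_pow_left₀ (by norm_num) hs 2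
  have hsc' := Real.sin_sq_add_cos_sq (th (z j).re (z j).im)
  have ht2 : Real.tan (th (z j).re (z j).im) ^ 2 * Real.cos (th (z j).re (z j).im) ^ 2 =
      Real.sin (th (z j).re (z j).im) ^ 2 := by
    rw [← mul_pow, Real.tan_mul_cos hc.ne']
  have hg0 : 0 < g := by rw [hg]; positivity
  have hw1 : 56 / 1000 * K ≤ w := by
    have e1 : w * Real.cos (th (z j).re (z j).im) ^ 2 =
        g * Real.sin (th (z j).re (z j).im) ^ 2 := by
      rw [← ht1, ← ht2]; ring
    have e2 : w = K * Real.sin (th (z j).re (z j).im) ^ 2 := by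
      have : w * (Real.sin (th (z j).re (z j).im) ^ 2 + Real.cos (th (z j).re (z j).im) ^ 2) =
          (g + w) * Real.sin (th (z j).re (z j).im) ^ 2 := by linear_combination e1
      rw [hsc', hK] at this
      linarith
    rw [e2]
    have : (56 : ℝ) / 1000 ≤ Real.sin (th (z j).re (z j).im) ^ 2 := by
      norm_num at hs2 ⊢
      linarith
    nlinarith only [hk1, this]
  apply le_of_sq_le_sq _ hB0
  rw [hB]
  have e3 : 1 - g = 1 - K + w := by linarith
  rw [e3]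
  have hK1 : 0 ≤ (K - 3969 / 10000) * (49 / 100 - K) := mul_nonneg (by linarith) (by linarith)
  nlinarith only [hk1, hk2, hw1]

omit [Finite ι] in
/-- `-Im cos z ≥ 1/50` if `7/10 ≤ |cos z|` and `Re cos z ≤ 3/4`. -/
theorem y_ge02 {ρ φ : ℝ} (h1 : 7 / 10 ≤ ρ) (h2 : ρ ≤ 1) (hφ : 0 ≤ φ) (hφ1 : φ ≤ 7 / 10)
    (h3 : (1 - ρ) ^ 2 ≤ 3 * ρ * φ) (h4 : ρ * Real.cos φ ≤ 3 / 4) :
    2 / 100 ≤ ρ * Real.sin φ := by
  by_contra hc
  push Not at hc
  have hs0 : 0 ≤ Real.sin φ := Real.sin_nonneg_of_nonneg_of_le_pi hφ (by linarith [Real.pi_gt_three])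
  have hc0 : 0 ≤ Real.cos φ := Real.cos_nonneg_of_mem_Icc
    ⟨by linarith [Real.pi_gt_three], by linarith [Real.pi_gt_three]⟩
  have hsc := Real.sin_sq_add_cos_sq φ
  have k1 : (ρ * Real.sin φ) ^ 2 ≤ (2 / 100) ^ 2 := pow_le_pow_left₀ (by positivity) hc.le 2
  have k2 : (ρ * Real.cos φ) ^ 2 ≤ (3 / 4) ^ 2 := pow_le_pow_left₀ (by positivity) h4 2
  have k3 : ρ ^ 2 = (ρ * Real.sin φ) ^ 2 + (ρ * Real.cos φ) ^ 2 := by
    linear_combination (-ρ ^ 2) * hsc
  have k4 : ρ ≤ 7503 / 10000 := by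
    apply le_of_sq_le_sq _ (by norm_num)
    rw [k3]
    norm_num at k1 k2 ⊢
    linarith
  have k5 : (2497 / 10000) ^ 2 ≤ (1 - ρ) ^ 2 := pow_le_pow_left₀ (by norm_num) (by linarith) 2
  have k6 : 2078 / 100000 ≤ ρ * φ := by
    norm_num at k5
    linarith
  have k7 : φ ≤ 1 / 10 := by
    by_contra h5
    push Not at h5
    have s1 : Real.sin (1 / 10) ≤ Real.sin φ :=
      Real.sin_le_sin_of_le_of_le_pi_div_two (by linarith [Real.pi_gt_three])
        (by linarith [Real.pi_gt_three]) h5.le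
    have s2 := (Real.sin_gt_sub_cube (x := 1 / 10) (by norm_num)).le
    norm_num at s2
    nlinarith only [h1, hc, s1, s2]
  have k8 := Cl.n_s3 hφ
  have k9 : ρ * φ * (1 - φ ^ 2 / 6) ≤ ρ * Real.sin φ := by
    have := mul_le_mul_of_nonneg_left k8 (show 0 ≤ ρ by linarith)
    linarith
  have k10 : φ ^ 2 ≤ 1 / 100 := by nlinarith only [hφ, k7]
  nlinarith only [hc, k6, k9, k10]

/-- The slot of an open neighbour of an inner vertex with two twists. -/
theorem sl4 (h : Zr a nl nr 1 z) (h3 : ∀ i, 3 ≤ a i → a i = 3 ∨ 4 ≤ a i) {i j : ι}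
    (hi : a i = 2) (hin : In2 nl nr i) (hij : nl i = some j ∨ nr i = some j)
    (hj : 3 ≤ a j ∨ (a j = 2 ∧ In2 nl nr j)) :
    J3.Sl4 ((starRingEnd ℂ) (cos (z j))).re ((starRingEnd ℂ) (cos (z j))).im := by
  have hji := h.N.symm i j hij
  have hρ := h.nb63 h3 hi hin hij hj
  have hρ1 := h.norm_le j
  have hph0 := (h.phpos j).le
  have hph : ph (z j).re (z j).im ≤ 3 / 5 := by
    rcases hj with hj | ⟨hj, hj'⟩
    · linarith [h.ph3_le hj]
    · exact h.two_ph_le hj hj'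
  have hn := norm_conj_sq z j
  have hA := h.conj_re_ph j
  have hB := h.conj_im_ph j
  have hcos : 0 ≤ Real.cos (ph (z j).re (z j).im) := Real.cos_nonneg_of_mem_Icc
    ⟨by linarith [Real.pi_gt_three], by linarith [Real.pi_gt_three]⟩
  refine ⟨h.conj_im_nonneg j, ?_, ?_, ?_, ?_⟩
  · rw [hA, hB]
    have := Cl.n_tan_le (R := ph (z j).re (z j).im) (R0 := 3 / 5) (t := 6842 / 10000) hph0 hph
      (by norm_num) (by norm_num) (by norm_num)
    have := mul_le_mul_of_nonneg_left this (norm_nonneg (cos (z j)))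
    linarith
  · rw [hA]
    have := Real.cos_le_one (ph (z j).re (z j).im)
    nlinarith only [hρ1, hcos, this]
  · rw [hn]; exact pow_le_pow_left₀ (by norm_num) hρ 2
  · rcases le_or_gt (7 / 10) ‖cos (z j)‖ with h7 | h7
    · right
      refine ⟨by rw [hn]; exact pow_le_pow_left₀ (by norm_num) h7 2, fun hle => ?_⟩
      have hg := h.phi_ge j
      rw [← norm_eq_sqrt] at hg
      rw [hA] at hle
      rw [hB]
      exact y_ge02 h7 hρ1 hph0 (by linarith) hg hle
    · left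
      rcases hj with hj | ⟨hj, hj'⟩
      · rcases h3 j hj with e | e
        · by_cases he : nl j = none ∨ nr j = none
          · have := (h.end3_two e hji he hi hin).2.2.1
            rw [conj_im]
            linarith
          · push Not at he
            obtain ⟨x, hx⟩ := Option.ne_none_iff_exists'.1 he.1
            obtain ⟨y, hy⟩ := Option.ne_none_iff_exists'.1 he.2
            apply h.y_ge11 _ hρ h7.le
            by_contra hθ
            push Not at hθ
            obtain ⟨o, r₁, p₂, r₂, ho, ho', hv⟩ := h.vx_first hji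
            rw [e] at hv
            cases o with
            | none =>
              rcases ho'.1 rfl with e1 | e1
              · rw [hx] at e1; simp at e1
              · rw [hy] at e1; simp at e1
            | some k =>
              have h4 := h.slot3 e ho (by linarith)
              have k1 := hv.inner3_low2 (h.two_ro_ge hi hin) (h.ro_le_one _)
                (by rw [be_one]; exact h.two_ph_le hi hin) (h.ro_ge k) (h.ro_le_one _) h4
              linarith
        · exact absurd (h.norm4_ge e) (not_le.2 h7)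
      · exact h.y_ge11 (by linarith [h.two_th_ge hj hj']) hρ h7.le

/-- **`Re z ≤ 3π/10` at an inner vertex with two twists and open neighbours.** -/
theorem two_re_le (h : Zr a nl nr 1 z) (h3 : ∀ i, 3 ≤ a i → a i = 3 ∨ 4 ≤ a i) {i j k : ι}
    (hi : a i = 2) (hl : nl i = some j) (hr : nr i = some k)
    (hj : 3 ≤ a j ∨ (a j = 2 ∧ In2 nl nr j)) (hk : 3 ≤ a k ∨ (a k = 2 ∧ In2 nl nr k)) :
    (z i).re ≤ 3 / 10 * Real.pi := by
  have hin : In2 nl nr i := ⟨j, k, hl, hr⟩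
  have S1 := h.sl4 h3 hi hin (Or.inl hl) hj
  have S2 := h.sl4 h3 hi hin (Or.inr hr) hk
  obtain ⟨p1, p2, p3⟩ := h.pos i
  have hY : ∀ {x y : ι}, (nl i = some x ∧ nr i = some y) ∨ (nl i = some y ∧ nr i = some x) →
      J3.Sl4 ((starRingEnd ℂ) (cos (z x))).re ((starRingEnd ℂ) (cos (z x))).im →
      J3.Sl4 ((starRingEnd ℂ) (cos (z y))).re ((starRingEnd ℂ) (cos (z y))).im →
      J3.Hyp (z i) ((starRingEnd ℂ) (cos (z x))) ((starRingEnd ℂ) (cos (z y))) := by
    intro x y hxy T1 T2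
    exact ⟨p1, p2, p3, h.th_le i (Or.inr ⟨j, k, hl, hr⟩), h.k2_le i, h.quartic' hi hxy,
      h.conj_im_nonneg x, h.kappa_im_le x, T1.A1, h.conj_im_nonneg y, h.kappa_im_le y, T2.ρ, T2.A1⟩
  have key : -(30901 / 100000) ≤ k2 (z i).re (z i).im - s2 (z i).re (z i).im := by
    rcases le_total ((starRingEnd ℂ) (cos (z j))).re ((starRingEnd ℂ) (cos (z k))).re with e | e
    · exact J3.rle_of_le (hY (Or.inl ⟨hl, hr⟩) S1 S2) S1 S2 e
    · exact J3.rle_of_le (hY (Or.inr ⟨hl, hr⟩) S2 S1) S2 S1 e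
  have e1 : k2 (z i).re (z i).im - s2 (z i).re (z i).im = Real.cos (2 * (z i).re) := by
    unfold k2 s2 gg; ring
  rw [e1] at key
  by_contra hc
  push Not at hc
  have h5 : Real.cos (2 * (z i).re) < Real.cos (2 * (3 / 10 * Real.pi)) :=
    Real.cos_lt_cos_of_nonneg_of_le_pi (by linarith [Real.pi_pos]) (by linarith) (by linarith)
  have h6 : Real.cos (2 * (3 / 10 * Real.pi)) = -Real.cos (2 * (Real.pi / 5)) := by
    rw [← Real.cos_pi_sub]; congr 1; ring
  have h7 := Real.cos_pi_div_five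
  have h8 : (2236 / 1000 : ℝ) ≤ √5 := Real.le_sqrt_of_sq_le (by norm_num)
  have h9 := Real.sq_sqrt (show (0 : ℝ) ≤ 5 by norm_num)
  rw [h6, Real.cos_two_mul (Real.pi / 5), h7] at h5
  have h10 : (223606 / 100000 : ℝ) ≤ √5 := Real.le_sqrt_of_sq_le (by norm_num)
  linarith only [key, h5, h9, h10]

end Zr

end Pool.Agent.S3.E
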