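import Pool.Agent.S3.E.RngB
import Pool.Agent.S3.E.Rng12

/-!
# Stage 3, block E: `|cos z|` at the open neighbours of an inner vertex with two twists

* `norm4_ge_c`: `4 ≤ a j → 7/10 ≤ |cos z_j|`;
* `norm3_two`: `a j = 3` (end or inner) next to an inner vertex with two twists:
  `63/100 ≤ |cos z_j|`;
* `norm_open_two`: both together;
* `gain33`: the gain at a vertex with three twists towards a neighbour with at least three twists
  (no condition on the other neighbour).
-/

set_option autoImplicit false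

namespace Pool.Agent.S3.E

open Complex

namespace Zr

variable {ι : Type*} [Finite ι] {a : ι → ℝ} {nl nr : ι → Option ι} {z : ι → ℂ}

theorem norm4_ge_c (h : Zr a nl nr 1 z) {j : ι} (hj : 4 ≤ a j) : 7 / 10 ≤ ‖cos (z j)‖ := by
  obtain ⟨h1, h2, h3⟩ := h.pos j
  have k := h.aR_lt_i j
  have hpi := Real.pi_pos
  have hR : (z j).re < Real.pi / 4 := by nlinarith
  have h4 : Real.cos (Real.pi / 4) ≤ Real.cos (z j).re :=
    Real.cos_le_cos_of_nonneg_of_le_pi h1.le (by linarith) hR.le
  rw [Real.cos_pi_div_four] at h4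
  have h5 : (14 : ℝ) / 10 ≤ √2 := Real.le_sqrt_of_sq_le (by norm_num)
  have h6 : 7 / 10 ≤ Real.cos (z j).re := by linarith
  rw [norm_eq_sqrt]
  apply Real.le_sqrt_of_sq_le
  rw [GeoX_k2]
  have h7 := Real.one_le_cosh (z j).im
  nlinarith

/-- A vertex `j` with three twists next to an inner vertex `i` with two twists. -/
theorem norm3_two (h : Zr a nl nr 1 z) {i j : ι} (hi : a i = 2) (hin : In2 nl nr i)
    (hij : nl i = some j ∨ nr i = some j) (hj : a j = 3) : 63 / 100 ≤ ‖cos (z j)‖ := by
  have hji := h.N.symm i j hij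
  obtain ⟨o, r₁, p₂, r₂, ho, ho', hv⟩ := h.vx_first hji
  rw [hj] at hv
  cases o with
  | none => exact (h.end3_two hj hji (ho'.1 rfl) hi hin).2.1
  | some k =>
    have k1 := hv.inner3_k2 (h.two_ro_ge hi hin) (by rw [be_one]; exact h.two_ph_le hi hin)
      (h.ro_ge k)
    rw [norm_eq_sqrt]
    exact Real.le_sqrt_of_sq_le k1

/-- The open neighbours with at least three twists of an inner vertex with two twists. -/
theorem norm_open_two (h : Zr a nl nr 1 z) {i j : ι} (hi : a i = 2) (hin : In2 nl nr i)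
    (hij : nl i = some j ∨ nr i = some j) (hj : a j = 3 ∨ 4 ≤ a j) : 63 / 100 ≤ ‖cos (z j)‖ := by
  rcases hj with hj | hj
  · exact h.norm3_two hi hin hij hj
  · have := h.norm4_ge_c hj
    linarith

/-- **The gain on the verticals of a vertex with three twists** towards a neighbour with at least
three twists. -/
theorem gain33 (h : Zr a nl nr 1 z) {i j : ι} (hi : a i = 3) (hij : nl i = some j ∨ nr i = some j)
    (hj : 3 ≤ a j) :
    bw (z i) (z j) / 3 * (Real.pi / 20) ≤ 14 / 25 * Real.tan (th (z i).re (z i).im) := by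
  obtain ⟨h1, h2, h3⟩ := h.pos i
  have hpi := Real.pi_pos
  have ht2 := th_lt h1 h2 h3
  obtain ⟨o, r₁, p₂, r₂, ho, ho', hv⟩ := h.vx_first hij
  rw [hi] at hv
  have hI := hv.hI
  have hb : bw (z i) (z j) * (z i).im = (qe (z i) (z j)).re := by
    rw [bw, div_mul_cancel₀ _ h3.ne']
  have hb3 : bw (z i) (z j) ≤ 3 := hi ▸ h.bw_le hij
  by_cases hθ : 7 / 25 ≤ th (z i).re (z i).im
  · have k := gain_num₁ hθ ht2
    have : bw (z i) (z j) / 3 ≤ 1 := by linarith
    nlinarith
  · push Not at hθ
    have hbe : be 1 z (some j) ≤ 47 / 100 := by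
      rw [be_one]; linarith [h.ph3_le hj]
    cases o with
    | none =>
      exfalso
      have k := Vx.end3_low (show Vx 3 (z i).re (z i).im (ro 1 z (some j)) (be 1 z (some j))
        (qe (z i) (z j)).re r₁ 0 (be 1 z none) p₂ r₂ from hv) (h.ro3_ge hj) hbe (h.ph3_or hj)
      linarith
    | some k =>
      have h4 := h.slot3 hi ho hθ
      have k1 := hv.inner3_low (h.ro3_ge hj) (h.ro_le_one _) hbe (h.ro_ge k) (h.ro_le_one _) h4
      have k2 := hv.inner3_b (h.ro_le_one _) (h.ro_ge k) (h.ro_le_one _) h4 hθ.le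
      have k3 := gain_num₂ k1 ht2
      have k4 : bw (z i) (z j) ≤ 8 / 3 := by
        by_contra hc
        push Not at hc
        have := mul_lt_mul_of_pos_right hc h3
        linarith
      have : bw (z i) (z j) / 3 ≤ 8 / 9 := by linarith
      nlinarith

end Zr

end Pool.Agent.S3.E
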