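import Pool.Agent.S3.E.GeoC
import Pool.Agent.S3.E.SlC

/-!
# Stage 3, block E: diagonal dominance for `a ≥ 3`

`T_j = tanh q_j` lies in the closed first quadrant, so `Re T_j + Im T_j ≥ ‖T_j‖`; by `proj_cs`
`‖a κσ - i (T₁ + T₂)‖ ≥ (a (c sin 2R - g sinh 2I)/2 + N)/√2`, `N = ‖T₁‖ + ‖T₂‖`.
It is enough that `|σ|² N < (a (c sin 2R - g sinh 2I)/2 + N)/√2`.

If `|σ|² ≤ 1/√2` this is `pos_cs`.  Let `|σ|² = (c - g)/2 > 1/√2`, i.e. `c - g > √2`; `c + g ≤ 2`.
`r₁ + r₂ = π - a R ≤ π - 3R`; `‖T_j‖² = (cosh 2p - cos 2r)/(cosh 2p + cos 2r)`, which is `≤ 1` if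
`cos 2r ≥ 0` and `≤ (1 + u)/(1 - u)` if `cos 2r ≥ -u`, `0 ≤ u < 1`.

(i) `R ≥ π/4` (`g = -y ≤ 0`): `r_j ≤ π/4`, so `N ≤ 2`.  `R ≤ π/3`, so `y ≤ 1/2`, `√(1 - y²) ≥ 0.866`.
 `(c + y - √2) ≤ (3/(2√2)) (c √(1 - y²) + y sinh 2I)` because `c ≤ 2 + y ≤ 5/2`:
 `c + y - 1.414 < 0.918 c` iff `0.082 c + y < 1.414`, true.
(ii) `R < π/4`, `0 < g`: `√2 + g < c ≤ 2 - g`, so `g < 0.293`, `(|σ|² - 1/√2) ≤ 1 - g - 0.7071`.
 `g ≤ 0.15`: `2R ≥ arccos 0.15 ≥ 1.42`, `r_j ≤ π - 3R ≤ 1.012`, `cos 2r_j ≥ -0.44`, `N ≤ 3.21`,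
 left side `≤ 0.2929 * 3.21 < 0.95`; right side `≥ 1.0606 (0.9886 c - 0.15 √(c² - 1)) ≥ 1.3`.
 `0.15 ≤ g ≤ 0.293`: `2R ≥ 1.27`, `r_j ≤ 1.24`, `cos 2r_j ≥ -0.79`, `N ≤ 5.9`,
 left side `≤ 0.143 * 5.9 < 0.85`; right side `≥ 1.0606 (0.956 c - 0.293 √(c² - 1)) ≥ 1.1`
 (`c ≥ √2` in both; these functions of `c` increase).
-/

namespace Pool.Agent.S3.E

open Real

/-- `‖tanh q‖ ≤ B` if `cos 2r ≥ -u` and `(1 + u)/(1 - u) ≤ B²`. -/
private theorem D3_norm {p r u B : ℝ} (h : 0 < cosh (2 * p) + cos (2 * r)) (hu : 0 ≤ u)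
    (hu1 : u < 1) (hr : -u ≤ cos (2 * r)) (hB : 0 ≤ B) (hB2 : 1 + u ≤ B ^ 2 * (1 - u)) :
    ‖Complex.tanh ((p : ℂ) + (r : ℂ) * Complex.I)‖ ≤ B := by
  have h1 := norm_tanh_sq p r h
  have hc : 1 ≤ cosh (2 * p) := one_le_cosh _
  have h2 : ‖Complex.tanh ((p : ℂ) + (r : ℂ) * Complex.I)‖ ^ 2 ≤ B ^ 2 := by
    rw [h1, div_le_iff₀ h]
    have h3 : (cosh (2 * p) - cos (2 * r)) * (1 - u) ≤
        (1 + u) * (cosh (2 * p) + cos (2 * r)) := by nlinarith
    have h4 : (1 + u) * (cosh (2 * p) + cos (2 * r)) ≤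
        B ^ 2 * (1 - u) * (cosh (2 * p) + cos (2 * r)) :=
      mul_le_mul_of_nonneg_right hB2 h.le
    have h5 : 0 < 1 - u := by linarith
    have h6 : (cosh (2 * p) - cos (2 * r)) * (1 - u) ≤
        (B ^ 2 * (cosh (2 * p) + cos (2 * r))) * (1 - u) := by linarith
    exact le_of_mul_le_mul_right h6 h5
  exact le_of_sq_le_sq h2 hB

private theorem D3_S {S g s t : ℝ} (hS : 0 < S) (hS2 : S ^ 2 = 1 - g ^ 2) (hg : g ^ 2 ≤ t)
    (hs : s ^ 2 ≤ 1 - t) : s ≤ S := by
  apply le_of_sq_le_sq _ hS.le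
  rw [hS2]
  linarith

/-- the numerical inequality -/
private theorem D3_num {c g S Sh N : ℝ} (hN : 0 ≤ N) (hS : 0 < S) (hS2 : S ^ 2 = 1 - g ^ 2)
    (hSh : 0 ≤ Sh) (hSh2 : Sh ^ 2 = c ^ 2 - 1) (hcg : c + g ≤ 2) (hX : 0 < c * S - g * Sh)
    (hc : 1 ≤ c)
    (hi : g ≤ 0 → -(1 / 2) ≤ g ∧ N ≤ 2)
    (hii : 0 < g → g ≤ 0.15 → N ≤ 3.4642)
    (hiii : 0.15 < g → g ≤ 0.293 → N ≤ 6.18) :
    (c - g) / 2 * N * √2 < 3 / 2 * (c * S - g * Sh) + N := by
  have hq0 : (0 : ℝ) ≤ √2 := sqrt_nonneg 2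
  have hq2 : √2 ^ 2 = (2 : ℝ) := sq_sqrt (by norm_num)
  have hq1 : (1.4142 : ℝ) < √2 := by
    rw [lt_sqrt (by norm_num)]
    norm_num
  have hq3 : √2 < (1.4143 : ℝ) := by
    rw [sqrt_lt' (by norm_num)]
    norm_num
  set q : ℝ := √2 with hq
  by_cases hs : (c - g) * q ≤ 2
  · have : (c - g) / 2 * N * q ≤ N := by
      have h1 : (c - g) * q * N ≤ 2 * N := mul_le_mul_of_nonneg_right hs hN
      linarith
    linarith
  · push Not at hs
    have hcgq : q < c - g := by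
      by_contra hcon
      push Not at hcon
      have : (c - g) * q ≤ q * q := mul_le_mul_of_nonneg_right hcon hq0
      nlinarith
    have hgoal : ((c - g) * q - 2) * N < 3 * (c * S - g * Sh) →
        (c - g) / 2 * N * q < 3 / 2 * (c * S - g * Sh) + N := by
      intro h
      linarith
    apply hgoal
    have hk0 : 0 < (c - g) * q - 2 := by linarith
    rcases le_or_gt g 0 with hg | hg
    · obtain ⟨hg1, hN2⟩ := hi hg
      have hS1 : 0.866 ≤ S := by
        have h0 : (-g) ^ 2 ≤ (1 / 2) ^ 2 := pow_le_pow_left₀ (by linarith) (by linarith) 2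
        rw [neg_sq] at h0
        exact D3_S (t := (1 / 2) ^ 2) hS hS2 h0 (by norm_num)
      have hX1 : 0.866 * c ≤ c * S - g * Sh := by
        have h1 : c * 0.866 ≤ c * S := mul_le_mul_of_nonneg_left hS1 (by linarith)
        have h2 : 0 ≤ -g * Sh := mul_nonneg (by linarith) hSh
        linarith
      have h3 : ((c - g) * q - 2) * N ≤ ((c - g) * q - 2) * 2 :=
        mul_le_mul_of_nonneg_left hN2 hk0.le
      have h4 : (c - g) * q ≤ (c - g) * 1.4143 := mul_le_mul_of_nonneg_left hq3.le (by linarith)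
      have hc2 : c ≤ 5 / 2 := by linarith
      linarith
    · have hg2 : g ≤ 0.293 := by linarith
      have hc2 : c ≤ 2 := by linarith
      have hSh1 : Sh ≤ 0.8661 * c := by
        apply le_of_sq_le_sq _ (by positivity)
        rw [hSh2]
        nlinarith
      have hc1 : 1.4142 < c := by linarith
      have hX1 : c * (S - 0.8661 * g) ≤ c * S - g * Sh := by
        have h1 : g * Sh ≤ g * (0.8661 * c) := mul_le_mul_of_nonneg_left hSh1 hg.le
        linarith
      have h4 : (c - g) * q ≤ (2 - 2 * g) * 1.4143 := by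
        have h5 : (c - g) * q ≤ (c - g) * 1.4143 :=
          mul_le_mul_of_nonneg_left hq3.le (by linarith)
        linarith
      rcases le_or_gt g 0.15 with hg3 | hg3
      · have hN2 := hii hg hg3
        have hS1 : 0.9886 ≤ S :=
          D3_S (t := 0.15 ^ 2) hS hS2 (pow_le_pow_left₀ hg.le hg3 2) (by norm_num)
        have h6 : 1.4142 * (0.9886 - 0.8661 * 0.15) ≤ c * (S - 0.8661 * g) := by
          apply mul_le_mul hc1.le (by linarith) (by norm_num) (by linarith)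
        have h3 : ((c - g) * q - 2) * N ≤ ((c - g) * q - 2) * 3.4642 :=
          mul_le_mul_of_nonneg_left hN2 hk0.le
        linarith
      · have hN2 := hiii hg3 hg2
        have hS1 : 0.956 ≤ S :=
          D3_S (t := 0.293 ^ 2) hS hS2 (pow_le_pow_left₀ hg.le hg2 2) (by norm_num)
        have h6 : 1.4142 * (0.956 - 0.8661 * 0.293) ≤ c * (S - 0.8661 * g) := by
          apply mul_le_mul hc1.le (by linarith) (by norm_num) (by linarith)
        have h3 : ((c - g) * q - 2) * N ≤ ((c - g) * q - 2) * 6.18 :=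
          mul_le_mul_of_nonneg_left hN2 hk0.le
        linarith

theorem Vx.dom3 {a R I ρ₁ β₁ p₁ r₁ ρ₂ β₂ p₂ r₂ : ℝ} (h : Vx a R I ρ₁ β₁ p₁ r₁ ρ₂ β₂ p₂ r₂)
    (ha : 3 ≤ a) (hk : k2 R I ≤ 1) {z : ℂ} (hz : z.re = R) (hz' : z.im = I)
    (h₁ : 0 < cosh (2 * p₁) + cos (2 * r₁)) (h₂ : 0 < cosh (2 * p₂) + cos (2 * r₂)) :
    s2 R I * (‖Complex.tanh ((p₁ : ℂ) + (r₁ : ℂ) * Complex.I)‖ +
        ‖Complex.tanh ((p₂ : ℂ) + (r₂ : ℂ) * Complex.I)‖) <
      ‖(a : ℂ) * (Complex.cos z * Complex.sin z) -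
        Complex.I * (Complex.tanh ((p₁ : ℂ) + (r₁ : ℂ) * Complex.I) +
          Complex.tanh ((p₂ : ℂ) + (r₂ : ℂ) * Complex.I))‖ := by
  have hR0 := h.R0
  have hR1 := h.R1
  have hI0 := h.I0
  have hr1 := h.sl₁.r0
  have hr2 := h.sl₂.r0
  have hp3 : (3.1415 : ℝ) < π := pi_gt_d4
  have hp4 : π < (3.1416 : ℝ) := pi_lt_d4
  have h3R : 3 * R ≤ a * R := mul_le_mul_of_nonneg_right ha hR0.le
  have hrr : r₁ + r₂ ≤ π - 3 * R := by linarith [h.hR]
  have hq1 := tanh_quadrant h.sl₁.p0 hr1 h.sl₁.r1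
  have hq2 := tanh_quadrant h.sl₂.p0 hr2 h.sl₂.r1
  set T₁ : ℂ := Complex.tanh ((p₁ : ℂ) + (r₁ : ℂ) * Complex.I) with hT₁
  set T₂ : ℂ := Complex.tanh ((p₂ : ℂ) + (r₂ : ℂ) * Complex.I) with hT₂
  have hn1 : ‖T₁‖ ≤ T₁.re + T₁.im := by
    have := Complex.norm_le_abs_re_add_abs_im T₁
    rwa [abs_of_nonneg hq1.1, abs_of_nonneg hq1.2] at this
  have hn2 : ‖T₂‖ ≤ T₂.re + T₂.im := by
    have := Complex.norm_le_abs_re_add_abs_im T₂
    rwa [abs_of_nonneg hq2.1, abs_of_nonneg hq2.2] at this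
  have hproj := proj_cs z (T₁ + T₂) a
  rw [hz, hz', Complex.add_re, Complex.add_im] at hproj
  refine lt_of_lt_of_le ?_ hproj
  rw [lt_div_iff₀ (by positivity)]
  have hX := pos_cs hR0 hR1 hI0 hk
  have hcg : cc I + gg R ≤ 2 := by
    unfold k2 at hk
    linarith
  have hmain : (cc I - gg R) / 2 * (‖T₁‖ + ‖T₂‖) * √2 <
      3 / 2 * (cc I * sin (2 * R) - gg R * sinh (2 * I)) + (‖T₁‖ + ‖T₂‖) := by
    apply D3_num (by positivity) (sin_two_pos hR0 hR1) (sin_two_sq R) (sinh_two_pos hI0).le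
      (sinh_two_sq I) hcg hX (one_le_cc I)
    · intro hg
      have hR4 : π / 4 ≤ R := by
        by_contra hcon
        push Not at hcon
        have : 0 < gg R := by
          unfold gg
          exact cos_pos_of_mem_Ioo ⟨by linarith, by linarith⟩
        linarith
      refine ⟨?_, ?_⟩
      · have h5 : cos (2 * π / 3) ≤ cos (2 * R) :=
          cos_le_cos_of_nonneg_of_le_pi (by linarith) (by linarith) (by linarith)
        have h6 : cos (2 * π / 3) = -(1 / 2) := by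
          have : 2 * π / 3 = π - π / 3 := by ring
          rw [this, cos_pi_sub, cos_pi_div_three]
        unfold gg
        linarith
      · have hb1 : ‖T₁‖ ≤ 1 := by
          apply D3_norm (u := 0) h₁ le_rfl (by norm_num) _ (by norm_num) (by norm_num)
          rw [neg_zero]
          exact cos_nonneg_of_mem_Icc ⟨by linarith, by linarith⟩
        have hb2 : ‖T₂‖ ≤ 1 := by
          apply D3_norm (u := 0) h₂ le_rfl (by norm_num) _ (by norm_num) (by norm_num)
          rw [neg_zero]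
          exact cos_nonneg_of_mem_Icc ⟨by linarith, by linarith⟩
        linarith
    · intro hg hg2
      have hR7 : 0.7 ≤ R := by
        by_contra hcon
        push Not at hcon
        have h5 : sin (π / 2 - 2 * R) = gg R := by
          unfold gg
          exact sin_pi_div_two_sub _
        have h6 : sin 0.17 ≤ sin (π / 2 - 2 * R) :=
          sin_le_sin_of_le_of_le_pi_div_two (by linarith) (by linarith) (by linarith)
        have h7 := sin_gt_sub_cube (x := 0.17) (by norm_num)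
        norm_num at h7 h6
        linarith
      have hu : ∀ r : ℝ, 0 ≤ r → r ≤ π - 3 * R → -(1 / 2) ≤ cos (2 * r) := by
        intro r hr0 hr
        have h5 : cos (2 * π / 3) ≤ cos (2 * r) :=
          cos_le_cos_of_nonneg_of_le_pi (by linarith) (by linarith) (by linarith)
        have h6 : cos (2 * π / 3) = -(1 / 2) := by
          have : 2 * π / 3 = π - π / 3 := by ring
          rw [this, cos_pi_sub, cos_pi_div_three]
        linarith
      have hb1 : ‖T₁‖ ≤ 1.7321 :=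
        D3_norm (u := 1 / 2) h₁ (by norm_num) (by norm_num) (hu r₁ hr1 (by linarith))
          (by norm_num) (by norm_num)
      have hb2 : ‖T₂‖ ≤ 1.7321 :=
        D3_norm (u := 1 / 2) h₂ (by norm_num) (by norm_num) (hu r₂ hr2 (by linarith))
          (by norm_num) (by norm_num)
      linarith
    · intro hg hg2
      have hR7 : 0.63 ≤ R := by
        by_contra hcon
        push Not at hcon
        have h5 : sin (π / 2 - 2 * R) = gg R := by
          unfold gg
          exact sin_pi_div_two_sub _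
        have h6 : sin 0.31 ≤ sin (π / 2 - 2 * R) :=
          sin_le_sin_of_le_of_le_pi_div_two (by linarith) (by linarith) (by linarith)
        have h7 := sin_gt_sub_cube (x := 0.31) (by norm_num)
        norm_num at h7 h6 hg2
        linarith
      have hu : ∀ r : ℝ, 0 ≤ r → r ≤ π - 3 * R → -(0.81 : ℝ) ≤ cos (2 * r) := by
        intro r hr0 hr
        have h5 : cos (π - 2 * r) ≤ cos 0.638 :=
          cos_le_cos_of_nonneg_of_le_pi (by norm_num) (by linarith) (by linarith)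
        rw [cos_pi_sub] at h5
        have h6 := cos_bound (x := 0.638) (by norm_num [abs_le])
        have h7 := (abs_le.1 h6).2
        have h8 : |(0.638 : ℝ)| = 0.638 := abs_of_pos (by norm_num)
        rw [h8] at h7
        norm_num at h7 h5 ⊢
        linarith
      have hb1 : ‖T₁‖ ≤ 3.09 :=
        D3_norm (u := 0.81) h₁ (by norm_num) (by norm_num) (hu r₁ hr1 (by linarith))
          (by norm_num) (by norm_num)
      have hb2 : ‖T₂‖ ≤ 3.09 :=
        D3_norm (u := 0.81) h₂ (by norm_num) (by norm_num) (hu r₂ hr2 (by linarith))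
          (by norm_num) (by norm_num)
      linarith
  have haX : 3 * (cc I * sin (2 * R) - gg R * sinh (2 * I)) ≤
      a * (cc I * sin (2 * R) - gg R * sinh (2 * I)) := mul_le_mul_of_nonneg_right ha hX.le
  unfold s2
  linarith

end Pool.Agent.S3.E
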