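import Mathlib

/-!
# Stage 3, block E: the critical point of an alternating chain

Notation: `z = R + i I` (`0 < R < π / 2`, `0 < I`), `κ = cos z`, `σ = sin z`, `t = tan z`.
-/

namespace Pool.Agent.S3.E

open Real

/-- `cosh 2I`. -/
noncomputable def cc (I : ℝ) : ℝ := cosh (2 * I)

/-- `cos 2R`. -/
noncomputable def gg (R : ℝ) : ℝ := cos (2 * R)

/-- `|cos (R + i I)|²`. -/
noncomputable def k2 (R I : ℝ) : ℝ := (cc I + gg R) / 2

/-- `|sin (R + i I)|²`. -/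
noncomputable def s2 (R I : ℝ) : ℝ := (cc I - gg R) / 2

/-- `|tan (R + i I)|`. -/
noncomputable def tt (R I : ℝ) : ℝ := √(s2 R I / k2 R I)

/-- `arg tan (R + i I)`. -/
noncomputable def al (R I : ℝ) : ℝ := arctan (sinh (2 * I) / sin (2 * R))

/-- `- arg cos (R + i I)`. -/
noncomputable def ph (R I : ℝ) : ℝ := arctan (tan R * tanh I)

/-- `arg sin (R + i I)`. -/
noncomputable def ch (R I : ℝ) : ℝ := arctan (tanh I / tan R)

/-- The slot equation `sinh (p + i r) = ρ e^{i β} tan (R + i I)` in the closed first quadrant. -/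
structure Slot (R I ρ β p r : ℝ) : Prop where
  p0 : 0 ≤ p
  r0 : 0 ≤ r
  r1 : r ≤ π / 2
  ρ0 : 0 ≤ ρ
  β0 : 0 ≤ β
  g1 : al R I + β ≤ π / 2
  e1 : sinh p * cos r = ρ * tt R I * cos (al R I + β)
  e2 : cosh p * sin r = ρ * tt R I * sin (al R I + β)

/-- The vertex equation `a z = π + i (q₁ + q₂)`, `q_j = p_j + i r_j`, for a vertex with two slots
(a missing neighbour is a slot with `ρ = 0`). -/
structure Vx (a R I ρ₁ β₁ p₁ r₁ ρ₂ β₂ p₂ r₂ : ℝ) : Prop where
  a2 : 2 ≤ a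
  R0 : 0 < R
  R1 : R < π / 2
  I0 : 0 < I
  sl₁ : Slot R I ρ₁ β₁ p₁ r₁
  sl₂ : Slot R I ρ₂ β₂ p₂ r₂
  hR : a * R + r₁ + r₂ = π
  hI : a * I = p₁ + p₂

/-- Real part of `arsinh w` for `w` in the closed first quadrant. -/
noncomputable def PP (w : ℂ) : ℝ := arsinh (√((‖w‖ ^ 2 + ‖1 + w ^ 2‖ - 1) / 2))

/-- Imaginary part of `arsinh w` for `w` in the closed first quadrant. -/
noncomputable def RR (w : ℂ) : ℝ := arcsin (√((1 + ‖w‖ ^ 2 - ‖1 + w ^ 2‖) / 2))

/-- `arsinh w` for `w` in the closed first quadrant (continuous on the whole plane). -/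
noncomputable def ash (w : ℂ) : ℂ := (PP w : ℂ) + (RR w : ℂ) * Complex.I

/-- `(conj κ)^τ`. -/
noncomputable def bb (τ : ℝ) (κ : ℂ) : ℂ :=
  Complex.exp ((τ : ℂ) * Complex.log ((starRingEnd ℂ) κ))

section system

variable {ι : Type*}

/-- The coefficient `b` of a slot whose neighbour is `o` (`0` if there is no neighbour). -/
noncomputable def bo (τ : ℝ) (z : ι → ℂ) (o : Option ι) : ℂ :=
  match o with
  | none => 0
  | some j => bb τ (Complex.cos (z j))

/-- `|b|` of a slot. -/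
noncomputable def ro (τ : ℝ) (z : ι → ℂ) (o : Option ι) : ℝ :=
  match o with
  | none => 0
  | some j => ‖Complex.cos (z j)‖ ^ τ

/-- `arg b` of a slot. -/
noncomputable def be (τ : ℝ) (z : ι → ℂ) (o : Option ι) : ℝ :=
  match o with
  | none => 0
  | some j => τ * ph (z j).re (z j).im

/-- The system at time `τ`. -/
noncomputable def GG (a : ι → ℝ) (nl nr : ι → Option ι) (τ : ℝ) (z : ι → ℂ) (i : ι) : ℂ :=
  (a i : ℂ) * z i - (π : ℂ) -
    Complex.I * (ash (bo τ z (nl i) * Complex.tan (z i)) + ash (bo τ z (nr i) * Complex.tan (z i)))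

/-- The compact region. -/
def KK (nl nr : ι → Option ι) : Set (ℝ × (ι → ℂ)) :=
  {x | x.1 ∈ Set.Icc (0 : ℝ) 1 ∧ ∀ i,
    (0 ≤ (x.2 i).re ∧ (x.2 i).re ≤ π / 2 ∧ 0 ≤ (x.2 i).im ∧ (x.2 i).im ≤ 2) ∧
    (0.49 ≤ ‖Complex.cos (x.2 i)‖ ∧ ‖Complex.cos (x.2 i)‖ ≤ 1.1 ∧
      -(Complex.cos (x.2 i)).im ≤ 1.04 * (Complex.cos (x.2 i)).re) ∧
    (0 ≤ (bo x.1 x.2 (nl i) * Complex.tan (x.2 i)).re ∧
      0 ≤ (bo x.1 x.2 (nr i) * Complex.tan (x.2 i)).re)}

/-- The combinatorics: every vertex has at least one neighbour, and the relation is symmetric. -/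
structure Nbr (nl nr : ι → Option ι) : Prop where
  ne : ∀ i, nl i ≠ none ∨ nr i ≠ none
  symm : ∀ i j, (nl i = some j ∨ nr i = some j) → (nl j = some i ∨ nr j = some i)

end system

end Pool.Agent.S3.E
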