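import Pool.Agent.S3.E.Defs

/-!
# Stage 3, block E: elementary geometry of `z = R + i I`, real part

`c = cosh 2I`, `g = cos 2R`.  All facts are elementary.
-/

namespace Pool.Agent.S3.E

open Real

theorem one_le_cc (I : ℝ) : 1 ≤ cc I := Real.one_le_cosh _

theorem one_lt_cc {I : ℝ} (h : 0 < I) : 1 < cc I := by
  unfold cc
  rw [Real.one_lt_cosh]
  positivity

theorem gg_lt_one {R : ℝ} (h : 0 < R) (h' : R < π / 2) : gg R < 1 := by
  unfold gg
  have h1 := Real.cos_lt_cos_of_nonneg_of_le_pi (le_refl 0) (show 2 * R ≤ π by linarith)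
    (show (0 : ℝ) < 2 * R by linarith)
  rwa [Real.cos_zero] at h1

theorem neg_one_lt_gg {R : ℝ} (h : 0 < R) (h' : R < π / 2) : -1 < gg R := by
  unfold gg
  have h1 := Real.cos_lt_cos_of_nonneg_of_le_pi (show (0 : ℝ) ≤ 2 * R by linarith) (le_refl π)
    (show 2 * R < π by linarith)
  rwa [Real.cos_pi] at h1

theorem k2_pos {R I : ℝ} (h : 0 < R) (h' : R < π / 2) : 0 < k2 R I := by
  unfold k2
  have h1 := one_le_cc I
  have h2 := neg_one_lt_gg h h'
  linarith

theorem s2_pos {R I : ℝ} (h : 0 < R) (h' : R < π / 2) : 0 < s2 R I := by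
  unfold s2
  have h1 := one_le_cc I
  have h2 := gg_lt_one h h'
  linarith

theorem tt_pos {R I : ℝ} (h : 0 < R) (h' : R < π / 2) : 0 < tt R I :=
  Real.sqrt_pos.2 (div_pos (s2_pos h h') (k2_pos h h'))

theorem tt_sq {R I : ℝ} (h : 0 < R) (h' : R < π / 2) : tt R I ^ 2 = s2 R I / k2 R I :=
  Real.sq_sqrt (div_pos (s2_pos h h') (k2_pos h h')).le

/-- `1 ≤ |tan z|` forces `R ≥ π/4`. -/
theorem pi_div_four_le_of_one_le_tt {R I : ℝ} (h : 0 < R) (h' : R < π / 2) (ht : 1 ≤ tt R I) :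
    π / 4 ≤ R := by
  by_contra hc
  push Not at hc
  have h1 : (1 : ℝ) ≤ tt R I ^ 2 := by nlinarith
  rw [tt_sq h h', one_le_div (k2_pos h h')] at h1
  unfold s2 k2 at h1
  have h2 : 0 < gg R := by
    unfold gg
    exact Real.cos_pos_of_mem_Ioo ⟨by linarith [Real.pi_pos], by linarith⟩
  linarith

theorem tt_le_one_of {R I : ℝ} (h : 0 < R) (h' : R ≤ π / 4) : tt R I ≤ 1 := by
  have h'' : R < π / 2 := by linarith [Real.pi_pos]
  have h2 : 0 ≤ gg R := by
    unfold gg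
    exact Real.cos_nonneg_of_mem_Icc ⟨by linarith [Real.pi_pos], by linarith⟩
  unfold tt
  rw [Real.sqrt_le_one]
  rw [div_le_one (k2_pos h h'')]
  unfold s2 k2
  linarith

theorem one_lt_tt_of {R I : ℝ} (h : π / 4 < R) (h' : R < π / 2) : 1 < tt R I := by
  have h0 : 0 < R := by linarith [Real.pi_pos]
  have h2 : gg R < 0 := by
    unfold gg
    exact Real.cos_neg_of_pi_div_two_lt_of_lt (by linarith) (by linarith)
  unfold tt
  rw [Real.lt_sqrt (by norm_num), one_pow, one_lt_div (k2_pos h0 h')]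
  unfold s2 k2
  linarith

theorem sinh_two_sq (I : ℝ) : sinh (2 * I) ^ 2 = cc I ^ 2 - 1 := by
  unfold cc
  rw [Real.cosh_sq]
  ring

theorem sin_two_sq (R : ℝ) : sin (2 * R) ^ 2 = 1 - gg R ^ 2 := by
  unfold gg
  rw [Real.sin_sq]

theorem sin_two_pos {R : ℝ} (h : 0 < R) (h' : R < π / 2) : 0 < sin (2 * R) :=
  Real.sin_pos_of_pos_of_lt_pi (by linarith) (by linarith)

theorem sinh_two_pos {I : ℝ} (h : 0 < I) : 0 < sinh (2 * I) := by
  rw [Real.sinh_pos_iff]
  linarith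

theorem tan_al (R I : ℝ) : tan (al R I) = sinh (2 * I) / sin (2 * R) := Real.tan_arctan _

theorem al_pos {R I : ℝ} (h : 0 < R) (h' : R < π / 2) (hI : 0 < I) : 0 < al R I := by
  unfold al
  rw [Real.arctan_pos]
  exact div_pos (sinh_two_pos hI) (sin_two_pos h h')

theorem al_lt (R I : ℝ) : al R I < π / 2 := Real.arctan_lt_pi_div_two _

private theorem GeoR_tanh_pos {I : ℝ} (hI : 0 < I) : 0 < tanh I := by
  rw [Real.tanh_eq_sinh_div_cosh]
  exact div_pos (Real.sinh_pos_iff.2 hI) (Real.cosh_pos I)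

theorem ph_pos {R I : ℝ} (h : 0 < R) (h' : R < π / 2) (hI : 0 < I) : 0 < ph R I := by
  unfold ph
  rw [Real.arctan_pos]
  exact mul_pos (Real.tan_pos_of_pos_of_lt_pi_div_two h h') (GeoR_tanh_pos hI)

theorem ph_lt (R I : ℝ) : ph R I < π / 2 := Real.arctan_lt_pi_div_two _

theorem ch_pos {R I : ℝ} (h : 0 < R) (h' : R < π / 2) (hI : 0 < I) : 0 < ch R I := by
  unfold ch
  rw [Real.arctan_pos]
  exact div_pos (GeoR_tanh_pos hI) (Real.tan_pos_of_pos_of_lt_pi_div_two h h')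

theorem ch_lt (R I : ℝ) : ch R I < π / 2 := Real.arctan_lt_pi_div_two _

theorem tan_ph (R I : ℝ) : tan (ph R I) = tan R * tanh I := Real.tan_arctan _

end Pool.Agent.S3.E
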