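import Pool.Agent.S3.E.J2A
import Pool.Agent.S3.E.OGeo

/-!
# Stage 3, block E: the joint range condition of an inner vertex with two twists
-/

set_option autoImplicit false

namespace Pool.Agent.S3.E.J2

open Complex

/-- Imaginary part of `S² (W² - 1) + 2 D² (1 + W) = -16`, `W = cosh 2u`. -/
theorem im_id {z b₁ b₂ : ℂ} (h : 0 < z.re) (h' : z.re < Real.pi / 2) (hI : 0 < z.im)
    (hq : 4 * (cos z ^ 2) ^ 2 - 4 * (b₁ * b₂) * cos z ^ 2 + (b₁ + b₂) ^ 2 = 0) {M N c s : ℝ}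
    (hM : M = Real.cosh (2 * xx z.re z.im)) (hN : N = Real.sinh (2 * xx z.re z.im))
    (hc : c = Real.cos (2 * th z.re z.im)) (hs : s = Real.sin (2 * th z.re z.im)) :
    (b₁.re + b₂.re) * (b₁.im + b₂.im) * (1 + (N * s) ^ 2 - (M * c) ^ 2) =
      M * c * (N * s) * ((b₁.re + b₂.re) ^ 2 - (b₁.im + b₂.im) ^ 2) +
        N * s * ((b₁.re - b₂.re) ^ 2 - (b₁.im - b₂.im) ^ 2) +
        2 * (b₁.re - b₂.re) * (b₁.im - b₂.im) * (1 + M * c) := by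
  have h1 := cosh_u h h' hI
  obtain ⟨u, hu⟩ : ∃ u, u = (xx z.re z.im : ℂ) + (th z.re z.im : ℂ) * I := ⟨_, rfl⟩
  rw [← hu] at h1
  obtain ⟨W, hW⟩ : ∃ W, W = cosh (2 * u) := ⟨_, rfl⟩
  have hW1 : (1 + W) * cos z ^ 2 = 2 := by
    have e : (1 + W) * cos z ^ 2 = 2 * (cosh u * cos z) ^ 2 := by
      have h2 := cosh_sq u
      rw [hW, cosh_two_mul]
      linear_combination (-1 * cos z ^ 2) * h2
    rw [e, h1]; norm_num
  have hW2 : W = ((M * c : ℝ) : ℂ) + ((N * s : ℝ) : ℂ) * I := by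
    have e : 2 * u = ((2 * xx z.re z.im : ℝ) : ℂ) + ((2 * th z.re z.im : ℝ) : ℂ) * I := by
      rw [hu]; push_cast; ring
    rw [hW, e, cosh_add, cosh_mul_I, sinh_mul_I, ← ofReal_cosh, ← ofReal_sinh, ← ofReal_cos,
      ← ofReal_sin, hM, hN, hc, hs]
    push_cast
    ring
  have h2 : 16 - 2 * ((b₁ + b₂) ^ 2 - (b₁ - b₂) ^ 2) * (1 + W) + (b₁ + b₂) ^ 2 * (1 + W) ^ 2 = 0 := by
    linear_combination (1 + W) ^ 2 * hq + (-(4 * (1 + W) * cos z ^ 2) - 8 +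
      4 * (b₁ * b₂) * (1 + W)) * hW1
  have h3 := congrArg im h2
  rw [hW2] at h3
  simp only [pow_two, add_im, sub_im, mul_im, add_re, sub_re, mul_re, ofReal_re, ofReal_im, I_re,
    I_im, one_re, one_im, mul_zero, mul_one, zero_mul, zero_add, add_zero, sub_zero, zero_im] at h3
  norm_num at h3
  linear_combination (-1 / 2 : ℝ) * h3

theorem key {z b₁ b₂ : ℂ} (h : 0 < z.re) (h' : z.re < Real.pi / 2) (hI : 0 < z.im)
    (hθ : th z.re z.im ≤ Real.pi / 4) (hk : k2 z.re z.im ≤ 1)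
    (hq : 4 * (cos z ^ 2) ^ 2 - 4 * (b₁ * b₂) * cos z ^ 2 + (b₁ + b₂) ^ 2 = 0) {b c₀ l u : ℝ}
    (hc₀ : 0 ≤ c₀) (hc₀' : c₀ ≤ 1 / 6) (hb : 0 ≤ b) (hbl : b ≤ l) (hl0 : 0 < l)
    (hC : ∀ m : ℝ, 0 ≤ m → m * (2 - c₀) ≤ 1 → Corners b c₀ m l u)
    (hB : b ≤ b₁.im) (hl : l ≤ b₁.re) (hu : b₁.re ≤ u) (hB₂ : 0 ≤ b₂.im) (hB₂' : b₂.im ≤ b₂.re)
    (hn : 1 / 4 ≤ b₂.re ^ 2 + b₂.im ^ 2) (hn' : b₂.re ^ 2 + b₂.im ^ 2 ≤ 1) :
    c₀ ≤ Real.cos (2 * th z.re z.im) := by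
  by_contra hcon
  push Not at hcon
  have hid := im_id h h' hI hq rfl rfl rfl rfl
  have hK := k2_pos (I := z.im) h h'
  have hMc : 2 ≤ Real.cosh (2 * xx z.re z.im) + Real.cos (2 * th z.re z.im) := by
    rw [cosh_two_xx h h' hI, cos_two_th h h' hI, ← add_div, le_div_iff₀ hK]
    linarith
  have hc0 : 0 ≤ Real.cos (2 * th z.re z.im) :=
    Real.cos_nonneg_of_mem_Icc ⟨by linarith [th_pos h h' hI, Real.pi_pos], by linarith⟩
  have hs0 : 0 ≤ Real.sin (2 * th z.re z.im) :=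
    Real.sin_nonneg_of_nonneg_of_le_pi (by linarith [th_pos h h' hI])
      (by linarith [Real.pi_pos])
  have hN0 : 0 ≤ Real.sinh (2 * xx z.re z.im) :=
    Real.sinh_nonneg_iff.2 (by linarith [xx_pos h h' hI])
  have hMN := Real.cosh_sq (2 * xx z.re z.im)
  have hcs := Real.sin_sq_add_cos_sq (2 * th z.re z.im)
  obtain ⟨M, hM⟩ : ∃ M, M = Real.cosh (2 * xx z.re z.im) := ⟨_, rfl⟩
  obtain ⟨N, hN⟩ : ∃ N, N = Real.sinh (2 * xx z.re z.im) := ⟨_, rfl⟩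
  obtain ⟨c, hc⟩ : ∃ c, c = Real.cos (2 * th z.re z.im) := ⟨_, rfl⟩
  obtain ⟨s, hs⟩ : ∃ s, s = Real.sin (2 * th z.re z.im) := ⟨_, rfl⟩
  rw [← hM, ← hN, ← hc, ← hs] at hid
  rw [← hM, ← hc] at hMc
  rw [← hc] at hc0 hcon
  rw [← hs] at hs0
  rw [← hN] at hN0
  rw [← hM, ← hN] at hMN
  rw [← hc, ← hs] at hcs
  have hM1 : 2 - c₀ ≤ M := by linarith
  have hM0 : 0 < M := by linarith
  obtain ⟨m, hm⟩ : ∃ m, m = 1 / M := ⟨_, rfl⟩
  have hmM : m * M = 1 := by rw [hm]; field_simp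
  have hm0 : 0 ≤ m := by rw [hm]; positivity
  have hm1 : m * (2 - c₀) ≤ 1 := by
    calc m * (2 - c₀) ≤ m * M := mul_le_mul_of_nonneg_left hM1 hm0
      _ = 1 := hmM
  have hm2 : m ≤ 11 / 20 := by nlinarith only [hc₀', hm1]
  have hs1 : s ≤ 1 := by nlinarith only [hcs]
  have hms : (m * (N * s)) ^ 2 ≤ 1 - m ^ 2 := by
    have e : (m * (N * s)) ^ 2 = ((m * M) ^ 2 - m ^ 2) * s ^ 2 := by
      have : N ^ 2 = M ^ 2 - 1 := by linarith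
      calc (m * (N * s)) ^ 2 = m ^ 2 * N ^ 2 * s ^ 2 := by ring
        _ = _ := by rw [this]; ring
    rw [e, hmM]
    have h1 : s ^ 2 ≤ 1 := by nlinarith only [hcs]
    have h2 : 0 ≤ 1 ^ 2 - m ^ 2 := by nlinarith only [hm0, hm2]
    nlinarith only [h1, h2]
  have he0 : 0 ≤ m * (N * s) := by positivity
  have he1 : m * (N * s) ≤ 1 - m ^ 2 / 2 := by
    apply le_of_sq_le_sq _ (by nlinarith only [hms])
    linarith only [sq_nonneg (m ^ 2), hms]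
  have hA₂ : 0 < b₂.re := by
    by_contra h0
    push Not at h0
    have h1 : b₂.im = 0 := by linarith
    have h2 : b₂.re = 0 := by linarith
    rw [h1, h2] at hn; norm_num at hn
  have hpos := FF_ge (A₁ := b₁.re) (B₁ := b₁.im) (A₂ := b₂.re) (B₂ := b₂.im) (m := m) (c := c)
    (e := m * (N * s)) (b := b) (c₀ := c₀) hc0 hcon.le hc₀' hm0 hm2 he0 he1 hb hB
    (hl0.trans_le hl) hA₂ hB₂ hB₂'
    (GG_pos hc₀ hc₀' hm0 hm2 hb hbl hl hu hB₂ hB₂' hn hn' (hC m hm0 hm1))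
  have hz : FF b₁.re b₁.im b₂.re b₂.im m c (m * (N * s)) = 0 := by
    have h1 : M ^ 2 * FF b₁.re b₁.im b₂.re b₂.im m c (m * (N * s)) = 0 := by
      have h2 : N ^ 2 = M ^ 2 - 1 := by linarith
      have h3 : s ^ 2 = 1 - c ^ 2 := by linarith
      have h4 : 1 + (N * s) ^ 2 - (M * c) ^ 2 = M ^ 2 * (1 - 2 * c ^ 2) + c ^ 2 := by
        rw [mul_pow, h2, h3]; ring
      rw [h4] at hid
      rw [FF]
      have e : M ^ 2 * ((b₁.re + b₂.re) * (b₁.im + b₂.im) * (1 - 2 * c ^ 2 + c ^ 2 * m ^ 2) -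
          m * (N * s) * (c * ((b₁.re + b₂.re) ^ 2 - (b₁.im + b₂.im) ^ 2) +
            m * ((b₁.re - b₂.re) ^ 2 - (b₁.im - b₂.im) ^ 2)) -
          2 * (b₁.re - b₂.re) * (b₁.im - b₂.im) * (m ^ 2 + c * m)) =
        (b₁.re + b₂.re) * (b₁.im + b₂.im) * (M ^ 2 * (1 - 2 * c ^ 2) + c ^ 2 * (m * M) ^ 2) -
          (N * s) * (M * (m * M) * c * ((b₁.re + b₂.re) ^ 2 - (b₁.im + b₂.im) ^ 2) +
            (m * M) ^ 2 * ((b₁.re - b₂.re) ^ 2 - (b₁.im - b₂.im) ^ 2)) -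
          2 * (b₁.re - b₂.re) * (b₁.im - b₂.im) * ((m * M) ^ 2 + c * M * (m * M)) := by ring
      rw [e, hmM]
      linear_combination hid
    rcases mul_eq_zero.1 h1 with h2 | h2
    · exact absurd h2 (by positivity)
    · exact h2
  linarith

end Pool.Agent.S3.E.J2
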