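import Pool.Agent.S3.E.J2B
import Pool.Agent.S3.E.J2C
import Pool.Agent.S3.E.OMain

/-!
# Stage 3, block E: the joint range condition of an inner vertex with two twists (in the system)

`Zr.joint2`: `A` an inner vertex with two twists, `B` any neighbour, `t = tan² θ_A`, `k = tan² θ_B`:
`k ≤ 9/40` or (`t ≤ 9/10` and `k ≤ 2/5`) or (`t ≤ 4/5` and `k ≤ 17/25`) or `t ≤ 73/100`.
-/

set_option autoImplicit false

namespace Pool.Agent.S3.E

open Complex

theorem tan_th_sq {R I : ℝ} (h : 0 < R) (h' : R < Real.pi / 2) (hI : 0 < I) :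
    Real.tan (th R I) ^ 2 * Real.cos R ^ 2 = Real.sinh I ^ 2 := by
  have hK := k2_pos (I := I) h h'
  have h1 := cos_two_th h h' hI
  have h2 : 0 < Real.cos (th R I) :=
    Real.cos_pos_of_mem_Ioo ⟨by linarith [th_pos h h' hI, Real.pi_pos], th_lt h h' hI⟩
  have h3 : Real.cos (2 * th R I) * k2 R I = 1 - s2 R I := by rw [h1]; field_simp
  rw [Real.cos_two_mul] at h3
  have h4 := GeoX_k2 R I
  have h5 := GeoX_s2 R I
  have h6 := Real.cosh_sq I
  have h7 : Real.cos (th R I) ^ 2 * k2 R I = Real.cos R ^ 2 := by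
    have e1 : k2 R I = Real.cos R ^ 2 + Real.sinh I ^ 2 := by rw [h4, h6]; ring
    have e2 : 1 - s2 R I = Real.cos R ^ 2 - Real.sinh I ^ 2 := by rw [h5, h6]; ring
    rw [e2] at h3
    linarith
  have h8 : Real.sin (th R I) ^ 2 * k2 R I = Real.sinh I ^ 2 := by
    rw [Real.sin_sq, sub_mul, h7, h4, h6]; ring
  rw [Real.tan_eq_sin_div_cos, div_pow, ← h7, ← h8]
  field_simp

theorem tan_sq_le_of_cos {θ c₀ t₀ : ℝ} (h0 : 0 < θ) (h1 : θ < Real.pi / 2)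
    (hc : c₀ ≤ Real.cos (2 * θ)) (ht : 1 - c₀ ≤ t₀ * (1 + c₀)) (hc0 : 0 ≤ c₀) :
    Real.tan θ ^ 2 ≤ t₀ := by
  have h2 : 0 < Real.cos θ := Real.cos_pos_of_mem_Ioo ⟨by linarith, h1⟩
  rw [Real.cos_two_mul] at hc
  rw [Real.tan_eq_sin_div_cos, div_pow, div_le_iff₀ (pow_pos h2 2), Real.sin_sq]
  have h3 : (1 + c₀) * (1 - Real.cos θ ^ 2) ≤ (1 + c₀) * (t₀ * Real.cos θ ^ 2) := by nlinarith
  exact le_of_mul_le_mul_left h3 (by linarith)

namespace J2

/-- The region of `conj (cos z)` when `tan² θ > κ₀`, `s₀ = κ₀ / (1 + κ₀)`. -/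
theorem reg {a g A B b l u klo khi s₀ : ℝ} (ha : 0 < a) (ha1 : a < 1) (hg : 0 < g)
    (hA0 : 0 ≤ A) (hB0 : 0 ≤ B) (hAB : B ≤ A)
    (hA : A ^ 2 = a * (1 + g)) (hB : B ^ 2 = (1 - a) * g) (hs : s₀ * (a + g) ≤ g) (hs0 : 0 ≤ s₀)
    (h1 : klo ≤ a + g) (h2 : a + g ≤ khi) (hs1 : s₀ ≤ 1)
    (hlo : b ^ 2 ≤ (1 - klo + s₀ * klo) * (s₀ * klo))
    (hhi : b ^ 2 ≤ (1 - khi + s₀ * khi) * (s₀ * khi)) (hb : 0 ≤ b) (hl : l ^ 2 ≤ klo / 2)
    (hu : khi - b ^ 2 ≤ u ^ 2) (hu0 : 0 ≤ u) : b ≤ B ∧ l ≤ A ∧ A ≤ u := by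
  have h3 : b ^ 2 ≤ (1 - (a + g) + s₀ * (a + g)) * (s₀ * (a + g)) := by
    have e : (khi - klo) * ((1 - (a + g) + s₀ * (a + g)) * (s₀ * (a + g)) - b ^ 2) =
        (khi - (a + g)) * ((1 - klo + s₀ * klo) * (s₀ * klo) - b ^ 2) +
        ((a + g) - klo) * ((1 - khi + s₀ * khi) * (s₀ * khi) - b ^ 2) +
        s₀ * (1 - s₀) * (((a + g) - klo) * (khi - (a + g)) * (khi - klo)) := by ring
    rcases eq_or_lt_of_le (h1.trans h2) with h4 | h4
    · have : a + g = klo := by linarith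
      rw [this]; exact hlo
    · have h5 : 0 ≤ (khi - klo) * ((1 - (a + g) + s₀ * (a + g)) * (s₀ * (a + g)) - b ^ 2) := by
        rw [e]
        have i1 : 0 ≤ (khi - (a + g)) * ((1 - klo + s₀ * klo) * (s₀ * klo) - b ^ 2) :=
          mul_nonneg (by linarith) (by linarith)
        have i2 : 0 ≤ ((a + g) - klo) * ((1 - khi + s₀ * khi) * (s₀ * khi) - b ^ 2) :=
          mul_nonneg (by linarith) (by linarith)
        have i3 : 0 ≤ s₀ * (1 - s₀) * (((a + g) - klo) * (khi - (a + g)) * (khi - klo)) :=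
          mul_nonneg (mul_nonneg hs0 (by linarith))
            (mul_nonneg (mul_nonneg (by linarith) (by linarith)) (by linarith))
        linarith
      have h6 : 0 < khi - klo := by linarith
      have := (mul_nonneg_iff_of_pos_left h6).1 h5
      linarith
  have h4 : b ^ 2 ≤ B ^ 2 := by
    rw [hB]
    have i1 : 0 ≤ s₀ * (a + g) := mul_nonneg hs0 (by linarith)
    have i2 : 1 - (a + g) + s₀ * (a + g) ≤ 1 - a := by linarith
    calc b ^ 2 ≤ (1 - (a + g) + s₀ * (a + g)) * (s₀ * (a + g)) := h3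
      _ ≤ (1 - a) * (s₀ * (a + g)) := mul_le_mul_of_nonneg_right i2 i1
      _ ≤ (1 - a) * g := mul_le_mul_of_nonneg_left hs (by linarith)
  have hk : A ^ 2 + B ^ 2 = a + g := by rw [hA, hB]; ring
  have h5 : B ^ 2 ≤ A ^ 2 := pow_le_pow_left₀ hB0 hAB 2
  refine ⟨le_of_sq_le_sq h4 hB0, le_of_sq_le_sq (by linarith) hA0, le_of_sq_le_sq (by linarith) hu0⟩

end J2

namespace Zr

variable {ι : Type*} {a : ι → ℝ} {nl nr : ι → Option ι} {z : ι → ℂ}

theorem conj_cos_re (z : ℂ) :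
    ((starRingEnd ℂ) (cos z)).re = Real.cos z.re * Real.cosh z.im := by
  rw [conj_re, GeoC_cos_re]

theorem conj_cos_im (z : ℂ) :
    ((starRingEnd ℂ) (cos z)).im = Real.sin z.re * Real.sinh z.im := by
  rw [conj_im, GeoC_cos_im, neg_neg]

/-- The quartic with the neighbours in any order. -/
theorem quartic' [Finite ι] (h : Zr a nl nr 1 z) {i j k : ι} (hi : a i = 2)
    (hij : (nl i = some j ∧ nr i = some k) ∨ (nl i = some k ∧ nr i = some j)) :
    4 * (cos (z i) ^ 2) ^ 2 - 4 * ((starRingEnd ℂ) (cos (z j)) * (starRingEnd ℂ) (cos (z k))) *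
      cos (z i) ^ 2 + ((starRingEnd ℂ) (cos (z j)) + (starRingEnd ℂ) (cos (z k))) ^ 2 = 0 := by
  have h1 := h.quartic i hi
  rcases hij with ⟨h2, h3⟩ | ⟨h2, h3⟩
  · rw [h2, h3, h.bo_one, h.bo_one] at h1
    exact h1
  · rw [h2, h3, h.bo_one, h.bo_one] at h1
    linear_combination h1

theorem kappa_im_le (h : Zr a nl nr 1 z) (j : ι) :
    ((starRingEnd ℂ) (cos (z j))).im ≤ ((starRingEnd ℂ) (cos (z j))).re := by
  rw [← h.bo_one j]; exact h.bo_im_le _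

theorem joint_of [Finite ι] (h : Zr a nl nr 1 z) {i j k : ι} (hi : a i = 2)
    (hij : (nl i = some j ∧ nr i = some k) ∨ (nl i = some k ∧ nr i = some j))
    {κ₀ s₀ c₀ t₀ b l u b' u' : ℝ}
    (hκ : 0 < κ₀) (hs : s₀ * (1 + κ₀) = κ₀) (hc₀ : 0 ≤ c₀) (hc₀' : c₀ ≤ 1 / 6)
    (ht : 1 - c₀ ≤ t₀ * (1 + c₀))
    (hb : 0 ≤ b) (hbl : b ≤ l) (hl0 : 0 < l) (hu0 : 0 ≤ u)
    (hb' : 0 ≤ b') (hbl' : b' ≤ 1 / 2) (hu0' : 0 ≤ u')
    (e1 : b ^ 2 ≤ (1 - 1 / 4 + s₀ * (1 / 4)) * (s₀ * (1 / 4)))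
    (e2 : b ^ 2 ≤ (1 - 1 / 2 + s₀ * (1 / 2)) * (s₀ * (1 / 2)))
    (e2' : b' ^ 2 ≤ (1 - 1 / 2 + s₀ * (1 / 2)) * (s₀ * (1 / 2)))
    (e3' : b' ^ 2 ≤ (1 - 1 + s₀ * 1) * (s₀ * 1))
    (hl : l ^ 2 ≤ 1 / 8) (hu : 1 / 2 - b ^ 2 ≤ u ^ 2) (hu' : 1 - b' ^ 2 ≤ u' ^ 2)
    (hC : ∀ m : ℝ, 0 ≤ m → m * (2 - c₀) ≤ 1 → J2.Corners b c₀ m l u)
    (hC' : ∀ m : ℝ, 0 ≤ m → m * (2 - c₀) ≤ 1 → J2.Corners b' c₀ m (1 / 2) u')
    (hk : κ₀ < Real.tan (th (z j).re (z j).im) ^ 2) :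
    Real.tan (th (z i).re (z i).im) ^ 2 ≤ t₀ := by
  obtain ⟨p1, p2, p3⟩ := h.pos i
  obtain ⟨q1, q2, q3⟩ := h.pos j
  obtain ⟨r1, r2, r3⟩ := h.pos k
  have hin : 3 ≤ a i ∨ ∃ j k, nl i = some j ∧ nr i = some k := by
    right
    rcases hij with ⟨h1, h2⟩ | ⟨h1, h2⟩
    · exact ⟨_, _, h1, h2⟩
    · exact ⟨_, _, h1, h2⟩
  -- the neighbour `j`
  have hcR : 0 < Real.cos (z j).re := Real.cos_pos_of_mem_Ioo ⟨by linarith [Real.pi_pos], q2⟩
  have hsR : 0 < Real.sin (z j).re := Real.sin_pos_of_pos_of_lt_pi q1 (by linarith [Real.pi_pos])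
  have hsI : 0 < Real.sinh (z j).im := Real.sinh_pos_iff.2 q3
  have hcI := Real.cosh_pos (z j).im
  have hch := Real.cosh_sq (z j).im
  have hsc := Real.sin_sq_add_cos_sq (z j).re
  have ht1 := tan_th_sq q1 q2 q3
  have hkj := h.k2_le j
  have hkj' := h.k2_ge j
  rw [GeoX_k2, hch] at hkj hkj'
  have ha0 : 0 < Real.cos (z j).re ^ 2 := pow_pos hcR 2
  have ha1 : Real.cos (z j).re ^ 2 < 1 := by nlinarith [pow_pos hsR 2]
  have hg0 : 0 < Real.sinh (z j).im ^ 2 := pow_pos hsI 2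
  have hg : κ₀ * Real.cos (z j).re ^ 2 ≤ Real.sinh (z j).im ^ 2 := by
    rw [← ht1]; exact mul_le_mul_of_nonneg_right hk.le ha0.le
  have hs0 : 0 ≤ s₀ := by
    by_contra hc
    push Not at hc
    nlinarith
  have hs1 : s₀ ≤ 1 := by
    by_contra hc
    push Not at hc
    nlinarith
  have hs2 : s₀ * (Real.cos (z j).re ^ 2 + Real.sinh (z j).im ^ 2) ≤ Real.sinh (z j).im ^ 2 := by
    have i1 : (1 + κ₀) * (s₀ * (Real.cos (z j).re ^ 2 + Real.sinh (z j).im ^ 2)) ≤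
        (1 + κ₀) * Real.sinh (z j).im ^ 2 := by
      have e : (1 + κ₀) * (s₀ * (Real.cos (z j).re ^ 2 + Real.sinh (z j).im ^ 2)) =
          (s₀ * (1 + κ₀)) * (Real.cos (z j).re ^ 2 + Real.sinh (z j).im ^ 2) := by ring
      rw [e, hs]
      linarith
    exact le_of_mul_le_mul_left i1 (by linarith)
  have hA : ((starRingEnd ℂ) (cos (z j))).re ^ 2 =
      Real.cos (z j).re ^ 2 * (1 + Real.sinh (z j).im ^ 2) := by
    rw [conj_cos_re, mul_pow, hch]; ring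
  have hB : ((starRingEnd ℂ) (cos (z j))).im ^ 2 =
      (1 - Real.cos (z j).re ^ 2) * Real.sinh (z j).im ^ 2 := by
    rw [conj_cos_im, mul_pow, ← hsc]; ring
  have hA0 : 0 ≤ ((starRingEnd ℂ) (cos (z j))).re := by rw [conj_cos_re]; positivity
  have hB0 : 0 ≤ ((starRingEnd ℂ) (cos (z j))).im := by rw [conj_cos_im]; positivity
  have hAB := h.kappa_im_le j
  -- the neighbour `k`
  have hB2 : 0 ≤ ((starRingEnd ℂ) (cos (z k))).im := by
    rw [conj_cos_im]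
    have i1 : 0 < Real.sin (z k).re := Real.sin_pos_of_pos_of_lt_pi r1 (by linarith [Real.pi_pos])
    have i2 : 0 < Real.sinh (z k).im := Real.sinh_pos_iff.2 r3
    positivity
  have hn : ((starRingEnd ℂ) (cos (z k))).re ^ 2 + ((starRingEnd ℂ) (cos (z k))).im ^ 2 =
      k2 (z k).re (z k).im := by
    rw [← norm_cos_sq, ← Complex.normSq_eq_norm_sq, Complex.normSq_apply, conj_re, conj_im]
    ring
  apply tan_sq_le_of_cos (th_pos p1 p2 p3) (th_lt p1 p2 p3) _ ht hc₀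
  have hq := h.quartic' hi hij
  rcases le_total (Real.cos (z j).re ^ 2 + Real.sinh (z j).im ^ 2) (1 / 2) with hc | hc
  · obtain ⟨i1, i2, i3⟩ := J2.reg (klo := 1 / 4) (khi := 1 / 2) (b := b) (l := l) (u := u) ha0 ha1
      hg0 hA0 hB0 hAB hA hB hs2 hs0 (by linarith) hc hs1 e1 e2 hb (by linarith) hu hu0
    exact J2.key p1 p2 p3 (h.th_le i hin) (h.k2_le i) hq hc₀ hc₀' hb hbl hl0 hC i1 i2 i3 hB2
      (h.kappa_im_le k) (by rw [hn]; exact h.k2_ge k) (by rw [hn]; exact h.k2_le k)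
  · obtain ⟨i1, i2, i3⟩ := J2.reg (klo := 1 / 2) (khi := 1) (b := b') (l := 1 / 2) (u := u') ha0 ha1
      hg0 hA0 hB0 hAB hA hB hs2 hs0 hc (by linarith) hs1 e2' e3' hb' (by norm_num) hu' hu0'
    exact J2.key p1 p2 p3 (h.th_le i hin) (h.k2_le i) hq hc₀ hc₀' hb' hbl' (by norm_num) hC' i1 i2
      i3 hB2 (h.kappa_im_le k) (by rw [hn]; exact h.k2_ge k) (by rw [hn]; exact h.k2_le k)

/-- The joint range condition. -/
theorem joint2 [Finite ι] (h : Zr a nl nr 1 z) {i j k : ι} (hi : a i = 2)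
    (hij : (nl i = some j ∧ nr i = some k) ∨ (nl i = some k ∧ nr i = some j)) :
    Real.tan (th (z j).re (z j).im) ^ 2 ≤ 9 / 40 ∨
      (Real.tan (th (z i).re (z i).im) ^ 2 ≤ 9 / 10 ∧
        Real.tan (th (z j).re (z j).im) ^ 2 ≤ 2 / 5) ∨
      (Real.tan (th (z i).re (z i).im) ^ 2 ≤ 4 / 5 ∧
        Real.tan (th (z j).re (z j).im) ^ 2 ≤ 17 / 25) ∨
      Real.tan (th (z i).re (z i).im) ^ 2 ≤ 73 / 100 := by
  rcases le_or_gt (Real.tan (th (z j).re (z j).im) ^ 2) (9 / 40) with h1 | h1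
  · exact Or.inl h1
  rcases le_or_gt (Real.tan (th (z j).re (z j).im) ^ 2) (2 / 5) with h2 | h2
  · refine Or.inr (Or.inl ⟨?_, h2⟩)
    exact h.joint_of hi hij (κ₀ := 9 / 40) (s₀ := 9 / 49) (c₀ := 1 / 19) (t₀ := 9 / 10)
      (b := 191 / 1000) (l := 353 / 1000) (u := 6809 / 10000) (b' := 1836 / 10000)
      (u' := 9831 / 10000) (by norm_num) (by norm_num) (by norm_num) (by norm_num) (by norm_num)
      (by norm_num) (by norm_num) (by norm_num) (by norm_num) (by norm_num) (by norm_num)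
      (by norm_num) (by norm_num) (by norm_num) (by norm_num) (by norm_num) (by norm_num)
      (by norm_num) (by norm_num) (fun m h3 h4 => J2.corners1 h3 (by linarith))
      (fun m h3 h4 => J2.corners1' h3 (by linarith)) h1
  rcases le_or_gt (Real.tan (th (z j).re (z j).im) ^ 2) (17 / 25) with h3 | h3
  · refine Or.inr (Or.inr (Or.inl ⟨?_, h3⟩))
    exact h.joint_of hi hij (κ₀ := 2 / 5) (s₀ := 2 / 7) (c₀ := 1 / 9) (t₀ := 4 / 5)
      (b := 2422 / 10000) (l := 353 / 1000) (u := 6644 / 10000) (b' := 2857 / 10000)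
      (u' := 9584 / 10000) (by norm_num) (by norm_num) (by norm_num) (by norm_num) (by norm_num)
      (by norm_num) (by norm_num) (by norm_num) (by norm_num) (by norm_num) (by norm_num)
      (by norm_num) (by norm_num) (by norm_num) (by norm_num) (by norm_num) (by norm_num)
      (by norm_num) (by norm_num) (fun m h3 h4 => J2.corners2 h3 (by linarith))
      (fun m h3 h4 => J2.corners2' h3 (by linarith)) h2
  · refine Or.inr (Or.inr (Or.inr ?_))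
    exact h.joint_of hi hij (κ₀ := 17 / 25) (s₀ := 17 / 42) (c₀ := 27 / 173) (t₀ := 73 / 100)
      (b := 2934 / 10000) (l := 353 / 1000) (u := 6434 / 10000) (b' := 377 / 1000)
      (u' := 9263 / 10000) (by norm_num) (by norm_num) (by norm_num) (by norm_num) (by norm_num)
      (by norm_num) (by norm_num) (by norm_num) (by norm_num) (by norm_num) (by norm_num)
      (by norm_num) (by norm_num) (by norm_num) (by norm_num) (by norm_num) (by norm_num)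
      (by norm_num) (by norm_num) (fun m h3 h4 => J2.corners3 h3 (by linarith))
      (fun m h3 h4 => J2.corners3' h3 (by linarith)) h3

end Zr

end Pool.Agent.S3.E
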