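import Mathlib

/-!
# Stage 3, block E: the joint range condition of an inner vertex with two twists, algebra

`b₁ = A₁ + i B₁`, `b₂ = A₂ + i B₂`, `W = cosh 2u = M c + i N s`, `m = 1 / M`, `e = N s / M`.
-/

set_option autoImplicit false

namespace Pool.Agent.S3.E.J2

/-- `F / M²`. -/
noncomputable def FF (A₁ B₁ A₂ B₂ m c e : ℝ) : ℝ :=
  (A₁ + A₂) * (B₁ + B₂) * (1 - 2 * c ^ 2 + c ^ 2 * m ^ 2) -
    e * (c * ((A₁ + A₂) ^ 2 - (B₁ + B₂) ^ 2) + m * ((A₁ - A₂) ^ 2 - (B₁ - B₂) ^ 2)) -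
    2 * (A₁ - A₂) * (B₁ - B₂) * (m ^ 2 + c * m)

/-- The reduced form. -/
noncomputable def GG (b c₀ m A₁ A₂ B₂ : ℝ) : ℝ :=
  b * ((1 - 2 * c₀ ^ 2 - 2 * m ^ 2 - 2 * c₀ * m) * A₁ + (1 - 2 * c₀ ^ 2 + 2 * m ^ 2) * A₂) +
    B₂ * ((1 - 2 * c₀ ^ 2 + 2 * m ^ 2) * A₁ + (1 - 2 * c₀ ^ 2 - 2 * m ^ 2 - 2 * c₀ * m) * A₂ -
      2 * (1 - m ^ 2 / 2) * m * b) -
    (1 - m ^ 2 / 2) * (c₀ * (A₁ + A₂) ^ 2 + m * (A₁ - A₂) ^ 2) + (1 - m ^ 2 / 2) * m * b ^ 2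

theorem conc {α β γ l u x : ℝ} (hα : 0 ≤ α) (hl : l ≤ x) (hu : x ≤ u)
    (h1 : 0 < γ + β * l - α * l ^ 2) (h2 : 0 < γ + β * u - α * u ^ 2) :
    0 < γ + β * x - α * x ^ 2 := by
  rcases eq_or_lt_of_le hl with rfl | hl'
  · exact h1
  have hlu : 0 < u - l := by linarith
  have h3 : 0 ≤ (u - x) * (γ + β * l - α * l ^ 2) := mul_nonneg (by linarith) h1.le
  have h4 : 0 < (x - l) * (γ + β * u - α * u ^ 2) := mul_pos (by linarith) h2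
  have h5 : 0 ≤ α * ((x - l) * (u - x) * (u - l)) :=
    mul_nonneg hα (mul_nonneg (mul_nonneg (by linarith) (by linarith)) hlu.le)
  have h6 : 0 < (u - l) * (γ + β * x - α * x ^ 2) := by
    have e : (u - l) * (γ + β * x - α * x ^ 2) = (u - x) * (γ + β * l - α * l ^ 2) +
        (x - l) * (γ + β * u - α * u ^ 2) + α * ((x - l) * (u - x) * (u - l)) := by ring
    rw [e]; linarith
  exact (mul_pos_iff_of_pos_left hlu).1 h6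

/-- Reduction of `FF` to `GG`. -/
theorem FF_ge {A₁ B₁ A₂ B₂ m c e b c₀ : ℝ} (hc : 0 ≤ c) (hc' : c ≤ c₀) (hc0 : c₀ ≤ 1 / 6)
    (hm : 0 ≤ m) (hm' : m ≤ 11 / 20) (he : 0 ≤ e) (he' : e ≤ 1 - m ^ 2 / 2) (hb : 0 ≤ b)
    (hB : b ≤ B₁) (hA₁ : 0 < A₁) (hA₂ : 0 < A₂) (hB₂ : 0 ≤ B₂) (hB₂' : B₂ ≤ A₂)
    (hG : 0 < GG b c₀ m A₁ A₂ B₂) : 0 < FF A₁ B₁ A₂ B₂ m c e := by
  have hm2 : m ^ 2 ≤ 121 / 400 := by nlinarith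
  have hcm : c * m ≤ c₀ * m := mul_le_mul_of_nonneg_right hc' hm
  have hcm0 : 0 ≤ c * m := mul_nonneg hc hm
  have hc0m : c₀ * m ≤ 11 / 120 := by nlinarith
  have hcc : c ^ 2 ≤ c₀ ^ 2 := pow_le_pow_left₀ hc hc' 2
  have hcc0 : c₀ ^ 2 ≤ 1 / 36 := by nlinarith
  have hm20 : 0 ≤ m ^ 2 := sq_nonneg m
  -- the coefficients
  obtain ⟨κ, hκ⟩ : ∃ κ, κ = 1 - 2 * c ^ 2 + c ^ 2 * m ^ 2 := ⟨_, rfl⟩
  obtain ⟨lam, hlam⟩ : ∃ lam, lam = m ^ 2 + c * m := ⟨_, rfl⟩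
  obtain ⟨P, hP⟩ : ∃ P, P = 1 - 2 * c₀ ^ 2 - 2 * m ^ 2 - 2 * c₀ * m := ⟨_, rfl⟩
  obtain ⟨R, hR⟩ : ∃ R, R = 1 - 2 * c₀ ^ 2 + 2 * m ^ 2 := ⟨_, rfl⟩
  have hκ1 : 1 - 2 * c₀ ^ 2 ≤ κ := by
    have : 0 ≤ c ^ 2 * m ^ 2 := by positivity
    rw [hκ]; linarith
  have hP0 : 0 < P := by rw [hP]; nlinarith
  have hR0 : 0 < R := by rw [hR]; nlinarith
  have hP1 : P ≤ κ - 2 * lam := by rw [hP, hlam]; nlinarith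
  have hR1 : R ≤ κ + 2 * lam := by rw [hR, hlam]; nlinarith
  obtain ⟨E, hE⟩ : ∃ E, E = 1 - m ^ 2 / 2 := ⟨_, rfl⟩
  have hE0 : 0 < E := by rw [hE]; linarith
  have hRE : 2 * E * m ≤ R := by rw [hR, hE]; nlinarith [mul_nonneg hm hm20]
  have hB1 : 0 ≤ B₁ := hb.trans hB
  -- the linear part
  obtain ⟨L, hL⟩ : ∃ L, L = B₁ * (P * A₁ + R * A₂) + B₂ * (R * A₁ + P * A₂) := ⟨_, rfl⟩
  obtain ⟨q, hq⟩ : ∃ q, q = c * ((B₁ + B₂) ^ 2 - (A₁ + A₂) ^ 2) +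
    m * ((B₁ - B₂) ^ 2 - (A₁ - A₂) ^ 2) := ⟨_, rfl⟩
  have hF : L + e * q ≤ FF A₁ B₁ A₂ B₂ m c e := by
    have e1 : FF A₁ B₁ A₂ B₂ m c e = B₁ * ((κ - 2 * lam) * A₁ + (κ + 2 * lam) * A₂) +
        B₂ * ((κ + 2 * lam) * A₁ + (κ - 2 * lam) * A₂) + e * q := by
      rw [FF, hκ, hlam, hq]; ring
    have h1 : P * A₁ ≤ (κ - 2 * lam) * A₁ := mul_le_mul_of_nonneg_right hP1 hA₁.le
    have h2 : R * A₂ ≤ (κ + 2 * lam) * A₂ := mul_le_mul_of_nonneg_right hR1 hA₂.le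
    have h3 : R * A₁ ≤ (κ + 2 * lam) * A₁ := mul_le_mul_of_nonneg_right hR1 hA₁.le
    have h4 : P * A₂ ≤ (κ - 2 * lam) * A₂ := mul_le_mul_of_nonneg_right hP1 hA₂.le
    have h5 := mul_le_mul_of_nonneg_left (add_le_add h1 h2) hB1
    have h6 := mul_le_mul_of_nonneg_left (add_le_add h3 h4) hB₂
    rw [e1, hL]; linarith
  have hLE : GG b c₀ m A₁ A₂ B₂ ≤ L + E * q := by
    have e1 : GG b c₀ m A₁ A₂ B₂ = b * (P * A₁ + R * A₂) + B₂ * (R * A₁ + P * A₂ - 2 * E * m * b) -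
        E * (c₀ * (A₁ + A₂) ^ 2 + m * (A₁ - A₂) ^ 2) + E * m * b ^ 2 := by
      rw [GG, hP, hR, hE]
    have h1 : 0 ≤ (B₁ - b) * (P * A₁ + R * A₂ + E * m * (B₁ + b - 2 * B₂)) := by
      apply mul_nonneg (by linarith)
      have h2 : 2 * E * m * B₂ ≤ R * A₂ := by
        have h3 : 2 * E * m * B₂ ≤ 2 * E * m * A₂ :=
          mul_le_mul_of_nonneg_left hB₂' (by positivity)
        have h4 : 2 * E * m * A₂ ≤ R * A₂ := mul_le_mul_of_nonneg_right hRE hA₂.le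
        linarith
      have h3 : 0 ≤ P * A₁ := by positivity
      have h4 : 0 ≤ E * m * (B₁ + b) := by positivity
      nlinarith
    have h2 : 0 ≤ E * c * (B₁ + B₂) ^ 2 := by positivity
    have h3 : 0 ≤ E * (c₀ - c) * (A₁ + A₂) ^ 2 :=
      mul_nonneg (mul_nonneg hE0.le (by linarith)) (sq_nonneg _)
    have h4 : 0 ≤ E * m * B₂ ^ 2 := by positivity
    rw [e1, hL, hq]
    nlinarith
  have hL0 : 0 < L := by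
    rcases eq_or_lt_of_le hB1 with h | h
    · -- `b = B₁ = 0`
      have hb0 : b = 0 := le_antisymm (by linarith) hb
      rcases eq_or_lt_of_le hB₂ with h' | h'
      · exfalso
        rw [GG, hb0, ← h'] at hG
        have : 0 ≤ (1 - m ^ 2 / 2) * (c₀ * (A₁ + A₂) ^ 2 + m * (A₁ - A₂) ^ 2) := by
          rw [← hE]
          have : 0 ≤ c₀ := hc.trans hc'
          positivity
        linarith
      · rw [hL, ← h]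
        have : 0 < B₂ * (R * A₁ + P * A₂) := by positivity
        linarith
    · rw [hL]
      have h1 : 0 < B₁ * (P * A₁ + R * A₂) := by positivity
      have h2 : 0 ≤ B₂ * (R * A₁ + P * A₂) := by positivity
      linarith
  rcases le_or_gt 0 q with h | h
  · have : 0 ≤ e * q := mul_nonneg he h
    linarith
  · have : E * q ≤ e * q := mul_le_mul_of_nonpos_right (by rw [hE]; exact he') h.le
    linarith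


section box

variable {b c₀ m l u A₁ A₂ : ℝ}

theorem GG_A1 (hc : 0 ≤ c₀) (hm : 0 ≤ m) (hm' : m ≤ 11 / 20) {β : ℝ} (hl : l ≤ A₁) (hu : A₁ ≤ u)
    (h1 : 0 < GG b c₀ m l A₂ β) (h2 : 0 < GG b c₀ m u A₂ β) : 0 < GG b c₀ m A₁ A₂ β := by
  have hα : 0 ≤ (1 - m ^ 2 / 2) * (c₀ + m) := mul_nonneg (by nlinarith) (by linarith)
  have := conc (α := (1 - m ^ 2 / 2) * (c₀ + m))
    (β := b * (1 - 2 * c₀ ^ 2 - 2 * m ^ 2 - 2 * c₀ * m) + β * (1 - 2 * c₀ ^ 2 + 2 * m ^ 2) -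
      (1 - m ^ 2 / 2) * (2 * c₀ * A₂ - 2 * m * A₂))
    (γ := b * ((1 - 2 * c₀ ^ 2 + 2 * m ^ 2) * A₂) +
      β * ((1 - 2 * c₀ ^ 2 - 2 * m ^ 2 - 2 * c₀ * m) * A₂ - 2 * (1 - m ^ 2 / 2) * m * b) -
      (1 - m ^ 2 / 2) * (c₀ + m) * A₂ ^ 2 + (1 - m ^ 2 / 2) * m * b ^ 2) hα hl hu
    (h1.trans_eq (by rw [GG]; ring)) (h2.trans_eq (by rw [GG]; ring))
  exact this.trans_eq (by rw [GG]; ring)

theorem GG_A2 (hc : 0 ≤ c₀) (hm : 0 ≤ m) (hm' : m ≤ 11 / 20) (hl : 1 / 2 ≤ A₂) (hu : A₂ ≤ 1)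
    (h1 : 0 < GG b c₀ m A₁ (1 / 2) 0) (h2 : 0 < GG b c₀ m A₁ 1 0) : 0 < GG b c₀ m A₁ A₂ 0 := by
  have hα : 0 ≤ (1 - m ^ 2 / 2) * (c₀ + m) := mul_nonneg (by nlinarith) (by linarith)
  have := conc (α := (1 - m ^ 2 / 2) * (c₀ + m))
    (β := b * (1 - 2 * c₀ ^ 2 + 2 * m ^ 2) - (1 - m ^ 2 / 2) * (2 * c₀ * A₁ - 2 * m * A₁))
    (γ := b * ((1 - 2 * c₀ ^ 2 - 2 * m ^ 2 - 2 * c₀ * m) * A₁) -
      (1 - m ^ 2 / 2) * (c₀ + m) * A₁ ^ 2 + (1 - m ^ 2 / 2) * m * b ^ 2) hα hl hu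
    (h1.trans_eq (by rw [GG]; ring)) (h2.trans_eq (by rw [GG]; ring))
  exact this.trans_eq (by rw [GG]; ring)

theorem GG_A2' (hc : 0 ≤ c₀) (hc' : c₀ ≤ 1 / 6) (hm : 0 ≤ m) (hm' : m ≤ 11 / 20)
    (hl : 7 / 20 ≤ A₂) (hu : A₂ ≤ 1 / 2)
    (h1 : 0 < GG b c₀ m A₁ (7 / 20) (3 / 20)) (h2 : 0 < GG b c₀ m A₁ (1 / 2) 0) :
    0 < GG b c₀ m A₁ A₂ (1 / 2 - A₂) := by
  have hα : 0 ≤ (1 - m ^ 2 / 2) * (c₀ + m) := mul_nonneg (by nlinarith) (by linarith)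
  have hP : 0 ≤ 1 - 2 * c₀ ^ 2 - 2 * m ^ 2 - 2 * c₀ * m := by nlinarith
  have := conc (α := (1 - m ^ 2 / 2) * (c₀ + m) + (1 - 2 * c₀ ^ 2 - 2 * m ^ 2 - 2 * c₀ * m))
    (β := b * (1 - 2 * c₀ ^ 2 + 2 * m ^ 2) - (1 - m ^ 2 / 2) * (2 * c₀ * A₁ - 2 * m * A₁) +
      1 / 2 * (1 - 2 * c₀ ^ 2 - 2 * m ^ 2 - 2 * c₀ * m) -
      ((1 - 2 * c₀ ^ 2 + 2 * m ^ 2) * A₁ - 2 * (1 - m ^ 2 / 2) * m * b))
    (γ := b * ((1 - 2 * c₀ ^ 2 - 2 * m ^ 2 - 2 * c₀ * m) * A₁) +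
      1 / 2 * ((1 - 2 * c₀ ^ 2 + 2 * m ^ 2) * A₁ - 2 * (1 - m ^ 2 / 2) * m * b) -
      (1 - m ^ 2 / 2) * (c₀ + m) * A₁ ^ 2 + (1 - m ^ 2 / 2) * m * b ^ 2) (add_nonneg hα hP) hl hu
    (h1.trans_eq (by rw [GG]; ring)) (h2.trans_eq (by rw [GG]; ring))
  exact this.trans_eq (by rw [GG]; ring)

theorem GG_mono (hc : 0 ≤ c₀) (hc' : c₀ ≤ 1 / 6) (hm : 0 ≤ m) (hm' : m ≤ 11 / 20) (hb : 0 ≤ b)
    (hbA : b ≤ A₁) (hA₂ : 0 ≤ A₂) {β β' : ℝ} (h : β ≤ β') :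
    GG b c₀ m A₁ A₂ β ≤ GG b c₀ m A₁ A₂ β' := by
  have hP : 0 ≤ 1 - 2 * c₀ ^ 2 - 2 * m ^ 2 - 2 * c₀ * m := by nlinarith
  have hR : 2 * (1 - m ^ 2 / 2) * m ≤ 1 - 2 * c₀ ^ 2 + 2 * m ^ 2 := by
    nlinarith [mul_nonneg hm (sq_nonneg m)]
  have h1 : 2 * (1 - m ^ 2 / 2) * m * b ≤ (1 - 2 * c₀ ^ 2 + 2 * m ^ 2) * A₁ := by
    have h0 : 0 ≤ 2 * (1 - m ^ 2 / 2) * m := by
      apply mul_nonneg _ hm; nlinarith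
    calc 2 * (1 - m ^ 2 / 2) * m * b ≤ 2 * (1 - m ^ 2 / 2) * m * A₁ :=
          mul_le_mul_of_nonneg_left hbA h0
      _ ≤ _ := mul_le_mul_of_nonneg_right hR (hb.trans hbA)
  have h2 : 0 ≤ (1 - 2 * c₀ ^ 2 - 2 * m ^ 2 - 2 * c₀ * m) * A₂ := mul_nonneg hP hA₂
  have h3 : 0 ≤ (β' - β) * ((1 - 2 * c₀ ^ 2 + 2 * m ^ 2) * A₁ +
      (1 - 2 * c₀ ^ 2 - 2 * m ^ 2 - 2 * c₀ * m) * A₂ - 2 * (1 - m ^ 2 / 2) * m * b) :=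
    mul_nonneg (by linarith) (by linarith)
  have e : GG b c₀ m A₁ A₂ β' = GG b c₀ m A₁ A₂ β + (β' - β) * ((1 - 2 * c₀ ^ 2 + 2 * m ^ 2) * A₁ +
      (1 - 2 * c₀ ^ 2 - 2 * m ^ 2 - 2 * c₀ * m) * A₂ - 2 * (1 - m ^ 2 / 2) * m * b) := by
    rw [GG, GG]; ring
  linarith

/-- The six corners. -/
structure Corners (b c₀ m l u : ℝ) : Prop where
  l1 : 0 < GG b c₀ m l 1 0
  l2 : 0 < GG b c₀ m l (1 / 2) 0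
  l3 : 0 < GG b c₀ m l (7 / 20) (3 / 20)
  u1 : 0 < GG b c₀ m u 1 0
  u2 : 0 < GG b c₀ m u (1 / 2) 0
  u3 : 0 < GG b c₀ m u (7 / 20) (3 / 20)

theorem GG_pos (hc : 0 ≤ c₀) (hc' : c₀ ≤ 1 / 6) (hm : 0 ≤ m) (hm' : m ≤ 11 / 20) (hb : 0 ≤ b)
    (hbl : b ≤ l) (hl : l ≤ A₁) (hu : A₁ ≤ u) {B₂ : ℝ} (hB₂ : 0 ≤ B₂) (hB₂' : B₂ ≤ A₂)
    (hk : 1 / 4 ≤ A₂ ^ 2 + B₂ ^ 2) (hk' : A₂ ^ 2 + B₂ ^ 2 ≤ 1) (h : Corners b c₀ m l u) :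
    0 < GG b c₀ m A₁ A₂ B₂ := by
  have hA₂ : 0 ≤ A₂ := hB₂.trans hB₂'
  have h1 : 7 / 20 ≤ A₂ := by nlinarith
  have h2 : A₂ ≤ 1 := by nlinarith
  have h3 : 1 / 2 ≤ A₂ + B₂ := by nlinarith [mul_nonneg hA₂ hB₂]
  rcases le_total (1 / 2) A₂ with h4 | h4
  · have := GG_A1 hc hm hm' hl hu (GG_A2 hc hm hm' h4 h2 h.l2 h.l1) (GG_A2 hc hm hm' h4 h2 h.u2 h.u1)
    exact this.trans_le (GG_mono hc hc' hm hm' hb (hbl.trans hl) hA₂ hB₂)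
  · have := GG_A1 hc hm hm' hl hu (GG_A2' hc hc' hm hm' h1 h4 h.l3 h.l2)
      (GG_A2' hc hc' hm hm' h1 h4 h.u3 h.u2)
    exact this.trans_le (GG_mono hc hc' hm hm' hb (hbl.trans hl) hA₂ (by linarith))

end box

end Pool.Agent.S3.E.J2
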