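import Pool.Agent.S3.E.J2A

/-!
# Stage 3, block E: the corners
-/

set_option autoImplicit false

namespace Pool.Agent.S3.E.J2

theorem corners1 {m : ℝ} (hm : 0 ≤ m) (hm' : m ≤ 19 / 37) :
    Corners (191 / 1000) (1 / 19) m (353 / 1000) (6809 / 10000) := by
  have h1 := mul_nonneg hm (sub_nonneg.2 hm')
  have h2 := mul_nonneg hm h1
  have h3 := mul_nonneg (sub_nonneg.2 hm') h1
  constructor <;> (unfold GG; nlinarith)

theorem corners1' {m : ℝ} (hm : 0 ≤ m) (hm' : m ≤ 19 / 37) :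
    Corners (1836 / 10000) (1 / 19) m (1 / 2) (9831 / 10000) := by
  have h1 := mul_nonneg hm (sub_nonneg.2 hm')
  have h2 := mul_nonneg hm h1
  have h3 := mul_nonneg (sub_nonneg.2 hm') h1
  constructor <;> (unfold GG; nlinarith)

theorem corners2 {m : ℝ} (hm : 0 ≤ m) (hm' : m ≤ 9 / 17) :
    Corners (2422 / 10000) (1 / 9) m (353 / 1000) (6644 / 10000) := by
  have h1 := mul_nonneg hm (sub_nonneg.2 hm')
  have h2 := mul_nonneg hm h1
  have h3 := mul_nonneg (sub_nonneg.2 hm') h1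
  constructor <;> (unfold GG; nlinarith)

theorem corners2' {m : ℝ} (hm : 0 ≤ m) (hm' : m ≤ 9 / 17) :
    Corners (2857 / 10000) (1 / 9) m (1 / 2) (9584 / 10000) := by
  have h1 := mul_nonneg hm (sub_nonneg.2 hm')
  have h2 := mul_nonneg hm h1
  have h3 := mul_nonneg (sub_nonneg.2 hm') h1
  constructor <;> (unfold GG; nlinarith)

theorem corners3 {m : ℝ} (hm : 0 ≤ m) (hm' : m ≤ 173 / 319) :
    Corners (2934 / 10000) (27 / 173) m (353 / 1000) (6434 / 10000) := by
  have h1 := mul_nonneg hm (sub_nonneg.2 hm')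
  have h2 := mul_nonneg hm h1
  have h3 := mul_nonneg (sub_nonneg.2 hm') h1
  constructor <;> (unfold GG; nlinarith)

theorem corners3' {m : ℝ} (hm : 0 ≤ m) (hm' : m ≤ 173 / 319) :
    Corners (377 / 1000) (27 / 173) m (1 / 2) (9263 / 10000) := by
  have h1 := mul_nonneg hm (sub_nonneg.2 hm')
  have h2 := mul_nonneg hm h1
  have h3 := mul_nonneg (sub_nonneg.2 hm') h1
  constructor <;> (unfold GG; nlinarith)

end Pool.Agent.S3.E.J2
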