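import Pool.Agent.S3.E.J2A

/-!
# Stage 3, block E: the sharp joint range condition, algebra

As in `J2A`; `m` is also bounded below, and the two ends of the last term are kept.
-/

set_option autoImplicit false

namespace Pool.Agent.S3.E.J3

open Pool.Agent.S3.E.J2

/-- The reduced form. -/
noncomputable def G3 (c₀ σ s m p A₁ B₁ A₂ B₂ : ℝ) : ℝ :=
  (A₁ + A₂) * (B₁ + B₂) * (1 - 2 * c₀ ^ 2 + c₀ ^ 2 * m ^ 2) -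
    (1 - m ^ 2 / 2) * σ * ((A₁ + A₂) ^ 2 - (B₁ + B₂) ^ 2) -
    (1 - m ^ 2 / 2) * m * (A₁ - A₂) ^ 2 + (1 - 11 / 20 * m ^ 2) * s * m * (B₁ - B₂) ^ 2 -
    2 * (A₁ - A₂) * (B₁ - B₂) * (m ^ 2 + p * m)

/-- The parameters of a step. -/
structure Par (c₀ σ s : ℝ) : Prop where
  c0 : 0 ≤ c₀
  c1 : c₀ ≤ 9 / 40
  σ0 : c₀ ^ 2 * (1 - c₀ ^ 2) ≤ σ ^ 2
  σ1 : 0 ≤ σ
  s0 : s ^ 2 ≤ 1 - c₀ ^ 2
  s1 : 0 ≤ s

variable {c₀ σ s m A₁ B₁ A₂ B₂ : ℝ}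

theorem Par.s_le (h : Par c₀ σ s) : s ≤ 1 := by
  have := h.s0
  have := h.s1
  nlinarith [sq_nonneg c₀]

/-- Reduction of `FF` to `G3`. -/
theorem FF_ge3 (h : Par c₀ σ s) {c e n r : ℝ} (hc : 0 ≤ c) (hc' : c ≤ c₀) (hm : 0 ≤ m)
    (hm' : m ≤ 141 / 250) (hn : 0 ≤ n) (hn2 : n ^ 2 = 1 - m ^ 2) (hr : 0 ≤ r)
    (hr2 : r ^ 2 = 1 - c ^ 2) (he : e = n * r)
    (hA₁ : 0 ≤ A₁) (hB₁ : 0 ≤ B₁) (hB₁' : B₁ ≤ A₁) (hB₂ : 0 ≤ B₂) (hB₂' : B₂ ≤ A₂)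
    (h0 : 0 < G3 c₀ σ s m 0 A₁ B₁ A₂ B₂) (h1 : 0 < G3 c₀ σ s m c₀ A₁ B₁ A₂ B₂) :
    0 < FF A₁ B₁ A₂ B₂ m c e := by
  have hA₂ : 0 ≤ A₂ := hB₂.trans hB₂'
  have hm2 : m ^ 2 ≤ 32 / 100 := by nlinarith
  have hm20 : 0 ≤ m ^ 2 := sq_nonneg m
  have hcc : c ^ 2 ≤ c₀ ^ 2 := pow_le_pow_left₀ hc hc' 2
  have hc0 : c₀ ^ 2 ≤ 81 / 1600 := by
    have := pow_le_pow_left₀ h.c0 h.c1 2
    norm_num at this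
    exact this
  -- bounds of `n`
  have hn1 : n ≤ 1 - m ^ 2 / 2 := by
    apply le_of_sq_le_sq _ (by linarith)
    rw [hn2]; nlinarith [sq_nonneg (m ^ 2)]
  have hn3 : 1 - 11 / 20 * m ^ 2 ≤ n := by
    apply le_of_sq_le_sq _ hn
    rw [hn2]; nlinarith
  have hr1 : r ≤ 1 := by nlinarith [sq_nonneg c]
  have hrs : s ≤ r := by
    apply le_of_sq_le_sq _ hr
    rw [hr2]; linarith [h.s0]
  have hcr : c * r ≤ σ := by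
    apply le_of_sq_le_sq _ h.σ1
    rw [mul_pow, hr2]
    refine le_trans ?_ h.σ0
    have : 0 ≤ (c₀ ^ 2 - c ^ 2) * (1 - c₀ ^ 2 - c ^ 2) := mul_nonneg (by linarith) (by linarith)
    nlinarith
  have he1 : e ≤ 1 - m ^ 2 / 2 := by
    rw [he]
    calc n * r ≤ n * 1 := mul_le_mul_of_nonneg_left hr1 hn
      _ ≤ 1 - m ^ 2 / 2 := by linarith
  have he2 : (1 - 11 / 20 * m ^ 2) * s ≤ e := by
    rw [he]; exact mul_le_mul hn3 hrs h.s1 hn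
  have he3 : e * c ≤ (1 - m ^ 2 / 2) * σ := by
    rw [he]
    calc n * r * c = n * (c * r) := by ring
      _ ≤ (1 - m ^ 2 / 2) * σ := mul_le_mul hn1 hcr (by positivity) (by linarith)
  -- the three monotone terms
  have t1 : (A₁ + A₂) * (B₁ + B₂) * (1 - 2 * c₀ ^ 2 + c₀ ^ 2 * m ^ 2) ≤
      (A₁ + A₂) * (B₁ + B₂) * (1 - 2 * c ^ 2 + c ^ 2 * m ^ 2) := by
    apply mul_le_mul_of_nonneg_left _ (by positivity)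
    nlinarith
  have t2 : e * c * ((A₁ + A₂) ^ 2 - (B₁ + B₂) ^ 2) ≤
      (1 - m ^ 2 / 2) * σ * ((A₁ + A₂) ^ 2 - (B₁ + B₂) ^ 2) := by
    apply mul_le_mul_of_nonneg_right he3
    have := pow_le_pow_left₀ (add_nonneg hB₁ hB₂) (add_le_add hB₁' hB₂') 2
    linarith
  have t3 : e * m * (A₁ - A₂) ^ 2 ≤ (1 - m ^ 2 / 2) * m * (A₁ - A₂) ^ 2 :=
    mul_le_mul_of_nonneg_right (mul_le_mul_of_nonneg_right he1 hm) (sq_nonneg _)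
  have t4 : (1 - 11 / 20 * m ^ 2) * s * m * (B₁ - B₂) ^ 2 ≤ e * m * (B₁ - B₂) ^ 2 :=
    mul_le_mul_of_nonneg_right (mul_le_mul_of_nonneg_right he2 hm) (sq_nonneg _)
  have hF : FF A₁ B₁ A₂ B₂ m c e = (A₁ + A₂) * (B₁ + B₂) * (1 - 2 * c ^ 2 + c ^ 2 * m ^ 2) -
      e * c * ((A₁ + A₂) ^ 2 - (B₁ + B₂) ^ 2) - e * m * (A₁ - A₂) ^ 2 + e * m * (B₁ - B₂) ^ 2 -
      2 * (A₁ - A₂) * (B₁ - B₂) * (m ^ 2 + c * m) := by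
    rw [FF]; ring
  rw [G3] at h0 h1
  rw [hF]
  rcases le_total 0 ((A₁ - A₂) * (B₁ - B₂)) with hT | hT
  · have t5 : 2 * (A₁ - A₂) * (B₁ - B₂) * (m ^ 2 + c * m) ≤
        2 * (A₁ - A₂) * (B₁ - B₂) * (m ^ 2 + c₀ * m) := by
      have : 0 ≤ ((A₁ - A₂) * (B₁ - B₂)) * ((c₀ - c) * m) :=
        mul_nonneg hT (mul_nonneg (by linarith) hm)
      linarith
    linarith
  · have t5 : 2 * (A₁ - A₂) * (B₁ - B₂) * (m ^ 2 + c * m) ≤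
        2 * (A₁ - A₂) * (B₁ - B₂) * (m ^ 2 + 0 * m) := by
      have : ((A₁ - A₂) * (B₁ - B₂)) * (c * m) ≤ 0 :=
        mul_nonpos_of_nonpos_of_nonneg hT (mul_nonneg hc hm)
      linarith
    linarith

/-- Monotone in `B₁`. -/
theorem G3_mono1 (h : Par c₀ σ s) {p b : ℝ} (hp : 0 ≤ p) (hp' : p ≤ c₀) (hm : 0 ≤ m)
    (hm' : m ≤ 141 / 250) (hb : 0 ≤ b) (hbB : b ≤ B₁) (hA₁ : A₁ ≤ 1) (hA₁' : 0 ≤ A₁)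
    (hA₂ : 2 / 5 ≤ A₂)
    (hB₂ : 0 ≤ B₂) (hB₂' : B₂ ≤ A₂) :
    G3 c₀ σ s m p A₁ b A₂ B₂ ≤ G3 c₀ σ s m p A₁ B₁ A₂ B₂ := by
  have hc0 := h.c0
  have hc1 := h.c1
  have hs := h.s_le
  have hs0 := h.s1
  have hm2 : m ^ 2 ≤ 32 / 100 := by nlinarith
  have hm20 : 0 ≤ m ^ 2 := sq_nonneg m
  have hcc : c₀ ^ 2 ≤ 81 / 1600 := by nlinarith
  have hcm : 0 ≤ c₀ ^ 2 * m ^ 2 := by positivity
  have hpm : p * m ≤ 9 / 40 * (141 / 250) := mul_le_mul (by linarith) hm' hm (by norm_num)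
  have hpm0 : 0 ≤ p * m := mul_nonneg hp hm
  have e : G3 c₀ σ s m p A₁ B₁ A₂ B₂ = G3 c₀ σ s m p A₁ b A₂ B₂ + (B₁ - b) *
      ((A₁ + A₂) * (1 - 2 * c₀ ^ 2 + c₀ ^ 2 * m ^ 2) +
        (1 - m ^ 2 / 2) * σ * (B₁ + b + 2 * B₂) +
        (1 - 11 / 20 * m ^ 2) * s * m * (B₁ + b - 2 * B₂) -
        2 * (A₁ - A₂) * (m ^ 2 + p * m)) := by
    rw [G3, G3]; ring
  have h1 : 0 ≤ (1 - m ^ 2 / 2) * σ * (B₁ + b + 2 * B₂) := by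
    apply mul_nonneg (mul_nonneg (by linarith) h.σ1) (by linarith)
  have hF0 : 0 ≤ (1 - 11 / 20 * m ^ 2) * s * m := by
    apply mul_nonneg (mul_nonneg (by linarith) hs0) hm
  have hF1 : (1 - 11 / 20 * m ^ 2) * s * m ≤ m := by
    have : (1 - 11 / 20 * m ^ 2) * s ≤ 1 * 1 := mul_le_mul (by linarith) hs hs0 zero_le_one
    calc _ ≤ 1 * 1 * m := mul_le_mul_of_nonneg_right this hm
      _ = m := by ring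
  have h2 : -(2 * m * A₂) ≤ (1 - 11 / 20 * m ^ 2) * s * m * (B₁ + b - 2 * B₂) := by
    have i1 : 0 ≤ (1 - 11 / 20 * m ^ 2) * s * m * (B₁ + b) := mul_nonneg hF0 (by linarith)
    have i2 : (1 - 11 / 20 * m ^ 2) * s * m * B₂ ≤ m * A₂ := mul_le_mul hF1 hB₂' hB₂ hm
    linarith
  have h3 : 0 ≤ (A₁ + A₂) * (1 - 2 * c₀ ^ 2 + c₀ ^ 2 * m ^ 2) - 2 * m * A₂ -
      2 * (A₁ - A₂) * (m ^ 2 + p * m) := by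
    obtain ⟨κ, hκ⟩ : ∃ κ, κ = 1 - 2 * c₀ ^ 2 + c₀ ^ 2 * m ^ 2 := ⟨_, rfl⟩
    obtain ⟨lam, hlam⟩ : ∃ lam, lam = m ^ 2 + p * m := ⟨_, rfl⟩
    rw [← hκ, ← hlam]
    have k1 : 898 / 1000 ≤ κ := by rw [hκ]; linarith
    have k2 : lam ≤ 447 / 1000 := by rw [hlam]; linarith
    have k3 : 1 / 3 ≤ κ + 2 * lam - 2 * m := by
      rw [hlam]; nlinarith [sq_nonneg (m - 1 / 2)]
    have i1 : 0 ≤ A₁ * (κ - 2 * lam) := mul_nonneg hA₁' (by linarith)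
    have i2 : 0 ≤ A₂ * (κ + 2 * lam - 2 * m) := mul_nonneg (by linarith) (by linarith)
    nlinarith
  rw [e]
  have : 0 ≤ (B₁ - b) *
      ((A₁ + A₂) * (1 - 2 * c₀ ^ 2 + c₀ ^ 2 * m ^ 2) +
        (1 - m ^ 2 / 2) * σ * (B₁ + b + 2 * B₂) +
        (1 - 11 / 20 * m ^ 2) * s * m * (B₁ + b - 2 * B₂) -
        2 * (A₁ - A₂) * (m ^ 2 + p * m)) := mul_nonneg (by linarith) (by linarith)
  linarith

/-- Monotone in `B₂`. -/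
theorem G3_mono2 (h : Par c₀ σ s) {p b β : ℝ} (hp : 0 ≤ p) (hp' : p ≤ c₀) (hm : 0 ≤ m)
    (hm' : m ≤ 141 / 250) (hb : 0 ≤ b) (hbA : b ≤ A₁) (hA₂ : 0 ≤ A₂) (hβ : 0 ≤ β) (hβB : β ≤ B₂) :
    G3 c₀ σ s m p A₁ b A₂ β ≤ G3 c₀ σ s m p A₁ b A₂ B₂ := by
  have hc0 := h.c0
  have hc1 := h.c1
  have hs := h.s_le
  have hs0 := h.s1
  have hm2 : m ^ 2 ≤ 32 / 100 := by nlinarith
  have hm20 : 0 ≤ m ^ 2 := sq_nonneg m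
  have hcc : c₀ ^ 2 ≤ 81 / 1600 := by nlinarith
  have hcm : 0 ≤ c₀ ^ 2 * m ^ 2 := by positivity
  have hpm : p * m ≤ 9 / 40 * (141 / 250) := mul_le_mul (by linarith) hm' hm (by norm_num)
  have hpm0 : 0 ≤ p * m := mul_nonneg hp hm
  have hA₁ : 0 ≤ A₁ := hb.trans hbA
  have e : G3 c₀ σ s m p A₁ b A₂ B₂ = G3 c₀ σ s m p A₁ b A₂ β + (B₂ - β) *
      ((A₁ + A₂) * (1 - 2 * c₀ ^ 2 + c₀ ^ 2 * m ^ 2) +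
        (1 - m ^ 2 / 2) * σ * (B₂ + β + 2 * b) +
        (1 - 11 / 20 * m ^ 2) * s * m * (B₂ + β - 2 * b) +
        2 * (A₁ - A₂) * (m ^ 2 + p * m)) := by
    rw [G3, G3]; ring
  have h1 : 0 ≤ (1 - m ^ 2 / 2) * σ * (B₂ + β + 2 * b) := by
    apply mul_nonneg (mul_nonneg (by linarith) h.σ1) (by linarith)
  have hF0 : 0 ≤ (1 - 11 / 20 * m ^ 2) * s * m := by
    apply mul_nonneg (mul_nonneg (by linarith) hs0) hm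
  have hF1 : (1 - 11 / 20 * m ^ 2) * s * m ≤ m := by
    have : (1 - 11 / 20 * m ^ 2) * s ≤ 1 * 1 := mul_le_mul (by linarith) hs hs0 zero_le_one
    calc _ ≤ 1 * 1 * m := mul_le_mul_of_nonneg_right this hm
      _ = m := by ring
  have h2 : -(2 * m * A₁) ≤ (1 - 11 / 20 * m ^ 2) * s * m * (B₂ + β - 2 * b) := by
    have i1 : 0 ≤ (1 - 11 / 20 * m ^ 2) * s * m * (B₂ + β) := mul_nonneg hF0 (by linarith)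
    have i2 : (1 - 11 / 20 * m ^ 2) * s * m * b ≤ m * A₁ := mul_le_mul hF1 hbA hb hm
    linarith
  have h3 : 0 ≤ (A₁ + A₂) * (1 - 2 * c₀ ^ 2 + c₀ ^ 2 * m ^ 2) - 2 * m * A₁ +
      2 * (A₁ - A₂) * (m ^ 2 + p * m) := by
    obtain ⟨κ, hκ⟩ : ∃ κ, κ = 1 - 2 * c₀ ^ 2 + c₀ ^ 2 * m ^ 2 := ⟨_, rfl⟩
    obtain ⟨lam, hlam⟩ : ∃ lam, lam = m ^ 2 + p * m := ⟨_, rfl⟩
    rw [← hκ, ← hlam]
    have k1 : 898 / 1000 ≤ κ := by rw [hκ]; linarith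
    have k2 : lam ≤ 447 / 1000 := by rw [hlam]; linarith
    have k3 : 1 / 3 ≤ κ + 2 * lam - 2 * m := by
      rw [hlam]; nlinarith [sq_nonneg (m - 1 / 2)]
    have i1 : 0 ≤ A₂ * (κ - 2 * lam) := mul_nonneg hA₂ (by linarith)
    have i2 : 0 ≤ A₁ * (κ + 2 * lam - 2 * m) := mul_nonneg hA₁ (by linarith)
    nlinarith
  rw [e]
  have : 0 ≤ (B₂ - β) *
      ((A₁ + A₂) * (1 - 2 * c₀ ^ 2 + c₀ ^ 2 * m ^ 2) +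
        (1 - m ^ 2 / 2) * σ * (B₂ + β + 2 * b) +
        (1 - 11 / 20 * m ^ 2) * s * m * (B₂ + β - 2 * b) +
        2 * (A₁ - A₂) * (m ^ 2 + p * m)) := mul_nonneg (by linarith) (by linarith)
  linarith

/-- Concave in `A₁`. -/
theorem G3_A1 (h : Par c₀ σ s) {p b β l u : ℝ} (hm : 0 ≤ m) (hm' : m ≤ 141 / 250)
    (hl : l ≤ A₁) (hu : A₁ ≤ u)
    (h1 : 0 < G3 c₀ σ s m p l b A₂ β) (h2 : 0 < G3 c₀ σ s m p u b A₂ β) :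
    0 < G3 c₀ σ s m p A₁ b A₂ β := by
  have hm2 : m ^ 2 ≤ 32 / 100 := by nlinarith
  have hα : 0 ≤ (1 - m ^ 2 / 2) * (σ + m) := mul_nonneg (by linarith) (by linarith [h.σ1])
  have := conc (α := (1 - m ^ 2 / 2) * (σ + m))
    (β := (b + β) * (1 - 2 * c₀ ^ 2 + c₀ ^ 2 * m ^ 2) - 2 * (1 - m ^ 2 / 2) * σ * A₂ +
      2 * (1 - m ^ 2 / 2) * m * A₂ - 2 * (b - β) * (m ^ 2 + p * m))
    (γ := A₂ * (b + β) * (1 - 2 * c₀ ^ 2 + c₀ ^ 2 * m ^ 2) -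
      (1 - m ^ 2 / 2) * σ * (A₂ ^ 2 - (b + β) ^ 2) - (1 - m ^ 2 / 2) * m * A₂ ^ 2 +
      (1 - 11 / 20 * m ^ 2) * s * m * (b - β) ^ 2 + 2 * A₂ * (b - β) * (m ^ 2 + p * m)) hα hl hu
    (h1.trans_eq (by rw [G3]; ring)) (h2.trans_eq (by rw [G3]; ring))
  exact this.trans_eq (by rw [G3]; ring)

/-- Concave in `A₂`, `B₂ = 0`. -/
theorem G3_A2 (h : Par c₀ σ s) {p b l u : ℝ} (hm : 0 ≤ m) (hm' : m ≤ 141 / 250)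
    (hl : l ≤ A₂) (hu : A₂ ≤ u)
    (h1 : 0 < G3 c₀ σ s m p A₁ b l 0) (h2 : 0 < G3 c₀ σ s m p A₁ b u 0) :
    0 < G3 c₀ σ s m p A₁ b A₂ 0 := by
  have hm2 : m ^ 2 ≤ 32 / 100 := by nlinarith
  have hα : 0 ≤ (1 - m ^ 2 / 2) * (σ + m) := mul_nonneg (by linarith) (by linarith [h.σ1])
  have := conc (α := (1 - m ^ 2 / 2) * (σ + m))
    (β := b * (1 - 2 * c₀ ^ 2 + c₀ ^ 2 * m ^ 2) - 2 * (1 - m ^ 2 / 2) * σ * A₁ +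
      2 * (1 - m ^ 2 / 2) * m * A₁ + 2 * b * (m ^ 2 + p * m))
    (γ := A₁ * b * (1 - 2 * c₀ ^ 2 + c₀ ^ 2 * m ^ 2) -
      (1 - m ^ 2 / 2) * σ * (A₁ ^ 2 - b ^ 2) - (1 - m ^ 2 / 2) * m * A₁ ^ 2 +
      (1 - 11 / 20 * m ^ 2) * s * m * b ^ 2 - 2 * A₁ * b * (m ^ 2 + p * m)) hα hl hu
    (h1.trans_eq (by rw [G3]; ring)) (h2.trans_eq (by rw [G3]; ring))
  exact this.trans_eq (by rw [G3]; ring)

/-- Concave in `A₂`, `B₂ = r - A₂`. -/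
theorem G3_A2' (h : Par c₀ σ s) {p b l u r : ℝ} (hp : 0 ≤ p) (hp' : p ≤ c₀) (hm : 0 ≤ m)
    (hm' : m ≤ 141 / 250) (hl : l ≤ A₂) (hu : A₂ ≤ u)
    (h1 : 0 < G3 c₀ σ s m p A₁ b l (r - l)) (h2 : 0 < G3 c₀ σ s m p A₁ b u (r - u)) :
    0 < G3 c₀ σ s m p A₁ b A₂ (r - A₂) := by
  have hc0 := h.c0
  have hc1 := h.c1
  have hs := h.s_le
  have hs0 := h.s1
  have hm2 : m ^ 2 ≤ 32 / 100 := by nlinarith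
  have hm20 : 0 ≤ m ^ 2 := sq_nonneg m
  have hcc : c₀ ^ 2 ≤ 81 / 1600 := by nlinarith
  have hcm : 0 ≤ c₀ ^ 2 * m ^ 2 := by positivity
  have hpm : p * m ≤ 9 / 40 * (141 / 250) := mul_le_mul (by linarith) hm' hm (by norm_num)
  have hF : (1 - 11 / 20 * m ^ 2) * s * m ≤ (1 - m ^ 2 / 2) * m := by
    apply mul_le_mul_of_nonneg_right _ hm
    calc (1 - 11 / 20 * m ^ 2) * s ≤ (1 - 11 / 20 * m ^ 2) * 1 :=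
          mul_le_mul_of_nonneg_left hs (by linarith)
      _ ≤ 1 - m ^ 2 / 2 := by linarith
  have hα : 0 ≤ (1 - 2 * c₀ ^ 2 + c₀ ^ 2 * m ^ 2) + (1 - m ^ 2 / 2) * m -
      (1 - 11 / 20 * m ^ 2) * s * m - 2 * (m ^ 2 + p * m) := by linarith
  have := conc (α := (1 - 2 * c₀ ^ 2 + c₀ ^ 2 * m ^ 2) + (1 - m ^ 2 / 2) * m -
      (1 - 11 / 20 * m ^ 2) * s * m - 2 * (m ^ 2 + p * m))
    (β := (b + r - A₁) * (1 - 2 * c₀ ^ 2 + c₀ ^ 2 * m ^ 2) -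
      (1 - m ^ 2 / 2) * σ * (2 * A₁ + 2 * (b + r)) +
      2 * (1 - m ^ 2 / 2) * m * A₁ + 2 * (1 - 11 / 20 * m ^ 2) * s * m * (b - r) -
      2 * (A₁ - (b - r)) * (m ^ 2 + p * m))
    (γ := A₁ * (b + r) * (1 - 2 * c₀ ^ 2 + c₀ ^ 2 * m ^ 2) -
      (1 - m ^ 2 / 2) * σ * (A₁ ^ 2 - (b + r) ^ 2) - (1 - m ^ 2 / 2) * m * A₁ ^ 2 +
      (1 - 11 / 20 * m ^ 2) * s * m * (b - r) ^ 2 - 2 * A₁ * (b - r) * (m ^ 2 + p * m)) hα hl hu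
    (h1.trans_eq (by rw [G3]; ring)) (h2.trans_eq (by rw [G3]; ring))
  exact this.trans_eq (by rw [G3]; ring)

/-- The corners of a rectangle `[l₁, u₁] × [l₂, u₂]`; `β`, `β'` are the values of `B₂` at the two
ends of `[l₂, u₂]`. -/
structure Rect (c₀ σ s b l₁ u₁ l₂ β u₂ β' m : ℝ) : Prop where
  a0 : 0 < G3 c₀ σ s m 0 l₁ b l₂ β
  b0 : 0 < G3 c₀ σ s m 0 u₁ b l₂ β
  c0 : 0 < G3 c₀ σ s m 0 l₁ b u₂ β'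
  d0 : 0 < G3 c₀ σ s m 0 u₁ b u₂ β'
  a1 : 0 < G3 c₀ σ s m c₀ l₁ b l₂ β
  b1 : 0 < G3 c₀ σ s m c₀ u₁ b l₂ β
  c1 : 0 < G3 c₀ σ s m c₀ l₁ b u₂ β'
  d1 : 0 < G3 c₀ σ s m c₀ u₁ b u₂ β'

variable {b l₁ u₁ l₂ u₂ : ℝ}

/-- Positivity on a flat rectangle. -/
theorem Rect.flat (h : Par c₀ σ s) (hm : 0 ≤ m) (hm' : m ≤ 141 / 250)
    (hR : Rect c₀ σ s b l₁ u₁ l₂ 0 u₂ 0 m) (hb : 0 ≤ b) (hbl : b ≤ l₁) (hbB : b ≤ B₁)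
    (hl1 : l₁ ≤ A₁) (hu1 : A₁ ≤ u₁) (hA1 : A₁ ≤ 1) (hl2 : l₂ ≤ A₂) (hu2 : A₂ ≤ u₂)
    (h2 : 2 / 5 ≤ l₂) (hB₂ : 0 ≤ B₂) (hB₂' : B₂ ≤ A₂) :
    0 < G3 c₀ σ s m 0 A₁ B₁ A₂ B₂ ∧ 0 < G3 c₀ σ s m c₀ A₁ B₁ A₂ B₂ := by
  have hA : 0 ≤ A₁ := hb.trans (hbl.trans hl1)
  constructor
  · have i1 := G3_A1 h hm hm' hl1 hu1 (G3_A2 h hm hm' hl2 hu2 hR.a0 hR.c0)
      (G3_A2 h hm hm' hl2 hu2 hR.b0 hR.d0)
    have i2 := G3_mono2 h le_rfl h.c0 hm hm' hb (hbl.trans hl1) (by linarith : 0 ≤ A₂) le_rfl hB₂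
    exact (i1.trans_le i2).trans_le
      (G3_mono1 h le_rfl h.c0 hm hm' hb hbB hA1 hA (by linarith) hB₂ hB₂')
  · have i1 := G3_A1 h hm hm' hl1 hu1 (G3_A2 h hm hm' hl2 hu2 hR.a1 hR.c1)
      (G3_A2 h hm hm' hl2 hu2 hR.b1 hR.d1)
    have i2 := G3_mono2 h h.c0 le_rfl hm hm' hb (hbl.trans hl1) (by linarith : 0 ≤ A₂) le_rfl hB₂
    exact (i1.trans_le i2).trans_le
      (G3_mono1 h h.c0 le_rfl hm hm' hb hbB hA1 hA (by linarith) hB₂ hB₂')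

/-- Positivity on a rectangle, `r - A₂ ≤ B₂`. -/
theorem Rect.line (h : Par c₀ σ s) (hm : 0 ≤ m) (hm' : m ≤ 141 / 250) {r : ℝ}
    (hR : Rect c₀ σ s b l₁ u₁ l₂ (r - l₂) u₂ (r - u₂) m) (hb : 0 ≤ b) (hbl : b ≤ l₁)
    (hbB : b ≤ B₁) (hl1 : l₁ ≤ A₁) (hu1 : A₁ ≤ u₁) (hA1 : A₁ ≤ 1) (hl2 : l₂ ≤ A₂) (hu2 : A₂ ≤ u₂)
    (hur : u₂ ≤ r) (h2 : 2 / 5 ≤ l₂) (hB₂ : r - A₂ ≤ B₂) (hB₂' : B₂ ≤ A₂) :
    0 < G3 c₀ σ s m 0 A₁ B₁ A₂ B₂ ∧ 0 < G3 c₀ σ s m c₀ A₁ B₁ A₂ B₂ := by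
  have hA : 0 ≤ A₁ := hb.trans (hbl.trans hl1)
  have hβ : 0 ≤ r - A₂ := by linarith
  constructor
  · have i1 := G3_A1 h hm hm' hl1 hu1 (G3_A2' h le_rfl h.c0 hm hm' hl2 hu2 hR.a0 hR.c0)
      (G3_A2' h le_rfl h.c0 hm hm' hl2 hu2 hR.b0 hR.d0)
    have i2 := G3_mono2 h le_rfl h.c0 hm hm' hb (hbl.trans hl1) (by linarith : 0 ≤ A₂) hβ hB₂
    exact (i1.trans_le i2).trans_le
      (G3_mono1 h le_rfl h.c0 hm hm' hb hbB hA1 hA (by linarith) (hβ.trans hB₂) hB₂')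
  · have i1 := G3_A1 h hm hm' hl1 hu1 (G3_A2' h h.c0 le_rfl hm hm' hl2 hu2 hR.a1 hR.c1)
      (G3_A2' h h.c0 le_rfl hm hm' hl2 hu2 hR.b1 hR.d1)
    have i2 := G3_mono2 h h.c0 le_rfl hm hm' hb (hbl.trans hl1) (by linarith : 0 ≤ A₂) hβ hB₂
    exact (i1.trans_le i2).trans_le
      (G3_mono1 h h.c0 le_rfl hm hm' hb hbB hA1 hA (by linarith) (hβ.trans hB₂) hB₂')

end Pool.Agent.S3.E.J3
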