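import Pool.Agent.S3.E.GeoC
import Pool.Agent.S3.E.J2C
import Pool.Agent.S3.E.J3A

/-!
# Stage 3, block E: the sharp joint range condition, the key step
-/

set_option autoImplicit false

namespace Pool.Agent.S3.E.J3

open Complex Pool.Agent.S3.E.J2

/-- The modulus of the quartic. -/
theorem mod_le {z b₁ b₂ : ℂ} (h : 0 < z.re) (h' : z.re < Real.pi / 2)
    (hq : 4 * (cos z ^ 2) ^ 2 - 4 * (b₁ * b₂) * cos z ^ 2 + (b₁ + b₂) ^ 2 = 0) :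
    ((b₁.re + b₂.re) ^ 2 + (b₁.im + b₂.im) ^ 2) * s2 z.re z.im ≤
      k2 z.re z.im * (4 * k2 z.re z.im + ((b₁.re - b₂.re) ^ 2 + (b₁.im - b₂.im) ^ 2)) := by
  have e1 : (b₁ + b₂) ^ 2 * sin z ^ 2 = -(cos z ^ 2 * (4 * cos z ^ 2 + (b₁ - b₂) ^ 2)) := by
    have h2 := sin_sq_add_cos_sq z
    have h3 : sin z ^ 2 = 1 - cos z ^ 2 := by linear_combination h2
    rw [h3]
    linear_combination hq
  have e2 := congrArg norm e1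
  rw [norm_neg, norm_mul, norm_mul, norm_pow, norm_pow, norm_pow] at e2
  have hS : ‖b₁ + b₂‖ ^ 2 = (b₁.re + b₂.re) ^ 2 + (b₁.im + b₂.im) ^ 2 := by
    rw [← Complex.normSq_eq_norm_sq, Complex.normSq_apply, add_re, add_im]; ring
  have hD : ‖b₁ - b₂‖ ^ 2 = (b₁.re - b₂.re) ^ 2 + (b₁.im - b₂.im) ^ 2 := by
    rw [← Complex.normSq_eq_norm_sq, Complex.normSq_apply, sub_re, sub_im]; ring
  have hs : ‖sin z‖ ^ 2 = s2 z.re z.im := norm_sin_sq z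
  have hc : ‖cos z‖ ^ 2 = k2 z.re z.im := norm_cos_sq z
  have hn : ‖4 * cos z ^ 2 + (b₁ - b₂) ^ 2‖ ≤ 4 * k2 z.re z.im +
      ((b₁.re - b₂.re) ^ 2 + (b₁.im - b₂.im) ^ 2) := by
    refine (norm_add_le _ _).trans ?_
    rw [norm_mul, norm_pow, norm_pow, hc, hD]
    norm_num
  rw [hS, hs, hc] at e2
  rw [e2]
  exact mul_le_mul_of_nonneg_left hn (k2_pos h h').le

theorem key3 {c₀ σ s : ℝ} (hP : Par c₀ σ s) {z b₁ b₂ : ℂ} (h : 0 < z.re)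
    (h' : z.re < Real.pi / 2) (hI : 0 < z.im)
    (hθ : th z.re z.im ≤ Real.pi / 4) (hk : k2 z.re z.im ≤ 1)
    (hq : 4 * (cos z ^ 2) ^ 2 - 4 * (b₁ * b₂) * cos z ^ 2 + (b₁ + b₂) ^ 2 = 0) {m₀ : ℝ}
    (hm₀ : 0 ≤ m₀)
    (hlow : 16 * m₀ ^ 2 ≤ (1 - c₀ ^ 2 * m₀ ^ 2) *
        ((b₁.re + b₂.re) ^ 2 + (b₁.im + b₂.im) ^ 2) -
      2 * m₀ * (1 + c₀ * m₀) * ((b₁.re - b₂.re) ^ 2 + (b₁.im - b₂.im) ^ 2))
    (hB₁ : 0 ≤ b₁.im) (hB₁' : b₁.im ≤ b₁.re) (hB₂ : 0 ≤ b₂.im) (hB₂' : b₂.im ≤ b₂.re)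
    (hpos : ∀ m : ℝ, m₀ ≤ m → m * (2 - c₀) ≤ 1 → 0 < G3 c₀ σ s m 0 b₁.re b₁.im b₂.re b₂.im ∧
      0 < G3 c₀ σ s m c₀ b₁.re b₁.im b₂.re b₂.im) :
    c₀ ≤ Real.cos (2 * th z.re z.im) := by
  have hc₀ := hP.c0
  have hc₁ := hP.c1
  by_contra hcon
  push Not at hcon
  have hid := im_id h h' hI hq rfl rfl rfl rfl
  have hK := k2_pos (I := z.im) h h'
  have hmod := mod_le h h' hq
  have hM1 : Real.cosh (2 * xx z.re z.im) * k2 z.re z.im = 1 + s2 z.re z.im := by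
    rw [cosh_two_xx h h' hI]; field_simp
  have hc1 : Real.cos (2 * th z.re z.im) * k2 z.re z.im = 1 - s2 z.re z.im := by
    rw [cos_two_th h h' hI]; field_simp
  have hMc : 2 ≤ Real.cosh (2 * xx z.re z.im) + Real.cos (2 * th z.re z.im) := by
    rw [cosh_two_xx h h' hI, cos_two_th h h' hI, ← add_div, le_div_iff₀ hK]
    linarith
  have hc0 : 0 ≤ Real.cos (2 * th z.re z.im) :=
    Real.cos_nonneg_of_mem_Icc ⟨by linarith [th_pos h h' hI, Real.pi_pos], by linarith⟩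
  have hs0 : 0 ≤ Real.sin (2 * th z.re z.im) :=
    Real.sin_nonneg_of_nonneg_of_le_pi (by linarith [th_pos h h' hI])
      (by linarith [Real.pi_pos])
  have hN0 : 0 ≤ Real.sinh (2 * xx z.re z.im) :=
    Real.sinh_nonneg_iff.2 (by linarith [xx_pos h h' hI])
  have hMN := Real.cosh_sq (2 * xx z.re z.im)
  have hcs := Real.sin_sq_add_cos_sq (2 * th z.re z.im)
  obtain ⟨K, hKe⟩ : ∃ K, K = k2 z.re z.im := ⟨_, rfl⟩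
  obtain ⟨S, hSe⟩ : ∃ S, S = s2 z.re z.im := ⟨_, rfl⟩
  obtain ⟨M, hM⟩ : ∃ M, M = Real.cosh (2 * xx z.re z.im) := ⟨_, rfl⟩
  obtain ⟨N, hN⟩ : ∃ N, N = Real.sinh (2 * xx z.re z.im) := ⟨_, rfl⟩
  obtain ⟨c, hc⟩ : ∃ c, c = Real.cos (2 * th z.re z.im) := ⟨_, rfl⟩
  obtain ⟨r, hr⟩ : ∃ r, r = Real.sin (2 * th z.re z.im) := ⟨_, rfl⟩
  rw [← hKe, ← hSe] at hmod
  rw [← hKe] at hK
  rw [← hM, ← hKe, ← hSe] at hM1
  rw [← hc, ← hKe, ← hSe] at hc1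
  rw [← hM, ← hN, ← hc, ← hr] at hid
  rw [← hM, ← hc] at hMc
  rw [← hc] at hc0 hcon
  rw [← hr] at hs0
  rw [← hN] at hN0
  rw [← hM, ← hN] at hMN
  rw [← hc, ← hr] at hcs
  have hM2 : 2 - c₀ ≤ M := by linarith
  have hM0 : 0 < M := by linarith
  obtain ⟨m, hm⟩ : ∃ m, m = 1 / M := ⟨_, rfl⟩
  have hmM : m * M = 1 := by rw [hm]; field_simp
  have hm0 : 0 < m := by rw [hm]; positivity
  have hm1 : m * (2 - c₀) ≤ 1 := by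
    calc m * (2 - c₀) ≤ m * M := mul_le_mul_of_nonneg_left hM2 hm0.le
      _ = 1 := hmM
  have hm2 : m ≤ 141 / 250 := by nlinarith
  -- the lower bound of `m`
  obtain ⟨Q, hQ⟩ : ∃ Q, Q = (b₁.re + b₂.re) ^ 2 + (b₁.im + b₂.im) ^ 2 := ⟨_, rfl⟩
  obtain ⟨T, hT⟩ : ∃ T, T = (b₁.re - b₂.re) ^ 2 + (b₁.im - b₂.im) ^ 2 := ⟨_, rfl⟩
  have hQ0 : 0 ≤ Q := by rw [hQ]; positivity
  have hT0 : 0 ≤ T := by rw [hT]; positivity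
  rw [← hQ, ← hT] at hlow hmod
  have hmod' : (1 - c ^ 2 * m ^ 2) * Q ≤ 16 * m ^ 2 + 2 * (m + c * m ^ 2) * T := by
    have i1 : (M + c) * K = 2 := by linarith
    have i2 : (M - c) * K = 2 * S := by linarith
    -- `K² (M² - c²) Q = 4 S Q ≤ 4 K (4 K + T)`
    have i3 : K ^ 2 * ((M ^ 2 - c ^ 2) * Q) ≤ K ^ 2 * (16 + 2 * (M + c) * T) := by
      have j1 : K ^ 2 * ((M ^ 2 - c ^ 2) * Q) = 4 * (Q * S) := by
        calc K ^ 2 * ((M ^ 2 - c ^ 2) * Q) = ((M + c) * K) * ((M - c) * K) * Q := by ring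
          _ = 4 * (Q * S) := by rw [i1, i2]; ring
      have j2 : K ^ 2 * (16 + 2 * (M + c) * T) = 4 * (K * (4 * K + T)) := by
        calc K ^ 2 * (16 + 2 * (M + c) * T) = 16 * K ^ 2 + 2 * ((M + c) * K) * K * T := by ring
          _ = _ := by rw [i1]; ring
      rw [j1, j2]; linarith
    have i4 : (M ^ 2 - c ^ 2) * Q ≤ 16 + 2 * (M + c) * T :=
      le_of_mul_le_mul_left i3 (pow_pos hK 2)
    have i5 := mul_le_mul_of_nonneg_left i4 (sq_nonneg m)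
    have i6 : m ^ 2 * ((M ^ 2 - c ^ 2) * Q) = (1 - c ^ 2 * m ^ 2) * Q := by
      calc m ^ 2 * ((M ^ 2 - c ^ 2) * Q) = ((m * M) ^ 2 - c ^ 2 * m ^ 2) * Q := by ring
        _ = _ := by rw [hmM]; ring
    have i7 : m ^ 2 * (16 + 2 * (M + c) * T) = 16 * m ^ 2 + 2 * (m + c * m ^ 2) * T := by
      calc m ^ 2 * (16 + 2 * (M + c) * T) =
          16 * m ^ 2 + 2 * (m * (m * M) + c * m ^ 2) * T := by ring
        _ = _ := by rw [hmM]; ring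
    rw [i6, i7] at i5
    exact i5
  have hmm : m₀ ≤ m := by
    by_contra hlt
    push Not at hlt
    have j1 : c ^ 2 * m ^ 2 ≤ c₀ ^ 2 * m₀ ^ 2 := by
      rw [← mul_pow, ← mul_pow]
      exact pow_le_pow_left₀ (by positivity) (mul_le_mul hcon.le hlt.le hm0.le hc₀) 2
    have j2 : m + c * m ^ 2 ≤ m₀ * (1 + c₀ * m₀) := by
      have k1 : c * m ^ 2 ≤ c₀ * m₀ ^ 2 :=
        mul_le_mul hcon.le (pow_le_pow_left₀ hm0.le hlt.le 2) (by positivity) hc₀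
      linarith
    have j3 : m ^ 2 < m₀ ^ 2 := pow_lt_pow_left₀ hlt hm0.le two_ne_zero
    have j4 := mul_le_mul_of_nonneg_right j1 hQ0
    have j5 := mul_le_mul_of_nonneg_right j2 hT0
    linarith
  obtain ⟨hp0, hp1⟩ := hpos m hmm hm1
  -- the reduction
  obtain ⟨n, hn⟩ : ∃ n, n = m * N := ⟨_, rfl⟩
  have hn0 : 0 ≤ n := by rw [hn]; positivity
  have hn2 : n ^ 2 = 1 - m ^ 2 := by
    rw [hn]
    calc (m * N) ^ 2 = m ^ 2 * N ^ 2 := by ring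
      _ = m ^ 2 * (M ^ 2 - 1) := by rw [hMN]; ring
      _ = (m * M) ^ 2 - m ^ 2 := by ring
      _ = 1 - m ^ 2 := by rw [hmM]; ring
  have hpos' := FF_ge3 (A₁ := b₁.re) (B₁ := b₁.im) (A₂ := b₂.re) (B₂ := b₂.im) hP (c := c)
    (e := m * (N * r)) (n := n) (r := r) hc0 hcon.le hm0.le hm2 hn0 hn2 hs0 (by linarith)
    (by rw [hn]; ring) (hB₁.trans hB₁') hB₁ hB₁' hB₂ hB₂' hp0 hp1
  have hz : FF b₁.re b₁.im b₂.re b₂.im m c (m * (N * r)) = 0 := by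
    have h1 : M ^ 2 * FF b₁.re b₁.im b₂.re b₂.im m c (m * (N * r)) = 0 := by
      have h2 : N ^ 2 = M ^ 2 - 1 := by linarith
      have h3 : r ^ 2 = 1 - c ^ 2 := by linarith
      have h4 : 1 + (N * r) ^ 2 - (M * c) ^ 2 = M ^ 2 * (1 - 2 * c ^ 2) + c ^ 2 := by
        rw [mul_pow, h2, h3]; ring
      rw [h4] at hid
      rw [FF]
      have e : M ^ 2 * ((b₁.re + b₂.re) * (b₁.im + b₂.im) * (1 - 2 * c ^ 2 + c ^ 2 * m ^ 2) -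
          m * (N * r) * (c * ((b₁.re + b₂.re) ^ 2 - (b₁.im + b₂.im) ^ 2) +
            m * ((b₁.re - b₂.re) ^ 2 - (b₁.im - b₂.im) ^ 2)) -
          2 * (b₁.re - b₂.re) * (b₁.im - b₂.im) * (m ^ 2 + c * m)) =
        (b₁.re + b₂.re) * (b₁.im + b₂.im) * (M ^ 2 * (1 - 2 * c ^ 2) + c ^ 2 * (m * M) ^ 2) -
          (N * r) * (M * (m * M) * c * ((b₁.re + b₂.re) ^ 2 - (b₁.im + b₂.im) ^ 2) +
            (m * M) ^ 2 * ((b₁.re - b₂.re) ^ 2 - (b₁.im - b₂.im) ^ 2)) -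
          2 * (b₁.re - b₂.re) * (b₁.im - b₂.im) * ((m * M) ^ 2 + c * M * (m * M)) := by ring
      rw [e, hmM]
      linear_combination hid
    rcases mul_eq_zero.1 h1 with h2 | h2
    · exact absurd h2 (by positivity)
    · exact h2
  linarith

/-- The lower bound of `m` on a rectangle. -/
theorem low_of {c₀ m₀ l₁ l₂ b A₁ B₁ A₂ B₂ : ℝ} (hc : 0 ≤ c₀) (hm : 0 ≤ m₀)
    (hν : 2 * m₀ * (1 + c₀ * m₀) ≤ 1 - c₀ ^ 2 * m₀ ^ 2) (hl1 : 0 ≤ l₁) (hl2 : 0 ≤ l₂) (hb : 0 ≤ b)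
    (h1 : l₁ ≤ A₁) (h2 : l₂ ≤ A₂) (h3 : b ≤ B₁) (h4 : 0 ≤ B₂)
    (hn : 16 * m₀ ^ 2 ≤ (1 - c₀ ^ 2 * m₀ ^ 2) * ((l₁ + l₂) ^ 2 + b ^ 2) -
      2 * m₀ * (1 + c₀ * m₀) * ((l₁ - l₂) ^ 2 + b ^ 2)) :
    16 * m₀ ^ 2 ≤ (1 - c₀ ^ 2 * m₀ ^ 2) * ((A₁ + A₂) ^ 2 + (B₁ + B₂) ^ 2) -
      2 * m₀ * (1 + c₀ * m₀) * ((A₁ - A₂) ^ 2 + (B₁ - B₂) ^ 2) := by
  obtain ⟨α, hα⟩ : ∃ α, α = 1 - c₀ ^ 2 * m₀ ^ 2 := ⟨_, rfl⟩
  obtain ⟨μ, hμ⟩ : ∃ μ, μ = 2 * m₀ * (1 + c₀ * m₀) := ⟨_, rfl⟩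
  rw [← hα, ← hμ] at hn hν ⊢
  have hμ0 : 0 ≤ μ := by rw [hμ]; positivity
  have i1 : l₁ ^ 2 ≤ A₁ ^ 2 := pow_le_pow_left₀ hl1 h1 2
  have i2 : l₂ ^ 2 ≤ A₂ ^ 2 := pow_le_pow_left₀ hl2 h2 2
  have i3 : b ^ 2 ≤ B₁ ^ 2 := pow_le_pow_left₀ hb h3 2
  have i4 : l₁ * l₂ ≤ A₁ * A₂ := mul_le_mul h1 h2 hl2 (hl1.trans h1)
  have i5 : 0 ≤ B₁ * B₂ := mul_nonneg (hb.trans h3) h4
  have i6 : 0 ≤ B₂ ^ 2 := sq_nonneg _
  have j1 : 0 ≤ (α - μ) * ((A₁ ^ 2 - l₁ ^ 2) + (A₂ ^ 2 - l₂ ^ 2) + (B₁ ^ 2 - b ^ 2) + B₂ ^ 2) :=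
    mul_nonneg (by linarith) (by linarith)
  have j2 : 0 ≤ (α + μ) * ((A₁ * A₂ - l₁ * l₂) + B₁ * B₂) :=
    mul_nonneg (by linarith) (by linarith)
  nlinarith

end Pool.Agent.S3.E.J3
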