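import Pool.Agent.S3.E.J3B
import Pool.Agent.S3.E.J2

/-!
# Stage 3, block E: the sharp joint range condition, rectangles
-/

set_option autoImplicit false

namespace Pool.Agent.S3.E.J3

open Complex Pool.Agent.S3.E.J2

/-- The data of the inner vertex. -/
structure Hyp (z b₁ b₂ : ℂ) : Prop where
  R0 : 0 < z.re
  R1 : z.re < Real.pi / 2
  I0 : 0 < z.im
  θ1 : th z.re z.im ≤ Real.pi / 4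
  k1 : k2 z.re z.im ≤ 1
  q : 4 * (cos z ^ 2) ^ 2 - 4 * (b₁ * b₂) * cos z ^ 2 + (b₁ + b₂) ^ 2 = 0
  B1 : 0 ≤ b₁.im
  B1' : b₁.im ≤ b₁.re
  A1 : b₁.re ≤ 1
  B2 : 0 ≤ b₂.im
  B2' : b₂.im ≤ b₂.re
  ρ2 : (63 / 100) ^ 2 ≤ b₂.re ^ 2 + b₂.im ^ 2
  A2 : b₂.re ≤ 1

/-- The data of the neighbour, `κ = tan² θ₀ / (1 + tan² θ₀)`. -/
structure Nb (κ A B a g : ℝ) : Prop where
  a0 : 0 < a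
  a1 : a < 1
  g0 : 0 < g
  A0 : 0 ≤ A
  B0 : 0 ≤ B
  BA : B ≤ A
  hA : A ^ 2 = a * (1 + g)
  hB : B ^ 2 = (1 - a) * g
  hκ : κ * (a + g) ≤ g
  h1 : a + g ≤ 1

theorem Nb.reg {κ A B a g : ℝ} (h : Nb κ A B a g) {klo khi b l u : ℝ} (h1 : klo ≤ a + g)
    (h2 : a + g ≤ khi) (hκ0 : 0 ≤ κ) (hκ1 : κ ≤ 1)
    (hlo : b ^ 2 ≤ (1 - klo + κ * klo) * (κ * klo))
    (hhi : b ^ 2 ≤ (1 - khi + κ * khi) * (κ * khi)) (hb : 0 ≤ b) (hl : l ^ 2 ≤ klo / 2)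
    (hu : khi - b ^ 2 ≤ u ^ 2) (hu0 : 0 ≤ u) : b ≤ B ∧ l ≤ A ∧ A ≤ u :=
  J2.reg h.a0 h.a1 h.g0 h.A0 h.B0 h.BA h.hA h.hB h.hκ hκ0 h1 h2 hκ1 hlo hhi hb hl hu hu0

variable {z b₁ b₂ : ℂ} {c₀ σ s m₀ b l₁ u₁ l₂ u₂ : ℝ}

theorem Hyp.A2_ge (H : Hyp z b₁ b₂) : 44 / 100 ≤ b₂.re := by
  have h1 := H.ρ2
  have h2 := H.B2'
  have h3 := H.B2
  by_contra hc
  push Not at hc
  have h4 : b₂.re ^ 2 ≤ (44 / 100) ^ 2 := pow_le_pow_left₀ (by linarith) hc.le 2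
  have h5 : b₂.im ^ 2 ≤ b₂.re ^ 2 := pow_le_pow_left₀ h3 h2 2
  norm_num at h1 h4
  linarith

theorem Hyp.line_ge (H : Hyp z b₁ b₂) : 63 / 100 - b₂.re ≤ b₂.im := by
  have h1 := H.ρ2
  have h3 := H.B2
  have h4 : 0 ≤ b₂.re := h3.trans H.B2'
  have h5 : (63 / 100 : ℝ) ≤ b₂.re + b₂.im := by
    apply le_of_sq_le_sq _ (by linarith)
    nlinarith [mul_nonneg h3 h4]
  linarith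

theorem m_hi (hP : Par c₀ σ s) {m : ℝ} (h0 : 0 ≤ m) (h : m * (2 - c₀) ≤ 1) : m ≤ 141 / 250 := by
  have := hP.c1
  nlinarith

theorem Hyp.flat (H : Hyp z b₁ b₂) (hP : Par c₀ σ s) (hm₀ : 0 ≤ m₀)
    (hν : 2 * m₀ * (1 + c₀ * m₀) ≤ 1 - c₀ ^ 2 * m₀ ^ 2)
    (hn : 16 * m₀ ^ 2 ≤ (1 - c₀ ^ 2 * m₀ ^ 2) * ((l₁ + l₂) ^ 2 + b ^ 2) -
      2 * m₀ * (1 + c₀ * m₀) * ((l₁ - l₂) ^ 2 + b ^ 2))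
    (hb : 0 ≤ b) (hbl : b ≤ l₁) (hl2 : 2 / 5 ≤ l₂)
    (hR : ∀ m : ℝ, m₀ ≤ m → m * (2 - c₀) ≤ 1 → Rect c₀ σ s b l₁ u₁ l₂ 0 u₂ 0 m)
    (i1 : b ≤ b₁.im) (i2 : l₁ ≤ b₁.re) (i3 : b₁.re ≤ u₁) (i4 : l₂ ≤ b₂.re) (i5 : b₂.re ≤ u₂) :
    c₀ ≤ Real.cos (2 * th z.re z.im) :=
  key3 hP H.R0 H.R1 H.I0 H.θ1 H.k1 H.q hm₀
    (low_of hP.c0 hm₀ hν (hb.trans hbl) (by linarith) hb i2 i4 i1 H.B2 hn) H.B1 H.B1' H.B2 H.B2'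
    (fun m h1 h2 => (hR m h1 h2).flat hP (hm₀.trans h1) (m_hi hP (hm₀.trans h1) h2) hb hbl i1 i2 i3
      H.A1 i4 i5 hl2 H.B2 H.B2')

theorem Hyp.line (H : Hyp z b₁ b₂) (hP : Par c₀ σ s) (hm₀ : 0 ≤ m₀)
    (hν : 2 * m₀ * (1 + c₀ * m₀) ≤ 1 - c₀ ^ 2 * m₀ ^ 2)
    (hn : 16 * m₀ ^ 2 ≤ (1 - c₀ ^ 2 * m₀ ^ 2) * ((l₁ + 44 / 100) ^ 2 + b ^ 2) -
      2 * m₀ * (1 + c₀ * m₀) * ((l₁ - 44 / 100) ^ 2 + b ^ 2))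
    (hb : 0 ≤ b) (hbl : b ≤ l₁)
    (hR : ∀ m : ℝ, m₀ ≤ m → m * (2 - c₀) ≤ 1 →
      Rect c₀ σ s b l₁ u₁ (44 / 100) (63 / 100 - 44 / 100) (63 / 100) (63 / 100 - 63 / 100) m)
    (i1 : b ≤ b₁.im) (i2 : l₁ ≤ b₁.re) (i3 : b₁.re ≤ u₁) (i5 : b₂.re ≤ 63 / 100) :
    c₀ ≤ Real.cos (2 * th z.re z.im) :=
  key3 hP H.R0 H.R1 H.I0 H.θ1 H.k1 H.q hm₀
    (low_of hP.c0 hm₀ hν (hb.trans hbl) (by norm_num) hb i2 H.A2_ge i1 H.B2 hn) H.B1 H.B1' H.B2 H.B2'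
    (fun m h1 h2 => (hR m h1 h2).line hP (hm₀.trans h1) (m_hi hP (hm₀.trans h1) h2) hb hbl i1 i2 i3
      H.A1 H.A2_ge i5 le_rfl (by norm_num) H.line_ge H.B2')

end Pool.Agent.S3.E.J3
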