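import Pool.Agent.S3.E.J3C

/-!
# Stage 3, block E: the sharp joint range condition, corners (generated)
-/

set_option autoImplicit false

namespace Pool.Agent.S3.E.J3

open Complex

theorem st10_par : Par (3 / 97) (31 / 1000) (1999 / 2000) := by
  constructor <;> norm_num

theorem st10_r0 {m : ℝ} (h0 : 223 / 1000 ≤ m) (h1 : m ≤ 97 / 191) :
    Rect (3 / 97) (31 / 1000) (1999 / 2000) (759 / 5000) (2227 / 5000) (2057 / 2500) (44 / 100) (63 / 100 - 44 / 100) (63 / 100)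
      (63 / 100 - 63 / 100) m := by
  have p0 : 0 ≤ m - 223 / 1000 := sub_nonneg.2 h0
  have p1 : 0 ≤ 97 / 191 - m := sub_nonneg.2 h1
  have q0 := mul_nonneg p0 (mul_nonneg p0 p0)
  have q1 := mul_nonneg p0 (mul_nonneg p0 p1)
  have q2 := mul_nonneg p0 (mul_nonneg p1 p1)
  have q3 := mul_nonneg p1 (mul_nonneg p1 p1)
  constructor <;> (unfold G3; linarith)

theorem st10_r1 {m : ℝ} (h0 : 267 / 1000 ≤ m) (h1 : m ≤ 97 / 191) :
    Rect (3 / 97) (31 / 1000) (1999 / 2000) (759 / 5000) (2227 / 5000) (2057 / 2500) (63 / 100) 0 1 0 m := by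
  have p0 : 0 ≤ m - 267 / 1000 := sub_nonneg.2 h0
  have p1 : 0 ≤ 97 / 191 - m := sub_nonneg.2 h1
  have q0 := mul_nonneg p0 (mul_nonneg p0 p0)
  have q1 := mul_nonneg p0 (mul_nonneg p0 p1)
  have q2 := mul_nonneg p0 (mul_nonneg p1 p1)
  have q3 := mul_nonneg p1 (mul_nonneg p1 p1)
  constructor <;> (unfold G3; linarith)

theorem st10_r2 {m : ℝ} (h0 : 32 / 125 ≤ m) (h1 : m ≤ 97 / 191) :
    Rect (3 / 97) (31 / 1000) (1999 / 2000) (909 / 10000) (1479 / 2500) (9959 / 10000) (44 / 100) (63 / 100 - 44 / 100) (63 / 100)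
      (63 / 100 - 63 / 100) m := by
  have p0 : 0 ≤ m - 32 / 125 := sub_nonneg.2 h0
  have p1 : 0 ≤ 97 / 191 - m := sub_nonneg.2 h1
  have q0 := mul_nonneg p0 (mul_nonneg p0 p0)
  have q1 := mul_nonneg p0 (mul_nonneg p0 p1)
  have q2 := mul_nonneg p0 (mul_nonneg p1 p1)
  have q3 := mul_nonneg p1 (mul_nonneg p1 p1)
  constructor <;> (unfold G3; linarith)

theorem st10_r3 {m : ℝ} (h0 : 61 / 200 ≤ m) (h1 : m ≤ 97 / 191) :
    Rect (3 / 97) (31 / 1000) (1999 / 2000) (909 / 10000) (1479 / 2500) (9959 / 10000) (63 / 100) 0 1 0 m := by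
  have p0 : 0 ≤ m - 61 / 200 := sub_nonneg.2 h0
  have p1 : 0 ≤ 97 / 191 - m := sub_nonneg.2 h1
  have q0 := mul_nonneg p0 (mul_nonneg p0 p0)
  have q1 := mul_nonneg p0 (mul_nonneg p0 p1)
  have q2 := mul_nonneg p0 (mul_nonneg p1 p1)
  have q3 := mul_nonneg p1 (mul_nonneg p1 p1)
  constructor <;> (unfold G3; linarith)

theorem st10 {z b₁ b₂ : ℂ} {a g : ℝ} (H : Hyp z b₁ b₂) (N : Nb (1 / 11) b₁.re b₁.im a g)
    (hK : 3969 / 10000 ≤ a + g) : 3 / 97 ≤ Real.cos (2 * th z.re z.im) := by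
  rcases le_total (a + g) (7 / 10) with k0 | k0
  · obtain ⟨i1, i2, i3⟩ := N.reg (b := 759 / 5000) (l := 2227 / 5000) (u := 2057 / 2500) hK k0 (by norm_num)
      (by norm_num) (by norm_num) (by norm_num) (by norm_num) (by norm_num) (by norm_num)
      (by norm_num)
    rcases le_total b₂.re (63 / 100) with s0 | s0
    · exact H.line st10_par (m₀ := 223 / 1000) (b := 759 / 5000) (l₁ := 2227 / 5000) (u₁ := 2057 / 2500) (by norm_num)
        (by norm_num) (by norm_num) (by norm_num) (by norm_num)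
        (fun m h0 h1 => st10_r0 h0 (by linarith)) i1 i2 i3 s0
    · exact H.flat st10_par (m₀ := 267 / 1000) (b := 759 / 5000) (l₁ := 2227 / 5000) (u₁ := 2057 / 2500) (l₂ := 63 / 100)
        (u₂ := 1) (by norm_num) (by norm_num) (by norm_num) (by norm_num) (by norm_num) (by norm_num)
        (fun m h0 h1 => st10_r1 h0 (by linarith)) i1 i2 i3 s0 H.A2
  obtain ⟨i1, i2, i3⟩ := N.reg (b := 909 / 10000) (l := 1479 / 2500) (u := 9959 / 10000) k0 N.h1 (by norm_num)
    (by norm_num) (by norm_num) (by norm_num) (by norm_num) (by norm_num) (by norm_num)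
    (by norm_num)
  rcases le_total b₂.re (63 / 100) with s0 | s0
  · exact H.line st10_par (m₀ := 32 / 125) (b := 909 / 10000) (l₁ := 1479 / 2500) (u₁ := 9959 / 10000) (by norm_num)
      (by norm_num) (by norm_num) (by norm_num) (by norm_num)
      (fun m h0 h1 => st10_r2 h0 (by linarith)) i1 i2 i3 s0
  · exact H.flat st10_par (m₀ := 61 / 200) (b := 909 / 10000) (l₁ := 1479 / 2500) (u₁ := 9959 / 10000) (l₂ := 63 / 100)
      (u₂ := 1) (by norm_num) (by norm_num) (by norm_num) (by norm_num) (by norm_num) (by norm_num)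
      (fun m h0 h1 => st10_r3 h0 (by linarith)) i1 i2 i3 s0 H.A2

theorem st20_par : Par (3 / 37) (809 / 10000) (9967 / 10000) := by
  constructor <;> norm_num

theorem st20_r0 {m : ℝ} (h0 : 28 / 125 ≤ m) (h1 : m ≤ 37 / 71) :
    Rect (3 / 37) (809 / 10000) (9967 / 10000) (263 / 1250) (2227 / 5000) (4049 / 5000) (44 / 100) (63 / 100 - 44 / 100) (63 / 100)
      (63 / 100 - 63 / 100) m := by
  have p0 : 0 ≤ m - 28 / 125 := sub_nonneg.2 h0
  have p1 : 0 ≤ 37 / 71 - m := sub_nonneg.2 h1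
  have q0 := mul_nonneg p0 (mul_nonneg p0 p0)
  have q1 := mul_nonneg p0 (mul_nonneg p0 p1)
  have q2 := mul_nonneg p0 (mul_nonneg p1 p1)
  have q3 := mul_nonneg p1 (mul_nonneg p1 p1)
  constructor <;> (unfold G3; linarith)

theorem st20_r1 {m : ℝ} (h0 : 67 / 250 ≤ m) (h1 : m ≤ 37 / 71) :
    Rect (3 / 37) (809 / 10000) (9967 / 10000) (263 / 1250) (2227 / 5000) (4049 / 5000) (63 / 100) 0 1 0 m := by
  have p0 : 0 ≤ m - 67 / 250 := sub_nonneg.2 h0
  have p1 : 0 ≤ 37 / 71 - m := sub_nonneg.2 h1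
  have q0 := mul_nonneg p0 (mul_nonneg p0 p0)
  have q1 := mul_nonneg p0 (mul_nonneg p0 p1)
  have q2 := mul_nonneg p0 (mul_nonneg p1 p1)
  have q3 := mul_nonneg p1 (mul_nonneg p1 p1)
  constructor <;> (unfold G3; linarith)

theorem st20_r2 {m : ℝ} (h0 : 257 / 1000 ≤ m) (h1 : m ≤ 37 / 71) :
    Rect (3 / 37) (809 / 10000) (9967 / 10000) (833 / 5000) (1479 / 2500) (9861 / 10000) (44 / 100) (63 / 100 - 44 / 100) (63 / 100)
      (63 / 100 - 63 / 100) m := by
  have p0 : 0 ≤ m - 257 / 1000 := sub_nonneg.2 h0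
  have p1 : 0 ≤ 37 / 71 - m := sub_nonneg.2 h1
  have q0 := mul_nonneg p0 (mul_nonneg p0 p0)
  have q1 := mul_nonneg p0 (mul_nonneg p0 p1)
  have q2 := mul_nonneg p0 (mul_nonneg p1 p1)
  have q3 := mul_nonneg p1 (mul_nonneg p1 p1)
  constructor <;> (unfold G3; linarith)

theorem st20_r3 {m : ℝ} (h0 : 153 / 500 ≤ m) (h1 : m ≤ 37 / 71) :
    Rect (3 / 37) (809 / 10000) (9967 / 10000) (833 / 5000) (1479 / 2500) (9861 / 10000) (63 / 100) 0 1 0 m := by
  have p0 : 0 ≤ m - 153 / 500 := sub_nonneg.2 h0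
  have p1 : 0 ≤ 37 / 71 - m := sub_nonneg.2 h1
  have q0 := mul_nonneg p0 (mul_nonneg p0 p0)
  have q1 := mul_nonneg p0 (mul_nonneg p0 p1)
  have q2 := mul_nonneg p0 (mul_nonneg p1 p1)
  have q3 := mul_nonneg p1 (mul_nonneg p1 p1)
  constructor <;> (unfold G3; linarith)

theorem st20 {z b₁ b₂ : ℂ} {a g : ℝ} (H : Hyp z b₁ b₂) (N : Nb (1 / 6) b₁.re b₁.im a g)
    (hK : 3969 / 10000 ≤ a + g) : 3 / 37 ≤ Real.cos (2 * th z.re z.im) := by
  rcases le_total (a + g) (7 / 10) with k0 | k0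
  · obtain ⟨i1, i2, i3⟩ := N.reg (b := 263 / 1250) (l := 2227 / 5000) (u := 4049 / 5000) hK k0 (by norm_num)
      (by norm_num) (by norm_num) (by norm_num) (by norm_num) (by norm_num) (by norm_num)
      (by norm_num)
    rcases le_total b₂.re (63 / 100) with s0 | s0
    · exact H.line st20_par (m₀ := 28 / 125) (b := 263 / 1250) (l₁ := 2227 / 5000) (u₁ := 4049 / 5000) (by norm_num)
        (by norm_num) (by norm_num) (by norm_num) (by norm_num)
        (fun m h0 h1 => st20_r0 h0 (by linarith)) i1 i2 i3 s0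
    · exact H.flat st20_par (m₀ := 67 / 250) (b := 263 / 1250) (l₁ := 2227 / 5000) (u₁ := 4049 / 5000) (l₂ := 63 / 100)
        (u₂ := 1) (by norm_num) (by norm_num) (by norm_num) (by norm_num) (by norm_num) (by norm_num)
        (fun m h0 h1 => st20_r1 h0 (by linarith)) i1 i2 i3 s0 H.A2
  obtain ⟨i1, i2, i3⟩ := N.reg (b := 833 / 5000) (l := 1479 / 2500) (u := 9861 / 10000) k0 N.h1 (by norm_num)
    (by norm_num) (by norm_num) (by norm_num) (by norm_num) (by norm_num) (by norm_num)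
    (by norm_num)
  rcases le_total b₂.re (63 / 100) with s0 | s0
  · exact H.line st20_par (m₀ := 257 / 1000) (b := 833 / 5000) (l₁ := 1479 / 2500) (u₁ := 9861 / 10000) (by norm_num)
      (by norm_num) (by norm_num) (by norm_num) (by norm_num)
      (fun m h0 h1 => st20_r2 h0 (by linarith)) i1 i2 i3 s0
  · exact H.flat st20_par (m₀ := 153 / 500) (b := 833 / 5000) (l₁ := 1479 / 2500) (u₁ := 9861 / 10000) (l₂ := 63 / 100)
      (u₂ := 1) (by norm_num) (by norm_num) (by norm_num) (by norm_num) (by norm_num) (by norm_num)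
      (fun m h0 h1 => st20_r3 h0 (by linarith)) i1 i2 i3 s0 H.A2

theorem st25_par : Par (19 / 181) (261 / 2500) (1243 / 1250) := by
  constructor <;> norm_num

theorem st25_r0 {m : ℝ} (h0 : 9 / 40 ≤ m) (h1 : m ≤ 181 / 343) :
    Rect (19 / 181) (261 / 2500) (1243 / 1250) (2327 / 10000) (2227 / 5000) (8037 / 10000) (44 / 100) (63 / 100 - 44 / 100) (63 / 100)
      (63 / 100 - 63 / 100) m := by
  have p0 : 0 ≤ m - 9 / 40 := sub_nonneg.2 h0
  have p1 : 0 ≤ 181 / 343 - m := sub_nonneg.2 h1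
  have q0 := mul_nonneg p0 (mul_nonneg p0 p0)
  have q1 := mul_nonneg p0 (mul_nonneg p0 p1)
  have q2 := mul_nonneg p0 (mul_nonneg p1 p1)
  have q3 := mul_nonneg p1 (mul_nonneg p1 p1)
  constructor <;> (unfold G3; linarith)

theorem st25_r1 {m : ℝ} (h0 : 269 / 1000 ≤ m) (h1 : m ≤ 181 / 343) :
    Rect (19 / 181) (261 / 2500) (1243 / 1250) (2327 / 10000) (2227 / 5000) (8037 / 10000) (63 / 100) 0 1 0 m := by
  have p0 : 0 ≤ m - 269 / 1000 := sub_nonneg.2 h0
  have p1 : 0 ≤ 181 / 343 - m := sub_nonneg.2 h1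
  have q0 := mul_nonneg p0 (mul_nonneg p0 p0)
  have q1 := mul_nonneg p0 (mul_nonneg p0 p1)
  have q2 := mul_nonneg p0 (mul_nonneg p1 p1)
  have q3 := mul_nonneg p1 (mul_nonneg p1 p1)
  constructor <;> (unfold G3; linarith)

theorem st25_r2 {m : ℝ} (h0 : 129 / 500 ≤ m) (h1 : m ≤ 181 / 343) :
    Rect (19 / 181) (261 / 2500) (1243 / 1250) (1 / 5) (1479 / 2500) (4899 / 5000) (44 / 100) (63 / 100 - 44 / 100) (63 / 100)
      (63 / 100 - 63 / 100) m := by
  have p0 : 0 ≤ m - 129 / 500 := sub_nonneg.2 h0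
  have p1 : 0 ≤ 181 / 343 - m := sub_nonneg.2 h1
  have q0 := mul_nonneg p0 (mul_nonneg p0 p0)
  have q1 := mul_nonneg p0 (mul_nonneg p0 p1)
  have q2 := mul_nonneg p0 (mul_nonneg p1 p1)
  have q3 := mul_nonneg p1 (mul_nonneg p1 p1)
  constructor <;> (unfold G3; linarith)

theorem st25_r3 {m : ℝ} (h0 : 153 / 500 ≤ m) (h1 : m ≤ 181 / 343) :
    Rect (19 / 181) (261 / 2500) (1243 / 1250) (1 / 5) (1479 / 2500) (4899 / 5000) (63 / 100) 0 1 0 m := by
  have p0 : 0 ≤ m - 153 / 500 := sub_nonneg.2 h0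
  have p1 : 0 ≤ 181 / 343 - m := sub_nonneg.2 h1
  have q0 := mul_nonneg p0 (mul_nonneg p0 p0)
  have q1 := mul_nonneg p0 (mul_nonneg p0 p1)
  have q2 := mul_nonneg p0 (mul_nonneg p1 p1)
  have q3 := mul_nonneg p1 (mul_nonneg p1 p1)
  constructor <;> (unfold G3; linarith)

theorem st25 {z b₁ b₂ : ℂ} {a g : ℝ} (H : Hyp z b₁ b₂) (N : Nb (1 / 5) b₁.re b₁.im a g)
    (hK : 3969 / 10000 ≤ a + g) : 19 / 181 ≤ Real.cos (2 * th z.re z.im) := by
  rcases le_total (a + g) (7 / 10) with k0 | k0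
  · obtain ⟨i1, i2, i3⟩ := N.reg (b := 2327 / 10000) (l := 2227 / 5000) (u := 8037 / 10000) hK k0 (by norm_num)
      (by norm_num) (by norm_num) (by norm_num) (by norm_num) (by norm_num) (by norm_num)
      (by norm_num)
    rcases le_total b₂.re (63 / 100) with s0 | s0
    · exact H.line st25_par (m₀ := 9 / 40) (b := 2327 / 10000) (l₁ := 2227 / 5000) (u₁ := 8037 / 10000) (by norm_num)
        (by norm_num) (by norm_num) (by norm_num) (by norm_num)
        (fun m h0 h1 => st25_r0 h0 (by linarith)) i1 i2 i3 s0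
    · exact H.flat st25_par (m₀ := 269 / 1000) (b := 2327 / 10000) (l₁ := 2227 / 5000) (u₁ := 8037 / 10000) (l₂ := 63 / 100)
        (u₂ := 1) (by norm_num) (by norm_num) (by norm_num) (by norm_num) (by norm_num) (by norm_num)
        (fun m h0 h1 => st25_r1 h0 (by linarith)) i1 i2 i3 s0 H.A2
  obtain ⟨i1, i2, i3⟩ := N.reg (b := 1 / 5) (l := 1479 / 2500) (u := 4899 / 5000) k0 N.h1 (by norm_num)
    (by norm_num) (by norm_num) (by norm_num) (by norm_num) (by norm_num) (by norm_num)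
    (by norm_num)
  rcases le_total b₂.re (63 / 100) with s0 | s0
  · exact H.line st25_par (m₀ := 129 / 500) (b := 1 / 5) (l₁ := 1479 / 2500) (u₁ := 4899 / 5000) (by norm_num)
      (by norm_num) (by norm_num) (by norm_num) (by norm_num)
      (fun m h0 h1 => st25_r2 h0 (by linarith)) i1 i2 i3 s0
  · exact H.flat st25_par (m₀ := 153 / 500) (b := 1 / 5) (l₁ := 1479 / 2500) (u₁ := 4899 / 5000) (l₂ := 63 / 100)
      (u₂ := 1) (by norm_num) (by norm_num) (by norm_num) (by norm_num) (by norm_num) (by norm_num)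
      (fun m h0 h1 => st25_r3 h0 (by linarith)) i1 i2 i3 s0 H.A2

end Pool.Agent.S3.E.J3
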