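import Pool.Agent.H25.RK.DGI
import Pool.Agent.H25.RK.DGf
import Pool.Agent.H63.GO.MTaylor
import Pool.Agent.H63.VC.Asym
import Pool.Agent.H63.VC.EndB
import Pool.Agent.H63.VC.Riem
import Pool.Agent.H63.VC.SlowL
import Pool.Agent.H63.VC.SlowU
import Pool.Agent.H63.VC3.CritB
import Pool.Agent.H63.VC3.Upper
import Pool.Agent.H63.VC4.GaussN
import Pool.Agent.H63.VC4.KBN
import Pool.Agent.H63.VC4.LaplaceN
import Pool.Agent.H63.VC4.UpperN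
import Pool.Agent.H63.VC5.Defs
import Pool.Agent.H63.VC6.LocU
import Pool.Agent.H63.VC6.SlotU
import Pool.Agent.H63.VC7.Link
import Pool.Agent.S3.Asm.Def
import Pool.Agent.S3.Ck.Cos
import Pool.Agent.S3.Ck.SoundG
import Pool.Agent.S3.CritCfg
import Pool.Agent.S3.E.Geo
import Pool.Agent.S3.E.J6Z
import Pool.Agent.S3.E.Sl
import Pool.Agent.S3.E.Two
import Pool.Agent.S3.Es12
import Pool.Agent.S3.Es13
import Pool.Agent.S3.Es7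

/-!
# Stage 3, block E: the joint range condition in the two forms used later
-/

set_option autoImplicit false

namespace Pool.Agent.S3.E

open Complex

namespace Zr

variable {ι : Type*} [Finite ι] {a : ι → ℝ} {nl nr : ι → Option ι} {z : ι → ℂ}

theorem joint3' (h : Zr a nl nr 1 z) (h3 : ∀ i, 3 ≤ a i → a i = 3 ∨ 4 ≤ a i) {i j : ι}
    (hi : a i = 2) (hin : In2 nl nr i) (hj1 : nl i = some j ∨ nr i = some j)
    (hj : 3 ≤ a j ∨ (a j = 2 ∧ In2 nl nr j)) {κ t₀ : ℝ}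
    (hκ : (κ = 1 / 10 ∧ t₀ = 94 / 100) ∨ (κ = 1 / 5 ∧ t₀ = 85 / 100) ∨
      (κ = 1 / 4 ∧ t₀ = 81 / 100) ∨ (κ = 3 / 10 ∧ t₀ = 775 / 1000) ∨
      (κ = 7 / 20 ∧ t₀ = 745 / 1000) ∨ (κ = 2 / 5 ∧ t₀ = 715 / 1000) ∨
      (κ = 9 / 20 ∧ t₀ = 69 / 100) ∨ (κ = 1 / 2 ∧ t₀ = 67 / 100) ∨
      (κ = 11 / 20 ∧ t₀ = 65 / 100) ∨ (κ = 3 / 5 ∧ t₀ = 635 / 1000)) :
    Real.tan (th (z j).re (z j).im) ^ 2 ≤ κ ∨ Real.tan (th (z i).re (z i).im) ^ 2 ≤ t₀ := by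
  obtain ⟨l, r, e1, e2⟩ := hin
  rcases hj1 with e | e
  · exact h.joint3 h3 hi (Or.inl ⟨e, e2⟩) hj hκ
  · exact h.joint3 h3 hi (Or.inr ⟨e1, e⟩) hj hκ

/-- The joint range condition at an inner vertex `i` with two twists, `j` its neighbour. -/
theorem jt (h : Zr a nl nr 1 z) (h3 : ∀ i, 3 ≤ a i → a i = 3 ∨ 4 ≤ a i) {i j : ι}
    (hi : a i = 2) (hin : In2 nl nr i) (hj1 : nl i = some j ∨ nr i = some j)
    (hj : 3 ≤ a j ∨ (a j = 2 ∧ In2 nl nr j)) :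
    Jt (Real.tan (th (z i).re (z i).im) ^ 2) (Real.tan (th (z j).re (z j).im) ^ 2) where
  t1 := h.two_t_le hin
  j1 hk := (h.joint3' h3 hi hin hj1 hj (Or.inl ⟨rfl, rfl⟩)).resolve_left (not_le.mpr hk)
  j2 hk := (h.joint3' h3 hi hin hj1 hj (Or.inr (Or.inl ⟨rfl, rfl⟩))).resolve_left (not_le.mpr hk)
  j25 hk := (h.joint3' h3 hi hin hj1 hj
    (Or.inr (Or.inr (Or.inl ⟨rfl, rfl⟩)))).resolve_left (not_le.mpr hk)
  j3 hk := (h.joint3' h3 hi hin hj1 hj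
    (Or.inr (Or.inr (Or.inr (Or.inl ⟨rfl, rfl⟩))))).resolve_left (not_le.mpr hk)
  j35 hk := (h.joint3' h3 hi hin hj1 hj
    (Or.inr (Or.inr (Or.inr (Or.inr (Or.inl ⟨rfl, rfl⟩)))))).resolve_left (not_le.mpr hk)
  j4 hk := (h.joint3' h3 hi hin hj1 hj
    (Or.inr (Or.inr (Or.inr (Or.inr (Or.inr (Or.inl ⟨rfl, rfl⟩))))))).resolve_left (not_le.mpr hk)
  j45 hk := (h.joint3' h3 hi hin hj1 hj (Or.inr (Or.inr (Or.inr (Or.inr (Or.inr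
    (Or.inr (Or.inl ⟨rfl, rfl⟩)))))))).resolve_left (not_le.mpr hk)
  j5 hk := (h.joint3' h3 hi hin hj1 hj (Or.inr (Or.inr (Or.inr (Or.inr (Or.inr
    (Or.inr (Or.inr (Or.inl ⟨rfl, rfl⟩))))))))).resolve_left (not_le.mpr hk)
  j55 hk := (h.joint3' h3 hi hin hj1 hj (Or.inr (Or.inr (Or.inr (Or.inr (Or.inr
    (Or.inr (Or.inr (Or.inr (Or.inl ⟨rfl, rfl⟩)))))))))).resolve_left (not_le.mpr hk)
  j6 hk := (h.joint3' h3 hi hin hj1 hj (Or.inr (Or.inr (Or.inr (Or.inr (Or.inr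
    (Or.inr (Or.inr (Or.inr (Or.inr ⟨rfl, rfl⟩)))))))))).resolve_left (not_le.mpr hk)

/-- The same in the form used by the certificates of the flats. -/
theorem j3 (h : Zr a nl nr 1 z) (h3 : ∀ i, 3 ≤ a i → a i = 3 ∨ 4 ≤ a i) {i j : ι}
    (hi : a i = 2) (hin : In2 nl nr i) (hj1 : nl i = some j ∨ nr i = some j)
    (hj : 3 ≤ a j ∨ (a j = 2 ∧ In2 nl nr j)) :
    Ck.J3 (Real.tan (th (z i).re (z i).im) ^ 2) (Real.tan (th (z j).re (z j).im) ^ 2) where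
  j1 := h.joint3' h3 hi hin hj1 hj (Or.inl ⟨rfl, rfl⟩)
  j2 := h.joint3' h3 hi hin hj1 hj (Or.inr (Or.inl ⟨rfl, rfl⟩))
  j3 := h.joint3' h3 hi hin hj1 hj (Or.inr (Or.inr (Or.inl ⟨rfl, rfl⟩)))
  j4 := h.joint3' h3 hi hin hj1 hj (Or.inr (Or.inr (Or.inr (Or.inl ⟨rfl, rfl⟩))))
  j5 := h.joint3' h3 hi hin hj1 hj (Or.inr (Or.inr (Or.inr (Or.inr (Or.inl ⟨rfl, rfl⟩)))))
  j6 := h.joint3' h3 hi hin hj1 hj
    (Or.inr (Or.inr (Or.inr (Or.inr (Or.inr (Or.inl ⟨rfl, rfl⟩))))))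
  j7 := h.joint3' h3 hi hin hj1 hj (Or.inr (Or.inr (Or.inr (Or.inr (Or.inr
    (Or.inr (Or.inl ⟨rfl, rfl⟩)))))))
  j8 := h.joint3' h3 hi hin hj1 hj (Or.inr (Or.inr (Or.inr (Or.inr (Or.inr
    (Or.inr (Or.inr (Or.inl ⟨rfl, rfl⟩))))))))
  j9 := h.joint3' h3 hi hin hj1 hj (Or.inr (Or.inr (Or.inr (Or.inr (Or.inr
    (Or.inr (Or.inr (Or.inr (Or.inl ⟨rfl, rfl⟩)))))))))
  j10 := h.joint3' h3 hi hin hj1 hj (Or.inr (Or.inr (Or.inr (Or.inr (Or.inr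
    (Or.inr (Or.inr (Or.inr (Or.inr ⟨rfl, rfl⟩)))))))))

end Zr

end Pool.Agent.S3.E
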