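import Pool.Agent.S3.E.J3C

/-!
# Stage 3, block E: `Re z ≤ 3π/10` at an inner vertex with two twists and open neighbours, algebra
-/

set_option autoImplicit false

namespace Pool.Agent.S3.E.J3

open Complex Pool.Agent.S3.E.J2

section

variable {c₀ σ s m A₁ B₁ A₂ B₂ b l₁ u₁ l₂ u₂ β m₀ : ℝ}

/-- Concave in `A₂`, `B₂` fixed. -/
theorem G3_A2g (h : Par c₀ σ s) {p l u : ℝ} (hm : 0 ≤ m) (hm' : m ≤ 141 / 250)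
    (hl : l ≤ A₂) (hu : A₂ ≤ u)
    (h1 : 0 < G3 c₀ σ s m p A₁ b l β) (h2 : 0 < G3 c₀ σ s m p A₁ b u β) :
    0 < G3 c₀ σ s m p A₁ b A₂ β := by
  have hm2 : m ^ 2 ≤ 32 / 100 := by nlinarith
  have hα : 0 ≤ (1 - m ^ 2 / 2) * (σ + m) := mul_nonneg (by linarith) (by linarith [h.σ1])
  have := conc (α := (1 - m ^ 2 / 2) * (σ + m))
    (β := (b + β) * (1 - 2 * c₀ ^ 2 + c₀ ^ 2 * m ^ 2) - 2 * (1 - m ^ 2 / 2) * σ * A₁ +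
      2 * (1 - m ^ 2 / 2) * m * A₁ + 2 * (b - β) * (m ^ 2 + p * m))
    (γ := A₁ * (b + β) * (1 - 2 * c₀ ^ 2 + c₀ ^ 2 * m ^ 2) -
      (1 - m ^ 2 / 2) * σ * (A₁ ^ 2 - (b + β) ^ 2) - (1 - m ^ 2 / 2) * m * A₁ ^ 2 +
      (1 - 11 / 20 * m ^ 2) * s * m * (b - β) ^ 2 - 2 * A₁ * (b - β) * (m ^ 2 + p * m)) hα hl hu
    (h1.trans_eq (by rw [G3]; ring)) (h2.trans_eq (by rw [G3]; ring))
  exact this.trans_eq (by rw [G3]; ring)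

/-- Positivity on a rectangle, `B₁ ≥ b`, `B₂ ≥ β`. -/
theorem Rect.flat2 (h : Par c₀ σ s) (hm : 0 ≤ m) (hm' : m ≤ 141 / 250)
    (hR : Rect c₀ σ s b l₁ u₁ l₂ β u₂ β m) (hb : 0 ≤ b) (hbl : b ≤ l₁) (hbB : b ≤ B₁)
    (hl1 : l₁ ≤ A₁) (hu1 : A₁ ≤ u₁) (hA1 : A₁ ≤ 1) (hl2 : l₂ ≤ A₂) (hu2 : A₂ ≤ u₂)
    (h2 : 2 / 5 ≤ l₂) (hβ : 0 ≤ β) (hB₂ : β ≤ B₂) (hB₂' : B₂ ≤ A₂) :
    0 < G3 c₀ σ s m 0 A₁ B₁ A₂ B₂ ∧ 0 < G3 c₀ σ s m c₀ A₁ B₁ A₂ B₂ := by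
  have hA : 0 ≤ A₁ := hb.trans (hbl.trans hl1)
  constructor
  · have i1 := G3_A1 h hm hm' hl1 hu1 (G3_A2g h hm hm' hl2 hu2 hR.a0 hR.c0)
      (G3_A2g h hm hm' hl2 hu2 hR.b0 hR.d0)
    have i2 := G3_mono2 h le_rfl h.c0 hm hm' hb (hbl.trans hl1) (by linarith : 0 ≤ A₂) hβ hB₂
    exact (i1.trans_le i2).trans_le
      (G3_mono1 h le_rfl h.c0 hm hm' hb hbB hA1 hA (by linarith) (hβ.trans hB₂) hB₂')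
  · have i1 := G3_A1 h hm hm' hl1 hu1 (G3_A2g h hm hm' hl2 hu2 hR.a1 hR.c1)
      (G3_A2g h hm hm' hl2 hu2 hR.b1 hR.d1)
    have i2 := G3_mono2 h h.c0 le_rfl hm hm' hb (hbl.trans hl1) (by linarith : 0 ≤ A₂) hβ hB₂
    exact (i1.trans_le i2).trans_le
      (G3_mono1 h h.c0 le_rfl hm hm' hb hbB hA1 hA (by linarith) (hβ.trans hB₂) hB₂')

/-- The lower bound of `m` on a rectangle. -/
theorem low_of2 (hc : 0 ≤ c₀) (hm : 0 ≤ m₀)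
    (hν : 2 * m₀ * (1 + c₀ * m₀) ≤ 1 - c₀ ^ 2 * m₀ ^ 2) (hl1 : 0 ≤ l₁) (hl2 : 0 ≤ l₂) (hb : 0 ≤ b)
    (hβ : 0 ≤ β) (h1 : l₁ ≤ A₁) (h2 : l₂ ≤ A₂) (h3 : b ≤ B₁) (h4 : β ≤ B₂)
    (hn : 16 * m₀ ^ 2 ≤ (1 - c₀ ^ 2 * m₀ ^ 2) * ((l₁ + l₂) ^ 2 + (b + β) ^ 2) -
      2 * m₀ * (1 + c₀ * m₀) * ((l₁ - l₂) ^ 2 + (b - β) ^ 2)) :
    16 * m₀ ^ 2 ≤ (1 - c₀ ^ 2 * m₀ ^ 2) * ((A₁ + A₂) ^ 2 + (B₁ + B₂) ^ 2) -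
      2 * m₀ * (1 + c₀ * m₀) * ((A₁ - A₂) ^ 2 + (B₁ - B₂) ^ 2) := by
  obtain ⟨α, hα⟩ : ∃ α, α = 1 - c₀ ^ 2 * m₀ ^ 2 := ⟨_, rfl⟩
  obtain ⟨μ, hμ⟩ : ∃ μ, μ = 2 * m₀ * (1 + c₀ * m₀) := ⟨_, rfl⟩
  rw [← hα, ← hμ] at hn hν ⊢
  have hμ0 : 0 ≤ μ := by rw [hμ]; positivity
  have i1 : l₁ ^ 2 ≤ A₁ ^ 2 := pow_le_pow_left₀ hl1 h1 2
  have i2 : l₂ ^ 2 ≤ A₂ ^ 2 := pow_le_pow_left₀ hl2 h2 2
  have i3 : b ^ 2 ≤ B₁ ^ 2 := pow_le_pow_left₀ hb h3 2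
  have i6 : β ^ 2 ≤ B₂ ^ 2 := pow_le_pow_left₀ hβ h4 2
  have i4 : l₁ * l₂ ≤ A₁ * A₂ := mul_le_mul h1 h2 hl2 (hl1.trans h1)
  have i5 : b * β ≤ B₁ * B₂ := mul_le_mul h3 h4 hβ (hb.trans h3)
  have j1 : 0 ≤ (α - μ) * ((A₁ ^ 2 - l₁ ^ 2) + (A₂ ^ 2 - l₂ ^ 2) + (B₁ ^ 2 - b ^ 2) +
      (B₂ ^ 2 - β ^ 2)) := mul_nonneg (by linarith) (by linarith)
  have j2 : 0 ≤ (α + μ) * ((A₁ * A₂ - l₁ * l₂) + (B₁ * B₂ - b * β)) :=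
    mul_nonneg (by linarith) (by linarith)
  nlinarith

end

/-- From the angle to `Re z`. -/
theorem rge {K S c₀ K₁ P P₀ a a₀ : ℝ} (hK : 0 < K) (hS : S ≤ 1 - c₀ * K)
    (hmod : a * S ≤ K * (K + a - P)) (hc : 0 ≤ c₀) (hK₁ : 1 - 30901 / 100000 ≤ K₁ * (1 + c₀))
    (hP : P₀ ≤ P) (ha : a₀ ≤ a) (ha0 : 0 < a) (hn : K₁ * (K₁ - P₀) ≤ 30901 / 100000 * a₀) :
    -(30901 / 100000) ≤ K - S := by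
  by_contra hlt
  push Not at hlt
  have h1 : K < K₁ := by
    by_contra h2
    push Not at h2
    have : K₁ * (1 + c₀) ≤ K * (1 + c₀) := mul_le_mul_of_nonneg_right h2 (by linarith)
    linarith
  have h2 : a * (K + 30901 / 100000) < a * S := mul_lt_mul_of_pos_left (by linarith) ha0
  have h3 : 30901 / 100000 * a < K * (K - P) := by linarith
  have h4 : K * (K - P) ≤ K₁ * (K₁ - P₀) := by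
    rcases le_total K P with h5 | h5
    · exfalso
      have : K * (K - P) ≤ 0 := mul_nonpos_of_nonneg_of_nonpos hK.le (by linarith)
      linarith
    · exact mul_le_mul h1.le (by linarith) (by linarith) (by linarith)
  linarith

section

variable {z b₁ b₂ : ℂ} {c₀ σ s m₀ b β l₁ u₁ l₂ u₂ K₁ : ℝ}

theorem Hyp.flat2 (H : Hyp z b₁ b₂) (hP : Par c₀ σ s) (hm₀ : 0 ≤ m₀)
    (hν : 2 * m₀ * (1 + c₀ * m₀) ≤ 1 - c₀ ^ 2 * m₀ ^ 2)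
    (hn : 16 * m₀ ^ 2 ≤ (1 - c₀ ^ 2 * m₀ ^ 2) * ((l₁ + l₂) ^ 2 + (b + β) ^ 2) -
      2 * m₀ * (1 + c₀ * m₀) * ((l₁ - l₂) ^ 2 + (b - β) ^ 2))
    (hb : 0 ≤ b) (hbl : b ≤ l₁) (hβ : 0 ≤ β) (hl2 : 2 / 5 ≤ l₂)
    (hR : ∀ m : ℝ, m₀ ≤ m → m * (2 - c₀) ≤ 1 → Rect c₀ σ s b l₁ u₁ l₂ β u₂ β m)
    (i1 : b ≤ b₁.im) (i2 : l₁ ≤ b₁.re) (i3 : b₁.re ≤ u₁) (i4 : l₂ ≤ b₂.re) (i5 : b₂.re ≤ u₂)
    (i6 : β ≤ b₂.im) : c₀ ≤ Real.cos (2 * th z.re z.im) :=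
  key3 hP H.R0 H.R1 H.I0 H.θ1 H.k1 H.q hm₀
    (low_of2 hP.c0 hm₀ hν (hb.trans hbl) (by linarith) hb hβ i2 i4 i1 i6 hn) H.B1 H.B1' H.B2 H.B2'
    (fun m h1 h2 => (hR m h1 h2).flat2 hP (hm₀.trans h1) (m_hi hP (hm₀.trans h1) h2) hb hbl i1 i2 i3
      H.A1 i4 i5 hl2 hβ i6 H.B2')

/-- The conclusion from the angle. -/
theorem Hyp.rge (H : Hyp z b₁ b₂) {P₀ a₀ : ℝ} (hc : c₀ ≤ Real.cos (2 * th z.re z.im))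
    (hc0 : 0 ≤ c₀) (hK₁ : 1 - 30901 / 100000 ≤ K₁ * (1 + c₀))
    (hP : P₀ ≤ b₁.re * b₂.re + b₁.im * b₂.im)
    (ha : a₀ ≤ ((b₁.re + b₂.re) ^ 2 + (b₁.im + b₂.im) ^ 2) / 4) (ha0 : 0 < a₀)
    (hn : K₁ * (K₁ - P₀) ≤ 30901 / 100000 * a₀) :
    -(30901 / 100000) ≤ k2 z.re z.im - s2 z.re z.im := by
  have hK := k2_pos (I := z.im) H.R0 H.R1
  have hmod := mod_le H.R0 H.R1 H.q
  have hc1 : Real.cos (2 * th z.re z.im) * k2 z.re z.im = 1 - s2 z.re z.im := by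
    rw [cos_two_th H.R0 H.R1 H.I0]; field_simp
  have h1 := mul_le_mul_of_nonneg_right hc hK.le
  exact J3.rge hK (by linarith) (by linarith) hc0 hK₁ hP ha (by linarith) hn

theorem Hyp.rflat (H : Hyp z b₁ b₂) (hP : Par c₀ σ s) (hm₀ : 0 ≤ m₀)
    (hν : 2 * m₀ * (1 + c₀ * m₀) ≤ 1 - c₀ ^ 2 * m₀ ^ 2)
    (hn : 16 * m₀ ^ 2 ≤ (1 - c₀ ^ 2 * m₀ ^ 2) * ((l₁ + l₂) ^ 2 + (b + β) ^ 2) -
      2 * m₀ * (1 + c₀ * m₀) * ((l₁ - l₂) ^ 2 + (b - β) ^ 2))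
    (hb : 0 ≤ b) (hbl : b ≤ l₁) (hβ : 0 ≤ β) (hl2 : 2 / 5 ≤ l₂)
    (hR : ∀ m : ℝ, m₀ ≤ m → m * (2 - c₀) ≤ 1 → Rect c₀ σ s b l₁ u₁ l₂ β u₂ β m)
    (hK₁ : 1 - 30901 / 100000 ≤ K₁ * (1 + c₀)) (h0 : 0 < l₁)
    (hn' : K₁ * (K₁ - (l₁ * l₂ + b * β)) ≤
      30901 / 100000 * (((l₁ + l₂) ^ 2 + (b + β) ^ 2) / 4))
    (i1 : b ≤ b₁.im) (i2 : l₁ ≤ b₁.re) (i3 : b₁.re ≤ u₁) (i4 : l₂ ≤ b₂.re) (i5 : b₂.re ≤ u₂)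
    (i6 : β ≤ b₂.im) : -(30901 / 100000) ≤ k2 z.re z.im - s2 z.re z.im := by
  have h1 := H.flat2 hP hm₀ hν hn hb hbl hβ hl2 hR i1 i2 i3 i4 i5 i6
  have hl1 : 0 ≤ l₁ := h0.le
  have hl2' : 0 ≤ l₂ := by linarith
  have j1 : l₁ * l₂ ≤ b₁.re * b₂.re := mul_le_mul i2 i4 hl2' (hl1.trans i2)
  have j2 : b * β ≤ b₁.im * b₂.im := mul_le_mul i1 i6 hβ (hb.trans i1)
  have j3 : (l₁ + l₂) ^ 2 ≤ (b₁.re + b₂.re) ^ 2 := pow_le_pow_left₀ (by linarith) (by linarith) 2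
  have j4 : (b + β) ^ 2 ≤ (b₁.im + b₂.im) ^ 2 := pow_le_pow_left₀ (by linarith) (by linarith) 2
  exact H.rge h1 hP.c0 hK₁ (add_le_add j1 j2) (by linarith)
    (by have := sq_nonneg (b + β); have : 0 < (l₁ + l₂) ^ 2 := by positivity
        linarith) hn'

/-- No angle needed. -/
theorem Hyp.rtriv (H : Hyp z b₁ b₂) (h0 : 0 < l₁) (hl2 : 0 ≤ l₂) (hb : 0 ≤ b) (hβ : 0 ≤ β)
    (hn' : (1 - 30901 / 100000) * ((1 - 30901 / 100000) - (l₁ * l₂ + b * β)) ≤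
      30901 / 100000 * (((l₁ + l₂) ^ 2 + (b + β) ^ 2) / 4))
    (i1 : b ≤ b₁.im) (i2 : l₁ ≤ b₁.re) (i4 : l₂ ≤ b₂.re)
    (i6 : β ≤ b₂.im) : -(30901 / 100000) ≤ k2 z.re z.im - s2 z.re z.im := by
  have h1 : 0 ≤ Real.cos (2 * th z.re z.im) :=
    Real.cos_nonneg_of_mem_Icc ⟨by linarith [th_pos H.R0 H.R1 H.I0, Real.pi_pos],
      by linarith [H.θ1]⟩
  have hl1 : 0 ≤ l₁ := h0.le
  have j1 : l₁ * l₂ ≤ b₁.re * b₂.re := mul_le_mul i2 i4 hl2 (hl1.trans i2)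
  have j2 : b * β ≤ b₁.im * b₂.im := mul_le_mul i1 i6 hβ (hb.trans i1)
  have j3 : (l₁ + l₂) ^ 2 ≤ (b₁.re + b₂.re) ^ 2 := pow_le_pow_left₀ (by linarith) (by linarith) 2
  have j4 : (b + β) ^ 2 ≤ (b₁.im + b₂.im) ^ 2 := pow_le_pow_left₀ (by linarith) (by linarith) 2
  exact H.rge (c₀ := 0) (K₁ := 1 - 30901 / 100000) h1 le_rfl (by norm_num) (add_le_add j1 j2)
    (by linarith)
    (by have := sq_nonneg (b + β); have : 0 < (l₁ + l₂) ^ 2 := by positivity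
        linarith) hn'

end

/-- The slots of the open neighbours. -/
structure Sl4 (A B : ℝ) : Prop where
  B0 : 0 ≤ B
  tau : B ≤ 6842 / 10000 * A
  A1 : A ≤ 1
  ρ : (63 / 100) ^ 2 ≤ A ^ 2 + B ^ 2
  or : 11 / 100 ≤ B ∨ ((7 / 10) ^ 2 ≤ A ^ 2 + B ^ 2 ∧ (A ≤ 3 / 4 → 2 / 100 ≤ B))

namespace Sl4

variable {A B : ℝ}

theorem A_ge (h : Sl4 A B) : 519 / 1000 ≤ A := by
  have h1 := h.B0
  have h2 := h.tau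
  have h3 := h.ρ
  have h4 : B ^ 2 ≤ (6842 / 10000 * A) ^ 2 := pow_le_pow_left₀ h1 h2 2
  by_contra hc
  push Not at hc
  have hA : 0 ≤ A := by linarith
  have h5 : A ^ 2 ≤ (519 / 1000) ^ 2 := pow_le_pow_left₀ hA hc.le 2
  norm_num at h3 h4 h5
  nlinarith

theorem of_rho (h : Sl4 A B) {u b : ℝ} (hu : A ≤ u) (hb : 0 ≤ b)
    (hn : b ^ 2 + u ^ 2 ≤ (63 / 100) ^ 2) : b ≤ B := by
  have h1 := h.A_ge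
  have h2 : A ^ 2 ≤ u ^ 2 := pow_le_pow_left₀ (by linarith) hu 2
  have h3 := h.ρ
  exact le_of_sq_le_sq (by linarith) h.B0

theorem p0 (h : Sl4 A B) (hu : A ≤ 14 / 25) : 36 / 125 ≤ B :=
  h.of_rho hu (by norm_num) (by norm_num)

theorem p1 (h : Sl4 A B) (hu : A ≤ 59 / 100) : 11 / 50 ≤ B :=
  h.of_rho hu (by norm_num) (by norm_num)

theorem p2 (h : Sl4 A B) (hu : A ≤ 61 / 100) : 157 / 1000 ≤ B :=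
  h.of_rho hu (by norm_num) (by norm_num)

theorem p3 (h : Sl4 A B) (hu : A ≤ 31 / 50) : 111 / 1000 ≤ B :=
  h.of_rho hu (by norm_num) (by norm_num)

theorem of_or (h : Sl4 A B) {u b : ℝ} (hu : A ≤ u) (hb : 0 ≤ b) (hb' : b ≤ 11 / 100)
    (hn : b ^ 2 + u ^ 2 ≤ (7 / 10) ^ 2) : b ≤ B := by
  rcases h.or with h1 | ⟨h1, _⟩
  · linarith
  · have h3 := h.A_ge
    have h2 : A ^ 2 ≤ u ^ 2 := pow_le_pow_left₀ (by linarith) hu 2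
    exact le_of_sq_le_sq (by linarith) h.B0

theorem p4 (h : Sl4 A B) (hu : A ≤ 131 / 200) : 11 / 100 ≤ B :=
  h.of_or hu (by norm_num) (by norm_num) (by norm_num)

theorem p5 (h : Sl4 A B) (hu : A ≤ 277 / 400) : 51 / 500 ≤ B :=
  h.of_or hu (by norm_num) (by norm_num) (by norm_num)

theorem p6 (h : Sl4 A B) (hu : A ≤ 3 / 4) : 1 / 50 ≤ B := by
  rcases h.or with h1 | ⟨_, h1⟩
  · linarith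
  · have := h1 hu
    linarith

theorem angle {A₁ B₁ A₂ B₂ : ℝ} (h1 : Sl4 A₁ B₁) (h2 : Sl4 A₂ B₂) (hu1 : A₁ ≤ 131 / 200)
    (hu2 : A₂ ≤ 131 / 200) : 36 / 100 ≤ A₁ * A₂ + B₁ * B₂ ∧
      378 / 1000 ≤ ((A₁ + A₂) ^ 2 + (B₁ + B₂) ^ 2) / 4 := by
  have a1 := h1.A_ge
  have a2 := h2.A_ge
  have b1 := h1.p4 hu1
  have b2 := h2.p4 hu2
  have t1 := h1.tau
  have t2 := h2.tau
  have s1 : 1679 / 10000 * A₁ ≤ B₁ := by linarith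
  have s2 : 1679 / 10000 * A₂ ≤ B₂ := by linarith
  have hP0 : 0 ≤ A₁ * A₂ + B₁ * B₂ := by
    have : 0 ≤ A₁ * A₂ := mul_nonneg (by linarith) (by linarith)
    have : 0 ≤ B₁ * B₂ := mul_nonneg h1.B0 h2.B0
    linarith
  have k1 : 0 ≤ (6842 / 10000 * A₂ - B₂) * (A₁ + 1679 / 10000 * B₁) :=
    mul_nonneg (by linarith) (by linarith)
  have k2 : 0 ≤ (B₁ - 1679 / 10000 * A₁) * (A₂ + 6842 / 10000 * B₂) :=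
    mul_nonneg (by linarith) (by linarith)
  have k3 : 0 ≤ (6842 / 10000 * A₁ - B₁) * (A₂ + 1679 / 10000 * B₂) :=
    mul_nonneg (by linarith) (by linarith)
  have k4 : 0 ≤ (B₂ - 1679 / 10000 * A₂) * (A₁ + 6842 / 10000 * B₁) :=
    mul_nonneg (by linarith) (by linarith)
  -- `|A₁ B₂ - A₂ B₁| ≤ .4632 P`
  have x1 : A₁ * B₂ - A₂ * B₁ ≤ 4632 / 10000 * (A₁ * A₂ + B₁ * B₂) := by nlinarith
  have x2 : -(A₁ * B₂ - A₂ * B₁) ≤ 4632 / 10000 * (A₁ * A₂ + B₁ * B₂) := by nlinarith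
  have x3 : (A₁ * B₂ - A₂ * B₁) ^ 2 ≤ (4632 / 10000 * (A₁ * A₂ + B₁ * B₂)) ^ 2 :=
    sq_le_sq' (by linarith) x1
  have x4 : (A₁ * A₂ + B₁ * B₂) ^ 2 + (A₁ * B₂ - A₂ * B₁) ^ 2 =
      (A₁ ^ 2 + B₁ ^ 2) * (A₂ ^ 2 + B₂ ^ 2) := by ring
  have x5 : (63 / 100 : ℝ) ^ 2 * (63 / 100) ^ 2 ≤ (A₁ ^ 2 + B₁ ^ 2) * (A₂ ^ 2 + B₂ ^ 2) :=
    mul_le_mul h1.ρ h2.ρ (by norm_num) (by positivity)
  have x6 : (36 / 100 : ℝ) ^ 2 ≤ (A₁ * A₂ + B₁ * B₂) ^ 2 := by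
    rw [mul_pow] at x3
    norm_num at x3 x5 ⊢
    linarith
  have x7 : 36 / 100 ≤ A₁ * A₂ + B₁ * B₂ := le_of_sq_le_sq x6 hP0
  refine ⟨x7, ?_⟩
  have r1 := h1.ρ
  have r2 := h2.ρ
  norm_num at r1 r2
  linarith

end Sl4

theorem Hyp.rang {z b₁ b₂ : ℂ} {σ s m₀ b β l₁ u₁ l₂ u₂ : ℝ} (H : Hyp z b₁ b₂)
    (S1 : Sl4 b₁.re b₁.im) (S2 : Sl4 b₂.re b₂.im) (hP : Par (9 / 40) σ s) (hm₀ : 0 ≤ m₀)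
    (hν : 2 * m₀ * (1 + 9 / 40 * m₀) ≤ 1 - (9 / 40) ^ 2 * m₀ ^ 2)
    (hn : 16 * m₀ ^ 2 ≤ (1 - (9 / 40) ^ 2 * m₀ ^ 2) * ((l₁ + l₂) ^ 2 + (b + β) ^ 2) -
      2 * m₀ * (1 + 9 / 40 * m₀) * ((l₁ - l₂) ^ 2 + (b - β) ^ 2))
    (hb : 0 ≤ b) (hbl : b ≤ l₁) (hβ : 0 ≤ β) (hl2 : 2 / 5 ≤ l₂)
    (hR : ∀ m : ℝ, m₀ ≤ m → m * (2 - 9 / 40) ≤ 1 → Rect (9 / 40) σ s b l₁ u₁ l₂ β u₂ β m)
    (i1 : b ≤ b₁.im) (i2 : l₁ ≤ b₁.re) (i3 : b₁.re ≤ u₁) (i4 : l₂ ≤ b₂.re) (i5 : b₂.re ≤ u₂)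
    (i6 : β ≤ b₂.im) (hu1 : b₁.re ≤ 131 / 200) (hu2 : b₂.re ≤ 131 / 200) :
    -(30901 / 100000) ≤ k2 z.re z.im - s2 z.re z.im := by
  have h1 := H.flat2 hP hm₀ hν hn hb hbl hβ hl2 hR i1 i2 i3 i4 i5 i6
  obtain ⟨x1, x2⟩ := S1.angle S2 hu1 hu2
  exact H.rge (K₁ := 5641 / 10000) h1 (by norm_num) (by norm_num) x1 x2 (by norm_num) (by norm_num)

end Pool.Agent.S3.E.J3
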