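import Pool.Agent.S3.E.J4A

/-!
# Stage 3, block E: `Re z ≤ 3π/10` at an inner vertex with two twists, rectangles (generated)
-/

set_option autoImplicit false

namespace Pool.Agent.S3.E.J3

open Complex

theorem p4_225 : Par (9 / 40) (2193 / 10000) (9743 / 10000) := by
  constructor <;> norm_num

theorem p4_205 : Par (41 / 200) (2007 / 10000) (9787 / 10000) := by
  constructor <;> norm_num

theorem p4_145 : Par (29 / 200) (287 / 2000) (4947 / 5000) := by
  constructor <;> norm_num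

theorem p4_220 : Par (11 / 50) (2147 / 10000) (4877 / 5000) := by
  constructor <;> norm_num

theorem p4_165 : Par (33 / 200) (407 / 2500) (4931 / 5000) := by
  constructor <;> norm_num

theorem p4_150 : Par (3 / 20) (371 / 2500) (4943 / 5000) := by
  constructor <;> norm_num

theorem p4_90 : Par (9 / 100) (897 / 10000) (9959 / 10000) := by
  constructor <;> norm_num

theorem p4_195 : Par (39 / 200) (1913 / 10000) (613 / 625) := by
  constructor <;> norm_num

theorem p4_180 : Par (9 / 50) (1771 / 10000) (2459 / 2500) := by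
  constructor <;> norm_num

theorem p4_140 : Par (7 / 50) (1387 / 10000) (9901 / 10000) := by
  constructor <;> norm_num

theorem p4_115 : Par (23 / 200) (1143 / 10000) (9933 / 10000) := by
  constructor <;> norm_num

theorem p4_55 : Par (11 / 200) (11 / 200) (624 / 625) := by
  constructor <;> norm_num

theorem p4_125 : Par (1 / 8) (1241 / 10000) (9921 / 10000) := by
  constructor <;> norm_num

theorem p4_95 : Par (19 / 200) (473 / 5000) (4977 / 5000) := by
  constructor <;> norm_num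

theorem p4_30 : Par (3 / 100) (3 / 100) (1999 / 2000) := by
  constructor <;> norm_num

theorem p4_155 : Par (31 / 200) (383 / 2500) (9879 / 10000) := by
  constructor <;> norm_num

theorem p4_110 : Par (11 / 100) (547 / 5000) (9939 / 10000) := by
  constructor <;> norm_num

theorem p4_80 : Par (2 / 25) (399 / 5000) (9967 / 10000) := by
  constructor <;> norm_num

theorem p4_20 : Par (1 / 50) (1 / 50) (9997 / 10000) := by
  constructor <;> norm_num

theorem p4_70 : Par (7 / 100) (699 / 10000) (399 / 400) := by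
  constructor <;> norm_num

theorem p4_40 : Par (1 / 25) (1 / 25) (9991 / 10000) := by
  constructor <;> norm_num

theorem r4_00 {m : ℝ} (h0 : 37 / 125 ≤ m) (h1 : m ≤ 40 / 71) :
    Rect (9 / 40) (2193 / 10000) (9743 / 10000) (36 / 125) (519 / 1000) (14 / 25) (519 / 1000) (36 / 125) (14 / 25) (36 / 125) m := by
  have p0 : 0 ≤ m - 37 / 125 := sub_nonneg.2 h0
  have p1 : 0 ≤ 40 / 71 - m := sub_nonneg.2 h1
  have q0 := mul_nonneg p0 (mul_nonneg p0 p0)
  have q1 := mul_nonneg p0 (mul_nonneg p0 p1)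
  have q2 := mul_nonneg p0 (mul_nonneg p1 p1)
  have q3 := mul_nonneg p1 (mul_nonneg p1 p1)
  constructor <;> (unfold G3; linarith)

theorem r4_01 {m : ℝ} (h0 : 297 / 1000 ≤ m) (h1 : m ≤ 40 / 71) :
    Rect (9 / 40) (2193 / 10000) (9743 / 10000) (36 / 125) (519 / 1000) (14 / 25) (14 / 25) (11 / 50) (59 / 100) (11 / 50) m := by
  have p0 : 0 ≤ m - 297 / 1000 := sub_nonneg.2 h0
  have p1 : 0 ≤ 40 / 71 - m := sub_nonneg.2 h1
  have q0 := mul_nonneg p0 (mul_nonneg p0 p0)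
  have q1 := mul_nonneg p0 (mul_nonneg p0 p1)
  have q2 := mul_nonneg p0 (mul_nonneg p1 p1)
  have q3 := mul_nonneg p1 (mul_nonneg p1 p1)
  constructor <;> (unfold G3; linarith)

theorem r4_02 {m : ℝ} (h0 : 37 / 125 ≤ m) (h1 : m ≤ 40 / 71) :
    Rect (9 / 40) (2193 / 10000) (9743 / 10000) (36 / 125) (519 / 1000) (14 / 25) (59 / 100) (157 / 1000) (61 / 100) (157 / 1000) m := by
  have p0 : 0 ≤ m - 37 / 125 := sub_nonneg.2 h0
  have p1 : 0 ≤ 40 / 71 - m := sub_nonneg.2 h1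
  have q0 := mul_nonneg p0 (mul_nonneg p0 p0)
  have q1 := mul_nonneg p0 (mul_nonneg p0 p1)
  have q2 := mul_nonneg p0 (mul_nonneg p1 p1)
  have q3 := mul_nonneg p1 (mul_nonneg p1 p1)
  constructor <;> (unfold G3; linarith)

theorem r4_03 {m : ℝ} (h0 : 37 / 125 ≤ m) (h1 : m ≤ 40 / 71) :
    Rect (9 / 40) (2193 / 10000) (9743 / 10000) (36 / 125) (519 / 1000) (14 / 25) (61 / 100) (111 / 1000) (31 / 50) (111 / 1000) m := by
  have p0 : 0 ≤ m - 37 / 125 := sub_nonneg.2 h0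
  have p1 : 0 ≤ 40 / 71 - m := sub_nonneg.2 h1
  have q0 := mul_nonneg p0 (mul_nonneg p0 p0)
  have q1 := mul_nonneg p0 (mul_nonneg p0 p1)
  have q2 := mul_nonneg p0 (mul_nonneg p1 p1)
  have q3 := mul_nonneg p1 (mul_nonneg p1 p1)
  constructor <;> (unfold G3; linarith)

theorem r4_04 {m : ℝ} (h0 : 149 / 500 ≤ m) (h1 : m ≤ 40 / 71) :
    Rect (9 / 40) (2193 / 10000) (9743 / 10000) (36 / 125) (519 / 1000) (14 / 25) (31 / 50) (11 / 100) (131 / 200) (11 / 100) m := by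
  have p0 : 0 ≤ m - 149 / 500 := sub_nonneg.2 h0
  have p1 : 0 ≤ 40 / 71 - m := sub_nonneg.2 h1
  have q0 := mul_nonneg p0 (mul_nonneg p0 p0)
  have q1 := mul_nonneg p0 (mul_nonneg p0 p1)
  have q2 := mul_nonneg p0 (mul_nonneg p1 p1)
  have q3 := mul_nonneg p1 (mul_nonneg p1 p1)
  constructor <;> (unfold G3; linarith)

theorem r4_05 {m : ℝ} (h0 : 61 / 200 ≤ m) (h1 : m ≤ 200 / 359) :
    Rect (41 / 200) (2007 / 10000) (9787 / 10000) (36 / 125) (519 / 1000) (14 / 25) (131 / 200) (51 / 500) (277 / 400) (51 / 500) m := by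
  have p0 : 0 ≤ m - 61 / 200 := sub_nonneg.2 h0
  have p1 : 0 ≤ 200 / 359 - m := sub_nonneg.2 h1
  have q0 := mul_nonneg p0 (mul_nonneg p0 p0)
  have q1 := mul_nonneg p0 (mul_nonneg p0 p1)
  have q2 := mul_nonneg p0 (mul_nonneg p1 p1)
  have q3 := mul_nonneg p1 (mul_nonneg p1 p1)
  constructor <;> (unfold G3; linarith)

theorem r4_06 {m : ℝ} (h0 : 61 / 200 ≤ m) (h1 : m ≤ 200 / 359) :
    Rect (41 / 200) (2007 / 10000) (9787 / 10000) (36 / 125) (519 / 1000) (14 / 25) (277 / 400) (1 / 50) (3 / 4) (1 / 50) m := by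
  have p0 : 0 ≤ m - 61 / 200 := sub_nonneg.2 h0
  have p1 : 0 ≤ 200 / 359 - m := sub_nonneg.2 h1
  have q0 := mul_nonneg p0 (mul_nonneg p0 p0)
  have q1 := mul_nonneg p0 (mul_nonneg p0 p1)
  have q2 := mul_nonneg p0 (mul_nonneg p1 p1)
  have q3 := mul_nonneg p1 (mul_nonneg p1 p1)
  constructor <;> (unfold G3; linarith)

theorem r4_07 {m : ℝ} (h0 : 79 / 250 ≤ m) (h1 : m ≤ 200 / 371) :
    Rect (29 / 200) (287 / 2000) (4947 / 5000) (36 / 125) (519 / 1000) (14 / 25) (3 / 4) 0 1 0 m := by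
  have p0 : 0 ≤ m - 79 / 250 := sub_nonneg.2 h0
  have p1 : 0 ≤ 200 / 371 - m := sub_nonneg.2 h1
  have q0 := mul_nonneg p0 (mul_nonneg p0 p0)
  have q1 := mul_nonneg p0 (mul_nonneg p0 p1)
  have q2 := mul_nonneg p0 (mul_nonneg p1 p1)
  have q3 := mul_nonneg p1 (mul_nonneg p1 p1)
  constructor <;> (unfold G3; linarith)

theorem r4_11 {m : ℝ} (h0 : 3 / 10 ≤ m) (h1 : m ≤ 40 / 71) :
    Rect (9 / 40) (2193 / 10000) (9743 / 10000) (11 / 50) (14 / 25) (59 / 100) (14 / 25) (11 / 50) (59 / 100) (11 / 50) m := by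
  have p0 : 0 ≤ m - 3 / 10 := sub_nonneg.2 h0
  have p1 : 0 ≤ 40 / 71 - m := sub_nonneg.2 h1
  have q0 := mul_nonneg p0 (mul_nonneg p0 p0)
  have q1 := mul_nonneg p0 (mul_nonneg p0 p1)
  have q2 := mul_nonneg p0 (mul_nonneg p1 p1)
  have q3 := mul_nonneg p1 (mul_nonneg p1 p1)
  constructor <;> (unfold G3; linarith)

theorem r4_12 {m : ℝ} (h0 : 301 / 1000 ≤ m) (h1 : m ≤ 40 / 71) :
    Rect (9 / 40) (2193 / 10000) (9743 / 10000) (11 / 50) (14 / 25) (59 / 100) (59 / 100) (157 / 1000) (61 / 100) (157 / 1000) m := by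
  have p0 : 0 ≤ m - 301 / 1000 := sub_nonneg.2 h0
  have p1 : 0 ≤ 40 / 71 - m := sub_nonneg.2 h1
  have q0 := mul_nonneg p0 (mul_nonneg p0 p0)
  have q1 := mul_nonneg p0 (mul_nonneg p0 p1)
  have q2 := mul_nonneg p0 (mul_nonneg p1 p1)
  have q3 := mul_nonneg p1 (mul_nonneg p1 p1)
  constructor <;> (unfold G3; linarith)

theorem r4_13 {m : ℝ} (h0 : 151 / 500 ≤ m) (h1 : m ≤ 50 / 89) :
    Rect (11 / 50) (2147 / 10000) (4877 / 5000) (11 / 50) (14 / 25) (59 / 100) (61 / 100) (111 / 1000) (31 / 50) (111 / 1000) m := by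
  have p0 : 0 ≤ m - 151 / 500 := sub_nonneg.2 h0
  have p1 : 0 ≤ 50 / 89 - m := sub_nonneg.2 h1
  have q0 := mul_nonneg p0 (mul_nonneg p0 p0)
  have q1 := mul_nonneg p0 (mul_nonneg p0 p1)
  have q2 := mul_nonneg p0 (mul_nonneg p1 p1)
  have q3 := mul_nonneg p1 (mul_nonneg p1 p1)
  constructor <;> (unfold G3; linarith)

theorem r4_14 {m : ℝ} (h0 : 38 / 125 ≤ m) (h1 : m ≤ 200 / 359) :
    Rect (41 / 200) (2007 / 10000) (9787 / 10000) (11 / 50) (14 / 25) (59 / 100) (31 / 50) (11 / 100) (131 / 200) (11 / 100) m := by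
  have p0 : 0 ≤ m - 38 / 125 := sub_nonneg.2 h0
  have p1 : 0 ≤ 200 / 359 - m := sub_nonneg.2 h1
  have q0 := mul_nonneg p0 (mul_nonneg p0 p0)
  have q1 := mul_nonneg p0 (mul_nonneg p0 p1)
  have q2 := mul_nonneg p0 (mul_nonneg p1 p1)
  have q3 := mul_nonneg p1 (mul_nonneg p1 p1)
  constructor <;> (unfold G3; linarith)

theorem r4_15 {m : ℝ} (h0 : 39 / 125 ≤ m) (h1 : m ≤ 200 / 367) :
    Rect (33 / 200) (407 / 2500) (4931 / 5000) (11 / 50) (14 / 25) (59 / 100) (131 / 200) (51 / 500) (277 / 400) (51 / 500) m := by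
  have p0 : 0 ≤ m - 39 / 125 := sub_nonneg.2 h0
  have p1 : 0 ≤ 200 / 367 - m := sub_nonneg.2 h1
  have q0 := mul_nonneg p0 (mul_nonneg p0 p0)
  have q1 := mul_nonneg p0 (mul_nonneg p0 p1)
  have q2 := mul_nonneg p0 (mul_nonneg p1 p1)
  have q3 := mul_nonneg p1 (mul_nonneg p1 p1)
  constructor <;> (unfold G3; linarith)

theorem r4_16 {m : ℝ} (h0 : 157 / 500 ≤ m) (h1 : m ≤ 20 / 37) :
    Rect (3 / 20) (371 / 2500) (4943 / 5000) (11 / 50) (14 / 25) (59 / 100) (277 / 400) (1 / 50) (3 / 4) (1 / 50) m := by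
  have p0 : 0 ≤ m - 157 / 500 := sub_nonneg.2 h0
  have p1 : 0 ≤ 20 / 37 - m := sub_nonneg.2 h1
  have q0 := mul_nonneg p0 (mul_nonneg p0 p0)
  have q1 := mul_nonneg p0 (mul_nonneg p0 p1)
  have q2 := mul_nonneg p0 (mul_nonneg p1 p1)
  have q3 := mul_nonneg p1 (mul_nonneg p1 p1)
  constructor <;> (unfold G3; linarith)

theorem r4_17 {m : ℝ} (h0 : 163 / 500 ≤ m) (h1 : m ≤ 100 / 191) :
    Rect (9 / 100) (897 / 10000) (9959 / 10000) (11 / 50) (14 / 25) (59 / 100) (3 / 4) 0 1 0 m := by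
  have p0 : 0 ≤ m - 163 / 500 := sub_nonneg.2 h0
  have p1 : 0 ≤ 100 / 191 - m := sub_nonneg.2 h1
  have q0 := mul_nonneg p0 (mul_nonneg p0 p0)
  have q1 := mul_nonneg p0 (mul_nonneg p0 p1)
  have q2 := mul_nonneg p0 (mul_nonneg p1 p1)
  have q3 := mul_nonneg p1 (mul_nonneg p1 p1)
  constructor <;> (unfold G3; linarith)

theorem r4_22 {m : ℝ} (h0 : 38 / 125 ≤ m) (h1 : m ≤ 200 / 359) :
    Rect (41 / 200) (2007 / 10000) (9787 / 10000) (157 / 1000) (59 / 100) (61 / 100) (59 / 100) (157 / 1000) (61 / 100) (157 / 1000) m := by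
  have p0 : 0 ≤ m - 38 / 125 := sub_nonneg.2 h0
  have p1 : 0 ≤ 200 / 359 - m := sub_nonneg.2 h1
  have q0 := mul_nonneg p0 (mul_nonneg p0 p0)
  have q1 := mul_nonneg p0 (mul_nonneg p0 p1)
  have q2 := mul_nonneg p0 (mul_nonneg p1 p1)
  have q3 := mul_nonneg p1 (mul_nonneg p1 p1)
  constructor <;> (unfold G3; linarith)

theorem r4_23 {m : ℝ} (h0 : 153 / 500 ≤ m) (h1 : m ≤ 200 / 361) :
    Rect (39 / 200) (1913 / 10000) (613 / 625) (157 / 1000) (59 / 100) (61 / 100) (61 / 100) (111 / 1000) (31 / 50) (111 / 1000) m := by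
  have p0 : 0 ≤ m - 153 / 500 := sub_nonneg.2 h0
  have p1 : 0 ≤ 200 / 361 - m := sub_nonneg.2 h1
  have q0 := mul_nonneg p0 (mul_nonneg p0 p0)
  have q1 := mul_nonneg p0 (mul_nonneg p0 p1)
  have q2 := mul_nonneg p0 (mul_nonneg p1 p1)
  have q3 := mul_nonneg p1 (mul_nonneg p1 p1)
  constructor <;> (unfold G3; linarith)

theorem r4_24 {m : ℝ} (h0 : 309 / 1000 ≤ m) (h1 : m ≤ 50 / 91) :
    Rect (9 / 50) (1771 / 10000) (2459 / 2500) (157 / 1000) (59 / 100) (61 / 100) (31 / 50) (11 / 100) (131 / 200) (11 / 100) m := by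
  have p0 : 0 ≤ m - 309 / 1000 := sub_nonneg.2 h0
  have p1 : 0 ≤ 50 / 91 - m := sub_nonneg.2 h1
  have q0 := mul_nonneg p0 (mul_nonneg p0 p0)
  have q1 := mul_nonneg p0 (mul_nonneg p0 p1)
  have q2 := mul_nonneg p0 (mul_nonneg p1 p1)
  have q3 := mul_nonneg p1 (mul_nonneg p1 p1)
  constructor <;> (unfold G3; linarith)

theorem r4_25 {m : ℝ} (h0 : 317 / 1000 ≤ m) (h1 : m ≤ 50 / 93) :
    Rect (7 / 50) (1387 / 10000) (9901 / 10000) (157 / 1000) (59 / 100) (61 / 100) (131 / 200) (51 / 500) (277 / 400) (51 / 500) m := by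
  have p0 : 0 ≤ m - 317 / 1000 := sub_nonneg.2 h0
  have p1 : 0 ≤ 50 / 93 - m := sub_nonneg.2 h1
  have q0 := mul_nonneg p0 (mul_nonneg p0 p0)
  have q1 := mul_nonneg p0 (mul_nonneg p0 p1)
  have q2 := mul_nonneg p0 (mul_nonneg p1 p1)
  have q3 := mul_nonneg p1 (mul_nonneg p1 p1)
  constructor <;> (unfold G3; linarith)

theorem r4_26 {m : ℝ} (h0 : 321 / 1000 ≤ m) (h1 : m ≤ 200 / 377) :
    Rect (23 / 200) (1143 / 10000) (9933 / 10000) (157 / 1000) (59 / 100) (61 / 100) (277 / 400) (1 / 50) (3 / 4) (1 / 50) m := by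
  have p0 : 0 ≤ m - 321 / 1000 := sub_nonneg.2 h0
  have p1 : 0 ≤ 200 / 377 - m := sub_nonneg.2 h1
  have q0 := mul_nonneg p0 (mul_nonneg p0 p0)
  have q1 := mul_nonneg p0 (mul_nonneg p0 p1)
  have q2 := mul_nonneg p0 (mul_nonneg p1 p1)
  have q3 := mul_nonneg p1 (mul_nonneg p1 p1)
  constructor <;> (unfold G3; linarith)

theorem r4_27 {m : ℝ} (h0 : 167 / 500 ≤ m) (h1 : m ≤ 200 / 389) :
    Rect (11 / 200) (11 / 200) (624 / 625) (157 / 1000) (59 / 100) (61 / 100) (3 / 4) 0 1 0 m := by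
  have p0 : 0 ≤ m - 167 / 500 := sub_nonneg.2 h0
  have p1 : 0 ≤ 200 / 389 - m := sub_nonneg.2 h1
  have q0 := mul_nonneg p0 (mul_nonneg p0 p0)
  have q1 := mul_nonneg p0 (mul_nonneg p0 p1)
  have q2 := mul_nonneg p0 (mul_nonneg p1 p1)
  have q3 := mul_nonneg p1 (mul_nonneg p1 p1)
  constructor <;> (unfold G3; linarith)

theorem r4_33 {m : ℝ} (h0 : 309 / 1000 ≤ m) (h1 : m ≤ 50 / 91) :
    Rect (9 / 50) (1771 / 10000) (2459 / 2500) (111 / 1000) (61 / 100) (31 / 50) (61 / 100) (111 / 1000) (31 / 50) (111 / 1000) m := by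
  have p0 : 0 ≤ m - 309 / 1000 := sub_nonneg.2 h0
  have p1 : 0 ≤ 50 / 91 - m := sub_nonneg.2 h1
  have q0 := mul_nonneg p0 (mul_nonneg p0 p0)
  have q1 := mul_nonneg p0 (mul_nonneg p0 p1)
  have q2 := mul_nonneg p0 (mul_nonneg p1 p1)
  have q3 := mul_nonneg p1 (mul_nonneg p1 p1)
  constructor <;> (unfold G3; linarith)

theorem r4_34 {m : ℝ} (h0 : 39 / 125 ≤ m) (h1 : m ≤ 200 / 367) :
    Rect (33 / 200) (407 / 2500) (4931 / 5000) (111 / 1000) (61 / 100) (31 / 50) (31 / 50) (11 / 100) (131 / 200) (11 / 100) m := by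
  have p0 : 0 ≤ m - 39 / 125 := sub_nonneg.2 h0
  have p1 : 0 ≤ 200 / 367 - m := sub_nonneg.2 h1
  have q0 := mul_nonneg p0 (mul_nonneg p0 p0)
  have q1 := mul_nonneg p0 (mul_nonneg p0 p1)
  have q2 := mul_nonneg p0 (mul_nonneg p1 p1)
  have q3 := mul_nonneg p1 (mul_nonneg p1 p1)
  constructor <;> (unfold G3; linarith)

theorem r4_35 {m : ℝ} (h0 : 8 / 25 ≤ m) (h1 : m ≤ 8 / 15) :
    Rect (1 / 8) (1241 / 10000) (9921 / 10000) (111 / 1000) (61 / 100) (31 / 50) (131 / 200) (51 / 500) (277 / 400) (51 / 500) m := by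
  have p0 : 0 ≤ m - 8 / 25 := sub_nonneg.2 h0
  have p1 : 0 ≤ 8 / 15 - m := sub_nonneg.2 h1
  have q0 := mul_nonneg p0 (mul_nonneg p0 p0)
  have q1 := mul_nonneg p0 (mul_nonneg p0 p1)
  have q2 := mul_nonneg p0 (mul_nonneg p1 p1)
  have q3 := mul_nonneg p1 (mul_nonneg p1 p1)
  constructor <;> (unfold G3; linarith)

theorem r4_36 {m : ℝ} (h0 : 163 / 500 ≤ m) (h1 : m ≤ 200 / 381) :
    Rect (19 / 200) (473 / 5000) (4977 / 5000) (111 / 1000) (61 / 100) (31 / 50) (277 / 400) (1 / 50) (3 / 4) (1 / 50) m := by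
  have p0 : 0 ≤ m - 163 / 500 := sub_nonneg.2 h0
  have p1 : 0 ≤ 200 / 381 - m := sub_nonneg.2 h1
  have q0 := mul_nonneg p0 (mul_nonneg p0 p0)
  have q1 := mul_nonneg p0 (mul_nonneg p0 p1)
  have q2 := mul_nonneg p0 (mul_nonneg p1 p1)
  have q3 := mul_nonneg p1 (mul_nonneg p1 p1)
  constructor <;> (unfold G3; linarith)

theorem r4_37 {m : ℝ} (h0 : 339 / 1000 ≤ m) (h1 : m ≤ 100 / 197) :
    Rect (3 / 100) (3 / 100) (1999 / 2000) (111 / 1000) (61 / 100) (31 / 50) (3 / 4) 0 1 0 m := by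
  have p0 : 0 ≤ m - 339 / 1000 := sub_nonneg.2 h0
  have p1 : 0 ≤ 100 / 197 - m := sub_nonneg.2 h1
  have q0 := mul_nonneg p0 (mul_nonneg p0 p0)
  have q1 := mul_nonneg p0 (mul_nonneg p0 p1)
  have q2 := mul_nonneg p0 (mul_nonneg p1 p1)
  have q3 := mul_nonneg p1 (mul_nonneg p1 p1)
  constructor <;> (unfold G3; linarith)

theorem r4_44 {m : ℝ} (h0 : 157 / 500 ≤ m) (h1 : m ≤ 200 / 369) :
    Rect (31 / 200) (383 / 2500) (9879 / 10000) (11 / 100) (31 / 50) (131 / 200) (31 / 50) (11 / 100) (131 / 200) (11 / 100) m := by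
  have p0 : 0 ≤ m - 157 / 500 := sub_nonneg.2 h0
  have p1 : 0 ≤ 200 / 369 - m := sub_nonneg.2 h1
  have q0 := mul_nonneg p0 (mul_nonneg p0 p0)
  have q1 := mul_nonneg p0 (mul_nonneg p0 p1)
  have q2 := mul_nonneg p0 (mul_nonneg p1 p1)
  have q3 := mul_nonneg p1 (mul_nonneg p1 p1)
  constructor <;> (unfold G3; linarith)

theorem r4_45 {m : ℝ} (h0 : 161 / 500 ≤ m) (h1 : m ≤ 100 / 189) :
    Rect (11 / 100) (547 / 5000) (9939 / 10000) (11 / 100) (31 / 50) (131 / 200) (131 / 200) (51 / 500) (277 / 400) (51 / 500) m := by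
  have p0 : 0 ≤ m - 161 / 500 := sub_nonneg.2 h0
  have p1 : 0 ≤ 100 / 189 - m := sub_nonneg.2 h1
  have q0 := mul_nonneg p0 (mul_nonneg p0 p0)
  have q1 := mul_nonneg p0 (mul_nonneg p0 p1)
  have q2 := mul_nonneg p0 (mul_nonneg p1 p1)
  have q3 := mul_nonneg p1 (mul_nonneg p1 p1)
  constructor <;> (unfold G3; linarith)

theorem r4_46 {m : ℝ} (h0 : 41 / 125 ≤ m) (h1 : m ≤ 25 / 48) :
    Rect (2 / 25) (399 / 5000) (9967 / 10000) (11 / 100) (31 / 50) (131 / 200) (277 / 400) (1 / 50) (3 / 4) (1 / 50) m := by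
  have p0 : 0 ≤ m - 41 / 125 := sub_nonneg.2 h0
  have p1 : 0 ≤ 25 / 48 - m := sub_nonneg.2 h1
  have q0 := mul_nonneg p0 (mul_nonneg p0 p0)
  have q1 := mul_nonneg p0 (mul_nonneg p0 p1)
  have q2 := mul_nonneg p0 (mul_nonneg p1 p1)
  have q3 := mul_nonneg p1 (mul_nonneg p1 p1)
  constructor <;> (unfold G3; linarith)

theorem r4_47 {m : ℝ} (h0 : 341 / 1000 ≤ m) (h1 : m ≤ 50 / 99) :
    Rect (1 / 50) (1 / 50) (9997 / 10000) (11 / 100) (31 / 50) (131 / 200) (3 / 4) 0 1 0 m := by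
  have p0 : 0 ≤ m - 341 / 1000 := sub_nonneg.2 h0
  have p1 : 0 ≤ 50 / 99 - m := sub_nonneg.2 h1
  have q0 := mul_nonneg p0 (mul_nonneg p0 p0)
  have q1 := mul_nonneg p0 (mul_nonneg p0 p1)
  have q2 := mul_nonneg p0 (mul_nonneg p1 p1)
  have q3 := mul_nonneg p1 (mul_nonneg p1 p1)
  constructor <;> (unfold G3; linarith)

theorem r4_55 {m : ℝ} (h0 : 331 / 1000 ≤ m) (h1 : m ≤ 100 / 193) :
    Rect (7 / 100) (699 / 10000) (399 / 400) (51 / 500) (131 / 200) (277 / 400) (131 / 200) (51 / 500) (277 / 400) (51 / 500) m := by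
  have p0 : 0 ≤ m - 331 / 1000 := sub_nonneg.2 h0
  have p1 : 0 ≤ 100 / 193 - m := sub_nonneg.2 h1
  have q0 := mul_nonneg p0 (mul_nonneg p0 p0)
  have q1 := mul_nonneg p0 (mul_nonneg p0 p1)
  have q2 := mul_nonneg p0 (mul_nonneg p1 p1)
  have q3 := mul_nonneg p1 (mul_nonneg p1 p1)
  constructor <;> (unfold G3; linarith)

theorem r4_56 {m : ℝ} (h0 : 337 / 1000 ≤ m) (h1 : m ≤ 25 / 49) :
    Rect (1 / 25) (1 / 25) (9991 / 10000) (51 / 500) (131 / 200) (277 / 400) (277 / 400) (1 / 50) (3 / 4) (1 / 50) m := by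
  have p0 : 0 ≤ m - 337 / 1000 := sub_nonneg.2 h0
  have p1 : 0 ≤ 25 / 49 - m := sub_nonneg.2 h1
  have q0 := mul_nonneg p0 (mul_nonneg p0 p0)
  have q1 := mul_nonneg p0 (mul_nonneg p0 p1)
  have q2 := mul_nonneg p0 (mul_nonneg p1 p1)
  have q3 := mul_nonneg p1 (mul_nonneg p1 p1)
  constructor <;> (unfold G3; linarith)

theorem rle_of_le {z b₁ b₂ : ℂ} (H : Hyp z b₁ b₂) (S1 : Sl4 b₁.re b₁.im)
    (S2 : Sl4 b₂.re b₂.im) (hle : b₁.re ≤ b₂.re) :
    -(30901 / 100000) ≤ k2 z.re z.im - s2 z.re z.im := by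
  rcases le_total b₁.re (14 / 25) with a0 | a0
  · rcases le_total b₂.re (14 / 25) with c0 | c0
    · exact H.rang S1 S2 p4_225 (m₀ := 37 / 125) (b := 36 / 125) (l₁ := 519 / 1000) (u₁ := 14 / 25) (l₂ := 519 / 1000)
        (β := 36 / 125) (u₂ := 14 / 25) (by norm_num) (by norm_num) (by norm_num) (by norm_num)
        (by norm_num) (by norm_num) (by norm_num) (fun m h0 h1 => r4_00 h0 (by linarith))
        (S1.p0 a0) S1.A_ge a0 S2.A_ge c0 (S2.p0 c0) (by linarith) (by linarith)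
    rcases le_total b₂.re (59 / 100) with c1 | c1
    · exact H.rang S1 S2 p4_225 (m₀ := 297 / 1000) (b := 36 / 125) (l₁ := 519 / 1000) (u₁ := 14 / 25) (l₂ := 14 / 25)
        (β := 11 / 50) (u₂ := 59 / 100) (by norm_num) (by norm_num) (by norm_num) (by norm_num)
        (by norm_num) (by norm_num) (by norm_num) (fun m h0 h1 => r4_01 h0 (by linarith))
        (S1.p0 a0) S1.A_ge a0 c0 c1 (S2.p1 c1) (by linarith) (by linarith)
    rcases le_total b₂.re (61 / 100) with c2 | c2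
    · exact H.rang S1 S2 p4_225 (m₀ := 37 / 125) (b := 36 / 125) (l₁ := 519 / 1000) (u₁ := 14 / 25) (l₂ := 59 / 100)
        (β := 157 / 1000) (u₂ := 61 / 100) (by norm_num) (by norm_num) (by norm_num) (by norm_num)
        (by norm_num) (by norm_num) (by norm_num) (fun m h0 h1 => r4_02 h0 (by linarith))
        (S1.p0 a0) S1.A_ge a0 c1 c2 (S2.p2 c2) (by linarith) (by linarith)
    rcases le_total b₂.re (31 / 50) with c3 | c3
    · exact H.rang S1 S2 p4_225 (m₀ := 37 / 125) (b := 36 / 125) (l₁ := 519 / 1000) (u₁ := 14 / 25) (l₂ := 61 / 100)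
        (β := 111 / 1000) (u₂ := 31 / 50) (by norm_num) (by norm_num) (by norm_num) (by norm_num)
        (by norm_num) (by norm_num) (by norm_num) (fun m h0 h1 => r4_03 h0 (by linarith))
        (S1.p0 a0) S1.A_ge a0 c2 c3 (S2.p3 c3) (by linarith) (by linarith)
    rcases le_total b₂.re (131 / 200) with c4 | c4
    · exact H.rang S1 S2 p4_225 (m₀ := 149 / 500) (b := 36 / 125) (l₁ := 519 / 1000) (u₁ := 14 / 25) (l₂ := 31 / 50)
        (β := 11 / 100) (u₂ := 131 / 200) (by norm_num) (by norm_num) (by norm_num) (by norm_num)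
        (by norm_num) (by norm_num) (by norm_num) (fun m h0 h1 => r4_04 h0 (by linarith))
        (S1.p0 a0) S1.A_ge a0 c3 c4 (S2.p4 c4) (by linarith) (by linarith)
    rcases le_total b₂.re (277 / 400) with c5 | c5
    · exact H.rflat p4_205 (m₀ := 61 / 200) (b := 36 / 125) (l₁ := 519 / 1000) (u₁ := 14 / 25) (l₂ := 131 / 200)
        (β := 51 / 500) (u₂ := 277 / 400) (K₁ := 1792 / 3125) (by norm_num) (by norm_num) (by norm_num) (by norm_num)
        (by norm_num) (by norm_num) (by norm_num) (fun m h0 h1 => r4_05 h0 (by linarith))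
        (by norm_num) (by norm_num) (by norm_num) (S1.p0 a0) S1.A_ge a0 c4 c5 (S2.p5 c5)
    rcases le_total b₂.re (3 / 4) with c6 | c6
    · exact H.rflat p4_205 (m₀ := 61 / 200) (b := 36 / 125) (l₁ := 519 / 1000) (u₁ := 14 / 25) (l₂ := 277 / 400)
        (β := 1 / 50) (u₂ := 3 / 4) (K₁ := 1792 / 3125) (by norm_num) (by norm_num) (by norm_num) (by norm_num)
        (by norm_num) (by norm_num) (by norm_num) (fun m h0 h1 => r4_06 h0 (by linarith))
        (by norm_num) (by norm_num) (by norm_num) (S1.p0 a0) S1.A_ge a0 c5 c6 (S2.p6 c6)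
    exact H.rflat p4_145 (m₀ := 79 / 250) (b := 36 / 125) (l₁ := 519 / 1000) (u₁ := 14 / 25) (l₂ := 3 / 4)
        (β := 0) (u₂ := 1) (K₁ := 60349 / 100000) (by norm_num) (by norm_num) (by norm_num) (by norm_num)
        (by norm_num) (by norm_num) (by norm_num) (fun m h0 h1 => r4_07 h0 (by linarith))
        (by norm_num) (by norm_num) (by norm_num) (S1.p0 a0) S1.A_ge a0 c6 S2.A1 S2.B0
  rcases le_total b₁.re (59 / 100) with a1 | a1
  · rcases le_total b₂.re (59 / 100) with c1 | c1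
    · exact H.rang S1 S2 p4_225 (m₀ := 3 / 10) (b := 11 / 50) (l₁ := 14 / 25) (u₁ := 59 / 100) (l₂ := 14 / 25)
        (β := 11 / 50) (u₂ := 59 / 100) (by norm_num) (by norm_num) (by norm_num) (by norm_num)
        (by norm_num) (by norm_num) (by norm_num) (fun m h0 h1 => r4_11 h0 (by linarith))
        (S1.p1 a1) a0 a1 (a0.trans hle) c1 (S2.p1 c1) (by linarith) (by linarith)
    rcases le_total b₂.re (61 / 100) with c2 | c2
    · exact H.rflat p4_225 (m₀ := 301 / 1000) (b := 11 / 50) (l₁ := 14 / 25) (u₁ := 59 / 100) (l₂ := 59 / 100)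
        (β := 157 / 1000) (u₂ := 61 / 100) (K₁ := 7051 / 12500) (by norm_num) (by norm_num) (by norm_num) (by norm_num)
        (by norm_num) (by norm_num) (by norm_num) (fun m h0 h1 => r4_12 h0 (by linarith))
        (by norm_num) (by norm_num) (by norm_num) (S1.p1 a1) a0 a1 c1 c2 (S2.p2 c2)
    rcases le_total b₂.re (31 / 50) with c3 | c3
    · exact H.rflat p4_220 (m₀ := 151 / 500) (b := 11 / 50) (l₁ := 14 / 25) (u₁ := 59 / 100) (l₂ := 61 / 100)
        (β := 111 / 1000) (u₂ := 31 / 50) (K₁ := 56639 / 100000) (by norm_num) (by norm_num) (by norm_num) (by norm_num)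
        (by norm_num) (by norm_num) (by norm_num) (fun m h0 h1 => r4_13 h0 (by linarith))
        (by norm_num) (by norm_num) (by norm_num) (S1.p1 a1) a0 a1 c2 c3 (S2.p3 c3)
    rcases le_total b₂.re (131 / 200) with c4 | c4
    · exact H.rflat p4_205 (m₀ := 38 / 125) (b := 11 / 50) (l₁ := 14 / 25) (u₁ := 59 / 100) (l₂ := 31 / 50)
        (β := 11 / 100) (u₂ := 131 / 200) (K₁ := 1792 / 3125) (by norm_num) (by norm_num) (by norm_num) (by norm_num)
        (by norm_num) (by norm_num) (by norm_num) (fun m h0 h1 => r4_14 h0 (by linarith))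
        (by norm_num) (by norm_num) (by norm_num) (S1.p1 a1) a0 a1 c3 c4 (S2.p4 c4)
    rcases le_total b₂.re (277 / 400) with c5 | c5
    · exact H.rflat p4_165 (m₀ := 39 / 125) (b := 11 / 50) (l₁ := 14 / 25) (u₁ := 59 / 100) (l₂ := 131 / 200)
        (β := 51 / 500) (u₂ := 277 / 400) (K₁ := 59313 / 100000) (by norm_num) (by norm_num) (by norm_num) (by norm_num)
        (by norm_num) (by norm_num) (by norm_num) (fun m h0 h1 => r4_15 h0 (by linarith))
        (by norm_num) (by norm_num) (by norm_num) (S1.p1 a1) a0 a1 c4 c5 (S2.p5 c5)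
    rcases le_total b₂.re (3 / 4) with c6 | c6
    · exact H.rflat p4_150 (m₀ := 157 / 500) (b := 11 / 50) (l₁ := 14 / 25) (u₁ := 59 / 100) (l₂ := 277 / 400)
        (β := 1 / 50) (u₂ := 3 / 4) (K₁ := 60087 / 100000) (by norm_num) (by norm_num) (by norm_num) (by norm_num)
        (by norm_num) (by norm_num) (by norm_num) (fun m h0 h1 => r4_16 h0 (by linarith))
        (by norm_num) (by norm_num) (by norm_num) (S1.p1 a1) a0 a1 c5 c6 (S2.p6 c6)
    exact H.rflat p4_90 (m₀ := 163 / 500) (b := 11 / 50) (l₁ := 14 / 25) (u₁ := 59 / 100) (l₂ := 3 / 4)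
        (β := 0) (u₂ := 1) (K₁ := 31697 / 50000) (by norm_num) (by norm_num) (by norm_num) (by norm_num)
        (by norm_num) (by norm_num) (by norm_num) (fun m h0 h1 => r4_17 h0 (by linarith))
        (by norm_num) (by norm_num) (by norm_num) (S1.p1 a1) a0 a1 c6 S2.A1 S2.B0
  rcases le_total b₁.re (61 / 100) with a2 | a2
  · rcases le_total b₂.re (61 / 100) with c2 | c2
    · exact H.rflat p4_205 (m₀ := 38 / 125) (b := 157 / 1000) (l₁ := 59 / 100) (u₁ := 61 / 100) (l₂ := 59 / 100)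
        (β := 157 / 1000) (u₂ := 61 / 100) (K₁ := 1792 / 3125) (by norm_num) (by norm_num) (by norm_num) (by norm_num)
        (by norm_num) (by norm_num) (by norm_num) (fun m h0 h1 => r4_22 h0 (by linarith))
        (by norm_num) (by norm_num) (by norm_num) (S1.p2 a2) a1 a2 (a1.trans hle) c2 (S2.p2 c2)
    rcases le_total b₂.re (31 / 50) with c3 | c3
    · exact H.rflat p4_195 (m₀ := 153 / 500) (b := 157 / 1000) (l₁ := 59 / 100) (u₁ := 61 / 100) (l₂ := 61 / 100)
        (β := 111 / 1000) (u₂ := 31 / 50) (K₁ := 1807 / 3125) (by norm_num) (by norm_num) (by norm_num) (by norm_num)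
        (by norm_num) (by norm_num) (by norm_num) (fun m h0 h1 => r4_23 h0 (by linarith))
        (by norm_num) (by norm_num) (by norm_num) (S1.p2 a2) a1 a2 c2 c3 (S2.p3 c3)
    rcases le_total b₂.re (131 / 200) with c4 | c4
    · exact H.rflat p4_180 (m₀ := 309 / 1000) (b := 157 / 1000) (l₁ := 59 / 100) (u₁ := 61 / 100) (l₂ := 31 / 50)
        (β := 11 / 100) (u₂ := 131 / 200) (K₁ := 58559 / 100000) (by norm_num) (by norm_num) (by norm_num) (by norm_num)
        (by norm_num) (by norm_num) (by norm_num) (fun m h0 h1 => r4_24 h0 (by linarith))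
        (by norm_num) (by norm_num) (by norm_num) (S1.p2 a2) a1 a2 c3 c4 (S2.p4 c4)
    rcases le_total b₂.re (277 / 400) with c5 | c5
    · exact H.rflat p4_140 (m₀ := 317 / 1000) (b := 157 / 1000) (l₁ := 59 / 100) (u₁ := 61 / 100) (l₂ := 131 / 200)
        (β := 51 / 500) (u₂ := 277 / 400) (K₁ := 30307 / 50000) (by norm_num) (by norm_num) (by norm_num) (by norm_num)
        (by norm_num) (by norm_num) (by norm_num) (fun m h0 h1 => r4_25 h0 (by linarith))
        (by norm_num) (by norm_num) (by norm_num) (S1.p2 a2) a1 a2 c4 c5 (S2.p5 c5)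
    rcases le_total b₂.re (3 / 4) with c6 | c6
    · exact H.rflat p4_115 (m₀ := 321 / 1000) (b := 157 / 1000) (l₁ := 59 / 100) (u₁ := 61 / 100) (l₂ := 277 / 400)
        (β := 1 / 50) (u₂ := 3 / 4) (K₁ := 61973 / 100000) (by norm_num) (by norm_num) (by norm_num) (by norm_num)
        (by norm_num) (by norm_num) (by norm_num) (fun m h0 h1 => r4_26 h0 (by linarith))
        (by norm_num) (by norm_num) (by norm_num) (S1.p2 a2) a1 a2 c5 c6 (S2.p6 c6)
    exact H.rflat p4_55 (m₀ := 167 / 500) (b := 157 / 1000) (l₁ := 59 / 100) (u₁ := 61 / 100) (l₂ := 3 / 4)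
        (β := 0) (u₂ := 1) (K₁ := 65497 / 100000) (by norm_num) (by norm_num) (by norm_num) (by norm_num)
        (by norm_num) (by norm_num) (by norm_num) (fun m h0 h1 => r4_27 h0 (by linarith))
        (by norm_num) (by norm_num) (by norm_num) (S1.p2 a2) a1 a2 c6 S2.A1 S2.B0
  rcases le_total b₁.re (31 / 50) with a3 | a3
  · rcases le_total b₂.re (31 / 50) with c3 | c3
    · exact H.rflat p4_180 (m₀ := 309 / 1000) (b := 111 / 1000) (l₁ := 61 / 100) (u₁ := 31 / 50) (l₂ := 61 / 100)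
        (β := 111 / 1000) (u₂ := 31 / 50) (K₁ := 58559 / 100000) (by norm_num) (by norm_num) (by norm_num) (by norm_num)
        (by norm_num) (by norm_num) (by norm_num) (fun m h0 h1 => r4_33 h0 (by linarith))
        (by norm_num) (by norm_num) (by norm_num) (S1.p3 a3) a2 a3 (a2.trans hle) c3 (S2.p3 c3)
    rcases le_total b₂.re (131 / 200) with c4 | c4
    · exact H.rflat p4_165 (m₀ := 39 / 125) (b := 111 / 1000) (l₁ := 61 / 100) (u₁ := 31 / 50) (l₂ := 31 / 50)
        (β := 11 / 100) (u₂ := 131 / 200) (K₁ := 59313 / 100000) (by norm_num) (by norm_num) (by norm_num) (by norm_num)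
        (by norm_num) (by norm_num) (by norm_num) (fun m h0 h1 => r4_34 h0 (by linarith))
        (by norm_num) (by norm_num) (by norm_num) (S1.p3 a3) a2 a3 c3 c4 (S2.p4 c4)
    rcases le_total b₂.re (277 / 400) with c5 | c5
    · exact H.rflat p4_125 (m₀ := 8 / 25) (b := 111 / 1000) (l₁ := 61 / 100) (u₁ := 31 / 50) (l₂ := 131 / 200)
        (β := 51 / 500) (u₂ := 277 / 400) (K₁ := 30711 / 50000) (by norm_num) (by norm_num) (by norm_num) (by norm_num)
        (by norm_num) (by norm_num) (by norm_num) (fun m h0 h1 => r4_35 h0 (by linarith))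
        (by norm_num) (by norm_num) (by norm_num) (S1.p3 a3) a2 a3 c4 c5 (S2.p5 c5)
    rcases le_total b₂.re (3 / 4) with c6 | c6
    · exact H.rflat p4_95 (m₀ := 163 / 500) (b := 111 / 1000) (l₁ := 61 / 100) (u₁ := 31 / 50) (l₂ := 277 / 400)
        (β := 1 / 50) (u₂ := 3 / 4) (K₁ := 12621 / 20000) (by norm_num) (by norm_num) (by norm_num) (by norm_num)
        (by norm_num) (by norm_num) (by norm_num) (fun m h0 h1 => r4_36 h0 (by linarith))
        (by norm_num) (by norm_num) (by norm_num) (S1.p3 a3) a2 a3 c5 c6 (S2.p6 c6)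
    exact H.rflat p4_30 (m₀ := 339 / 1000) (b := 111 / 1000) (l₁ := 61 / 100) (u₁ := 31 / 50) (l₂ := 3 / 4)
        (β := 0) (u₂ := 1) (K₁ := 67087 / 100000) (by norm_num) (by norm_num) (by norm_num) (by norm_num)
        (by norm_num) (by norm_num) (by norm_num) (fun m h0 h1 => r4_37 h0 (by linarith))
        (by norm_num) (by norm_num) (by norm_num) (S1.p3 a3) a2 a3 c6 S2.A1 S2.B0
  rcases le_total b₁.re (131 / 200) with a4 | a4
  · rcases le_total b₂.re (131 / 200) with c4 | c4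
    · exact H.rflat p4_155 (m₀ := 157 / 500) (b := 11 / 100) (l₁ := 31 / 50) (u₁ := 131 / 200) (l₂ := 31 / 50)
        (β := 11 / 100) (u₂ := 131 / 200) (K₁ := 29913 / 50000) (by norm_num) (by norm_num) (by norm_num) (by norm_num)
        (by norm_num) (by norm_num) (by norm_num) (fun m h0 h1 => r4_44 h0 (by linarith))
        (by norm_num) (by norm_num) (by norm_num) (S1.p4 a4) a3 a4 (a3.trans hle) c4 (S2.p4 c4)
    rcases le_total b₂.re (277 / 400) with c5 | c5
    · exact H.rflat p4_110 (m₀ := 161 / 500) (b := 11 / 100) (l₁ := 31 / 50) (u₁ := 131 / 200) (l₂ := 131 / 200)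
        (β := 51 / 500) (u₂ := 277 / 400) (K₁ := 15563 / 25000) (by norm_num) (by norm_num) (by norm_num) (by norm_num)
        (by norm_num) (by norm_num) (by norm_num) (fun m h0 h1 => r4_45 h0 (by linarith))
        (by norm_num) (by norm_num) (by norm_num) (S1.p4 a4) a3 a4 c4 c5 (S2.p5 c5)
    rcases le_total b₂.re (3 / 4) with c6 | c6
    · exact H.rflat p4_80 (m₀ := 41 / 125) (b := 11 / 100) (l₁ := 31 / 50) (u₁ := 131 / 200) (l₂ := 277 / 400)
        (β := 1 / 50) (u₂ := 3 / 4) (K₁ := 63981 / 100000) (by norm_num) (by norm_num) (by norm_num) (by norm_num)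
        (by norm_num) (by norm_num) (by norm_num) (fun m h0 h1 => r4_46 h0 (by linarith))
        (by norm_num) (by norm_num) (by norm_num) (S1.p4 a4) a3 a4 c5 c6 (S2.p6 c6)
    exact H.rflat p4_20 (m₀ := 341 / 1000) (b := 11 / 100) (l₁ := 31 / 50) (u₁ := 131 / 200) (l₂ := 3 / 4)
        (β := 0) (u₂ := 1) (K₁ := 13549 / 20000) (by norm_num) (by norm_num) (by norm_num) (by norm_num)
        (by norm_num) (by norm_num) (by norm_num) (fun m h0 h1 => r4_47 h0 (by linarith))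
        (by norm_num) (by norm_num) (by norm_num) (S1.p4 a4) a3 a4 c6 S2.A1 S2.B0
  rcases le_total b₁.re (277 / 400) with a5 | a5
  · rcases le_total b₂.re (277 / 400) with c5 | c5
    · exact H.rflat p4_70 (m₀ := 331 / 1000) (b := 51 / 500) (l₁ := 131 / 200) (u₁ := 277 / 400) (l₂ := 131 / 200)
        (β := 51 / 500) (u₂ := 277 / 400) (K₁ := 64579 / 100000) (by norm_num) (by norm_num) (by norm_num) (by norm_num)
        (by norm_num) (by norm_num) (by norm_num) (fun m h0 h1 => r4_55 h0 (by linarith))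
        (by norm_num) (by norm_num) (by norm_num) (S1.p5 a5) a4 a5 (a4.trans hle) c5 (S2.p5 c5)
    rcases le_total b₂.re (3 / 4) with c6 | c6
    · exact H.rflat p4_40 (m₀ := 337 / 1000) (b := 51 / 500) (l₁ := 131 / 200) (u₁ := 277 / 400) (l₂ := 277 / 400)
        (β := 1 / 50) (u₂ := 3 / 4) (K₁ := 33221 / 50000) (by norm_num) (by norm_num) (by norm_num) (by norm_num)
        (by norm_num) (by norm_num) (by norm_num) (fun m h0 h1 => r4_56 h0 (by linarith))
        (by norm_num) (by norm_num) (by norm_num) (S1.p5 a5) a4 a5 c5 c6 (S2.p6 c6)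
    exact H.rtriv (l₁ := 131 / 200) (l₂ := 3 / 4) (b := 51 / 500) (β := 0) (by norm_num) (by norm_num)
        (by norm_num) (by norm_num) (by norm_num) (S1.p5 a5) a4 c6 S2.B0
  rcases le_total b₁.re (3 / 4) with a6 | a6
  · rcases le_total b₂.re (3 / 4) with c6 | c6
    · exact H.rtriv (l₁ := 277 / 400) (l₂ := 277 / 400) (b := 1 / 50) (β := 1 / 50) (by norm_num) (by norm_num)
        (by norm_num) (by norm_num) (by norm_num) (S1.p6 a6) a5 (a5.trans hle) (S2.p6 c6)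
    exact H.rtriv (l₁ := 277 / 400) (l₂ := 3 / 4) (b := 1 / 50) (β := 0) (by norm_num) (by norm_num)
        (by norm_num) (by norm_num) (by norm_num) (S1.p6 a6) a5 c6 S2.B0
  exact H.rtriv (l₁ := 3 / 4) (l₂ := 3 / 4) (b := 0) (β := 0) (by norm_num) (by norm_num)
        (by norm_num) (by norm_num) (by norm_num) S1.B0 a6 (a6.trans hle) S2.B0

end Pool.Agent.S3.E.J3
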