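import Pool.Agent.S3.E.J4
import Pool.Agent.S3.E.Rng12

/-!
# Stage 3, block E: `Re z ≤ 3π/10` at the open neighbours of an inner vertex with two twists

* `Vx.inner3_R`: an inner vertex with three twists;
* `Zr.re_le30_end2`: an inner vertex with two twists, one closed neighbour and one open neighbour;
* `Zr.two_re_le'`: an inner vertex with two twists and an open neighbour;
* `Zr.open_re_le`: the open neighbours of an inner vertex with two twists.
-/

set_option autoImplicit false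

namespace Pool.Agent.S3.E

section real

open Real

/-- One slot: `sinh² p ≥ 15/100`, `sin r ≥ 17/100`. -/
private theorem J5_slot {R I ρ β p r : ℝ} (hs : Slot R I ρ β p r) (h0 : 0 < R) (h1 : R < π / 2)
    (ht : 1 ≤ tt R I ^ 2) (hρ : 1 / 2 ≤ ρ) (hr : r ≤ π / 10) :
    1512 / 10000 ≤ sinh p ^ 2 := by
  have hn := hs.norm h0 h1
  have hk := k2_pos (I := I) h0 h1
  have e := tt_sq (I := I) h0 h1
  have h2 : sinh p ^ 2 + sin r ^ 2 = ρ ^ 2 * tt R I ^ 2 := by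
    rw [e]
    field_simp
    exact hn
  have hr0 := hs.r0
  have hpi := Real.pi_lt_d4
  have h3 : sin r ≤ r := sin_le hr0
  have h4 : 0 ≤ sin r := sin_nonneg_of_nonneg_of_le_pi hr0 (by linarith [Real.pi_pos])
  have h5 : sin r ^ 2 ≤ 988 / 10000 := by nlinarith only [hr, hpi, h3, h4]
  have h6 : 1 / 4 ≤ ρ ^ 2 := by nlinarith only [hρ]
  nlinarith only [ht, h2, h5, h6]

private theorem J5_slot2 {R I ρ β p r : ℝ} (hs : Slot R I ρ β p r) (h0 : 0 < R) (h1 : R < π / 2)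
    (hI : 0 < I) (hp : 1512 / 10000 ≤ sinh p ^ 2) (hI2 : 1 / 4 ≤ I) (hr : r ≤ π / 10) :
    171 / 1000 ≤ r := by
  have hp0 := hs.p0
  have hsp0 : 0 ≤ sinh p := sinh_nonneg_iff.2 hp0
  have hr0 := hs.r0
  have hpi := Real.pi_lt_d4
  have hpi3 := Real.pi_gt_three
  -- `tan α ≥ 1/2`
  have hT : 1 / 2 ≤ tan (al R I) := by
    rw [tan_al]
    have h2 := sin_two_pos h0 h1
    rw [le_div_iff₀ h2]
    have h3 := sin_le_one (2 * R)
    have h4 : 2 * I ≤ sinh (2 * I) := self_le_sinh_iff.2 (by linarith)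
    linarith only [hI2, h3, h4]
  have htp : 36 / 100 ≤ tanh p := by
    rw [tanh_eq_sinh_div_cosh, le_div_iff₀ (cosh_pos _)]
    have h2 := cosh_sq p
    by_contra h3
    push Not at h3
    have h4 := cosh_pos p
    have h5 := pow_lt_pow_left₀ h3 hsp0 two_ne_zero
    rw [mul_pow, h2] at h5
    norm_num at h5
    linarith
  have hy : 18 / 100 ≤ tan (al R I) * tanh p := by nlinarith only [hT, htp]
  have har := hs.arctan_le h0 h1 hI
  have hcos : 0 < cos r := cos_pos_of_mem_Ioo ⟨by linarith, by linarith⟩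
  have h5 : tan (al R I) * tanh p ≤ tan r := by
    have h6 : arctan (tan (al R I) * tanh p) ≤ arctan (tan r) := by
      rw [arctan_tan (by linarith) (by linarith)]
      exact har
    exact arctan_strictMono.le_iff_le.1 h6
  have h7 : 18 / 100 ≤ tan r := by linarith
  rw [tan_eq_sin_div_cos, le_div_iff₀ hcos] at h7
  have h8 := one_sub_sq_div_two_le_cos (x := r)
  have h9 : sin r ≤ r := sin_le hr0
  have h10 : r ^ 2 ≤ 988 / 10000 := by nlinarith only [hr, hr0, hpi]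
  linarith

/-- `R ≤ 3π/10` at an inner vertex with three twists. -/
theorem Vx.inner3_R {R I ρ₁ β₁ p₁ r₁ ρ₂ β₂ p₂ r₂ : ℝ} (h : Vx 3 R I ρ₁ β₁ p₁ r₁ ρ₂ β₂ p₂ r₂)
    (hρ₁ : 1 / 2 ≤ ρ₁) (hρ₂ : 1 / 2 ≤ ρ₂) : R ≤ 3 / 10 * π := by
  by_contra hc
  rw [not_le] at hc
  have h0 := h.R0
  have h1 := h.R1
  have hI := h.I0
  have hpi := Real.pi_pos
  have hpi2 := Real.pi_lt_d4
  have hR := h.hR
  have hr₁ := h.sl₁.r0
  have hr₂ := h.sl₂.r0
  have hg : gg R ≤ 0 := by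
    unfold gg
    exact cos_nonpos_of_pi_div_two_le_of_le (by linarith) (by linarith)
  have hk := k2_pos (I := I) h0 h1
  have ht : 1 ≤ tt R I ^ 2 := by
    rw [tt_sq h0 h1, le_div_iff₀ hk, one_mul]
    unfold k2 s2
    linarith
  have s1 := J5_slot h.sl₁ h0 h1 ht hρ₁ (by linarith)
  have s2 := J5_slot h.sl₂ h0 h1 ht hρ₂ (by linarith)
  -- `sinh (3/8) ≤ 3885/10000`
  have hsh : sinh (3 / 8 : ℝ) ≤ 3885 / 10000 := by
    have e1 : exp (3 / 8 : ℝ) ≤ 145503 / 100000 := by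
      refine (Real.exp_bound' (x := 3 / 8) (by norm_num) (by norm_num) (n := 6)
        (by norm_num)).trans ?_
      simp only [Finset.sum_range_succ, Finset.sum_range_zero, Nat.factorial]
      norm_num
    have e2 : exp (3 / 8 : ℝ) * exp (-(3 / 8 : ℝ)) = 1 := by
      rw [← Real.exp_add]
      simp
    have e3 := Real.exp_pos (3 / 8 : ℝ)
    have e4 : 100000 / 145503 ≤ exp (-(3 / 8 : ℝ)) := by
      rw [div_le_iff₀ (by norm_num)]
      nlinarith only [e1, e2, e3]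
    rw [Real.sinh_eq]
    norm_num at e4 ⊢
    linarith
  have hp : ∀ p : ℝ, 0 ≤ p → 1512 / 10000 ≤ sinh p ^ 2 → 3 / 8 ≤ p := by
    intro p hp0 hp
    by_contra h2
    push Not at h2
    have h3 : sinh p < sinh (3 / 8) := sinh_lt_sinh.2 h2
    have h4 : 0 ≤ sinh p := sinh_nonneg_iff.2 hp0
    nlinarith only [hsh, hp, h3, h4]
  have q1 := hp p₁ h.sl₁.p0 s1
  have q2 := hp p₂ h.sl₂.p0 s2
  have hI2 : 1 / 4 ≤ I := by linarith [h.hI]
  have r1 := J5_slot2 h.sl₁ h0 h1 hI s1 hI2 (by linarith)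
  have r2 := J5_slot2 h.sl₂ h0 h1 hI s2 hI2 (by linarith)
  linarith

end real

section closed

open Complex

/-- The norm of the other neighbour in the coordinates `(P, q)`. -/
theorem J5_norm {κ b₁ b₂ : ℂ} (h1 : b₁ ^ 2 = I / 2 * κ)
    (hq : 4 * (κ ^ 2) ^ 2 - 4 * (b₁ * b₂) * κ ^ 2 + (b₁ + b₂) ^ 2 = 0)
    (v0 : 0 < b₁.im) (uv : b₁.im ≤ b₁.re) (d0 : 0 ≤ b₂.im) :
    4 * ‖b₂‖ ^ 2 = 2 * ‖κ‖ * (4 * (-2 * κ.im) ^ 2 - 2 * (-2 * κ.im) * ((2 * ‖κ‖) ^ 2 + 1) +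
      (2 * ‖κ‖) ^ 4 - (2 * ‖κ‖) ^ 2 + 1) := by
  rcases Cl.two_rel h1 hq with h | h
  · have hn : ‖b₁‖ ^ 2 = ‖κ‖ / 2 := by
      rw [← norm_pow, h1, norm_mul, norm_div, norm_I]
      norm_num
      ring
    have e1 : 16 * b₁ ^ 4 - 4 * b₁ ^ 2 + 1 = (2 * I * κ) ^ 2 - 2 * I * κ + 1 := by
      have : b₁ ^ 4 = (I / 2 * κ) ^ 2 := by rw [← h1]; ring
      rw [this, h1]
      ring
    have e2 : ‖(2 * I * κ) ^ 2 - 2 * I * κ + 1‖ ^ 2 =
        4 * (-2 * κ.im) ^ 2 - 2 * (-2 * κ.im) * ((2 * ‖κ‖) ^ 2 + 1) +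
        (2 * ‖κ‖) ^ 4 - (2 * ‖κ‖) ^ 2 + 1 := by
      have k1 : ‖κ‖ ^ 2 = κ.re ^ 2 + κ.im ^ 2 := by
        rw [← normSq_eq_norm_sq, normSq_apply]; ring
      have k2 : (2 * ‖κ‖) ^ 4 = 16 * (κ.re ^ 2 + κ.im ^ 2) ^ 2 := by
        rw [← k1]; ring
      have k3 : (2 * ‖κ‖) ^ 2 = 4 * (κ.re ^ 2 + κ.im ^ 2) := by
        rw [← k1]; ring
      rw [k2, k3]
      have e3 : (2 * I * κ) ^ 2 - 2 * I * κ + 1 =
          ((-4 * (κ.re ^ 2 - κ.im ^ 2) + 2 * κ.im + 1 : ℝ) : ℂ) +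
          ((-8 * κ.re * κ.im - 2 * κ.re : ℝ) : ℂ) * I := by
        conv_lhs => rw [show κ = (κ.re : ℂ) + (κ.im : ℂ) * I from (re_add_im κ).symm]
        push_cast
        linear_combination (4 * ((κ.re : ℂ) + κ.im * I) ^ 2 - 4 * (κ.im : ℂ) ^ 2 - 2 * κ.im) * I_sq
      rw [e3, ← normSq_eq_norm_sq, normSq_apply, add_re, add_im, ofReal_re, ofReal_im,
        re_ofReal_mul, im_ofReal_mul, I_re, I_im]
      ring
    rw [h, norm_neg, norm_mul, e1, mul_pow, hn, e2]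
    ring
  · exfalso
    set u := b₁.re with hu
    set v := b₁.im with hv
    have eb : b₁ = (u : ℂ) + v * I := (re_add_im b₁).symm
    have u0 : 0 < u := lt_of_lt_of_le v0 uv
    have e5 : b₂ = ((-(u * (1 + 4 * (u ^ 2 - 3 * v ^ 2))) : ℝ) : ℂ)
        + ((-(v * (1 + 4 * (3 * u ^ 2 - v ^ 2))) : ℝ) : ℂ) * I := by
      rw [h, eb]
      have i2 := I_sq
      have i3 : I ^ 3 = -I := by rw [pow_succ, I_sq]; ring
      push_cast
      ring_nf
      rw [i2, i3]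
      ring
    have im5 := congrArg Complex.im e5
    rw [add_im, ofReal_im, im_ofReal_mul, I_im, mul_one, zero_add] at im5
    have huv : v ^ 2 ≤ u ^ 2 := pow_le_pow_left₀ v0.le uv 2
    have h6 : 0 < 1 + 4 * (3 * u ^ 2 - v ^ 2) := by linarith only [sq_nonneg u, huv]
    have := mul_pos v0 h6
    linarith

/-- `R ≤ 3 π / 10` if the other neighbour has norm `≥ 63/100`. -/
theorem J5_R30 {P q : ℝ} (H : Cl.RegQ P q)
    (hN : 15876 / 10000 ≤ q * (4 * P ^ 2 - 2 * P * (q ^ 2 + 1) + q ^ 4 - q ^ 2 + 1)) :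
    P ^ 2 ≤ 1309 / 1000 * (q ^ 2 / 2 - 691 / 1000) := by
  rcases le_total (146 / 100) q with h | h
  · exact H.R30 h
  have h0 := H.q_ge43
  have hP := H.P_ge43 (by linarith)
  have hP2 := H.P_le
  have hP3 : P ≤ 7002 / 10000 := by linarith
  have q2 : q ^ 2 ≤ (146 / 100) ^ 2 := pow_le_pow_left₀ (by linarith) h 2
  have q2' : (4 / 3) ^ 2 ≤ q ^ 2 := pow_le_pow_left₀ (by norm_num) h0 2
  norm_num at q2 q2'
  -- `7/5 ≤ q`
  have h75 : 7 / 5 ≤ q := by
    by_contra hc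
    push Not at hc
    have a1 : q ^ 2 ≤ (7 / 5) ^ 2 := pow_le_pow_left₀ (by linarith) hc.le 2
    norm_num at a1
    have a2 : 4 * P ^ 2 - 2 * P * (q ^ 2 + 1) ≤ 4 * (43 / 100) ^ 2 - 2 * (43 / 100) * (q ^ 2 + 1) := by
      have : 0 ≤ (P - 43 / 100) * (2 * (q ^ 2 + 1) - 4 * (P + 43 / 100)) :=
        mul_nonneg (by linarith) (by linarith only [hP3, q2'])
      linarith only [this]
    have a3 : q ^ 4 - 186 / 100 * q ^ 2 + 8796 / 10000 ≤ 10756 / 10000 := by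
      have : q ^ 4 = q ^ 2 * q ^ 2 := by ring
      rw [this]
      nlinarith only [a1]
    have a4 : q * (4 * P ^ 2 - 2 * P * (q ^ 2 + 1) + q ^ 4 - q ^ 2 + 1) ≤ 7 / 5 * (10756 / 10000) := by
      have b1 : 4 * P ^ 2 - 2 * P * (q ^ 2 + 1) + q ^ 4 - q ^ 2 + 1 ≤ 10756 / 10000 := by
        norm_num at a2
        linarith
      have b2 := mul_le_mul_of_nonneg_left b1 (show 0 ≤ q by linarith)
      linarith only [hc, b2]
    norm_num at a4
    linarith
  -- `P ≤ 61/100`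
  have h61 : P ≤ 61 / 100 := by
    by_contra hc
    push Not at hc
    have a2 : 4 * P ^ 2 - 2 * P * (q ^ 2 + 1) ≤ 4 * (61 / 100) ^ 2 - 2 * (61 / 100) * (q ^ 2 + 1) := by
      have q3 : (7 / 5) ^ 2 ≤ q ^ 2 := pow_le_pow_left₀ (by norm_num) h75 2
      norm_num at q3
      have : 0 ≤ (P - 61 / 100) * (2 * (q ^ 2 + 1) - 4 * (P + 61 / 100)) :=
        mul_nonneg (by linarith) (by linarith only [hP3, q3])
      linarith only [this]
    have a3 : q ^ 4 - 222 / 100 * q ^ 2 + 12684 / 10000 ≤ 10800 / 10000 := by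
      have : q ^ 4 = q ^ 2 * q ^ 2 := by ring
      rw [this]
      have q3 : (7 / 5) ^ 2 ≤ q ^ 2 := pow_le_pow_left₀ (by norm_num) h75 2
      norm_num at q3
      nlinarith only [q2, q2']
    have a4 : q * (4 * P ^ 2 - 2 * P * (q ^ 2 + 1) + q ^ 4 - q ^ 2 + 1) ≤
        146 / 100 * (10800 / 10000) := by
      have b1 : 4 * P ^ 2 - 2 * P * (q ^ 2 + 1) + q ^ 4 - q ^ 2 + 1 ≤ 10800 / 10000 := by
        norm_num at a2
        linarith
      have b2 := mul_le_mul_of_nonneg_left b1 (show 0 ≤ q by linarith)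
      linarith only [h, b2]
    norm_num at a4
    linarith
  have q3 : (7 / 5) ^ 2 ≤ q ^ 2 := pow_le_pow_left₀ (by norm_num) h75 2
  norm_num at q3
  nlinarith only [hP, h61, q3]

end closed

namespace Zr

open Complex

variable {ι : Type*} [Finite ι] {a : ι → ℝ} {nl nr : ι → Option ι} {z : ι → ℂ}

/-- **`Re z ≤ 3π/10`** at an inner vertex `i` with two twists, a closed neighbour `j` and a
neighbour `k` with `63/100 ≤ |cos z_k|`. -/
theorem re_le30_end2 (h : Zr a nl nr 1 z) {i j k : ι} (hj : Zr.IsEnd2 a nl nr j i) (ha : a i = 2)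
    (hk : (nl i = some j ∧ nr i = some k) ∨ (nl i = some k ∧ nr i = some j))
    (hρ : 63 / 100 ≤ ‖cos (z k)‖) : (z i).re ≤ 3 / 10 * Real.pi := by
  have hpi := Real.pi_pos
  have hin : ∃ l r, nl i = some l ∧ nr i = some r := by
    rcases hk with ⟨e1, e2⟩ | ⟨e1, e2⟩
    · exact ⟨_, _, e1, e2⟩
    · exact ⟨_, _, e1, e2⟩
  have H := Cl.regQ h hj ha hin
  have hq := h.quartic i ha
  have hq' : 4 * (cos (z i) ^ 2) ^ 2 - 4 * (bo 1 z (some j) * bo 1 z (some k)) * cos (z i) ^ 2 +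
      (bo 1 z (some j) + bo 1 z (some k)) ^ 2 = 0 := by
    rcases hk with ⟨e1, e2⟩ | ⟨e1, e2⟩
    · rw [e1, e2] at hq; exact hq
    · rw [e1, e2] at hq; linear_combination hq
  have h1 : bo 1 z (some j) ^ 2 = I / 2 * cos (z i) := by
    have h2 := h.end2 hj.1 hj.2
    rw [h.bo_one] at h2 ⊢
    have h3 := congrArg (starRingEnd ℂ) h2
    rw [map_mul, map_mul, map_neg, conj_I, conj_conj, map_pow, Complex.conj_ofNat] at h3
    linear_combination h3 / 2
  have hv0 : 0 < (bo 1 z (some j)).im := by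
    rw [h.bo_im]
    apply mul_pos (h.ro_pos j)
    apply Real.sin_pos_of_pos_of_lt_pi
    · rw [Zr.be_one]; exact h.phpos j
    · have := h.be_le (some j)
      linarith [Real.pi_pos]
  have hN := J5_norm h1 hq' hv0 (h.bo_im_le _) (h.bo_im_nonneg _)
  have hb : ‖bo 1 z (some k)‖ = ‖cos (z k)‖ := by
    rw [h.norm_bo, ro_one]
  rw [hb] at hN
  have hρ2 : (63 / 100) ^ 2 ≤ ‖cos (z k)‖ ^ 2 := pow_le_pow_left₀ (by norm_num) hρ 2
  norm_num at hρ2
  have hR := J5_R30 H (by linarith)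
  have e2 := Cl.s2_sq h i
  apply Cl.re_le_of h i (c := 309 / 1000) (by positivity)
  · have e : Real.cos (2 * (3 / 10 * Real.pi)) = -Real.cos (2 * (Real.pi / 5)) := by
      rw [← Real.cos_pi_sub]; congr 1; ring
    rw [e, Real.cos_two_mul, Real.cos_pi_div_five]
    have a2 : (√5) ^ 2 = 5 := Real.sq_sqrt (by norm_num)
    have a3 : 0 ≤ √5 := Real.sqrt_nonneg 5
    nlinarith only [a2, a3]
  · set K := ‖cos (z i)‖ with hK
    set P := -2 * (cos (z i)).im with hPd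
    by_contra hc
    push Not at hc
    have h3 : (K ^ 2 + 309 / 1000) ^ 2 < s2 (z i).re (z i).im ^ 2 :=
      pow_lt_pow_left₀ hc (by positivity) two_ne_zero
    rw [e2] at h3
    linarith only [hR, h3]

/-- **`Re z ≤ 3π/10`** at an inner vertex with two twists and an open neighbour. -/
theorem two_re_le' (h : Zr a nl nr 1 z) (h3 : ∀ i, 3 ≤ a i → a i = 3 ∨ 4 ≤ a i) {i j k : ι}
    (hi : a i = 2) (hij : (nl i = some j ∧ nr i = some k) ∨ (nl i = some k ∧ nr i = some j))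
    (hj : 3 ≤ a j ∨ (a j = 2 ∧ In2 nl nr j)) : (z i).re ≤ 3 / 10 * Real.pi := by
  have hin : In2 nl nr i := by
    rcases hij with ⟨h1, h2⟩ | ⟨h1, h2⟩
    · exact ⟨_, _, h1, h2⟩
    · exact ⟨_, _, h1, h2⟩
  have hj1 : nl i = some j ∨ nr i = some j := by
    rcases hij with ⟨h1, h2⟩ | ⟨h1, h2⟩
    · exact Or.inl h1
    · exact Or.inr h2
  have hk1 : nl i = some k ∨ nr i = some k := by
    rcases hij with ⟨h1, h2⟩ | ⟨h1, h2⟩
    · exact Or.inr h2
    · exact Or.inl h1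
  have key : (3 ≤ a k ∨ (a k = 2 ∧ In2 nl nr k)) → (z i).re ≤ 3 / 10 * Real.pi := by
    intro hk
    rcases hij with ⟨h1, h2⟩ | ⟨h1, h2⟩
    · exact h.two_re_le h3 hi h1 h2 hj hk
    · exact h.two_re_le h3 hi h1 h2 hk hj
  rcases h.nb_types hk1 with e | e | e
  · exact key (Or.inl e)
  · exact key (Or.inr e)
  · exact h.re_le30_end2 e hi hij.symm (h.nb63 h3 hi hin hj1 hj)

/-- **`Re z ≤ 3π/10`** at the open neighbours of an inner vertex with two twists. -/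
theorem open_re_le (h : Zr a nl nr 1 z) (h3 : ∀ i, 3 ≤ a i → a i = 3 ∨ 4 ≤ a i) {i j : ι}
    (hi : a i = 2) (hin : In2 nl nr i) (hij : nl i = some j ∨ nr i = some j)
    (hj : 3 ≤ a j ∨ (a j = 2 ∧ In2 nl nr j)) : (z j).re ≤ 3 / 10 * Real.pi := by
  have hji := h.N.symm i j hij
  have hpi := Real.pi_pos
  rcases hj with hj | ⟨hj, hj'⟩
  · rcases h3 j hj with e | e
    · obtain ⟨o, r₁, p₂, r₂, ho, ho', hv⟩ := h.vx_first hji
      rw [e] at hv
      cases o with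
      | none => exact (h.end3_two e hji (ho'.1 rfl) hi hin).1
      | some k => exact hv.inner3_R (h.ro_ge i) (h.ro_ge k)
    · have k := h.aR_lt_i j
      have hR := (h.pos j).1
      nlinarith only [e, k, hR]
  · obtain ⟨l, r, e1, e2⟩ := hj'
    rcases hji with e | e
    · exact h.two_re_le' h3 hj (Or.inl ⟨e, e2⟩) (Or.inr ⟨hi, hin⟩)
    · exact h.two_re_le' h3 hj (Or.inr ⟨e1, e⟩) (Or.inr ⟨hi, hin⟩)

end Zr

end Pool.Agent.S3.E
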