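import Pool.Agent.S3.E.J5B
import Pool.Agent.S3.E.J5C

/-!
# Stage 3, block E: the weight of an inner vertex with two twists towards an open neighbour

`Zr.bw_ge`: `2/5 ≤ bw (z i) (z j)`, `i` an inner vertex with two twists, `j` an open neighbour.
-/

set_option autoImplicit false

namespace Pool.Agent.S3.E

open Complex

namespace J5

/-- `sinh (2v) ≤ (2/5) sinh (5v)`. -/
theorem sinh_25 {v : ℝ} (hv : 0 ≤ v) : Real.sinh (2 * v) ≤ 2 / 5 * Real.sinh (5 * v) := by
  obtain ⟨S, hS⟩ : ∃ S, S = Real.sinh v := ⟨_, rfl⟩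
  obtain ⟨C, hC⟩ : ∃ C, C = Real.cosh v := ⟨_, rfl⟩
  have hCS : C ^ 2 = 1 + S ^ 2 := by rw [hS, hC, Real.cosh_sq]; ring
  have hS0 : 0 ≤ S := by rw [hS]; exact Real.sinh_nonneg_iff.2 hv
  have hC0 : 0 < C := by rw [hC]; exact Real.cosh_pos v
  have s2 : Real.sinh (2 * v) = 2 * S * C := by rw [Real.sinh_two_mul, hS, hC]
  have c2 : Real.cosh (2 * v) = 1 + 2 * S ^ 2 := by
    rw [Real.cosh_two_mul, ← hS, ← hC, hCS]; ring
  have s4 : Real.sinh (4 * v) = 4 * S * C * (1 + 2 * S ^ 2) := by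
    rw [show 4 * v = 2 * (2 * v) by ring, Real.sinh_two_mul, s2, c2]; ring
  have c4 : Real.cosh (4 * v) = 1 + 8 * S ^ 2 + 8 * S ^ 4 := by
    rw [show 4 * v = 2 * (2 * v) by ring, Real.cosh_two_mul, s2, c2]
    linear_combination (4 * S ^ 2) * hCS
  have s5 : Real.sinh (5 * v) = S * (5 + 20 * S ^ 2 + 16 * S ^ 4) := by
    rw [show 5 * v = 4 * v + v by ring, Real.sinh_add, s4, c4, ← hS, ← hC]
    linear_combination (4 * S * (1 + 2 * S ^ 2)) * hCS
  rw [s2, s5]
  have hC1 : C ≤ 1 + S ^ 2 := by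
    have : 1 ≤ C := by rw [hC]; exact Real.one_le_cosh v
    nlinarith only [hCS]
  have h2 : C ≤ 1 + 4 * S ^ 2 + 16 / 5 * S ^ 4 := by
    have : 0 ≤ S ^ 2 := by positivity
    have : 0 ≤ S ^ 4 := by positivity
    linarith
  have h3 := mul_le_mul_of_nonneg_left h2 hS0
  linarith

/-- The square of `sinh p` for `w = sinh (p + i r)`. -/
theorem sinh_ge {p r V N q : ℝ} (h1 : Real.sinh p * Real.cos r = V)
    (h2 : Real.sinh p ^ 2 + Real.sin r ^ 2 = N) (hq : 0 < q) (hV : q * (1 + q - N) ≤ V ^ 2) :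
    q ≤ Real.sinh p ^ 2 := by
  by_contra hc
  push Not at hc
  have h3 := Real.sin_sq_add_cos_sq r
  have h4 : V ^ 2 = Real.sinh p ^ 2 * (1 + Real.sinh p ^ 2 - N) := by
    rw [← h1, ← h2, mul_pow]
    linear_combination (Real.sinh p ^ 2) * h3
  have h5 : 0 ≤ 1 + Real.sinh p ^ 2 - N := by
    rw [← h2]
    linarith only [sq_nonneg (Real.cos r), h3]
  have h6 : Real.sinh p ^ 2 * (1 + Real.sinh p ^ 2 - N) ≤ q * (1 + Real.sinh p ^ 2 - N) :=
    mul_le_mul_of_nonneg_right hc.le h5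
  have h7 : q * (1 + Real.sinh p ^ 2 - N) < q * (1 + q - N) :=
    mul_lt_mul_of_pos_left (by linarith) hq
  linarith

/-- `tan z |cos z|² = sin z conj (cos z)`. -/
theorem tan_mul_k2 {z : ℂ} (hc : cos z ≠ 0) :
    tan z * ((k2 z.re z.im : ℝ) : ℂ) = sin z * (starRingEnd ℂ) (cos z) := by
  have n1 : normSq (cos z) = k2 z.re z.im := by
    rw [normSq_eq_norm_sq, norm_cos_sq]
  rw [← n1, tan_eq_sin_div_cos, ← mul_conj]
  field_simp

end J5

namespace Zr

variable {ι : Type*} [Finite ι] {a : ι → ℝ} {nl nr : ι → Option ι} {z : ι → ℂ}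

theorem bw_ge_of (h : Zr a nl nr 1 z) (h3 : ∀ i, 3 ≤ a i → a i = 3 ∨ 4 ≤ a i) {i j k : ι}
    (hi : a i = 2) (hij : (nl i = some j ∧ nr i = some k) ∨ (nl i = some k ∧ nr i = some j))
    (hj : 3 ≤ a j ∨ (a j = 2 ∧ In2 nl nr j)) : 2 / 5 ≤ bw (z i) (z j) := by
  have hin : In2 nl nr i := by
    rcases hij with ⟨h1, h2⟩ | ⟨h1, h2⟩
    · exact ⟨_, _, h1, h2⟩
    · exact ⟨_, _, h1, h2⟩
  have hj1 : nl i = some j ∨ nr i = some j := by
    rcases hij with ⟨h1, h2⟩ | ⟨h1, h2⟩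
    · exact Or.inl h1
    · exact Or.inr h2
  have hji := h.N.symm i j hj1
  have hRi := h.two_re_le' h3 hi hij hj
  have hRj := h.open_re_le h3 hi hin hj1 hj
  obtain ⟨p1, p2, p3⟩ := h.pos i
  obtain ⟨q1, q2, q3⟩ := h.pos j
  have hpi := Real.pi_pos
  -- `cos² (3π/10) ≥ .3454`
  have hcos : ∀ R : ℝ, 0 < R → R ≤ 3 / 10 * Real.pi → 3454 / 10000 ≤ Real.cos R ^ 2 := by
    intro R h0 h1
    have h5 : Real.cos (2 * (3 / 10 * Real.pi)) ≤ Real.cos (2 * R) :=
      Real.cos_le_cos_of_nonneg_of_le_pi (by linarith) (by linarith) (by linarith)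
    have h6 : Real.cos (2 * (3 / 10 * Real.pi)) = -Real.cos (2 * (Real.pi / 5)) := by
      rw [← Real.cos_pi_sub]; congr 1; ring
    have h7 := Real.cos_pi_div_five
    have h9 := Real.sq_sqrt (show (0 : ℝ) ≤ 5 by norm_num)
    have h10 : √5 ≤ 2237 / 1000 := Real.sqrt_le_iff.2 ⟨by norm_num, by norm_num⟩
    rw [h6, Real.cos_two_mul (Real.pi / 5), h7, Real.cos_two_mul R] at h5
    nlinarith only [h5, h9]
  -- the data at `i`
  have ci0 : 0 < Real.cos (z i).re := GeoX_cos_pos p1 p2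
  have si0 : 0 < Real.sin (z i).re := GeoX_sin_pos p1 p2
  have shi0 : 0 < Real.sinh (z i).im := Real.sinh_pos_iff.2 p3
  have chi0 := Real.cosh_pos (z i).im
  have chi := Real.cosh_sq (z i).im
  have sci := Real.sin_sq_add_cos_sq (z i).re
  have ti := tan_th_sq p1 p2 p3
  have thi0 := h.th_pos_i i
  have thi1 := th_lt p1 p2 p3
  have Ti0 : 0 < Real.tan (th (z i).re (z i).im) :=
    Real.tan_pos_of_pos_of_lt_pi_div_two thi0 thi1
  have hTC : Real.sinh (z i).im = Real.tan (th (z i).re (z i).im) * Real.cos (z i).re := by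
    have e : Real.sinh (z i).im ^ 2 = (Real.tan (th (z i).re (z i).im) * Real.cos (z i).re) ^ 2 := by
      rw [mul_pow, ti]
    exact (pow_left_inj₀ shi0.le (by positivity) two_ne_zero).1 e
  -- the data at `j`
  have cj0 : 0 < Real.cos (z j).re := GeoX_cos_pos q1 q2
  have sj0 : 0 < Real.sin (z j).re := GeoX_sin_pos q1 q2
  have shj0 : 0 < Real.sinh (z j).im := Real.sinh_pos_iff.2 q3
  have chj0 := Real.cosh_pos (z j).im
  have chj := Real.cosh_sq (z j).im
  have scj := Real.sin_sq_add_cos_sq (z j).re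
  have tj := tan_th_sq q1 q2 q3
  -- names
  obtain ⟨t, ht⟩ : ∃ t, t = Real.tan (th (z i).re (z i).im) ^ 2 := ⟨_, rfl⟩
  obtain ⟨c, hc⟩ : ∃ c, c = Real.cos (z i).re ^ 2 := ⟨_, rfl⟩
  obtain ⟨κ, hκ⟩ : ∃ κ, κ = Real.tan (th (z j).re (z j).im) ^ 2 := ⟨_, rfl⟩
  obtain ⟨b, hb⟩ : ∃ b, b = Real.cos (z j).re ^ 2 := ⟨_, rfl⟩
  have hti : t * c = Real.sinh (z i).im ^ 2 := by rw [ht, hc]; exact ti
  have htj : κ * b = Real.sinh (z j).im ^ 2 := by rw [hκ, hb]; exact tj
  have hKi : k2 (z i).re (z i).im = c * (1 + t) := by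
    rw [GeoX_k2, chi, ← hti, ← hc]; ring
  have hKj : k2 (z j).re (z j).im = b * (1 + κ) := by
    rw [GeoX_k2, chj, ← htj, ← hb]; ring
  have hSi : s2 (z i).re (z i).im = 1 - c + t * c := by
    rw [GeoX_s2, chi, ← hti, ← hc]; ring
  have hK1i := h.k2_le i
  have hK1j := h.k2_le j
  have hKpi := k2_pos (I := (z i).im) p1 p2
  rw [hKi] at hK1i hKpi
  rw [hKj] at hK1j
  have t0 : 0 < t := by rw [ht]; positivity
  have c0 : 0 < c := by rw [hc]; positivity
  have κ0 : 0 ≤ κ := by rw [hκ]; positivity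
  have b00 : 0 < b := by rw [hb]; positivity
  have b1 : b ≤ 1 := by rw [hb]; linarith only [sq_nonneg (Real.sin (z j).re), scj]
  have c1 : c ≤ 1 := by rw [hc]; linarith only [sq_nonneg (Real.sin (z i).re), sci]
  -- the slot
  have hs : sinh (qe (z i) (z j)) = (starRingEnd ℂ) (cos (z j)) * tan (z i) := by
    rw [qe_eq p1 p2 p3 q1 q2 q3, sinh_arsh]
  obtain ⟨x, hx⟩ : ∃ x, x = Real.cos (z j).re * Real.cosh (z j).im := ⟨_, rfl⟩
  obtain ⟨y, hy⟩ : ∃ y, y = Real.sin (z j).re * Real.sinh (z j).im := ⟨_, rfl⟩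
  have hx2 : x ^ 2 = b * (1 + κ * b) := by
    rw [hx, mul_pow, chj, ← htj, hb]; ring
  have hy2 : y ^ 2 = κ * b * (1 - b) := by
    rw [hy, mul_pow, htj, hb, ← scj]; ring
  have hD : J5.Dat t c κ b x y (Real.sin (z i).re) (Real.tan (th (z i).re (z i).im))
      (Real.cosh (z i).im) := by
    refine ⟨hx2, hy2, ?_, ht.symm, ?_, ?_, ?_, si0.le, Ti0.le, chi0.le, t0.le, ?_, κ0, ?_, b1, hK1j⟩
    · rw [hc]; linarith
    · rw [chi, hti]; ring
    · rw [hx]; positivity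
    · rw [hy]; positivity
    · rw [hc]; exact hcos _ p1 hRi
    · rw [hb]; exact hcos _ q1 hRj
  -- `t ≥ .117`
  have hcosθ := Real.cos_sq' (th (z i).re (z i).im)
  have cθ : 0 < Real.cos (th (z i).re (z i).im) := Real.cos_pos_of_mem_Ioo ⟨by linarith, thi1⟩
  have tθ : t * Real.cos (th (z i).re (z i).im) ^ 2 = 1 - Real.cos (th (z i).re (z i).im) ^ 2 := by
    rw [ht, ← mul_pow, Real.tan_mul_cos cθ.ne']
    linarith
  have ht117 : 117 / 1000 ≤ t := by
    have e := h.two_cos_le hi hin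
    rw [Real.cos_two_mul] at e
    have e2 : Real.cos (th (z i).re (z i).im) ^ 2 ≤ 895 / 1000 := by linarith
    nlinarith only [tθ, e]
  have ht1 : t ≤ 1 := by
    have e : th (z i).re (z i).im ≤ Real.pi / 4 := h.th_le i (Or.inr (by
      obtain ⟨j, k, h1, h2⟩ := hin
      exact ⟨j, k, h1, h2⟩))
    have e2 : 0 ≤ Real.cos (2 * th (z i).re (z i).im) :=
      Real.cos_nonneg_of_mem_Icc ⟨by linarith, by linarith⟩
    rw [Real.cos_two_mul] at e2
    nlinarith only [tθ, e2]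
  have hA : ∀ κ₀ t₀, J5.Pr κ₀ t₀ → t ≤ κ₀ ∨ κ ≤ t₀ := by
    intro κ₀ t₀ hp
    rcases hj with hj | ⟨hj, hj'⟩
    · right
      have h5 := tan_sq_le_of (h.th_pos_i j).le (h.th3_le hj)
      rw [← hκ] at h5
      rcases hp with ⟨e, e'⟩ | ⟨e, e'⟩ | ⟨e, e'⟩ | ⟨e, e'⟩ | ⟨e, e'⟩ | ⟨e, e'⟩ | ⟨e, e'⟩ |
        ⟨e, e'⟩ | ⟨e, e'⟩ | ⟨e, e'⟩ <;> linarith
    · obtain ⟨l, r, e1, e2⟩ := hj'
      rw [ht, hκ]
      rcases hji with e | e
      · exact h.joint3 h3 hj (Or.inl ⟨e, e2⟩) (Or.inr ⟨hi, hin⟩) hp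
      · exact h.joint3 h3 hj (Or.inr ⟨e1, e⟩) (Or.inr ⟨hi, hin⟩) hp
  have hB : ∀ κ₀ t₀, J5.Pr κ₀ t₀ → κ ≤ κ₀ ∨ t ≤ t₀ := by
    intro κ₀ t₀ hp
    rw [ht, hκ]
    exact h.joint3 h3 hi hij hj hp
  have hCon := hD.all ht117 hA hB
  -- the vertex equation
  obtain ⟨o, r₁, p₂, r₂, ho, ho', hv⟩ := h.vx_first hj1
  have hI := hv.hI
  rw [hi] at hI
  rw [bw, le_div_iff₀ p3]
  have hv5 : 0 ≤ (z i).im / 5 := by positivity
  have e5 : 5 * ((z i).im / 5) = (z i).im := by ring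
  rcases hCon with hc1 | hc2
  · -- (i)
    have hp2 : p₂ ≤ xx (z i).re (z i).im := hv.sl₂.le_xx p1 p2 p3 (h.ro_le_one _)
    have hσ : Real.sinh (5 * ((z i).im / 5)) ^ 2 ≤ 1 / 2 := by
      rw [e5, ← hti]; nlinarith only [hK1i, ht117, ht1]
    have h85 := J5.sinh_85 hv5 hσ
    rw [e5, ← hti] at h85
    have hxx0 := xx_pos p1 p2 p3
    -- `sinh² x`
    have hx1 := tan_R_eq p1 p2 p3
    have hx3 : Real.sinh (xx (z i).re (z i).im) ^ 2 * (c * (1 + t)) = 1 - c := by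
      have e1 : Real.tan (z i).re ^ 2 * c = 1 - c := by
        rw [hc, ← mul_pow, Real.tan_mul_cos ci0.ne']
        linarith
      have e2 : Real.cos (th (z i).re (z i).im) ^ 2 * (1 + t) = 1 := by linarith
      have e3 : Real.sinh (xx (z i).re (z i).im) =
          Real.tan (z i).re * Real.cos (th (z i).re (z i).im) := by
        rw [hx1]; field_simp
      rw [e3, mul_pow]
      linear_combination e1 + (Real.tan (z i).re ^ 2 * c) * e2
    have hle : Real.sinh (xx (z i).re (z i).im) ^ 2 ≤ Real.sinh (8 * ((z i).im / 5)) ^ 2 := by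
      refine le_trans ?_ h85
      have e1 : Real.sinh (xx (z i).re (z i).im) ^ 2 * (c * (1 + t)) ≤
          64 / 25 * (t * c * (1 + 47 / 100 * (t * c))) * (c * (1 + t)) := by
        rw [hx3]
        linarith
      exact le_of_mul_le_mul_right e1 hKpi
    have hle2 : Real.sinh (xx (z i).re (z i).im) ≤ Real.sinh (8 * ((z i).im / 5)) :=
      (pow_le_pow_iff_left₀ (Real.sinh_nonneg_iff.2 hxx0.le)
        (Real.sinh_nonneg_iff.2 (by positivity)) two_ne_zero).1 hle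
    have hle3 := Real.sinh_le_sinh.1 hle2
    linarith
  · -- (ii)
    have hcne : cos (z i) ≠ 0 := by
      intro h0
      have := h.norm_pos i
      rw [h0, norm_zero] at this
      exact lt_irrefl _ this
    have hT := J5.tan_mul_k2 hcne
    rw [hKi] at hT
    have hmul : sinh (qe (z i) (z j)) * ((c * (1 + t) : ℝ) : ℂ) =
        (starRingEnd ℂ) (cos (z j)) * (sin (z i) * (starRingEnd ℂ) (cos (z i))) := by
      rw [hs, mul_assoc, hT]
    -- real part
    have hV : (sinh (qe (z i) (z j))).re * (c * (1 + t)) =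
        Real.cos (z i).re * (x * Real.sin (z i).re -
          y * Real.tan (th (z i).re (z i).im) * Real.cosh (z i).im) := by
      have e1 := congrArg re hmul
      rw [re_mul_ofReal] at e1
      rw [e1, mul_re, mul_re, mul_im, conj_re, conj_im, conj_re, conj_im, GeoC_cos_re, GeoC_cos_im,
        GeoC_cos_re, GeoC_cos_im, GeoC_sin_re, GeoC_sin_im, hx, hy]
      linear_combination (Real.cos (z j).re * Real.cosh (z j).im * Real.sin (z i).re *
        Real.cos (z i).re) * chi - (Real.sin (z j).re * Real.sinh (z j).im * Real.sinh (z i).im *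
        Real.cosh (z i).im) * sci - (Real.sin (z j).re * Real.sinh (z j).im *
        Real.cosh (z i).im) * hTC
    -- norm
    have hN : normSq (sinh (qe (z i) (z j))) * (c * (1 + t)) = b * (1 + κ) * (1 - c + t * c) := by
      have e2 : normSq (tan (z i)) * (c * (1 + t)) = 1 - c + t * c := by
        rw [tan_eq_sin_div_cos, map_div₀, normSq_eq_norm_sq, normSq_eq_norm_sq, norm_cos_sq,
          norm_sin_sq, hKi, hSi]
        field_simp
      rw [hs, map_mul, normSq_conj, normSq_eq_norm_sq (cos (z j)), norm_cos_sq, hKj, mul_assoc, e2]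
    have hre : Real.sinh (qe (z i) (z j)).re * Real.cos (qe (z i) (z j)).im =
        (sinh (qe (z i) (z j))).re := by rw [sinh_re']
    have hnn : Real.sinh (qe (z i) (z j)).re ^ 2 + Real.sin (qe (z i) (z j)).im ^ 2 =
        normSq (sinh (qe (z i) (z j))) := by
      have a1 := Real.sin_sq_add_cos_sq (qe (z i) (z j)).im
      have a2 := Real.cosh_sq (qe (z i) (z j)).re
      rw [normSq_apply, sinh_re', sinh_im']
      linear_combination (-(Real.sinh (qe (z i) (z j)).re ^ 2)) * a1 -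
        (Real.sin (qe (z i) (z j)).im ^ 2) * a2
    have hq0 : 0 < 4 / 25 * (t * c) := by positivity
    have hfin : 4 / 25 * (t * c) ≤ Real.sinh (qe (z i) (z j)).re ^ 2 := by
      refine J5.sinh_ge hre hnn hq0 ?_
      -- multiply by `K²`
      have hK2 : 0 < (c * (1 + t)) ^ 2 := by positivity
      refine le_of_mul_le_mul_right ?_ hK2
      have e1 : (sinh (qe (z i) (z j))).re ^ 2 * (c * (1 + t)) ^ 2 =
          c * (x * Real.sin (z i).re -
          y * Real.tan (th (z i).re (z i).im) * Real.cosh (z i).im) ^ 2 := by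
        rw [← mul_pow, hV, mul_pow, hc]
      rw [e1]
      have e2 := mul_le_mul_of_nonneg_left hc2 c0.le
      refine le_trans (le_of_eq ?_) e2
      linear_combination (-(4 / 25 * (t * c)) * (c * (1 + t))) * hN
    -- conclude
    have h25 := J5.sinh_25 hv5
    rw [e5] at h25
    have hle : Real.sinh (2 * ((z i).im / 5)) ^ 2 ≤ Real.sinh (qe (z i) (z j)).re ^ 2 := by
      have a1 := pow_le_pow_left₀ (Real.sinh_nonneg_iff.2 (by positivity)) h25 2
      rw [mul_pow, ← hti] at a1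
      norm_num at a1 hfin ⊢
      linarith
    have hqp := (h.qe_pos hj1).1
    have hle2 : Real.sinh (2 * ((z i).im / 5)) ≤ Real.sinh (qe (z i) (z j)).re :=
      (pow_le_pow_iff_left₀ (Real.sinh_nonneg_iff.2 (by positivity))
        (Real.sinh_nonneg_iff.2 hqp.le) two_ne_zero).1 hle
    have hle3 := Real.sinh_le_sinh.1 hle2
    linarith

/-- **The weight of an inner vertex with two twists towards an open neighbour.** -/
theorem bw_ge (h : Zr a nl nr 1 z) (h3 : ∀ i, 3 ≤ a i → a i = 3 ∨ 4 ≤ a i) {i j : ι}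
    (hi : a i = 2) (hin : In2 nl nr i) (hij : nl i = some j ∨ nr i = some j)
    (hj : 3 ≤ a j ∨ (a j = 2 ∧ In2 nl nr j)) : 2 / 5 ≤ bw (z i) (z j) := by
  obtain ⟨l, r, e1, e2⟩ := hin
  rcases hij with e | e
  · exact h.bw_ge_of h3 hi (Or.inl ⟨e, e2⟩) hj
  · exact h.bw_ge_of h3 hi (Or.inr ⟨e1, e⟩) hj

end Zr

end Pool.Agent.S3.E
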