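import Mathlib

/-!
# Stage 3, block E: a lower bound of the weight of a slot of an inner vertex with two twists, algebra

`t = tan² θ`, `c = cos² R` at the vertex, `k = tan² θ'`, `b = cos² R'` at the neighbour.
-/

set_option autoImplicit false

namespace Pool.Agent.S3.E.J5

/-- The certificate polynomial (`λ = l`, `1 / λ = m`). -/
noncomputable def GP (t c k b l m : ℝ) : ℝ :=
  b * (1 + k * b) * (1 - c) - (1 + l) * (k * b * (1 - b) * (t * (1 + t * c))) -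
    (1 + m) * (4 / 25 * (t * c * (1 + t) * (c * (1 + t) * (1 + 4 / 25 * (t * c)) -
      b * (1 + k) * (1 - c + t * c))))

theorem quad_mono {α β γ b₀ b : ℝ} (hα : 0 ≤ α) (hγ : 0 ≤ γ) (hb₀ : 0 < b₀) (hb : b₀ ≤ b)
    (h : 0 ≤ α * b₀ ^ 2 + β * b₀ - γ) : 0 ≤ α * b ^ 2 + β * b - γ := by
  have h1 : 0 ≤ α * b₀ + β := by
    by_contra hc
    push Not at hc
    have := mul_neg_of_pos_of_neg hb₀ hc
    nlinarith
  have h2 : α * b₀ + β ≤ α * b + β := by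
    have := mul_le_mul_of_nonneg_left hb hα
    linarith
  have h3 : b₀ * (α * b₀ + β) ≤ b * (α * b + β) :=
    mul_le_mul hb h2 h1 (by linarith)
  nlinarith

theorem GP_mono {t c k b₀ b l m : ℝ} (ht : 0 ≤ t) (hc : 0 ≤ c) (hc1 : c ≤ 1) (hk : 0 ≤ k)
    (hl : 0 ≤ l) (hm : 0 ≤ m) (hb₀ : 0 < b₀) (hb : b₀ ≤ b) (h : 0 ≤ GP t c k b₀ l m) :
    0 ≤ GP t c k b l m := by
  have e : ∀ x, GP t c k x l m = (k * (1 - c) + (1 + l) * (k * (t * (1 + t * c)))) * x ^ 2 +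
      ((1 - c) - (1 + l) * (k * (t * (1 + t * c))) +
        (1 + m) * (4 / 25 * (t * c * (1 + t) * ((1 + k) * (1 - c + t * c))))) * x -
      (1 + m) * (4 / 25 * (t * c * (1 + t) * (c * (1 + t) * (1 + 4 / 25 * (t * c))))) := by
    intro x
    unfold GP
    ring
  rw [e] at h ⊢
  have hc' : 0 ≤ 1 - c := by linarith
  exact quad_mono (by positivity) (by positivity) hb₀ hb h

theorem GP_lin {t c k₀ k b l m : ℝ} (hk : 0 ≤ k) (hk₀ : k ≤ k₀) (hp : 0 < k₀)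
    (h0 : 0 ≤ GP t c 0 b l m) (h1 : 0 ≤ GP t c k₀ b l m) : 0 ≤ GP t c k b l m := by
  have e : k₀ * GP t c k b l m = (k₀ - k) * GP t c 0 b l m + k * GP t c k₀ b l m := by
    unfold GP; ring
  have h2 : 0 ≤ k₀ * GP t c k b l m := by
    rw [e]
    have : 0 ≤ k₀ - k := by linarith
    positivity
  exact nonneg_of_mul_nonneg_right h2 hp

/-- `(xS - yTh)² ≥ W` where `x² = b(1+kb)`, `y² = kb(1-b)`, `S² = 1 - c`, `T² = t`, `h² = 1 + tc`,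
`W = (4/25) t c (1+t) (c(1+t)(1+(4/25)tc) - b(1+k)(1-c+tc))`. -/
theorem step_ii {t₂ c₂ k₀ b₀ l m t c k b x y S T h : ℝ} (hx : x ^ 2 = b * (1 + k * b))
    (hy : y ^ 2 = k * b * (1 - b)) (hS : S ^ 2 = 1 - c) (hT : T ^ 2 = t) (hh : h ^ 2 = 1 + t * c)
    (x0 : 0 ≤ x) (y0 : 0 ≤ y) (S0 : 0 ≤ S) (T0 : 0 ≤ T) (h0 : 0 ≤ h)
    (ht : 0 ≤ t) (ht2 : t ≤ t₂) (hc : 0 ≤ c) (hc2 : c ≤ c₂) (hc1 : c₂ ≤ 1)
    (hk : 0 ≤ k) (hk₀ : k ≤ k₀) (hk1 : 0 < k₀) (hb : b₀ ≤ b) (hb0 : 0 < b₀)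
    (hb1 : b ≤ 1) (hK : b * (1 + k) ≤ 1) (hlm : l * m = 1) (hl : 0 < l)
    (g0 : 0 ≤ GP t₂ c₂ 0 b₀ l m) (g1 : 0 ≤ GP t₂ c₂ k₀ b₀ l m) :
    4 / 25 * (t * c * (1 + t) * (c * (1 + t) * (1 + 4 / 25 * (t * c)) -
      b * (1 + k) * (1 - c + t * c))) ≤ (x * S - y * T * h) ^ 2 := by
  have hm : 0 < m := by
    by_contra hcon
    push Not at hcon
    have := mul_nonpos_of_nonneg_of_nonpos hl.le hcon
    linarith
  have hb00 : 0 ≤ b := by linarith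
  have ht20 : 0 ≤ t₂ := ht.trans ht2
  have hc20 : 0 ≤ c₂ := hc.trans hc2
  set Br := c * (1 + t) * (1 + 4 / 25 * (t * c)) - b * (1 + k) * (1 - c + t * c) with hBr
  set Br2 := c₂ * (1 + t₂) * (1 + 4 / 25 * (t₂ * c₂)) - b * (1 + k) * (1 - c₂ + t₂ * c₂) with hBr2
  rcases le_or_gt Br 0 with hn | hn
  · have h1 : 4 / 25 * (t * c * (1 + t) * Br) ≤ 0 := by
      have : t * c * (1 + t) * Br ≤ 0 := mul_nonpos_of_nonneg_of_nonpos (by positivity) hn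
      linarith
    exact h1.trans (sq_nonneg _)
  have htc : t * c ≤ t₂ * c₂ := mul_le_mul ht2 hc2 hc ht20
  have htc0 : 0 ≤ t * c := mul_nonneg ht hc
  -- monotonicity of the bracket
  have hmono : Br ≤ Br2 := by
    have a1 : c * (1 + t) ≤ c₂ * (1 + t₂) :=
      mul_le_mul hc2 (by linarith) (by linarith) hc20
    have a2 : 1 + 4 / 25 * (t * c) ≤ 1 + 4 / 25 * (t₂ * c₂) := by linarith
    have a3 : (c₂ * (1 + t₂) - c * (1 + t)) * 1 ≤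
        c₂ * (1 + t₂) * (1 + 4 / 25 * (t₂ * c₂)) - c * (1 + t) * (1 + 4 / 25 * (t * c)) := by
      have b1 : 0 ≤ c * (1 + t) := by positivity
      have b2 : 0 ≤ c₂ * (1 + t₂) := by positivity
      nlinarith [mul_nonneg b1 htc0, mul_le_mul a1 htc htc0 b2]
    have a4 : b * (1 + k) * ((1 - c₂ + t₂ * c₂) - (1 - c + t * c)) ≤
        c₂ * (1 + t₂) - c * (1 + t) := by
      have b1 : 0 ≤ b * (1 + k) := by positivity
      rcases le_total 0 ((1 - c₂ + t₂ * c₂) - (1 - c + t * c)) with b2 | b2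
      · have := mul_le_mul_of_nonneg_right hK b2
        nlinarith
      · have := mul_nonpos_of_nonneg_of_nonpos b1 b2
        linarith
    rw [hBr, hBr2]
    linarith
  have hBr20 : 0 < Br2 := hn.trans_le hmono
  have g2 : 0 ≤ GP t₂ c₂ k b l m :=
    GP_lin hk hk₀ hk1 (GP_mono ht20 hc20 hc1 le_rfl hl.le hm.le hb0 hb g0)
      (GP_mono ht20 hc20 hc1 hk1.le hl.le hm.le hb0 hb g1)
  have g3 : (1 + l) * (k * b * (1 - b) * (t₂ * (1 + t₂ * c₂))) +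
      (1 + m) * (4 / 25 * (t₂ * c₂ * (1 + t₂) * Br2)) ≤ b * (1 + k * b) * (1 - c₂) := by
    unfold GP at g2
    rw [hBr2]
    linarith
  -- the pieces
  set Y := y * T * h with hY
  set W := 4 / 25 * (t * c * (1 + t) * Br) with hW
  have hY0 : 0 ≤ Y := by positivity
  have hW0 : 0 ≤ W := by
    have : 0 ≤ Br := hn.le
    positivity
  have hY2 : Y ^ 2 ≤ k * b * (1 - b) * (t₂ * (1 + t₂ * c₂)) := by
    have e : Y ^ 2 = k * b * (1 - b) * (t * (1 + t * c)) := by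
      rw [hY, mul_pow, mul_pow, hy, hT, hh]; ring
    rw [e]
    apply mul_le_mul_of_nonneg_left
    · exact mul_le_mul ht2 (by linarith) (by linarith) ht20
    · have : 0 ≤ 1 - b := by linarith
      positivity
  have hW2 : W ≤ 4 / 25 * (t₂ * c₂ * (1 + t₂) * Br2) := by
    have a1 : t * c * (1 + t) ≤ t₂ * c₂ * (1 + t₂) :=
      mul_le_mul htc (by linarith) (by linarith) (mul_nonneg ht20 hc20)
    have a2 : t * c * (1 + t) * Br ≤ t₂ * c₂ * (1 + t₂) * Br2 :=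
      mul_le_mul a1 hmono hn.le (by positivity)
    rw [hW]
    linarith
  have hX2 : b * (1 + k * b) * (1 - c₂) ≤ (x * S) ^ 2 := by
    rw [mul_pow, hx, hS]
    apply mul_le_mul_of_nonneg_left (by linarith)
    positivity
  have hXS0 : 0 ≤ x * S := by positivity
  have key : (1 + l) * Y ^ 2 + (1 + m) * W ≤ (x * S) ^ 2 := by
    have a1 := mul_le_mul_of_nonneg_left hY2 (show 0 ≤ 1 + l by linarith)
    have a2 := mul_le_mul_of_nonneg_left hW2 (show 0 ≤ 1 + m by linarith)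
    linarith
  -- `(Y + √W)² ≤ (1 + l) Y² + (1 + m) W`
  have hs0 := Real.sqrt_nonneg W
  have hs := Real.sq_sqrt hW0
  have c1 : (Y + √W) ^ 2 ≤ (1 + l) * Y ^ 2 + (1 + m) * W := by
    have e : l * ((1 + l) * Y ^ 2 + (1 + m) * √W ^ 2 - (Y + √W) ^ 2) =
        (l * Y - √W) ^ 2 + (l * m - 1) * √W ^ 2 := by ring
    rw [hlm, sub_self, zero_mul, add_zero, hs] at e
    have := sq_nonneg (l * Y - √W)
    have h2 : 0 ≤ l * ((1 + l) * Y ^ 2 + (1 + m) * W - (Y + √W) ^ 2) := by rw [e]; exact this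
    have := nonneg_of_mul_nonneg_right h2 hl
    linarith
  have c2 : Y + √W ≤ x * S := by
    have := c1.trans key
    exact (pow_le_pow_iff_left₀ (by positivity) hXS0 two_ne_zero).1 this
  have c3 : √W ≤ x * S - Y := by linarith
  have c4 := pow_le_pow_left₀ hs0 c3 2
  rw [hs] at c4
  exact c4

/-- Case (i): the condition is monotone. -/
theorem step_i {t₁ c₁ t c : ℝ} (ht1 : 0 ≤ t₁) (hc1 : 0 ≤ c₁) (ht : t₁ ≤ t) (hc : c₁ ≤ c)
    (h : 1 - c₁ ≤ 64 / 25 * (t₁ * (1 + t₁)) * c₁ ^ 2 * (1 + 47 / 100 * (t₁ * c₁))) :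
    1 - c ≤ 64 / 25 * (t * (1 + t)) * c ^ 2 * (1 + 47 / 100 * (t * c)) := by
  have ht0 := ht1.trans ht
  have hc0 := hc1.trans hc
  have h1 : t₁ * (1 + t₁) ≤ t * (1 + t) := mul_le_mul ht (by linarith) (by linarith) ht0
  have h2 : c₁ ^ 2 ≤ c ^ 2 := pow_le_pow_left₀ hc1 hc 2
  have h3 : t₁ * c₁ ≤ t * c := mul_le_mul ht hc hc1 ht0
  have h4 : 64 / 25 * (t₁ * (1 + t₁)) * c₁ ^ 2 ≤ 64 / 25 * (t * (1 + t)) * c ^ 2 :=
    mul_le_mul (by linarith) h2 (by positivity) (by positivity)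
  have h5 : 64 / 25 * (t₁ * (1 + t₁)) * c₁ ^ 2 * (1 + 47 / 100 * (t₁ * c₁)) ≤
      64 / 25 * (t * (1 + t)) * c ^ 2 * (1 + 47 / 100 * (t * c)) :=
    mul_le_mul h4 (by linarith) (by positivity) (by positivity)
  linarith

/-- `sinh² (8v) ≥ (64/25) σ (1 + (47/100) σ)`, `σ = sinh² (5v)`, for `σ ≤ 1/2`. -/
theorem sinh_85 {v : ℝ} (hv : 0 ≤ v) (hσ : Real.sinh (5 * v) ^ 2 ≤ 1 / 2) :
    64 / 25 * (Real.sinh (5 * v) ^ 2 * (1 + 47 / 100 * Real.sinh (5 * v) ^ 2)) ≤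
      Real.sinh (8 * v) ^ 2 := by
  obtain ⟨S, hS⟩ : ∃ S, S = Real.sinh v := ⟨_, rfl⟩
  obtain ⟨C, hC⟩ : ∃ C, C = Real.cosh v := ⟨_, rfl⟩
  have hCS : C ^ 2 = 1 + S ^ 2 := by rw [hS, hC, Real.cosh_sq]; ring
  have hS0 : 0 ≤ S := by rw [hS]; exact Real.sinh_nonneg_iff.2 hv
  have s2 : Real.sinh (2 * v) = 2 * S * C := by rw [Real.sinh_two_mul, hS, hC]
  have c2 : Real.cosh (2 * v) = 1 + 2 * S ^ 2 := by
    rw [Real.cosh_two_mul, ← hS, ← hC, hCS]; ring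
  have s4 : Real.sinh (4 * v) = 4 * S * C * (1 + 2 * S ^ 2) := by
    rw [show 4 * v = 2 * (2 * v) by ring, Real.sinh_two_mul, s2, c2]; ring
  have c4 : Real.cosh (4 * v) = 1 + 8 * S ^ 2 + 8 * S ^ 4 := by
    rw [show 4 * v = 2 * (2 * v) by ring, Real.cosh_two_mul, s2, c2]
    linear_combination (4 * S ^ 2) * hCS
  have s5 : Real.sinh (5 * v) = S * (5 + 20 * S ^ 2 + 16 * S ^ 4) := by
    rw [show 5 * v = 4 * v + v by ring, Real.sinh_add, s4, c4, ← hS, ← hC]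
    linear_combination (4 * S * (1 + 2 * S ^ 2)) * hCS
  have s8 : Real.sinh (8 * v) = 8 * S * C * (1 + 2 * S ^ 2) * (1 + 8 * S ^ 2 + 8 * S ^ 4) := by
    rw [show 8 * v = 2 * (4 * v) by ring, Real.sinh_two_mul, s4, c4]; ring
  obtain ⟨w, hw⟩ : ∃ w, w = S ^ 2 := ⟨_, rfl⟩
  have hw0 : 0 ≤ w := by rw [hw]; positivity
  have e5 : Real.sinh (5 * v) ^ 2 = w * (5 + 20 * w + 16 * w ^ 2) ^ 2 := by
    rw [s5, hw]; ring
  have e8 : Real.sinh (8 * v) ^ 2 = 64 * w * (1 + w) * (1 + 2 * w) ^ 2 * (1 + 8 * w + 8 * w ^ 2) ^ 2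
      := by
    rw [s8, hw]
    linear_combination (64 * S ^ 2 * (1 + 2 * S ^ 2) ^ 2 * (1 + 8 * S ^ 2 + 8 * S ^ 4) ^ 2) * hCS
  have hw1 : w ≤ 1 / 50 := by
    have h1 : 25 * w ≤ w * (5 + 20 * w + 16 * w ^ 2) ^ 2 := by
      have : 25 ≤ (5 + 20 * w + 16 * w ^ 2) ^ 2 := by nlinarith [sq_nonneg w]
      nlinarith
    rw [e5] at hσ
    linarith
  rw [e5, e8]
  -- polynomial inequality
  have key : (1 + 4 * w + 16 / 5 * w ^ 2) ^ 2 *
      (1 + 47 / 4 * w * (1 + 4 * w + 16 / 5 * w ^ 2) ^ 2) ≤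
      (1 + w) * (1 + 2 * w) ^ 2 * (1 + 8 * w + 8 * w ^ 2) ^ 2 := by
    have p1 : (1 + 4 * w + 16 / 5 * w ^ 2) ^ 2 ≤ 1 + 8 * w + 23 * w ^ 2 := by
      nlinarith [mul_nonneg hw0 hw0, mul_nonneg (mul_nonneg hw0 hw0) hw0,
        mul_nonneg (mul_nonneg hw0 hw0) (sub_nonneg.2 hw1),
        mul_nonneg (mul_nonneg (mul_nonneg hw0 hw0) hw0) (sub_nonneg.2 hw1)]
    have p2 : (1 + 4 * w + 16 / 5 * w ^ 2) ^ 2 *
        (1 + 47 / 4 * w * (1 + 4 * w + 16 / 5 * w ^ 2) ^ 2) ≤ (1 + 8 * w + 23 * w ^ 2) *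
        (1 + 47 / 4 * w * (1 + 8 * w + 23 * w ^ 2)) := by
      apply mul_le_mul p1 _ (by positivity) (by positivity)
      have := mul_le_mul_of_nonneg_left p1 (show 0 ≤ 47 / 4 * w by positivity)
      linarith
    refine p2.trans ?_
    have p3 : (1 + w) * (1 + 2 * w) ^ 2 * (1 + 8 * w + 8 * w ^ 2) ^ 2 -
        (1 + 8 * w + 23 * w ^ 2) * (1 + 47 / 4 * w * (1 + 8 * w + 23 * w ^ 2)) =
        w * (5 / 4 - 43 * w - 1265 / 2 * w ^ 2 - 2916 * w ^ 3 - 18207 / 4 * w ^ 4 +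
          1024 * w ^ 5 + 256 * w ^ 6) := by ring
    have w2 : w ^ 2 ≤ (1 / 50) ^ 2 := pow_le_pow_left₀ hw0 hw1 2
    have w3 : w ^ 3 ≤ (1 / 50) ^ 3 := pow_le_pow_left₀ hw0 hw1 3
    have w4 : w ^ 4 ≤ (1 / 50) ^ 4 := pow_le_pow_left₀ hw0 hw1 4
    have w5 : 0 ≤ w ^ 5 := by positivity
    have w6 : 0 ≤ w ^ 6 := by positivity
    norm_num at w2 w3 w4
    have p4 : 0 ≤ 5 / 4 - 43 * w - 1265 / 2 * w ^ 2 - 2916 * w ^ 3 - 18207 / 4 * w ^ 4 +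
          1024 * w ^ 5 + 256 * w ^ 6 := by linarith
    have p5 := mul_nonneg hw0 p4
    linarith
  nlinarith [mul_nonneg hw0 (sub_nonneg.2 key)]

end Pool.Agent.S3.E.J5
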