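import Pool.Agent.S3.E.J5A

/-!
# Stage 3, block E: the staircase in `t = tan² θ`
-/

set_option autoImplicit false

namespace Pool.Agent.S3.E.J5

/-- The data of the two vertices. -/
structure Dat (t c k b x y S T h : ℝ) : Prop where
  hx : x ^ 2 = b * (1 + k * b)
  hy : y ^ 2 = k * b * (1 - b)
  hS : S ^ 2 = 1 - c
  hT : T ^ 2 = t
  hh : h ^ 2 = 1 + t * c
  x0 : 0 ≤ x
  y0 : 0 ≤ y
  S0 : 0 ≤ S
  T0 : 0 ≤ T
  h0 : 0 ≤ h
  t0 : 0 ≤ t
  c0 : 3454 / 10000 ≤ c
  k0 : 0 ≤ k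
  b0 : 3454 / 10000 ≤ b
  b1 : b ≤ 1
  K1 : b * (1 + k) ≤ 1

/-- The conclusion. -/
def Con (t c k b x y S T h : ℝ) : Prop :=
  1 - c ≤ 64 / 25 * (t * (1 + t)) * c ^ 2 * (1 + 47 / 100 * (t * c)) ∨
    4 / 25 * (t * c * (1 + t) * (c * (1 + t) * (1 + 4 / 25 * (t * c)) -
      b * (1 + k) * (1 - c + t * c))) ≤ (x * S - y * T * h) ^ 2

variable {t c k b x y S T h : ℝ}

theorem Dat.one (H : Dat t c k b x y S T h) (t₁ t₂ c₂ k₀ l m : ℝ) (h1 : t₁ ≤ t) (h2 : t ≤ t₂)
    (hk : k ≤ k₀) (n1 : 0 ≤ t₁ ∧ t₂ ≤ 1 ∧ 0 ≤ c₂ ∧ c₂ ≤ 1 ∧ 0 < k₀ ∧ 0 < l ∧ l * m = 1)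
    (n2 : 1 - c₂ ≤ 64 / 25 * (t₁ * (1 + t₁)) * c₂ ^ 2 * (1 + 47 / 100 * (t₁ * c₂)))
    (n3 : 0 ≤ GP t₂ c₂ 0 (3454 / 10000) l m) (n4 : 0 ≤ GP t₂ c₂ k₀ (3454 / 10000) l m) :
    Con t c k b x y S T h := by
  obtain ⟨a1, a2, a3, a4, a5, a6, a7⟩ := n1
  rcases le_total c₂ c with hc | hc
  · exact Or.inl (step_i a1 a3 h1 hc n2)
  · exact Or.inr (step_ii H.hx H.hy H.hS H.hT H.hh H.x0 H.y0 H.S0 H.T0 H.h0 H.t0 h2
      (by linarith [H.c0]) hc a4 H.k0 hk a5 H.b0 (by norm_num) H.b1 H.K1 a7 a6 n3 n4)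

theorem Dat.s00 (H : Dat t c k b x y S T h) (h1 : 117 / 1000 ≤ t) (h2 : t ≤ 151 / 1000) (hk : k ≤ 47 / 50) :
    Con t c k b x y S T h :=
  H.one (117 / 1000) (151 / 1000) (157 / 200) (47 / 50) (13 / 20) (20 / 13) h1 h2 hk (by norm_num) (by norm_num)
    (by norm_num [GP]) (by norm_num [GP])

theorem Dat.s01 (H : Dat t c k b x y S T h) (h1 : 151 / 1000 ≤ t) (h2 : t ≤ 47 / 250) (hk : k ≤ 47 / 50) :
    Con t c k b x y S T h :=
  H.one (151 / 1000) (47 / 250) (7421 / 10000) (47 / 50) (61 / 100) (100 / 61) h1 h2 hk (by norm_num) (by norm_num)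
    (by norm_num [GP]) (by norm_num [GP])

theorem Dat.s02 (H : Dat t c k b x y S T h) (h1 : 47 / 250 ≤ t) (h2 : t ≤ 1 / 5) (hk : k ≤ 47 / 50) :
    Con t c k b x y S T h :=
  H.one (47 / 250) (1 / 5) (3507 / 5000) (47 / 50) (14 / 25) (25 / 14) h1 h2 hk (by norm_num) (by norm_num)
    (by norm_num [GP]) (by norm_num [GP])

theorem Dat.s03 (H : Dat t c k b x y S T h) (h1 : 1 / 5 ≤ t) (h2 : t ≤ 243 / 1000) (hk : k ≤ 17 / 20) :
    Con t c k b x y S T h :=
  H.one (1 / 5) (243 / 1000) (6893 / 10000) (17 / 20) (59 / 100) (100 / 59) h1 h2 hk (by norm_num) (by norm_num)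
    (by norm_num [GP]) (by norm_num [GP])

theorem Dat.s04 (H : Dat t c k b x y S T h) (h1 : 243 / 1000 ≤ t) (h2 : t ≤ 1 / 4) (hk : k ≤ 17 / 20) :
    Con t c k b x y S T h :=
  H.one (243 / 1000) (1 / 4) (406 / 625) (17 / 20) (27 / 50) (50 / 27) h1 h2 hk (by norm_num) (by norm_num)
    (by norm_num [GP]) (by norm_num [GP])

theorem Dat.s05 (H : Dat t c k b x y S T h) (h1 : 1 / 4 ≤ t) (h2 : t ≤ 59 / 200) (hk : k ≤ 81 / 100) :
    Con t c k b x y S T h :=
  H.one (1 / 4) (59 / 200) (1609 / 2500) (81 / 100) (14 / 25) (25 / 14) h1 h2 hk (by norm_num) (by norm_num)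
    (by norm_num [GP]) (by norm_num [GP])

theorem Dat.s06 (H : Dat t c k b x y S T h) (h1 : 59 / 200 ≤ t) (h2 : t ≤ 3 / 10) (hk : k ≤ 81 / 100) :
    Con t c k b x y S T h :=
  H.one (59 / 200) (3 / 10) (76 / 125) (81 / 100) (13 / 25) (25 / 13) h1 h2 hk (by norm_num) (by norm_num)
    (by norm_num [GP]) (by norm_num [GP])

theorem Dat.s07 (H : Dat t c k b x y S T h) (h1 : 3 / 10 ≤ t) (h2 : t ≤ 69 / 200) (hk : k ≤ 31 / 40) :
    Con t c k b x y S T h :=
  H.one (3 / 10) (69 / 200) (1511 / 2500) (31 / 40) (27 / 50) (50 / 27) h1 h2 hk (by norm_num) (by norm_num)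
    (by norm_num [GP]) (by norm_num [GP])

theorem Dat.s08 (H : Dat t c k b x y S T h) (h1 : 69 / 200 ≤ t) (h2 : t ≤ 7 / 20) (hk : k ≤ 31 / 40) :
    Con t c k b x y S T h :=
  H.one (69 / 200) (7 / 20) (5733 / 10000) (31 / 40) (49 / 100) (100 / 49) h1 h2 hk (by norm_num) (by norm_num)
    (by norm_num [GP]) (by norm_num [GP])

theorem Dat.s09 (H : Dat t c k b x y S T h) (h1 : 7 / 20 ≤ t) (h2 : t ≤ 197 / 500) (hk : k ≤ 149 / 200) :
    Con t c k b x y S T h :=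
  H.one (7 / 20) (197 / 500) (5701 / 10000) (149 / 200) (51 / 100) (100 / 51) h1 h2 hk (by norm_num) (by norm_num)
    (by norm_num [GP]) (by norm_num [GP])

theorem Dat.s10 (H : Dat t c k b x y S T h) (h1 : 197 / 500 ≤ t) (h2 : t ≤ 2 / 5) (hk : k ≤ 149 / 200) :
    Con t c k b x y S T h :=
  H.one (197 / 500) (2 / 5) (5433 / 10000) (149 / 200) (12 / 25) (25 / 12) h1 h2 hk (by norm_num) (by norm_num)
    (by norm_num [GP]) (by norm_num [GP])

theorem Dat.s11 (H : Dat t c k b x y S T h) (h1 : 2 / 5 ≤ t) (h2 : t ≤ 221 / 500) (hk : k ≤ 143 / 200) :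
    Con t c k b x y S T h :=
  H.one (2 / 5) (221 / 500) (5399 / 10000) (143 / 200) (1 / 2) (2) h1 h2 hk (by norm_num) (by norm_num)
    (by norm_num [GP]) (by norm_num [GP])

theorem Dat.s12 (H : Dat t c k b x y S T h) (h1 : 221 / 500 ≤ t) (h2 : t ≤ 9 / 20) (hk : k ≤ 143 / 200) :
    Con t c k b x y S T h :=
  H.one (221 / 500) (9 / 20) (5171 / 10000) (143 / 200) (23 / 50) (50 / 23) h1 h2 hk (by norm_num) (by norm_num)
    (by norm_num [GP]) (by norm_num [GP])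

theorem Dat.s13 (H : Dat t c k b x y S T h) (h1 : 9 / 20 ≤ t) (h2 : t ≤ 61 / 125) (hk : k ≤ 69 / 100) :
    Con t c k b x y S T h :=
  H.one (9 / 20) (61 / 125) (513 / 1000) (69 / 100) (12 / 25) (25 / 12) h1 h2 hk (by norm_num) (by norm_num)
    (by norm_num [GP]) (by norm_num [GP])

theorem Dat.s14 (H : Dat t c k b x y S T h) (h1 : 61 / 125 ≤ t) (h2 : t ≤ 1 / 2) (hk : k ≤ 69 / 100) :
    Con t c k b x y S T h :=
  H.one (61 / 125) (1 / 2) (309 / 625) (69 / 100) (9 / 20) (20 / 9) h1 h2 hk (by norm_num) (by norm_num)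
    (by norm_num [GP]) (by norm_num [GP])

theorem Dat.s15 (H : Dat t c k b x y S T h) (h1 : 1 / 2 ≤ t) (h2 : t ≤ 267 / 500) (hk : k ≤ 67 / 100) :
    Con t c k b x y S T h :=
  H.one (1 / 2) (267 / 500) (611 / 1250) (67 / 100) (23 / 50) (50 / 23) h1 h2 hk (by norm_num) (by norm_num)
    (by norm_num [GP]) (by norm_num [GP])

theorem Dat.s16 (H : Dat t c k b x y S T h) (h1 : 267 / 500 ≤ t) (h2 : t ≤ 11 / 20) (hk : k ≤ 67 / 100) :
    Con t c k b x y S T h :=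
  H.one (267 / 500) (11 / 20) (4737 / 10000) (67 / 100) (11 / 25) (25 / 11) h1 h2 hk (by norm_num) (by norm_num)
    (by norm_num [GP]) (by norm_num [GP])

theorem Dat.s17 (H : Dat t c k b x y S T h) (h1 : 11 / 20 ≤ t) (h2 : t ≤ 579 / 1000) (hk : k ≤ 13 / 20) :
    Con t c k b x y S T h :=
  H.one (11 / 20) (579 / 1000) (4669 / 10000) (13 / 20) (11 / 25) (25 / 11) h1 h2 hk (by norm_num) (by norm_num)
    (by norm_num [GP]) (by norm_num [GP])

theorem Dat.s18 (H : Dat t c k b x y S T h) (h1 : 579 / 1000 ≤ t) (h2 : t ≤ 3 / 5) (hk : k ≤ 13 / 20) :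
    Con t c k b x y S T h :=
  H.one (579 / 1000) (3 / 5) (569 / 1250) (13 / 20) (43 / 100) (100 / 43) h1 h2 hk (by norm_num) (by norm_num)
    (by norm_num [GP]) (by norm_num [GP])

theorem Dat.s19 (H : Dat t c k b x y S T h) (h1 : 3 / 5 ≤ t) (h2 : t ≤ 311 / 500) (hk : k ≤ 127 / 200) :
    Con t c k b x y S T h :=
  H.one (3 / 5) (311 / 500) (4471 / 10000) (127 / 200) (43 / 100) (100 / 43) h1 h2 hk (by norm_num) (by norm_num)
    (by norm_num [GP]) (by norm_num [GP])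

theorem Dat.s20 (H : Dat t c k b x y S T h) (h1 : 311 / 500 ≤ t) (h2 : t ≤ 127 / 200) (hk : k ≤ 127 / 200) :
    Con t c k b x y S T h :=
  H.one (311 / 500) (127 / 200) (4389 / 10000) (127 / 200) (41 / 100) (100 / 41) h1 h2 hk (by norm_num) (by norm_num)
    (by norm_num [GP]) (by norm_num [GP])

theorem Dat.s21 (H : Dat t c k b x y S T h) (h1 : 127 / 200 ≤ t) (h2 : t ≤ 13 / 20) (hk : k ≤ 3 / 5) :
    Con t c k b x y S T h :=
  H.one (127 / 200) (13 / 20) (2171 / 5000) (3 / 5) (43 / 100) (100 / 43) h1 h2 hk (by norm_num) (by norm_num)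
    (by norm_num [GP]) (by norm_num [GP])

theorem Dat.s22 (H : Dat t c k b x y S T h) (h1 : 13 / 20 ≤ t) (h2 : t ≤ 67 / 100) (hk : k ≤ 11 / 20) :
    Con t c k b x y S T h :=
  H.one (13 / 20) (67 / 100) (4289 / 10000) (11 / 20) (23 / 50) (50 / 23) h1 h2 hk (by norm_num) (by norm_num)
    (by norm_num [GP]) (by norm_num [GP])

theorem Dat.s23 (H : Dat t c k b x y S T h) (h1 : 67 / 100 ≤ t) (h2 : t ≤ 143 / 200) (hk : k ≤ 1 / 2) :
    Con t c k b x y S T h :=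
  H.one (67 / 100) (143 / 200) (4221 / 10000) (1 / 2) (49 / 100) (100 / 49) h1 h2 hk (by norm_num) (by norm_num)
    (by norm_num [GP]) (by norm_num [GP])

theorem Dat.s24 (H : Dat t c k b x y S T h) (h1 : 143 / 200 ≤ t) (h2 : t ≤ 31 / 40) (hk : k ≤ 2 / 5) :
    Con t c k b x y S T h :=
  H.one (143 / 200) (31 / 40) (163 / 400) (2 / 5) (14 / 25) (25 / 14) h1 h2 hk (by norm_num) (by norm_num)
    (by norm_num [GP]) (by norm_num [GP])

theorem Dat.s25 (H : Dat t c k b x y S T h) (h1 : 31 / 40 ≤ t) (h2 : t ≤ 17 / 20) (hk : k ≤ 3 / 10) :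
    Con t c k b x y S T h :=
  H.one (31 / 40) (17 / 20) (3897 / 10000) (3 / 10) (33 / 50) (50 / 33) h1 h2 hk (by norm_num) (by norm_num)
    (by norm_num [GP]) (by norm_num [GP])

theorem Dat.s26 (H : Dat t c k b x y S T h) (h1 : 17 / 20 ≤ t) (h2 : t ≤ 47 / 50) (hk : k ≤ 1 / 5) :
    Con t c k b x y S T h :=
  H.one (17 / 20) (47 / 50) (739 / 2000) (1 / 5) (81 / 100) (100 / 81) h1 h2 hk (by norm_num) (by norm_num)
    (by norm_num [GP]) (by norm_num [GP])

theorem Dat.s27 (H : Dat t c k b x y S T h) (h1 : 47 / 50 ≤ t) (h2 : t ≤ 24 / 25) (hk : k ≤ 1 / 10) :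
    Con t c k b x y S T h :=
  H.one (47 / 50) (24 / 25) (87 / 250) (1 / 10) (28 / 25) (25 / 28) h1 h2 hk (by norm_num) (by norm_num)
    (by norm_num [GP]) (by norm_num [GP])

/-- The pairs of the joint condition. -/
def Pr (κ t₀ : ℝ) : Prop :=
  (κ = 1 / 10 ∧ t₀ = 94 / 100) ∨ (κ = 1 / 5 ∧ t₀ = 85 / 100) ∨
      (κ = 1 / 4 ∧ t₀ = 81 / 100) ∨ (κ = 3 / 10 ∧ t₀ = 775 / 1000) ∨
      (κ = 7 / 20 ∧ t₀ = 745 / 1000) ∨ (κ = 2 / 5 ∧ t₀ = 715 / 1000) ∨
      (κ = 9 / 20 ∧ t₀ = 69 / 100) ∨ (κ = 1 / 2 ∧ t₀ = 67 / 100) ∨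
      (κ = 11 / 20 ∧ t₀ = 65 / 100) ∨ (κ = 3 / 5 ∧ t₀ = 635 / 1000)

theorem Dat.all (H : Dat t c k b x y S T h) (h1 : 117 / 1000 ≤ t)
    (hA : ∀ κ t₀, Pr κ t₀ → t ≤ κ ∨ k ≤ t₀) (hB : ∀ κ t₀, Pr κ t₀ → k ≤ κ ∨ t ≤ t₀) :
    Con t c k b x y S T h := by
  rcases le_or_gt t (151 / 1000) with g | h1
  · refine H.s00 h1 g ?_
    rcases hA (1 / 10) (94 / 100) (by unfold Pr; norm_num) with q | q <;> linarith
  rcases le_or_gt t (47 / 250) with g | h1
  · refine H.s01 h1.le g ?_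
    rcases hA (1 / 10) (94 / 100) (by unfold Pr; norm_num) with q | q <;> linarith
  rcases le_or_gt t (1 / 5) with g | h1
  · refine H.s02 h1.le g ?_
    rcases hA (1 / 10) (94 / 100) (by unfold Pr; norm_num) with q | q <;> linarith
  rcases le_or_gt t (243 / 1000) with g | h1
  · refine H.s03 h1.le g ?_
    rcases hA (1 / 5) (85 / 100) (by unfold Pr; norm_num) with q | q <;> linarith
  rcases le_or_gt t (1 / 4) with g | h1
  · refine H.s04 h1.le g ?_
    rcases hA (1 / 5) (85 / 100) (by unfold Pr; norm_num) with q | q <;> linarith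
  rcases le_or_gt t (59 / 200) with g | h1
  · refine H.s05 h1.le g ?_
    rcases hA (1 / 4) (81 / 100) (by unfold Pr; norm_num) with q | q <;> linarith
  rcases le_or_gt t (3 / 10) with g | h1
  · refine H.s06 h1.le g ?_
    rcases hA (1 / 4) (81 / 100) (by unfold Pr; norm_num) with q | q <;> linarith
  rcases le_or_gt t (69 / 200) with g | h1
  · refine H.s07 h1.le g ?_
    rcases hA (3 / 10) (775 / 1000) (by unfold Pr; norm_num) with q | q <;> linarith
  rcases le_or_gt t (7 / 20) with g | h1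
  · refine H.s08 h1.le g ?_
    rcases hA (3 / 10) (775 / 1000) (by unfold Pr; norm_num) with q | q <;> linarith
  rcases le_or_gt t (197 / 500) with g | h1
  · refine H.s09 h1.le g ?_
    rcases hA (7 / 20) (745 / 1000) (by unfold Pr; norm_num) with q | q <;> linarith
  rcases le_or_gt t (2 / 5) with g | h1
  · refine H.s10 h1.le g ?_
    rcases hA (7 / 20) (745 / 1000) (by unfold Pr; norm_num) with q | q <;> linarith
  rcases le_or_gt t (221 / 500) with g | h1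
  · refine H.s11 h1.le g ?_
    rcases hA (2 / 5) (715 / 1000) (by unfold Pr; norm_num) with q | q <;> linarith
  rcases le_or_gt t (9 / 20) with g | h1
  · refine H.s12 h1.le g ?_
    rcases hA (2 / 5) (715 / 1000) (by unfold Pr; norm_num) with q | q <;> linarith
  rcases le_or_gt t (61 / 125) with g | h1
  · refine H.s13 h1.le g ?_
    rcases hA (9 / 20) (69 / 100) (by unfold Pr; norm_num) with q | q <;> linarith
  rcases le_or_gt t (1 / 2) with g | h1
  · refine H.s14 h1.le g ?_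
    rcases hA (9 / 20) (69 / 100) (by unfold Pr; norm_num) with q | q <;> linarith
  rcases le_or_gt t (267 / 500) with g | h1
  · refine H.s15 h1.le g ?_
    rcases hA (1 / 2) (67 / 100) (by unfold Pr; norm_num) with q | q <;> linarith
  rcases le_or_gt t (11 / 20) with g | h1
  · refine H.s16 h1.le g ?_
    rcases hA (1 / 2) (67 / 100) (by unfold Pr; norm_num) with q | q <;> linarith
  rcases le_or_gt t (579 / 1000) with g | h1
  · refine H.s17 h1.le g ?_
    rcases hA (11 / 20) (65 / 100) (by unfold Pr; norm_num) with q | q <;> linarith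
  rcases le_or_gt t (3 / 5) with g | h1
  · refine H.s18 h1.le g ?_
    rcases hA (11 / 20) (65 / 100) (by unfold Pr; norm_num) with q | q <;> linarith
  rcases le_or_gt t (311 / 500) with g | h1
  · refine H.s19 h1.le g ?_
    rcases hA (3 / 5) (635 / 1000) (by unfold Pr; norm_num) with q | q <;> linarith
  rcases le_or_gt t (127 / 200) with g | h1
  · refine H.s20 h1.le g ?_
    rcases hA (3 / 5) (635 / 1000) (by unfold Pr; norm_num) with q | q <;> linarith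
  rcases le_or_gt t (13 / 20) with g | h1
  · refine H.s21 h1.le g ?_
    rcases hB (3 / 5) (635 / 1000) (by unfold Pr; norm_num) with q | q <;> linarith
  rcases le_or_gt t (67 / 100) with g | h1
  · refine H.s22 h1.le g ?_
    rcases hB (11 / 20) (65 / 100) (by unfold Pr; norm_num) with q | q <;> linarith
  rcases le_or_gt t (143 / 200) with g | h1
  · refine H.s23 h1.le g ?_
    rcases hB (1 / 2) (67 / 100) (by unfold Pr; norm_num) with q | q <;> linarith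
  rcases le_or_gt t (31 / 40) with g | h1
  · refine H.s24 h1.le g ?_
    rcases hB (2 / 5) (715 / 1000) (by unfold Pr; norm_num) with q | q <;> linarith
  rcases le_or_gt t (17 / 20) with g | h1
  · refine H.s25 h1.le g ?_
    rcases hB (3 / 10) (775 / 1000) (by unfold Pr; norm_num) with q | q <;> linarith
  rcases le_or_gt t (47 / 50) with g | h1
  · refine H.s26 h1.le g ?_
    rcases hB (1 / 5) (85 / 100) (by unfold Pr; norm_num) with q | q <;> linarith
  rcases le_or_gt t (24 / 25) with g | h1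
  · refine H.s27 h1.le g ?_
    rcases hB (1 / 10) (94 / 100) (by unfold Pr; norm_num) with q | q <;> linarith
  · left
    exact step_i (t₁ := 24 / 25) (c₁ := 3454 / 10000) (by norm_num) (by norm_num) h1.le H.c0
      (by norm_num)

end Pool.Agent.S3.E.J5
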