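import Pool.Agent.S3.E.J6T

/-!
# Stage 3, block E: branch and bound, stage 1

Every inner vertex with two twists whose neighbours are open: `tan² θ ≥ 1/4`, `cos² R ≤ 59/100`,
`|cos z|² ≥ 27/50`.
-/

set_option autoImplicit false

namespace Pool.Agent.S3.E.J6

open NI

def ob1 (_X _h _E _v X2 _h2 t Ki : N) : Bool :=
  (cst 1 4).le t && (one.le (N.mul (cst 59 100) (N.add one X2)) && (cst 54 100).le Ki)

theorem ob1_sound {X t K : ℝ} {XN hN EN vN h2N tN KN : N} (hX : Mem X XN) (ht : Mem t tN)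
    (hK : Mem K KN) (h : ob1 XN hN EN vN XN.sq h2N tN KN = true) :
    1 / 4 ≤ t ∧ 1 ≤ 59 / 100 * (1 + X ^ 2) ∧ 54 / 100 ≤ K := by
  unfold ob1 at h
  rw [Bool.and_eq_true, Bool.and_eq_true] at h
  obtain ⟨h1, h2, h3⟩ := h
  refine ⟨?_, ?_, ?_⟩
  · exact (mem_nat (by norm_num) (by norm_num : (1 / 4 : ℝ) = _)).le ht h1
  · exact mem_one.le ((mem_nat (by norm_num) (by norm_num : (59 / 100 : ℝ) = _)).mul
      (mem_one.add hX.sq)) h2
  · exact (mem_nat (by norm_num) (by norm_num : (54 / 100 : ℝ) = _)).le hK h3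

/-- The conclusion of stage 1. -/
def P1 (X h _E _v : ℝ) : Prop := 1 / 4 ≤ tR X h ∧ 1 ≤ 59 / 100 * (1 + X ^ 2) ∧ 54 / 100 ≤ kR X h

theorem s1_of {tj tk sE sv : Bool}
    (hb : bb (tst ob1 tj tk false sE sv) (cyc 8 [3, 0, 2, 1]) (rng 34 138 100) (rng 19 58 100)
      (rng 0 43 100) (rng 0 1 1) = true)
    {X h E v κj κk : ℝ} (H : Fa tj tk false sE sv X h E v κj κk) (X0 : 34 / 100 ≤ X)
    (X1 : X ≤ 138 / 100) (h0 : 19 / 100 ≤ h) (h1 : h ≤ 58 / 100) (E1 : E ≤ 43 / 100) (v1 : v ≤ 1) :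
    P1 X h E v := by
  refine bb_sound (P := fun X h E v => (∃ κj κk, Fa tj tk false sE sv X h E v κj κk) → P1 X h E v)
    ?_ _ _ _ _ _ hb X h E v ?_ ?_ ?_ ?_ ⟨κj, κk, H⟩
  · intro A B C D hT a b c d ha hb hc hd
    refine tst_sound (Q := fun X h E v => ∃ κj κk, Fa tj tk false sE sv X h E v κj κk)
      (fun X h E v hQ => hQ) ?_ A B C D hT a b c d ha hb hc hd
    intro X h E v XN hN EN vN tN kN _ hX _ _ _ ht hk _ _ ho
    exact ob1_sound hX ht hk ho
  · exact mem_rng (by norm_num) (by push_cast; linarith) (by push_cast; linarith)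
  · exact mem_rng (by norm_num) (by push_cast; linarith) (by push_cast; linarith)
  · exact mem_rng (by norm_num) (by push_cast; simpa using H.E0) (by push_cast; linarith)
  · exact mem_rng (by norm_num) (by push_cast; simpa using H.v0) (by push_cast; linarith)

/-- both neighbours with two twists -/
theorem s1_22 (sE sv : Bool) :
    bb (tst ob1 false false false sE sv) (cyc 8 [3, 0, 2, 1]) (rng 34 138 100) (rng 19 58 100)
      (rng 0 43 100) (rng 0 1 1) = true := by
  rcases sE with _ | _ <;> rcases sv with _ | _ <;> decide +kernel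

theorem s1_23 (sE sv : Bool) :
    bb (tst ob1 false true false sE sv) (cyc 8 [3, 0, 2, 1]) (rng 34 138 100) (rng 19 58 100)
      (rng 0 43 100) (rng 0 1 1) = true := by
  rcases sE with _ | _ <;> rcases sv with _ | _ <;> decide +kernel

theorem s1_33 (sE sv : Bool) :
    bb (tst ob1 true true false sE sv) (cyc 8 [3, 0, 2, 1]) (rng 34 138 100) (rng 19 58 100)
      (rng 0 43 100) (rng 0 1 1) = true := by
  rcases sE with _ | _ <;> rcases sv with _ | _ <;> decide +kernel

end Pool.Agent.S3.E.J6
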