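import Pool.Agent.S3.E.J6Z
import Pool.Agent.S3.E.J6S

/-!
# Stage 3, block E: stage 1 of the branch and bound

Every inner vertex with two twists and open neighbours has `tan² θ ≥ 1/4`, `cos² R ≤ 59/100`,
`|cos z|² ≥ 27/50`.
-/

set_option autoImplicit false

namespace Pool.Agent.S3.E

open Complex

theorem J6.sgn (x : ℝ) : ∃ (s : Bool) (d : ℝ), 0 ≤ d ∧ d = |x| ∧ x = bif s then d else -d := by
  rcases le_or_gt 0 x with h | h
  · exact ⟨true, x, h, (abs_of_nonneg h).symm, by rw [cond_true]⟩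
  · exact ⟨false, -x, by linarith, (abs_of_neg h).symm, by rw [cond_false]; ring⟩

theorem J6.th_le_self {x : ℝ} (hx : 0 ≤ x) : Real.tanh x ≤ x := by
  have hd : ∀ x : ℝ, HasDerivAt (fun x => x - Real.tanh x) (1 - 1 / Real.cosh x ^ 2) x :=
    fun x => (hasDerivAt_id x).sub (J6.th_deriv x)
  have hm : Monotone (fun x => x - Real.tanh x) := by
    refine monotone_of_deriv_nonneg (fun x => (hd x).differentiableAt) ?_
    intro x
    rw [(hd x).deriv]
    have h1 : 1 ≤ Real.cosh x ^ 2 := one_le_pow₀ (Real.one_le_cosh x)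
    have h2 : 1 / Real.cosh x ^ 2 ≤ 1 := (div_le_one (by linarith)).2 h1
    linarith
  have := hm hx
  simp only [Real.tanh_zero, sub_zero] at this
  linarith

namespace Zr

variable {ι : Type*} [Finite ι] {a : ι → ℝ} {nl nr : ι → Option ι} {z : ι → ℂ}

/-- The box. -/
theorem box (h : Zr a nl nr 1 z) (h3 : ∀ i, 3 ≤ a i → a i = 3 ∨ 4 ≤ a i) {i j k : ι}
    (hi : a i = 2) (hij : (nl i = some j ∧ nr i = some k) ∨ (nl i = some k ∧ nr i = some j))
    (hj : 3 ≤ a j ∨ (a j = 2 ∧ In2 nl nr j)) :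
    34 / 100 ≤ Real.tan (z i).re ∧ Real.tan (z i).re ≤ 138 / 100 ∧
    19 / 100 ≤ Real.tanh (z i).im ∧ Real.tanh (z i).im ≤ 58 / 100 ∧
    Real.sinh (z i).im ^ 2 ≤ 1 / 2 := by
  have hin : In2 nl nr i := by
    rcases hij with ⟨h1, h2⟩ | ⟨h1, h2⟩
    · exact ⟨_, _, h1, h2⟩
    · exact ⟨_, _, h1, h2⟩
  obtain ⟨p1, p2, p3⟩ := h.pos i
  obtain ⟨t1, t2, t3⟩ := h.tR_eq i
  obtain ⟨-, -, -, -, hK, c0, c1, K1⟩ := h.alg i
  have c3 := cos_sq_ge_3454 p1 (h.two_re_le' h3 hi hij hj)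
  have u0 := h.two_t_ge hi hin
  have u1 := h.two_t_le hin
  have X0 : 0 < Real.tan (z i).re := Real.tan_pos_of_pos_of_lt_pi_div_two p1 p2
  have h0 : 0 < Real.tanh (z i).im := J6.th_pos p3
  have ti := tan_th_sq p1 p2 p3
  have hsq := J6.th_sq_inv (z i).im
  have h1 : Real.tanh (z i).im < 1 := Real.tanh_lt_one _
  rw [hK] at K1
  obtain ⟨t, ht⟩ : ∃ t, t = Real.tan (th (z i).re (z i).im) ^ 2 := ⟨_, rfl⟩
  obtain ⟨c, hc⟩ : ∃ c, c = Real.cos (z i).re ^ 2 := ⟨_, rfl⟩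
  obtain ⟨σ, hσ⟩ : ∃ σ, σ = Real.sinh (z i).im ^ 2 := ⟨_, rfl⟩
  obtain ⟨g, hg⟩ : ∃ g, g = Real.tanh (z i).im := ⟨_, rfl⟩
  obtain ⟨X, hX⟩ : ∃ X, X = Real.tan (z i).re := ⟨_, rfl⟩
  rw [← hX, ← hc] at t3
  rw [← ht] at u0 u1
  rw [← ht, ← hc] at K1
  rw [← ht, ← hc, ← hσ] at ti
  rw [← hg, ← hσ] at hsq
  rw [← hg] at h0 h1
  rw [← hX] at X0
  rw [← hc] at c3 c0 c1
  rw [← hX, ← hg, ← hσ]
  have e1 : (1 + X ^ 2) * c = 1 := by rw [t3]; exact inv_mul_cancel₀ c0.ne'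
  have g2 : 0 < 1 - g ^ 2 := by nlinarith only [h1, h0]
  have e2 : (1 + σ) * (1 - g ^ 2) = 1 := by rw [← hsq]; exact inv_mul_cancel₀ g2.ne'
  have σ1 : σ ≤ 1 / 2 := by
    rw [← ti]
    nlinarith only [u1, ht, K1]
  have σ0 : 4 / 100 ≤ σ := by
    rw [← ti]
    nlinarith only [u0, c3]
  refine ⟨?_, ?_, ?_, ?_, σ1⟩
  · by_contra hcon
    push Not at hcon
    have : X ^ 2 < (34 / 100) ^ 2 := by nlinarith only [X0, hcon]
    nlinarith only [u0, K1, e1, this]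
  · by_contra hcon
    push Not at hcon
    have : (138 / 100) ^ 2 < X ^ 2 := by nlinarith only [hcon]
    nlinarith only [c3, e1, this]
  · by_contra hcon
    push Not at hcon
    have : g ^ 2 < (19 / 100) ^ 2 := by nlinarith only [h0, hcon]
    nlinarith only [e2, σ0, this]
  · by_contra hcon
    push Not at hcon
    have : (58 / 100) ^ 2 < g ^ 2 := by nlinarith only [hcon]
    nlinarith only [g2, e2, σ1, hcon]

/-- **Stage 1.** -/
theorem stage1 (h : Zr a nl nr 1 z) (h3 : ∀ i, 3 ≤ a i → a i = 3 ∨ 4 ≤ a i) {i j k : ι}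
    (hi : a i = 2) (hij : (nl i = some j ∧ nr i = some k) ∨ (nl i = some k ∧ nr i = some j))
    (hj : 3 ≤ a j ∨ (a j = 2 ∧ In2 nl nr j)) (hk : 3 ≤ a k ∨ (a k = 2 ∧ In2 nl nr k)) :
    1 / 4 ≤ Real.tan (th (z i).re (z i).im) ^ 2 ∧ Real.cos (z i).re ^ 2 ≤ 59 / 100 ∧
      27 / 50 ≤ k2 (z i).re (z i).im := by
  have hin : In2 nl nr i := by
    rcases hij with ⟨h1, h2⟩ | ⟨h1, h2⟩
    · exact ⟨_, _, h1, h2⟩
    · exact ⟨_, _, h1, h2⟩
  have key : ∀ {j k : ι} {tj tk : Bool},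
      (∀ sE sv : Bool, NI.bb (J6.tst J6.ob1 tj tk false sE sv) (J6.cyc 8 [3, 0, 2, 1])
        (NI.rng 34 138 100) (NI.rng 19 58 100) (NI.rng 0 43 100) (NI.rng 0 1 1) = true) →
      ((nl i = some j ∧ nr i = some k) ∨ (nl i = some k ∧ nr i = some j)) →
      ((tj = true ∧ 3 ≤ a j) ∨ (tj = false ∧ a j = 2 ∧ In2 nl nr j)) →
      ((tk = true ∧ 3 ≤ a k) ∨ (tk = false ∧ a k = 2 ∧ In2 nl nr k)) →
      1 / 4 ≤ Real.tan (th (z i).re (z i).im) ^ 2 ∧ Real.cos (z i).re ^ 2 ≤ 59 / 100 ∧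
      27 / 50 ≤ k2 (z i).re (z i).im := by
    intro j k tj tk hb hij hj hk
    have hj' : 3 ≤ a j ∨ (a j = 2 ∧ In2 nl nr j) := by
      rcases hj with ⟨-, e⟩ | ⟨-, e⟩
      · exact Or.inl e
      · exact Or.inr e
    have hj1 : nl i = some j ∨ nr i = some j := by
      rcases hij with ⟨h1, h2⟩ | ⟨h1, h2⟩
      · exact Or.inl h1
      · exact Or.inr h2
    obtain ⟨p1, p2, p3⟩ := h.pos i
    obtain ⟨t1, t2, t3⟩ := h.tR_eq i
    obtain ⟨sE, d, d0, -, hd⟩ := J6.sgn ((qe (z i) (z j)).re - (z i).im)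
    obtain ⟨sv, n, n0, -, hn⟩ := J6.sgn ((qe (z i) (z j)).im - (Real.pi / 2 - (z i).re))
    have F := h.fa_of h3 hi hij (st := false) hj hk (by simp) (by simp) d0 n0 hd hn
    obtain ⟨b1, b2, b3, b4, b5⟩ := h.box h3 hi hij hj'
    have hE : Real.tanh d ≤ 43 / 100 := by
      have e1 := J6.th_le_self d0
      have bj := h.bw_ge h3 hi hin hj1 hj'
      have e3 : d ≤ 3 / 5 * (z i).im := by
        rw [bw, le_div_iff₀ p3] at bj
        rcases sE with _ | _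
        · rw [cond_false] at hd; linarith
        · rw [cond_true] at hd
          have hk1 : nl i = some k ∨ nr i = some k := by
            rcases hij with ⟨h1, h2⟩ | ⟨h1, h2⟩
            · exact Or.inr h2
            · exact Or.inl h1
          have hk' : 3 ≤ a k ∨ (a k = 2 ∧ In2 nl nr k) := by
            rcases hk with ⟨-, e⟩ | ⟨-, e⟩
            · exact Or.inl e
            · exact Or.inr e
          have bk := h.bw_ge h3 hi hin hk1 hk'
          rw [bw, le_div_iff₀ p3] at bk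
          have := (h.two_sum hi hij).1
          linarith
      have e4 : (z i).im ≤ Real.sinh (z i).im := Real.self_le_sinh_iff.2 p3.le
      have e5 : Real.sinh (z i).im ≤ 71 / 100 := by
        by_contra hcon
        push Not at hcon
        nlinarith only [b5, hcon]
      linarith
    have hv : Real.tan n ≤ 1 := by
      have e1 := F.vX
      have e2 := F.Xv
      have e3 := F.v0
      by_contra hcon
      push Not at hcon
      nlinarith only [e1, e2, hcon]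
    obtain ⟨c1, c2, c3⟩ := J6.s1_of (hb sE sv) F b1 b2 b3 b4 hE hv
    rw [t1] at c1
    rw [t2] at c3
    refine ⟨c1, ?_, by linarith⟩
    rw [t3] at c2
    have c0 : 0 < Real.cos (z i).re ^ 2 := by
      have := GeoX_cos_pos p1 p2
      positivity
    rw [← div_eq_mul_inv, le_div_iff₀ c0] at c2
    linarith
  rcases hj with hj | ⟨hj, hj2⟩
  · rcases hk with hk | ⟨hk, hk2⟩
    · exact key J6.s1_33 hij (Or.inl ⟨rfl, hj⟩) (Or.inl ⟨rfl, hk⟩)
    · exact key J6.s1_23 hij.symm (Or.inr ⟨rfl, hk, hk2⟩) (Or.inl ⟨rfl, hj⟩)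
  · rcases hk with hk | ⟨hk, hk2⟩
    · exact key J6.s1_23 hij (Or.inr ⟨rfl, hj, hj2⟩) (Or.inl ⟨rfl, hk⟩)
    · exact key J6.s1_22 hij (Or.inr ⟨rfl, hj, hj2⟩) (Or.inr ⟨rfl, hk, hk2⟩)

end Zr

end Pool.Agent.S3.E
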