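import Pool.Agent.S3.E.J6A
import Pool.Agent.S3.Cl.E1C

/-!
# Stage 3, block E: adjacent inner vertices with two twists; general form of the branch and bound
-/

set_option autoImplicit false

namespace Pool.Agent.S3.E

open Complex

namespace J6

open NI

/-- General form of the branch and bound. -/
theorem of_bb {obj : N → N → N → N → N → N → N → N → Bool} {tj tk st sE sv : Bool} {l : List ℕ}
    {P : ℝ → ℝ → ℝ → ℝ → Prop}
    (ho : ∀ X h E v XN hN EN vN tN kN, (∃ κj κk, Fa tj tk st sE sv X h E v κj κk) → Mem X XN →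
      Mem h hN → Mem E EN → Mem v vN → Mem (tR X h) tN → Mem (kR X h) kN → XN.ps = true →
      hN.ps = true → obj XN hN EN vN XN.sq hN.sq tN kN = true → P X h E v)
    (hb : NI.bb (tst obj tj tk st sE sv) l (rng 34 138 100) (rng 19 58 100) (rng 0 43 100)
      (rng 0 1 1) = true)
    {X h E v κj κk : ℝ} (H : Fa tj tk st sE sv X h E v κj κk) (X0 : 34 / 100 ≤ X)
    (X1 : X ≤ 138 / 100) (h0 : 19 / 100 ≤ h) (h1 : h ≤ 58 / 100) (E1 : E ≤ 43 / 100) (v1 : v ≤ 1) :
    P X h E v := by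
  refine bb_sound (P := fun X h E v => (∃ κj κk, Fa tj tk st sE sv X h E v κj κk) → P X h E v)
    ?_ _ _ _ _ _ hb X h E v ?_ ?_ ?_ ?_ ⟨κj, κk, H⟩
  · intro A B C D hT a b c d ha hb hc hd
    exact tst_sound (Q := fun X h E v => ∃ κj κk, Fa tj tk st sE sv X h E v κj κk)
      (fun X h E v hQ => hQ) ho A B C D hT a b c d ha hb hc hd
  · exact mem_rng (by norm_num) (by push_cast; linarith) (by push_cast; linarith)
  · exact mem_rng (by norm_num) (by push_cast; linarith) (by push_cast; linarith)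
  · exact mem_rng (by norm_num) (by push_cast; simpa using H.E0) (by push_cast; linarith)
  · exact mem_rng (by norm_num) (by push_cast; simpa using H.v0) (by push_cast; linarith)

end J6

namespace Zr

variable {ι : Type*} [Finite ι] {a : ι → ℝ} {nl nr : ι → Option ι} {z : ι → ℂ}

/-- **The branch and bound at a vertex.** -/
theorem bbz (h : Zr a nl nr 1 z) (h3 : ∀ i, 3 ≤ a i → a i = 3 ∨ 4 ≤ a i) {i j k : ι}
    (hi : a i = 2) (hij : (nl i = some j ∧ nr i = some k) ∨ (nl i = some k ∧ nr i = some j))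
    {tj tk st : Bool} (hj : (tj = true ∧ 3 ≤ a j) ∨ (tj = false ∧ a j = 2 ∧ In2 nl nr j))
    (hk : (tk = true ∧ 3 ≤ a k) ∨ (tk = false ∧ a k = 2 ∧ In2 nl nr k))
    (hsj : tj = false → st = true → 1 / 4 ≤ Real.tan (th (z j).re (z j).im) ^ 2 ∧
      Real.cos (z j).re ^ 2 ≤ 59 / 100)
    (hsk : tk = false → st = true → 1 / 4 ≤ Real.tan (th (z k).re (z k).im) ^ 2 ∧
      Real.cos (z k).re ^ 2 ≤ 59 / 100)
    {P : Bool → Bool → ℝ → ℝ → ℝ → ℝ → Prop}
    (hP : ∀ (sE sv : Bool) (X g E v κj κk : ℝ), J6.Fa tj tk st sE sv X g E v κj κk →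
      34 / 100 ≤ X → X ≤ 138 / 100 → 19 / 100 ≤ g → g ≤ 58 / 100 → E ≤ 43 / 100 → v ≤ 1 →
      P sE sv X g E v) :
    ∃ (sE sv : Bool) (d n : ℝ), 0 ≤ d ∧ 0 ≤ n ∧ d ≤ 3 / 5 * (z i).im ∧
      (qe (z i) (z j)).re - (z i).im = (bif sE then d else -d) ∧
      (qe (z i) (z j)).im - (Real.pi / 2 - (z i).re) = (bif sv then n else -n) ∧
      n < (z i).re ∧ (z i).re + n < Real.pi / 2 ∧
      P sE sv (Real.tan (z i).re) (Real.tanh (z i).im) (Real.tanh d) (Real.tan n) := by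
  have hin : In2 nl nr i := by
    rcases hij with ⟨h1, h2⟩ | ⟨h1, h2⟩
    · exact ⟨_, _, h1, h2⟩
    · exact ⟨_, _, h1, h2⟩
  have hj' : 3 ≤ a j ∨ (a j = 2 ∧ In2 nl nr j) := by
    rcases hj with ⟨-, e⟩ | ⟨-, e⟩
    · exact Or.inl e
    · exact Or.inr e
  have hk' : 3 ≤ a k ∨ (a k = 2 ∧ In2 nl nr k) := by
    rcases hk with ⟨-, e⟩ | ⟨-, e⟩
    · exact Or.inl e
    · exact Or.inr e
  have hj1 : nl i = some j ∨ nr i = some j := by
    rcases hij with ⟨h1, h2⟩ | ⟨h1, h2⟩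
    · exact Or.inl h1
    · exact Or.inr h2
  have hk1 : nl i = some k ∨ nr i = some k := by
    rcases hij with ⟨h1, h2⟩ | ⟨h1, h2⟩
    · exact Or.inr h2
    · exact Or.inl h1
  obtain ⟨p1, p2, p3⟩ := h.pos i
  obtain ⟨u1, u2, u3⟩ := h.qe_pos hj1
  obtain ⟨v1, v2, v3⟩ := h.qe_pos hk1
  obtain ⟨w1, w2⟩ := h.two_sum hi hij
  obtain ⟨sE, d, d0, -, hd⟩ := J6.sgn ((qe (z i) (z j)).re - (z i).im)
  obtain ⟨sv, n, n0, -, hn⟩ := J6.sgn ((qe (z i) (z j)).im - (Real.pi / 2 - (z i).re))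
  have F := h.fa_of h3 hi hij (st := st) hj hk hsj hsk d0 n0 hd hn
  obtain ⟨b1, b2, b3, b4, b5⟩ := h.box h3 hi hij hj'
  have e3 : d ≤ 3 / 5 * (z i).im := by
    have bj := h.bw_ge h3 hi hin hj1 hj'
    have bk := h.bw_ge h3 hi hin hk1 hk'
    rw [bw, le_div_iff₀ p3] at bj bk
    rcases sE with _ | _
    · rw [cond_false] at hd; linarith
    · rw [cond_true] at hd; linarith
  have hE : Real.tanh d ≤ 43 / 100 := by
    have e1 := J6.th_le_self d0
    have e4 : (z i).im ≤ Real.sinh (z i).im := Real.self_le_sinh_iff.2 p3.le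
    have e5 : Real.sinh (z i).im ≤ 71 / 100 := by
      by_contra hcon
      push Not at hcon
      nlinarith
    linarith
  have hv : Real.tan n ≤ 1 := by
    have e1 := F.vX
    have e2 := F.Xv
    have e3 := F.v0
    by_contra hcon
    push Not at hcon
    nlinarith
  have hnR : n < (z i).re ∧ (z i).re + n < Real.pi / 2 := by
    rcases sv with _ | _
    · rw [cond_false] at hn
      exact ⟨by linarith, by linarith⟩
    · rw [cond_true] at hn
      exact ⟨by linarith, by linarith⟩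
  exact ⟨sE, sv, d, n, d0, n0, e3, hd, hn, hnR.1, hnR.2, hP sE sv _ _ _ _ _ _ F b1 b2 b3 b4 hE hv⟩

/-- **An inner vertex with two twists next to an inner vertex with two twists.** -/
theorem adj22 (h : Zr a nl nr 1 z) (h3 : ∀ i, 3 ≤ a i → a i = 3 ∨ 4 ≤ a i) {i k : ι}
    (hk2 : a k = 2) (hkin : In2 nl nr k) (hi : a i = 2) (hin : In2 nl nr i)
    (hki : nl k = some i ∨ nr k = some i) :
    1 / 4 ≤ Real.tan (th (z k).re (z k).im) ^ 2 ∧ Real.cos (z k).re ^ 2 ≤ 59 / 100 ∧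
      143 / 200 ≤ ‖cos (z k)‖ := by
  obtain ⟨l, r, hl, hr⟩ := hkin
  have hkin : In2 nl nr k := ⟨l, r, hl, hr⟩
  have key : ∀ m : ι, ((nl k = some m ∧ nr k = some i) ∨ (nl k = some i ∧ nr k = some m)) →
      1 / 4 ≤ Real.tan (th (z k).re (z k).im) ^ 2 ∧ Real.cos (z k).re ^ 2 ≤ 59 / 100 ∧
      143 / 200 ≤ ‖cos (z k)‖ := by
    intro m hm
    have hm1 : nl k = some m ∨ nr k = some m := by
      rcases hm with ⟨h1, h2⟩ | ⟨h1, h2⟩
      · exact Or.inl h1
      · exact Or.inr h2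
    have hop : (3 ≤ a m ∨ (a m = 2 ∧ In2 nl nr m)) →
        1 / 4 ≤ Real.tan (th (z k).re (z k).im) ^ 2 ∧ Real.cos (z k).re ^ 2 ≤ 59 / 100 ∧
        143 / 200 ≤ ‖cos (z k)‖ := by
      intro e
      obtain ⟨e1, e2, e3⟩ := h.stage1 h3 hk2 hm e (Or.inr ⟨hi, hin⟩)
      refine ⟨e1, e2, ?_⟩
      rw [← norm_cos_sq] at e3
      by_contra hc
      push Not at hc
      have := norm_nonneg (cos (z k))
      nlinarith
    rcases h.nb_types hm1 with e | e | e
    · exact hop (Or.inl e)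
    · exact hop (Or.inr e)
    · have hne : i ≠ m := by
        intro hc
        rw [← hc] at e
        rcases e with ⟨-, ⟨e1, e2⟩ | ⟨e1, e2⟩⟩
        · obtain ⟨x, y, x1, x2⟩ := hin
          rw [e2] at x2
          simp at x2
        · obtain ⟨x, y, x1, x2⟩ := hin
          rw [e1] at x1
          simp at x1
      obtain ⟨e1, e2, -, e4, e5, -⟩ := Cl.two22_end2 h h3 e hk2 hkin hki hne hi hin
      refine ⟨by nlinarith, ?_, e2⟩
      obtain ⟨p1, p2, p3⟩ := h.pos k
      have hpi := Real.pi_gt_three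
      have c1 : Real.cos (z k).re ≤ Real.cos (7463 / 10000) :=
        Real.cos_le_cos_of_nonneg_of_le_pi (by norm_num) (by linarith) e4
      have c2 := Cl.n_c4 (x := 7463 / 10000) (by norm_num)
      have c3 : Real.cos (z k).re ≤ 735 / 1000 := by
        norm_num at c2
        linarith
      have c4 := GeoX_cos_pos p1 p2
      nlinarith
  rcases hki with e | e
  · exact key r (Or.inr ⟨e, hr⟩)
  · exact key l (Or.inl ⟨hl, e⟩)

end Zr

end Pool.Agent.S3.E
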