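import Pool.Agent.S3.E.J6BPd

/-!
# Stage 3, block E: the objectives of J6BP (first check)
-/

set_option autoImplicit false

namespace Pool.Agent.S3.E

open Complex

namespace J6

open NI

theorem bp_23 (sE sv : Bool) :
    NI.bb (tst (obBP sE sv) false true true sE sv) (cyc 10 [3, 0, 2, 1]) (rng 34 138 100)
      (rng 19 58 100) (rng 0 43 100) (rng 0 1 1) = true := by
  rcases sE with _ | _ <;> rcases sv with _ | _ <;> decide +kernel

end J6

end Pool.Agent.S3.E
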