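import Pool.Agent.S3.E.J6P
import Pool.Agent.S3.E.J6BPa
import Pool.Agent.S3.E.J6BPb

/-!
# Stage 3, block E: the phase below the base point and `tan² θ ≤ 757/1000` at an inner vertex with
two twists next to an inner vertex with two twists
-/

set_option autoImplicit false

namespace Pool.Agent.S3.E

open Complex

namespace J6

open NI

variable {sE sv : Bool} {R I τ b rj d n : ℝ}

theorem tcs_of {ρ y0 y1 s₁ c₀ c₁ : ℝ} (h0 : y0 ≤ ρ) (h1 : ρ ≤ y1) (y00 : 0 < y0) (y11 : y1 ≤ 1)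
    (hs : y1 - y1 ^ 3 / 6 + y1 ^ 5 / 120 ≤ s₁) (hc0 : c₀ ≤ 1 - y1 ^ 2 / 2 + y1 ^ 4 / 24 - y1 ^ 6 / 720)
    (hc1 : 1 - y0 ^ 2 / 2 + y0 ^ 4 / 24 ≤ c₁) (c00 : 0 < c₀) :
    Real.tan ρ ≤ s₁ / c₀ ∧ c₀ ≤ Real.cos ρ ∧ Real.cos ρ ^ 2 ≤ c₁ ^ 2 := by
  have hpi := Real.pi_gt_three
  have e1 : Real.sin ρ ≤ s₁ :=
    (Real.sin_le_sin_of_le_of_le_pi_div_two (by linarith) (by linarith) h1).trans
      ((Cl.n_s5 (by linarith)).trans hs)
  have e2 : c₀ ≤ Real.cos ρ := (hc0.trans (Cl.n_c6 (by linarith))).trans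
    (Real.cos_le_cos_of_nonneg_of_le_pi (by linarith) (by linarith) h1)
  have e3 : Real.cos ρ ≤ c₁ :=
    (Real.cos_le_cos_of_nonneg_of_le_pi y00.le (by linarith) h0).trans
      ((Cl.n_c4 y00.le).trans hc1)
  have sp : 0 ≤ Real.sin ρ := Real.sin_nonneg_of_nonneg_of_le_pi (by linarith) (by linarith)
  refine ⟨?_, e2, pow_le_pow_left₀ (c00.le.trans e2) e3 2⟩
  rw [Real.tan_eq_sin_div_cos]
  exact div_le_div₀ (sp.trans e1) e1 c00 e2

/-- The three values of the phase below the base point. -/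
def BPAll (R I b ρ η : ℝ) : Prop :=
  (ρ ≤ 1 / 25 * Real.pi → 3 / 100 ≤ b * (49 / 50 * (2 / Real.pi) * ((ρ - R) * (I - η)))) ∧
  (ρ ≤ 2 / 25 * Real.pi → 1 / 50 ≤ b * (49 / 50 * (2 / Real.pi) * ((ρ - R) * (I - η)))) ∧
  (ρ ≤ 3 / 25 * Real.pi → 1 / 100 ≤ b * (49 / 50 * (2 / Real.pi) * ((ρ - R) * (I - η))))

theorem Cx.obBP_sound (C : Cx sE sv R I τ b rj d n) {XN gN EN vN g2N tN kN : N}
    (hX : Mem (Real.tan R) XN) (hg : Mem (Real.tanh I) gN) (hE : Mem (Real.tanh d) EN)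
    (ht : Mem (τ ^ 2) tN) (gps : gN.ps = true) (ho : obBP sE sv XN gN EN vN XN.sq g2N tN kN = true)
    {ρ η : ℝ} (hη : Real.sinh η = τ * Real.cos ρ) (hρ : 0 ≤ ρ) : BPAll R I b ρ η := by
  have hpi := Real.pi_gt_d6
  have hpi' := Real.pi_lt_d6
  unfold obBP at ho
  rw [Bool.and_eq_true, Bool.and_eq_true] at ho
  obtain ⟨o0, o1, o2⟩ := ho
  refine ⟨fun e => ?_, fun e => ?_, fun e => ?_⟩
  · obtain ⟨e1, e2, e3⟩ := tcs_of (ρ := 1 / 25 * Real.pi) (y0 := 12566 / 100000)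
      (y1 := 12567 / 100000) (s₁ := 12534 / 100000) (c₀ := 99211 / 100000) (c₁ := 992116 / 1000000)
      (by linarith) (by linarith) (by norm_num) (by norm_num) (by norm_num) (by norm_num)
      (by norm_num) (by norm_num)
    have k := C.bpt_sound hX hg hE ht gps (ρ₁ := 1 / 25 * Real.pi) (by positivity) (by linarith)
      (e1.trans (by norm_num)) (le_trans (by norm_num) e2) (e3.trans (by norm_num)) (by norm_num)
      hρ e hη o0
    exact le_trans (by norm_num) k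
  · obtain ⟨e1, e2, e3⟩ := tcs_of (ρ := 2 / 25 * Real.pi) (y0 := 25132 / 100000)
      (y1 := 25133 / 100000) (s₁ := 2487 / 10000) (c₀ := 96858 / 100000) (c₁ := 9686 / 10000)
      (by linarith) (by linarith) (by norm_num) (by norm_num) (by norm_num) (by norm_num)
      (by norm_num) (by norm_num)
    have k := C.bpt_sound hX hg hE ht gps (ρ₁ := 2 / 25 * Real.pi) (by positivity) (by linarith)
      (e1.trans (by norm_num)) (le_trans (by norm_num) e2) (e3.trans (by norm_num)) (by norm_num)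
      hρ e hη o1
    exact le_trans (by norm_num) k
  · obtain ⟨e1, e2, e3⟩ := tcs_of (ρ := 3 / 25 * Real.pi) (y0 := 37699 / 100000)
      (y1 := 377 / 1000) (s₁ := 36814 / 100000) (c₀ := 92977 / 100000) (c₁ := 929783 / 1000000)
      (by linarith) (by linarith) (by norm_num) (by norm_num) (by norm_num) (by norm_num)
      (by norm_num) (by norm_num)
    have k := C.bpt_sound hX hg hE ht gps (ρ₁ := 3 / 25 * Real.pi) (by positivity) (by linarith)
      (e1.trans (by norm_num)) (le_trans (by norm_num) e2) (e3.trans (by norm_num)) (by norm_num)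
      hρ e hη o2
    exact le_trans (by norm_num) k

end J6

namespace Zr

variable {ι : Type*} [Finite ι] {a : ι → ℝ} {nl nr : ι → Option ι} {z : ι → ℂ}

/-- The phase below the base point at an inner `2` towards an inner `2`, the other neighbour
open; and `tan² θ ≤ 757/1000`. -/
theorem bp_two_open (h : Zr a nl nr 1 z) (h3 : ∀ i, 3 ≤ a i → a i = 3 ∨ 4 ≤ a i) {i j k : ι}
    (hi : a i = 2) (hij : (nl i = some j ∧ nr i = some k) ∨ (nl i = some k ∧ nr i = some j))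
    (hj : a j = 2) (hjn : In2 nl nr j) (hk : 3 ≤ a k ∨ (a k = 2 ∧ In2 nl nr k)) :
    (∀ ρ η : ℝ, Real.sinh η = Real.tan (th (z i).re (z i).im) * Real.cos ρ → 0 ≤ ρ →
      J6.BPAll (z i).re (z i).im (bw (z i) (z j)) ρ η) ∧
    Real.tan (th (z i).re (z i).im) ^ 2 ≤ 757 / 1000 := by
  have hin : In2 nl nr i := by
    rcases hij with ⟨h1, h2⟩ | ⟨h1, h2⟩
    · exact ⟨_, _, h1, h2⟩
    · exact ⟨_, _, h1, h2⟩
  have hj1 : nl i = some j ∨ nr i = some j := by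
    rcases hij with ⟨h1, h2⟩ | ⟨h1, h2⟩
    · exact Or.inl h1
    · exact Or.inr h2
  have hk1 : nl i = some k ∨ nr i = some k := by
    rcases hij with ⟨h1, h2⟩ | ⟨h1, h2⟩
    · exact Or.inr h2
    · exact Or.inl h1
  obtain ⟨a1, a2, -⟩ := h.adj22 h3 hj hjn hi hin (h.N.symm i j hj1)
  constructor
  · intro ρ η hη hρ
    rcases hk with hk | ⟨hk, hkn⟩
    · obtain ⟨sE, sv, d, n, XN, gN, EN, vN, tN, kN, C, m1, m2, m3, m4, m5, m6, q1, q2, ho⟩ :=
        h.bbx h3 hi hij (tj := false) (tk := true) (st := true) (Or.inr ⟨rfl, hj, hjn⟩)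
          (Or.inl ⟨rfl, hk⟩) (fun _ _ => ⟨a1, a2⟩) (by simp) J6.bp_23
      exact C.obBP_sound m1 m2 m3 m5 q2 ho hη hρ
    · obtain ⟨c1, c2, -⟩ := h.adj22 h3 hk hkn hi hin (h.N.symm i k hk1)
      obtain ⟨sE, sv, d, n, XN, gN, EN, vN, tN, kN, C, m1, m2, m3, m4, m5, m6, q1, q2, ho⟩ :=
        h.bbx h3 hi hij (tj := false) (tk := false) (st := true) (Or.inr ⟨rfl, hj, hjn⟩)
          (Or.inr ⟨rfl, hk, hkn⟩) (fun _ _ => ⟨a1, a2⟩) (fun _ _ => ⟨c1, c2⟩) J6.bp_22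
      exact C.obBP_sound m1 m2 m3 m5 q2 ho hη hρ
  · have key : ∀ {tN : NI.N}, NI.Mem (Real.tan (th (z i).re (z i).im) ^ 2) tN →
        tN.le (NI.cst 757 1000) = true → Real.tan (th (z i).re (z i).im) ^ 2 ≤ 757 / 1000 := by
      intro tN m hle
      have c1 : NI.Mem (757 / 1000 : ℝ) (NI.cst 757 1000) := J6.mem_nat (by norm_num) (by norm_num)
      exact m.le c1 hle
    rcases hk with hk | ⟨hk, hkn⟩
    · obtain ⟨sE, sv, d, n, XN, gN, EN, vN, tN, kN, C, m1, m2, m3, m4, m5, m6, q1, q2, ho⟩ :=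
        h.bbx h3 hi hij (tj := false) (tk := true) (st := true) (Or.inr ⟨rfl, hj, hjn⟩)
          (Or.inl ⟨rfl, hk⟩) (fun _ _ => ⟨a1, a2⟩) (by simp) J6.t_23
      exact key m5 ho
    · obtain ⟨c1, c2, -⟩ := h.adj22 h3 hk hkn hi hin (h.N.symm i k hk1)
      obtain ⟨sE, sv, d, n, XN, gN, EN, vN, tN, kN, C, m1, m2, m3, m4, m5, m6, q1, q2, ho⟩ :=
        h.bbx h3 hi hij (tj := false) (tk := false) (st := true) (Or.inr ⟨rfl, hj, hjn⟩)
          (Or.inr ⟨rfl, hk, hkn⟩) (fun _ _ => ⟨a1, a2⟩) (fun _ _ => ⟨c1, c2⟩) J6.t_22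
      exact key m5 ho

end Zr

end Pool.Agent.S3.E
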