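import Pool.Agent.S3.E.J6O
import Pool.Agent.S3.E.J6T

/-!
# Stage 3, block E: the objectives of J6BP
-/

set_option autoImplicit false

namespace Pool.Agent.S3.E

open Complex

namespace J6

open NI

def obBP (sE _sv : Bool) (X g E _v X2 _g2 t _K : N) : Bool :=
  bpt sE 1264 9921 9843 300 X g E X2 t && (bpt sE 2568 9685 9382 200 X g E X2 t &&
  bpt sE 3960 9297 8645 100 X g E X2 t)

def obT (_sE _sv : Bool) (_X _g _E _v _X2 _g2 t _K : N) : Bool := t.le (cst 757 1000)

end J6

end Pool.Agent.S3.E
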