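import Pool.Agent.S3.E.J6E3

/-!
# Stage 3, block E: (E1) at an inner vertex with two twists towards an inner vertex with two twists
-/

set_option autoImplicit false

namespace Pool.Agent.S3.E

open Complex

namespace J6

open NI

def obE1 (sE sv : Bool) (X g E v _X2 _g2 _t _K : N) : Bool :=
  e1t sE sv 840 1000 X v (N.mul E g.inv) && (e1t sE sv 1600 1000 X v (N.mul E g.inv) &&
  (e1t sE sv 772 1200 X v (N.mul E g.inv) && (e1t sE sv 1600 1200 X v (N.mul E g.inv) &&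
  (e1t sE sv 638 1500 X v (N.mul E g.inv) && e1t sE sv 1600 1500 X v (N.mul E g.inv)))))

theorem e1_23 (sE sv : Bool) :
    NI.bb (tst (obE1 sE sv) false true true sE sv) (cyc 8 [3, 0, 2, 1]) (rng 34 138 100)
      (rng 19 58 100) (rng 0 43 100) (rng 0 1 1) = true := by
  rcases sE with _ | _ <;> rcases sv with _ | _ <;> decide +kernel

theorem e1_22 (sE sv : Bool) :
    NI.bb (tst (obE1 sE sv) false false true sE sv) (cyc 8 [3, 0, 2, 1]) (rng 34 138 100)
      (rng 19 58 100) (rng 0 43 100) (rng 0 1 1) = true := by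
  rcases sE with _ | _ <;> rcases sv with _ | _ <;> decide +kernel

variable {sE sv : Bool} {R I τ b rj d n : ℝ}

theorem cot_of {ρ y0 y1 s c₁ s₁ : ℝ} (h0 : y0 ≤ Real.pi / 2 - ρ) (h1 : Real.pi / 2 - ρ ≤ y1)
    (y00 : 0 < y0) (y11 : y1 ≤ 1) (hc : 1 - y0 ^ 2 / 2 + y0 ^ 4 / 24 ≤ c₁) (hs : s₁ ≤ y0 - y0 ^ 3 / 6)
    (s0 : 0 < s₁) (hle : (s - y0) * c₁ ≤ s₁) (hsy : y0 ≤ s) :
    (s - (Real.pi / 2 - ρ)) * Real.tan ρ ≤ 1 := by
  have hpi := Real.pi_gt_three
  have ec : Real.cos ρ = Real.sin (Real.pi / 2 - ρ) := by rw [Real.sin_pi_div_two_sub]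
  have es : Real.sin ρ = Real.cos (Real.pi / 2 - ρ) := by rw [Real.cos_pi_div_two_sub]
  have e1 : s₁ ≤ Real.cos ρ := by
    rw [ec]
    exact (hs.trans (Cl.n_s3 y00.le)).trans
      (Real.sin_le_sin_of_le_of_le_pi_div_two (by linarith) (by linarith) h0)
  have e2 : Real.sin ρ ≤ c₁ := by
    rw [es]
    exact (Real.cos_le_cos_of_nonneg_of_le_pi y00.le (by linarith) h0).trans
      ((Cl.n_c4 y00.le).trans hc)
  have c0 : 0 < Real.cos ρ := s0.trans_le e1
  have sp : 0 < Real.sin ρ := by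
    rw [es]
    exact Real.cos_pos_of_mem_Ioo ⟨by linarith, by linarith⟩
  rw [Real.tan_eq_sin_div_cos, mul_div_assoc', div_le_one c0]
  refine le_trans ?_ e1
  refine le_trans ?_ hle
  exact mul_le_mul (by linarith) e2 sp.le (by linarith)

/-- The three values of (E1). -/
def E1All (R b rj ρ η : ℝ) : Prop :=
  (ρ ≤ 37 / 100 * Real.pi → b * (η + (Real.pi / 2 - ρ) * (Real.tan ρ * Real.tanh η)) -
      (b * (Real.pi / 2 - R) - rj) * (Real.tan ρ * Real.tanh η) ≤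
    4 / 3 * (η + (Real.pi / 2 - ρ) * (Real.tan ρ * Real.tanh η))) ∧
  (ρ ≤ 38 / 100 * Real.pi → b * (η + (Real.pi / 2 - ρ) * (Real.tan ρ * Real.tanh η)) -
      (b * (Real.pi / 2 - R) - rj) * (Real.tan ρ * Real.tanh η) ≤
    7 / 5 * (η + (Real.pi / 2 - ρ) * (Real.tan ρ * Real.tanh η))) ∧
  (ρ ≤ 2 / 5 * Real.pi → b * (η + (Real.pi / 2 - ρ) * (Real.tan ρ * Real.tanh η)) -
      (b * (Real.pi / 2 - R) - rj) * (Real.tan ρ * Real.tanh η) ≤
    3 / 2 * (η + (Real.pi / 2 - ρ) * (Real.tan ρ * Real.tanh η)))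

theorem Cx.obE1_sound (C : Cx sE sv R I τ b rj d n) {XN gN EN vN X2N g2N tN kN : N}
    (hX : Mem (Real.tan R) XN) (hg : Mem (Real.tanh I) gN) (hE : Mem (Real.tanh d) EN)
    (hv : Mem (Real.tan n) vN) (gps : gN.ps = true)
    (ho : obE1 sE sv XN gN EN vN X2N g2N tN kN = true) {ρ η : ℝ}
    (h0 : Real.sinh η = τ * Real.cos ρ) (hρ : 29 / 100 * Real.pi ≤ ρ) : E1All R b rj ρ η := by
  have hpi := Real.pi_gt_d6
  have hpi' := Real.pi_lt_d6
  have he := hE.mul (hg.inv gps)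
  unfold obE1 at ho
  rw [Bool.and_eq_true, Bool.and_eq_true, Bool.and_eq_true, Bool.and_eq_true,
    Bool.and_eq_true] at ho
  obtain ⟨o0, o1, o2, o3, o4, o5⟩ := ho
  have u0 := C.e1t_sound hX hv he o0
  have u1 := C.e1t_sound hX hv he o1
  have u2 := C.e1t_sound hX hv he o2
  have u3 := C.e1t_sound hX hv he o3
  have u4 := C.e1t_sound hX hv he o4
  have u5 := C.e1t_sound hX hv he o5
  push_cast at u0 u1 u2 u3 u4 u5
  have hc29 : Real.cos (29 / 100 * Real.pi) ≤ 613 / 1000 := by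
    have := tc0.1
    push_cast at this
    linarith
  have ht29 : 1289 / 1000 ≤ Real.tan (29 / 100 * Real.pi) := by
    have := tc0.2
    push_cast at this
    linarith
  refine ⟨fun e => ?_, fun e => ?_, fun e => ?_⟩
  · have k := C.e1_sound u0 u1 hρ e (by linarith)
      (cot_of (y0 := 408406 / 1000000) (y1 := 409 / 1000) (c₁ := 917763 / 1000000)
        (s₁ := 39705 / 100000) (by linarith) (by linarith) (by norm_num) (by norm_num)
        (by norm_num) (by norm_num) (by norm_num) (by norm_num) (by norm_num)) h0 hc29 ht29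
    norm_num at k ⊢
    linarith
  · have k := C.e1_sound u2 u3 hρ e (by linarith)
      (cot_of (y0 := 376990 / 1000000) (y1 := 377 / 1000) (c₁ := 92979 / 100000)
        (s₁ := 36806 / 100000) (by linarith) (by linarith) (by norm_num) (by norm_num)
        (by norm_num) (by norm_num) (by norm_num) (by norm_num) (by norm_num)) h0 hc29 ht29
    norm_num at k ⊢
    linarith
  · have k := C.e1_sound u4 u5 hρ e (by linarith)
      (cot_of (y0 := 314159 / 1000000) (y1 := 3142 / 10000) (c₁ := 95107 / 100000)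
        (s₁ := 3089 / 10000) (by linarith) (by linarith) (by norm_num) (by norm_num)
        (by norm_num) (by norm_num) (by norm_num) (by norm_num) (by norm_num)) h0 hc29 ht29
    norm_num at k ⊢
    linarith

end J6

namespace Zr

variable {ι : Type*} [Finite ι] {a : ι → ℝ} {nl nr : ι → Option ι} {z : ι → ℂ}

/-- **(E1)** at an inner `2` towards an inner `2`, the other neighbour open. -/
theorem e1_two_open (h : Zr a nl nr 1 z) (h3 : ∀ i, 3 ≤ a i → a i = 3 ∨ 4 ≤ a i) {i j k : ι}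
    (hi : a i = 2) (hij : (nl i = some j ∧ nr i = some k) ∨ (nl i = some k ∧ nr i = some j))
    (hj : a j = 2) (hjn : In2 nl nr j) (hk : 3 ≤ a k ∨ (a k = 2 ∧ In2 nl nr k)) {ρ η : ℝ}
    (h0 : Real.sinh η = Real.tan (th (z i).re (z i).im) * Real.cos ρ)
    (hρ : 29 / 100 * Real.pi ≤ ρ) :
    J6.E1All (z i).re (bw (z i) (z j)) (qe (z i) (z j)).im ρ η := by
  have hin : In2 nl nr i := by
    rcases hij with ⟨h1, h2⟩ | ⟨h1, h2⟩
    · exact ⟨_, _, h1, h2⟩
    · exact ⟨_, _, h1, h2⟩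
  have hj1 : nl i = some j ∨ nr i = some j := by
    rcases hij with ⟨h1, h2⟩ | ⟨h1, h2⟩
    · exact Or.inl h1
    · exact Or.inr h2
  have hk1 : nl i = some k ∨ nr i = some k := by
    rcases hij with ⟨h1, h2⟩ | ⟨h1, h2⟩
    · exact Or.inr h2
    · exact Or.inl h1
  obtain ⟨a1, a2, -⟩ := h.adj22 h3 hj hjn hi hin (h.N.symm i j hj1)
  rcases hk with hk | ⟨hk, hkn⟩
  · obtain ⟨sE, sv, d, n, XN, gN, EN, vN, tN, kN, C, m1, m2, m3, m4, m5, m6, q1, q2, ho⟩ :=
      h.bbx h3 hi hij (tj := false) (tk := true) (st := true) (Or.inr ⟨rfl, hj, hjn⟩)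
        (Or.inl ⟨rfl, hk⟩) (fun _ _ => ⟨a1, a2⟩) (by simp) J6.e1_23
    exact C.obE1_sound m1 m2 m3 m4 q2 ho h0 hρ
  · obtain ⟨c1, c2, -⟩ := h.adj22 h3 hk hkn hi hin (h.N.symm i k hk1)
    obtain ⟨sE, sv, d, n, XN, gN, EN, vN, tN, kN, C, m1, m2, m3, m4, m5, m6, q1, q2, ho⟩ :=
      h.bbx h3 hi hij (tj := false) (tk := false) (st := true) (Or.inr ⟨rfl, hj, hjn⟩)
        (Or.inr ⟨rfl, hk, hkn⟩) (fun _ _ => ⟨a1, a2⟩) (fun _ _ => ⟨c1, c2⟩) J6.e1_22
    exact C.obE1_sound m1 m2 m3 m4 q2 ho h0 hρ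

end Zr

end Pool.Agent.S3.E
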