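import Pool.Agent.S3.E.J6P

/-!
# Stage 3, block E: (E3) at an inner vertex with two twists towards an inner vertex with two twists
-/

set_option autoImplicit false

namespace Pool.Agent.S3.E

open Complex

namespace J6

open NI

def e3a (X h Bh y Q : N) : Bool :=
  (N.mul Bh y).le (cst 300 10000) ||
  (e3t 12890 6130 600 X h Bh y Q && (e3t 13317 6005 580 X h Bh y Q &&
  (e3t 14713 5621 550 X h Bh y Q && (e3t 15921 5319 520 X h Bh y Q &&
  (e3t 17530 4955 460 X h Bh y Q && (e3t 20411 4400 420 X h Bh y Q &&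
  (e3t 24141 3827 350 X h Bh y Q && e3t 27774 3388 300 X h Bh y Q)))))))

def obE3 (sE _sv : Bool) (X g E _v X2 _g2 t _K : N) : Bool := e3a X g (bU sE E g) (yU t) (qU X2)

theorem e3_23 (sE sv : Bool) :
    NI.bb (tst (obE3 sE sv) false true true sE sv) (cyc 8 [3, 0, 2, 1]) (rng 34 138 100)
      (rng 19 58 100) (rng 0 43 100) (rng 0 1 1) = true := by
  rcases sE with _ | _ <;> rcases sv with _ | _ <;> decide +kernel

theorem e3_22 (sE sv : Bool) :
    NI.bb (tst (obE3 sE sv) false false true sE sv) (cyc 8 [3, 0, 2, 1]) (rng 34 138 100)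
      (rng 19 58 100) (rng 0 43 100) (rng 0 1 1) = true := by
  rcases sE with _ | _ <;> rcases sv with _ | _ <;> decide +kernel

variable {sE sv : Bool} {R I τ b rj d n : ℝ}

/-- The eight values of (E3). -/
def E3All (R I b η1 ρ η0 : ℝ) : Prop :=
  (29 / 100 * Real.pi ≤ ρ → b * (η1 / 5 - 49 / 50 * (2 / Real.pi) *
    ((ρ - R) * (I - η0))) ≤ 3 / 50) ∧
  (59 / 200 * Real.pi ≤ ρ → b * (η1 / 5 - 49 / 50 * (2 / Real.pi) *
    ((ρ - R) * (I - η0))) ≤ 29 / 500) ∧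
  (31 / 100 * Real.pi ≤ ρ → b * (η1 / 5 - 49 / 50 * (2 / Real.pi) *
    ((ρ - R) * (I - η0))) ≤ 11 / 200) ∧
  (643 / 2000 * Real.pi ≤ ρ → b * (η1 / 5 - 49 / 50 * (2 / Real.pi) *
    ((ρ - R) * (I - η0))) ≤ 13 / 250) ∧
  (67 / 200 * Real.pi ≤ ρ → b * (η1 / 5 - 49 / 50 * (2 / Real.pi) *
    ((ρ - R) * (I - η0))) ≤ 23 / 500) ∧
  (71 / 200 * Real.pi ≤ ρ → b * (η1 / 5 - 49 / 50 * (2 / Real.pi) *
    ((ρ - R) * (I - η0))) ≤ 21 / 500) ∧
  (3 / 8 * Real.pi ≤ ρ → b * (η1 / 5 - 49 / 50 * (2 / Real.pi) *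
    ((ρ - R) * (I - η0))) ≤ 7 / 200) ∧
  (39 / 100 * Real.pi ≤ ρ → b * (η1 / 5 - 49 / 50 * (2 / Real.pi) *
    ((ρ - R) * (I - η0))) ≤ 3 / 100)

theorem tc0 : Real.cos (29 / 100 * Real.pi) ≤ ((6130 : ℕ) : ℝ) / 10000 ∧
    ((12890 : ℕ) : ℝ) / 10000 ≤ Real.tan (29 / 100 * Real.pi) := by
  have h1 := Real.pi_gt_d6
  have h2 := Real.pi_lt_d6
  obtain ⟨e1, e2⟩ := tc_of (ρ := 29 / 100 * Real.pi) (y := 82467 / 125000) (s := 15323 / 25000) (c := 15803 / 20000)
    (by linarith) (by linarith) (by norm_num) (by norm_num) (by norm_num) (by norm_num)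
  exact ⟨e1.trans (by norm_num), le_trans (by norm_num) e2⟩

theorem tc1 : Real.cos (59 / 200 * Real.pi) ≤ ((6005 : ℕ) : ℝ) / 10000 ∧
    ((13317 : ℕ) : ℝ) / 10000 ≤ Real.tan (59 / 200 * Real.pi) := by
  have h1 := Real.pi_gt_d6
  have h2 := Real.pi_lt_d6
  obtain ⟨e1, e2⟩ := tc_of (ρ := 59 / 200 * Real.pi) (y := 161007 / 250000) (s := 15011 / 25000) (c := 2499 / 3125)
    (by linarith) (by linarith) (by norm_num) (by norm_num) (by norm_num) (by norm_num)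
  exact ⟨e1.trans (by norm_num), le_trans (by norm_num) e2⟩

theorem tc2 : Real.cos (31 / 100 * Real.pi) ≤ ((5621 : ℕ) : ℝ) / 10000 ∧
    ((14713 : ℕ) : ℝ) / 10000 ≤ Real.tan (31 / 100 * Real.pi) := by
  have h1 := Real.pi_gt_d6
  have h2 := Real.pi_lt_d6
  obtain ⟨e1, e2⟩ := tc_of (ρ := 31 / 100 * Real.pi) (y := 74613 / 125000) (s := 56209 / 100000) (c := 82707 / 100000)
    (by linarith) (by linarith) (by norm_num) (by norm_num) (by norm_num) (by norm_num)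
  exact ⟨e1.trans (by norm_num), le_trans (by norm_num) e2⟩

theorem tc3 : Real.cos (643 / 2000 * Real.pi) ≤ ((5319 : ℕ) : ℝ) / 10000 ∧
    ((15921 : ℕ) : ℝ) / 10000 ≤ Real.tan (643 / 2000 * Real.pi) := by
  have h1 := Real.pi_gt_d6
  have h2 := Real.pi_lt_d6
  obtain ⟨e1, e2⟩ := tc_of (ρ := 643 / 2000 * Real.pi) (y := 70097 / 125000) (s := 10637 / 20000) (c := 21171 / 25000)
    (by linarith) (by linarith) (by norm_num) (by norm_num) (by norm_num) (by norm_num)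
  exact ⟨e1.trans (by norm_num), le_trans (by norm_num) e2⟩

theorem tc4 : Real.cos (67 / 200 * Real.pi) ≤ ((4955 : ℕ) : ℝ) / 10000 ∧
    ((17530 : ℕ) : ℝ) / 10000 ≤ Real.tan (67 / 200 * Real.pi) := by
  have h1 := Real.pi_gt_d6
  have h2 := Real.pi_lt_d6
  obtain ⟨e1, e2⟩ := tc_of (ρ := 67 / 200 * Real.pi) (y := 129591 / 250000) (s := 49547 / 100000) (c := 86863 / 100000)
    (by linarith) (by linarith) (by norm_num) (by norm_num) (by norm_num) (by norm_num)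
  exact ⟨e1.trans (by norm_num), le_trans (by norm_num) e2⟩

theorem tc5 : Real.cos (71 / 200 * Real.pi) ≤ ((4400 : ℕ) : ℝ) / 10000 ∧
    ((20411 : ℕ) : ℝ) / 10000 ≤ Real.tan (71 / 200 * Real.pi) := by
  have h1 := Real.pi_gt_d6
  have h2 := Real.pi_lt_d6
  obtain ⟨e1, e2⟩ := tc_of (ρ := 71 / 200 * Real.pi) (y := 113883 / 250000) (s := 8799 / 20000) (c := 44901 / 50000)
    (by linarith) (by linarith) (by norm_num) (by norm_num) (by norm_num) (by norm_num)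
  exact ⟨e1.trans (by norm_num), le_trans (by norm_num) e2⟩

theorem tc6 : Real.cos (3 / 8 * Real.pi) ≤ ((3827 : ℕ) : ℝ) / 10000 ∧
    ((24141 : ℕ) : ℝ) / 10000 ≤ Real.tan (3 / 8 * Real.pi) := by
  have h1 := Real.pi_gt_d6
  have h2 := Real.pi_lt_d6
  obtain ⟨e1, e2⟩ := tc_of (ρ := 3 / 8 * Real.pi) (y := 392701 / 1000000) (s := 38269 / 100000) (c := 92387 / 100000)
    (by linarith) (by linarith) (by norm_num) (by norm_num) (by norm_num) (by norm_num)
  exact ⟨e1.trans (by norm_num), le_trans (by norm_num) e2⟩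

theorem tc7 : Real.cos (39 / 100 * Real.pi) ≤ ((3388 : ℕ) : ℝ) / 10000 ∧
    ((27774 : ℕ) : ℝ) / 10000 ≤ Real.tan (39 / 100 * Real.pi) := by
  have h1 := Real.pi_gt_d6
  have h2 := Real.pi_lt_d6
  obtain ⟨e1, e2⟩ := tc_of (ρ := 39 / 100 * Real.pi) (y := 345577 / 1000000) (s := 16937 / 50000) (c := 11761 / 12500)
    (by linarith) (by linarith) (by norm_num) (by norm_num) (by norm_num) (by norm_num)
  exact ⟨e1.trans (by norm_num), le_trans (by norm_num) e2⟩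

theorem Cx.obE3_sound (C : Cx sE sv R I τ b rj d n) {XN gN EN vN g2N tN kN : N}
    (hX : Mem (Real.tan R) XN) (hg : Mem (Real.tanh I) gN) (hE : Mem (Real.tanh d) EN)
    (ht : Mem (τ ^ 2) tN) (gps : gN.ps = true) (ho : obE3 sE sv XN gN EN vN XN.sq g2N tN kN = true)
    {η1 ρ η0 : ℝ} (h1 : Real.sinh η1 = τ * Real.cos (2 / 5 * Real.pi))
    (h0 : Real.sinh η0 = τ * Real.cos ρ) (hρ : ρ ≤ Real.pi / 2) : E3All R I b η1 ρ η0 := by
  have hpi := Real.pi_pos
  obtain ⟨B, mB, bB, B0⟩ := C.bU_sound hE hg gps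
  obtain ⟨y, my, hy⟩ := C.yU_sound ht h1
  obtain ⟨q, mq, hq⟩ := C.qU_sound hX
  unfold obE3 e3a at ho
  rw [Bool.or_eq_true] at ho
  rcases ho with ho | ho
  · have c1 : Mem (300 / 10000 : ℝ) (cst 300 10000) := mem_nat (by norm_num) (by norm_num)
    have e1 := (mB.mul my).le c1 ho
    have key : ∀ ρ₀ : ℝ, 0 ≤ ρ₀ → ρ₀ ≤ ρ →
        b * (η1 / 5 - 49 / 50 * (2 / Real.pi) * ((ρ - R) * (I - η0))) ≤ 300 / 10000 := by
      intro ρ₀ r0 r1
      have e2 := prod_nonneg C.R0 C.R1 C.τ0.le C.hI (r0.trans r1) hρ h0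
      have e3 : 0 ≤ 49 / 50 * (2 / Real.pi) * ((ρ - R) * (I - η0)) := by positivity
      rcases le_or_gt (η1 / 5 - 49 / 50 * (2 / Real.pi) * ((ρ - R) * (I - η0))) 0 with e | e
      · exact (mul_nonpos_of_nonneg_of_nonpos C.b0.le e).trans (by norm_num)
      · exact (mul_le_mul bB (by linarith) e.le B0).trans e1
    refine ⟨?_, ?_, ?_, ?_, ?_, ?_, ?_, ?_⟩ <;> intro e <;>
      exact (key _ (by positivity) e).trans (by norm_num)
  · rw [Bool.and_eq_true, Bool.and_eq_true, Bool.and_eq_true, Bool.and_eq_true, Bool.and_eq_true,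
      Bool.and_eq_true, Bool.and_eq_true] at ho
    obtain ⟨o0, o1, o2, o3, o4, o5, o6, o7⟩ := ho
    refine ⟨?_, ?_, ?_, ?_, ?_, ?_, ?_, ?_⟩
    · intro e
      exact (C.e3t_sound hX hg mB my mq bB hy hq (by positivity) (by linarith) e hρ h0 tc0.2 tc0.1
        o0).trans (by norm_num)
    · intro e
      exact (C.e3t_sound hX hg mB my mq bB hy hq (by positivity) (by linarith) e hρ h0 tc1.2 tc1.1
        o1).trans (by norm_num)
    · intro e
      exact (C.e3t_sound hX hg mB my mq bB hy hq (by positivity) (by linarith) e hρ h0 tc2.2 tc2.1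
        o2).trans (by norm_num)
    · intro e
      exact (C.e3t_sound hX hg mB my mq bB hy hq (by positivity) (by linarith) e hρ h0 tc3.2 tc3.1
        o3).trans (by norm_num)
    · intro e
      exact (C.e3t_sound hX hg mB my mq bB hy hq (by positivity) (by linarith) e hρ h0 tc4.2 tc4.1
        o4).trans (by norm_num)
    · intro e
      exact (C.e3t_sound hX hg mB my mq bB hy hq (by positivity) (by linarith) e hρ h0 tc5.2 tc5.1
        o5).trans (by norm_num)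
    · intro e
      exact (C.e3t_sound hX hg mB my mq bB hy hq (by positivity) (by linarith) e hρ h0 tc6.2 tc6.1
        o6).trans (by norm_num)
    · intro e
      exact (C.e3t_sound hX hg mB my mq bB hy hq (by positivity) (by linarith) e hρ h0 tc7.2 tc7.1
        o7).trans (by norm_num)

end J6

namespace Zr

variable {ι : Type*} [Finite ι] {a : ι → ℝ} {nl nr : ι → Option ι} {z : ι → ℂ}

/-- **(E3)** at an inner `2` towards an inner `2`, the other neighbour open. -/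
theorem e3_two_open (h : Zr a nl nr 1 z) (h3 : ∀ i, 3 ≤ a i → a i = 3 ∨ 4 ≤ a i) {i j k : ι}
    (hi : a i = 2) (hij : (nl i = some j ∧ nr i = some k) ∨ (nl i = some k ∧ nr i = some j))
    (hj : a j = 2) (hjn : In2 nl nr j) (hk : 3 ≤ a k ∨ (a k = 2 ∧ In2 nl nr k)) {ρ η0 η1 : ℝ}
    (h1 : Real.sinh η1 = Real.tan (th (z i).re (z i).im) * Real.cos (2 / 5 * Real.pi))
    (h0 : Real.sinh η0 = Real.tan (th (z i).re (z i).im) * Real.cos ρ) (hρ : ρ ≤ Real.pi / 2) :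
    J6.E3All (z i).re (z i).im (bw (z i) (z j)) η1 ρ η0 := by
  have hin : In2 nl nr i := by
    rcases hij with ⟨h1, h2⟩ | ⟨h1, h2⟩
    · exact ⟨_, _, h1, h2⟩
    · exact ⟨_, _, h1, h2⟩
  have hj1 : nl i = some j ∨ nr i = some j := by
    rcases hij with ⟨h1, h2⟩ | ⟨h1, h2⟩
    · exact Or.inl h1
    · exact Or.inr h2
  have hk1 : nl i = some k ∨ nr i = some k := by
    rcases hij with ⟨h1, h2⟩ | ⟨h1, h2⟩
    · exact Or.inr h2
    · exact Or.inl h1
  obtain ⟨a1, a2, -⟩ := h.adj22 h3 hj hjn hi hin (h.N.symm i j hj1)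
  rcases hk with hk | ⟨hk, hkn⟩
  · obtain ⟨sE, sv, d, n, XN, gN, EN, vN, tN, kN, C, m1, m2, m3, m4, m5, m6, q1, q2, ho⟩ :=
      h.bbx h3 hi hij (tj := false) (tk := true) (st := true) (Or.inr ⟨rfl, hj, hjn⟩)
        (Or.inl ⟨rfl, hk⟩) (fun _ _ => ⟨a1, a2⟩) (by simp) J6.e3_23
    exact C.obE3_sound m1 m2 m3 m5 q2 ho h1 h0 hρ
  · obtain ⟨c1, c2, -⟩ := h.adj22 h3 hk hkn hi hin (h.N.symm i k hk1)
    obtain ⟨sE, sv, d, n, XN, gN, EN, vN, tN, kN, C, m1, m2, m3, m4, m5, m6, q1, q2, ho⟩ :=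
      h.bbx h3 hi hij (tj := false) (tk := false) (st := true) (Or.inr ⟨rfl, hj, hjn⟩)
        (Or.inr ⟨rfl, hk, hkn⟩) (fun _ _ => ⟨a1, a2⟩) (fun _ _ => ⟨c1, c2⟩) J6.e3_22
    exact C.obE3_sound m1 m2 m3 m5 q2 ho h1 h0 hρ

end Zr

end Pool.Agent.S3.E
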