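import Pool.Agent.S3.E.J6E3

/-!
# Stage 3, block E: three sharper values of (E3) at an inner vertex with two twists towards an
inner vertex with two twists, other neighbour open, for `tan² θ ≤ 5779/10000`
-/

set_option autoImplicit false

namespace Pool.Agent.S3.E

open Complex

namespace J6

open NI

def e3b (X h Bh y Q : N) : Bool :=
  (N.mul Bh y).le (cst 190 10000) ||
  (e3t 20411 4400 401 X h Bh y Q &&
  (e3t 24141 3827 294 X h Bh y Q && e3t 27774 3388 190 X h Bh y Q))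

def obE3b (sE _sv : Bool) (X g E _v X2 _g2 t _K : N) : Bool :=
  (cst 5779 10000).lt t || e3b X g (bU sE E g) (yU t) (qU X2)

theorem e3b_23 (sE sv : Bool) :
    NI.bb (tst (obE3b sE sv) false true true sE sv) (cyc 9 [3, 0, 2, 1]) (rng 34 138 100)
      (rng 19 58 100) (rng 0 43 100) (rng 0 1 1) = true := by
  rcases sE with _ | _ <;> rcases sv with _ | _ <;> decide +kernel

theorem e3b_22 (sE sv : Bool) :
    NI.bb (tst (obE3b sE sv) false false true sE sv) (cyc 9 [3, 0, 2, 1]) (rng 34 138 100)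
      (rng 19 58 100) (rng 0 43 100) (rng 0 1 1) = true := by
  rcases sE with _ | _ <;> rcases sv with _ | _ <;> decide +kernel

variable {sE sv : Bool} {R I τ b rj d n : ℝ}

/-- Three values of (E3). -/
def E3B (R I b η1 ρ η0 : ℝ) : Prop :=
  (71 / 200 * Real.pi ≤ ρ → b * (η1 / 5 - 49 / 50 * (2 / Real.pi) *
    ((ρ - R) * (I - η0))) ≤ 401 / 10000) ∧
  (3 / 8 * Real.pi ≤ ρ → b * (η1 / 5 - 49 / 50 * (2 / Real.pi) *
    ((ρ - R) * (I - η0))) ≤ 294 / 10000) ∧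
  (39 / 100 * Real.pi ≤ ρ → b * (η1 / 5 - 49 / 50 * (2 / Real.pi) *
    ((ρ - R) * (I - η0))) ≤ 190 / 10000)

theorem Cx.obE3b_sound (C : Cx sE sv R I τ b rj d n) {XN gN EN vN g2N tN kN : N}
    (hX : Mem (Real.tan R) XN) (hg : Mem (Real.tanh I) gN) (hE : Mem (Real.tanh d) EN)
    (ht : Mem (τ ^ 2) tN) (gps : gN.ps = true)
    (ho : obE3b sE sv XN gN EN vN XN.sq g2N tN kN = true) (htt : τ ^ 2 ≤ 5779 / 10000)
    {η1 ρ η0 : ℝ} (h1 : Real.sinh η1 = τ * Real.cos (2 / 5 * Real.pi))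
    (h0 : Real.sinh η0 = τ * Real.cos ρ) (hρ : ρ ≤ Real.pi / 2) : E3B R I b η1 ρ η0 := by
  have hpi := Real.pi_pos
  obtain ⟨B, mB, bB, B0⟩ := C.bU_sound hE hg gps
  obtain ⟨y, my, hy⟩ := C.yU_sound ht h1
  obtain ⟨q, mq, hq⟩ := C.qU_sound hX
  unfold obE3b at ho
  rw [Bool.or_eq_true] at ho
  rcases ho with ho | ho
  · exfalso
    have h1 := (mem_cst (n := 5779) (d := 10000) (by norm_num)).lt ht ho
    norm_num at h1
    linarith
  unfold e3b at ho
  rw [Bool.or_eq_true] at ho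
  rcases ho with ho | ho
  · have c1 : Mem (190 / 10000 : ℝ) (cst 190 10000) := mem_nat (by norm_num) (by norm_num)
    have e1 := (mB.mul my).le c1 ho
    have key : ∀ ρ₀ : ℝ, 0 ≤ ρ₀ → ρ₀ ≤ ρ →
        b * (η1 / 5 - 49 / 50 * (2 / Real.pi) * ((ρ - R) * (I - η0))) ≤ 190 / 10000 := by
      intro ρ₀ r0 r1
      have e2 := prod_nonneg C.R0 C.R1 C.τ0.le C.hI (r0.trans r1) hρ h0
      have e3 : 0 ≤ 49 / 50 * (2 / Real.pi) * ((ρ - R) * (I - η0)) := by positivity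
      rcases le_or_gt (η1 / 5 - 49 / 50 * (2 / Real.pi) * ((ρ - R) * (I - η0))) 0 with e | e
      · exact (mul_nonpos_of_nonneg_of_nonpos C.b0.le e).trans (by norm_num)
      · exact (mul_le_mul bB (by linarith) e.le B0).trans e1
    refine ⟨?_, ?_, ?_⟩ <;> intro e <;>
      exact (key _ (by positivity) e).trans (by norm_num)
  · rw [Bool.and_eq_true, Bool.and_eq_true] at ho
    obtain ⟨o5, o6, o7⟩ := ho
    refine ⟨?_, ?_, ?_⟩
    · intro e
      exact (C.e3t_sound hX hg mB my mq bB hy hq (by positivity) (by linarith) e hρ h0 tc5.2 tc5.1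
        o5).trans (by norm_num)
    · intro e
      exact (C.e3t_sound hX hg mB my mq bB hy hq (by positivity) (by linarith) e hρ h0 tc6.2 tc6.1
        o6).trans (by norm_num)
    · intro e
      exact (C.e3t_sound hX hg mB my mq bB hy hq (by positivity) (by linarith) e hρ h0 tc7.2 tc7.1
        o7).trans (by norm_num)

end J6

namespace Zr

variable {ι : Type*} [Finite ι] {a : ι → ℝ} {nl nr : ι → Option ι} {z : ι → ℂ}

/-- Three sharper values of **(E3)** at an inner `2` towards an inner `2`, the other neighbour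
open, `tan² θ ≤ 5779/10000`. -/
theorem e3b_two_open (h : Zr a nl nr 1 z) (h3 : ∀ i, 3 ≤ a i → a i = 3 ∨ 4 ≤ a i) {i j k : ι}
    (hi : a i = 2) (hij : (nl i = some j ∧ nr i = some k) ∨ (nl i = some k ∧ nr i = some j))
    (hj : a j = 2) (hjn : In2 nl nr j) (hk : 3 ≤ a k ∨ (a k = 2 ∧ In2 nl nr k)) {ρ η0 η1 : ℝ}
    (h1 : Real.sinh η1 = Real.tan (th (z i).re (z i).im) * Real.cos (2 / 5 * Real.pi))
    (h0 : Real.sinh η0 = Real.tan (th (z i).re (z i).im) * Real.cos ρ) (hρ : ρ ≤ Real.pi / 2)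
    (ht : Real.tan (th (z i).re (z i).im) ^ 2 ≤ 5779 / 10000) :
    J6.E3B (z i).re (z i).im (bw (z i) (z j)) η1 ρ η0 := by
  have hin : In2 nl nr i := by
    rcases hij with ⟨h1, h2⟩ | ⟨h1, h2⟩
    · exact ⟨_, _, h1, h2⟩
    · exact ⟨_, _, h1, h2⟩
  have hj1 : nl i = some j ∨ nr i = some j := by
    rcases hij with ⟨h1, h2⟩ | ⟨h1, h2⟩
    · exact Or.inl h1
    · exact Or.inr h2
  have hk1 : nl i = some k ∨ nr i = some k := by
    rcases hij with ⟨h1, h2⟩ | ⟨h1, h2⟩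
    · exact Or.inr h2
    · exact Or.inl h1
  obtain ⟨a1, a2, -⟩ := h.adj22 h3 hj hjn hi hin (h.N.symm i j hj1)
  rcases hk with hk | ⟨hk, hkn⟩
  · obtain ⟨sE, sv, d, n, XN, gN, EN, vN, tN, kN, C, m1, m2, m3, m4, m5, m6, q1, q2, ho⟩ :=
      h.bbx h3 hi hij (tj := false) (tk := true) (st := true) (Or.inr ⟨rfl, hj, hjn⟩)
        (Or.inl ⟨rfl, hk⟩) (fun _ _ => ⟨a1, a2⟩) (by simp) J6.e3b_23
    exact C.obE3b_sound m1 m2 m3 m5 q2 ho ht h1 h0 hρ
  · obtain ⟨c1, c2, -⟩ := h.adj22 h3 hk hkn hi hin (h.N.symm i k hk1)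
    obtain ⟨sE, sv, d, n, XN, gN, EN, vN, tN, kN, C, m1, m2, m3, m4, m5, m6, q1, q2, ho⟩ :=
      h.bbx h3 hi hij (tj := false) (tk := false) (st := true) (Or.inr ⟨rfl, hj, hjn⟩)
        (Or.inr ⟨rfl, hk, hkn⟩) (fun _ _ => ⟨a1, a2⟩) (fun _ _ => ⟨c1, c2⟩) J6.e3b_22
    exact C.obE3b_sound m1 m2 m3 m5 q2 ho ht h1 h0 hρ

end Zr

end Pool.Agent.S3.E
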