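import Pool.Agent.S3.NIF
import Pool.Agent.S3.E.J6F

/-!
# Stage 3, block E: objectives of the branch and bound, (E3), (E1) and the phase below the base
-/

set_option autoImplicit false

namespace Pool.Agent.S3.E.J6

open NI

/-! ### Tests -/

/-- upper bound of the square root: `50 t / m + m / 200`. -/
def su (m : ℕ) (t : N) : ℕ := (N.add (N.dv (N.sm 50 t) m) (cst m 200)).hi
def sqU (t : N) : ℕ := mn (mn (su 55 t) (su 65 t)) (mn (su 75 t) (su 85 t))
def sqU2 (t : N) : ℕ := mn (mn (su 130 t) (su 140 t)) (mn (su 150 t) (su 160 t))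

/-- lower bound of the square root. -/
def sl (m : ℕ) (t : N) : ℕ :=
  (N.mul (N.sm 2 t) (N.mul (cst m 100) (N.inv (N.add (cst (Nat.mul m m) 10000) t)))).lo
def sqL2 (t : N) : ℕ := mx (mx (sl 130 t) (sl 140 t)) (mx (sl 150 t) (sl 160 t))

def pt (n : ℕ) : N := ⟨n, n⟩

/-- lower bound of the arctangent: `3 y / (3 + y²)`. -/
def arB (y : N) : N := N.mul (N.sm 3 y) (N.inv (N.add (cst 3 1) y.sq))

/-- upper bound of the weight. -/
def bU (sE : Bool) (E h : N) : N := bif sE then pt (N.add one (N.mul E h.inv)).hi else one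
/-- upper bound of `η₁ / 5`. -/
def yU (t : N) : N := N.dv (N.mul (cst 3091 10000) (pt (sqU t))) 5
/-- upper bound of `1 / cos R`. -/
def qU (X2 : N) : N := pt (sqU2 (N.add one X2))

def secT (tn cn : ℕ) (X h Q : N) : N :=
  N.mul (N.mul (cst 6238 10000) (arB (N.mul (N.sub (cst tn 10000) X)
    (N.inv (N.add one (N.mul (cst tn 10000) X))))))
    (N.mul h (N.sub one (N.mul (cst cn 10000) Q)))

/-- (E3) at one base point. -/
def e3t (tn cn tg : ℕ) (X h Bh y Q : N) : Bool :=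
  (N.mul Bh y).le (N.add (cst tg 10000) (N.mul Bh (secT tn cn X h Q)))

def bigU (X : N) : N := N.mul (N.sub X one) (N.inv (N.add X one))
def bigL (X : N) : N := N.mul (N.sub one X) (N.inv (N.add X one))

/-- (E1) for one value `sn / 1000` of `S2 / T`, constant `1 + cn / 3000`. -/
def e1t (sE sv : Bool) (sn cn : ℕ) (X v e : N) : Bool :=
  N.le (N.add (bif sv then v else cst 0 1)
    (bif sE then N.mul e (N.sub (cst sn 1000) (N.sub (cst 7853 10000) (bigU X)))
      else N.mul e (N.sub (N.add (cst 7854 10000) (bigL X)) (cst sn 1000))))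
    (N.mul (cst cn 3000) (cst sn 1000))

def bLo (sE : Bool) (E h : N) : N := bif sE then one else N.sub one (N.mul E h.inv)

/-- The phase below the base point. -/
def bpt (sE : Bool) (tn cn ccn tg : ℕ) (X h E X2 t : N) : Bool :=
  (cst tg 10000).le (N.mul (N.mul (N.mul (cst 6238 10000) (bLo sE E h))
    (arB (N.mul (N.sub X (cst tn 10000)) (N.inv (N.add one (N.mul (cst tn 10000) X))))))
    (N.mul (N.mul h (N.sub (N.mul (cst cn 10000) (pt (sqL2 (N.add one X2)))) one))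
      (N.mul (N.sm 2 (N.add one (N.mul t (N.inv (N.add one X2)))))
        (N.inv (N.add (cst 2 1) (N.mul t (N.add (cst ccn 10000) (N.inv (N.add one X2)))))))))

/-! ### Bounds of intervals -/

/-- `n` is an upper bound. -/
theorem mem_pt (n : ℕ) : Mem ((n : ℝ) / 1073741824) (pt n) := by
  constructor
  · show (n : ℝ) ≤ _
    rw [div_mul_cancel₀ _ (by norm_num)]
  · show _ ≤ (n : ℝ)
    rw [div_mul_cancel₀ _ (by norm_num)]

theorem pt_hi {x : ℝ} {A : N} (h : Mem x A) : x ≤ (A.hi : ℝ) / 1073741824 := by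
  rw [le_div_iff₀ (by norm_num)]; exact h.2

theorem pt_lo {x : ℝ} {A : N} (h : Mem x A) : (A.lo : ℝ) / 1073741824 ≤ x := by
  rw [div_le_iff₀ (by norm_num)]; exact h.1

/-- The truncated difference. -/
theorem mem_subp {x y : ℝ} {A B : N} (h1 : Mem x A) (h2 : Mem y B) :
    Mem (max (x - y) 0) (N.sub A B) := by
  rcases le_total y x with h | h
  · rw [max_eq_left (by linarith)]
    exact h1.sub h2 h
  · rw [max_eq_right (by linarith)]
    constructor
    · show ((Nat.sub A.lo B.hi : ℕ) : ℝ) ≤ _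
      have e : Nat.sub A.lo B.hi = 0 := by
        apply Nat.sub_eq_zero_of_le
        have : (A.lo : ℝ) ≤ B.hi := by
          have a1 := h1.1
          have b1 := h2.2
          nlinarith
        exact_mod_cast this
      rw [e]
      norm_num
    · have : (0 : ℝ) ≤ ((N.sub A B).hi : ℝ) := Nat.cast_nonneg _
      linarith

theorem su_sound {m : ℕ} (hm : 0 < m) {t : ℝ} {A : N} (h : Mem t A) (t0 : 0 ≤ t) :
    √t ≤ (su m A : ℝ) / 1073741824 := by
  have hm' : (0 : ℝ) < m := by exact_mod_cast hm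
  have h1 : Mem (50 * t / m + m / 200) (N.add (N.dv (N.sm 50 A) m) (cst m 200)) := by
    refine Mem.add ?_ ?_
    · have := (h.sm 50).dv hm
      push_cast at this
      exact this
    · have := mem_cst (n := m) (d := 200) (by norm_num)
      push_cast at this
      exact this
  refine le_trans ?_ (pt_hi h1)
  have h2 := Real.sq_sqrt t0
  have h3 : 0 ≤ (100 * √t - m) ^ 2 := sq_nonneg _
  rw [div_add_div _ _ hm'.ne' (by norm_num), le_div_iff₀ (by positivity)]
  nlinarith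

theorem mn_pt {a b : ℕ} {x : ℝ} (h1 : x ≤ (a : ℝ) / 1073741824) (h2 : x ≤ (b : ℝ) / 1073741824) :
    x ≤ (mn a b : ℝ) / 1073741824 := by
  unfold mn
  rcases Nat.ble a b with _ | _
  · exact h2
  · exact h1

theorem mx_pt {a b : ℕ} {x : ℝ} (h1 : (a : ℝ) / 1073741824 ≤ x) (h2 : (b : ℝ) / 1073741824 ≤ x) :
    (mx a b : ℝ) / 1073741824 ≤ x := by
  rcases mx_cases a b with e | e <;> rw [e]
  · exact h1
  · exact h2

theorem sqU_sound {t : ℝ} {A : N} (h : Mem t A) (t0 : 0 ≤ t) :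
    √t ≤ (sqU A : ℝ) / 1073741824 :=
  mn_pt (mn_pt (su_sound (by norm_num) h t0) (su_sound (by norm_num) h t0))
    (mn_pt (su_sound (by norm_num) h t0) (su_sound (by norm_num) h t0))

theorem sqU2_sound {t : ℝ} {A : N} (h : Mem t A) (t0 : 0 ≤ t) :
    √t ≤ (sqU2 A : ℝ) / 1073741824 :=
  mn_pt (mn_pt (su_sound (by norm_num) h t0) (su_sound (by norm_num) h t0))
    (mn_pt (su_sound (by norm_num) h t0) (su_sound (by norm_num) h t0))

theorem sl_sound {m : ℕ} (hm : 0 < m) {t : ℝ} {A : N} (h : Mem t A) (t0 : 0 < t)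
    (hps : (cst (Nat.mul m m) 10000).ps = true) :
    (sl m A : ℝ) / 1073741824 ≤ √t := by
  have hm' : (0 : ℝ) < m := by exact_mod_cast hm
  have h1 : Mem ((2 * t) * ((m / 100) * (((m : ℝ) * m) / 10000 + t)⁻¹))
      (N.mul (N.sm 2 A) (N.mul (cst m 100) (N.inv (N.add (cst (Nat.mul m m) 10000) A)))) := by
    refine Mem.mul ?_ (Mem.mul ?_ (Mem.inv (Mem.add ?_ h) (ps_add_left hps)))
    · have := h.sm 2
      push_cast at this
      exact this
    · have := mem_cst (n := m) (d := 100) (by norm_num)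
      push_cast at this
      exact this
    · have := mem_cst (n := Nat.mul m m) (d := 10000) (by norm_num)
      have e : ((Nat.mul m m : ℕ) : ℝ) = (m : ℝ) * m := by
        show ((m * m : ℕ) : ℝ) = _
        push_cast; ring
      rw [e] at this
      push_cast at this
      exact this
  refine (pt_lo h1).trans ?_
  have h2 := Real.sq_sqrt t0.le
  have h4 := Real.sqrt_pos.2 t0
  have h3 : 0 ≤ (√t - m / 100) ^ 2 := sq_nonneg _
  have h5 : 0 < ((m : ℝ) * m) / 10000 + t := by positivity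
  rw [← mul_assoc, ← div_eq_mul_inv, div_le_iff₀ h5]
  have h6 : 2 * t * (m / 100) = √t * (2 * √t * (m / 100)) := by
    linear_combination (-(2 * (m / 100 : ℝ))) * h2
  rw [h6]
  refine mul_le_mul_of_nonneg_left ?_ h4.le
  nlinarith

theorem sqL2_sound {t : ℝ} {A : N} (h : Mem t A) (t0 : 0 < t) :
    (sqL2 A : ℝ) / 1073741824 ≤ √t :=
  mx_pt (mx_pt (sl_sound (by norm_num) h t0 (by decide +kernel))
    (sl_sound (by norm_num) h t0 (by decide +kernel)))
    (mx_pt (sl_sound (by norm_num) h t0 (by decide +kernel))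
    (sl_sound (by norm_num) h t0 (by decide +kernel)))

theorem mem_arB {y : ℝ} {A : N} (h : Mem y A) : Mem (3 * y * (3 + y ^ 2)⁻¹) (arB A) := by
  unfold arB
  refine Mem.mul ?_ (Mem.inv (Mem.add ?_ h.sq) (ps_add_left (by decide +kernel)))
  · have := h.sm 3
    push_cast at this
    exact this
  · exact mem_nat (by norm_num) (by norm_num)

/-! ### Real inequalities -/

/-- `3 u / (3 + u²) ≤ arctan u`. -/
theorem arctan_ge {u : ℝ} (hu : 0 ≤ u) : 3 * u * (3 + u ^ 2)⁻¹ ≤ Real.arctan u := by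
  refine le_trans ?_ (NI.le_arctan hu)
  rw [← div_eq_mul_inv, div_le_div_iff₀ (by positivity) (by positivity)]
  have h4 : 0 ≤ u ^ 5 := by positivity
  nlinarith

theorem angle_ge {α a : ℝ} (h0 : 0 ≤ α) (h1 : α < Real.pi / 2) (ha : 0 ≤ a) (h : a ≤ Real.tan α) :
    3 * a * (3 + a ^ 2)⁻¹ ≤ α := by
  refine (arctan_ge ha).trans ?_
  have h2 := Real.arctan_mono h
  rwa [Real.arctan_tan (by linarith) h1] at h2

/-- `sinh x - sinh y ≤ (x - y) cosh x`. -/
theorem sinh_sub_le {x y : ℝ} (hy : 0 ≤ y) (h : y ≤ x) :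
    Real.sinh x - Real.sinh y ≤ (x - y) * Real.cosh x := by
  rcases h.eq_or_lt with e | e
  · rw [e]; simp
  · obtain ⟨c, hc, hc'⟩ := exists_hasDerivAt_eq_slope Real.sinh Real.cosh e
      Real.continuous_sinh.continuousOn (fun x _ => Real.hasDerivAt_sinh x)
    have h1 : Real.cosh c ≤ Real.cosh x := by
      rw [Real.cosh_le_cosh, abs_of_nonneg (by linarith [hc.1]), abs_of_nonneg (by linarith)]
      exact hc.2.le
    have h2 : 0 < x - y := by linarith
    rw [eq_div_iff h2.ne'] at hc'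
    nlinarith

/-- `(ρ - R) (I - η) ≥ 0`. -/
theorem prod_nonneg {R I τ ρ η : ℝ} (R0 : 0 < R) (R1 : R < Real.pi / 2) (τ0 : 0 ≤ τ)
    (hI : Real.sinh I = τ * Real.cos R) (ρ0 : 0 ≤ ρ) (ρ1 : ρ ≤ Real.pi / 2)
    (hη : Real.sinh η = τ * Real.cos ρ) : 0 ≤ (ρ - R) * (I - η) := by
  rcases le_total R ρ with h | h
  · have h1 : Real.cos ρ ≤ Real.cos R :=
      Real.cos_le_cos_of_nonneg_of_le_pi R0.le (by linarith [Real.pi_pos]) h
    have h2 : Real.sinh η ≤ Real.sinh I := by
      rw [hη, hI]; exact mul_le_mul_of_nonneg_left h1 τ0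
    have h3 := Real.sinh_le_sinh.1 h2
    exact mul_nonneg (by linarith) (by linarith)
  · have h1 : Real.cos R ≤ Real.cos ρ :=
      Real.cos_le_cos_of_nonneg_of_le_pi ρ0 (by linarith [Real.pi_pos]) h
    have h2 : Real.sinh I ≤ Real.sinh η := by
      rw [hη, hI]; exact mul_le_mul_of_nonneg_left h1 τ0
    have h3 := Real.sinh_le_sinh.1 h2
    exact mul_nonneg_of_nonpos_of_nonpos (by linarith) (by linarith)

/-- Lower bound of the second term of (E3). -/
theorem sec_le {R I τ ρ η ρ₀ u c q : ℝ} (R0 : 0 < R) (R1 : R < Real.pi / 2) (I0 : 0 < I)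
    (τ0 : 0 ≤ τ) (hI : Real.sinh I = τ * Real.cos R) (hρ₀ : 0 < ρ₀) (hρ : ρ₀ ≤ ρ)
    (ρ1 : ρ ≤ Real.pi / 2) (hρ1 : ρ₀ < Real.pi / 2) (hη : Real.sinh η = τ * Real.cos ρ)
    (u0 : 0 ≤ u) (hu : u ≤ Real.tan ρ₀) (hc : Real.cos ρ₀ ≤ c) (hq : 1 / Real.cos R ≤ q) :
    6238 / 10000 * (3 * (max (u - Real.tan R) 0 * (1 + u * Real.tan R)⁻¹) *
      (3 + (max (u - Real.tan R) 0 * (1 + u * Real.tan R)⁻¹) ^ 2)⁻¹) *
      (Real.tanh I * max (1 - c * q) 0) ≤
    49 / 50 * (2 / Real.pi) * ((ρ - R) * (I - η)) := by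
  have hpi := Real.pi_pos
  have hpi2 := Real.pi_lt_d6
  have cR := GeoX_cos_pos R0 R1
  have X0 : 0 < Real.tan R := Real.tan_pos_of_pos_of_lt_pi_div_two R0 R1
  have hprod := prod_nonneg R0 R1 τ0 hI (by linarith) ρ1 hη
  have hκ : (6238 / 10000 : ℝ) ≤ 49 / 50 * (2 / Real.pi) := by
    rw [mul_div_assoc', le_div_iff₀ hpi]
    linarith
  have hrhs : 0 ≤ 49 / 50 * (2 / Real.pi) * ((ρ - R) * (I - η)) := by positivity
  rcases le_or_gt u (Real.tan R) with h | h
  · rw [max_eq_right (by linarith : u - Real.tan R ≤ 0)]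
    simpa using hrhs
  rcases le_or_gt (1 - c * q) 0 with h' | h'
  · rw [max_eq_right h']
    simpa using hrhs
  rw [max_eq_left (by linarith), max_eq_left h'.le]
  have hRρ : R < ρ₀ := by
    by_contra hcon
    push Not at hcon
    have : Real.tan ρ₀ ≤ Real.tan R := by
      rcases hcon.eq_or_lt with e | e
      · rw [e]
      · exact (Real.tan_lt_tan_of_nonneg_of_lt_pi_div_two hρ₀.le R1 e).le
    linarith
  have T0 : 0 < Real.tan ρ₀ := Real.tan_pos_of_pos_of_lt_pi_div_two hρ₀ hρ1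
  have cρ₀ := GeoX_cos_pos hρ₀ hρ1
  -- the angle
  have a1 : 3 * ((u - Real.tan R) * (1 + u * Real.tan R)⁻¹) *
      (3 + ((u - Real.tan R) * (1 + u * Real.tan R)⁻¹) ^ 2)⁻¹ ≤ ρ - R := by
    refine (angle_ge (α := ρ₀ - R) (by linarith) (by linarith) (by
      have : 0 ≤ u - Real.tan R := by linarith
      positivity) ?_).trans (by linarith)
    have c3 : 0 < Real.cos (ρ₀ - R) := Real.cos_pos_of_mem_Ioo ⟨by linarith, by linarith⟩
    have e : Real.tan (ρ₀ - R) = (Real.tan ρ₀ - Real.tan R) / (1 + Real.tan ρ₀ * Real.tan R) := by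
      rw [Real.cos_sub] at c3
      have h1 : 0 < 1 + Real.tan ρ₀ * Real.tan R := by positivity
      rw [Real.tan_eq_sin_div_cos (ρ₀ - R), Real.sin_sub, Real.cos_sub,
        div_eq_div_iff c3.ne' h1.ne', Real.tan_eq_sin_div_cos, Real.tan_eq_sin_div_cos]
      field_simp
    rw [e, ← div_eq_mul_inv, div_le_div_iff₀ (by positivity) (by positivity)]
    nlinarith [mul_nonneg (sub_nonneg.2 hu) (sq_nonneg (Real.tan R))]
  -- the height
  have cρ : Real.cos ρ ≤ Real.cos ρ₀ :=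
    Real.cos_le_cos_of_nonneg_of_le_pi hρ₀.le (by linarith) hρ
  have cρ0 : 0 ≤ Real.cos ρ := Real.cos_nonneg_of_mem_Icc ⟨by linarith, ρ1⟩
  have η0 : 0 ≤ η := by
    have : 0 ≤ Real.sinh η := by rw [hη]; positivity
    exact Real.sinh_nonneg_iff.1 this
  have hηI : η ≤ I := by
    have : Real.sinh η ≤ Real.sinh I := by
      rw [hη, hI]
      exact mul_le_mul_of_nonneg_left
        (Real.cos_le_cos_of_nonneg_of_le_pi R0.le (by linarith) (by linarith)) τ0
    exact Real.sinh_le_sinh.1 this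
  have h2 := sinh_sub_le η0 hηI
  have shI : 0 < Real.sinh I := Real.sinh_pos_iff.2 I0
  have chI := Real.cosh_pos I
  have τ1 : 0 < τ := by
    rcases τ0.eq_or_lt with e | e
    · rw [← e, zero_mul] at hI; linarith
    · exact e
  have a2 : Real.tanh I * (1 - c * q) ≤ I - η := by
    have h3 : Real.tanh I * (1 - c * q) ≤ (Real.sinh I - Real.sinh η) / Real.cosh I := by
      rw [Real.tanh_eq_sinh_div_cosh, div_mul_eq_mul_div]
      refine div_le_div_of_nonneg_right ?_ chI.le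
      have h4 : Real.cos ρ ≤ c * q * Real.cos R := by
        have h5 : 1 ≤ q * Real.cos R := by rwa [div_le_iff₀ cR] at hq
        have h6 : 0 ≤ c := cρ₀.le.trans hc
        nlinarith
      rw [hη, hI]
      nlinarith
    refine h3.trans ?_
    rw [div_le_iff₀ chI]
    exact h2
  have b1 : 0 ≤ 3 * ((u - Real.tan R) * (1 + u * Real.tan R)⁻¹) *
      (3 + ((u - Real.tan R) * (1 + u * Real.tan R)⁻¹) ^ 2)⁻¹ := by
    have : 0 ≤ u - Real.tan R := by linarith
    positivity
  have b2 : 0 ≤ Real.tanh I * (1 - c * q) := mul_nonneg (th_pos I0).le h'.le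
  calc _ ≤ 6238 / 10000 * ((ρ - R) * (I - η)) := by
        rw [mul_assoc]
        refine mul_le_mul_of_nonneg_left ?_ (by norm_num)
        exact mul_le_mul a1 a2 b2 (by linarith)
    _ ≤ _ := mul_le_mul_of_nonneg_right hκ hprod

/-! ### Soundness -/

/-- The variables at a vertex: `τ = tan θ`, `b` the weight and `rj` the angle of the slot. -/
structure Cx (sE sv : Bool) (R I τ b rj d n : ℝ) : Prop where
  R0 : 0 < R
  R1 : R < Real.pi / 2
  I0 : 0 < I
  τ0 : 0 < τ
  τ1 : τ ≤ 1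
  hI : Real.sinh I = τ * Real.cos R
  d0 : 0 ≤ d
  dI : d < I
  n0 : 0 ≤ n
  nR : n < R
  Rn : R + n < Real.pi / 2
  hb : b * I = I + (bif sE then d else -d)
  hr : rj = Real.pi / 2 - R + (bif sv then n else -n)

variable {sE sv : Bool} {R I τ b rj d n : ℝ}

theorem Cx.b0 (C : Cx sE sv R I τ b rj d n) : 0 < b := by
  have h1 := C.hb
  have h2 := C.dI
  have h3 := C.d0
  have h4 := C.I0
  have h5 : 0 < b * I := by
    rcases sE with _ | _
    · rw [cond_false] at h1; linarith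
    · rw [cond_true] at h1; linarith
  exact (pos_iff_pos_of_mul_pos h5).2 h4

/-- `|b - 1| ≤ E / g`. -/
theorem Cx.ratio (C : Cx sE sv R I τ b rj d n) : d / I ≤ Real.tanh d * (Real.tanh I)⁻¹ := by
  have h4 := C.I0
  have h5 := th_pos h4
  have h6 := th_ratio C.d0 C.dI.le h4
  rw [← div_eq_mul_inv, div_le_div_iff₀ h4 h5]
  linarith

theorem Cx.b_eq (C : Cx sE sv R I τ b rj d n) : b = 1 + (bif sE then d / I else -(d / I)) := by
  have h1 := C.hb
  have h4 := C.I0.ne'
  rcases sE with _ | _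
  · rw [cond_false] at h1 ⊢
    field_simp
    linarith
  · rw [cond_true] at h1 ⊢
    field_simp
    linarith

theorem Cx.bU_sound (C : Cx sE sv R I τ b rj d n) {EN gN : N} (hE : Mem (Real.tanh d) EN)
    (hg : Mem (Real.tanh I) gN) (hps : gN.ps = true) :
    ∃ B, Mem B (bU sE EN gN) ∧ b ≤ B ∧ 0 ≤ B := by
  have h1 := C.b_eq
  have h2 := C.ratio
  have h3 : 0 ≤ d / I := div_nonneg C.d0 C.I0.le
  unfold bU
  rcases sE with _ | _
  · rw [cond_false] at h1 ⊢
    exact ⟨1, mem_one, by linarith, by norm_num⟩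
  · rw [cond_true] at h1 ⊢
    have h5 := mem_one.add (hE.mul (hg.inv hps))
    have h6 := pt_hi h5
    exact ⟨_, mem_pt _, by linarith, by positivity⟩

theorem cos_25 : Real.cos (2 / 5 * Real.pi) ≤ 3091 / 10000 := by
  have h : Real.cos (2 / 5 * Real.pi) = 2 * Real.cos (Real.pi / 5) ^ 2 - 1 := by
    rw [← Real.cos_two_mul]; congr 1; ring
  have h10 : √5 ≤ 2237 / 1000 := Real.sqrt_le_iff.2 ⟨by norm_num, by norm_num⟩
  have h11 : √5 ^ 2 = 5 := Real.sq_sqrt (by norm_num)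
  rw [h, Real.cos_pi_div_five]
  have h12 : √5 ≤ 22362 / 10000 := Real.sqrt_le_iff.2 ⟨by norm_num, by norm_num⟩
  nlinarith

theorem Cx.yU_sound (C : Cx sE sv R I τ b rj d n) {tN : N} (ht : Mem (τ ^ 2) tN) {η : ℝ}
    (hη : Real.sinh η = τ * Real.cos (2 / 5 * Real.pi)) : ∃ y, Mem y (yU tN) ∧ η / 5 ≤ y := by
  have hpi := Real.pi_pos
  have h1 := sqU_sound ht (sq_nonneg τ)
  rw [Real.sqrt_sq C.τ0.le] at h1
  have c0 : 0 ≤ Real.cos (2 / 5 * Real.pi) :=
    Real.cos_nonneg_of_mem_Icc ⟨by linarith, by linarith⟩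
  have η0 : 0 ≤ η := by
    have : 0 ≤ Real.sinh η := by rw [hη]; exact mul_nonneg C.τ0.le c0
    exact Real.sinh_nonneg_iff.1 this
  have h2 : η ≤ Real.sinh η := Real.self_le_sinh_iff.2 η0
  refine ⟨3091 / 10000 * ((sqU tN : ℝ) / 1073741824) / 5, ?_, ?_⟩
  · have c1 : Mem (3091 / 10000 : ℝ) (cst 3091 10000) := mem_nat (by norm_num) (by norm_num)
    have := Mem.dv (n := 5) (by norm_num) (c1.mul (mem_pt (sqU tN)))
    push_cast at this
    exact this
  · have h3 : τ * Real.cos (2 / 5 * Real.pi) ≤ 3091 / 10000 * ((sqU tN : ℝ) / 1073741824) := by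
      have := cos_25
      have h4 := C.τ0
      nlinarith
    linarith

theorem Cx.qU_sound (C : Cx sE sv R I τ b rj d n) {XN : N} (hX : Mem (Real.tan R) XN) :
    ∃ q, Mem q (qU XN.sq) ∧ 1 / Real.cos R ≤ q := by
  have cR := GeoX_cos_pos C.R0 C.R1
  have h1 := sqU2_sound (mem_one.add hX.sq) (by positivity)
  refine ⟨_, mem_pt _, ?_⟩
  have h2 : √(1 + Real.tan R ^ 2) = 1 / Real.cos R := by
    have h3 := tan_sq_inv cR.ne'
    have h4 : 1 + Real.tan R ^ 2 = (1 / Real.cos R) ^ 2 := by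
      rw [← inv_inv (1 + Real.tan R ^ 2), h3]
      field_simp
    rw [h4, Real.sqrt_sq (by positivity)]
  rw [h2] at h1
  exact h1

/-- **(E3) at one base point.** -/
theorem Cx.e3t_sound (C : Cx sE sv R I τ b rj d n) {tn cn tg : ℕ} {XN gN Bh yN qN : N} {B y q : ℝ}
    (hX : Mem (Real.tan R) XN) (hg : Mem (Real.tanh I) gN) (hB : Mem B Bh) (hy : Mem y yN)
    (hq : Mem q qN) (bB : b ≤ B) {η1 ρ₀ ρ η0 : ℝ} (h1 : η1 / 5 ≤ y) (hq1 : 1 / Real.cos R ≤ q)
    (hρ₀ : 0 < ρ₀) (hρ1 : ρ₀ < Real.pi / 2) (hρ : ρ₀ ≤ ρ) (ρ1 : ρ ≤ Real.pi / 2)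
    (hη : Real.sinh η0 = τ * Real.cos ρ) (hu : (tn : ℝ) / 10000 ≤ Real.tan ρ₀)
    (hc : Real.cos ρ₀ ≤ (cn : ℝ) / 10000) (h : e3t tn cn tg XN gN Bh yN qN = true) :
    b * (η1 / 5 - 49 / 50 * (2 / Real.pi) * ((ρ - R) * (I - η0))) ≤ (tg : ℝ) / 10000 := by
  have b0 := C.b0
  have X0 : 0 < Real.tan R := Real.tan_pos_of_pos_of_lt_pi_div_two C.R0 C.R1
  have hs := sec_le C.R0 C.R1 C.I0 C.τ0.le C.hI hρ₀ hρ ρ1 hρ1 hη (by positivity) hu hc hq1
  have m1 : Mem (max ((tn : ℝ) / 10000 - Real.tan R) 0 *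
      (1 + (tn : ℝ) / 10000 * Real.tan R)⁻¹) (N.mul (N.sub (cst tn 10000) XN)
      (N.inv (N.add one (N.mul (cst tn 10000) XN)))) := by
    have c1 : Mem ((tn : ℝ) / 10000) (cst tn 10000) := by
      have := mem_cst (n := tn) (d := 10000) (by norm_num)
      push_cast at this
      exact this
    exact (mem_subp c1 hX).mul ((mem_one.add (c1.mul hX)).inv (ps_one_add _))
  have m2 : Mem (max (1 - (cn : ℝ) / 10000 * q) 0) (N.sub one (N.mul (cst cn 10000) qN)) := by
    have c1 : Mem ((cn : ℝ) / 10000) (cst cn 10000) := by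
      have := mem_cst (n := cn) (d := 10000) (by norm_num)
      push_cast at this
      exact this
    exact mem_subp mem_one (c1.mul hq)
  have c3 : Mem (6238 / 10000 : ℝ) (cst 6238 10000) := mem_nat (by norm_num) (by norm_num)
  have m3 := (c3.mul (mem_arB m1)).mul (hg.mul m2)
  have c2 : Mem ((tg : ℝ) / 10000) (cst tg 10000) := by
    have := mem_cst (n := tg) (d := 10000) (by norm_num)
    push_cast at this
    exact this
  have key := (hB.mul hy).le (c2.add (hB.mul m3)) h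
  have tg0 : (0 : ℝ) ≤ (tg : ℝ) / 10000 := by positivity
  rcases le_or_gt (η1 / 5 - 49 / 50 * (2 / Real.pi) * ((ρ - R) * (I - η0))) 0 with e | e
  · exact (mul_nonpos_of_nonneg_of_nonpos b0.le e).trans tg0
  · refine (mul_le_mul_of_nonneg_right bB e.le).trans ?_
    have B0 : 0 ≤ B := b0.le.trans bB
    refine (mul_le_mul_of_nonneg_left (sub_le_sub h1 hs) B0).trans ?_
    rw [mul_sub]
    linarith

theorem angle_up {R : ℝ} (R0 : 0 < R) (R1 : R < Real.pi / 2) :
    R ≤ Real.pi / 4 + max (Real.tan R - 1) 0 * (Real.tan R + 1)⁻¹ := by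
  have X0 : 0 < Real.tan R := Real.tan_pos_of_pos_of_lt_pi_div_two R0 R1
  have hpi := Real.pi_pos
  rcases le_or_gt R (Real.pi / 4) with h | h
  · have : 0 ≤ max (Real.tan R - 1) 0 * (Real.tan R + 1)⁻¹ :=
      mul_nonneg (le_max_right _ _) (by positivity)
    linarith
  · have h1 : R - Real.pi / 4 ≤ Real.tan (R - Real.pi / 4) :=
      Real.le_tan (by linarith) (by linarith)
    have h2 : Real.tan (R - Real.pi / 4) = (Real.tan R - 1) * (Real.tan R + 1)⁻¹ := by
      have h3 := cR_eq (R := R) (n := Real.pi / 4) R0 R1 (by linarith) h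
      rw [Real.tan_pi_div_two_sub, inv_inv, cR, Real.tan_pi_div_four] at h3
      rw [← h3]
      ring
    have h3 : 0 ≤ (Real.tan R - 1) * (Real.tan R + 1)⁻¹ := by
      rw [← h2]; linarith
    have h4 : 0 ≤ Real.tan R - 1 := by
      by_contra hcon
      push Not at hcon
      have : (Real.tan R - 1) * (Real.tan R + 1)⁻¹ < 0 :=
        mul_neg_of_neg_of_pos (by linarith) (by positivity)
      linarith
    rw [max_eq_left h4]
    linarith

theorem angle_lo {R : ℝ} (R0 : 0 < R) (R1 : R < Real.pi / 2) :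
    Real.pi / 2 - R ≤ Real.pi / 4 + max (1 - Real.tan R) 0 * (Real.tan R + 1)⁻¹ := by
  have X0 : 0 < Real.tan R := Real.tan_pos_of_pos_of_lt_pi_div_two R0 R1
  have h := angle_up (R := Real.pi / 2 - R) (by linarith) (by linarith)
  rw [Real.tan_pi_div_two_sub] at h
  refine h.trans (le_of_eq ?_)
  have e : max ((Real.tan R)⁻¹ - 1) 0 = max (1 - Real.tan R) 0 * (Real.tan R)⁻¹ := by
    rcases le_total (Real.tan R) 1 with h1 | h1
    · rw [max_eq_left (by have := one_le_inv₀ X0 |>.2 h1; linarith), max_eq_left (by linarith)]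
      field_simp
    · rw [max_eq_right (by have := inv_le_one_of_one_le₀ h1; linarith), max_eq_right (by linarith)]
      ring
  rw [e]
  have e2 : ((Real.tan R)⁻¹ + 1)⁻¹ = Real.tan R * (Real.tan R + 1)⁻¹ := by
    field_simp
    ring
  rw [e2]
  field_simp

/-- (E1) at one value of `S2 / T`. -/
theorem Cx.e1t_sound (C : Cx sE sv R I τ b rj d n) {sn cn : ℕ} {XN vN eN : N}
    (hX : Mem (Real.tan R) XN) (hv : Mem (Real.tan n) vN)
    (he : Mem (Real.tanh d * (Real.tanh I)⁻¹) eN) (h : e1t sE sv sn cn XN vN eN = true) :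
    (rj - (Real.pi / 2 - R)) + (b - 1) * ((sn : ℝ) / 1000 - (Real.pi / 2 - R)) ≤
      (cn : ℝ) / 3000 * ((sn : ℝ) / 1000) := by
  have X0 : 0 < Real.tan R := Real.tan_pos_of_pos_of_lt_pi_div_two C.R0 C.R1
  have r1 := angle_up C.R0 C.R1
  have r2 := angle_lo C.R0 C.R1
  have hpi := Real.pi_gt_d6
  have hpi' := Real.pi_lt_d6
  have cs : Mem ((sn : ℝ) / 1000) (cst sn 1000) := by
    have := mem_cst (n := sn) (d := 1000) (by norm_num)
    push_cast at this
    exact this
  have cc : Mem ((cn : ℝ) / 3000) (cst cn 3000) := by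
    have := mem_cst (n := cn) (d := 3000) (by norm_num)
    push_cast at this
    exact this
  have hXp : (N.add XN one).ps = true := by
    show Nat.ble 1 (XN.lo + 1073741824) = true
    rw [Nat.ble_eq]
    omega
  have mU : Mem (max (Real.tan R - 1) 0 * (Real.tan R + 1)⁻¹) (bigU XN) :=
    (mem_subp hX mem_one).mul ((hX.add mem_one).inv hXp)
  have mL : Mem (max (1 - Real.tan R) 0 * (Real.tan R + 1)⁻¹) (bigL XN) :=
    (mem_subp mem_one hX).mul ((hX.add mem_one).inv hXp)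
  have c1 : Mem (7853 / 10000 : ℝ) (cst 7853 10000) := mem_nat (by norm_num) (by norm_num)
  have c2 : Mem (7854 / 10000 : ℝ) (cst 7854 10000) := mem_nat (by norm_num) (by norm_num)
  have m1 := mem_subp cs (mem_subp c1 mU)
  have m2 := mem_subp (c2.add mL) cs
  have mv : Mem (bif sv then Real.tan n else 0) (bif sv then vN else cst 0 1) := by
    rcases sv with _ | _
    · rw [cond_false, cond_false]
      exact mem_nat (by norm_num) (by norm_num)
    · rw [cond_true, cond_true]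
      exact hv
  have hν : rj - (Real.pi / 2 - R) ≤ bif sv then Real.tan n else 0 := by
    have h1 := C.hr
    have h2 := C.n0
    rcases sv with _ | _
    · rw [cond_false] at h1 ⊢
      linarith
    · rw [cond_true] at h1 ⊢
      have h3 : n ≤ Real.tan n := Real.le_tan h2 (by linarith [C.nR, C.R1])
      linarith
  obtain ⟨U, hU⟩ : ∃ U, U = max (Real.tan R - 1) 0 * (Real.tan R + 1)⁻¹ := ⟨_, rfl⟩
  obtain ⟨L, hL⟩ : ∃ L, L = max (1 - Real.tan R) 0 * (Real.tan R + 1)⁻¹ := ⟨_, rfl⟩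
  rw [← hU] at m1 r1
  rw [← hL] at m2 r2
  have hbe := C.b_eq
  have hra := C.ratio
  have hd0 : 0 ≤ d / I := div_nonneg C.d0 C.I0.le
  have he0 : 0 ≤ Real.tanh d * (Real.tanh I)⁻¹ := hd0.trans hra
  have hW : 0 ≤ Real.pi / 2 - R := by linarith [C.R1]
  unfold e1t at h
  rcases sE with _ | _
  · rw [cond_false] at hbe h
    have key := (mv.add (he.mul m2)).le (cc.mul cs) h
    have e1 : (b - 1) * ((sn : ℝ) / 1000 - (Real.pi / 2 - R)) ≤
        Real.tanh d * (Real.tanh I)⁻¹ * max (7854 / 10000 + L - (sn : ℝ) / 1000) 0 := by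
      have e2 : (b - 1) * ((sn : ℝ) / 1000 - (Real.pi / 2 - R)) =
          d / I * ((Real.pi / 2 - R) - (sn : ℝ) / 1000) := by rw [hbe]; ring
      rw [e2]
      refine (mul_le_mul_of_nonneg_left (b := Real.pi / 2 - R - (sn : ℝ) / 1000)
        (c := max (7854 / 10000 + L - (sn : ℝ) / 1000) 0)
        ((by linarith : Real.pi / 2 - R - (sn : ℝ) / 1000 ≤ 7854 / 10000 + L -
        (sn : ℝ) / 1000).trans (le_max_left _ _)) hd0).trans ?_
      exact mul_le_mul_of_nonneg_right hra (le_max_right _ _)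
    linarith
  · rw [cond_true] at hbe h
    have key := (mv.add (he.mul m1)).le (cc.mul cs) h
    have e1 : (b - 1) * ((sn : ℝ) / 1000 - (Real.pi / 2 - R)) ≤
        Real.tanh d * (Real.tanh I)⁻¹ * max ((sn : ℝ) / 1000 - max (7853 / 10000 - U) 0) 0 := by
      have e2 : (b - 1) * ((sn : ℝ) / 1000 - (Real.pi / 2 - R)) =
          d / I * ((sn : ℝ) / 1000 - (Real.pi / 2 - R)) := by rw [hbe]; ring
      have e3 : max (7853 / 10000 - U) 0 ≤ Real.pi / 2 - R := max_le (by linarith) hW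
      rw [e2]
      refine (mul_le_mul_of_nonneg_left (b := (sn : ℝ) / 1000 - (Real.pi / 2 - R))
        (c := max ((sn : ℝ) / 1000 - max (7853 / 10000 - U) 0) 0)
        ((by linarith : (sn : ℝ) / 1000 - (Real.pi / 2 - R) ≤ (sn : ℝ) / 1000 -
        max (7853 / 10000 - U) 0).trans (le_max_left _ _)) hd0).trans ?_
      exact mul_le_mul_of_nonneg_right hra (le_max_right _ _)
    linarith

theorem th_ge_cub {η : ℝ} (h0 : 0 ≤ η) : η - η ^ 3 / 3 ≤ Real.tanh η := by
  have hd : ∀ x : ℝ, HasDerivAt (fun x => Real.tanh x - (x - x ^ 3 / 3))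
      (1 / Real.cosh x ^ 2 - (1 - x ^ 2)) x := by
    intro x
    refine ((th_deriv x).sub ((hasDerivAt_id' x).sub ((hasDerivAt_pow 3 x).div_const 3))).congr_deriv ?_
    norm_num
  have hm : MonotoneOn (fun x => Real.tanh x - (x - x ^ 3 / 3)) (Set.Ici 0) := by
    apply monotoneOn_of_deriv_nonneg (convex_Ici 0)
    · exact fun y _ => (hd y).continuousAt.continuousWithinAt
    · exact fun y _ => (hd y).differentiableAt.differentiableWithinAt
    · intro y hy
      rw [interior_Ici] at hy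
      rw [(hd y).deriv]
      have hy0 : 0 < y := hy
      have h1 : Real.tanh y ≤ y := by
        have := th_mul (c := 0) (y := y) (by norm_num) (by norm_num) hy0.le
        have h2 := Real.self_le_sinh_iff.2 hy0.le
        have h3 : Real.sinh y ≤ y * Real.cosh y := by
          have := sinh_sub_le (x := y) (y := 0) le_rfl hy0.le
          simpa using this
        rw [Real.tanh_eq_sinh_div_cosh, div_le_iff₀ (Real.cosh_pos y)]
        exact h3
      have h2 : 0 ≤ Real.tanh y := (th_pos hy0).le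
      have h3 : 1 / Real.cosh y ^ 2 = 1 - Real.tanh y ^ 2 := by
        rw [Real.tanh_eq_sinh_div_cosh]
        have := Real.cosh_sq y
        have := Real.cosh_pos y
        field_simp
        linarith
      rw [h3]
      nlinarith
  have := hm (Set.self_mem_Ici) h0 h0
  simp only [Real.tanh_zero] at this
  norm_num at this
  linarith

/-- **(E1)** on a range of angles, from the two ends. -/
theorem Cx.e1_sound (C : Cx sE sv R I τ b rj d n) {s₀ c ρ₁ ρ η : ℝ}
    (h0 : (rj - (Real.pi / 2 - R)) + (b - 1) * (s₀ - (Real.pi / 2 - R)) ≤ c * s₀)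
    (h1 : (rj - (Real.pi / 2 - R)) + (b - 1) * (1600 / 1000 - (Real.pi / 2 - R)) ≤
      c * (1600 / 1000))
    (hρ0 : 29 / 100 * Real.pi ≤ ρ) (hρ1 : ρ ≤ ρ₁) (hρ2 : ρ₁ < Real.pi / 2)
    (hs₀ : (s₀ - (Real.pi / 2 - ρ₁)) * Real.tan ρ₁ ≤ 1)
    (hη : Real.sinh η = τ * Real.cos ρ) (hc29 : Real.cos (29 / 100 * Real.pi) ≤ 613 / 1000)
    (ht29 : 1289 / 1000 ≤ Real.tan (29 / 100 * Real.pi)) :
    b * (η + (Real.pi / 2 - ρ) * (Real.tan ρ * Real.tanh η)) -
      (b * (Real.pi / 2 - R) - rj) * (Real.tan ρ * Real.tanh η) ≤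
    (1 + c) * (η + (Real.pi / 2 - ρ) * (Real.tan ρ * Real.tanh η)) := by
  have hpi := Real.pi_gt_d6
  have hpi' := Real.pi_lt_d6
  have cρ : 0 < Real.cos ρ := Real.cos_pos_of_mem_Ioo ⟨by linarith, by linarith⟩
  have η0 : 0 < η := by
    have : 0 < Real.sinh η := by rw [hη]; exact mul_pos C.τ0 cρ
    exact Real.sinh_pos_iff.1 this
  have tη := th_pos η0
  have tρ : 0 < Real.tan ρ := Real.tan_pos_of_pos_of_lt_pi_div_two (by linarith) (by linarith)
  obtain ⟨T, hT⟩ : ∃ T, T = Real.tan ρ * Real.tanh η := ⟨_, rfl⟩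
  have T0 : 0 < T := by rw [hT]; positivity
  rw [← hT]
  obtain ⟨S, hS⟩ : ∃ S, S = η + (Real.pi / 2 - ρ) * T := ⟨_, rfl⟩
  -- lower bound
  have hlo : s₀ * T ≤ S := by
    have h3 : Real.tanh η ≤ η := by
      have h3 : Real.sinh η ≤ η * Real.cosh η := by
        have := sinh_sub_le (x := η) (y := 0) le_rfl η0.le
        simpa using this
      rw [Real.tanh_eq_sinh_div_cosh, div_le_iff₀ (Real.cosh_pos η)]
      exact h3
    have h4 : (s₀ - (Real.pi / 2 - ρ)) * Real.tan ρ ≤ 1 := by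
      rcases le_or_gt (s₀ - (Real.pi / 2 - ρ)) 0 with e | e
      · have := mul_nonpos_of_nonpos_of_nonneg e tρ.le
        linarith
      · refine le_trans ?_ hs₀
        have h5 : Real.tan ρ ≤ Real.tan ρ₁ := by
          rcases hρ1.eq_or_lt with e | e
          · rw [e]
          · exact (Real.tan_lt_tan_of_nonneg_of_lt_pi_div_two (by linarith) hρ2 e).le
        exact mul_le_mul (by linarith) h5 tρ.le (by linarith)
    have h5 : (s₀ - (Real.pi / 2 - ρ)) * T ≤ η := by
      rw [hT]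
      calc (s₀ - (Real.pi / 2 - ρ)) * (Real.tan ρ * Real.tanh η) =
          ((s₀ - (Real.pi / 2 - ρ)) * Real.tan ρ) * Real.tanh η := by ring
        _ ≤ 1 * Real.tanh η := mul_le_mul_of_nonneg_right h4 tη.le
        _ ≤ η := by linarith
    rw [hS]
    linarith
  -- upper bound
  have hhi : S ≤ 1600 / 1000 * T := by
    have h3 : η ≤ 613 / 1000 := by
      have h4 := Real.self_le_sinh_iff.2 η0.le
      have h5 : Real.cos ρ ≤ Real.cos (29 / 100 * Real.pi) :=
        Real.cos_le_cos_of_nonneg_of_le_pi (by linarith) (by linarith) hρ0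
      have h6 : τ * Real.cos ρ ≤ 1 * Real.cos ρ := mul_le_mul_of_nonneg_right C.τ1 cρ.le
      linarith
    have h4 := th_ge_cub η0.le
    have h5 : 1289 / 1000 ≤ Real.tan ρ := by
      refine ht29.trans ?_
      rcases hρ0.eq_or_lt with e | e
      · rw [e]
      · exact (Real.tan_lt_tan_of_nonneg_of_lt_pi_div_two (by linarith) (by linarith) e).le
    have h6 : 87 / 100 * η ≤ Real.tanh η := by nlinarith [mul_nonneg η0.le (sq_nonneg η)]
    have h7 : η ≤ (1600 / 1000 - (Real.pi / 2 - ρ)) * T := by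
      rw [hT]
      have h8 : 1289 / 1000 * (87 / 100 * η) ≤ Real.tan ρ * Real.tanh η :=
        mul_le_mul h5 h6 (by positivity) tρ.le
      have h9 : 94 / 100 ≤ 1600 / 1000 - (Real.pi / 2 - ρ) := by linarith
      have h10 : 94 / 100 * (1289 / 1000 * (87 / 100 * η)) ≤
          (1600 / 1000 - (Real.pi / 2 - ρ)) * (Real.tan ρ * Real.tanh η) :=
        mul_le_mul h9 h8 (by positivity) (by linarith)
      nlinarith
    rw [hS]
    linarith
  rw [← hS]
  -- affine
  have key : (rj - (Real.pi / 2 - R)) * T + (b - 1) * (S - (Real.pi / 2 - R) * T) ≤ c * S := by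
    rcases le_total 0 (b - 1 - c) with e | e
    · have e1 := mul_le_mul_of_nonneg_left hhi e
      have e2 := mul_le_mul_of_nonneg_right h1 T0.le
      nlinarith
    · have e1 := mul_le_mul_of_nonpos_left hlo e
      have e2 := mul_le_mul_of_nonneg_right h0 T0.le
      nlinarith
  linarith

/-- The phase below the base point. -/
theorem Cx.bpt_sound (C : Cx sE sv R I τ b rj d n) {tn cn ccn tg : ℕ} {XN gN EN tN : N}
    (hX : Mem (Real.tan R) XN) (hg : Mem (Real.tanh I) gN) (hE : Mem (Real.tanh d) EN)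
    (ht : Mem (τ ^ 2) tN) (gps : gN.ps = true) {ρ₁ ρ η : ℝ} (ρ₁0 : 0 < ρ₁) (hρ1 : ρ₁ < Real.pi / 2)
    (hu : Real.tan ρ₁ ≤ (tn : ℝ) / 10000) (hc : (cn : ℝ) / 10000 ≤ Real.cos ρ₁)
    (hcc : Real.cos ρ₁ ^ 2 ≤ (ccn : ℝ) / 10000) (tg0 : 0 < tg) (hρ0 : 0 ≤ ρ) (hρ : ρ ≤ ρ₁)
    (hη : Real.sinh η = τ * Real.cos ρ)
    (h : bpt sE tn cn ccn tg XN gN EN XN.sq tN = true) :
    (tg : ℝ) / 10000 ≤ b * (49 / 50 * (2 / Real.pi) * ((ρ - R) * (I - η))) := by
  have hpi := Real.pi_pos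
  have hpi2 := Real.pi_lt_d6
  have b0 := C.b0
  have R0 := C.R0
  have R1 := C.R1
  have I0 := C.I0
  have τ0 := C.τ0
  have X0 : 0 < Real.tan R := Real.tan_pos_of_pos_of_lt_pi_div_two C.R0 C.R1
  have cR := GeoX_cos_pos C.R0 C.R1
  have g0 := th_pos I0
  have cf : ∀ m : ℕ, Mem ((m : ℝ) / 10000) (cst m 10000) := by
    intro m
    have := mem_cst (n := m) (d := 10000) (by norm_num)
    push_cast at this
    exact this
  have c6 : Mem (6238 / 10000 : ℝ) (cst 6238 10000) := mem_nat (by norm_num) (by norm_num)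
  have c2 : Mem (2 : ℝ) (cst 2 1) := mem_nat (by norm_num) (by norm_num)
  -- the weight
  obtain ⟨bl, mbl, hbl, hbl0⟩ : ∃ bl, Mem bl (bLo sE EN gN) ∧ bl ≤ b ∧ 0 ≤ bl := by
    have h1 := C.b_eq
    have h2 := C.ratio
    have h3 : 0 ≤ d / I := div_nonneg C.d0 C.I0.le
    unfold bLo
    rcases sE with _ | _
    · rw [cond_false] at h1 ⊢
      exact ⟨_, mem_subp mem_one (hE.mul (hg.inv gps)), max_le (by linarith) b0.le,
        le_max_right _ _⟩
    · rw [cond_true] at h1 ⊢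
      exact ⟨1, mem_one, by linarith, by norm_num⟩
  -- the angle
  have mA := mem_arB ((mem_subp hX (cf tn)).mul ((mem_one.add ((cf tn).mul hX)).inv (ps_one_add _)))
  -- the height
  have hq := sqL2_sound (mem_one.add hX.sq) (by positivity)
  have hcos : 1 + Real.tan R ^ 2 = (1 / Real.cos R) ^ 2 := by
    rw [← inv_inv (1 + Real.tan R ^ 2), tan_sq_inv cR.ne']
    field_simp
  rw [hcos, Real.sqrt_sq (by positivity)] at hq
  have mc : Mem ((1 + Real.tan R ^ 2)⁻¹) (N.inv (N.add one XN.sq)) :=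
    (mem_one.add hX.sq).inv (ps_one_add _)
  have mH := hg.mul (mem_subp ((cf cn).mul (mem_pt (sqL2 (N.add one XN.sq)))) mem_one)
  have mr := ((mem_one.add (ht.mul mc)).sm 2).mul ((c2.add (ht.mul ((cf ccn).add mc))).inv
    (ps_add_left (by decide +kernel)))
  have key := (cf tg).le (((c6.mul mbl).mul mA).mul (mH.mul mr)) h
  obtain ⟨q, hqd⟩ : ∃ q, q = (sqL2 (N.add one XN.sq) : ℝ) / 1073741824 := ⟨_, rfl⟩
  rw [← hqd] at hq key
  rw [tan_sq_inv cR.ne'] at key
  have tgp : (0 : ℝ) < (tg : ℝ) / 10000 := by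
    have : (0 : ℝ) < tg := by exact_mod_cast tg0
    positivity
  have uX : (tn : ℝ) / 10000 < Real.tan R := by
    by_contra hcon
    push Not at hcon
    rw [max_eq_right (by linarith : Real.tan R - (tn : ℝ) / 10000 ≤ 0)] at key
    simp at key
    linarith
  have cq : 0 < (cn : ℝ) / 10000 * q - 1 := by
    by_contra hcon
    push Not at hcon
    rw [max_eq_right hcon] at key
    simp at key
    linarith
  rw [max_eq_left (by linarith : (0 : ℝ) ≤ Real.tan R - (tn : ℝ) / 10000), max_eq_left cq.le] at key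
  obtain ⟨u, hud⟩ : ∃ u, u = (tn : ℝ) / 10000 := ⟨_, rfl⟩
  obtain ⟨c, hcd⟩ : ∃ c, c = (cn : ℝ) / 10000 := ⟨_, rfl⟩
  obtain ⟨e, hed⟩ : ∃ e, e = (ccn : ℝ) / 10000 := ⟨_, rfl⟩
  rw [← hud] at hu uX key
  rw [← hcd] at hc cq key
  rw [← hed] at hcc key
  have T0 : 0 < Real.tan ρ₁ := Real.tan_pos_of_pos_of_lt_pi_div_two ρ₁0 hρ1
  have u0 : 0 < u := T0.trans_le hu
  have c0 : 0 ≤ c := by rw [hcd]; positivity
  have hRρ : ρ₁ < R := by
    by_contra hcon
    push Not at hcon
    have : Real.tan R ≤ Real.tan ρ₁ := by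
      rcases hcon.eq_or_lt with e | e
      · rw [e]
      · exact (Real.tan_lt_tan_of_nonneg_of_lt_pi_div_two R0.le hρ1 e).le
    linarith
  -- angle part
  have a1 : 3 * ((Real.tan R - u) * (1 + u * Real.tan R)⁻¹) *
      (3 + ((Real.tan R - u) * (1 + u * Real.tan R)⁻¹) ^ 2)⁻¹ ≤ R - ρ := by
    refine (angle_ge (α := R - ρ₁) (by linarith) (by linarith) (by
      have : 0 ≤ Real.tan R - u := by linarith
      positivity) ?_).trans (by linarith)
    have e1 := cR_eq (R := R) (n := ρ₁) R0 R1 ρ₁0.le hRρ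
    rw [Real.tan_pi_div_two_sub, inv_inv, J6.cR] at e1
    rw [← e1, ← div_eq_mul_inv, ← div_eq_mul_inv, div_le_div_iff₀ (by positivity) (by positivity)]
    nlinarith [mul_nonneg (sub_nonneg.2 hu) (sq_nonneg (Real.tan R))]
  have a10 : 0 ≤ 3 * ((Real.tan R - u) * (1 + u * Real.tan R)⁻¹) *
      (3 + ((Real.tan R - u) * (1 + u * Real.tan R)⁻¹) ^ 2)⁻¹ := by
    have : 0 ≤ Real.tan R - u := by linarith
    positivity
  -- height part
  have cρ₁ := GeoX_cos_pos ρ₁0 hρ1
  obtain ⟨η₁, hη₁⟩ : ∃ η₁, Real.sinh η₁ = τ * Real.cos ρ₁ :=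
    ⟨Real.arsinh (τ * Real.cos ρ₁), Real.sinh_arsinh _⟩
  have hcRρ : Real.cos R ≤ Real.cos ρ₁ :=
    Real.cos_le_cos_of_nonneg_of_le_pi ρ₁0.le (by linarith) hRρ.le
  have hcρρ : Real.cos ρ₁ ≤ Real.cos ρ :=
    Real.cos_le_cos_of_nonneg_of_le_pi hρ0 (by linarith) hρ
  have o1 : I ≤ η₁ := by
    have : Real.sinh I ≤ Real.sinh η₁ := by
      rw [C.hI, hη₁]; exact mul_le_mul_of_nonneg_left hcRρ τ0.le
    exact Real.sinh_le_sinh.1 this
  have o2 : η₁ ≤ η := by
    have : Real.sinh η₁ ≤ Real.sinh η := by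
      rw [hη, hη₁]; exact mul_le_mul_of_nonneg_left hcρρ τ0.le
    exact Real.sinh_le_sinh.1 this
  have h2 := sinh_sub_le I0.le o1
  have chI := Real.cosh_pos I
  have chη := Real.cosh_pos η₁
  have shI : 0 < Real.sinh I := Real.sinh_pos_iff.2 I0
  have pI : Real.cosh I ^ 2 = 1 + τ ^ 2 * Real.cos R ^ 2 := by
    rw [Real.cosh_sq, C.hI]; ring
  have pη : Real.cosh η₁ ^ 2 = 1 + τ ^ 2 * Real.cos ρ₁ ^ 2 := by
    rw [Real.cosh_sq, hη₁]; ring
  have a2 : Real.tanh I * (c * q - 1) * (2 * (1 + τ ^ 2 * Real.cos R ^ 2) *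
      (2 + τ ^ 2 * (e + Real.cos R ^ 2))⁻¹) ≤ η₁ - I := by
    have s1 : Real.tanh I * (c * q - 1) ≤ Real.tanh I * (Real.cos ρ₁ / Real.cos R - 1) := by
      refine mul_le_mul_of_nonneg_left ?_ g0.le
      have : c * q ≤ Real.cos ρ₁ * (1 / Real.cos R) := by
        have q0 : 0 ≤ q := by rw [hqd]; positivity
        exact mul_le_mul hc hq q0 cρ₁.le
      rw [mul_one_div] at this
      linarith
    have s2 : 2 * (1 + τ ^ 2 * Real.cos R ^ 2) * (2 + τ ^ 2 * (e + Real.cos R ^ 2))⁻¹ ≤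
        Real.cosh I / Real.cosh η₁ := by
      rw [← div_eq_mul_inv, div_le_div_iff₀ (by
        have : 0 ≤ e := by rw [hed]; positivity
        positivity) chη]
      have s3 : Real.cosh I ^ 2 + Real.cosh η₁ ^ 2 ≤ 2 + τ ^ 2 * (e + Real.cos R ^ 2) := by
        rw [pI, pη]
        have := mul_le_mul_of_nonneg_left hcc (sq_nonneg τ)
        linarith
      rw [← pI]
      have s4 : 2 * Real.cosh I * Real.cosh η₁ ≤ Real.cosh I ^ 2 + Real.cosh η₁ ^ 2 := by
        nlinarith [sq_nonneg (Real.cosh I - Real.cosh η₁)]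
      calc 2 * Real.cosh I ^ 2 * Real.cosh η₁ = Real.cosh I * (2 * Real.cosh I * Real.cosh η₁) := by
            ring
        _ ≤ Real.cosh I * (2 + τ ^ 2 * (e + Real.cos R ^ 2)) :=
            mul_le_mul_of_nonneg_left (s4.trans s3) chI.le
    have s5 : 0 ≤ 2 * (1 + τ ^ 2 * Real.cos R ^ 2) * (2 + τ ^ 2 * (e + Real.cos R ^ 2))⁻¹ := by
      have : 0 ≤ e := by rw [hed]; positivity
      positivity
    have s6 : 0 ≤ Real.tanh I * (Real.cos ρ₁ / Real.cos R - 1) := by
      refine mul_nonneg g0.le ?_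
      have : 1 ≤ Real.cos ρ₁ / Real.cos R := (one_le_div cR).2 hcRρ
      linarith
    refine (mul_le_mul s1 s2 s5 s6).trans ?_
    have s7 : Real.tanh I * (Real.cos ρ₁ / Real.cos R - 1) * (Real.cosh I / Real.cosh η₁) =
        (Real.sinh η₁ - Real.sinh I) / Real.cosh η₁ := by
      rw [hη₁, C.hI, Real.tanh_eq_sinh_div_cosh, C.hI]
      field_simp
    rw [s7, div_le_iff₀ chη]
    exact h2
  have a20 : 0 ≤ Real.tanh I * (c * q - 1) * (2 * (1 + τ ^ 2 * Real.cos R ^ 2) *
      (2 + τ ^ 2 * (e + Real.cos R ^ 2))⁻¹) := by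
    have : 0 ≤ e := by rw [hed]; positivity
    have := cq.le
    positivity
  have hκ : (6238 / 10000 : ℝ) ≤ 49 / 50 * (2 / Real.pi) := by
    rw [mul_div_assoc', le_div_iff₀ hpi]
    linarith
  push_cast at key
  refine key.trans ?_
  have e1 : b * (49 / 50 * (2 / Real.pi) * ((ρ - R) * (I - η))) =
      (49 / 50 * (2 / Real.pi) * b) * (R - ρ) * (η - I) := by ring
  rw [e1]
  refine mul_le_mul (mul_le_mul (mul_le_mul hκ hbl hbl0 (by positivity)) a1 a10 (by positivity))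
    (a2.trans (by linarith)) a20 ?_
  have : 0 ≤ R - ρ := by linarith
  positivity

end Pool.Agent.S3.E.J6
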