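import Pool.Agent.S3.E.J6B
import Pool.Agent.S3.E.J6O

/-!
# Stage 3, block E: the branch and bound at a vertex, with the variables of (E1) and (E3)
-/

set_option autoImplicit false

namespace Pool.Agent.S3.E

open Complex

namespace Zr

variable {ι : Type*} [Finite ι] {a : ι → ℝ} {nl nr : ι → Option ι} {z : ι → ℂ}

/-- **The branch and bound at a vertex.** The objective `obj sE sv X g E v X² g² t K` is true on a
box which contains the point. -/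
theorem bbx (h : Zr a nl nr 1 z) (h3 : ∀ i, 3 ≤ a i → a i = 3 ∨ 4 ≤ a i) {i j k : ι}
    (hi : a i = 2) (hij : (nl i = some j ∧ nr i = some k) ∨ (nl i = some k ∧ nr i = some j))
    {tj tk st : Bool} (hj : (tj = true ∧ 3 ≤ a j) ∨ (tj = false ∧ a j = 2 ∧ In2 nl nr j))
    (hk : (tk = true ∧ 3 ≤ a k) ∨ (tk = false ∧ a k = 2 ∧ In2 nl nr k))
    (hsj : tj = false → st = true → 1 / 4 ≤ Real.tan (th (z j).re (z j).im) ^ 2 ∧
      Real.cos (z j).re ^ 2 ≤ 59 / 100)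
    (hsk : tk = false → st = true → 1 / 4 ≤ Real.tan (th (z k).re (z k).im) ^ 2 ∧
      Real.cos (z k).re ^ 2 ≤ 59 / 100)
    {obj : Bool → Bool → NI.N → NI.N → NI.N → NI.N → NI.N → NI.N → NI.N → NI.N → Bool} {l : List ℕ}
    (hb : ∀ sE sv : Bool, NI.bb (J6.tst (obj sE sv) tj tk st sE sv) l (NI.rng 34 138 100)
      (NI.rng 19 58 100) (NI.rng 0 43 100) (NI.rng 0 1 1) = true) :
    ∃ (sE sv : Bool) (d n : ℝ) (XN gN EN vN tN kN : NI.N),
      J6.Cx sE sv (z i).re (z i).im (Real.tan (th (z i).re (z i).im)) (bw (z i) (z j))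
        (qe (z i) (z j)).im d n ∧
      NI.Mem (Real.tan (z i).re) XN ∧ NI.Mem (Real.tanh (z i).im) gN ∧ NI.Mem (Real.tanh d) EN ∧
      NI.Mem (Real.tan n) vN ∧ NI.Mem (Real.tan (th (z i).re (z i).im) ^ 2) tN ∧
      NI.Mem (k2 (z i).re (z i).im) kN ∧ XN.ps = true ∧ gN.ps = true ∧
      obj sE sv XN gN EN vN XN.sq gN.sq tN kN = true := by
  have hin : In2 nl nr i := by
    rcases hij with ⟨h1, h2⟩ | ⟨h1, h2⟩
    · exact ⟨_, _, h1, h2⟩
    · exact ⟨_, _, h1, h2⟩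
  obtain ⟨p1, p2, p3⟩ := h.pos i
  obtain ⟨t1, t2, -⟩ := h.tR_eq i
  obtain ⟨sE, sv, d, n, d0, n0, d1, hd, hn, n1, n2, hP⟩ := h.bbz h3 hi hij (tj := tj) (tk := tk)
    (st := st) hj hk hsj hsk
    (P := fun sE sv X g E v => ∃ XN gN EN vN tN kN, NI.Mem X XN ∧ NI.Mem g gN ∧ NI.Mem E EN ∧
      NI.Mem v vN ∧ NI.Mem (J6.tR X g) tN ∧ NI.Mem (J6.kR X g) kN ∧ XN.ps = true ∧ gN.ps = true ∧
      obj sE sv XN gN EN vN XN.sq gN.sq tN kN = true)
    (fun sE sv X g E v κj κk F b1 b2 b3 b4 b5 b6 => J6.of_bb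
      (P := fun X g E v => ∃ XN gN EN vN tN kN, NI.Mem X XN ∧ NI.Mem g gN ∧ NI.Mem E EN ∧
      NI.Mem v vN ∧ NI.Mem (J6.tR X g) tN ∧ NI.Mem (J6.kR X g) kN ∧ XN.ps = true ∧ gN.ps = true ∧
      obj sE sv XN gN EN vN XN.sq gN.sq tN kN = true)
      (fun X g E v XN gN EN vN tN kN _ m1 m2 m3 m4 m5 m6 q1 q2 ho =>
        ⟨XN, gN, EN, vN, tN, kN, m1, m2, m3, m4, m5, m6, q1, q2, ho⟩) (hb sE sv) F b1 b2 b3 b4 b5 b6)
  obtain ⟨XN, gN, EN, vN, tN, kN, m1, m2, m3, m4, m5, m6, q1, q2, ho⟩ := hP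
  rw [t1] at m5
  rw [t2] at m6
  have thi0 := h.th_pos_i i
  have thi1 := th_lt p1 p2 p3
  have Ti0 : 0 < Real.tan (th (z i).re (z i).im) :=
    Real.tan_pos_of_pos_of_lt_pi_div_two thi0 thi1
  have ci0 : 0 < Real.cos (z i).re := GeoX_cos_pos p1 p2
  have ti := tan_th_sq p1 p2 p3
  have shi0 : 0 < Real.sinh (z i).im := Real.sinh_pos_iff.2 p3
  have hTC : Real.sinh (z i).im = Real.tan (th (z i).re (z i).im) * Real.cos (z i).re := by
    have e : Real.sinh (z i).im ^ 2 = (Real.tan (th (z i).re (z i).im) * Real.cos (z i).re) ^ 2 := by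
      rw [mul_pow, ti]
    exact (pow_left_inj₀ shi0.le (by positivity) two_ne_zero).1 e
  have hle := h.two_t_le hin
  refine ⟨sE, sv, d, n, XN, gN, EN, vN, tN, kN, ⟨p1, p2, p3, Ti0, ?_, hTC, d0, ?_, n0, n1, n2, ?_,
    ?_⟩, m1, m2, m3, m4, m5, m6, q1, q2, ho⟩
  · by_contra hcon
    push Not at hcon
    nlinarith
  · linarith
  · rw [bw, div_mul_cancel₀ _ p3.ne']
    linarith
  · linarith

end Zr

/-- Numerical bounds from the complementary angle. -/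
theorem J6.tc_of {ρ y s c : ℝ} (h0 : 0 < Real.pi / 2 - ρ) (h1 : Real.pi / 2 - ρ ≤ y)
    (h2 : y ≤ 3 / 2) (hs : y - y ^ 3 / 6 + y ^ 5 / 120 ≤ s)
    (hc : c ≤ 1 - y ^ 2 / 2 + y ^ 4 / 24 - y ^ 6 / 720) (c0 : 0 < c) :
    Real.cos ρ ≤ s ∧ c / s ≤ Real.tan ρ := by
  have hpi := Real.pi_gt_three
  have y0 : 0 ≤ y := by linarith
  have e1 : Real.cos ρ ≤ s := by
    have e : Real.cos ρ = Real.sin (Real.pi / 2 - ρ) := by rw [Real.sin_pi_div_two_sub]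
    rw [e]
    exact (Real.sin_le_sin_of_le_of_le_pi_div_two (by linarith) (by linarith) h1).trans
      ((Cl.n_s5 y0).trans hs)
  have e2 : c ≤ Real.sin ρ := by
    have e : Real.sin ρ = Real.cos (Real.pi / 2 - ρ) := by rw [Real.cos_pi_div_two_sub]
    rw [e]
    exact (hc.trans (Cl.n_c6 y0)).trans
      (Real.cos_le_cos_of_nonneg_of_le_pi h0.le (by linarith) h1)
  have e3 : 0 < Real.cos ρ := by
    have e : Real.cos ρ = Real.sin (Real.pi / 2 - ρ) := by rw [Real.sin_pi_div_two_sub]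
    rw [e]
    exact Real.sin_pos_of_pos_of_lt_pi h0 (by linarith)
  refine ⟨e1, ?_⟩
  rw [Real.tan_eq_sin_div_cos]
  exact div_le_div₀ (c0.le.trans e2) e2 e3 e1

end Pool.Agent.S3.E
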