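import Pool.Agent.S3.E.J6W

/-!
# Stage 3, block E: the objective and the checks of J6V
-/

set_option autoImplicit false

namespace Pool.Agent.S3.E

open Complex

namespace J6

open NI

def obW (sE _sv : Bool) (X g E _v X2 _g2 t _K : N) : Bool :=
  bpq sE 1264 9921 9843 310 X g E X2 t && (bpq sE 2568 9685 9382 220 X g E X2 t &&
  (bpq sE 3960 9297 8645 120 X g E X2 t && (t.lt (cst 635 1000) ||
    bpq sE 1264 9921 9843 350 X g E X2 t)))

theorem bw_23 (sE sv : Bool) :
    NI.bb (tst (obW sE sv) false true true sE sv) (cyc 10 [3, 0, 2, 1]) (rng 34 138 100)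
      (rng 19 58 100) (rng 0 43 100) (rng 0 1 1) = true := by
  rcases sE with _ | _ <;> rcases sv with _ | _ <;> decide +kernel

theorem bw_22 (sE sv : Bool) :
    NI.bb (tst (obW sE sv) false false true sE sv) (cyc 10 [3, 0, 2, 1]) (rng 34 138 100)
      (rng 19 58 100) (rng 0 43 100) (rng 0 1 1) = true := by
  rcases sE with _ | _ <;> rcases sv with _ | _ <;> decide +kernel

end J6

end Pool.Agent.S3.E
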