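import Pool.Agent.S3.E.J6BP
import Pool.Agent.S3.E.J6Va

/-!
# Stage 3, block E: the phase below the base point at an inner vertex with two twists next to an
inner vertex with two twists, other neighbour open (sharper values)
-/

set_option autoImplicit false

namespace Pool.Agent.S3.E

open Complex

namespace J6

open NI

variable {sE sv : Bool} {R I τ b rj d n : ℝ}

/-- The values of the phase below the base point. -/
def BPw (R I τ b ρ η : ℝ) : Prop :=
  (ρ ≤ 1 / 25 * Real.pi → 31 / 1000 ≤ b * (49 / 50 * (2 / Real.pi) * ((ρ - R) * (I - η)))) ∧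
  (ρ ≤ 1 / 25 * Real.pi → 127 / 200 ≤ τ ^ 2 →
    7 / 200 ≤ b * (49 / 50 * (2 / Real.pi) * ((ρ - R) * (I - η)))) ∧
  (ρ ≤ 2 / 25 * Real.pi → 11 / 500 ≤ b * (49 / 50 * (2 / Real.pi) * ((ρ - R) * (I - η)))) ∧
  (ρ ≤ 3 / 25 * Real.pi → 3 / 250 ≤ b * (49 / 50 * (2 / Real.pi) * ((ρ - R) * (I - η))))

theorem Cx.obW_sound (C : Cx sE sv R I τ b rj d n) {XN gN EN vN g2N tN kN : N}
    (hX : Mem (Real.tan R) XN) (hg : Mem (Real.tanh I) gN) (hE : Mem (Real.tanh d) EN)
    (ht : Mem (τ ^ 2) tN) (gps : gN.ps = true) (ho : obW sE sv XN gN EN vN XN.sq g2N tN kN = true)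
    {ρ η : ℝ} (hη : Real.sinh η = τ * Real.cos ρ) (hρ : 0 ≤ ρ) : BPw R I τ b ρ η := by
  have hpi := Real.pi_gt_d6
  have hpi' := Real.pi_lt_d6
  unfold obW at ho
  rw [Bool.and_eq_true, Bool.and_eq_true, Bool.and_eq_true] at ho
  obtain ⟨o0, o1, o2, o3⟩ := ho
  have k0 : ∀ tg : ℕ, 0 < tg → bpq sE 1264 9921 9843 tg XN gN EN XN.sq tN = true →
      ρ ≤ 1 / 25 * Real.pi →
      (tg : ℝ) / 10000 ≤ b * (49 / 50 * (2 / Real.pi) * ((ρ - R) * (I - η))) := by
    intro tg tg0 o e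
    obtain ⟨e1, e2, e3⟩ := tcs_of (ρ := 1 / 25 * Real.pi) (y0 := 12566 / 100000)
      (y1 := 12567 / 100000) (s₁ := 12534 / 100000) (c₀ := 99211 / 100000) (c₁ := 992116 / 1000000)
      (by linarith) (by linarith) (by norm_num) (by norm_num) (by norm_num) (by norm_num)
      (by norm_num) (by norm_num)
    exact C.bpq_sound hX hg hE ht gps (ρ₁ := 1 / 25 * Real.pi) (by positivity) (by linarith)
      (e1.trans (by norm_num)) (le_trans (by norm_num) e2) (e3.trans (by norm_num)) tg0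
      hρ e hη o
  refine ⟨fun e => ?_, fun e et => ?_, fun e => ?_, fun e => ?_⟩
  · exact le_trans (by norm_num) (k0 310 (by norm_num) o0 e)
  · rw [Bool.or_eq_true] at o3
    rcases o3 with o3 | o3
    · exfalso
      have h1 := ht.lt (mem_cst (n := 635) (d := 1000) (by norm_num)) o3
      norm_num at h1
      linarith
    · exact le_trans (by norm_num) (k0 350 (by norm_num) o3 e)
  · obtain ⟨e1, e2, e3⟩ := tcs_of (ρ := 2 / 25 * Real.pi) (y0 := 25132 / 100000)
      (y1 := 25133 / 100000) (s₁ := 2487 / 10000) (c₀ := 96858 / 100000) (c₁ := 9686 / 10000)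
      (by linarith) (by linarith) (by norm_num) (by norm_num) (by norm_num) (by norm_num)
      (by norm_num) (by norm_num)
    have k := C.bpq_sound hX hg hE ht gps (ρ₁ := 2 / 25 * Real.pi) (by positivity) (by linarith)
      (e1.trans (by norm_num)) (le_trans (by norm_num) e2) (e3.trans (by norm_num)) (by norm_num)
      hρ e hη o1
    exact le_trans (by norm_num) k
  · obtain ⟨e1, e2, e3⟩ := tcs_of (ρ := 3 / 25 * Real.pi) (y0 := 37699 / 100000)
      (y1 := 377 / 1000) (s₁ := 36814 / 100000) (c₀ := 92977 / 100000) (c₁ := 929783 / 1000000)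
      (by linarith) (by linarith) (by norm_num) (by norm_num) (by norm_num) (by norm_num)
      (by norm_num) (by norm_num)
    have k := C.bpq_sound hX hg hE ht gps (ρ₁ := 3 / 25 * Real.pi) (by positivity) (by linarith)
      (e1.trans (by norm_num)) (le_trans (by norm_num) e2) (e3.trans (by norm_num)) (by norm_num)
      hρ e hη o2
    exact le_trans (by norm_num) k

end J6

namespace Zr

variable {ι : Type*} [Finite ι] {a : ι → ℝ} {nl nr : ι → Option ι} {z : ι → ℂ}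

/-- The phase below the base point at an inner `2` towards an inner `2`, the other neighbour
open. -/
theorem bpw_two_open (h : Zr a nl nr 1 z) (h3 : ∀ i, 3 ≤ a i → a i = 3 ∨ 4 ≤ a i) {i j k : ι}
    (hi : a i = 2) (hij : (nl i = some j ∧ nr i = some k) ∨ (nl i = some k ∧ nr i = some j))
    (hj : a j = 2) (hjn : In2 nl nr j) (hk : 3 ≤ a k ∨ (a k = 2 ∧ In2 nl nr k)) {ρ η : ℝ}
    (hη : Real.sinh η = Real.tan (th (z i).re (z i).im) * Real.cos ρ) (hρ : 0 ≤ ρ) :
    J6.BPw (z i).re (z i).im (Real.tan (th (z i).re (z i).im)) (bw (z i) (z j)) ρ η := by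
  have hin : In2 nl nr i := by
    rcases hij with ⟨h1, h2⟩ | ⟨h1, h2⟩
    · exact ⟨_, _, h1, h2⟩
    · exact ⟨_, _, h1, h2⟩
  have hj1 : nl i = some j ∨ nr i = some j := by
    rcases hij with ⟨h1, h2⟩ | ⟨h1, h2⟩
    · exact Or.inl h1
    · exact Or.inr h2
  have hk1 : nl i = some k ∨ nr i = some k := by
    rcases hij with ⟨h1, h2⟩ | ⟨h1, h2⟩
    · exact Or.inr h2
    · exact Or.inl h1
  obtain ⟨a1, a2, -⟩ := h.adj22 h3 hj hjn hi hin (h.N.symm i j hj1)
  rcases hk with hk | ⟨hk, hkn⟩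
  · obtain ⟨sE, sv, d, n, XN, gN, EN, vN, tN, kN, C, m1, m2, m3, m4, m5, m6, q1, q2, ho⟩ :=
      h.bbx h3 hi hij (tj := false) (tk := true) (st := true) (Or.inr ⟨rfl, hj, hjn⟩)
        (Or.inl ⟨rfl, hk⟩) (fun _ _ => ⟨a1, a2⟩) (by simp) J6.bw_23
    exact C.obW_sound m1 m2 m3 m5 q2 ho hη hρ
  · obtain ⟨c1, c2, -⟩ := h.adj22 h3 hk hkn hi hin (h.N.symm i k hk1)
    obtain ⟨sE, sv, d, n, XN, gN, EN, vN, tN, kN, C, m1, m2, m3, m4, m5, m6, q1, q2, ho⟩ :=
      h.bbx h3 hi hij (tj := false) (tk := false) (st := true) (Or.inr ⟨rfl, hj, hjn⟩)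
        (Or.inr ⟨rfl, hk, hkn⟩) (fun _ _ => ⟨a1, a2⟩) (fun _ _ => ⟨c1, c2⟩) J6.bw_22
    exact C.obW_sound m1 m2 m3 m5 q2 ho hη hρ

end Zr

end Pool.Agent.S3.E
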