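import Pool.Agent.S3.E.J6O

/-!
# Stage 3, block E: sharper bounds of the phase below the base point at an inner vertex with two
twists next to an inner vertex with two twists (other neighbour open)
-/

set_option autoImplicit false

namespace Pool.Agent.S3.E

open Complex

namespace J6

open NI

/-- `y (105 + 55 y²) / (105 + 90 y² + 9 y⁴)`. -/
def arC (y : N) : N :=
  N.mul (N.mul y (N.add (cst 105 1) (N.sm 55 y.sq)))
    (N.inv (N.add (cst 105 1) (N.mul y.sq (N.add (cst 90 1) (N.sm 9 y.sq)))))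

/-- The phase below the base point. -/
def bpq (sE : Bool) (tn cn ccn tg : ℕ) (X h E X2 t : N) : Bool :=
  (cst tg 10000).le (N.mul (N.mul (N.mul (cst 6238 10000) (bLo sE E h))
    (arC (N.mul (N.sub X (cst tn 10000)) (N.inv (N.add one (N.mul (cst tn 10000) X))))))
    (N.mul (N.mul h (N.sub (N.mul (cst cn 10000) (pt (sqL2 (N.add one X2)))) one))
      (N.mul (N.sm 4 (N.add one (N.mul t (N.inv (N.add one X2)))))
        (N.inv (N.add (cst 4 1) (N.mul t (N.add (cst ccn 10000)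
          (N.sm 3 (N.inv (N.add one X2))))))))))

theorem mem_arC {y : ℝ} {A : N} (h : Mem y A) :
    Mem (y * (105 + 55 * y ^ 2) * (105 + y ^ 2 * (90 + 9 * y ^ 2))⁻¹) (arC A) := by
  unfold arC
  have c1 : Mem (105 : ℝ) (cst 105 1) := mem_nat (by norm_num) (by norm_num)
  have c2 : Mem (90 : ℝ) (cst 90 1) := mem_nat (by norm_num) (by norm_num)
  have s1 := h.sq.sm 55
  have s2 := h.sq.sm 9
  push_cast at s1 s2
  exact (h.mul (c1.add s1)).mul ((c1.add (h.sq.mul (c2.add s2))).inv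
    (ps_add_left (by decide +kernel)))

theorem arctan_ge' {u : ℝ} (hu : 0 ≤ u) :
    u * (105 + 55 * u ^ 2) * (105 + u ^ 2 * (90 + 9 * u ^ 2))⁻¹ ≤ Real.arctan u := by
  have hm : MonotoneOn (fun y : ℝ => Real.arctan y -
      (y * (105 + 55 * y ^ 2)) / (105 + y ^ 2 * (90 + 9 * y ^ 2))) (Set.Ici 0) := by
    have dq : ∀ y : ℝ, (105 + y ^ 2 * (90 + 9 * y ^ 2)) ≠ 0 := by
      intro y
      positivity
    refine monotoneOn_of_deriv_nonneg (convex_Ici 0) ?_ ?_ fun y hy => ?_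
    · exact (Real.continuous_arctan.sub (Continuous.div (by fun_prop) (by fun_prop) dq)).continuousOn
    · exact (Real.differentiable_arctan.sub
        (Differentiable.div (by fun_prop) (by fun_prop) dq)).differentiableOn
    · have hd : HasDerivAt (fun y : ℝ => Real.arctan y -
          (y * (105 + 55 * y ^ 2)) / (105 + y ^ 2 * (90 + 9 * y ^ 2)))
          (1 / (1 + y ^ 2) - ((105 + 165 * y ^ 2) * (105 + y ^ 2 * (90 + 9 * y ^ 2)) -
            (y * (105 + 55 * y ^ 2)) * (180 * y + 36 * y ^ 3)) /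
            (105 + y ^ 2 * (90 + 9 * y ^ 2)) ^ 2) y := by
        have hp : (fun y : ℝ => y * (105 + 55 * y ^ 2)) = fun y : ℝ => 105 * y + 55 * y ^ 3 := by
          funext z; ring
        have hq : (fun y : ℝ => 105 + y ^ 2 * (90 + 9 * y ^ 2)) =
            fun y : ℝ => 105 + (90 * y ^ 2 + 9 * y ^ 4) := by
          funext z; ring
        have h1 : HasDerivAt (fun y : ℝ => y * (105 + 55 * y ^ 2)) (105 + 165 * y ^ 2) y := by
          rw [hp]
          have h2 := (hasDerivAt_pow 3 y).const_mul 55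
          have h3 := (hasDerivAt_id' y).const_mul 105
          refine (h3.fun_add h2).congr_deriv ?_
          push_cast
          ring
        have h4 : HasDerivAt (fun y : ℝ => 105 + y ^ 2 * (90 + 9 * y ^ 2))
            (180 * y + 36 * y ^ 3) y := by
          rw [hq]
          have h2 := (hasDerivAt_pow 2 y).const_mul 90
          have h3 := (hasDerivAt_pow 4 y).const_mul 9
          refine ((h2.fun_add h3).const_add 105).congr_deriv ?_
          push_cast
          ring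
        exact (Real.hasDerivAt_arctan y).fun_sub (h1.fun_div h4 (dq y))
      rw [hd.deriv]
      have h1 : 1 / (1 + y ^ 2) - ((105 + 165 * y ^ 2) * (105 + y ^ 2 * (90 + 9 * y ^ 2)) -
            (y * (105 + 55 * y ^ 2)) * (180 * y + 36 * y ^ 3)) /
            (105 + y ^ 2 * (90 + 9 * y ^ 2)) ^ 2 =
          576 * y ^ 8 / ((1 + y ^ 2) * (105 + y ^ 2 * (90 + 9 * y ^ 2)) ^ 2) := by
        have h5 := dq y
        have h6 : (1 + y ^ 2 : ℝ) ≠ 0 := by positivity
        field_simp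
        ring
      rw [h1]
      positivity
  have h2 := hm (Set.mem_Ici.2 le_rfl) (Set.mem_Ici.2 hu) hu
  simp only [Real.arctan_zero, zero_mul, zero_div, sub_zero, sub_nonneg] at h2
  rwa [← div_eq_mul_inv]

theorem angle_ge' {α a : ℝ} (h0 : 0 ≤ α) (h1 : α < Real.pi / 2) (ha : 0 ≤ a) (h : a ≤ Real.tan α) :
    a * (105 + 55 * a ^ 2) * (105 + a ^ 2 * (90 + 9 * a ^ 2))⁻¹ ≤ α := by
  refine (arctan_ge' ha).trans ?_
  have h2 := Real.arctan_mono h
  rwa [Real.arctan_tan (by linarith) h1] at h2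

/-- `2 (sinh x - sinh y) ≤ (x - y) (cosh x + cosh y)`. -/
theorem sinh_sub_le' {x y : ℝ} (h : y ≤ x) :
    2 * (Real.sinh x - Real.sinh y) ≤ (x - y) * (Real.cosh x + Real.cosh y) := by
  obtain ⟨m, hm⟩ : ∃ m, m = (x + y) / 2 := ⟨_, rfl⟩
  obtain ⟨δ, hδ⟩ : ∃ δ, δ = (x - y) / 2 := ⟨_, rfl⟩
  have e1 : x = m + δ := by rw [hm, hδ]; ring
  have e2 : y = m - δ := by rw [hm, hδ]; ring
  have hd : 0 ≤ δ := by rw [hδ]; linarith
  have h1 := sinh_sub_le le_rfl hd
  rw [Real.sinh_zero, sub_zero, sub_zero] at h1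
  rw [e1, e2, Real.sinh_add, Real.sinh_sub, Real.cosh_add, Real.cosh_sub]
  have h2 := mul_le_mul_of_nonneg_left h1 (Real.cosh_pos m).le
  nlinarith

variable {sE sv : Bool} {R I τ b rj d n : ℝ}

/-- The phase below the base point. -/
theorem Cx.bpq_sound (C : Cx sE sv R I τ b rj d n) {tn cn ccn tg : ℕ} {XN gN EN tN : N}
    (hX : Mem (Real.tan R) XN) (hg : Mem (Real.tanh I) gN) (hE : Mem (Real.tanh d) EN)
    (ht : Mem (τ ^ 2) tN) (gps : gN.ps = true) {ρ₁ ρ η : ℝ} (ρ₁0 : 0 < ρ₁) (hρ1 : ρ₁ < Real.pi / 2)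
    (hu : Real.tan ρ₁ ≤ (tn : ℝ) / 10000) (hc : (cn : ℝ) / 10000 ≤ Real.cos ρ₁)
    (hcc : Real.cos ρ₁ ^ 2 ≤ (ccn : ℝ) / 10000) (tg0 : 0 < tg) (hρ0 : 0 ≤ ρ) (hρ : ρ ≤ ρ₁)
    (hη : Real.sinh η = τ * Real.cos ρ)
    (h : bpq sE tn cn ccn tg XN gN EN XN.sq tN = true) :
    (tg : ℝ) / 10000 ≤ b * (49 / 50 * (2 / Real.pi) * ((ρ - R) * (I - η))) := by
  have hpi := Real.pi_pos
  have hpi2 := Real.pi_lt_d6
  have b0 := C.b0
  have R0 := C.R0
  have R1 := C.R1
  have I0 := C.I0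
  have τ0 := C.τ0
  have X0 : 0 < Real.tan R := Real.tan_pos_of_pos_of_lt_pi_div_two C.R0 C.R1
  have cR := GeoX_cos_pos C.R0 C.R1
  have g0 := th_pos I0
  have cf : ∀ m : ℕ, Mem ((m : ℝ) / 10000) (cst m 10000) := by
    intro m
    have := mem_cst (n := m) (d := 10000) (by norm_num)
    push_cast at this
    exact this
  have c6 : Mem (6238 / 10000 : ℝ) (cst 6238 10000) := mem_nat (by norm_num) (by norm_num)
  have c4 : Mem (4 : ℝ) (cst 4 1) := mem_nat (by norm_num) (by norm_num)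
  -- the weight
  obtain ⟨bl, mbl, hbl, hbl0⟩ : ∃ bl, Mem bl (bLo sE EN gN) ∧ bl ≤ b ∧ 0 ≤ bl := by
    have h1 := C.b_eq
    have h2 := C.ratio
    have h3 : 0 ≤ d / I := div_nonneg C.d0 C.I0.le
    unfold bLo
    rcases sE with _ | _
    · rw [cond_false] at h1 ⊢
      exact ⟨_, mem_subp mem_one (hE.mul (hg.inv gps)), max_le (by linarith) b0.le,
        le_max_right _ _⟩
    · rw [cond_true] at h1 ⊢
      exact ⟨1, mem_one, by linarith, by norm_num⟩
  -- the angle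
  have mA := mem_arC ((mem_subp hX (cf tn)).mul ((mem_one.add ((cf tn).mul hX)).inv (ps_one_add _)))
  -- the height
  have hq := sqL2_sound (mem_one.add hX.sq) (by positivity)
  have hcos : 1 + Real.tan R ^ 2 = (1 / Real.cos R) ^ 2 := by
    rw [← inv_inv (1 + Real.tan R ^ 2), tan_sq_inv cR.ne']
    field_simp
  rw [hcos, Real.sqrt_sq (by positivity)] at hq
  have mc : Mem ((1 + Real.tan R ^ 2)⁻¹) (N.inv (N.add one XN.sq)) :=
    (mem_one.add hX.sq).inv (ps_one_add _)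
  have mH := hg.mul (mem_subp ((cf cn).mul (mem_pt (sqL2 (N.add one XN.sq)))) mem_one)
  have mr := ((mem_one.add (ht.mul mc)).sm 4).mul ((c4.add (ht.mul ((cf ccn).add (mc.sm 3)))).inv
    (ps_add_left (by decide +kernel)))
  have key := (cf tg).le (((c6.mul mbl).mul mA).mul (mH.mul mr)) h
  obtain ⟨q, hqd⟩ : ∃ q, q = (sqL2 (N.add one XN.sq) : ℝ) / 1073741824 := ⟨_, rfl⟩
  rw [← hqd] at hq key
  rw [tan_sq_inv cR.ne'] at key
  have tgp : (0 : ℝ) < (tg : ℝ) / 10000 := by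
    have : (0 : ℝ) < tg := by exact_mod_cast tg0
    positivity
  have uX : (tn : ℝ) / 10000 < Real.tan R := by
    by_contra hcon
    push Not at hcon
    rw [max_eq_right (by linarith : Real.tan R - (tn : ℝ) / 10000 ≤ 0)] at key
    simp at key
    linarith
  have cq : 0 < (cn : ℝ) / 10000 * q - 1 := by
    by_contra hcon
    push Not at hcon
    rw [max_eq_right hcon] at key
    simp at key
    linarith
  rw [max_eq_left (by linarith : (0 : ℝ) ≤ Real.tan R - (tn : ℝ) / 10000), max_eq_left cq.le] at key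
  obtain ⟨u, hud⟩ : ∃ u, u = (tn : ℝ) / 10000 := ⟨_, rfl⟩
  obtain ⟨c, hcd⟩ : ∃ c, c = (cn : ℝ) / 10000 := ⟨_, rfl⟩
  obtain ⟨e, hed⟩ : ∃ e, e = (ccn : ℝ) / 10000 := ⟨_, rfl⟩
  rw [← hud] at hu uX key
  rw [← hcd] at hc cq key
  rw [← hed] at hcc key
  have T0 : 0 < Real.tan ρ₁ := Real.tan_pos_of_pos_of_lt_pi_div_two ρ₁0 hρ1
  have u0 : 0 < u := T0.trans_le hu
  have c0 : 0 ≤ c := by rw [hcd]; positivity
  have hRρ : ρ₁ < R := by
    by_contra hcon
    push Not at hcon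
    have : Real.tan R ≤ Real.tan ρ₁ := by
      rcases hcon.eq_or_lt with e | e
      · rw [e]
      · exact (Real.tan_lt_tan_of_nonneg_of_lt_pi_div_two R0.le hρ1 e).le
    linarith
  -- angle part
  obtain ⟨w, hw⟩ : ∃ w, w = (Real.tan R - u) * (1 + u * Real.tan R)⁻¹ := ⟨_, rfl⟩
  rw [← hw] at key
  have w0 : 0 ≤ w := by
    rw [hw]
    have : 0 ≤ Real.tan R - u := by linarith
    positivity
  have a1 : w * (105 + 55 * w ^ 2) * (105 + w ^ 2 * (90 + 9 * w ^ 2))⁻¹ ≤ R - ρ := by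
    refine (angle_ge' (α := R - ρ₁) (by linarith) (by linarith) w0 ?_).trans (by linarith)
    have e1 := cR_eq (R := R) (n := ρ₁) R0 R1 ρ₁0.le hRρ
    rw [Real.tan_pi_div_two_sub, inv_inv, J6.cR] at e1
    rw [← e1, hw, ← div_eq_mul_inv, ← div_eq_mul_inv,
      div_le_div_iff₀ (by positivity) (by positivity)]
    nlinarith [mul_nonneg (sub_nonneg.2 hu) (sq_nonneg (Real.tan R))]
  have a10 : 0 ≤ w * (105 + 55 * w ^ 2) * (105 + w ^ 2 * (90 + 9 * w ^ 2))⁻¹ := by
    positivity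
  -- height part
  have cρ₁ := GeoX_cos_pos ρ₁0 hρ1
  obtain ⟨η₁, hη₁⟩ : ∃ η₁, Real.sinh η₁ = τ * Real.cos ρ₁ :=
    ⟨Real.arsinh (τ * Real.cos ρ₁), Real.sinh_arsinh _⟩
  have hcRρ : Real.cos R ≤ Real.cos ρ₁ :=
    Real.cos_le_cos_of_nonneg_of_le_pi ρ₁0.le (by linarith) hRρ.le
  have hcρρ : Real.cos ρ₁ ≤ Real.cos ρ :=
    Real.cos_le_cos_of_nonneg_of_le_pi hρ0 (by linarith) hρ
  have o1 : I ≤ η₁ := by
    have : Real.sinh I ≤ Real.sinh η₁ := by
      rw [C.hI, hη₁]; exact mul_le_mul_of_nonneg_left hcRρ τ0.le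
    exact Real.sinh_le_sinh.1 this
  have o2 : η₁ ≤ η := by
    have : Real.sinh η₁ ≤ Real.sinh η := by
      rw [hη, hη₁]; exact mul_le_mul_of_nonneg_left hcρρ τ0.le
    exact Real.sinh_le_sinh.1 this
  have h2 := sinh_sub_le' o1
  have chI := Real.cosh_pos I
  have chη := Real.cosh_pos η₁
  have shI : 0 < Real.sinh I := Real.sinh_pos_iff.2 I0
  have pI : Real.cosh I ^ 2 = 1 + τ ^ 2 * Real.cos R ^ 2 := by
    rw [Real.cosh_sq, C.hI]; ring
  have pη : Real.cosh η₁ ^ 2 = 1 + τ ^ 2 * Real.cos ρ₁ ^ 2 := by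
    rw [Real.cosh_sq, hη₁]; ring
  have a2 : Real.tanh I * (c * q - 1) * (4 * (1 + τ ^ 2 * Real.cos R ^ 2) *
      (4 + τ ^ 2 * (e + 3 * Real.cos R ^ 2))⁻¹) ≤ η₁ - I := by
    have s1 : Real.tanh I * (c * q - 1) ≤ Real.tanh I * (Real.cos ρ₁ / Real.cos R - 1) := by
      refine mul_le_mul_of_nonneg_left ?_ g0.le
      have : c * q ≤ Real.cos ρ₁ * (1 / Real.cos R) := by
        have q0 : 0 ≤ q := by rw [hqd]; positivity
        exact mul_le_mul hc hq q0 cρ₁.le
      rw [mul_one_div] at this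
      linarith
    have s2 : 4 * (1 + τ ^ 2 * Real.cos R ^ 2) * (4 + τ ^ 2 * (e + 3 * Real.cos R ^ 2))⁻¹ ≤
        2 * Real.cosh I / (Real.cosh η₁ + Real.cosh I) := by
      rw [← div_eq_mul_inv, div_le_div_iff₀ (by
        have : 0 ≤ e := by rw [hed]; positivity
        positivity) (by positivity)]
      have s3 : 3 * Real.cosh I ^ 2 + Real.cosh η₁ ^ 2 ≤
          4 + τ ^ 2 * (e + 3 * Real.cos R ^ 2) := by
        rw [pI, pη]
        have := mul_le_mul_of_nonneg_left hcc (sq_nonneg τ)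
        linarith
      rw [← pI]
      have s4 : 2 * Real.cosh I * (Real.cosh η₁ + Real.cosh I) ≤
          3 * Real.cosh I ^ 2 + Real.cosh η₁ ^ 2 := by
        nlinarith [sq_nonneg (Real.cosh I - Real.cosh η₁)]
      calc 4 * Real.cosh I ^ 2 * (Real.cosh η₁ + Real.cosh I) =
            2 * Real.cosh I * (2 * Real.cosh I * (Real.cosh η₁ + Real.cosh I)) := by ring
        _ ≤ 2 * Real.cosh I * (4 + τ ^ 2 * (e + 3 * Real.cos R ^ 2)) :=
            mul_le_mul_of_nonneg_left (s4.trans s3) (by positivity)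
    have s5 : 0 ≤ 4 * (1 + τ ^ 2 * Real.cos R ^ 2) * (4 + τ ^ 2 * (e + 3 * Real.cos R ^ 2))⁻¹ := by
      have : 0 ≤ e := by rw [hed]; positivity
      positivity
    have s6 : 0 ≤ Real.tanh I * (Real.cos ρ₁ / Real.cos R - 1) := by
      refine mul_nonneg g0.le ?_
      have : 1 ≤ Real.cos ρ₁ / Real.cos R := (one_le_div cR).2 hcRρ
      linarith
    refine (mul_le_mul s1 s2 s5 s6).trans ?_
    have s7 : Real.tanh I * (Real.cos ρ₁ / Real.cos R - 1) *
        (2 * Real.cosh I / (Real.cosh η₁ + Real.cosh I)) =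
        2 * (Real.sinh η₁ - Real.sinh I) / (Real.cosh η₁ + Real.cosh I) := by
      rw [hη₁, C.hI, Real.tanh_eq_sinh_div_cosh, C.hI]
      field_simp
    rw [s7, div_le_iff₀ (by positivity)]
    exact h2
  have a20 : 0 ≤ Real.tanh I * (c * q - 1) * (4 * (1 + τ ^ 2 * Real.cos R ^ 2) *
      (4 + τ ^ 2 * (e + 3 * Real.cos R ^ 2))⁻¹) := by
    have : 0 ≤ e := by rw [hed]; positivity
    have := cq.le
    positivity
  have hκ : (6238 / 10000 : ℝ) ≤ 49 / 50 * (2 / Real.pi) := by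
    rw [mul_div_assoc', le_div_iff₀ hpi]
    linarith
  push_cast at key
  refine key.trans ?_
  have e1 : b * (49 / 50 * (2 / Real.pi) * ((ρ - R) * (I - η))) =
      (49 / 50 * (2 / Real.pi) * b) * (R - ρ) * (η - I) := by ring
  rw [e1]
  refine mul_le_mul (mul_le_mul (mul_le_mul hκ hbl hbl0 (by positivity)) a1 a10 (by positivity))
    (a2.trans (by linarith)) a20 ?_
  have : 0 ≤ R - ρ := by linarith
  positivity

end J6

end Pool.Agent.S3.E
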