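import Pool.Agent.S3.E.Star

/-!
# Stage 3, block E: the second derivative in the edge variable, inner `2`

`k4_two`: `k = |X|`, `k' = ρ₁²`, `β = β₁`, `R = k'/k ≥ 1`.  The claim times `cos φ` is
`2 k k' cos φ + k'² cos (3φ + 2β) + k² cos (φ + 2β) > 0`.  By `star_two` `2φ + β < π/2`, so
`cos (3φ + 2β) + cos φ = 2 cos (2φ + β) cos (φ + β) ≥ 0` and `cos (φ + 2β) ≥ (1 - 2 sin β) cos φ`
(that is `sin β (cos φ - sin (φ + β)) ≥ 0`).  So it is enough that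
`(k' - k)² < 2 k² (1 - sin β)`, that is, with `v = k/k'`, `(1 - v)² < 2 v² (1 - sin β)`.

Bound of `v`: `|b₁ + b₂|² = 4 |X| |b₁ b₂ - X|`; with `σ = ρ₂/ρ₁`, `δ = β₁ - β₂`, `ρ₁ ≤ 1` and
`cos (2φ + β₁ + β₂) ≥ - sin β₂`:
`(1 + σ² + 2σ cos δ)² ≤ 16 v² (σ² + v² + 2σ v sin β₂)`.
`v ≤ 1/2` is impossible: `(1 + σ² + 2σ cos δ)² ≤ 4σ² + 1 + 4σ sin β₂` contradicts `cos δ ≥ 0.7`,
`sin β₂ ≤ 0.7072`, `σ ≥ 1/2`.  So for `β ≤ 1/2`: `(1 - v)² < v² ≤ 2 v² (1 - sin β)`.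
For `β > 1/2`, `v ≤ 0.5435` is impossible: if `β₂ ≥ 1/4` then `|δ| ≤ 0.45`, `cos δ ≥ 0.898`; if
`β₂ < 1/4` then `sin β₂ ≤ 0.25`, `cos δ ≥ 0.755`; both contradict `σ ≥ 1/2`.
And `0.84² = 0.7056 < 2 - 2 sin (0.7) = 0.7115`.
-/

namespace Pool.Agent.S3.E

private theorem k4_re (r θ : ℝ) :
    ((r : ℂ) * Complex.exp ((θ : ℂ) * Complex.I)).re = r * Real.cos θ := by
  rw [Complex.re_ofReal_mul, Complex.exp_ofReal_mul_I_re]

private theorem k4_im (r θ : ℝ) :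
    ((r : ℂ) * Complex.exp ((θ : ℂ) * Complex.I)).im = r * Real.sin θ := by
  rw [Complex.im_ofReal_mul, Complex.exp_ofReal_mul_I_im]

private theorem k4_norm {X : ℂ} {φ ρ₁ β₁ ρ₂ β₂ : ℝ}
    (h : 4 * X ^ 2 - 4 * (((ρ₁ : ℂ) * Complex.exp ((β₁ : ℂ) * Complex.I)) *
      ((ρ₂ : ℂ) * Complex.exp ((β₂ : ℂ) * Complex.I))) * X +
      (((ρ₁ : ℂ) * Complex.exp ((β₁ : ℂ) * Complex.I)) +
        ((ρ₂ : ℂ) * Complex.exp ((β₂ : ℂ) * Complex.I))) ^ 2 = 0)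
    (hX : X = (‖X‖ : ℂ) * Complex.exp (-(2 * φ : ℝ) * Complex.I)) :
    (ρ₁ ^ 2 + ρ₂ ^ 2 + 2 * ρ₁ * ρ₂ * Real.cos (β₁ - β₂)) ^ 2 =
      16 * ‖X‖ ^ 2 * (ρ₁ ^ 2 * ρ₂ ^ 2 + ‖X‖ ^ 2 -
        2 * ρ₁ * ρ₂ * ‖X‖ * Real.cos (2 * φ + β₁ + β₂)) := by
  set k := ‖X‖ with hk
  have hX2 : X = (k : ℂ) * Complex.exp (((-(2 * φ) : ℝ) : ℂ) * Complex.I) := by
    rw [hX]; push_cast; ring_nf
  have hre : X.re = k * Real.cos (2 * φ) := by
    rw [hX2, k4_re, Real.cos_neg]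
  have him : X.im = -(k * Real.sin (2 * φ)) := by
    rw [hX2, k4_im, Real.sin_neg]; ring
  set b₁ : ℂ := (ρ₁ : ℂ) * Complex.exp ((β₁ : ℂ) * Complex.I) with hb₁
  set b₂ : ℂ := (ρ₂ : ℂ) * Complex.exp ((β₂ : ℂ) * Complex.I) with hb₂
  have e : (b₁ + b₂) ^ 2 = 4 * X * (b₁ * b₂ - X) := by linear_combination h
  have e2 := congrArg Complex.normSq e
  rw [map_pow, map_mul, map_mul] at e2
  have n4 : Complex.normSq 4 = 16 := by
    rw [show (4 : ℂ) = ((4 : ℝ) : ℂ) by norm_num, Complex.normSq_ofReal]; norm_num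
  have nX : Complex.normSq X = k ^ 2 := by rw [Complex.normSq_eq_norm_sq]
  have r1 : b₁.re = ρ₁ * Real.cos β₁ := by rw [hb₁, k4_re]
  have i1 : b₁.im = ρ₁ * Real.sin β₁ := by rw [hb₁, k4_im]
  have r2 : b₂.re = ρ₂ * Real.cos β₂ := by rw [hb₂, k4_re]
  have i2 : b₂.im = ρ₂ * Real.sin β₂ := by rw [hb₂, k4_im]
  clear_value b₁ b₂
  have nb : Complex.normSq (b₁ + b₂) =
      ρ₁ ^ 2 + ρ₂ ^ 2 + 2 * ρ₁ * ρ₂ * Real.cos (β₁ - β₂) := by
    rw [Complex.normSq_apply, Complex.add_re, Complex.add_im, r1, r2, i1, i2, Real.cos_sub]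
    have s1 := Real.sin_sq_add_cos_sq β₁
    have s2 := Real.sin_sq_add_cos_sq β₂
    linear_combination ρ₁ ^ 2 * s1 + ρ₂ ^ 2 * s2
  have nc : Complex.normSq (b₁ * b₂ - X) = ρ₁ ^ 2 * ρ₂ ^ 2 + k ^ 2 -
        2 * ρ₁ * ρ₂ * k * Real.cos (2 * φ + β₁ + β₂) := by
    rw [Complex.normSq_apply, Complex.sub_re, Complex.sub_im, Complex.mul_re, Complex.mul_im,
      r1, r2, i1, i2, hre, him, Real.cos_add, Real.cos_add, Real.sin_add]
    have s1 := Real.sin_sq_add_cos_sq β₁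
    have s2 := Real.sin_sq_add_cos_sq β₂
    have s3 := Real.sin_sq_add_cos_sq (2 * φ)
    linear_combination (ρ₁ ^ 2 * ρ₂ ^ 2 * (Real.sin β₂ ^ 2 + Real.cos β₂ ^ 2)) * s1 +
      (ρ₁ ^ 2 * ρ₂ ^ 2) * s2 + k ^ 2 * s3
  rw [nb, nc, nX, n4] at e2
  exact e2

private theorem k4_sin : Real.sin (7 / 10) ≤ 647 / 1000 := by
  have a1 := Real.sin_bound (x := 7 / 20) (by rw [abs_of_pos] <;> norm_num)
  have a2 := Real.cos_bound (x := 7 / 20) (by rw [abs_of_pos] <;> norm_num)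
  rw [abs_of_pos (show (0 : ℝ) < 7 / 20 by norm_num)] at a1 a2
  have b1 := (abs_le.mp a1).2
  have b2 := (abs_le.mp a2).2
  have c0 : 0 ≤ Real.sin (7 / 20) := Real.sin_nonneg_of_nonneg_of_le_pi (by norm_num)
    (by linarith only [Real.pi_gt_three])
  have c1 : Real.sin (7 / 20) ≤ 3437 / 10000 := by norm_num at b1 ⊢; linarith only [b1]
  have c2 : Real.cos (7 / 20) ≤ 9396 / 10000 := by norm_num at b2 ⊢; linarith only [b2]
  have e : Real.sin (7 / 10) = 2 * Real.sin (7 / 20) * Real.cos (7 / 20) := by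
    rw [← Real.sin_two_mul]; norm_num
  rw [e]
  linarith only [b1, mul_nonneg (sub_nonneg.2 b2) (sub_nonneg.2 c0)]

/-- The polynomial form of the bound. -/
private theorem k4_v {v σ c s : ℝ} (hσ : 1 / 2 ≤ σ)
    (hv0 : 0 ≤ v) (hs : 0 ≤ s)
    (h : (1 + σ ^ 2 + 2 * σ * c) ^ 2 ≤ 16 * v ^ 2 * (σ ^ 2 + v ^ 2 + 2 * σ * v * s)) {v₁ : ℝ}
    (hv : v ≤ v₁) :
    (1 + σ ^ 2 + 2 * σ * c) ^ 2 ≤ 16 * v₁ ^ 2 * (σ ^ 2 + v₁ ^ 2 + 2 * σ * v₁ * s) := by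
  refine h.trans ?_
  have h1 : 0 ≤ v₁ := hv0.trans hv
  have h2 : v ^ 2 ≤ v₁ ^ 2 := by gcongr
  have h3 : 0 ≤ σ := by linarith only [hσ]
  gcongr

private theorem k4_p1 {σ s : ℝ} (hσ : 1 / 2 ≤ σ)
    (h : (1 + σ ^ 2 + 2 * σ * (7 / 10)) ^ 2 ≤
      16 * (1 / 2) ^ 2 * (σ ^ 2 + (1 / 2) ^ 2 + 2 * σ * (1 / 2) * s))
    (hs : σ * s ≤ σ * (7072 / 10000)) : False := by
  have h5 : 1 / 4 ≤ σ ^ 2 := by linarith only [hσ, mul_nonneg (sub_nonneg.2 hσ) (sub_nonneg.2 hσ)]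
  have h7 : σ ^ 2 / 2 ≤ σ ^ 3 := by linarith only [mul_nonneg (sq_nonneg (1 * σ)) (sub_nonneg.2 hσ)]
  have h8 : 0 < σ ^ 4 := by positivity
  have h9 : 0 < σ ^ 2 := by positivity
  have h10 : σ / 4 ≤ σ ^ 3 := by (refine le_of_not_gt fun hng => ?_; linarith only [h7,
                                   mul_nonneg (sub_nonneg.2 h7) (sub_nonneg.2 h7),
                                   mul_nonneg (sub_nonneg.2 hng.le) (sub_nonneg.2 h7),
                                   mul_pos (sub_pos.2 hng) (sub_pos.2 hng),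
                                   mul_nonneg (sq_nonneg (1 * σ)) (sub_nonneg.2 hng.le)])
  ring_nf at h hs h7 h8 h9 h10
  linarith only [h10, h7, hs, h, h9, h8]

private theorem k4_p2 {σ s : ℝ} (hσ : 1 / 2 ≤ σ)
    (h : (1 + σ ^ 2 + 2 * σ * (898 / 1000)) ^ 2 ≤
      16 * (5435 / 10000) ^ 2 * (σ ^ 2 + (5435 / 10000) ^ 2 + 2 * σ * (5435 / 10000) * s))
    (hs : σ * s ≤ σ * (7072 / 10000)) : False := by
  have h5 : 1 / 4 ≤ σ ^ 2 := by linarith only [hσ, mul_nonneg (sub_nonneg.2 hσ) (sub_nonneg.2 hσ)]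
  have h7 : σ ^ 2 / 2 ≤ σ ^ 3 := by linarith only [mul_nonneg (sq_nonneg (1 * σ)) (sub_nonneg.2 hσ)]
  have h8 : 0 < σ ^ 4 := by positivity
  have h10 : σ / 4 ≤ σ ^ 3 := by (refine le_of_not_gt fun hng => ?_; linarith only [h7,
                                   mul_nonneg (sub_nonneg.2 h7) (sub_nonneg.2 h7),
                                   mul_nonneg (sub_nonneg.2 hng.le) (sub_nonneg.2 h7),
                                   mul_pos (sub_pos.2 hng) (sub_pos.2 hng),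
                                   mul_nonneg (sq_nonneg (1 * σ)) (sub_nonneg.2 hng.le)])
  have h11 : σ ^ 3 / 2 ≤ σ ^ 4 := by linarith only [h10, h8, h7, h5, hs, h]
  ring_nf at h hs h7 h8 h10 h11
  linarith only [h10, h7, hs, h, h8, h5]

private theorem k4_p3 {σ s : ℝ} (hσ : 1 / 2 ≤ σ)
    (h : (1 + σ ^ 2 + 2 * σ * (755 / 1000)) ^ 2 ≤
      16 * (5435 / 10000) ^ 2 * (σ ^ 2 + (5435 / 10000) ^ 2 + 2 * σ * (5435 / 10000) * s))
    (hs : σ * s ≤ σ * (1 / 4)) : False := by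
  have h5 : 1 / 4 ≤ σ ^ 2 := by linarith only [hσ, mul_nonneg (sub_nonneg.2 hσ) (sub_nonneg.2 hσ)]
  have h7 : σ ^ 2 / 2 ≤ σ ^ 3 := by linarith only [mul_nonneg (sq_nonneg (1 * σ)) (sub_nonneg.2 hσ)]
  have h8 : 0 < σ ^ 4 := by positivity
  have h10 : σ / 4 ≤ σ ^ 3 := by linarith only [h8, h7, h5, hs, h]
  have h11 : σ ^ 3 / 2 ≤ σ ^ 4 := by linarith only [h8, h7, hs, h, hσ]
  ring_nf at h hs h7 h8 h10 h11
  linarith only [h7, h, h8, h5, hs, hσ]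

private theorem k4_key {k φ ρ₁ β₁ ρ₂ β₂ : ℝ}
    (hN : (ρ₁ ^ 2 + ρ₂ ^ 2 + 2 * ρ₁ * ρ₂ * Real.cos (β₁ - β₂)) ^ 2 =
      16 * k ^ 2 * (ρ₁ ^ 2 * ρ₂ ^ 2 + k ^ 2 -
        2 * ρ₁ * ρ₂ * k * Real.cos (2 * φ + β₁ + β₂))) (hk : 0 < k)
    (hφ : 0 ≤ φ) (hρ₁ : 0 < ρ₁) (hρ₁' : ρ₁ ≤ 1) (hρ₂ : 1 / 2 ≤ ρ₂)
    (hβ₁ : 0 ≤ β₁) (hβ₁' : β₁ ≤ 7 / 10) (hβ₂ : 0 ≤ β₂) (hβ₂' : β₂ ≤ Real.pi / 4)
    (hXb : k ≤ ρ₁ ^ 2) (hst : 2 * φ + β₁ < Real.pi / 2) :
    (ρ₁ ^ 2 - k) ^ 2 < 2 * k ^ 2 * (1 - Real.sin β₁) := by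
  have hpi := Real.pi_pos
  have hpi3 := Real.pi_gt_three
  have hpi4 := Real.pi_lt_d2
  set v := k / ρ₁ ^ 2 with hv
  set σ := ρ₂ / ρ₁ with hσ
  have hρ2 : 0 < ρ₁ ^ 2 := by positivity
  have hkv : k = v * ρ₁ ^ 2 := by rw [hv]; field_simp
  have hρσ : ρ₂ = σ * ρ₁ := by rw [hσ]; field_simp
  have hv0 : 0 < v := by rw [hv]; positivity
  have hv1 : v ≤ 1 := by rw [hv, div_le_one hρ2]; exact hXb
  have hσ1 : 1 / 2 ≤ σ := by
    rw [hσ, le_div_iff₀ hρ₁]; linarith only [hρ₂, hρ₁']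
  have hσ0 : 0 < σ := by linarith only [hσ1, hpi4, hpi3]
  have hcos : -Real.sin β₂ ≤ Real.cos (2 * φ + β₁ + β₂) := by
    rw [← Real.cos_add_pi_div_two]
    apply Real.cos_le_cos_of_nonneg_of_le_pi
    · positivity
    · linarith only [hβ₂', hβ₂]
    · linarith only [hst]
  have hs0 : 0 ≤ Real.sin β₂ := Real.sin_nonneg_of_nonneg_of_le_pi hβ₂ (by linarith only [hβ₂', hβ₂])
  have hA : (1 + σ ^ 2 + 2 * σ * Real.cos (β₁ - β₂)) ^ 2 ≤
      16 * v ^ 2 * (σ ^ 2 + v ^ 2 + 2 * σ * v * Real.sin β₂) := by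
    have e : (1 + σ ^ 2 + 2 * σ * Real.cos (β₁ - β₂)) ^ 2 =
        (16 * v ^ 2 * (σ ^ 2 + v ^ 2 + 2 * σ * v * (-Real.cos (2 * φ + β₁ + β₂)))) *
          ρ₁ ^ 4 := by
      rw [hkv, hρσ] at hN
      have hne : ρ₁ ^ 4 ≠ 0 := by positivity
      apply mul_left_cancel₀ hne
      linear_combination hN
    have e2 : 0 ≤ 16 * v ^ 2 * (σ ^ 2 + v ^ 2 + 2 * σ * v * (-Real.cos (2 * φ + β₁ + β₂))) := by
      have : 0 ≤ (v - σ) ^ 2 + 2 * (σ * v) * (1 - Real.cos (2 * φ + β₁ + β₂)) := by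
        have := Real.cos_le_one (2 * φ + β₁ + β₂)
        have h3 : 0 ≤ 1 - Real.cos (2 * φ + β₁ + β₂) := by linarith only [this]
        positivity
      have h4 : 0 ≤ 16 * v ^ 2 := by positivity
      apply mul_nonneg h4
      linarith only [this]
    rw [e]
    have e3 : ρ₁ ^ 4 ≤ 1 := pow_le_one₀ hρ₁.le hρ₁'
    calc _ ≤ (16 * v ^ 2 * (σ ^ 2 + v ^ 2 + 2 * σ * v * (-Real.cos (2 * φ + β₁ + β₂)))) * 1 := by
          gcongr
      _ ≤ _ := by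
          rw [mul_one]
          have : -Real.cos (2 * φ + β₁ + β₂) ≤ Real.sin β₂ := by linarith only [hcos]
          gcongr
  have hsq2 : Real.sqrt 2 ≤ 14144 / 10000 := by
    rw [Real.sqrt_le_left (by norm_num)]; norm_num
  have hsq2' : 14142 / 10000 ≤ Real.sqrt 2 := by
    apply Real.le_sqrt_of_sq_le; norm_num
  have hs1 : Real.sin β₂ ≤ 7072 / 10000 := by
    have : Real.sin β₂ ≤ Real.sin (Real.pi / 4) :=
      Real.sin_le_sin_of_le_of_le_pi_div_two (by linarith only [hβ₂', hβ₂]) (by linarith only [hβ₂',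
                                                                                  hβ₂]) hβ₂'
    rw [Real.sin_pi_div_four] at this
    linarith only [this, hsq2]
  have hc1 : 7 / 10 ≤ Real.cos (β₁ - β₂) := by
    have : Real.cos (Real.pi / 4) ≤ Real.cos (β₁ - β₂) := by
      rw [← Real.cos_abs (β₁ - β₂)]
      apply Real.cos_le_cos_of_nonneg_of_le_pi (abs_nonneg _) (by linarith only [hβ₂', hβ₂])
      rw [abs_le]; constructor <;> linarith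
    rw [Real.cos_pi_div_four] at this
    linarith only [this, hsq2', hpi4, hpi3]
  suffices hh : (1 - v) ^ 2 < 2 * v ^ 2 * (1 - Real.sin β₁) by
    rw [hkv]
    have : 0 < (ρ₁ ^ 2) ^ 2 := by positivity
    linarith only [mul_pos (sub_pos.2 hh) (sub_pos.2 this)]
  rcases le_or_gt β₁ (1 / 2) with hb | hb
  · have hv2 : 1 / 2 < v := by
      by_contra hcon
      rw [not_lt] at hcon
      have h1 := k4_v hσ1 hv0.le hs0 hA hcon
      have h2 : 1 + σ ^ 2 + 2 * σ * (7 / 10) ≤ 1 + σ ^ 2 + 2 * σ * Real.cos (β₁ - β₂) := by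
        gcongr
      have h3 : (1 + σ ^ 2 + 2 * σ * (7 / 10)) ^ 2 ≤
          (1 + σ ^ 2 + 2 * σ * Real.cos (β₁ - β₂)) ^ 2 := by gcongr
      have h4 : σ * Real.sin β₂ ≤ σ * (7072 / 10000) := by gcongr
      exact k4_p1 hσ1 (h3.trans h1) h4
    have hs : Real.sin β₁ ≤ 1 / 2 := (Real.sin_le hβ₁).trans hb
    have h1 : (1 - v) ^ 2 < v ^ 2 := by linarith only [hv2]
    have h2 : v ^ 2 ≤ 2 * v ^ 2 * (1 - Real.sin β₁) := by linarith only [mul_nonneg (sq_nonneg (v)) (sub_nonneg.2 hs)]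
    linarith only [h2, hv2]
  · have hv2 : 5435 / 10000 < v := by
      by_contra hcon
      rw [not_lt] at hcon
      have h1 := k4_v hσ1 hv0.le hs0 hA hcon
      rcases le_or_gt (1 / 4) β₂ with hb2 | hb2
      · have hc2 : 898 / 1000 ≤ Real.cos (β₁ - β₂) := by
          have e := Real.one_sub_sq_div_two_le_cos (x := β₁ - β₂)
          have e2 : (β₁ - β₂) ^ 2 ≤ (45 / 100) ^ 2 := by
            apply sq_le_sq'
            · linarith only [hb, hpi4, hpi3, hβ₂']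
            · linarith only [hb2, hβ₁']
          linarith only [e2, e, hpi4, hpi3]
        have h2 : 1 + σ ^ 2 + 2 * σ * (898 / 1000) ≤
            1 + σ ^ 2 + 2 * σ * Real.cos (β₁ - β₂) := by gcongr
        have h3 : (1 + σ ^ 2 + 2 * σ * (898 / 1000)) ^ 2 ≤
            (1 + σ ^ 2 + 2 * σ * Real.cos (β₁ - β₂)) ^ 2 := by gcongr
        have h4 : σ * Real.sin β₂ ≤ σ * (7072 / 10000) := by gcongr
        exact k4_p2 hσ1 (h3.trans h1) h4
      · have hc2 : 755 / 1000 ≤ Real.cos (β₁ - β₂) := by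
          have e := Real.one_sub_sq_div_two_le_cos (x := β₁ - β₂)
          have e2 : (β₁ - β₂) ^ 2 ≤ (7 / 10) ^ 2 := by
            apply sq_le_sq'
            · linarith only [hb, hpi4, hpi3, hβ₂']
            · linarith only [hβ₂, hβ₁']
          linarith only [e2, e]
        have h2 : 1 + σ ^ 2 + 2 * σ * (755 / 1000) ≤
            1 + σ ^ 2 + 2 * σ * Real.cos (β₁ - β₂) := by gcongr
        have h3 : (1 + σ ^ 2 + 2 * σ * (755 / 1000)) ^ 2 ≤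
            (1 + σ ^ 2 + 2 * σ * Real.cos (β₁ - β₂)) ^ 2 := by gcongr
        have hs2 : Real.sin β₂ ≤ 1 / 4 := (Real.sin_le hβ₂).trans hb2.le
        have h4 : σ * Real.sin β₂ ≤ σ * (1 / 4) := by gcongr
        exact k4_p3 hσ1 (h3.trans h1) h4
    have hs : Real.sin β₁ ≤ 647 / 1000 := by
      refine le_trans ?_ k4_sin
      apply Real.sin_le_sin_of_le_of_le_pi_div_two <;> linarith
    have h1 : (1 - v) ^ 2 < 7056 / 10000 * v ^ 2 := by linarith only [hv2,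
                                                         mul_nonneg (sub_nonneg.2 hv1) (sub_nonneg.2 hv2.le)]
    have h2 : 7056 / 10000 * v ^ 2 ≤ 2 * v ^ 2 * (1 - Real.sin β₁) := by
      have := mul_nonneg (sq_nonneg v) (show 0 ≤ 2 - 2 * Real.sin β₁ - 7056 / 10000 by linarith only [hs,
                                                                                         hpi4, hpi3])
      linarith only [this]
    linarith only [h2, h1]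

theorem k4_two {X : ℂ} {φ ρ₁ β₁ ρ₂ β₂ : ℝ}
    (h : 4 * X ^ 2 - 4 * (((ρ₁ : ℂ) * Complex.exp ((β₁ : ℂ) * Complex.I)) *
      ((ρ₂ : ℂ) * Complex.exp ((β₂ : ℂ) * Complex.I))) * X +
      (((ρ₁ : ℂ) * Complex.exp ((β₁ : ℂ) * Complex.I)) +
        ((ρ₂ : ℂ) * Complex.exp ((β₂ : ℂ) * Complex.I))) ^ 2 = 0)
    (hX : X = (‖X‖ : ℂ) * Complex.exp (-(2 * φ : ℝ) * Complex.I)) (hX0 : X ≠ 0)
    (hφ : 0 ≤ φ) (hφ' : φ ≤ Real.pi / 4) (hρ₁ : 0 < ρ₁) (hρ₁' : ρ₁ ≤ 1) (hρ₂ : 1 / 2 ≤ ρ₂)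
    (hβ₁ : 0 ≤ β₁) (hβ₁' : β₁ ≤ 7 / 10) (hβ₂ : 0 ≤ β₂) (hβ₂' : β₂ ≤ Real.pi / 4)
    (hXb : ‖X‖ ≤ ρ₁ ^ 2) :
    0 < 2 * ‖X‖ * ρ₁ ^ 2 + ((ρ₁ ^ 2) ^ 2 + ‖X‖ ^ 2) * Real.cos (2 * φ + 2 * β₁) -
      Real.tan φ * ((ρ₁ ^ 2) ^ 2 - ‖X‖ ^ 2) * Real.sin (2 * φ + 2 * β₁) := by
  have hst := star_two h hX hX0 hφ hφ' hρ₁ hρ₁' hρ₂ hβ₁ hβ₁' hβ₂ hβ₂' hXb
  have hN := k4_norm h hX
  have hk : 0 < ‖X‖ := norm_pos_iff.mpr hX0
  set k := ‖X‖ with hkd
  have hpi := Real.pi_pos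
  have hpi3 := Real.pi_gt_three
  have hpi4 := Real.pi_lt_d2
  clear_value k
  have hcφ : 0 < Real.cos φ := Real.cos_pos_of_mem_Ioo ⟨by linarith only [hst, hβ₁, hφ], by linarith only [hst,
                                                                                              hβ₁,
                                                                                              hφ]⟩
  have hsβ : 0 ≤ Real.sin β₁ := Real.sin_nonneg_of_nonneg_of_le_pi hβ₁ (by linarith only [hst, hφ',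
                                                                             hφ])
  have key := k4_key hN hk hφ hρ₁ hρ₁' hρ₂ hβ₁ hβ₁' hβ₂ hβ₂' hXb hst
  -- trigonometry
  have hcs3 : -Real.cos φ ≤ Real.cos (2 * φ + 2 * β₁ + φ) := by
    have e : Real.cos (2 * φ + 2 * β₁ + φ) + Real.cos φ =
        2 * Real.cos (2 * φ + β₁) * Real.cos (φ + β₁) := by
      have e1 : 2 * φ + 2 * β₁ + φ = (2 * φ + β₁) + (φ + β₁) := by ring
      have e2 : φ = (2 * φ + β₁) - (φ + β₁) := by ring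
      conv_lhs => rw [e1, Real.cos_add]
      conv_lhs => rhs; rw [e2, Real.cos_sub]
      ring
    have h1 : 0 ≤ Real.cos (2 * φ + β₁) :=
      Real.cos_nonneg_of_mem_Icc ⟨by linarith only [hβ₁, hφ', hφ], by linarith only [hst]⟩
    have h2 : 0 ≤ Real.cos (φ + β₁) :=
      Real.cos_nonneg_of_mem_Icc ⟨by linarith only [hβ₁, hφ', hφ], by linarith only [hst, hφ]⟩
    have h3 := mul_nonneg h1 h2
    linarith only [h3, e]
  have hcs1 : (1 - 2 * Real.sin β₁) * Real.cos φ ≤ Real.cos (2 * φ + 2 * β₁ - φ) := by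
    have e : Real.cos (2 * φ + 2 * β₁ - φ) - (1 - 2 * Real.sin β₁) * Real.cos φ =
        2 * Real.sin β₁ * (Real.cos φ - Real.sin (φ + β₁)) := by
      have e1 : 2 * φ + 2 * β₁ - φ = φ + 2 * β₁ := by ring
      rw [e1, Real.cos_add, Real.sin_add, Real.cos_two_mul, Real.sin_two_mul]
      have s1 := Real.sin_sq_add_cos_sq β₁
      linear_combination (2 * Real.cos φ) * s1
    have h1 : Real.sin (φ + β₁) ≤ Real.cos φ := by
      rw [← Real.sin_pi_div_two_sub]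
      apply Real.sin_le_sin_of_le_of_le_pi_div_two <;> linarith
    have h2 : 0 ≤ 2 * Real.sin β₁ * (Real.cos φ - Real.sin (φ + β₁)) := by
      apply mul_nonneg (by linarith only [hsβ]) (by linarith only [h1])
    linarith only [h2, e]
  have hG : 0 < Real.cos φ * (2 * k * ρ₁ ^ 2 +
      ((ρ₁ ^ 2) ^ 2 + k ^ 2) * Real.cos (2 * φ + 2 * β₁) -
      Real.tan φ * ((ρ₁ ^ 2) ^ 2 - k ^ 2) * Real.sin (2 * φ + 2 * β₁)) := by
    have e : Real.cos φ * (2 * k * ρ₁ ^ 2 +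
      ((ρ₁ ^ 2) ^ 2 + k ^ 2) * Real.cos (2 * φ + 2 * β₁) -
      Real.tan φ * ((ρ₁ ^ 2) ^ 2 - k ^ 2) * Real.sin (2 * φ + 2 * β₁)) =
        2 * k * ρ₁ ^ 2 * Real.cos φ + (ρ₁ ^ 2) ^ 2 * Real.cos (2 * φ + 2 * β₁ + φ) +
          k ^ 2 * Real.cos (2 * φ + 2 * β₁ - φ) := by
      rw [Real.cos_add (2 * φ + 2 * β₁) φ, Real.cos_sub (2 * φ + 2 * β₁) φ,
        Real.tan_eq_sin_div_cos]
      field_simp
      ring
    rw [e]
    have h1 : (ρ₁ ^ 2) ^ 2 * (-Real.cos φ) ≤ (ρ₁ ^ 2) ^ 2 * Real.cos (2 * φ + 2 * β₁ + φ) := by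
      gcongr
    have h2 : k ^ 2 * ((1 - 2 * Real.sin β₁) * Real.cos φ) ≤
        k ^ 2 * Real.cos (2 * φ + 2 * β₁ - φ) := by gcongr
    have h3 : 0 < Real.cos φ * (2 * k ^ 2 * (1 - Real.sin β₁) - (ρ₁ ^ 2 - k) ^ 2) :=
      mul_pos hcφ (by linarith only [key])
    linarith only [h3, h2, h1]
  exact (mul_pos_iff_of_pos_left hcφ).mp hG

end Pool.Agent.S3.E
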