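import Pool.Agent.S3.E.J6B
import Pool.Agent.S3.E.J6O

/-!
# Stage 3, block E: the branch and bound at a vertex with extra facts about the neighbours
-/

set_option autoImplicit false

namespace Pool.Agent.S3.E

open Complex

namespace J6

open NI

/-! ### The extra tests -/

def sX (f : N) : N := N.sub one (N.add one f.sq).inv
/-- `e2`: the neighbour has two twists; `e3`: it has three twists. -/
def fX (e2 e3 : Bool) (K s : N) : Bool :=
  bif e2 then K.lt (cst 511 1000) else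
  (K.lt (cst 42 100) || ((e3 || K.lt (cst 1 2)) &&
    (N.mul s (cst 11449 10000)).lt (N.mul (cst 7 100) (N.sub (cst 107 100) K))))
def mX (e2 e3 : Bool) (iD a P c m : N) : Bool := (N.add m a).ps &&
  fX e2 e3 (N.mul (N.add (N.sub (N.sub one P.sq).inv one) (N.add one c.sq).inv) iD)
    (sX (N.mul (N.sub one (N.mul a m)) (N.add m a).inv))
def gX (e2 e3 : Bool) (iD a P T g : N) : Bool :=
  fX e2 e3 (N.mul (N.add (N.sub (N.sub one P.sq).inv one) (N.sub one (N.add one T.sq).inv)) iD)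
   (sX (N.mul (N.sub g a) (N.add one (N.mul a g)).inv))
def nX (e2 e3 pl : Bool) (iD a P X v : N) : Bool :=
  (N.sub one P.sq).ps && P.ps &&
  bif pl then mX e2 e3 iD a P (N.mul (N.sub X v) (N.add one (N.mul X v)).inv)
    (N.mul (N.mul (N.sub X v) (N.add one (N.mul X v)).inv) P)
  else gX e2 e3 iD a P (N.mul (N.sub one (N.mul X v)) (N.add X v).inv)
    (N.mul (N.mul (N.sub one (N.mul X v)) (N.add X v).inv) P.inv)
def exX (e2 e3 sE sv : Bool) (X g E v iD a : N) : Bool :=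
  bif sE then nX false e3 sv iD a (pP g E) X v || nX e2 false (!sv) iD a (pM g E) X v
  else nX false e3 sv iD a (pM g E) X v || nX e2 false (!sv) iD a (pP g E) X v
def ex0 (e2 e3 sE sv : Bool) (X g E v X2 g2 : N) : Bool :=
  (N.sub one g2).ps && (N.add X2 g2).ps && (N.sub one (N.mul g E)).ps &&
  exX e2 e3 sE sv X g E v (N.mul (N.add one (N.mul X2 g2)) (N.add X2 g2).inv)
    (N.mul (N.mul g (N.sub one g2).inv) (N.add X X.inv))

/-- Extra facts about a neighbour. -/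
structure Ex (e2 e3 : Bool) (K f : ℝ) : Prop where
  K1 : K ≤ 1
  a : e2 = true → 511 / 1000 ≤ K
  b : e2 = false → 42 / 100 ≤ K
  c : e2 = false → (e3 = false ∧ 1 / 2 ≤ K) ∨ 7 / 100 * (107 / 100 - K) ≤ sR f * (11449 / 10000)

theorem Ex.fX_ff {e2 e3 : Bool} {K f : ℝ} (H : Ex e2 e3 K f) {B S : N} (hB : Mem K B)
    (hS : Mem (sR f) S) : fX e2 e3 B S = false := by
  have e : fX e2 e3 B S = (bif e2 then B.lt (cst 511 1000) else
    (B.lt (cst 42 100) || ((e3 || B.lt (cst 1 2)) &&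
    (N.mul S (cst 11449 10000)).lt (N.mul (cst 7 100) (N.sub (cst 107 100) B))))) := rfl
  rw [e]
  have hK := H.K1
  rcases e2 with _ | _
  · rw [cond_false]
    refine ff_or (ff_lt hB (mem_nat (by norm_num) (by norm_num : (42 / 100 : ℝ) = _)) (H.b rfl)) ?_
    rcases H.c rfl with ⟨h1, h2⟩ | h1
    · rw [h1, ff_lt hB (mem_nat (by norm_num) (by norm_num : (1 / 2 : ℝ) = _)) h2]
      rfl
    · rw [ff_lt (hS.mul (mem_nat (by norm_num) (by norm_num : (11449 / 10000 : ℝ) = _)))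
        ((mem_nat (by norm_num) (by norm_num : (7 / 100 : ℝ) = _)).mul
        ((mem_nat (by norm_num) (by norm_num : (107 / 100 : ℝ) = _)).sub hB (by linarith))) h1]
      exact Bool.and_false _
  · rw [cond_true]
    exact ff_lt hB (mem_nat (by norm_num) (by norm_num : (511 / 1000 : ℝ) = _)) (H.a rfl)

theorem mX_ff {e2 e3 : Bool} {d a P c m : ℝ} {dN aN PN cN mN : N}
    (hd : Mem d dN) (ha : Mem a aN) (hP : Mem P PN) (hc : Mem c cN) (hg : Mem m mN)
    (h1 : (N.sub one PN.sq).ps = true) (hP0 : 0 < P) (hP1 : P < 1) (hm : a * m ≤ 1)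
    (H : Ex e2 e3 (KRp d P c) (fRp a m)) : mX e2 e3 dN aN PN cN mN = false := by
  have hP2 : P ^ 2 ≤ 1 := by nlinarith
  have hp1 : Mem ((1 - P ^ 2)⁻¹ - 1) (N.sub (N.sub one PN.sq).inv one) := by
    refine ((mem_one.sub hP.sq hP2).inv h1).sub mem_one ?_
    exact (one_le_inv₀ (by nlinarith)).2 (by nlinarith)
  unfold mX
  rcases h3 : (N.add mN aN).ps with _ | _
  · rfl
  · rw [Bool.true_and]
    refine H.fX_ff ?_ (mem_sR ?_)
    · unfold KRp
      exact (hp1.add ((mem_one.add hc.sq).inv (ps_one_add _))).mul hd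
    · unfold fRp
      exact (mem_one.sub (ha.mul hg) hm).mul ((hg.add ha).inv h3)

theorem gX_ff {e2 e3 : Bool} {d a P c m : ℝ} {dN aN PN cN mN : N}
    (hd : Mem d dN) (ha : Mem a aN) (hP : Mem P PN) (hc : Mem c cN) (hg : Mem m mN)
    (h1 : (N.sub one PN.sq).ps = true) (hP0 : 0 < P) (hP1 : P < 1) (hm : a ≤ m)
    (H : Ex e2 e3 (KRm d P c) (fRm a m)) : gX e2 e3 dN aN PN cN mN = false := by
  have hP2 : P ^ 2 ≤ 1 := by nlinarith
  have hp1 : Mem ((1 - P ^ 2)⁻¹ - 1) (N.sub (N.sub one PN.sq).inv one) := by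
    refine ((mem_one.sub hP.sq hP2).inv h1).sub mem_one ?_
    exact (one_le_inv₀ (by nlinarith)).2 (by nlinarith)
  unfold gX
  refine H.fX_ff ?_ (mem_sR ?_)
  · unfold KRm
    exact (hp1.add (mem_sR hc)).mul hd
  · unfold fRm
    exact (hg.sub ha hm).mul ((mem_one.add (ha.mul hg)).inv (ps_one_add _))

theorem nX_eq (e2 e3 pl : Bool) (iD a P X v : N) : nX e2 e3 pl iD a P X v =
  ((N.sub one P.sq).ps && P.ps &&
  bif pl then mX e2 e3 iD a P (N.mul (N.sub X v) (N.add one (N.mul X v)).inv)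
    (N.mul (N.mul (N.sub X v) (N.add one (N.mul X v)).inv) P)
  else gX e2 e3 iD a P (N.mul (N.sub one (N.mul X v)) (N.add X v).inv)
    (N.mul (N.mul (N.sub one (N.mul X v)) (N.add X v).inv) P.inv)) := rfl

theorem nX_ff {e2 e3 pl : Bool} {d a P X v : ℝ} {dN aN PN XN vN : N}
    (hd : Mem d dN) (ha : Mem a aN) (hP : Mem P PN) (hX : Mem X XN) (hv : Mem v vN)
    (hX0 : XN.ps = true) (hvX : v ≤ X) (hXv : X * v ≤ 1) (hP1 : P < 1)
    (hm : mR pl a P X v) (H : Ex e2 e3 (KR pl d P X v) (fR pl a P X v)) :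
    nX e2 e3 pl dN aN PN XN vN = false := by
  rw [nX_eq]
  rcases h1 : (N.sub one PN.sq).ps with _ | _
  · rw [Bool.false_and, Bool.false_and]
  rcases h2 : PN.ps with _ | _
  · rw [Bool.and_false, Bool.false_and]
  rw [Bool.true_and, Bool.true_and]
  have hP0 : 0 < P := hP.pos h2
  unfold mR at hm
  unfold KR fR at H
  rcases pl with _ | _
  · rw [cond_false] at hm ⊢
    rw [cond_false, cond_false] at H
    have hr : Mem (rR X v) (N.mul (N.sub one (N.mul XN vN)) (N.add XN vN).inv) := by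
      unfold rR
      exact (mem_one.sub (hX.mul hv) hXv).mul ((hX.add hv).inv (ps_add_left hX0))
    exact gX_ff hd ha hP hr (hr.mul (hP.inv h2)) h1 hP0 hP1 hm H
  · rw [cond_true] at hm ⊢
    rw [cond_true, cond_true] at H
    have hc : Mem (cR X v) (N.mul (N.sub XN vN) (N.add one (N.mul XN vN)).inv) := by
      unfold cR
      exact (hX.sub hv hvX).mul ((mem_one.add (hX.mul hv)).inv (ps_one_add _))
    exact mX_ff hd ha hP hc (hc.mul hP) h1 hP0 hP1 hm H

theorem exX_eq (e2 e3 sE sv : Bool) (X g E v iD a : N) : exX e2 e3 sE sv X g E v iD a =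
  (bif sE then nX false e3 sv iD a (pP g E) X v || nX e2 false (!sv) iD a (pM g E) X v
  else nX false e3 sv iD a (pM g E) X v || nX e2 false (!sv) iD a (pP g E) X v) := rfl

theorem Fa.exX {tj tk st sE sv : Bool} {X h E v κj κk : ℝ} (H : Fa tj tk st sE sv X h E v κj κk)
    {e2 e3 : Bool}
    (Hj : Ex false e3 (KR sv (iD X h) (pR sE h E) X v) (fR sv (aR X h) (pR sE h E) X v))
    (Hk : Ex e2 false (KR (!sv) (iD X h) (pR (!sE) h E) X v)
      (fR (!sv) (aR X h) (pR (!sE) h E) X v))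
    {dN aN XN hN EN vN : N} (hd : Mem (iD X h) dN) (ha : Mem (aR X h) aN)
    (hX : Mem X XN) (hh : Mem h hN) (hE : Mem E EN) (hv : Mem v vN)
    (hX0 : XN.ps = true) (h3 : (N.sub one (N.mul hN EN)).ps = true) :
    J6.exX e2 e3 sE sv XN hN EN vN dN aN = false := by
  have h4 : h * E ≤ 1 := by
    have := H.h0; have := H.h1; have := H.E0; have := H.Eh
    nlinarith
  have hp := mem_pP hh hE
  have hm := mem_pM hh hE h3 h4 H.Eh.le H.pl
  have l1 := pR_lt (s := sE) H.h0 H.h1 H.E0 H.Eh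
  have l2 := pR_lt (s := !sE) H.h0 H.h1 H.E0 H.Eh
  have aj := H.aj
  have ak := H.ak
  rw [exX_eq]
  rcases sE with _ | _
  · rw [cond_false]
    rw [Bool.not_false] at l2 Hk ak
    rw [nX_ff hd ha hm hX hv hX0 H.vX H.Xv l1 aj Hj,
      nX_ff hd ha hp hX hv hX0 H.vX H.Xv l2 ak Hk, Bool.false_or]
  · rw [cond_true]
    rw [Bool.not_true] at l2 Hk ak
    rw [nX_ff hd ha hp hX hv hX0 H.vX H.Xv l1 aj Hj,
      nX_ff hd ha hm hX hv hX0 H.vX H.Xv l2 ak Hk, Bool.false_or]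

theorem ex0_eq (e2 e3 sE sv : Bool) (X g E v X2 g2 : N) : ex0 e2 e3 sE sv X g E v X2 g2 =
  ((N.sub one g2).ps && (N.add X2 g2).ps && (N.sub one (N.mul g E)).ps &&
  exX e2 e3 sE sv X g E v (N.mul (N.add one (N.mul X2 g2)) (N.add X2 g2).inv)
    (N.mul (N.mul g (N.sub one g2).inv) (N.add X X.inv))) := rfl

theorem Fa.ex0 {tj tk st sE sv : Bool} {X h E v κj κk : ℝ} (H : Fa tj tk st sE sv X h E v κj κk)
    {e2 e3 : Bool}
    (Hj : Ex false e3 (KR sv (iD X h) (pR sE h E) X v) (fR sv (aR X h) (pR sE h E) X v))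
    (Hk : Ex e2 false (KR (!sv) (iD X h) (pR (!sE) h E) X v)
      (fR (!sv) (aR X h) (pR (!sE) h E) X v))
    {XN hN EN vN : N} (hX : Mem X XN) (hh : Mem h hN) (hE : Mem E EN) (hv : Mem v vN)
    (hX0 : XN.ps = true) : J6.ex0 e2 e3 sE sv XN hN EN vN XN.sq hN.sq = false := by
  have hh2 : h ^ 2 ≤ 1 := by
    have := H.h0; have := H.h1
    nlinarith
  rw [ex0_eq]
  rcases h1 : (N.sub one hN.sq).ps with _ | _
  · rw [Bool.false_and, Bool.false_and, Bool.false_and]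
  rcases h2 : (N.add XN.sq hN.sq).ps with _ | _
  · rw [Bool.and_false, Bool.false_and, Bool.false_and]
  rcases h3 : (N.sub one (N.mul hN EN)).ps with _ | _
  · rw [Bool.and_false, Bool.false_and]
  rw [Bool.true_and, Bool.true_and, Bool.true_and]
  refine H.exX Hj Hk ?_ ?_ hX hh hE hv hX0 h3
  · unfold iD
    exact (mem_one.add (hX.sq.mul hh.sq)).mul ((hX.sq.add hh.sq).inv h2)
  · unfold aR
    exact (hh.mul ((mem_one.sub hh.sq hh2).inv h1)).mul (hX.add (hX.inv hX0))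

end J6

namespace Zr

variable {ι : Type*} [Finite ι] {a : ι → ℝ} {nl nr : ι → Option ι} {z : ι → ℂ}

/-- The test functions are the values at the neighbours. -/
theorem slots_eq (h : Zr a nl nr 1 z) {i j k : ι}
    (hi : a i = 2) (hij : (nl i = some j ∧ nr i = some k) ∨ (nl i = some k ∧ nr i = some j))
    {sE sv : Bool} {d n : ℝ} (d0 : 0 ≤ d) (n0 : 0 ≤ n)
    (hd : (qe (z i) (z j)).re - (z i).im = bif sE then d else -d)
    (hn : (qe (z i) (z j)).im - (Real.pi / 2 - (z i).re) = bif sv then n else -n) :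
    (J6.KR sv (J6.iD (Real.tan (z i).re) (Real.tanh (z i).im))
        (J6.pR sE (Real.tanh (z i).im) (Real.tanh d)) (Real.tan (z i).re) (Real.tan n) =
        normSq ((starRingEnd ℂ) (cos (z j))) ∧
      J6.fR sv (J6.aR (Real.tan (z i).re) (Real.tanh (z i).im))
        (J6.pR sE (Real.tanh (z i).im) (Real.tanh d)) (Real.tan (z i).re) (Real.tan n) =
        ((starRingEnd ℂ) (cos (z j))).im / ((starRingEnd ℂ) (cos (z j))).re) ∧
    J6.KR (!sv) (J6.iD (Real.tan (z i).re) (Real.tanh (z i).im))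
        (J6.pR (!sE) (Real.tanh (z i).im) (Real.tanh d)) (Real.tan (z i).re) (Real.tan n) =
        normSq ((starRingEnd ℂ) (cos (z k))) ∧
      J6.fR (!sv) (J6.aR (Real.tan (z i).re) (Real.tanh (z i).im))
        (J6.pR (!sE) (Real.tanh (z i).im) (Real.tanh d)) (Real.tan (z i).re) (Real.tan n) =
        ((starRingEnd ℂ) (cos (z k))).im / ((starRingEnd ℂ) (cos (z k))).re := by
  have hj1 : nl i = some j ∨ nr i = some j := by
    rcases hij with ⟨h1, h2⟩ | ⟨h1, h2⟩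
    · exact Or.inl h1
    · exact Or.inr h2
  have hk1 : nl i = some k ∨ nr i = some k := by
    rcases hij with ⟨h1, h2⟩ | ⟨h1, h2⟩
    · exact Or.inr h2
    · exact Or.inl h1
  obtain ⟨p1, p2, p3⟩ := h.pos i
  obtain ⟨s1, s2⟩ := h.two_sum hi hij
  obtain ⟨u1, u2, u3⟩ := h.qe_pos hj1
  obtain ⟨v1, v2, v3⟩ := h.qe_pos hk1
  obtain ⟨xj, yj, -⟩ := h.alg j
  obtain ⟨xk, yk, -⟩ := h.alg k
  have Kj := J6.slot_K p1 p2 u2 u3 (h.sinh_qe i j)
  have Kk := J6.slot_K p1 p2 v2 v3 (h.sinh_qe i k)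
  have fj := J6.slot_f p1 p2 p3 u1 u2 u3 (h.sinh_qe i j) xj
  have fk := J6.slot_f p1 p2 p3 v1 v2 v3 (h.sinh_qe i k) xk
  have hpj : (qe (z i) (z j)).re = bif sE then (z i).im + d else (z i).im - d := by
    rcases sE with _ | _
    · rw [cond_false] at hd ⊢; linarith
    · rw [cond_true] at hd ⊢; linarith
  have hpk : (qe (z i) (z k)).re = bif !sE then (z i).im + d else (z i).im - d := by
    rcases sE with _ | _
    · rw [cond_false] at hd; rw [Bool.not_false, cond_true]; linarith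
    · rw [cond_true] at hd; rw [Bool.not_true, cond_false]; linarith
  have hrj : (qe (z i) (z j)).im = Real.pi / 2 - (bif sv then (z i).re - n else (z i).re + n) := by
    rcases sv with _ | _
    · rw [cond_false] at hn ⊢; linarith
    · rw [cond_true] at hn ⊢; linarith
  have hrk : (qe (z i) (z k)).im =
      Real.pi / 2 - (bif !sv then (z i).re - n else (z i).re + n) := by
    rcases sv with _ | _
    · rw [cond_false] at hn; rw [Bool.not_false, cond_true]; linarith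
    · rw [cond_true] at hn; rw [Bool.not_true, cond_false]; linarith
  have hnR : n < (z i).re ∧ (z i).re + n < Real.pi / 2 := by
    rcases sv with _ | _
    · rw [cond_false] at hn
      exact ⟨by linarith, by linarith⟩
    · rw [cond_true] at hn
      exact ⟨by linarith, by linarith⟩
  obtain ⟨nR, Rn⟩ := hnR
  have X0 : 0 < Real.tan (z i).re := Real.tan_pos_of_pos_of_lt_pi_div_two p1 p2
  have h0 : 0 < Real.tanh (z i).im := J6.th_pos p3
  have h1 : Real.tanh (z i).im < 1 := Real.tanh_lt_one _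
  have ha : 0 < J6.aR (Real.tan (z i).re) (Real.tanh (z i).im) := by
    unfold J6.aR
    have : 0 < 1 - Real.tanh (z i).im ^ 2 := by nlinarith
    positivity
  have cc : ∀ s : Bool, ∀ r : ℝ,
      r = Real.pi / 2 - (bif s then (z i).re - n else (z i).re + n) →
      (s = true → J6.cR (Real.tan (z i).re) (Real.tan n) = (Real.tan r)⁻¹) ∧
      (s = false → J6.rR (Real.tan (z i).re) (Real.tan n) = Real.tan r) := by
    intro s r hr
    constructor
    · intro hs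
      rw [hr, hs, cond_true]
      exact J6.cR_eq p1 p2 n0 nR
    · intro hs
      rw [hr, hs, cond_false]
      exact J6.rR_eq p1 n0 Rn
  obtain ⟨cj1, cj2⟩ := cc sv _ hrj
  obtain ⟨ck1, ck2⟩ := cc (!sv) _ hrk
  obtain ⟨a1, a2, -⟩ := J6.slot_fun (d := J6.iD (Real.tan (z i).re) (Real.tanh (z i).im)) u1 u2 u3
    ha cj1 cj2 (div_nonneg yj xj.le) fj
  obtain ⟨b1, b2, -⟩ := J6.slot_fun (d := J6.iD (Real.tan (z i).re) (Real.tanh (z i).im)) v1 v2 v3
    ha ck1 ck2 (div_nonneg yk xk.le) fk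
  have ej : J6.pR sE (Real.tanh (z i).im) (Real.tanh d) = Real.tanh (qe (z i) (z j)).re := by
    rw [J6.pR_th, hpj]
  have ek : J6.pR (!sE) (Real.tanh (z i).im) (Real.tanh d) = Real.tanh (qe (z i) (z k)).re := by
    rw [J6.pR_th, hpk]
  rw [ej, ek, a1, a2, b1, b2]
  exact ⟨⟨Kj.symm, rfl⟩, Kk.symm, rfl⟩

/-- **The branch and bound at a vertex, with extra facts about the neighbours.** -/
theorem bbx2 (h : Zr a nl nr 1 z) (h3 : ∀ i, 3 ≤ a i → a i = 3 ∨ 4 ≤ a i) {i j k : ι}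
    (hi : a i = 2) (hij : (nl i = some j ∧ nr i = some k) ∨ (nl i = some k ∧ nr i = some j))
    {tj tk st : Bool} (hj : (tj = true ∧ 3 ≤ a j) ∨ (tj = false ∧ a j = 2 ∧ In2 nl nr j))
    (hk : (tk = true ∧ 3 ≤ a k) ∨ (tk = false ∧ a k = 2 ∧ In2 nl nr k))
    (hsj : tj = false → st = true → 1 / 4 ≤ Real.tan (th (z j).re (z j).im) ^ 2 ∧
      Real.cos (z j).re ^ 2 ≤ 59 / 100)
    (hsk : tk = false → st = true → 1 / 4 ≤ Real.tan (th (z k).re (z k).im) ^ 2 ∧
      Real.cos (z k).re ^ 2 ≤ 59 / 100)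
    {e2 e3 : Bool}
    (Hj : J6.Ex false e3 (normSq ((starRingEnd ℂ) (cos (z j))))
      (((starRingEnd ℂ) (cos (z j))).im / ((starRingEnd ℂ) (cos (z j))).re))
    (Hk : J6.Ex e2 false (normSq ((starRingEnd ℂ) (cos (z k))))
      (((starRingEnd ℂ) (cos (z k))).im / ((starRingEnd ℂ) (cos (z k))).re))
    {obj : Bool → Bool → NI.N → NI.N → NI.N → NI.N → NI.N → NI.N → NI.N → NI.N → Bool} {l : List ℕ}
    (hb : ∀ sE sv : Bool, NI.bb (J6.tst (fun X g E v X2 g2 t K => obj sE sv X g E v X2 g2 t K ||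
      J6.ex0 e2 e3 sE sv X g E v X2 g2) tj tk st sE sv) l (NI.rng 34 138 100)
      (NI.rng 19 58 100) (NI.rng 0 43 100) (NI.rng 0 1 1) = true) :
    ∃ (sE sv : Bool) (d n : ℝ) (XN gN EN vN tN kN : NI.N),
      J6.Cx sE sv (z i).re (z i).im (Real.tan (th (z i).re (z i).im)) (bw (z i) (z j))
        (qe (z i) (z j)).im d n ∧
      NI.Mem (Real.tan (z i).re) XN ∧ NI.Mem (Real.tanh (z i).im) gN ∧ NI.Mem (Real.tanh d) EN ∧
      NI.Mem (Real.tan n) vN ∧ NI.Mem (Real.tan (th (z i).re (z i).im) ^ 2) tN ∧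
      NI.Mem (k2 (z i).re (z i).im) kN ∧ XN.ps = true ∧ gN.ps = true ∧
      obj sE sv XN gN EN vN XN.sq gN.sq tN kN = true := by
  have hin : In2 nl nr i := by
    rcases hij with ⟨h1, h2⟩ | ⟨h1, h2⟩
    · exact ⟨_, _, h1, h2⟩
    · exact ⟨_, _, h1, h2⟩
  obtain ⟨p1, p2, p3⟩ := h.pos i
  obtain ⟨t1, t2, -⟩ := h.tR_eq i
  obtain ⟨sE, sv, d, n, d0, n0, d1, hd, hn, n1, n2, hP⟩ := h.bbz h3 hi hij (tj := tj) (tk := tk)
    (st := st) hj hk hsj hsk
    (P := fun sE sv X g E v => ∃ XN gN EN vN tN kN, (∃ κj κk, J6.Fa tj tk st sE sv X g E v κj κk) ∧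
      NI.Mem X XN ∧ NI.Mem g gN ∧ NI.Mem E EN ∧
      NI.Mem v vN ∧ NI.Mem (J6.tR X g) tN ∧ NI.Mem (J6.kR X g) kN ∧ XN.ps = true ∧ gN.ps = true ∧
      (obj sE sv XN gN EN vN XN.sq gN.sq tN kN ||
        J6.ex0 e2 e3 sE sv XN gN EN vN XN.sq gN.sq) = true)
    (fun sE sv X g E v κj κk F b1 b2 b3 b4 b5 b6 => J6.of_bb
      (P := fun X g E v => ∃ XN gN EN vN tN kN, (∃ κj κk, J6.Fa tj tk st sE sv X g E v κj κk) ∧
      NI.Mem X XN ∧ NI.Mem g gN ∧ NI.Mem E EN ∧
      NI.Mem v vN ∧ NI.Mem (J6.tR X g) tN ∧ NI.Mem (J6.kR X g) kN ∧ XN.ps = true ∧ gN.ps = true ∧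
      (obj sE sv XN gN EN vN XN.sq gN.sq tN kN ||
        J6.ex0 e2 e3 sE sv XN gN EN vN XN.sq gN.sq) = true)
      (fun X g E v XN gN EN vN tN kN hF m1 m2 m3 m4 m5 m6 q1 q2 ho =>
        ⟨XN, gN, EN, vN, tN, kN, hF, m1, m2, m3, m4, m5, m6, q1, q2, ho⟩) (hb sE sv) F b1 b2 b3
        b4 b5 b6)
  obtain ⟨XN, gN, EN, vN, tN, kN, ⟨κj, κk, F⟩, m1, m2, m3, m4, m5, m6, q1, q2, ho⟩ := hP
  obtain ⟨⟨w1, w2⟩, w3, w4⟩ := h.slots_eq hi hij d0 n0 hd hn
  rw [← w1, ← w2] at Hj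
  rw [← w3, ← w4] at Hk
  rw [F.ex0 Hj Hk m1 m2 m3 m4 q1, Bool.or_false] at ho
  rw [t1] at m5
  rw [t2] at m6
  have thi0 := h.th_pos_i i
  have thi1 := th_lt p1 p2 p3
  have Ti0 : 0 < Real.tan (th (z i).re (z i).im) :=
    Real.tan_pos_of_pos_of_lt_pi_div_two thi0 thi1
  have ci0 : 0 < Real.cos (z i).re := GeoX_cos_pos p1 p2
  have ti := tan_th_sq p1 p2 p3
  have shi0 : 0 < Real.sinh (z i).im := Real.sinh_pos_iff.2 p3
  have hTC : Real.sinh (z i).im = Real.tan (th (z i).re (z i).im) * Real.cos (z i).re := by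
    have e : Real.sinh (z i).im ^ 2 = (Real.tan (th (z i).re (z i).im) * Real.cos (z i).re) ^ 2 := by
      rw [mul_pow, ti]
    exact (pow_left_inj₀ shi0.le (by positivity) two_ne_zero).1 e
  have hle := h.two_t_le hin
  refine ⟨sE, sv, d, n, XN, gN, EN, vN, tN, kN, ⟨p1, p2, p3, Ti0, ?_, hTC, d0, ?_, n0, n1, n2, ?_,
    ?_⟩, m1, m2, m3, m4, m5, m6, q1, q2, ho⟩
  · by_contra hcon
    push Not at hcon
    nlinarith
  · linarith
  · rw [bw, div_mul_cancel₀ _ p3.ne']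
    linarith
  · linarith

end Zr

end Pool.Agent.S3.E
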