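import Pool.Agent.S3.E.PbB
import Pool.Agent.S3.Es15

/-!
# Stage 3, block E: `9/10 ≤ b` at a vertex with four twists or more
-/

set_option autoImplicit false

namespace Pool.Agent.S3.E

open Real

theorem sinh_ge_31 {x : ℝ} (hx : 0 ≤ x) (h1 : sinh x ^ 2 ≤ 1) :
    sinh x * (31 / 10 + 39 / 10 * sinh x ^ 2) ≤ sinh (31 / 10 * x) := by
  have s0 : 0 ≤ sinh x := sinh_nonneg_iff.2 hx
  have k1 := arsh_three hx h1
  have e : sinh (31 / 10 * x) = sinh (3 * x) * cosh (1 / 10 * x) +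
      cosh (3 * x) * sinh (1 / 10 * x) := by
    rw [← sinh_add]; congr 1; ring
  have a1 : 1 ≤ cosh (1 / 10 * x) := one_le_cosh _
  have a2 : 1 / 10 * x ≤ sinh (1 / 10 * x) := self_le_sinh_iff.2 (by positivity)
  have a3 := sinh_three_mul x
  have a4 : 1 ≤ cosh (3 * x) := one_le_cosh _
  have a5 : 4 * sinh x ^ 3 + 3 * sinh x ≤ sinh (3 * x) * cosh (1 / 10 * x) := by
    rw [← a3]
    exact le_mul_of_one_le_right (by rw [a3]; positivity) a1
  have a6 : 1 * (1 / 10 * x) ≤ cosh (3 * x) * sinh (1 / 10 * x) :=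
    mul_le_mul a4 a2 (by positivity) (cosh_pos _).le
  rw [e]
  have : 0 ≤ sinh x ^ 3 := by positivity
  linarith only [k1, a5, a6, this]

/-- `X ≤ 31/10 I`. -/
theorem xx_le_31 {R I : ℝ} (h : 0 < R) (h' : R < π / 2) (hI : 0 < I)
    (hu : tan (th R I) ^ 2 ≤ 1505 / 10000) (hv : tan R ^ 2 ≤ 6 * tan (th R I) ^ 2) :
    xx R I ≤ 31 / 10 * I := by
  obtain ⟨-, e2, -, -, e5⟩ := basic h h' hI
  have s0 : 0 < sinh I := sinh_pos_iff.2 hI
  have hx := xx_pos h h' hI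
  have sx : 0 < sinh (xx R I) := sinh_pos_iff.2 hx
  have v0 : 0 < tan R ^ 2 := pow_pos (tan_pos_of_pos_of_lt_pi_div_two h h') 2
  rw [← sinh_le_sinh]
  obtain ⟨w, hw⟩ : ∃ w, w = sinh I ^ 2 := ⟨_, rfl⟩
  obtain ⟨u, hu'⟩ : ∃ u, u = tan (th R I) ^ 2 := ⟨_, rfl⟩
  obtain ⟨v, hv'⟩ : ∃ v, v = tan R ^ 2 := ⟨_, rfl⟩
  rw [← hw, ← hu', ← hv'] at e2
  rw [← hu', ← hv'] at e5 hv
  rw [← hu'] at hu
  rw [← hv'] at v0
  have w0 : 0 < w := by rw [hw]; positivity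
  have u0 : 0 < u := by rw [← e2]; positivity
  have w1 : w ≤ 1505 / 10000 := by nlinarith only [hu, e2, hv']
  have k := sinh_ge_31 hI.le (by rw [← hw]; linarith)
  rw [← hw] at k
  refine le_trans ?_ k
  apply le_of_sq_le_sq _ (by positivity)
  rw [mul_pow, ← hw]
  have fin : v ≤ (1 + u) * (w * (31 / 10 + 39 / 10 * w) ^ 2) := by
    have b2 : (961 / 100 : ℝ) ≤ (31 / 10 + 39 / 10 * w) ^ 2 := by nlinarith only [w0]
    rcases le_total w (8 / 100) with hB | hB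
    · have b3 : v * (1 - 6 * w) ≤ 6 * w := by linarith only [hv, e2]
      have b4 : v ≤ 12 * w := by nlinarith only [w0, hB, b3]
      have b5 : v ≤ 961 / 100 * w ∨ 961 / 100 * w < v := le_or_gt _ _
      rcases b5 with b5 | b5
      · have := mul_le_mul_of_nonneg_left b2 w0.le
        nlinarith only [w0, u0, b5, this]
      · have b6 : (6 : ℝ) ≤ (31 / 10 + 39 / 10 * w) ^ 2 * (1 - 5 * w) := by
          nlinarith only [b2, hB]
        rw [← e2]
        obtain ⟨q, hq⟩ : ∃ q, q = (31 / 10 + 39 / 10 * w) ^ 2 := ⟨_, rfl⟩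
        rw [← hq] at b2 b6 ⊢
        have q1 : q ≤ 12 := by rw [hq]; nlinarith only [w0, hB]
        have b7 : 0 ≤ 1 - w * (w * q) := by nlinarith only [b4, b5, b6, q1]
        have b8 : v * (1 - 6 * w) * (1 - w * (w * q)) ≤ 6 * w * (1 - w * (w * q)) :=
          mul_le_mul_of_nonneg_right b3 b7
        have b9 : w * 6 ≤ w * (q * (1 - 5 * w)) := mul_le_mul_of_nonneg_left b6 w0.le
        have b10 : v * (1 - w * (w * q)) ≤ (1 + w) * (w * q) := by
          refine le_of_mul_le_mul_right (a := 1 - 6 * w) ?_ (by linarith)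
          linarith only [b8, b9]
        linarith only [b10]
    · have b1 : v ≤ 9 / 10 := by nlinarith only [hu, e2, hB]
      have b3 : (116 / 10 : ℝ) ≤ (31 / 10 + 39 / 10 * w) ^ 2 := by nlinarith only [hB]
      have b4 := mul_le_mul_of_nonneg_left b3 w0.le
      have b5 : 0 ≤ u * (w * (31 / 10 + 39 / 10 * w) ^ 2) := by positivity
      linarith only [hB, b1, b4, b5]
  have : sinh (xx R I) ^ 2 * (1 + u) ≤ w * (31 / 10 + 39 / 10 * w) ^ 2 * (1 + u) := by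
    rw [e5]; linarith
  exact le_of_mul_le_mul_right this (by positivity)

private theorem poly3 {v : ℝ} (h0 : 0 ≤ v) (h1 : v ≤ 1) :
    81 / 100 * (1 / 6 * (1 + 1 / 6 * v) * ((1 + v) * (1 - 169 / 400 * v) +
      1 / 6 * v * (231 / 400 * (1 + v) + 81 / 100) + 81 / 100 * (1 / 6 * v) ^ 2)) <
      169 / 400 * ((5902 / 10000 - 1113 / 10000 * v) ^ 2 * (1 + v) ^ 2) := by
  have h2 : 0 ≤ 1 - v := by linarith
  have h3 : 0 ≤ v * (1 - v) := mul_nonneg h0 h2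
  nlinarith only [h3]

private theorem Fmono4 {u u₁ v : ℝ} (h0 : 0 ≤ u) (h : u ≤ u₁) (hv : 0 ≤ v) (hv2 : v ≤ 1) :
    u * ((1 + u) ^ 2 * (1 + v) - 169 / 400 * (u + v) * (1 + u) * (1 + v) +
      81 / 100 * u * (1 + u) ^ 2) ≤
    u₁ * (1 + u₁) * ((1 + v) * (1 - 169 / 400 * v) +
      u₁ * (231 / 400 * (1 + v) + 81 / 100) + 81 / 100 * u₁ ^ 2) := by
  have e : u * ((1 + u) ^ 2 * (1 + v) - 169 / 400 * (u + v) * (1 + u) * (1 + v) +
      81 / 100 * u * (1 + u) ^ 2) = u * (1 + u) * ((1 + v) * (1 - 169 / 400 * v) +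
      u * (231 / 400 * (1 + v) + 81 / 100) + 81 / 100 * u ^ 2) := by ring
  rw [e]
  have u1 : 0 ≤ u₁ := h0.trans h
  have a0 : 0 ≤ 1 - 169 / 400 * v := by linarith
  have a1 : u * (1 + u) ≤ u₁ * (1 + u₁) := mul_le_mul h (by linarith) (by linarith) u1
  have a2 : u * (231 / 400 * (1 + v) + 81 / 100) ≤ u₁ * (231 / 400 * (1 + v) + 81 / 100) :=
    mul_le_mul_of_nonneg_right h (by positivity)
  have a3 : u ^ 2 ≤ u₁ ^ 2 := pow_le_pow_left₀ h0 h 2
  refine mul_le_mul a1 (by linarith) ?_ (by positivity)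
  have : 0 ≤ (1 + v) * (1 - 169 / 400 * v) := mul_nonneg (by linarith) a0
  have : 0 ≤ u * (231 / 400 * (1 + v) + 81 / 100) := mul_nonneg h0 (by positivity)
  positivity

/-- **The weight of an edge towards an inner vertex with two twists**, at a vertex with at least
four twists. -/
theorem Vx.b_low4 {a R I ρ₁ β₁ p₁ r₁ ρ₂ β₂ p₂ r₂ : ℝ} (h : Vx a R I ρ₁ β₁ p₁ r₁ ρ₂ β₂ p₂ r₂)
    (ha : 4 ≤ a) (h1 : 13 / 20 ≤ ρ₁) (hb : β₁ ≤ 3 / 5) (h2 : ρ₂ ≤ 1)
    (hu : tan (th R I) ^ 2 ≤ 1505 / 10000) (hv : tan R ^ 2 ≤ 1) : 9 / 10 * I ≤ p₁ := by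
  obtain ⟨e1, e2, -, -, -⟩ := basic h.R0 h.R1 h.I0
  obtain ⟨y0, y1⟩ := basicY h.R0 h.R1 h.I0
  rcases le_total (tan R ^ 2) (6 * tan (th R I) ^ 2) with hA | hA
  · have k := xx_le_31 h.R0 h.R1 h.I0 hu hA
    have k2 := h.sl₂.le_xx h.R0 h.R1 h.I0 h2
    have k3 := h.hI
    have k4 := mul_le_mul_of_nonneg_right ha h.I0.le
    linarith
  · by_contra hc
    push Not at hc
    have tp : 0 < tan R := tan_pos_of_pos_of_lt_pi_div_two h.R0 h.R1
    obtain ⟨c1, c2⟩ := cos_sin_35' h.sl₁.β0 hb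
    obtain ⟨u, hu'⟩ : ∃ u, u = tan (th R I) ^ 2 := ⟨_, rfl⟩
    obtain ⟨v, hv'⟩ : ∃ v, v = tan R ^ 2 := ⟨_, rfl⟩
    obtain ⟨T, hT⟩ : ∃ T, T = tan R := ⟨_, rfl⟩
    obtain ⟨Y, hY⟩ : ∃ Y, Y = sinh I * cosh I * (1 + tan R ^ 2) := ⟨_, rfl⟩
    have v0 : 0 < v := by rw [hv']; positivity
    have u0 : 0 ≤ u := by rw [hu']; positivity
    have hu1 : u ≤ 1 / 6 * v := by rw [hu', hv']; linarith
    rw [← hY, ← hu', ← hv'] at y1
    rw [← hY] at y0
    -- `Y ≤ T q`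
    have q1 : Y ≤ T * (416 / 1000 + 197 / 1000 * v) := by
      apply le_of_sq_le_sq _ (by rw [hT]; positivity)
      rw [y1, mul_pow, show T ^ 2 = v by rw [hT, hv']]
      have b1 : u * (1 + u + v) ≤ 1 / 6 * v * (1 + 1 / 6 * v + v) :=
        mul_le_mul hu1 (by linarith) (by positivity) (by positivity)
      have b2 : 1 / 6 * (1 + 1 / 6 * v + v) ≤ (416 / 1000 + 197 / 1000 * v) ^ 2 := by
        linarith only [sq_nonneg (v - 2 / 5), u0, hu1]
      have b3 := mul_le_mul_of_nonneg_left b2 v0.le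
      linarith
    have q2 : T * (5902 / 10000 - 1113 / 10000 * v) ≤ 8253 / 10000 * T - 5648 / 10000 * Y := by
      have : 0 < T := by rw [hT]; exact tp
      linarith only [y0, q1, this]
    have hv2 : v ≤ 1 := by rw [hv']; exact hv
    have q3 : 0 ≤ T * (5902 / 10000 - 1113 / 10000 * v) :=
      mul_nonneg (by rw [hT]; exact tp.le) (by linarith)
    have key := h.sl₁.core h.R0 h.R1 h.I0 (b := 9 / 10) (ρ₀ := 13 / 20) (by norm_num)
      (by norm_num) hc.le (by norm_num) h1 c1 c2 (by rw [← hY, ← hT]; exact q3.trans q2)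
    rw [← hY, ← hT, ← hu', show T ^ 2 = v by rw [hT, hv']] at key
    have q4 : (T * (5902 / 10000 - 1113 / 10000 * v)) ^ 2 ≤
        (8253 / 10000 * T - 5648 / 10000 * Y) ^ 2 := pow_le_pow_left₀ q3 q2 2
    rw [mul_pow, show T ^ 2 = v by rw [hT, hv']] at q4
    obtain ⟨w, hw⟩ : ∃ w, w = sinh I ^ 2 := ⟨_, rfl⟩
    rw [← hw, ← hu', ← hv'] at e2
    rw [← hw] at key
    -- the inequality, multiplied by `(1 + v)²`
    have k1 : 169 / 400 * (v * ((5902 / 10000 - 1113 / 10000 * v) ^ 2 * (1 + v) ^ 2)) ≤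
        81 / 100 * (u * ((1 + u) ^ 2 * (1 + v) - 169 / 400 * (u + v) * (1 + u) * (1 + v) +
          81 / 100 * u * (1 + u) ^ 2)) := by
      have c1 : 169 / 400 * (v * (5902 / 10000 - 1113 / 10000 * v) ^ 2) ≤
          81 / 100 * (w * ((1 + u) ^ 2 -
          169 / 400 * (u + v) * (1 + u) + 81 / 100 * w * (1 + u) ^ 2)) := by linarith only [q4, key]
      have c2 := mul_le_mul_of_nonneg_right c1 (sq_nonneg (1 + v))
      have c3 : 81 / 100 * (w * ((1 + u) ^ 2 - 169 / 400 * (u + v) * (1 + u) +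
          81 / 100 * w * (1 + u) ^ 2)) * (1 + v) ^ 2 =
          81 / 100 * ((w * (1 + v)) * ((1 + u) ^ 2 * (1 + v) -
          169 / 400 * (u + v) * (1 + u) * (1 + v) +
          81 / 100 * (w * (1 + v)) * (1 + u) ^ 2)) := by ring
      rw [c3, e2] at c2
      linarith
    have k2 := Fmono4 u0 hu1 v0.le hv2
    have k3 := mul_lt_mul_of_pos_left (poly3 v0.le hv2) v0
    linarith only [k1, k2, k3]

end Pool.Agent.S3.E
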