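import Pool.Agent.S3.E.PbG
import Pool.Agent.S3.Es17

/-!
# Stage 3, block E: the loss at a vertex with three twists
-/

set_option autoImplicit false

namespace Pool.Agent.S3.E

open Real

/-- The loss on an interval of `b`. -/
theorem loss_of {τ b P α β S L b0 b1 : ℝ} (hτ : 0 < τ) (hS : sJ τ T13 ≤ S)
    (ht : τ ^ 2 ≤ 1) (hb0 : 0 < b0) (hb : b0 ≤ b) (hb1 : b ≤ b1)
    (y1 : P + 81 / 10000 * b ≤ α + β * b)
    (y2 : -(α + β * b) ≤ P + (77 / 10000 - 1205 / 10000 * τ ^ 2) * b)
    (g0 : 15916 / 100000 * (S * (α + β * b0) ^ 2) ≤ L * b0)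
    (g1 : 15916 / 100000 * (S * (α + β * b1) ^ 2) ≤ L * b1) : lossJ τ b P T13 ≤ L := by
  have s0 := sJ_pos hτ T13_pos T13_lt
  have S0 : 0 < S := s0.trans_le hS
  have b0' : 0 < b := hb0.trans_le hb
  rcases hb.eq_or_lt with e | e
  · rw [← e] at y1 y2 ⊢
    exact loss_le' hτ ht hb0 hS (by nlinarith only [hb0, y1, y2]) y1 y2 g0
  · apply loss_le' hτ ht b0' hS (by nlinarith only [hb0, hb, y1, y2]) y1 y2
    have hd : 0 < b1 - b0 := by linarith
    have k : (b1 - b0) * (15916 / 100000 * (S * (α + β * b) ^ 2)) ≤ (b1 - b0) * (L * b) := by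
      have a1 := mul_le_mul_of_nonneg_left g0 (by linarith : 0 ≤ b1 - b)
      have a2 := mul_le_mul_of_nonneg_left g1 (by linarith : 0 ≤ b - b0)
      have a3 : 0 ≤ 15916 / 100000 * S * (β ^ 2 * (b1 - b0) * ((b1 - b) * (b - b0))) := by
        have : 0 ≤ (b1 - b) * (b - b0) := mul_nonneg (by linarith) (by linarith)
        positivity
      linarith only [a1, a2, a3]
    exact le_of_mul_le_mul_left k hd

section

variable {R I ρ₁ β₁ p₁ r₁ ρ₂ β₂ p₂ r₂ : ℝ}

private theorem sin3_ge {R x s : ℝ} (h0 : π / 6 ≤ R) (h : R ≤ x) (hx : x ≤ 1)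
    (hs : s ≤ 1 - (3 * x - 15707 / 10000) ^ 2 / 2) : s ≤ sin (3 * R) := by
  have p1 := pi_gt_d4
  have p2 := pi_lt_d4
  have e : sin (3 * R) = cos (3 * R - π / 2) := by rw [cos_sub_pi_div_two]
  rw [e]
  have k := one_sub_sq_div_two_le_cos (x := 3 * R - π / 2)
  have a : 0 ≤ 3 * R - π / 2 := by linarith
  have b : 3 * R - π / 2 ≤ 3 * x - 15707 / 10000 := by linarith
  have := pow_le_pow_left₀ a b 2
  linarith

theorem Vx.P_le₁ (h : Vx 3 R I ρ₁ β₁ p₁ r₁ ρ₂ β₂ p₂ r₂) (h1 : 13 / 20 ≤ ρ₁) (h1' : ρ₁ ≤ 1)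
    (h2 : ρ₂ ≤ 1) (hu : 1 / 5 ≤ tan (th R I) ^ 2) (hu' : tan (th R I) ^ 2 ≤ 37 / 100)
    (hb : 13 / 20 ≤ p₁ / I) (hb' : p₁ / I ≤ 3 / 2) (hR : R ≤ 37 / 50) :
    π / 2 - r₁ - p₁ / I * R ≤ 59 / 100 := by
  obtain ⟨k1, k2, k3, k4, k5⟩ := h.bP
  obtain ⟨e1, e2, -, -, -⟩ := basic h.R0 h.R1 h.I0
  have hpi := pi_pos
  have v1 : tan R ^ 2 ≤ 8483 / 10000 :=
    v_le h.R0.le hR (by norm_num) (by norm_num) (by norm_num)
  have v0 : 0 ≤ tan R ^ 2 := sq_nonneg _
  have t0 : 0 ≤ sinh I ^ 2 := sq_nonneg _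
  have t1 : sinh I ^ 2 ≤ 3 / 5 := by nlinarith only [hu', e2]
  have k := h.relD h1 h2 t1 (d := 3 - 2 * (p₁ / I)) (by linarith) (by
    rw [← k2]
    nth_rewrite 2 [← k1]
    ring)
  have hS := sin3_ge (s := 789 / 1000) (h.R_pi6 h1' h2) hR (by norm_num) (by norm_num)
  have hδ := dR_le₁ (d := 3 - 2 * (p₁ / I)) hS (sin_le_one _) (by linarith) (by linarith)
    (by linarith [h.sl₁.r0, h.sl₂.r1]) h.R0.le hR (δ := r₂ - r₁) (by
      obtain ⟨D, hD⟩ : ∃ D, D = sin (3 * R) * sin (r₂ - r₁) := ⟨_, rfl⟩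
      rw [← hD] at k ⊢
      have hd : 0 ≤ 3 - 2 * (p₁ / I) := by linarith
      generalize 3 - 2 * (p₁ / I) = d at *
      generalize tan (th R I) ^ 2 = u at *
      generalize tan R ^ 2 = v at *
      generalize sinh I ^ 2 = t at *
      have t2 : 1082 / 10000 ≤ t := by nlinarith only [hu, e1, v1, e2]
      have t3 : 3597 / 10000 ≤ 3 * (t * (1 + t)) := by nlinarith only [t2]
      have a1 : d * (3597 / 10000) ≤ d * (3 * (t * (1 + t))) := mul_le_mul_of_nonneg_left t3 hd
      have a2 : (D + d * (3597 / 10000)) * (1 + u) ≤ (D + 3 * d * (t * (1 + t))) * (1 + u) :=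
        mul_le_mul_of_nonneg_right (by linarith) (by linarith)
      have a3 : (D + d * (3597 / 10000)) * (1 + u) ≤ 5137 / 10000 * (1 + u) := by linarith
      have a4 := le_of_mul_le_mul_right a3 (by linarith : (0 : ℝ) < 1 + u)
      linarith)
  have e3 := h.hR
  linarith only [hδ, e3]

theorem Vx.P_le₂ (h : Vx 3 R I ρ₁ β₁ p₁ r₁ ρ₂ β₂ p₂ r₂) (h1 : 13 / 20 ≤ ρ₁) (h1' : ρ₁ ≤ 1)
    (h2 : ρ₂ ≤ 1) (hu : 1 / 10 ≤ tan (th R I) ^ 2) (hu' : tan (th R I) ^ 2 ≤ 1 / 5)
    (hb : 13 / 20 ≤ p₁ / I) (hb' : p₁ / I ≤ 3 / 2) (hR : R ≤ 18 / 25) :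
    π / 2 - r₁ - p₁ / I * R ≤ 743 / 1000 := by
  obtain ⟨k1, k2, k3, k4, k5⟩ := h.bP
  obtain ⟨e1, e2, -, -, -⟩ := basic h.R0 h.R1 h.I0
  have hpi := pi_pos
  have v1 : tan R ^ 2 ≤ 7816 / 10000 :=
    v_le h.R0.le hR (by norm_num) (by norm_num) (by norm_num)
  have v0 : 0 ≤ tan R ^ 2 := sq_nonneg _
  have t0 : 0 ≤ sinh I ^ 2 := sq_nonneg _
  have t1 : sinh I ^ 2 ≤ 3 / 5 := by nlinarith only [hu', e2]
  have k := h.relD h1 h2 t1 (d := 3 - 2 * (p₁ / I)) (by linarith) (by
    rw [← k2]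
    nth_rewrite 2 [← k1]
    ring)
  have hS := sin3_ge (s := 8263 / 10000) (h.R_pi6 h1' h2) hR (by norm_num) (by norm_num)
  have hδ := dR_le₂ (d := 3 - 2 * (p₁ / I)) hS (sin_le_one _) (by linarith) (by linarith)
    (by linarith [h.sl₁.r0, h.sl₂.r1]) h.R0.le hR (δ := r₂ - r₁) (by
      obtain ⟨D, hD⟩ : ∃ D, D = sin (3 * R) * sin (r₂ - r₁) := ⟨_, rfl⟩
      rw [← hD] at k ⊢
      have hd : 0 ≤ 3 - 2 * (p₁ / I) := by linarith
      generalize 3 - 2 * (p₁ / I) = d at *
      generalize tan (th R I) ^ 2 = u at *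
      generalize tan R ^ 2 = v at *
      generalize sinh I ^ 2 = t at *
      have t2 : 561 / 10000 ≤ t := by nlinarith only [hu, e1, v1, e2]
      have t3 : 1777 / 10000 ≤ 3 * (t * (1 + t)) := by nlinarith only [t2]
      have a1 : d * (1777 / 10000) ≤ d * (3 * (t * (1 + t))) := mul_le_mul_of_nonneg_left t3 hd
      have a2 : (D + d * (1777 / 10000)) * (1 + u) ≤ (D + 3 * d * (t * (1 + t))) * (1 + u) :=
        mul_le_mul_of_nonneg_right (by linarith) (by linarith)
      have a3 : (D + d * (1777 / 10000)) * (1 + u) ≤ 4725 / 10000 * (1 + u) := by linarith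
      have a4 := le_of_mul_le_mul_right a3 (by linarith : (0 : ℝ) < 1 + u)
      linarith)
  have e3 := h.hR
  linarith only [hδ, e3]

/-- The loss, `P ≥ 0`. -/
theorem Vx.loss3_pos (h : Vx 3 R I ρ₁ β₁ p₁ r₁ ρ₂ β₂ p₂ r₂) (h1 : 13 / 20 ≤ ρ₁) (h1' : ρ₁ ≤ 1)
    (h2 : ρ₂ ≤ 1) (hu : tan (th R I) ^ 2 ≤ 37 / 100) (hv : tan R ^ 2 ≤ 2)
    (hb : 13 / 20 ≤ p₁ / I) (hP : 0 ≤ π / 2 - r₁ - p₁ / I * R) :
    L3 (tan (th R I) ^ 2) (lossJ (tan (th R I)) (p₁ / I) (π / 2 - r₁ - p₁ / I * R) T13) := by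
  obtain ⟨k1, k2, k3, k4, k5⟩ := h.bP
  obtain ⟨e1, e2, -, -, -⟩ := basic h.R0 h.R1 h.I0
  have hpi := pi_pos
  have pd1 := pi_gt_d4
  have pd2 := pi_lt_d4
  have hR6 := h.R_pi6 h1' h2
  have v0 : 0 ≤ tan R ^ 2 := sq_nonneg _
  have t0 : 0 ≤ sinh I ^ 2 := sq_nonneg _
  have u0 : 0 ≤ tan (th R I) ^ 2 := sq_nonneg _
  have tp : 0 < tan (th R I) :=
    tan_pos_of_pos_of_lt_pi_div_two (th_pos h.R0 h.R1 h.I0) (th_lt h.R0 h.R1 h.I0)
  have I0 := h.I0
  have r0 := h.sl₁.r0
  have R0 := h.R0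
  -- `P ≤ M - R₀ b₀`
  have hPM : ∀ {s R₀ b₀ M : ℝ}, s ≤ r₁ → 0 ≤ R₀ → R₀ ≤ R → b₀ ≤ p₁ / I →
      15708 / 10000 - s - b₀ * R₀ ≤ M → π / 2 - r₁ - p₁ / I * R ≤ M := by
    intro s R₀ b₀ M c1 c0 c2 c3 c4
    have : b₀ * R₀ ≤ p₁ / I * R := by
      have : b₀ * R₀ ≤ p₁ / I * R₀ := mul_le_mul_of_nonneg_right c3 c0
      have : p₁ / I * R₀ ≤ p₁ / I * R := mul_le_mul_of_nonneg_left c2 k3
      linarith
    linarith
  have hpb : ∀ {b : ℝ}, p₁ / I ≤ b → p₁ ≤ b * I := by
    intro b hb
    rw [← k1]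
    exact mul_le_mul_of_nonneg_right hb I0.le
  generalize hbb : p₁ / I = b at *
  generalize hPP : π / 2 - r₁ - b * R = P at *
  rcases le_total (tan (th R I) ^ 2) (1 / 10) with c | c
  · -- `u ≤ 1/10`
    left
    refine ⟨c, ?_⟩
    have hS : sJ (tan (th R I)) T13 ≤ 2354 / 10000 :=
      sJ_T13_le c (by norm_num) (by norm_num)
    rcases le_total b 1 with g | g
    · have hs := h.sl₁.sin_ge (b := 1) (s := 1 / 5) h.R0 h.R1 h.I0 (by norm_num) (by norm_num)
        (hpb g) (by norm_num) h1 (by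
          have v1 : 1 / 3 ≤ tan R ^ 2 := by
            have : tan (π / 6) ≤ tan R := by
              rcases hR6.eq_or_lt with e | e
              · rw [e]
              · exact (tan_lt_tan_of_nonneg_of_lt_pi_div_two (by positivity) h.R1 e).le
            rw [tan_pi_div_six] at this
            have := pow_le_pow_left₀ (by positivity) this 2
            rw [div_pow, Real.sq_sqrt (by norm_num)] at this
            linarith
          generalize tan (th R I) ^ 2 = u at *
          generalize tan R ^ 2 = v at *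
          generalize sinh I ^ 2 = t at *
          have t1 : t ≤ 3 / 4 * u := by nlinarith only [v1, t0, e2]
          nlinarith only [c, v1, t0, t1])
      have q := hPM (M := 1032 / 1000) hs (by norm_num) (by linarith : (5235 / 10000 : ℝ) ≤ R)
        hb (by norm_num)
      exact loss_of (α := 1032 / 1000) (β := 81 / 10000) (b0 := 13 / 20) (b1 := 3) tp hS
        (by linarith) (by norm_num) hb k4 (by linarith) (by nlinarith only [k3, hP, c]) (by norm_num) (by norm_num)
    · have q := hPM (M := 1048 / 1000) r0 (by norm_num) (by linarith : (5235 / 10000 : ℝ) ≤ R)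
        g (by norm_num)
      exact loss_of (α := 1048 / 1000) (β := 81 / 10000) (b0 := 1) (b1 := 3) tp hS
        (by linarith) (by norm_num) g k4 (by linarith) (by nlinarith only [hP, c, g]) (by norm_num) (by norm_num)
  rcases le_total (tan (th R I) ^ 2) (1 / 5) with c' | c'
  · -- `1/10 ≤ u ≤ 1/5`
    right; left
    refine ⟨c', ?_⟩
    have hS : sJ (tan (th R I)) T13 ≤ 3264 / 10000 :=
      sJ_T13_le c' (by norm_num) (by norm_num)
    rcases le_total R (18 / 25) with f | f
    · rcases le_total b (3 / 2) with g | g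
      · have q : P ≤ 743 / 1000 := by
          rw [← hPP, ← hbb]
          exact h.P_le₂ h1 h1' h2 c c' (by rw [hbb]; exact hb) (by rw [hbb]; exact g) f
        exact loss_of (α := 743 / 1000) (β := 81 / 10000) (b0 := 13 / 20) (b1 := 3) tp hS
          (by linarith) (by norm_num) hb k4 (by linarith) (by nlinarith only [k3, k4, hP, c']) (by norm_num) (by norm_num)
      · have q := hPM (M := 7856 / 10000) r0 (by norm_num) (by linarith : (5235 / 10000 : ℝ) ≤ R)
          g (by norm_num)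
        exact loss_of (α := 7856 / 10000) (β := 81 / 10000) (b0 := 3 / 2) (b1 := 3) tp hS
          (by linarith) (by norm_num) g k4 (by linarith) (by nlinarith only [k3, k4, hP, c']) (by norm_num) (by norm_num)
    · have v1 : 713 / 1000 ≤ tan R ^ 2 := v_ge (by norm_num) f h.R1 (by norm_num)
      rcases le_total b 1 with g | g
      · have hs := h.sl₁.sin_ge (b := 1) (s := 38 / 100) h.R0 h.R1 h.I0 (by norm_num) (by norm_num)
          (hpb g) (by norm_num) h1 (by
            generalize tan (th R I) ^ 2 = u at *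
            generalize tan R ^ 2 = v at *
            generalize sinh I ^ 2 = t at *
            have t1 : t ≤ 5838 / 10000 * u := by nlinarith only [v1, t0, e2]
            nlinarith only [c', v1, t0, e2])
        have q := hPM (M := 723 / 1000) hs (by norm_num) f hb (by norm_num)
        exact loss_of (α := 723 / 1000) (β := 81 / 10000) (b0 := 13 / 20) (b1 := 3) tp hS
          (by linarith) (by norm_num) hb k4 (by linarith) (by nlinarith only [k3, k4, hP, c']) (by norm_num) (by norm_num)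
      · have q := hPM (M := 851 / 1000) r0 (by norm_num) f g (by norm_num)
        exact loss_of (α := 851 / 1000) (β := 81 / 10000) (b0 := 1) (b1 := 3) tp hS
          (by linarith) (by norm_num) g k4 (by linarith) (by nlinarith only [k3, k4, hP, c']) (by norm_num) (by norm_num)
  · -- `1/5 ≤ u ≤ 37/100`
    right; right
    refine ⟨by linarith, ?_⟩
    have hS : sJ (tan (th R I)) T13 ≤ 43 / 100 :=
      sJ_T13_le hu (by norm_num) (by norm_num)
    rcases le_total R (37 / 50) with f | f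
    · rcases le_total b (3 / 2) with g | g
      · have q : P ≤ 59 / 100 := by
          rw [← hPP, ← hbb]
          exact h.P_le₁ h1 h1' h2 c' hu (by rw [hbb]; exact hb) (by rw [hbb]; exact g) f
        exact loss_of (α := 59 / 100) (β := 81 / 10000) (b0 := 13 / 20) (b1 := 3) tp hS
          (by linarith) (by norm_num) hb k4 (by linarith) (by nlinarith only [hu, hP, c', g]) (by norm_num) (by norm_num)
      · have q := hPM (M := 7856 / 10000) r0 (by norm_num) (by linarith : (5235 / 10000 : ℝ) ≤ R)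
          g (by norm_num)
        exact loss_of (α := 7856 / 10000) (β := 81 / 10000) (b0 := 3 / 2) (b1 := 3) tp hS
          (by linarith) (by norm_num) g k4 (by linarith) (by nlinarith only [hu, k3, k4, hP]) (by norm_num) (by norm_num)
    · have v1 : 7657 / 10000 ≤ tan R ^ 2 := v_ge (by norm_num) f h.R1 (by norm_num)
      rcases le_total b (3 / 4) with g | g
      · have hs := h.sl₁.sin_ge (b := 3 / 4) (s := 475 / 1000) h.R0 h.R1 h.I0 (by norm_num)
          (by norm_num) (hpb g) (by norm_num) h1 (by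
            generalize tan (th R I) ^ 2 = u at *
            generalize tan R ^ 2 = v at *
            generalize sinh I ^ 2 = t at *
            have t1 : t ≤ 56636 / 100000 * u := by nlinarith only [v1, t0, e2]
            nlinarith only [hu, v1, t0, e2])
        have q := hPM (M := 615 / 1000) hs (by norm_num) f hb (by norm_num)
        exact loss_of (α := 615 / 1000) (β := 81 / 10000) (b0 := 13 / 20) (b1 := 3) tp hS
          (by linarith) (by norm_num) hb k4 (by linarith) (by nlinarith only [hu, k3, k4, hP]) (by norm_num) (by norm_num)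
      rcases le_total b 1 with g' | g'
      · have hs := h.sl₁.sin_ge (b := 1) (s := 37 / 100) h.R0 h.R1 h.I0 (by norm_num)
          (by norm_num) (hpb g') (by norm_num) h1 (by
            generalize tan (th R I) ^ 2 = u at *
            generalize tan R ^ 2 = v at *
            generalize sinh I ^ 2 = t at *
            have t1 : t ≤ 56636 / 100000 * u := by nlinarith only [v1, t0, e2]
            nlinarith only [hu, v1, t0, e2])
        have q := hPM (M := 646 / 1000) hs (by norm_num) f g (by norm_num)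
        exact loss_of (α := 646 / 1000) (β := 81 / 10000) (b0 := 3 / 4) (b1 := 3) tp hS
          (by linarith) (by norm_num) g k4 (by linarith) (by nlinarith only [hu, k3, k4, hP]) (by norm_num) (by norm_num)
      rcases le_total b (6 / 5) with g'' | g''
      · have hC : cosh p₁ ^ 2 ≤ (1 + 2 * sinh I ^ 2) ^ 2 := by
          apply pow_le_pow_left₀ (cosh_pos _).le
          have e : 1 + 2 * sinh I ^ 2 = cosh (2 * I) := by
            rw [cosh_two_mul, cosh_sq]; ring
          rw [e, cosh_le_cosh, abs_of_nonneg h.sl₁.p0, abs_of_pos (by linarith)]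
          have := hpb g''
          linarith
        have hs := h.sl₁.sin_ge' (s := 15 / 100) (ρ₀ := 13 / 20) h.R0 h.R1 h.I0 hC (by norm_num)
          h1 (by
            generalize tan (th R I) ^ 2 = u at *
            generalize tan R ^ 2 = v at *
            generalize sinh I ^ 2 = t at *
            have t1 : t ≤ 21 / 100 := by nlinarith only [hu, v1, e2]
            have t2 : (1 + 2 * t) ^ 2 ≤ (142 / 100) ^ 2 := pow_le_pow_left₀ (by linarith) (by linarith) 2
            have t3 : (1 + u) ^ 2 ≤ (137 / 100) ^ 2 := pow_le_pow_left₀ (by linarith) (by linarith) 2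
            have t4 : (1 + 2 * t) ^ 2 * (1 + u) ^ 2 ≤ (142 / 100) ^ 2 * (137 / 100) ^ 2 :=
              mul_le_mul t2 t3 (sq_nonneg _) (by norm_num)
            have t5 : 1 / 5 * (1 + 1 / 5 + 7657 / 10000) ≤ u * (1 + u + v) :=
              mul_le_mul c' (by linarith) (by norm_num) u0
            linarith only [t4, t5])
        have q := hPM (M := 681 / 1000) hs (by norm_num) f g' (by norm_num)
        exact loss_of (α := 681 / 1000) (β := 81 / 10000) (b0 := 1) (b1 := 3) tp hS
          (by linarith) (by norm_num) g' k4 (by linarith) (by nlinarith only [hu, k4, hP, c']) (by norm_num) (by norm_num)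
      · have q := hPM (M := 683 / 1000) r0 (by norm_num) f g'' (by norm_num)
        exact loss_of (α := 683 / 1000) (β := 81 / 10000) (b0 := 6 / 5) (b1 := 3) tp hS
          (by linarith) (by norm_num) g'' k4 (by linarith) (by nlinarith only [hu, k3, k4, hP]) (by norm_num) (by norm_num)

end

end Pool.Agent.S3.E
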