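import Pool.Agent.S3.E.PbD
import Pool.Agent.S3.E.PbH

/-!
# Stage 3, block E: the loss at a vertex with three twists, `P < 0`
-/

set_option autoImplicit false

namespace Pool.Agent.S3.E

open Real

section

variable {R I ρ₁ β₁ p₁ r₁ ρ₂ β₂ p₂ r₂ : ℝ}

/-- The loss, `P ≤ 0`. -/
theorem Vx.loss3_neg (h : Vx 3 R I ρ₁ β₁ p₁ r₁ ρ₂ β₂ p₂ r₂) (h1' : ρ₁ ≤ 1)
    (h2 : 1 / 2 ≤ ρ₂) (h2' : ρ₂ ≤ 1) (hu : tan (th R I) ^ 2 ≤ 37 / 100)
    (hb : 13 / 20 ≤ p₁ / I) (hP : π / 2 - r₁ - p₁ / I * R ≤ 0) :
    L3 (tan (th R I) ^ 2) (lossJ (tan (th R I)) (p₁ / I) (π / 2 - r₁ - p₁ / I * R) T13) := by
  obtain ⟨k1, k2, k3, k4, k5⟩ := h.bP
  obtain ⟨e1, e2, -, -, -⟩ := basic h.R0 h.R1 h.I0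
  have hpi := pi_pos
  have pd1 := pi_gt_d4
  have pd2 := pi_lt_d4
  have hR6 := h.R_pi6 h1' h2'
  have v0 : 0 ≤ tan R ^ 2 := sq_nonneg _
  have t0 : 0 ≤ sinh I ^ 2 := sq_nonneg _
  have u0 : 0 ≤ tan (th R I) ^ 2 := sq_nonneg _
  have tp : 0 < tan (th R I) :=
    tan_pos_of_pos_of_lt_pi_div_two (th_pos h.R0 h.R1 h.I0) (th_lt h.R0 h.R1 h.I0)
  have I0 := h.I0
  have r0 := h.sl₂.r0
  have R0 := h.R0
  -- `-P ≤ M + R₀ b`
  have hPM : ∀ {s R₀ M : ℝ}, s ≤ r₂ → R₀ ≤ R → 15708 / 10000 - s - 3 * R₀ ≤ M →
      -(π / 2 - r₁ - p₁ / I * R) ≤ M + R₀ * (p₁ / I) := by
    intro s R₀ M c1 c2 c4
    have : (3 - p₁ / I) * R₀ ≤ (3 - p₁ / I) * R := mul_le_mul_of_nonneg_left c2 (by linarith only [k4])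
    linarith only [this, c4, c1, pd2, k5]
  have hpb : ∀ {b b' : ℝ}, b' ≤ p₁ / I → 3 - b' ≤ b → p₂ ≤ b * I := by
    intro b b' hb hb'
    rw [← k2]
    exact mul_le_mul_of_nonneg_right (by linarith only [hb', hb]) I0.le
  generalize hbb : p₁ / I = b at *
  generalize hPP : π / 2 - r₁ - b * R = P at *
  have hC : p₂ ≤ 1 * I → cosh p₂ ^ 2 ≤ 1 + sinh I ^ 2 := by
    intro g
    have e : 1 + sinh I ^ 2 = cosh I ^ 2 := by rw [cosh_sq]; ring
    rw [e]
    apply pow_le_pow_left₀ (cosh_pos _).le
    rw [cosh_le_cosh, abs_of_nonneg h.sl₂.p0, abs_of_pos I0]
    linarith only [g]
  rcases le_total (tan (th R I) ^ 2) (1 / 10) with c | c
  · -- `u ≤ 1/10`
    left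
    refine ⟨c, ?_⟩
    have hS : sJ (tan (th R I)) T13 ≤ 2354 / 10000 :=
      sJ_T13_le c (by norm_num) (by norm_num)
    have q := hPM (M := 3 / 10000) r0 (by linarith only [hR6, pd2, pd1] : (5235 / 10000 : ℝ) ≤ R) (by norm_num)
    exact loss_of (α := 3 / 10000) (β := 5317 / 10000) (b0 := 13 / 20) (b1 := 3) tp hS
      (by linarith only [hu]) (by norm_num) hb k4 (by linarith only [hP, hb, pd2, pd1]) (by (refine le_of_not_gt fun hng => ?_; linarith only [q,
                                                                                              c, hb,
                                                                                              mul_nonneg (sub_nonneg.2 hb) (sub_nonneg.2 c),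
                                                                                              mul_pos (sub_pos.2 pd2) (sub_pos.2 pd2),
                                                                                              mul_pos (sub_pos.2 pd1) (sub_pos.2 pd2),
                                                                                              mul_pos (sub_pos.2 pd1) (sub_pos.2 pd1),
                                                                                              mul_pos (sub_pos.2 hng) (sub_pos.2 pd2),
                                                                                              mul_pos (sub_pos.2 hng) (sub_pos.2 pd1)])) (by norm_num) (by norm_num)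
  rcases le_total (tan (th R I) ^ 2) (1 / 5) with c' | c'
  · -- `1/10 ≤ u ≤ 1/5`
    right; left
    refine ⟨c', ?_⟩
    have hS : sJ (tan (th R I)) T13 ≤ 3264 / 10000 :=
      sJ_T13_le c' (by norm_num) (by norm_num)
    rcases le_total b 2 with g | g
    · have q := hPM (M := 3 / 10000) r0 (by linarith only [hR6, pd2, pd1] : (5235 / 10000 : ℝ) ≤ R) (by norm_num)
      exact loss_of (α := 3 / 10000) (β := 5400 / 10000) (b0 := 13 / 20) (b1 := 2) tp hS
        (by linarith only [hu]) (by norm_num) hb g (by linarith only [hP, hb, pd2, pd1]) (by (refine le_of_not_gt fun hng => ?_; linarith only [q,
                                                                                               c',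
                                                                                               hb,
                                                                                               mul_nonneg (sub_nonneg.2 hb) (sub_nonneg.2 c'),
                                                                                               mul_pos (sub_pos.2 pd2) (sub_pos.2 pd2),
                                                                                               mul_pos (sub_pos.2 pd1) (sub_pos.2 pd2),
                                                                                               mul_pos (sub_pos.2 pd1) (sub_pos.2 pd1),
                                                                                               mul_pos (sub_pos.2 hng) (sub_pos.2 pd2),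
                                                                                               mul_pos (sub_pos.2 hng) (sub_pos.2 pd1)])) (by norm_num) (by norm_num)
    · have hs := h.sl₂.sin_ge' (s := 1 / 10) (ρ₀ := 1 / 2) h.R0 h.R1 h.I0
        (hC (hpb g (by norm_num))) (by norm_num) h2 (by
          have v1 : 1 / 4 ≤ tan R ^ 2 := v_ge (x := 1 / 2) (by norm_num) (by linarith only [hR6,
                                                                               pd2, pd1]) h.R1 (by norm_num)
          generalize tan (th R I) ^ 2 = u at *
          generalize tan R ^ 2 = v at *
          generalize sinh I ^ 2 = t at *
          have t1 : t ≤ 1 / 5 := by (refine le_of_not_gt fun hng => ?_; linarith only [mul_nonneg (sub_nonneg.2 hng.le) (sub_nonneg.2 e1.le),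
                                      mul_nonneg (sub_nonneg.2 hng.le) (sub_nonneg.2 e1.ge),
                                      mul_pos (sub_pos.2 hng) (sub_pos.2 pd2),
                                      mul_pos (sub_pos.2 hng) (sub_pos.2 pd1),
                                      mul_nonneg (sq_nonneg (cos R)) (sub_nonneg.2 e2.le),
                                      mul_nonneg (sq_nonneg (cos R)) (sub_nonneg.2 e2.ge),
                                      mul_nonneg (sq_nonneg (cos R)) (sub_nonneg.2 v0),
                                      mul_nonneg (sq_nonneg (cos R)) (sub_nonneg.2 c')])
          have t3 : (1 + u) ^ 2 ≤ (12 / 10) ^ 2 := pow_le_pow_left₀ (by linarith only [u0, pd2, pd1]) (by linarith only [c']) 2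
          have t4 : (1 + t) * (1 + u) ^ 2 ≤ 12 / 10 * (12 / 10) ^ 2 :=
            mul_le_mul (by linarith only [t1]) t3 (sq_nonneg _) (by norm_num)
          have t5 : 1 / 10 * (1 + 1 / 10 + 1 / 4) ≤ u * (1 + u + v) :=
            mul_le_mul c (by linarith only [v1, c]) (by norm_num) u0
          linarith only [t5, t4, pd2, pd1])
      have q := hPM (M := -(997 / 10000)) hs (by linarith only [hR6, pd2, pd1] : (5235 / 10000 : ℝ) ≤ R) (by norm_num)
      exact loss_of (α := -(997 / 10000)) (β := 5400 / 10000) (b0 := 2) (b1 := 3) tp hS
        (by linarith only [hu]) (by norm_num) g k4 (by linarith only [hP, hb, pd2, pd1]) (by (refine le_of_not_gt fun hng => ?_; linarith only [q,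
                                                                                               g,
                                                                                               c',
                                                                                               mul_nonneg (sub_nonneg.2 hb) (sub_nonneg.2 c'),
                                                                                               mul_pos (sub_pos.2 pd2) (sub_pos.2 pd2),
                                                                                               mul_pos (sub_pos.2 pd1) (sub_pos.2 pd2),
                                                                                               mul_pos (sub_pos.2 pd1) (sub_pos.2 pd1),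
                                                                                               mul_pos (sub_pos.2 hng) (sub_pos.2 pd2),
                                                                                               mul_pos (sub_pos.2 hng) (sub_pos.2 pd1)])) (by norm_num) (by norm_num)
  · -- `1/5 ≤ u ≤ 37/100`
    right; right
    refine ⟨by linarith only [hu], ?_⟩
    have hS : sJ (tan (th R I)) T13 ≤ 43 / 100 :=
      sJ_T13_le hu (by norm_num) (by norm_num)
    have f := h.R_62 h1' h2' c'
    have v1 : 489 / 1000 ≤ tan R ^ 2 := v_ge (by norm_num) f h.R1 (by norm_num)
    rcases le_total b 2 with g | g
    · have q := hPM (M := -(2892 / 10000)) r0 f (by norm_num)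
      exact loss_of (α := -(2892 / 10000)) (β := 6569 / 10000) (b0 := 13 / 20) (b1 := 2) tp hS
        (by linarith only [hu]) (by norm_num) hb g (by linarith only [hP, hb, pd2, pd1]) (by (refine le_of_not_gt fun hng => ?_; linarith only [q,
                                                                                               hb,
                                                                                               pd2,
                                                                                               pd1,
                                                                                               hu,
                                                                                               mul_nonneg (sub_nonneg.2 hu) (sub_nonneg.2 hb),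
                                                                                               mul_pos (sub_pos.2 hng) (sub_pos.2 pd2),
                                                                                               mul_pos (sub_pos.2 hng) (sub_pos.2 pd1)])) (by norm_num) (by norm_num)
    rcases le_total b (5 / 2) with g' | g'
    · have hs := h.sl₂.sin_ge' (s := 2 / 10) (ρ₀ := 1 / 2) h.R0 h.R1 h.I0
        (hC (hpb g (by norm_num))) (by norm_num) h2 (by
          generalize tan (th R I) ^ 2 = u at *
          generalize tan R ^ 2 = v at *
          generalize sinh I ^ 2 = t at *
          have t1 : t ≤ 1 / 4 := by (refine le_of_not_gt fun hng => ?_; linarith only [mul_nonneg (sub_nonneg.2 hng.le) (sub_nonneg.2 e1.le),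
                                      mul_nonneg (sub_nonneg.2 hng.le) (sub_nonneg.2 e1.ge),
                                      mul_pos (sub_pos.2 hng) (sub_pos.2 pd2),
                                      mul_pos (sub_pos.2 hng) (sub_pos.2 pd1),
                                      mul_nonneg (sq_nonneg (cos R)) (sub_nonneg.2 e2.le),
                                      mul_nonneg (sq_nonneg (cos R)) (sub_nonneg.2 e2.ge),
                                      mul_nonneg (sq_nonneg (cos R)) (sub_nonneg.2 v1),
                                      mul_nonneg (sq_nonneg (cos R)) (sub_nonneg.2 v0),
                                      mul_nonneg (sq_nonneg (cos R)) (sub_nonneg.2 hu)])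
          have t3 : (1 + t) * (1 + u) ≤ 125 / 100 * (137 / 100) :=
            mul_le_mul (by linarith only [t1]) (by linarith only [hu]) (by linarith only [u0, pd2,
                                                                             pd1]) (by norm_num)
          have t4 : (1 + t) * (1 + u) * (1 + u) ≤ 125 / 100 * (137 / 100) * (1 + u) :=
            mul_le_mul_of_nonneg_right t3 (by linarith only [u0, pd2, pd1])
          linarith only [mul_nonneg u0 (by linarith : 0 ≤ v - 489 / 1000), t4, c', pd2, pd1,
            mul_nonneg (sq_nonneg (1 * 1 + 1 * u)) (sub_nonneg.2 c'),
            mul_nonneg (mul_self_nonneg (u)) (sub_nonneg.2 hu)])
      have q := hPM (M := -(4892 / 10000)) hs f (by norm_num)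
      exact loss_of (α := -(4892 / 10000)) (β := 6569 / 10000) (b0 := 2) (b1 := 5 / 2) tp hS
        (by linarith only [hu]) (by norm_num) g g' (by linarith only [g, hP, pd2, pd1]) (by (refine le_of_not_gt fun hng => ?_; linarith only [q,
                                                                                              hb,
                                                                                              pd2,
                                                                                              pd1,
                                                                                              hu,
                                                                                              mul_nonneg (sub_nonneg.2 hu) (sub_nonneg.2 hb),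
                                                                                              mul_pos (sub_pos.2 hng) (sub_pos.2 pd2),
                                                                                              mul_pos (sub_pos.2 hng) (sub_pos.2 pd1)])) (by norm_num) (by norm_num)
    rcases le_total b (11 / 4) with g'' | g''
    · have hs := h.sl₂.sin_ge (b := 1 / 2) (s := 27 / 100) (ρ₀ := 1 / 2) h.R0 h.R1 h.I0
        (by norm_num) (by norm_num) (hpb g' (by norm_num)) (by norm_num) h2 (by
          generalize tan (th R I) ^ 2 = u at *
          generalize tan R ^ 2 = v at *
          generalize sinh I ^ 2 = t at *
          have t1 : t ≤ 6716 / 10000 * u := by (refine le_of_not_gt fun hng => ?_; linarith only [e2,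
                                                 u0, mul_nonneg (sub_nonneg.2 u0) (sub_nonneg.2 v1),
                                                 mul_nonneg (sub_nonneg.2 hng.le) (sub_nonneg.2 v1),
                                                 mul_pos (sub_pos.2 hng) (sub_pos.2 pd2),
                                                 mul_pos (sub_pos.2 hng) (sub_pos.2 pd1)])
          (refine le_of_not_gt fun hng => ?_; linarith only [t1, v1, hu,
            mul_nonneg (sub_nonneg.2 hu) (sub_nonneg.2 t0), mul_pos (sub_pos.2 pd2) (sub_pos.2 pd2),
            mul_pos (sub_pos.2 pd1) (sub_pos.2 pd2), mul_pos (sub_pos.2 pd1) (sub_pos.2 pd1),
            mul_pos (sub_pos.2 hng) (sub_pos.2 pd2), mul_pos (sub_pos.2 hng) (sub_pos.2 pd1)]))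
      have q := hPM (M := -(5592 / 10000)) hs f (by norm_num)
      exact loss_of (α := -(5592 / 10000)) (β := 6569 / 10000) (b0 := 5 / 2) (b1 := 11 / 4) tp hS
        (by linarith only [hu]) (by norm_num) g' g'' (by linarith only [g, hP, pd2, pd1]) (by (refine le_of_not_gt fun hng => ?_; linarith only [q,
                                                                                                hb,
                                                                                                pd2,
                                                                                                pd1,
                                                                                                hu,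
                                                                                                mul_nonneg (sub_nonneg.2 hu) (sub_nonneg.2 hb),
                                                                                                mul_pos (sub_pos.2 hng) (sub_pos.2 pd2),
                                                                                                mul_pos (sub_pos.2 hng) (sub_pos.2 pd1)])) (by norm_num) (by norm_num)
    · have hs := h.sl₂.sin_ge (b := 1 / 4) (s := 35 / 100) (ρ₀ := 1 / 2) h.R0 h.R1 h.I0
        (by norm_num) (by norm_num) (hpb g'' (by norm_num)) (by norm_num) h2 (by
          generalize tan (th R I) ^ 2 = u at *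
          generalize tan R ^ 2 = v at *
          generalize sinh I ^ 2 = t at *
          have t1 : t ≤ 6716 / 10000 * u := by (refine le_of_not_gt fun hng => ?_; linarith only [e2,
                                                 u0, mul_nonneg (sub_nonneg.2 u0) (sub_nonneg.2 v1),
                                                 mul_nonneg (sub_nonneg.2 hng.le) (sub_nonneg.2 v1),
                                                 mul_pos (sub_pos.2 hng) (sub_pos.2 pd2),
                                                 mul_pos (sub_pos.2 hng) (sub_pos.2 pd1)])
          (refine le_of_not_gt fun hng => ?_; linarith only [t1, v1, c',
            mul_nonneg (sub_nonneg.2 hu) (sub_nonneg.2 t0), mul_pos (sub_pos.2 pd2) (sub_pos.2 pd2),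
            mul_pos (sub_pos.2 pd1) (sub_pos.2 pd2), mul_pos (sub_pos.2 pd1) (sub_pos.2 pd1),
            mul_pos (sub_pos.2 hng) (sub_pos.2 pd2), mul_pos (sub_pos.2 hng) (sub_pos.2 pd1)]))
      have q := hPM (M := -(6392 / 10000)) hs f (by norm_num)
      exact loss_of (α := -(6392 / 10000)) (β := 6569 / 10000) (b0 := 11 / 4) (b1 := 3) tp hS
        (by linarith only [hu]) (by norm_num) g'' k4 (by linarith only [g, hP, pd2, pd1]) (by (refine le_of_not_gt fun hng => ?_; linarith only [q,
                                                                                                hb,
                                                                                                pd2,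
                                                                                                pd1,
                                                                                                hu,
                                                                                                mul_nonneg (sub_nonneg.2 hu) (sub_nonneg.2 hb),
                                                                                                mul_pos (sub_pos.2 hng) (sub_pos.2 pd2),
                                                                                                mul_pos (sub_pos.2 hng) (sub_pos.2 pd1)])) (by norm_num) (by norm_num)

/-- **The loss at an inner vertex with three twists** next to an inner vertex with two. -/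
theorem Vx.loss3 (h : Vx 3 R I ρ₁ β₁ p₁ r₁ ρ₂ β₂ p₂ r₂) (h1 : 13 / 20 ≤ ρ₁) (h1' : ρ₁ ≤ 1)
    (hb : β₁ ≤ 3 / 5) (h2 : 1 / 2 ≤ ρ₂) (h2' : ρ₂ ≤ 1) (hu : tan (th R I) ^ 2 ≤ 37 / 100)
    (hv : tan R ^ 2 ≤ 2) :
    L3 (tan (th R I) ^ 2) (lossJ (tan (th R I)) (p₁ / I) (π / 2 - r₁ - p₁ / I * R) T13) := by
  have k := h.b_low3 h1 hb h2' hu hv
  have k1 : 13 / 20 ≤ p₁ / I := by rw [le_div_iff₀ h.I0]; exact k
  rcases le_total 0 (π / 2 - r₁ - p₁ / I * R) with c | c
  · exact h.loss3_pos h1 h1' h2' hu hv k1 c
  · exact h.loss3_neg h1' h2 h2' hu k1 c

end

end Pool.Agent.S3.E
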