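import Pool.Agent.S3.E.PbH

/-!
# Stage 3, block E: the loss at a vertex with four twists or more
-/

set_option autoImplicit false

namespace Pool.Agent.S3.E

open Real

section

variable {a R I ρ₁ β₁ p₁ r₁ ρ₂ β₂ p₂ r₂ : ℝ}

theorem Vx.btau (h : Vx a R I ρ₁ β₁ p₁ r₁ ρ₂ β₂ p₂ r₂) (h1 : ρ₁ ≤ 1)
    (hu : tan (th R I) ^ 2 ≤ 1505 / 10000) (hv : tan R ^ 2 ≤ 1) :
    p₁ / I * tan (th R I) ≤ 7 / 4 := by
  obtain ⟨e1, e2, -, -, e5⟩ := basic h.R0 h.R1 h.I0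
  have tp : 0 < tan (th R I) :=
    tan_pos_of_pos_of_lt_pi_div_two (th_pos h.R0 h.R1 h.I0) (th_lt h.R0 h.R1 h.I0)
  have I0 := h.I0
  have a1 := h.sl₁.le_xx h.R0 h.R1 h.I0 h1
  have x0 := xx_pos h.R0 h.R1 h.I0
  have a2 : xx R I ≤ sinh (xx R I) := self_le_sinh_iff.2 x0.le
  have s0 : 0 < sinh I := sinh_pos_iff.2 h.I0
  have v0 : 0 ≤ tan R ^ 2 := sq_nonneg _
  have t0 : 0 ≤ sinh I ^ 2 := sq_nonneg _
  have u0 : 0 ≤ tan (th R I) ^ 2 := sq_nonneg _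
  have t1 : sinh I ^ 2 ≤ 1505 / 10000 := by nlinarith only [hu, e2]
  have k1 := arsh_three h.I0.le (t1.trans (by norm_num))
  rw [div_mul_eq_mul_div, div_le_iff₀ I0]
  have c1 : p₁ * tan (th R I) ≤ sinh (xx R I) * tan (th R I) :=
    mul_le_mul_of_nonneg_right (a1.trans a2) tp.le
  refine c1.trans ?_
  have c2 : 7 / 4 * (sinh I * (1 - sinh I ^ 2 / 6)) ≤ 7 / 4 * I := by linarith only [k1]
  refine le_trans ?_ c2
  apply le_of_sq_le_sq _ (by
    have : 0 ≤ 1 - sinh I ^ 2 / 6 := by linarith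
    positivity)
  have e : (7 / 4 * (sinh I * (1 - sinh I ^ 2 / 6))) ^ 2 =
      49 / 16 * (sinh I ^ 2 * (1 - sinh I ^ 2 / 6) ^ 2) := by ring
  rw [e, mul_pow]
  generalize tan (th R I) ^ 2 = u at *
  generalize tan R ^ 2 = v at *
  generalize sinh (xx R I) ^ 2 = x at *
  generalize sinh I ^ 2 = t at *
  have x1 : x ≤ v := by nlinarith only [u0, v0, e5]
  have t2 : (9 / 10 : ℝ) ≤ (1 - t / 6) ^ 2 := by nlinarith only [t1]
  have t3 : x * (t * (1 + v)) ≤ v * (t * (1 + v)) := mul_le_mul_of_nonneg_right x1 (by positivity)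
  have t4 : v * (t * (1 + v)) ≤ 2 * t := by nlinarith only [u0, hv, t0, e2]
  have t5 : t * (9 / 10) ≤ t * (1 - t / 6) ^ 2 := mul_le_mul_of_nonneg_left t2 t0
  rw [← e2]
  linarith

theorem Vx.P_abs (h : Vx a R I ρ₁ β₁ p₁ r₁ ρ₂ β₂ p₂ r₂) :
    π / 2 - r₁ - p₁ / I * R ≤ π / 2 ∧ -(π / 2) ≤ π / 2 - r₁ - p₁ / I * R := by
  obtain ⟨k1, k2, k3, k4, k5⟩ := h.bP
  have a1 := mul_nonneg k3 h.R0.le
  have a2 := mul_nonneg (by linarith : 0 ≤ a - p₁ / I) h.R0.le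
  constructor
  · linarith [h.sl₁.r0]
  · rw [k5]
    linarith [h.sl₂.r0]

/-- The loss for large weights. -/
theorem Vx.loss_large (h : Vx a R I ρ₁ β₁ p₁ r₁ ρ₂ β₂ p₂ r₂) (h1 : ρ₁ ≤ 1)
    (hu : tan (th R I) ^ 2 ≤ 1505 / 10000) (hv : tan R ^ 2 ≤ 1) (hb : 4 ≤ p₁ / I) :
    L3 (tan (th R I) ^ 2) (lossJ (tan (th R I)) (p₁ / I) (π / 2 - r₁ - p₁ / I * R) T13) := by
  have tp : 0 < tan (th R I) :=
    tan_pos_of_pos_of_lt_pi_div_two (th_pos h.R0 h.R1 h.I0) (th_lt h.R0 h.R1 h.I0)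
  obtain ⟨c1, c2⟩ := h.P_abs
  have pd2 := pi_lt_d4
  have b0 : 0 < p₁ / I := by linarith
  refine L3.of_le tp (by linarith) b0 (h.btau h1 hu hv) ?_ ?_
  · rw [le_div_iff₀ b0]; linarith
  · rw [div_le_iff₀ b0]; linarith

theorem Vx.v_ge4 (h : Vx a R I ρ₁ β₁ p₁ r₁ ρ₂ β₂ p₂ r₂) (ha : 4 ≤ a) (h1 : ρ₁ ≤ 1) (h2 : ρ₂ ≤ 1) :
    4 * tan (th R I) ^ 2 * (1 + tan (th R I) ^ 2 + tan R ^ 2) * (1 + tan (th R I) ^ 2) ≤
      tan R ^ 2 * (1 + tan R ^ 2) ^ 2 := by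
  obtain ⟨e1, e2, -, -, e5⟩ := basic h.R0 h.R1 h.I0
  have a1 := h.sl₁.le_xx h.R0 h.R1 h.I0 h1
  have a2 := h.sl₂.le_xx h.R0 h.R1 h.I0 h2
  have a3 := h.hI
  have I0 := h.I0
  have a4 : 2 * I ≤ xx R I := by nlinarith only [ha, a1, a2, a3, I0]
  have a5 : sinh (2 * I) ≤ sinh (xx R I) := sinh_le_sinh.2 a4
  have a6 : 0 < sinh (2 * I) := sinh_pos_iff.2 (by linarith)
  have a7 := pow_le_pow_left₀ a6.le a5 2
  have e : sinh (2 * I) ^ 2 = 4 * sinh I ^ 2 * (1 + sinh I ^ 2) := by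
    rw [sinh_two_mul, mul_pow, mul_pow, cosh_sq]; ring
  rw [e] at a7
  have v0 : 0 ≤ tan R ^ 2 := sq_nonneg _
  have u0 : 0 ≤ tan (th R I) ^ 2 := sq_nonneg _
  generalize tan (th R I) ^ 2 = u at *
  generalize tan R ^ 2 = v at *
  generalize sinh (xx R I) ^ 2 = x at *
  generalize sinh I ^ 2 = t at *
  have k := mul_le_mul_of_nonneg_right a7 (by positivity : 0 ≤ (1 + v) ^ 2 * (1 + u))
  calc 4 * u * (1 + u + v) * (1 + u) = 4 * t * (1 + t) * ((1 + v) ^ 2 * (1 + u)) := by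
        rw [← e2]; ring
    _ ≤ x * ((1 + v) ^ 2 * (1 + u)) := k
    _ = v * (1 + v) ^ 2 := by rw [← e5]; ring

theorem Vx.R_32 (h : Vx a R I ρ₁ β₁ p₁ r₁ ρ₂ β₂ p₂ r₂) (ha : 4 ≤ a) (h1 : ρ₁ ≤ 1) (h2 : ρ₂ ≤ 1)
    (hu : 3 / 100 ≤ tan (th R I) ^ 2) : 8 / 25 ≤ R := by
  by_contra hc
  push Not at hc
  have k := h.v_ge4 ha h1 h2
  have v1 : tan R ^ 2 ≤ 1101 / 10000 :=
    v_le h.R0.le hc.le (by norm_num) (by norm_num) (by norm_num)
  have v0 : 0 ≤ tan R ^ 2 := sq_nonneg _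
  generalize tan (th R I) ^ 2 = u at *
  generalize tan R ^ 2 = v at *
  have a1 : 4 * (3 / 100) * (1 + 3 / 100 + v) * (1 + 3 / 100) ≤ 4 * u * (1 + u + v) * (1 + u) :=
    mul_le_mul (mul_le_mul (by linarith) (by linarith) (by linarith) (by linarith)) (by linarith)
      (by norm_num) (mul_nonneg (by linarith) (by linarith))
  have a2 : (1 + v) ^ 2 ≤ (11101 / 10000) ^ 2 := pow_le_pow_left₀ (by linarith) (by linarith) 2
  have a3 : v * (1 + v) ^ 2 ≤ v * (11101 / 10000) ^ 2 := mul_le_mul_of_nonneg_left a2 v0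
  linarith

theorem Vx.R_53 (h : Vx a R I ρ₁ β₁ p₁ r₁ ρ₂ β₂ p₂ r₂) (ha : 4 ≤ a) (h1 : ρ₁ ≤ 1) (h2 : ρ₂ ≤ 1)
    (hu : 1 / 10 ≤ tan (th R I) ^ 2) : 53 / 100 ≤ R := by
  by_contra hc
  push Not at hc
  have k := h.v_ge4 ha h1 h2
  have v1 : tan R ^ 2 ≤ 346 / 1000 :=
    v_le h.R0.le hc.le (by norm_num) (by norm_num) (by norm_num)
  have v0 : 0 ≤ tan R ^ 2 := sq_nonneg _
  generalize tan (th R I) ^ 2 = u at *
  generalize tan R ^ 2 = v at *
  have a1 : 4 * (1 / 10) * (1 + 1 / 10 + v) * (1 + 1 / 10) ≤ 4 * u * (1 + u + v) * (1 + u) :=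
    mul_le_mul (mul_le_mul (by linarith) (by linarith) (by linarith) (by linarith)) (by linarith)
      (by norm_num) (mul_nonneg (by linarith) (by linarith))
  have a2 : (1 + v) ^ 2 ≤ (1346 / 1000) ^ 2 := pow_le_pow_left₀ (by linarith) (by linarith) 2
  have a3 : v * (1 + v) ^ 2 ≤ v * (1346 / 1000) ^ 2 := mul_le_mul_of_nonneg_left a2 v0
  linarith

/-- **The loss at a vertex with four twists or more** next to an inner vertex with two. -/
theorem Vx.loss4 (h : Vx a R I ρ₁ β₁ p₁ r₁ ρ₂ β₂ p₂ r₂) (ha : 4 ≤ a) (h1 : 13 / 20 ≤ ρ₁)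
    (h1' : ρ₁ ≤ 1) (h2 : ρ₂ ≤ 1) (hb : 9 / 10 ≤ p₁ / I)
    (hu : tan (th R I) ^ 2 ≤ 1505 / 10000) (hv : tan R ^ 2 ≤ 1) :
    L3 (tan (th R I) ^ 2) (lossJ (tan (th R I)) (p₁ / I) (π / 2 - r₁ - p₁ / I * R) T13) := by
  rcases le_total 4 (p₁ / I) with b4 | b4
  · exact h.loss_large h1' hu hv b4
  obtain ⟨k1, k2, k3, k4, k5⟩ := h.bP
  obtain ⟨c1, c2⟩ := h.P_abs
  obtain ⟨e1, e2, -, -, -⟩ := basic h.R0 h.R1 h.I0
  have hpi := pi_pos
  have pd1 := pi_gt_d4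
  have pd2 := pi_lt_d4
  have v0 : 0 ≤ tan R ^ 2 := sq_nonneg _
  have t0 : 0 ≤ sinh I ^ 2 := sq_nonneg _
  have u0 : 0 ≤ tan (th R I) ^ 2 := sq_nonneg _
  have tp : 0 < tan (th R I) :=
    tan_pos_of_pos_of_lt_pi_div_two (th_pos h.R0 h.R1 h.I0) (th_lt h.R0 h.R1 h.I0)
  have I0 := h.I0
  have r0 := h.sl₁.r0
  have r0' := h.sl₂.r0
  have R0 := h.R0
  -- `P ≤ M - R₀ b₀`
  have hPM : ∀ {s R₀ b₀ M : ℝ}, s ≤ r₁ → 0 ≤ R₀ → R₀ ≤ R → b₀ ≤ p₁ / I →
      15708 / 10000 - s - b₀ * R₀ ≤ M → π / 2 - r₁ - p₁ / I * R ≤ M := by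
    intro s R₀ b₀ M c1 c0 c2 c3 c4
    have : b₀ * R₀ ≤ p₁ / I * R := by
      have : b₀ * R₀ ≤ p₁ / I * R₀ := mul_le_mul_of_nonneg_right c3 c0
      have : p₁ / I * R₀ ≤ p₁ / I * R := mul_le_mul_of_nonneg_left c2 k3
      linarith
    linarith
  -- `-P ≤ M + R₀ b`
  have hPN : ∀ {s R₀ M : ℝ}, s ≤ r₂ → 0 ≤ R₀ → R₀ ≤ R → 15708 / 10000 - s - 4 * R₀ ≤ M →
      -(π / 2 - r₁ - p₁ / I * R) ≤ M + R₀ * (p₁ / I) := by
    intro s R₀ M c1 c0 c2 c4
    have : (4 - p₁ / I) * R₀ ≤ (a - p₁ / I) * R := mul_le_mul (by linarith) c2 c0 (by linarith)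
    linarith
  have hpb : ∀ {b : ℝ}, p₁ / I ≤ b → p₁ ≤ b * I := by
    intro b hb
    rw [← k1]
    exact mul_le_mul_of_nonneg_right hb I0.le
  generalize hbb : p₁ / I = b at *
  generalize hPP : π / 2 - r₁ - b * R = P at *
  rcases le_total (tan (th R I) ^ 2) (3 / 100) with c | c
  · left
    refine ⟨by linarith, ?_⟩
    have hS : sJ (tan (th R I)) T13 ≤ 1309 / 10000 :=
      sJ_T13_le c (by norm_num) (by norm_num)
    exact loss_of (α := 15708 / 10000) (β := 81 / 10000) (b0 := 9 / 10) (b1 := 4) tp hS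
      (by linarith) (by norm_num) hb b4 (by linarith) (by nlinarith only [pd2, k3, c2, c]) (by norm_num) (by norm_num)
  have hR := h.R_32 ha h1' h2 c
  rcases le_total (tan (th R I) ^ 2) (1 / 10) with c' | c'
  · left
    refine ⟨c', ?_⟩
    have hS : sJ (tan (th R I)) T13 ≤ 2354 / 10000 :=
      sJ_T13_le c' (by norm_num) (by norm_num)
    rcases le_total 0 P with d | d
    · have q := hPM (M := 12828 / 10000) r0 (by norm_num) hR hb (by norm_num)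
      exact loss_of (α := 12828 / 10000) (β := 81 / 10000) (b0 := 9 / 10) (b1 := 4) tp hS
        (by linarith) (by norm_num) hb b4 (by linarith) (by nlinarith only [k3, c', d]) (by norm_num) (by norm_num)
    · have q := hPN (M := 2908 / 10000) r0' (by norm_num) hR (by norm_num)
      exact loss_of (α := 2908 / 10000) (β := 3281 / 10000) (b0 := 9 / 10) (b1 := 4) tp hS
        (by linarith) (by norm_num) hb b4 (by linarith) (by nlinarith only [k3, c', q]) (by norm_num) (by norm_num)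
  · right; left
    refine ⟨by linarith, ?_⟩
    have hS : sJ (tan (th R I)) T13 ≤ 2859 / 10000 :=
      sJ_T13_le hu (by norm_num) (by norm_num)
    rcases le_total 0 P with d | d
    · have hR' := h.R_53 ha h1' h2 c'
      rcases le_total b (6 / 5) with g | g
      · have hC : cosh p₁ ^ 2 ≤ (1 + 2 * sinh I ^ 2) ^ 2 := by
          apply pow_le_pow_left₀ (cosh_pos _).le
          have e : 1 + 2 * sinh I ^ 2 = cosh (2 * I) := by
            rw [cosh_two_mul, cosh_sq]; ring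
          rw [e, cosh_le_cosh, abs_of_nonneg h.sl₁.p0, abs_of_pos (by linarith)]
          have := hpb g
          linarith
        have v1 : 335 / 1000 ≤ tan R ^ 2 := v_ge (by norm_num) hR' h.R1 (by norm_num)
        have hs := h.sl₁.sin_ge' (s := 165 / 1000) (ρ₀ := 13 / 20) h.R0 h.R1 h.I0 hC (by norm_num)
          h1 (by
            generalize tan (th R I) ^ 2 = u at *
            generalize tan R ^ 2 = v at *
            generalize sinh I ^ 2 = t at *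
            have t1 : t ≤ 113 / 1000 := by nlinarith only [hu, v1, e2]
            have t2 : (1 + 2 * t) ^ 2 ≤ (1226 / 1000) ^ 2 :=
              pow_le_pow_left₀ (by linarith) (by linarith) 2
            have t3 : (1 + u) ^ 2 ≤ (1 + u) * (11505 / 10000) := by nlinarith only [hu, u0]
            have t4 : (1 + 2 * t) ^ 2 * (1 + u) ^ 2 ≤
                (1226 / 1000) ^ 2 * ((1 + u) * (11505 / 10000)) :=
              mul_le_mul t2 t3 (sq_nonneg _) (by norm_num)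
            linarith only [mul_nonneg u0 (by linarith : 0 ≤ v - 335 / 1000), mul_nonneg u0 (by linarith : 0 ≤ u - 1 / 10), c', t4])
        have q := hPM (M := 9288 / 10000) hs (by norm_num) hR' hb (by norm_num)
        exact loss_of (α := 9288 / 10000) (β := 81 / 10000) (b0 := 9 / 10) (b1 := 4) tp hS
          (by linarith) (by norm_num) hb b4 (by linarith) (by nlinarith only [hu, hb, b4, d]) (by norm_num) (by norm_num)
      · have q := hPM (M := 9348 / 10000) r0 (by norm_num) hR' g (by norm_num)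
        exact loss_of (α := 9348 / 10000) (β := 81 / 10000) (b0 := 6 / 5) (b1 := 4) tp hS
          (by linarith) (by norm_num) g b4 (by linarith) (by nlinarith only [hu, hb, b4, d]) (by norm_num) (by norm_num)
    · have q := hPN (M := 2908 / 10000) r0' (by norm_num) hR (by norm_num)
      exact loss_of (α := 2908 / 10000) (β := 3305 / 10000) (b0 := 9 / 10) (b1 := 4) tp hS
        (by linarith) (by norm_num) hb b4 (by linarith) (by nlinarith only [hu, k3, q]) (by norm_num) (by norm_num)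

end

end Pool.Agent.S3.E
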