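import Mathlib

/-!
# Stage 3, block E: the phase of an inner vertex with two twists next to an end with three
-/

set_option autoImplicit false

namespace Pool.Agent.S3.E

open Real

/-- The phase inequality of the quartic. -/
theorem quartic_phase {X b₁ b₂ : ℂ} {φ : ℝ}
    (h : 4 * X ^ 2 - 4 * (b₁ * b₂) * X + (b₁ + b₂) ^ 2 = 0)
    (hX : X = (‖X‖ : ℂ) * Complex.exp (-(2 * φ : ℝ) * Complex.I)) (hX0 : 0 < ‖X‖)
    (hs : 0 < b₁.re + b₂.re)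
    (hQ : 0 ≤ cos (2 * φ) * (b₁.re + b₂.re) - sin (2 * φ) * (b₁.im + b₂.im)) :
    (cos (2 * φ) * (b₁.re + b₂.re) - sin (2 * φ) * (b₁.im + b₂.im)) * (b₁.re + b₂.re) ≤
      b₁.re * (b₂.re ^ 2 + b₂.im ^ 2) + b₂.re * (b₁.re ^ 2 + b₁.im ^ 2) := by
  have xr : X.re = ‖X‖ * cos (2 * φ) := by
    have e : -((2 * φ : ℝ) : ℂ) * Complex.I = ((-(2 * φ) : ℝ) : ℂ) * Complex.I := by push_cast; ring
    conv_lhs => rw [hX, e, Complex.re_ofReal_mul, Complex.exp_ofReal_mul_I_re, cos_neg]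
  have xi : X.im = -(‖X‖ * sin (2 * φ)) := by
    have e : -((2 * φ : ℝ) : ℂ) * Complex.I = ((-(2 * φ) : ℝ) : ℂ) * Complex.I := by push_cast; ring
    conv_lhs => rw [hX, e, Complex.im_ofReal_mul, Complex.exp_ofReal_mul_I_im, sin_neg]
    ring
  have h1 := congrArg Complex.re h
  have h2 := congrArg Complex.im h
  simp only [pow_two, Complex.add_im, Complex.sub_im, Complex.mul_im, Complex.add_re,
    Complex.sub_re, Complex.mul_re, Complex.zero_re, Complex.zero_im, Complex.re_ofNat,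
    Complex.im_ofNat] at h1 h2
  obtain ⟨n, hn⟩ : ∃ n, n = ‖X‖ := ⟨_, rfl⟩
  obtain ⟨C, hC⟩ : ∃ C, C = cos (2 * φ) := ⟨_, rfl⟩
  obtain ⟨S, hS⟩ : ∃ S, S = sin (2 * φ) := ⟨_, rfl⟩
  have cs : C ^ 2 + S ^ 2 = 1 := by rw [hC, hS]; linarith [sin_sq_add_cos_sq (2 * φ)]
  rw [xr, xi] at h1 h2
  rw [← hn, ← hC, ← hS] at h1 h2
  rw [← hC, ← hS] at hQ ⊢
  rw [← hn] at hX0
  generalize b₁.re = A₁ at *
  generalize b₂.re = A₂ at *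
  generalize b₁.im = B₁ at *
  generalize b₂.im = B₂ at *
  obtain ⟨Q, hQ'⟩ : ∃ Q, Q = C * (A₁ + A₂) - S * (B₁ + B₂) := ⟨_, rfl⟩
  rw [← hQ'] at hQ ⊢
  have key : Q * (4 * n ^ 2 + ((A₁ + A₂) ^ 2 + (B₁ + B₂) ^ 2)) =
      4 * n * (A₁ * (A₂ ^ 2 + B₂ ^ 2) + A₂ * (A₁ ^ 2 + B₁ ^ 2)) := by
    apply mul_left_cancel₀ hX0.ne'
    have e1 : n * (Q * (4 * n ^ 2 + ((A₁ + A₂) ^ 2 + (B₁ + B₂) ^ 2))) -
        n * (4 * n * (A₁ * (A₂ ^ 2 + B₂ ^ 2) + A₂ * (A₁ ^ 2 + B₁ ^ 2))) = 0 := by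
      rw [hQ']
      linear_combination (n * C * (A₁ + A₂) + n * S * (B₁ + B₂)) * h1 +
        (n * C * (B₁ + B₂) - n * S * (A₁ + A₂)) * h2 -
        (4 * n ^ 3 * (C * (A₁ + A₂) - S * (B₁ + B₂)) -
          4 * n ^ 2 * (A₁ * (A₂ ^ 2 + B₂ ^ 2) + A₂ * (A₁ ^ 2 + B₁ ^ 2))) * cs
    linarith
  have k1 : 4 * n * (A₁ + A₂) ≤ 4 * n ^ 2 + ((A₁ + A₂) ^ 2 + (B₁ + B₂) ^ 2) := by
    nlinarith [sq_nonneg (2 * n - (A₁ + A₂)), sq_nonneg (B₁ + B₂)]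
  have k2 := mul_le_mul_of_nonneg_left k1 hQ
  rw [key] at k2
  have k3 : 4 * n * (Q * (A₁ + A₂)) ≤
      4 * n * (A₁ * (A₂ ^ 2 + B₂ ^ 2) + A₂ * (A₁ ^ 2 + B₁ ^ 2)) := by linarith
  exact le_of_mul_le_mul_left k3 (by linarith)

end Pool.Agent.S3.E
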