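import Pool.Agent.S3.Cl.PbO
import Pool.Agent.S3.E.J5C
import Pool.Agent.S3.E.PbE
import Pool.Agent.S3.E.PbI
import Pool.Agent.S3.E.PbJ
import Pool.Agent.S3.E.PbK
import Pool.Agent.S3.E.PbL

/-!
# Stage 3, block E: (n2), (n3): the loss at a vertex with three twists or more next to an inner
vertex with two

* `Zr.phi_quarter`, `Zr.end3_u`: `tan² θ ≤ 39/200` at an end with three twists;
* `Zr.n23`: `L3 (tan² θ_i) (Le θ_i θ_j x_i x_j b_i)` for `3 ≤ a i` next to an inner vertex `j`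
  with two twists.
-/

set_option autoImplicit false

namespace Pool.Agent.S3.E

section real

open Real

theorem tan_sq_37 {θ : ℝ} (h0 : 0 ≤ θ) (h : θ ≤ 37 / 100) : tan θ ^ 2 ≤ 1505 / 10000 := by
  have hpi := pi_gt_three
  have c1 : 1 - (37 / 800 : ℝ) ^ 2 / 2 ≤ cos (37 / 800) := one_sub_sq_div_two_le_cos
  have e1 : cos (37 / 400) = 2 * cos (37 / 800) ^ 2 - 1 := by
    rw [← cos_two_mul]; norm_num
  have e2 : cos (37 / 200) = 2 * cos (37 / 400) ^ 2 - 1 := by
    rw [← cos_two_mul]; norm_num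
  have e3 : cos (37 / 100) = 2 * cos (37 / 200) ^ 2 - 1 := by
    rw [← cos_two_mul]; norm_num
  have c1' : 9989304 / 10000000 ≤ cos (37 / 800 : ℝ) := by norm_num at c1 ⊢; linarith
  have c2 : 9957238 / 10000000 ≤ cos (37 / 400 : ℝ) := by
    rw [e1]
    have := pow_le_pow_left₀ (by norm_num) c1' 2
    norm_num at this ⊢
    linarith
  have c3 : 9829317 / 10000000 ≤ cos (37 / 200 : ℝ) := by
    rw [e2]
    have := pow_le_pow_left₀ (by norm_num) c2 2
    norm_num at this ⊢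
    linarith
  have c4 : 9323094 / 10000000 ≤ cos (37 / 100 : ℝ) := by
    rw [e3]
    have := pow_le_pow_left₀ (by norm_num) c3 2
    norm_num at this ⊢
    linarith
  have c5 : cos (37 / 100 : ℝ) ≤ cos θ := cos_le_cos_of_nonneg_of_le_pi h0 (by linarith) h
  have c6 : (9323094 / 10000000 : ℝ) ^ 2 ≤ cos θ ^ 2 :=
    pow_le_pow_left₀ (by norm_num) (c4.trans c5) 2
  have c7 : 0 < cos θ := by linarith
  have c8 : cos θ ^ 2 * (1 + tan θ ^ 2) = 1 := by
    rw [tan_eq_sin_div_cos, div_pow]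
    field_simp
    rw [cos_sq_add_sin_sq]
  have c9 : 0 < cos θ ^ 2 := by positivity
  by_contra hc
  push Not at hc
  nlinarith only [c6, c8, hc]

/-- The phase: the other neighbour is open. -/
private theorem num_open {A₁ B₁ A₂ B₂ Q : ℝ} (hA : 5632 / 10000 ≤ A₁) (hB : B₁ ≤ 501 / 1000 * A₁)
    (hn : A₁ ^ 2 + B₁ ^ 2 ≤ 5193 / 10000) (hA2 : 0 < A₂) (hB2' : 0 ≤ B₂)
    (hB2 : B₂ ≤ 6844 / 10000 * A₂) (hn2 : A₂ ^ 2 + B₂ ^ 2 ≤ 1)
    (hQ : 875 / 1000 * (A₁ + A₂) - 4825 / 10000 * (B₁ + B₂) ≤ Q) :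
    A₁ * (A₂ ^ 2 + B₂ ^ 2) + A₂ * (A₁ ^ 2 + B₁ ^ 2) < Q * (A₁ + A₂) := by
  have h1 : 6332 / 10000 * A₁ + 5447 / 10000 * A₂ ≤ Q := by linarith
  have h2 : (6332 / 10000 * A₁ + 5447 / 10000 * A₂) * (A₁ + A₂) ≤ Q * (A₁ + A₂) :=
    mul_le_mul_of_nonneg_right h1 (by linarith)
  have h3 : A₂ * (A₁ ^ 2 + B₁ ^ 2) ≤ A₂ * (5193 / 10000) := mul_le_mul_of_nonneg_left hn hA2.le
  have h0 : 0 < A₁ := by linarith
  rcases le_total A₂ (8253 / 10000) with c | c
  · have h4 : A₂ ^ 2 + B₂ ^ 2 ≤ 14685 / 10000 * A₂ ^ 2 := by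
      have := pow_le_pow_left₀ hB2' hB2 2
      nlinarith only [this]
    have h5 : A₁ * (A₂ ^ 2 + B₂ ^ 2) ≤ A₁ * (14685 / 10000 * A₂ ^ 2) :=
      mul_le_mul_of_nonneg_left h4 h0.le
    nlinarith only [mul_nonneg hA2.le (by linarith : 0 ≤ 8253 / 10000 - A₂), mul_nonneg (mul_nonneg hA2.le (by linarith : 0 ≤ 8253 / 10000 - A₂)) (by linarith : 0 ≤ A₁ - 5632 / 10000), mul_nonneg h0.le (by linarith : 0 ≤ A₁ - 5632 / 10000), hA, h2, h3, h5]
  · have h5 : A₁ * (A₂ ^ 2 + B₂ ^ 2) ≤ A₁ * 1 := mul_le_mul_of_nonneg_left hn2 h0.le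
    nlinarith only [hA, h2, h3, c, h5]

/-- The phase: the other neighbour is closed. -/
private theorem num_closed {A₁ B₁ A₂ B₂ Q : ℝ} (hA : 5632 / 10000 ≤ A₁)
    (hB : B₁ ≤ 501 / 1000 * A₁) (hn : A₁ ^ 2 + B₁ ^ 2 ≤ 5193 / 10000) (hA2 : 0 < A₂)
    (hB2' : 0 ≤ B₂) (hB2 : B₂ ≤ A₂) (hn2 : A₂ ^ 2 + B₂ ^ 2 ≤ 1 / 2)
    (hQ : 875 / 1000 * (A₁ + A₂) - 4825 / 10000 * (B₁ + B₂) ≤ Q) :
    A₁ * (A₂ ^ 2 + B₂ ^ 2) + A₂ * (A₁ ^ 2 + B₁ ^ 2) < Q * (A₁ + A₂) := by
  have h1 : 6332 / 10000 * A₁ + 3925 / 10000 * A₂ ≤ Q := by linarith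
  have h2 : (6332 / 10000 * A₁ + 3925 / 10000 * A₂) * (A₁ + A₂) ≤ Q * (A₁ + A₂) :=
    mul_le_mul_of_nonneg_right h1 (by linarith)
  have h3 : A₂ * (A₁ ^ 2 + B₁ ^ 2) ≤ A₂ * (5193 / 10000) := mul_le_mul_of_nonneg_left hn hA2.le
  have h0 : 0 < A₁ := by linarith
  rcases le_total A₂ (1 / 2) with c | c
  · have h4 : A₂ ^ 2 + B₂ ^ 2 ≤ 2 * A₂ ^ 2 := by nlinarith only [hB2', hB2]
    have h5 : A₁ * (A₂ ^ 2 + B₂ ^ 2) ≤ A₁ * (2 * A₂ ^ 2) :=
      mul_le_mul_of_nonneg_left h4 h0.le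
    nlinarith only [mul_nonneg hA2.le (by linarith : 0 ≤ 1 / 2 - A₂), mul_nonneg (mul_nonneg hA2.le (by linarith : 0 ≤ 1 / 2 - A₂)) (by linarith : 0 ≤ A₁ - 5632 / 10000), mul_nonneg h0.le (by linarith : 0 ≤ A₁ - 5632 / 10000), hA, h2, h3, h5]
  · have h5 : A₁ * (A₂ ^ 2 + B₂ ^ 2) ≤ A₁ * (1 / 2) := mul_le_mul_of_nonneg_left hn2 h0.le
    nlinarith only [hA, h2, h3, c, h5]

end real

section

variable {ι : Type*} [Finite ι] {a : ι → ℝ} {nl nr : ι → Option ι} {z : ι → ℂ}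

open Complex

namespace Zr

/-- The vertex equation with the slot towards `j` first. -/
theorem vx_first' (h : Zr a nl nr 1 z) {i j : ι} (hij : nl i = some j ∨ nr i = some j) :
    ∃ (o : Option ι) (p₂ r₂ : ℝ), (nl i = o ∨ nr i = o) ∧
      (o = none ↔ (nl i = none ∨ nr i = none)) ∧
      Vx (a i) (z i).re (z i).im (ro 1 z (some j)) (be 1 z (some j)) (qe (z i) (z j)).re
        (qe (z i) (z j)).im (ro 1 z o) (be 1 z o) p₂ r₂ := by
  have hv := h.vx i
  have hq : (qe (z i) (z j)).re = PP (bo 1 z (some j) * tan (z i)) := by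
    rw [h.qe_eq_ash hij, ash_re]
  have hq' : (qe (z i) (z j)).im = RR (bo 1 z (some j) * tan (z i)) := by
    rw [h.qe_eq_ash hij, ash_im]
  rw [hq, hq']
  rcases hij with e | e
  · exact ⟨nr i, _, _, Or.inr rfl, by rw [e]; simp, by rw [← e]; exact hv⟩
  · exact ⟨nl i, _, _, Or.inl rfl, by rw [e]; simp, by rw [← e]; exact hv.swap⟩

/-- **The phase of an inner vertex with two twists** next to a vertex with small `|cos z|`. -/
theorem phi_quarter (h : Zr a nl nr 1 z) {i j : ι} (hj : a j = 2) (hin : In2 nl nr j)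
    (hji : nl j = some i ∨ nr j = some i) (hi : 3 ≤ a i) (hK : ‖cos (z i)‖ ^ 2 ≤ 5193 / 10000)
    (hK' : 63 / 100 ≤ ‖cos (z i)‖) : 1 / 4 ≤ ph (z j).re (z j).im := by
  by_contra hcon
  push Not at hcon
  have hpi := Real.pi_gt_three
  obtain ⟨k, hik⟩ : ∃ k, (nl j = some i ∧ nr j = some k) ∨ (nl j = some k ∧ nr j = some i) := by
    obtain ⟨l, r, e1, e2⟩ := hin
    rcases hji with e | e
    · exact ⟨r, Or.inl ⟨e, e2⟩⟩
    · exact ⟨l, Or.inr ⟨e1, e⟩⟩
  have hjk : nl j = some k ∨ nr j = some k := by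
    rcases hik with ⟨_, e⟩ | ⟨e, _⟩
    · exact Or.inr e
    · exact Or.inl e
  have hq := h.quartic' hj hik
  rw [← h.bo_one, ← h.bo_one] at hq
  have φ0 := h.phpos j
  -- the data of the two slots
  have r1 := h.bo_re (some i)
  have i1 := h.bo_im (some i)
  have r2 := h.bo_re (some k)
  have i2 := h.bo_im (some k)
  have β1 : be 1 z (some i) ≤ 9 / 20 := by rw [be_one]; exact h.ph3_le hi
  have β1' := h.be_nonneg (some i)
  have β2' := h.be_nonneg (some k)
  have β2 := h.be_le (some k)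
  have ρ1 : ro 1 z (some i) = ‖cos (z i)‖ := ro_one z i
  have s1 := Real.sin_le β1'
  have c1 := Real.one_sub_sq_div_two_le_cos (x := be 1 z (some i))
  have c1' : 89875 / 100000 ≤ Real.cos (be 1 z (some i)) := by nlinarith only [β1, β1', c1]
  have B1 : (bo 1 z (some i)).im ≤ 501 / 1000 * (bo 1 z (some i)).re := by
    rw [r1, i1, ρ1]
    have : Real.sin (be 1 z (some i)) ≤ 501 / 1000 * Real.cos (be 1 z (some i)) := by linarith
    have := mul_le_mul_of_nonneg_left this (norm_nonneg (cos (z i)))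
    linarith
  have n1 : (bo 1 z (some i)).re ^ 2 + (bo 1 z (some i)).im ^ 2 = ‖cos (z i)‖ ^ 2 := by
    rw [r1, i1, ρ1]
    have := Real.sin_sq_add_cos_sq (be 1 z (some i))
    linear_combination ‖cos (z i)‖ ^ 2 * this
  have n2 : (bo 1 z (some k)).re ^ 2 + (bo 1 z (some k)).im ^ 2 = ro 1 z (some k) ^ 2 := by
    rw [r2, i2]
    have := Real.sin_sq_add_cos_sq (be 1 z (some k))
    linear_combination ro 1 z (some k) ^ 2 * this
  have B1' := h.bo_im_nonneg (some i)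
  have B2' := h.bo_im_nonneg (some k)
  have R1 : 0 < (bo 1 z (some i)).re := by
    rw [r1, ρ1]
    have : (0 : ℝ) < ‖cos (z i)‖ := by linarith
    have : 0 < Real.cos (be 1 z (some i)) := by linarith
    positivity
  have R2 : 0 < (bo 1 z (some k)).re := by
    rw [r2]
    have := h.ro_pos k
    have : 0 < Real.cos (be 1 z (some k)) :=
      Real.cos_pos_of_mem_Ioo ⟨by linarith, by linarith⟩
    positivity
  have A1 : 5632 / 10000 ≤ (bo 1 z (some i)).re := by
    have : (5632 / 10000) ^ 2 ≤ (bo 1 z (some i)).re ^ 2 := by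
      have : (63 / 100) ^ 2 ≤ ‖cos (z i)‖ ^ 2 := pow_le_pow_left₀ (by norm_num) hK' 2
      rw [← n1] at this
      have : (bo 1 z (some i)).im ^ 2 ≤ (501 / 1000 * (bo 1 z (some i)).re) ^ 2 :=
        pow_le_pow_left₀ B1' B1 2
      nlinarith only [hK', n1, this]
    exact le_of_sq_le_sq this R1.le
  -- the phase
  have C : 875 / 1000 ≤ Real.cos (2 * ph (z j).re (z j).im) := by
    have := Real.one_sub_sq_div_two_le_cos (x := 2 * ph (z j).re (z j).im)
    nlinarith only [hcon, φ0, this]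
  have S : Real.sin (2 * ph (z j).re (z j).im) ≤ 4825 / 10000 := by
    have g1 : Real.sin (2 * ph (z j).re (z j).im) ≤ Real.sin (1 / 2) :=
      Real.sin_le_sin_of_le_of_le_pi_div_two (by linarith) (by linarith) (by linarith)
    have g2 := Real.sin_bound (x := 1 / 2) (by rw [abs_of_pos (by norm_num)]; norm_num)
    rw [abs_of_pos (by norm_num : (0 : ℝ) < 1 / 2)] at g2
    have g3 := (abs_le.1 g2).2
    norm_num at g3
    linarith
  have hQ : 875 / 1000 * ((bo 1 z (some i)).re + (bo 1 z (some k)).re) -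
      4825 / 10000 * ((bo 1 z (some i)).im + (bo 1 z (some k)).im) ≤
      Real.cos (2 * ph (z j).re (z j).im) * ((bo 1 z (some i)).re + (bo 1 z (some k)).re) -
      Real.sin (2 * ph (z j).re (z j).im) * ((bo 1 z (some i)).im + (bo 1 z (some k)).im) := by
    have g1 := mul_le_mul_of_nonneg_right C (by linarith :
      0 ≤ (bo 1 z (some i)).re + (bo 1 z (some k)).re)
    have g2 := mul_le_mul_of_nonneg_right S (by linarith :
      0 ≤ (bo 1 z (some i)).im + (bo 1 z (some k)).im)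
    linarith
  have hI := h.bo_im_le (some k)
  have hQ0 : 0 ≤ Real.cos (2 * ph (z j).re (z j).im) *
      ((bo 1 z (some i)).re + (bo 1 z (some k)).re) -
      Real.sin (2 * ph (z j).re (z j).im) * ((bo 1 z (some i)).im + (bo 1 z (some k)).im) := by
    refine le_trans ?_ hQ
    linarith
  have key := quartic_phase hq (h.cos_sq_polar j) (by
    rw [norm_pow]; exact pow_pos (h.norm_pos j) 2) (by linarith) hQ0
  have hn : (bo 1 z (some i)).re ^ 2 + (bo 1 z (some i)).im ^ 2 ≤ 5193 / 10000 := by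
    rw [n1]; exact hK
  -- the open case
  have ho : be 1 z (some k) ≤ 3 / 5 → False := by
    intro hb
    obtain ⟨g1, g2⟩ := cos_sin_35' β2' hb
    have g3 : (bo 1 z (some k)).im ≤ 6844 / 10000 * (bo 1 z (some k)).re := by
      rw [r2, i2]
      have := mul_le_mul_of_nonneg_left (by linarith :
        Real.sin (be 1 z (some k)) ≤ 6844 / 10000 * Real.cos (be 1 z (some k))) (h.ro_nonneg (some k))
      linarith
    have g4 : (bo 1 z (some k)).re ^ 2 + (bo 1 z (some k)).im ^ 2 ≤ 1 := by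
      rw [n2]
      have := h.ro_le_one (some k)
      have := h.ro_nonneg (some k)
      nlinarith
    have := num_open A1 B1 hn R2 B2' g3 g4 hQ
    linarith
  rcases h.nb_types hjk with e | ⟨e, e'⟩ | e
  · exact ho (by rw [be_one]; linarith [h.ph3_le e])
  · exact ho (by rw [be_one]; exact h.two_ph_le e e')
  · have g4 : (bo 1 z (some k)).re ^ 2 + (bo 1 z (some k)).im ^ 2 ≤ 1 / 2 := by
      rw [n2, ro_one, norm_eq_sqrt, Real.sq_sqrt (h.k2pos k).le, h.end_k2 e]
      have : √(k2 (z j).re (z j).im) ≤ 1 := Real.sqrt_le_one.2 (h.k2_le j)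
      linarith
    have := num_closed A1 B1 hn R2 B2' hI g4 hQ
    linarith

/-- **`tan² θ ≤ 39/200`** at an end with three twists next to an inner vertex with two twists. -/
theorem end3_u (h : Zr a nl nr 1 z) {i j : ι} (hi : a i = 3)
    (hij : nl i = some j ∨ nr i = some j) (he : nl i = none ∨ nr i = none)
    (hj : a j = 2) (hin : In2 nl nr j) :
    Real.tan (th (z i).re (z i).im) ^ 2 ≤ 39 / 200 := by
  by_contra hc
  push Not at hc
  obtain ⟨o, p₂, r₂, ho, ho', hv⟩ := h.vx_first' hij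
  rw [hi, ho'.2 he] at hv
  have hv' : Vx 3 (z i).re (z i).im (ro 1 z (some j)) (be 1 z (some j)) (qe (z i) (z j)).re
    (qe (z i) (z j)).im 0 (be 1 z none) p₂ r₂ := hv
  have k1 := hv'.end3_K (h.ro_le_one _) hc
  have hk2 : ‖cos (z i)‖ ^ 2 = Real.cos (z i).re ^ 2 + Real.sinh (z i).im ^ 2 := by
    rw [norm_eq_sqrt, Real.sq_sqrt (h.k2pos i).le, GeoX_k2, Real.cosh_sq]
    ring
  have k2 := (h.end3_two hi hij he hj hin).2.1
  have hb := h.phi_quarter hj hin (h.N.symm i j hij) (by linarith) (by rw [hk2]; exact k1) k2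
  have := hv'.end3_u (h.ro_le_one _) (by rw [be_one]; exact hb)
    (by rw [be_one]; exact h.two_ph_le hj hin)
  linarith

/-- The loss at an end with three twists. -/
theorem _root_.Pool.Agent.S3.E.L3_end3 {τ b P : ℝ} (hτ : 0 < τ) (h1 : τ ^ 2 ≤ 39 / 200)
    (hb : b = 3) (hP : P = -(Real.pi / 2)) : L3 (τ ^ 2) (lossJ τ b P T13) := by
  refine Or.inr (Or.inl ⟨by linarith, ?_⟩)
  have p1 := Real.pi_lt_d4
  have p2 := Real.pi_gt_d4
  have hS : sJ τ T13 ≤ 3226 / 10000 := sJ_T13_le h1 (by norm_num) (by norm_num)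
  subst hb
  exact loss_of (α := 15708 / 10000) (β := 15798 / 1000000) (b0 := 3) (b1 := 3) hτ hS
    (by linarith) (by norm_num) le_rfl le_rfl (by linarith) (by linarith only [h1, hP, p1]) (by norm_num)
    (by norm_num)

/-- **(n2), (n3)**: the loss at a vertex with three twists or more (inner or end) next to an
inner vertex with two twists. -/
theorem n23 (h : Zr a nl nr 1 z) (h3 : ∀ i, 3 ≤ a i → a i = 3 ∨ 4 ≤ a i) {i j : ι}
    (hi : 3 ≤ a i) (hij : nl i = some j ∨ nr i = some j) (hj : a j = 2) (hin : In2 nl nr j) :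
    L3 (Real.tan (th (z i).re (z i).im) ^ 2)
      (Le (th (z i).re (z i).im) (th (z j).re (z j).im) (xx (z i).re (z i).im)
        (xx (z j).re (z j).im) (bw (z i) (z j))) := by
  obtain ⟨h1, h2, h4⟩ := h.pos i
  have hpi := Real.pi_pos
  have t0 := h.th_pos_i i
  obtain ⟨o, p₂, r₂, ho, ho', hv⟩ := h.vx_first' hij
  have eP : Pe (th (z i).re (z i).im) (th (z j).re (z j).im) (xx (z i).re (z i).im)
      (xx (z j).re (z j).im) (bw (z i) (z j)) =
      Real.pi / 2 - (qe (z i) (z j)).im - (qe (z i) (z j)).re / (z i).im * (z i).re := by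
    unfold Pe
    rw [Cl.pi_gdv_re h i]
    rfl
  unfold Le
  rw [eP, show bw (z i) (z j) = (qe (z i) (z j)).re / (z i).im from rfl]
  have ρ1 : 13 / 20 ≤ ro 1 z (some j) := by rw [ro_one]; exact h.norm2_ge h3 hj hin
  have ρ1' := h.ro_le_one (some j)
  have β1 : be 1 z (some j) ≤ 3 / 5 := by rw [be_one]; exact h.two_ph_le hj hin
  rcases h3 i hi with e | e
  · -- three twists
    rw [e] at hv
    cases o with
    | none =>
      have he := ho'.1 rfl
      have hv' : Vx 3 (z i).re (z i).im (ro 1 z (some j)) (be 1 z (some j)) (qe (z i) (z j)).re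
        (qe (z i) (z j)).im 0 (be 1 z none) p₂ r₂ := hv
      obtain ⟨z1, z2⟩ := hv'.sl₂.zero
      have e1 := hv'.hI
      have e2 := hv'.hR
      have e3 : (qe (z i) (z j)).re / (z i).im = 3 := by
        rw [div_eq_iff h4.ne']
        linarith
      apply L3_end3 (Real.tan_pos_of_pos_of_lt_pi_div_two t0 (th_lt h1 h2 h4))
        (h.end3_u e hij he hj hin) e3
      rw [e3]
      linarith
    | some k =>
      have hu : Real.tan (th (z i).re (z i).im) ^ 2 ≤ 37 / 100 :=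
        v_le t0.le (h.th3_le hi) (by norm_num) (by norm_num) (by norm_num)
      have hR := h.open_re_le h3 hj hin (h.N.symm i j hij) (Or.inl hi)
      have pd := Real.pi_lt_d4
      have hR' : Real.tan (z i).re ^ 2 ≤ 2 :=
        v_le (x := 9425 / 10000) h1.le (by linarith) (by norm_num) (by norm_num) (by norm_num)
      exact hv.loss3 ρ1 ρ1' β1 (h.ro_ge k) (h.ro_le_one _) hu hR'
  · -- four twists or more
    have hu : Real.tan (th (z i).re (z i).im) ^ 2 ≤ 1505 / 10000 := tan_sq_37 t0.le (h.th4_le e)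
    have hR' : Real.tan (z i).re ^ 2 ≤ 1 := by
      have g1 := h.aR_lt_i i
      have g2 : (z i).re < Real.pi / 4 := by nlinarith only [hpi, e, g1]
      have g3 := Real.tan_lt_tan_of_nonneg_of_lt_pi_div_two h1.le (by linarith) g2
      rw [Real.tan_pi_div_four] at g3
      have g4 := Real.tan_pos_of_pos_of_lt_pi_div_two h1 h2
      nlinarith only [g3, g4]
    have hb : 9 / 10 ≤ (qe (z i) (z j)).re / (z i).im := by
      rw [le_div_iff₀ h4]
      exact hv.b_low4 e ρ1 β1 (h.ro_le_one _) hu hR'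
    exact hv.loss4 e ρ1 ρ1' (h.ro_le_one _) hb hu hR'

end Zr

end

end Pool.Agent.S3.E
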