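import Pool.Agent.S3.E.PbI

/-!
# Stage 3, block E: the stronger bounds of the loss at a vertex with three twists or more
-/

set_option autoImplicit false

namespace Pool.Agent.S3.E

open Real

/-- The bounds of the loss (`TT.L3T` unfolded). -/
def L3s (k l : ℝ) : Prop := (k ≤ 1 / 10 ∧ l ≤ 60 / 1000) ∨ (k ≤ 37 / 100 ∧ l ≤ 41 / 1000)

theorem L3s.of_L3 {k l : ℝ} (h : L3 k l) (h1 : 1 / 5 < k) (h2 : k ≤ 37 / 100) : L3s k l := by
  rcases h with ⟨e, -⟩ | ⟨e, -⟩ | ⟨-, e⟩
  · linarith only [e, h2, h1]
  · linarith only [e, h1]
  · exact Or.inr ⟨h2, e⟩

/-- The bound of `δ + d R`. -/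
theorem dR_le₃ {S δ d R : ℝ} (hS : 8263 / 10000 ≤ S) (hS1 : S ≤ 1) (hd : 0 ≤ d) (hd1 : d ≤ 17 / 10)
    (hδ : δ ≤ π / 2) (hR : R ≤ 18 / 25)
    (h : S * sin δ ≤ 4725 / 10000 - 2735 / 10000 * d) : δ + d * R ≤ 1238 / 1000 := by
  have p2 := pi_lt_d4
  have p1 := pi_gt_d4
  have k : d * R ≤ d * (18 / 25) := mul_le_mul_of_nonneg_left hR hd
  rcases le_total δ 0 with h0 | h0
  · have a1 : δ ≤ sin δ := by
      have := sin_le (x := -δ) (by linarith only [h0])
      rw [sin_neg] at this
      linarith only [this]
    rcases le_total (sin δ) 0 with b | b
    · have : sin δ ≤ S * sin δ := by (refine le_of_not_gt fun hng => ?_; linarith only [mul_nonneg (sub_nonneg.2 hS1) (sub_nonneg.2 b),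
                                       mul_pos (sub_pos.2 hng) (sub_pos.2 p1),
                                       mul_pos (sub_pos.2 hng) (sub_pos.2 p2)])
      linarith only [h0, k, p1, p2, hd1]
    · have := mul_nonneg (by linarith only [hS] : 0 ≤ S) b
      linarith only [h0, k, p1, p2, hd1]
  · have a1 : 2 / π * δ ≤ sin δ := mul_le_sin h0 hδ
    have a2 : 0 ≤ sin δ := sin_nonneg_of_nonneg_of_le_pi h0 (by linarith only [p1, hδ])
    have a3 : δ ≤ 15708 / 10000 * sin δ := by
      have e : δ = π / 2 * (2 / π * δ) := by field_simp
      have e1 : π / 2 * (2 / π * δ) ≤ π / 2 * sin δ := mul_le_mul_of_nonneg_left a1 (by positivity)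
      have e2 : π / 2 * sin δ ≤ 15708 / 10000 * sin δ :=
        mul_le_mul_of_nonneg_right (by linarith only [p2]) a2
      exact e.trans_le (e1.trans e2)
    have a4 : 8263 / 10000 * sin δ ≤ S * sin δ := mul_le_mul_of_nonneg_right hS a2
    have a5 : δ ≤ 8983 / 10000 := by linarith only [a4, a3, p1, p2, h, hd]
    have a6 : δ * (7983 / 10000) ≤ sin δ := by
      rcases h0.eq_or_lt with e | e
      · rw [← e]; simp
      · have := sin_gt_sub_cube e
        linarith only [mul_nonneg h0 (by nlinarith : 0 ≤ (8983 / 10000) ^ 2 - δ ^ 2), this, a3]
    linarith only [a6, a4, k, p1, p2, h, hd1]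

section

variable {R I ρ₁ β₁ p₁ r₁ ρ₂ β₂ p₂ r₂ : ℝ}

private theorem sin3_ge' {R x s : ℝ} (h0 : π / 6 ≤ R) (h : R ≤ x)
    (hs : s ≤ 1 - (3 * x - 15707 / 10000) ^ 2 / 2) : s ≤ sin (3 * R) := by
  have p1 := pi_gt_d4
  have p2 := pi_lt_d4
  have e : sin (3 * R) = cos (3 * R - π / 2) := by rw [cos_sub_pi_div_two]
  rw [e]
  have k := one_sub_sq_div_two_le_cos (x := 3 * R - π / 2)
  have a : 0 ≤ 3 * R - π / 2 := by linarith only [h0]
  have b : 3 * R - π / 2 ≤ 3 * x - 15707 / 10000 := by linarith only [p1, h]
  have := pow_le_pow_left₀ a b 2
  linarith only [this, k, hs]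

theorem Vx.P_le₃ (h : Vx 3 R I ρ₁ β₁ p₁ r₁ ρ₂ β₂ p₂ r₂) (h1 : 13 / 20 ≤ ρ₁) (h1' : ρ₁ ≤ 1)
    (h2 : ρ₂ ≤ 1) (hu : 3 / 20 ≤ tan (th R I) ^ 2) (hu' : tan (th R I) ^ 2 ≤ 1 / 5)
    (hb : 13 / 20 ≤ p₁ / I) (hb' : p₁ / I ≤ 3 / 2) (hR : R ≤ 18 / 25) :
    π / 2 - r₁ - p₁ / I * R ≤ 619 / 1000 := by
  obtain ⟨k1, k2, k3, k4, k5⟩ := h.bP
  obtain ⟨e1, e2, -, -, -⟩ := basic h.R0 h.R1 h.I0
  have hpi := pi_pos
  have v1 : tan R ^ 2 ≤ 7816 / 10000 :=
    v_le h.R0.le hR (by norm_num) (by norm_num) (by norm_num)
  have v0 : 0 ≤ tan R ^ 2 := sq_nonneg _
  have t0 : 0 ≤ sinh I ^ 2 := sq_nonneg _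
  have t1 : sinh I ^ 2 ≤ 3 / 5 := by linarith only [e2, hu',
                                       mul_nonneg (sq_nonneg (sinh I)) (sq_nonneg (tan R))]
  have k := h.relD h1 h2 t1 (d := 3 - 2 * (p₁ / I)) (by linarith only [hb']) (by
    rw [← k2]
    nth_rewrite 2 [← k1]
    ring)
  have hS := sin3_ge' (s := 8263 / 10000) (h.R_pi6 h1' h2) hR (by norm_num)
  have hδ := dR_le₃ (d := 3 - 2 * (p₁ / I)) hS (sin_le_one _) (by linarith only [hb']) (by linarith only [hb])
    (by linarith only [h.sl₂.r1, h.sl₁.r0]) hR (δ := r₂ - r₁) (by
      obtain ⟨D, hD⟩ : ∃ D, D = sin (3 * R) * sin (r₂ - r₁) := ⟨_, rfl⟩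
      rw [← hD] at k ⊢
      have hd : 0 ≤ 3 - 2 * (p₁ / I) := by linarith only [hb']
      generalize 3 - 2 * (p₁ / I) = d at *
      generalize tan (th R I) ^ 2 = u at *
      generalize tan R ^ 2 = v at *
      generalize sinh I ^ 2 = t at *
      have t2 : 841 / 10000 ≤ t := by (refine le_of_not_gt fun hng => ?_; linarith only [hng, e1,
                                        mul_nonneg (sub_nonneg.2 hng.le) (sub_nonneg.2 e1.le),
                                        mul_nonneg (sub_nonneg.2 hng.le) (sub_nonneg.2 e1.ge),
                                        mul_nonneg (sq_nonneg (cos R)) (sub_nonneg.2 e2.le),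
                                        mul_nonneg (sq_nonneg (cos R)) (sub_nonneg.2 e2.ge),
                                        mul_nonneg (sq_nonneg (cos R)) (sub_nonneg.2 v1),
                                        mul_nonneg (sq_nonneg (cos R)) (sub_nonneg.2 hu)])
      have t3 : 2735 / 10000 ≤ 3 * (t * (1 + t)) := by (refine le_of_not_gt fun hng => ?_; linarith only [hng,
                                                         e2, v1, e1, hu,
                                                         mul_nonneg (sub_nonneg.2 t0) (sub_nonneg.2 e2.le),
                                                         mul_nonneg (sub_nonneg.2 t0) (sub_nonneg.2 e2.ge),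
                                                         mul_nonneg (sub_nonneg.2 e1.le) (sub_nonneg.2 t0),
                                                         mul_nonneg (sub_nonneg.2 e1.ge) (sub_nonneg.2 t0),
                                                         mul_nonneg (sub_nonneg.2 hu) (sub_nonneg.2 t0),
                                                         mul_nonneg (sub_nonneg.2 hng.le) (sub_nonneg.2 v0),
                                                         mul_nonneg (sq_nonneg (cos R)) (sub_nonneg.2 e2.le),
                                                         mul_nonneg (sq_nonneg (cos R)) (sub_nonneg.2 e2.ge),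
                                                         mul_nonneg (sq_nonneg (cos R)) (sub_nonneg.2 v1),
                                                         mul_nonneg (sq_nonneg (cos R)) (sub_nonneg.2 hu)])
      have a1 : d * (2735 / 10000) ≤ d * (3 * (t * (1 + t))) := mul_le_mul_of_nonneg_left t3 hd
      have a2 : (D + d * (2735 / 10000)) * (1 + u) ≤ (D + 3 * d * (t * (1 + t))) * (1 + u) :=
        mul_le_mul_of_nonneg_right (by linarith only [a1]) (by linarith only [hu])
      have a3 : (D + d * (2735 / 10000)) * (1 + u) ≤ 4725 / 10000 * (1 + u) := by linarith only [a2,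
                                                                                    k, v1, hu']
      have a4 := le_of_mul_le_mul_right a3 (by linarith only [hu] : (0 : ℝ) < 1 + u)
      linarith only [a4])
  have e3 := h.hR
  linarith only [hδ, k5]

/-- The loss, `P ≥ 0`. -/
theorem Vx.loss3_posT (h : Vx 3 R I ρ₁ β₁ p₁ r₁ ρ₂ β₂ p₂ r₂) (h1 : 13 / 20 ≤ ρ₁) (h1' : ρ₁ ≤ 1)
    (h2 : ρ₂ ≤ 1) (hu : tan (th R I) ^ 2 ≤ 37 / 100) (hv : tan R ^ 2 ≤ 2)
    (hb : 13 / 20 ≤ p₁ / I) (hP : 0 ≤ π / 2 - r₁ - p₁ / I * R) :
    L3s (tan (th R I) ^ 2) (lossJ (tan (th R I)) (p₁ / I) (π / 2 - r₁ - p₁ / I * R) T13) := by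
  rcases lt_or_ge (1 / 5) (tan (th R I) ^ 2) with c5 | c5
  · exact L3s.of_L3 (h.loss3_pos h1 h1' h2 hu hv hb hP) c5 hu
  obtain ⟨k1, k2, k3, k4, k5⟩ := h.bP
  obtain ⟨e1, e2, -, -, -⟩ := basic h.R0 h.R1 h.I0
  have hpi := pi_pos
  have pd1 := pi_gt_d4
  have pd2 := pi_lt_d4
  have hR6 := h.R_pi6 h1' h2
  have v0 : 0 ≤ tan R ^ 2 := sq_nonneg _
  have t0 : 0 ≤ sinh I ^ 2 := sq_nonneg _
  have u0 : 0 ≤ tan (th R I) ^ 2 := sq_nonneg _
  have tp : 0 < tan (th R I) :=
    tan_pos_of_pos_of_lt_pi_div_two (th_pos h.R0 h.R1 h.I0) (th_lt h.R0 h.R1 h.I0)
  have I0 := h.I0
  have r0 := h.sl₁.r0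
  have R0 := h.R0
  -- `P ≤ M - R₀ b₀`
  have hPM : ∀ {s R₀ b₀ M : ℝ}, s ≤ r₁ → 0 ≤ R₀ → R₀ ≤ R → b₀ ≤ p₁ / I →
      15708 / 10000 - s - b₀ * R₀ ≤ M → π / 2 - r₁ - p₁ / I * R ≤ M := by
    intro s R₀ b₀ M c1 c0 c2 c3 c4
    have : b₀ * R₀ ≤ p₁ / I * R := by
      have : b₀ * R₀ ≤ p₁ / I * R₀ := mul_le_mul_of_nonneg_right c3 c0
      have : p₁ / I * R₀ ≤ p₁ / I * R := mul_le_mul_of_nonneg_left c2 k3
      linarith [this]
    linarith only [this, c4, c1, pd2]
  have hpb : ∀ {b : ℝ}, p₁ / I ≤ b → p₁ ≤ b * I := by
    intro b hb
    rw [← k1]
    exact mul_le_mul_of_nonneg_right hb I0.le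
  generalize hbb : p₁ / I = b at *
  generalize hPP : π / 2 - r₁ - b * R = P at *
  rcases le_total (tan (th R I) ^ 2) (1 / 10) with c | c
  · -- `u ≤ 1/10`
    left
    refine ⟨c, ?_⟩
    have hS : sJ (tan (th R I)) T13 ≤ 2354 / 10000 :=
      sJ_T13_le c (by norm_num) (by norm_num)
    rcases le_total b 1 with g | g
    · have hs := h.sl₁.sin_ge (b := 1) (s := 1 / 4) h.R0 h.R1 h.I0 (by norm_num) (by norm_num)
        (hpb g) (by norm_num) h1 (by
          have v1 : 1 / 3 ≤ tan R ^ 2 := by
            have : tan (π / 6) ≤ tan R := by
              rcases hR6.eq_or_lt with e | e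
              · rw [e]
              · exact (tan_lt_tan_of_nonneg_of_lt_pi_div_two (by positivity) h.R1 e).le
            rw [tan_pi_div_six] at this
            have := pow_le_pow_left₀ (by positivity) this 2
            rw [div_pow, Real.sq_sqrt (by norm_num)] at this
            linarith only [this]
          generalize tan (th R I) ^ 2 = u at *
          generalize tan R ^ 2 = v at *
          generalize sinh I ^ 2 = t at *
          have t1 : t ≤ 3 / 4 * u := by (refine le_of_not_gt fun hng => ?_; linarith only [e2,
                                          mul_nonneg (sub_nonneg.2 u0) (sub_nonneg.2 v1),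
                                          mul_nonneg (sub_nonneg.2 hng.le) (sub_nonneg.2 v1),
                                          mul_pos (sub_pos.2 hng) (sub_pos.2 pd2),
                                          mul_pos (sub_pos.2 hng) (sub_pos.2 pd1)])
          (refine le_of_not_gt fun hng => ?_; linarith only [t1, v1, c,
            mul_nonneg (sub_nonneg.2 hu) (sub_nonneg.2 t0), mul_pos (sub_pos.2 pd2) (sub_pos.2 pd2),
            mul_pos (sub_pos.2 pd1) (sub_pos.2 pd2), mul_pos (sub_pos.2 pd1) (sub_pos.2 pd1),
            mul_pos (sub_pos.2 hng) (sub_pos.2 pd2), mul_pos (sub_pos.2 hng) (sub_pos.2 pd1)]))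
      have q := hPM (M := 981 / 1000) hs (by norm_num) (by linarith only [hR6, pd2, pd1] : (5235 / 10000 : ℝ) ≤ R)
        hb (by norm_num)
      exact loss_of (α := 981 / 1000) (β := 81 / 10000) (b0 := 13 / 20) (b1 := 3) tp hS
        (by linarith only [hu]) (by norm_num) hb k4 (by linarith only [q]) (by linarith only [hP,
                                                                                 hb, pd2, pd1, hu,
                                                                                 mul_nonneg (sq_nonneg (tan (th R I))) (sub_nonneg.2 k4)]) (by norm_num) (by norm_num)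
    · have q := hPM (M := 1048 / 1000) r0 (by norm_num) (by linarith only [hR6, pd2, pd1] : (5235 / 10000 : ℝ) ≤ R)
        g (by norm_num)
      exact loss_of (α := 1048 / 1000) (β := 81 / 10000) (b0 := 1) (b1 := 3) tp hS
        (by linarith only [hu]) (by norm_num) g k4 (by linarith only [q]) (by linarith only [g, hP,
                                                                                pd2, pd1, hu,
                                                                                mul_nonneg (sq_nonneg (tan (th R I))) (sub_nonneg.2 k4)]) (by norm_num) (by norm_num)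
  right
  refine ⟨hu, ?_⟩
  rcases le_total (tan (th R I) ^ 2) (3 / 20) with c' | c'
  · -- `1/10 ≤ u ≤ 3/20`
    have hS : sJ (tan (th R I)) T13 ≤ 2855 / 10000 :=
      sJ_T13_le c' (by norm_num) (by norm_num)
    rcases le_total R (18 / 25) with f | f
    · rcases le_total b (3 / 2) with g | g
      · have q : P ≤ 743 / 1000 := by
          rw [← hPP, ← hbb]
          exact h.P_le₂ h1 h1' h2 c c5 (by rw [hbb]; exact hb) (by rw [hbb]; exact g) f
        exact loss_of (α := 743 / 1000) (β := 81 / 10000) (b0 := 13 / 20) (b1 := 3) tp hS
          (by linarith only [hu]) (by norm_num) hb k4 (by linarith only [q]) (by linarith only [hP,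
                                                                                   hb, pd2, pd1, hu,
                                                                                   mul_nonneg (sq_nonneg (tan (th R I))) (sub_nonneg.2 k4)]) (by norm_num) (by norm_num)
      · have q := hPM (M := 7856 / 10000) r0 (by norm_num) (by linarith only [hR6, pd2, pd1] : (5235 / 10000 : ℝ) ≤ R)
          g (by norm_num)
        exact loss_of (α := 7856 / 10000) (β := 81 / 10000) (b0 := 3 / 2) (b1 := 3) tp hS
          (by linarith only [hu]) (by norm_num) g k4 (by linarith only [q]) (by linarith only [g,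
                                                                                  hP, pd2, pd1, hu,
                                                                                  mul_nonneg (sq_nonneg (tan (th R I))) (sub_nonneg.2 k4)]) (by norm_num) (by norm_num)
    · have v1 : 713 / 1000 ≤ tan R ^ 2 := v_ge (by norm_num) f h.R1 (by norm_num)
      rcases le_total b 1 with g | g
      · have hs := h.sl₁.sin_ge (b := 1) (s := 38 / 100) h.R0 h.R1 h.I0 (by norm_num) (by norm_num)
          (hpb g) (by norm_num) h1 (by
            generalize tan (th R I) ^ 2 = u at *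
            generalize tan R ^ 2 = v at *
            generalize sinh I ^ 2 = t at *
            have t1 : t ≤ 5838 / 10000 * u := by (refine le_of_not_gt fun hng => ?_; linarith only [e2,
                                                   u0,
                                                   mul_nonneg (sub_nonneg.2 u0) (sub_nonneg.2 v1),
                                                   mul_nonneg (sub_nonneg.2 hng.le) (sub_nonneg.2 v1),
                                                   mul_pos (sub_pos.2 hng) (sub_pos.2 pd2),
                                                   mul_pos (sub_pos.2 hng) (sub_pos.2 pd1)])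
            (refine le_of_not_gt fun hng => ?_; linarith only [t1, v1, c5,
              mul_nonneg (sub_nonneg.2 hu) (sub_nonneg.2 t0),
              mul_pos (sub_pos.2 pd2) (sub_pos.2 pd2), mul_pos (sub_pos.2 pd1) (sub_pos.2 pd2),
              mul_pos (sub_pos.2 pd1) (sub_pos.2 pd1), mul_pos (sub_pos.2 hng) (sub_pos.2 pd2),
              mul_pos (sub_pos.2 hng) (sub_pos.2 pd1)]))
        have q := hPM (M := 723 / 1000) hs (by norm_num) f hb (by norm_num)
        exact loss_of (α := 723 / 1000) (β := 81 / 10000) (b0 := 13 / 20) (b1 := 3) tp hS
          (by linarith only [hu]) (by norm_num) hb k4 (by linarith only [q]) (by linarith only [hP,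
                                                                                   hb, pd2, pd1, hu,
                                                                                   mul_nonneg (sq_nonneg (tan (th R I))) (sub_nonneg.2 k4)]) (by norm_num) (by norm_num)
      · have q := hPM (M := 851 / 1000) r0 (by norm_num) f g (by norm_num)
        exact loss_of (α := 851 / 1000) (β := 81 / 10000) (b0 := 1) (b1 := 3) tp hS
          (by linarith only [hu]) (by norm_num) g k4 (by linarith only [q]) (by linarith only [g,
                                                                                  hP, pd2, pd1, hu,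
                                                                                  mul_nonneg (sq_nonneg (tan (th R I))) (sub_nonneg.2 k4)]) (by norm_num) (by norm_num)
  · -- `3/20 ≤ u ≤ 1/5`
    have hS : sJ (tan (th R I)) T13 ≤ 3264 / 10000 :=
      sJ_T13_le c5 (by norm_num) (by norm_num)
    rcases le_total R (18 / 25) with f | f
    · rcases le_total b (3 / 2) with g | g
      · have q : P ≤ 619 / 1000 := by
          rw [← hPP, ← hbb]
          exact h.P_le₃ h1 h1' h2 c' c5 (by rw [hbb]; exact hb) (by rw [hbb]; exact g) f
        exact loss_of (α := 619 / 1000) (β := 81 / 10000) (b0 := 13 / 20) (b1 := 3) tp hS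
          (by linarith only [hu]) (by norm_num) hb k4 (by linarith only [q]) (by linarith only [hP,
                                                                                   hb, pd2, pd1, hu,
                                                                                   mul_nonneg (sq_nonneg (tan (th R I))) (sub_nonneg.2 k4)]) (by norm_num) (by norm_num)
      · have q := hPM (M := 7856 / 10000) r0 (by norm_num) (by linarith only [hR6, pd2, pd1] : (5235 / 10000 : ℝ) ≤ R)
          g (by norm_num)
        exact loss_of (α := 7856 / 10000) (β := 81 / 10000) (b0 := 3 / 2) (b1 := 3) tp hS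
          (by linarith only [hu]) (by norm_num) g k4 (by linarith only [q]) (by linarith only [g,
                                                                                  hP, pd2, pd1, hu,
                                                                                  mul_nonneg (sq_nonneg (tan (th R I))) (sub_nonneg.2 k4)]) (by norm_num) (by norm_num)
    · have v1 : 713 / 1000 ≤ tan R ^ 2 := v_ge (by norm_num) f h.R1 (by norm_num)
      rcases le_total b 1 with g | g
      · have hs := h.sl₁.sin_ge (b := 1) (s := 42 / 100) h.R0 h.R1 h.I0 (by norm_num) (by norm_num)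
          (hpb g) (by norm_num) h1 (by
            generalize tan (th R I) ^ 2 = u at *
            generalize tan R ^ 2 = v at *
            generalize sinh I ^ 2 = t at *
            have t1 : t ≤ 5838 / 10000 * u := by (refine le_of_not_gt fun hng => ?_; linarith only [e2,
                                                   u0,
                                                   mul_nonneg (sub_nonneg.2 u0) (sub_nonneg.2 v1),
                                                   mul_nonneg (sub_nonneg.2 hng.le) (sub_nonneg.2 v1),
                                                   mul_pos (sub_pos.2 hng) (sub_pos.2 pd2),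
                                                   mul_pos (sub_pos.2 hng) (sub_pos.2 pd1)])
            (refine le_of_not_gt fun hng => ?_; linarith only [t1, v1, c5,
              mul_nonneg (sub_nonneg.2 hu) (sub_nonneg.2 t0),
              mul_pos (sub_pos.2 pd2) (sub_pos.2 pd2), mul_pos (sub_pos.2 pd1) (sub_pos.2 pd2),
              mul_pos (sub_pos.2 pd1) (sub_pos.2 pd1), mul_pos (sub_pos.2 hng) (sub_pos.2 pd2),
              mul_pos (sub_pos.2 hng) (sub_pos.2 pd1)]))
        have q := hPM (M := 683 / 1000) hs (by norm_num) f hb (by norm_num)
        exact loss_of (α := 683 / 1000) (β := 81 / 10000) (b0 := 13 / 20) (b1 := 3) tp hS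
          (by linarith only [hu]) (by norm_num) hb k4 (by linarith only [q]) (by linarith only [hP,
                                                                                   hb, pd2, pd1, hu,
                                                                                   mul_nonneg (sq_nonneg (tan (th R I))) (sub_nonneg.2 k4)]) (by norm_num) (by norm_num)
      · have q := hPM (M := 851 / 1000) r0 (by norm_num) f g (by norm_num)
        exact loss_of (α := 851 / 1000) (β := 81 / 10000) (b0 := 1) (b1 := 3) tp hS
          (by linarith only [hu]) (by norm_num) g k4 (by linarith only [q]) (by linarith only [g,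
                                                                                  hP, pd2, pd1, hu,
                                                                                  mul_nonneg (sq_nonneg (tan (th R I))) (sub_nonneg.2 k4)]) (by norm_num) (by norm_num)

/-- The loss, `P ≤ 0`. -/
theorem Vx.loss3_negT (h : Vx 3 R I ρ₁ β₁ p₁ r₁ ρ₂ β₂ p₂ r₂) (h1' : ρ₁ ≤ 1)
    (h2 : 1 / 2 ≤ ρ₂) (h2' : ρ₂ ≤ 1) (hu : tan (th R I) ^ 2 ≤ 37 / 100)
    (hb : 13 / 20 ≤ p₁ / I) (hP : π / 2 - r₁ - p₁ / I * R ≤ 0) :
    L3s (tan (th R I) ^ 2) (lossJ (tan (th R I)) (p₁ / I) (π / 2 - r₁ - p₁ / I * R) T13) := by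
  rcases lt_or_ge (1 / 5) (tan (th R I) ^ 2) with c5 | c5
  · exact L3s.of_L3 (h.loss3_neg h1' h2 h2' hu hb hP) c5 hu
  obtain ⟨k1, k2, k3, k4, k5⟩ := h.bP
  obtain ⟨e1, e2, -, -, -⟩ := basic h.R0 h.R1 h.I0
  have hpi := pi_pos
  have pd1 := pi_gt_d4
  have pd2 := pi_lt_d4
  have hR6 := h.R_pi6 h1' h2'
  have v0 : 0 ≤ tan R ^ 2 := sq_nonneg _
  have t0 : 0 ≤ sinh I ^ 2 := sq_nonneg _
  have u0 : 0 ≤ tan (th R I) ^ 2 := sq_nonneg _
  have tp : 0 < tan (th R I) :=
    tan_pos_of_pos_of_lt_pi_div_two (th_pos h.R0 h.R1 h.I0) (th_lt h.R0 h.R1 h.I0)
  have I0 := h.I0
  have r0 := h.sl₂.r0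
  have R0 := h.R0
  -- `-P ≤ M + R₀ b`
  have hPM : ∀ {s R₀ M : ℝ}, s ≤ r₂ → R₀ ≤ R → 15708 / 10000 - s - 3 * R₀ ≤ M →
      -(π / 2 - r₁ - p₁ / I * R) ≤ M + R₀ * (p₁ / I) := by
    intro s R₀ M c1 c2 c4
    have : (3 - p₁ / I) * R₀ ≤ (3 - p₁ / I) * R := mul_le_mul_of_nonneg_left c2 (by linarith only [k4])
    linarith only [this, c4, c1, pd2, k5]
  have hpb : ∀ {b b' : ℝ}, b' ≤ p₁ / I → 3 - b' ≤ b → p₂ ≤ b * I := by
    intro b b' hb hb'
    rw [← k2]
    exact mul_le_mul_of_nonneg_right (by linarith only [hb', hb]) I0.le
  generalize hbb : p₁ / I = b at *
  generalize hPP : π / 2 - r₁ - b * R = P at *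
  have hC : p₂ ≤ 1 * I → cosh p₂ ^ 2 ≤ 1 + sinh I ^ 2 := by
    intro g
    have e : 1 + sinh I ^ 2 = cosh I ^ 2 := by rw [cosh_sq]; ring
    rw [e]
    apply pow_le_pow_left₀ (cosh_pos _).le
    rw [cosh_le_cosh, abs_of_nonneg h.sl₂.p0, abs_of_pos I0]
    linarith only [g]
  rcases le_total (tan (th R I) ^ 2) (1 / 10) with c | c
  · -- `u ≤ 1/10`
    left
    refine ⟨c, ?_⟩
    have hS : sJ (tan (th R I)) T13 ≤ 2354 / 10000 :=
      sJ_T13_le c (by norm_num) (by norm_num)
    have q := hPM (M := 3 / 10000) r0 (by linarith only [hR6, pd2, pd1] : (5235 / 10000 : ℝ) ≤ R) (by norm_num)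
    exact loss_of (α := 3 / 10000) (β := 5317 / 10000) (b0 := 13 / 20) (b1 := 3) tp hS
      (by linarith only [hu]) (by norm_num) hb k4 (by linarith only [hP, hb, pd2, pd1]) (by (refine le_of_not_gt fun hng => ?_; linarith only [q,
                                                                                              c, hb,
                                                                                              pd1,
                                                                                              mul_nonneg (sub_nonneg.2 hb) (sub_nonneg.2 c),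
                                                                                              mul_pos (sub_pos.2 pd2) (sub_pos.2 pd2),
                                                                                              mul_pos (sub_pos.2 pd1) (sub_pos.2 pd2),
                                                                                              mul_pos (sub_pos.2 hng) (sub_pos.2 pd2),
                                                                                              mul_pos (sub_pos.2 hng) (sub_pos.2 pd1)])) (by norm_num) (by norm_num)
  · -- `1/10 ≤ u ≤ 1/5`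
    right
    refine ⟨hu, ?_⟩
    have hS : sJ (tan (th R I)) T13 ≤ 3264 / 10000 :=
      sJ_T13_le c5 (by norm_num) (by norm_num)
    rcases le_total b 2 with g | g
    · have q := hPM (M := 3 / 10000) r0 (by linarith only [hR6, pd2, pd1] : (5235 / 10000 : ℝ) ≤ R) (by norm_num)
      exact loss_of (α := 3 / 10000) (β := 5400 / 10000) (b0 := 13 / 20) (b1 := 2) tp hS
        (by linarith only [hu]) (by norm_num) hb g (by linarith only [hP, hb, pd2, pd1]) (by (refine le_of_not_gt fun hng => ?_; linarith only [q,
                                                                                               pd2,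
                                                                                               pd1,
                                                                                               c5,
                                                                                               mul_nonneg (sub_nonneg.2 c5) (sub_nonneg.2 hb),
                                                                                               mul_nonneg (sub_nonneg.2 hu) (sub_nonneg.2 hb),
                                                                                               mul_pos (sub_pos.2 hng) (sub_pos.2 pd2),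
                                                                                               mul_pos (sub_pos.2 hng) (sub_pos.2 pd1)])) (by norm_num) (by norm_num)
    · have hs := h.sl₂.sin_ge' (s := 1 / 10) (ρ₀ := 1 / 2) h.R0 h.R1 h.I0
        (hC (hpb g (by norm_num))) (by norm_num) h2 (by
          have v1 : 1 / 4 ≤ tan R ^ 2 := v_ge (x := 1 / 2) (by norm_num) (by linarith only [hR6,
                                                                               pd2, pd1]) h.R1 (by norm_num)
          generalize tan (th R I) ^ 2 = u at *
          generalize tan R ^ 2 = v at *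
          generalize sinh I ^ 2 = t at *
          have t1 : t ≤ 1 / 5 := by (refine le_of_not_gt fun hng => ?_; linarith only [mul_nonneg (sub_nonneg.2 hng.le) (sub_nonneg.2 e1.le),
                                      mul_nonneg (sub_nonneg.2 hng.le) (sub_nonneg.2 e1.ge),
                                      mul_pos (sub_pos.2 hng) (sub_pos.2 pd2),
                                      mul_pos (sub_pos.2 hng) (sub_pos.2 pd1),
                                      mul_nonneg (sq_nonneg (cos R)) (sub_nonneg.2 e2.le),
                                      mul_nonneg (sq_nonneg (cos R)) (sub_nonneg.2 e2.ge),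
                                      mul_nonneg (sq_nonneg (cos R)) (sub_nonneg.2 v0),
                                      mul_nonneg (sq_nonneg (cos R)) (sub_nonneg.2 c5)])
          have t3 : (1 + u) ^ 2 ≤ (12 / 10) ^ 2 := pow_le_pow_left₀ (by linarith only [u0, pd2, pd1]) (by linarith only [c5]) 2
          have t4 : (1 + t) * (1 + u) ^ 2 ≤ 12 / 10 * (12 / 10) ^ 2 :=
            mul_le_mul (by linarith only [t1]) t3 (sq_nonneg _) (by norm_num)
          have t5 : 1 / 10 * (1 + 1 / 10 + 1 / 4) ≤ u * (1 + u + v) :=
            mul_le_mul c (by linarith only [v1, c]) (by norm_num) u0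
          linarith only [t5, t4, pd2, pd1])
      have q := hPM (M := -(997 / 10000)) hs (by linarith only [hR6, pd2, pd1] : (5235 / 10000 : ℝ) ≤ R) (by norm_num)
      exact loss_of (α := -(997 / 10000)) (β := 5400 / 10000) (b0 := 2) (b1 := 3) tp hS
        (by linarith only [hu]) (by norm_num) g k4 (by linarith only [hP, hb, pd2, pd1]) (by (refine le_of_not_gt fun hng => ?_; linarith only [q,
                                                                                               pd2,
                                                                                               pd1,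
                                                                                               c5,
                                                                                               mul_nonneg (sub_nonneg.2 c5) (sub_nonneg.2 hb),
                                                                                               mul_nonneg (sub_nonneg.2 hu) (sub_nonneg.2 g),
                                                                                               mul_pos (sub_pos.2 hng) (sub_pos.2 pd2),
                                                                                               mul_pos (sub_pos.2 hng) (sub_pos.2 pd1)])) (by norm_num) (by norm_num)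

/-- **The loss at an inner vertex with three twists** next to an inner vertex with two. -/
theorem Vx.loss3T (h : Vx 3 R I ρ₁ β₁ p₁ r₁ ρ₂ β₂ p₂ r₂) (h1 : 13 / 20 ≤ ρ₁) (h1' : ρ₁ ≤ 1)
    (hb : β₁ ≤ 3 / 5) (h2 : 1 / 2 ≤ ρ₂) (h2' : ρ₂ ≤ 1) (hu : tan (th R I) ^ 2 ≤ 37 / 100)
    (hv : tan R ^ 2 ≤ 2) :
    L3s (tan (th R I) ^ 2) (lossJ (tan (th R I)) (p₁ / I) (π / 2 - r₁ - p₁ / I * R) T13) := by
  have k := h.b_low3 h1 hb h2' hu hv
  have k1 : 13 / 20 ≤ p₁ / I := by rw [le_div_iff₀ h.I0]; exact k
  rcases le_total 0 (π / 2 - r₁ - p₁ / I * R) with c | c
  · exact h.loss3_posT h1 h1' h2' hu hv k1 c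
  · exact h.loss3_negT h1' h2 h2' hu k1 c

end

end Pool.Agent.S3.E
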