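import Pool.Agent.S3.E.PbJ
import Pool.Agent.S3.E.PbN

/-!
# Stage 3, block E: the stronger bounds of the loss at a vertex with four twists or more
-/

set_option autoImplicit false

namespace Pool.Agent.S3.E

open Real

section

variable {a R I ρ₁ β₁ p₁ r₁ ρ₂ β₂ p₂ r₂ : ℝ}

theorem loss_le_41 {τ b P : ℝ} (hτ : 0 < τ) (h1 : τ ^ 2 ≤ 37 / 100) (hb : 0 < b)
    (hbτ : b * τ ≤ 7 / 4) (hp1 : -(2 / 5) ≤ P / b) (hp2 : P / b ≤ 2 / 5) :
    lossJ τ b P T13 ≤ 41 / 1000 := by
  have s1 : b * sJ τ T13 ≤ 133 / 100 := by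
    have h2 : sJ τ T13 ≤ τ * (76 / 100) := by
      unfold sJ
      rw [div_le_iff₀ (Real.cosh_pos _)]
      have := Real.one_le_cosh (hJ τ T13)
      have := sin_T13_le
      have := sin_T13_pos
      have : τ * Real.sin T13 ≤ τ * (76 / 100) := mul_le_mul_of_nonneg_left (by linarith) hτ.le
      nlinarith [mul_pos hτ (by norm_num : (0 : ℝ) < 76 / 100)]
    have := mul_le_mul_of_nonneg_left h2 hb.le
    linarith
  have k := loss_le (d := 437 / 1000) hτ (by linarith) hp1 hp2 s1 (by norm_num) (by linarith)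
    (by linarith only [sq_nonneg τ])
  norm_num at k
  linarith

/-- The loss for large weights. -/
theorem Vx.loss_largeT (h : Vx a R I ρ₁ β₁ p₁ r₁ ρ₂ β₂ p₂ r₂) (h1 : ρ₁ ≤ 1)
    (hu : tan (th R I) ^ 2 ≤ 1505 / 10000) (hv : tan R ^ 2 ≤ 1) (hb : 4 ≤ p₁ / I) :
    L3s (tan (th R I) ^ 2) (lossJ (tan (th R I)) (p₁ / I) (π / 2 - r₁ - p₁ / I * R) T13) := by
  have tp : 0 < tan (th R I) :=
    tan_pos_of_pos_of_lt_pi_div_two (th_pos h.R0 h.R1 h.I0) (th_lt h.R0 h.R1 h.I0)
  obtain ⟨c1, c2⟩ := h.P_abs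
  have pd2 := pi_lt_d4
  have b0 : 0 < p₁ / I := by linarith
  refine Or.inr ⟨by linarith, loss_le_41 tp (by linarith) b0 (h.btau h1 hu hv) ?_ ?_⟩
  · rw [le_div_iff₀ b0]; linarith
  · rw [div_le_iff₀ b0]; linarith

/-- **The loss at a vertex with four twists or more** next to an inner vertex with two. -/
theorem Vx.loss4T (h : Vx a R I ρ₁ β₁ p₁ r₁ ρ₂ β₂ p₂ r₂) (ha : 4 ≤ a) (h1 : 13 / 20 ≤ ρ₁)
    (h1' : ρ₁ ≤ 1) (h2 : ρ₂ ≤ 1) (hb : 9 / 10 ≤ p₁ / I)
    (hu : tan (th R I) ^ 2 ≤ 1505 / 10000) (hv : tan R ^ 2 ≤ 1) :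
    L3s (tan (th R I) ^ 2) (lossJ (tan (th R I)) (p₁ / I) (π / 2 - r₁ - p₁ / I * R) T13) := by
  rcases le_total 4 (p₁ / I) with b4 | b4
  · exact h.loss_largeT h1' hu hv b4
  obtain ⟨k1, k2, k3, k4, k5⟩ := h.bP
  obtain ⟨c1, c2⟩ := h.P_abs
  obtain ⟨e1, e2, -, -, -⟩ := basic h.R0 h.R1 h.I0
  have hpi := pi_pos
  have pd1 := pi_gt_d4
  have pd2 := pi_lt_d4
  have v0 : 0 ≤ tan R ^ 2 := sq_nonneg _
  have t0 : 0 ≤ sinh I ^ 2 := sq_nonneg _
  have u0 : 0 ≤ tan (th R I) ^ 2 := sq_nonneg _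
  have tp : 0 < tan (th R I) :=
    tan_pos_of_pos_of_lt_pi_div_two (th_pos h.R0 h.R1 h.I0) (th_lt h.R0 h.R1 h.I0)
  have I0 := h.I0
  have r0 := h.sl₁.r0
  have r0' := h.sl₂.r0
  have R0 := h.R0
  -- `P ≤ M - R₀ b₀`
  have hPM : ∀ {s R₀ b₀ M : ℝ}, s ≤ r₁ → 0 ≤ R₀ → R₀ ≤ R → b₀ ≤ p₁ / I →
      15708 / 10000 - s - b₀ * R₀ ≤ M → π / 2 - r₁ - p₁ / I * R ≤ M := by
    intro s R₀ b₀ M c1 c0 c2 c3 c4
    have : b₀ * R₀ ≤ p₁ / I * R := by
      have : b₀ * R₀ ≤ p₁ / I * R₀ := mul_le_mul_of_nonneg_right c3 c0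
      have : p₁ / I * R₀ ≤ p₁ / I * R := mul_le_mul_of_nonneg_left c2 k3
      linarith
    linarith
  -- `-P ≤ M + R₀ b`
  have hPN : ∀ {s R₀ M : ℝ}, s ≤ r₂ → 0 ≤ R₀ → R₀ ≤ R → 15708 / 10000 - s - 4 * R₀ ≤ M →
      -(π / 2 - r₁ - p₁ / I * R) ≤ M + R₀ * (p₁ / I) := by
    intro s R₀ M c1 c0 c2 c4
    have : (4 - p₁ / I) * R₀ ≤ (a - p₁ / I) * R := mul_le_mul (by linarith) c2 c0 (by linarith)
    linarith
  have hpb : ∀ {b : ℝ}, p₁ / I ≤ b → p₁ ≤ b * I := by
    intro b hb
    rw [← k1]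
    exact mul_le_mul_of_nonneg_right hb I0.le
  generalize hbb : p₁ / I = b at *
  generalize hPP : π / 2 - r₁ - b * R = P at *
  have hC1 : p₁ ≤ 1 * I → cosh p₁ ^ 2 ≤ 1 + sinh I ^ 2 := by
    intro g
    have e : 1 + sinh I ^ 2 = cosh I ^ 2 := by rw [cosh_sq]; ring
    rw [e]
    apply pow_le_pow_left₀ (cosh_pos _).le
    rw [cosh_le_cosh, abs_of_nonneg h.sl₁.p0, abs_of_pos I0]
    linarith
  have hC2 : b ≤ 6 / 5 → cosh p₁ ^ 2 ≤ (1 + 2 * sinh I ^ 2) ^ 2 := by
    intro g
    apply pow_le_pow_left₀ (cosh_pos _).le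
    have e : 1 + 2 * sinh I ^ 2 = cosh (2 * I) := by
      rw [cosh_two_mul, cosh_sq]; ring
    rw [e, cosh_le_cosh, abs_of_nonneg h.sl₁.p0, abs_of_pos (by linarith)]
    have := hpb g
    linarith
  rcases le_total (tan (th R I) ^ 2) (3 / 100) with c | c
  · left
    refine ⟨by linarith, ?_⟩
    have hS : sJ (tan (th R I)) T13 ≤ 1309 / 10000 :=
      sJ_T13_le c (by norm_num) (by norm_num)
    exact loss_of (α := 15708 / 10000) (β := 81 / 10000) (b0 := 9 / 10) (b1 := 4) tp hS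
      (by linarith) (by norm_num) hb b4 (by linarith) (by nlinarith only [pd2, k3, c2, c]) (by norm_num) (by norm_num)
  have hR := h.R_32 ha h1' h2 c
  rcases le_total (tan (th R I) ^ 2) (1 / 10) with c' | c'
  · left
    refine ⟨c', ?_⟩
    have hS : sJ (tan (th R I)) T13 ≤ 2354 / 10000 :=
      sJ_T13_le c' (by norm_num) (by norm_num)
    rcases le_total 0 P with d | d
    · rcases le_total b (6 / 5) with g | g
      · have v1 : 1094 / 10000 ≤ tan R ^ 2 := v_ge (by norm_num) hR h.R1 (by norm_num)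
        have hs := h.sl₁.sin_ge' (s := 1 / 10) (ρ₀ := 13 / 20) h.R0 h.R1 h.I0 (hC2 g)
          (by norm_num) h1 (by
            generalize tan (th R I) ^ 2 = u at *
            generalize tan R ^ 2 = v at *
            generalize sinh I ^ 2 = t at *
            have t1 : t ≤ 902 / 1000 * u := by nlinarith only [v1, t0, e2]
            have t2 : (1 + 2 * t) ^ 2 ≤ 1 + 4 * (11 / 10) * t := by nlinarith only [c', v1, t0, e2]
            have t3 : (1 + u) ^ 2 ≤ 1 + 21 / 10 * u := by nlinarith only [c, c']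
            have t4 : (1 + 2 * t) ^ 2 * (1 + u) ^ 2 ≤
                (1 + 4 * (11 / 10) * t) * (1 + 21 / 10 * u) :=
              mul_le_mul t2 t3 (sq_nonneg _) (by positivity)
            linarith only [mul_nonneg u0 (by linarith : 0 ≤ v - 1094 / 10000), mul_nonneg t0 u0, mul_nonneg u0 (by linarith : 0 ≤ 902 / 1000 * u - t), c, t1, t4])
        have q := hPM (M := 11828 / 10000) hs (by norm_num) hR hb (by norm_num)
        exact loss_of (α := 11828 / 10000) (β := 81 / 10000) (b0 := 9 / 10) (b1 := 4) tp hS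
          (by linarith) (by norm_num) hb b4 (by linarith) (by nlinarith only [k3, c', d]) (by norm_num) (by norm_num)
      · have q := hPM (M := 11868 / 10000) r0 (by norm_num) hR g (by norm_num)
        exact loss_of (α := 11868 / 10000) (β := 81 / 10000) (b0 := 6 / 5) (b1 := 4) tp hS
          (by linarith) (by norm_num) g b4 (by linarith) (by nlinarith only [c', d, g]) (by norm_num) (by norm_num)
    · have q := hPN (M := 2908 / 10000) r0' (by norm_num) hR (by norm_num)
      exact loss_of (α := 2908 / 10000) (β := 3281 / 10000) (b0 := 9 / 10) (b1 := 4) tp hS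
        (by linarith) (by norm_num) hb b4 (by linarith) (by nlinarith only [k3, c', q]) (by norm_num) (by norm_num)
  · right
    refine ⟨by linarith, ?_⟩
    have hS : sJ (tan (th R I)) T13 ≤ 2859 / 10000 :=
      sJ_T13_le hu (by norm_num) (by norm_num)
    rcases le_total 0 P with d | d
    · have hR' := h.R_53 ha h1' h2 c'
      have v1 : 335 / 1000 ≤ tan R ^ 2 := v_ge (by norm_num) hR' h.R1 (by norm_num)
      rcases le_total b 1 with g1 | g1
      · have hs := h.sl₁.sin_ge' (s := 21 / 100) (ρ₀ := 13 / 20) h.R0 h.R1 h.I0 (hC1 (hpb g1))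
          (by norm_num) h1 (by
            generalize tan (th R I) ^ 2 = u at *
            generalize tan R ^ 2 = v at *
            generalize sinh I ^ 2 = t at *
            have t1 : t ≤ 75 / 100 * u := by nlinarith only [v1, t0, e2]
            have t3 : (1 + u) ^ 2 ≤ 1 + 21505 / 10000 * u := by nlinarith only [hu, u0]
            have t4 : (1 + t) * (1 + u) ^ 2 ≤ (1 + 75 / 100 * u) * (1 + 21505 / 10000 * u) :=
              mul_le_mul (by linarith) t3 (sq_nonneg _) (by positivity)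
            linarith only [mul_nonneg u0 (by linarith : 0 ≤ v - 335 / 1000), mul_nonneg u0 (by linarith : 0 ≤ u - 1 / 10), c', t4])
        have q := hPM (M := 8838 / 10000) hs (by norm_num) hR' hb (by norm_num)
        exact loss_of (α := 8838 / 10000) (β := 81 / 10000) (b0 := 9 / 10) (b1 := 4) tp hS
          (by linarith) (by norm_num) hb b4 (by linarith) (by nlinarith only [hu, hb, b4, d]) (by norm_num) (by norm_num)
      rcases le_total b (6 / 5) with g | g
      · have hs := h.sl₁.sin_ge' (s := 165 / 1000) (ρ₀ := 13 / 20) h.R0 h.R1 h.I0 (hC2 g)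
          (by norm_num) h1 (by
            generalize tan (th R I) ^ 2 = u at *
            generalize tan R ^ 2 = v at *
            generalize sinh I ^ 2 = t at *
            have t1 : t ≤ 113 / 1000 := by nlinarith only [hu, v1, e2]
            have t2 : (1 + 2 * t) ^ 2 ≤ (1226 / 1000) ^ 2 :=
              pow_le_pow_left₀ (by linarith) (by linarith) 2
            have t3 : (1 + u) ^ 2 ≤ (1 + u) * (11505 / 10000) := by nlinarith only [hu, u0]
            have t4 : (1 + 2 * t) ^ 2 * (1 + u) ^ 2 ≤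
                (1226 / 1000) ^ 2 * ((1 + u) * (11505 / 10000)) :=
              mul_le_mul t2 t3 (sq_nonneg _) (by norm_num)
            linarith only [mul_nonneg u0 (by linarith : 0 ≤ v - 335 / 1000), mul_nonneg u0 (by linarith : 0 ≤ u - 1 / 10), c', t4])
        have q := hPM (M := 8758 / 10000) hs (by norm_num) hR' g1 (by norm_num)
        exact loss_of (α := 8758 / 10000) (β := 81 / 10000) (b0 := 1) (b1 := 4) tp hS
          (by linarith) (by norm_num) g1 b4 (by linarith) (by nlinarith only [hu, d, g1, g]) (by norm_num) (by norm_num)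
      · have q := hPM (M := 9348 / 10000) r0 (by norm_num) hR' g (by norm_num)
        exact loss_of (α := 9348 / 10000) (β := 81 / 10000) (b0 := 6 / 5) (b1 := 4) tp hS
          (by linarith) (by norm_num) g b4 (by linarith) (by nlinarith only [hu, hb, b4, d]) (by norm_num) (by norm_num)
    · have q := hPN (M := 2908 / 10000) r0' (by norm_num) hR (by norm_num)
      exact loss_of (α := 2908 / 10000) (β := 3305 / 10000) (b0 := 9 / 10) (b1 := 4) tp hS
        (by linarith) (by norm_num) hb b4 (by linarith) (by nlinarith only [hu, k3, q]) (by norm_num) (by norm_num)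

end

end Pool.Agent.S3.E
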