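import Pool.Agent.S3.E.PbK
import Pool.Agent.S3.E.PbN

/-!
# Stage 3, block E: an end with three twists next to an inner vertex with two: `tan² θ ≤ 33/200`
-/

set_option autoImplicit false

namespace Pool.Agent.S3.E

open Real

section

variable {R I ρ β p r β₂ p₂ r₂ : ℝ}

private theorem N_leT {y t : ℝ} (h0 : 1 / 4 ≤ y) (hy : y ≤ 4535 / 10000)
    (ht : 33 / 200 * y ≤ t) :
    (1 - y) * (4 * y - 1) * (1 + 4 * t) - (3 - 4 * y) * (3 * t + 4 * t ^ 2) ≤
      -1 + 2855 / 1000 * y + 9533 / 10000 * y ^ 2 - 22044 / 10000 * y ^ 3 := by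
  have a : 0 ≤ (t - 33 / 200 * y) * ((3 - 4 * y) * (3 + 4 * (t + 33 / 200 * y)) -
      4 * (1 - y) * (4 * y - 1)) := by
    apply mul_nonneg (by linarith)
    have : 0 ≤ (3 - 4 * y) * (t + 33 / 200 * y) := mul_nonneg (by linarith) (by linarith)
    nlinarith only [hy, ht]
  linarith only [a]

private theorem N0_leT {y y1 M : ℝ} (h0 : 1 / 4 ≤ y) (hy : y ≤ y1) (hy1 : y1 ≤ 4535 / 10000)
    (hM : -1 + 2855 / 1000 * y1 + 9533 / 10000 * y1 ^ 2 - 22044 / 10000 * y1 ^ 3 ≤ M) :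
    -1 + 2855 / 1000 * y + 9533 / 10000 * y ^ 2 - 22044 / 10000 * y ^ 3 ≤ M := by
  have e : (-1 + 2855 / 1000 * y1 + 9533 / 10000 * y1 ^ 2 - 22044 / 10000 * y1 ^ 3) -
      (-1 + 2855 / 1000 * y + 9533 / 10000 * y ^ 2 - 22044 / 10000 * y ^ 3) =
      (y1 - y) * (2855 / 1000 + 9533 / 10000 * (y1 + y) -
        22044 / 10000 * (y1 ^ 2 + y1 * y + y ^ 2)) := by ring
  have : 0 ≤ (y1 - y) * (2855 / 1000 + 9533 / 10000 * (y1 + y) -
        22044 / 10000 * (y1 ^ 2 + y1 * y + y ^ 2)) := by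
    apply mul_nonneg (by linarith)
    nlinarith only [h0, hy, hy1]
  linarith

/-- The contradiction for the phase. -/
private theorem end3_coreT {y t N D c s σ γ : ℝ} (hy0 : 1 / 4 ≤ y) (hy : y ≤ 4535 / 10000)
    (ht : 33 / 200 * y < t) (hK : y + t ≤ 5283 / 10000)
    (hN : N = (1 - y) * (4 * y - 1) * (1 + 4 * t) - (3 - 4 * y) * (3 * t + 4 * t ^ 2))
    (hD : D = (3 + 4 * t) * (y * (3 - 4 * y)) + (1 + t) * (1 + 4 * t) * (4 * y - 1))
    (c0 : 0 < c) (s0 : 0 < s) (σ0 : 0 < σ) (γ0 : 0 < γ) (hc : c ^ 2 = y) (hs : s ^ 2 = 1 - y)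
    (hσ : σ ^ 2 = t) (hγ : γ ^ 2 = 1 + t) : γ * c * N < 358 / 1000 * (σ * s * D) := by
  have t0 : 0 < t := by linarith only [hy0, ht]
  have n1 := N_leT hy0 hy ht.le
  rw [← hN] at n1
  -- the final step
  have fin : ∀ {M D₀ : ℝ}, N ≤ M → 0 ≤ M → 0 < D₀ → D₀ ≤ D →
      (1 + t) * y * M ^ 2 < (358 / 1000) ^ 2 * (t * (1 - y) * D₀ ^ 2) →
      γ * c * N < 358 / 1000 * (σ * s * D) := by
    intro M D₀ a1 a2 a3 a4 a5
    have b1 : γ * c * N ≤ γ * c * M := mul_le_mul_of_nonneg_left a1 (by positivity)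
    have b2 : 358 / 1000 * (σ * s * D₀) ≤ 358 / 1000 * (σ * s * D) := by
      have := mul_le_mul_of_nonneg_left a4 (by positivity : 0 ≤ σ * s)
      linarith
    have b3 : γ * c * M < 358 / 1000 * (σ * s * D₀) := by
      apply lt_of_pow_lt_pow_left₀ 2 (by positivity)
      have e1 : (γ * c * M) ^ 2 = (1 + t) * y * M ^ 2 := by rw [← hγ, ← hc]; ring
      have e2 : (358 / 1000 * (σ * s * D₀)) ^ 2 =
          (358 / 1000) ^ 2 * (t * (1 - y) * D₀ ^ 2) := by rw [← hs, ← hσ]; ring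
      rw [e1, e2]
      exact a5
    linarith
  have D1 : 0 ≤ (1 + t) * (1 + 4 * t) * (4 * y - 1) :=
    mul_nonneg (by positivity) (by linarith)
  rcases le_total y (7 / 20) with h1 | h1
  · have a1 : 1 / 2 ≤ y * (3 - 4 * y) := by nlinarith only [hy0, hy]
    have a2 : 3 * (1 / 2) ≤ (3 + 4 * t) * (y * (3 - 4 * y)) :=
      mul_le_mul (by linarith) a1 (by norm_num) (by linarith)
    have d1 : 15 / 10 ≤ D := by rw [hD]; linarith
    refine fin (M := 22 / 1000) (D₀ := 15 / 10)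
      (n1.trans (N0_leT hy0 h1 (by norm_num) (by norm_num))) (by norm_num) (by norm_num) d1 ?_
    have b1 : (1 + t) * y ≤ 13 / 10 * y := mul_le_mul_of_nonneg_right (by linarith) (by linarith)
    have b2 : t * (65 / 100) ≤ t * (1 - y) := mul_le_mul_of_nonneg_left (by linarith) t0.le
    linarith only [ht, b1, b2]
  rcases le_total y (43 / 100) with h2 | h2
  · have t1 : 5775 / 100000 ≤ t := by linarith
    have a1 : 5504 / 10000 ≤ y * (3 - 4 * y) := by nlinarith only [h1, h2]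
    have a2 : (3 + 4 * (5775 / 100000)) * (5504 / 10000) ≤ (3 + 4 * t) * (y * (3 - 4 * y)) :=
      mul_le_mul (by linarith) a1 (by norm_num) (by linarith)
    have a3 : (1 + 5775 / 100000) * (1 + 4 * (5775 / 100000)) ≤ (1 + t) * (1 + 4 * t) :=
      mul_le_mul (by linarith) (by linarith) (by norm_num) (by linarith)
    have a4 : (1 + 5775 / 100000) * (1 + 4 * (5775 / 100000)) * (2 / 5) ≤
        (1 + t) * (1 + 4 * t) * (4 * y - 1) :=
      mul_le_mul a3 (by linarith) (by norm_num) (by positivity)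
    have d1 : 229 / 100 ≤ D := by rw [hD]; linarith
    refine fin (M := 2287 / 10000) (D₀ := 229 / 100)
      (n1.trans (N0_leT hy0 h2 (by norm_num) (by norm_num))) (by norm_num) (by norm_num) d1 ?_
    have b1 : (1 + t) * y ≤ 1179 / 1000 * y :=
      mul_le_mul_of_nonneg_right (by linarith) (by linarith)
    have b2 : t * (57 / 100) ≤ t * (1 - y) := mul_le_mul_of_nonneg_left (by linarith) t0.le
    linarith only [hy0, ht, b2]
  · have t1 : 7095 / 100000 ≤ t := by linarith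
    have a1 : 5378 / 10000 ≤ y * (3 - 4 * y) := by nlinarith only [ht, hK, h2]
    have a5 : 27942 / 10000 ≤ (3 + 4 * t) * (y * (3 - 4 * y)) +
        (1 + t) * (1 + 4 * t) * (4 * y - 1) := by
      have g1 : (3 + 4 * (7095 / 100000)) * (y * (3 - 4 * y)) ≤
          (3 + 4 * t) * (y * (3 - 4 * y)) :=
        mul_le_mul_of_nonneg_right (by linarith) (by linarith)
      have g2 : (1 + 7095 / 100000) * (1 + 4 * (7095 / 100000)) ≤ (1 + t) * (1 + 4 * t) :=
        mul_le_mul (by linarith) (by linarith) (by norm_num) (by linarith)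
      have g3 : (1 + 7095 / 100000) * (1 + 4 * (7095 / 100000)) * (4 * y - 1) ≤
          (1 + t) * (1 + 4 * t) * (4 * y - 1) :=
        mul_le_mul_of_nonneg_right g2 (by linarith)
      linarith only [mul_nonneg (by linarith : 0 ≤ y - 43 / 100) (by linarith : 0 ≤ 4535 / 10000 - y), h2, g1, g3]
    have d1 : 27942 / 10000 ≤ D := by rw [hD]; linarith
    refine fin (M := 2853 / 10000) (D₀ := 27942 / 10000)
      (n1.trans (N0_leT hy0 hy le_rfl (by norm_num))) (by norm_num) (by norm_num) d1 ?_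
    have b1 : (1 + t) * y ≤ 1099 / 1000 * y :=
      mul_le_mul_of_nonneg_right (by linarith) (by linarith)
    have b2 : t * (5465 / 10000) ≤ t * (1 - y) := mul_le_mul_of_nonneg_left (by linarith) t0.le
    linarith only [hy0, ht, b2]

/-- The modulus at an end with three twists and a large angle. -/
theorem Vx.end3_KT (h : Vx 3 R I ρ β p r 0 β₂ p₂ r₂) (hρ : ρ ≤ 1)
    (hc : 33 / 200 < tan (th R I) ^ 2) : cos R ^ 2 + sinh I ^ 2 ≤ 5283 / 10000 := by
  obtain ⟨e1, e2, -, -, -⟩ := basic h.R0 h.R1 h.I0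
  have c0 : 0 < cos R := cos_pos_of_mem_Ioo ⟨by linarith [h.R0, pi_pos], h.R1⟩
  have σ0 : 0 < sinh I := sinh_pos_iff.2 h.I0
  have ht : 33 / 200 * cos R ^ 2 < sinh I ^ 2 := by
    have : sinh I ^ 2 = tan (th R I) ^ 2 * cos R ^ 2 := by
      rw [← e2]; linear_combination (-sinh I ^ 2) * e1
    rw [this]
    exact mul_lt_mul_of_pos_right hc (by positivity)
  have hm := h.end3_mod
  have e4 : k2 R I = cos R ^ 2 + sinh I ^ 2 := by rw [GeoX_k2, cosh_sq]; ring
  have hρ2 : ρ ^ 2 ≤ 1 := by nlinarith only [h.sl₁.ρ0, hρ]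
  have y2 : 0 < cos R ^ 2 := by positivity
  rw [e4] at hm
  obtain ⟨K, hK⟩ : ∃ K, K = cos R ^ 2 + sinh I ^ 2 := ⟨_, rfl⟩
  obtain ⟨t, htt⟩ : ∃ t, t = sinh I ^ 2 := ⟨_, rfl⟩
  rw [← hK, ← htt] at hm
  rw [← hK]
  have K0 : 0 < K := by rw [hK]; positivity
  have t0 : 0 ≤ t := by rw [htt]; positivity
  have q1 : 1416 / 10000 * K ≤ t := by rw [hK, htt]; linarith only [ht, htt, t0]
  have q2 : t ≤ K := by rw [hK, htt]; linarith
  by_contra hcc
  push Not at hcc
  -- a lower bound of the polynomial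
  have q3 : 14055 / 1000 * K ^ 2 - 5735 / 1000 * K + 1 ≤
      16 * K ^ 2 - 8 * K - 16 * K * t + 16 * t + 16 * t ^ 2 + 1 := by
    have e : 16 * K ^ 2 - 8 * K - 16 * K * t + 16 * t + 16 * t ^ 2 + 1 -
        (16 * K ^ 2 - 8 * K - 16 * K * (1416 / 10000 * K) + 16 * (1416 / 10000 * K) +
          16 * (1416 / 10000 * K) ^ 2 + 1) =
        16 * (t - 1416 / 10000 * K) * (1 + t - (1 - 1416 / 10000) * K) := by ring
    rcases le_total ((1 - 1416 / 10000) * K) (1 + t) with g | g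
    · have : 0 ≤ 16 * (t - 1416 / 10000 * K) * (1 + t - (1 - 1416 / 10000) * K) :=
        mul_nonneg (by linarith) (by linarith)
      nlinarith only [hcc, this]
    · -- large `K`
      have : 1 ≤ K := by linarith
      nlinarith only [hρ2, hm, htt, this]
  have q4 : K * (14055 / 1000 * K ^ 2 - 5735 / 1000 * K + 1) ≤ 1 := by
    have := mul_le_mul_of_nonneg_left q3 K0.le
    linarith
  nlinarith only [hcc, q4]

/-- **The angle at an end with three twists**, `358/1000 ≤ tan β`. -/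
theorem Vx.end3_uT (h : Vx 3 R I ρ β p r 0 β₂ p₂ r₂) (hρ : ρ ≤ 1)
    (hs1 : 358 / 1000 * cos β ≤ sin β) : tan (th R I) ^ 2 ≤ 33 / 200 := by
  by_contra hc
  push Not at hc
  obtain ⟨z1, z2⟩ := h.sl₂.zero
  have hp : p = 3 * I := by have := h.hI; linarith
  have hr : r = π - 3 * R := by have := h.hR; linarith
  obtain ⟨e1, e2, -, -, -⟩ := basic h.R0 h.R1 h.I0
  obtain ⟨y0, y1⟩ := basicY h.R0 h.R1 h.I0
  have hpi := pi_pos
  have c0 : 0 < cos R := cos_pos_of_mem_Ioo ⟨by linarith [h.R0], h.R1⟩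
  have s0 : 0 < sin R := sin_pos_of_pos_of_lt_pi h.R0 (by linarith [h.R1])
  have σ0 : 0 < sinh I := sinh_pos_iff.2 h.I0
  have γ0 := cosh_pos I
  have sc : sin R ^ 2 = 1 - cos R ^ 2 := by rw [sin_sq]
  have gg' : cosh I ^ 2 = 1 + sinh I ^ 2 := by rw [cosh_sq]; ring
  have ht : 33 / 200 * cos R ^ 2 < sinh I ^ 2 := by
    have : sinh I ^ 2 = tan (th R I) ^ 2 * cos R ^ 2 := by
      rw [← e2]; linear_combination (-sinh I ^ 2) * e1
    rw [this]
    exact mul_lt_mul_of_pos_right hc (by positivity)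
  have y2 : 0 < cos R ^ 2 := by positivity
  have hK := h.end3_KT hρ hc
  -- the slot
  have k1 := h.sl₁.re' h.R0 h.R1 h.I0
  have k2' := h.sl₁.im' h.R0 h.R1 h.I0
  have r0 := h.sl₁.r0
  have r1 := h.sl₁.r1
  have sr : 0 ≤ sin r := sin_nonneg_of_nonneg_of_le_pi r0 (by linarith)
  have sr' : sin r = sin R * (4 * cos R ^ 2 - 1) := by
    rw [hr, sin_pi_sub, sin_three_mul]
    linear_combination (-4 * sin R) * sc
  have cr' : cos r = cos R * (3 - 4 * cos R ^ 2) := by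
    rw [hr, cos_pi_sub, cos_three_mul]
    ring
  have sp' : sinh p = sinh I * (3 + 4 * sinh I ^ 2) := by
    rw [hp, sinh_three_mul]; ring
  have cp' : cosh p = cosh I * (1 + 4 * sinh I ^ 2) := by
    rw [hp, cosh_three_mul]
    linear_combination (4 * cosh I) * gg'
  have y14 : 1 / 4 ≤ cos R ^ 2 := by
    rw [sr'] at sr
    have := nonneg_of_mul_nonneg_right sr s0
    linarith
  have y43 : cos R ^ 2 ≤ 4535 / 10000 := by linarith
  have T0 : 0 < tan R := tan_pos_of_pos_of_lt_pi_div_two h.R0 h.R1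
  have u0 : 0 ≤ tan (th R I) ^ 2 := sq_nonneg _
  have hT : tan R * cos R = sin R := tan_mul_cos c0.ne'
  obtain ⟨Y, hY⟩ : ∃ Y, Y = sinh I * cosh I * (1 + tan R ^ 2) := ⟨_, rfl⟩
  have hYc : Y * cos R ^ 2 = sinh I * cosh I := by
    rw [hY]; linear_combination (sinh I * cosh I) * e1
  rw [← hY] at k1 k2' y0
  have core := end3_coreT y14 y43 ht hK rfl rfl c0 s0 σ0 γ0 rfl sc rfl gg'
  -- the two combinations
  have m1 : (cosh p * sin r * tan R - sinh p * cos r * Y) * (1 + tan (th R I) ^ 2) =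
      ρ * sin β * (tan R ^ 2 + Y ^ 2) := by
    linear_combination (tan R) * k2' - Y * k1
  have m2 : (sinh p * cos r * tan R + cosh p * sin r * Y) * (1 + tan (th R I) ^ 2) =
      ρ * cos β * (tan R ^ 2 + Y ^ 2) := by
    linear_combination (tan R) * k1 + Y * k2'
  have m3 : 358 / 1000 * ((sinh p * cos r * tan R + cosh p * sin r * Y) *
      (1 + tan (th R I) ^ 2)) ≤
      (cosh p * sin r * tan R - sinh p * cos r * Y) * (1 + tan (th R I) ^ 2) := by
    rw [m1, m2]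
    have := mul_le_mul_of_nonneg_right hs1 (mul_nonneg h.sl₁.ρ0
      (by positivity : 0 ≤ tan R ^ 2 + Y ^ 2))
    linarith
  have m4 : 358 / 1000 * (sinh p * cos r * tan R + cosh p * sin r * Y) ≤
      cosh p * sin r * tan R - sinh p * cos r * Y := by
    have : 0 < 1 + tan (th R I) ^ 2 := by positivity
    apply le_of_mul_le_mul_right _ this
    linarith
  have m5 := mul_le_mul_of_nonneg_right m4 y2.le
  have e6 : (sinh p * cos r * tan R + cosh p * sin r * Y) * cos R ^ 2 =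
      sinh I * sin R * ((3 + 4 * sinh I ^ 2) * (cos R ^ 2 * (3 - 4 * cos R ^ 2)) +
        (1 + sinh I ^ 2) * (1 + 4 * sinh I ^ 2) * (4 * cos R ^ 2 - 1)) := by
    rw [sr', cr', sp', cp', ← gg']
    linear_combination (sinh I * (3 + 4 * sinh I ^ 2) * cos R ^ 2 * (3 - 4 * cos R ^ 2)) * hT +
      (cosh I * (1 + 4 * sinh I ^ 2) * (sin R * (4 * cos R ^ 2 - 1))) * hYc
  have e7 : (cosh p * sin r * tan R - sinh p * cos r * Y) * cos R ^ 2 =
      cosh I * cos R * ((1 - cos R ^ 2) * (4 * cos R ^ 2 - 1) * (1 + 4 * sinh I ^ 2) -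
        (3 - 4 * cos R ^ 2) * (3 * sinh I ^ 2 + 4 * (sinh I ^ 2) ^ 2)) := by
    rw [sr', cr', sp', cp', ← sc]
    linear_combination (cosh I * (1 + 4 * sinh I ^ 2) * (sin R * (4 * cos R ^ 2 - 1)) * cos R) * hT -
      (sinh I * (3 + 4 * sinh I ^ 2) * (cos R * (3 - 4 * cos R ^ 2))) * hYc
  have e8 : 358 / 1000 * (sinh p * cos r * tan R + cosh p * sin r * Y) * cos R ^ 2 =
      358 / 1000 * ((sinh p * cos r * tan R + cosh p * sin r * Y) * cos R ^ 2) := by ring
  rw [e8, e6, e7] at m5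
  linarith

/-- The loss at an end with three twists. -/
theorem L3s_end3 {τ b P : ℝ} (hτ : 0 < τ) (h1 : τ ^ 2 ≤ 33 / 200)
    (hb : b = 3) (hP : P = -(π / 2)) : L3s (τ ^ 2) (lossJ τ b P T13) := by
  refine Or.inr ⟨by linarith, ?_⟩
  have p1 := pi_lt_d4
  have p2 := pi_gt_d4
  have hS : sJ τ T13 ≤ 2985 / 10000 := sJ_T13_le h1 (by norm_num) (by norm_num)
  subst hb
  exact loss_of (α := 15708 / 10000) (β := 12183 / 1000000) (b0 := 3) (b1 := 3) hτ hS
    (by linarith) (by norm_num) le_rfl le_rfl (by linarith) (by linarith only [h1, hP, p1]) (by norm_num)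
    (by norm_num)

end

end Pool.Agent.S3.E
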