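import Pool.Agent.S3.Cl.E1E
import Pool.Agent.S3.E.J6H
import Pool.Agent.S3.E.PbM
import Pool.Agent.S3.E.PbO
import Pool.Agent.S3.E.PbP

/-!
# Stage 3, block E: the stronger bounds of the loss next to an inner vertex with two twists

`Zr.n23T`: `L3s (tan² θ_i) (Le θ_i θ_j x_i x_j b_i)` (this is `TT.L3T`) for `3 ≤ a i` next to an
inner vertex `j` with two twists.
-/

set_option autoImplicit false

namespace Pool.Agent.S3.E

variable {ι : Type*} [Finite ι] {a : ι → ℝ} {nl nr : ι → Option ι} {z : ι → ℂ}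

open Complex

namespace Zr

/-- The phase of an inner vertex with two twists next to a vertex with three or more. -/
theorem tan_ph_358 (h : Zr a nl nr 1 z) (h3 : ∀ i, 3 ≤ a i → a i = 3 ∨ 4 ≤ a i) {i j : ι}
    (hj : a j = 2) (hin : In2 nl nr j) (hji : nl j = some i ∨ nr j = some i) (hi : 3 ≤ a i) :
    358 / 1000 * Real.cos (ph (z j).re (z j).im) ≤ Real.sin (ph (z j).re (z j).im) := by
  obtain ⟨k, hik⟩ : ∃ k, (nl j = some i ∧ nr j = some k) ∨ (nl j = some k ∧ nr j = some i) := by
    obtain ⟨l, r, e1, e2⟩ := hin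
    rcases hji with e | e
    · exact ⟨r, Or.inl ⟨e, e2⟩⟩
    · exact ⟨l, Or.inr ⟨e1, e⟩⟩
  have hjk : nl j = some k ∨ nr j = some k := by
    rcases hik with ⟨_, e⟩ | ⟨e, _⟩
    · exact Or.inr e
    · exact Or.inl e
  have φ0 := h.phpos j
  have φ1 := ph_lt (z j).re (z j).im
  have c0 : 0 < Real.cos (ph (z j).re (z j).im) :=
    Real.cos_pos_of_mem_Ioo ⟨by linarith [Real.pi_pos], φ1⟩
  have ho : 37 / 100 ≤ Real.tan (z j).re * Real.tanh (z j).im →
      358 / 1000 * Real.cos (ph (z j).re (z j).im) ≤ Real.sin (ph (z j).re (z j).im) := by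
    intro g
    rw [← tan_ph, Real.tan_eq_sin_div_cos, le_div_iff₀ c0] at g
    linarith
  rcases h.nb_types hjk with e | ⟨e, e'⟩ | e
  · have := ((h.f_ge3 h3 hj hik hi).2 e).1
    exact ho (by linarith)
  · exact ho ((h.f_ge3 h3 hj hik hi).1 ⟨e, e'⟩).1
  · have hne : i ≠ k := by
      rintro rfl
      have := e.1
      linarith
    obtain ⟨-, -, -, -, -, -, g, -⟩ := Cl.two23_end2 h h3 e hj hin hji hne hi
    have g1 : ((starRingEnd ℂ) (cos (z j))).im =
        ‖cos (z j)‖ * Real.sin (ph (z j).re (z j).im) := by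
      have := h.bo_im (some j)
      rw [be_one, ro_one, h.bo_one] at this
      exact this
    rw [g1] at g
    have n0 := h.norm_pos j
    have g2 : 338 / 1000 ≤ Real.sin (ph (z j).re (z j).im) := by
      apply le_of_mul_le_mul_left _ n0
      linarith
    have g3 := Real.sin_sq_add_cos_sq (ph (z j).re (z j).im)
    have g4 : Real.cos (ph (z j).re (z j).im) ≤ 942 / 1000 := by
      by_contra hc
      push Not at hc
      have a1 := pow_le_pow_left₀ (by norm_num) g2 2
      have a2 := pow_le_pow_left₀ (by norm_num) hc.le 2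
      norm_num at a1 a2
      linarith
    linarith

/-- **`tan² θ ≤ 33/200`** at an end with three twists next to an inner vertex with two twists. -/
theorem end3_uT (h : Zr a nl nr 1 z) (h3 : ∀ i, 3 ≤ a i → a i = 3 ∨ 4 ≤ a i) {i j : ι}
    (hi : a i = 3) (hij : nl i = some j ∨ nr i = some j) (he : nl i = none ∨ nr i = none)
    (hj : a j = 2) (hin : In2 nl nr j) :
    Real.tan (th (z i).re (z i).im) ^ 2 ≤ 33 / 200 := by
  obtain ⟨o, p₂, r₂, ho, ho', hv⟩ := h.vx_first' hij
  rw [hi, ho'.2 he] at hv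
  have hv' : Vx 3 (z i).re (z i).im (ro 1 z (some j)) (be 1 z (some j)) (qe (z i) (z j)).re
    (qe (z i) (z j)).im 0 (be 1 z none) p₂ r₂ := hv
  exact hv'.end3_uT (h.ro_le_one _) (by
    rw [be_one]
    exact h.tan_ph_358 h3 hj hin (h.N.symm i j hij) (by linarith))

/-- **(n2), (n3), stronger form**: the loss at a vertex with three twists or more (inner or end)
next to an inner vertex with two twists. -/
theorem n23T (h : Zr a nl nr 1 z) (h3 : ∀ i, 3 ≤ a i → a i = 3 ∨ 4 ≤ a i) {i j : ι}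
    (hi : 3 ≤ a i) (hij : nl i = some j ∨ nr i = some j) (hj : a j = 2) (hin : In2 nl nr j) :
    L3s (Real.tan (th (z i).re (z i).im) ^ 2)
      (Le (th (z i).re (z i).im) (th (z j).re (z j).im) (xx (z i).re (z i).im)
        (xx (z j).re (z j).im) (bw (z i) (z j))) := by
  obtain ⟨h1, h2, h4⟩ := h.pos i
  have hpi := Real.pi_pos
  have t0 := h.th_pos_i i
  obtain ⟨o, p₂, r₂, ho, ho', hv⟩ := h.vx_first' hij
  have eP : Pe (th (z i).re (z i).im) (th (z j).re (z j).im) (xx (z i).re (z i).im)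
      (xx (z j).re (z j).im) (bw (z i) (z j)) =
      Real.pi / 2 - (qe (z i) (z j)).im - (qe (z i) (z j)).re / (z i).im * (z i).re := by
    unfold Pe
    rw [Cl.pi_gdv_re h i]
    rfl
  unfold Le
  rw [eP, show bw (z i) (z j) = (qe (z i) (z j)).re / (z i).im from rfl]
  have ρ1 : 13 / 20 ≤ ro 1 z (some j) := by rw [ro_one]; exact h.norm2_ge h3 hj hin
  have ρ1' := h.ro_le_one (some j)
  have β1 : be 1 z (some j) ≤ 3 / 5 := by rw [be_one]; exact h.two_ph_le hj hin
  rcases h3 i hi with e | e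
  · -- three twists
    rw [e] at hv
    cases o with
    | none =>
      have he := ho'.1 rfl
      have hv' : Vx 3 (z i).re (z i).im (ro 1 z (some j)) (be 1 z (some j)) (qe (z i) (z j)).re
        (qe (z i) (z j)).im 0 (be 1 z none) p₂ r₂ := hv
      obtain ⟨z1, z2⟩ := hv'.sl₂.zero
      have e1 := hv'.hI
      have e2 := hv'.hR
      have e3 : (qe (z i) (z j)).re / (z i).im = 3 := by
        rw [div_eq_iff h4.ne']
        linarith
      apply L3s_end3 (Real.tan_pos_of_pos_of_lt_pi_div_two t0 (th_lt h1 h2 h4))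
        (h.end3_uT h3 e hij he hj hin) e3
      rw [e3]
      linarith
    | some k =>
      have hu : Real.tan (th (z i).re (z i).im) ^ 2 ≤ 37 / 100 :=
        v_le t0.le (h.th3_le hi) (by norm_num) (by norm_num) (by norm_num)
      have hR := h.open_re_le h3 hj hin (h.N.symm i j hij) (Or.inl hi)
      have pd := Real.pi_lt_d4
      have hR' : Real.tan (z i).re ^ 2 ≤ 2 :=
        v_le (x := 9425 / 10000) h1.le (by linarith) (by norm_num) (by norm_num) (by norm_num)
      exact hv.loss3T ρ1 ρ1' β1 (h.ro_ge k) (h.ro_le_one _) hu hR'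
  · -- four twists or more
    have hu : Real.tan (th (z i).re (z i).im) ^ 2 ≤ 1505 / 10000 := tan_sq_37 t0.le (h.th4_le e)
    have hR' : Real.tan (z i).re ^ 2 ≤ 1 := by
      have g1 := h.aR_lt_i i
      have g2 : (z i).re < Real.pi / 4 := by nlinarith
      have g3 := Real.tan_lt_tan_of_nonneg_of_lt_pi_div_two h1.le (by linarith) g2
      rw [Real.tan_pi_div_four] at g3
      have g4 := Real.tan_pos_of_pos_of_lt_pi_div_two h1 h2
      nlinarith
    have hb : 9 / 10 ≤ (qe (z i) (z j)).re / (z i).im := by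
      rw [le_div_iff₀ h4]
      exact hv.b_low4 e ρ1 β1 (h.ro_le_one _) hu hR'
    exact hv.loss4T e ρ1 ρ1' (h.ro_le_one _) hb hu hR'

end Zr

end Pool.Agent.S3.E
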