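import Pool.Agent.S3.E.OdA
import Pool.Agent.S3.E.PbQ
import Pool.Agent.S3.Cl.J8U

/-!
# Stage 3, block E: the extra facts about a vertex with three twists or more next to an inner
vertex with two twists
-/

set_option autoImplicit false

namespace Pool.Agent.S3.E

section real

open Real

private theorem sinh_618 : sinh (618 / 1000) ≤ 66 / 100 := by
  have h1 : exp (618 / 1000 : ℝ) ≤ 18553 / 10000 := by
    refine (Real.exp_bound' (x := 618 / 1000) (by norm_num) (by norm_num) (n := 8)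
      (by norm_num)).trans ?_
    simp only [Finset.sum_range_succ, Finset.sum_range_zero, Nat.factorial]
    norm_num
  have h2 : exp (618 / 1000 : ℝ) * exp (-(618 / 1000 : ℝ)) = 1 := by
    rw [← Real.exp_add]
    simp
  have h4 : 10000 / 18553 ≤ exp (-(618 / 1000 : ℝ)) := by
    rw [div_le_iff₀ (by norm_num)]
    nlinarith [Real.exp_pos (-(618 / 1000 : ℝ))]
  rw [Real.sinh_eq]
  linarith

private theorem sinh_21 : sinh (21 / 100) ≤ 2117 / 10000 := by
  have h1 : exp (21 / 100 : ℝ) ≤ 12337 / 10000 := by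
    refine (Real.exp_bound' (x := 21 / 100) (by norm_num) (by norm_num) (n := 6)
      (by norm_num)).trans ?_
    simp only [Finset.sum_range_succ, Finset.sum_range_zero, Nat.factorial]
    norm_num
  have h2 : exp (21 / 100 : ℝ) * exp (-(21 / 100 : ℝ)) = 1 := by
    rw [← Real.exp_add]
    simp
  have h4 : 10000 / 12337 ≤ exp (-(21 / 100 : ℝ)) := by
    rw [div_le_iff₀ (by norm_num)]
    nlinarith [Real.exp_pos (-(21 / 100 : ℝ))]
  rw [Real.sinh_eq]
  linarith

variable {R I ρ β p r ρ₁ β₁ p₁ r₁ ρ₂ β₂ p₂ r₂ : ℝ}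

/-- `|cos z|² ≥ 42/100` at an inner vertex with three twists. -/
theorem Vx.k42i (h : Vx 3 R I ρ₁ β₁ p₁ r₁ ρ₂ β₂ p₂ r₂) (h1 : 27 / 50 ≤ ρ₁ ^ 2)
    (h2 : 1 / 2 ≤ ρ₂) (hR : R ≤ 3 / 10 * π) : 42 / 100 ≤ k2 R I := by
  by_contra hc
  push Not at hc
  have hpi := Real.pi_lt_d4
  have hpi3 := Real.pi_gt_three
  have hR0 := h.R0
  have hR1 := h.R1
  have hI := h.I0
  have hk := k2_pos (I := I) hR0 hR1
  have e4 : k2 R I = cos R ^ 2 + sinh I ^ 2 := by rw [GeoX_k2, cosh_sq]; ring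
  have e5 : s2 R I = sinh I ^ 2 + (1 - cos R ^ 2) := by rw [GeoX_s2, cosh_sq]; ring
  have hcR := cos_sq_ge_3454 hR0 hR
  have hcp : 0 < cos R := cos_pos_of_mem_Ioo ⟨by linarith, hR1⟩
  have hI2 : I ^ 2 ≤ sinh I ^ 2 :=
    pow_le_pow_left₀ hI.le (Real.self_le_sinh_iff.2 hI.le) 2
  have hI3 : I ≤ 2732 / 10000 := by
    by_contra hcc
    push Not at hcc
    have := pow_le_pow_left₀ (by norm_num) hcc.le 2
    norm_num at this
    linarith
  have hRa : 865 / 1000 ≤ R := by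
    by_contra h2
    push Not at h2
    have h3 := Cl.n_c4 (x := 865 / 1000) (by norm_num)
    have h5 : 6483 / 10000 ≤ cos (865 / 1000) := by
      have := Cl.n_c6 (x := 865 / 1000) (by norm_num)
      norm_num at this
      linarith
    have h4 := Real.cos_lt_cos_of_nonneg_of_le_pi hR0.le (by linarith) h2
    have h6 := pow_le_pow_left₀ (by norm_num) (h5.trans h4.le) 2
    norm_num at h6
    have := sq_nonneg (sinh I)
    linarith
  have hsum := h.hR
  have hIs := h.hI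
  have key : ∀ {ρ β p r x q S : ℝ}, Slot R I ρ β p r → q ≤ ρ ^ 2 → r ≤ 5466 / 10000 →
      sinh x ≤ S → 0 ≤ q → S ^ 2 < q * (138 / 100) - 2988 / 10000 → x ≤ p := by
    intro ρ β p r x q S hs hρ hr hS q0 hx
    have k := hs.norm hR0 hR1
    have h3 := Real.sin_le hs.r0
    have h4 : 0 ≤ sin r := sin_nonneg_of_nonneg_of_le_pi hs.r0 (by linarith)
    have h5 : sin r ^ 2 ≤ (5466 / 10000) ^ 2 := pow_le_pow_left₀ h4 (h3.trans hr) 2
    by_contra hcc
    push Not at hcc
    have h6 : sinh p ≤ S := (Real.sinh_le_sinh.2 hcc.le).trans hS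
    have h7 : sinh p ^ 2 ≤ S ^ 2 :=
      pow_le_pow_left₀ (sinh_nonneg_iff.2 hs.p0) h6 2
    have h8 : 0 ≤ sinh I ^ 2 := sq_nonneg _
    have h9 : 1 - k2 R I ≤ s2 R I := by rw [e4, e5]; linarith
    have g1 : q * s2 R I ≤ ρ ^ 2 * s2 R I := mul_le_mul_of_nonneg_right hρ (by linarith)
    have g2 : q * (1 - k2 R I) ≤ q * s2 R I := mul_le_mul_of_nonneg_left h9 q0
    have g3 : (sinh p ^ 2 + sin r ^ 2) * k2 R I ≤ (q * (138 / 100)) * k2 R I := by
      apply mul_le_mul_of_nonneg_right _ hk.le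
      norm_num at h5
      linarith
    have g5 : (sinh p ^ 2 + sin r ^ 2) * k2 R I < (q * (138 / 100)) * k2 R I := by
      apply mul_lt_mul_of_pos_right _ hk
      norm_num at h5
      linarith
    have g4 : q * (138 / 100) * k2 R I ≤ q * (1 - k2 R I) := by
      have : 138 / 100 * k2 R I ≤ 1 - k2 R I := by linarith
      have := mul_le_mul_of_nonneg_left this q0
      linarith
    linarith
  have r10 := h.sl₁.r0
  have r20 := h.sl₂.r0
  have a1 := key (q := 27 / 50) h.sl₁ h1 (by linarith) sinh_618 (by norm_num) (by norm_num)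
  have a2 := key (q := 1 / 4) h.sl₂ (by nlinarith) (by linarith) sinh_21 (by norm_num)
    (by norm_num)
  linarith

/-- `|cos z|² ≥ 42/100` at an end with three twists. -/
theorem Vx.k42e (h : Vx 3 R I ρ β p r 0 β₂ p₂ r₂) (hu : tan (th R I) ^ 2 ≤ 33 / 200)
    (hρ : 27 / 50 ≤ ρ ^ 2) : 42 / 100 ≤ k2 R I := by
  by_contra hc
  push Not at hc
  obtain ⟨e1, e2, -, -, -⟩ := basic h.R0 h.R1 h.I0
  have hm := h.end3_mod
  have e4 : k2 R I = cos R ^ 2 + sinh I ^ 2 := by rw [GeoX_k2, cosh_sq]; ring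
  have hk := k2_pos (I := I) h.R0 h.R1
  have ht : sinh I ^ 2 ≤ 33 / 200 * cos R ^ 2 := by
    have : sinh I ^ 2 = tan (th R I) ^ 2 * cos R ^ 2 := by
      rw [← e2]; linear_combination (-sinh I ^ 2) * e1
    rw [this]
    exact mul_le_mul_of_nonneg_right hu (sq_nonneg _)
  obtain ⟨K, hK⟩ : ∃ K, K = k2 R I := ⟨_, rfl⟩
  obtain ⟨t, htt⟩ : ∃ t, t = sinh I ^ 2 := ⟨_, rfl⟩
  rw [← hK, ← htt] at hm
  rw [← hK] at hc hk e4
  have t0 : 0 ≤ t := by rw [htt]; positivity
  have q1 : t ≤ 1417 / 10000 * K := by rw [e4]; linarith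
  have q3 : 16 * K ^ 2 - 8 * K - 16 * K * t + 16 * t + 16 * t ^ 2 + 1 ≤
      14055 / 1000 * K ^ 2 - 5732 / 1000 * K + 1 := by
    nlinarith [mul_nonneg (by linarith : 0 ≤ 1417 / 10000 * K - t) (by linarith : 0 ≤ 1 - K),
      mul_nonneg (by linarith : 0 ≤ 1417 / 10000 * K - t)
        (by positivity : 0 ≤ 1417 / 10000 * K + t)]
  have q4 := mul_le_mul_of_nonneg_left q3 hk.le
  rw [hm] at q4
  nlinarith [mul_nonneg hk.le (by linarith : 0 ≤ 42 / 100 - K),
    mul_nonneg (mul_nonneg hk.le hk.le) (by linarith : 0 ≤ 42 / 100 - K)]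

end real

section

variable {ι : Type*} [Finite ι] {a : ι → ℝ} {nl nr : ι → Option ι} {z : ι → ℂ}

open Complex

namespace Zr

/-- `|cos z_j|² ≥ 42/100` for `3 ≤ a j` next to an inner vertex with two twists. -/
theorem k42 (h : Zr a nl nr 1 z) (h3 : ∀ i, 3 ≤ a i → a i = 3 ∨ 4 ≤ a i) {i j : ι}
    (hi : a i = 2) (hin : In2 nl nr i) (hij : nl i = some j ∨ nr i = some j) (hj : 3 ≤ a j)
    (hK : 27 / 50 ≤ k2 (z i).re (z i).im) : 42 / 100 ≤ k2 (z j).re (z j).im := by
  have hji := h.N.symm i j hij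
  rcases h3 j hj with e | e
  · obtain ⟨o, p₂, r₂, ho, ho', hv⟩ := h.vx_first' hji
    rw [e] at hv
    have hρ : 27 / 50 ≤ ro 1 z (some i) ^ 2 := by
      rw [ro_one, norm_cos_sq]
      exact hK
    cases o with
    | none =>
      have hv' : Vx 3 (z j).re (z j).im (ro 1 z (some i)) (be 1 z (some i)) (qe (z j) (z i)).re
        (qe (z j) (z i)).im 0 (be 1 z none) p₂ r₂ := hv
      exact hv'.k42e (h.end3_uT h3 e hji (ho'.1 rfl) hi hin) hρ
    | some k =>
      exact hv.k42i hρ (h.ro_ge k) (h.open_re_le h3 hi hin hij (Or.inl hj))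
  · have h1 := h.norm4_ge e
    have h2 := pow_le_pow_left₀ (by norm_num) h1 2
    rw [norm_cos_sq] at h2
    norm_num at h2
    linarith

/-- The extra facts about a vertex with three twists or more. -/
theorem ex_ge3 (h : Zr a nl nr 1 z) (h3 : ∀ i, 3 ≤ a i → a i = 3 ∨ 4 ≤ a i) {i j : ι}
    (hi : a i = 2) (hin : In2 nl nr i) (hij : nl i = some j ∨ nr i = some j) (hj : 3 ≤ a j)
    (hK : 27 / 50 ≤ k2 (z i).re (z i).im) {e3 : Bool} (he : e3 = true → a j = 3) :
    J6.Ex false e3 (normSq ((starRingEnd ℂ) (cos (z j))))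
      (((starRingEnd ℂ) (cos (z j))).im / ((starRingEnd ℂ) (cos (z j))).re) := by
  obtain ⟨x0, y0, hx2, hy2, hKe, b0, b1, K1⟩ := h.alg j
  obtain ⟨q1, q2, q3⟩ := h.pos j
  have hnn : normSq ((starRingEnd ℂ) (cos (z j))) = k2 (z j).re (z j).im := by
    rw [normSq_conj, normSq_eq_norm_sq, norm_cos_sq]
  refine ⟨K1, by simp, fun _ => ?_, fun _ => ?_⟩
  · rw [hnn]; exact h.k42 h3 hi hin hij hj hK
  · rcases h3 j hj with e | e
    · right
      have hk := Cl.Zr.t3_ge_nb2 h h3 e (h.N.symm i j hij) hi hin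
      obtain ⟨K, hKd⟩ : ∃ K, K = normSq ((starRingEnd ℂ) (cos (z j))) := ⟨_, rfl⟩
      obtain ⟨κ, hκ⟩ : ∃ κ, κ = Real.tan (th (z j).re (z j).im) ^ 2 := ⟨_, rfl⟩
      obtain ⟨b, hb⟩ : ∃ b, b = Real.cos (z j).re ^ 2 := ⟨_, rfl⟩
      obtain ⟨x, hx⟩ : ∃ x, x = ((starRingEnd ℂ) (cos (z j))).re := ⟨_, rfl⟩
      obtain ⟨y, hy⟩ : ∃ y, y = ((starRingEnd ℂ) (cos (z j))).im := ⟨_, rfl⟩
      rw [← hKd, ← hκ, ← hb] at hKe
      rw [← hκ, ← hb, ← hx] at hx2
      rw [← hκ, ← hb, ← hy] at hy2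
      rw [← hb] at b0 b1
      rw [← hKd] at K1
      rw [← hx] at x0
      rw [← hy] at y0
      rw [← hκ] at hk
      rw [← hKd, ← hx, ← hy]
      have κ0 : 0 ≤ κ := by rw [hκ]; positivity
      have K0 : 0 < K := by rw [hKe]; exact mul_pos b0 (by linarith)
      have hxy : x ^ 2 + y ^ 2 = K := by rw [hx2, hy2, hKe]; ring
      have hx20 : 0 < x ^ 2 := pow_pos x0 2
      have hsR : J6.sR (y / x) * K = y ^ 2 := by
        have h1 : 1 + (y / x) ^ 2 = K / x ^ 2 := by
          rw [← hxy]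
          field_simp
        rw [J6.sR, h1, inv_div]
        field_simp
        linarith
      have hs2 : J6.sR (y / x) * (1 + κ) ^ 2 = κ * (1 + κ - K) := by
        apply mul_right_cancel₀ K0.ne'
        have : J6.sR (y / x) * (1 + κ) ^ 2 * K = (J6.sR (y / x) * K) * (1 + κ) ^ 2 := by ring
        rw [this, hsR, hy2, hKe]
        ring
      have := J6.tm_ge (M := 7 / 100) hs2 (by norm_num) hk K0.le K1
      norm_num at this ⊢
      linarith
    · left
      constructor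
      · rcases e3 with _ | _
        · rfl
        · have := he rfl
          linarith
      · have g1 := h.aR_lt_i j
        have hpi := Real.pi_pos
        have g2 : (z j).re ≤ Real.pi / 4 := by nlinarith
        have g3 : Real.cos (Real.pi / 4) ≤ Real.cos (z j).re :=
          Real.cos_le_cos_of_nonneg_of_le_pi q1.le (by linarith) g2
        rw [Real.cos_pi_div_four] at g3
        have g4 : (√2 / 2) ^ 2 ≤ Real.cos (z j).re ^ 2 := pow_le_pow_left₀ (by positivity) g3 2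
        have g5 : √2 ^ 2 = (2 : ℝ) := Real.sq_sqrt (by norm_num)
        rw [hKe]
        have g6 : 0 ≤ Real.tan (th (z j).re (z j).im) ^ 2 := sq_nonneg _
        nlinarith

/-- The extra fact about an inner vertex with two twists. -/
theorem ex_two (h : Zr a nl nr 1 z) (h3 : ∀ i, 3 ≤ a i → a i = 3 ∨ 4 ≤ a i) {i k : ι}
    (hi : a i = 2) (hin : In2 nl nr i) (hki : nl k = some i ∨ nr k = some i) (hk : a k = 2)
    (hkn : In2 nl nr k) :
    J6.Ex true false (normSq ((starRingEnd ℂ) (cos (z k))))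
      (((starRingEnd ℂ) (cos (z k))).im / ((starRingEnd ℂ) (cos (z k))).re) := by
  obtain ⟨-, -, -, -, -, -, -, K1⟩ := h.alg k
  obtain ⟨-, -, e⟩ := h.adj22 h3 hk hkn hi hin hki
  refine ⟨K1, fun _ => ?_, by simp, by simp⟩
  rw [normSq_conj, normSq_eq_norm_sq]
  have := pow_le_pow_left₀ (by norm_num) e 2
  norm_num at this
  linarith

end Zr

end

end Pool.Agent.S3.E
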