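import Pool.Agent.S3.E.J6O

/-!
# Stage 3, block E: sharper tests for (E3)
-/

set_option autoImplicit false

namespace Pool.Agent.S3.E.J6

open NI

/-! ### Tests -/

/-- lower bound of `I`, from `g = tanh I`. -/
def iLo (g g2 : N) : N := N.mul g (N.add (N.add one (N.dv g2 3)) (N.dv g2.sq 5))
/-- upper bound of `d`, from `E = tanh d`. -/
def dUp (E : N) : N := N.mul E (N.add one (N.dv (N.mul E.sq (N.sub one E.sq).inv) 3))
/-- upper bound of the weight. -/
def bV (sE : Bool) (E g g2 : N) : N :=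
  bif sE then pt (N.add one (N.mul (dUp E) (iLo g g2).inv)).hi else one
/-- upper bound of `η₁ / 5`. -/
def yV (t : N) : N :=
  N.dv (N.mul (N.mul (cst 3091 10000) (pt (sqU t))) (N.sub one (N.mul (cst 152 10000) t))) 5
def secV (tn cn cc : ℕ) (X g g2 t Q : N) : N :=
  N.mul (N.mul (N.mul (cst 6238 10000) (arB (N.mul (N.sub (cst tn 10000) X)
    (N.inv (N.add one (N.mul (cst tn 10000) X))))))
    (N.mul g (N.sub one (N.mul (cst cn 10000) Q))))
    (N.mul (cst 4 1) (N.add (cst 3 1)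
      (N.mul (N.add one (N.mul (cst cc 10000) t)) (N.sub one g2))).inv)
def e3v (tn cn cc tg : ℕ) (X g g2 t Bh y Q : N) : Bool :=
  (N.mul Bh y).le (N.add (cst tg 10000) (N.mul Bh (secV tn cn cc X g g2 t Q)))

/-! ### Real inequalities -/

theorem d_up {x : ℝ} (hx : 0 ≤ x) :
    x ≤ Real.tanh x * (1 + Real.tanh x ^ 2 * (1 - Real.tanh x ^ 2)⁻¹ / 3) := by
  have h := le_of_der (f := fun y : ℝ => Real.tanh y * (1 + Real.sinh y ^ 2 / 3) - y)
    (f' := fun y => 1 / Real.cosh y ^ 2 * (1 + Real.sinh y ^ 2 / 3) +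
      Real.tanh y * (2 * Real.sinh y * Real.cosh y / 3) - 1) (a := 0) (x := x) ?_ ?_ hx
  · simp only [Real.tanh_zero, Real.sinh_zero] at h
    have e : Real.tanh x ^ 2 * (1 - Real.tanh x ^ 2)⁻¹ = Real.sinh x ^ 2 := by
      rw [th_sq_inv, Real.tanh_eq_sinh_div_cosh]
      have h1 := Real.cosh_sq x
      have h2 := Real.cosh_pos x
      field_simp
      rw [h1]
      ring
    rw [e]
    norm_num at h
    linarith
  · intro y _
    have h1 := ((th_deriv y).mul ((((Real.hasDerivAt_sinh y).pow 2).div_const 3).const_add 1)).sub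
      (hasDerivAt_id' y)
    refine h1.congr_deriv ?_
    simp only [Pi.pow_apply]
    push_cast
    ring
  · intro y _
    have h1 := Real.cosh_sq y
    have h2 := Real.cosh_pos y
    have e : 1 / Real.cosh y ^ 2 * (1 + Real.sinh y ^ 2 / 3) +
      Real.tanh y * (2 * Real.sinh y * Real.cosh y / 3) - 1 =
      2 * Real.sinh y ^ 4 / (3 * Real.cosh y ^ 2) := by
      rw [Real.tanh_eq_sinh_div_cosh]
      field_simp
      rw [h1]
      ring
    show 0 ≤ 1 / Real.cosh y ^ 2 * (1 + Real.sinh y ^ 2 / 3) +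
      Real.tanh y * (2 * Real.sinh y * Real.cosh y / 3) - 1
    rw [e]
    positivity

theorem i_lo {x : ℝ} (hx : 0 ≤ x) :
    Real.tanh x * (1 + Real.tanh x ^ 2 / 3 + (Real.tanh x ^ 2) ^ 2 / 5) ≤ x := by
  have h := le_of_der (f := fun y : ℝ => y - (Real.tanh y + Real.tanh y ^ 3 / 3 +
      Real.tanh y ^ 5 / 5))
    (f' := fun y => 1 - (1 / Real.cosh y ^ 2 + Real.tanh y ^ 2 * (1 / Real.cosh y ^ 2) +
      Real.tanh y ^ 4 * (1 / Real.cosh y ^ 2))) (a := 0) (x := x) ?_ ?_ hx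
  · simp only [Real.tanh_zero] at h
    norm_num at h
    have e : Real.tanh x * (1 + Real.tanh x ^ 2 / 3 + (Real.tanh x ^ 2) ^ 2 / 5) =
      Real.tanh x + Real.tanh x ^ 3 / 3 + Real.tanh x ^ 5 / 5 := by ring
    rw [e]
    linarith
  · intro y _
    have h1 := (hasDerivAt_id' y).sub (((th_deriv y).add (((th_deriv y).pow 3).div_const 3)).add
      (((th_deriv y).pow 5).div_const 5))
    refine h1.congr_deriv ?_
    push_cast
    ring
  · intro y _
    have h1 : 1 / Real.cosh y ^ 2 = 1 - Real.tanh y ^ 2 := by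
      rw [Real.tanh_eq_sinh_div_cosh]
      have := Real.cosh_sq y
      have := Real.cosh_pos y
      field_simp
      linarith
    show 0 ≤ 1 - (1 / Real.cosh y ^ 2 + Real.tanh y ^ 2 * (1 / Real.cosh y ^ 2) +
      Real.tanh y ^ 4 * (1 / Real.cosh y ^ 2))
    rw [h1]
    have e : 1 - (1 - Real.tanh y ^ 2 + Real.tanh y ^ 2 * (1 - Real.tanh y ^ 2) +
      Real.tanh y ^ 4 * (1 - Real.tanh y ^ 2)) = (Real.tanh y ^ 3) ^ 2 := by ring
    rw [e]
    positivity

theorem ars_up {x : ℝ} (hx : 0 ≤ x) :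
    x ≤ Real.sinh x - Real.sinh x ^ 3 / 6 + 3 * Real.sinh x ^ 5 / 40 := by
  have h := le_of_der (f := fun y : ℝ => Real.sinh y - Real.sinh y ^ 3 / 6 +
      3 * Real.sinh y ^ 5 / 40 - y)
    (f' := fun y => Real.cosh y * (1 - Real.sinh y ^ 2 / 2 + 3 * Real.sinh y ^ 4 / 8) - 1)
    (a := 0) (x := x) ?_ ?_ hx
  · simp only [Real.sinh_zero] at h
    norm_num at h
    linarith
  · intro y _
    have h1 := (((Real.hasDerivAt_sinh y).sub (((Real.hasDerivAt_sinh y).pow 3).div_const 6)).add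
      ((((Real.hasDerivAt_sinh y).pow 5).const_mul 3).div_const 40)).sub (hasDerivAt_id' y)
    refine h1.congr_deriv ?_
    push_cast
    ring
  · intro y _
    show 0 ≤ Real.cosh y * (1 - Real.sinh y ^ 2 / 2 + 3 * Real.sinh y ^ 4 / 8) - 1
    have h1 := Real.cosh_sq y
    have h2 := Real.cosh_pos y
    obtain ⟨q, hq⟩ : ∃ q, q = Real.sinh y ^ 2 := ⟨_, rfl⟩
    have q0 : 0 ≤ q := by rw [hq]; positivity
    have e : 1 - Real.sinh y ^ 2 / 2 + 3 * Real.sinh y ^ 4 / 8 = 1 - q / 2 + 3 * q ^ 2 / 8 := by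
      rw [hq]; ring
    rw [e]
    have p0 : 0 < 1 - q / 2 + 3 * q ^ 2 / 8 := by nlinarith [sq_nonneg (q - 2 / 3)]
    have h3 : 1 ≤ (Real.cosh y * (1 - q / 2 + 3 * q ^ 2 / 8)) ^ 2 := by
      rw [mul_pow, h1, ← hq]
      have e2 : (q + 1) * (1 - q / 2 + 3 * q ^ 2 / 8) ^ 2 - 1 =
        q ^ 3 * (5 / 8 - 15 / 64 * q + 9 / 64 * q ^ 2) := by ring
      have e3 : 0 ≤ q ^ 3 * (5 / 8 - 15 / 64 * q + 9 / 64 * q ^ 2) := by
        apply mul_nonneg (by positivity)
        nlinarith [sq_nonneg (q - 5 / 6)]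
      linarith
    have h4 : 0 < Real.cosh y * (1 - q / 2 + 3 * q ^ 2 / 8) := by positivity
    nlinarith

theorem y_up {τ η : ℝ} (τ0 : 0 ≤ τ) (τ1 : τ ≤ 1)
    (hη : Real.sinh η = τ * Real.cos (2 / 5 * Real.pi)) :
    η ≤ 3091 / 10000 * τ * (1 - 152 / 10000 * τ ^ 2) := by
  obtain ⟨x, hx⟩ : ∃ x, Real.sinh x = 3091 / 10000 * τ := ⟨Real.arsinh (3091 / 10000 * τ),
    Real.sinh_arsinh _⟩
  have x0 : 0 ≤ x := by
    have : 0 ≤ Real.sinh x := by rw [hx]; positivity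
    exact Real.sinh_nonneg_iff.1 this
  have h1 : η ≤ x := by
    have : Real.sinh η ≤ Real.sinh x := by
      rw [hη, hx]
      have := mul_le_mul_of_nonneg_left cos_25 τ0
      linarith
    exact Real.sinh_le_sinh.1 this
  have h2 := ars_up x0
  rw [hx] at h2
  refine h1.trans (h2.trans ?_)
  have e : 3091 / 10000 * τ * (1 - 152 / 10000 * τ ^ 2) -
      (3091 / 10000 * τ - (3091 / 10000 * τ) ^ 3 / 6 + 3 * (3091 / 10000 * τ) ^ 5 / 40) =
      3091 / 10000 * τ * τ ^ 2 * (((3091 / 10000) ^ 2 / 6 - 152 / 10000) -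
        3 * (3091 / 10000) ^ 4 / 40 * τ ^ 2) := by ring
  have e2 : 0 ≤ 3091 / 10000 * τ * τ ^ 2 * (((3091 / 10000) ^ 2 / 6 - 152 / 10000) -
        3 * (3091 / 10000) ^ 4 / 40 * τ ^ 2) := by
    apply mul_nonneg (by positivity)
    have : τ ^ 2 ≤ 1 := by nlinarith
    norm_num
    nlinarith
  linarith

/-- The trapezoid. -/
theorem trap {x y : ℝ} (h : y ≤ x) :
    Real.sinh x - Real.sinh y ≤ (x - y) * ((Real.cosh x + Real.cosh y) / 2) := by
  have h1 := sinh_sub_le (x := (x - y) / 2) (y := 0) le_rfl (by linarith)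
  simp only [Real.sinh_zero, sub_zero] at h1
  have e1 : Real.sinh x = Real.sinh ((x + y) / 2 + (x - y) / 2) := by ring_nf
  have e2 : Real.sinh y = Real.sinh ((x + y) / 2 - (x - y) / 2) := by ring_nf
  have e3 : Real.cosh x = Real.cosh ((x + y) / 2 + (x - y) / 2) := by ring_nf
  have e4 : Real.cosh y = Real.cosh ((x + y) / 2 - (x - y) / 2) := by ring_nf
  rw [e1, e2, e3, e4, Real.sinh_add, Real.sinh_sub, Real.cosh_add, Real.cosh_sub]
  have h2 := mul_le_mul_of_nonneg_left h1 (Real.cosh_pos ((x + y) / 2)).le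
  linarith

/-- Lower bound of the second term of (E3). -/
theorem sec_le2 {R I τ ρ η ρ₀ u c q cc : ℝ} (R0 : 0 < R) (R1 : R < Real.pi / 2) (I0 : 0 < I)
    (τ0 : 0 ≤ τ) (hI : Real.sinh I = τ * Real.cos R) (hρ₀ : 0 < ρ₀) (hρ : ρ₀ ≤ ρ)
    (ρ1 : ρ ≤ Real.pi / 2) (hρ1 : ρ₀ < Real.pi / 2) (hη : Real.sinh η = τ * Real.cos ρ)
    (u0 : 0 ≤ u) (hu : u ≤ Real.tan ρ₀) (hc : Real.cos ρ₀ ≤ c) (hq : 1 / Real.cos R ≤ q)
    (hcc : Real.cos ρ₀ ^ 2 ≤ cc) :
    6238 / 10000 * (3 * (max (u - Real.tan R) 0 * (1 + u * Real.tan R)⁻¹) *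
      (3 + (max (u - Real.tan R) 0 * (1 + u * Real.tan R)⁻¹) ^ 2)⁻¹) *
      (Real.tanh I * max (1 - c * q) 0) *
      (4 * (3 + (1 + cc * τ ^ 2) * (1 - Real.tanh I ^ 2))⁻¹) ≤
    49 / 50 * (2 / Real.pi) * ((ρ - R) * (I - η)) := by
  have hpi := Real.pi_pos
  have hpi2 := Real.pi_lt_d6
  have cR := GeoX_cos_pos R0 R1
  have X0 : 0 < Real.tan R := Real.tan_pos_of_pos_of_lt_pi_div_two R0 R1
  have hprod := prod_nonneg R0 R1 τ0 hI (by linarith) ρ1 hη
  have hκ : (6238 / 10000 : ℝ) ≤ 49 / 50 * (2 / Real.pi) := by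
    rw [mul_div_assoc', le_div_iff₀ hpi]
    linarith
  have hrhs : 0 ≤ 49 / 50 * (2 / Real.pi) * ((ρ - R) * (I - η)) := by positivity
  rcases le_or_gt u (Real.tan R) with h | h
  · rw [max_eq_right (by linarith : u - Real.tan R ≤ 0)]
    simpa using hrhs
  rcases le_or_gt (1 - c * q) 0 with h' | h'
  · rw [max_eq_right h']
    simpa using hrhs
  rw [max_eq_left (by linarith), max_eq_left h'.le]
  have hRρ : R < ρ₀ := by
    by_contra hcon
    push Not at hcon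
    have : Real.tan ρ₀ ≤ Real.tan R := by
      rcases hcon.eq_or_lt with e | e
      · rw [e]
      · exact (Real.tan_lt_tan_of_nonneg_of_lt_pi_div_two hρ₀.le R1 e).le
    linarith
  have T0 : 0 < Real.tan ρ₀ := Real.tan_pos_of_pos_of_lt_pi_div_two hρ₀ hρ1
  have cρ₀ := GeoX_cos_pos hρ₀ hρ1
  -- the angle
  have a1 : 3 * ((u - Real.tan R) * (1 + u * Real.tan R)⁻¹) *
      (3 + ((u - Real.tan R) * (1 + u * Real.tan R)⁻¹) ^ 2)⁻¹ ≤ ρ - R := by
    refine (angle_ge (α := ρ₀ - R) (by linarith) (by linarith) (by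
      have : 0 ≤ u - Real.tan R := by linarith
      positivity) ?_).trans (by linarith)
    have c3 : 0 < Real.cos (ρ₀ - R) := Real.cos_pos_of_mem_Ioo ⟨by linarith, by linarith⟩
    have e : Real.tan (ρ₀ - R) = (Real.tan ρ₀ - Real.tan R) / (1 + Real.tan ρ₀ * Real.tan R) := by
      rw [Real.cos_sub] at c3
      have h1 : 0 < 1 + Real.tan ρ₀ * Real.tan R := by positivity
      rw [Real.tan_eq_sin_div_cos (ρ₀ - R), Real.sin_sub, Real.cos_sub,
        div_eq_div_iff c3.ne' h1.ne', Real.tan_eq_sin_div_cos, Real.tan_eq_sin_div_cos]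
      field_simp
    rw [e, ← div_eq_mul_inv, div_le_div_iff₀ (by positivity) (by positivity)]
    nlinarith [mul_nonneg (sub_nonneg.2 hu) (sq_nonneg (Real.tan R))]
  -- the height
  have cρ : Real.cos ρ ≤ Real.cos ρ₀ :=
    Real.cos_le_cos_of_nonneg_of_le_pi hρ₀.le (by linarith) hρ
  have cρ0 : 0 ≤ Real.cos ρ := Real.cos_nonneg_of_mem_Icc ⟨by linarith, ρ1⟩
  have η0 : 0 ≤ η := by
    have : 0 ≤ Real.sinh η := by rw [hη]; positivity
    exact Real.sinh_nonneg_iff.1 this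
  have hηI : η ≤ I := by
    have : Real.sinh η ≤ Real.sinh I := by
      rw [hη, hI]
      exact mul_le_mul_of_nonneg_left
        (Real.cos_le_cos_of_nonneg_of_le_pi R0.le (by linarith) (by linarith)) τ0
    exact Real.sinh_le_sinh.1 this
  have h2 := trap hηI
  have shI : 0 < Real.sinh I := Real.sinh_pos_iff.2 I0
  have chI := Real.cosh_pos I
  have chη := Real.cosh_pos η
  have τ1 : 0 < τ := by
    rcases τ0.eq_or_lt with e | e
    · rw [← e, zero_mul] at hI; linarith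
    · exact e
  obtain ⟨w, hw⟩ : ∃ w, w = (1 + cc * τ ^ 2) * (1 - Real.tanh I ^ 2) := ⟨_, rfl⟩
  rw [← hw]
  have hcc0 : 0 ≤ cc := (sq_nonneg _).trans hcc
  have t1 : 0 < 1 - Real.tanh I ^ 2 := by
    have h5 := th_pos I0
    have h6 := Real.tanh_lt_one I
    nlinarith
  have w0 : 0 < w := by rw [hw]; positivity
  -- the factor
  have hr : (Real.cosh I + Real.cosh η) / 2 ≤ Real.cosh I * ((3 + w) / 4) := by
    have e1 : Real.cosh η ^ 2 ≤ w * Real.cosh I ^ 2 := by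
      have e2 : (1 - Real.tanh I ^ 2) * Real.cosh I ^ 2 = 1 := by
        have := Real.cosh_sq I
        rw [Real.tanh_eq_sinh_div_cosh]
        field_simp
        linarith
      have e3 : w * Real.cosh I ^ 2 = 1 + cc * τ ^ 2 := by
        rw [hw]
        linear_combination (1 + cc * τ ^ 2) * e2
      rw [e3, Real.cosh_sq, hη, mul_pow]
      have e4 : Real.cos ρ ^ 2 ≤ cc := (pow_le_pow_left₀ cρ0 cρ 2).trans hcc
      have := mul_le_mul_of_nonneg_left e4 (sq_nonneg τ)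
      linarith
    have e5 : 0 ≤ (Real.cosh I - Real.cosh η) ^ 2 := sq_nonneg _
    have e6 : 2 * Real.cosh I * Real.cosh η ≤ Real.cosh I ^ 2 * (1 + w) := by nlinarith
    have e7 : Real.cosh η ≤ Real.cosh I * ((1 + w) / 2) := by
      apply le_of_mul_le_mul_left _ chI
      nlinarith
    linarith
  have h4 : Real.sinh I * (1 - c * q) ≤ Real.sinh I - Real.sinh η := by
    have h4 : Real.cos ρ ≤ c * q * Real.cos R := by
      have h5 : 1 ≤ q * Real.cos R := by rwa [div_le_iff₀ cR] at hq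
      have h6 : 0 ≤ c := cρ₀.le.trans hc
      nlinarith
    rw [hη, hI]
    nlinarith
  have a2 : Real.tanh I * (1 - c * q) * (4 * (3 + w)⁻¹) ≤ I - η := by
    have w3 : 0 < 3 + w := by linarith
    have e1 : Real.tanh I * (1 - c * q) * (4 * (3 + w)⁻¹) =
        (Real.sinh I * (1 - c * q)) / (Real.cosh I * ((3 + w) / 4)) := by
      rw [Real.tanh_eq_sinh_div_cosh]
      field_simp
    rw [e1, div_le_iff₀ (by positivity)]
    have := mul_le_mul_of_nonneg_left hr (by linarith : 0 ≤ I - η)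
    linarith
  have b1 : 0 ≤ 3 * ((u - Real.tan R) * (1 + u * Real.tan R)⁻¹) *
      (3 + ((u - Real.tan R) * (1 + u * Real.tan R)⁻¹) ^ 2)⁻¹ := by
    have : 0 ≤ u - Real.tan R := by linarith
    positivity
  have b2 : 0 ≤ Real.tanh I * (1 - c * q) * (4 * (3 + w)⁻¹) :=
    mul_nonneg (mul_nonneg (th_pos I0).le h'.le) (by positivity)
  calc _ = 6238 / 10000 * ((3 * ((u - Real.tan R) * (1 + u * Real.tan R)⁻¹) *
      (3 + ((u - Real.tan R) * (1 + u * Real.tan R)⁻¹) ^ 2)⁻¹) *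
        (Real.tanh I * (1 - c * q) * (4 * (3 + w)⁻¹))) := by ring
    _ ≤ 6238 / 10000 * ((ρ - R) * (I - η)) := by
        refine mul_le_mul_of_nonneg_left ?_ (by norm_num)
        exact mul_le_mul a1 a2 b2 (by linarith)
    _ ≤ _ := mul_le_mul_of_nonneg_right hκ hprod

/-! ### Soundness -/

variable {sE sv : Bool} {R I τ b rj d n : ℝ}

theorem iLo_ps {g g2 : N} (h : g.ps = true) : (iLo g g2).ps = true := by
  have h1 : 1 ≤ g.lo := by unfold N.ps at h; rwa [Nat.ble_eq] at h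
  show Nat.ble 1 (Nat.div (Nat.mul g.lo (Nat.add (Nat.add 1073741824 (N.dv g2 3).lo)
    (N.dv g2.sq 5).lo)) 1073741824) = true
  rw [Nat.ble_eq]
  show 1 ≤ (g.lo * (1073741824 + (N.dv g2 3).lo + (N.dv g2.sq 5).lo)) / 1073741824
  rw [Nat.le_div_iff_mul_le (by norm_num)]
  nlinarith [Nat.zero_le ((N.dv g2 3).lo), Nat.zero_le ((N.dv g2.sq 5).lo)]

theorem Cx.bV_sound (C : Cx sE sv R I τ b rj d n) {EN gN : N} (hE : Mem (Real.tanh d) EN)
    (hg : Mem (Real.tanh I) gN) (hps : gN.ps = true) (hps2 : (N.sub one EN.sq).ps = true) :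
    ∃ B, Mem B (bV sE EN gN gN.sq) ∧ b ≤ B ∧ 0 ≤ B := by
  have h1 := C.b_eq
  have h3 : 0 ≤ d / I := div_nonneg C.d0 C.I0.le
  unfold bV
  rcases sE with _ | _
  · rw [cond_false] at h1 ⊢
    exact ⟨1, mem_one, by linarith, by norm_num⟩
  · rw [cond_true] at h1 ⊢
    have E2 : Real.tanh d ^ 2 ≤ 1 := by
      have := Real.tanh_lt_one d
      have := Real.neg_one_lt_tanh d
      nlinarith
    have mD : Mem (Real.tanh d * (1 + Real.tanh d ^ 2 * (1 - Real.tanh d ^ 2)⁻¹ / 3)) (dUp EN) := by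
      unfold dUp
      have h5 := (hE.sq.mul ((mem_one.sub hE.sq E2).inv hps2)).dv (n := 3) (by norm_num)
      push_cast at h5
      exact hE.mul (mem_one.add h5)
    have mI : Mem (Real.tanh I * (1 + Real.tanh I ^ 2 / 3 + (Real.tanh I ^ 2) ^ 2 / 5))
        (iLo gN gN.sq) := by
      unfold iLo
      have h5 := hg.sq.dv (n := 3) (by norm_num)
      have h6 := hg.sq.sq.dv (n := 5) (by norm_num)
      push_cast at h5 h6
      exact hg.mul ((mem_one.add h5).add h6)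
    have h5 := mem_one.add (mD.mul (mI.inv (iLo_ps hps)))
    have h6 := pt_hi h5
    have h7 := d_up C.d0
    have h8 := i_lo C.I0.le
    have h9 : 0 < Real.tanh I * (1 + Real.tanh I ^ 2 / 3 + (Real.tanh I ^ 2) ^ 2 / 5) := by
      have := th_pos C.I0
      positivity
    have h10 : d / I ≤ Real.tanh d * (1 + Real.tanh d ^ 2 * (1 - Real.tanh d ^ 2)⁻¹ / 3) *
        (Real.tanh I * (1 + Real.tanh I ^ 2 / 3 + (Real.tanh I ^ 2) ^ 2 / 5))⁻¹ := by
      rw [← div_eq_mul_inv]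
      exact div_le_div₀ (C.d0.trans h7) h7 h9 h8
    exact ⟨_, mem_pt _, by linarith, by positivity⟩

theorem Cx.yV_sound (C : Cx sE sv R I τ b rj d n) {tN : N} (ht : Mem (τ ^ 2) tN) {η : ℝ}
    (hη : Real.sinh η = τ * Real.cos (2 / 5 * Real.pi)) : ∃ y, Mem y (yV tN) ∧ η / 5 ≤ y := by
  have h1 := sqU_sound ht (sq_nonneg τ)
  rw [Real.sqrt_sq C.τ0.le] at h1
  have h2 := y_up C.τ0.le C.τ1 hη
  have t1 : 152 / 10000 * τ ^ 2 ≤ 1 := by
    have := C.τ1
    have := C.τ0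
    nlinarith
  refine ⟨3091 / 10000 * ((sqU tN : ℝ) / 1073741824) * (1 - 152 / 10000 * τ ^ 2) / 5, ?_, ?_⟩
  · have c1 : Mem (3091 / 10000 : ℝ) (cst 3091 10000) := mem_nat (by norm_num) (by norm_num)
    have c2 : Mem (152 / 10000 : ℝ) (cst 152 10000) := mem_nat (by norm_num) (by norm_num)
    have := Mem.dv (n := 5) (by norm_num) ((c1.mul (mem_pt (sqU tN))).mul
      (mem_one.sub (c2.mul ht) t1))
    push_cast at this
    exact this
  · have h3 : 3091 / 10000 * τ * (1 - 152 / 10000 * τ ^ 2) ≤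
        3091 / 10000 * ((sqU tN : ℝ) / 1073741824) * (1 - 152 / 10000 * τ ^ 2) :=
      mul_le_mul_of_nonneg_right (by linarith) (by linarith)
    linarith

/-- **(E3) at one base point.** -/
theorem Cx.e3v_sound (C : Cx sE sv R I τ b rj d n) {tn cn cc tg : ℕ} {XN gN tN Bh yN qN : N}
    {B y q : ℝ} (hX : Mem (Real.tan R) XN) (hg : Mem (Real.tanh I) gN) (ht : Mem (τ ^ 2) tN)
    (hB : Mem B Bh) (hy : Mem y yN)
    (hq : Mem q qN) (bB : b ≤ B) {η1 ρ₀ ρ η0 : ℝ} (h1 : η1 / 5 ≤ y) (hq1 : 1 / Real.cos R ≤ q)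
    (hρ₀ : 0 < ρ₀) (hρ1 : ρ₀ < Real.pi / 2) (hρ : ρ₀ ≤ ρ) (ρ1 : ρ ≤ Real.pi / 2)
    (hη : Real.sinh η0 = τ * Real.cos ρ) (hu : (tn : ℝ) / 10000 ≤ Real.tan ρ₀)
    (hc : Real.cos ρ₀ ≤ (cn : ℝ) / 10000) (hcc : Real.cos ρ₀ ^ 2 ≤ (cc : ℝ) / 10000)
    (h : e3v tn cn cc tg XN gN gN.sq tN Bh yN qN = true) :
    b * (η1 / 5 - 49 / 50 * (2 / Real.pi) * ((ρ - R) * (I - η0))) ≤ (tg : ℝ) / 10000 := by
  have b0 := C.b0
  have X0 : 0 < Real.tan R := Real.tan_pos_of_pos_of_lt_pi_div_two C.R0 C.R1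
  have hs := sec_le2 C.R0 C.R1 C.I0 C.τ0.le C.hI hρ₀ hρ ρ1 hρ1 hη (by positivity) hu hc hq1 hcc
  have cf : ∀ m : ℕ, Mem ((m : ℝ) / 10000) (cst m 10000) := by
    intro m
    have := mem_cst (n := m) (d := 10000) (by norm_num)
    push_cast at this
    exact this
  have g2 : Real.tanh I ^ 2 ≤ 1 := by
    have h5 := th_pos C.I0
    have h6 := Real.tanh_lt_one I
    nlinarith
  have m1 : Mem (max ((tn : ℝ) / 10000 - Real.tan R) 0 *
      (1 + (tn : ℝ) / 10000 * Real.tan R)⁻¹) (N.mul (N.sub (cst tn 10000) XN)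
      (N.inv (N.add one (N.mul (cst tn 10000) XN)))) :=
    (mem_subp (cf tn) hX).mul ((mem_one.add ((cf tn).mul hX)).inv (ps_one_add _))
  have m2 : Mem (max (1 - (cn : ℝ) / 10000 * q) 0) (N.sub one (N.mul (cst cn 10000) qN)) :=
    mem_subp mem_one ((cf cn).mul hq)
  have c3 : Mem (6238 / 10000 : ℝ) (cst 6238 10000) := mem_nat (by norm_num) (by norm_num)
  have c4 : Mem (4 : ℝ) (cst 4 1) := mem_nat (by norm_num) (by norm_num)
  have c5 : Mem (3 : ℝ) (cst 3 1) := mem_nat (by norm_num) (by norm_num)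
  have m4 : Mem (4 * (3 + (1 + (cc : ℝ) / 10000 * τ ^ 2) * (1 - Real.tanh I ^ 2))⁻¹)
      (N.mul (cst 4 1) (N.add (cst 3 1)
      (N.mul (N.add one (N.mul (cst cc 10000) tN)) (N.sub one gN.sq))).inv) := by
    refine c4.mul ((c5.add ((mem_one.add ((cf cc).mul ht)).mul (mem_one.sub hg.sq g2))).inv
      (ps_add_left (by decide +kernel)))
  have m3 := ((c3.mul (mem_arB m1)).mul (hg.mul m2)).mul m4
  have key := (hB.mul hy).le ((cf tg).add (hB.mul m3)) h
  have tg0 : (0 : ℝ) ≤ (tg : ℝ) / 10000 := by positivity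
  rcases le_or_gt (η1 / 5 - 49 / 50 * (2 / Real.pi) * ((ρ - R) * (I - η0))) 0 with e | e
  · exact (mul_nonpos_of_nonneg_of_nonpos b0.le e).trans tg0
  · refine (mul_le_mul_of_nonneg_right bB e.le).trans ?_
    have B0 : 0 ≤ B := b0.le.trans bB
    refine (mul_le_mul_of_nonneg_left (sub_le_sub h1 hs) B0).trans ?_
    rw [mul_sub]
    linarith

end Pool.Agent.S3.E.J6
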