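import Pool.Agent.S3.E.OdDa

/-!
# Stage 3, block E: (E3) at an inner vertex with two twists, a branch and bound
-/

set_option autoImplicit false

namespace Pool.Agent.S3.E

open Complex

namespace J6

open NI

theorem kA2 (sE sv : Bool) :
    NI.bb (tst (fun X g E v X2 g2 t K => obA sE sv X g E v X2 g2 t K ||
      ex0 true false sE sv X g E v X2 g2) true false true sE sv) (cyc 9 [3, 0, 2, 1])
      (rng 34 138 100) (rng 19 58 100) (rng 0 43 100) (rng 0 1 1) = true := by
  rcases sE with _ | _ <;> rcases sv with _ | _ <;> decide +kernel

end J6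

end Pool.Agent.S3.E
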