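import Pool.Agent.S3.E.OdB
import Pool.Agent.S3.E.OdDkA2
import Pool.Agent.S3.E.OdDkA3
import Pool.Agent.S3.E.OdDkB2
import Pool.Agent.S3.E.OdDkB3
import Pool.Agent.S3.Es12
import Pool.Agent.S3.Es7

/-!
# Stage 3, block E: (E3) at an inner vertex with two twists, both neighbours open, in the slot
towards a vertex with three twists or more
-/

set_option autoImplicit false

namespace Pool.Agent.S3.E

open Complex

namespace J6

open NI

/-- Numerical bounds from the complementary angle. -/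
theorem row_of {ρ y s c : ℝ} {tn cn cc : ℕ} (r0 : 0 < ρ) (h0 : 0 < Real.pi / 2 - ρ)
    (h1 : Real.pi / 2 - ρ ≤ y) (h2 : y ≤ 3 / 2) (hs : y - y ^ 3 / 6 + y ^ 5 / 120 ≤ s)
    (hc : c ≤ 1 - y ^ 2 / 2 + y ^ 4 / 24 - y ^ 6 / 720) (c0 : 0 < c)
    (a1 : (tn : ℝ) / 10000 ≤ c / s) (a2 : s ≤ (cn : ℝ) / 10000)
    (a3 : s ^ 2 ≤ (cc : ℝ) / 10000) :
    (tn : ℝ) / 10000 ≤ Real.tan ρ ∧ Real.cos ρ ≤ (cn : ℝ) / 10000 ∧
      Real.cos ρ ^ 2 ≤ (cc : ℝ) / 10000 := by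
  obtain ⟨e1, e2⟩ := tc_of h0 h1 h2 hs hc c0
  have e3 : 0 ≤ Real.cos ρ := Real.cos_nonneg_of_mem_Icc ⟨by linarith, by linarith⟩
  exact ⟨a1.trans e2, e1.trans a2, (pow_le_pow_left₀ e3 e1 2).trans a3⟩

theorem rw333 : (((17278 : ℕ) : ℝ) / 10000 ≤ Real.tan (333 / 1000 * Real.pi)) ∧
    (Real.cos (333 / 1000 * Real.pi) ≤ ((5010 : ℕ) : ℝ) / 10000) ∧
    (Real.cos (333 / 1000 * Real.pi) ^ 2 ≤ ((2510 : ℕ) : ℝ) / 10000) := by
  have h1 := Real.pi_gt_d6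
  have h2 := Real.pi_lt_d6
  exact row_of (y := 524647 / 1000000) (s := 500910 / 1000000) (c := 865500 / 1000000) (by linarith)
    (by linarith) (by linarith) (by norm_num) (by norm_num) (by norm_num) (by norm_num)
    (by norm_num) (by norm_num) (by norm_num)

theorem rw338 : (((17922 : ℕ) : ℝ) / 10000 ≤ Real.tan (338 / 1000 * Real.pi)) ∧
    (Real.cos (338 / 1000 * Real.pi) ≤ ((4873 : ℕ) : ℝ) / 10000) ∧
    (Real.cos (338 / 1000 * Real.pi) ^ 2 ≤ ((2375 : ℕ) : ℝ) / 10000) := by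
  have h1 := Real.pi_gt_d6
  have h2 := Real.pi_lt_d6
  exact row_of (y := 508939 / 1000000) (s := 487253 / 1000000) (c := 873261 / 1000000) (by linarith)
    (by linarith) (by linarith) (by norm_num) (by norm_num) (by norm_num) (by norm_num)
    (by norm_num) (by norm_num) (by norm_num)

theorem rw346 : (((19030 : ℕ) : ℝ) / 10000 ≤ Real.tan (346 / 1000 * Real.pi)) ∧
    (Real.cos (346 / 1000 * Real.pi) ≤ ((4652 : ℕ) : ℝ) / 10000) ∧
    (Real.cos (346 / 1000 * Real.pi) ^ 2 ≤ ((2164 : ℕ) : ℝ) / 10000) := by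
  have h1 := Real.pi_gt_d6
  have h2 := Real.pi_lt_d6
  exact row_of (y := 483806 / 1000000) (s := 465153 / 1000000) (c := 885230 / 1000000) (by linarith)
    (by linarith) (by linarith) (by norm_num) (by norm_num) (by norm_num) (by norm_num)
    (by norm_num) (by norm_num) (by norm_num)

theorem rw351 : (((19779 : ℕ) : ℝ) / 10000 ≤ Real.tan (351 / 1000 * Real.pi)) ∧
    (Real.cos (351 / 1000 * Real.pi) ≤ ((4512 : ℕ) : ℝ) / 10000) ∧
    (Real.cos (351 / 1000 * Real.pi) ^ 2 ≤ ((2036 : ℕ) : ℝ) / 10000) := by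
  have h1 := Real.pi_gt_d6
  have h2 := Real.pi_lt_d6
  exact row_of (y := 468098 / 1000000) (s := 451191 / 1000000) (c := 892428 / 1000000) (by linarith)
    (by linarith) (by linarith) (by norm_num) (by norm_num) (by norm_num) (by norm_num)
    (by norm_num) (by norm_num) (by norm_num)

theorem rw372 : (((23512 : ℕ) : ℝ) / 10000 ≤ Real.tan (372 / 1000 * Real.pi)) ∧
    (Real.cos (372 / 1000 * Real.pi) ≤ ((3914 : ℕ) : ℝ) / 10000) ∧
    (Real.cos (372 / 1000 * Real.pi) ^ 2 ≤ ((1532 : ℕ) : ℝ) / 10000) := by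
  have h1 := Real.pi_gt_d6
  have h2 := Real.pi_lt_d6
  exact row_of (y := 402125 / 1000000) (s := 391376 / 1000000) (c := 920231 / 1000000) (by linarith)
    (by linarith) (by linarith) (by norm_num) (by norm_num) (by norm_num) (by norm_num)
    (by norm_num) (by norm_num) (by norm_num)

theorem rw375 : (((24142 : ℕ) : ℝ) / 10000 ≤ Real.tan (375 / 1000 * Real.pi)) ∧
    (Real.cos (375 / 1000 * Real.pi) ≤ ((3827 : ℕ) : ℝ) / 10000) ∧
    (Real.cos (375 / 1000 * Real.pi) ^ 2 ≤ ((1465 : ℕ) : ℝ) / 10000) := by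
  have h1 := Real.pi_gt_d6
  have h2 := Real.pi_lt_d6
  exact row_of (y := 392700 / 1000000) (s := 382685 / 1000000) (c := 923879 / 1000000) (by linarith)
    (by linarith) (by linarith) (by norm_num) (by norm_num) (by norm_num) (by norm_num)
    (by norm_num) (by norm_num) (by norm_num)

variable {sE sv : Bool} {R I τ b rj d n : ℝ}

/-- The six values of (E3). -/
def E3Six (R I b η1 ρ η0 : ℝ) : Prop :=
  (333 / 1000 * Real.pi ≤ ρ → b * (η1 / 5 - 49 / 50 * (2 / Real.pi) *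
    ((ρ - R) * (I - η0))) ≤ 62 / 1000) ∧
  (338 / 1000 * Real.pi ≤ ρ → b * (η1 / 5 - 49 / 50 * (2 / Real.pi) *
    ((ρ - R) * (I - η0))) ≤ 60 / 1000) ∧
  (346 / 1000 * Real.pi ≤ ρ → b * (η1 / 5 - 49 / 50 * (2 / Real.pi) *
    ((ρ - R) * (I - η0))) ≤ 55 / 1000) ∧
  (351 / 1000 * Real.pi ≤ ρ → b * (η1 / 5 - 49 / 50 * (2 / Real.pi) *
    ((ρ - R) * (I - η0))) ≤ 52 / 1000) ∧
  (372 / 1000 * Real.pi ≤ ρ → b * (η1 / 5 - 49 / 50 * (2 / Real.pi) *
    ((ρ - R) * (I - η0))) ≤ 36 / 1000) ∧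
  (375 / 1000 * Real.pi ≤ ρ → b * (η1 / 5 - 49 / 50 * (2 / Real.pi) *
    ((ρ - R) * (I - η0))) ≤ 34 / 1000)

/-- The first term alone. -/
theorem Cx.first (C : Cx sE sv R I τ b rj d n) {Bh yN : N} {B y : ℝ}
    (mB : Mem B Bh) (my : Mem y yN) (bB : b ≤ B) (B0 : 0 ≤ B) {η1 ρ₀ ρ η0 : ℝ} {tg : ℕ}
    (hy : η1 / 5 ≤ y) (h0 : Real.sinh η0 = τ * Real.cos ρ) (hρ₀ : 0 ≤ ρ₀) (hρ' : ρ₀ ≤ ρ)
    (hρ : ρ ≤ Real.pi / 2) (ho : (N.mul Bh yN).le (cst tg 10000) = true) :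
    b * (η1 / 5 - 49 / 50 * (2 / Real.pi) * ((ρ - R) * (I - η0))) ≤ (tg : ℝ) / 10000 := by
  have hpi := Real.pi_pos
  have c1 : Mem ((tg : ℝ) / 10000) (cst tg 10000) := by
    have := mem_cst (n := tg) (d := 10000) (by norm_num)
    push_cast at this
    exact this
  have e1 := (mB.mul my).le c1 ho
  have e2 := prod_nonneg C.R0 C.R1 C.τ0.le C.hI (hρ₀.trans hρ') hρ h0
  have e3 : 0 ≤ 49 / 50 * (2 / Real.pi) * ((ρ - R) * (I - η0)) := by positivity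
  rcases le_or_gt (η1 / 5 - 49 / 50 * (2 / Real.pi) * ((ρ - R) * (I - η0))) 0 with e | e
  · exact (mul_nonpos_of_nonneg_of_nonpos C.b0.le e).trans (by positivity)
  · exact (mul_le_mul bB (by linarith) e.le B0).trans e1

theorem Cx.obA_sound (C : Cx sE sv R I τ b rj d n) {XN gN EN vN tN kN : N}
    (hX : Mem (Real.tan R) XN) (hg : Mem (Real.tanh I) gN) (hE : Mem (Real.tanh d) EN)
    (ht : Mem (τ ^ 2) tN) (gps : gN.ps = true)
    (ho : obA sE sv XN gN EN vN XN.sq gN.sq tN kN = true)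
    {η1 ρ η0 : ℝ} (h1 : Real.sinh η1 = τ * Real.cos (2 / 5 * Real.pi))
    (h0 : Real.sinh η0 = τ * Real.cos ρ) (hρ : ρ ≤ Real.pi / 2) : E3Six R I b η1 ρ η0 := by
  have hpi := Real.pi_pos
  unfold obA at ho
  rw [Bool.and_eq_true] at ho
  obtain ⟨hps, ho⟩ := ho
  obtain ⟨B, mB, bB, B0⟩ := C.bV_sound hE hg gps hps
  obtain ⟨y, my, hy⟩ := C.yV_sound ht h1
  obtain ⟨q, mq, hq⟩ := C.qU_sound hX
  unfold rowsA at ho
  rw [Bool.or_eq_true] at ho
  rcases ho with ho | ho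
  · have key : ∀ ρ₀ : ℝ, 0 ≤ ρ₀ → ρ₀ ≤ ρ →
        b * (η1 / 5 - 49 / 50 * (2 / Real.pi) * ((ρ - R) * (I - η0))) ≤ 34 / 1000 := by
      intro ρ₀ r0 r1
      exact (C.first mB my bB B0 hy h0 r0 r1 hρ ho).trans (by norm_num)
    refine ⟨?_, ?_, ?_, ?_, ?_, ?_⟩ <;> intro e <;>
      exact (key _ (by positivity) e).trans (by norm_num)
  · rw [Bool.and_eq_true, Bool.and_eq_true, Bool.and_eq_true, Bool.and_eq_true,
      Bool.and_eq_true] at ho
    obtain ⟨o0, o1, o2, o3, o4, o5⟩ := ho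
    refine ⟨?_, ?_, ?_, ?_, ?_, ?_⟩
    · intro e
      exact (C.e3v_sound hX hg ht mB my mq bB hy hq (by positivity) (by linarith) e hρ h0 rw333.1
        rw333.2.1 rw333.2.2 o0).trans (by norm_num)
    · intro e
      exact (C.e3v_sound hX hg ht mB my mq bB hy hq (by positivity) (by linarith) e hρ h0 rw338.1
        rw338.2.1 rw338.2.2 o1).trans (by norm_num)
    · intro e
      exact (C.e3v_sound hX hg ht mB my mq bB hy hq (by positivity) (by linarith) e hρ h0 rw346.1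
        rw346.2.1 rw346.2.2 o2).trans (by norm_num)
    · intro e
      exact (C.e3v_sound hX hg ht mB my mq bB hy hq (by positivity) (by linarith) e hρ h0 rw351.1
        rw351.2.1 rw351.2.2 o3).trans (by norm_num)
    · intro e
      exact (C.e3v_sound hX hg ht mB my mq bB hy hq (by positivity) (by linarith) e hρ h0 rw372.1
        rw372.2.1 rw372.2.2 o4).trans (by norm_num)
    · intro e
      exact (C.e3v_sound hX hg ht mB my mq bB hy hq (by positivity) (by linarith) e hρ h0 rw375.1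
        rw375.2.1 rw375.2.2 o5).trans (by norm_num)

theorem Cx.obB_sound (C : Cx sE sv R I τ b rj d n) {XN gN EN vN tN kN : N}
    (hX : Mem (Real.tan R) XN) (hg : Mem (Real.tanh I) gN) (hE : Mem (Real.tanh d) EN)
    (ht : Mem (τ ^ 2) tN) (gps : gN.ps = true)
    (ho : obB sE sv XN gN EN vN XN.sq gN.sq tN kN = true)
    {η1 ρ η0 : ℝ} (h1 : Real.sinh η1 = τ * Real.cos (2 / 5 * Real.pi))
    (h0 : Real.sinh η0 = τ * Real.cos ρ) (hρ : ρ ≤ Real.pi / 2)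
    (e : 333 / 1000 * Real.pi ≤ ρ) :
    b * (η1 / 5 - 49 / 50 * (2 / Real.pi) * ((ρ - R) * (I - η0))) ≤ 55 / 1000 := by
  have hpi := Real.pi_pos
  unfold obB at ho
  rw [Bool.and_eq_true] at ho
  obtain ⟨hps, ho⟩ := ho
  obtain ⟨B, mB, bB, B0⟩ := C.bV_sound hE hg gps hps
  obtain ⟨y, my, hy⟩ := C.yV_sound ht h1
  obtain ⟨q, mq, hq⟩ := C.qU_sound hX
  unfold rowsB at ho
  rw [Bool.or_eq_true] at ho
  rcases ho with ho | ho
  · exact (C.first mB my bB B0 hy h0 (by positivity) e hρ ho).trans (by norm_num)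
  · exact (C.e3v_sound hX hg ht mB my mq bB hy hq (by positivity) (by linarith) e hρ h0 rw333.1
        rw333.2.1 rw333.2.2 ho).trans (by norm_num)

end J6

namespace Zr

variable {ι : Type*} [Finite ι] {a : ι → ℝ} {nl nr : ι → Option ι} {z : ι → ℂ}

/-- **(E3)** at an inner `2` in the slot towards a vertex `j` with at least three twists, the other
neighbour `k` open (the same table as `Cl.e3_end23`). -/
theorem e3_open23 (h : Zr a nl nr 1 z) (h3 : ∀ i, 3 ≤ a i → a i = 3 ∨ 4 ≤ a i) {i j k : ι}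
    (hi : a i = 2) (hij : (nl i = some j ∧ nr i = some k) ∨ (nl i = some k ∧ nr i = some j))
    (hj : 3 ≤ a j) (hk : 3 ≤ a k ∨ (a k = 2 ∧ In2 nl nr k)) {ρ η0 η1 : ℝ}
    (h1 : Real.sinh η1 = Real.tan (th (z i).re (z i).im) * Real.cos (2 / 5 * Real.pi))
    (h0 : Real.sinh η0 = Real.tan (th (z i).re (z i).im) * Real.cos ρ) (hρ : ρ ≤ Real.pi / 2) :
    (333 / 1000 * Real.pi ≤ ρ → bw (z i) (z j) * (η1 / 5 - 49 / 50 * (2 / Real.pi) *
      ((ρ - (z i).re) * ((z i).im - η0))) ≤ 62 / 1000) ∧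
    (338 / 1000 * Real.pi ≤ ρ → bw (z i) (z j) * (η1 / 5 - 49 / 50 * (2 / Real.pi) *
      ((ρ - (z i).re) * ((z i).im - η0))) ≤ 60 / 1000) ∧
    (346 / 1000 * Real.pi ≤ ρ → bw (z i) (z j) * (η1 / 5 - 49 / 50 * (2 / Real.pi) *
      ((ρ - (z i).re) * ((z i).im - η0))) ≤ 55 / 1000) ∧
    (351 / 1000 * Real.pi ≤ ρ → bw (z i) (z j) * (η1 / 5 - 49 / 50 * (2 / Real.pi) *
      ((ρ - (z i).re) * ((z i).im - η0))) ≤ 52 / 1000) ∧
    (372 / 1000 * Real.pi ≤ ρ → bw (z i) (z j) * (η1 / 5 - 49 / 50 * (2 / Real.pi) *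
      ((ρ - (z i).re) * ((z i).im - η0))) ≤ 36 / 1000) ∧
    (375 / 1000 * Real.pi ≤ ρ → bw (z i) (z j) * (η1 / 5 - 49 / 50 * (2 / Real.pi) *
      ((ρ - (z i).re) * ((z i).im - η0))) ≤ 34 / 1000) ∧
    (a j = 3 → 333 / 1000 * Real.pi ≤ ρ → bw (z i) (z j) * (η1 / 5 - 49 / 50 * (2 / Real.pi) *
      ((ρ - (z i).re) * ((z i).im - η0))) ≤ 55 / 1000) := by
  have hin : In2 nl nr i := by
    rcases hij with ⟨h1, h2⟩ | ⟨h1, h2⟩
    · exact ⟨_, _, h1, h2⟩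
    · exact ⟨_, _, h1, h2⟩
  have hj1 : nl i = some j ∨ nr i = some j := by
    rcases hij with ⟨h1, h2⟩ | ⟨h1, h2⟩
    · exact Or.inl h1
    · exact Or.inr h2
  have hk1 : nl i = some k ∨ nr i = some k := by
    rcases hij with ⟨h1, h2⟩ | ⟨h1, h2⟩
    · exact Or.inr h2
    · exact Or.inl h1
  obtain ⟨-, -, hK⟩ := h.stage1 h3 hi hij (Or.inl hj) hk
  have Ej : J6.Ex false false (normSq ((starRingEnd ℂ) (cos (z j))))
      (((starRingEnd ℂ) (cos (z j))).im / ((starRingEnd ℂ) (cos (z j))).re) :=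
    h.ex_ge3 h3 hi hin hj1 hj hK (by simp)
  have six : J6.E3Six (z i).re (z i).im (bw (z i) (z j)) η1 ρ η0 := by
    rcases hk with hk | ⟨hk, hkn⟩
    · obtain ⟨sE, sv, d, n, XN, gN, EN, vN, tN, kN, C, m1, m2, m3, m4, m5, m6, q1, q2, ho⟩ :=
        h.bbx2 h3 hi hij (tj := true) (tk := true) (st := true) (Or.inl ⟨rfl, hj⟩)
          (Or.inl ⟨rfl, hk⟩) (by simp) (by simp) Ej
          (h.ex_ge3 h3 hi hin hk1 hk hK (by simp)) (obj := J6.obA) J6.kA3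
      exact C.obA_sound m1 m2 m3 m5 q2 ho h1 h0 hρ
    · obtain ⟨c1, c2, -⟩ := h.adj22 h3 hk hkn hi hin (h.N.symm i k hk1)
      obtain ⟨sE, sv, d, n, XN, gN, EN, vN, tN, kN, C, m1, m2, m3, m4, m5, m6, q1, q2, ho⟩ :=
        h.bbx2 h3 hi hij (tj := true) (tk := false) (st := true) (Or.inl ⟨rfl, hj⟩)
          (Or.inr ⟨rfl, hk, hkn⟩) (by simp) (fun _ _ => ⟨c1, c2⟩) Ej
          (h.ex_two h3 hi hin (h.N.symm i k hk1) hk hkn) (obj := J6.obA) J6.kA2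
      exact C.obA_sound m1 m2 m3 m5 q2 ho h1 h0 hρ
  obtain ⟨s1, s2, s3, s4, s5, s6⟩ := six
  refine ⟨s1, s2, s3, s4, s5, s6, fun e3 hr => ?_⟩
  rcases hk with hk | ⟨hk, hkn⟩
  · obtain ⟨sE, sv, d, n, XN, gN, EN, vN, tN, kN, C, m1, m2, m3, m4, m5, m6, q1, q2, ho⟩ :=
      h.bbx2 h3 hi hij (tj := true) (tk := true) (st := true) (Or.inl ⟨rfl, hj⟩)
        (Or.inl ⟨rfl, hk⟩) (by simp) (by simp)
        (h.ex_ge3 h3 hi hin hj1 hj hK (e3 := true) (fun _ => e3))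
        (h.ex_ge3 h3 hi hin hk1 hk hK (by simp)) (obj := J6.obB) J6.kB3
    exact C.obB_sound m1 m2 m3 m5 q2 ho h1 h0 hρ hr
  · obtain ⟨c1, c2, -⟩ := h.adj22 h3 hk hkn hi hin (h.N.symm i k hk1)
    obtain ⟨sE, sv, d, n, XN, gN, EN, vN, tN, kN, C, m1, m2, m3, m4, m5, m6, q1, q2, ho⟩ :=
      h.bbx2 h3 hi hij (tj := true) (tk := false) (st := true) (Or.inl ⟨rfl, hj⟩)
        (Or.inr ⟨rfl, hk, hkn⟩) (by simp) (fun _ _ => ⟨c1, c2⟩) Ej
        (h.ex_two h3 hi hin (h.N.symm i k hk1) hk hkn) (obj := J6.obB) J6.kB2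
    exact C.obB_sound m1 m2 m3 m5 q2 ho h1 h0 hρ hr

end Zr

end Pool.Agent.S3.E
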