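import Pool.Agent.H25.RK.DGI
import Pool.Agent.H25.RK.DGf
import Pool.Agent.H63.GO.MTaylor
import Pool.Agent.H63.VC.Asym
import Pool.Agent.H63.VC.EndB
import Pool.Agent.H63.VC.Riem
import Pool.Agent.H63.VC.SlowL
import Pool.Agent.H63.VC.SlowU
import Pool.Agent.H63.VC3.CritB
import Pool.Agent.H63.VC3.Upper
import Pool.Agent.H63.VC4.GaussN
import Pool.Agent.H63.VC4.KBN
import Pool.Agent.H63.VC4.LaplaceN
import Pool.Agent.H63.VC4.UpperN
import Pool.Agent.H63.VC5.Defs
import Pool.Agent.H63.VC6.LocU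
import Pool.Agent.H63.VC6.SlotU
import Pool.Agent.H63.VC7.Link
import Pool.Agent.S3.Asm.Def
import Pool.Agent.S3.Cl.E3F
import Pool.Agent.S3.CritCfg
import Pool.Agent.S3.E.Geo
import Pool.Agent.S3.E.J6P
import Pool.Agent.S3.E.OdA
import Pool.Agent.S3.E.OdC
import Pool.Agent.S3.E.Sl
import Pool.Agent.S3.E.Two
import Pool.Agent.S3.W.LeftAlg

/-!
# Stage 3, block E: (E3) at an inner vertex with two twists, the tests
-/

set_option autoImplicit false

namespace Pool.Agent.S3.E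

open Complex

namespace J6

open NI

def rowsA (X g g2 t Bh y Q : N) : Bool :=
  (N.mul Bh y).le (cst 340 10000) ||
  (e3v 17278 5010 2510 620 X g g2 t Bh y Q && (e3v 17922 4873 2375 600 X g g2 t Bh y Q &&
  (e3v 19030 4652 2164 550 X g g2 t Bh y Q && (e3v 19779 4512 2036 520 X g g2 t Bh y Q &&
  (e3v 23512 3914 1532 360 X g g2 t Bh y Q && e3v 24142 3827 1465 340 X g g2 t Bh y Q)))))
def rowsB (X g g2 t Bh y Q : N) : Bool :=
  (N.mul Bh y).le (cst 550 10000) || e3v 17278 5010 2510 550 X g g2 t Bh y Q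
def obA (sE _sv : Bool) (X g E _v X2 g2 t _K : N) : Bool :=
  (N.sub one E.sq).ps && rowsA X g g2 t (bV sE E g g2) (yV t) (qU X2)
def obB (sE _sv : Bool) (X g E _v X2 g2 t _K : N) : Bool :=
  (N.sub one E.sq).ps && rowsB X g g2 t (bV sE E g g2) (yV t) (qU X2)

end J6

end Pool.Agent.S3.E
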