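import Pool.Agent.S3.E.J6E1

/-!
# Stage 3, block E: (E1) and the bounds of the data at an inner vertex with two twists, both
neighbours open, in the slot towards a vertex with three twists or more
-/

set_option autoImplicit false

namespace Pool.Agent.S3.E

open Complex

namespace J6

open NI

def obD (sE sv : Bool) (X g E v _X2 _g2 t _K : N) : Bool :=
  (cst 3 10).le t && ((bU sE E g).le (cst 167 100) &&
    (e1t sE sv 638 1000 X v (N.mul E g.inv) && e1t sE sv 1600 1000 X v (N.mul E g.inv)))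

theorem kD3 (sE sv : Bool) :
    NI.bb (tst (obD sE sv) true true true sE sv) (cyc 8 [3, 0, 2, 1]) (rng 34 138 100)
      (rng 19 58 100) (rng 0 43 100) (rng 0 1 1) = true := by
  rcases sE with _ | _ <;> rcases sv with _ | _ <;> decide +kernel

theorem kD2 (sE sv : Bool) :
    NI.bb (tst (obD sE sv) true false true sE sv) (cyc 8 [3, 0, 2, 1]) (rng 34 138 100)
      (rng 19 58 100) (rng 0 43 100) (rng 0 1 1) = true := by
  rcases sE with _ | _ <;> rcases sv with _ | _ <;> decide +kernel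

variable {sE sv : Bool} {R I τ b rj d n : ℝ}

theorem Cx.obD_sound (C : Cx sE sv R I τ b rj d n) {XN gN EN vN X2N g2N tN kN : N}
    (hX : Mem (Real.tan R) XN) (hg : Mem (Real.tanh I) gN) (hE : Mem (Real.tanh d) EN)
    (hv : Mem (Real.tan n) vN) (ht : Mem (τ ^ 2) tN) (gps : gN.ps = true)
    (ho : obD sE sv XN gN EN vN X2N g2N tN kN = true) :
    3 / 10 ≤ τ ^ 2 ∧ b ≤ 167 / 100 ∧ ∀ {ρ η : ℝ}, Real.sinh η = τ * Real.cos ρ →
      29 / 100 * Real.pi ≤ ρ → ρ ≤ 2 / 5 * Real.pi →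
      b * (η + (Real.pi / 2 - ρ) * (Real.tan ρ * Real.tanh η)) -
        (b * (Real.pi / 2 - R) - rj) * (Real.tan ρ * Real.tanh η) ≤
      4 / 3 * (η + (Real.pi / 2 - ρ) * (Real.tan ρ * Real.tanh η)) := by
  have hpi := Real.pi_gt_d6
  have hpi' := Real.pi_lt_d6
  have he := hE.mul (hg.inv gps)
  unfold obD at ho
  rw [Bool.and_eq_true, Bool.and_eq_true, Bool.and_eq_true] at ho
  obtain ⟨o0, o1, o2, o3⟩ := ho
  obtain ⟨B, mB, bB, B0⟩ := C.bU_sound hE hg gps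
  have c1 : Mem (3 / 10 : ℝ) (cst 3 10) := mem_nat (by norm_num) (by norm_num)
  have c2 : Mem (167 / 100 : ℝ) (cst 167 100) := mem_nat (by norm_num) (by norm_num)
  refine ⟨c1.le ht o0, bB.trans (mB.le c2 o1), ?_⟩
  intro ρ η h0 hρ e
  have u4 := C.e1t_sound hX hv he o2
  have u5 := C.e1t_sound hX hv he o3
  push_cast at u4 u5
  have hc29 : Real.cos (29 / 100 * Real.pi) ≤ 613 / 1000 := by
    have := tc0.1
    push_cast at this
    linarith
  have ht29 : 1289 / 1000 ≤ Real.tan (29 / 100 * Real.pi) := by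
    have := tc0.2
    push_cast at this
    linarith
  have k := C.e1_sound u4 u5 hρ e (by linarith)
      (cot_of (y0 := 314159 / 1000000) (y1 := 3142 / 10000) (c₁ := 95107 / 100000)
        (s₁ := 3089 / 10000) (by linarith) (by linarith) (by norm_num) (by norm_num)
        (by norm_num) (by norm_num) (by norm_num) (by norm_num) (by norm_num)) h0 hc29 ht29
  norm_num at k ⊢
  linarith

end J6

namespace Zr

variable {ι : Type*} [Finite ι] {a : ι → ℝ} {nl nr : ι → Option ι} {z : ι → ℂ}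

theorem dat_open23 (h : Zr a nl nr 1 z) (h3 : ∀ i, 3 ≤ a i → a i = 3 ∨ 4 ≤ a i) {i j k : ι}
    (hi : a i = 2) (hij : (nl i = some j ∧ nr i = some k) ∨ (nl i = some k ∧ nr i = some j))
    (hj : 3 ≤ a j) (hk : 3 ≤ a k ∨ (a k = 2 ∧ In2 nl nr k)) :
    3 / 10 ≤ Real.tan (th (z i).re (z i).im) ^ 2 ∧ bw (z i) (z j) ≤ 167 / 100 ∧
      (z i).re ≤ 3 / 10 * Real.pi ∧
      ∀ {ρ η : ℝ}, Real.sinh η = Real.tan (th (z i).re (z i).im) * Real.cos ρ →
        29 / 100 * Real.pi ≤ ρ → ρ ≤ 2 / 5 * Real.pi →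
        bw (z i) (z j) * (η + (Real.pi / 2 - ρ) * (Real.tan ρ * Real.tanh η))
          - (bw (z i) (z j) * (Real.pi / 2 - (z i).re) - (qe (z i) (z j)).im)
            * (Real.tan ρ * Real.tanh η)
        ≤ 4 / 3 * (η + (Real.pi / 2 - ρ) * (Real.tan ρ * Real.tanh η)) := by
  have hin : In2 nl nr i := by
    rcases hij with ⟨h1, h2⟩ | ⟨h1, h2⟩
    · exact ⟨_, _, h1, h2⟩
    · exact ⟨_, _, h1, h2⟩
  have hk1 : nl i = some k ∨ nr i = some k := by
    rcases hij with ⟨h1, h2⟩ | ⟨h1, h2⟩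
    · exact Or.inr h2
    · exact Or.inl h1
  have key : 3 / 10 ≤ Real.tan (th (z i).re (z i).im) ^ 2 ∧ bw (z i) (z j) ≤ 167 / 100 ∧
      ∀ {ρ η : ℝ}, Real.sinh η = Real.tan (th (z i).re (z i).im) * Real.cos ρ →
        29 / 100 * Real.pi ≤ ρ → ρ ≤ 2 / 5 * Real.pi →
        bw (z i) (z j) * (η + (Real.pi / 2 - ρ) * (Real.tan ρ * Real.tanh η))
          - (bw (z i) (z j) * (Real.pi / 2 - (z i).re) - (qe (z i) (z j)).im)
            * (Real.tan ρ * Real.tanh η)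
        ≤ 4 / 3 * (η + (Real.pi / 2 - ρ) * (Real.tan ρ * Real.tanh η)) := by
    rcases hk with hk | ⟨hk, hkn⟩
    · obtain ⟨sE, sv, d, n, XN, gN, EN, vN, tN, kN, C, m1, m2, m3, m4, m5, m6, q1, q2, ho⟩ :=
        h.bbx h3 hi hij (tj := true) (tk := true) (st := true) (Or.inl ⟨rfl, hj⟩)
          (Or.inl ⟨rfl, hk⟩) (by simp) (by simp) J6.kD3
      exact C.obD_sound m1 m2 m3 m4 m5 q2 ho
    · obtain ⟨c1, c2, -⟩ := h.adj22 h3 hk hkn hi hin (h.N.symm i k hk1)
      obtain ⟨sE, sv, d, n, XN, gN, EN, vN, tN, kN, C, m1, m2, m3, m4, m5, m6, q1, q2, ho⟩ :=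
        h.bbx h3 hi hij (tj := true) (tk := false) (st := true) (Or.inl ⟨rfl, hj⟩)
          (Or.inr ⟨rfl, hk, hkn⟩) (by simp) (fun _ _ => ⟨c1, c2⟩) J6.kD2
      exact C.obD_sound m1 m2 m3 m4 m5 q2 ho
  exact ⟨key.1, key.2.1, h.two_re_le' h3 hi hij (Or.inl hj), key.2.2⟩

/-- **(E1)** at an inner `2` in the slot towards a vertex `j` with at least three twists, the other
neighbour `k` open (the form of `Cl.e1d_end2`). -/
theorem e1_open23 (h : Zr a nl nr 1 z) (h3 : ∀ i, 3 ≤ a i → a i = 3 ∨ 4 ≤ a i) {i j k : ι}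
    (hi : a i = 2) (hij : (nl i = some j ∧ nr i = some k) ∨ (nl i = some k ∧ nr i = some j))
    (hj : 3 ≤ a j) (hk : 3 ≤ a k ∨ (a k = 2 ∧ In2 nl nr k)) {ρ η : ℝ}
    (r0 : 29 / 100 * Real.pi ≤ ρ) (r1 : ρ ≤ 2 / 5 * Real.pi)
    (hη : Real.sinh η = Real.tan (th (z i).re (z i).im) * Real.cos ρ) :
    bw (z i) (z j) * (η + (Real.pi / 2 - ρ) * (Real.tan ρ * Real.tanh η))
        - (bw (z i) (z j) * (Real.pi / 2 - (z i).re) - (qe (z i) (z j)).im)
          * (Real.tan ρ * Real.tanh η)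
      ≤ 4 / 3 * (η + (Real.pi / 2 - ρ) * (Real.tan ρ * Real.tanh η)) :=
  (h.dat_open23 h3 hi hij hj hk).2.2.2 hη r0 r1

end Zr

end Pool.Agent.S3.E
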