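import Pool.Agent.S3.E.Rng12
import Pool.Agent.S3.E.J2

/-!
# Stage 3, block E: slots in the variables `u = tan² θ`, `v = tan² R`

`basic`: `cos² R (1 + v) = 1`, `sinh² I (1 + v) = u`, `k2 (1 + v) = 1 + u`, `s2 (1 + v) = u + v`,
`sinh² x (1 + u) = v`.  For a slot: `Slot.nrm`, `Slot.re'`, `Slot.im'` with
`Y = sinh I cosh I (1 + v)`, `Y² = u (1 + u + v)`.
-/

set_option autoImplicit false

namespace Pool.Agent.S3.E

open Real

theorem basic {R I : ℝ} (h : 0 < R) (h' : R < π / 2) (hI : 0 < I) :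
    cos R ^ 2 * (1 + tan R ^ 2) = 1 ∧ sinh I ^ 2 * (1 + tan R ^ 2) = tan (th R I) ^ 2 ∧
      k2 R I * (1 + tan R ^ 2) = 1 + tan (th R I) ^ 2 ∧
      s2 R I * (1 + tan R ^ 2) = tan (th R I) ^ 2 + tan R ^ 2 ∧
      sinh (xx R I) ^ 2 * (1 + tan (th R I) ^ 2) = tan R ^ 2 := by
  have hc : 0 < cos R := cos_pos_of_mem_Ioo ⟨by linarith, h'⟩
  have e1 : cos R ^ 2 * (1 + tan R ^ 2) = 1 := by
    rw [tan_eq_sin_div_cos, div_pow]
    field_simp
    rw [cos_sq_add_sin_sq]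
  have e2 := tan_th_sq h h' hI
  have e3 : sinh I ^ 2 * (1 + tan R ^ 2) = tan (th R I) ^ 2 := by
    rw [← e2]
    linear_combination (tan (th R I) ^ 2) * e1
  have e4 : k2 R I = cos R ^ 2 + sinh I ^ 2 := by rw [GeoX_k2, cosh_sq]; ring
  have e5 : s2 R I = sinh I ^ 2 + (1 - cos R ^ 2) := by rw [GeoX_s2, cosh_sq]; ring
  refine ⟨e1, e3, ?_, ?_, ?_⟩
  · rw [e4]; linear_combination e1 + e3
  · rw [e5]; linear_combination e3 - e1
  · have a1 := tan_R_eq h h' hI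
    have a2 := th_pos h h' hI
    have a3 := th_lt h h' hI
    have a4 : 0 < cos (th R I) := cos_pos_of_mem_Ioo ⟨by linarith, a3⟩
    have a5 : cos (th R I) ^ 2 * (1 + tan (th R I) ^ 2) = 1 := by
      rw [tan_eq_sin_div_cos, div_pow]
      field_simp
      rw [cos_sq_add_sin_sq]
    rw [a1, div_pow]
    field_simp
    linear_combination (sinh (xx R I) ^ 2) * a5

theorem basicY {R I : ℝ} (h : 0 < R) (h' : R < π / 2) (hI : 0 < I) :
    0 < sinh I * cosh I * (1 + tan R ^ 2) ∧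
    (sinh I * cosh I * (1 + tan R ^ 2)) ^ 2 =
      tan (th R I) ^ 2 * (1 + tan (th R I) ^ 2 + tan R ^ 2) := by
  obtain ⟨e1, e2, e3, e4, e5⟩ := basic h h' hI
  have c := cosh_sq I
  have s0 : 0 < sinh I := sinh_pos_iff.2 hI
  have c0 := cosh_pos I
  refine ⟨by positivity, ?_⟩
  rw [mul_pow, mul_pow, c]
  linear_combination ((sinh I ^ 2 * (1 + tan R ^ 2)) + tan (th R I) ^ 2 + (1 + tan R ^ 2)) * e2

/-- `|sinh q|²` at a slot. -/
theorem Slot.nrm {R I ρ β p r : ℝ} (hs : Slot R I ρ β p r) (h : 0 < R) (h' : R < π / 2)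
    (hI : 0 < I) : (sinh p ^ 2 + sin r ^ 2) * (1 + tan (th R I) ^ 2) =
      ρ ^ 2 * (tan (th R I) ^ 2 + tan R ^ 2) := by
  obtain ⟨e1, e2, e3, e4, e5⟩ := basic h h' hI
  have k := hs.norm h h'
  rw [← e3, ← e4]
  linear_combination (1 + tan R ^ 2) * k

theorem tt_al {R I : ℝ} (h : 0 < R) (h' : R < π / 2) (hI : 0 < I) :
    tt R I * sin (al R I) * (1 + tan (th R I) ^ 2) = sinh I * cosh I * (1 + tan R ^ 2) ∧
      tt R I * cos (al R I) * (1 + tan (th R I) ^ 2) = tan R := by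
  obtain ⟨e1, e2, e3, e4, e5⟩ := basic h h' hI
  have k := tt_sin_al (I := I) h h'
  have k1 : tt R I * sin (al R I) * (1 + tan (th R I) ^ 2) =
      sinh I * cosh I * (1 + tan R ^ 2) := by
    rw [← e3]
    linear_combination (1 + tan R ^ 2) * k
  refine ⟨k1, ?_⟩
  obtain ⟨y0, y1⟩ := basicY h h' hI
  have a1 := tt_sq (I := I) h h'
  have hk := k2_pos (I := I) h h'
  have a2 : tt R I ^ 2 * (1 + tan (th R I) ^ 2) = tan (th R I) ^ 2 + tan R ^ 2 := by
    rw [a1, ← e3, ← e4]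
    field_simp
  have a3 := al_pos h h' hI
  have a4 := al_lt R I
  have a5 : 0 < cos (al R I) := cos_pos_of_mem_Ioo ⟨by linarith, a4⟩
  have a6 := tt_pos (I := I) h h'
  have a7 : 0 < tan R := tan_pos_of_pos_of_lt_pi_div_two h h'
  have a8 := sin_sq_add_cos_sq (al R I)
  have a9 : (tt R I * cos (al R I) * (1 + tan (th R I) ^ 2)) ^ 2 = tan R ^ 2 := by
    have b1 : (tt R I * sin (al R I) * (1 + tan (th R I) ^ 2)) ^ 2 =
        tan (th R I) ^ 2 * (1 + tan (th R I) ^ 2 + tan R ^ 2) := by rw [k1, y1]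
    linear_combination (tt R I ^ 2 * (1 + tan (th R I) ^ 2) ^ 2) * a8 - b1 +
      (1 + tan (th R I) ^ 2) * a2
  have b2 : 0 < 1 + tan (th R I) ^ 2 := by positivity
  exact (sq_eq_sq₀ (by positivity) a7.le).1 a9

theorem Slot.re' {R I ρ β p r : ℝ} (hs : Slot R I ρ β p r) (h : 0 < R) (h' : R < π / 2)
    (hI : 0 < I) : sinh p * cos r * (1 + tan (th R I) ^ 2) =
      ρ * (cos β * tan R - sin β * (sinh I * cosh I * (1 + tan R ^ 2))) := by
  obtain ⟨k1, k2⟩ := tt_al h h' hI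
  rw [hs.e1, cos_add, ← k1, ← k2]
  ring

theorem Slot.im' {R I ρ β p r : ℝ} (hs : Slot R I ρ β p r) (h : 0 < R) (h' : R < π / 2)
    (hI : 0 < I) : cosh p * sin r * (1 + tan (th R I) ^ 2) =
      ρ * (sin β * tan R + cos β * (sinh I * cosh I * (1 + tan R ^ 2))) := by
  obtain ⟨k1, k2⟩ := tt_al h h' hI
  rw [hs.e2, sin_add, ← k1, ← k2]
  ring

/-- The imaginary part of a slot. -/
theorem Slot.im_ge {R I ρ β p r : ℝ} (hs : Slot R I ρ β p r) (h : 0 < R) (h' : R < π / 2)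
    (hI : 0 < I) : ρ * (sinh I * cosh I * (1 + tan R ^ 2)) ≤
      cosh p * sin r * (1 + tan (th R I) ^ 2) := by
  obtain ⟨k1, k2⟩ := tt_al h h' hI
  rw [hs.e2, ← k1]
  have a3 := al_pos h h' hI
  have a4 : sin (al R I) ≤ sin (al R I + β) :=
    sin_le_sin_of_le_of_le_pi_div_two (by linarith [pi_pos]) hs.g1 (by linarith [hs.β0])
  have a6 := tt_pos (I := I) h h'
  have := hs.ρ0
  have := mul_le_mul_of_nonneg_left a4 (by positivity : 0 ≤ ρ * tt R I * (1 + tan (th R I) ^ 2))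
  linarith

end Pool.Agent.S3.E
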