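import Pool.Agent.S3.E.PbA
import Pool.Agent.S3.LowA

/-!
# Stage 3, block E: lower bounds of the weight of an edge towards an inner vertex with two twists
-/

set_option autoImplicit false

namespace Pool.Agent.S3.E

open Real

theorem sinh_smul_le {b x : ℝ} (hb : 0 ≤ b) (hb1 : b ≤ 1) (hx : 0 ≤ x) :
    sinh (b * x) ≤ b * sinh x := by
  have h := LowA_pos (b := x) (f := fun y => b * sinh y - sinh (b * y))
    (f' := fun y => b * (cosh y - cosh (b * y)))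
    (fun y _ _ => by
      have k1 := (Real.hasDerivAt_sinh y).const_mul b
      have k2 := (Real.hasDerivAt_sinh (b * y)).comp y ((hasDerivAt_id' y).const_mul b)
      refine (k1.sub k2).congr_deriv ?_
      ring)
    (by simp) (fun y hy _ => by
      apply mul_nonneg hb
      have : cosh (b * y) ≤ cosh y := by
        rw [cosh_le_cosh, abs_of_nonneg (mul_nonneg hb hy), abs_of_nonneg hy]
        nlinarith
      linarith) hx le_rfl
  linarith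

/-- A small weight bounds the real part of the slot. -/
theorem Slot.core {R I ρ β p r b ρ₀ c₀ s₀ : ℝ} (hs : Slot R I ρ β p r) (h : 0 < R)
    (h' : R < π / 2) (hI : 0 < I) (hb : 0 ≤ b) (hb1 : b ≤ 1) (hp : p ≤ b * I) (hρ0 : 0 ≤ ρ₀)
    (hρ : ρ₀ ≤ ρ) (hc : c₀ ≤ cos β) (hs0 : sin β ≤ s₀)
    (hpos : 0 ≤ c₀ * tan R - s₀ * (sinh I * cosh I * (1 + tan R ^ 2))) :
    ρ₀ ^ 2 * (c₀ * tan R - s₀ * (sinh I * cosh I * (1 + tan R ^ 2))) ^ 2 ≤
      b ^ 2 * sinh I ^ 2 * ((1 + tan (th R I) ^ 2) ^ 2 -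
        ρ₀ ^ 2 * (tan (th R I) ^ 2 + tan R ^ 2) * (1 + tan (th R I) ^ 2) +
        b ^ 2 * sinh I ^ 2 * (1 + tan (th R I) ^ 2) ^ 2) := by
  have k1 := hs.re' h h' hI
  have k2 := hs.nrm h h' hI
  obtain ⟨y0, y1⟩ := basicY h h' hI
  have tp : 0 < tan R := tan_pos_of_pos_of_lt_pi_div_two h h'
  have s0 : 0 < sinh I := sinh_pos_iff.2 hI
  set u := tan (th R I) ^ 2
  set T := tan R
  set Y := sinh I * cosh I * (1 + T ^ 2)
  have u0 : 0 ≤ u := sq_nonneg _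
  have hp0 := hs.p0
  have a1 : sinh p ≤ b * sinh I := (sinh_le_sinh.2 hp).trans (sinh_smul_le hb hb1 hI.le)
  have a0 : 0 ≤ sinh p := sinh_nonneg_iff.2 hp0
  have a2 : c₀ * T - s₀ * Y ≤ cos β * T - sin β * Y := by
    have := mul_le_mul_of_nonneg_right hc tp.le
    have := mul_le_mul_of_nonneg_right hs0 y0.le
    linarith
  have a3 : ρ₀ * (c₀ * T - s₀ * Y) ≤ sinh p * cos r * (1 + u) := by
    rw [k1]
    exact mul_le_mul hρ a2 hpos (hρ0.trans hρ)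
  have a4 : ρ₀ ^ 2 * (c₀ * T - s₀ * Y) ^ 2 ≤ (sinh p * cos r * (1 + u)) ^ 2 := by
    rw [← mul_pow]
    exact pow_le_pow_left₀ (mul_nonneg hρ0 hpos) a3 2
  have a5 : sinh p ^ 2 ≤ b ^ 2 * sinh I ^ 2 := by
    rw [← mul_pow]
    exact pow_le_pow_left₀ a0 a1 2
  have a6 : (cos r * (1 + u)) ^ 2 = (1 + u) ^ 2 - ρ ^ 2 * (u + T ^ 2) * (1 + u) +
      sinh p ^ 2 * (1 + u) ^ 2 := by
    have := sin_sq_add_cos_sq r
    linear_combination (1 + u) ^ 2 * this - (1 + u) * k2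
  have a7 : (cos r * (1 + u)) ^ 2 ≤ (1 + u) ^ 2 - ρ₀ ^ 2 * (u + T ^ 2) * (1 + u) +
      b ^ 2 * sinh I ^ 2 * (1 + u) ^ 2 := by
    rw [a6]
    have b1 : ρ₀ ^ 2 ≤ ρ ^ 2 := pow_le_pow_left₀ hρ0 hρ 2
    have b2 : ρ₀ ^ 2 * ((u + T ^ 2) * (1 + u)) ≤ ρ ^ 2 * ((u + T ^ 2) * (1 + u)) :=
      mul_le_mul_of_nonneg_right b1 (by positivity)
    have b3 := mul_le_mul_of_nonneg_right a5 (sq_nonneg (1 + u))
    linarith
  calc ρ₀ ^ 2 * (c₀ * T - s₀ * Y) ^ 2 ≤ (sinh p * cos r * (1 + u)) ^ 2 := a4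
    _ = sinh p ^ 2 * (cos r * (1 + u)) ^ 2 := by ring
    _ ≤ _ := mul_le_mul a5 a7 (sq_nonneg _) (by positivity)

theorem cos_sin_35 : (8253 / 10000 : ℝ) ≤ cos (3 / 5) ∧ sin (3 / 5) ≤ (5648 / 10000 : ℝ) := by
  have h1 : (3 : ℝ) / 5 = 2 * (3 / 10) := by norm_num
  have h2 := Real.cos_sq_add_sin_sq (3 / 10)
  have s1 := Real.sin_gt_sub_cube (x := 3 / 10) (by norm_num)
  have s2 : sin (3 / 10 : ℝ) ≤ 29553 / 100000 := by
    have h := Real.sin_bound (x := 3 / 10) (by rw [abs_of_pos (by norm_num)]; norm_num)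
    rw [abs_of_pos (by norm_num : (0 : ℝ) < 3 / 10)] at h
    have := (abs_le.1 h).2
    norm_num at this
    linarith
  have s3 : 0 ≤ sin (3 / 10 : ℝ) := by norm_num at s1; linarith
  have c1 : cos (3 / 10 : ℝ) ^ 2 = 1 - sin (3 / 10) ^ 2 := by linarith
  constructor
  · rw [h1, cos_two_mul, c1]
    have := pow_le_pow_left₀ s3 s2 2
    norm_num at this
    linarith
  · rw [h1, sin_two_mul]
    have c0 : 0 ≤ cos (3 / 10 : ℝ) := cos_nonneg_of_mem_Icc ⟨by linarith [pi_gt_three], by linarith [pi_gt_three]⟩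
    apply le_of_sq_le_sq _ (by norm_num)
    rw [mul_pow, mul_pow, c1]
    have t1 : sin (3 / 10 : ℝ) ^ 2 ≤ (29553 / 100000) ^ 2 := pow_le_pow_left₀ s3 s2 2
    nlinarith [sq_nonneg (sin (3 / 10 : ℝ))]

theorem cos_sin_35' {β : ℝ} (h0 : 0 ≤ β) (h : β ≤ 3 / 5) :
    8253 / 10000 ≤ cos β ∧ sin β ≤ 5648 / 10000 :=
  ⟨cos_sin_35.1.trans (cos_le_cos_of_nonneg_of_le_pi h0 (by linarith [pi_gt_three]) h),
    (sin_le_sin_of_le_of_le_pi_div_two (by linarith [pi_gt_three]) (by linarith [pi_gt_three]) h).trans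
      cos_sin_35.2⟩

end Pool.Agent.S3.E
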