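import Pool.Agent.S3.E.PbA
import Pool.Agent.S3.Es15

/-!
# Stage 3, block E: `13/20 ≤ b` at a vertex with three twists next to an inner vertex with two
-/

set_option autoImplicit false

namespace Pool.Agent.S3.E

open Real

/-- A lower bound of `sinh (47 x / 20)`. -/
theorem sinh_ge_47 {x k : ℝ} (hx : 0 ≤ x) (h1 : sinh x ^ 2 ≤ 37 / 100)
    (hk1 : (2 * k + k ^ 2 * sinh x ^ 2) ≤ 1) :
    sinh x * (47 / 20 + (2 * k + 16 / 25 - 12 / 100 * sinh x ^ 2) * sinh x ^ 2) ≤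
      sinh (47 / 20 * x) := by
  have s0 : 0 ≤ sinh x := sinh_nonneg_iff.2 hx
  have c := cosh_sq x
  have c0 := cosh_pos x
  have k1 := arsh_three hx (h1.trans (by norm_num))
  have e : sinh (47 / 20 * x) = sinh (2 * x) * cosh (7 / 20 * x) + cosh (2 * x) * sinh (7 / 20 * x) := by
    rw [← sinh_add]; congr 1; ring
  have a1 : 1 ≤ cosh (7 / 20 * x) := one_le_cosh _
  have a2 : 7 / 20 * x ≤ sinh (7 / 20 * x) := self_le_sinh_iff.2 (by positivity)
  have a3 : sinh (2 * x) = 2 * sinh x * cosh x := sinh_two_mul x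
  have a4 : cosh (2 * x) = 1 + 2 * sinh x ^ 2 := by rw [cosh_two_mul, c]; ring
  have a5 : 1 + k * sinh x ^ 2 ≤ cosh x := by
    apply le_of_sq_le_sq _ c0.le
    rw [c]
    have : 0 ≤ sinh x ^ 2 := sq_nonneg _
    nlinarith [mul_le_mul_of_nonneg_left hk1 this]
  have a6 : 2 * sinh x * (1 + k * sinh x ^ 2) ≤ sinh (2 * x) * cosh (7 / 20 * x) := by
    have b1 : 2 * sinh x * (1 + k * sinh x ^ 2) ≤ sinh (2 * x) := by
      rw [a3]; exact mul_le_mul_of_nonneg_left a5 (by positivity)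
    have b2 : 0 ≤ sinh (2 * x) := by rw [a3]; positivity
    exact b1.trans (le_mul_of_one_le_right b2 a1)
  have a7 : (1 + 2 * sinh x ^ 2) * (7 / 20 * (sinh x - sinh x ^ 3 / 6)) ≤
      cosh (2 * x) * sinh (7 / 20 * x) := by
    rw [a4]
    exact mul_le_mul_of_nonneg_left (by linarith) (by positivity)
  rw [e]
  have : 0 ≤ sinh x ^ 3 := by positivity
  have : 0 ≤ sinh x ^ 5 := by positivity
  nlinarith

/-- Case A: `X ≤ 47/20 I`. -/
theorem xx_le_47 {R I : ℝ} (h : 0 < R) (h' : R < π / 2) (hI : 0 < I)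
    (hu : tan (th R I) ^ 2 ≤ 37 / 100) (hv : tan R ^ 2 ≤ 19 / 5 * tan (th R I) ^ 2) :
    xx R I ≤ 47 / 20 * I := by
  obtain ⟨-, e2, -, -, e5⟩ := basic h h' hI
  have s0 : 0 < sinh I := sinh_pos_iff.2 hI
  have hx := xx_pos h h' hI
  have sx : 0 < sinh (xx R I) := sinh_pos_iff.2 hx
  have v0 : 0 < tan R ^ 2 := pow_pos (tan_pos_of_pos_of_lt_pi_div_two h h') 2
  rw [← sinh_le_sinh]
  obtain ⟨w, hw⟩ : ∃ w, w = sinh I ^ 2 := ⟨_, rfl⟩
  obtain ⟨u, hu'⟩ : ∃ u, u = tan (th R I) ^ 2 := ⟨_, rfl⟩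
  obtain ⟨v, hv'⟩ : ∃ v, v = tan R ^ 2 := ⟨_, rfl⟩
  rw [← hw, ← hu', ← hv'] at e2
  rw [← hu', ← hv'] at e5 hv
  rw [← hu'] at hu
  rw [← hv'] at v0
  have w0 : 0 < w := by rw [hw]; positivity
  have u0 : 0 < u := by rw [← e2]; positivity
  have w1 : w ≤ 37 / 100 := by nlinarith
  -- `v ≤ (1 + u) w q`
  have fin : ∀ q : ℝ, 0 ≤ q → sinh I * q ≤ sinh (47 / 20 * I) → v ≤ (1 + u) * (w * q ^ 2) →
      sinh (xx R I) ≤ sinh (47 / 20 * I) := by
    intro q q0 h1 h2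
    refine le_trans ?_ h1
    apply le_of_sq_le_sq _ (by positivity)
    rw [mul_pow, ← hw]
    have : sinh (xx R I) ^ 2 * (1 + u) ≤ w * q ^ 2 * (1 + u) := by rw [e5]; linarith
    exact le_of_mul_le_mul_right this (by positivity)
  rcases le_total w (17 / 100) with hA | hA
  · have k := sinh_ge_47 (k := 12 / 25) hI.le (by rw [← hw]; exact w1)
      (by rw [← hw]; nlinarith)
    rw [← hw] at k
    have k' : sinh I * (47 / 20 + 157 / 100 * w) ≤ sinh (47 / 20 * I) := by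
      refine le_trans (mul_le_mul_of_nonneg_left ?_ s0.le) k
      nlinarith
    refine fin _ (by positivity) k' ?_
    rcases le_total w (1537 / 10000) with hB | hB
    · -- `v (1 - 3.8 w) ≤ 3.8 w`
      have b1 : v * (1 - 19 / 5 * w) ≤ 19 / 5 * w := by nlinarith
      have b2 : 0 < 1 - 19 / 5 * w := by linarith
      have b3 : 19 / 5 ≤ (47 / 20 + 157 / 100 * w) ^ 2 * (1 - 14 / 5 * w) := by
        nlinarith [mul_nonneg w0.le (sub_nonneg.2 hB),
          mul_nonneg (mul_nonneg w0.le w0.le) (sub_nonneg.2 hB)]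
      have b4 : 0 ≤ 1 - w * (w * (47 / 20 + 157 / 100 * w) ^ 2) := by nlinarith
      have b5 : v * (1 - 19 / 5 * w) * (1 - w * (w * (47 / 20 + 157 / 100 * w) ^ 2)) ≤
          19 / 5 * w * (1 - w * (w * (47 / 20 + 157 / 100 * w) ^ 2)) :=
        mul_le_mul_of_nonneg_right b1 b4
      have b6 : w * (19 / 5) ≤ w * ((47 / 20 + 157 / 100 * w) ^ 2 * (1 - 14 / 5 * w)) :=
        mul_le_mul_of_nonneg_left b3 w0.le
      have b7 : v * (1 - w * (w * (47 / 20 + 157 / 100 * w) ^ 2)) ≤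
          (1 + w) * (w * (47 / 20 + 157 / 100 * w) ^ 2) := by
        refine le_of_mul_le_mul_right (a := 1 - 19 / 5 * w) ?_ b2
        nlinarith
      rw [← e2]
      nlinarith
    · have b1 : v ≤ 14075 / 10000 := by nlinarith
      have b2 : (25913 / 10000) ^ 2 ≤ (47 / 20 + 157 / 100 * w) ^ 2 :=
        pow_le_pow_left₀ (by norm_num) (by linarith) 2
      have b3 : 1032 / 1000 ≤ w * (47 / 20 + 157 / 100 * w) ^ 2 := by nlinarith
      have b4 : (1 + u) * (1032 / 1000) ≤ (1 + u) * (w * (47 / 20 + 157 / 100 * w) ^ 2) :=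
        mul_le_mul_of_nonneg_left b3 (by positivity)
      have b5 : 1537 / 10000 * (1 + v) ≤ u := by rw [← e2]; nlinarith
      nlinarith
  · have k := sinh_ge_47 (k := 9 / 20) hI.le (by rw [← hw]; exact w1)
      (by rw [← hw]; nlinarith)
    rw [← hw] at k
    have k' : sinh I * (13 / 5) ≤ sinh (47 / 20 * I) := by
      refine le_trans (mul_le_mul_of_nonneg_left ?_ s0.le) k
      nlinarith
    refine fin _ (by norm_num) k' ?_
    have b1 : v ≤ 12 / 10 := by nlinarith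
    nlinarith

end Pool.Agent.S3.E
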