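import Pool.Agent.S3.E.PbB
import Pool.Agent.S3.E.PbC

/-!
# Stage 3, block E: lower bounds of the weight of an edge towards an inner vertex with two twists
-/

set_option autoImplicit false

namespace Pool.Agent.S3.E

open Real

private theorem poly1 {v : ℝ} (h0 : 0 ≤ v) (h1 : v ≤ 141 / 100) :
    5 / 19 * (1 + 5 / 19 * v) * ((1 + v) * (1 - 169 / 400 * v) +
      5 / 19 * v * (231 / 400 * (1 + v) + 169 / 400) + 169 / 400 * (5 / 19 * v) ^ 2) <
      (5239 / 10000 - 1381 / 10000 * v) ^ 2 * (1 + v) ^ 2 := by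
  have h2 : 0 ≤ 141 / 100 - v := by linarith
  have h3 : 0 ≤ v * (141 / 100 - v) := mul_nonneg h0 h2
  have h4 : 0 ≤ v * v * (141 / 100 - v) := mul_nonneg (mul_nonneg h0 h0) h2
  have k : 0 ≤ 1137 / 10000 + 94 / 10000 * v - 8986 / 100000 * v ^ 2 + 1907 / 100000 * v ^ 3 := by
    nlinarith [mul_nonneg h2 h2, mul_nonneg h3 h2]
  have k2 := mul_nonneg h0 k
  nlinarith

private theorem poly2 {v : ℝ} (h0 : 1406 / 1000 ≤ v) (h1 : v ≤ 2) :
    37 / 100 * (1 + 37 / 100) * ((1 + v) * (1 - 169 / 400 * v) +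
      37 / 100 * (231 / 400 * (1 + v) + 169 / 400) + 169 / 400 * (37 / 100) ^ 2) <
      v * ((5239 / 10000 - 1381 / 10000 * v) ^ 2 * (1 + v) ^ 2) := by
  have h2 : 0 ≤ 2 - v := by linarith
  have h3 : 0 ≤ v - 1406 / 1000 := by linarith
  have k0 : 0 ≤ (v - 1406 / 1000) * (2 - v) := mul_nonneg h3 h2
  rcases le_total v (16 / 10) with h | h
  · have k1 : (787 / 1000) ^ 2 ≤ ((5239 / 10000 - 1381 / 10000 * v) * (1 + v)) ^ 2 := by
      apply pow_le_pow_left₀ (by norm_num)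
      nlinarith
    have k2 : 1406 / 1000 * (787 / 1000) ^ 2 ≤
        v * ((5239 / 10000 - 1381 / 10000 * v) * (1 + v)) ^ 2 :=
      mul_le_mul h0 k1 (by positivity) (by linarith)
    nlinarith
  · have k1 : (743 / 1000) ^ 2 ≤ ((5239 / 10000 - 1381 / 10000 * v) * (1 + v)) ^ 2 := by
      apply pow_le_pow_left₀ (by norm_num)
      nlinarith
    have k2 : 16 / 10 * (743 / 1000) ^ 2 ≤
        v * ((5239 / 10000 - 1381 / 10000 * v) * (1 + v)) ^ 2 :=
      mul_le_mul h k1 (by positivity) (by linarith)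
    nlinarith

private theorem Fmono {u u₁ v : ℝ} (h0 : 0 ≤ u) (h : u ≤ u₁) (hv : 0 ≤ v) (hv2 : v ≤ 2) :
    u * ((1 + u) ^ 2 * (1 + v) - 169 / 400 * (u + v) * (1 + u) * (1 + v) +
      169 / 400 * u * (1 + u) ^ 2) ≤
    u₁ * (1 + u₁) * ((1 + v) * (1 - 169 / 400 * v) +
      u₁ * (231 / 400 * (1 + v) + 169 / 400) + 169 / 400 * u₁ ^ 2) := by
  have e : u * ((1 + u) ^ 2 * (1 + v) - 169 / 400 * (u + v) * (1 + u) * (1 + v) +
      169 / 400 * u * (1 + u) ^ 2) = u * (1 + u) * ((1 + v) * (1 - 169 / 400 * v) +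
      u * (231 / 400 * (1 + v) + 169 / 400) + 169 / 400 * u ^ 2) := by ring
  rw [e]
  have u1 : 0 ≤ u₁ := h0.trans h
  have a0 : 0 ≤ 1 - 169 / 400 * v := by linarith
  have a1 : u * (1 + u) ≤ u₁ * (1 + u₁) := mul_le_mul h (by linarith) (by linarith) u1
  have a2 : u * (231 / 400 * (1 + v) + 169 / 400) ≤ u₁ * (231 / 400 * (1 + v) + 169 / 400) :=
    mul_le_mul_of_nonneg_right h (by positivity)
  have a3 : u ^ 2 ≤ u₁ ^ 2 := pow_le_pow_left₀ h0 h 2
  refine mul_le_mul a1 (by linarith) ?_ (by positivity)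
  have : 0 ≤ (1 + v) * (1 - 169 / 400 * v) := mul_nonneg (by linarith) a0
  have : 0 ≤ u * (231 / 400 * (1 + v) + 169 / 400) := mul_nonneg h0 (by positivity)
  positivity

/-- **The weight of an edge towards an inner vertex with two twists**, at a vertex with three. -/
theorem Vx.b_low3 {R I ρ₁ β₁ p₁ r₁ ρ₂ β₂ p₂ r₂ : ℝ} (h : Vx 3 R I ρ₁ β₁ p₁ r₁ ρ₂ β₂ p₂ r₂)
    (h1 : 13 / 20 ≤ ρ₁) (hb : β₁ ≤ 3 / 5) (h2 : ρ₂ ≤ 1) (hu : tan (th R I) ^ 2 ≤ 37 / 100)
    (hv : tan R ^ 2 ≤ 2) : 13 / 20 * I ≤ p₁ := by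
  obtain ⟨e1, e2, -, -, -⟩ := basic h.R0 h.R1 h.I0
  obtain ⟨y0, y1⟩ := basicY h.R0 h.R1 h.I0
  rcases le_total (tan R ^ 2) (19 / 5 * tan (th R I) ^ 2) with hA | hA
  · have k := xx_le_47 h.R0 h.R1 h.I0 hu hA
    have k2 := h.sl₂.le_xx h.R0 h.R1 h.I0 h2
    have k3 := h.hI
    linarith
  · by_contra hc
    push Not at hc
    have tp : 0 < tan R := tan_pos_of_pos_of_lt_pi_div_two h.R0 h.R1
    obtain ⟨c1, c2⟩ := cos_sin_35' h.sl₁.β0 hb
    obtain ⟨u, hu'⟩ : ∃ u, u = tan (th R I) ^ 2 := ⟨_, rfl⟩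
    obtain ⟨v, hv'⟩ : ∃ v, v = tan R ^ 2 := ⟨_, rfl⟩
    obtain ⟨T, hT⟩ : ∃ T, T = tan R := ⟨_, rfl⟩
    obtain ⟨Y, hY⟩ : ∃ Y, Y = sinh I * cosh I * (1 + tan R ^ 2) := ⟨_, rfl⟩
    have v0 : 0 < v := by rw [hv']; positivity
    have u0 : 0 ≤ u := by rw [hu']; positivity
    have hu1 : u ≤ 5 / 19 * v := by rw [hu', hv']; linarith
    rw [← hY, ← hu', ← hv'] at y1
    rw [← hY] at y0
    -- `Y ≤ T q`
    have q1 : Y ≤ T * (5336 / 10000 + 2444 / 10000 * v) := by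
      apply le_of_sq_le_sq _ (by rw [hT]; positivity)
      rw [y1, mul_pow, show T ^ 2 = v by rw [hT, hv']]
      have b1 : u * (1 + u + v) ≤ 5 / 19 * v * (1 + 5 / 19 * v + v) :=
        mul_le_mul hu1 (by linarith) (by positivity) (by positivity)
      have b2 : 5 / 19 * (1 + 5 / 19 * v + v) ≤ (5336 / 10000 + 2444 / 10000 * v) ^ 2 := by
        nlinarith [sq_nonneg (v - 3 / 5)]
      have b3 := mul_le_mul_of_nonneg_left b2 v0.le
      linarith
    have q2 : T * (5239 / 10000 - 1381 / 10000 * v) ≤ 8253 / 10000 * T - 5648 / 10000 * Y := by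
      have : 0 < T := by rw [hT]; exact tp
      nlinarith [mul_pos this v0]
    have hv2 : v ≤ 2 := by rw [hv']; exact hv
    have q3 : 0 ≤ T * (5239 / 10000 - 1381 / 10000 * v) :=
      mul_nonneg (by rw [hT]; exact tp.le) (by linarith)
    have key := h.sl₁.core h.R0 h.R1 h.I0 (b := 13 / 20) (ρ₀ := 13 / 20) (by norm_num)
      (by norm_num) hc.le (by norm_num) h1 c1 c2 (by rw [← hY, ← hT]; exact q3.trans q2)
    rw [← hY, ← hT, ← hu', show T ^ 2 = v by rw [hT, hv']] at key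
    have q4 : (T * (5239 / 10000 - 1381 / 10000 * v)) ^ 2 ≤
        (8253 / 10000 * T - 5648 / 10000 * Y) ^ 2 := pow_le_pow_left₀ q3 q2 2
    rw [mul_pow, show T ^ 2 = v by rw [hT, hv']] at q4
    obtain ⟨w, hw⟩ : ∃ w, w = sinh I ^ 2 := ⟨_, rfl⟩
    rw [← hw, ← hu', ← hv'] at e2
    rw [← hw] at key
    -- the inequality, multiplied by `(1 + v)²`
    have k1 : v * ((5239 / 10000 - 1381 / 10000 * v) ^ 2 * (1 + v) ^ 2) ≤
        u * ((1 + u) ^ 2 * (1 + v) - 169 / 400 * (u + v) * (1 + u) * (1 + v) +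
          169 / 400 * u * (1 + u) ^ 2) := by
      have c1 : v * (5239 / 10000 - 1381 / 10000 * v) ^ 2 ≤ w * ((1 + u) ^ 2 -
          169 / 400 * (u + v) * (1 + u) + 169 / 400 * w * (1 + u) ^ 2) := by nlinarith
      have c2 := mul_le_mul_of_nonneg_right c1 (sq_nonneg (1 + v))
      have c3 : w * ((1 + u) ^ 2 - 169 / 400 * (u + v) * (1 + u) +
          169 / 400 * w * (1 + u) ^ 2) * (1 + v) ^ 2 =
          (w * (1 + v)) * ((1 + u) ^ 2 * (1 + v) - 169 / 400 * (u + v) * (1 + u) * (1 + v) +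
          169 / 400 * (w * (1 + v)) * (1 + u) ^ 2) := by ring
      rw [c3, e2] at c2
      linarith
    rcases le_total v (141 / 100) with hB | hB
    · have k2 := Fmono u0 hu1 v0.le hv2
      have k3 := mul_lt_mul_of_pos_left (poly1 v0.le hB) v0
      nlinarith
    · have k2 := Fmono u0 (hu'.symm ▸ hu : u ≤ 37 / 100) v0.le hv2
      have k3 := poly2 (by linarith : 1406 / 1000 ≤ v) hv2
      linarith

end Pool.Agent.S3.E
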