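import Pool.Agent.S3.E.PbB
import Pool.Agent.S3.Es15

/-!
# Stage 3, block E: tools for the loss at a vertex with three twists or more
-/

set_option autoImplicit false

namespace Pool.Agent.S3.E

open Real

/-- The loss from bounds of `P` and `b`. -/
theorem loss_le' {τ b P Y S L : ℝ} (hτ : 0 < τ) (h1 : τ ^ 2 ≤ 1) (hb : 0 < b)
    (hS : sJ τ T13 ≤ S) (hY : 0 ≤ Y) (y1 : P + 81 / 10000 * b ≤ Y)
    (y2 : -Y ≤ P + (77 / 10000 - 1205 / 10000 * τ ^ 2) * b)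
    (h : 15916 / 100000 * (S * Y ^ 2) ≤ L * b) : lossJ τ b P T13 ≤ L := by
  obtain ⟨a1, a2⟩ := Dev_bounds hτ h1 (le_refl (P / b)) (le_refl (P / b))
  have hpi := Real.pi_pos
  have s0 := sJ_pos hτ T13_pos T13_lt
  have e : b * Dev τ b P = P + (Dev τ b P - P / b) * b := by field_simp; ring
  have d1 : -Y ≤ b * Dev τ b P := by
    rw [e]
    have := mul_le_mul_of_nonneg_right (by linarith :
      77 / 10000 - 1205 / 10000 * τ ^ 2 ≤ Dev τ b P - P / b) hb.le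
    linarith
  have d2 : b * Dev τ b P ≤ Y := by
    rw [e]
    have := mul_le_mul_of_nonneg_right (by nlinarith [sq_nonneg τ] :
      Dev τ b P - P / b ≤ 81 / 10000) hb.le
    linarith
  have d3 : (b * Dev τ b P) ^ 2 ≤ Y ^ 2 := sq_le_sq' d1 d2
  have p : 1 / (2 * Real.pi) ≤ 15916 / 100000 := by
    rw [div_le_iff₀ (by positivity)]
    have := Real.pi_gt_d4
    linarith
  rw [lossJ_eq]
  refine le_of_mul_le_mul_right ?_ hb
  calc b * sJ τ T13 / (2 * Real.pi) * Dev τ b P ^ 2 * b =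
      1 / (2 * Real.pi) * (sJ τ T13 * (b * Dev τ b P) ^ 2) := by ring
    _ ≤ 15916 / 100000 * (S * Y ^ 2) :=
        mul_le_mul p (mul_le_mul hS d3 (sq_nonneg _) (s0.le.trans hS)) (by positivity)
          (by norm_num)
    _ ≤ L * b := h

section

variable {a R I ρ₁ β₁ p₁ r₁ ρ₂ β₂ p₂ r₂ : ℝ}

/-- The numbers `b`, `P` at a vertex. -/
theorem Vx.bP (h : Vx a R I ρ₁ β₁ p₁ r₁ ρ₂ β₂ p₂ r₂) :
    p₁ / I * I = p₁ ∧ (a - p₁ / I) * I = p₂ ∧ 0 ≤ p₁ / I ∧ p₁ / I ≤ a ∧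
      π / 2 - r₁ - p₁ / I * R = -(π / 2 - r₂ - (a - p₁ / I) * R) := by
  have hI := h.I0
  have e1 := h.hI
  have e2 := h.hR
  have k1 : p₁ / I * I = p₁ := div_mul_cancel₀ _ hI.ne'
  refine ⟨k1, by rw [sub_mul, k1]; linarith, div_nonneg h.sl₁.p0 hI.le, ?_, by linarith⟩
  rw [div_le_iff₀ hI]
  linarith [h.sl₂.p0]

/-- **The exact relation** between the moduli of the two slots. -/
theorem Vx.relA5 (h : Vx a R I ρ₁ β₁ p₁ r₁ ρ₂ β₂ p₂ r₂) :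
    (sin (a * R) * sin (r₂ - r₁) + sinh (a * I) * sinh (p₂ - p₁)) * (1 + tan (th R I) ^ 2) =
      (ρ₂ ^ 2 - ρ₁ ^ 2) * (tan (th R I) ^ 2 + tan R ^ 2) := by
  have k1 := h.sl₁.nrm h.R0 h.R1 h.I0
  have k2 := h.sl₂.nrm h.R0 h.R1 h.I0
  have e1 : sinh (a * I) * sinh (p₂ - p₁) = sinh p₂ ^ 2 - sinh p₁ ^ 2 := by
    rw [h.hI, sinh_add, sinh_sub]
    have c1 := cosh_sq p₁
    have c2 := cosh_sq p₂
    linear_combination (sinh p₂ ^ 2) * c1 - (sinh p₁ ^ 2) * c2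
  have e2 : sin (a * R) * sin (r₂ - r₁) = sin r₂ ^ 2 - sin r₁ ^ 2 := by
    have : a * R = π - (r₂ + r₁) := by linarith [h.hR]
    rw [this, sin_pi_sub, sin_add, sin_sub]
    have c1 := sin_sq_add_cos_sq r₁
    have c2 := sin_sq_add_cos_sq r₂
    linear_combination (sin r₂ ^ 2) * c1 - (sin r₁ ^ 2) * c2
  rw [e1, e2]
  linear_combination k2 - k1

/-- The symmetric bound (`a = 3`). -/
theorem Vx.relS (h : Vx 3 R I ρ₁ β₁ p₁ r₁ ρ₂ β₂ p₂ r₂) (h1 : ρ₁ ≤ 1) (h2 : ρ₂ ≤ 1) {m : ℝ}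
    (hm : m ≤ cos (3 * R)) (hm0 : m ≤ 0) :
    (1 + m + 9 / 2 * sinh I ^ 2) * (1 + tan (th R I) ^ 2) ≤
      2 * (tan (th R I) ^ 2 + tan R ^ 2) := by
  have k1 := h.sl₁.nrm h.R0 h.R1 h.I0
  have k2 := h.sl₂.nrm h.R0 h.R1 h.I0
  have hpi := pi_pos
  have u0 : 0 ≤ tan (th R I) ^ 2 := sq_nonneg _
  have v0 : 0 ≤ tan R ^ 2 := sq_nonneg _
  have f1 : ρ₁ ^ 2 ≤ 1 := by nlinarith [h.sl₁.ρ0]
  have f2 : ρ₂ ^ 2 ≤ 1 := by nlinarith [h.sl₂.ρ0]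
  -- the sines
  have g1 : 1 + m ≤ sin r₁ ^ 2 + sin r₂ ^ 2 := by
    have e1 : sin r₁ ^ 2 + sin r₂ ^ 2 = 1 - cos (r₁ + r₂) * cos (r₁ - r₂) := by
      rw [cos_add, cos_sub]
      have c1 := sin_sq_add_cos_sq r₁
      have c2 := sin_sq_add_cos_sq r₂
      linear_combination (cos r₂ ^ 2) * c1 + (1 - sin r₁ ^ 2) * c2
    have e2 : cos (r₁ + r₂) = -cos (3 * R) := by
      have : r₁ + r₂ = π - 3 * R := by linarith [h.hR]
      rw [this, cos_pi_sub]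
    have e3 : 0 ≤ cos (r₁ - r₂) :=
      cos_nonneg_of_mem_Icc ⟨by linarith [h.sl₁.r0, h.sl₂.r1], by linarith [h.sl₁.r1, h.sl₂.r0]⟩
    have e4 : cos (r₁ - r₂) ≤ 1 := cos_le_one _
    rw [e1, e2]
    nlinarith
  -- the hyperbolic sines
  have g2 : 9 / 2 * sinh I ^ 2 ≤ sinh p₁ ^ 2 + sinh p₂ ^ 2 := by
    have e1 : sinh p₁ ^ 2 + sinh p₂ ^ 2 = cosh (p₁ + p₂) * cosh (p₁ - p₂) - 1 := by
      rw [cosh_add, cosh_sub]
      have c1 := cosh_sq p₁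
      have c2 := cosh_sq p₂
      linear_combination -(cosh p₂ ^ 2) * c1 - (1 + sinh p₁ ^ 2) * c2
    have e2 : p₁ + p₂ = 3 * I := h.hI.symm
    have e3 := one_le_cosh (p₁ - p₂)
    have e4 : cosh (3 * I) = 1 + 2 * sinh (3 / 2 * I) ^ 2 := by
      rw [show 3 * I = 2 * (3 / 2 * I) by ring, cosh_two_mul, cosh_sq]
      ring
    have e5 : 3 / 2 * sinh I ≤ sinh (3 / 2 * I) := by
      have := sinh_smul_le (b := 2 / 3) (x := 3 / 2 * I) (by norm_num) (by norm_num)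
        (by linarith [h.I0])
      rw [show (2 : ℝ) / 3 * (3 / 2 * I) = I by ring] at this
      linarith
    have e6 : 0 < sinh I := sinh_pos_iff.2 h.I0
    have e7 := pow_le_pow_left₀ (by positivity) e5 2
    have e8 := cosh_pos (3 * I)
    rw [e1, e2]
    nlinarith
  have g3 : (sinh p₁ ^ 2 + sin r₁ ^ 2) * (1 + tan (th R I) ^ 2) +
      (sinh p₂ ^ 2 + sin r₂ ^ 2) * (1 + tan (th R I) ^ 2) ≤
      2 * (tan (th R I) ^ 2 + tan R ^ 2) := by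
    rw [k1, k2]
    nlinarith
  have g4 : (1 + m + 9 / 2 * sinh I ^ 2) * (1 + tan (th R I) ^ 2) ≤
      (sin r₁ ^ 2 + sin r₂ ^ 2 + (sinh p₁ ^ 2 + sinh p₂ ^ 2)) * (1 + tan (th R I) ^ 2) :=
    mul_le_mul_of_nonneg_right (by linarith) (by positivity)
  linarith

end

end Pool.Agent.S3.E
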