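import Pool.Agent.S3.E.PbF

/-!
# Stage 3, block E: tools at a vertex with three twists (ranges of `R`, lower bounds of `im q`)
-/

set_option autoImplicit false

namespace Pool.Agent.S3.E

open Real

/-- A lower bound of the imaginary part of a slot from the modulus. -/
theorem Slot.sin_ge {R I ρ β p r b ρ₀ s : ℝ} (hs : Slot R I ρ β p r) (h : 0 < R)
    (h' : R < π / 2) (hI : 0 < I) (hb : 0 ≤ b) (hb1 : b ≤ 1) (hp : p ≤ b * I) (hρ0 : 0 ≤ ρ₀)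
    (hρ : ρ₀ ≤ ρ) (hk : (s ^ 2 + b ^ 2 * sinh I ^ 2) * (1 + tan (th R I) ^ 2) ≤
      ρ₀ ^ 2 * (tan (th R I) ^ 2 + tan R ^ 2)) : s ≤ r := by
  have k := hs.nrm h h' hI
  have u0 : 0 ≤ tan (th R I) ^ 2 := sq_nonneg _
  have v0 : 0 ≤ tan R ^ 2 := sq_nonneg _
  have a0 : 0 ≤ sinh p := sinh_nonneg_iff.2 hs.p0
  have a1 : sinh p ≤ b * sinh I := (sinh_le_sinh.2 hp).trans (sinh_smul_le hb hb1 hI.le)
  have a2 : sinh p ^ 2 ≤ b ^ 2 * sinh I ^ 2 := by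
    rw [← mul_pow]
    exact pow_le_pow_left₀ a0 a1 2
  have a3 : ρ₀ ^ 2 ≤ ρ ^ 2 := pow_le_pow_left₀ hρ0 hρ 2
  have a4 : ρ₀ ^ 2 * (tan (th R I) ^ 2 + tan R ^ 2) ≤ ρ ^ 2 * (tan (th R I) ^ 2 + tan R ^ 2) :=
    mul_le_mul_of_nonneg_right a3 (by positivity)
  have a5 : s ^ 2 ≤ sin r ^ 2 := by
    by_contra hc
    push Not at hc
    have : (sinh p ^ 2 + sin r ^ 2) * (1 + tan (th R I) ^ 2) <
        (s ^ 2 + b ^ 2 * sinh I ^ 2) * (1 + tan (th R I) ^ 2) :=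
      mul_lt_mul_of_pos_right (by linarith) (by positivity)
    linarith
  have a6 : 0 ≤ sin r := sin_nonneg_of_nonneg_of_le_pi hs.r0 (by linarith [hs.r1, pi_pos])
  have a7 : s ≤ sin r := le_of_sq_le_sq a5 a6
  exact a7.trans (sin_le hs.r0)

/-- A lower bound of the imaginary part of a slot from the imaginary part of `sinh q`. -/
theorem Slot.sin_ge' {R I ρ β p r C ρ₀ s : ℝ} (hs : Slot R I ρ β p r) (h : 0 < R)
    (h' : R < π / 2) (hI : 0 < I) (hC : cosh p ^ 2 ≤ C) (hρ0 : 0 ≤ ρ₀) (hρ : ρ₀ ≤ ρ)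
    (hk : s ^ 2 * C * (1 + tan (th R I) ^ 2) ^ 2 ≤
      ρ₀ ^ 2 * (tan (th R I) ^ 2 * (1 + tan (th R I) ^ 2 + tan R ^ 2))) : s ≤ r := by
  have k := hs.im_ge h h' hI
  obtain ⟨y0, y1⟩ := basicY h h' hI
  have u0 : 0 ≤ tan (th R I) ^ 2 := sq_nonneg _
  have c0 := cosh_pos p
  have a6 : 0 ≤ sin r := sin_nonneg_of_nonneg_of_le_pi hs.r0 (by linarith [hs.r1, pi_pos])
  have k2 : (ρ₀ * (sinh I * cosh I * (1 + tan R ^ 2))) ^ 2 ≤
      (cosh p * sin r * (1 + tan (th R I) ^ 2)) ^ 2 :=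
    pow_le_pow_left₀ (by positivity) ((mul_le_mul_of_nonneg_right hρ y0.le).trans k) 2
  rw [mul_pow, y1] at k2
  have k3 : (cosh p * sin r * (1 + tan (th R I) ^ 2)) ^ 2 ≤
      sin r ^ 2 * C * (1 + tan (th R I) ^ 2) ^ 2 := by
    have := mul_le_mul_of_nonneg_right hC (by positivity :
      0 ≤ sin r ^ 2 * (1 + tan (th R I) ^ 2) ^ 2)
    linarith
  have C0 : 0 < C := lt_of_lt_of_le (by positivity) hC
  have a5 : s ^ 2 ≤ sin r ^ 2 := by
    by_contra hc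
    push Not at hc
    have : sin r ^ 2 * C * (1 + tan (th R I) ^ 2) ^ 2 < s ^ 2 * C * (1 + tan (th R I) ^ 2) ^ 2 := by
      have : 0 < C * (1 + tan (th R I) ^ 2) ^ 2 := by positivity
      nlinarith
    linarith
  have a7 : s ≤ sin r := le_of_sq_le_sq a5 a6
  exact a7.trans (sin_le hs.r0)

theorem tan_ge3 {x R : ℝ} (hx : 0 ≤ x) (h : x ≤ R) (h' : R < π / 2) : x + x ^ 3 / 3 ≤ tan R := by
  have h1 := LowA_pos (b := x) (f := fun y => tan y - y - y ^ 3 / 3)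
    (f' := fun y => tan y ^ 2 - y ^ 2)
    (fun y hy hy' => by
      have hc : cos y ≠ 0 := (cos_pos_of_mem_Ioo ⟨by linarith [pi_pos], by linarith⟩).ne'
      have k1 := Real.hasDerivAt_tan hc
      have k2 := ((hasDerivAt_pow 3 y).div_const 3)
      refine ((k1.sub (hasDerivAt_id' y)).sub k2).congr_deriv ?_
      rw [tan_eq_sin_div_cos, div_pow]
      field_simp
      have := sin_sq_add_cos_sq y
      norm_num
      linear_combination -3 * this)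
    (by simp) (fun y hy hy' => by
      have : y ≤ tan y := le_tan hy (by linarith)
      nlinarith) hx le_rfl
  have h2 : tan x ≤ tan R := by
    rcases h.eq_or_lt with e | e
    · rw [e]
    · exact (tan_lt_tan_of_nonneg_of_lt_pi_div_two hx h' e).le
  linarith

theorem v_ge {x R V : ℝ} (hx : 0 ≤ x) (h : x ≤ R) (h' : R < π / 2)
    (hV : V ≤ (x + x ^ 3 / 3) ^ 2) : V ≤ tan R ^ 2 :=
  hV.trans (pow_le_pow_left₀ (by positivity) (tan_ge3 hx h h') 2)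

theorem v_le {x R V : ℝ} (h : 0 ≤ R) (hx : R ≤ x) (h1 : x ≤ 1) (hV0 : 0 ≤ V)
    (hV : 1 ≤ (1 + V) * (2 * (1 - x ^ 2 / 8) ^ 2 - 1) ^ 2) : tan R ^ 2 ≤ V := by
  have hpi := pi_gt_three
  have c1 : 1 - (x / 2) ^ 2 / 2 ≤ cos (x / 2) := one_sub_sq_div_two_le_cos
  have x0 : 0 ≤ x := h.trans hx
  have c2 : 2 * (1 - x ^ 2 / 8) ^ 2 - 1 ≤ cos R := by
    have : cos x ≤ cos R := cos_le_cos_of_nonneg_of_le_pi h (by linarith) hx
    have e : cos x = 2 * cos (x / 2) ^ 2 - 1 := by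
      rw [← cos_two_mul]; congr 1; ring
    have c3 : (1 - x ^ 2 / 8) ^ 2 ≤ cos (x / 2) ^ 2 :=
      pow_le_pow_left₀ (by nlinarith) (by linarith) 2
    linarith
  have c4 : 0 ≤ 2 * (1 - x ^ 2 / 8) ^ 2 - 1 := by nlinarith [sq_nonneg (x ^ 2)]
  have c5 : (2 * (1 - x ^ 2 / 8) ^ 2 - 1) ^ 2 ≤ cos R ^ 2 := pow_le_pow_left₀ c4 c2 2
  have c6 : 0 < cos R := by
    have : 0 < cos 1 := cos_one_pos
    exact this.trans_le (cos_le_cos_of_nonneg_of_le_pi h (by linarith) (hx.trans h1))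
  have c7 : cos R ^ 2 * (1 + tan R ^ 2) = 1 := by
    rw [tan_eq_sin_div_cos, div_pow]
    field_simp
    rw [cos_sq_add_sin_sq]
  have c8 : 1 ≤ (1 + V) * cos R ^ 2 :=
    hV.trans (mul_le_mul_of_nonneg_left c5 (by linarith))
  have c9 : 0 < cos R ^ 2 := by positivity
  by_contra hc
  push Not at hc
  nlinarith

section

variable {R I ρ₁ β₁ p₁ r₁ ρ₂ β₂ p₂ r₂ : ℝ}

/-- `π/6 ≤ R` -/
theorem Vx.R_pi6 (h : Vx 3 R I ρ₁ β₁ p₁ r₁ ρ₂ β₂ p₂ r₂) (h1 : ρ₁ ≤ 1) (h2 : ρ₂ ≤ 1) :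
    π / 6 ≤ R := by
  by_contra hc
  push Not at hc
  have hpi := pi_pos
  have hR := h.R0
  have k := h.relS h1 h2 (m := 0) (cos_nonneg_of_mem_Icc ⟨by linarith, by linarith⟩) le_rfl
  obtain ⟨e1, e2, -, -, -⟩ := basic h.R0 h.R1 h.I0
  have c1 : 3 / 4 ≤ cos R ^ 2 := by
    have : cos (π / 6) ≤ cos R := cos_le_cos_of_nonneg_of_le_pi hR.le (by linarith) hc.le
    rw [cos_pi_div_six] at this
    have := pow_le_pow_left₀ (by positivity) this 2
    rw [div_pow, Real.sq_sqrt (by norm_num)] at this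
    linarith
  have u0 : 0 ≤ tan (th R I) ^ 2 := sq_nonneg _
  have v0 : 0 ≤ tan R ^ 2 := sq_nonneg _
  have t0 : 0 ≤ sinh I ^ 2 := sq_nonneg _
  generalize tan (th R I) ^ 2 = u at *
  generalize tan R ^ 2 = v at *
  generalize sinh I ^ 2 = t at *
  generalize cos R ^ 2 = c at *
  have v1 : v ≤ 1 / 3 := by nlinarith
  have t1 : 3 / 4 * u ≤ t := by nlinarith
  nlinarith [mul_nonneg t0 u0, mul_nonneg u0 u0]

/-- `31/50 ≤ R` for `1/5 ≤ tan² θ` -/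
theorem Vx.R_62 (h : Vx 3 R I ρ₁ β₁ p₁ r₁ ρ₂ β₂ p₂ r₂) (h1 : ρ₁ ≤ 1) (h2 : ρ₂ ≤ 1)
    (hu : 1 / 5 ≤ tan (th R I) ^ 2) : 31 / 50 ≤ R := by
  by_contra hc
  push Not at hc
  have hR6 := h.R_pi6 h1 h2
  have p1 := pi_gt_d4
  have p2 := pi_lt_d4
  have c3 : -(29 / 100) ≤ cos (3 * R) := by
    have e : cos (3 * R) = -sin (3 * R - π / 2) := by rw [sin_sub_pi_div_two]; ring
    have : sin (3 * R - π / 2) ≤ 3 * R - π / 2 := sin_le (by linarith)
    rw [e]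
    linarith
  have k := h.relS h1 h2 (m := -(29 / 100)) c3 (by norm_num)
  obtain ⟨e1, e2, -, -, -⟩ := basic h.R0 h.R1 h.I0
  have v1 : tan R ^ 2 ≤ 516 / 1000 := v_le h.R0.le hc.le (by norm_num) (by norm_num) (by norm_num)
  have v0 : 0 ≤ tan R ^ 2 := sq_nonneg _
  have t0 : 0 ≤ sinh I ^ 2 := sq_nonneg _
  generalize tan (th R I) ^ 2 = u at *
  generalize tan R ^ 2 = v at *
  generalize sinh I ^ 2 = t at *
  have t1 : 659 / 1000 * u ≤ t := by nlinarith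
  nlinarith [mul_nonneg t0 (by linarith : 0 ≤ u - 1 / 5)]

/-- The exact relation, with `d = 3 - 2 b`. -/
theorem Vx.relD (h : Vx 3 R I ρ₁ β₁ p₁ r₁ ρ₂ β₂ p₂ r₂) (h1 : 13 / 20 ≤ ρ₁) (h2 : ρ₂ ≤ 1)
    (ht : sinh I ^ 2 ≤ 3 / 5) {d : ℝ} (hd : 0 ≤ d) (hd' : p₂ - p₁ = d * I) :
    (sin (3 * R) * sin (r₂ - r₁) + 3 * d * (sinh I ^ 2 * (1 + sinh I ^ 2))) *
      (1 + tan (th R I) ^ 2) ≤ 231 / 400 * (tan (th R I) ^ 2 + tan R ^ 2) := by
  have k := h.relA5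
  have f2 : ρ₂ ^ 2 ≤ 1 := by nlinarith [h.sl₂.ρ0]
  have f1 : 169 / 400 ≤ ρ₁ ^ 2 := by nlinarith
  have s0 : 0 < sinh I := sinh_pos_iff.2 h.I0
  have k1 := arsh_three h.I0.le (ht.trans (by norm_num))
  have k2 : d * (sinh I - sinh I ^ 3 / 6) ≤ sinh (p₂ - p₁) := by
    rw [hd']
    exact (mul_le_mul_of_nonneg_left k1 hd).trans (self_le_sinh_iff.2 (mul_nonneg hd h.I0.le))
  have k3 : sinh (3 * I) = 4 * sinh I ^ 3 + 3 * sinh I := sinh_three_mul I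
  have k4 : 3 * d * (sinh I ^ 2 * (1 + sinh I ^ 2)) ≤ sinh (3 * I) * sinh (p₂ - p₁) := by
    have a1 : sinh (3 * I) * (d * (sinh I - sinh I ^ 3 / 6)) ≤ sinh (3 * I) * sinh (p₂ - p₁) :=
      mul_le_mul_of_nonneg_left k2 (by rw [k3]; positivity)
    refine le_trans ?_ a1
    rw [k3]
    have e : (4 * sinh I ^ 3 + 3 * sinh I) * (d * (sinh I - sinh I ^ 3 / 6)) -
        3 * d * (sinh I ^ 2 * (1 + sinh I ^ 2)) =
        d * (sinh I ^ 2) ^ 2 * (1 / 2 - 2 / 3 * sinh I ^ 2) := by ring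
    have : 0 ≤ d * (sinh I ^ 2) ^ 2 * (1 / 2 - 2 / 3 * sinh I ^ 2) :=
      mul_nonneg (by positivity) (by linarith)
    linarith
  have u0 : 0 ≤ tan (th R I) ^ 2 := sq_nonneg _
  have v0 : 0 ≤ tan R ^ 2 := sq_nonneg _
  calc (sin (3 * R) * sin (r₂ - r₁) + 3 * d * (sinh I ^ 2 * (1 + sinh I ^ 2))) *
      (1 + tan (th R I) ^ 2) ≤
      (sin (3 * R) * sin (r₂ - r₁) + sinh (3 * I) * sinh (p₂ - p₁)) * (1 + tan (th R I) ^ 2) :=
        mul_le_mul_of_nonneg_right (by linarith) (by positivity)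
    _ = (ρ₂ ^ 2 - ρ₁ ^ 2) * (tan (th R I) ^ 2 + tan R ^ 2) := k
    _ ≤ 231 / 400 * (tan (th R I) ^ 2 + tan R ^ 2) :=
        mul_le_mul_of_nonneg_right (by linarith) (by positivity)

end

/-- The bound of `δ + d R`. -/
theorem dR_le₁ {S δ d R : ℝ} (hS : 789 / 1000 ≤ S) (hS1 : S ≤ 1) (hd : 0 ≤ d) (hd1 : d ≤ 17 / 10)
    (hδ : δ ≤ π / 2) (hR0 : 0 ≤ R) (hR : R ≤ 37 / 50)
    (h : S * sin δ ≤ 5137 / 10000 - 3597 / 10000 * d) : δ + d * R ≤ 118 / 100 := by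
  have p2 := pi_lt_d4
  have p1 := pi_gt_d4
  have k : d * R ≤ d * (37 / 50) := mul_le_mul_of_nonneg_left hR hd
  rcases le_total δ 0 with h0 | h0
  · have a1 : δ ≤ sin δ := by
      have := sin_le (x := -δ) (by linarith)
      rw [sin_neg] at this
      linarith
    rcases le_total (sin δ) 0 with b | b
    · have : sin δ ≤ S * sin δ := by nlinarith
      linarith
    · have := mul_nonneg (by linarith : 0 ≤ S) b
      linarith
  · have a1 : 2 / π * δ ≤ sin δ := mul_le_sin h0 hδ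
    have a2 : 0 ≤ sin δ := sin_nonneg_of_nonneg_of_le_pi h0 (by linarith)
    have a3 : δ ≤ 15708 / 10000 * sin δ := by
      have e : δ = π / 2 * (2 / π * δ) := by field_simp
      have e1 : π / 2 * (2 / π * δ) ≤ π / 2 * sin δ := mul_le_mul_of_nonneg_left a1 (by positivity)
      have e2 : π / 2 * sin δ ≤ 15708 / 10000 * sin δ :=
        mul_le_mul_of_nonneg_right (by linarith) a2
      exact e.trans_le (e1.trans e2)
    have a4 : 789 / 1000 * sin δ ≤ S * sin δ := mul_le_mul_of_nonneg_right hS a2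
    linarith

/-- The bound of `δ + d R`. -/
theorem dR_le₂ {S δ d R : ℝ} (hS : 8263 / 10000 ≤ S) (hS1 : S ≤ 1) (hd : 0 ≤ d) (hd1 : d ≤ 17 / 10)
    (hδ : δ ≤ π / 2) (hR0 : 0 ≤ R) (hR : R ≤ 18 / 25)
    (h : S * sin δ ≤ 4725 / 10000 - 1777 / 10000 * d) : δ + d * R ≤ 1486 / 1000 := by
  have p2 := pi_lt_d4
  have p1 := pi_gt_d4
  have k : d * R ≤ d * (18 / 25) := mul_le_mul_of_nonneg_left hR hd
  rcases le_total δ 0 with h0 | h0
  · have a1 : δ ≤ sin δ := by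
      have := sin_le (x := -δ) (by linarith)
      rw [sin_neg] at this
      linarith
    rcases le_total (sin δ) 0 with b | b
    · have : sin δ ≤ S * sin δ := by nlinarith
      linarith
    · have := mul_nonneg (by linarith : 0 ≤ S) b
      linarith
  · have a1 : 2 / π * δ ≤ sin δ := mul_le_sin h0 hδ
    have a2 : 0 ≤ sin δ := sin_nonneg_of_nonneg_of_le_pi h0 (by linarith)
    have a3 : δ ≤ 15708 / 10000 * sin δ := by
      have e : δ = π / 2 * (2 / π * δ) := by field_simp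
      have e1 : π / 2 * (2 / π * δ) ≤ π / 2 * sin δ := mul_le_mul_of_nonneg_left a1 (by positivity)
      have e2 : π / 2 * sin δ ≤ 15708 / 10000 * sin δ :=
        mul_le_mul_of_nonneg_right (by linarith) a2
      exact e.trans_le (e1.trans e2)
    have a4 : 8263 / 10000 * sin δ ≤ S * sin δ := mul_le_mul_of_nonneg_right hS a2
    have a5 : δ ≤ 8983 / 10000 := by linarith
    have a6 : δ * (7983 / 10000) ≤ sin δ := by
      rcases h0.eq_or_lt with e | e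
      · rw [← e]; simp
      · have := sin_gt_sub_cube e
        nlinarith [mul_nonneg h0 (by nlinarith : 0 ≤ (8983 / 10000) ^ 2 - δ ^ 2)]
    linarith

end Pool.Agent.S3.E
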