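import Pool.Agent.S3.E.VAB

/-!
# Stage 3, block E: `2φ + φ' + r < π`

`star_two` (inner `2`, `|X| ≤ |b₁|²`): suppose `2φ + β₁ ≥ π/2`.  Put `Z = -X/b₁ = z₁ + i z₂`; its
argument is `π - 2φ - β₁ ∈ (0, π/2]`, so `z₁ ≥ 0`, `z₂ > 0`, and `|Z| = |X|/ρ₁ ≤ ρ₁`.  With
`s = b₂/b₁ = σ e^{-iδ}`, `σ = ρ₂/ρ₁ ≥ 1/2`, `δ = β₁ - β₂`, the quadratic equation is
`(1 + s)² + 4 Z b₂ + 4 Z² = 0`.  Put `1 + s = u₁ - i u₂`, `u₁ = 1 + σ cos δ > 0`, `u₂ = σ sin δ`.
Imaginary part: `2 (z₁ Im b₂ + z₂ Re b₂) + 4 z₁ z₂ = u₁ u₂`, so `2 z₂ Re b₂ ≤ u₁ u₂`, `δ > 0`.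
Real part: `u₁² - u₂² = 4 z₂² + 4 z₂ Im b₂ - 4 z₁² - 4 z₁ Re b₂ ≤ 4 z₂ (z₂ + Im b₂)` and
`z₂ ≤ ρ₁ = ρ₂/σ`.  Hence `(u₁² - u₂²) cos β₂ ≤ 2 u₁ sin δ (1 + σ sin β₂)`, that is, `f(σ) ≤ 0` with
`f(σ) = (cos β₂ - 2 sin δ) + 2σ (cos β₁ - sin δ cos δ) + σ² cos (β₁ + δ)`.
But `0 < δ ≤ β₁ ≤ 7/10`, so `f` increases with `σ`, and
`f(1/2) = cos (β₁ - δ) - 2 sin δ + cos β₁ - sin δ cos δ + cos (β₁ + δ)/4` decreases with `β₁` (to
`7/10`) and then with `δ` (to `7/10`), to the value `0.0262 > 0`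
(`sin 0.7 = 0.64422`, `cos 0.7 = 0.76484`, `cos 1.4 = 0.16997`).

`Vx.star3` (`a ≥ 3`): `3R + r₁ ≤ π`.  If `R ≥ π/4`: `φ < R` and `φ ≤ π/4` (Lemma B), so
`2φ + ψ < R + π/4 + π/4 ≤ 3R ≤ π - r₁`.  If `R < π/4`, put `T = tan R < 1`; `|κ|² ≤ 1` gives
`sinh² I ≤ sin² R`, so `tanh² I ≤ sin² R/(1 + sin² R)`, `tan² φ ≤ T⁴/(1 + 2T²) < 1/3`, `φ < π/6`.
If moreover `R ≥ 7π/36 = 0.6109`: `2φ + ψ < π/3 + π/4 ≤ 3R`.  If `R < 7π/36`: `T < 3/4`,
`tan² φ ≤ 0.149 < tan² (π/8) = 0.1716`, `φ < π/8`, `2φ + ψ < π/2`, `r₁ ≤ π/2`.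
-/

namespace Pool.Agent.S3.E

private theorem Star_pos {f f' : ℝ → ℝ} (hd : ∀ x, HasDerivAt f (f' x) x) (h0 : f 0 = 0)
    (hp : ∀ x, 0 ≤ x → 0 ≤ f' x) {x : ℝ} (hx : 0 ≤ x) : 0 ≤ f x := by
  have hm : MonotoneOn f (Set.Ici 0) := by
    apply monotoneOn_of_deriv_nonneg (convex_Ici 0)
    · exact fun y _ => (hd y).continuousAt.continuousWithinAt
    · exact fun y _ => (hd y).differentiableAt.differentiableWithinAt
    · intro y hy
      rw [(hd y).deriv]
      exact hp y (interior_subset hy)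
  have := hm (Set.mem_Ici.2 le_rfl) (Set.mem_Ici.2 hx) hx
  rwa [h0] at this

private theorem Star_s3 {x : ℝ} (hx : 0 ≤ x) : x - x ^ 3 / 6 ≤ Real.sin x := by
  have h := Star_pos (f := fun x => Real.sin x - (x - x ^ 3 / 6)) (f' := fun x => Real.cos x - (1 - x ^ 2 / 2))
    (fun x => by
      have h1 := (Real.hasDerivAt_sin x).sub ((hasDerivAt_id' x).sub ((hasDerivAt_pow 3 x).div_const 6))
      refine h1.congr_deriv ?_
      norm_num
      try ring)
    (by simp) (fun x hx => by linarith only [Real.one_sub_sq_div_two_le_cos (x := x)]) hx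
  linarith only [h]

private theorem Star_c4 {x : ℝ} (hx : 0 ≤ x) : Real.cos x ≤ 1 - x ^ 2 / 2 + x ^ 4 / 24 := by
  have h := Star_pos (f := fun x => 1 - x ^ 2 / 2 + x ^ 4 / 24 - Real.cos x) (f' := fun x => Real.sin x - (x - x ^ 3 / 6))
    (fun x => by
      have h1 := (((hasDerivAt_const x (1 : ℝ)).sub ((hasDerivAt_pow 2 x).div_const 2)).add
        ((hasDerivAt_pow 4 x).div_const 24)).sub (Real.hasDerivAt_cos x)
      refine h1.congr_deriv ?_
      norm_num
      try ring)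
    (by simp) (fun x hx => by linarith only [Star_s3 hx]) hx
  linarith only [h]

private theorem Star_s5 {x : ℝ} (hx : 0 ≤ x) : Real.sin x ≤ x - x ^ 3 / 6 + x ^ 5 / 120 := by
  have h := Star_pos (f := fun x => x - x ^ 3 / 6 + x ^ 5 / 120 - Real.sin x)
    (f' := fun x => 1 - x ^ 2 / 2 + x ^ 4 / 24 - Real.cos x)
    (fun x => by
      have h1 := (((hasDerivAt_id' x).sub ((hasDerivAt_pow 3 x).div_const 6)).add
        ((hasDerivAt_pow 5 x).div_const 120)).sub (Real.hasDerivAt_sin x)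
      refine h1.congr_deriv ?_
      norm_num
      try ring)
    (by simp) (fun x hx => by linarith only [Star_c4 hx]) hx
  linarith only [h]

private theorem Star_c6 {x : ℝ} (hx : 0 ≤ x) : 1 - x ^ 2 / 2 + x ^ 4 / 24 - x ^ 6 / 720 ≤ Real.cos x := by
  have h := Star_pos (f := fun x => Real.cos x - (1 - x ^ 2 / 2 + x ^ 4 / 24 - x ^ 6 / 720))
    (f' := fun x => x - x ^ 3 / 6 + x ^ 5 / 120 - Real.sin x)
    (fun x => by
      have h1 := (Real.hasDerivAt_cos x).sub ((((hasDerivAt_const x (1 : ℝ)).sub ((hasDerivAt_pow 2 x).div_const 2)).add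
        ((hasDerivAt_pow 4 x).div_const 24)).sub ((hasDerivAt_pow 6 x).div_const 720))
      refine h1.congr_deriv ?_
      norm_num
      try ring)
    (by simp) (fun x hx => by linarith only [Star_s5 hx]) hx
  linarith only [h]

private theorem Star_sin7 : Real.sin (7 / 10) ≤ 0.6443 := by
  have := Star_s5 (x := 7 / 10) (by norm_num)
  norm_num at this ⊢
  linarith only [this]

private theorem Star_cos7 : 0.7648 ≤ Real.cos (7 / 10) := by
  have := Star_c6 (x := 7 / 10) (by norm_num)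
  norm_num at this ⊢
  linarith only [this]

/-- The key inequality. -/
private theorem Star_key {s c S C cb : ℝ} (hs0 : 0 ≤ s) (hs1 : s ≤ 0.6443) (hc : 0.7648 ≤ c)
    (hsS : s ≤ S) (hC : 0.7648 ≤ C) (hcb : cb = C * c + S * s) :
    0 < (cb - 2 * s) + (C - s * c) + (C * c - S * s) / 4 := by
  subst hcb
  have h1 : s * s ≤ S * s := mul_le_mul_of_nonneg_right hsS hs0
  have h2 : 0.7648 * (1 + 5 / 4 * c) ≤ C * (1 + 5 / 4 * c) := mul_le_mul_of_nonneg_right hC (by linarith only [hc])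
  have h3 : 0 ≤ (0.6443 - s) * (c - 0.7648) := mul_nonneg (by linarith only [hs1]) (by linarith only [hc])
  linarith only [h2, h1, hc, hs1, mul_nonneg (sub_nonneg.2 hs1) (sub_nonneg.2 hc),
    mul_nonneg (sub_nonneg.2 hs1) (sub_nonneg.2 hs1)]

/-- Real and imaginary parts of the quadratic equation times `e^{-2iβ₁}`. -/
private theorem Star_eq {r T ρ₁ β₁ ρ₂ β₂ φ : ℝ} {X : ℂ} (hX : X = (r : ℂ) * Complex.exp (-(2 * φ : ℝ) * Complex.I))
    (hT : T = 2 * φ + β₁)
    (h : 4 * X ^ 2 - 4 * (((ρ₁ : ℂ) * Complex.exp ((β₁ : ℂ) * Complex.I)) *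
      ((ρ₂ : ℂ) * Complex.exp ((β₂ : ℂ) * Complex.I))) * X +
      (((ρ₁ : ℂ) * Complex.exp ((β₁ : ℂ) * Complex.I)) +
        ((ρ₂ : ℂ) * Complex.exp ((β₂ : ℂ) * Complex.I))) ^ 2 = 0) :
    (4 * r ^ 2 * (Real.cos T ^ 2 - Real.sin T ^ 2) - 4 * ρ₁ * ρ₂ * r * (Real.cos β₂ * Real.cos T + Real.sin β₂ * Real.sin T) +
      (ρ₁ + ρ₂ * Real.cos (β₁ - β₂)) ^ 2 - (ρ₂ * Real.sin (β₁ - β₂)) ^ 2 = 0) ∧
    (- (8 * r ^ 2 * Real.cos T * Real.sin T) - 4 * ρ₁ * ρ₂ * r * (Real.sin β₂ * Real.cos T - Real.cos β₂ * Real.sin T) -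
      2 * (ρ₁ + ρ₂ * Real.cos (β₁ - β₂)) * (ρ₂ * Real.sin (β₁ - β₂)) = 0) := by
  have hw1 : Complex.exp ((β₁ : ℂ) * Complex.I) * Complex.exp (-(β₁ : ℂ) * Complex.I) = 1 := by
    rw [← Complex.exp_add]
    simp
  have hwX : X * Complex.exp (-(β₁ : ℂ) * Complex.I) = (r : ℂ) * Complex.exp (-(T : ℝ) * Complex.I) := by
    rw [hX, mul_assoc, ← Complex.exp_add, hT]
    congr 2
    push_cast
    ring
  have hw2 : Complex.exp ((β₂ : ℂ) * Complex.I) * Complex.exp (-(β₁ : ℂ) * Complex.I) =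
      Complex.exp (-((β₁ - β₂ : ℝ) : ℂ) * Complex.I) := by
    rw [← Complex.exp_add]
    congr 1
    push_cast
    ring
  have key : 4 * ((r : ℂ) * Complex.exp (-(T : ℝ) * Complex.I)) ^ 2 -
      4 * (ρ₁ * (ρ₂ * Complex.exp ((β₂ : ℂ) * Complex.I))) * ((r : ℂ) * Complex.exp (-(T : ℝ) * Complex.I)) +
      ((ρ₁ : ℂ) + ρ₂ * Complex.exp (-((β₁ - β₂ : ℝ) : ℂ) * Complex.I)) ^ 2 = 0 := by
    rw [← hwX, ← hw2]
    generalize Complex.exp ((β₁ : ℂ) * Complex.I) = E at *
    generalize Complex.exp (-(β₁ : ℂ) * Complex.I) = E' at *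
    generalize Complex.exp ((β₂ : ℂ) * Complex.I) = F at *
    linear_combination E' ^ 2 * h + (4 * ρ₁ * ρ₂ * F * X * E' - (ρ₁ ^ 2 * (E * E' + 1)) - 2 * ρ₁ * ρ₂ * F * E') * hw1
  have e1 : ∀ x : ℝ, Complex.exp (-(x : ℝ) * Complex.I) = (Real.cos x : ℂ) - (Real.sin x : ℂ) * Complex.I := by
    intro x
    rw [neg_mul, ← mul_neg, ← neg_mul_eq_mul_neg, ← neg_mul, Complex.exp_mul_I, Complex.cos_neg, Complex.sin_neg]
    push_cast
    ring
  have e2 : ∀ x : ℝ, Complex.exp ((x : ℝ) * Complex.I) = (Real.cos x : ℂ) + (Real.sin x : ℂ) * Complex.I := by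
    intro x
    rw [Complex.exp_mul_I]
    push_cast
    ring
  rw [e1, e1, e2] at key
  have kr := congrArg Complex.re key
  have ki := congrArg Complex.im key
  simp only [pow_two, Complex.add_re, Complex.sub_re, Complex.mul_re, Complex.ofReal_re, Complex.ofReal_im,
    Complex.I_re, Complex.I_im, Complex.add_im, Complex.sub_im, Complex.mul_im, Complex.zero_re, Complex.zero_im,
    Complex.re_ofNat, Complex.im_ofNat] at kr ki
  constructor
  · linear_combination kr
  · linear_combination ki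

theorem star_two {X : ℂ} {φ ρ₁ β₁ ρ₂ β₂ : ℝ}
    (h : 4 * X ^ 2 - 4 * (((ρ₁ : ℂ) * Complex.exp ((β₁ : ℂ) * Complex.I)) *
      ((ρ₂ : ℂ) * Complex.exp ((β₂ : ℂ) * Complex.I))) * X +
      (((ρ₁ : ℂ) * Complex.exp ((β₁ : ℂ) * Complex.I)) +
        ((ρ₂ : ℂ) * Complex.exp ((β₂ : ℂ) * Complex.I))) ^ 2 = 0)
    (hX : X = (‖X‖ : ℂ) * Complex.exp (-(2 * φ : ℝ) * Complex.I)) (hX0 : X ≠ 0)
    (hφ : 0 ≤ φ) (hφ' : φ ≤ Real.pi / 4) (hρ₁ : 0 < ρ₁) (hρ₁' : ρ₁ ≤ 1) (hρ₂ : 1 / 2 ≤ ρ₂)
    (hβ₁ : 0 ≤ β₁) (hβ₁' : β₁ ≤ 7 / 10) (hβ₂ : 0 ≤ β₂) (hβ₂' : β₂ ≤ Real.pi / 4)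
    (hXb : ‖X‖ ≤ ρ₁ ^ 2) : 2 * φ + β₁ < Real.pi / 2 := by
  by_contra hcon
  push Not at hcon
  have hpi := Real.pi_gt_three
  have hpi' := Real.pi_lt_d2
  obtain ⟨hre, him⟩ := Star_eq hX rfl h
  have hr : 0 < ‖X‖ := norm_pos_iff.2 hX0
  have hcT : Real.cos (2 * φ + β₁) ≤ 0 :=
    Real.cos_nonpos_of_pi_div_two_le_of_le hcon (by linarith only [hpi, hβ₁', hφ'])
  have hsT : 0 < Real.sin (2 * φ + β₁) := Real.sin_pos_of_pos_of_lt_pi (by linarith only [hpi, hcon]) (by linarith only [hpi,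
                                                                                                            hβ₁',
                                                                                                            hφ'])
  have hsT1 : Real.sin (2 * φ + β₁) ≤ 1 := Real.sin_le_one _
  have hz1 : 0 ≤ -(‖X‖ * Real.cos (2 * φ + β₁)) := by
    have := mul_nonneg hr.le (neg_nonneg.2 hcT)
    linarith only [this]
  have hz2 : 0 < ‖X‖ * Real.sin (2 * φ + β₁) := mul_pos hr hsT
  have hz2' : ‖X‖ * Real.sin (2 * φ + β₁) ≤ ρ₁ ^ 2 :=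
    (mul_le_of_le_one_right hr.le hsT1).trans hXb
  set z₁ := -(‖X‖ * Real.cos (2 * φ + β₁)) with hz1d
  set z₂ := ‖X‖ * Real.sin (2 * φ + β₁) with hz2d
  set c := Real.cos (β₁ - β₂) with hcd
  set s := Real.sin (β₁ - β₂) with hsd
  have hρ₂0 : 0 < ρ₂ := by linarith only [hρ₂]
  have hc7 := Star_cos7
  have hs7 := Star_sin7
  have hcβ₂ : 0 < Real.cos β₂ := Real.cos_pos_of_mem_Ioo ⟨by linarith only [hpi, hβ₂], by linarith only [hpi,
                                                                                            hβ₂']⟩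
  have hsβ₂ : 0 ≤ Real.sin β₂ := Real.sin_nonneg_of_nonneg_of_le_pi hβ₂ (by linarith only [hβ₂',
                                                                              hφ', hφ])
  have hc0 : 0 < c := Real.cos_pos_of_mem_Ioo ⟨by linarith only [hpi, hβ₂', hβ₁], by linarith only [hpi,
                                                                                       hβ₂, hβ₁']⟩
  -- the two equations
  have E1 : (ρ₁ + ρ₂ * c) * (ρ₂ * s) = 4 * z₁ * z₂ + 2 * ρ₁ * ρ₂ * (Real.sin β₂ * z₁ + Real.cos β₂ * z₂) := by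
    rw [hz1d, hz2d]
    linear_combination -(1 / 2) * him
  have E2 : (ρ₁ + ρ₂ * c) ^ 2 - (ρ₂ * s) ^ 2 = 4 * z₂ ^ 2 - 4 * z₁ ^ 2 - 4 * ρ₁ * ρ₂ * (Real.cos β₂ * z₁) +
      4 * ρ₁ * ρ₂ * (Real.sin β₂ * z₂) := by
    rw [hz1d, hz2d]
    linear_combination hre
  have hu : 0 < ρ₁ + ρ₂ * c := by positivity
  have E3 : 2 * ρ₁ * (Real.cos β₂ * z₂) ≤ (ρ₁ + ρ₂ * c) * s := by
    have e1 : 0 ≤ 4 * z₁ * z₂ + 2 * ρ₁ * ρ₂ * (Real.sin β₂ * z₁) := by positivity
    have e2 : ρ₂ * (2 * ρ₁ * (Real.cos β₂ * z₂)) ≤ ρ₂ * ((ρ₁ + ρ₂ * c) * s) := by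
      linarith only [e1, him]
    exact le_of_mul_le_mul_left e2 hρ₂0
  have hs0 : 0 < s := by
    have e1 : 0 < (ρ₁ + ρ₂ * c) * s := lt_of_lt_of_le (by positivity) E3
    exact (mul_pos_iff_of_pos_left hu).1 e1
  have hδ : 0 < β₁ - β₂ := by
    by_contra hδ
    push Not at hδ
    have : s ≤ 0 := Real.sin_nonpos_of_nonpos_of_neg_pi_le hδ (by linarith only [hβ₂', hβ₁, hφ', hφ])
    linarith only [this, hs0]
  have E4 : (ρ₁ + ρ₂ * c) ^ 2 - (ρ₂ * s) ^ 2 ≤ 4 * z₂ * (ρ₁ * (ρ₁ + ρ₂ * Real.sin β₂)) := by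
    have e1 : 0 ≤ 4 * z₁ ^ 2 + 4 * ρ₁ * ρ₂ * (Real.cos β₂ * z₁) := by positivity
    have e2 : z₂ * z₂ ≤ z₂ * ρ₁ ^ 2 := mul_le_mul_of_nonneg_left hz2' hz2.le
    linarith only [e2, e1, E2]
  have E5 : Real.cos β₂ * ((ρ₁ + ρ₂ * c) ^ 2 - (ρ₂ * s) ^ 2) ≤
      2 * ((ρ₁ + ρ₂ * c) * s) * (ρ₁ + ρ₂ * Real.sin β₂) := by
    have e1 := mul_le_mul_of_nonneg_left E4 hcβ₂.le
    have e2 := mul_le_mul_of_nonneg_right E3 (by positivity : 0 ≤ 2 * (ρ₁ + ρ₂ * Real.sin β₂))
    linarith only [e2, e1]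
  -- trigonometry
  have hC : Real.cos (7 / 10) ≤ Real.cos β₁ :=
    Real.cos_le_cos_of_nonneg_of_le_pi hβ₁ (by linarith only [hpi]) hβ₁'
  have hS : Real.sin β₁ ≤ Real.sin (7 / 10) :=
    Real.sin_le_sin_of_le_of_le_pi_div_two (by linarith only [hβ₁, hφ', hφ]) (by linarith only [hpi]) hβ₁'
  have hc7' : Real.cos (7 / 10) ≤ c :=
    Real.cos_le_cos_of_nonneg_of_le_pi hδ.le (by linarith only [hpi]) (by linarith only [hβ₂, hβ₁'])
  have hsS : s ≤ Real.sin β₁ :=
    Real.sin_le_sin_of_le_of_le_pi_div_two (by linarith only [hβ₂', hβ₁, hφ', hφ]) (by linarith only [hpi,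
                                                                                         hβ₁']) (by linarith only [hβ₂])
  have hcs : c ^ 2 + s ^ 2 = 1 := by rw [hcd, hsd]; exact Real.cos_sq_add_sin_sq _
  have hc1 : c ≤ 1 := Real.cos_le_one _
  have hCS := Real.cos_sq_add_sin_sq β₁
  have hcb : Real.cos β₂ = Real.cos β₁ * c + Real.sin β₁ * s := by
    have : β₂ = β₁ - (β₁ - β₂) := by ring
    conv_lhs => rw [this]
    rw [Real.cos_sub]
  have hsb : Real.sin β₂ = Real.sin β₁ * c - Real.cos β₁ * s := by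
    have : β₂ = β₁ - (β₁ - β₂) := by ring
    conv_lhs => rw [this]
    rw [Real.sin_sub]
  have key := Star_key (s := s) (c := c) (S := Real.sin β₁) (C := Real.cos β₁) (cb := Real.cos β₂) hs0.le
    (by linarith only [hsS, hS, hs7]) (by linarith only [hc7', hc7]) hsS (by linarith only [hC, hc7]) hcb
  have hA : 0 < Real.cos β₁ - s * c := by (refine lt_of_not_ge fun hng => ?_; linarith only [hng,
                                            hcs, hC, hc7,
                                            mul_nonneg (sub_nonneg.2 hC) (sub_nonneg.2 hC),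
                                            mul_nonneg (sub_nonneg.2 hc7) (sub_nonneg.2 hC),
                                            mul_nonneg (sub_nonneg.2 hc7) (sub_nonneg.2 hc7),
                                            mul_nonneg (sub_nonneg.2 hng) (sub_nonneg.2 hC),
                                            mul_nonneg (sub_nonneg.2 hng) (sub_nonneg.2 hc7),
                                            mul_nonneg (sub_nonneg.2 hng) (sub_nonneg.2 hng),
                                            mul_nonneg (sq_nonneg (s)) (sub_nonneg.2 hcs.le),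
                                            mul_nonneg (sq_nonneg (s)) (sub_nonneg.2 hcs.ge),
                                            mul_nonneg (sq_nonneg (s)) (sq_nonneg (s)),
                                            mul_nonneg (sq_nonneg (c)) (sub_nonneg.2 hcs.le),
                                            mul_nonneg (sq_nonneg (c)) (sub_nonneg.2 hcs.ge),
                                            mul_nonneg (sq_nonneg (c)) (sq_nonneg (c))])
  have hB : 0 < Real.cos β₁ * c - Real.sin β₁ * s := by linarith only [hCS, hcs, hc7', hC, hc7,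
                                                          mul_nonneg (sub_nonneg.2 hsS) (sub_nonneg.2 hsS),
                                                          mul_nonneg (sub_nonneg.2 hc7') (sub_nonneg.2 hc7'),
                                                          mul_nonneg (sub_nonneg.2 hC) (sub_nonneg.2 hc7'),
                                                          mul_nonneg (sub_nonneg.2 hC) (sub_nonneg.2 hC),
                                                          mul_nonneg (sub_nonneg.2 hc7) (sub_nonneg.2 hc7'),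
                                                          mul_nonneg (sub_nonneg.2 hc7) (sub_nonneg.2 hC),
                                                          mul_nonneg (sub_nonneg.2 hc7) (sub_nonneg.2 hc7)]
  -- expand
  have F : ρ₁ ^ 2 * (Real.cos β₂ - 2 * s) + 2 * ρ₁ * ρ₂ * (Real.cos β₁ - s * c) +
      ρ₂ ^ 2 * (Real.cos β₁ * c - Real.sin β₁ * s) ≤ 0 := by
    have e1 : Real.cos β₂ * ((ρ₁ + ρ₂ * c) ^ 2 - (ρ₂ * s) ^ 2) -
      2 * ((ρ₁ + ρ₂ * c) * s) * (ρ₁ + ρ₂ * Real.sin β₂) =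
      ρ₁ ^ 2 * (Real.cos β₂ - 2 * s) + 2 * ρ₁ * ρ₂ * (Real.cos β₁ - s * c) +
      ρ₂ ^ 2 * (Real.cos β₁ * c - Real.sin β₁ * s) := by
      rw [hcb, hsb]
      have hC' : Real.cos β₁ * (c ^ 2 + s ^ 2 - 1) = 0 := by rw [hcs]; ring
      have hS' : Real.sin β₁ * (c ^ 2 + s ^ 2 - 1) = 0 := by rw [hcs]; ring
      linear_combination (2 * ρ₁ * ρ₂ + ρ₂ ^ 2 * c) * hC' - ρ₂ ^ 2 * s * hS'
    linarith only [e1, E5]
  have hρ : ρ₁ ≤ 2 * ρ₂ := by linarith only [hρ₂, hρ₁']
  have g1 : ρ₁ ^ 2 * (Real.cos β₁ - s * c) ≤ 2 * ρ₁ * ρ₂ * (Real.cos β₁ - s * c) := by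
    apply mul_le_mul_of_nonneg_right _ hA.le
    (refine le_of_not_gt fun hng => ?_; linarith only [mul_pos (sub_pos.2 hng) (sub_pos.2 hρ₁),
      mul_nonneg (sq_nonneg (ρ₁)) (sub_nonneg.2 hρ₂),
      mul_nonneg (sq_nonneg (ρ₁)) (sub_nonneg.2 hρ₁')])
  have g2 : ρ₁ ^ 2 * ((Real.cos β₁ * c - Real.sin β₁ * s) / 4) ≤ ρ₂ ^ 2 * (Real.cos β₁ * c - Real.sin β₁ * s) := by
    have : ρ₁ ^ 2 / 4 ≤ ρ₂ ^ 2 := by linarith only [hρ₂, hρ₁',
                                       mul_nonneg (sub_nonneg.2 hρ₂) (sub_nonneg.2 hρ₂),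
                                       mul_nonneg (sub_nonneg.2 hρ₁.le) (sub_nonneg.2 hρ₁')]
    have := mul_le_mul_of_nonneg_right this hB.le
    linarith only [this]
  have g3 : 0 < ρ₁ ^ 2 * ((Real.cos β₂ - 2 * s) + (Real.cos β₁ - s * c) + (Real.cos β₁ * c - Real.sin β₁ * s) / 4) :=
    mul_pos (by positivity) key
  linarith only [g3, g2, g1, F]

theorem Vx.star3 {a R I ρ₁ β₁ p₁ r₁ ρ₂ β₂ p₂ r₂ ψ : ℝ} (h : Vx a R I ρ₁ β₁ p₁ r₁ ρ₂ β₂ p₂ r₂)
    (ha : 3 ≤ a) (hk : k2 R I ≤ 1) (hψ : ψ ≤ Real.pi / 4) :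
    2 * ph R I + ψ + r₁ < Real.pi := by
  have h0 := h.R0
  have h1 := h.R1
  have hI := h.I0
  have hpi := Real.pi_gt_three
  have hpi' := Real.pi_lt_d2
  have hr2 := h.sl₂.r0
  have hr1 := h.sl₁.r1
  have hsum := h.hR
  have e3 : 3 * R ≤ a * R := mul_le_mul_of_nonneg_right ha h0.le
  have hB := h.lemB
  have hth : Real.tanh I < 1 := Real.tanh_lt_one I
  have hth0 : 0 < Real.tanh I := by
    rw [Real.tanh_eq_sinh_div_cosh]
    exact div_pos (Real.sinh_pos_iff.2 hI) (Real.cosh_pos I)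
  have htan : 0 < Real.tan R := Real.tan_pos_of_pos_of_lt_pi_div_two h0 h1
  by_cases hR : Real.pi / 4 ≤ R
  · have e4 : ph R I < R := by
      unfold ph
      calc Real.arctan (Real.tan R * Real.tanh I) < Real.arctan (Real.tan R) :=
            Real.arctan_strictMono (mul_lt_of_lt_one_right htan hth)
        _ = R := Real.arctan_tan (by linarith only [h1, h0]) h1
    linarith only [e4, hR, e3, hsum, hr2, hψ]
  push Not at hR
  have hk' := hk
  rw [GeoX_k2] at hk'
  have hcs := Real.cos_sq_add_sin_sq R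
  have hch := Real.cosh_sq I
  have hsh : Real.sinh I ^ 2 ≤ Real.sin R ^ 2 := by linarith only [hch, hcs, hk']
  have hcR : 0 < Real.cos R := GeoX_cos_pos h0 h1
  have hsR : 0 < Real.sin R := GeoX_sin_pos h0 h1
  set t := Real.tan R * Real.tanh I with htd
  have ht0 : 0 < t := mul_pos htan hth0
  have hph : ph R I = Real.arctan t := rfl
  -- `t² (1 + s²) (1 - s²) ≤ s⁴`
  set q := Real.sin R ^ 2 with hq
  have hq0 : 0 < q := by positivity
  have hcq : Real.cos R ^ 2 = 1 - q := by linarith only [hcs]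
  have hq1 : 0 < 1 - q := by rw [← hcq]; positivity
  have ht2 : t ^ 2 * ((1 - q) * (1 + q)) ≤ q * q := by
    have a1 : t ^ 2 = q / (1 - q) * (Real.sinh I ^ 2 / (1 + Real.sinh I ^ 2)) := by
      rw [htd, Real.tan_eq_sin_div_cos, Real.tanh_eq_sinh_div_cosh, mul_pow, div_pow, div_pow, hcq, hch]
      ring
    have a2 : Real.sinh I ^ 2 / (1 + Real.sinh I ^ 2) ≤ q / (1 + q) := by
      rw [div_le_div_iff₀ (by positivity) (by positivity)]
      linarith only [hsh]
    have a3 : t ^ 2 ≤ q / (1 - q) * (q / (1 + q)) := by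
      rw [a1]
      exact mul_le_mul_of_nonneg_left a2 (by positivity)
    have a4 : q / (1 - q) * (q / (1 + q)) * ((1 - q) * (1 + q)) = q * q := by
      field_simp
    calc t ^ 2 * ((1 - q) * (1 + q)) ≤ q / (1 - q) * (q / (1 + q)) * ((1 - q) * (1 + q)) :=
          mul_le_mul_of_nonneg_right a3 (by positivity)
      _ = q * q := a4
  by_cases hR2 : 7 * Real.pi / 36 ≤ R
  · -- `φ < π/6`
    have hqh : q < 1 / 2 := by
      have b1 : Real.sin R < Real.sin (Real.pi / 4) :=
        Real.sin_lt_sin_of_lt_of_le_pi_div_two (by linarith only [h1, h0]) (by linarith only [h1,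
                                                                                 h0]) hR
      rw [Real.sin_pi_div_four] at b1
      have b2 : (√2 / 2) ^ 2 = 1 / 2 := by
        rw [div_pow, Real.sq_sqrt (by norm_num)]
        norm_num
      rw [hq, ← b2]
      exact pow_lt_pow_left₀ b1 hsR.le (by norm_num)
    have ht3 : t ^ 2 < 1 / 3 := by
      by_contra hc
      push Not at hc
      linarith only [hqh, ht2, mul_pos (sub_pos.2 hq0) (sub_pos.2 hqh),
        mul_nonneg (sub_nonneg.2 (mul_pos hq1 (by linarith : 0 < 1 + q)).le) (sub_nonneg.2 hc)]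
    have hphi : ph R I < Real.pi / 6 := by
      by_contra hc
      push Not at hc
      rw [hph] at hc
      have b3 : Real.tan (Real.pi / 6) ≤ t := by
        rcases hc.lt_or_eq with hc | hc
        · have := Real.tan_lt_tan_of_lt_of_lt_pi_div_two (by linarith only [h1, h0]) (Real.arctan_lt_pi_div_two _) hc
          rw [Real.tan_arctan] at this
          exact this.le
        · rw [hc, Real.tan_arctan]
      rw [Real.tan_pi_div_six] at b3
      have b4 : (1 / √3) ^ 2 = 1 / 3 := by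
        rw [div_pow, Real.sq_sqrt (by norm_num)]
        norm_num
      have b5 : (1 / √3) ^ 2 ≤ t ^ 2 := pow_le_pow_left₀ (by positivity) b3 2
      linarith only [b5, b4, ht3]
    linarith only [hphi, hR2, e3, hsum, hr2, hψ]
  · push Not at hR2
    have hs6 : Real.sin R ≤ 0.6 := by
      have b1 : Real.sin R ≤ Real.sin 0.611 :=
        Real.sin_le_sin_of_le_of_le_pi_div_two (by linarith only [h1, h0]) (by norm_num; linarith only [hpi,
                                                                                           h1, h0]) (by linarith only [Real.pi_lt_d4,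
                                                                                                          hR2,
                                                                                                          hpi'])
      have b2 := Star_s5 (x := 0.611) (by norm_num)
      norm_num at b1 b2 ⊢
      linarith only [b2, b1, hpi', hpi]
    have hqh : q ≤ 0.36 := by
      rw [hq]
      (refine le_of_not_gt fun hng => ?_; linarith only [mul_nonneg (sub_nonneg.2 hsR.le) (sub_nonneg.2 hs6),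
        mul_pos (sub_pos.2 hng) (sub_pos.2 hsR),
        mul_nonneg (sq_nonneg (1 * Real.sin R)) (sub_nonneg.2 hs6)])
    have ht3 : t ^ 2 ≤ 0.149 := by
      by_contra hc
      push Not at hc
      linarith only [hqh, ht2, mul_nonneg (sub_nonneg.2 hq0.le) (sub_nonneg.2 hqh),
        mul_pos (sub_pos.2 hq0) (sub_pos.2 hq0),
        mul_pos (sub_pos.2 (mul_pos hq1 (by linarith : 0 < 1 + q))) (sub_pos.2 hc)]
    have ht4 : t < 0.4 := by
      by_contra hc
      push Not at hc
      linarith only [hc, ht3, mul_nonneg (sub_nonneg.2 hc) (sub_nonneg.2 hc)]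
    have hphi : 2 * ph R I < Real.pi / 4 := by
      rw [hph, Real.two_mul_arctan (by linarith only [ht0, hpi', hpi]) (by linarith only [ht4, hpi',
                                                                             hpi]), ← Real.arctan_one]
      apply Real.arctan_strictMono
      rw [div_lt_one (by linarith only [ht3])]
      linarith only [ht4, ht3]
    linarith only [hphi, hr1, hψ]

end Pool.Agent.S3.E
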