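import Pool.Agent.S3.E.SlB
import Pool.Agent.S3.E.SlC

/-!
# Stage 3, block E: Lemmas A, B, L and the bound of `φ` for `a ≥ 3`

Lemma A: if `|b_j| ≤ |κ|` and `|κ| > 1` then `p_j < I` for both slots (`Slot.lt_I`), so
`a I = p₁ + p₂ < 2 I`, a contradiction.

Lemma B: `r_j ≥ arctan (T tanh p_j)`, `T = tan α`, hence by subadditivity
`π = a R + r₁ + r₂ ≥ a R + arctan (T tanh (a I)) ≥ 2 R + arctan (T tanh 2I)`.  If `y = - cos 2R > 0`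
put `2R = π - ψ`, `cos ψ = y`, `0 < ψ < π/2`: `T tanh 2I ≤ tan ψ`, i.e.
`(c² - 1)/(c √(1 - y²)) ≤ √(1 - y²)/y`, i.e. `(c y - 1)(c + y) ≤ 0`.

Lemma L for `a ≥ 3`: `3R ≤ π`, so `g ≥ -1/2` and `|κ|² = (c + g)/2 ≥ 1/4`.

Bound of `φ` for `a ≥ 3` (suppose `φ > 7/10`; `tan R tanh I > 0.842`).  `R ≤ π/3`, so
`tanh I > 0.486`, `I > 0.53`, `T ≥ sinh 2I ≥ 1.26`, `tanh 3I ≥ 0.92`, `arctan (T tanh 3I) ≥ 0.85`,
so `3R ≤ π - 0.85`, `R ≤ 0.764`, `tan R ≤ 0.958`, `tanh I > 0.878`, `I > 1.36`, `T ≥ sinh 2.72 > 7.5`,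
`arctan (T tanh 3I) ≥ 1.43`, `R ≤ 0.571`, `tan R < 0.643 < 0.842`, a contradiction.
-/

namespace Pool.Agent.S3.E

open Real

private theorem VAB_mul_le {a R I ρ₁ β₁ p₁ r₁ ρ₂ β₂ p₂ r₂ : ℝ}
    (h : Vx a R I ρ₁ β₁ p₁ r₁ ρ₂ β₂ p₂ r₂) : 2 * I ≤ p₁ + p₂ := by
  rw [← h.hI]
  exact mul_le_mul_of_nonneg_right h.a2 h.I0.le

theorem Vx.lemA {a R I ρ₁ β₁ p₁ r₁ ρ₂ β₂ p₂ r₂ : ℝ} (h : Vx a R I ρ₁ β₁ p₁ r₁ ρ₂ β₂ p₂ r₂)
    (h₁ : ρ₁ ^ 2 ≤ k2 R I) (h₂ : ρ₂ ^ 2 ≤ k2 R I) : k2 R I ≤ 1 := by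
  by_contra hk
  rw [not_le] at hk
  have e1 := h.sl₁.lt_I h.R0 h.R1 h.I0 h₁ hk.le (Or.inl hk)
  have e2 := h.sl₂.lt_I h.R0 h.R1 h.I0 h₂ hk.le (Or.inl hk)
  have := VAB_mul_le h
  linarith

theorem Vx.lemA' {a R I ρ₁ β₁ p₁ r₁ ρ₂ β₂ p₂ r₂ : ℝ} (h : Vx a R I ρ₁ β₁ p₁ r₁ ρ₂ β₂ p₂ r₂)
    (h₁ : ρ₁ ^ 2 ≤ k2 R I) (h₂ : ρ₂ ^ 2 ≤ k2 R I) (hb₁ : 0 < β₁ ∨ ρ₁ = 0) (hb₂ : 0 < β₂ ∨ ρ₂ = 0) :
    k2 R I < 1 := by
  by_contra hk
  rw [not_lt] at hk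
  have e1 := h.sl₁.lt_I h.R0 h.R1 h.I0 h₁ hk (Or.inr hb₁)
  have e2 := h.sl₂.lt_I h.R0 h.R1 h.I0 h₂ hk (Or.inr hb₂)
  have := VAB_mul_le h
  linarith

private theorem VAB_tan_pos {R I : ℝ} (h : 0 < R) (h' : R < π / 2) (hI : 0 < I) :
    0 < tan (al R I) := by
  rw [tan_al]
  exact div_pos (sinh_two_pos hI) (sin_two_pos h h')

/-- `a R + arctan (T tanh (a I)) ≤ π`. -/
theorem Vx.sum_le {a R I ρ₁ β₁ p₁ r₁ ρ₂ β₂ p₂ r₂ : ℝ} (h : Vx a R I ρ₁ β₁ p₁ r₁ ρ₂ β₂ p₂ r₂) :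
    a * R + arctan (tan (al R I) * tanh (a * I)) ≤ π := by
  have hT := (VAB_tan_pos h.R0 h.R1 h.I0).le
  have e := arctan_subadd hT h.sl₁.p0 h.sl₂.p0
  have e1 := h.sl₁.arctan_le h.R0 h.R1 h.I0
  have e2 := h.sl₂.arctan_le h.R0 h.R1 h.I0
  rw [h.hI]
  have := h.hR
  linarith

private theorem VAB_tanh_nonneg {x : ℝ} (h : 0 ≤ x) : 0 ≤ tanh x := by
  rw [tanh_eq_sinh_div_cosh]
  exact div_nonneg (sinh_nonneg_iff.2 h) (cosh_pos x).le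

private theorem VAB_tanh_mono {x y : ℝ} (h : x ≤ y) : tanh x ≤ tanh y := by
  rw [tanh_eq_sinh_div_cosh, tanh_eq_sinh_div_cosh, div_le_div_iff₀ (cosh_pos x) (cosh_pos y)]
  have h1 : 0 ≤ sinh (y - x) := sinh_nonneg_iff.2 (by linarith)
  rw [sinh_sub] at h1
  linarith

/-- Lemma B. -/
theorem Vx.lemB {a R I ρ₁ β₁ p₁ r₁ ρ₂ β₂ p₂ r₂ : ℝ} (h : Vx a R I ρ₁ β₁ p₁ r₁ ρ₂ β₂ p₂ r₂) :
    ph R I ≤ π / 4 := by
  have h0 := h.R0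
  have h1 := h.R1
  have hI := h.I0
  rw [ph_le_iff h0 h1 hI]
  by_contra hc
  rw [not_le] at hc
  have c1 := one_lt_cc hI
  have g1 := neg_one_lt_gg h0 h1
  have hg : gg R < 0 := by
    by_contra hg
    rw [not_lt] at hg
    have := mul_nonneg hg (by linarith : 0 ≤ cc I)
    linarith
  have hsum := h.sum_le
  have hT := VAB_tan_pos h0 h1 hI
  have hs := sin_two_pos h0 h1
  have hsum2 : 2 * R + arctan (tan (al R I) * tanh (2 * I)) ≤ π := by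
    have e1 : 2 * R ≤ a * R := mul_le_mul_of_nonneg_right h.a2 h0.le
    have e2 : tanh (2 * I) ≤ tanh (a * I) :=
      VAB_tanh_mono (mul_le_mul_of_nonneg_right h.a2 hI.le)
    have e3 : arctan (tan (al R I) * tanh (2 * I)) ≤ arctan (tan (al R I) * tanh (a * I)) :=
      arctan_strictMono.monotone (mul_le_mul_of_nonneg_left e2 hT.le)
    linarith
  -- `ψ = π - 2 R` is acute
  have hR2 : π / 2 < 2 * R := by
    by_contra hR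
    rw [not_lt] at hR
    have : 0 ≤ cos (2 * R) := cos_nonneg_of_mem_Icc ⟨by linarith, hR⟩
    unfold gg at hg
    linarith
  have hle : tan (al R I) * tanh (2 * I) ≤ tan (π - 2 * R) := by
    have e1 : arctan (tan (al R I) * tanh (2 * I)) ≤ arctan (tan (π - 2 * R)) := by
      rw [arctan_tan (by linarith) (by linarith)]
      linarith
    exact arctan_strictMono.le_iff_le.1 e1
  have htan : tan (π - 2 * R) = sin (2 * R) / (-gg R) := by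
    rw [tan_eq_sin_div_cos, sin_pi_sub, cos_pi_sub]
    rfl
  rw [htan, tan_al, tanh_eq_sinh_div_cosh, div_mul_div_comm,
    div_le_div_iff₀ (mul_pos hs (cosh_pos _)) (by linarith)] at hle
  have e1 := sinh_two_sq I
  have e2 := sin_two_sq R
  have e3 : cosh (2 * I) = cc I := rfl
  rw [e3] at hle
  have e4 : sinh (2 * I) * sinh (2 * I) = cc I ^ 2 - 1 := by rw [← e1]; ring
  have e5 : sin (2 * R) * (sin (2 * R) * cc I) = (1 - gg R ^ 2) * cc I := by rw [← e2]; ring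
  rw [e4, e5] at hle
  have e6 : 0 < (-(gg R * cc I) - 1) * (cc I - gg R) := mul_pos (by linarith) (by linarith)
  have e7 : (-(gg R * cc I) - 1) * (cc I - gg R) =
      (cc I ^ 2 - 1) * (-gg R) - (1 - gg R ^ 2) * cc I := by ring
  linarith

/-- Lemma L for `a ≥ 3`. -/
theorem Vx.lemL3 {a R I ρ₁ β₁ p₁ r₁ ρ₂ β₂ p₂ r₂ : ℝ} (h : Vx a R I ρ₁ β₁ p₁ r₁ ρ₂ β₂ p₂ r₂)
    (ha : 3 ≤ a) : 1 / 4 ≤ k2 R I := by
  have h0 := h.R0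
  have hI := h.I0
  have e1 : 0 ≤ arctan (tan (al R I) * tanh (a * I)) := by
    rw [arctan_nonneg]
    exact mul_nonneg (VAB_tan_pos h0 h.R1 hI).le
      (VAB_tanh_nonneg (mul_nonneg (by linarith) hI.le))
  have e2 := h.sum_le
  have e3 : 3 * R ≤ a * R := mul_le_mul_of_nonneg_right ha h0.le
  have e4 : cos (2 * π / 3) ≤ cos (2 * R) :=
    cos_le_cos_of_nonneg_of_le_pi (by linarith) (by linarith [pi_pos]) (by linarith)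
  have e5 : cos (2 * π / 3) = -(1 / 2) := by
    have : 2 * π / 3 = π - π / 3 := by ring
    rw [this, cos_pi_sub, cos_pi_div_three]
  have e6 := one_lt_cc hI
  unfold k2
  have e7 : gg R = cos (2 * R) := rfl
  rw [e7]
  linarith

end Pool.Agent.S3.E
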